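import Pool.Agent.Lib.MP_0f5a55_nt.OM.K000

section

section F_Y_DA

open Complex MeasureTheory Set Filter Topology

namespace LP

/-- sum of f g over a period -/
noncomputable def Sf {N : ℕ} [NeZero N] (f g : ZMod N → ℂ) : ℂ := ∑ a : ZMod N, f a * g a

/-- the periodic Lambert function -/
noncomputable def PF {N : ℕ} [NeZero N] (f g : ZMod N → ℂ) (x : ℂ) : ℂ :=
  ∑ a : ZMod N, ∑ b : ZMod N,
    f a * g b * (exp (x + 2 * Real.pi * I * ((a.val : ℂ) - b.val) / N) - 1)⁻¹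

/-- regularised integral of PF -/
noncomputable def JF {N : ℕ} [NeZero N] (f g : ZMod N → ℂ) (η : ℂ) : ℂ :=
  ∫ y in Ioi (0:ℝ), (y : ℂ) ^ (-η) * (PF f g y - Sf f g * ((Real.exp (-y) / y : ℝ) : ℂ))

/-- dual constant -/
noncomputable def AC {N : ℕ} [NeZero N] (f g : ZMod N → ℂ) (η : ℂ) : ℂ :=
  -(Sf f g * Gamma (1 - η)) / η + JF f g η

end LP

end F_Y_DA

end

section

section F_D0

open Complex MeasureTheory Set Filter Topology

namespace LZ

/-- weight (1-x)_+^21 -/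
noncomputable def wt (x : ℝ) : ℝ := (max 0 (1 - x)) ^ 21

/-- kernel with wt x = integral of kk u * exp (-(1+iu) x), for x at least 0 -/
noncomputable def kk (u : ℝ) : ℂ :=
  (Nat.factorial 21 : ℂ) / (2 * Real.pi) * exp (1 + u * I) * ((1 + u * I) ^ 22)⁻¹

/-- primes at most z -/
def PP (z : ℕ) : Finset ℕ := (Finset.range (z + 1)).filter Nat.Prime

/-- product of a finite set of numbers -/
def nS (S : Finset ℕ) : ℕ := ∏ p ∈ S, p

/-- mollifier coefficient -/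
noncomputable def cf (lam l : ℝ) (S : Finset ℕ) : ℝ :=
  (-lam) ^ S.card * wt (Real.log (nS S) / l)

/-- mollifier; lam = 1 usual, lam = 1/2 Selberg, lam = 0 constant 1. Length exp l. -/
noncomputable def Mol (lam l : ℝ) (s : ℂ) : ℂ :=
  ∑ S ∈ (PP ⌊Real.exp l⌋₊).powerset, (cf lam l S : ℂ) * (nS S : ℂ) ^ (-s)

/-- prime sum -/
noncomputable def R (s : ℂ) : ℝ := ∑' p : Nat.Primes, ((((p : ℕ) : ℂ)) ^ (-s)).re

/-- truncated prime sum -/
noncomputable def Rz (z : ℕ) (s : ℂ) : ℝ := ∑ p ∈ PP z, ((p : ℂ) ^ (-s)).re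

/-- local Euler factor of the four variable gcd sum -/
noncomputable def EP (x : Fin 4 → ℂ) (c : ℂ) : ℂ :=
  (1 + x 0) * (1 + x 1) + (1 + x 2) * (1 + x 3) - 1
    + c * ((x 0 + x 1) * (x 2 + x 3) + (x 0 + x 1) * (x 2 * x 3) + (x 0 * x 1) * (x 2 + x 3))
    + c ^ 2 * (x 0 * x 1 * x 2 * x 3)

/-- signed combination of values at the exponents -/
noncomputable def SR (F : ℂ → ℝ) (lam : Fin 4 → ℝ) (A : Fin 4 → ℂ) (C : ℂ) : ℝ :=
  -(∑ j, lam j * F (A j)) + (lam 0 * lam 2 * F (A 0 + A 2 - C) + lam 0 * lam 3 * F (A 0 + A 3 - C)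
    + lam 1 * lam 2 * F (A 1 + A 2 - C) + lam 1 * lam 3 * F (A 1 + A 3 - C))

/-- mollified gcd sum -/
noncomputable def QQ (z : ℕ) (lam : Fin 4 → ℝ) (l : ℝ) (e : Fin 4 → ℂ) (e4 : ℂ) : ℂ :=
  ∑ S ∈ Fintype.piFinset (fun _ : Fin 4 => (PP z).powerset),
    (∏ j, (cf (lam j) l (S j) : ℂ) * (nS (S j) : ℂ) ^ (-1 - e j)) *
      ((Nat.gcd (nS (S 0) * nS (S 1)) (nS (S 2) * nS (S 3)) : ℕ) : ℂ) ^ (1 + e4)

/-- exponents after inserting the integral representation of the weights -/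
noncomputable def Aex (l : ℝ) (e : Fin 4 → ℂ) (u : Fin 4 → ℝ) (j : Fin 4) : ℂ :=
  1 + e j + (1 + u j * I) / l

/-- mean over (0,oo) with weight exp(-t/T)/T -/
noncomputable def EE (T : ℝ) (f : ℝ → ℂ) : ℂ :=
  (T : ℂ)⁻¹ * ∫ t in Ioi (0:ℝ), f t * (Real.exp (-t / T) : ℂ)

noncomputable def ER (T : ℝ) (f : ℝ → ℝ) : ℝ :=
  T⁻¹ * ∫ t in Ioi (0:ℝ), f t * Real.exp (-t / T)

noncomputable def f1 (y : ℝ) : ℝ := 1 / (Real.exp y - 1) - Real.exp (-y) / y

noncomputable def Ac (η : ℂ) : ℂ :=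
  -Gamma (1 - η) / η + ∫ y in Ioi (0:ℝ), (y : ℂ) ^ (-η) * (f1 y : ℂ)

/-- double series sum over m,n of m^(-eta) exp(-m n W) -/
noncomputable def DD (η W : ℂ) : ℂ :=
  ∑' m : ℕ, ((m : ℂ) + 1) ^ (-η) * (exp (((m : ℂ) + 1) * W) - 1)⁻¹

/-- 2 pi i exp(-i eps) h / k -/
noncomputable def WW (ε : ℝ) (h k : ℕ) : ℂ := 2 * Real.pi * I * exp (-(ε * I)) * h / k

/-- main term of the twisted second moment -/
noncomputable def mainT (T : ℝ) (α β : ℂ) (h k : ℕ) : ℂ :=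
  riemannZeta (1 + (α + β)) * ((h / Nat.gcd h k : ℕ) : ℂ) ^ (-1/2 - β) *
      ((k / Nat.gcd h k : ℕ) : ℂ) ^ (-1/2 - α)
    + ((2 * Real.pi / T : ℝ) : ℂ) ^ (α + β) * Ac (α + β) *
      ((h / Nat.gcd h k : ℕ) : ℂ) ^ (-1/2 + α) * ((k / Nat.gcd h k : ℕ) : ℂ) ^ (-1/2 + β)

/-- integrand of the master moment -/
noncomputable def XX (lam : Fin 4 → ℝ) (l : ℝ) (α β : ℂ) (τ : Fin 4 → ℂ) (t : ℝ) : ℂ :=
  riemannZeta (1/2 + α + t * I) * riemannZeta (1/2 + β - t * I) *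
    (Mol (lam 0) l (1/2 + τ 0 + t * I) * Mol (lam 1) l (1/2 + τ 1 + t * I) *
      Mol (lam 2) l (1/2 + τ 2 - t * I) * Mol (lam 3) l (1/2 + τ 3 - t * I))

/-- mollified zeta -/
noncomputable def FF (l : ℝ) (s : ℂ) : ℂ := riemannZeta s * Mol 1 l s

/-- convergent Euler product correction for the usual mollifier -/
noncomputable def R1 (A B D : ℂ) : ℂ :=
  ∏' p : Nat.Primes, ((1 - ((p : ℕ) : ℂ) ^ (-A) - ((p : ℕ) : ℂ) ^ (-B) + ((p : ℕ) : ℂ) ^ (-D)) *
    (1 - ((p : ℕ) : ℂ) ^ (-D)) / ((1 - ((p : ℕ) : ℂ) ^ (-A)) * (1 - ((p : ℕ) : ℂ) ^ (-B))))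

/-- Selberg correlation -/
noncomputable def KK (T l : ℝ) (v : ℂ) : ℂ :=
  EE T (XX (fun _ => 1/2) l 0 (-(v * I)) ![0, v * I, 0, -(v * I)])

/-- coefficients of the truncated mollified zeta -/
noncomputable def cN (N : ℕ) (l : ℝ) (n : ℕ) : ℝ :=
  ∑ S ∈ (PP ⌊Real.exp l⌋₊).powerset.filter (fun S => nS S ∣ n ∧ n / nS S ≤ N ∧ 1 ≤ n), cf 1 l S

/-- unimodular phase making zeta real on the critical line -/
noncomputable def uu (t : ℝ) : ℂ := Gammaℝ (1/2 + t * I) / (‖Gammaℝ (1/2 + t * I)‖ : ℂ)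

/-- Hardy function times the absolute square of the Selberg mollifier -/
noncomputable def GG (l : ℝ) (t : ℝ) : ℝ :=
  (uu t * riemannZeta (1/2 + t * I)).re * ‖Mol (1/2) l (1/2 + t * I)‖ ^ 2

/-- ordinates of zeros on the critical line -/
def Gam : Set ℝ := {g : ℝ | riemannZeta (1/2 + g * I) = 0}

/-- d-separated finite set of reals -/
def Sep (d : ℝ) (Y : Finset ℝ) : Prop := ∀ a ∈ Y, ∀ b ∈ Y, a ≠ b → d ≤ |a - b|

end LZ

end F_D0

section F_P03

open Complex MeasureTheory Set Filter Topology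
open scoped ComplexConjugate

namespace LZ

theorem P03_norm (p : Nat.Primes) (s : ℂ) :
    |((((p : ℕ) : ℂ)) ^ (-s)).re| ≤ ((p : ℕ) : ℝ) ^ (-s.re) := by
  refine (abs_re_le_norm _).trans (le_of_eq ?_)
  rw [norm_natCast_cpow_of_pos p.2.pos, neg_re]

theorem P03_real (p : ℕ) (x : ℝ) : (((p : ℂ)) ^ (-(x : ℂ))).re = (p : ℝ) ^ (-x) := by
  rw [← ofReal_neg, ← ofReal_natCast, ← ofReal_cpow (Nat.cast_nonneg p), ofReal_re]

theorem P03_sum {x : ℝ} (hx : 1 < x) : Summable (fun p : Nat.Primes => ((p : ℕ) : ℝ) ^ (-x)) :=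
  Nat.Primes.summable_rpow.2 (by linarith only [hx])

theorem P03_R (x : ℝ) : R (x : ℂ) = ∑' p : Nat.Primes, ((p : ℕ) : ℝ) ^ (-x) := by
  unfold R
  exact tsum_congr fun p => P03_real p x

theorem P03_summable {s : ℂ} (hs : 1 < s.re) :
    Summable (fun p : Nat.Primes => ((((p : ℕ) : ℂ)) ^ (-s)).re) :=
  Summable.of_norm_bounded (P03_sum hs) (fun p => P03_norm p s)

/-- the primes up to `z` as a finset of `Nat.Primes` -/
def P03_fin (z : ℕ) : Finset Nat.Primes := Finset.subtype Nat.Prime (PP z)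

theorem P03_fin_sum (z : ℕ) (f : ℕ → ℝ) : ∑ p ∈ P03_fin z, f p = ∑ p ∈ PP z, f p := by
  unfold P03_fin
  refine Finset.sum_subtype_of_mem f ?_
  intro p hp
  exact (Finset.mem_filter.1 hp).2

theorem P03_mem_fin (z : ℕ) (p : Nat.Primes) : p ∈ P03_fin z ↔ (p : ℕ) ∈ PP z :=
  Finset.mem_subtype (p := Nat.Prime)

theorem P03_fin_tendsto : Tendsto P03_fin atTop atTop := by
  refine tendsto_atTop_finset_of_monotone ?_ ?_
  · intro a b hab p hp
    rw [P03_mem_fin] at *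
    unfold PP at *
    rw [Finset.mem_filter, Finset.mem_range] at *
    exact ⟨by omega, hp.2⟩
  · intro p
    refine ⟨p, ?_⟩
    rw [P03_mem_fin]
    unfold PP
    rw [Finset.mem_filter, Finset.mem_range]
    exact ⟨by omega, p.2⟩

/-- elementary facts on R (absolute convergence for Re s > 1, |p^(-s)| = p^(-Re s)). -/
theorem Rz_facts : (∀ x : ℝ, 1 < x → 0 ≤ R (x : ℂ)) ∧ (∀ s : ℂ, 1 < s.re → |R s| ≤ R (s.re : ℂ)) ∧
    (∀ (z : ℕ) (s : ℂ), 1 < s.re → |Rz z s| ≤ R (s.re : ℂ)) ∧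
    (∀ s : ℂ, 1 < s.re → Tendsto (fun z : ℕ => Rz z s) atTop (𝓝 (R s))) ∧
    ContinuousOn R {s : ℂ | 1 < s.re} := by
  refine ⟨fun x _ => ?_, fun s hs => ?_, fun z s hs => ?_, fun s hs => ?_, ?_⟩
  · rw [P03_R]
    exact tsum_nonneg fun p => by positivity
  · rw [P03_R]
    have h1 : ‖∑' p : Nat.Primes, ((((p : ℕ) : ℂ)) ^ (-s)).re‖ ≤
        ∑' p : Nat.Primes, ((p : ℕ) : ℝ) ^ (-s.re) :=
      tsum_of_norm_bounded (P03_sum hs).hasSum (fun p => P03_norm p s)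
    exact h1
  · rw [P03_R]
    unfold Rz
    rw [← P03_fin_sum z (fun p => ((p : ℂ) ^ (-s)).re)]
    calc |∑ p ∈ P03_fin z, (((p : ℕ) : ℂ) ^ (-s)).re|
        ≤ ∑ p ∈ P03_fin z, |(((p : ℕ) : ℂ) ^ (-s)).re| := Finset.abs_sum_le_sum_abs _ _
      _ ≤ ∑ p ∈ P03_fin z, ((p : ℕ) : ℝ) ^ (-s.re) :=
          Finset.sum_le_sum fun p _ => P03_norm p s
      _ ≤ _ := (P03_sum hs).sum_le_tsum _ (fun p _ => by positivity)
  · have h1 := (P03_summable hs).hasSum.comp P03_fin_tendsto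
    refine h1.congr fun z => ?_
    exact P03_fin_sum z (fun p => ((p : ℂ) ^ (-s)).re)
  · intro s hs
    have hs' : 1 < s.re := hs
    refine ContinuousAt.continuousWithinAt ?_
    set x : ℝ := (1 + s.re) / 2 with hx
    have hx1 : 1 < x := by rw [hx]; linarith only [hs']
    have hxs : x < s.re := by rw [hx]; linarith only [hs']
    have hopen : IsOpen {w : ℂ | x < w.re} := isOpen_lt continuous_const continuous_re
    have hc : ContinuousOn R {w : ℂ | x < w.re} := by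
      unfold R
      refine continuousOn_tsum (fun p => ?_) (P03_sum hx1) (fun p w hw => ?_)
      · refine Continuous.continuousOn ?_
        refine continuous_re.comp ?_
        exact continuous_const.cpow continuous_neg (fun w => Or.inl (by
          rw [natCast_re]
          exact_mod_cast p.2.pos))
      · have hw' : x < w.re := hw
        refine (P03_norm p w).trans ?_
        exact Real.rpow_le_rpow_of_exponent_le (by exact_mod_cast p.2.one_lt.le) (by linarith only [hw'])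
    exact hc.continuousAt (hopen.mem_nhds hxs)

end LZ

end F_P03

end

section

section F_M03

open Complex MeasureTheory Set Filter Topology
open scoped ComplexConjugate

namespace LZ

theorem M03_log (l : ℝ) (hl : 0 < l) (S : Finset ℕ) : 0 ≤ Real.log (nS S) / l := by
  apply div_nonneg _ hl.le
  exact Real.log_natCast_nonneg _

/-- |cf| <= 1, cf = 0 unless nS S < exp l, and at most exp l sets S have cf <> 0 (S -> nS S is injective on sets of primes);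
hence sums of |cf|. -/
theorem cf_sum : ∀ lam l : ℝ, 0 ≤ lam → lam ≤ 1 → 0 < l → ∀ z : ℕ,
    (∀ S : Finset ℕ, |cf lam l S| ≤ 1) ∧
    (∀ S ∈ (PP z).powerset, cf lam l S ≠ 0 → 1 ≤ nS S ∧ (nS S : ℝ) ≤ Real.exp l) ∧
    ∑ S ∈ (PP z).powerset, |cf lam l S| ≤ Real.exp l := by
  intro lam l h0 h1 hl z
  have A : ∀ S : Finset ℕ, |cf lam l S| ≤ 1 := by
    intro S
    unfold cf wt
    rw [abs_mul, abs_pow, abs_neg, abs_of_nonneg h0]
    have h2 : 0 ≤ max 0 (1 - Real.log (nS S) / l) := le_max_left _ _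
    rw [abs_of_nonneg (pow_nonneg h2 21)]
    have h3 : max 0 (1 - Real.log (nS S) / l) ≤ 1 := by
      apply max_le zero_le_one
      have := M03_log l hl S
      linarith
    exact mul_le_one₀ (pow_le_one₀ h0 h1) (pow_nonneg h2 21) (pow_le_one₀ h2 h3)
  have B : ∀ S ∈ (PP z).powerset, cf lam l S ≠ 0 → 1 ≤ nS S ∧ (nS S : ℝ) ≤ Real.exp l := by
    intro S hS hcf
    rw [Finset.mem_powerset] at hS
    have hpos : 0 < nS S := by
      unfold nS
      apply Finset.prod_pos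
      intro q hq
      have := hS hq
      unfold PP at this
      rw [Finset.mem_filter] at this
      exact this.2.pos
    refine ⟨hpos, ?_⟩
    by_contra hcon
    push Not at hcon
    apply hcf
    have h3 : l ≤ Real.log (nS S) := by
      rw [Real.le_log_iff_exp_le (by exact_mod_cast hpos)]
      exact hcon.le
    have h4 : 1 ≤ Real.log (nS S) / l := by
      rw [le_div_iff₀ hl]
      linarith
    unfold cf wt
    rw [max_eq_left (by linarith)]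
    simp
  refine ⟨A, B, ?_⟩
  set T := (PP z).powerset.filter (fun S => cf lam l S ≠ 0) with hT
  have h2 : ∑ S ∈ (PP z).powerset, |cf lam l S| = ∑ S ∈ T, |cf lam l S| := by
    rw [hT, Finset.sum_filter]
    apply Finset.sum_congr rfl
    intro S _
    split_ifs with h
    · rfl
    · push Not at h
      rw [h, abs_zero]
  rw [h2]
  have h3 : ∑ S ∈ T, |cf lam l S| ≤ ∑ S ∈ T, (1 : ℝ) := Finset.sum_le_sum (fun S _ => A S)
  refine h3.trans ?_
  rw [Finset.sum_const, nsmul_eq_mul, mul_one]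
  have h4 : T.card ≤ (Finset.Icc 1 ⌊Real.exp l⌋₊).card := by
    apply Finset.card_le_card_of_injOn nS
    · intro S hS
      rw [Finset.mem_coe, hT, Finset.mem_filter] at hS
      obtain ⟨h5, h6⟩ := B S hS.1 hS.2
      rw [Finset.mem_coe, Finset.mem_Icc]
      exact ⟨h5, Nat.le_floor h6⟩
    · intro S hS S' hS' hSS
      rw [Finset.mem_coe, hT, Finset.mem_filter, Finset.mem_powerset] at hS hS'
      have hp : ∀ S : Finset ℕ, S ⊆ PP z → (nS S).primeFactors = S := by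
        intro S hS
        unfold nS
        apply Nat.primeFactors_prod
        intro p hp
        have := hS hp
        unfold PP at this
        rw [Finset.mem_filter] at this
        exact this.2
      rw [← hp S hS.1, ← hp S' hS'.1, hSS]
  rw [Nat.card_Icc, Nat.add_sub_cancel] at h4
  exact (by exact_mod_cast h4 : (T.card : ℝ) ≤ (⌊Real.exp l⌋₊ : ℝ)).trans
    (Nat.floor_le (Real.exp_pos l).le)

end LZ

end F_M03

end

section

section F_X_D0

/-!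
# Dirichlet L-functions: definitions

`χ` is a Dirichlet character modulo `q`; in the theorems it is primitive and `q > 1`.
-/

open Complex MeasureTheory Set Filter Topology

namespace LX

open LZ

/-- Dirichlet L-function -/
noncomputable def Lf {q : ℕ} [NeZero q] (χ : DirichletCharacter ℂ q) (s : ℂ) : ℂ :=
  DirichletCharacter.LFunction χ s

/-- primes at most z not dividing q -/
def PQ (q z : ℕ) : Finset ℕ := (PP z).filter (fun p => ¬ p ∣ q)

/-- mollifier; lam = 1 usual, lam = 1/2 Selberg, lam = 0 constant 1. Length exp l. -/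
noncomputable def Mol {q : ℕ} (χ : DirichletCharacter ℂ q) (lam l : ℝ) (s : ℂ) : ℂ :=
  ∑ S ∈ (PQ q ⌊Real.exp l⌋₊).powerset, (cf lam l S : ℂ) * χ (nS S) * (nS S : ℂ) ^ (-s)

/-- zeta function without the Euler factors at the primes dividing q -/
noncomputable def zq (q : ℕ) (s : ℂ) : ℂ :=
  riemannZeta s * ∏ p ∈ q.primeFactors, (1 - (p : ℂ) ^ (-s))

/-- dual constant -/
noncomputable def Aq {q : ℕ} [NeZero q] (χ : DirichletCharacter ℂ q) (η : ℂ) : ℂ :=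
  (q : ℂ)⁻¹ * LP.AC χ (χ⁻¹ : DirichletCharacter ℂ q) η

/-- mollified gcd sum over numbers prime to q -/
noncomputable def QQ (q z : ℕ) (lam : Fin 4 → ℝ) (l : ℝ) (e : Fin 4 → ℂ) (e4 : ℂ) : ℂ :=
  ∑ S ∈ Fintype.piFinset (fun _ : Fin 4 => (PQ q z).powerset),
    (∏ j, (cf (lam j) l (S j) : ℂ) * (nS (S j) : ℂ) ^ (-1 - e j)) *
      ((Nat.gcd (nS (S 0) * nS (S 1)) (nS (S 2) * nS (S 3)) : ℕ) : ℂ) ^ (1 + e4)

/-- main term of the twisted second moment (without the character values) -/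
noncomputable def mainT {q : ℕ} [NeZero q] (χ : DirichletCharacter ℂ q) (T : ℝ) (α β : ℂ) (h k : ℕ) : ℂ :=
  zq q (1 + (α + β)) * ((h / Nat.gcd h k : ℕ) : ℂ) ^ (-1/2 - β) *
      ((k / Nat.gcd h k : ℕ) : ℂ) ^ (-1/2 - α)
    + ((2 * Real.pi / (q * T) : ℝ) : ℂ) ^ (α + β) * Aq χ (α + β) *
      ((h / Nat.gcd h k : ℕ) : ℂ) ^ (-1/2 + α) * ((k / Nat.gcd h k : ℕ) : ℂ) ^ (-1/2 + β)

/-- integrand of the master moment -/
noncomputable def XX {q : ℕ} [NeZero q] (χ : DirichletCharacter ℂ q) (lam : Fin 4 → ℝ) (l : ℝ) (α β : ℂ)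
    (τ : Fin 4 → ℂ) (t : ℝ) : ℂ :=
  Lf χ (1/2 + α + t * I) * Lf χ⁻¹ (1/2 + β - t * I) *
    (Mol χ (lam 0) l (1/2 + τ 0 + t * I) * Mol χ (lam 1) l (1/2 + τ 1 + t * I) *
      Mol χ⁻¹ (lam 2) l (1/2 + τ 2 - t * I) * Mol χ⁻¹ (lam 3) l (1/2 + τ 3 - t * I))

/-- mollified L-function -/
noncomputable def FF {q : ℕ} [NeZero q] (χ : DirichletCharacter ℂ q) (l : ℝ) (s : ℂ) : ℂ :=
  Lf χ s * Mol χ 1 l s

/-- Selberg correlation -/
noncomputable def KK {q : ℕ} [NeZero q] (χ : DirichletCharacter ℂ q) (T l : ℝ) (v : ℂ) : ℂ :=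
  EE T (XX χ (fun _ => 1/2) l 0 (-(v * I)) ![0, v * I, 0, -(v * I)])

/-- ordinates of zeros on the critical line -/
def Gam {q : ℕ} [NeZero q] (χ : DirichletCharacter ℂ q) : Set ℝ := {g : ℝ | Lf χ (1/2 + g * I) = 0}

/-- a square root of the root number of the conjugate character -/
noncomputable def cc {q : ℕ} [NeZero q] (χ : DirichletCharacter ℂ q) : ℂ :=
  (DirichletCharacter.rootNumber χ⁻¹) ^ (1/2 : ℂ)

/-- unimodular phase making the L-function real on the critical line -/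
noncomputable def uu {q : ℕ} [NeZero q] (χ : DirichletCharacter ℂ q) (t : ℝ) : ℂ :=
  cc χ * exp ((t / 2 * Real.log q : ℝ) * I) *
    (χ.gammaFactor (1/2 + t * I) / (‖χ.gammaFactor (1/2 + t * I)‖ : ℂ))

/-- Hardy function times the absolute square of the Selberg mollifier -/
noncomputable def GG {q : ℕ} [NeZero q] (χ : DirichletCharacter ℂ q) (l : ℝ) (t : ℝ) : ℝ :=
  (uu χ t * Lf χ (1/2 + t * I)).re * ‖Mol χ (1/2) l (1/2 + t * I)‖ ^ 2

end LX

end F_X_D0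

end

section

section F_Y_D0

open Complex MeasureTheory Set Filter Topology
open scoped ComplexConjugate

namespace LP

open LZ (kk nS cf EE ER PP wt Sep)

/-- 2 pi i exp(-i eps) h / (k N) -/
noncomputable def WW (N : ℕ) (ε : ℝ) (h k : ℕ) : ℂ :=
  2 * Real.pi * I * exp (-(ε * I)) * h / (k * N)

/-- sum over m of f(m) m^(-eta) sum over b of g(b)/(exp(m W - 2 pi i b/N) - 1) -/
noncomputable def DD {N : ℕ} [NeZero N] (f g : ZMod N → ℂ) (η W : ℂ) : ℂ :=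
  ∑' m : ℕ, f ((m + 1 : ℕ) : ZMod N) * ((m : ℂ) + 1) ^ (-η) *
    ∑ b : ZMod N, g b * (exp (((m : ℂ) + 1) * W - 2 * Real.pi * I * b.val / N) - 1)⁻¹

/-- Fourier transform with positive sign: FT g n = sum over b of g(b) exp(2 pi i b n/N) -/
noncomputable def FT {N : ℕ} [NeZero N] (g : ZMod N → ℂ) : ZMod N → ℂ := ZMod.dft (fun x => g (-x))

/-- Fourier transform with negative sign -/
noncomputable def FT' {N : ℕ} [NeZero N] (g : ZMod N → ℂ) : ZMod N → ℂ := ZMod.dft g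

/-- residue of a h - b k modulo k N -/
def cab (N h k a b : ℕ) : ℕ := (((a * h : ℕ) - (b * k : ℕ) : ℤ) % ((k * N : ℕ) : ℤ)).toNat

/-- the function of y = m Y attached to a residue c modulo K -/
noncomputable def ph (k K c : ℕ) (y : ℝ) : ℂ :=
  if c = 0 then ((1 / (Real.exp y - 1) - Real.exp (-(k * y)) / y : ℝ) : ℂ)
  else (exp ((y : ℂ) + 2 * Real.pi * I * c / K) - 1)⁻¹

/-- main term of the twisted second moment for the pair of characters chi, psi -/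
noncomputable def mainT {N : ℕ} [NeZero N] (χ ψ : DirichletCharacter ℂ N) (T : ℝ) (α β : ℂ) (h k : ℕ) : ℂ :=
  χ ((k / Nat.gcd h k : ℕ) : ZMod N) * ψ ((h / Nat.gcd h k : ℕ) : ZMod N) *
      (LX.Lf (χ * ψ) (1 + (α + β)) * ((h / Nat.gcd h k : ℕ) : ℂ) ^ (-1/2 - β) *
        ((k / Nat.gcd h k : ℕ) : ℂ) ^ (-1/2 - α))
    + χ⁻¹ ((h / Nat.gcd h k : ℕ) : ZMod N) * ψ⁻¹ ((k / Nat.gcd h k : ℕ) : ZMod N) *
      ((N : ℂ)⁻¹ * ((2 * Real.pi / (N * T) : ℝ) : ℂ) ^ (α + β) * AC χ ψ (α + β) *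
        ((h / Nat.gcd h k : ℕ) : ℂ) ^ (-1/2 + α) * ((k / Nat.gcd h k : ℕ) : ℂ) ^ (-1/2 + β))

/-- two variable mollified gcd sum with characters -/
noncomputable def Q2 {N : ℕ} [NeZero N] (ρ κ : DirichletCharacter ℂ N) (z : ℕ) (l : ℝ) (e e4 : ℂ) : ℂ :=
  ∑ S ∈ (LX.PQ N z).powerset ×ˢ (LX.PQ N z).powerset,
    (cf 1 l S.1 : ℂ) * (cf 1 l S.2 : ℂ) *
      (ρ (nS S.1 : ℕ) * ρ (nS S.2 : ℕ) * κ (Nat.gcd (nS S.1) (nS S.2) : ℕ)) *
      ((nS S.1 : ℂ) ^ (-1 - e) * (nS S.2 : ℂ) ^ (-1 - e) *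
        ((Nat.gcd (nS S.1) (nS S.2) : ℕ) : ℂ) ^ (1 + e4))

/-- local factor: 1 - rho(p) p^(-A) - rho(p) p^(-B) + om(p) p^(-D) -/
noncomputable def loc {N : ℕ} (ρ om : DirichletCharacter ℂ N) (A B D : ℂ) (p : ℕ) : ℂ :=
  1 - ρ (p : ZMod N) * (p : ℂ) ^ (-A) - ρ (p : ZMod N) * (p : ℂ) ^ (-B) + om (p : ZMod N) * (p : ℂ) ^ (-D)

/-- local correction factor -/
noncomputable def cor {N : ℕ} (ρ om : DirichletCharacter ℂ N) (A B D : ℂ) (p : ℕ) : ℂ :=
  loc ρ om A B D p * (1 - om (p : ZMod N) * (p : ℂ) ^ (-D)) /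
    ((1 - ρ (p : ZMod N) * (p : ℂ) ^ (-A)) * (1 - ρ (p : ZMod N) * (p : ℂ) ^ (-B)))

/-- convergent Euler product correction -/
noncomputable def R1 {N : ℕ} (ρ om : DirichletCharacter ℂ N) (A B D : ℂ) : ℂ :=
  ∏' p : Nat.Primes, cor ρ om A B D p

/-- product of two mollified L-functions, integrand of the moment -/
noncomputable def XP {N : ℕ} [NeZero N] (χ ψ : DirichletCharacter ℂ N) (l : ℝ) (α β : ℂ) (t : ℝ) : ℂ :=
  LX.FF χ l (1/2 + α + t * I) * LX.FF ψ l (1/2 + β - t * I)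

end LP

end F_Y_D0

end

section

section F_X_Base

/-!
# Dirichlet L-functions: first facts
-/

open Complex MeasureTheory Set Filter Topology

namespace LX

open LZ

variable {q : ℕ}

theorem prim_inv {χ : DirichletCharacter ℂ q} (hχ : χ.IsPrimitive) : χ⁻¹.IsPrimitive := by
  rw [DirichletCharacter.isPrimitive_def, DirichletCharacter.conductor_inv]
  exact hχ

theorem ne_one {χ : DirichletCharacter ℂ q} (hχ : χ.IsPrimitive) (hq : 1 < q) : χ ≠ 1 := by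
  rintro rfl
  have : NeZero q := ⟨by omega⟩
  rw [DirichletCharacter.isPrimitive_def, DirichletCharacter.conductor_one] at hχ
  omega

theorem Lf_diff [NeZero q] {χ : DirichletCharacter ℂ q} (h : χ ≠ 1) : Differentiable ℂ (Lf χ) :=
  DirichletCharacter.differentiable_LFunction h

theorem norm_char_le (χ : DirichletCharacter ℂ q) (a : ZMod q) : ‖χ a‖ ≤ 1 := χ.norm_le_one a

/-- the inverse character is the complex conjugate character -/
theorem inv_apply (χ : DirichletCharacter ℂ q) (a : ZMod q) :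
    χ⁻¹ a = (starRingEnd ℂ) (χ a) := by
  rw [← MulChar.star_eq_inv, MulChar.star_apply, Complex.star_def]

theorem PQ_sub (q z : ℕ) : PQ q z ⊆ PP z := Finset.filter_subset _ _

theorem PQ_pow_sub (q z : ℕ) : (PQ q z).powerset ⊆ (PP z).powerset :=
  Finset.powerset_mono.mpr (PQ_sub q z)

theorem PQ_mono (q : ℕ) {z z' : ℕ} (h : z ≤ z') : PQ q z ⊆ PQ q z' := by
  intro p hp
  rw [PQ, Finset.mem_filter, PP, Finset.mem_filter, Finset.mem_range] at hp ⊢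
  exact ⟨⟨by omega, hp.1.2⟩, hp.2⟩

theorem nS_pos {z : ℕ} {S : Finset ℕ} (hS : S ∈ (PP z).powerset) : 0 < nS S := by
  unfold nS
  apply Finset.prod_pos
  intro p hp
  have := Finset.mem_powerset.mp hS hp
  rw [PP, Finset.mem_filter] at this
  exact this.2.pos

theorem nS_pos' {z : ℕ} {S : Finset ℕ} (hS : S ∈ (PQ q z).powerset) : 0 < nS S :=
  nS_pos (PQ_pow_sub q z hS)

theorem nS_coprime {z : ℕ} {S : Finset ℕ} (hS : S ∈ (PQ q z).powerset) : (nS S).Coprime q := by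
  unfold nS
  apply Nat.Coprime.prod_left
  intro p hp
  have := Finset.mem_powerset.mp hS hp
  rw [PQ, Finset.mem_filter, PP, Finset.mem_filter] at this
  exact (Nat.Prime.coprime_iff_not_dvd this.1.2).mpr this.2

theorem norm_char_eq [NeZero q] (χ : DirichletCharacter ℂ q) {n : ℕ} (hn : n.Coprime q) :
    ‖χ (n : ZMod q)‖ = 1 := by
  have : IsUnit (n : ZMod q) := (ZMod.isUnit_iff_coprime n q).mpr hn
  obtain ⟨u, hu⟩ := this
  rw [← hu]
  exact DirichletCharacter.unit_norm_eq_one χ u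

theorem char_mul_inv [NeZero q] (χ : DirichletCharacter ℂ q) {n : ℕ} (hn : n.Coprime q) :
    χ (n : ZMod q) * χ⁻¹ (n : ZMod q) = 1 := by
  rw [inv_apply, Complex.mul_conj, Complex.normSq_eq_norm_sq, norm_char_eq χ hn]
  simp

/-- all characters cancel in the main terms of the master moment -/
theorem char_cancel [NeZero q] (χ : DirichletCharacter ℂ q) {h k : ℕ}
    (hhq : h.Coprime q) (hkq : k.Coprime q) :
    χ (h : ZMod q) * χ⁻¹ (k : ZMod q) *
      (χ ((k / Nat.gcd h k : ℕ) : ZMod q) * χ⁻¹ ((h / Nat.gcd h k : ℕ) : ZMod q)) = 1 := by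
  set g := Nat.gcd h k with hg
  have hgh : g ∣ h := Nat.gcd_dvd_left h k
  have hgk : g ∣ k := Nat.gcd_dvd_right h k
  have h1 : h = g * (h / g) := (Nat.mul_div_cancel' hgh).symm
  have k1 : k = g * (k / g) := (Nat.mul_div_cancel' hgk).symm
  have hgq : g.Coprime q := Nat.Coprime.coprime_dvd_left hgh hhq
  have hh' : (h / g).Coprime q := Nat.Coprime.coprime_dvd_left (Nat.div_dvd_of_dvd hgh) hhq
  have hk' : (k / g).Coprime q := Nat.Coprime.coprime_dvd_left (Nat.div_dvd_of_dvd hgk) hkq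
  have e1 : χ (h : ZMod q) = χ (g : ZMod q) * χ ((h / g : ℕ) : ZMod q) := by
    conv_lhs => rw [h1]
    rw [Nat.cast_mul, map_mul]
  have e2 : χ⁻¹ (k : ZMod q) = χ⁻¹ (g : ZMod q) * χ⁻¹ ((k / g : ℕ) : ZMod q) := by
    conv_lhs => rw [k1]
    rw [Nat.cast_mul, map_mul]
  rw [e1, e2]
  have c1 := char_mul_inv χ hgq
  have c2 := char_mul_inv χ hh'
  have c3 := char_mul_inv χ hk'
  calc _ = (χ (g : ZMod q) * χ⁻¹ (g : ZMod q)) * (χ ((h / g : ℕ) : ZMod q) * χ⁻¹ ((h / g : ℕ) : ZMod q)) *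
      (χ ((k / g : ℕ) : ZMod q) * χ⁻¹ ((k / g : ℕ) : ZMod q)) := by ring
    _ = 1 := by rw [c1, c2, c3]; ring

theorem cf_sum : ∀ lam l : ℝ, 0 ≤ lam → lam ≤ 1 → 0 < l → ∀ z : ℕ,
    (∀ S : Finset ℕ, |cf lam l S| ≤ 1) ∧
    (∀ S ∈ (PQ q z).powerset, cf lam l S ≠ 0 → 1 ≤ nS S ∧ (nS S : ℝ) ≤ Real.exp l) ∧
    ∑ S ∈ (PQ q z).powerset, |cf lam l S| ≤ Real.exp l := by
  intro lam l h0 h1 hl z
  obtain ⟨a, b, c⟩ := LZ.cf_sum lam l h0 h1 hl z
  refine ⟨a, fun S hS => b S (PQ_pow_sub q z hS), ?_⟩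
  exact (Finset.sum_le_sum_of_subset_of_nonneg (PQ_pow_sub q z) (fun _ _ _ => abs_nonneg _)).trans c

theorem Mol_diff (χ : DirichletCharacter ℂ q) (lam l : ℝ) : Differentiable ℂ (Mol χ lam l) := by
  unfold Mol
  apply Differentiable.fun_sum
  intro S hS
  apply Differentiable.const_mul
  intro s
  have h0 : (nS S : ℂ) ≠ 0 := by exact_mod_cast (nS_pos' hS).ne'
  exact (differentiableAt_id.neg).const_cpow (Or.inl h0)

theorem Mol_cont (χ : DirichletCharacter ℂ q) (lam l : ℝ) : Continuous (Mol χ lam l) :=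
  (Mol_diff χ lam l).continuous

theorem Mol_bound (χ : DirichletCharacter ℂ q) {lam l : ℝ} (h0 : 0 ≤ lam) (h1 : lam ≤ 1) (hl : 0 < l)
    {s : ℂ} (hs : 0 ≤ s.re) : ‖Mol χ lam l s‖ ≤ Real.exp l := by
  obtain ⟨a, b, c⟩ := cf_sum (q := q) lam l h0 h1 hl ⌊Real.exp l⌋₊
  refine le_trans ?_ c
  unfold Mol
  refine (norm_sum_le _ _).trans (Finset.sum_le_sum fun S hS => ?_)
  rw [norm_mul, norm_mul, Complex.norm_real, Real.norm_eq_abs]
  have hn := nS_pos' hS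
  have h2 : ‖(nS S : ℂ) ^ (-s)‖ ≤ 1 := by
    rw [Complex.norm_natCast_cpow_of_pos hn]
    apply Real.rpow_le_one_of_one_le_of_nonpos
    · exact_mod_cast hn
    · rw [Complex.neg_re]; linarith
  calc |cf lam l S| * ‖χ (nS S : ZMod q)‖ * ‖(nS S : ℂ) ^ (-s)‖ ≤ |cf lam l S| * 1 * 1 := by
        gcongr
        exact norm_char_le χ _
    _ = |cf lam l S| := by ring

theorem Mol_conj (χ : DirichletCharacter ℂ q) (lam l : ℝ) (s : ℂ) :
    Mol χ⁻¹ lam l ((starRingEnd ℂ) s) = (starRingEnd ℂ) (Mol χ lam l s) := by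
  unfold Mol
  rw [map_sum]
  refine Finset.sum_congr rfl fun S hS => ?_
  rw [map_mul, map_mul, Complex.conj_ofReal, inv_apply]
  congr 1
  have hn := nS_pos' hS
  rw [← map_neg]
  have h := Complex.cpow_conj (nS S : ℂ) (-s) (by
    rw [Complex.natCast_arg]
    exact Real.pi_pos.ne)
  rw [Complex.conj_natCast] at h
  rw [h]

end LX

end F_X_Base

end

section

/-!
# Row OP02: the kernel near its poles (elementary, Mathlib only)
-/

open Complex MeasureTheory Set Filter Topology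

namespace OO

/-- OP02a. PROOF. `‖exp(-z) - 1‖ ≤ ‖z‖` for `Re z ≥ 0`: mean value inequality on the convex set `{Re ≥ 0}` (derivative `-exp(-z)` of norm `≤ 1`;
`Convex.norm_image_sub_le_of_norm_deriv_le` or `..hasDerivWithin_le`); `exp(-z) - 1 + z` has derivative `1 - exp(-z)`, of norm `≤ ‖z‖`, so on the segment from `0` to `z` bounded by `‖z‖`: the norm is `≤ ‖z‖ * ‖z‖`
(the constant 1 instead of 1/2 is enough). -/
theorem P02_exp (z : ℂ) (hz : 0 ≤ z.re) : ‖exp (-z) - 1‖ ≤ ‖z‖ ∧ ‖exp (-z) - 1 + z‖ ≤ ‖z‖ ^ 2 := by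
  have hA : ∀ w : ℂ, 0 ≤ w.re → ‖exp (-w) - 1‖ ≤ ‖w‖ := by
    intro w hw
    have h := Convex.norm_image_sub_le_of_norm_hasDerivWithin_le (𝕜 := ℂ) (f := fun u : ℂ => exp (-u))
      (f' := fun u : ℂ => -exp (-u)) (C := 1) (s := {u : ℂ | 0 ≤ u.re}) (x := 0) (y := w)
      (fun u _ => by
        have h1 : HasDerivAt (fun u : ℂ => exp (-u)) (exp (-u) * -1) u := ((hasDerivAt_id u).neg).cexp
        rw [mul_neg_one] at h1
        exact h1.hasDerivWithinAt)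
      (fun u hu => by
        rw [norm_neg, Complex.norm_exp, Complex.neg_re]
        exact Real.exp_le_one_iff.2 (neg_nonpos.2 hu))
      (convex_halfSpace_re_ge 0) (by simp) hw
    simpa using h
  refine ⟨hA z hz, ?_⟩
  have h := Convex.norm_image_sub_le_of_norm_hasDerivWithin_le (𝕜 := ℂ) (f := fun u : ℂ => exp (-u) + u)
    (f' := fun u : ℂ => -exp (-u) + 1) (C := ‖z‖) (s := {u : ℂ | 0 ≤ u.re} ∩ Metric.closedBall 0 ‖z‖) (x := 0) (y := z)
    (fun u _ => by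
      have h1 : HasDerivAt (fun u : ℂ => exp (-u)) (exp (-u) * -1) u := ((hasDerivAt_id u).neg).cexp
      rw [mul_neg_one] at h1
      exact (h1.add (hasDerivAt_id u)).hasDerivWithinAt)
    (fun u hu => by
      have h1 := hA u hu.1
      have h2 : ‖u‖ ≤ ‖z‖ := by simpa using hu.2
      have h3 : -exp (-u) + 1 = -(exp (-u) - 1) := by ring
      rw [h3, norm_neg]
      exact h1.trans h2)
    ((convex_halfSpace_re_ge 0).inter (convex_closedBall 0 _)) (by simp) ⟨hz, by simp⟩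
  have e1 : exp (-z) + z - (exp (-0) + 0) = exp (-z) - 1 + z := by
    rw [neg_zero, Complex.exp_zero]
    ring
  rw [e1, sub_zero] at h
  calc ‖exp (-z) - 1 + z‖ ≤ ‖z‖ * ‖z‖ := h
    _ = ‖z‖ ^ 2 := by ring

/-- OP02b. PROOF. `s = σ + i t`: `‖1 - exp(-s)‖² = (1 - e^(-σ))² + 2 e^(-σ)(1 - cos t)`, `1 - cos t = 2 sin²(t/2) ≥ 2 t²/π²` (`Real.mul_le_sin` for `|t/2| ≤ π/2`), `1 - e^(-σ) ≥ σ e^(-σ)` (`e^σ ≥ 1 + σ`), so it is
`≥ e^(-2σ)(σ² + 4 t²/π²) ≥ e^(-2σ) (4/π²) ‖s‖² ≥ (e^(-R) ‖s‖/2)²` (`π ≤ 4`). -/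
theorem P02_low (R : ℝ) (s : ℂ) (h0 : 0 ≤ s.re) (hR : s.re ≤ R) (him : |s.im| ≤ Real.pi) :
    Real.exp (-R) * ‖s‖ / 2 ≤ ‖1 - exp (-s)‖ := by
  have hpi := Real.pi_pos
  have hpi4 : Real.pi ≤ 4 := Real.pi_le_four
  have hcos := Real.cos_le_one_sub_mul_cos_sq him
  set σ := s.re with hσ
  set t := s.im with ht
  have hE : 0 < Real.exp (-σ) := Real.exp_pos _
  have hE1 : Real.exp (-σ) ≤ 1 := Real.exp_le_one_iff.2 (neg_nonpos.2 h0)
  have hsq : ‖1 - exp (-s)‖ ^ 2 = (1 - Real.exp (-σ)) ^ 2 + 2 * Real.exp (-σ) * (1 - Real.cos t) := by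
    rw [← Complex.normSq_eq_norm_sq, Complex.normSq_apply]
    have e1 : (1 - exp (-s)).re = 1 - Real.exp (-σ) * Real.cos t := by
      rw [Complex.sub_re, Complex.one_re, Complex.exp_re, Complex.neg_re, Complex.neg_im, Real.cos_neg]
    have e2 : (1 - exp (-s)).im = Real.exp (-σ) * Real.sin t := by
      rw [Complex.sub_im, Complex.one_im, Complex.exp_im, Complex.neg_re, Complex.neg_im, Real.sin_neg]
      ring
    rw [e1, e2]
    have h1 := Real.sin_sq_add_cos_sq t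
    linear_combination (Real.exp (-σ)) ^ 2 * h1
  have h1 : σ * Real.exp (-σ) ≤ 1 - Real.exp (-σ) := by
    have h2 := Real.add_one_le_exp σ
    have h3 : Real.exp σ * Real.exp (-σ) = 1 := by rw [← Real.exp_add, add_neg_cancel, Real.exp_zero]
    have h4 := mul_le_mul_of_nonneg_right h2 hE.le
    rw [h3] at h4
    linarith only [h4]
  have h2 : t ^ 2 / 16 ≤ 1 / Real.pi ^ 2 * t ^ 2 := by
    have : 1 / 16 ≤ 1 / Real.pi ^ 2 := by
      apply one_div_le_one_div_of_le (by positivity)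
      have := mul_le_mul hpi4 hpi4 hpi.le (by norm_num)
      linarith only [this]
    have h3 := mul_le_mul_of_nonneg_right this (sq_nonneg t)
    linarith only [h3]
  have h3 : Real.exp (-σ) ^ 2 * (‖s‖ ^ 2 / 4) ≤ ‖1 - exp (-s)‖ ^ 2 := by
    rw [hsq, ← Complex.normSq_eq_norm_sq, Complex.normSq_apply, ← hσ, ← ht]
    have h4 : (σ * Real.exp (-σ)) ^ 2 ≤ (1 - Real.exp (-σ)) ^ 2 :=
      pow_le_pow_left₀ (by positivity) h1 2
    have h5 : 2 * Real.exp (-σ) * (t ^ 2 / 8) ≤ 2 * Real.exp (-σ) * (1 - Real.cos t) := by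
      apply mul_le_mul_of_nonneg_left _ (by positivity)
      have : 2 / Real.pi ^ 2 * t ^ 2 = 2 * (1 / Real.pi ^ 2 * t ^ 2) := by ring
      linarith only [this, hcos, h2]
    have h6 : Real.exp (-σ) ^ 2 * (t ^ 2 / 4) ≤ 2 * Real.exp (-σ) * (t ^ 2 / 8) := by
      have : 2 * Real.exp (-σ) * (t ^ 2 / 8) = Real.exp (-σ) * (t ^ 2 / 4) := by ring
      rw [this]
      apply mul_le_mul_of_nonneg_right _ (by positivity)
      rw [pow_two]
      exact mul_le_of_le_one_left hE.le hE1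
    have h7 : 0 ≤ Real.exp (-σ) ^ 2 * σ ^ 2 := by positivity
    linarith only [h4, h5, h6, h7]
  have h4 : (Real.exp (-R) * ‖s‖ / 2) ^ 2 ≤ ‖1 - exp (-s)‖ ^ 2 := by
    have h5 : Real.exp (-R) ≤ Real.exp (-σ) := Real.exp_le_exp.2 (neg_le_neg hR)
    calc (Real.exp (-R) * ‖s‖ / 2) ^ 2 = Real.exp (-R) ^ 2 * (‖s‖ ^ 2 / 4) := by ring
      _ ≤ Real.exp (-σ) ^ 2 * (‖s‖ ^ 2 / 4) := by gcongr
      _ ≤ _ := h3
  exact (sq_le_sq₀ (by positivity) (norm_nonneg _)).1 h4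

/-- OP02c. PROOF. The difference is `(s (exp(-θs) - 1) + (exp(-s) - 1 + s))/(s (1 - exp(-s)))`; numerator `≤ ‖s‖ θ ‖s‖ + ‖s‖² ≤ 2 ‖s‖²` by OP02a, denominator `≥ ‖s‖² e^(-R)/2` by OP02b. -/
theorem P02_kernel (θ R : ℝ) (hθ : 0 ≤ θ) (hθ1 : θ ≤ 1) (s : ℂ) (h0 : 0 < s.re) (hR : s.re ≤ R) (him : |s.im| ≤ Real.pi) :
    ‖exp (-(θ * s)) / (1 - exp (-s)) - 1 / s‖ ≤ 4 * Real.exp R := by
  have hs : s ≠ 0 := by
    intro h
    rw [h, Complex.zero_re] at h0
    exact lt_irrefl _ h0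
  have hsn : 0 < ‖s‖ := norm_pos_iff.2 hs
  have hlow := P02_low R s h0.le hR him
  have hER : 0 < Real.exp (-R) := Real.exp_pos _
  have hden : 0 < ‖1 - exp (-s)‖ := lt_of_lt_of_le (by positivity) hlow
  have hden0 : 1 - exp (-s) ≠ 0 := norm_pos_iff.1 hden
  have e1 : exp (-(θ * s)) / (1 - exp (-s)) - 1 / s =
      (s * (exp (-(θ * s)) - 1) + (exp (-s) - 1 + s)) / (s * (1 - exp (-s))) := by
    field_simp
    ring
  have hθs : 0 ≤ ((θ : ℂ) * s).re := by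
    rw [Complex.re_ofReal_mul]
    positivity
  have h1 := (P02_exp ((θ : ℂ) * s) hθs).1
  have h2 := (P02_exp s h0.le).2
  rw [norm_mul, Complex.norm_real, Real.norm_of_nonneg hθ] at h1
  have hnum : ‖s * (exp (-(θ * s)) - 1) + (exp (-s) - 1 + s)‖ ≤ 2 * ‖s‖ ^ 2 := by
    calc ‖s * (exp (-(θ * s)) - 1) + (exp (-s) - 1 + s)‖
        ≤ ‖s * (exp (-(θ * s)) - 1)‖ + ‖exp (-s) - 1 + s‖ := norm_add_le _ _
      _ ≤ ‖s‖ * (1 * ‖s‖) + ‖s‖ ^ 2 := by
        rw [norm_mul]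
        gcongr
        exact h1.trans (by gcongr)
      _ = 2 * ‖s‖ ^ 2 := by ring
  rw [e1, norm_div, norm_mul, div_le_iff₀ (by positivity)]
  refine hnum.trans ?_
  have h3 : Real.exp R * Real.exp (-R) = 1 := by rw [← Real.exp_add, add_neg_cancel, Real.exp_zero]
  calc 2 * ‖s‖ ^ 2 = 4 * Real.exp R * (‖s‖ * (Real.exp (-R) * ‖s‖ / 2)) := by
        linear_combination (-2 * ‖s‖ ^ 2) * h3
    _ ≤ 4 * Real.exp R * (‖s‖ * ‖1 - exp (-s)‖) := by gcongr

end OO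

end

section

/-!
# Shifted convolution sums with shifts: definitions
-/

open Complex Finset
open scoped ComplexConjugate

namespace OOK

/-- A smooth complex cut-off `F` (with derivatives `F1`, `F2`) which vanishes on `x ≤ Y`. -/
structure Cut3 (F F1 F2 : ℝ → ℂ) (B Y : ℝ) : Prop where
  B1 : 1 ≤ B
  Y2 : 2 ≤ Y
  zero : ∀ x ≤ Y, F x = 0
  bd0 : ∀ x, ‖F x‖ ≤ B
  d1 : ∀ x, 0 < x → HasDerivAt F (F1 x) x
  d2 : ∀ x, 0 < x → HasDerivAt F1 (F2 x) x
  bd1 : ∀ x, 0 < x → ‖F1 x‖ ≤ B / x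
  bd2 : ∀ x, 0 < x → ‖F2 x‖ ≤ B / x ^ 2

/-- a smooth rapidly decreasing function -/
structure Ker3 (H H1 H2 : ℝ → ℂ) (B ρ : ℝ) : Prop where
  ρ0 : 0 < ρ
  d1 : ∀ m, 0 < m → HasDerivAt H (H1 m) m
  d2 : ∀ m, 0 < m → HasDerivAt H1 (H2 m) m
  b0 : ∀ m, 0 < m → ‖H m‖ ≤ B * Real.exp (-ρ * m)
  b1 : ∀ m, 0 < m → ‖H1 m‖ ≤ 5 * B / m * Real.exp (-ρ * m / 2)
  b2 : ∀ m, 0 < m → ‖H2 m‖ ≤ 12 * B / m ^ 2 * Real.exp (-ρ * m / 2)

/-- a bounded sequence which vanishes at `0` -/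
structure Bd3 (g : ℕ → ℂ) (B : ℝ) : Prop where
  B1 : 1 ≤ B
  zero : g 0 = 0
  bd : ∀ n, ‖g n‖ ≤ B

/-- the coefficients `g₁ * g₂` -/
noncomputable def lam3 (g1 g2 : ℕ → ℂ) (n : ℕ) : ℂ := ∑ d ∈ n.divisorsAntidiagonal, g1 d.1 * g2 d.2

/-- the shifted sum, over the pairs `(n, n')` with `a n = b n' + r` -/
noncomputable def SS3 (g1 g2 : ℕ → ℂ) (a b r : ℕ) (κ : ℂ) : ℂ :=
  ∑' p : ℕ × ℕ, if a * p.1 = b * p.2 + r then
    lam3 g1 g2 p.1 * conj (lam3 g1 g2 p.2) * cexp (-κ * p.1) else 0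

/-- the terms of the fourfold sum; `p = ((u, v), (s, t))` -/
noncomputable def wgt3 (g1 g2 : ℕ → ℂ) (a b r : ℕ) (κ : ℂ) (p : (ℕ × ℕ) × (ℕ × ℕ)) : ℂ :=
  if a * (p.1.1 * p.1.2) = b * (p.2.1 * p.2.2) + r then
    g1 p.1.1 * g2 p.1.2 * (conj (g1 p.2.1) * conj (g2 p.2.2)) * cexp (-κ * (p.1.1 * p.1.2)) else 0

/-- the weighted fourfold sum, weight `w(u) exp(-η v)` -/
noncomputable def ZZ3 (g1 g2 : ℕ → ℂ) (a b r : ℕ) (κ : ℂ) (w : ℕ → ℂ) (η : ℝ) : ℂ :=
  ∑' p : (ℕ × ℕ) × (ℕ × ℕ), wgt3 g1 g2 a b r κ p * (w p.1.1 * Real.exp (-η * p.1.2))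

/-- the inner sum over `(s, t)` with `A ∣ b s t + r`, `v = (b s t + r) / A` -/
noncomputable def TT3 (g1 g2 : ℕ → ℂ) (b r A : ℕ) (μ : ℂ) : ℂ :=
  ∑' p : ℕ × ℕ, if A ∣ b * (p.1 * p.2) + r then
    g2 ((b * (p.1 * p.2) + r) / A) * (conj (g1 p.1) * conj (g2 p.2)) *
        cexp (-μ * (b * (p.1 * p.2) + r : ℕ)) else 0

/-- `H(m) = F(m / A) exp(-μ m)` -/
noncomputable def Hf3 (F : ℝ → ℂ) (A : ℝ) (μ : ℂ) (m : ℝ) : ℂ := F (m / A) * cexp (-μ * m)

/-- `Φ(s, t) = F(s) G(t) H(b s t + r)` -/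
noncomputable def Phi3 (F G H : ℝ → ℂ) (b r : ℕ) (s t : ℕ) : ℂ :=
  F s * G t * H (b * (s * t) + r)

/-- the twisted divisor integral -/
noncomputable def J3 (F G : ℝ → ℂ) (m : ℝ) : ℂ := ∫ s in Set.Ioi (0 : ℝ), F s * G (m / s) / s

end OOK

end
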