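import Pool.Agent.Lib.MP_0f5a55_nt.OM.K000

section

section F_X1

namespace LZX
open Filter Topology Complex Set

/-- Euler–Maclaurin term. -/
noncomputable def vt (n : ℕ) (s : ℂ) : ℂ :=
  (s - 1) * ((n : ℂ) + 1) ^ (-s) + (((n : ℂ) + 2) ^ (1 - s) - ((n : ℂ) + 1) ^ (1 - s))

lemma cast_add_ne (n : ℕ) (a : ℝ) (ha : 0 < a) : ((n : ℂ) + a) ≠ 0 := by
  have : ((n : ℂ) + a) = ((n + a : ℝ) : ℂ) := by push_cast; ring
  rw [this]
  exact_mod_cast (by positivity : (n:ℝ) + a ≠ 0)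

lemma vt_differentiable (n : ℕ) : Differentiable ℂ (vt n) := by
  unfold vt
  have h1 : ((n : ℂ) + 1) ≠ 0 := by simpa using cast_add_ne n 1 one_pos
  have h2 : ((n : ℂ) + 2) ≠ 0 := by simpa using cast_add_ne n 2 two_pos
  refine Differentiable.add (Differentiable.mul (by fun_prop) ?_) (Differentiable.sub ?_ ?_)
  · exact fun s => (DifferentiableAt.const_cpow (by fun_prop) (Or.inl h1))
  · exact fun s => (DifferentiableAt.const_cpow (by fun_prop) (Or.inl h2))
  · exact fun s => (DifferentiableAt.const_cpow (by fun_prop) (Or.inl h1))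

lemma hasDerivAt_cpow_line (n : ℕ) (x : ℝ) (hx : 0 ≤ x) (c : ℂ) :
    HasDerivAt (fun x : ℝ => ((n : ℂ) + 1 + x) ^ c) (c * ((n : ℂ) + 1 + x) ^ (c - 1)) x := by
  have h1 : HasDerivAt (fun x : ℝ => ((n : ℂ) + 1 + x)) 1 x := by
    simpa using (Complex.ofRealCLM.hasDerivAt (x := x)).const_add ((n : ℂ) + 1)
  have h2 : ((n : ℂ) + 1 + x) ∈ slitPlane := by
    left
    have : ((n : ℂ) + 1 + x).re = (n : ℝ) + 1 + x := by simp
    rw [this]; positivity
  have h3 : HasDerivAt (fun z : ℂ => z ^ c) (c * ((n : ℂ) + 1 + x) ^ (c - 1) * 1) ((n : ℂ) + 1 + x) :=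
    (hasDerivAt_id _).cpow_const h2
  have h4 := h3.comp_of_eq x h1 rfl
  rw [mul_one, mul_one] at h4
  exact h4

lemma norm_cpow_line (n : ℕ) (x : ℝ) (hx : 0 ≤ x) (c : ℂ) :
    ‖((n : ℂ) + 1 + x) ^ c‖ = ((n : ℝ) + 1 + x) ^ c.re := by
  have : ((n : ℂ) + 1 + x) = (((n : ℝ) + 1 + x : ℝ) : ℂ) := by push_cast; ring
  rw [this, Complex.norm_cpow_eq_rpow_re_of_pos (by positivity)]

lemma vt_bound (n : ℕ) (s : ℂ) (hs : -1 ≤ s.re) :
    ‖vt n s‖ ≤ ‖s - 1‖ * ‖s‖ * ((n : ℝ) + 1) ^ (-s.re - 1) := by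
  -- inner difference
  have h1 : ∀ x : ℝ, x ∈ Icc (0:ℝ) 1 →
      ‖((n : ℂ) + 1 + x) ^ (-s) - ((n : ℂ) + 1) ^ (-s)‖ ≤ ‖s‖ * ((n : ℝ) + 1) ^ (-s.re - 1) := by
    intro x hx
    have h2 := Convex.norm_image_sub_le_of_norm_hasDerivWithin_le (𝕜 := ℝ)
      (f := fun x : ℝ => ((n : ℂ) + 1 + x) ^ (-s)) (f' := fun x : ℝ => -s * ((n : ℂ) + 1 + x) ^ (-s - 1))
      (s := Icc (0:ℝ) 1) (x := 0) (y := x) (C := ‖s‖ * ((n : ℝ) + 1) ^ (-s.re - 1))
      (fun y hy => (hasDerivAt_cpow_line n y hy.1 (-s)).hasDerivWithinAt)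
      (fun y hy => by
        rw [norm_mul, norm_neg, norm_cpow_line n y hy.1]
        apply mul_le_mul_of_nonneg_left _ (norm_nonneg _)
        have h3 : (-s - 1).re = -s.re - 1 := by simp
        rw [h3]
        apply Real.rpow_le_rpow_of_nonpos (by positivity) (by linarith only [hy.1, hy]) (by linarith only [hs]))
      (convex_Icc 0 1) (by simp) hx
    simp only [ofReal_zero, add_zero] at h2
    refine h2.trans ?_
    have h4 : ‖x - 0‖ ≤ 1 := by
      rw [sub_zero, Real.norm_eq_abs, abs_of_nonneg hx.1]; exact hx.2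
    calc ‖s‖ * ((n : ℝ) + 1) ^ (-s.re - 1) * ‖x - 0‖
        ≤ ‖s‖ * ((n : ℝ) + 1) ^ (-s.re - 1) * 1 := by gcongr
      _ = _ := mul_one _
  have h5 : vt n s = (fun x : ℝ => (s - 1) * ((n : ℂ) + 1) ^ (-s) * x + ((n : ℂ) + 1 + x) ^ (1 - s)) 1 -
      (fun x : ℝ => (s - 1) * ((n : ℂ) + 1) ^ (-s) * x + ((n : ℂ) + 1 + x) ^ (1 - s)) 0 := by
    simp only [vt, ofReal_one, ofReal_zero, mul_one, mul_zero, add_zero, zero_add]
    rw [show (n : ℂ) + 1 + 1 = n + 2 by ring]
    ring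
  rw [h5]
  have hmain := Convex.norm_image_sub_le_of_norm_hasDerivWithin_le (𝕜 := ℝ)
    (f := fun x : ℝ => (s - 1) * ((n : ℂ) + 1) ^ (-s) * x + ((n : ℂ) + 1 + x) ^ (1 - s))
    (f' := fun x : ℝ => (s - 1) * ((n : ℂ) + 1) ^ (-s) + (1 - s) * ((n : ℂ) + 1 + x) ^ (1 - s - 1))
    (s := Icc (0:ℝ) 1) (x := 0) (y := 1) (C := ‖s - 1‖ * ‖s‖ * ((n : ℝ) + 1) ^ (-s.re - 1))
    ?_ ?_ (convex_Icc 0 1) (by simp) (by simp)
  · simpa using hmain
  · intro x hx
    have h6 := hasDerivAt_cpow_line n x hx.1 (1 - s)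
    have h7 : HasDerivAt (fun x : ℝ => (s - 1) * ((n : ℂ) + 1) ^ (-s) * (x : ℂ))
        ((s - 1) * ((n : ℂ) + 1) ^ (-s)) x := by
      simpa using (Complex.ofRealCLM.hasDerivAt (x := x)).const_mul ((s - 1) * ((n : ℂ) + 1) ^ (-s))
    exact (h7.add h6).hasDerivWithinAt
  · intro x hx
    have h8 : (s - 1) * ((n : ℂ) + 1) ^ (-s) + (1 - s) * ((n : ℂ) + 1 + x) ^ (1 - s - 1) =
        -((s - 1) * (((n : ℂ) + 1 + x) ^ (-s) - ((n : ℂ) + 1) ^ (-s))) := by
      rw [show (1 - s - 1) = -s by ring]; ring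
    rw [h8, norm_neg, norm_mul, mul_assoc]
    exact mul_le_mul_of_nonneg_left (h1 x hx) (norm_nonneg _)

lemma rpow_summable {σ : ℝ} (hσ : 0 < σ) : Summable fun n : ℕ => ((n : ℝ) + 1) ^ (-σ - 1) := by
  have h := (summable_nat_add_iff 1).2 (Real.summable_nat_rpow.2 (show -σ - 1 < -1 by linarith only [hσ]))
  refine h.congr ?_
  intro n; push_cast; rfl

lemma vt_summable {s : ℂ} (hs : 0 < s.re) : Summable fun n => vt n s :=
  Summable.of_norm_bounded ((rpow_summable hs).mul_left (‖s - 1‖ * ‖s‖))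
    (fun n => vt_bound n s (by linarith only [hs]))

lemma vt_tsum_differentiableAt {s₀ : ℂ} (hs : 0 < s₀.re) :
    DifferentiableAt ℂ (fun s => ∑' n, vt n s) s₀ := by
  set V : Set ℂ := {s : ℂ | s₀.re / 2 < s.re} ∩ Metric.ball 0 (‖s₀‖ + 1) with hV
  have hVo : IsOpen V := (isOpen_lt continuous_const continuous_re).inter Metric.isOpen_ball
  have hmem : s₀ ∈ V := by
    refine ⟨?_, ?_⟩
    · show s₀.re / 2 < s₀.re
      linarith only [hs]
    · rw [mem_ball_zero_iff]; linarith only []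
  have h1 : DifferentiableOn ℂ (fun s => ∑' n, vt n s) V := by
    refine Complex.differentiableOn_tsum_of_summable_norm
      (u := fun n : ℕ => (‖s₀‖ + 2) * (‖s₀‖ + 1) * ((n : ℝ) + 1) ^ (-(s₀.re / 2) - 1))
      ((rpow_summable (by linarith only [hs])).mul_left _) (fun n => (vt_differentiable n).differentiableOn) hVo ?_
    intro n w hw
    have hw1 : s₀.re / 2 < w.re := hw.1
    have hw2 : ‖w‖ < ‖s₀‖ + 1 := by simpa using hw.2
    refine (vt_bound n w (by linarith only [hs, hw1])).trans ?_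
    have h2 : ‖w - 1‖ ≤ ‖s₀‖ + 2 := by
      calc ‖w - 1‖ ≤ ‖w‖ + ‖(1:ℂ)‖ := norm_sub_le _ _
        _ ≤ _ := by rw [norm_one]; linarith only [hw2]
    have h3 : ((n : ℝ) + 1) ^ (-w.re - 1) ≤ ((n : ℝ) + 1) ^ (-(s₀.re / 2) - 1) :=
      Real.rpow_le_rpow_of_exponent_le (by linarith only [Nat.cast_nonneg (α := ℝ) n]) (by linarith only [hw1])
    gcongr
  exact (h1 s₀ hmem).differentiableAt (hVo.mem_nhds hmem)

lemma vt_tsum_of_one_lt {s : ℂ} (hs : 1 < s.re) :
    ∑' n, vt n s = (s - 1) * riemannZeta s - 1 := by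
  have hs0 : 0 < s.re := by linarith only [hs]
  have h1 : HasSum (fun n : ℕ => (s - 1) * ((n : ℂ) + 1) ^ (-s)) ((s - 1) * riemannZeta s) := by
    rw [zeta_eq_tsum_one_div_nat_add_one_cpow hs]
    have h2 : Summable fun n : ℕ => 1 / ((n : ℂ) + 1) ^ s := by
      have := (summable_nat_add_iff 1).2 (Complex.summable_one_div_nat_cpow.2 hs)
      refine this.congr ?_
      intro n; push_cast; rfl
    refine (h2.hasSum.mul_left (s - 1)).congr_fun ?_
    intro n
    rw [cpow_neg, one_div]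
  have h3 : Summable fun n : ℕ => (((n : ℂ) + 2) ^ (1 - s) - ((n : ℂ) + 1) ^ (1 - s)) := by
    refine ((vt_summable hs0).sub h1.summable).congr ?_
    intro n; unfold vt; ring
  have h4 : HasSum (fun n : ℕ => (((n : ℂ) + 2) ^ (1 - s) - ((n : ℂ) + 1) ^ (1 - s))) (0 - 1) := by
    rw [h3.hasSum_iff_tendsto_nat]
    have h5 : ∀ N : ℕ, ∑ n ∈ Finset.range N, (((n : ℂ) + 2) ^ (1 - s) - ((n : ℂ) + 1) ^ (1 - s)) =
        ((N : ℂ) + 1) ^ (1 - s) - 1 := by
      intro N
      have := Finset.sum_range_sub (fun n : ℕ => ((n : ℂ) + 1) ^ (1 - s)) N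
      simp only [Nat.cast_zero, zero_add, one_cpow] at this
      rw [← this]
      refine Finset.sum_congr rfl fun n _ => ?_
      push_cast
      rw [show (n : ℂ) + 1 + 1 = n + 2 by ring]
    simp only [h5]
    refine Tendsto.sub_const ?_ 1
    rw [tendsto_zero_iff_norm_tendsto_zero]
    have h6 : ∀ N : ℕ, ‖((N : ℂ) + 1) ^ (1 - s)‖ = ((N : ℝ) + 1) ^ (-(s.re - 1)) := by
      intro N
      have := norm_cpow_line N 0 le_rfl (1 - s)
      simp only [ofReal_zero, add_zero] at this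
      rw [this]; congr 1; simp
    simp only [h6]
    have h7 : Tendsto (fun N : ℕ => (N : ℝ) + 1) atTop atTop :=
      tendsto_atTop_add_const_right _ _ tendsto_natCast_atTop_atTop
    exact (tendsto_rpow_neg_atTop (by linarith only [hs] : 0 < s.re - 1)).comp h7
  have h8 := h1.add h4
  rw [show (s - 1) * riemannZeta s - 1 = (s - 1) * riemannZeta s + (0 - 1) by ring]
  exact h8.tsum_eq

lemma zeta_formula {s : ℂ} (hs : 0 < s.re) (h1 : s ≠ 1) :
    (s - 1) * riemannZeta s = 1 + ∑' n, vt n s := by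
  have hU : IsOpen {s : ℂ | 0 < s.re} := isOpen_lt continuous_const continuous_re
  have hA : AnalyticOnNhd ℂ riemannZeta₁ {s : ℂ | 0 < s.re} :=
    (differentiable_riemannZeta₁.differentiableOn).analyticOnNhd hU
  have hB : AnalyticOnNhd ℂ (fun s => 1 + ∑' n, vt n s) {s : ℂ | 0 < s.re} := by
    refine DifferentiableOn.analyticOnNhd ?_ hU
    intro z hz
    exact ((vt_tsum_differentiableAt hz).const_add 1).differentiableWithinAt
  have hpre : IsPreconnected {s : ℂ | 0 < s.re} := (convex_halfSpace_re_gt 0).isPreconnected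
  have hmem : (2 : ℂ) ∈ {s : ℂ | 0 < s.re} := by simp
  have heq : riemannZeta₁ =ᶠ[𝓝 2] fun s => 1 + ∑' n, vt n s := by
    have : {s : ℂ | 1 < s.re} ∈ 𝓝 (2 : ℂ) :=
      (isOpen_lt continuous_const continuous_re).mem_nhds (by simp)
    filter_upwards [this] with z hz
    have hz1 : z ≠ 1 := by rintro rfl; simp at hz
    rw [vt_tsum_of_one_lt hz]
    rw [riemannZeta_eq_inv_sub_mul hz1]
    have : z - 1 ≠ 0 := sub_ne_zero.2 hz1
    field_simp
    ring
  have h2 := hA.eqOn_of_preconnected_of_eventuallyEq hB hpre hmem heq hs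
  simp only at h2
  rw [← h2, riemannZeta_eq_inv_sub_mul h1]
  have : s - 1 ≠ 0 := sub_ne_zero.2 h1
  field_simp

/-- Polynomial growth of `ζ` in the half plane `Re s ≥ 1/2`. -/
lemma zeta_growth : ∃ C : ℝ, 1 ≤ C ∧ ∀ s : ℂ, 1/2 ≤ s.re → s ≠ 1 →
    ‖riemannZeta s‖ ≤ 1 / ‖s - 1‖ + C * ‖s‖ := by
  set C := ∑' n : ℕ, ((n : ℝ) + 1) ^ (-(1/2 : ℝ) - 1) with hC
  have hsum := rpow_summable (show (0:ℝ) < 1/2 by norm_num)
  refine ⟨C, ?_, ?_⟩
  · have := hsum.le_tsum 0 (fun n _ => by positivity)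
    simpa [hC] using this
  · intro s hs h1
    have hs0 : 0 < s.re := by linarith only [hs]
    have hne : 0 < ‖s - 1‖ := norm_pos_iff.2 (sub_ne_zero.2 h1)
    have h2 : ‖(s - 1) * riemannZeta s‖ ≤ 1 + ‖s - 1‖ * ‖s‖ * C := by
      rw [zeta_formula hs0 h1]
      refine (norm_add_le _ _).trans ?_
      rw [norm_one]
      gcongr
      rw [hC, ← tsum_mul_left]
      refine tsum_of_norm_bounded (hsum.mul_left _).hasSum ?_
      intro n
      refine (vt_bound n s (by linarith only [hs0])).trans ?_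
      have : ((n : ℝ) + 1) ^ (-s.re - 1) ≤ ((n : ℝ) + 1) ^ (-(1/2:ℝ) - 1) :=
        Real.rpow_le_rpow_of_exponent_le (by linarith only [Nat.cast_nonneg (α := ℝ) n]) (by linarith only [hs])
      gcongr
    rw [norm_mul] at h2
    have h3 : ‖riemannZeta s‖ ≤ (1 + ‖s - 1‖ * ‖s‖ * C) / ‖s - 1‖ := by
      rw [le_div_iff₀ hne, mul_comm]; exact h2
    refine h3.trans (le_of_eq ?_)
    field_simp

/-- `‖ζ(s)‖ ≤ C‖s‖` for `Re s ≥ 1/2`, away from `1`. -/
lemma zeta_growth' : ∃ C : ℝ, 1 ≤ C ∧ ∀ s : ℂ, 1/2 ≤ s.re → 1/2 ≤ ‖s - 1‖ →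
    ‖riemannZeta s‖ ≤ C * ‖s‖ := by
  obtain ⟨C, hC1, hC⟩ := zeta_growth
  refine ⟨C + 4, by linarith only [hC1], ?_⟩
  intro s hs h1
  have hne : s ≠ 1 := by rintro rfl; norm_num at h1
  refine (hC s hs hne).trans ?_
  have h2 : 1 / ‖s - 1‖ ≤ 2 := by
    rw [div_le_iff₀ (by linarith only [h1])]; linarith only [h1]
  have h3 : 1/2 ≤ ‖s‖ := hs.trans ((le_abs_self _).trans (abs_re_le_norm s))
  nlinarith only [h2, h3]

end LZX

end F_X1

end

section

/-! # Row OE01: the rotated integral is a differentiable function of the rotation parameter -/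

open Complex MeasureTheory Set Filter Topology
open scoped ComplexConjugate

namespace OO

/-- the norm of the integrand -/
private theorem E_rot_norm (al : ℝ) (c t : ℂ) (x : ℝ) :
    ‖exp (-((al : ℂ) / (t * x)) - c * t * x)‖ =
      Real.exp (-(al * (t⁻¹).re / x) - (c * t).re * x) := by
  have e1 : (al : ℂ) / (t * x) = ((al / x : ℝ) : ℂ) * t⁻¹ := by
    rw [div_eq_mul_inv, mul_inv]
    push_cast
    ring
  rw [norm_exp, sub_re, neg_re, e1, re_ofReal_mul, re_mul_ofReal]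
  congr 2
  ring

private theorem E_rot_cont (al : ℝ) {c t : ℂ} (ht : t ≠ 0) :
    ContinuousOn (fun x : ℝ => exp (-((al : ℂ) / (t * x)) - c * t * x)) (Ioi 0) := by
  intro x hx
  have hx0 : (x : ℂ) ≠ 0 := by
    have : x ≠ 0 := ne_of_gt hx
    exact_mod_cast this
  have h1 : t * (x : ℂ) ≠ 0 := mul_ne_zero ht hx0
  refine ContinuousAt.continuousWithinAt ?_
  fun_prop (disch := assumption)

private theorem E_rot_inv {t : ℂ} (ht : 0 < t.re) : t ≠ 0 ∧ 0 < (t⁻¹).re := by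
  have h0 : t ≠ 0 := by
    intro h
    rw [h, zero_re] at ht
    exact lt_irrefl _ ht
  refine ⟨h0, ?_⟩
  rw [inv_re]
  exact div_pos ht (normSq_pos.2 h0)

/-- PROOF. For `t` with `0 < t.re` put `m1 = al * (1/t).re = al * t.re / ‖t‖^2 > 0` and `m2 = (c*t).re > 0`. For `x > 0` the norm
of the integrand is `exp (-(m1/x) - m2*x) ≤ exp (-(m2*x))` (`norm_exp`, real part of `al/(t*x)` is `m1/x`). The function is
continuous on `Ioi 0`, so `Integrable.mono'` with `integrableOn_exp_mul_Ioi`-type lemma (`exp_neg_integrableOn_Ioi 0 m2pos`). -/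
theorem E_rot_int {al : ℝ} (hal : 0 < al) {c t : ℂ} (ht : 0 < t.re) (hct : 0 < (c * t).re) :
    IntegrableOn (fun x : ℝ => exp (-((al : ℂ) / (t * x)) - c * t * x)) (Ioi 0) := by
  obtain ⟨h0, h1⟩ := E_rot_inv ht
  refine Integrable.mono' (exp_neg_integrableOn_Ioi 0 hct)
    ((E_rot_cont al h0).aestronglyMeasurable measurableSet_Ioi) ?_
  refine (ae_restrict_iff' measurableSet_Ioi).2 (Eventually.of_forall fun x hx => ?_)
  rw [E_rot_norm]
  apply Real.exp_le_exp.2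
  have h2 : 0 ≤ al * (t⁻¹).re / x := div_nonneg (mul_nonneg hal.le h1.le) (le_of_lt hx)
  linarith

private theorem E_rot_deriv (al : ℝ) (c : ℂ) {t : ℂ} (ht : t ≠ 0) {x : ℝ} (hx : 0 < x) :
    HasDerivAt (fun t : ℂ => exp (-((al : ℂ) / (t * x)) - c * t * x))
      (((al : ℂ) / (t ^ 2 * x) - c * x) * exp (-((al : ℂ) / (t * x)) - c * t * x)) t := by
  have hx0 : (x : ℂ) ≠ 0 := by exact_mod_cast hx.ne'
  have h1 : HasDerivAt (fun t : ℂ => (al : ℂ) / (t * x)) (-((al : ℂ) / (t ^ 2 * x))) t := by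
    have h2 := ((hasDerivAt_id t).mul_const (x : ℂ)).inv (mul_ne_zero ht hx0)
    have h3 := h2.const_mul (al : ℂ)
    refine h3.congr_deriv ?_
    simp only [id]
    field_simp
  have h4 : HasDerivAt (fun t : ℂ => c * t * x) (c * x) t := by
    have h5 := ((hasDerivAt_id t).const_mul c).mul_const (x : ℂ)
    refine h5.congr_deriv ?_
    ring
  have h6 := (h1.neg.sub h4).cexp
  refine h6.congr_deriv ?_
  rw [neg_neg, mul_comm]
  rfl

private theorem E_rot_bound {al : ℝ} (hal : 0 < al) (c : ℂ) {m : ℝ} (hm : 0 < m) {t : ℂ}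
    (h1 : m < al * (t⁻¹).re) (h2 : m < (c * t).re) (h3 : m < ‖t‖) {x : ℝ} (hx : 0 < x) :
    ‖((al : ℂ) / (t ^ 2 * x) - c * x) * exp (-((al : ℂ) / (t * x)) - c * t * x)‖ ≤
      al / m ^ 3 * Real.exp (-m * x) + ‖c‖ * (2 / m) * Real.exp (-(m / 2) * x) := by
  rw [norm_mul, E_rot_norm]
  have e1 : ‖(al : ℂ) / (t ^ 2 * x) - c * x‖ ≤ al / (m ^ 2 * x) + ‖c‖ * x := by
    refine (norm_sub_le _ _).trans ?_
    rw [norm_div, norm_mul, norm_mul, norm_pow, norm_real, norm_real, Real.norm_eq_abs,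
      Real.norm_eq_abs, abs_of_pos hal, abs_of_pos hx]
    have : m ^ 2 * x ≤ ‖t‖ ^ 2 * x := by gcongr
    have h4 : al / (‖t‖ ^ 2 * x) ≤ al / (m ^ 2 * x) :=
      div_le_div_of_nonneg_left hal.le (by positivity) this
    linarith
  have e2 : Real.exp (-(al * (t⁻¹).re / x) - (c * t).re * x) ≤
      Real.exp (-(m / x)) * Real.exp (-m * x) := by
    rw [← Real.exp_add]
    apply Real.exp_le_exp.2
    have h5 : m / x ≤ al * (t⁻¹).re / x := by gcongr
    have h6 : m * x ≤ (c * t).re * x := by gcongr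
    linarith
  refine (mul_le_mul e1 e2 (Real.exp_pos _).le (by positivity)).trans ?_
  have e3 : Real.exp (-(m / x)) ≤ 1 := Real.exp_le_one_iff.2 (by
    have : 0 ≤ m / x := by positivity
    linarith)
  have e4 : m / x * Real.exp (-(m / x)) ≤ 1 := by
    have h7 := Real.add_one_le_exp (m / x)
    rw [Real.exp_neg, ← div_eq_mul_inv, div_le_one (Real.exp_pos _)]
    linarith
  have e5 : m / 2 * x * Real.exp (-m * x) ≤ Real.exp (-(m / 2) * x) := by
    have h8 : Real.exp (-m * x) = Real.exp (-(m / 2) * x) * Real.exp (-(m / 2 * x)) := by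
      rw [← Real.exp_add]
      congr 1
      ring
    have h9 := Real.add_one_le_exp (m / 2 * x)
    have h10 : m / 2 * x * Real.exp (-(m / 2 * x)) ≤ 1 := by
      rw [Real.exp_neg, ← div_eq_mul_inv, div_le_one (Real.exp_pos _)]
      linarith
    rw [h8]
    calc m / 2 * x * (Real.exp (-(m / 2) * x) * Real.exp (-(m / 2 * x))) =
        Real.exp (-(m / 2) * x) * (m / 2 * x * Real.exp (-(m / 2 * x))) := by ring
      _ ≤ Real.exp (-(m / 2) * x) * 1 := by gcongr
      _ = _ := mul_one _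
  have e6 : al / (m ^ 2 * x) * (Real.exp (-(m / x)) * Real.exp (-m * x)) ≤
      al / m ^ 3 * Real.exp (-m * x) := by
    have h11 : al / (m ^ 2 * x) = al / m ^ 3 * (m / x) := by
      field_simp
    rw [h11]
    calc al / m ^ 3 * (m / x) * (Real.exp (-(m / x)) * Real.exp (-m * x)) =
        al / m ^ 3 * Real.exp (-m * x) * (m / x * Real.exp (-(m / x))) := by ring
      _ ≤ al / m ^ 3 * Real.exp (-m * x) * 1 := by gcongr
      _ = _ := mul_one _
  have e7 : ‖c‖ * x * (Real.exp (-(m / x)) * Real.exp (-m * x)) ≤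
      ‖c‖ * (2 / m) * Real.exp (-(m / 2) * x) := by
    calc ‖c‖ * x * (Real.exp (-(m / x)) * Real.exp (-m * x)) ≤
        ‖c‖ * x * (1 * Real.exp (-m * x)) := by gcongr
      _ = ‖c‖ * (2 / m) * (m / 2 * x * Real.exp (-m * x)) := by
          field_simp
      _ ≤ _ := by gcongr
  rw [add_mul]
  exact add_le_add e6 e7

/-- PROOF. Let `t0` be in the (open) set `D`. By continuity there are `r, m > 0` with `ball t0 r ⊆ D` and, on the ball,
`m ≤ al * (1/t).re`, `m ≤ (c*t).re`, `m ≤ ‖t‖` (for instance `Metric.closedBall t0 r` compact, or `Filter.Eventually` of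
three continuous strict inequalities at `t0` with `m` half of the minimum of the three values at `t0`).
The derivative in `t` of the integrand is `((al : ℂ) / (t^2 * x) - c * x) * exp (-(al/(t*x)) - c*t*x)`, with norm at most
`(al/(m^2*x) + ‖c‖*x) * exp (-(m/x) - m*x) ≤ (al/m^3 + ‖c‖*x) * exp (-(m*x))` (as `(1/x) * exp (-(m/x)) ≤ 1/m`), an integrable
bound on `Ioi 0` (independent of `t` in the ball). Apply `hasDerivAt_integral_of_dominated_loc_of_deriv_le`
(see `LZX.exp_int` in `V/V13.lean` for the same kind of proof); measurability by continuity on `Ioi 0`,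
integrability at `t0` from `E_rot_int`. -/
theorem E_rot_diff {al : ℝ} (hal : 0 < al) (c : ℂ) :
    DifferentiableOn ℂ (fun t : ℂ => ∫ x in Ioi (0 : ℝ), exp (-((al : ℂ) / (t * x)) - c * t * x))
      {t : ℂ | 0 < t.re ∧ 0 < (c * t).re} := by
  rintro t0 ⟨ht, hct⟩
  obtain ⟨h0, h1⟩ := E_rot_inv ht
  obtain ⟨m, hm, hm1, hm2, hm3⟩ : ∃ m : ℝ, 0 < m ∧ m < al * (t0⁻¹).re ∧ m < (c * t0).re ∧ m < ‖t0‖ := by
    obtain ⟨m, hm, hm'⟩ := exists_between (show (0 : ℝ) < min (al * (t0⁻¹).re) (min (c * t0).re ‖t0‖) from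
      lt_min (mul_pos hal h1) (lt_min hct (norm_pos_iff.2 h0)))
    rw [lt_min_iff, lt_min_iff] at hm'
    exact ⟨m, hm, hm'.1, hm'.2.1, hm'.2.2⟩
  have hs : {t : ℂ | m < al * (t⁻¹).re ∧ m < (c * t).re ∧ m < ‖t‖} ∈ 𝓝 t0 := by
    have c1 : ContinuousAt (fun t : ℂ => al * (t⁻¹).re) t0 :=
      continuousAt_const.mul (continuous_re.continuousAt.comp (continuousAt_inv₀ h0))
    have c2 : ContinuousAt (fun t : ℂ => (c * t).re) t0 := by fun_prop
    have c3 : ContinuousAt (fun t : ℂ => ‖t‖) t0 := by fun_prop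
    filter_upwards [c1.eventually (lt_mem_nhds hm1), c2.eventually (lt_mem_nhds hm2),
      c3.eventually (lt_mem_nhds hm3)] with t a1 a2 a3
    exact ⟨a1, a2, a3⟩
  have hne : ∀ t : ℂ, m < ‖t‖ → t ≠ 0 := fun t h h' => by
    rw [h', norm_zero] at h
    linarith
  have key := hasDerivAt_integral_of_dominated_loc_of_deriv_le (μ := volume.restrict (Ioi (0 : ℝ)))
    (F := fun (t : ℂ) (x : ℝ) => exp (-((al : ℂ) / (t * x)) - c * t * x))
    (F' := fun (t : ℂ) (x : ℝ) => ((al : ℂ) / (t ^ 2 * x) - c * x) * exp (-((al : ℂ) / (t * x)) - c * t * x))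
    (bound := fun x => al / m ^ 3 * Real.exp (-m * x) + ‖c‖ * (2 / m) * Real.exp (-(m / 2) * x))
    hs
    (by
      filter_upwards [hs] with t hts
      exact (E_rot_cont al (hne t hts.2.2)).aestronglyMeasurable measurableSet_Ioi)
    (E_rot_int hal ht hct)
    (by
      refine ContinuousOn.aestronglyMeasurable ?_ measurableSet_Ioi
      refine ContinuousOn.mul ?_ (E_rot_cont al h0)
      intro x hx
      have hx0 : (x : ℂ) ≠ 0 := by
        have : x ≠ 0 := ne_of_gt hx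
        exact_mod_cast this
      have h2 : t0 ^ 2 * (x : ℂ) ≠ 0 := mul_ne_zero (pow_ne_zero _ h0) hx0
      refine ContinuousAt.continuousWithinAt ?_
      fun_prop (disch := assumption))
    (by
      refine (ae_restrict_iff' measurableSet_Ioi).2 (Eventually.of_forall fun x hx t hts => ?_)
      exact E_rot_bound hal c hm hts.1 hts.2.1 hts.2.2 hx)
    (by
      have b1 := exp_neg_integrableOn_Ioi 0 hm
      have b2 := exp_neg_integrableOn_Ioi 0 (half_pos hm)
      exact (b1.const_mul _).add (b2.const_mul _))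
    (by
      refine (ae_restrict_iff' measurableSet_Ioi).2 (Eventually.of_forall fun x hx t hts => ?_)
      exact E_rot_deriv al c (hne t hts.2.2) hx)
  exact key.2.differentiableAt.differentiableWithinAt

end OO

end
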