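import Pool.Agent.Lib.MP_0f5a55_nt.OM.K000
import Pool.Agent.Lib.MP_0f5a55_nt.OM.K001
import Pool.Agent.Lib.MP_0f5a55_nt.OM.K002

section

section F_A03

open Complex MeasureTheory Set Filter Topology
open scoped ComplexConjugate

namespace LZ

/-- from zeta_formula and vt_bound (LZX, file X1): |zeta s| <= 1/|s-1| + |s| sum (n+1)^(-Re s-1) for Re s <= 3,
and |zeta s| <= zeta(3) beyond. -/
theorem zeta_pol : ∃ C : ℝ, 0 < C ∧ ∀ s : ℂ, 5/16 ≤ s.re → 1/4 ≤ ‖s - 1‖ →
    ‖riemannZeta s‖ ≤ C * (1 + |s.im|) := by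
  set C1 := ∑' n : ℕ, ((n : ℝ) + 1) ^ (-(5/16 : ℝ) - 1) with hC1
  set C2 := ∑' n : ℕ, ((n : ℝ) + 1) ^ (-(2 : ℝ) - 1) with hC2
  have hsum1 := LZX.rpow_summable (show (0:ℝ) < 5/16 by norm_num)
  have hsum2 := LZX.rpow_summable (show (0:ℝ) < 2 by norm_num)
  have hC10 : 0 ≤ C1 := tsum_nonneg (fun n => by positivity)
  have hC20 : 0 ≤ C2 := tsum_nonneg (fun n => by positivity)
  refine ⟨4 + 3 * C1 + C2, by positivity, ?_⟩
  intro s hs hs1
  have him : 0 ≤ |s.im| := abs_nonneg _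
  have hne : s ≠ 1 := by rintro rfl; norm_num at hs1
  by_cases h3 : s.re ≤ 3
  · have hs0 : 0 < s.re := by linarith only [hs]
    have hnp : 0 < ‖s - 1‖ := norm_pos_iff.2 (sub_ne_zero.2 hne)
    have h2 : ‖(s - 1) * riemannZeta s‖ ≤ 1 + ‖s - 1‖ * ‖s‖ * C1 := by
      rw [LZX.zeta_formula hs0 hne]
      refine (norm_add_le _ _).trans ?_
      rw [norm_one]
      gcongr
      rw [hC1, ← tsum_mul_left]
      refine tsum_of_norm_bounded (hsum1.mul_left _).hasSum ?_
      intro n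
      refine (LZX.vt_bound n s (by linarith only [hs0])).trans ?_
      have : ((n : ℝ) + 1) ^ (-s.re - 1) ≤ ((n : ℝ) + 1) ^ (-(5/16:ℝ) - 1) :=
        Real.rpow_le_rpow_of_exponent_le (by linarith only [Nat.cast_nonneg (α := ℝ) n]) (by linarith only [hs])
      gcongr
    rw [norm_mul] at h2
    have h4 : ‖riemannZeta s‖ ≤ 1 / ‖s - 1‖ + ‖s‖ * C1 := by
      have h5 : ‖riemannZeta s‖ ≤ (1 + ‖s - 1‖ * ‖s‖ * C1) / ‖s - 1‖ := by
        rw [le_div_iff₀ hnp, mul_comm]; exact h2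
      refine h5.trans (le_of_eq ?_)
      field_simp
    have h6 : 1 / ‖s - 1‖ ≤ 4 := by
      rw [div_le_iff₀ hnp]; linarith only [hs1]
    have h7 : ‖s‖ ≤ 3 + |s.im| := by
      refine (Complex.norm_le_abs_re_add_abs_im s).trans ?_
      rw [abs_of_pos hs0]; linarith only [h3]
    have h8 : ‖s‖ * C1 ≤ (3 + |s.im|) * C1 := mul_le_mul_of_nonneg_right h7 hC10
    have h9 : 0 ≤ C1 * |s.im| := mul_nonneg hC10 him
    have h10 : 0 ≤ C2 * |s.im| := mul_nonneg hC20 him
    nlinarith only [hC20, him, h4, h6, h8, h9, h10]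
  · have h1 : 1 < s.re := by linarith only [not_le.mp h3, h3]
    have h4 : ‖riemannZeta s‖ ≤ C2 := by
      rw [zeta_eq_tsum_one_div_nat_add_one_cpow h1]
      refine tsum_of_norm_bounded hsum2.hasSum ?_
      intro n
      have hc : ((n : ℂ) + 1) = (((n : ℝ) + 1 : ℝ) : ℂ) := by push_cast; ring
      rw [norm_div, norm_one, hc, Complex.norm_cpow_eq_rpow_re_of_pos (by positivity), one_div,
        ← Real.rpow_neg (by positivity)]
      apply Real.rpow_le_rpow_of_exponent_le (by linarith only [Nat.cast_nonneg (α := ℝ) n])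
      linarith only [not_le.mp h3, h3]
    have h9 : 0 ≤ C1 * |s.im| := mul_nonneg hC10 him
    have h10 : 0 ≤ C2 * |s.im| := mul_nonneg hC20 him
    nlinarith only [hC10, him, h4, h9, h10]

end LZ

end F_A03

section F_A19

open Complex MeasureTheory Set Filter Topology
open scoped ComplexConjugate

namespace LZ

/-- the general term of `DD` -/
noncomputable def A19_f (η W : ℂ) (m : ℕ) : ℂ := ((m : ℂ) + 1) ^ (-η) * (exp (((m : ℂ) + 1) * W) - 1)⁻¹

theorem A19_cpow_norm (η : ℂ) (hη : |η.re| ≤ 1 / 8) (x : ℝ) (hx : 1 ≤ x) : ‖(x : ℂ) ^ (-η)‖ ≤ x := by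
  rw [Complex.norm_cpow_eq_rpow_re_of_pos (by linarith only [hx])]
  calc x ^ (-η).re ≤ x ^ (1 : ℝ) := by
        apply Real.rpow_le_rpow_of_exponent_le hx
        rw [Complex.neg_re]
        have := abs_le.1 hη
        linarith only [this.1, this]
    _ = x := Real.rpow_one x

theorem A19_inv_norm (z : ℂ) (Y : ℝ) (hY : 0 < Y) (hz : Y ≤ z.re) :
    ‖(exp z - 1)⁻¹‖ ≤ (1 - Real.exp (-Y))⁻¹ * Real.exp (-z.re) := by
  have h1 : Real.exp (-Y) < 1 := by rw [Real.exp_lt_one_iff]; linarith only [hY]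
  have h2 : 0 < 1 - Real.exp (-Y) := by linarith only [h1]
  have h3 : Real.exp z.re * (1 - Real.exp (-Y)) ≤ ‖exp z - 1‖ := by
    have h4 : ‖exp z‖ - ‖(1 : ℂ)‖ ≤ ‖exp z - 1‖ := norm_sub_norm_le _ _
    rw [Complex.norm_exp, norm_one] at h4
    have h5 : 1 ≤ Real.exp (z.re + -Y) := Real.one_le_exp (by linarith only [hz])
    rw [Real.exp_add] at h5
    nlinarith only [h4, h5]
  rw [norm_inv]
  calc ‖exp z - 1‖⁻¹ ≤ (Real.exp z.re * (1 - Real.exp (-Y)))⁻¹ :=
        inv_anti₀ (by positivity) h3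
    _ = _ := by rw [mul_inv, Real.exp_neg z.re]; ring

theorem A19_summable_maj (Y : ℝ) (hY : 0 < Y) (K : ℝ) :
    Summable fun m : ℕ => ((m : ℝ) + 1) * (K * Real.exp (-(((m : ℝ) + 1) * Y))) := by
  have h1 := Real.summable_pow_mul_exp_neg_nat_mul 1 hY
  have h2 := ((summable_nat_add_iff 1).2 h1).mul_left K
  refine h2.congr fun m => ?_
  rw [pow_one]
  push_cast
  have : -Y * ((m : ℝ) + 1) = -(((m : ℝ) + 1) * Y) := by ring
  rw [this]
  ring

theorem A19_summable (η W : ℂ) (hη : |η.re| ≤ 1 / 8) (hW : 0 < W.re) : Summable (A19_f η W) := by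
  refine Summable.of_norm_bounded (A19_summable_maj W.re hW (1 - Real.exp (-W.re))⁻¹) fun m => ?_
  unfold A19_f
  rw [norm_mul]
  have hm1 : (1 : ℝ) ≤ (m : ℝ) + 1 := by
    have : (0 : ℝ) ≤ m := Nat.cast_nonneg m
    linarith only []
  have h1 : ‖((m : ℂ) + 1) ^ (-η)‖ ≤ (m : ℝ) + 1 := by
    have := A19_cpow_norm η hη ((m : ℝ) + 1) hm1
    push_cast at this
    exact this
  have hre : (((m : ℂ) + 1) * W).re = ((m : ℝ) + 1) * W.re := by
    have : ((m : ℂ) + 1) = (((m : ℝ) + 1 : ℝ) : ℂ) := by push_cast; rfl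
    rw [this, Complex.re_ofReal_mul]
  have h2 := A19_inv_norm (((m : ℂ) + 1) * W) W.re hW (by rw [hre]; nlinarith only [hW])
  rw [hre] at h2
  exact mul_le_mul h1 h2 (norm_nonneg _) (by linarith only [])

/-- splitting of DD in residue classes (gcd(h,k)=1, m = a + jk): for a < k the term is a function of mY only, with
b = (a h) mod k; for a = k (m = k(j+1)) subtract exp(-k m Y)/(mY). -/
theorem DD_split (η : ℂ) (hη : |η.re| ≤ 1/8) (h k : ℕ) (hh : 1 ≤ h) (hk : 1 ≤ k) (hc : Nat.Coprime h k)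
    (Y : ℝ) (hY : 0 < Y) :
    DD η ((Y : ℂ) + 2 * Real.pi * I * h / k) =
      (∑ a ∈ Finset.Ico 1 k, ∑' j : ℕ, ((a : ℂ) + j * k) ^ (-η) *
        (exp (((((a : ℝ) + j * k) * Y : ℝ) : ℂ) + 2 * Real.pi * I * ((a * h) % k : ℕ) / k) - 1)⁻¹) +
      (∑' j : ℕ, ((k : ℂ) + j * k) ^ (-η) *
        ((1 / (Real.exp (((k : ℝ) + j * k) * Y) - 1) - Real.exp (-(k * (((k : ℝ) + j * k) * Y))) /
          (((k : ℝ) + j * k) * Y) : ℝ) : ℂ)) +
      (k : ℂ) ^ (-1 - η) / Y * ∑' n : ℕ, ((n : ℂ) + 1) ^ (-(1 + η)) *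
        (Real.exp (-(((n : ℝ) + 1) * ((k : ℝ) ^ 2 * Y))) : ℂ) := by
  have hk0 : (0 : ℝ) < k := by exact_mod_cast hk
  have hk1 : (1 : ℝ) ≤ k := by exact_mod_cast hk
  have hkC : (k : ℂ) ≠ 0 := by exact_mod_cast hk0.ne'
  have : NeZero k := ⟨by omega⟩
  set W : ℂ := (Y : ℂ) + 2 * Real.pi * I * h / k with hW
  have hWre : W.re = Y := by
    have e : W = (Y : ℂ) + ((2 * Real.pi * h / k : ℝ) : ℂ) * I := by
      rw [hW]; push_cast; ring
    rw [e]; simp
  have hWpos : 0 < W.re := by rw [hWre]; exact hY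
  have hsum := A19_summable η W hη hWpos
  have hDD : DD η W = ∑' m, A19_f η W m := rfl
  rw [hDD, Nat.sumByResidueClasses hsum k]
  -- from ZMod k to a range
  have hzmod : ∀ G : ℕ → ℂ, ∑ j : ZMod k, G j.val = ∑ a ∈ Finset.range k, G a := by
    intro G
    apply Finset.sum_bij (fun (j : ZMod k) _ => j.val)
    · intro j _; exact Finset.mem_range.2 (ZMod.val_lt j)
    · intro a _ b _ hab; exact ZMod.val_injective k hab
    · intro a ha
      exact ⟨(a : ZMod k), Finset.mem_univ _, ZMod.val_cast_of_lt (Finset.mem_range.1 ha)⟩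
    · intro j _; rfl
  rw [hzmod (fun v => ∑' m : ℕ, A19_f η W (v + k * m))]
  have hrange : ∀ G : ℕ → ℂ, ∑ a ∈ Finset.range k, G (a + 1) = ∑ a ∈ Finset.Ico 1 k, G a + G k := by
    intro G
    have h1 : ∑ a ∈ Finset.range k, G (a + 1) = ∑ a ∈ Finset.Ico 1 (k + 1), G a := by
      rw [Finset.range_eq_Ico, Finset.sum_Ico_add' G 0 k 1]
    rw [h1, Finset.sum_Ico_succ_top (by omega)]
  -- the exponential depends only on the residue class
  have hexp : ∀ (a j : ℕ), exp (((a : ℂ) + j * k) * W) =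
      exp (((((a : ℝ) + j * k) * Y : ℝ) : ℂ) + 2 * Real.pi * I * ((a * h) % k : ℕ) / k) := by
    intro a j
    rw [Complex.exp_eq_exp_iff_exists_int]
    obtain ⟨q, hq⟩ : ∃ q : ℕ, q = a * h / k := ⟨_, rfl⟩
    refine ⟨((q + j * h : ℕ) : ℤ), ?_⟩
    have h1 : (a * h : ℕ) = (a * h) % k + k * q := by rw [hq]; exact (Nat.mod_add_div _ _).symm
    have h2 : ((a : ℂ) * h) = (((a * h) % k : ℕ) : ℂ) + k * (q : ℂ) := by
      exact_mod_cast h1
    have h3 : ((a : ℂ) + j * k) * W = ((a : ℂ) + j * k) * Y +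
        2 * Real.pi * I * ((a * h : ℂ) / k + j * h) := by
      rw [hW]; field_simp
    rw [h3, h2]
    push_cast
    field_simp
    ring
  have hterm : ∀ (a j : ℕ), A19_f η W (a + k * j) = (((a + 1 : ℕ) : ℂ) + j * k) ^ (-η) *
      (exp ((((((a + 1 : ℕ) : ℝ) + j * k) * Y : ℝ) : ℂ) +
        2 * Real.pi * I * (((a + 1) * h) % k : ℕ) / k) - 1)⁻¹ := by
    intro a j
    unfold A19_f
    rw [← hexp]
    have : (((a + k * j : ℕ) : ℂ) + 1) = ((a + 1 : ℕ) : ℂ) + j * k := by push_cast; ring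
    rw [this]
  rw [Finset.sum_congr rfl fun a _ => tsum_congr fun j => hterm a j,
    hrange (fun b => ∑' j : ℕ, ((b : ℂ) + j * k) ^ (-η) *
      (exp (((((b : ℝ) + j * k) * Y : ℝ) : ℂ) + 2 * Real.pi * I * ((b * h) % k : ℕ) / k) - 1)⁻¹),
    add_assoc]
  congr 1
  -- the class a = k
  have hlast : ∀ j : ℕ, ((k : ℂ) + j * k) ^ (-η) *
      (exp (((((k : ℝ) + j * k) * Y : ℝ) : ℂ) + 2 * Real.pi * I * ((k * h) % k : ℕ) / k) - 1)⁻¹ =
      ((k : ℂ) + j * k) ^ (-η) *
        ((1 / (Real.exp (((k : ℝ) + j * k) * Y) - 1) - Real.exp (-(k * (((k : ℝ) + j * k) * Y))) /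
          (((k : ℝ) + j * k) * Y) : ℝ) : ℂ) +
      (k : ℂ) ^ (-1 - η) / Y * (((j : ℂ) + 1) ^ (-(1 + η)) *
        (Real.exp (-(((j : ℝ) + 1) * ((k : ℝ) ^ 2 * Y))) : ℂ)) := by
    intro j
    have hj0 : (0 : ℝ) ≤ j := Nat.cast_nonneg j
    have hY0 : (Y : ℂ) ≠ 0 := by exact_mod_cast hY.ne'
    have hj1 : ((j : ℂ) + 1) ≠ 0 := by
      have : ((j : ℝ) + 1) ≠ 0 := by positivity
      exact_mod_cast this
    have h1 : exp (((((k : ℝ) + j * k) * Y : ℝ) : ℂ) + 2 * Real.pi * I * ((k * h) % k : ℕ) / k) =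
        ((Real.exp (((k : ℝ) + j * k) * Y) : ℝ) : ℂ) := by
      rw [Nat.mul_mod_right]
      simp
    rw [h1]
    have h2 : ((k : ℂ) + j * k) = (k : ℂ) * ((j : ℂ) + 1) := by ring
    have h3 : ((k : ℂ) + j * k) ^ (-η) = (k : ℂ) ^ (-η) * ((j : ℂ) + 1) ^ (-η) := by
      rw [h2]
      have := Complex.mul_cpow_ofReal_nonneg hk0.le (show (0 : ℝ) ≤ (j : ℝ) + 1 by positivity) (-η)
      push_cast at this
      exact this
    have h4 : (k : ℂ) ^ (-1 - η) = (k : ℂ)⁻¹ * (k : ℂ) ^ (-η) := by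
      rw [show -1 - η = -1 + -η by ring, Complex.cpow_add _ _ hkC, Complex.cpow_neg_one]
    have h5 : ((j : ℂ) + 1) ^ (-(1 + η)) = ((j : ℂ) + 1)⁻¹ * ((j : ℂ) + 1) ^ (-η) := by
      rw [show -(1 + η) = -1 + -η by ring, Complex.cpow_add _ _ hj1, Complex.cpow_neg_one]
    have h6 : Real.exp (-(k * (((k : ℝ) + j * k) * Y))) =
        Real.exp (-(((j : ℝ) + 1) * ((k : ℝ) ^ 2 * Y))) := by congr 1; ring
    rw [h3, h4, h5, h6]
    push_cast
    rw [h2]
    generalize cexp ((k : ℂ) * ((j : ℂ) + 1) * Y) = E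
    generalize cexp (-(((j : ℂ) + 1) * ((k : ℂ) ^ 2 * Y))) = e
    rw [one_div]
    generalize (E - 1)⁻¹ = F
    generalize ((j : ℂ) + 1) ^ (-η) = zη
    generalize (k : ℂ) ^ (-η) = kη
    generalize (j : ℂ) + 1 = z at *
    field_simp
    ring
  rw [tsum_congr hlast]
  have hs2 : Summable fun j : ℕ => (k : ℂ) ^ (-1 - η) / Y * (((j : ℂ) + 1) ^ (-(1 + η)) *
      (Real.exp (-(((j : ℝ) + 1) * ((k : ℝ) ^ 2 * Y))) : ℂ)) := by
    apply Summable.mul_left
    have hk2Y : 0 < (k : ℝ) ^ 2 * Y := by positivity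
    refine Summable.of_norm_bounded (A19_summable_maj ((k : ℝ) ^ 2 * Y) hk2Y 1) fun j => ?_
    have hj1 : (1 : ℝ) ≤ (j : ℝ) + 1 := by
      have : (0 : ℝ) ≤ j := Nat.cast_nonneg j
      linarith only []
    rw [norm_mul, Complex.norm_real, Real.norm_eq_abs, abs_of_pos (Real.exp_pos _), one_mul]
    apply mul_le_mul_of_nonneg_right _ (Real.exp_pos _).le
    have e : ((j : ℂ) + 1) = (((j : ℝ) + 1 : ℝ) : ℂ) := by push_cast; rfl
    rw [e, Complex.norm_cpow_eq_rpow_re_of_pos (by linarith only [])]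
    calc ((j : ℝ) + 1) ^ (-(1 + η)).re ≤ ((j : ℝ) + 1) ^ (1 : ℝ) := by
          apply Real.rpow_le_rpow_of_exponent_le hj1
          rw [Complex.neg_re, Complex.add_re, Complex.one_re]
          have := abs_le.1 hη
          linarith only [this.1, this]
      _ = (j : ℝ) + 1 := Real.rpow_one _
  have hs0 : Summable fun j : ℕ => ((k : ℂ) + j * k) ^ (-η) *
      (exp (((((k : ℝ) + j * k) * Y : ℝ) : ℂ) + 2 * Real.pi * I * ((k * h) % k : ℕ) / k) - 1)⁻¹ := by
    have hinj : Function.Injective (fun j : ℕ => (k - 1) + k * j) := by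
      intro a b hab
      simp only at hab
      have : k * a = k * b := by omega
      exact Nat.eq_of_mul_eq_mul_left (by omega) this
    have h1 := hsum.comp_injective hinj
    refine h1.congr fun j => ?_
    have h2 := hterm (k - 1) j
    have h3 : k - 1 + 1 = k := by omega
    rw [h3] at h2
    simp only [Function.comp]
    exact h2
  have hs1 : Summable fun j : ℕ => ((k : ℂ) + j * k) ^ (-η) *
        ((1 / (Real.exp (((k : ℝ) + j * k) * Y) - 1) - Real.exp (-(k * (((k : ℝ) + j * k) * Y))) /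
          (((k : ℝ) + j * k) * Y) : ℝ) : ℂ) := by
    have h1 := hs0.sub hs2
    refine h1.congr fun j => ?_
    rw [hlast j]
    ring
  rw [hs1.tsum_add hs2, tsum_mul_left]

end LZ

end F_A19

end

section

section F_X_LB

/-!
# Bounds for Dirichlet L-functions in the half plane Re s > 0
-/

set_option autoImplicit false

namespace LX

open Finset

theorem w06_total (q : ℕ) [NeZero q] (f : ZMod q → ℂ) :
    ∑ n ∈ range q, f (n : ZMod q) = ∑ a, f a := by
  refine Finset.sum_nbij' (fun n => (n : ZMod q)) ZMod.val ?_ ?_ ?_ ?_ ?_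
  · intro n _
    exact mem_univ _
  · intro a _
    exact mem_range.2 (ZMod.val_lt a)
  · intro n hn
    exact ZMod.val_cast_of_lt (mem_range.1 hn)
  · intro a _
    exact ZMod.natCast_zmod_val a
  · intro n _
    rfl

theorem w06_shift (q : ℕ) [NeZero q] (f : ZMod q → ℂ) (N : ℕ) :
    ∑ n ∈ range q, f (((N + n + 1 : ℕ)) : ZMod q) = ∑ a, f a := by
  rw [← Equiv.sum_comp (Equiv.addLeft ((N : ZMod q) + 1)) f, ← w06_total q (fun a => f (Equiv.addLeft ((N : ZMod q) + 1) a))]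
  refine Finset.sum_congr rfl fun n _ => ?_
  simp only [Equiv.coe_addLeft]
  congr 1
  push_cast
  ring

theorem w06_range (g : ℕ → ℂ) (N : ℕ) : ∑ n ∈ Icc 1 N, g n = ∑ n ∈ range N, g (n + 1) := by
  induction N with
  | zero => simp
  | succ n ih => rw [Finset.sum_Icc_succ_top (by omega), Finset.sum_range_succ, ih]

/-- Proof. `N = q m + r`, `r < q`: by periodicity the sum is `m S + ∑_{r terms}` with
`S = ∑_{a mod q} χ(a)`, which is `φ(q)` if `χ = 1` (count units) and `0` else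
(`MulChar.sum_eq_zero_of_ne_one`). The rest and `r S/q` have norm `≤ q`. -/
theorem char_sum (q : ℕ) [NeZero q] (χ : DirichletCharacter ℂ q) (N : ℕ) :
    ‖∑ n ∈ Icc 1 N, χ (n : ZMod q) -
      (if χ = 1 then ((q.totient : ℂ) / q) else 0) * N‖ ≤ 2 * q := by
  have hq : (q : ℂ) ≠ 0 := by exact_mod_cast NeZero.ne q
  have hq1 : 0 < q := Nat.pos_of_ne_zero (NeZero.ne q)
  set c : ℂ := if χ = 1 then ((q.totient : ℂ) / q) else 0 with hc
  have hS : ∑ a : ZMod q, χ a = c * q := by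
    rw [hc]
    split_ifs with h
    · rw [h, MulChar.sum_one_eq_card_units, div_mul_cancel₀ _ hq, ZMod.card_units_eq_totient]
    · rw [zero_mul]
      exact MulChar.sum_eq_zero_of_ne_one h
  have hc1 : ‖c‖ ≤ 1 := by
    rw [hc]
    split_ifs with h
    · rw [norm_div, Complex.norm_natCast, Complex.norm_natCast, div_le_one (by exact_mod_cast hq1)]
      exact_mod_cast Nat.totient_le q
    · simp
  rw [w06_range (fun n => χ (n : ZMod q)) N]
  induction N using Nat.strong_induction_on with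
  | _ N ih =>
    rcases Nat.lt_or_ge N q with h | h
    · have h1 : ‖∑ n ∈ range N, χ ((n + 1 : ℕ) : ZMod q)‖ ≤ N := by
        refine (norm_sum_le _ _).trans ?_
        refine (Finset.sum_le_card_nsmul _ _ 1 (fun n _ => DirichletCharacter.norm_le_one χ _)).trans ?_
        simp
      have h2 : ‖c * N‖ ≤ N := by
        rw [norm_mul, Complex.norm_natCast]
        exact mul_le_of_le_one_left (Nat.cast_nonneg _) hc1
      have h3 : (N : ℝ) ≤ q := by exact_mod_cast h.le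
      refine (norm_sub_le _ _).trans ?_
      linarith
    · obtain ⟨M, rfl⟩ := Nat.exists_eq_add_of_le' h
      have h1 := ih M (by omega)
      rw [Finset.sum_range_add, w06_shift q (fun a => χ a) M, hS]
      have h2 : ∑ n ∈ range M, χ ((n + 1 : ℕ) : ZMod q) + c * q - c * ((M + q : ℕ) : ℂ) =
          ∑ n ∈ range M, χ ((n + 1 : ℕ) : ZMod q) - c * M := by
        push_cast
        ring
      rw [h2]
      exact h1

/-- the partial sums, cut off below `1` -/
noncomputable def w10_A {q : ℕ} (χ : DirichletCharacter ℂ q) (t : ℝ) : ℂ :=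
  Set.indicator (Set.Ioi (1 : ℝ)) (fun t => ∑ k ∈ Icc 1 ⌊t⌋₊, χ (k : ZMod q)) t

theorem w10_sum_le (q : ℕ) [NeZero q] (χ : DirichletCharacter ℂ q) (hχ : χ ≠ 1) (N : ℕ) :
    ‖∑ n ∈ Icc 1 N, χ (n : ZMod q)‖ ≤ 2 * q := by
  have := char_sum q χ N
  rwa [if_neg hχ, zero_mul, sub_zero] at this

theorem w10_A_le (q : ℕ) [NeZero q] (χ : DirichletCharacter ℂ q) (hχ : χ ≠ 1) (t : ℝ) :
    ‖w10_A χ t‖ ≤ 2 * q := by
  unfold w10_A
  rw [Set.indicator_apply]
  split_ifs
  · exact w10_sum_le q χ hχ _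
  · rw [norm_zero]; positivity

theorem w10_A_meas {q : ℕ} (χ : DirichletCharacter ℂ q) : Measurable (w10_A χ) := by
  unfold w10_A
  apply Measurable.indicator _ measurableSet_Ioi
  exact (measurable_from_nat (f := fun N : ℕ => ∑ k ∈ Icc 1 N, χ (k : ZMod q))).comp
    Nat.measurable_floor

open MeasureTheory Filter Topology in
theorem w10_diff (q : ℕ) [NeZero q] (χ : DirichletCharacter ℂ q) (hχ : χ ≠ 1) (s : ℂ)
    (hs : 0 < s.re) : DifferentiableAt ℂ (fun s => mellin (w10_A χ) (-s)) s := by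
  have h1 : DifferentiableAt ℂ (mellin (w10_A χ)) (-s) := by
    refine mellin_differentiableAt_of_isBigO_rpow (a := 0) (b := (-s).re - 1) ?_ ?_ ?_ ?_ ?_
    · apply LocallyIntegrable.locallyIntegrableOn
      intro x
      refine ⟨Set.Icc (x - 1) (x + 1), Icc_mem_nhds (by linarith) (by linarith), ?_⟩
      refine Measure.integrableOn_of_bounded (M := 2 * q) (by simp) 
        (w10_A_meas χ).aestronglyMeasurable ?_
      exact Filter.Eventually.of_forall fun t => w10_A_le q χ hχ t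
    · simp only [neg_zero, Real.rpow_zero]
      exact Asymptotics.isBigO_of_le' (c := 2 * q) _ fun t => by
        simpa using w10_A_le q χ hχ t
    · simp only [Complex.neg_re]; linarith
    · refine Filter.EventuallyEq.trans_isBigO (f₂ := fun _ : ℝ => (0 : ℂ)) ?_
        (Asymptotics.isBigO_zero _ _)
      have h2 : ∀ᶠ t in 𝓝[>] (0 : ℝ), t < 1 := by
        filter_upwards [Ioo_mem_nhdsGT (zero_lt_one (α := ℝ))] with t ht
        exact ht.2
      filter_upwards [h2] with t ht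
      unfold w10_A
      rw [Set.indicator_of_notMem]
      exact not_lt.2 ht.le
    · linarith
  exact h1.comp s differentiableAt_id.neg

open MeasureTheory in
theorem w10_mellin {q : ℕ} (χ : DirichletCharacter ℂ q) (s : ℂ) :
    mellin (w10_A χ) (-s) = ∫ t in Set.Ioi (1 : ℝ), (∑ k ∈ Icc 1 ⌊t⌋₊, χ (k : ZMod q)) *
      (t : ℂ) ^ (-(s + 1)) := by
  unfold mellin
  have e : ∀ t : ℝ, (t : ℂ) ^ (-s - 1) • w10_A χ t =
      Set.indicator (Set.Ioi (1 : ℝ)) (fun t : ℝ => (∑ k ∈ Icc 1 ⌊t⌋₊, χ (k : ZMod q)) *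
      (t : ℂ) ^ (-(s + 1))) t := by
    intro t
    unfold w10_A
    rw [Set.indicator_apply, Set.indicator_apply]
    split_ifs
    · rw [smul_eq_mul, mul_comm]
      congr 2
      ring
    · rw [smul_zero]
  simp_rw [e]
  rw [setIntegral_indicator measurableSet_Ioi]
  congr 2
  rw [Set.Ioi_inter_Ioi]
  simp

open MeasureTheory Filter Topology in
theorem w10_eq (q : ℕ) [NeZero q] (χ : DirichletCharacter ℂ q) (hχ : χ ≠ 1) (s : ℂ)
    (hs : 0 < s.re) : DirichletCharacter.LFunction χ s = s * mellin (w10_A χ) (-s) := by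
  have hU : IsOpen {s : ℂ | 0 < s.re} := isOpen_lt continuous_const Complex.continuous_re
  have hf : AnalyticOnNhd ℂ (DirichletCharacter.LFunction χ) {s : ℂ | 0 < s.re} := fun z _ =>
    (DirichletCharacter.differentiable_LFunction hχ).analyticAt z
  have hg : AnalyticOnNhd ℂ (fun s => s * mellin (w10_A χ) (-s)) {s : ℂ | 0 < s.re} := by
    apply DifferentiableOn.analyticOnNhd _ hU
    intro z hz
    exact (differentiableAt_id.mul (w10_diff q χ hχ z hz)).differentiableWithinAt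
  have hpre : IsPreconnected {s : ℂ | 0 < s.re} := (convex_halfSpace_re_gt 0).isPreconnected
  have h2 : (2 : ℂ) ∈ {s : ℂ | 0 < s.re} := by simp
  refine hf.eqOn_of_preconnected_of_eventuallyEq hg hpre h2 ?_ hs
  have hev : ∀ᶠ z : ℂ in 𝓝 (2 : ℂ), 1 < z.re :=
    (isOpen_lt continuous_const Complex.continuous_re).mem_nhds (by simp)
  filter_upwards [hev] with z hz
  rw [DirichletCharacter.LFunction_eq_LSeries χ hz, w10_mellin]
  refine LSeries_eq_mul_integral (fun n : ℕ => χ (n : ZMod q)) le_rfl (by linarith)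
    (DirichletCharacter.LSeriesSummable_of_one_lt_re χ hz) ?_
  simp only [Real.rpow_zero]
  exact Asymptotics.isBigO_of_le' (c := 2 * q) _ fun n => by
    simpa using w10_sum_le q χ hχ n

/-- Proof. `A(t) = ∑_{n ≤ t} χ(n)`, `‖A‖ ≤ 2q`. For `Re s > 1`,
`L(s,χ) = s ∫_1^∞ A(t) t^{-s-1} dt` (`LSeries_eq_mul_integral` with `r = 0`). Both sides are analytic
on `Re s > 0` (right side: `mellin_differentiableAt_of_isBigO_rpow` or differentiation under the
integral sign), and `LFunction χ` is entire for `χ ≠ 1`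
(`DirichletCharacter.differentiable_LFunction`), so they agree on `Re s > 0`
(`AnalyticOnNhd.eqOn_of_preconnected_of_eventuallyEq`), and
`|s| · 2q ∫_1^∞ t^{-σ-1} dt = 2q|s|/σ`. -/
theorem LFunction_le (q : ℕ) [NeZero q] (χ : DirichletCharacter ℂ q) (hχ : χ ≠ 1) (s : ℂ)
    (hs : 0 < s.re) : ‖DirichletCharacter.LFunction χ s‖ ≤ 2 * q * ‖s‖ / s.re := by
  rw [w10_eq q χ hχ s hs, norm_mul, w10_mellin]
  have h1 : ‖∫ t in Set.Ioi (1 : ℝ), (∑ k ∈ Icc 1 ⌊t⌋₊, χ (k : ZMod q)) *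
      (t : ℂ) ^ (-(s + 1))‖ ≤ ∫ t in Set.Ioi (1 : ℝ), (2 * q) * t ^ (-(s.re + 1)) := by
    apply MeasureTheory.norm_integral_le_of_norm_le
    · exact (integrableOn_Ioi_rpow_of_lt (by linarith) zero_lt_one).const_mul _
    · refine (MeasureTheory.ae_restrict_iff' measurableSet_Ioi).2 (Filter.Eventually.of_forall ?_)
      intro t ht
      have ht0 : (0 : ℝ) < t := zero_lt_one.trans ht
      rw [norm_mul, Complex.norm_cpow_eq_rpow_re_of_pos ht0]
      have e : (-(s + 1)).re = -(s.re + 1) := by simp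
      rw [e]
      exact mul_le_mul_of_nonneg_right (w10_sum_le q χ hχ _) (Real.rpow_nonneg ht0.le _)
  rw [MeasureTheory.integral_const_mul, integral_Ioi_rpow_of_lt (by linarith) zero_lt_one,
    Real.one_rpow] at h1
  have e2 : (2 * (q : ℝ)) * (-1 / (-(s.re + 1) + 1)) = 2 * q / s.re := by
    have : -(s.re + 1) + 1 = -s.re := by ring
    rw [this, neg_div_neg_eq]
    ring
  rw [e2] at h1
  calc ‖s‖ * _ ≤ ‖s‖ * (2 * q / s.re) := mul_le_mul_of_nonneg_left h1 (norm_nonneg _)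
    _ = 2 * q * ‖s‖ / s.re := by ring


theorem Lf_le {q : ℕ} [NeZero q] {χ : DirichletCharacter ℂ q} (hχ : χ ≠ 1) {s : ℂ} (hs : 0 < s.re) :
    ‖Lf χ s‖ ≤ 2 * q * ‖s‖ / s.re := LFunction_le q χ hχ s hs

/-- polynomial growth in the half plane Re s ≥ 5/16 -/
theorem L_pol {q : ℕ} [NeZero q] {χ : DirichletCharacter ℂ q} (hχ : χ ≠ 1) :
    ∃ C : ℝ, 0 < C ∧ ∀ s : ℂ, 5/16 ≤ s.re → ‖Lf χ s‖ ≤ C * (1 + |s.im|) := by
  have hq : (0 : ℝ) < q := by exact_mod_cast Nat.pos_of_ne_zero (NeZero.ne q)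
  refine ⟨8 * q, by positivity, fun s hs => ?_⟩
  have hs0 : 0 < s.re := by linarith
  refine (Lf_le hχ hs0).trans ?_
  rw [div_le_iff₀ hs0]
  have h1 : ‖s‖ ≤ s.re + |s.im| := by
    calc ‖s‖ ≤ |s.re| + |s.im| := Complex.norm_le_abs_re_add_abs_im s
      _ = s.re + |s.im| := by rw [abs_of_pos hs0]
  have h2 : ‖s‖ ≤ 4 * (1 + |s.im|) * s.re := by
    have := abs_nonneg s.im
    nlinarith
  calc 2 * (q : ℝ) * ‖s‖ ≤ 2 * q * (4 * (1 + |s.im|) * s.re) := by gcongr
    _ = 8 * q * (1 + |s.im|) * s.re := by ring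

end LX

end F_X_LB

end

section

section F_Y_XB1

open Complex MeasureTheory Set Filter Topology
open scoped ComplexConjugate

namespace LP

open LZ (kk nS cf EE ER PP wt Sep)

variable {N : ℕ} [NeZero N]

/-- Dirichlet series, linearity and the constant function (q = N).
Hints: ZMod.LFunction_eq_LSeries, ZMod.LSeriesSummable_of_one_lt_re, zeta: LZX / Mathlib zeta_eq_tsum_one_div_nat_add_one_cpow;
identity theorem for (iii), or hurwitz formula; (ii) is by unfolding ZMod.LFunction (linear in the function). -/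
theorem per_basic : (∀ (f : ZMod N → ℂ) (s : ℂ), 1 < s.re →
      HasSum (fun n : ℕ => f ((n + 1 : ℕ) : ZMod N) * ((n : ℂ) + 1) ^ (-s)) (ZMod.LFunction f s)) ∧
    (∀ (f g : ZMod N → ℂ) (a b s : ℂ), ZMod.LFunction (fun x => a * f x + b * g x) s =
      a * ZMod.LFunction f s + b * ZMod.LFunction g s) ∧
    (∀ s : ℂ, s ≠ 1 → ZMod.LFunction (fun _ : ZMod N => (1:ℂ)) s = riemannZeta s) := by
  have hser : ∀ (f : ZMod N → ℂ) (s : ℂ), 1 < s.re →
      HasSum (fun n : ℕ => f ((n + 1 : ℕ) : ZMod N) * ((n : ℂ) + 1) ^ (-s)) (ZMod.LFunction f s) := by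
    intro f s hs
    have h1 : HasSum (LSeries.term (fun n : ℕ => f n) s) (ZMod.LFunction f s) := by
      rw [ZMod.LFunction_eq_LSeries f hs]
      exact (ZMod.LSeriesSummable_of_one_lt_re f hs).hasSum
    have h2 := (hasSum_nat_add_iff' (f := LSeries.term (fun n : ℕ => f n) s) 1).2 h1
    rw [Finset.sum_range_one, LSeries.term_zero, sub_zero] at h2
    refine h2.congr_fun ?_
    intro n
    rw [LSeries.term_of_ne_zero (Nat.succ_ne_zero n), Complex.cpow_neg, div_eq_mul_inv]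
    push_cast
    rfl
  refine ⟨hser, ?_, ?_⟩
  · intro f g a b s
    simp only [ZMod.LFunction, add_mul, Finset.sum_add_distrib, mul_add, Finset.mul_sum]
    congr 1
    · refine Finset.sum_congr rfl fun j _ => ?_
      ring
    · refine Finset.sum_congr rfl fun j _ => ?_
      ring
  · intro s hs
    have hopen : IsOpen ({1}ᶜ : Set ℂ) := isOpen_compl_singleton
    have hf : AnalyticOnNhd ℂ (ZMod.LFunction (fun _ : ZMod N => (1 : ℂ))) {1}ᶜ := by
      refine DifferentiableOn.analyticOnNhd ?_ hopen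
      intro z hz
      exact (ZMod.differentiableAt_LFunction _ z (Or.inl hz)).differentiableWithinAt
    have hg : AnalyticOnNhd ℂ riemannZeta {1}ᶜ := by
      refine DifferentiableOn.analyticOnNhd ?_ hopen
      intro z hz
      exact (differentiableAt_riemannZeta hz).differentiableWithinAt
    have hpre : IsPreconnected ({1}ᶜ : Set ℂ) :=
      (isConnected_compl_singleton_of_one_lt_rank (by simp) _).isPreconnected
    have hev : ZMod.LFunction (fun _ : ZMod N => (1 : ℂ)) =ᶠ[𝓝 2] riemannZeta := by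
      have hU : {z : ℂ | 1 < z.re} ∈ 𝓝 (2 : ℂ) := by
        refine (isOpen_lt continuous_const Complex.continuous_re).mem_nhds ?_
        norm_num
      filter_upwards [hU] with z hz
      have h1 := hser (fun _ => 1) z hz
      rw [zeta_eq_tsum_one_div_nat_add_one_cpow hz, ← h1.tsum_eq]
      refine tsum_congr fun n => ?_
      rw [one_mul, Complex.cpow_neg, one_div]
    exact hf.eqOn_of_preconnected_of_eventuallyEq hg hpre (by norm_num) hev hs

end LP

end F_Y_XB1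

section F_Y_C01

open Complex MeasureTheory Set Filter Topology
open scoped ComplexConjugate

namespace LP

open LZ (kk nS cf EE ER PP wt Sep)

variable {N : ℕ} [NeZero N]

/-- expand the two mollifiers; adapt LZ.M01 / LX.M01. -/
theorem XP_expand (χ ψ : DirichletCharacter ℂ N) (l : ℝ) (α β : ℂ) (t : ℝ) :
    XP χ ψ l α β t = ∑ S ∈ (LX.PQ N ⌊Real.exp l⌋₊).powerset ×ˢ (LX.PQ N ⌊Real.exp l⌋₊).powerset,
      ((cf 1 l S.1 : ℂ) * (cf 1 l S.2 : ℂ) * (χ (nS S.1 : ℕ) * ψ (nS S.2 : ℕ)) *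
        ((nS S.1 : ℂ) ^ (-(1/2) - α) * (nS S.2 : ℂ) ^ (-(1/2) - β))) *
        (LX.Lf χ (1/2 + α + t * I) * LX.Lf ψ (1/2 + β - t * I) *
          ((nS S.1 : ℂ) ^ (-(t * I)) * (nS S.2 : ℂ) ^ (t * I))) := by
  have h1 : XP χ ψ l α β t = (LX.Lf χ (1/2 + α + t * I) * LX.Lf ψ (1/2 + β - t * I)) *
      ((∑ S ∈ (LX.PQ N ⌊Real.exp l⌋₊).powerset,
        (cf 1 l S : ℂ) * χ (nS S) * (nS S : ℂ) ^ (-(1/2 + α + t * I))) *
      (∑ S ∈ (LX.PQ N ⌊Real.exp l⌋₊).powerset,
        (cf 1 l S : ℂ) * ψ (nS S) * (nS S : ℂ) ^ (-(1/2 + β - t * I)))) := by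
    unfold XP LX.FF LX.Mol
    ring
  rw [h1, Finset.sum_mul_sum, ← Finset.sum_product', Finset.mul_sum]
  refine Finset.sum_congr rfl fun S hS => ?_
  rw [Finset.mem_product] at hS
  have hne1 : (nS S.1 : ℂ) ≠ 0 := by exact_mod_cast (LX.nS_pos' hS.1).ne'
  have hne2 : (nS S.2 : ℂ) ≠ 0 := by exact_mod_cast (LX.nS_pos' hS.2).ne'
  have e1 : -(1/2 + α + t * I) = (-(1/2) - α) + -(t * I) := by ring
  have e2 : -(1/2 + β - t * I) = (-(1/2) - β) + (t * I) := by ring
  rw [e1, e2, cpow_add _ _ hne1, cpow_add _ _ hne2]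
  ring

end LP

end F_Y_C01

end

section

section F_Y_XB2

open Complex MeasureTheory Set Filter Topology
open scoped ComplexConjugate

namespace LP

open LZ (kk nS cf EE ER PP wt Sep)

theorem XB2_sum_le {N : ℕ} [NeZero N] (f : ZMod N → ℂ) (hf : ∑ a, f a = 0) (n : ℕ) :
    ‖∑ m ∈ Finset.Icc 1 n, f (m : ZMod N)‖ ≤ 1 + ∑ a, ‖f a‖ := by
  have hN : 0 < N := Nat.pos_of_ne_zero (NeZero.ne N)
  rw [LX.w06_range (fun n => f (n : ZMod N)) n]
  induction n using Nat.strong_induction_on with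
  | _ n ih =>
    rcases Nat.lt_or_ge n N with h | h
    · have h1 : ‖∑ m ∈ Finset.range n, f ((m + 1 : ℕ) : ZMod N)‖ ≤
          ∑ m ∈ Finset.range N, ‖f ((m + 1 : ℕ) : ZMod N)‖ :=
        (norm_sum_le _ _).trans (Finset.sum_le_sum_of_subset_of_nonneg
          (Finset.range_mono h.le) fun _ _ _ => norm_nonneg _)
      have h2 : ∑ m ∈ Finset.range N, ‖f ((m + 1 : ℕ) : ZMod N)‖ = ∑ a, ‖f a‖ := by
        have h3 := LX.w06_shift N (fun a => (‖f a‖ : ℂ)) 0
        simp only [zero_add] at h3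
        exact_mod_cast h3
      rw [h2] at h1
      linarith
    · obtain ⟨M, rfl⟩ := Nat.exists_eq_add_of_le' h
      have h1 := ih M (by omega)
      rw [Finset.sum_range_add, LX.w06_shift N f M, hf, add_zero]
      exact h1

/-- the partial sums, cut off below `1` -/
noncomputable def XB2_A {N : ℕ} (f : ZMod N → ℂ) (t : ℝ) : ℂ :=
  Set.indicator (Set.Ioi (1 : ℝ)) (fun t => ∑ k ∈ Finset.Icc 1 ⌊t⌋₊, f (k : ZMod N)) t

theorem XB2_A_le {N : ℕ} [NeZero N] (f : ZMod N → ℂ) (hf : ∑ a, f a = 0) (t : ℝ) :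
    ‖XB2_A f t‖ ≤ 1 + ∑ a, ‖f a‖ := by
  have h0 : (0 : ℝ) ≤ ∑ a, ‖f a‖ := Finset.sum_nonneg fun _ _ => norm_nonneg _
  unfold XB2_A
  rw [Set.indicator_apply]
  split_ifs
  · exact XB2_sum_le f hf _
  · rw [norm_zero]; positivity

theorem XB2_A_meas {N : ℕ} (f : ZMod N → ℂ) : Measurable (XB2_A f) := by
  unfold XB2_A
  apply Measurable.indicator _ measurableSet_Ioi
  exact (measurable_from_nat (f := fun n : ℕ => ∑ k ∈ Finset.Icc 1 n, f (k : ZMod N))).comp
    Nat.measurable_floor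

theorem XB2_diff {N : ℕ} [NeZero N] (f : ZMod N → ℂ) (hf : ∑ a, f a = 0) (s : ℂ)
    (hs : 0 < s.re) : DifferentiableAt ℂ (fun s => mellin (XB2_A f) (-s)) s := by
  have h1 : DifferentiableAt ℂ (mellin (XB2_A f)) (-s) := by
    refine mellin_differentiableAt_of_isBigO_rpow (a := 0) (b := (-s).re - 1) ?_ ?_ ?_ ?_ ?_
    · apply LocallyIntegrable.locallyIntegrableOn
      intro x
      refine ⟨Set.Icc (x - 1) (x + 1), Icc_mem_nhds (by linarith only []) (by linarith only []), ?_⟩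
      refine Measure.integrableOn_of_bounded (M := 1 + ∑ a, ‖f a‖) (by simp)
        (XB2_A_meas f).aestronglyMeasurable ?_
      exact Filter.Eventually.of_forall fun t => XB2_A_le f hf t
    · simp only [neg_zero, Real.rpow_zero]
      exact Asymptotics.isBigO_of_le' (c := 1 + ∑ a, ‖f a‖) _ fun t => by
        simpa using XB2_A_le f hf t
    · simp only [Complex.neg_re]; linarith only [hs]
    · refine Filter.EventuallyEq.trans_isBigO (f₂ := fun _ : ℝ => (0 : ℂ)) ?_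
        (Asymptotics.isBigO_zero _ _)
      have h2 : ∀ᶠ t in 𝓝[>] (0 : ℝ), t < 1 := by
        filter_upwards [Ioo_mem_nhdsGT (zero_lt_one (α := ℝ))] with t ht
        exact ht.2
      filter_upwards [h2] with t ht
      unfold XB2_A
      rw [Set.indicator_of_notMem]
      exact not_lt.2 ht.le
    · linarith only []
  exact h1.comp s differentiableAt_id.neg

theorem XB2_mellin {N : ℕ} (f : ZMod N → ℂ) (s : ℂ) :
    mellin (XB2_A f) (-s) = ∫ t in Set.Ioi (1 : ℝ), (∑ k ∈ Finset.Icc 1 ⌊t⌋₊, f (k : ZMod N)) *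
      (t : ℂ) ^ (-(s + 1)) := by
  unfold mellin
  have e : ∀ t : ℝ, (t : ℂ) ^ (-s - 1) • XB2_A f t =
      Set.indicator (Set.Ioi (1 : ℝ)) (fun t : ℝ => (∑ k ∈ Finset.Icc 1 ⌊t⌋₊, f (k : ZMod N)) *
      (t : ℂ) ^ (-(s + 1))) t := by
    intro t
    unfold XB2_A
    rw [Set.indicator_apply, Set.indicator_apply]
    split_ifs
    · rw [smul_eq_mul, mul_comm]
      congr 2
      ring
    · rw [smul_zero]
  simp_rw [e]
  rw [setIntegral_indicator measurableSet_Ioi]
  congr 2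
  rw [Set.Ioi_inter_Ioi]
  simp

theorem XB2_eq {N : ℕ} [NeZero N] (f : ZMod N → ℂ) (hf : ∑ a, f a = 0) (s : ℂ)
    (hs : 0 < s.re) : ZMod.LFunction f s = s * mellin (XB2_A f) (-s) := by
  have hU : IsOpen {s : ℂ | 0 < s.re} := isOpen_lt continuous_const Complex.continuous_re
  have hf1 : AnalyticOnNhd ℂ (ZMod.LFunction f) {s : ℂ | 0 < s.re} := fun z _ =>
    (ZMod.differentiable_LFunction_of_sum_zero hf).analyticAt z
  have hg : AnalyticOnNhd ℂ (fun s => s * mellin (XB2_A f) (-s)) {s : ℂ | 0 < s.re} := by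
    apply DifferentiableOn.analyticOnNhd _ hU
    intro z hz
    exact (differentiableAt_id.mul (XB2_diff f hf z hz)).differentiableWithinAt
  have hpre : IsPreconnected {s : ℂ | 0 < s.re} := (convex_halfSpace_re_gt 0).isPreconnected
  have h2 : (2 : ℂ) ∈ {s : ℂ | 0 < s.re} := by simp
  refine hf1.eqOn_of_preconnected_of_eventuallyEq hg hpre h2 ?_ hs
  have hev : ∀ᶠ z : ℂ in 𝓝 (2 : ℂ), 1 < z.re :=
    (isOpen_lt continuous_const Complex.continuous_re).mem_nhds (by simp)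
  filter_upwards [hev] with z hz
  rw [ZMod.LFunction_eq_LSeries f hz, XB2_mellin]
  refine LSeries_eq_mul_integral (fun n : ℕ => f (n : ZMod N)) le_rfl (by linarith only [hz])
    (ZMod.LSeriesSummable_of_one_lt_re f hz) ?_
  simp only [Real.rpow_zero]
  exact Asymptotics.isBigO_of_le' (c := 1 + ∑ a, ‖f a‖) _ fun n => by
    simpa using XB2_sum_le f hf n

variable {N : ℕ} [NeZero N]

/-- mean value zero: bounded partial sums, L(s,f) = s * integral of S(x) x^(-s-1), hence the bound.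
Copy X/LB.lean (there for characters): w10_*, with sum f = 0 in place of chi <> 1. -/
theorem per_mean (f : ZMod N → ℂ) (hf : ∑ a, f a = 0) : ∃ C : ℝ, 0 < C ∧
    (∀ n : ℕ, ‖∑ m ∈ Finset.Icc 1 n, f (m : ZMod N)‖ ≤ C) ∧
    ∀ s : ℂ, 0 < s.re → ‖ZMod.LFunction f s‖ ≤ C * ‖s‖ / s.re := by
  have h0 : (0 : ℝ) ≤ ∑ a, ‖f a‖ := Finset.sum_nonneg fun _ _ => norm_nonneg _
  refine ⟨1 + ∑ a, ‖f a‖, by positivity, XB2_sum_le f hf, fun s hs => ?_⟩
  rw [XB2_eq f hf s hs, norm_mul, XB2_mellin]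
  have h1 : ‖∫ t in Set.Ioi (1 : ℝ), (∑ k ∈ Finset.Icc 1 ⌊t⌋₊, f (k : ZMod N)) *
      (t : ℂ) ^ (-(s + 1))‖ ≤ ∫ t in Set.Ioi (1 : ℝ), (1 + ∑ a, ‖f a‖) * t ^ (-(s.re + 1)) := by
    apply MeasureTheory.norm_integral_le_of_norm_le
    · exact (integrableOn_Ioi_rpow_of_lt (by linarith only [hs]) zero_lt_one).const_mul _
    · refine (MeasureTheory.ae_restrict_iff' measurableSet_Ioi).2 (Filter.Eventually.of_forall ?_)
      intro t ht
      have ht0 : (0 : ℝ) < t := zero_lt_one.trans ht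
      rw [norm_mul, Complex.norm_cpow_eq_rpow_re_of_pos ht0]
      have e : (-(s + 1)).re = -(s.re + 1) := by simp
      rw [e]
      exact mul_le_mul_of_nonneg_right (XB2_sum_le f hf _) (Real.rpow_nonneg ht0.le _)
  rw [MeasureTheory.integral_const_mul, integral_Ioi_rpow_of_lt (by linarith only [hs]) zero_lt_one,
    Real.one_rpow] at h1
  have e2 : (1 + ∑ a, ‖f a‖) * (-1 / (-(s.re + 1) + 1)) = (1 + ∑ a, ‖f a‖) / s.re := by
    have : -(s.re + 1) + 1 = -s.re := by ring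
    rw [this, neg_div_neg_eq]
    ring
  rw [e2] at h1
  calc ‖s‖ * _ ≤ ‖s‖ * ((1 + ∑ a, ‖f a‖) / s.re) := mul_le_mul_of_nonneg_left h1 (norm_nonneg _)
    _ = (1 + ∑ a, ‖f a‖) * ‖s‖ / s.re := by ring

end LP

end F_Y_XB2

section F_Y_XB3

open Complex MeasureTheory Set Filter Topology
open scoped ComplexConjugate

namespace LP

open LZ (kk nS cf EE ER PP wt Sep)

variable {N : ℕ} [NeZero N]

/-- polynomial growth for every periodic function: f = mean + mean zero part, LZ.zeta_pol (A03) and per_mean. -/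
theorem per_pol (f : ZMod N → ℂ) : ∃ C : ℝ, 0 < C ∧ ∀ s : ℂ, 5/16 ≤ s.re → 1/4 ≤ ‖s - 1‖ →
    ‖ZMod.LFunction f s‖ ≤ C * (1 + |s.im|) := by
  have hN : (N : ℂ) ≠ 0 := Nat.cast_ne_zero.2 (NeZero.ne N)
  set m : ℂ := (∑ a, f a) / N with hm
  have hg : ∑ a : ZMod N, (f a - m) = 0 := by
    rw [Finset.sum_sub_distrib, Finset.sum_const, Finset.card_univ, ZMod.card, hm, nsmul_eq_mul]
    field_simp
    ring
  obtain ⟨Cg, hCg, -, hb⟩ := per_mean (fun a => f a - m) hg
  obtain ⟨Cz, hCz, hz⟩ := LZ.zeta_pol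
  refine ⟨‖m‖ * Cz + 16 / 5 * Cg, by positivity, ?_⟩
  intro s hs hs1
  have hne : s ≠ 1 := by
    rintro rfl
    norm_num at hs1
  have hpos : 0 < s.re := by linarith only [hs]
  obtain ⟨-, hlin, hone⟩ := per_basic (N := N)
  have e1 : ZMod.LFunction f s = m * riemannZeta s + ZMod.LFunction (fun a => f a - m) s := by
    have h := hlin (fun _ => (1 : ℂ)) (fun a => f a - m) m 1 s
    rw [hone s hne, one_mul] at h
    rw [← h]
    congr 1
    funext x
    ring
  have h1 : ‖m * riemannZeta s‖ ≤ ‖m‖ * (Cz * (1 + |s.im|)) := by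
    rw [norm_mul]
    exact mul_le_mul_of_nonneg_left (hz s hs hs1) (norm_nonneg _)
  have h2 : ‖s‖ / s.re ≤ 16 / 5 * (1 + |s.im|) := by
    rw [div_le_iff₀ hpos]
    have h3 : ‖s‖ ≤ s.re + |s.im| := by
      refine (Complex.norm_le_abs_re_add_abs_im s).trans ?_
      rw [abs_of_pos hpos]
    have h4 : 0 ≤ |s.im| := abs_nonneg _
    nlinarith only [hpos, h3, hs, h4]
  have h5 : ‖ZMod.LFunction (fun a => f a - m) s‖ ≤ Cg * (16 / 5 * (1 + |s.im|)) := by
    refine (hb s hpos).trans ?_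
    rw [mul_div_assoc]
    exact mul_le_mul_of_nonneg_left h2 hCg.le
  rw [e1]
  refine (norm_add_le _ _).trans ?_
  calc _ ≤ ‖m‖ * (Cz * (1 + |s.im|)) + Cg * (16 / 5 * (1 + |s.im|)) := add_le_add h1 h5
    _ = _ := by ring

end LP

end F_Y_XB3

end
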