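import Pool.Agent.Lib.MP_0f5a55_nt.OM.K000
import Pool.Agent.Lib.MP_0f5a55_nt.OM.K001
import Pool.Agent.Lib.MP_0f5a55_nt.OM.K002

section

/-!
# Odd order zeros of a product of two Dirichlet L-functions: definitions

Paper: oo_paper.md. Characters `χ1`, `χ2` are primitive (modulus 1 = trivial character, L-function = zeta).
-/

open Complex MeasureTheory Set Filter Topology
open scoped ComplexConjugate

namespace OO

/-- delta -/
noncomputable def dl : ℝ := 1 / 10 ^ 10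

/-- the direction exp(i(pi/2 - ε)) -/
noncomputable def zz (ε : ℝ) : ℂ := exp (((Real.pi / 2 - ε : ℝ) : ℂ) * I)

/-- the conjugate of an arithmetic function -/
noncomputable def cj (f : ArithmeticFunction ℂ) : ArithmeticFunction ℂ := ⟨fun n => conj (f n), by simp⟩

/-- multiplication of an arithmetic function by n^s -/
noncomputable def tw (f : ArithmeticFunction ℂ) (s : ℂ) : ArithmeticFunction ℂ :=
  ⟨fun n => f n * (n : ℂ) ^ s, by simp⟩

/-- a character as a function of natural numbers -/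
noncomputable def ch {q : ℕ} (χ : DirichletCharacter ℂ q) : ℕ → ℂ := fun n => χ (n : ZMod q)

/-- f(n) n^(-A) wt(θ log n), n ≥ 1 -/
noncomputable def LA (f : ℕ → ℂ) (A : ℂ) (θ : ℝ) : ArithmeticFunction ℂ :=
  ⟨fun n => if n = 0 then 0 else f n * (n : ℂ) ^ (-A) * (LZ.wt (θ * Real.log n) : ℂ), by simp⟩

/-- μ²(n)(-1/2)^ω(n) f(n) n^(-A) wt(θ log n) -/
noncomputable def MA (f : ℕ → ℂ) (A : ℂ) (θ : ℝ) : ArithmeticFunction ℂ :=
  ⟨fun n => if Squarefree n then
    (-1/2 : ℂ) ^ n.primeFactors.card * f n * (n : ℂ) ^ (-A) * (LZ.wt (θ * Real.log n) : ℂ) else 0,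
    by simp⟩

/-- the mollifier coefficients: β(h) is supported on h ≤ e^(2l), β(1) = 1, |β(h)| ≤ d(h) -/
noncomputable def beta (f1 f2 : ℕ → ℂ) (l : ℝ) : ArithmeticFunction ℂ := MA f1 0 (1 / l) * MA f2 0 (1 / l)

/-- the length of the mollifier -/
noncomputable def Hl (l : ℝ) : ℕ := ⌊Real.exp (2 * l)⌋₊

/-- the mollifier -/
noncomputable def phi (b : ℕ → ℂ) (H : ℕ) (s : ℂ) : ℂ := ∑ h ∈ Finset.Icc 1 H, b h * (h : ℂ) ^ (-s)

/-- the 22 nodes τ_i = 1000/(1+i/21) -/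
noncomputable def tau (i : Fin 22) : ℝ := 1000 / (1 + (i : ℝ) / 21)

/-- the Lagrange coefficients at 0 -/
noncomputable def ci (i : Fin 22) : ℝ := ∏ j ∈ Finset.univ.erase i, tau j / (tau j - tau i)

/-- the cutoff: ρ_L(x) = 1 for x ≤ e^(L/1000), = 0 for x ≥ e^(L/500) -/
noncomputable def rho (L x : ℝ) : ℝ := ∑ i : Fin 22, ci i * LZ.wt (tau i * Real.log x / L)

/-- 1 - ρ_L -/
noncomputable def ff (L x : ℝ) : ℝ := 1 - rho L x

/-- f(n) w(n), n ≥ 1, with a real weight w -/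
noncomputable def FA (f : ℕ → ℂ) (w : ℝ → ℝ) : ArithmeticFunction ℂ :=
  ⟨fun n => if n = 0 then 0 else f n * (w n : ℂ), by simp⟩

/-- coefficients of L1 L2 -/
noncomputable def lamF (f1 f2 : ℕ → ℂ) : ArithmeticFunction ℂ := LA f1 0 0 * LA f2 0 0

/-- F_lam(w) -/
noncomputable def FS (lam : ℕ → ℂ) (w : ℂ) : ℂ := ∑' n : ℕ, lam n * exp (-(2 * Real.pi * n * w))

/-- g_lam(x) = sum over h,k ≤ H of b(h) conj b(k) k^(-1) F_lam(z x h/k) -/
noncomputable def gg (b : ℕ → ℂ) (H : ℕ) (lam : ℕ → ℂ) (ε x : ℝ) : ℂ :=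
  ∑ h ∈ Finset.Icc 1 H, ∑ k ∈ Finset.Icc 1 H, b h * conj (b k) / k * FS lam (zz ε * x * h / k)

/-- the weight exp(-α/x - ω x) on x > 0 -/
noncomputable def Wt (α ω x : ℝ) : ℝ := Real.exp (-(α / x) - ω * x)

/-- Psi(P) = integral over x > 0 of exp(-α/x - ω x) exp(-P x) -/
noncomputable def Psi (α ω P : ℝ) : ℝ := ∫ x in Ioi (0 : ℝ), Wt α ω x * Real.exp (-(P * x))

/-- the shifted convolution sum: sum over a n - b n' = r of lam(n) conj lam(n') e^(-κ n) -/
noncomputable def SS (lam : ℕ → ℂ) (a b r : ℕ) (κ : ℂ) : ℂ :=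
  ∑' n : ℕ, if a ∣ b * n + r then
    lam ((b * n + r) / a) * conj (lam n) * exp (-(κ * (((b * n + r) / a : ℕ) : ℂ))) else 0

/-- C(m) = sum over K ≤ K0, (K0!/K) | m of a(m K/K0!) b(K)/K -/
noncomputable def Cm (K0 : ℕ) (a b : ℕ → ℂ) (m : ℕ) : ℂ :=
  ∑ K ∈ Finset.Icc 1 K0, if (K0.factorial / K) ∣ m then a (m * K / K0.factorial) * b K / K else 0

/-- diagonal sum: sum over m of |C(m)|^2 g(m/K0!) -/
noncomputable def DS (K0 : ℕ) (a b : ℕ → ℂ) (g : ℝ → ℝ) : ℝ :=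
  ∑' m : ℕ, ‖Cm K0 a b m‖ ^ 2 * g ((m : ℝ) / (K0.factorial : ℝ))

/-- the two characters differ at some number prime to the product of the moduli -/
def Ne12 {q1 q2 : ℕ} (χ1 : DirichletCharacter ℂ q1) (χ2 : DirichletCharacter ℂ q2) : Prop :=
  ∃ n : ℕ, n.Coprime (q1 * q2) ∧ χ1 (n : ZMod q1) ≠ χ2 (n : ZMod q2)

/-- the signs s1, s2, +, +, -, - -/
def sgn (s1 s2 : ℝ) : Fin 6 → ℝ := ![s1, s2, 1, 1, -1, -1]

/-- the coefficients 1, 1, -1/2, -1/2, -1/2, -1/2 -/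
noncomputable def co : Fin 6 → ℝ := ![1, 1, -1/2, -1/2, -1/2, -1/2]

/-- the families 1, 2, 1, 2, 1, 2 (true = first character) -/
def fam : Fin 6 → Bool := ![true, false, true, false, true, false]

/-- the sixfold convolution with general exponents and weights -/
noncomputable def F6 (f1 f2 : ℕ → ℂ) (A : Fin 6 → ℂ) (θ : Fin 6 → ℝ) : ArithmeticFunction ℂ :=
  LA f1 (A 0) (θ 0) * LA f2 (A 1) (θ 1) * MA f1 (A 2) (θ 2) * MA f2 (A 3) (θ 3) * MA f1 (A 4) (θ 4) *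
    MA f2 (A 5) (θ 5)

/-- the exponents 1/2 + s_j w/2 -/
noncomputable def A6 (s1 s2 : ℝ) (w : ℂ) (j : Fin 6) : ℂ := 1 / 2 + (sgn s1 s2 j : ℂ) * w / 2

/-- M(s) = (2 pi)^(-s) Gamma(s) z^(-s) L1(s) L2(s) phi(s) phi*(1-s) -/
noncomputable def MM {q1 q2 : ℕ} [NeZero q1] [NeZero q2] (χ1 : DirichletCharacter ℂ q1)
    (χ2 : DirichletCharacter ℂ q2) (b : ℕ → ℂ) (H : ℕ) (ε : ℝ) (s : ℂ) : ℂ :=
  ((2 * Real.pi : ℝ) : ℂ) ^ (-s) * Gamma s * exp (-(((Real.pi / 2 - ε : ℝ) : ℂ) * I * s)) *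
    LX.Lf χ1 s * LX.Lf χ2 s * phi b H s * phi (fun n => conj (b n)) H (1 - s)

end OO

end

section

open Complex MeasureTheory Set Filter Topology
open scoped ComplexConjugate

namespace OO

/-- Covering: every `t ∈ E` has a point `g` of the finite set `S` with `t < g < t + h`; then `|E| ≤ h #S`.
PROOF: `E ⊆ ⋃ g ∈ S, Ioo (g - h) g`, `measure_biUnion_finset_le`, `Real.volume_Ioo`. -/
theorem F_cover (S E : Set ℝ) (hS : S.Finite) (h : ℝ) (hh : 0 < h) (hE : ∀ t ∈ E, ∃ g ∈ S, t < g ∧ g < t + h) :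
    volume E ≤ ENNReal.ofReal (h * S.ncard) := by
  have hsub : E ⊆ ⋃ g ∈ hS.toFinset, Ioo (g - h) g := by
    intro t ht
    obtain ⟨g, hg, h1, h2⟩ := hE t ht
    simp only [mem_iUnion]
    exact ⟨g, hS.mem_toFinset.mpr hg, by constructor <;> linarith only [h2, h1]⟩
  calc volume E ≤ volume (⋃ g ∈ hS.toFinset, Ioo (g - h) g) := measure_mono hsub
    _ ≤ ∑ g ∈ hS.toFinset, volume (Ioo (g - h) g) := measure_biUnion_finset_le _ _
    _ = ∑ g ∈ hS.toFinset, ENNReal.ofReal h := by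
        refine Finset.sum_congr rfl fun g _ => ?_
        rw [Real.volume_Ioo]
        congr 1
        ring
    _ = ENNReal.ofReal (h * S.ncard) := by
        rw [Finset.sum_const, nsmul_eq_mul, ncard_eq_toFinset_card S hS,
          mul_comm h, ENNReal.ofReal_mul (Nat.cast_nonneg _), ENNReal.ofReal_natCast]

/-- If `r = r0 w` with `w ≥ 0` and `r0` has constant sign on `(t, t+h)` then `|∫ r| = ∫ |r|` over `(t, t+h)`. -/
theorem F_const (r r0 w : ℝ → ℝ) (hr : ∀ t, r t = r0 t * w t) (hw : ∀ t, 0 ≤ w t) (t h : ℝ) (hh : 0 < h)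
    (hs : (∀ x ∈ Ioo t (t + h), 0 ≤ r0 x) ∨ (∀ x ∈ Ioo t (t + h), r0 x ≤ 0)) :
    |∫ s in t..(t + h), r s| = ∫ s in t..(t + h), |r s| := by
  have hle : t ≤ t + h := by linarith only [hh]
  have hnn : 0 ≤ ∫ s in t..(t + h), |r s| :=
    intervalIntegral.integral_nonneg hle fun _ _ => abs_nonneg _
  rcases hs with hs | hs
  · have h1 : ∫ s in t..(t + h), r s = ∫ s in t..(t + h), |r s| := by
      refine intervalIntegral.integral_congr_Ioo_of_le hle fun x hx => ?_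
      have : 0 ≤ r x := by
        rw [hr]
        exact mul_nonneg (hs x hx) (hw x)
      simp only [abs_of_nonneg this]
    rw [h1, abs_of_nonneg hnn]
  · have h1 : ∫ s in t..(t + h), r s = ∫ s in t..(t + h), -|r s| := by
      refine intervalIntegral.integral_congr_Ioo_of_le hle fun x hx => ?_
      have : r x ≤ 0 := by
        rw [hr]
        exact mul_nonpos_of_nonpos_of_nonneg (hs x hx) (hw x)
      simp only [abs_of_nonpos this, neg_neg]
    rw [h1, intervalIntegral.integral_neg, abs_neg, abs_of_nonneg hnn]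

/-- Local form of the sign lemma. -/
private lemma OA13_loc (f : ℂ → ℂ) (u : ℝ → ℂ) (r0 : ℝ → ℝ) (hu : Continuous u) (hu0 : ∀ t, u t ≠ 0)
    (hr : ∀ t : ℝ, (r0 t : ℂ) = u t * f (1 / 2 + t * I)) (t0 : ℝ) (hf : AnalyticAt ℂ f (1 / 2 + t0 * I))
    (hord : analyticOrderAt f (1 / 2 + t0 * I) ≠ ⊤) (hev : Even (analyticOrderNatAt f (1 / 2 + t0 * I))) :
    ((∀ᶠ t in 𝓝 t0, 0 ≤ r0 t) ∨ (∀ᶠ t in 𝓝 t0, r0 t ≤ 0)) ∧ ∀ᶠ t in 𝓝[≠] t0, r0 t ≠ 0 := by
  obtain ⟨g, hg, hg0, hfg⟩ := hf.analyticOrderAt_ne_top.mp hord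
  set n := analyticOrderNatAt f (1 / 2 + t0 * I) with hn
  have hline : Continuous fun t : ℝ => (1 / 2 + t * I : ℂ) := by fun_prop
  -- the cofactor
  set v : ℝ → ℂ := fun t => u t * I ^ n * g (1 / 2 + t * I) with hv
  have hvc : ContinuousAt v t0 := by
    refine (hu.continuousAt.mul continuousAt_const).mul ?_
    exact ContinuousAt.comp (f := fun t : ℝ => (1 / 2 + t * I : ℂ)) hg.continuousAt hline.continuousAt
  have hv0 : v t0 ≠ 0 := mul_ne_zero (mul_ne_zero (hu0 t0) (pow_ne_zero _ I_ne_zero)) hg0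
  have hev' : ∀ᶠ t in 𝓝 t0, (r0 t : ℂ) = ((t - t0 : ℝ) : ℂ) ^ n * v t := by
    have h1 := hline.continuousAt.eventually hfg
    filter_upwards [h1] with t ht
    rw [hr, ht]
    simp only [hv, smul_eq_mul]
    have : (1 / 2 + (t : ℂ) * I - (1 / 2 + t0 * I)) = ((t - t0 : ℝ) : ℂ) * I := by
      push_cast
      ring
    rw [this, mul_pow]
    ring
  have hre : ∀ᶠ t in 𝓝 t0, r0 t = (t - t0) ^ n * (v t).re := by
    filter_upwards [hev'] with t ht
    have h2 := congrArg Complex.re ht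
    rw [← ofReal_pow, re_ofReal_mul, ofReal_re] at h2
    exact h2
  have him : ∀ᶠ t in 𝓝[≠] t0, (v t).im = 0 := by
    filter_upwards [hev'.filter_mono nhdsWithin_le_nhds, self_mem_nhdsWithin] with t ht hne
    have h2 := congrArg Complex.im ht
    rw [← ofReal_pow, im_ofReal_mul, ofReal_im] at h2
    have h3 : (t - t0) ^ n ≠ 0 := pow_ne_zero _ (sub_ne_zero.mpr hne)
    exact (mul_eq_zero.mp h2.symm).resolve_left h3
  have him0 : (v t0).im = 0 := by
    have h1 : Tendsto (fun t => (v t).im) (𝓝[≠] t0) (𝓝 (v t0).im) :=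
      ((continuous_im.continuousAt.comp hvc).tendsto).mono_left nhdsWithin_le_nhds
    have h2 : Tendsto (fun t => (v t).im) (𝓝[≠] t0) (𝓝 0) :=
      (tendsto_congr' him).mpr tendsto_const_nhds
    exact tendsto_nhds_unique h1 h2
  have hre0 : (v t0).re ≠ 0 := fun h0 => hv0 (Complex.ext h0 him0)
  have hvre : ContinuousAt (fun t => (v t).re) t0 := continuous_re.continuousAt.comp hvc
  have hnz : ∀ᶠ t in 𝓝 t0, (v t).re ≠ 0 := hvre.eventually_ne hre0
  refine ⟨?_, ?_⟩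
  · rcases lt_or_gt_of_ne hre0 with hneg | hpos
    · right
      filter_upwards [hre, hvre.eventually (gt_mem_nhds hneg)] with t ht h1
      rw [ht]
      exact mul_nonpos_of_nonneg_of_nonpos (hev.pow_nonneg _) h1.le
    · left
      filter_upwards [hre, hvre.eventually (lt_mem_nhds hpos)] with t ht h1
      rw [ht]
      exact mul_nonneg (hev.pow_nonneg _) h1.le
  · filter_upwards [hre.filter_mono nhdsWithin_le_nhds, hnz.filter_mono nhdsWithin_le_nhds,
      self_mem_nhdsWithin] with t ht h1 hne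
    rw [ht]
    exact mul_ne_zero (pow_ne_zero _ (sub_ne_zero.mpr hne)) h1

/-- Sign lemma. PROOF: fix `t0 ∈ (a, b)`, `s0 = 1/2 + i t0`, `n = analyticOrderNatAt f s0`, even. By
`AnalyticAt.analyticOrderAt_eq_natCast` (finite order) `f s = (s - s0)^n g(s)` near `s0`, `g` analytic at `s0`,
`g(s0) ≠ 0`. For real `t` near `t0`: `r0 t = (t - t0)^n v(t)`, `v(t) = u t * I^n * g(1/2 + i t)`, `v` continuous at `t0`,
`v(t0) ≠ 0`. For `t ≠ t0` near `t0`, `v(t)` is real (`r0 t` and `(t-t0)^n` are), so by continuity `Im v(t0) = 0`,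
`Re v(t0) ≠ 0`, and `Re v(t)` has the sign of `Re v(t0)` near `t0`; as `n` is even, near `t0` either `r0 ≥ 0` with `r0 > 0`
off `t0`, or `r0 ≤ 0` with `r0 < 0` off `t0`. So the sets `{t0 | r0 ≥ 0 near t0}` and `{t0 | r0 ≤ 0 near t0}` are open,
disjoint and cover `(a, b)` (`isPreconnected_Ioo`, or `isPreconnected_iff_subset_of_disjoint`). -/
theorem F_sign (f : ℂ → ℂ) (u : ℝ → ℂ) (r0 : ℝ → ℝ) (hu : Continuous u) (hu0 : ∀ t, u t ≠ 0)
    (hr : ∀ t : ℝ, (r0 t : ℂ) = u t * f (1 / 2 + t * I)) (hf : ∀ t : ℝ, AnalyticAt ℂ f (1 / 2 + t * I))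
    (hord : ∀ t : ℝ, analyticOrderAt f (1 / 2 + t * I) ≠ ⊤) (a b : ℝ)
    (hev : ∀ t ∈ Ioo a b, Even (analyticOrderNatAt f (1 / 2 + t * I))) :
    (∀ t ∈ Ioo a b, 0 ≤ r0 t) ∨ (∀ t ∈ Ioo a b, r0 t ≤ 0) := by
  have hloc : ∀ t0 ∈ Ioo a b,
      ((∀ᶠ t in 𝓝 t0, 0 ≤ r0 t) ∨ (∀ᶠ t in 𝓝 t0, r0 t ≤ 0)) ∧ ∀ᶠ t in 𝓝[≠] t0, r0 t ≠ 0 :=
    fun t0 ht0 => OA13_loc f u r0 hu hu0 hr t0 (hf t0) (hord t0) (hev t0 ht0)
  have hUo : IsOpen {t0 : ℝ | ∀ᶠ t in 𝓝 t0, 0 ≤ r0 t} := by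
    rw [isOpen_iff_mem_nhds]
    intro x hx
    exact eventually_eventually_nhds.mpr hx
  have hVo : IsOpen {t0 : ℝ | ∀ᶠ t in 𝓝 t0, r0 t ≤ 0} := by
    rw [isOpen_iff_mem_nhds]
    intro x hx
    exact eventually_eventually_nhds.mpr hx
  have hcov : Ioo a b ⊆ {t0 : ℝ | ∀ᶠ t in 𝓝 t0, 0 ≤ r0 t} ∪ {t0 : ℝ | ∀ᶠ t in 𝓝 t0, r0 t ≤ 0} :=
    fun t0 ht0 => (hloc t0 ht0).1
  have hdis : Ioo a b ∩ ({t0 : ℝ | ∀ᶠ t in 𝓝 t0, 0 ≤ r0 t} ∩ {t0 : ℝ | ∀ᶠ t in 𝓝 t0, r0 t ≤ 0}) = ∅ := by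
    rw [Set.eq_empty_iff_forall_notMem]
    rintro t0 ⟨ht0, h1, h2⟩
    have h3 : ∀ᶠ t in 𝓝[≠] t0, False := by
      filter_upwards [(hloc t0 ht0).2, (show ∀ᶠ t in 𝓝 t0, 0 ≤ r0 t from h1).filter_mono nhdsWithin_le_nhds,
        (show ∀ᶠ t in 𝓝 t0, r0 t ≤ 0 from h2).filter_mono nhdsWithin_le_nhds] with t h4 h5 h6
      exact h4 (le_antisymm h6 h5)
    exact h3.exists.elim fun _ h => h
  rcases (isPreconnected_iff_subset_of_disjoint.mp (isPreconnected_Ioo (a := a) (b := b))) _ _ hUo hVo hcov hdis with h | h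
  · left
    intro t ht
    exact (show ∀ᶠ s in 𝓝 t, 0 ≤ r0 s from h ht).self_of_nhds
  · right
    intro t ht
    exact (show ∀ᶠ s in 𝓝 t, r0 s ≤ 0 from h ht).self_of_nhds

end OO

end

section

open Complex MeasureTheory Set Filter Topology
open scoped ComplexConjugate

namespace OO

/-- A0. Different primitive characters differ at a number prime to both moduli.

PROOF. Suppose not. Let `q1 = n+1`, `q2 = m+1`. Both characters, lifted to modulus `N = q1 q2`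
(`DirichletCharacter.changeLevel`), agree at all units of `ZMod N` (every unit of `ZMod N` is the class of a natural
number prime to `N`; `changeLevel_eq_cast_of_dvd`), so the lifts are equal. The conductor of the lift is the conductor of
the character (`DirichletCharacter.conductor` facts; a primitive character has conductor equal to its modulus), so
`q1 = conductor = q2`, `n = m` (subst), and then `χ1 = χ2` since both agree with the same lift at all units (two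
characters mod `q` whose lifts to `N` agree are equal: `changeLevel_injective`, or: every unit of `ZMod q` lifts to a unit
of `ZMod N`, `ZMod.unitsMap_surjective`). The conductor statement: if `ψ = changeLevel χ1 = changeLevel χ2` then `ψ`
factors through `q1` and through `q2`, hence (`DirichletCharacter.FactorsThrough` and gcd; or
`DirichletCharacter.conductor_dvd_level`, `mem_conductorSet...`) its conductor divides `q1` and `q2`; `χ1` then factors
through `conductor ψ` (as its lift does and `ZMod.unitsMap` is surjective), so `q1 = conductor χ1` divides `conductor ψ`.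
Alternatively use the primitive character of `ψ`. -/
theorem ne12_of_prim {n m : ℕ} {χ1 : DirichletCharacter ℂ (n + 1)} {χ2 : DirichletCharacter ℂ (m + 1)}
    (h1 : χ1.IsPrimitive) (h2 : χ2.IsPrimitive)
    (hne : (⟨n, χ1⟩ : Σ n : ℕ, DirichletCharacter ℂ (n + 1)) ≠ ⟨m, χ2⟩) : Ne12 χ1 χ2 := by
  by_contra hcon
  unfold Ne12 at hcon
  push Not at hcon
  have hN : NeZero ((n + 1) * (m + 1)) := ⟨by positivity⟩
  have d1 : (n + 1) ∣ (n + 1) * (m + 1) := Dvd.intro _ rfl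
  have d2 : (m + 1) ∣ (n + 1) * (m + 1) := Dvd.intro_left _ rfl
  have key : DirichletCharacter.changeLevel d1 χ1 = DirichletCharacter.changeLevel d2 χ2 := by
    apply MulChar.ext
    intro a
    have ha : (a : ZMod ((n + 1) * (m + 1))) = ((a : ZMod ((n + 1) * (m + 1))).val : ZMod ((n + 1) * (m + 1))) :=
      (ZMod.natCast_zmod_val _).symm
    rw [DirichletCharacter.changeLevel_eq_cast_of_dvd, DirichletCharacter.changeLevel_eq_cast_of_dvd]
    have hco : (a : ZMod ((n + 1) * (m + 1))).val.Coprime ((n + 1) * (m + 1)) := ZMod.val_coe_unit_coprime a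
    have h3 := hcon _ hco
    have e1 : (((a : ZMod ((n + 1) * (m + 1))).val : ℕ) : ZMod (n + 1)) = ((a : ZMod ((n + 1) * (m + 1))).cast : ZMod (n + 1)) := by
      rw [ZMod.natCast_val]
    have e2 : (((a : ZMod ((n + 1) * (m + 1))).val : ℕ) : ZMod (m + 1)) = ((a : ZMod ((n + 1) * (m + 1))).cast : ZMod (m + 1)) := by
      rw [ZMod.natCast_val]
    rw [e1, e2] at h3
    exact h3
  have c1 := DirichletCharacter.conductor_changeLevel χ1 d1
  have c2 := DirichletCharacter.conductor_changeLevel χ2 d2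
  rw [key, c2] at c1
  rw [DirichletCharacter.isPrimitive_def] at h1 h2
  rw [h1, h2] at c1
  have hnm : m = n := by omega
  subst hnm
  apply hne
  have : χ1 = χ2 := DirichletCharacter.changeLevel_injective d1 key
  rw [this]

end OO

end

section

/-!
# Block E: definitions
-/

open Complex MeasureTheory Set Filter Topology
open scoped ComplexConjugate

namespace OO

/-- the kernel: integral over x > 0 of exp(-al/x - om x - P x), P complex -/
noncomputable def EK (al om : ℝ) (P : ℂ) : ℂ := ∫ x in Ioi (0 : ℝ), (Wt al om x : ℂ) * exp (-(P * x))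

/-- the phase 2 pi (z h n/k + conj z h' n'/k') -/
noncomputable def Eph (ε : ℝ) (h k h' k' : ℕ) (p : ℕ × ℕ) : ℂ :=
  2 * Real.pi * (zz ε * ((h : ℂ) * p.1 / k) + conj (zz ε) * ((h' : ℂ) * p.2 / k'))

/-- one term of the expansion -/
noncomputable def Etm (lam : ℕ → ℂ) (al om ε : ℝ) (h k h' k' : ℕ) (p : ℕ × ℕ) : ℂ :=
  lam p.1 * conj (lam p.2) * EK al om (Eph ε h k h' k' p)

/-- the terms with h k' n = h' k n' + (r + 1) -/
noncomputable def EU (lam : ℕ → ℂ) (al om ε : ℝ) (h k h' k' r : ℕ) : ℂ :=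
  ∑' p : ℕ × ℕ, if (h * k') * p.1 = (h' * k) * p.2 + (r + 1) then Etm lam al om ε h k h' k' p else 0

/-- the diagonal terms h k' n = h' k n' -/
noncomputable def ED (lam : ℕ → ℂ) (al om ε : ℝ) (h k h' k' : ℕ) : ℂ :=
  ∑' p : ℕ × ℕ, if (h * k') * p.1 = (h' * k) * p.2 then Etm lam al om ε h k h' k' p else 0

/-- the rotated argument of the shifted sum -/
noncomputable def Ekap (ε : ℝ) (h k : ℕ) (x : ℝ) : ℂ :=
  ((4 * Real.pi * ((h : ℝ) / k) * Real.sin ε * x : ℝ) : ℂ) * exp (-(((Real.pi / 6 : ℝ) : ℂ) * I))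

/-- the exponential factor in the bound of the off-diagonal terms -/
noncomputable def Ewt (al om ε : ℝ) (k k' r : ℕ) (x : ℝ) : ℝ :=
  Real.exp (-((al / x + om * x) * Real.cos (Real.pi / 6)) -
    2 * Real.pi * r * x * Real.sin (Real.pi / 6 - ε) / (k * k'))

theorem zz_re (ε : ℝ) : (zz ε).re = Real.sin ε := by
  rw [zz, exp_re]
  simp [Real.cos_pi_div_two_sub]

theorem zz_im (ε : ℝ) : (zz ε).im = Real.cos ε := by
  rw [zz, exp_im]
  simp [Real.sin_pi_div_two_sub]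

theorem sin_pos' {ε : ℝ} (hε : 0 < ε) (hε' : ε ≤ 1 / 10) : 0 < Real.sin ε :=
  Real.sin_pos_of_pos_of_lt_pi hε (by linarith [Real.pi_gt_three])

theorem Eph_re (ε : ℝ) (h k h' k' : ℕ) (p : ℕ × ℕ) :
    (Eph ε h k h' k' p).re = 2 * Real.pi * Real.sin ε * ((h : ℝ) * p.1 / k + (h' : ℝ) * p.2 / k') := by
  have e1 : ((h : ℂ) * p.1 / k) = (((h : ℝ) * p.1 / k : ℝ) : ℂ) := by push_cast; ring
  have e2 : ((h' : ℂ) * p.2 / k') = (((h' : ℝ) * p.2 / k' : ℝ) : ℂ) := by push_cast; ring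
  have e3 : (2 * (Real.pi : ℂ)) = ((2 * Real.pi : ℝ) : ℂ) := by push_cast; ring
  rw [Eph, e1, e2, e3, re_ofReal_mul, add_re, re_mul_ofReal, re_mul_ofReal, conj_re, zz_re]
  ring

end OO

end

section

/-!
# Block P (poles), definitions
-/

open Complex MeasureTheory Set Filter Topology
open scoped ComplexConjugate

namespace OO

/-- the series of a character, `v = 1, 2, ...` -/
noncomputable def Th {q : ℕ} (χ : DirichletCharacter ℂ q) (w : ℂ) : ℂ :=
  ∑' v : ℕ, χ ((v + 1 : ℕ) : ZMod q) * exp (-(2 * Real.pi * ((v + 1 : ℕ) : ℂ) * w))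

/-- the Gauss sum -/
noncomputable def tc {q : ℕ} (χ : DirichletCharacter ℂ q) : ℂ :=
  ∑ a ∈ Finset.Icc 1 q, χ ((a : ℕ) : ZMod q) * exp (-(2 * Real.pi * I * a / q))

/-- the indices `(h, k, u, m)` -/
def PJ (H U M : ℕ) : Finset (ℕ × ℕ × ℕ × ℕ) :=
  Finset.Icc 1 H ×ˢ Finset.Icc 1 H ×ˢ Finset.Icc 1 U ×ˢ Finset.Icc 1 M

/-- the number `ξ = m k/(u h)` of an index -/
def px (j : ℕ × ℕ × ℕ × ℕ) : ℚ := ((j.2.2.2 * j.2.1 : ℕ) : ℚ) / ((j.2.2.1 * j.1 : ℕ) : ℚ)

/-- the coefficient `b(h) conj b(k) w(u) f1(u) f2(m)/(u h)` of an index -/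
noncomputable def pc (b f1 f2 : ℕ → ℂ) (w : ℝ → ℝ) (j : ℕ × ℕ × ℕ × ℕ) : ℂ :=
  b j.1 * conj (b j.2.1) * (w j.2.2.1 : ℂ) * f1 j.2.2.1 * f2 j.2.2.2 / ((j.2.2.1 * j.1 : ℕ) : ℂ)

/-- the coefficient of the pole `ξ` -/
noncomputable def PC (H U M : ℕ) (b f1 f2 : ℕ → ℂ) (w : ℝ → ℝ) (ξ : ℚ) : ℂ :=
  ∑ j ∈ (PJ H U M).filter (fun j => px j = ξ), pc b f1 f2 w j

/-- the sum over the poles -/
noncomputable def PS (H U M q : ℕ) (b f1 f2 : ℕ → ℂ) (w : ℝ → ℝ) (ε x : ℝ) : ℂ :=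
  ∑ j ∈ PJ H U M, pc b f1 f2 w j / (x * exp (-(ε * I)) - (((px j : ℚ) : ℝ) / q : ℝ))

end OO

end

section

/-! # Row OE03: the kernel `EK` and `Psi` -/

open Complex MeasureTheory Set Filter Topology
open scoped ComplexConjugate

namespace OO

theorem E_Ker_Wt_pos (al om x : ℝ) : 0 < Wt al om x := Real.exp_pos _

theorem E_Ker_Wt_le {al om x : ℝ} (hal : 0 < al) (hom : 0 ≤ om) (hx : 0 < x) : Wt al om x ≤ 1 := by
  unfold Wt
  rw [← Real.exp_zero]
  apply Real.exp_le_exp.mpr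
  have h1 : 0 ≤ al / x := by positivity
  have h2 : 0 ≤ om * x := by positivity
  linarith

theorem E_Ker_Wt_cont (al om : ℝ) : ContinuousOn (fun x : ℝ => Wt al om x) (Ioi 0) := by
  unfold Wt
  apply Real.continuous_exp.comp_continuousOn
  apply ContinuousOn.sub
  · apply ContinuousOn.neg
    exact ContinuousOn.div continuousOn_const continuousOn_id (fun x hx => ne_of_gt hx)
  · exact (continuous_const.mul continuous_id).continuousOn

/-- PROOF. continuous on `Ioi 0`, `0 ≤ . ≤ exp (-(P x))` (as `al/x ≥ 0`, `om x ≥ 0` for `x > 0`). -/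
theorem E_psi_int {al om P : ℝ} (hal : 0 < al) (hom : 0 ≤ om) (hP : 0 < P) :
    IntegrableOn (fun x : ℝ => Wt al om x * Real.exp (-(P * x))) (Ioi 0) := by
  have h1 : IntegrableOn (fun x : ℝ => Real.exp (-P * x)) (Ioi 0) := exp_neg_integrableOn_Ioi 0 hP
  refine Integrable.mono' h1 ?_ ?_
  · apply ContinuousOn.aestronglyMeasurable _ measurableSet_Ioi
    apply (E_Ker_Wt_cont al om).mul
    exact (Real.continuous_exp.comp (continuous_const.mul continuous_id).neg).continuousOn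
  · refine (ae_restrict_iff' measurableSet_Ioi).mpr (Eventually.of_forall fun x hx => ?_)
    rw [Real.norm_eq_abs, abs_of_nonneg (mul_nonneg (E_Ker_Wt_pos al om x).le (Real.exp_pos _).le)]
    rw [show -P * x = -(P * x) by ring]
    exact mul_le_of_le_one_left (Real.exp_pos _).le (E_Ker_Wt_le hal hom hx)

theorem E_psi_nonneg (al om P : ℝ) : 0 ≤ Psi al om P :=
  setIntegral_nonneg measurableSet_Ioi fun x _ => mul_nonneg (E_Ker_Wt_pos al om x).le (Real.exp_pos _).le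

/-- `Psi` is antitone in `P`. -/
theorem E_psi_anti {al om P P' : ℝ} (hal : 0 < al) (hom : 0 ≤ om) (hP : 0 < P) (h : P ≤ P') :
    Psi al om P' ≤ Psi al om P := by
  refine setIntegral_mono_on (E_psi_int hal hom (lt_of_lt_of_le hP h)) (E_psi_int hal hom hP) measurableSet_Ioi ?_
  intro x hx
  apply mul_le_mul_of_nonneg_left _ (E_Ker_Wt_pos al om x).le
  apply Real.exp_le_exp.mpr
  have hx0 : (0 : ℝ) < x := hx
  have := mul_le_mul_of_nonneg_right h hx0.le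
  linarith

/-- PROOF. For `x > 0`: `al/x + P x/2 ≥ 2 √(al P/2) = √(2 al P)` (AM-GM: `(√(al/x) - √(P x/2))^2 ≥ 0`), so
`Wt al om x * exp (-(P x)) ≤ exp (-√(2 al P)) * exp (-(P x/2))`; integrate:
`∫ exp (-(P/2) x) = 2/P`. -/
theorem E_psi_le {al om P : ℝ} (hal : 0 < al) (hom : 0 ≤ om) (hP : 0 < P) :
    Psi al om P ≤ 2 / P * Real.exp (-Real.sqrt (2 * al * P)) := by
  have hP2 : 0 < P / 2 := by positivity
  have h1 : IntegrableOn (fun x : ℝ => Real.exp (-(P / 2) * x)) (Ioi 0) := exp_neg_integrableOn_Ioi 0 hP2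
  have h2 : ∫ x in Ioi (0 : ℝ), Real.exp (-Real.sqrt (2 * al * P)) * Real.exp (-(P / 2) * x) =
      2 / P * Real.exp (-Real.sqrt (2 * al * P)) := by
    rw [integral_const_mul, integral_exp_mul_Ioi (by linarith) 0]
    rw [mul_zero, Real.exp_zero]
    field_simp
  rw [← h2]
  refine setIntegral_mono_on (E_psi_int hal hom hP) (h1.const_mul _) measurableSet_Ioi ?_
  intro x hx
  have hx0 : (0 : ℝ) < x := hx
  unfold Wt
  rw [← Real.exp_add, ← Real.exp_add]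
  apply Real.exp_le_exp.mpr
  have h3 : Real.sqrt (2 * al * P) ≤ al / x + P * x / 2 := by
    apply Real.sqrt_le_iff.mpr
    constructor
    · positivity
    · have h4 : (al / x) * (P * x / 2) = al * P / 2 := by
        field_simp
      nlinarith [sq_nonneg (al / x - P * x / 2)]
  have h5 : 0 ≤ om * x := by positivity
  linarith

theorem E_Ker_norm1 (al om : ℝ) (P : ℂ) (x : ℝ) :
    ‖(Wt al om x : ℂ) * exp (-(P * x))‖ = Wt al om x * Real.exp (-(P.re * x)) := by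
  rw [norm_mul, Complex.norm_real, Real.norm_eq_abs, abs_of_pos (E_Ker_Wt_pos al om x), Complex.norm_exp]
  congr 2
  rw [neg_re, re_mul_ofReal]

/-- PROOF. The norm of the integrand is `Wt al om x * exp (-(P.re * x))`, see `E_psi_int`; continuity on `Ioi 0`. -/
theorem E_ker_int {al om : ℝ} (hal : 0 < al) (hom : 0 ≤ om) {P : ℂ} (hP : 0 < P.re) :
    IntegrableOn (fun x : ℝ => (Wt al om x : ℂ) * exp (-(P * x))) (Ioi 0) := by
  refine Integrable.mono' (E_psi_int hal hom hP) ?_ (Eventually.of_forall fun x => (E_Ker_norm1 al om P x).le)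
  apply ContinuousOn.aestronglyMeasurable _ measurableSet_Ioi
  apply ContinuousOn.mul
  · exact Complex.continuous_ofReal.comp_continuousOn (E_Ker_Wt_cont al om)
  · exact (Complex.continuous_exp.comp (continuous_const.mul Complex.continuous_ofReal).neg).continuousOn

/-- `∫ ‖integrand‖ = Psi al om P.re`. -/
theorem E_ker_norm_int (al om : ℝ) (P : ℂ) :
    ∫ x in Ioi (0 : ℝ), ‖(Wt al om x : ℂ) * exp (-(P * x))‖ = Psi al om P.re := by
  unfold Psi
  simp only [E_Ker_norm1]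

theorem E_ker_norm_le (al om : ℝ) (P : ℂ) : ‖EK al om P‖ ≤ Psi al om P.re := by
  rw [← E_ker_norm_int]
  exact norm_integral_le_integral_norm _

theorem E_ker_real (al om P : ℝ) : EK al om (P : ℂ) = (Psi al om P : ℂ) := by
  unfold EK Psi
  rw [← integral_complex_ofReal]
  congr 1
  funext x
  push_cast
  rfl

/-- PROOF. `integral_conj`, `exp_conj`. -/
theorem E_ker_conj (al om : ℝ) (P : ℂ) : EK al om (conj P) = conj (EK al om P) := by
  unfold EK
  rw [← integral_conj]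
  congr 1
  funext x
  rw [map_mul, conj_ofReal, ← exp_conj, map_neg, map_mul, conj_ofReal]

end OO

end

section

/-!
# Row G_1a: one pair of divisors, the bijection
-/

open Complex MeasureTheory Set Filter Topology
open scoped ComplexConjugate

namespace OO

theorem G_1a_swap {K K' a b m : ℕ} (hK : 0 < K) (ha : 0 < a) (hab : K * a = K' * b) (h1 : a ∣ m)
    (h2 : b ∣ m) : m / a * K' = m / b * K := by
  obtain ⟨s, rfl⟩ := h1
  obtain ⟨t, ht⟩ := h2
  have hb : 0 < b := by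
    rcases Nat.eq_zero_or_pos b with h | h
    · rw [h, mul_zero] at hab
      exact absurd hab (Nat.mul_pos hK ha).ne'
    · exact h
  rw [ht, Nat.mul_div_cancel_left _ hb, ← ht, Nat.mul_div_cancel_left _ ha]
  apply Nat.eq_of_mul_eq_mul_left (Nat.mul_pos hK ha)
  calc K * a * (s * K') = a * s * (K * K') := by ring
    _ = b * t * (K * K') := by rw [ht]
    _ = K' * b * (t * K) := by ring
    _ = K * a * (t * K) := by rw [hab]

/-- For `K, K' ∣ Q`, `Q > 0`: `m ↦ n = m K K'/Q` is a bijection from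
`{m ≥ 1 : Q/K ∣ m, Q/K' ∣ m}` onto `{n ≥ 1 : K ∣ n, K' ∣ n}`, with `n/K' = mK/Q`, `n/K = mK'/Q`
(inverse `m = (Q/K) (n/K')`). -/
theorem G_bij (Q K K' : ℕ) (hQ : 0 < Q) (hK : K ∣ Q) (hK' : K' ∣ Q) :
    ∃ e : {m : ℕ // 1 ≤ m ∧ Q / K ∣ m ∧ Q / K' ∣ m} ≃ {n : ℕ // 1 ≤ n ∧ K ∣ n ∧ K' ∣ n},
      ∀ m, (e m : ℕ) / K' = (m : ℕ) * K / Q ∧ (e m : ℕ) / K = (m : ℕ) * K' / Q ∧
        (e m : ℕ) * Q = (m : ℕ) * (K * K') := by
  obtain ⟨a, ha⟩ := hK
  obtain ⟨b, hb⟩ := hK'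
  have hK0 : 0 < K := Nat.pos_of_ne_zero (fun h => by
    rw [h, zero_mul] at ha
    exact hQ.ne' ha)
  have hK0' : 0 < K' := Nat.pos_of_ne_zero (fun h => by
    rw [h, zero_mul] at hb
    exact hQ.ne' hb)
  have ha0 : 0 < a := Nat.pos_of_ne_zero (fun h => by
    rw [h, mul_zero] at ha
    exact hQ.ne' ha)
  have hb0 : 0 < b := Nat.pos_of_ne_zero (fun h => by
    rw [h, mul_zero] at hb
    exact hQ.ne' hb)
  have hQa : Q / K = a := by rw [ha, Nat.mul_div_cancel_left _ hK0]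
  have hQb : Q / K' = b := by rw [hb, Nat.mul_div_cancel_left _ hK0']
  have hab : K * a = K' * b := ha.symm.trans hb
  rw [hQa, hQb]
  refine ⟨⟨fun m => ⟨m / a * K', ?_, ?_, Dvd.intro_left _ rfl⟩,
    fun n => ⟨n / K' * a, ?_, Dvd.intro_left _ rfl, ?_⟩, ?_, ?_⟩, ?_⟩
  · obtain ⟨m, h1, ⟨s, hs⟩, h3⟩ := m
    have hs0 : s ≠ 0 := fun h => by
      rw [h, mul_zero] at hs
      omega
    show 1 ≤ m / a * K'
    rw [hs, Nat.mul_div_cancel_left _ ha0]
    exact Nat.mul_pos (Nat.pos_of_ne_zero hs0) hK0'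
  · rw [G_1a_swap hK0 ha0 hab m.2.2.1 m.2.2.2]
    exact Dvd.intro_left _ rfl
  · obtain ⟨n, h1, h2, ⟨s, hs⟩⟩ := n
    have hs0 : s ≠ 0 := fun h => by
      rw [h, mul_zero] at hs
      omega
    show 1 ≤ n / K' * a
    rw [hs, Nat.mul_div_cancel_left _ hK0']
    exact Nat.mul_pos (Nat.pos_of_ne_zero hs0) ha0
  · have h := G_1a_swap (K := a) (K' := b) (a := K) (b := K') (m := n) ha0 hK0
      (by rw [mul_comm a K, mul_comm b K', hab]) n.2.2.1 n.2.2.2
    rw [← h]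
    exact Dvd.intro_left _ rfl
  · intro m
    apply Subtype.ext
    show (m : ℕ) / a * K' / K' * a = m
    rw [Nat.mul_div_cancel _ hK0', Nat.div_mul_cancel m.2.2.1]
  · intro n
    apply Subtype.ext
    show (n : ℕ) / K' * a / a * K' = n
    rw [Nat.mul_div_cancel _ ha0, Nat.div_mul_cancel n.2.2.2]
  · intro m
    have hm := G_1a_swap hK0 ha0 hab m.2.2.1 m.2.2.2
    refine ⟨?_, ?_, ?_⟩
    · show (m : ℕ) / a * K' / K' = (m : ℕ) * K / Q
      rw [Nat.mul_div_cancel _ hK0', ha, mul_comm (m : ℕ) K, Nat.mul_div_mul_left _ _ hK0]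
    · show (m : ℕ) / a * K' / K = (m : ℕ) * K' / Q
      rw [hm, Nat.mul_div_cancel _ hK0, hb, mul_comm (m : ℕ) K', Nat.mul_div_mul_left _ _ hK0']
    · show (m : ℕ) / a * K' * Q = (m : ℕ) * (K * K')
      obtain ⟨s, hs⟩ := m.2.2.1
      rw [hs, Nat.mul_div_cancel_left _ ha0, ha]
      ring

end OO

end

section

/-!
# Row G_2a: squares and convolutions as double sums
-/

open Complex MeasureTheory Set Filter Topology
open scoped ComplexConjugate

namespace OO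

/-- `C(m) conj C(m)` as a double sum over `K, K' ∈ [1, K0]`, `Q = K0!` (all `K ≤ K0` divide `K0!`) -/
theorem G_sq (a b : ArithmeticFunction ℂ) (K0 m : ℕ) :
    ((‖Cm K0 a b m‖ ^ 2 : ℝ) : ℂ) = ∑ K ∈ Finset.Icc 1 K0, ∑ K' ∈ Finset.Icc 1 K0,
      (if K0.factorial / K ∣ m ∧ K0.factorial / K' ∣ m then
        a (m * K / K0.factorial) * conj (a (m * K' / K0.factorial)) else 0) *
        (b K / K * (conj (b K') / K')) := by
  have h1 : ((‖Cm K0 a b m‖ ^ 2 : ℝ) : ℂ) = Cm K0 a b m * conj (Cm K0 a b m) := by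
    rw [Complex.mul_conj, Complex.normSq_eq_norm_sq]
  rw [h1]
  unfold Cm
  rw [map_sum, Finset.sum_mul_sum]
  refine Finset.sum_congr rfl fun K _ => Finset.sum_congr rfl fun K' _ => ?_
  by_cases h2 : K0.factorial / K ∣ m
  · by_cases h3 : K0.factorial / K' ∣ m
    · rw [if_pos h2, if_pos h3, if_pos ⟨h2, h3⟩, map_div₀, map_mul, Complex.conj_natCast]
      ring
    · rw [if_neg h3, if_neg (show ¬(K0.factorial / K ∣ m ∧ K0.factorial / K' ∣ m) from fun h => h3 h.2), map_zero, mul_zero, zero_mul]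
  · rw [if_neg h2, if_neg (show ¬(K0.factorial / K ∣ m ∧ K0.factorial / K' ∣ m) from fun h => h2 h.1), zero_mul, zero_mul]

/-- one convolution, with a function supported on `[1, K0]` -/
theorem G_2a_one (f g : ArithmeticFunction ℂ) (K0 : ℕ) (hg : ∀ k, K0 < k → g k = 0) (n : ℕ) :
    (f * g) n = ∑ K ∈ Finset.Icc 1 K0, if K ∣ n then f (n / K) * g K else 0 := by
  rcases Nat.eq_zero_or_pos n with rfl | hn
  · rw [ArithmeticFunction.map_zero]
    symm
    refine Finset.sum_eq_zero fun K _ => ?_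
    rw [Nat.zero_div, ArithmeticFunction.map_zero, zero_mul, ite_self]
  · rw [ArithmeticFunction.mul_apply, Nat.sum_divisorsAntidiagonal' (f := fun x y => f x * g y), ← Finset.sum_filter]
    have h1 : ∑ K ∈ (Finset.Icc 1 K0).filter (fun K => K ∣ n), f (n / K) * g K =
        ∑ K ∈ n.divisors, f (n / K) * g K := by
      refine Finset.sum_subset (fun K hK => ?_) (fun K hK hK' => ?_)
      · rw [Finset.mem_filter] at hK
        exact Nat.mem_divisors.2 ⟨hK.2, hn.ne'⟩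
      · have hK1 := Nat.pos_of_mem_divisors hK
        have hK2 := Nat.dvd_of_mem_divisors hK
        have hK3 : K0 < K := by
          by_contra hlt
          exact hK' (Finset.mem_filter.2 ⟨Finset.mem_Icc.2 ⟨hK1, not_lt.1 hlt⟩, hK2⟩)
        rw [hg K hK3, mul_zero]
    rw [h1]

/-- The product of the two convolutions at `n` as a double sum over `K, K' ∈ [1, K0]`, `K, K' ∣ n` (`b` is
supported on `[1, K0]`; `Nat.sum_divisorsAntidiagonal'`-type lemma; for `n = 0` both sides are `0`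
because `a 0 = 0`). -/
theorem G_conv (a b : ArithmeticFunction ℂ) (K0 : ℕ) (hb : ∀ k, K0 < k → b k = 0) (s : ℂ) (n : ℕ) :
    (tw a (-s / 2) * tw (cj b) (-1 + s / 2)) n * (tw (cj a) (-s / 2) * tw b (-1 + s / 2)) n =
      ∑ K ∈ Finset.Icc 1 K0, ∑ K' ∈ Finset.Icc 1 K0,
        (if K ∣ n ∧ K' ∣ n then (a (n / K') * ((n / K' : ℕ) : ℂ) ^ (-s / 2)) *
          (conj (a (n / K)) * ((n / K : ℕ) : ℂ) ^ (-s / 2)) else 0) *
          (b K * (K : ℂ) ^ (-1 + s / 2) * (conj (b K') * (K' : ℂ) ^ (-1 + s / 2))) := by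
  have e1 : ∀ k, K0 < k → tw (cj b) (-1 + s / 2) k = 0 := by
    intro k hk
    change conj (b k) * (k : ℂ) ^ (-1 + s / 2) = 0
    rw [hb k hk, map_zero, zero_mul]
  have e2 : ∀ k, K0 < k → tw b (-1 + s / 2) k = 0 := by
    intro k hk
    change b k * (k : ℂ) ^ (-1 + s / 2) = 0
    rw [hb k hk, zero_mul]
  rw [G_2a_one _ _ K0 e1, G_2a_one _ _ K0 e2, mul_comm, Finset.sum_mul_sum]
  refine Finset.sum_congr rfl fun K _ => Finset.sum_congr rfl fun K' _ => ?_
  have f1 : tw (cj a) (-s / 2) (n / K) = conj (a (n / K)) * ((n / K : ℕ) : ℂ) ^ (-s / 2) := rfl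
  have f2 : tw b (-1 + s / 2) K = b K * (K : ℂ) ^ (-1 + s / 2) := rfl
  have f3 : tw a (-s / 2) (n / K') = a (n / K') * ((n / K' : ℕ) : ℂ) ^ (-s / 2) := rfl
  have f4 : tw (cj b) (-1 + s / 2) K' = conj (b K') * (K' : ℂ) ^ (-1 + s / 2) := rfl
  rw [f1, f2, f3, f4]
  by_cases h2 : K ∣ n
  · by_cases h3 : K' ∣ n
    · rw [if_pos h2, if_pos h3, if_pos ⟨h2, h3⟩]
      ring
    · rw [if_neg h3, if_neg (show ¬(K ∣ n ∧ K' ∣ n) from fun h => h3 h.2), mul_zero, zero_mul]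
  · rw [if_neg h2, if_neg (show ¬(K ∣ n ∧ K' ∣ n) from fun h => h2 h.1), zero_mul, zero_mul]

end OO

end

section

/-!
# Row OP03: Gauss sums
-/

open Complex MeasureTheory Set Filter Topology

namespace OO

/-- OP03a. PROOF. Triangle inequality, `‖χ a‖ ≤ 1` (`DirichletCharacter.norm_le_one`), the exponentials have norm 1. -/
theorem P03_norm {q : ℕ} [NeZero q] (χ : DirichletCharacter ℂ q) : ‖tc χ‖ ≤ q := by
  unfold tc
  calc ‖∑ a ∈ Finset.Icc 1 q, χ ((a : ℕ) : ZMod q) * exp (-(2 * Real.pi * I * a / q))‖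
      ≤ ∑ a ∈ Finset.Icc 1 q, ‖χ ((a : ℕ) : ZMod q) * exp (-(2 * Real.pi * I * a / q))‖ := norm_sum_le _ _
    _ ≤ ∑ _a ∈ Finset.Icc 1 q, (1 : ℝ) := by
        refine Finset.sum_le_sum fun a _ => ?_
        have h1 : -(2 * Real.pi * I * a / q) = ((-(2 * Real.pi * a / q) : ℝ) : ℂ) * I := by
          push_cast; ring
        rw [norm_mul, h1, Complex.norm_exp_ofReal_mul_I, mul_one]
        exact DirichletCharacter.norm_le_one χ _
    _ = q := by simp

/-- the residues `1, ..., q` -/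
private theorem P03_aux_sum {q : ℕ} [NeZero q] (g : ZMod q → ℂ) :
    ∑ a ∈ Finset.Icc 1 q, g ((a : ℕ) : ZMod q) = ∑ x : ZMod q, g x := by
  refine Finset.sum_bij (fun a _ => ((a : ℕ) : ZMod q)) (fun a _ => Finset.mem_univ _) ?_ ?_ (fun a _ => rfl)
  · intro a ha b hb hab
    obtain ⟨ha1, ha2⟩ := Finset.mem_Icc.mp ha
    obtain ⟨hb1, hb2⟩ := Finset.mem_Icc.mp hb
    have h1 : a ≡ b [MOD q] := (ZMod.natCast_eq_natCast_iff a b q).mp hab
    have h2 : a - 1 ≡ b - 1 [MOD q] := by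
      have h3 : (a - 1) + 1 ≡ (b - 1) + 1 [MOD q] := by
        rwa [Nat.sub_add_cancel ha1, Nat.sub_add_cancel hb1]
      exact Nat.ModEq.add_right_cancel' 1 h3
    have h4 : a - 1 = b - 1 := Nat.ModEq.eq_of_lt_of_lt h2 (by omega) (by omega)
    omega
  · intro x _
    have hq := Nat.pos_of_ne_zero (NeZero.ne q)
    by_cases hx : x.val = 0
    · refine ⟨q, Finset.mem_Icc.mpr ⟨hq, le_rfl⟩, ?_⟩
      have : x = 0 := (ZMod.val_eq_zero x).mp hx
      rw [this]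
      exact ZMod.natCast_self q
    · exact ⟨x.val, Finset.mem_Icc.mpr ⟨Nat.pos_of_ne_zero hx, (ZMod.val_lt x).le⟩, ZMod.natCast_zmod_val x⟩

private theorem P03_aux_char {q : ℕ} [NeZero q] (a m : ℕ) :
    ZMod.stdAddChar.mulShift (-((m : ℕ) : ZMod q)) ((a : ℕ) : ZMod q) =
      exp (-(2 * Real.pi * I * a * m / q)) := by
  rw [AddChar.mulShift_apply]
  have h1 : (-((m : ℕ) : ZMod q)) * ((a : ℕ) : ZMod q) = ((-((m : ℤ) * (a : ℤ)) : ℤ) : ZMod q) := by
    push_cast; ring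
  rw [h1, ZMod.stdAddChar_coe]
  congr 1
  push_cast
  ring

/-- OP03b. PROOF. The sum over `a ∈ Icc 1 q` is the sum over `ZMod q` of `χ a * ψ(a m)`, `ψ = ZMod.stdAddChar⁻¹` (or `ψ(a) = exp(-2πi a/q)`), i.e. `gaussSum χ (ψ.mulShift m)`; Mathlib:
`gaussSum_mulShift_of_isPrimitive : gaussSum χ (e.mulShift a) = χ⁻¹ a * gaussSum χ e` (file Mathlib/NumberTheory/DirichletCharacter/GaussSum.lean), for primitive `χ`. `tc χ` is the case `m = 1`. -/
theorem P03_gauss {q : ℕ} [NeZero q] (χ : DirichletCharacter ℂ q) (hχ : χ.IsPrimitive) (m : ℕ) :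
    ∑ a ∈ Finset.Icc 1 q, χ ((a : ℕ) : ZMod q) * exp (-(2 * Real.pi * I * a * m / q)) =
      (χ⁻¹ : DirichletCharacter ℂ q) ((m : ℕ) : ZMod q) * tc χ := by
  have key : ∀ n : ℕ, ∑ a ∈ Finset.Icc 1 q, χ ((a : ℕ) : ZMod q) * exp (-(2 * Real.pi * I * a * n / q)) =
      (χ⁻¹ : DirichletCharacter ℂ q) (-((n : ℕ) : ZMod q)) * gaussSum χ (ZMod.stdAddChar (N := q)) := by
    intro n
    rw [← gaussSum_mulShift_of_isPrimitive (ZMod.stdAddChar (N := q)) hχ]
    unfold gaussSum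
    rw [← P03_aux_sum (fun x => χ x * ZMod.stdAddChar.mulShift (-((n : ℕ) : ZMod q)) x)]
    refine Finset.sum_congr rfl fun a _ => ?_
    rw [P03_aux_char]
  have h1 := key 1
  have htc : tc χ = (χ⁻¹ : DirichletCharacter ℂ q) (-1) * gaussSum χ (ZMod.stdAddChar (N := q)) := by
    have h0 : ((1 : ℕ) : ZMod q) = 1 := Nat.cast_one
    rw [h0] at h1
    unfold tc
    rw [← h1]
    refine Finset.sum_congr rfl fun a _ => ?_
    rw [Nat.cast_one, mul_one]
  rw [key m, htc]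
  have h2 : -((m : ℕ) : ZMod q) = ((m : ℕ) : ZMod q) * (-1) := by ring
  rw [h2, map_mul]
  ring

end OO

end

section

open Complex MeasureTheory Set Filter Topology
open scoped ComplexConjugate

namespace OO

theorem T_Beta_wt_nonneg (x : ℝ) : 0 ≤ LZ.wt x := by
  unfold LZ.wt
  positivity

theorem T_Beta_wt_le {x : ℝ} (hx : 0 ≤ x) : LZ.wt x ≤ 1 := by
  unfold LZ.wt
  apply pow_le_one₀ (le_max_left _ _)
  apply max_le zero_le_one
  linarith

theorem T_Beta_wt_eq {x : ℝ} (hx : 1 ≤ x) : LZ.wt x = 0 := by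
  unfold LZ.wt
  rw [max_eq_left (by linarith)]
  norm_num

theorem T_Beta_MA_apply (f : ℕ → ℂ) (A : ℂ) (θ : ℝ) (n : ℕ) : MA f A θ n = if Squarefree n then
    (-1/2 : ℂ) ^ n.primeFactors.card * f n * (n : ℂ) ^ (-A) * (LZ.wt (θ * Real.log n) : ℂ) else 0 := rfl

theorem T_Beta_MA_one {q : ℕ} (χ : DirichletCharacter ℂ q) (l : ℝ) : MA (ch χ) 0 (1 / l) 1 = 1 := by
  rw [T_Beta_MA_apply, if_pos squarefree_one]
  simp [ch, LZ.wt]

theorem T_Beta_MA_norm {q : ℕ} (χ : DirichletCharacter ℂ q) {l : ℝ} (hl : 0 < l) (n : ℕ) :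
    ‖MA (ch χ) 0 (1 / l) n‖ ≤ 1 := by
  rw [T_Beta_MA_apply]
  split_ifs with hn
  · have hn0 : n ≠ 0 := hn.ne_zero
    have hlog : 0 ≤ Real.log n := Real.log_natCast_nonneg n
    have h0 : 0 ≤ 1 / l * Real.log n := by positivity
    rw [neg_zero, Complex.cpow_zero, mul_one, norm_mul, norm_mul, norm_pow, Complex.norm_real,
      Real.norm_of_nonneg (T_Beta_wt_nonneg _)]
    have e1 : ‖(-1 / 2 : ℂ)‖ ≤ 1 := by norm_num
    have e2 : ‖ch χ n‖ ≤ 1 := χ.norm_le_one _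
    have e3 := T_Beta_wt_le h0
    calc ‖(-1 / 2 : ℂ)‖ ^ n.primeFactors.card * ‖ch χ n‖ * LZ.wt (1 / l * Real.log n)
        ≤ 1 * 1 * 1 := by
          gcongr
          · exact T_Beta_wt_nonneg _
          · exact pow_le_one₀ (norm_nonneg _) e1
      _ = 1 := by norm_num
  · simp

theorem T_Beta_MA_zero {q : ℕ} (χ : DirichletCharacter ℂ q) {l : ℝ} (hl : 0 < l) (n : ℕ)
    (hn : MA (ch χ) 0 (1 / l) n ≠ 0) : (n : ℝ) ≤ Real.exp l := by
  rw [T_Beta_MA_apply] at hn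
  split_ifs at hn with hsq
  · by_contra hlt
    push Not at hlt
    apply hn
    have hlog : l ≤ Real.log n := by
      rw [← Real.log_exp l]
      exact Real.log_le_log (Real.exp_pos _) hlt.le
    have h1 : 1 ≤ 1 / l * Real.log n := by
      rw [one_div, ← div_eq_inv_mul, le_div_iff₀ hl]
      linarith
    rw [T_Beta_wt_eq h1]
    simp
  · exact absurd rfl hn

/-- OT18. The coefficients `beta`.

Proof. `0 ≤ LZ.wt x ≤ 1` for `x ≥ 0` and `LZ.wt x = 0` for `x ≥ 1`, `LZ.wt 0 = 1`. So `‖MA f 0 (1/l) n‖ ≤ 1` when `‖f n‖ ≤ 1`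
(`(1/2)^k ≤ 1`, `n ^ (-0) = 1`; for `n ≥ 1` `log n / l ≥ 0`; `n = 0` is not squarefree), `MA f 0 (1/l) 1 = f 1`, and
`MA f 0 (1/l) n = 0` for `log n > l`. `beta n = ∑ d ∈ n.divisorsAntidiagonal, MA .. d.1 * MA .. d.2`, so `‖beta n‖ ≤ d(n) ≤ n`,
`beta 1 = 1`, and if `beta n ≠ 0` then some `d1 d2 = n` has `d1, d2 ≤ e^l`, `n ≤ e^{2l}`, `n ≤ ⌊e^{2l}⌋ = Hl l`.
`1 ≤ Hl l` as `e^{2l} ≥ 1`. -/
theorem T_beta {q1 q2 : ℕ} (χ1 : DirichletCharacter ℂ q1) (χ2 : DirichletCharacter ℂ q2) (l : ℝ) (hl : 0 < l) :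
    beta (ch χ1) (ch χ2) l 1 = 1 ∧ (∀ h, ‖beta (ch χ1) (ch χ2) l h‖ ≤ h) ∧
    (∀ h, Hl l < h → beta (ch χ1) (ch χ2) l h = 0) ∧ 1 ≤ Hl l ∧ (Hl l : ℝ) ≤ Real.exp (2 * l) := by
  refine ⟨?_, ?_, ?_, ?_, ?_⟩
  · unfold beta
    rw [ArithmeticFunction.mul_apply, Nat.divisorsAntidiagonal_one, Finset.sum_singleton, T_Beta_MA_one,
      T_Beta_MA_one, one_mul]
  · intro h
    unfold beta
    rw [ArithmeticFunction.mul_apply]
    have h1 : ‖∑ x ∈ h.divisorsAntidiagonal, MA (ch χ1) 0 (1 / l) x.1 * MA (ch χ2) 0 (1 / l) x.2‖ ≤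
        ∑ x ∈ h.divisorsAntidiagonal, (1 : ℝ) := by
      refine norm_sum_le_of_le _ fun x _ => ?_
      rw [norm_mul]
      have a1 := T_Beta_MA_norm χ1 hl x.1
      have a2 := T_Beta_MA_norm χ2 hl x.2
      nlinarith [norm_nonneg (MA (ch χ1) 0 (1 / l) x.1), norm_nonneg (MA (ch χ2) 0 (1 / l) x.2)]
    refine h1.trans ?_
    rw [Finset.sum_const, nsmul_eq_mul, mul_one, Nat.cast_le]
    have h2 : h.divisorsAntidiagonal.card ≤ h.divisors.card := by
      rw [← Nat.map_div_right_divisors, Finset.card_map]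
    exact h2.trans (Nat.card_divisors_le_self h)
  · intro h hh
    unfold beta
    rw [ArithmeticFunction.mul_apply]
    apply Finset.sum_eq_zero
    intro x hx
    by_contra hne
    have a1 := T_Beta_MA_zero χ1 hl x.1 (left_ne_zero_of_mul hne)
    have a2 := T_Beta_MA_zero χ2 hl x.2 (right_ne_zero_of_mul hne)
    have hx' := (Nat.mem_divisorsAntidiagonal.1 hx).1
    have h3 : (h : ℝ) ≤ Real.exp (2 * l) := by
      rw [← hx', Nat.cast_mul, two_mul, Real.exp_add]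
      exact mul_le_mul a1 a2 (Nat.cast_nonneg _) (Real.exp_pos _).le
    have h4 : h ≤ Hl l := Nat.le_floor h3
    omega
  · apply Nat.le_floor
    rw [Nat.cast_one]
    exact Real.one_le_exp (by positivity)
  · exact Nat.floor_le (Real.exp_pos _).le

end OO

end

section

/-! # Row OE02: rotation of the line of integration -/

open Complex MeasureTheory Set Filter Topology
open scoped ComplexConjugate

namespace OO

private theorem E_rot_real {al : ℝ} (c : ℂ) {s : ℝ} (hs : 0 < s) :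
    (s : ℂ) * ∫ x in Ioi (0 : ℝ), exp (-((al : ℂ) / ((s : ℂ) * x)) - c * s * x) =
      ∫ x in Ioi (0 : ℝ), exp (-((al : ℂ) / x) - c * x) := by
  have h := MeasureTheory.integral_comp_mul_left_Ioi
    (fun y : ℝ => exp (-((al : ℂ) / y) - c * y)) 0 hs
  rw [mul_zero] at h
  have h2 : ∫ x in Ioi (0 : ℝ), exp (-((al : ℂ) / ((s : ℂ) * x)) - c * s * x) =
      ∫ x in Ioi (0 : ℝ), exp (-((al : ℂ) / ((s * x : ℝ) : ℂ)) - c * ((s * x : ℝ) : ℂ)) := by
    refine setIntegral_congr_fun measurableSet_Ioi (fun x _ => ?_)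
    simp only [ofReal_mul]
    congr 1
    ring
  rw [h2, h, Complex.real_smul, ofReal_inv, ← mul_assoc, mul_inv_cancel₀, one_mul]
  exact_mod_cast hs.ne'

/-- PROOF. `D = {t | 0 < t.re ∧ 0 < (c*t).re}` is open and convex (intersection of two half planes:
`convex_halfSpace_re_gt`-type, or directly), so preconnected; `1 ∈ D` since `0 < c.re`. Both sides, as functions of `t`:
the left side is constant, the right side `f t = t * ∫ ...` is differentiable on `D` (`E_rot_diff`), hence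
`AnalyticOnNhd ℂ f D` (`DifferentiableOn.analyticOnNhd`, `D` open). For real `t > 0` with `t ∈ D` (all real `t > 0` are in `D`)
the change of variables `y = t x` (`MeasureTheory.integral_comp_mul_left_Ioi`) gives `f t = ∫ exp (-(al/y) - c*y)`.
By the identity theorem (`AnalyticOnNhd.eqOn_of_preconnected_of_frequently_eq` at the point `1`; the real numbers `t > 1`
accumulate at `1`, e.g. via the sequence `1 + 1/(n+1)`) the equality holds on `D`. -/
theorem E_rot {al : ℝ} (hal : 0 < al) {c t : ℂ} (hc : 0 < c.re) (ht : 0 < t.re) (hct : 0 < (c * t).re) :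
    ∫ x in Ioi (0 : ℝ), exp (-((al : ℂ) / x) - c * x) =
      t * ∫ x in Ioi (0 : ℝ), exp (-((al : ℂ) / (t * x)) - c * t * x) := by
  have hDo : IsOpen {t : ℂ | 0 < t.re ∧ 0 < (c * t).re} :=
    (isOpen_lt continuous_const Complex.continuous_re).inter
      (isOpen_lt continuous_const (Complex.continuous_re.comp (continuous_const.mul continuous_id)))
  have hDc : Convex ℝ {t : ℂ | 0 < t.re ∧ 0 < (c * t).re} := by
    intro x hx y hy a b ha hb hab
    simp only [mem_setOf_eq] at hx hy ⊢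
    have e1 : (a • x + b • y).re = a * x.re + b * y.re := by simp
    have e2 : (c * (a • x + b • y)).re = a * (c * x).re + b * (c * y).re := by
      have : c * (a • x + b • y) = a • (c * x) + b • (c * y) := by
        rw [mul_add, mul_smul_comm, mul_smul_comm]
      rw [this]; simp
    rw [e1, e2]
    have key : ∀ u v : ℝ, 0 < u → 0 < v → 0 < a * u + b * v := by
      intro u v hu hv
      rcases ha.eq_or_lt with h | h
      · have hb1 : b = 1 := by linarith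
        rw [← h, hb1]; linarith
      · have := mul_pos h hu
        have := mul_nonneg hb hv.le
        linarith
    exact ⟨key _ _ hx.1 hy.1, key _ _ hx.2 hy.2⟩
  have h1 : (1 : ℂ) ∈ {t : ℂ | 0 < t.re ∧ 0 < (c * t).re} := by simp [hc]
  have hg : AnalyticOnNhd ℂ
      (fun t : ℂ => t * ∫ x in Ioi (0 : ℝ), exp (-((al : ℂ) / (t * x)) - c * t * x))
      {t : ℂ | 0 < t.re ∧ 0 < (c * t).re} :=
    (differentiableOn_id.mul (E_rot_diff hal c)).analyticOnNhd hDo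
  have hf : AnalyticOnNhd ℂ (fun _ : ℂ => ∫ x in Ioi (0 : ℝ), exp (-((al : ℂ) / x) - c * x))
      {t : ℂ | 0 < t.re ∧ 0 < (c * t).re} := analyticOnNhd_const
  have hmap : Tendsto (fun s : ℝ => (s : ℂ)) (𝓝[≠] (1 : ℝ)) (𝓝[≠] (1 : ℂ)) := by
    refine tendsto_nhdsWithin_iff.2 ⟨?_, ?_⟩
    · have := (Complex.continuous_ofReal.tendsto (1 : ℝ))
      rw [ofReal_one] at this
      exact this.mono_left nhdsWithin_le_nhds
    · filter_upwards [self_mem_nhdsWithin] with s hs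
      simp only [mem_compl_iff, mem_singleton_iff] at hs ⊢
      intro h
      exact hs (by exact_mod_cast h)
  have hfr : ∃ᶠ z : ℂ in 𝓝[≠] (1 : ℂ),
      (fun _ : ℂ => ∫ x in Ioi (0 : ℝ), exp (-((al : ℂ) / x) - c * x)) z =
      (fun t : ℂ => t * ∫ x in Ioi (0 : ℝ), exp (-((al : ℂ) / (t * x)) - c * t * x)) z := by
    refine hmap.frequently (Eventually.frequently ?_)
    have : ∀ᶠ s : ℝ in 𝓝[≠] (1 : ℝ), 0 < s :=
      (eventually_gt_nhds (zero_lt_one)).filter_mono nhdsWithin_le_nhds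
    filter_upwards [this] with s hs
    exact (E_rot_real c hs).symm
  exact AnalyticOnNhd.eqOn_of_preconnected_of_frequently_eq hf hg hDc.isPreconnected h1 hfr
    (show t ∈ {t : ℂ | 0 < t.re ∧ 0 < (c * t).re} from ⟨ht, hct⟩)

/-- PROOF. `E_rot` with `c = om + P` and `t = exp (-(π/6) I)` (`t.re = cos (π/6) > 0`, `(c*t).re = om cos (π/6) + (P*t).re > 0`);
`EK al om P = ∫ exp (-(al/x) - (om+P)*x)` by unfolding `Wt` (`ofReal_exp`, `exp_add`), and
`al/(t*x) = al * exp ((π/6) I)/x`. -/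
theorem E_ker_rot {al om : ℝ} (hal : 0 < al) (hom : 0 ≤ om) {P : ℂ} (hP : 0 < P.re)
    (hP' : 0 < (P * exp (-(((Real.pi / 6 : ℝ) : ℂ) * I))).re) :
    EK al om P = exp (-(((Real.pi / 6 : ℝ) : ℂ) * I)) * ∫ x in Ioi (0 : ℝ),
      exp (-((al : ℂ) * exp (((Real.pi / 6 : ℝ) : ℂ) * I) / x) - om * exp (-(((Real.pi / 6 : ℝ) : ℂ) * I)) * x
        - P * exp (-(((Real.pi / 6 : ℝ) : ℂ) * I)) * x) := by
  have htre : (exp (-(((Real.pi / 6 : ℝ) : ℂ) * I))).re = Real.cos (Real.pi / 6) := by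
    rw [exp_re]
    simp
  have ht0 : 0 < (exp (-(((Real.pi / 6 : ℝ) : ℂ) * I))).re := by
    rw [htre, Real.cos_pi_div_six]; positivity
  have hc : 0 < ((om : ℂ) + P).re := by
    rw [add_re, ofReal_re]; linarith
  have hct : 0 < (((om : ℂ) + P) * exp (-(((Real.pi / 6 : ℝ) : ℂ) * I))).re := by
    rw [add_mul, add_re, re_ofReal_mul]
    have := mul_nonneg hom ht0.le
    linarith
  have h := E_rot hal hc ht0 hct
  have h0 : EK al om P = ∫ x in Ioi (0 : ℝ), exp (-((al : ℂ) / x) - ((om : ℂ) + P) * x) := by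
    unfold EK
    refine setIntegral_congr_fun measurableSet_Ioi (fun x _ => ?_)
    simp only [Wt]
    rw [ofReal_exp, ← exp_add]
    congr 1
    push_cast
    ring
  rw [h0, h]
  congr 1
  refine setIntegral_congr_fun measurableSet_Ioi (fun x _ => ?_)
  show exp _ = exp _
  congr 1
  rw [exp_neg, div_mul_eq_div_div, div_inv_eq_mul]
  ring

end OO

end

section

/-!
# Row G_1b: one pair of divisors in the diagonal sum
-/

open Complex MeasureTheory Set Filter Topology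
open scoped ComplexConjugate

namespace OO

theorem G_1b_cp (r : ℝ) (hr : 0 < r) (z : ℂ) : (r : ℂ) ^ z = exp ((Real.log r : ℂ) * z) := by
  rw [Complex.cpow_def_of_ne_zero (by exact_mod_cast hr.ne'), ← Complex.ofReal_log hr.le]

theorem G_1b_div (x K : ℕ) (hx : 0 < x) (hK : 0 < K) (s : ℂ) :
    (((x : ℝ) / (K : ℝ) : ℝ) : ℂ) ^ (-s / 2) = (x : ℂ) ^ (-s / 2) * (K : ℂ) ^ (s / 2) := by
  have hx' : (0 : ℝ) < x := by exact_mod_cast hx
  have hK' : (0 : ℝ) < K := by exact_mod_cast hK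
  rw [G_1b_cp _ (by positivity)]
  have h1 : (x : ℂ) = ((x : ℝ) : ℂ) := by push_cast; rfl
  have h2 : (K : ℂ) = ((K : ℝ) : ℂ) := by push_cast; rfl
  rw [h1, h2, G_1b_cp _ hx', G_1b_cp _ hK', ← Complex.exp_add, Real.log_div hx'.ne' hK'.ne']
  congr 1
  push_cast
  ring

/-- the pointwise identity -/
theorem G_1b_pt (m n Q K K' : ℕ) (hQ : 0 < Q) (hK : 0 < K) (hK' : 0 < K') (hKn : K ∣ n) (hK'n : K' ∣ n)
    (hn : 0 < n) (h : n * Q = m * (K * K')) (s : ℂ) :
    (((m : ℝ) / (Q : ℝ) : ℝ) : ℂ) ^ (-s) = ((K : ℂ) ^ (s / 2) * (K' : ℂ) ^ (s / 2)) *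
      (((n / K' : ℕ) : ℂ) ^ (-s / 2) * ((n / K : ℕ) : ℂ) ^ (-s / 2)) := by
  have hQr : (Q : ℝ) ≠ 0 := by exact_mod_cast hQ.ne'
  have hKr : (K : ℝ) ≠ 0 := by exact_mod_cast hK.ne'
  have hKr' : (K' : ℝ) ≠ 0 := by exact_mod_cast hK'.ne'
  have hr : (n : ℝ) * Q = m * (K * K') := by exact_mod_cast h
  have c1 : ((n / K' : ℕ) : ℝ) = (n : ℝ) / K' := Nat.cast_div hK'n hKr'
  have c2 : ((n / K : ℕ) : ℝ) = (n : ℝ) / K := Nat.cast_div hKn hKr
  have e1 : (m : ℝ) / Q = ((n / K' : ℕ) : ℝ) / K := by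
    rw [c1]
    field_simp
    linarith
  have e2 : (m : ℝ) / Q = ((n / K : ℕ) : ℝ) / K' := by
    rw [c2]
    field_simp
    linarith
  have p1 : 0 < n / K' := Nat.div_pos (Nat.le_of_dvd hn hK'n) hK'
  have p2 : 0 < n / K := Nat.div_pos (Nat.le_of_dvd hn hKn) hK
  have hm : 0 < (m : ℝ) / Q := by
    rw [e1]
    have : (0 : ℝ) < ((n / K' : ℕ) : ℝ) := by exact_mod_cast p1
    have : (0 : ℝ) < K := by exact_mod_cast hK
    positivity
  have hne : (((m : ℝ) / (Q : ℝ) : ℝ) : ℂ) ≠ 0 := by exact_mod_cast hm.ne'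
  have hs : -s = -s / 2 + -s / 2 := by ring
  conv_lhs => rw [hs]
  rw [Complex.cpow_add _ _ hne]
  conv_lhs =>
    congr
    · rw [e1]
    · rw [e2]
  rw [G_1b_div _ _ p1 hK, G_1b_div _ _ p2 hK']
  ring

theorem G_1b_sum (a : ArithmeticFunction ℂ) (K K' : ℕ) (hK : 0 < K) (hK' : 0 < K')
    (ha : ∀ η : ℝ, 0 < η → ∃ B : ℝ, ∀ n : ℕ, ‖a n‖ ≤ B * (n : ℝ) ^ η) (s : ℂ) (hs : 1 < s.re) :
    Summable (fun n : ℕ => ‖(if K ∣ n ∧ K' ∣ n then (a (n / K') * ((n / K' : ℕ) : ℂ) ^ (-s / 2)) *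
      (conj (a (n / K)) * ((n / K : ℕ) : ℂ) ^ (-s / 2)) else 0)‖) := by
  obtain ⟨B, hB⟩ := ha ((s.re - 1) / 4) (by linarith)
  set η : ℝ := (s.re - 1) / 4 with hη
  set B' : ℝ := max B 0 with hB'
  have hB0 : 0 ≤ B' := le_max_right _ _
  have hBB : ∀ n : ℕ, ‖a n‖ ≤ B' * (n : ℝ) ^ η := fun n =>
    (hB n).trans (mul_le_mul_of_nonneg_right (le_max_left _ _) (Real.rpow_nonneg (Nat.cast_nonneg _) _))
  have key : ∀ x : ℕ, 0 < x → ‖a x * (x : ℂ) ^ (-s / 2)‖ ≤ B' * (x : ℝ) ^ (η - s.re / 2) := by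
    intro x hx
    have hx' : (0 : ℝ) < x := by exact_mod_cast hx
    have h1 : ‖(x : ℂ) ^ (-s / 2)‖ = (x : ℝ) ^ (-(s.re / 2)) := by
      rw [Complex.norm_natCast_cpow_of_pos hx]
      congr 1
      have : (-s / 2).re = -s.re / 2 := by
        rw [show (-s / 2 : ℂ) = (((1 / 2 : ℝ) : ℂ)) * (-s) by push_cast; ring, Complex.re_ofReal_mul, Complex.neg_re]
        ring
      rw [this]; ring
    rw [norm_mul, h1]
    calc ‖a x‖ * (x : ℝ) ^ (-(s.re / 2)) ≤ (B' * (x : ℝ) ^ η) * (x : ℝ) ^ (-(s.re / 2)) :=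
          mul_le_mul_of_nonneg_right (hBB x) (Real.rpow_nonneg hx'.le _)
      _ = B' * (x : ℝ) ^ (η - s.re / 2) := by
          rw [mul_assoc, ← Real.rpow_add hx']
          congr 2
  set c : ℝ := (K' : ℝ) ^ (-(η - s.re / 2)) * (K : ℝ) ^ (-(η - s.re / 2)) with hc
  have hsum : Summable (fun n : ℕ => B' * B' * c * (n : ℝ) ^ (2 * (η - s.re / 2))) := by
    apply Summable.mul_left
    rw [Real.summable_nat_rpow]
    rw [hη]
    linarith
  refine Summable.of_nonneg_of_le (fun n => norm_nonneg _) ?_ hsum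
  intro n
  by_cases hn : n = 0
  · subst hn
    simp only [dvd_zero, and_self, if_true, Nat.zero_div, ArithmeticFunction.map_zero, map_zero, zero_mul,
      norm_zero]
    have : 0 ≤ c := by positivity
    positivity
  split_ifs with h
  · have hnp : 0 < n := Nat.pos_of_ne_zero hn
    have p1 : 0 < n / K' := Nat.div_pos (Nat.le_of_dvd hnp h.2) hK'
    have p2 : 0 < n / K := Nat.div_pos (Nat.le_of_dvd hnp h.1) hK
    have hKr : (0 : ℝ) < K := by exact_mod_cast hK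
    have hKr' : (0 : ℝ) < K' := by exact_mod_cast hK'
    have hnr : (0 : ℝ) < n := by exact_mod_cast hnp
    have c1 : ((n / K' : ℕ) : ℝ) = (n : ℝ) / K' := Nat.cast_div h.2 hKr'.ne'
    have c2 : ((n / K : ℕ) : ℝ) = (n : ℝ) / K := Nat.cast_div h.1 hKr.ne'
    have k1 := key _ p1
    have k2 : ‖conj (a (n / K)) * ((n / K : ℕ) : ℂ) ^ (-s / 2)‖ ≤ B' * ((n / K : ℕ) : ℝ) ^ (η - s.re / 2) := by
      have := key _ p2
      rw [norm_mul] at this ⊢
      rwa [Complex.norm_conj]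
    rw [norm_mul]
    refine (mul_le_mul k1 k2 (norm_nonneg _) (by positivity)).trans (le_of_eq ?_)
    rw [c1, c2, Real.div_rpow hnr.le hKr'.le, Real.div_rpow hnr.le hKr.le, hc, Real.rpow_neg hKr'.le,
      Real.rpow_neg hKr.le, two_mul, Real.rpow_add hnr]
    ring
  · rw [norm_zero]
    have : 0 ≤ c := by positivity
    positivity

/-- For fixed `K, K'`: transport of the sum along `G_bij`. With `n = e m`: `m/Q = n/(K K')`, so
`(m/Q)^(-s) = (n/K')^(-s/2) (n/K)^(-s/2) K^(s/2) K'^(s/2)` and the term is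
`a(n/K') (n/K')^(-s/2) conj a(n/K) (n/K)^(-s/2) (K K')^(s/2)`.
Absolute convergence: `‖a n‖ ≤ B n^η` with `η = (re s - 1)/4`:
the term is at most `B² (n/K')^(η - σ/2) (n/K)^(η - σ/2) (KK')^(σ/2)`, `2η - σ < -1`.
(`Equiv.tsum_eq`, `tsum_subtype`-type lemmas or `Summable`/`HasSum` on subtypes and indicators;
`Equiv.summable_iff`.) -/
theorem G_pair (a : ArithmeticFunction ℂ) (Q K K' : ℕ) (hQ : 0 < Q) (hK : K ∣ Q) (hK' : K' ∣ Q)
    (ha : ∀ η : ℝ, 0 < η → ∃ B : ℝ, ∀ n : ℕ, ‖a n‖ ≤ B * (n : ℝ) ^ η) (s : ℂ) (hs : 1 < s.re) :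
    Summable (fun m : ℕ => ‖(if Q / K ∣ m ∧ Q / K' ∣ m then
      a (m * K / Q) * conj (a (m * K' / Q)) * (((m : ℝ) / (Q : ℝ) : ℝ) : ℂ) ^ (-s) else 0)‖) ∧
    Summable (fun n : ℕ => ‖(if K ∣ n ∧ K' ∣ n then (a (n / K') * ((n / K' : ℕ) : ℂ) ^ (-s / 2)) *
      (conj (a (n / K)) * ((n / K : ℕ) : ℂ) ^ (-s / 2)) else 0)‖) ∧
    ∑' m : ℕ, (if Q / K ∣ m ∧ Q / K' ∣ m then
      a (m * K / Q) * conj (a (m * K' / Q)) * (((m : ℝ) / (Q : ℝ) : ℝ) : ℂ) ^ (-s) else 0) =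
      ((K : ℂ) ^ (s / 2) * (K' : ℂ) ^ (s / 2)) *
        ∑' n : ℕ, (if K ∣ n ∧ K' ∣ n then (a (n / K') * ((n / K' : ℕ) : ℂ) ^ (-s / 2)) *
          (conj (a (n / K)) * ((n / K : ℕ) : ℂ) ^ (-s / 2)) else 0) := by
  have hK0 : 0 < K := Nat.pos_of_dvd_of_pos hK hQ
  have hK0' : 0 < K' := Nat.pos_of_dvd_of_pos hK' hQ
  set f : ℕ → ℂ := fun m => (if Q / K ∣ m ∧ Q / K' ∣ m then
      a (m * K / Q) * conj (a (m * K' / Q)) * (((m : ℝ) / (Q : ℝ) : ℝ) : ℂ) ^ (-s) else 0) with hf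
  set g : ℕ → ℂ := fun n => (if K ∣ n ∧ K' ∣ n then (a (n / K') * ((n / K' : ℕ) : ℂ) ^ (-s / 2)) *
      (conj (a (n / K)) * ((n / K : ℕ) : ℂ) ^ (-s / 2)) else 0) with hg
  set c : ℂ := (K : ℂ) ^ (s / 2) * (K' : ℂ) ^ (s / 2) with hc
  have hgs : Summable (fun n => ‖g n‖) := G_1b_sum a K K' hK0 hK0' ha s hs
  obtain ⟨e, he⟩ := G_bij Q K K' hQ hK hK'
  have hpt : ∀ m : {m : ℕ // 1 ≤ m ∧ Q / K ∣ m ∧ Q / K' ∣ m}, f m = c * g (e m) := by
    intro m
    obtain ⟨h1, h2, h3⟩ := he m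
    have hm := m.2
    have hn := (e m).2
    simp only [hf, hg]
    rw [if_pos hm.2, if_pos hn.2, G_1b_pt m (e m) Q K K' hQ hK0 hK0' hn.2.1 hn.2.2 hn.1 h3 s, ← h1, ← h2, hc]
    ring
  have iS : Function.Injective (fun m : {m : ℕ // 1 ≤ m ∧ Q / K ∣ m ∧ Q / K' ∣ m} => (m : ℕ)) :=
    Subtype.val_injective
  have iT : Function.Injective (fun m : {n : ℕ // 1 ≤ n ∧ K ∣ n ∧ K' ∣ n} => (m : ℕ)) :=
    Subtype.val_injective
  have fS : ∀ m, m ∉ Set.range (fun m : {m : ℕ // 1 ≤ m ∧ Q / K ∣ m ∧ Q / K' ∣ m} => (m : ℕ)) → f m = 0 := by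
    intro m hm
    simp only [hf]
    split_ifs with h
    · rcases Nat.eq_zero_or_pos m with h0 | h0
      · subst h0
        simp
      · exact absurd ⟨⟨m, h0, h⟩, rfl⟩ hm
    · rfl
  have gT : ∀ m, m ∉ Set.range (fun m : {n : ℕ // 1 ≤ n ∧ K ∣ n ∧ K' ∣ n} => (m : ℕ)) → g m = 0 := by
    intro m hm
    simp only [hg]
    split_ifs with h
    · rcases Nat.eq_zero_or_pos m with h0 | h0
      · subst h0
        simp
      · exact absurd ⟨⟨m, h0, h⟩, rfl⟩ hm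
    · rfl
  refine ⟨?_, hgs, ?_⟩
  · rw [← iS.summable_iff (f := fun m => ‖f m‖) (fun x hx => by simp only [fS x hx, norm_zero])]
    have h1 : Summable (fun n : {n : ℕ // 1 ≤ n ∧ K ∣ n ∧ K' ∣ n} => ‖c‖ * ‖g n‖) :=
      (hgs.comp_injective iT).mul_left _
    have h2 := (e.summable_iff (f := fun n : {n : ℕ // 1 ≤ n ∧ K ∣ n ∧ K' ∣ n} => ‖c‖ * ‖g n‖)).2 h1
    refine h2.congr fun m => ?_
    change ‖c‖ * ‖g (e m)‖ = ‖f m‖
    rw [hpt m]
    exact (norm_mul c _).symm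
  · have s1 : ∑' m : {m : ℕ // 1 ≤ m ∧ Q / K ∣ m ∧ Q / K' ∣ m}, f m = ∑' m, f m := by
      apply iS.tsum_eq
      intro m hm
      by_contra hcon
      exact hm (fS m hcon)
    have s2 : ∑' m : {n : ℕ // 1 ≤ n ∧ K ∣ n ∧ K' ∣ n}, g m = ∑' m, g m := by
      apply iT.tsum_eq
      intro m hm
      by_contra hcon
      exact hm (gT m hcon)
    rw [← s1, ← s2, ← e.tsum_eq, ← tsum_mul_left]
    exact tsum_congr hpt

end OO

end

section

/-!
# The absolute value of the Gauss sum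
-/

open Complex MeasureTheory Set Filter Topology

namespace OO

/-- the residues `1, ..., q` -/
theorem P18_aux_sum {q : ℕ} [NeZero q] (g : ZMod q → ℂ) :
    ∑ a ∈ Finset.Icc 1 q, g ((a : ℕ) : ZMod q) = ∑ x : ZMod q, g x := by
  refine Finset.sum_bij (fun a _ => ((a : ℕ) : ZMod q)) (fun a _ => Finset.mem_univ _) ?_ ?_ (fun a _ => rfl)
  · intro a ha b hb hab
    obtain ⟨ha1, ha2⟩ := Finset.mem_Icc.mp ha
    obtain ⟨hb1, hb2⟩ := Finset.mem_Icc.mp hb
    have h1 : a ≡ b [MOD q] := (ZMod.natCast_eq_natCast_iff a b q).mp hab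
    have h2 : a - 1 ≡ b - 1 [MOD q] := by
      have h3 : (a - 1) + 1 ≡ (b - 1) + 1 [MOD q] := by
        rwa [Nat.sub_add_cancel ha1, Nat.sub_add_cancel hb1]
      exact Nat.ModEq.add_right_cancel' 1 h3
    have h4 : a - 1 = b - 1 := Nat.ModEq.eq_of_lt_of_lt h2 (by omega) (by omega)
    omega
  · intro x _
    have hq := Nat.pos_of_ne_zero (NeZero.ne q)
    by_cases hx : x.val = 0
    · refine ⟨q, Finset.mem_Icc.mpr ⟨hq, le_rfl⟩, ?_⟩
      have : x = 0 := (ZMod.val_eq_zero x).mp hx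
      rw [this]
      exact ZMod.natCast_self q
    · exact ⟨x.val, Finset.mem_Icc.mpr ⟨Nat.pos_of_ne_zero hx, (ZMod.val_lt x).le⟩, ZMod.natCast_zmod_val x⟩

/-- the Gauss sum is the Fourier transform at 1 -/
theorem P18_dft {q : ℕ} [NeZero q] (χ : DirichletCharacter ℂ q) : tc χ = ZMod.dft χ 1 := by
  rw [ZMod.dft_apply]
  rw [← P18_aux_sum (fun x => ZMod.stdAddChar (-(x * 1)) • χ x)]
  unfold tc
  refine Finset.sum_congr rfl fun a _ => ?_
  rw [smul_eq_mul, mul_comm, mul_one]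
  congr 1
  have h1 : (-((a : ℕ) : ZMod q)) = ((-(a : ℤ) : ℤ) : ZMod q) := by push_cast; ring
  rw [h1, ZMod.stdAddChar_coe]
  congr 1
  push_cast
  ring

/-- `|τ|² = q` for a primitive character -/
theorem P18_norm {q : ℕ} [NeZero q] (χ : DirichletCharacter ℂ q) (hχ : χ.IsPrimitive) : ‖tc χ‖ ^ 2 = q := by
  set G : ℂ := gaussSum χ (ZMod.stdAddChar (N := q)) with hG
  have h1 : (ZMod.dft χ : ZMod q → ℂ) = fun k => (χ⁻¹ : DirichletCharacter ℂ q) (-k) * G := by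
    funext k
    exact DirichletCharacter.IsPrimitive.fourierTransform_eq_inv_mul_gaussSum hχ k
  have h2 : ZMod.dft (ZMod.dft χ : ZMod q → ℂ) (-1) = (q : ℂ) := by
    rw [ZMod.dft_dft]
    simp
  have h3 : ZMod.dft (ZMod.dft χ : ZMod q → ℂ) (-1) = ZMod.dft (χ⁻¹ : DirichletCharacter ℂ q) 1 * G := by
    rw [h1]
    have h4 := ZMod.dft_mul_const (fun k : ZMod q => (χ⁻¹ : DirichletCharacter ℂ q) (-k)) G
    rw [h4]
    have h5 := ZMod.dft_comp_neg (fun k : ZMod q => (χ⁻¹ : DirichletCharacter ℂ q) k)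
    simp only [h5, neg_neg]
  have h6 : ZMod.dft (χ⁻¹ : DirichletCharacter ℂ q) 1 = star G := by
    rw [hG, star_gaussSum_eq, ZMod.dft_apply]
    unfold gaussSum
    refine Finset.sum_congr rfl fun x _ => ?_
    rw [smul_eq_mul, mul_one, mul_comm, AddChar.inv_apply]
  have h7 : star G * G = (q : ℂ) := by rw [← h6, ← h3, h2]
  have h8 : ‖G‖ ^ 2 = q := by
    have h9 : (starRingEnd ℂ) G * G = ((‖G‖ ^ 2 : ℝ) : ℂ) := by
      rw [mul_comm, Complex.mul_conj, Complex.normSq_eq_norm_sq]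
    have h10 : ((‖G‖ ^ 2 : ℝ) : ℂ) = ((q : ℝ) : ℂ) := by
      rw [← h9]; exact_mod_cast h7
    exact_mod_cast h10
  have h11 : tc χ = (χ⁻¹ : DirichletCharacter ℂ q) (-1) * G := by
    rw [P18_dft, h1]
  have h12 : ‖(χ⁻¹ : DirichletCharacter ℂ q) (-1)‖ = 1 := by
    have hu : IsUnit (-1 : ZMod q) := isUnit_one.neg
    obtain ⟨u, hu'⟩ := hu
    rw [← hu']
    exact DirichletCharacter.unit_norm_eq_one _ u
  rw [h11, norm_mul, h12, one_mul, h8]

end OO

end

section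

/-! # Row OE09: the coefficients of the diagonal sum -/

open Complex MeasureTheory Set Filter Topology
open scoped ComplexConjugate

namespace OO

/-- PROOF. Let `Q = H!`, `1 ≤ k ≤ H`, so `k ∣ Q` (`Nat.dvd_factorial`) and `Q/k ∣ m ↔ Q ∣ m*k`. If this fails then `Q*h ∣ m*k` fails for every `h`. If
`N = m*k/Q`: `(b*lam) N = ∑ x ∈ divisorsAntidiagonal N, b x.1 * lam x.2` (`ArithmeticFunction.mul_apply`). For `N ≥ 1` rewrite as a sum over `h = x.1`
(`Nat.sum_divisorsAntidiagonal`: `∑ h ∈ N.divisors, b h * lam (N/h)`), terms with `h > H` vanish, `h ≤ H, h ∣ N ↔ Q*h ∣ m*k`, and `N/h = m*k/(Q*h)` (`Nat.div_div_eq_div_mul`).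
For `N = 0` (i.e. `m = 0`) both sides are `0` (`lam 0 = 0`). -/
theorem E_Cm (b lam : ArithmeticFunction ℂ) {H : ℕ} (hb : ∀ h, H < h → b h = 0) (m : ℕ) :
    Cm H (b * lam : ArithmeticFunction ℂ) (cj b) m = ∑ h ∈ Finset.Icc 1 H, ∑ k ∈ Finset.Icc 1 H, b h * conj (b k) / k *
      (if H.factorial * h ∣ m * k then lam (m * k / (H.factorial * h)) else 0) := by
  classical
  unfold Cm
  rw [Finset.sum_comm]
  apply Finset.sum_congr rfl
  intro k hk
  rw [Finset.mem_Icc] at hk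
  have hQ : 0 < H.factorial := Nat.factorial_pos H
  have hkQ : k ∣ H.factorial := Nat.dvd_factorial hk.1 hk.2
  have hk0 : 0 < k := hk.1
  have hiff : (H.factorial / k ∣ m) ↔ H.factorial ∣ m * k := by
    constructor
    · intro h
      have := Nat.mul_dvd_mul_right h k
      rwa [Nat.div_mul_cancel hkQ] at this
    · intro h
      rw [← Nat.div_mul_cancel hkQ] at h
      exact Nat.dvd_of_mul_dvd_mul_right hk0 h
  show (if H.factorial / k ∣ m then (b * lam) (m * k / H.factorial) * conj (b k) / k else 0) = _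
  by_cases hd : H.factorial ∣ m * k
  swap
  · rw [if_neg (fun h => hd (hiff.1 h))]
    symm
    apply Finset.sum_eq_zero
    intro h _
    rw [if_neg (fun h' => hd (dvd_trans (Dvd.intro _ rfl) h'))]
    simp
  rw [if_pos (hiff.2 hd)]
  obtain ⟨N, hN⟩ := hd
  have hN' : m * k / H.factorial = N := by rw [hN, Nat.mul_div_cancel_left _ hQ]
  have hdiv : ∀ h, (H.factorial * h ∣ m * k) ↔ h ∣ N := by
    intro h
    rw [hN]
    exact Nat.mul_dvd_mul_iff_left hQ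
  have hquo : ∀ h, m * k / (H.factorial * h) = N / h := by
    intro h
    rw [← Nat.div_div_eq_div_mul, hN']
  rw [hN']
  have hsum : ∑ h ∈ Finset.Icc 1 H, b h * (if h ∣ N then lam (N / h) else 0) = (b * lam) N := by
    rcases Nat.eq_zero_or_pos N with h0 | hpos
    · subst h0
      rw [ArithmeticFunction.map_zero]
      apply Finset.sum_eq_zero
      intro h _
      simp
    · rw [ArithmeticFunction.mul_apply, Nat.sum_divisorsAntidiagonal (fun x y => b x * lam y)]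
      have e1 : ∑ h ∈ Finset.Icc 1 H, b h * (if h ∣ N then lam (N / h) else 0) =
          ∑ h ∈ (Finset.Icc 1 H).filter (fun h => h ∣ N), b h * lam (N / h) := by
        rw [Finset.sum_filter]
        apply Finset.sum_congr rfl
        intro h _
        split_ifs <;> simp
      rw [e1]
      apply Finset.sum_subset
      · intro h hh
        rw [Finset.mem_filter] at hh
        exact Nat.mem_divisors.2 ⟨hh.2, by omega⟩
      · intro h hh hnot
        rw [Nat.mem_divisors] at hh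
        have h1 : 1 ≤ h := Nat.pos_of_dvd_of_pos hh.1 hpos
        have h2 : H < h := by
          by_contra hcon
          exact hnot (Finset.mem_filter.2 ⟨Finset.mem_Icc.2 ⟨h1, by omega⟩, hh.1⟩)
        rw [hb h h2, zero_mul]
  rw [← hsum, Finset.sum_mul, Finset.sum_div]
  apply Finset.sum_congr rfl
  intro h _
  rw [hquo]
  by_cases hh : h ∣ N
  · rw [if_pos hh, if_pos ((hdiv h).2 hh)]
    ring
  · rw [if_neg hh, if_neg (fun h' => hh ((hdiv h).1 h'))]
    ring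

end OO

end

section

/-!
# Row G_2b: the Dirichlet series of the diagonal sum
-/

open Complex MeasureTheory Set Filter Topology
open scoped ComplexConjugate

namespace OO

/-- the term of the pair `K, K'`, side of `m` -/
noncomputable def G_2b_t (a : ArithmeticFunction ℂ) (Q K K' : ℕ) (s : ℂ) (m : ℕ) : ℂ :=
  if Q / K ∣ m ∧ Q / K' ∣ m then
      a (m * K / Q) * conj (a (m * K' / Q)) * (((m : ℝ) / (Q : ℝ) : ℝ) : ℂ) ^ (-s) else 0

/-- the term of the pair `K, K'`, side of `n` -/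
noncomputable def G_2b_u (a : ArithmeticFunction ℂ) (K K' : ℕ) (s : ℂ) (n : ℕ) : ℂ :=
  if K ∣ n ∧ K' ∣ n then (a (n / K') * ((n / K' : ℕ) : ℂ) ^ (-s / 2)) *
      (conj (a (n / K)) * ((n / K : ℕ) : ℂ) ^ (-s / 2)) else 0

theorem G_2b_dvd {K0 K : ℕ} (hK : K ∈ Finset.Icc 1 K0) : K ∣ K0.factorial := by
  rw [Finset.mem_Icc] at hK
  exact Nat.dvd_factorial (by omega) hK.2

/-- the weighted square -/
theorem G_2b_sq (a b : ArithmeticFunction ℂ) (K0 : ℕ) (s : ℂ) (m : ℕ) :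
    ((‖Cm K0 a b m‖ ^ 2 : ℝ) : ℂ) * (((m : ℝ) / (K0.factorial : ℝ) : ℝ) : ℂ) ^ (-s) =
      ∑ K ∈ Finset.Icc 1 K0, ∑ K' ∈ Finset.Icc 1 K0,
        G_2b_t a K0.factorial K K' s m * (b K / K * (conj (b K') / K')) := by
  rw [G_sq, Finset.sum_mul]
  refine Finset.sum_congr rfl fun K _ => ?_
  rw [Finset.sum_mul]
  refine Finset.sum_congr rfl fun K' _ => ?_
  unfold G_2b_t
  split_ifs
  · ring
  · rw [zero_mul, zero_mul]

theorem G_2b_pow {K : ℕ} (hK : 1 ≤ K) (s : ℂ) (x : ℂ) : x / K * (K : ℂ) ^ (s / 2) = x * (K : ℂ) ^ (-1 + s / 2) := by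
  have h : (K : ℂ) ≠ 0 := by
    have : K ≠ 0 := by omega
    exact_mod_cast this
  rw [Complex.cpow_add _ _ h, Complex.cpow_neg_one]
  ring

/-- `G_sq`, `G_conv`, `G_pair` for every pair `K, K'` (`Finset` sums and `∑'` exchanged);
`K^(s/2) / K = K^(-1+s/2)`. Summability of `‖Cm m‖^2 (m/Q)^(-σ)`: `G_sq` times `(m/Q)^(-σ)` is a finite sum
of summable functions (`G_pair` with the real exponent `s = σ`), take real parts / norms. -/
theorem DS_series (a b : ArithmeticFunction ℂ) (K0 : ℕ) (hb : ∀ k, K0 < k → b k = 0) (s : ℂ) (hs : 1 < s.re)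
    (ha : ∀ η : ℝ, 0 < η → ∃ B : ℝ, ∀ n : ℕ, ‖a n‖ ≤ B * (n : ℝ) ^ η) :
    Summable (fun m : ℕ => ‖Cm K0 a b m‖ ^ 2 * ((m : ℝ) / (K0.factorial : ℝ)) ^ (-s.re)) ∧
    ∑' m : ℕ, (‖Cm K0 a b m‖ ^ 2 : ℝ) * (((m : ℝ) / (K0.factorial : ℝ) : ℝ) : ℂ) ^ (-s) =
      ∑' n : ℕ, (tw a (-s / 2) * tw (cj b) (-1 + s / 2)) n * (tw (cj a) (-s / 2) * tw b (-1 + s / 2)) n := by
  have hQ : 0 < K0.factorial := Nat.factorial_pos K0
  have hT : ∀ s' : ℂ, 1 < s'.re → ∀ K ∈ Finset.Icc 1 K0, ∀ K' ∈ Finset.Icc 1 K0,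
      Summable (fun m : ℕ => G_2b_t a K0.factorial K K' s' m * (b K / K * (conj (b K') / K'))) := by
    intro s' hs' K hK K' hK'
    have h := (G_pair a K0.factorial K K' hQ (G_2b_dvd hK) (G_2b_dvd hK') ha s' hs').1
    exact (Summable.of_norm h).mul_right _
  refine ⟨?_, ?_⟩
  · have h1 : Summable (fun m : ℕ => ((‖Cm K0 a b m‖ ^ 2 : ℝ) : ℂ) *
        (((m : ℝ) / (K0.factorial : ℝ) : ℝ) : ℂ) ^ (-((s.re : ℝ) : ℂ))) := by
      simp only [G_2b_sq]
      refine summable_sum fun K hK => summable_sum fun K' hK' => ?_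
      exact hT _ (by rw [Complex.ofReal_re]; exact hs) K hK K' hK'
    have h2 : (fun m : ℕ => ((‖Cm K0 a b m‖ ^ 2 : ℝ) : ℂ) *
        (((m : ℝ) / (K0.factorial : ℝ) : ℝ) : ℂ) ^ (-((s.re : ℝ) : ℂ))) =
        fun m : ℕ => ((‖Cm K0 a b m‖ ^ 2 * ((m : ℝ) / (K0.factorial : ℝ)) ^ (-s.re) : ℝ) : ℂ) := by
      funext m
      have h3 : (0 : ℝ) ≤ (m : ℝ) / (K0.factorial : ℝ) := by positivity
      rw [Complex.ofReal_mul, Complex.ofReal_cpow h3, Complex.ofReal_neg]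
    rw [h2] at h1
    exact Complex.summable_ofReal.1 h1
  · have h1 : ∑' m : ℕ, (‖Cm K0 a b m‖ ^ 2 : ℝ) * (((m : ℝ) / (K0.factorial : ℝ) : ℝ) : ℂ) ^ (-s) =
        ∑ K ∈ Finset.Icc 1 K0, ∑ K' ∈ Finset.Icc 1 K0,
          (∑' m : ℕ, G_2b_t a K0.factorial K K' s m) * (b K / K * (conj (b K') / K')) := by
      simp only [G_2b_sq]
      rw [Summable.tsum_finsetSum fun K hK => summable_sum fun K' hK' => hT s hs K hK K' hK']
      refine Finset.sum_congr rfl fun K hK => ?_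
      rw [Summable.tsum_finsetSum fun K' hK' => hT s hs K hK K' hK']
      refine Finset.sum_congr rfl fun K' hK' => ?_
      rw [tsum_mul_right]
    have hU : ∀ K ∈ Finset.Icc 1 K0, ∀ K' ∈ Finset.Icc 1 K0,
        Summable (fun n : ℕ => G_2b_u a K K' s n *
          (b K * (K : ℂ) ^ (-1 + s / 2) * (conj (b K') * (K' : ℂ) ^ (-1 + s / 2)))) := by
      intro K hK K' hK'
      have h := (G_pair a K0.factorial K K' hQ (G_2b_dvd hK) (G_2b_dvd hK') ha s hs).2.1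
      exact (Summable.of_norm h).mul_right _
    have h2 : ∑' n : ℕ, (tw a (-s / 2) * tw (cj b) (-1 + s / 2)) n * (tw (cj a) (-s / 2) * tw b (-1 + s / 2)) n =
        ∑ K ∈ Finset.Icc 1 K0, ∑ K' ∈ Finset.Icc 1 K0,
          (∑' n : ℕ, G_2b_u a K K' s n) *
            (b K * (K : ℂ) ^ (-1 + s / 2) * (conj (b K') * (K' : ℂ) ^ (-1 + s / 2))) := by
      have h3 : ∀ n : ℕ, (tw a (-s / 2) * tw (cj b) (-1 + s / 2)) n * (tw (cj a) (-s / 2) * tw b (-1 + s / 2)) n =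
          ∑ K ∈ Finset.Icc 1 K0, ∑ K' ∈ Finset.Icc 1 K0, G_2b_u a K K' s n *
            (b K * (K : ℂ) ^ (-1 + s / 2) * (conj (b K') * (K' : ℂ) ^ (-1 + s / 2))) :=
        fun n => G_conv a b K0 hb s n
      simp only [h3]
      rw [Summable.tsum_finsetSum fun K hK => summable_sum fun K' hK' => hU K hK K' hK']
      refine Finset.sum_congr rfl fun K hK => ?_
      rw [Summable.tsum_finsetSum fun K' hK' => hU K hK K' hK']
      refine Finset.sum_congr rfl fun K' hK' => ?_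
      rw [tsum_mul_right]
    rw [h1, h2]
    refine Finset.sum_congr rfl fun K hK => Finset.sum_congr rfl fun K' hK' => ?_
    have h4 : ∑' m : ℕ, G_2b_t a K0.factorial K K' s m =
        ((K : ℂ) ^ (s / 2) * (K' : ℂ) ^ (s / 2)) * ∑' n : ℕ, G_2b_u a K K' s n :=
      (G_pair a K0.factorial K K' hQ (G_2b_dvd hK) (G_2b_dvd hK') ha s hs).2.2
    rw [h4]
    have h5 := G_2b_pow (Finset.mem_Icc.1 hK).1 s (b K)
    have h6 := G_2b_pow (Finset.mem_Icc.1 hK').1 s (conj (b K'))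
    rw [← h5, ← h6]
    ring

end OO

end

section

/-!
# Row OP07a: `g` is the sum over the poles
-/

open Complex MeasureTheory Set Filter Topology
open scoped ComplexConjugate

namespace OO

theorem P07a_aux_zz (ε : ℝ) : zz ε = I * exp (-(ε * I)) := by
  unfold zz
  have h : ((Real.pi / 2 - ε : ℝ) : ℂ) * I = (Real.pi / 2 : ℂ) * I + (-(ε * I)) := by
    push_cast
    ring
  rw [h, exp_add, Complex.exp_pi_div_two_mul_I]

theorem P07a_aux_term (bh bk fu wu t f2m E x : ℂ) (h k u m q : ℕ) (hh : 1 ≤ h) (hk : 1 ≤ k) (hu : 1 ≤ u) (hq : 1 ≤ q) :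
    bh * bk / k * (fu * wu * (t / (2 * Real.pi * q) * (f2m / (u * (I * E * x * h / k) - I * m / q)))) =
      t / (2 * Real.pi * I * q) * (bh * bk * wu * fu * f2m / ((u * h : ℕ) : ℂ) /
        (x * E - ((((m * k : ℕ) : ℚ) / ((u * h : ℕ) : ℚ) : ℚ) : ℝ) / q)) := by
  have hh' : (h : ℂ) ≠ 0 := by exact_mod_cast (by omega : h ≠ 0)
  have hk' : (k : ℂ) ≠ 0 := by exact_mod_cast (by omega : k ≠ 0)
  have hu' : (u : ℂ) ≠ 0 := by exact_mod_cast (by omega : u ≠ 0)
  have hq' : (q : ℂ) ≠ 0 := by exact_mod_cast (by omega : q ≠ 0)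
  have hpi : (Real.pi : ℂ) ≠ 0 := by exact_mod_cast Real.pi_ne_zero
  have hI : (I : ℂ) ≠ 0 := I_ne_zero
  have e0 : (((((m * k : ℕ) : ℚ) / ((u * h : ℕ) : ℚ) : ℚ) : ℝ) : ℂ) = (m * k : ℂ) / (u * h) := by
    push_cast
    ring
  rw [e0]
  have e1 : (u : ℂ) * (I * E * x * h / k) - I * m / q = I * (u * h / k) * (x * E - (m * k : ℂ) / (u * h) / q) := by
    field_simp
  rw [e1]
  rw [div_eq_mul_inv f2m, mul_inv, div_eq_mul_inv _ (x * E - (m * k : ℂ) / (u * h) / q)]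
  generalize (x * E - (m * k : ℂ) / (u * h) / q)⁻¹ = D
  push_cast
  field_simp

/-- OP07a. (algebra) PROOF. `zz ε = i exp(-iε)` and `ξ = m k/(u h)`: `u (zz ε x h/k) - i m/q = i (u h/k) (x exp(-iε) - ξ/q)`, so
`1/k · 1/(u (zz ε x h/k) - i m/q) = (1/i) 1/(u h) · 1/(x exp(-iε) - ξ/q)`; summed over `(h,k,u,m)` (`Finset.sum_product`, `Finset.mul_sum`). -/
theorem P07_alg (b f f2 : ℕ → ℂ) (wt : ℝ → ℝ) (H U M q : ℕ) (hq : 1 ≤ q) (ε x : ℝ) (t : ℂ) (hε : 0 < ε) (hε1 : ε ≤ 1) (hx : 0 < x) :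
    ∑ h ∈ Finset.Icc 1 H, ∑ k ∈ Finset.Icc 1 H, b h * conj (b k) / k * ∑ u ∈ Finset.Icc 1 U, f u * (wt u : ℂ) *
      (t / (2 * Real.pi * q) * ∑ m ∈ Finset.Icc 1 M, f2 m / (u * (zz ε * x * h / k) - I * m / q)) =
    t / (2 * Real.pi * I * q) * PS H U M q b f f2 wt ε x := by
  unfold PS PJ
  rw [Finset.sum_product, Finset.mul_sum]
  apply Finset.sum_congr rfl
  intro h hh
  rw [Finset.sum_product, Finset.mul_sum]
  apply Finset.sum_congr rfl
  intro k hk
  rw [Finset.sum_product, Finset.mul_sum, Finset.mul_sum]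
  apply Finset.sum_congr rfl
  intro u hu
  simp only [Finset.mul_sum]
  apply Finset.sum_congr rfl
  intro m hm
  rw [P07a_aux_zz]
  have := P07a_aux_term (b h) (conj (b k)) (f u) (wt u) t (f2 m) (exp (-(ε * I))) x h k u m q
    (Finset.mem_Icc.mp hh).1 (Finset.mem_Icc.mp hk).1 (Finset.mem_Icc.mp hu).1 hq
  rw [this]
  unfold pc px
  push_cast
  rfl

end OO

end
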