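import Pool.Agent.Lib.MP_0f5a55_nt.OM.K000
import Pool.Agent.Lib.MP_0f5a55_nt.OM.K003
import Pool.Agent.Lib.MP_0f5a55_nt.OM.K004

section

/-!
# Blocks T, X: further definitions
-/

open Complex MeasureTheory Set Filter Topology
open scoped ComplexConjugate

namespace OO

variable {q1 q2 : ℕ}

/-- `L(s,χ1) L(s,χ2)` -/
noncomputable def T_LL [NeZero q1] [NeZero q2] (χ1 : DirichletCharacter ℂ q1)
    (χ2 : DirichletCharacter ℂ q2) (s : ℂ) : ℂ := LX.Lf χ1 s * LX.Lf χ2 s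

/-- `(2π)^{-s} Γ(s) i^{-s}` -/
noncomputable def T_Gi (s : ℂ) : ℂ :=
  ((2 * Real.pi : ℝ) : ℂ) ^ (-s) * Gamma s * exp (-(((Real.pi / 2 : ℝ) : ℂ) * I * s))

/-- half the logarithm of the product of the moduli -/
noncomputable def T_psi (q1 q2 : ℕ) : ℝ := Real.log (q1 * q2) / 2

/-- the sign `χ(-1)` as a real number -/
noncomputable def T_kp {q : ℕ} (χ : DirichletCharacter ℂ q) : ℝ := (χ (-1)).re

/-- phase correction -/
noncomputable def T_sg (χ1 : DirichletCharacter ℂ q1) (χ2 : DirichletCharacter ℂ q2) (t : ℝ) : ℂ :=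
  exp ((((T_kp χ1 + T_kp χ2) / 2 * Real.arctan (Real.exp (-(Real.pi * t))) : ℝ) : ℂ) * I)

/-- `U(t) = c e^{iψt} sg(t) (2π)^{-s} Γ(s) i^{-s}`, `s = 1/2 + it` -/
noncomputable def T_U (c : ℂ) (χ1 : DirichletCharacter ℂ q1) (χ2 : DirichletCharacter ℂ q2)
    (t : ℝ) : ℂ :=
  c * exp (((T_psi q1 q2 * t : ℝ) : ℂ) * I) * T_sg χ1 χ2 t * T_Gi (1 / 2 + t * I)

/-- `c` has modulus one and makes `U L1 L2` real on the critical line -/
def T_good [NeZero q1] [NeZero q2] (c : ℂ) (χ1 : DirichletCharacter ℂ q1)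
    (χ2 : DirichletCharacter ℂ q2) : Prop :=
  ‖c‖ = 1 ∧ ∀ t : ℝ, (T_U c χ1 χ2 t * T_LL χ1 χ2 (1 / 2 + t * I)).im = 0

/-- `r0(t) = e^{-εt} U(t) L1 L2(1/2+it)` (real part) -/
noncomputable def T_r0 [NeZero q1] [NeZero q2] (c : ℂ) (χ1 : DirichletCharacter ℂ q1)
    (χ2 : DirichletCharacter ℂ q2) (ε t : ℝ) : ℝ :=
  Real.exp (-(ε * t)) * (T_U c χ1 χ2 t * T_LL χ1 χ2 (1 / 2 + t * I)).re

/-- `r(t) = r0(t) |φ(1/2+it)|²` -/
noncomputable def T_r [NeZero q1] [NeZero q2] (c : ℂ) (χ1 : DirichletCharacter ℂ q1)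
    (χ2 : DirichletCharacter ℂ q2) (b : ℕ → ℂ) (H : ℕ) (ε t : ℝ) : ℝ :=
  T_r0 c χ1 χ2 ε t * ‖phi b H (1 / 2 + t * I)‖ ^ 2

/-- Fourier transform `∫ exp (-2 π i t ξ) f(t) dt` -/
noncomputable def T_ft (f : ℝ → ℂ) (ξ : ℝ) : ℂ :=
  ∫ t : ℝ, exp (((-(2 * Real.pi * t * ξ) : ℝ) : ℂ) * I) * f t

end OO

end

section

/-!
# Blocks T, X with shifts: definitions
-/

open Complex MeasureTheory Set Filter Topology
open scoped ComplexConjugate

namespace OO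

variable {q1 q2 : ℕ}

/-- `L(s + iy, χ1) L(s - iy, χ2)` -/
noncomputable def T_LL3 [NeZero q1] [NeZero q2] (χ1 : DirichletCharacter ℂ q1)
    (χ2 : DirichletCharacter ℂ q2) (y : ℝ) (s : ℂ) : ℂ := LX.Lf χ1 (s + y * I) * LX.Lf χ2 (s - y * I)

/-- `M(s) = (2π)^{-s} Γ(s) z^{-s} L1(s + iy) L2(s - iy) φ(s) φ*(1-s)` -/
noncomputable def MM3 [NeZero q1] [NeZero q2] (χ1 : DirichletCharacter ℂ q1)
    (χ2 : DirichletCharacter ℂ q2) (y : ℝ) (b : ℕ → ℂ) (H : ℕ) (ε : ℝ) (s : ℂ) : ℂ :=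
  ((2 * Real.pi : ℝ) : ℂ) ^ (-s) * Gamma s * exp (-(((Real.pi / 2 - ε : ℝ) : ℂ) * I * s)) *
    T_LL3 χ1 χ2 y s * phi b H s * phi (fun n => conj (b n)) H (1 - s)

/-- `exp (-π t)` -/
noncomputable def T_E3 (t : ℝ) : ℝ := Real.exp (-(Real.pi * t))

/-- phase correction with shifts -/
noncomputable def T_sg3 (χ1 : DirichletCharacter ℂ q1) (χ2 : DirichletCharacter ℂ q2) (y t : ℝ) : ℂ :=
  exp (((T_kp χ1 / 2 * Real.arctan (T_E3 (t + y)) + T_kp χ2 / 2 * Real.arctan (T_E3 (t - y)) : ℝ) : ℂ) * I)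

/-- `g` is a continuous square root of the phase of `T_Gi(1/2 + i(t+y)) T_Gi(1/2 + i(t-y)) / T_Gi(1/2 + it)^2` -/
def T_hroot3 (y : ℝ) (g : ℝ → ℂ) : Prop :=
  Continuous g ∧ (∀ t, ‖g t‖ = 1) ∧
    (∀ t : ℝ, ∃ ρ : ℝ, 0 < ρ ∧ T_Gi (1 / 2 + ((t + y : ℝ) : ℂ) * I) * T_Gi (1 / 2 + ((t - y : ℝ) : ℂ) * I) =
      (ρ : ℂ) * g t ^ 2 * T_Gi (1 / 2 + t * I) ^ 2) ∧
    ∃ C : ℝ, 0 < C ∧ ∀ t : ℝ, 1 ≤ t → ‖g t - 1‖ ≤ C / t

/-- `U(t) = c e^{iψt} sg(t) g(t) (2π)^{-s} Γ(s) i^{-s}`, `s = 1/2 + it` -/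
noncomputable def T_U3 (c : ℂ) (χ1 : DirichletCharacter ℂ q1) (χ2 : DirichletCharacter ℂ q2) (y : ℝ) (g : ℝ → ℂ)
    (t : ℝ) : ℂ :=
  c * exp (((T_psi q1 q2 * t : ℝ) : ℂ) * I) * T_sg3 χ1 χ2 y t * g t * T_Gi (1 / 2 + t * I)

/-- `c` has modulus one and makes `U L1 L2` real on the critical line -/
def T_good3 [NeZero q1] [NeZero q2] (c : ℂ) (χ1 : DirichletCharacter ℂ q1)
    (χ2 : DirichletCharacter ℂ q2) (y : ℝ) (g : ℝ → ℂ) : Prop :=
  ‖c‖ = 1 ∧ ∀ t : ℝ, (T_U3 c χ1 χ2 y g t * T_LL3 χ1 χ2 y (1 / 2 + t * I)).im = 0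

/-- `r0(t) = e^{-εt} U(t) L1(1/2 + i(t+y)) L2(1/2 + i(t-y))` (real part) -/
noncomputable def T_r03 [NeZero q1] [NeZero q2] (c : ℂ) (χ1 : DirichletCharacter ℂ q1)
    (χ2 : DirichletCharacter ℂ q2) (y : ℝ) (g : ℝ → ℂ) (ε t : ℝ) : ℝ :=
  Real.exp (-(ε * t)) * (T_U3 c χ1 χ2 y g t * T_LL3 χ1 χ2 y (1 / 2 + t * I)).re

/-- `r(t) = r0(t) |φ(1/2+it)|²` -/
noncomputable def T_r3 [NeZero q1] [NeZero q2] (c : ℂ) (χ1 : DirichletCharacter ℂ q1)
    (χ2 : DirichletCharacter ℂ q2) (y : ℝ) (g : ℝ → ℂ) (b : ℕ → ℂ) (H : ℕ) (ε t : ℝ) : ℝ :=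
  T_r03 c χ1 χ2 y g ε t * ‖phi b H (1 / 2 + t * I)‖ ^ 2

theorem T_LL3_line [NeZero q1] [NeZero q2] (χ1 : DirichletCharacter ℂ q1) (χ2 : DirichletCharacter ℂ q2) (y t : ℝ) :
    T_LL3 χ1 χ2 y (1 / 2 + t * I) =
      LX.Lf χ1 (1 / 2 + ((t + y : ℝ) : ℂ) * I) * LX.Lf χ2 (1 / 2 + ((t - y : ℝ) : ℂ) * I) := by
  have e1 : (1 / 2 + (t : ℂ) * I) + y * I = 1 / 2 + ((t + y : ℝ) : ℂ) * I := by push_cast; ring
  have e2 : (1 / 2 + (t : ℂ) * I) - y * I = 1 / 2 + ((t - y : ℝ) : ℂ) * I := by push_cast; ring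
  unfold T_LL3
  rw [e1, e2]

end OO

end

section

open Complex MeasureTheory Set Filter Topology
open scoped ComplexConjugate

namespace OO

variable {q1 q2 : ℕ}

theorem T_Ent_E [NeZero q1] [NeZero q2] (χ1 : DirichletCharacter ℂ q1) (χ2 : DirichletCharacter ℂ q2)
    (hne : ¬ (χ1 = 1 ∧ χ2 = 1)) :
    ∃ E : ℂ → ℂ, Differentiable ℂ E ∧ (∀ s : ℂ, s ≠ 1 → E s = (s - 1) * T_LL χ1 χ2 s) := by
  by_cases h1 : χ1 = 1
  · have h2 : χ2 ≠ 1 := fun h => hne ⟨h1, h⟩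
    refine ⟨fun s => DirichletCharacter.LFunctionTrivChar₁ q1 s * DirichletCharacter.LFunction χ2 s,
      (DirichletCharacter.differentiable_LFunctionTrivChar₁ q1).mul (DirichletCharacter.differentiable_LFunction h2), ?_⟩
    intro s hs
    have e1 : DirichletCharacter.LFunctionTrivChar₁ q1 s = (s - 1) * DirichletCharacter.LFunctionTrivChar q1 s :=
      Function.update_of_ne hs _ _
    show DirichletCharacter.LFunctionTrivChar₁ q1 s * DirichletCharacter.LFunction χ2 s =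
      (s - 1) * (DirichletCharacter.LFunction χ1 s * DirichletCharacter.LFunction χ2 s)
    rw [e1, h1]
    ring
  · by_cases h2 : χ2 = 1
    · refine ⟨fun s => DirichletCharacter.LFunction χ1 s * DirichletCharacter.LFunctionTrivChar₁ q2 s,
        (DirichletCharacter.differentiable_LFunction h1).mul (DirichletCharacter.differentiable_LFunctionTrivChar₁ q2), ?_⟩
      intro s hs
      have e1 : DirichletCharacter.LFunctionTrivChar₁ q2 s = (s - 1) * DirichletCharacter.LFunctionTrivChar q2 s :=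
        Function.update_of_ne hs _ _
      show DirichletCharacter.LFunction χ1 s * DirichletCharacter.LFunctionTrivChar₁ q2 s =
        (s - 1) * (DirichletCharacter.LFunction χ1 s * DirichletCharacter.LFunction χ2 s)
      rw [e1, h2]
      ring
    · refine ⟨fun s => (s - 1) * (DirichletCharacter.LFunction χ1 s * DirichletCharacter.LFunction χ2 s),
        (differentiable_id.sub_const 1).mul ((DirichletCharacter.differentiable_LFunction h1).mul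
          (DirichletCharacter.differentiable_LFunction h2)), fun s _ => rfl⟩

/-- OT02. Growth of `L1 L2` and the entire function `(s-1) L1(s) L2(s)`.

Proof. (i) `LP.per_pol` (V18) for `f = χ1` and `f = χ2` (`LX.Lf χ s = DirichletCharacter.LFunction χ s = ZMod.LFunction χ s` by `rfl`):
`‖L_j s‖ ≤ C (1 + |Im s|)` for `Re s ≥ 5/16`, `‖s - 1‖ ≥ 1/4`; multiply.
(ii) continuity on the critical line: `DirichletCharacter.differentiableAt_LFunction` at `s ≠ 1`.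
(iii) If both characters are `≠ 1`, `E s = (s - 1) * T_LL s`, entire by `DirichletCharacter.differentiable_LFunction`. If `χ1 = 1` (then
`χ2 ≠ 1`): `E s = DirichletCharacter.LFunctionTrivChar₁ q1 s * LX.Lf χ2 s` with `DirichletCharacter.differentiable_LFunctionTrivChar₁`
(it is `Function.update (fun s => (s - 1) * LFunctionTrivChar s) 1 _`); same with exchanged roles. For `s ≠ 1` it is `(s-1) T_LL s`.
Bound: for `‖s - 1‖ ≥ 1/4` from (i) and `‖s - 1‖ ≤ 1 + |Im s|` (as `|Re s - 1| ≤ 1`); on the compact ball `‖s - 1‖ ≤ 1/4`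
`E` is bounded. Take the maximum of the constants. -/
theorem T_ent [NeZero q1] [NeZero q2] (χ1 : DirichletCharacter ℂ q1) (χ2 : DirichletCharacter ℂ q2) :
    (∃ C : ℝ, 0 < C ∧ ∀ s : ℂ, 1/2 ≤ s.re → 1/4 ≤ ‖s - 1‖ → ‖T_LL χ1 χ2 s‖ ≤ C * (1 + |s.im|) ^ 2) ∧
    (∀ s : ℂ, s ≠ 1 → DifferentiableAt ℂ (T_LL χ1 χ2) s) ∧
    (¬ (χ1 = 1 ∧ χ2 = 1) → ∃ E : ℂ → ℂ, Differentiable ℂ E ∧ (∀ s : ℂ, s ≠ 1 → E s = (s - 1) * T_LL χ1 χ2 s) ∧
      ∃ C : ℝ, 0 < C ∧ ∀ s : ℂ, 1/2 ≤ s.re → s.re ≤ 2 → ‖E s‖ ≤ C * (1 + |s.im|) ^ 3) := by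
  obtain ⟨C1, hC1, hb1⟩ := LP.per_pol (fun j => χ1 j)
  obtain ⟨C2, hC2, hb2⟩ := LP.per_pol (fun j => χ2 j)
  have hbd : ∀ s : ℂ, 1/2 ≤ s.re → 1/4 ≤ ‖s - 1‖ → ‖T_LL χ1 χ2 s‖ ≤ (C1 * C2) * (1 + |s.im|) ^ 2 := by
    intro s hs hs1
    have a1 : ‖LX.Lf χ1 s‖ ≤ C1 * (1 + |s.im|) := hb1 s (by linarith) hs1
    have a2 : ‖LX.Lf χ2 s‖ ≤ C2 * (1 + |s.im|) := hb2 s (by linarith) hs1
    unfold T_LL
    rw [norm_mul]
    have hp : 0 ≤ 1 + |s.im| := by positivity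
    calc ‖LX.Lf χ1 s‖ * ‖LX.Lf χ2 s‖ ≤ (C1 * (1 + |s.im|)) * (C2 * (1 + |s.im|)) :=
          mul_le_mul a1 a2 (norm_nonneg _) (by positivity)
      _ = _ := by ring
  refine ⟨⟨C1 * C2, by positivity, hbd⟩, ?_, ?_⟩
  · intro s hs
    exact (DirichletCharacter.differentiableAt_LFunction χ1 s (Or.inl hs)).mul
      (DirichletCharacter.differentiableAt_LFunction χ2 s (Or.inl hs))
  · intro hne
    obtain ⟨E, hE, hEs⟩ := T_Ent_E χ1 χ2 hne
    refine ⟨E, hE, hEs, ?_⟩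
    obtain ⟨M, hM⟩ := (isCompact_closedBall (1 : ℂ) (1 / 4)).exists_bound_of_continuousOn hE.continuous.continuousOn
    refine ⟨C1 * C2 + |M| + 1, by positivity, ?_⟩
    intro s hs hs2
    have hp : 1 ≤ 1 + |s.im| := by
      have := abs_nonneg s.im
      linarith
    have hp3 : 1 ≤ (1 + |s.im|) ^ 3 := one_le_pow₀ hp
    rcases le_total (‖s - 1‖) (1 / 4) with h | h
    · have h1 : ‖E s‖ ≤ M := hM s (by rw [Metric.mem_closedBall, dist_eq_norm]; exact h)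
      calc ‖E s‖ ≤ M := h1
        _ ≤ |M| := le_abs_self M
        _ ≤ (C1 * C2 + |M| + 1) * 1 := by
            have : 0 < C1 * C2 := by positivity
            linarith
        _ ≤ (C1 * C2 + |M| + 1) * (1 + |s.im|) ^ 3 := by gcongr
    · have hs1 : s ≠ 1 := by
        rintro rfl
        norm_num at h
      rw [hEs s hs1, norm_mul]
      have h2 : ‖s - 1‖ ≤ 1 + |s.im| := by
        refine (Complex.norm_le_abs_re_add_abs_im (s - 1)).trans ?_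
        have e1 : |(s - 1).re| ≤ 1 := by
          rw [sub_re, one_re, abs_le]
          constructor <;> linarith
        have e2 : (s - 1).im = s.im := by simp
        rw [e2]
        linarith
      calc ‖s - 1‖ * ‖T_LL χ1 χ2 s‖ ≤ (1 + |s.im|) * ((C1 * C2) * (1 + |s.im|) ^ 2) :=
            mul_le_mul h2 (hbd s hs h) (norm_nonneg _) (by positivity)
        _ = (C1 * C2) * (1 + |s.im|) ^ 3 := by ring
        _ ≤ (C1 * C2 + |M| + 1) * (1 + |s.im|) ^ 3 := by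
            apply mul_le_mul_of_nonneg_right _ (by positivity)
            have := abs_nonneg M
            linarith

end OO

end
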