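import Pool.Agent.Lib.MP_0f5a55_nt.OM.K000
import Pool.Agent.Lib.MP_0f5a55_nt.OM.K005

section

/-!
# Odd order zeros of L(s + iy, χ1) L(s - iy, χ2): definitions (paper: o3_paper.md)
-/

open Complex MeasureTheory Set Filter Topology
open scoped ComplexConjugate

namespace OO

/-- the coefficients χ(n) n^(-iy) of L(s + iy, χ) -/
noncomputable def chx {q : ℕ} (χ : DirichletCharacter ℂ q) (y : ℝ) : ℕ → ℂ :=
  fun n => χ (n : ZMod q) * (n : ℂ) ^ (-((y : ℂ) * I))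

/-- the two pairs (χ1, y1), (χ2, y2) differ -/
def NeX {q1 q2 : ℕ} (χ1 : DirichletCharacter ℂ q1) (y1 : ℝ) (χ2 : DirichletCharacter ℂ q2) (y2 : ℝ) : Prop :=
  Ne12 χ1 χ2 ∨ y1 ≠ y2

/-- pi / |D|, and 0 for D = 0 -/
noncomputable def shc (D : ℝ) : ℝ := if D = 0 then 0 else Real.pi / |D|

/-- the cutoff, averaged: ρ(x)/2 + ρ(e^(π/|D|) x)/2 -/
noncomputable def rhox (D L x : ℝ) : ℝ := (rho L x + rho L (Real.exp (shc D) * x)) / 2

/-- 1 - rhox; the integral of its derivative against x^(iD) is zero for D ≠ 0 -/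
noncomputable def ffx (D L x : ℝ) : ℝ := 1 - rhox D L x

end OO

end

section

/-!
# Definitions and the divisor bound for the blocks D and G
-/

open Complex MeasureTheory Set Filter Topology
open scoped ComplexConjugate

namespace OO

/-- completely multiplicative functions bounded by one -/
structure IsCh (f : ℕ → ℂ) : Prop where
  one : f 1 = 1
  mul : ∀ m n, f (m * n) = f m * f n
  le : ∀ n, ‖f n‖ ≤ 1

/-- prime sum -/
noncomputable def Rp (f : ℕ → ℂ) (s : ℂ) : ℝ := ∑' p : Nat.Primes, (f p * ((p : ℕ) : ℂ) ^ (-s)).re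

/-- bounds for the prime sums of the four products of two families -/
def RB (F : Fin 2 → ℕ → ℂ) (K : ℝ) : Prop :=
  ∀ i i' : Fin 2, ∀ w : ℂ, 0 < w.re → w.re ≤ 1 →
    |Rp (fun n => F i n * conj (F i' n)) (1 + w) + (if i = i' then Real.log ‖w‖ else 0)| ≤
      K + 2 * Real.log (1 + ‖w‖)

/-- families of the six factors -/
def fm : Fin 6 → Fin 2 := ![0, 1, 0, 1, 0, 1]

/-- signs of the six factors (`sgn` of the interface) -/
noncomputable def sg (s : Fin 2 → ℝ) : Fin 6 → ℝ := sgn (s 0) (s 1)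

/-- the six factors -/
noncomputable def XA (F : Fin 2 → ℕ → ℂ) (j : Fin 6) (A : ℂ) (th : ℝ) : ArithmeticFunction ℂ :=
  if (j : ℕ) < 2 then LA (F (fm j)) A th else MA (F (fm j)) A th

/-- product of the six factors -/
noncomputable def PX (F : Fin 2 → ℕ → ℂ) (A : Fin 6 → ℂ) (th : Fin 6 → ℝ) : ArithmeticFunction ℂ :=
  ∏ j, XA F j (A j) (th j)

/-- complex conjugates of the families -/
noncomputable def cjF (F : Fin 2 → ℕ → ℂ) : Fin 2 → ℕ → ℂ := fun i n => conj (F i n)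

/-- the point `1/L + i v` -/
noncomputable def ww (L v : ℝ) : ℂ := (1 / L : ℝ) + v * I

/-- the exponents `1/2 + sg_j w/2` -/
noncomputable def AB (L v : ℝ) (s : Fin 2 → ℝ) (j : Fin 6) : ℂ := 1 / 2 + (sg s j : ℂ) * ww L v / 2

/-- the exponents `1/2 + sg_j w/2 + t_j (1 + i u_j)` -/
noncomputable def AA (L v : ℝ) (s : Fin 2 → ℝ) (t u : Fin 6 → ℝ) (j : Fin 6) : ℂ :=
  AB L v s j + t j * (1 + u j * I)

/-- admissible weights: `0 ≤ t_j ≤ Th/L`, and `1/L ≤ t_j` when the sign is `-1` -/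
def Ad (L Th : ℝ) (s : Fin 2 → ℝ) (t : Fin 6 → ℝ) : Prop :=
  ∀ j, 0 ≤ t j ∧ t j ≤ Th / L ∧ (sg s j = -1 → 1 / L ≤ t j)

/-- combination of weights: `∑ c_i LA f A (t_i)` -/
noncomputable def LC {ι : Type} [Fintype ι] (f : ℕ → ℂ) (A : ℂ) (c t : ι → ℝ) :
    ArithmeticFunction ℂ := ∑ i, (c i : ℂ) • LA f A (t i)

/-- product of six factors, with combinations of weights in the first two -/
noncomputable def PL (F : Fin 2 → ℕ → ℂ) (A : Fin 6 → ℂ) {ι0 ι1 : Type} [Fintype ι0] [Fintype ι1]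
    (c0 t0 : ι0 → ℝ) (c1 t1 : ι1 → ℝ) (m : ℝ) : ArithmeticFunction ℂ :=
  (LC (F 0) (A 0) c0 t0 * LC (F 1) (A 1) c1 t1) *
    ((MA (F 0) (A 2) m * MA (F 1) (A 3) m) * (MA (F 0) (A 4) m * MA (F 1) (A 5) m))

/-- Mellin transform of the weight: `∫ x^(-s) W(x) dx` -/
noncomputable def Bm (al om : ℝ) (s : ℂ) : ℂ := ∫ x in Ioi (0 : ℝ), (x : ℂ) ^ (-s) * (Wt al om x : ℂ)

/-- the constant `∫ ‖kk u‖ (1+|u|)^12` -/
noncomputable def Ck : ℝ := ∫ u : ℝ, ‖LZ.kk u‖ * (1 + |u|) ^ 12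

/-- the divisor bound -/
theorem D_tau_le (σ : ℝ) (hσ : 0 < σ) : ∃ C : ℝ, 1 ≤ C ∧ ∀ n : ℕ, n ≠ 0 →
    ((n.divisors.card : ℕ) : ℝ) ≤ C * (n : ℝ) ^ σ := by
  have hl2 : 0 < Real.log 2 := Real.log_pos (by norm_num)
  set A : ℝ := max 1 (1 / (σ * Real.log 2)) with hA
  have hA1 : 1 ≤ A := le_max_left _ _
  have hA2 : 1 ≤ A * (σ * Real.log 2) := by
    have h : 1 / (σ * Real.log 2) ≤ A := le_max_right _ _
    rwa [div_le_iff₀ (by positivity)] at h
  set P0 : ℕ := ⌈(2 : ℝ) ^ (1 / σ)⌉₊ with hP0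
  -- small primes
  have hsmall : ∀ p : ℕ, p.Prime → ∀ k : ℕ, ((k + 1 : ℕ) : ℝ) ≤ A * ((p : ℝ) ^ k) ^ σ := by
    intro p hp k
    have hp2 : (2 : ℝ) ≤ p := by exact_mod_cast hp.two_le
    have h1 : ((2 : ℝ) ^ k) ^ σ ≤ ((p : ℝ) ^ k) ^ σ :=
      Real.rpow_le_rpow (by positivity) (pow_le_pow_left₀ (by norm_num) hp2 k) hσ.le
    have h2 : 1 + k * (σ * Real.log 2) ≤ ((2 : ℝ) ^ k) ^ σ := by
      rw [Real.rpow_def_of_pos (by positivity), Real.log_pow]
      have := Real.add_one_le_exp (k * Real.log 2 * σ)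
      linarith
    have h3 : ((k + 1 : ℕ) : ℝ) ≤ A * (1 + k * (σ * Real.log 2)) := by
      push_cast
      have hk : (0 : ℝ) ≤ k := Nat.cast_nonneg _
      nlinarith
    exact h3.trans (mul_le_mul_of_nonneg_left (h2.trans h1) (by positivity))
  -- large primes
  have hlarge : ∀ p : ℕ, P0 ≤ p → ∀ k : ℕ, ((k + 1 : ℕ) : ℝ) ≤ ((p : ℝ) ^ k) ^ σ := by
    intro p hp k
    have h1 : (2 : ℝ) ^ (1 / σ) ≤ p := (Nat.le_ceil _).trans (by exact_mod_cast hp)
    have h2 : (2 : ℝ) ≤ (p : ℝ) ^ σ := by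
      calc (2 : ℝ) = ((2 : ℝ) ^ (1 / σ)) ^ σ := by
            rw [← Real.rpow_mul (by norm_num), one_div_mul_cancel hσ.ne', Real.rpow_one]
        _ ≤ (p : ℝ) ^ σ := Real.rpow_le_rpow (by positivity) h1 hσ.le
    have h3 : ((p : ℝ) ^ k) ^ σ = ((p : ℝ) ^ σ) ^ k := by
      rw [← Real.rpow_natCast, ← Real.rpow_mul (by positivity), mul_comm,
        Real.rpow_mul (by positivity), Real.rpow_natCast]
    have h4 : k + 1 ≤ 2 ^ k := Nat.lt_two_pow_self
    calc ((k + 1 : ℕ) : ℝ) ≤ (2 : ℝ) ^ k := by exact_mod_cast h4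
      _ ≤ ((p : ℝ) ^ σ) ^ k := pow_le_pow_left₀ (by norm_num) h2 k
      _ = _ := h3.symm
  refine ⟨A ^ P0, one_le_pow₀ hA1, fun n hn => ?_⟩
  rw [Nat.card_divisors hn]
  have hn' : (n : ℝ) = ∏ p ∈ n.primeFactors, (p : ℝ) ^ (n.factorization p) := by
    conv_lhs => rw [← Nat.prod_factorization_pow_eq_self hn]
    rw [Finsupp.prod, Nat.support_factorization]
    push_cast
    rfl
  have hpw : (n : ℝ) ^ σ = ∏ p ∈ n.primeFactors, ((p : ℝ) ^ (n.factorization p)) ^ σ := by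
    conv_lhs => rw [hn']
    rw [Real.finsetProd_rpow _ _ (fun i _ => by positivity)]
  rw [hpw, Nat.cast_prod]
  have hterm : ∀ p ∈ n.primeFactors, ((n.factorization p + 1 : ℕ) : ℝ) ≤
      (if p < P0 then A else 1) * ((p : ℝ) ^ (n.factorization p)) ^ σ := by
    intro p hp
    split_ifs with h
    · exact hsmall p (Nat.prime_of_mem_primeFactors hp) _
    · rw [one_mul]
      exact hlarge p (not_lt.1 h) _
  refine (Finset.prod_le_prod (fun _ _ => Nat.cast_nonneg _) hterm).trans ?_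
  rw [Finset.prod_mul_distrib]
  apply mul_le_mul_of_nonneg_right _ (Finset.prod_nonneg fun _ _ => by positivity)
  rw [Finset.prod_ite, Finset.prod_const, Finset.prod_const_one, mul_one]
  apply pow_le_pow_right₀ hA1
  calc (n.primeFactors.filter (fun p => p < P0)).card ≤ (Finset.range P0).card := by
        apply Finset.card_le_card
        intro p hp
        rw [Finset.mem_filter] at hp
        exact Finset.mem_range.2 hp.2
    _ = P0 := Finset.card_range _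

end OO

end

section

/-!
# Definitions for the absolute version
-/

open Complex MeasureTheory Set Filter Topology
open scoped ComplexConjugate

namespace OO

/-- local bounds near `w = 0` for the prime sums of the four products of two families, up to constants
`kap i i'` -/
def RL (F : Fin 2 → ℕ → ℂ) (kap : Fin 2 → Fin 2 → ℝ) (rh : ℝ) : Prop :=
  ∀ i i' : Fin 2, ∀ w : ℂ, 0 < w.re → ‖w‖ ≤ rh →
    |Rp (fun n => F i n * conj (F i' n)) (1 + w) + (if i = i' then Real.log ‖w‖ else 0) - kap i i'| ≤ 1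

/-- the constant `∫ ‖kk u‖ (1+|u|)^13` -/
noncomputable def Cl : ℝ := ∫ u : ℝ, ‖LZ.kk u‖ * (1 + |u|) ^ 13

end OO

end

section

/-!
# Row D_R1: prime sums and L-functions
-/

open Complex MeasureTheory Set Filter Topology
open scoped ComplexConjugate

namespace OO

theorem D_R1_norm (s : ℂ) (p : Nat.Primes) : ‖((p : ℕ) : ℂ) ^ (-s)‖ = (p : ℝ) ^ (-s.re) := by
  have h0 : (0:ℝ) < (p : ℝ) := Nat.cast_pos.2 p.2.pos
  have h1 : ((p : ℕ) : ℂ) = ((p : ℝ) : ℂ) := by simp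
  rw [h1, norm_cpow_eq_rpow_re_of_pos h0, neg_re]

/-- the prime sums of bounded functions converge for `Re s > 1`:
`‖f p p^(-s)‖ ≤ p^(-σ)`, `Nat.Primes.summable_rpow` -/
theorem D_Rp_summable (f : ℕ → ℂ) (hf : ∀ n, ‖f n‖ ≤ 1) (s : ℂ) (hs : 1 < s.re) :
    Summable (fun p : Nat.Primes => f p * ((p : ℕ) : ℂ) ^ (-s)) := by
  have h1 : Summable (fun p : Nat.Primes => (p : ℝ) ^ (-s.re)) :=
    Nat.Primes.summable_rpow.2 (by linarith)
  refine Summable.of_norm_bounded h1 (fun p => ?_)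
  rw [norm_mul, D_R1_norm]
  have h2 : 0 ≤ (p : ℝ) ^ (-s.re) := Real.rpow_nonneg (Nat.cast_nonneg _) _
  calc ‖f p‖ * (p : ℝ) ^ (-s.re) ≤ 1 * (p : ℝ) ^ (-s.re) := mul_le_mul_of_nonneg_right (hf p) h2
    _ = (p : ℝ) ^ (-s.re) := one_mul _

/-- Copy the proof of `LZ.R_log` (file V/V06.lean, line 186; there for zeta; do not import V06): with
`x = χ(p) p^(-s)`, `‖x‖ ≤ p^(-σ) ≤ 1/p ≤ 1/2`: `‖-log(1-x) - x‖ ≤ ‖x‖^2 ≤ p^(-2)`
(`norm_log_one_add_sub_self_le`), `K = ∑ p^(-2)`. The Euler product is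
`DirichletCharacter.LSeries_eulerProduct_exp_log χ hs` (`ch χ` unfolds to `fun n => χ n`), hence
`log ‖L‖ = re ∑' -log(1-x)` (`norm_exp`, `Real.log_exp`), `Rp = re ∑' x` (`re_tsum`). -/
theorem D_Rp_log : ∃ K : ℝ, 0 ≤ K ∧ ∀ (q : ℕ) (χ : DirichletCharacter ℂ q) (s : ℂ), 1 < s.re →
    |Rp (ch χ) s - Real.log ‖LSeries (ch χ) s‖| ≤ K := by
  have hsum2 : Summable (fun p : Nat.Primes => (p : ℝ) ^ (-2 : ℝ)) :=
    Nat.Primes.summable_rpow.2 (by norm_num)
  refine ⟨∑' p : Nat.Primes, (p : ℝ) ^ (-2 : ℝ), tsum_nonneg fun p => by positivity, ?_⟩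
  intro q χ s hs
  have hp2 : ∀ p : Nat.Primes, (2 : ℝ) ≤ (p : ℝ) := fun p => by
    exact_mod_cast p.2.two_le
  obtain ⟨x, hx⟩ : ∃ x : Nat.Primes → ℂ, x = fun p : Nat.Primes => ch χ p * ((p : ℕ) : ℂ) ^ (-s) :=
    ⟨_, rfl⟩
  have hch : ∀ n, ‖ch χ n‖ ≤ 1 := fun n => DirichletCharacter.norm_le_one χ _
  have hn1 : ∀ p : Nat.Primes, ‖x p‖ ≤ (p : ℝ) ^ (-1 : ℝ) := by
    intro p
    rw [hx]
    show ‖ch χ p * ((p : ℕ) : ℂ) ^ (-s)‖ ≤ (p : ℝ) ^ (-1 : ℝ)
    rw [norm_mul, D_R1_norm]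
    have h1 : (p : ℝ) ^ (-s.re) ≤ (p : ℝ) ^ (-1 : ℝ) := by
      apply Real.rpow_le_rpow_of_exponent_le (by have := hp2 p; linarith)
      linarith
    calc ‖ch χ p‖ * (p : ℝ) ^ (-s.re) ≤ 1 * (p : ℝ) ^ (-1 : ℝ) :=
          mul_le_mul (hch p) h1 (Real.rpow_nonneg (Nat.cast_nonneg _) _) zero_le_one
      _ = (p : ℝ) ^ (-1 : ℝ) := one_mul _
  have hn2 : ∀ p : Nat.Primes, ‖x p‖ ≤ 1 / 2 := by
    intro p
    refine (hn1 p).trans ?_
    rw [Real.rpow_neg_one, one_div]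
    exact inv_anti₀ (by norm_num) (hp2 p)
  have hd : ∀ p : Nat.Primes, ‖(-log (1 - x p)) - x p‖ ≤ (p : ℝ) ^ (-2 : ℝ) := by
    intro p
    have h1 : ‖-x p‖ < 1 := by rw [norm_neg]; linarith [hn2 p]
    have h2 := norm_log_one_add_sub_self_le h1
    rw [norm_neg] at h2
    have h3 : (-log (1 - x p)) - x p = -(log (1 + -x p) - -x p) := by ring_nf
    rw [h3, norm_neg]
    have h4 : (1 - ‖x p‖)⁻¹ ≤ 2 := by
      rw [inv_le_comm₀ (by linarith [hn2 p]) (by norm_num)]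
      linarith [hn2 p]
    have h5 : ‖x p‖ ^ 2 ≤ (p : ℝ) ^ (-2 : ℝ) := by
      have h6 : (p : ℝ) ^ (-2 : ℝ) = ((p : ℝ) ^ (-1 : ℝ)) ^ 2 := by
        rw [← Real.rpow_natCast, ← Real.rpow_mul (by have := hp2 p; linarith)]
        norm_num
      rw [h6]
      exact pow_le_pow_left₀ (norm_nonneg _) (hn1 p) 2
    calc _ ≤ ‖x p‖ ^ 2 * (1 - ‖x p‖)⁻¹ / 2 := h2
      _ ≤ ‖x p‖ ^ 2 * 2 / 2 := by gcongr
      _ = ‖x p‖ ^ 2 := by ring
      _ ≤ _ := h5
  have hs1 : Summable x := by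
    rw [hx]
    exact D_Rp_summable (ch χ) hch s hs
  have hs2 : Summable (fun p : Nat.Primes => (-log (1 - x p)) - x p) :=
    Summable.of_norm_bounded hsum2 hd
  have hs3 : Summable (fun p : Nat.Primes => (-log (1 - x p))) := by
    have := hs2.add hs1
    simpa using this
  have hz : Real.log ‖LSeries (ch χ) s‖ = (∑' p : Nat.Primes, -log (1 - x p)).re := by
    have h1 : exp (∑' p : Nat.Primes, -log (1 - x p)) = LSeries (ch χ) s := by
      rw [hx]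
      exact DirichletCharacter.LSeries_eulerProduct_exp_log χ hs
    rw [← h1, norm_exp, Real.log_exp]
  have hR : Rp (ch χ) s = (∑' p : Nat.Primes, x p).re := by
    rw [re_tsum hs1, Rp, hx]
  rw [hz, hR, ← sub_re, ← hs1.tsum_sub hs3]
  refine (abs_re_le_norm _).trans ?_
  refine tsum_of_norm_bounded hsum2.hasSum ?_
  intro p
  rw [norm_sub_rev]
  exact hd p

end OO

end

section

/-!
# Row OP01: geometric series
-/

open Complex MeasureTheory Set Filter Topology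
open scoped ComplexConjugate

namespace OO

theorem P01_aux_norm {q : ℕ} [NeZero q] (χ : DirichletCharacter ℂ q) (w : ℂ) (v : ℕ) :
    ‖χ ((v + 1 : ℕ) : ZMod q) * exp (-(2 * Real.pi * ((v + 1 : ℕ) : ℂ) * w))‖ ≤
      Real.exp (-(2 * Real.pi * w.re)) ^ (v + 1) := by
  have h1 : ‖exp (-(2 * Real.pi * ((v + 1 : ℕ) : ℂ) * w))‖ =
      Real.exp (-(2 * Real.pi * w.re)) ^ (v + 1) := by
    rw [Complex.norm_exp, ← Real.exp_nat_mul]
    congr 1
    have h2 : (2 * Real.pi * ((v + 1 : ℕ) : ℂ) * w) = ((2 * Real.pi * (v + 1 : ℕ) : ℝ) : ℂ) * w := by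
      push_cast
      ring
    rw [neg_re, h2, re_ofReal_mul]
    ring
  rw [norm_mul, h1]
  calc ‖χ ((v + 1 : ℕ) : ZMod q)‖ * Real.exp (-(2 * Real.pi * w.re)) ^ (v + 1) ≤
        1 * Real.exp (-(2 * Real.pi * w.re)) ^ (v + 1) :=
      mul_le_mul_of_nonneg_right (DirichletCharacter.norm_le_one χ _) (by positivity)
    _ = _ := one_mul _

theorem P01_aux_lt {w : ℂ} (hw : 0 < w.re) : Real.exp (-(2 * Real.pi * w.re)) < 1 := by
  rw [Real.exp_lt_one_iff]
  have := Real.pi_pos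
  have : 0 < 2 * Real.pi * w.re := by positivity
  linarith

theorem P01_aux_geo {w : ℂ} (hw : 0 < w.re) :
    HasSum (fun v : ℕ => Real.exp (-(2 * Real.pi * w.re)) ^ (v + 1))
      (Real.exp (-(2 * Real.pi * w.re)) * (1 - Real.exp (-(2 * Real.pi * w.re)))⁻¹) := by
  have h := (hasSum_geometric_of_lt_one (Real.exp_pos (-(2 * Real.pi * w.re))).le
    (P01_aux_lt hw)).mul_left (Real.exp (-(2 * Real.pi * w.re)))
  refine h.congr_fun ?_
  intro v
  rw [pow_succ']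

theorem P01_aux_sum {R : Type*} [AddCommMonoid R] (q : ℕ) [NeZero q] (g : ℕ → R) :
    ∑ j : ZMod q, g (j.val + 1) = ∑ a ∈ Finset.Icc 1 q, g a := by
  have h1 : ∑ j : ZMod q, g (j.val + 1) = ∑ i ∈ Finset.range q, g (i + 1) := by
    obtain ⟨n, rfl⟩ : ∃ n, q = n + 1 := ⟨q - 1, by have := NeZero.ne q; omega⟩
    exact Fin.sum_univ_eq_sum_range (fun i => g (i + 1)) (n + 1)
  rw [h1]
  apply Finset.sum_bij (fun i _ => i + 1)
  · intro i hi
    rw [Finset.mem_range] at hi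
    rw [Finset.mem_Icc]
    omega
  · intro i _ j _ h
    omega
  · intro b hb
    rw [Finset.mem_Icc] at hb
    exact ⟨b - 1, by rw [Finset.mem_range]; omega, by omega⟩
  · intro i _
    rfl

/-- OP01a. `‖exp(-2 π n w)‖ = exp(-2 π n Re w)`, geometric series. -/
theorem P01_summable {q : ℕ} [NeZero q] (χ : DirichletCharacter ℂ q) (w : ℂ) (hw : 0 < w.re) :
    Summable (fun v : ℕ => ‖χ ((v + 1 : ℕ) : ZMod q) * exp (-(2 * Real.pi * ((v + 1 : ℕ) : ℂ) * w))‖) := by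
  exact Summable.of_nonneg_of_le (fun v => norm_nonneg _) (P01_aux_norm χ w) (P01_aux_geo hw).summable

/-- OP01b. PROOF. Write `v + 1 = a + q j` with `a ∈ Icc 1 q`, `j : ℕ` (`Nat.divModEquiv q : ℕ ≃ ℕ × Fin q` for `v`, `a = v % q + 1`), `χ` is `q`-periodic, `exp(-2π(a+qj)w) = exp(-2πaw) exp(-2πqw)^j`; summable by OP01a
(`Summable.tsum_prod`, or `Nat.divModEquiv.tsum_eq` and `tsum_fintype`), `tsum_geometric_of_norm_lt_one` since `‖exp(-2πqw)‖ = exp(-2πq Re w) < 1`. -/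
theorem P01_eq {q : ℕ} [NeZero q] (χ : DirichletCharacter ℂ q) (w : ℂ) (hw : 0 < w.re) :
    Th χ w = ∑ a ∈ Finset.Icc 1 q, χ ((a : ℕ) : ZMod q) * (exp (-(2 * Real.pi * a * w)) / (1 - exp (-(2 * Real.pi * q * w)))) := by
  have hs : Summable (fun v : ℕ => χ ((v + 1 : ℕ) : ZMod q) *
      exp (-(2 * Real.pi * ((v + 1 : ℕ) : ℂ) * w))) := (P01_summable χ w hw).of_norm
  have hq : (0 : ℝ) < q := by exact_mod_cast Nat.pos_of_ne_zero (NeZero.ne q)
  have hr : ‖exp (-(2 * Real.pi * q * w))‖ < 1 := by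
    rw [Complex.norm_exp, Real.exp_lt_one_iff]
    have h2 : (2 * Real.pi * (q : ℂ) * w) = ((2 * Real.pi * q : ℝ) : ℂ) * w := by
      push_cast
      ring
    rw [neg_re, h2, re_ofReal_mul]
    have := Real.pi_pos
    have : 0 < 2 * Real.pi * q * w.re := by positivity
    linarith
  rw [Th, Nat.sumByResidueClasses hs q, ← P01_aux_sum q (fun a => χ ((a : ℕ) : ZMod q) *
    (exp (-(2 * Real.pi * a * w)) / (1 - exp (-(2 * Real.pi * q * w)))))]
  apply Finset.sum_congr rfl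
  intro j _
  have h3 : ∀ m : ℕ, χ ((j.val + q * m + 1 : ℕ) : ZMod q) *
      exp (-(2 * Real.pi * ((j.val + q * m + 1 : ℕ) : ℂ) * w)) =
      (χ ((j.val + 1 : ℕ) : ZMod q) * exp (-(2 * Real.pi * ((j.val + 1 : ℕ) : ℂ) * w))) *
        exp (-(2 * Real.pi * q * w)) ^ m := by
    intro m
    have h4 : ((j.val + q * m + 1 : ℕ) : ZMod q) = ((j.val + 1 : ℕ) : ZMod q) := by
      push_cast
      rw [ZMod.natCast_self, zero_mul, add_zero]
    have h5 : exp (-(2 * Real.pi * ((j.val + q * m + 1 : ℕ) : ℂ) * w)) =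
        exp (-(2 * Real.pi * ((j.val + 1 : ℕ) : ℂ) * w)) * exp (-(2 * Real.pi * q * w)) ^ m := by
      rw [← Complex.exp_nat_mul, ← Complex.exp_add]
      congr 1
      push_cast
      ring
    rw [h4, h5]
    ring
  simp only [h3]
  rw [tsum_mul_left, tsum_geometric_of_norm_lt_one hr, mul_assoc, div_eq_mul_inv]

/-- OP01c. PROOF. `‖Th χ w‖ ≤ ∑ exp(-2π(v+1) Re w) = e^(-y)/(1 - e^(-y)) ≤ 1/y`, `y = 2π Re w` (`1 + y ≤ e^y`), and `1/y ≤ 1/Re w`. -/
theorem P01_crude {q : ℕ} [NeZero q] (χ : DirichletCharacter ℂ q) (w : ℂ) (hw : 0 < w.re) : ‖Th χ w‖ ≤ 1 / w.re := by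
  have hg := P01_aux_geo hw
  have hr := P01_aux_lt hw
  have h1 : ‖Th χ w‖ ≤ Real.exp (-(2 * Real.pi * w.re)) *
      (1 - Real.exp (-(2 * Real.pi * w.re)))⁻¹ := by
    rw [Th]
    refine (norm_tsum_le_tsum_norm (P01_summable χ w hw)).trans ?_
    rw [← hg.tsum_eq]
    exact (P01_summable χ w hw).tsum_le_tsum (P01_aux_norm χ w) hg.summable
  refine h1.trans ?_
  have hpi := Real.pi_gt_three
  have h2 : w.re ≤ 2 * Real.pi * w.re := by nlinarith
  have h3 := Real.add_one_le_exp (2 * Real.pi * w.re)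
  have h4 : w.re ≤ Real.exp (2 * Real.pi * w.re) - 1 := by linarith
  have h5 : Real.exp (-(2 * Real.pi * w.re)) * Real.exp (2 * Real.pi * w.re) = 1 := by
    rw [← Real.exp_add, neg_add_cancel, Real.exp_zero]
  have h6 : 0 < 1 - Real.exp (-(2 * Real.pi * w.re)) := by linarith
  rw [← div_eq_mul_inv, div_le_div_iff₀ h6 hw]
  have h7 := mul_le_mul_of_nonneg_left h4 (Real.exp_pos (-(2 * Real.pi * w.re))).le
  nlinarith

end OO

end

section

/-!
# Block P (poles) with shifts, definitions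
-/

open Complex MeasureTheory Set Filter Topology
open scoped ComplexConjugate

namespace OO

/-- the series of the coefficients `χ(v) v^(-iy)`, `v = 1, 2, ...` -/
noncomputable def Th3 {q : ℕ} (χ : DirichletCharacter ℂ q) (y : ℝ) (w : ℂ) : ℂ :=
  ∑' v : ℕ, chx χ y (v + 1) * exp (-(2 * Real.pi * ((v + 1 : ℕ) : ℂ) * w))

/-- the series over the numbers `a + q j`, `j = 0, 1, ...` -/
noncomputable def A3 (q a : ℕ) (y : ℝ) (ζ : ℂ) : ℂ :=
  ∑' j : ℕ, ((a + q * j : ℕ) : ℂ) ^ (-((y : ℂ) * I)) * exp (-(((a + q * j : ℕ) : ℂ) * ζ))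

/-- the series `∑ (a + q j) exp(-(a + q j) ζ)` -/
noncomputable def G3 (q a : ℕ) (ζ : ℂ) : ℂ :=
  ∑' j : ℕ, ((a + q * j : ℕ) : ℂ) * exp (-(((a + q * j : ℕ) : ℂ) * ζ))

/-- the kernel of a pole -/
noncomputable def kn (y : ℝ) (D : ℂ) : ℂ := (I * D) ^ ((y : ℂ) * I - 1)

/-- `1/‖Γ(1 - iy)‖²` -/
noncomputable def S3 (y : ℝ) : ℝ := (‖Gamma (1 - (y : ℂ) * I)‖ ^ 2)⁻¹

/-- the factor in front of the poles -/
noncomputable def kap3 {q : ℕ} (χ : DirichletCharacter ℂ q) (y : ℝ) : ℂ :=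
  tc χ * Gamma (1 - (y : ℂ) * I) * ((2 * Real.pi : ℝ) : ℂ) ^ ((y : ℂ) * I - 1) / q

/-- the coefficient with the unimodular factor -/
noncomputable def pc3 (b f1 f2 : ℕ → ℂ) (w : ℝ → ℝ) (y : ℝ) (j : ℕ × ℕ × ℕ × ℕ) : ℂ :=
  pc b f1 f2 w j * (((px j : ℚ) : ℝ) : ℂ) ^ (-((y : ℂ) * I))

/-- the sum over the poles -/
noncomputable def PS3 (H U M q : ℕ) (b f1 f2 : ℕ → ℂ) (w : ℝ → ℝ) (y ε x : ℝ) : ℂ :=
  ∑ j ∈ PJ H U M, pc3 b f1 f2 w y j * kn y (x * exp (-(ε * I)) - (((px j : ℚ) : ℝ) / q : ℝ))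

end OO

end

section

/-!
# Row OP05: the function `F_lam` of a product with one short variable
-/

open Complex MeasureTheory Set Filter Topology
open scoped ComplexConjugate

namespace OO

theorem P05_aux_LA {q : ℕ} [NeZero q] (χ : DirichletCharacter ℂ q) (v : ℕ) (hv : v ≠ 0) :
    LA (ch χ) 0 0 v = χ ((v : ℕ) : ZMod q) := by
  have h0 : LZ.wt 0 = 1 := by simp [LZ.wt]
  simp [LA, ch, hv, h0]

theorem P05_aux_FA (f : ℕ → ℂ) (wt : ℝ → ℝ) (u : ℕ) (hu : u ≠ 0) :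
    FA f wt u = f u * (wt u : ℂ) := by
  simp [FA, hu]

/-- the term of the divisor `u` -/
noncomputable def P05_auxT {q : ℕ} [NeZero q] (χ : DirichletCharacter ℂ q) (f : ℕ → ℂ) (wt : ℝ → ℝ) (u n : ℕ) : ℂ :=
  if u ∣ n ∧ n ≠ 0 then f u * (wt u : ℂ) * χ ((n / u : ℕ) : ZMod q) else 0

theorem P05_aux_mul {q : ℕ} [NeZero q] (χ : DirichletCharacter ℂ q) (f : ℕ → ℂ) (wt : ℝ → ℝ) (U : ℕ)
    (hU : ∀ u : ℕ, U < u → wt u = 0) (n : ℕ) :
    (FA f wt * LA (ch χ) 0 0 : ArithmeticFunction ℂ) n = ∑ u ∈ Finset.Icc 1 U, P05_auxT χ f wt u n := by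
  rcases Nat.eq_zero_or_pos n with rfl | hn
  · rw [ArithmeticFunction.map_zero]
    symm
    apply Finset.sum_eq_zero
    intro u _
    simp [P05_auxT]
  · rw [ArithmeticFunction.mul_apply, Nat.sum_divisorsAntidiagonal (fun a b => FA f wt a * LA (ch χ) 0 0 b)]
    have h1 : ∀ u ∈ n.divisors, FA f wt u * LA (ch χ) 0 0 (n / u) = P05_auxT χ f wt u n := by
      intro u hu
      have hd := Nat.dvd_of_mem_divisors hu
      have hu0 : u ≠ 0 := by
        rintro rfl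
        simp at hu
      have hq0 : n / u ≠ 0 := by
        have := Nat.div_pos (Nat.le_of_dvd hn hd) (Nat.pos_of_ne_zero hu0)
        omega
      rw [P05_aux_LA χ _ hq0, P05_aux_FA f wt u hu0, P05_auxT, if_pos ⟨hd, hn.ne'⟩]
    rw [Finset.sum_congr rfl h1]
    have h2 : ∑ u ∈ n.divisors, P05_auxT χ f wt u n = ∑ u ∈ n.divisors ∪ Finset.Icc 1 U, P05_auxT χ f wt u n := by
      apply Finset.sum_subset Finset.subset_union_left
      intro u _ hu
      rw [P05_auxT, if_neg]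
      rintro ⟨h, h'⟩
      exact hu (Nat.mem_divisors.mpr ⟨h, h'⟩)
    have h3 : ∑ u ∈ Finset.Icc 1 U, P05_auxT χ f wt u n = ∑ u ∈ n.divisors ∪ Finset.Icc 1 U, P05_auxT χ f wt u n := by
      apply Finset.sum_subset Finset.subset_union_right
      intro u hu hu'
      have h4 : u ∈ n.divisors := by
        rcases Finset.mem_union.mp hu with h | h
        · exact h
        · exact absurd h hu'
      have hu0 : 0 < u := Nat.pos_of_mem_divisors h4
      have hlt : U < u := by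
        by_contra hcon
        exact hu' (Finset.mem_Icc.mpr ⟨hu0, by omega⟩)
      rw [P05_auxT]
      split_ifs
      · rw [hU u hlt]
        simp
      · rfl
    rw [h2, h3]

theorem P05_aux_inj (u : ℕ) (hu : 0 < u) : Function.Injective (fun v : ℕ => u * (v + 1)) := by
  intro a b h
  have := Nat.eq_of_mul_eq_mul_left hu h
  omega

theorem P05_aux_comp {q : ℕ} [NeZero q] (χ : DirichletCharacter ℂ q) (f : ℕ → ℂ) (wt : ℝ → ℝ) (w : ℂ) (u : ℕ)
    (hu : 0 < u) (v : ℕ) :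
    P05_auxT χ f wt u (u * (v + 1)) * exp (-(2 * Real.pi * ((u * (v + 1) : ℕ) : ℂ) * w)) =
      f u * (wt u : ℂ) * (χ ((v + 1 : ℕ) : ZMod q) * exp (-(2 * Real.pi * ((v + 1 : ℕ) : ℂ) * (u * w)))) := by
  have h1 : u ∣ u * (v + 1) ∧ u * (v + 1) ≠ 0 := ⟨dvd_mul_right _ _, by positivity⟩
  rw [P05_auxT, if_pos h1, Nat.mul_div_cancel_left _ hu]
  have h2 : -(2 * (Real.pi : ℂ) * ((u * (v + 1) : ℕ) : ℂ) * w) = -(2 * Real.pi * ((v + 1 : ℕ) : ℂ) * (u * w)) := by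
    push_cast
    ring
  rw [h2]
  ring

theorem P05_aux_range {q : ℕ} [NeZero q] (χ : DirichletCharacter ℂ q) (f : ℕ → ℂ) (wt : ℝ → ℝ) (w : ℂ) (u : ℕ)
    (n : ℕ) (hn : n ∉ Set.range (fun v : ℕ => u * (v + 1))) :
    P05_auxT χ f wt u n * exp (-(2 * Real.pi * n * w)) = 0 := by
  rw [P05_auxT, if_neg, zero_mul]
  rintro ⟨⟨k, rfl⟩, h0⟩
  apply hn
  have hk : k ≠ 0 := by
    rintro rfl
    simp at h0
  exact ⟨k - 1, by
    have : k - 1 + 1 = k := by omega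
    simp only [this]⟩

theorem P05_aux_sum {q : ℕ} [NeZero q] (χ : DirichletCharacter ℂ q) (f : ℕ → ℂ) (wt : ℝ → ℝ) (w : ℂ) (hw : 0 < w.re)
    (u : ℕ) (hu : 0 < u) :
    Summable (fun n : ℕ => P05_auxT χ f wt u n * exp (-(2 * Real.pi * n * w))) := by
  rw [← (P05_aux_inj u hu).summable_iff (P05_aux_range χ f wt w u)]
  have h1 : ((fun n : ℕ => P05_auxT χ f wt u n * exp (-(2 * Real.pi * n * w))) ∘ (fun v : ℕ => u * (v + 1))) =
      fun v : ℕ => f u * (wt u : ℂ) * (χ ((v + 1 : ℕ) : ZMod q) * exp (-(2 * Real.pi * ((v + 1 : ℕ) : ℂ) * (u * w)))) := by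
    funext v
    exact P05_aux_comp χ f wt w u hu v
  rw [h1]
  apply Summable.mul_left
  apply Summable.of_norm
  apply P01_summable
  simp only [Complex.mul_re, Complex.natCast_re, Complex.natCast_im, zero_mul, sub_zero]
  positivity

theorem P05_aux_tsum {q : ℕ} [NeZero q] (χ : DirichletCharacter ℂ q) (f : ℕ → ℂ) (wt : ℝ → ℝ) (w : ℂ)
    (u : ℕ) (hu : 0 < u) :
    ∑' n : ℕ, P05_auxT χ f wt u n * exp (-(2 * Real.pi * n * w)) = f u * (wt u : ℂ) * Th χ (u * w) := by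
  have hsup : Function.support (fun n : ℕ => P05_auxT χ f wt u n * exp (-(2 * Real.pi * n * w))) ⊆
      Set.range (fun v : ℕ => u * (v + 1)) := by
    intro n hn
    by_contra hcon
    exact hn (P05_aux_range χ f wt w u n hcon)
  rw [← (P05_aux_inj u hu).tsum_eq hsup]
  have h1 : ∀ v : ℕ, P05_auxT χ f wt u (u * (v + 1)) * exp (-(2 * Real.pi * ((u * (v + 1) : ℕ) : ℂ) * w)) =
      f u * (wt u : ℂ) * (χ ((v + 1 : ℕ) : ZMod q) * exp (-(2 * Real.pi * ((v + 1 : ℕ) : ℂ) * (u * w)))) :=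
    P05_aux_comp χ f wt w u hu
  rw [tsum_congr h1, tsum_mul_left, Th]

/-- OP05. PROOF. `(FA f wt * LA (ch χ) 0 0 : ArithmeticFunction ℂ) n = ∑_(u v = n) f(u) wt(u) χ(v)` (`ArithmeticFunction.mul_apply`, `LZ.wt 0 = 1`, `n^0 = 1`) `= ∑_(u ∈ Icc 1 U, u ∣ n) f(u) wt(u) χ(n/u)` for `n ≥ 1`, `0` for `n = 0`. So
`FS .. w = ∑_(u ∈ Icc 1 U) f(u) wt(u) ∑'_n [u ∣ n, n ≥ 1] χ(n/u) e^(-2πnw)` (exchange the finite sum, each series is summable: P01_summable), and the inner series is the one of `Th χ (u w)` along the injection `v ↦ u (v+1)`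
(`Function.Injective.tsum_eq`). -/
theorem P05_FS {q : ℕ} [NeZero q] (χ : DirichletCharacter ℂ q) (f : ℕ → ℂ) (wt : ℝ → ℝ) (U : ℕ) (hU : ∀ u : ℕ, U < u → wt u = 0)
    (w : ℂ) (hw : 0 < w.re) : FS (FA f wt * LA (ch χ) 0 0 : ArithmeticFunction ℂ) w = ∑ u ∈ Finset.Icc 1 U, f u * (wt u : ℂ) * Th χ (u * w) := by
  have h1 : ∀ n : ℕ, (FA f wt * LA (ch χ) 0 0 : ArithmeticFunction ℂ) n * exp (-(2 * Real.pi * n * w)) =
      ∑ u ∈ Finset.Icc 1 U, P05_auxT χ f wt u n * exp (-(2 * Real.pi * n * w)) := by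
    intro n
    rw [P05_aux_mul χ f wt U hU n, Finset.sum_mul]
  rw [FS, tsum_congr h1, Summable.tsum_finsetSum]
  · apply Finset.sum_congr rfl
    intro u hu
    exact P05_aux_tsum χ f wt w u (Finset.mem_Icc.mp hu).1
  · intro u hu
    exact P05_aux_sum χ f wt w hw u (Finset.mem_Icc.mp hu).1

end OO

end

section

/-!
# Definitions for the blocks D and G with shifts
-/

open Complex MeasureTheory Set Filter Topology
open scoped ComplexConjugate

namespace OO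

/-- global bounds for the prime sums of the four products of two families; the mixed products may have a
pole at `w = -iD` (order `(0,1)`) resp. `w = iD` (order `(1,0)`) when `b = 1` -/
def RBx (F : Fin 2 → ℕ → ℂ) (K D b : ℝ) : Prop :=
  ∀ i i' : Fin 2, ∀ w : ℂ, 0 < w.re → w.re ≤ 1 →
    |Rp (fun n => F i n * conj (F i' n)) (1 + w) +
      (if i = i' then Real.log ‖w‖ else b * Real.log ‖w + ((if i = 0 then D else -D : ℝ) : ℂ) * I‖)| ≤
      K + 2 * Real.log (1 + ‖w‖)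

/-- no pole, or a pole away from the origin -/
def Bx (D b : ℝ) : Prop := b = 0 ∨ (b = 1 ∧ D ≠ 0)

/-- `f(n) n^(-A) wt(θ (log n + c))`, `n ≥ 1` -/
noncomputable def LAs (f : ℕ → ℂ) (A : ℂ) (θ c : ℝ) : ArithmeticFunction ℂ :=
  ⟨fun n => if n = 0 then 0 else f n * (n : ℂ) ^ (-A) * (LZ.wt (θ * (Real.log n + c)) : ℂ), by simp⟩

/-- the six factors, with shifts in the first two -/
noncomputable def XS (F : Fin 2 → ℕ → ℂ) (j : Fin 6) (A : ℂ) (th c : ℝ) : ArithmeticFunction ℂ :=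
  if (j : ℕ) < 2 then LAs (F (fm j)) A th c else MA (F (fm j)) A th

/-- the factor of modulus at most one in the integral representation -/
noncomputable def es (j : Fin 6) (th c u : ℝ) : ℂ :=
  if (j : ℕ) < 2 then exp (-((1 + u * I) * ((th * c : ℝ) : ℂ))) else 1

/-- product of the six factors -/
noncomputable def PXs (F : Fin 2 → ℕ → ℂ) (A : Fin 6 → ℂ) (th c : Fin 6 → ℝ) : ArithmeticFunction ℂ :=
  ∏ j, XS F j (A j) (th j) (c j)

/-- combination of shifted weights: `∑ c_i LAs f A (t_i) (sh_i)` -/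
noncomputable def LCs {ι : Type} [Fintype ι] (f : ℕ → ℂ) (A : ℂ) (c t sh : ι → ℝ) :
    ArithmeticFunction ℂ := ∑ i, (c i : ℂ) • LAs f A (t i) (sh i)

/-- product of six factors, with combinations of shifted weights in the first two -/
noncomputable def PLs (F : Fin 2 → ℕ → ℂ) (A : Fin 6 → ℂ) {ι0 ι1 : Type} [Fintype ι0] [Fintype ι1]
    (c0 t0 sh0 : ι0 → ℝ) (c1 t1 sh1 : ι1 → ℝ) (m : ℝ) : ArithmeticFunction ℂ :=
  (LCs (F 0) (A 0) c0 t0 sh0 * LCs (F 1) (A 1) c1 t1 sh1) *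
    ((MA (F 0) (A 2) m * MA (F 1) (A 3) m) * (MA (F 0) (A 4) m * MA (F 1) (A 5) m))

end OO

end

section

/-!
# Row P3d: the integral of the series (Fubini for a series)
-/

open Complex MeasureTheory Set Filter Topology
open scoped ComplexConjugate

namespace OO

theorem P3d_aux_sum (q a : ℕ) (hq : 1 ≤ q) (s : ℝ) (hs : 0 < s) :
    Summable (fun j : ℕ => ((a + q * j : ℕ) : ℝ) * Real.exp (-(((a + q * j : ℕ) : ℝ) * s))) := by
  have h := Real.summable_pow_mul_exp_neg_nat_mul 1 hs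
  have hinj : Function.Injective (fun j : ℕ => a + q * j) := by
    intro i j hij
    have h1 : q * i = q * j := by
      have : a + q * i = a + q * j := hij
      omega
    exact Nat.eq_of_mul_eq_mul_left (by omega) h1
  have h2 := h.comp_injective hinj
  refine h2.congr (fun j => ?_)
  simp only [Function.comp_apply, pow_one]
  congr 2
  ring

/-- the terms -/
noncomputable def P3d_F (q a : ℕ) (y : ℝ) (ζ : ℂ) (j : ℕ) (x : ℝ) : ℂ :=
  (x : ℂ) ^ ((y : ℂ) * I) * (((a + q * j : ℕ) : ℂ) * exp (-(((a + q * j : ℕ) : ℂ) * (x + ζ))))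

theorem P3d_aux_norm (q a : ℕ) (y : ℝ) (ζ : ℂ) (j : ℕ) {x : ℝ} (hx : 0 < x) :
    ‖P3d_F q a y ζ j x‖ = ((a + q * j : ℕ) : ℝ) * Real.exp (-(((a + q * j : ℕ) : ℝ) * x)) *
      Real.exp (-(((a + q * j : ℕ) : ℝ) * ζ.re)) := by
  unfold P3d_F
  rw [norm_mul, norm_mul, Complex.norm_cpow_eq_rpow_re_of_pos hx, Complex.norm_exp,
    Complex.norm_natCast]
  have h1 : ((y : ℂ) * I).re = 0 := by simp
  have h2 : (-(((a + q * j : ℕ) : ℂ) * (x + ζ))).re = -(((a + q * j : ℕ) : ℝ) * x) +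
      -(((a + q * j : ℕ) : ℝ) * ζ.re) := by
    rw [Complex.neg_re, Complex.mul_re, Complex.natCast_re, Complex.natCast_im, Complex.add_re,
      Complex.ofReal_re]
    ring
  rw [h1, h2, Real.rpow_zero, one_mul, Real.exp_add]
  ring

theorem P3d_aux_le (q a : ℕ) (ha : 1 ≤ a) (y : ℝ) (ζ : ℂ) (j : ℕ) {x : ℝ} (hx : 0 < x) :
    ‖P3d_F q a y ζ j x‖ ≤ (((a + q * j : ℕ) : ℝ) * Real.exp (-(((a + q * j : ℕ) : ℝ) * ζ.re))) *
      Real.exp (-x) := by
  rw [P3d_aux_norm q a y ζ j hx]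
  have h1 : (1 : ℝ) ≤ ((a + q * j : ℕ) : ℝ) := by
    have : 1 ≤ a + q * j := by omega
    exact_mod_cast this
  have h2 : Real.exp (-(((a + q * j : ℕ) : ℝ) * x)) ≤ Real.exp (-x) := by
    apply Real.exp_le_exp.2
    nlinarith
  have h3 : 0 ≤ ((a + q * j : ℕ) : ℝ) * Real.exp (-(((a + q * j : ℕ) : ℝ) * ζ.re)) := by positivity
  nlinarith

theorem P3d_aux_cont (q a : ℕ) (y : ℝ) (ζ : ℂ) (j : ℕ) :
    ContinuousOn (P3d_F q a y ζ j) (Ioi 0) := by
  unfold P3d_F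
  apply ContinuousOn.mul
  · intro x hx
    apply ContinuousAt.continuousWithinAt
    exact (continuousAt_ofReal_cpow_const x _ (Or.inr (ne_of_gt hx)))
  · fun_prop

theorem P3d_aux_int (q a : ℕ) (ha : 1 ≤ a) (y : ℝ) (ζ : ℂ) (j : ℕ) :
    IntegrableOn (P3d_F q a y ζ j) (Ioi 0) := by
  have h1 : IntegrableOn (fun x : ℝ => (((a + q * j : ℕ) : ℝ) *
      Real.exp (-(((a + q * j : ℕ) : ℝ) * ζ.re))) * Real.exp (-x)) (Ioi 0) := by
    have h2 : IntegrableOn (fun x : ℝ => Real.exp (-x)) (Ioi 0) := by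
      have := exp_neg_integrableOn_Ioi 0 one_pos
      simpa using this
    exact Integrable.const_mul h2 _
  refine Integrable.mono' h1 ((P3d_aux_cont q a y ζ j).aestronglyMeasurable measurableSet_Ioi) ?_
  rw [ae_restrict_iff' measurableSet_Ioi]
  exact Eventually.of_forall (fun x hx => P3d_aux_le q a ha y ζ j hx)

theorem P3d_aux_eval (q a : ℕ) (ha : 1 ≤ a) (y : ℝ) (ζ : ℂ) (j : ℕ) :
    ∫ x in Ioi (0 : ℝ), P3d_F q a y ζ j x = Gamma (1 + (y : ℂ) * I) *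
      (((a + q * j : ℕ) : ℂ) ^ (-((y : ℂ) * I)) * exp (-(((a + q * j : ℕ) : ℂ) * ζ))) := by
  have hc : 0 < a + q * j := by omega
  have hc' : (0 : ℝ) < ((a + q * j : ℕ) : ℝ) := by exact_mod_cast hc
  have hcn : ((a + q * j : ℕ) : ℂ) ≠ 0 := by
    have : (a + q * j : ℕ) ≠ 0 := by omega
    exact_mod_cast this
  have h1 := Complex.integral_cpow_mul_exp_neg_mul_Ioi (a := 1 + (y : ℂ) * I)
    (r := ((a + q * j : ℕ) : ℝ)) (by simp) hc'
  have h2 : ∀ x : ℝ, P3d_F q a y ζ j x = (((a + q * j : ℕ) : ℂ) *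
      exp (-(((a + q * j : ℕ) : ℂ) * ζ))) * ((x : ℂ) ^ (1 + (y : ℂ) * I - 1) *
        exp (-((((a + q * j : ℕ) : ℝ) : ℂ) * x))) := by
    intro x
    unfold P3d_F
    have h3 : -(((a + q * j : ℕ) : ℂ) * (x + ζ)) = -(((a + q * j : ℕ) : ℂ) * ζ) +
      -(((a + q * j : ℕ) : ℂ) * x) := by ring
    rw [h3, Complex.exp_add, add_sub_cancel_left, Complex.ofReal_natCast]
    ring
  simp_rw [h2]
  rw [integral_const_mul, h1, Complex.ofReal_natCast, one_div, Complex.inv_cpow, ← Complex.cpow_neg,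
    neg_add, Complex.cpow_add _ _ hcn, Complex.cpow_neg_one]
  · field_simp
  · rw [Complex.natCast_arg]
    exact Real.pi_pos.ne

/-- PROOF. `F j x = x^(iy) (a+qj) exp(-(a+qj)(x+ζ))`, `‖F j x‖ = (a+qj) exp(-(a+qj)x) exp(-(a+qj) ζ.re)` for `x > 0` (`‖x^(iy)‖ = 1`), its integral over `(0,∞)` is `exp(-(a+qj) ζ.re)`, summable (geometric).
`MeasureTheory.hasSum_integral_of_summable_integral_norm` / `integral_tsum_of_summable_integral_norm`; `Complex.integral_cpow_mul_exp_neg_mul_Ioi` with `a = 1 + iy`, `r = a + qj`: `∫ F j = (a+qj) exp(-(a+qj)ζ) (1/(a+qj))^(1+iy) Γ(1+iy)`.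
Integrability of the sum: if it were not integrable the integral of ... (or: `integrable_of_summable_norm_...`, `MeasureTheory.Integrable` of a tsum: dominated by `∑ ‖F j x‖`, use `lintegral_tsum`); alternatively use P3_G_eq of P3_c.lean (closed form,
continuous) and `‖G3 q a (x+ζ)‖ ≤ ∑ (a+qj) exp(-(a+qj) ζ.re) exp(-x) = const exp(-x)` (`a + qj ≥ 1`). -/
theorem P3_fub (q a : ℕ) (hq : 1 ≤ q) (ha : 1 ≤ a) (y : ℝ) (ζ : ℂ) (hζ : 0 < ζ.re) :
    IntegrableOn (fun x : ℝ => (x : ℂ) ^ ((y : ℂ) * I) * G3 q a (x + ζ)) (Ioi 0) ∧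
    ∫ x in Ioi (0 : ℝ), (x : ℂ) ^ ((y : ℂ) * I) * G3 q a (x + ζ) = Gamma (1 + (y : ℂ) * I) * A3 q a y ζ := by
  have hsum := P3d_aux_sum q a hq ζ.re hζ
  have hG : ∀ x : ℝ, (x : ℂ) ^ ((y : ℂ) * I) * G3 q a (x + ζ) = ∑' j, P3d_F q a y ζ j x := by
    intro x
    unfold G3 P3d_F
    rw [tsum_mul_left]
  have hle : ∀ (j : ℕ) (x : ℝ), 0 < x → ‖P3d_F q a y ζ j x‖ ≤
      ((a + q * j : ℕ) : ℝ) * Real.exp (-(((a + q * j : ℕ) : ℝ) * ζ.re)) := by
    intro j x hx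
    refine (P3d_aux_le q a ha y ζ j hx).trans ?_
    apply mul_le_of_le_one_right (by positivity)
    rw [Real.exp_le_one_iff]
    linarith
  have hcont : ContinuousOn (fun x : ℝ => ∑' j, P3d_F q a y ζ j x) (Ioi 0) :=
    continuousOn_tsum (fun j => P3d_aux_cont q a y ζ j) hsum (fun j x hx => hle j x hx)
  have hexp : IntegrableOn (fun x : ℝ => Real.exp (-x)) (Ioi 0) := by
    have := exp_neg_integrableOn_Ioi 0 one_pos
    simpa using this
  have hbd : ∀ x : ℝ, 0 < x → ‖∑' j, P3d_F q a y ζ j x‖ ≤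
      (∑' j : ℕ, ((a + q * j : ℕ) : ℝ) * Real.exp (-(((a + q * j : ℕ) : ℝ) * ζ.re))) *
        Real.exp (-x) := by
    intro x hx
    rw [← tsum_mul_right]
    exact tsum_of_norm_bounded (hsum.mul_right _).hasSum (fun j => P3d_aux_le q a ha y ζ j hx)
  have hint : IntegrableOn (fun x : ℝ => ∑' j, P3d_F q a y ζ j x) (Ioi 0) := by
    refine Integrable.mono' (hexp.const_mul
      (∑' j : ℕ, ((a + q * j : ℕ) : ℝ) * Real.exp (-(((a + q * j : ℕ) : ℝ) * ζ.re))))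
      (hcont.aestronglyMeasurable measurableSet_Ioi) ?_
    rw [ae_restrict_iff' measurableSet_Ioi]
    exact Eventually.of_forall (fun x hx => hbd x hx)
  have hS : Summable (fun j => ∫ x in Ioi (0 : ℝ), ‖P3d_F q a y ζ j x‖) := by
    refine Summable.of_nonneg_of_le (fun j => integral_nonneg (fun x => norm_nonneg _)) ?_ hsum
    intro j
    have h1 : ∫ x in Ioi (0 : ℝ), ‖P3d_F q a y ζ j x‖ ≤ ∫ x in Ioi (0 : ℝ),
        (((a + q * j : ℕ) : ℝ) * Real.exp (-(((a + q * j : ℕ) : ℝ) * ζ.re))) * Real.exp (-x) := by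
      apply setIntegral_mono_on (P3d_aux_int q a ha y ζ j).norm (hexp.const_mul _) measurableSet_Ioi
      intro x hx
      exact P3d_aux_le q a ha y ζ j hx
    rw [integral_const_mul, integral_exp_neg_Ioi_zero, mul_one] at h1
    exact h1
  have hHS := hasSum_integral_of_summable_integral_norm (μ := volume.restrict (Ioi (0 : ℝ)))
    (F := fun j x => P3d_F q a y ζ j x) (fun j => P3d_aux_int q a ha y ζ j) hS
  constructor
  · simp_rw [hG]
    exact hint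
  · simp_rw [hG]
    rw [← hHS.tsum_eq]
    unfold A3
    rw [← tsum_mul_left]
    exact tsum_congr (fun j => P3d_aux_eval q a ha y ζ j)

end OO

end

section

/-!
# Row P3a: the coefficients and the series
-/

open Complex MeasureTheory Set Filter Topology
open scoped ComplexConjugate

namespace OO

theorem P3_chx_norm {q : ℕ} [NeZero q] (χ : DirichletCharacter ℂ q) (y : ℝ) (n : ℕ) : ‖chx χ y n‖ ≤ 1 := by
  unfold chx
  rw [norm_mul]
  have h1 : ‖χ ((n : ℕ) : ZMod q)‖ ≤ 1 := DirichletCharacter.norm_le_one χ _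
  have h2 : ‖(n : ℂ) ^ (-((y : ℂ) * I))‖ ≤ 1 := by
    have hre : (-((y : ℂ) * I)).re = 0 := by simp
    rcases Nat.eq_zero_or_pos n with hn | hn
    · rw [hn, Nat.cast_zero]
      by_cases hs : (-((y : ℂ) * I)) = 0
      · rw [hs, Complex.cpow_zero, norm_one]
      · rw [Complex.zero_cpow hs, norm_zero]
        exact zero_le_one
    · rw [Complex.norm_natCast_cpow_of_pos hn, hre, Real.rpow_zero]
  calc ‖χ ((n : ℕ) : ZMod q)‖ * ‖(n : ℂ) ^ (-((y : ℂ) * I))‖ ≤ 1 * 1 :=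
        mul_le_mul h1 h2 (norm_nonneg _) zero_le_one
    _ = 1 := one_mul 1

theorem P3_aux_norm {q : ℕ} [NeZero q] (χ : DirichletCharacter ℂ q) (y : ℝ) (w : ℂ) (v : ℕ) :
    ‖chx χ y (v + 1) * exp (-(2 * Real.pi * ((v + 1 : ℕ) : ℂ) * w))‖ ≤
      Real.exp (-(2 * Real.pi * w.re)) ^ (v + 1) := by
  have h1 : ‖exp (-(2 * Real.pi * ((v + 1 : ℕ) : ℂ) * w))‖ =
      Real.exp (-(2 * Real.pi * w.re)) ^ (v + 1) := by
    rw [Complex.norm_exp, ← Real.exp_nat_mul]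
    congr 1
    have h2 : (2 * Real.pi * ((v + 1 : ℕ) : ℂ) * w) = ((2 * Real.pi * (v + 1 : ℕ) : ℝ) : ℂ) * w := by
      push_cast
      ring
    rw [neg_re, h2, re_ofReal_mul]
    ring
  rw [norm_mul, h1]
  calc ‖chx χ y (v + 1)‖ * Real.exp (-(2 * Real.pi * w.re)) ^ (v + 1) ≤
        1 * Real.exp (-(2 * Real.pi * w.re)) ^ (v + 1) :=
      mul_le_mul_of_nonneg_right (P3_chx_norm χ y _) (by positivity)
    _ = _ := one_mul _

theorem P3_summable {q : ℕ} [NeZero q] (χ : DirichletCharacter ℂ q) (y : ℝ) (w : ℂ) (hw : 0 < w.re) :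
    Summable (fun v : ℕ => ‖chx χ y (v + 1) * exp (-(2 * Real.pi * ((v + 1 : ℕ) : ℂ) * w))‖) :=
  Summable.of_nonneg_of_le (fun _ => norm_nonneg _) (P3_aux_norm χ y w) (P01_aux_geo hw).summable

theorem P3_crude {q : ℕ} [NeZero q] (χ : DirichletCharacter ℂ q) (y : ℝ) (w : ℂ) (hw : 0 < w.re) :
    ‖Th3 χ y w‖ ≤ 1 / w.re := by
  have hg := P01_aux_geo hw
  have hr := P01_aux_lt hw
  have h1 : ‖Th3 χ y w‖ ≤ Real.exp (-(2 * Real.pi * w.re)) *
      (1 - Real.exp (-(2 * Real.pi * w.re)))⁻¹ := by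
    rw [Th3]
    refine (norm_tsum_le_tsum_norm (P3_summable χ y w hw)).trans ?_
    rw [← hg.tsum_eq]
    exact (P3_summable χ y w hw).tsum_le_tsum (P3_aux_norm χ y w) hg.summable
  refine h1.trans ?_
  have hpi := Real.pi_gt_three
  have h2 : w.re ≤ 2 * Real.pi * w.re := by nlinarith
  have h3 := Real.add_one_le_exp (2 * Real.pi * w.re)
  have h4 : w.re ≤ Real.exp (2 * Real.pi * w.re) - 1 := by linarith
  have h5 : Real.exp (-(2 * Real.pi * w.re)) * Real.exp (2 * Real.pi * w.re) = 1 := by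
    rw [← Real.exp_add, neg_add_cancel, Real.exp_zero]
  have h6 : 0 < 1 - Real.exp (-(2 * Real.pi * w.re)) := by linarith
  rw [← div_eq_mul_inv, div_le_div_iff₀ h6 hw]
  have h7 := mul_le_mul_of_nonneg_left h4 (Real.exp_pos (-(2 * Real.pi * w.re))).le
  nlinarith

end OO

end

section

/-!
# Row P3c1: the series G3, closed form
-/

open Complex MeasureTheory Set Filter Topology
open scoped ComplexConjugate

namespace OO

/-- PROOF. `r = exp(-qζ)`, `‖r‖ < 1`, `exp(-(a+qj)ζ) = exp(-aζ) r^j`; `tsum_geometric_of_norm_lt_one`, `tsum_coe_mul_geometric_of_norm_lt_one` (and their HasSum forms). -/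
theorem P3_G_eq (q a : ℕ) (hq : 1 ≤ q) (ζ : ℂ) (hζ : 0 < ζ.re) :
    G3 q a ζ = exp (-(a * ζ)) * (a / (1 - exp (-(q * ζ))) + q * exp (-(q * ζ)) / (1 - exp (-(q * ζ))) ^ 2) := by
  have hq' : (0 : ℝ) < q := by exact_mod_cast hq
  have hr : ‖exp (-(q * ζ))‖ < 1 := by
    rw [Complex.norm_exp, Real.exp_lt_one_iff, neg_re]
    have h2 : ((q : ℂ) * ζ) = ((q : ℝ) : ℂ) * ζ := by push_cast; rfl
    rw [h2, re_ofReal_mul]
    have : 0 < (q : ℝ) * ζ.re := mul_pos hq' hζ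
    linarith
  have h3 : ∀ j : ℕ, ((a + q * j : ℕ) : ℂ) * exp (-(((a + q * j : ℕ) : ℂ) * ζ)) =
      (exp (-(a * ζ)) * a) * exp (-(q * ζ)) ^ j +
        (exp (-(a * ζ)) * q) * ((j : ℂ) * exp (-(q * ζ)) ^ j) := by
    intro j
    have h5 : exp (-(((a + q * j : ℕ) : ℂ) * ζ)) = exp (-(a * ζ)) * exp (-(q * ζ)) ^ j := by
      rw [← Complex.exp_nat_mul, ← Complex.exp_add]
      congr 1
      push_cast
      ring
    rw [h5]
    push_cast
    ring
  have hA := (hasSum_geometric_of_norm_lt_one hr).mul_left (exp (-(a * ζ)) * a)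
  have hB := (hasSum_coe_mul_geometric_of_norm_lt_one hr).mul_left (exp (-(a * ζ)) * q)
  have hC := (hA.add hB).tsum_eq
  rw [G3]
  simp only [h3]
  rw [hC]
  ring

/-- PROOF. As P02_exp (mean value inequality): `exp(-z) - 1 + z - z²/2` has the derivative `-(exp(-z) - 1 + z)`, of norm `≤ ‖z‖²` on the segment. -/
theorem P3_exp3 (z : ℂ) (hz : 0 ≤ z.re) : ‖exp (-z) - 1 + z - z ^ 2 / 2‖ ≤ ‖z‖ ^ 3 := by
  have h := Convex.norm_image_sub_le_of_norm_hasDerivWithin_le (𝕜 := ℂ)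
    (f := fun u : ℂ => exp (-u) + u - u ^ 2 / 2)
    (f' := fun u : ℂ => -exp (-u) + 1 - u) (C := ‖z‖ ^ 2)
    (s := {u : ℂ | 0 ≤ u.re} ∩ Metric.closedBall 0 ‖z‖) (x := 0) (y := z)
    (fun u _ => by
      have h1 : HasDerivAt (fun u : ℂ => exp (-u)) (exp (-u) * -1) u := ((hasDerivAt_id u).neg).cexp
      rw [mul_neg_one] at h1
      have h2 : HasDerivAt (fun u : ℂ => u ^ 2 / 2) u u := by
        have h3 := ((hasDerivAt_id u).pow 2).div_const 2
        refine h3.congr_deriv ?_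
        simp
      exact ((h1.add (hasDerivAt_id u)).sub h2).hasDerivWithinAt)
    (fun u hu => by
      have h1 := (P02_exp u hu.1).2
      have h2 : ‖u‖ ≤ ‖z‖ := by simpa using hu.2
      have h3 : -exp (-u) + 1 - u = -(exp (-u) - 1 + u) := by ring
      rw [h3, norm_neg]
      exact h1.trans (pow_le_pow_left₀ (norm_nonneg _) h2 2))
    ((convex_halfSpace_re_ge 0).inter (convex_closedBall 0 _)) (by simp) ⟨hz, by simp⟩
  have e1 : exp (-z) + z - z ^ 2 / 2 - (exp (-0) + 0 - 0 ^ 2 / 2) = exp (-z) - 1 + z - z ^ 2 / 2 := by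
    rw [neg_zero, Complex.exp_zero]
    ring
  rw [e1, sub_zero] at h
  calc ‖exp (-z) - 1 + z - z ^ 2 / 2‖ ≤ ‖z‖ ^ 2 * ‖z‖ := h
    _ = ‖z‖ ^ 3 := by ring

end OO

end

section

/-!
# Row OP04a: the series of a primitive character is the sum over its poles, up to a bounded error
-/

open Complex MeasureTheory Set Filter Topology

namespace OO

/-- OP04a. PROOF. `m0 = round (q Im w)`, a natural number `≤ M` (as `0 ≤ q Im w ≤ M - 1/2`), `w' = w - i m0/q`, `|q Im w'| ≤ 1/2`, `0 < Re w' ≤ 1`. By P01_eq and `exp(-2πqw) = exp(-2πqw')`, `exp(-2πaw) = exp(-2πi a m0/q) exp(-2πaw')`: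
`Th χ w = ∑_a χ(a) exp(-2πi a m0/q) · [exp(-θs)/(1 - exp(-s))]`, `s = 2πqw'`, `θ = a/q`. By P02_kernel (`R = 2πq`) the bracket is `1/s + O(4 e^(2πq))`, and by P03_gauss the sum is
`χ⁻¹(m0) tc χ/(2πq w')` up to `4 q e^(2πq)`. -/
theorem P04_near {q : ℕ} [NeZero q] (χ : DirichletCharacter ℂ q) (hχ : χ.IsPrimitive) (w : ℂ) (h0 : 0 < w.re) (h1 : w.re ≤ 1)
    (m0 : ℕ) (hm : |q * w.im - m0| ≤ 1 / 2) :
    ‖Th χ w - (χ⁻¹ : DirichletCharacter ℂ q) ((m0 : ℕ) : ZMod q) * tc χ / (2 * Real.pi * q * (w - I * m0 / q))‖ ≤ 4 * q * Real.exp (2 * Real.pi * q) := by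
  have hq0 : (q : ℂ) ≠ 0 := by exact_mod_cast NeZero.ne q
  have hqpos : (0 : ℝ) < q := by exact_mod_cast Nat.pos_of_ne_zero (NeZero.ne q)
  set s : ℂ := 2 * Real.pi * q * (w - I * m0 / q) with hs
  have hs' : s = 2 * Real.pi * q * w - (m0 : ℂ) * (2 * Real.pi * I) := by
    rw [hs]; field_simp
  have hsre : s.re = 2 * Real.pi * q * w.re := by
    rw [hs']
    have h1 : (2 * (Real.pi : ℂ) * q * w) = ((2 * Real.pi * q : ℝ) : ℂ) * w := by push_cast; ring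
    have h2 : (m0 : ℂ) * (2 * Real.pi * I) = ((m0 * (2 * Real.pi) : ℝ) : ℂ) * I := by push_cast; ring
    rw [h1, h2, sub_re, re_ofReal_mul, re_ofReal_mul, I_re]
    ring
  have hsim : s.im = 2 * Real.pi * (q * w.im - m0) := by
    rw [hs']
    have h1 : (2 * (Real.pi : ℂ) * q * w) = ((2 * Real.pi * q : ℝ) : ℂ) * w := by push_cast; ring
    have h2 : (m0 : ℂ) * (2 * Real.pi * I) = ((m0 * (2 * Real.pi) : ℝ) : ℂ) * I := by push_cast; ring
    rw [h1, h2, sub_im, im_ofReal_mul, im_ofReal_mul, I_im]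
    ring
  have hre0 : 0 < s.re := by rw [hsre]; positivity
  have hreR : s.re ≤ 2 * Real.pi * q := by
    rw [hsre]
    exact mul_le_of_le_one_right (by positivity) h1
  have him : |s.im| ≤ Real.pi := by
    rw [hsim, abs_mul, abs_of_pos (by positivity : (0 : ℝ) < 2 * Real.pi)]
    calc 2 * Real.pi * |(q : ℝ) * w.im - m0| ≤ 2 * Real.pi * (1 / 2) :=
          mul_le_mul_of_nonneg_left hm (by positivity)
      _ = Real.pi := by ring
  have hexp1 : exp (-(2 * Real.pi * q * w)) = exp (-s) := by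
    have : -(2 * Real.pi * q * w) = -s - (m0 : ℂ) * (2 * Real.pi * I) := by rw [hs']; ring
    rw [this, exp_sub, Complex.exp_nat_mul_two_pi_mul_I, div_one]
  have hterm : ∀ a : ℕ, exp (-(2 * Real.pi * a * w)) =
      exp (-(2 * Real.pi * I * a * m0 / q)) * exp (-(((a / q : ℝ) : ℂ) * s)) := by
    intro a
    rw [← exp_add]
    congr 1
    rw [hs']
    push_cast
    field_simp
    ring
  rw [P01_eq χ w h0, hexp1]
  have hgauss := P03_gauss χ hχ m0
  have hsplit : ∑ a ∈ Finset.Icc 1 q, χ ((a : ℕ) : ZMod q) * (exp (-(2 * Real.pi * a * w)) / (1 - exp (-s))) -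
      (χ⁻¹ : DirichletCharacter ℂ q) ((m0 : ℕ) : ZMod q) * tc χ / s =
      ∑ a ∈ Finset.Icc 1 q, χ ((a : ℕ) : ZMod q) * exp (-(2 * Real.pi * I * a * m0 / q)) *
        (exp (-(((a / q : ℝ) : ℂ) * s)) / (1 - exp (-s)) - 1 / s) := by
    rw [← hgauss, Finset.sum_div, ← Finset.sum_sub_distrib]
    refine Finset.sum_congr rfl fun a _ => ?_
    rw [hterm a]
    ring
  rw [hsplit]
  calc ‖∑ a ∈ Finset.Icc 1 q, χ ((a : ℕ) : ZMod q) * exp (-(2 * Real.pi * I * a * m0 / q)) *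
        (exp (-(((a / q : ℝ) : ℂ) * s)) / (1 - exp (-s)) - 1 / s)‖
      ≤ ∑ a ∈ Finset.Icc 1 q, ‖χ ((a : ℕ) : ZMod q) * exp (-(2 * Real.pi * I * a * m0 / q)) *
        (exp (-(((a / q : ℝ) : ℂ) * s)) / (1 - exp (-s)) - 1 / s)‖ := norm_sum_le _ _
    _ ≤ ∑ _a ∈ Finset.Icc 1 q, 4 * Real.exp (2 * Real.pi * q) := by
        refine Finset.sum_le_sum fun a ha => ?_
        obtain ⟨ha1, ha2⟩ := Finset.mem_Icc.mp ha
        have hk := P02_kernel (a / q) (2 * Real.pi * q) (by positivity)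
          (by rw [div_le_one hqpos]; exact_mod_cast ha2) s hre0 hreR him
        rw [norm_mul, norm_mul]
        have hn1 : ‖exp (-(2 * Real.pi * I * a * m0 / q))‖ = 1 := by
          have : -(2 * Real.pi * I * a * m0 / q) = ((-(2 * Real.pi * a * m0 / q) : ℝ) : ℂ) * I := by
            push_cast; ring
          rw [this, Complex.norm_exp_ofReal_mul_I]
        rw [hn1, mul_one]
        calc ‖χ ((a : ℕ) : ZMod q)‖ * ‖exp (-(((a / q : ℝ) : ℂ) * s)) / (1 - exp (-s)) - 1 / s‖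
            ≤ 1 * (4 * Real.exp (2 * Real.pi * q)) :=
              mul_le_mul (DirichletCharacter.norm_le_one χ _) hk (norm_nonneg _) zero_le_one
          _ = 4 * Real.exp (2 * Real.pi * q) := one_mul _
    _ = 4 * q * Real.exp (2 * Real.pi * q) := by
        rw [Finset.sum_const, Nat.card_Icc]; simp; ring

end OO

end

section

/-!
# Row P3b: the residue classes
-/

open Complex MeasureTheory Set Filter Topology
open scoped ComplexConjugate

namespace OO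

/-- PROOF. As P01_eq (OO/P_01.lean): `Nat.sumByResidueClasses` with P3_summable, P01_aux_sum; `v + 1 = a + q j`, `χ(a + q j) = χ(a)`; with `ζ = 2π(w - i m0/q)`:
`exp(-2π(a+qj)w) = exp(-(a+qj)ζ) exp(-2πi a m0/q) exp(-2πi j m0)`, the last factor is 1. -/
theorem P3_split {q : ℕ} [NeZero q] (χ : DirichletCharacter ℂ q) (y : ℝ) (w : ℂ) (hw : 0 < w.re) (m0 : ℕ) :
    Th3 χ y w = ∑ a ∈ Finset.Icc 1 q, χ ((a : ℕ) : ZMod q) * exp (-(2 * Real.pi * I * a * m0 / q)) *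
      A3 q a y (2 * Real.pi * (w - I * m0 / q)) := by
  have hs : Summable (fun v : ℕ => chx χ y (v + 1) *
      exp (-(2 * Real.pi * ((v + 1 : ℕ) : ℂ) * w))) := (P3_summable χ y w hw).of_norm
  have hq0 : (q : ℂ) ≠ 0 := by exact_mod_cast NeZero.ne q
  rw [Th3, Nat.sumByResidueClasses hs q, ← P01_aux_sum q (fun a => χ ((a : ℕ) : ZMod q) *
    exp (-(2 * Real.pi * I * a * m0 / q)) * A3 q a y (2 * Real.pi * (w - I * m0 / q)))]
  apply Finset.sum_congr rfl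
  intro j _
  rw [A3, ← tsum_mul_left]
  apply tsum_congr
  intro l
  have e0 : j.val + q * l + 1 = (j.val + 1) + q * l := by ring
  have h4 : (((j.val + 1) + q * l : ℕ) : ZMod q) = ((j.val + 1 : ℕ) : ZMod q) := by
    push_cast
    rw [ZMod.natCast_self, zero_mul, add_zero]
  have h6 : exp (-(2 * Real.pi * I * (l : ℂ) * m0)) = 1 := by
    have : -(2 * Real.pi * I * (l : ℂ) * m0) = ((-((l * m0 : ℕ) : ℤ) : ℤ) : ℂ) * (2 * Real.pi * I) := by
      push_cast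
      ring
    rw [this, Complex.exp_int_mul_two_pi_mul_I]
  have h5 : exp (-(2 * Real.pi * (((j.val + 1) + q * l : ℕ) : ℂ) * w)) =
      exp (-(2 * Real.pi * I * ((j.val + 1 : ℕ) : ℂ) * m0 / q)) *
        exp (-((((j.val + 1) + q * l : ℕ) : ℂ) * (2 * Real.pi * (w - I * m0 / q)))) := by
    rw [← Complex.exp_add, ← mul_one (exp (_ + _)), ← h6, ← Complex.exp_add]
    congr 1
    push_cast
    field_simp
    ring
  rw [e0, chx, h4, h5]
  ring

end OO

end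

section

open Complex MeasureTheory Set Filter Topology
open scoped ComplexConjugate

namespace OO

variable {q1 q2 : ℕ}

theorem T_Ent3_diff [NeZero q1] [NeZero q2] (χ1 : DirichletCharacter ℂ q1) (χ2 : DirichletCharacter ℂ q2) (v : ℝ)
    (s : ℂ) (h1 : s + v * I ≠ 1) (h2 : s - v * I ≠ 1) : DifferentiableAt ℂ (T_LL3 χ1 χ2 v) s := by
  have d1 : DifferentiableAt ℂ (fun s : ℂ => LX.Lf χ1 (s + v * I)) s :=
    DifferentiableAt.comp (g := LX.Lf χ1) (f := fun s : ℂ => s + v * I) s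
      (DirichletCharacter.differentiableAt_LFunction χ1 _ (Or.inl h1)) (by fun_prop)
  have d2 : DifferentiableAt ℂ (fun s : ℂ => LX.Lf χ2 (s - v * I)) s :=
    DifferentiableAt.comp (g := LX.Lf χ2) (f := fun s : ℂ => s - v * I) s
      (DirichletCharacter.differentiableAt_LFunction χ2 _ (Or.inl h2)) (by fun_prop)
  exact d1.mul d2

theorem T_Ent3_im (v : ℝ) (s : ℂ) : (s + v * I).im = s.im + v ∧ (s - v * I).im = s.im - v ∧
    (s + v * I).re = s.re ∧ (s - v * I).re = s.re := by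
  refine ⟨by simp, by simp, by simp, by simp⟩

theorem T_Ent3_abs (a v : ℝ) : 1 + |a + v| ≤ (1 + |v|) * (1 + |a|) := by
  have h1 := abs_add_le a v
  have h2 := abs_nonneg a
  have h3 := abs_nonneg v
  nlinarith [mul_nonneg h2 h3]

theorem T_Ent3_bd [NeZero q1] [NeZero q2] (χ1 : DirichletCharacter ℂ q1) (χ2 : DirichletCharacter ℂ q2) (v : ℝ) :
    ∃ C : ℝ, 0 < C ∧ ∀ s : ℂ, 1/2 ≤ s.re → 1/4 ≤ ‖s + v * I - 1‖ → 1/4 ≤ ‖s - v * I - 1‖ →
      ‖T_LL3 χ1 χ2 v s‖ ≤ C * (1 + |s.im|) ^ 2 := by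
  obtain ⟨C1, hC1, hb1⟩ := LP.per_pol (fun j => χ1 j)
  obtain ⟨C2, hC2, hb2⟩ := LP.per_pol (fun j => χ2 j)
  refine ⟨C1 * (1 + |v|) * (C2 * (1 + |v|)), by positivity, ?_⟩
  intro s hs hs1 hs2
  obtain ⟨i1, i2, r1, r2⟩ := T_Ent3_im v s
  have a1 : ‖LX.Lf χ1 (s + v * I)‖ ≤ C1 * (1 + |(s + v * I).im|) := hb1 _ (by rw [r1]; linarith) hs1
  have a2 : ‖LX.Lf χ2 (s - v * I)‖ ≤ C2 * (1 + |(s - v * I).im|) := hb2 _ (by rw [r2]; linarith) hs2
  rw [i1] at a1
  rw [i2] at a2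
  have b1 := T_Ent3_abs s.im v
  have b2 : 1 + |s.im - v| ≤ (1 + |v|) * (1 + |s.im|) := by
    have := T_Ent3_abs s.im (-v)
    rwa [abs_neg, ← sub_eq_add_neg] at this
  have c1 : ‖LX.Lf χ1 (s + v * I)‖ ≤ C1 * ((1 + |v|) * (1 + |s.im|)) := a1.trans (by gcongr)
  have c2 : ‖LX.Lf χ2 (s - v * I)‖ ≤ C2 * ((1 + |v|) * (1 + |s.im|)) := a2.trans (by gcongr)
  unfold T_LL3
  rw [norm_mul]
  calc ‖LX.Lf χ1 (s + v * I)‖ * ‖LX.Lf χ2 (s - v * I)‖
      ≤ (C1 * ((1 + |v|) * (1 + |s.im|))) * (C2 * ((1 + |v|) * (1 + |s.im|))) :=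
        mul_le_mul c1 c2 (norm_nonneg _) (by positivity)
    _ = _ := by ring

/-- the entire function `(s - 1) L(s, χ)` -/
theorem T_Ent3_F {q : ℕ} [NeZero q] (χ : DirichletCharacter ℂ q) :
    ∃ F : ℂ → ℂ, Differentiable ℂ F ∧ (∀ s : ℂ, s ≠ 1 → F s = (s - 1) * LX.Lf χ s) ∧
      ∃ C : ℝ, 0 < C ∧ ∀ s : ℂ, 1/2 ≤ s.re → s.re ≤ 2 → ‖F s‖ ≤ C * (1 + |s.im|) ^ 2 := by
  obtain ⟨C1, hC1, hb1⟩ := LP.per_pol (fun j => χ j)
  obtain ⟨F, hF, hFs⟩ : ∃ F : ℂ → ℂ, Differentiable ℂ F ∧ (∀ s : ℂ, s ≠ 1 → F s = (s - 1) * LX.Lf χ s) := by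
    by_cases h1 : χ = 1
    · refine ⟨DirichletCharacter.LFunctionTrivChar₁ q, DirichletCharacter.differentiable_LFunctionTrivChar₁ q, ?_⟩
      intro s hs
      have e1 : DirichletCharacter.LFunctionTrivChar₁ q s = (s - 1) * DirichletCharacter.LFunctionTrivChar q s :=
        Function.update_of_ne hs _ _
      rw [e1, h1]
      rfl
    · exact ⟨fun s => (s - 1) * DirichletCharacter.LFunction χ s,
        (differentiable_id.sub_const 1).mul (DirichletCharacter.differentiable_LFunction h1), fun s _ => rfl⟩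
  refine ⟨F, hF, hFs, ?_⟩
  obtain ⟨M, hM⟩ := (isCompact_closedBall (1 : ℂ) (1 / 4)).exists_bound_of_continuousOn hF.continuous.continuousOn
  refine ⟨C1 + |M| + 1, by positivity, ?_⟩
  intro s hs hs2
  have hp : 1 ≤ 1 + |s.im| := by
    have := abs_nonneg s.im
    linarith
  have hp2 : 1 ≤ (1 + |s.im|) ^ 2 := one_le_pow₀ hp
  rcases le_total (‖s - 1‖) (1 / 4) with h | h
  · have h1 : ‖F s‖ ≤ M := hM s (by rw [Metric.mem_closedBall, dist_eq_norm]; exact h)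
    calc ‖F s‖ ≤ M := h1
      _ ≤ |M| := le_abs_self M
      _ ≤ (C1 + |M| + 1) * 1 := by linarith
      _ ≤ (C1 + |M| + 1) * (1 + |s.im|) ^ 2 := by gcongr
  · have hs1 : s ≠ 1 := by
      rintro rfl
      norm_num at h
    rw [hFs s hs1, norm_mul]
    have h2 : ‖s - 1‖ ≤ 1 + |s.im| := by
      refine (Complex.norm_le_abs_re_add_abs_im (s - 1)).trans ?_
      have e1 : |(s - 1).re| ≤ 1 := by
        rw [sub_re, one_re, abs_le]
        constructor <;> linarith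
      have e2 : (s - 1).im = s.im := by simp
      rw [e2]
      linarith
    have a1 : ‖LX.Lf χ s‖ ≤ C1 * (1 + |s.im|) := hb1 s (by linarith) h
    calc ‖s - 1‖ * ‖LX.Lf χ s‖ ≤ (1 + |s.im|) * (C1 * (1 + |s.im|)) :=
          mul_le_mul h2 a1 (norm_nonneg _) (by positivity)
      _ = C1 * (1 + |s.im|) ^ 2 := by ring
      _ ≤ (C1 + |M| + 1) * (1 + |s.im|) ^ 2 := by
          apply mul_le_mul_of_nonneg_right _ (by positivity)
          have := abs_nonneg M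
          linarith

theorem T_Ent3_nt [NeZero q1] [NeZero q2] {χ1 : DirichletCharacter ℂ q1} {χ2 : DirichletCharacter ℂ q2}
    (hne : Ne12 χ1 χ2) : ¬ (χ1 = 1 ∧ χ2 = 1) := by
  rintro ⟨h1, h2⟩
  obtain ⟨n, hn, hne'⟩ := hne
  apply hne'
  have u1 : IsUnit (n : ZMod q1) := (ZMod.isUnit_iff_coprime n q1).mpr (Nat.Coprime.coprime_mul_right_right hn)
  have u2 : IsUnit (n : ZMod q2) := (ZMod.isUnit_iff_coprime n q2).mpr (Nat.Coprime.coprime_mul_left_right hn)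
  rw [h1, h2, MulChar.one_apply u1, MulChar.one_apply u2]

/-- decomposition into two simple poles -/
theorem T_ent3 [NeZero q1] [NeZero q2] (χ1 : DirichletCharacter ℂ q1) (χ2 : DirichletCharacter ℂ q2) (v : ℝ)
    (hne : NeX χ1 v χ2 (-v)) :
    ∃ E1 E2 : ℂ → ℂ, Differentiable ℂ E1 ∧ Differentiable ℂ E2 ∧
      (∀ s : ℂ, s + v * I ≠ 1 → s - v * I ≠ 1 →
        T_LL3 χ1 χ2 v s = E1 s / (s + v * I - 1) + E2 s / (s - v * I - 1)) ∧
      ∃ C : ℝ, 0 < C ∧ ∀ s : ℂ, 1/2 ≤ s.re → s.re ≤ 2 →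
        ‖E1 s‖ ≤ C * (1 + |s.im|) ^ 4 ∧ ‖E2 s‖ ≤ C * (1 + |s.im|) ^ 4 := by
  by_cases hv : v = 0
  · have hn : Ne12 χ1 χ2 := by
      rcases hne with h | h
      · exact h
      · exact absurd (by rw [hv]; simp) h
    obtain ⟨E, hE, hEs, C, hC, hEb⟩ := (T_ent χ1 χ2).2.2 (T_Ent3_nt hn)
    refine ⟨E, fun _ => 0, hE, differentiable_const _, ?_, C, hC, ?_⟩
    · intro s h1 _
      rw [hv] at h1 ⊢
      simp only [ofReal_zero, zero_mul, add_zero, sub_zero, zero_div] at h1 ⊢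
      have : s - 1 ≠ 0 := sub_ne_zero.2 h1
      rw [hEs s h1, mul_div_cancel_left₀ _ this]
      unfold T_LL3 T_LL
      simp
    · intro s h1 h2
      have hp : 1 ≤ 1 + |s.im| := by
        have := abs_nonneg s.im
        linarith
      refine ⟨(hEb s h1 h2).trans ?_, by simp; positivity⟩
      have : (1 + |s.im|) ^ 3 ≤ (1 + |s.im|) ^ 4 := pow_le_pow_right₀ hp (by norm_num)
      gcongr
  · obtain ⟨F1, hF1, hF1s, C1, hC1, hF1b⟩ := T_Ent3_F χ1
    obtain ⟨F2, hF2, hF2s, C2, hC2, hF2b⟩ := T_Ent3_F χ2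
    have hvc : (v : ℂ) ≠ 0 := by exact_mod_cast hv
    have h2v : 2 * (v : ℂ) * I ≠ 0 := mul_ne_zero (mul_ne_zero two_ne_zero hvc) I_ne_zero
    set P : ℂ → ℂ := fun s => F1 (s + v * I) * F2 (s - v * I) with hP
    have hPd : Differentiable ℂ P := by
      have d1 : Differentiable ℂ (fun s : ℂ => F1 (s + v * I)) := hF1.comp (by fun_prop)
      have d2 : Differentiable ℂ (fun s : ℂ => F2 (s - v * I)) := hF2.comp (by fun_prop)
      exact d1.mul d2
    have hPb : ∀ s : ℂ, 1/2 ≤ s.re → s.re ≤ 2 → ‖P s‖ ≤ (C1 * (1 + |v|) ^ 2 * (C2 * (1 + |v|) ^ 2)) * (1 + |s.im|) ^ 4 := by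
      intro s h1 h2
      obtain ⟨i1, i2, r1, r2⟩ := T_Ent3_im v s
      have a1 := hF1b (s + v * I) (by rw [r1]; exact h1) (by rw [r1]; exact h2)
      have a2 := hF2b (s - v * I) (by rw [r2]; exact h1) (by rw [r2]; exact h2)
      rw [i1] at a1
      rw [i2] at a2
      have b1 := T_Ent3_abs s.im v
      have b2 : 1 + |s.im - v| ≤ (1 + |v|) * (1 + |s.im|) := by
        have := T_Ent3_abs s.im (-v)
        rwa [abs_neg, ← sub_eq_add_neg] at this
      have c1 : ‖F1 (s + v * I)‖ ≤ C1 * ((1 + |v|) * (1 + |s.im|)) ^ 2 := a1.trans (by gcongr)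
      have c2 : ‖F2 (s - v * I)‖ ≤ C2 * ((1 + |v|) * (1 + |s.im|)) ^ 2 := a2.trans (by gcongr)
      simp only [hP]
      rw [norm_mul]
      calc ‖F1 (s + v * I)‖ * ‖F2 (s - v * I)‖
          ≤ (C1 * ((1 + |v|) * (1 + |s.im|)) ^ 2) * (C2 * ((1 + |v|) * (1 + |s.im|)) ^ 2) :=
            mul_le_mul c1 c2 (norm_nonneg _) (by positivity)
        _ = _ := by ring
    set K : ℝ := ‖(2 * (v : ℂ) * I)⁻¹‖ with hK
    refine ⟨fun s => -((2 * (v : ℂ) * I)⁻¹) * P s, fun s => (2 * (v : ℂ) * I)⁻¹ * P s,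
      (differentiable_const _).mul hPd, (differentiable_const _).mul hPd, ?_,
      K * (C1 * (1 + |v|) ^ 2 * (C2 * (1 + |v|) ^ 2)) + 1, by positivity, ?_⟩
    · intro s h1 h2
      have h1' : s + v * I - 1 ≠ 0 := sub_ne_zero.2 h1
      have h2' : s - v * I - 1 ≠ 0 := sub_ne_zero.2 h2
      simp only [hP]
      rw [hF1s _ h1, hF2s _ h2]
      unfold T_LL3
      field_simp
      ring
    · intro s h1 h2
      have hb := hPb s h1 h2
      have h0 : 0 ≤ K := norm_nonneg _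
      have h3 : 0 ≤ (1 + |s.im|) ^ 4 := by positivity
      have h4 : K * ‖P s‖ ≤ (K * (C1 * (1 + |v|) ^ 2 * (C2 * (1 + |v|) ^ 2)) + 1) * (1 + |s.im|) ^ 4 := by
        calc K * ‖P s‖ ≤ K * ((C1 * (1 + |v|) ^ 2 * (C2 * (1 + |v|) ^ 2)) * (1 + |s.im|) ^ 4) :=
              mul_le_mul_of_nonneg_left hb h0
          _ = (K * (C1 * (1 + |v|) ^ 2 * (C2 * (1 + |v|) ^ 2))) * (1 + |s.im|) ^ 4 := by ring
          _ ≤ _ := mul_le_mul_of_nonneg_right (by linarith) h3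
      constructor
      · simp only
        rw [norm_mul, norm_neg]
        exact h4
      · simp only
        rw [norm_mul]
        exact h4

end OO

end
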