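import Pool.Agent.Lib.MP_0f5a55_nt.OM.K000
import Pool.Agent.Lib.MP_0f5a55_nt.OM.K005

section

section F_Q05

open Complex MeasureTheory Set Filter Topology
open scoped ComplexConjugate

namespace LZ

theorem Q05_ne (u : ℝ) : (1 + (u : ℂ) * I) ≠ 0 := by
  intro h
  have := congrArg Complex.re h
  simp at this

theorem Q05_norm (u : ℝ) : ‖(1 + (u : ℂ) * I) ^ 22‖ = (1 + u ^ 2) ^ 11 := by
  have h1 : ‖(1 + (u : ℂ) * I)‖ ^ 2 = 1 + u ^ 2 := by
    rw [← Complex.normSq_eq_norm_sq, Complex.normSq_apply]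
    simp
    ring
  rw [norm_pow]
  calc ‖(1 + (u : ℂ) * I)‖ ^ 22 = (‖(1 + (u : ℂ) * I)‖ ^ 2) ^ 11 := by ring
    _ = _ := by rw [h1]

theorem kk_facts : Continuous kk ∧ Integrable (fun u : ℝ => ‖kk u‖ * (1 + |u|) ^ 16) := by
  have hcont : Continuous kk := by
    unfold kk
    apply Continuous.mul
    · fun_prop
    · apply Continuous.inv₀
      · fun_prop
      · intro u
        exact pow_ne_zero _ (Q05_ne u)
  refine ⟨hcont, ?_⟩
  set C : ℝ := ‖(Nat.factorial 21 : ℂ) / (2 * Real.pi)‖ * Real.exp 1 with hC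
  have hkn : ∀ u : ℝ, ‖kk u‖ = C * ((1 + u ^ 2) ^ 11)⁻¹ := by
    intro u
    unfold kk
    rw [norm_mul, norm_mul, norm_inv, Q05_norm, Complex.norm_exp, hC]
    congr 3
    simp
  have hI := integrable_inv_one_add_sq.const_mul (C * 2 ^ 8)
  apply hI.mono'
  · exact (hcont.norm.mul (by fun_prop)).aestronglyMeasurable
  · filter_upwards with u
    rw [Real.norm_eq_abs, abs_of_nonneg (by positivity), hkn]
    have hC0 : 0 ≤ C := by rw [hC]; positivity
    have h0 : (0 : ℝ) < 1 + u ^ 2 := by positivity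
    have h1 : (1 + |u|) ^ 2 ≤ 2 * (1 + u ^ 2) := by
      have := sq_abs u
      nlinarith [sq_nonneg (1 - |u|)]
    have h2 : (1 + |u|) ^ 16 ≤ (2 * (1 + u ^ 2)) ^ 8 := by
      calc (1 + |u|) ^ 16 = ((1 + |u|) ^ 2) ^ 8 := by ring
        _ ≤ _ := pow_le_pow_left₀ (by positivity) h1 8
    have h3 : ((1 + u ^ 2) ^ 11)⁻¹ * (2 * (1 + u ^ 2)) ^ 8 ≤ 2 ^ 8 * (1 + u ^ 2)⁻¹ := by
      have e : ((1 + u ^ 2) ^ 11)⁻¹ * (2 * (1 + u ^ 2)) ^ 8 = 2 ^ 8 * ((1 + u ^ 2) ^ 3)⁻¹ := by
        rw [mul_pow]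
        field_simp
      rw [e]
      apply mul_le_mul_of_nonneg_left _ (by norm_num)
      apply inv_anti₀ h0
      have h4 : 1 ≤ 1 + u ^ 2 := by nlinarith only [sq_nonneg u]
      calc 1 + u ^ 2 = (1 + u ^ 2) ^ 1 := (pow_one _).symm
        _ ≤ _ := pow_le_pow_right₀ h4 (by norm_num)
    calc C * ((1 + u ^ 2) ^ 11)⁻¹ * (1 + |u|) ^ 16 = C * (((1 + u ^ 2) ^ 11)⁻¹ * (1 + |u|) ^ 16) := by
          ring
      _ ≤ C * (((1 + u ^ 2) ^ 11)⁻¹ * (2 * (1 + u ^ 2)) ^ 8) := by
          apply mul_le_mul_of_nonneg_left _ hC0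
          exact mul_le_mul_of_nonneg_left h2 (by positivity)
      _ ≤ C * (2 ^ 8 * (1 + u ^ 2)⁻¹) := mul_le_mul_of_nonneg_left h3 hC0
      _ = _ := by ring

end LZ

end F_Q05

section F_Q01

open Complex MeasureTheory Set Filter Topology
open scoped ComplexConjugate

namespace LZ

private theorem Q01_gcd_aux (p m n a k : ℕ) (hp : p.Prime) (hm : ¬ p ∣ m) :
    Nat.gcd (p ^ a * m) (p ^ (a + k) * n) = p ^ a * Nat.gcd m n := by
  rw [pow_add, mul_assoc (p ^ a) (p ^ k) n, Nat.gcd_mul_left]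
  congr 1
  exact Nat.Coprime.gcd_mul_left_cancel_right n
    (Nat.Coprime.pow_left k ((Nat.Prime.coprime_iff_not_dvd hp).2 hm))

private theorem Q01_gcd (p m n a b : ℕ) (hp : p.Prime) (hm : ¬ p ∣ m) (hn : ¬ p ∣ n) :
    Nat.gcd (p ^ a * m) (p ^ b * n) = p ^ min a b * Nat.gcd m n := by
  rcases le_total a b with h | h
  · obtain ⟨k, rfl⟩ := Nat.exists_eq_add_of_le h
    rw [min_eq_left h]
    exact Q01_gcd_aux p m n a k hp hm
  · obtain ⟨k, rfl⟩ := Nat.exists_eq_add_of_le h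
    rw [min_eq_right h, Nat.gcd_comm, Nat.gcd_comm m n]
    exact Q01_gcd_aux p n m b k hp hn

private theorem Q01_ndvd (P S : Finset ℕ) (hP : ∀ q ∈ P, q.Prime) (p : ℕ) (hp : p.Prime) (hpP : p ∉ P)
    (hS : S ⊆ P) : ¬ p ∣ nS S := by
  intro h
  unfold nS at h
  obtain ⟨q, hq, hd⟩ := (Nat.Prime.prime hp).exists_mem_finset_dvd h
  have hq' := hP q (hS hq)
  have : p = q := (Nat.prime_dvd_prime_iff_eq hp hq').1 hd
  exact hpP (this ▸ hS hq)

private theorem Q01_gcdC (p m n a b : ℕ) (hp : p.Prime) (hm : ¬ p ∣ m) (hn : ¬ p ∣ n) (C : ℂ) :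
    ((Nat.gcd (p ^ a * m) (p ^ b * n) : ℕ) : ℂ) ^ C
      = ((p : ℂ) ^ C) ^ (min a b) * ((Nat.gcd m n : ℕ) : ℂ) ^ C := by
  rw [Q01_gcd p m n a b hp hm hn, Nat.cast_mul, Complex.natCast_mul_natCast_cpow, Nat.cast_pow]
  congr 1
  rw [← Complex.natCast_cpow_natCast_mul, ← Complex.cpow_nat_mul]

/-- weight of one coordinate -/
private noncomputable def Q01_u (l : ℝ) (A : ℂ) (S : Finset ℕ) : ℂ :=
  (((-l) ^ S.card : ℝ) : ℂ) * (nS S : ℂ) ^ (-A)

private theorem Q01_nS_insert (p : ℕ) (S : Finset ℕ) (h : p ∉ S) : nS (insert p S) = p * nS S := by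
  unfold nS
  rw [Finset.prod_insert h]

private theorem Q01_u_insert (l : ℝ) (A : ℂ) (p : ℕ) (S : Finset ℕ) (h : p ∉ S) :
    Q01_u l A (insert p S) = (-(l : ℂ) * (p : ℂ) ^ (-A)) * Q01_u l A S := by
  unfold Q01_u
  rw [Q01_nS_insert p S h, Finset.card_insert_of_notMem h, Nat.cast_mul,
    Complex.natCast_mul_natCast_cpow, pow_succ]
  push_cast
  ring

private theorem Q01_nested (P : Finset ℕ) (hP : ∀ p ∈ P, p.Prime) (lam : Fin 4 → ℝ) (A : Fin 4 → ℂ)
    (C : ℂ) :
    ∑ S0 ∈ P.powerset, ∑ S1 ∈ P.powerset, ∑ S2 ∈ P.powerset, ∑ S3 ∈ P.powerset,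
      (Q01_u (lam 0) (A 0) S0 * Q01_u (lam 1) (A 1) S1 * Q01_u (lam 2) (A 2) S2
        * Q01_u (lam 3) (A 3) S3) * ((Nat.gcd (nS S0 * nS S1) (nS S2 * nS S3) : ℕ) : ℂ) ^ C
    = ∏ p ∈ P, EP (fun j => -(lam j : ℂ) * (p : ℂ) ^ (-(A j))) ((p : ℂ) ^ C) := by
  classical
  induction P using Finset.induction_on with
  | empty =>
    simp [Q01_u, nS]
  | insert p P hpP ih =>
    have hp : p.Prime := hP p (Finset.mem_insert_self p P)
    have hP' : ∀ q ∈ P, q.Prime := fun q hq => hP q (Finset.mem_insert_of_mem hq)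
    rw [Finset.prod_insert hpP, ← ih hP']
    simp only [Finset.sum_powerset_insert hpP, ← Finset.sum_add_distrib, Finset.mul_sum]
    refine Finset.sum_congr rfl fun S0 h0 => ?_
    refine Finset.sum_congr rfl fun S1 h1 => ?_
    refine Finset.sum_congr rfl fun S2 h2 => ?_
    refine Finset.sum_congr rfl fun S3 h3 => ?_
    rw [Finset.mem_powerset] at h0 h1 h2 h3
    have n0 : p ∉ S0 := fun h => hpP (h0 h)
    have n1 : p ∉ S1 := fun h => hpP (h1 h)
    have n2 : p ∉ S2 := fun h => hpP (h2 h)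
    have n3 : p ∉ S3 := fun h => hpP (h3 h)
    have d01 : ¬ p ∣ nS S0 * nS S1 := by
      rw [Nat.Prime.dvd_mul hp]
      rintro (h | h)
      · exact Q01_ndvd P S0 hP' p hp hpP h0 h
      · exact Q01_ndvd P S1 hP' p hp hpP h1 h
    have d23 : ¬ p ∣ nS S2 * nS S3 := by
      rw [Nat.Prime.dvd_mul hp]
      rintro (h | h)
      · exact Q01_ndvd P S2 hP' p hp hpP h2 h
      · exact Q01_ndvd P S3 hP' p hp hpP h3 h
    rw [Q01_u_insert _ _ p S0 n0, Q01_u_insert _ _ p S1 n1, Q01_u_insert _ _ p S2 n2,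
      Q01_u_insert _ _ p S3 n3, Q01_nS_insert p S0 n0, Q01_nS_insert p S1 n1,
      Q01_nS_insert p S2 n2, Q01_nS_insert p S3 n3]
    generalize hm : nS S0 * nS S1 = m at *
    generalize hn : nS S2 * nS S3 = n at *
    have e01 : p * nS S0 * nS S1 = p ^ 1 * m := by rw [← hm]; ring
    have e01' : nS S0 * (p * nS S1) = p ^ 1 * m := by rw [← hm]; ring
    have e01'' : p * nS S0 * (p * nS S1) = p ^ 2 * m := by rw [← hm]; ring
    have e23 : p * nS S2 * nS S3 = p ^ 1 * n := by rw [← hn]; ring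
    have e23' : nS S2 * (p * nS S3) = p ^ 1 * n := by rw [← hn]; ring
    have e23'' : p * nS S2 * (p * nS S3) = p ^ 2 * n := by rw [← hn]; ring
    rw [e01, e01', e01'', e23, e23', e23'']
    have g (a b : ℕ) := Q01_gcdC p m n a b hp d01 d23 C
    have g01 := g 0 1
    have g02 := g 0 2
    have g10 := g 1 0
    have g20 := g 2 0
    rw [pow_zero, one_mul] at g01 g02 g10 g20
    rw [g01, g02, g10, g20, g 1 1, g 1 2, g 2 1, g 2 2]
    simp only [EP]
    norm_num
    ring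

/-- (2.1) Euler product for the four variable gcd sum, P any finite set of primes. Induction on P (or
Finset.prod_univ_sum): for p not in P, piFinset over powerset (insert p P) splits in 16 parts, and
gcd(n0 n1, n2 n3) gets the factor p^(min(e0+e1,e2+e3)). -/
theorem euler4 (P : Finset ℕ) (hP : ∀ p ∈ P, p.Prime) (lam : Fin 4 → ℝ) (A : Fin 4 → ℂ) (C : ℂ) :
    ∑ S ∈ Fintype.piFinset (fun _ : Fin 4 => P.powerset),
      (∏ j, (((-(lam j)) ^ (S j).card : ℝ) : ℂ) * (nS (S j) : ℂ) ^ (-(A j))) *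
        ((Nat.gcd (nS (S 0) * nS (S 1)) (nS (S 2) * nS (S 3)) : ℕ) : ℂ) ^ C
    = ∏ p ∈ P, EP (fun j => -(lam j : ℂ) * (p : ℂ) ^ (-(A j))) ((p : ℂ) ^ C) := by
  classical
  rw [← Q01_nested P hP lam A C]
  rw [← Finset.sum_product', ← Finset.sum_product', ← Finset.sum_product']
  refine Finset.sum_bij' (fun S _ => (((S 0, S 1), S 2), S 3))
    (fun x _ => ![x.1.1.1, x.1.1.2, x.1.2, x.2]) ?_ ?_ ?_ ?_ ?_
  · intro S hS
    rw [Fintype.mem_piFinset] at hS
    simp only [Finset.mem_product]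
    exact ⟨⟨⟨hS 0, hS 1⟩, hS 2⟩, hS 3⟩
  · intro x hx
    simp only [Finset.mem_product] at hx
    rw [Fintype.mem_piFinset]
    intro j
    fin_cases j
    · exact hx.1.1.1
    · exact hx.1.1.2
    · exact hx.1.2
    · exact hx.2
  · intro S hS
    ext1 j
    fin_cases j <;> rfl
  · intro x hx
    rfl
  · intro S hS
    simp only [Q01_u, Fin.prod_univ_four]

end LZ

end F_Q01

end

section

/-!
# Row OP10a: the weights
-/

open Complex MeasureTheory Set Filter Topology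

namespace OO

/-- OP10a. PROOF. `exp(-1/x - ωx - Px) ≤ exp(-ωx)`, integrable on `(0,∞)`; continuous on `(0,∞)`, nonnegative. -/
theorem P10_integrable (ω P : ℝ) (hω : 0 < ω) (hP : 0 ≤ P) : IntegrableOn (fun x : ℝ => Wt 1 ω x * Real.exp (-(P * x))) (Ioi 0) := by
  have h1 : IntegrableOn (fun x : ℝ => Real.exp (-ω * x)) (Ioi 0) := integrableOn_exp_mul_Ioi (by linarith) 0
  refine Integrable.mono' h1 ?_ ?_
  · apply ContinuousOn.aestronglyMeasurable _ measurableSet_Ioi
    intro x hx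
    have hx0 : x ≠ 0 := (mem_Ioi.1 hx).ne'
    apply ContinuousAt.continuousWithinAt
    unfold Wt
    fun_prop (disch := assumption)
  · refine (ae_restrict_iff' measurableSet_Ioi).2 (ae_of_all _ fun x hx => ?_)
    have hx0 : 0 < x := hx
    unfold Wt
    rw [← Real.exp_add, Real.norm_eq_abs, abs_of_pos (Real.exp_pos _)]
    apply Real.exp_le_exp.2
    have h2 : 0 < 1 / x := by positivity
    have h3 : 0 ≤ P * x := by positivity
    linarith

theorem P10_aux_lower (ω P a b c : ℝ) (hω : 0 < ω) (hP : 0 ≤ P) (ha : 0 < a) (hab : a ≤ b)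
    (hc : ∀ x, a < x → x ≤ b → c ≤ -(1 / x) - ω * x - P * x) :
    (b - a) * Real.exp c ≤ Psi 1 ω P := by
  have hint := P10_integrable ω P hω hP
  have hsub : Ioc a b ⊆ Ioi (0 : ℝ) := fun x hx => ha.trans hx.1
  have h1 : ∫ x in Ioc a b, Wt 1 ω x * Real.exp (-(P * x)) ≤ Psi 1 ω P := by
    apply setIntegral_mono_set hint
    · refine (ae_restrict_iff' measurableSet_Ioi).2 (ae_of_all _ fun x _ => ?_)
      exact mul_nonneg (Real.exp_pos _).le (Real.exp_pos _).le
    · exact hsub.eventuallyLE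
  refine le_trans ?_ h1
  have h2 : ∫ _x in Ioc a b, Real.exp c = (b - a) * Real.exp c := by
    rw [setIntegral_const]
    simp [Measure.real, hab]
  rw [← h2]
  apply setIntegral_mono_on _ (hint.mono_set hsub) measurableSet_Ioc
  · intro x hx
    unfold Wt
    rw [← Real.exp_add]
    apply Real.exp_le_exp.2
    have := hc x hx.1 hx.2
    linarith only [this]
  · exact integrableOn_const (by simp)

/-- OP10b. PROOF. Put `ω' = ω/q`, `x = s/(ω' y)` i.e. restrict the integral to an interval: `ω' Ψ(ω' y) ≥ ω' ∫_(s ∈ [a,2a]) ..`. If `y ≥ 1`: `x ∈ [1/(ω'y), 2/(ω'y)]`: `1/x ≤ ω'y`, `ω'x ≤ 2/y ≤ 1/y + 1`, `ω'yx ≤ 2`, length `1/(ω'y)`: so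
`ω'Ψ ≥ (1/y) exp(-ω'y - 1/y - 3)`. If `y < 1`: `x ∈ [1/(2ω'y), 1/(ω'y)]`: `1/x ≤ 2ω'y ≤ ω'y + 1/2`, `ω'x ≤ 1/y`, `ω'yx ≤ 1`, length `1/(2ω'y)`: `ω'Ψ ≥ (1/2y) exp(-ω'y - 1/y - 3/2)`. In both cases `exp(-1/y - ω'y)/y ≤ e³ ω' Ψ`
(`2 ≤ e^(3/2)`). Finally `Wt 1 ω (ξ/q) = exp(-q/ξ - ωξ/q) ≤ exp(-1/ξ - ω'ξ)` (`q ≥ 1`), with `y = ξ`. -/
theorem P10_psi (ω ξ : ℝ) (q : ℕ) (hq : 1 ≤ q) (hω : 0 < ω) (hω1 : ω ≤ 1 / 2) (hξ : 0 < ξ) :
    Wt 1 ω (ξ / q) / ξ ≤ Real.exp 3 * (ω / q) * Psi 1 (ω / q) (ω / q * ξ) := by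
  have hq1 : (1 : ℝ) ≤ q := by exact_mod_cast hq
  have hq0 : (0 : ℝ) < q := lt_of_lt_of_le one_pos hq1
  obtain ⟨w, hw⟩ : ∃ w : ℝ, w = ω / q := ⟨_, rfl⟩
  have hw0 : 0 < w := by rw [hw]; positivity
  have hw1 : w ≤ 1 / 2 := by
    rw [hw, div_le_iff₀ hq0]
    linarith only [hω1, hq1]
  rw [← hw]
  have hWt : Wt 1 ω (ξ / q) ≤ Real.exp (-(1 / ξ) - w * ξ) := by
    unfold Wt
    apply Real.exp_le_exp.2
    have h1 : (1 : ℝ) / (ξ / q) = q * (1 / ξ) := by field_simp
    have h2 : ω * (ξ / q) = w * ξ := by rw [hw]; ring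
    rw [h1, h2]
    have h3 : 0 < 1 / ξ := by positivity
    have h4 := mul_le_mul_of_nonneg_right hq1 h3.le
    linarith only [h4]
  have hgoal : Real.exp (-(1 / ξ) - w * ξ) / ξ ≤ Real.exp 3 * w * Psi 1 w (w * ξ) := by
    have hwx : 0 < w * ξ := by positivity
    obtain ⟨a, ha⟩ : ∃ a : ℝ, a = 1 / (w * ξ) := ⟨_, rfl⟩
    have ha0 : 0 < a := by rw [ha]; positivity
    have haw : a * (w * ξ) = 1 := by rw [ha]; field_simp
    have haw' : w * a = 1 / ξ := by rw [ha]; field_simp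
    rcases le_total 1 ξ with h1 | h1
    · have hl := P10_aux_lower w (w * ξ) a (2 * a) (-(w * ξ) - 1 / ξ - 3) hw0 hwx.le ha0 (by linarith only [ha0]) ?_
      · have h4 : Real.exp 3 * w * ((2 * a - a) * Real.exp (-(w * ξ) - 1 / ξ - 3)) =
            Real.exp (-(1 / ξ) - w * ξ) / ξ := by
          have h5 : Real.exp (-(1 / ξ) - w * ξ) = Real.exp 3 * Real.exp (-(w * ξ) - 1 / ξ - 3) := by
            rw [← Real.exp_add]
            congr 1
            ring
          rw [h5]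
          have h6 : Real.exp 3 * w * ((2 * a - a) * Real.exp (-(w * ξ) - 1 / ξ - 3)) =
            (w * a) * (Real.exp 3 * Real.exp (-(w * ξ) - 1 / ξ - 3)) := by ring
          rw [h6, haw']
          ring
        rw [← h4]
        exact mul_le_mul_of_nonneg_left hl (by positivity)
      · intro x hx hx2
        have hx0 : 0 < x := ha0.trans hx
        have e1 : 1 / x ≤ w * ξ := by
          rw [div_le_iff₀ hx0]
          have h8 := mul_le_mul_of_nonneg_right hx.le hwx.le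
          linarith only [h8, haw]
        have e2 : w * x ≤ 1 / ξ + 1 := by
          have : w * x ≤ 2 * (w * a) := by
            have h8 := mul_le_mul_of_nonneg_left hx2 hw0.le
            linarith only [h8]
          rw [haw'] at this
          have h7 : 1 / ξ ≤ 1 := by
            rw [div_le_one hξ]
            exact h1
          linarith only [this, h7]
        have e3 : w * ξ * x ≤ 2 := by
          have h8 := mul_le_mul_of_nonneg_left hx2 hwx.le
          linarith only [h8, haw]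
        linarith only [e1, e2, e3]
    · have hl := P10_aux_lower w (w * ξ) (a / 2) a (-(w * ξ) - 1 / ξ - 3 / 2) hw0 hwx.le (by positivity)
        (by linarith only [ha0]) ?_
      · have h4 : Real.exp (-(1 / ξ) - w * ξ) / ξ ≤
            Real.exp 3 * w * ((a - a / 2) * Real.exp (-(w * ξ) - 1 / ξ - 3 / 2)) := by
          have h5 : Real.exp 3 * Real.exp (-(w * ξ) - 1 / ξ - 3 / 2) =
              Real.exp (3 / 2) * Real.exp (-(1 / ξ) - w * ξ) := by
            rw [← Real.exp_add, ← Real.exp_add]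
            congr 1
            ring
          have h6 : Real.exp 3 * w * ((a - a / 2) * Real.exp (-(w * ξ) - 1 / ξ - 3 / 2)) =
            (w * a) / 2 * (Real.exp 3 * Real.exp (-(w * ξ) - 1 / ξ - 3 / 2)) := by ring
          rw [h6, haw', h5]
          have h7 : (2 : ℝ) ≤ Real.exp (3 / 2) := by
            have := Real.add_one_le_exp (3 / 2 : ℝ)
            linarith only [this]
          have h8 : 0 < Real.exp (-(1 / ξ) - w * ξ) / ξ := by positivity
          have h9 : 1 / ξ / 2 * (Real.exp (3 / 2) * Real.exp (-(1 / ξ) - w * ξ)) =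
            (Real.exp (3 / 2) / 2) * (Real.exp (-(1 / ξ) - w * ξ) / ξ) := by ring
          rw [h9]
          exact le_mul_of_one_le_left h8.le (by linarith only [h7])
        refine h4.trans ?_
        exact mul_le_mul_of_nonneg_left hl (by positivity)
      · intro x hx hx2
        have hx0 : 0 < x := by linarith only [hx, ha0]
        have e1 : 1 / x ≤ w * ξ + 1 / 2 := by
          have h7 : 1 / x ≤ 2 * (w * ξ) := by
            rw [div_le_iff₀ hx0]
            have h8 := mul_le_mul_of_nonneg_right hx.le hwx.le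
            linarith only [h8, haw]
          have h8 : w * ξ ≤ 1 / 2 := by
            have h9 := mul_le_mul_of_nonneg_left h1 hw0.le
            linarith only [h9, hw1]
          linarith only [h7, h8]
        have e2 : w * x ≤ 1 / ξ := by
          rw [← haw']
          exact mul_le_mul_of_nonneg_left hx2 hw0.le
        have e3 : w * ξ * x ≤ 1 := by
          have h8 := mul_le_mul_of_nonneg_left hx2 hwx.le
          linarith only [h8, haw]
        linarith only [e1, e2, e3]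
  refine le_trans ?_ hgoal
  gcongr

end OO

end

section

open Complex MeasureTheory Set Filter Topology
open scoped ComplexConjugate

namespace OO

open FourierTransform SchwartzMap in
theorem X_Planch_aux1 (f : ℝ → ℂ) : T_ft f = 𝓕 f := by
  funext ξ
  rw [T_ft, Real.fourier_real_eq_integral_exp_smul]
  refine integral_congr_ae (ae_of_all _ fun v => ?_)
  simp only [smul_eq_mul]
  congr 3
  push_cast
  ring

open FourierTransform SchwartzMap in
theorem X_Planch_aux2 {f : ℝ → ℂ} (hf : Integrable f) : Continuous (𝓕 f) :=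
  VectorFourier.fourierIntegral_continuous Real.continuous_fourierChar continuous_inner hf

open FourierTransform SchwartzMap in
theorem X_Planch_aux3 {f : ℝ → ℂ} (hf : Integrable f) (g : 𝓢(ℝ, ℂ)) :
    ∫ x, (𝓕 g) x • f x = ∫ x, g x • (𝓕 f) x := by
  have h := VectorFourier.integral_fourierIntegral_smul_eq_flip (L := innerₗ ℝ)
    Real.continuous_fourierChar continuous_inner (f := f) (g := g) hf (g.integrable (μ := volume))
  calc ∫ x, (𝓕 g) x • f x
      = ∫ x, f x • VectorFourier.fourierIntegral Real.fourierChar volume (innerₗ ℝ).flip g x := by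
        refine integral_congr_ae (ae_of_all _ fun x => ?_)
        simp only [smul_eq_mul]
        rw [mul_comm]
        congr 1
        rw [SchwartzMap.fourier_coe, flip_innerₗ]
        rfl
    _ = ∫ x, VectorFourier.fourierIntegral Real.fourierChar volume (innerₗ ℝ) f x • g x := h.symm
    _ = ∫ x, g x • (𝓕 f) x := by
        refine integral_congr_ae (ae_of_all _ fun x => ?_)
        simp only [smul_eq_mul]
        rw [mul_comm]
        rfl

/-- OX01. Plancherel's theorem for integrable and square integrable functions.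

Proof. `T_ft f ξ = 𝓕 f ξ` (`Real.fourier_real_eq_integral_exp_smul`: `𝓕 f w = ∫ v, exp (↑(-2 π v w) * I) • f v`), continuous for integrable `f`
(`VectorFourier.fourierIntegral_continuous` / `Real.fourierIntegral...continuous`). Let `F = hf2.toLp f : Lp ℂ 2` (`hf2 : MemLp f 2`, from
`memLp_two_iff_integrable_sq_norm`). Its `L²` Fourier transform `G = 𝓕 F` satisfies `‖G‖ = ‖F‖` (`MeasureTheory.Lp.norm_fourier_eq`) and
`MeasureTheory.Lp.fourier_toTemperedDistribution_eq`: `𝓕 (F : 𝓢') = (G : 𝓢')`. Evaluate at a Schwartz function `g`: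
`∫ G g = ∫ F 𝓕 g = ∫ f 𝓕 g = ∫ (𝓕 f) g`, the last step by `VectorFourier.integral_fourierIntegral_smul_eq_flip`
(`Real.integral_fourierIntegral_smul_eq...`; both `f`, `g` integrable). So `∫ (G - 𝓕 f) g = 0` for all smooth compactly supported real `g`
(these give Schwartz functions: `HasCompactSupport.toSchwartzMap` or so), hence `G = 𝓕 f` a.e.
(`ae_eq_of_integral_contDiff_smul_eq`, both locally integrable: `G ∈ L²`, `𝓕 f` continuous). So `𝓕 f ∈ L²` with norm `‖F‖`; rewrite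
both norms as integrals (`MeasureTheory.L2...`, `eLpNorm` of order `2`, `integral_norm_sq`).
Alternative: approximate `f` by `f * Gaussian` and use Mathlib's Fourier inversion; or Schwartz density. -/
theorem X_planch {f : ℝ → ℂ} (hf : Integrable f) (hf2 : Integrable (fun x => ‖f x‖ ^ 2)) :
    Continuous (T_ft f) ∧ Integrable (fun ξ => ‖T_ft f ξ‖ ^ 2) ∧
      ∫ ξ, ‖T_ft f ξ‖ ^ 2 = ∫ x, ‖f x‖ ^ 2 := by
  rw [X_Planch_aux1 f]
  have hcont := X_Planch_aux2 hf
  have hm : MemLp f 2 := (memLp_two_iff_integrable_sq_norm hf.1).mpr hf2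
  set F : Lp ℂ 2 (volume : Measure ℝ) := hm.toLp f with hF
  set G : Lp ℂ 2 (volume : Measure ℝ) := FourierTransform.fourier F with hG
  have hFf : (F : ℝ → ℂ) =ᵐ[volume] f := hm.coeFn_toLp
  have hnorm : ‖G‖ = ‖F‖ := MeasureTheory.Lp.norm_fourier_eq F
  have hGm : MemLp G 2 := Lp.memLp G
  have hae : ∀ᵐ x, (G : ℝ → ℂ) x = (FourierTransform.fourier f) x := by
    refine ae_eq_of_integral_contDiff_smul_eq (hGm.locallyIntegrable (by norm_num))
      hcont.locallyIntegrable ?_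
    intro g g_smooth g_cpt
    have hg₁ : HasCompactSupport (Complex.ofRealCLM ∘ g) := g_cpt.comp_left rfl
    have hg₂ : ContDiff ℝ (⊤ : ℕ∞) (Complex.ofRealCLM ∘ g) := by fun_prop
    set gs := hg₁.toSchwartzMap hg₂ with hgs
    have e := congrArg (fun T => T gs) (MeasureTheory.Lp.fourier_toTemperedDistribution_eq F)
    simp only [TemperedDistribution.fourier_apply, Lp.toTemperedDistribution_apply] at e
    have e1 : ∫ x, (FourierTransform.fourier gs) x • (F : ℝ → ℂ) x =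
        ∫ x, (FourierTransform.fourier gs) x • f x := by
      refine integral_congr_ae ?_
      filter_upwards [hFf] with x hx
      rw [hx]
    rw [e1, X_Planch_aux3 hf gs] at e
    have e2 : ∀ h : ℝ → ℂ, ∫ x, g x • h x = ∫ x, gs x • h x := by
      intro h
      refine integral_congr_ae (ae_of_all _ fun x => ?_)
      simp [gs]
    rw [e2, e2]
    exact e.symm
  have hGm' : MemLp (FourierTransform.fourier f) 2 (volume : Measure ℝ) := (memLp_congr_ae hae).mp hGm
  refine ⟨hcont, (memLp_two_iff_integrable_sq_norm hGm'.1).mp hGm', ?_⟩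
  have key : ∀ h : Lp ℂ 2 (volume : Measure ℝ), ∫ x, ‖(h : ℝ → ℂ) x‖ ^ 2 = ‖h‖ ^ 2 := by
    intro h
    have h1 : (inner ℂ h h : ℂ) = ((∫ x, ‖(h : ℝ → ℂ) x‖ ^ 2 : ℝ) : ℂ) := by
      rw [L2.inner_def]
      refine Eq.trans ?_ (integral_ofReal (𝕜 := ℂ))
      refine integral_congr_ae (ae_of_all _ fun x => ?_)
      simp only
      rw [inner_self_eq_norm_sq_to_K]
      norm_cast
    have h2 := inner_self_eq_norm_sq (𝕜 := ℂ) h
    rw [h1] at h2
    simpa using h2
  calc ∫ ξ, ‖(FourierTransform.fourier f) ξ‖ ^ 2 = ∫ ξ, ‖(G : ℝ → ℂ) ξ‖ ^ 2 := by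
        refine integral_congr_ae ?_
        filter_upwards [hae] with x hx
        rw [hx]
    _ = ‖G‖ ^ 2 := key G
    _ = ‖F‖ ^ 2 := by rw [hnorm]
    _ = ∫ x, ‖(F : ℝ → ℂ) x‖ ^ 2 := (key F).symm
    _ = ∫ x, ‖f x‖ ^ 2 := by
        refine integral_congr_ae ?_
        filter_upwards [hFf] with x hx
        rw [hx]

end OO

end

section

/-!
# Row OP10b: the weights
-/

open Complex MeasureTheory Set Filter Topology

namespace OO

private lemma P10b_aux_int (P : ℝ) (hP : 0 < P) :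
    ∫ x in Ioi (0 : ℝ), x ^ (7 : ℕ) * Real.exp (-(P * x)) = Real.Gamma 8 / P ^ 8 := by
  have h := Real.integral_rpow_mul_exp_neg_mul_Ioi (a := 8) (r := P) (by norm_num) hP
  have h1 : (1 / P) ^ (8 : ℝ) * Real.Gamma 8 = Real.Gamma 8 / P ^ 8 := by
    have : (1 / P) ^ (8 : ℝ) = (1 / P) ^ (8 : ℕ) := by
      rw [← Real.rpow_natCast]; norm_num
    rw [this, div_pow, one_pow]; ring
  rw [← h1, ← h]
  apply setIntegral_congr_fun measurableSet_Ioi
  intro x hx
  have : x ^ ((8 : ℝ) - 1) = x ^ (7 : ℕ) := by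
    rw [← Real.rpow_natCast]; norm_num
  simp only [this]

private lemma P10b_aux_intble (P : ℝ) (hP : 0 < P) :
    IntegrableOn (fun x : ℝ => x ^ (7 : ℕ) * Real.exp (-(P * x))) (Ioi 0) := by
  by_contra hcon
  have h := P10b_aux_int P hP
  rw [integral_undef hcon] at h
  have : 0 < Real.Gamma 8 / P ^ 8 := by
    have := Real.Gamma_pos_of_pos (s := 8) (by norm_num)
    positivity
  linarith

/-- OP10c. PROOF. `exp(-1/x) ≤ 5040 x^7` (`Real.pow_div_factorial_le_exp` with `1/x`) and `∫ x^7 e^(-Px) = 5040/P^8` (`Real.integral_rpow_mul_exp_neg_mul_Ioi` or Gamma integral); `Ψ ≥ 0`. -/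
theorem P10_decay : ∃ C : ℝ, 0 < C ∧ ∀ ω P : ℝ, 0 < ω → 0 < P → 0 ≤ Psi 1 ω P ∧ Psi 1 ω P ≤ C / P ^ 8 := by
  refine ⟨5040 * Real.Gamma 8, ?_, ?_⟩
  · have := Real.Gamma_pos_of_pos (s := 8) (by norm_num)
    positivity
  intro ω P hω hP
  constructor
  · apply setIntegral_nonneg measurableSet_Ioi
    intro x hx
    unfold Wt
    positivity
  · have hb : ∀ x ∈ Ioi (0 : ℝ), Wt 1 ω x * Real.exp (-(P * x)) ≤ 5040 * (x ^ (7 : ℕ) * Real.exp (-(P * x))) := by
      intro x hx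
      have hx0 : (0 : ℝ) < x := hx
      have h1 : Wt 1 ω x ≤ 5040 * x ^ 7 := by
        unfold Wt
        have h2 : Real.exp (-(1 / x) - ω * x) ≤ Real.exp (-(1 / x)) := by
          apply Real.exp_le_exp.mpr
          have : 0 < ω * x := mul_pos hω hx0
          linarith
        have h3 := Real.pow_div_factorial_le_exp (1 / x) (by positivity) 7
        have h4 : Real.exp (-(1 / x)) ≤ 5040 * x ^ 7 := by
          rw [Real.exp_neg]
          have h5 : (0 : ℝ) < (1 / x) ^ 7 / (Nat.factorial 7 : ℝ) := by positivity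
          calc (Real.exp (1 / x))⁻¹ ≤ ((1 / x) ^ 7 / (Nat.factorial 7 : ℝ))⁻¹ := inv_anti₀ h5 h3
            _ = 5040 * x ^ 7 := by
              have : (Nat.factorial 7 : ℝ) = 5040 := by norm_num [Nat.factorial]
              rw [this]
              field_simp
        linarith
      calc Wt 1 ω x * Real.exp (-(P * x)) ≤ (5040 * x ^ 7) * Real.exp (-(P * x)) :=
            mul_le_mul_of_nonneg_right h1 (Real.exp_pos _).le
        _ = _ := by ring
    have hint : IntegrableOn (fun x : ℝ => 5040 * (x ^ (7 : ℕ) * Real.exp (-(P * x)))) (Ioi 0) :=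
      (P10b_aux_intble P hP).const_mul _
    have h6 : Psi 1 ω P ≤ ∫ x in Ioi (0 : ℝ), 5040 * (x ^ (7 : ℕ) * Real.exp (-(P * x))) := by
      unfold Psi
      apply integral_mono_of_nonneg
      · filter_upwards [ae_restrict_mem measurableSet_Ioi] with x hx
        unfold Wt
        simp only [Pi.zero_apply]
        positivity
      · exact hint
      · filter_upwards [ae_restrict_mem measurableSet_Ioi] with x hx
        exact hb x hx
    rw [integral_const_mul, P10b_aux_int P hP] at h6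
    calc Psi 1 ω P ≤ _ := h6
      _ = _ := by ring

end OO

end

section

/-!
# Row OP12a: the sum over the poles is at most the diagonal sum
-/

open Complex MeasureTheory Set Filter Topology
open scoped ComplexConjugate

namespace OO

private theorem P12a_aux_LA (f2 : ℕ → ℂ) (hf2 : ∀ n, ‖f2 n‖ ≤ 1) (m : ℕ) :
    ‖(LA f2 0 0 : ArithmeticFunction ℂ) m‖ ≤ 1 := by
  have h : (LA f2 0 0 : ArithmeticFunction ℂ) m = if m = 0 then 0 else
      f2 m * (m : ℂ) ^ (-(0 : ℂ)) * (LZ.wt (0 * Real.log m) : ℂ) := rfl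
  rw [h]
  split_ifs with hm
  · simp
  · simp only [neg_zero, Complex.cpow_zero, mul_one, zero_mul, LZ.wt, sub_zero]
    simpa using hf2 m

private theorem P12a_aux_cj (b : ArithmeticFunction ℂ) (hb : ∀ h, ‖b h‖ ≤ h) (m : ℕ) :
    ‖(cj b : ArithmeticFunction ℂ) m‖ ≤ m := by
  have h : (cj b : ArithmeticFunction ℂ) m = conj (b m) := rfl
  rw [h, RCLike.norm_conj]
  exact hb m

private theorem P12a_aux_a (b : ArithmeticFunction ℂ) (f2 : ℕ → ℂ) (hb : ∀ h, ‖b h‖ ≤ h)
    (hf2 : ∀ n, ‖f2 n‖ ≤ 1) (M : ℕ) :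
    ‖(LA f2 0 0 * cj b : ArithmeticFunction ℂ) M‖ ≤ (M : ℝ) ^ 2 := by
  rw [ArithmeticFunction.mul_apply]
  calc ‖∑ x ∈ M.divisorsAntidiagonal, (LA f2 0 0 : ArithmeticFunction ℂ) x.1 *
        (cj b : ArithmeticFunction ℂ) x.2‖
      ≤ ∑ x ∈ M.divisorsAntidiagonal, ‖(LA f2 0 0 : ArithmeticFunction ℂ) x.1 *
        (cj b : ArithmeticFunction ℂ) x.2‖ := norm_sum_le _ _
    _ ≤ ∑ x ∈ M.divisorsAntidiagonal, (M : ℝ) := by
        apply Finset.sum_le_sum
        intro x hx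
        rw [norm_mul]
        have h1 := P12a_aux_LA f2 hf2 x.1
        have h2 := P12a_aux_cj b hb x.2
        have h3 : (x.2 : ℝ) ≤ M := by
          have hx' := Nat.mem_divisorsAntidiagonal.1 hx
          exact_mod_cast Nat.le_of_dvd (Nat.pos_of_ne_zero hx'.2) ⟨x.1, by rw [← hx'.1]; ring⟩
        have h4 := norm_nonneg ((LA f2 0 0 : ArithmeticFunction ℂ) x.1)
        have h5 := norm_nonneg ((cj b : ArithmeticFunction ℂ) x.2)
        nlinarith
    _ = (M.divisorsAntidiagonal.card : ℝ) * M := by rw [Finset.sum_const, nsmul_eq_mul]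
    _ ≤ (M : ℝ) * M := by
        have h : M.divisorsAntidiagonal.card ≤ M := by
          rw [← Nat.map_div_right_divisors, Finset.card_map]
          exact Nat.card_divisors_le_self M
        have h' : (M.divisorsAntidiagonal.card : ℝ) ≤ M := by exact_mod_cast h
        gcongr
    _ = (M : ℝ) ^ 2 := by ring

private theorem P12a_aux_Cm (K0 : ℕ) (a b' : ℕ → ℂ) (ha : ∀ M : ℕ, ‖a M‖ ≤ (M : ℝ) ^ 2) (n : ℕ) :
    ‖Cm K0 a b' n‖ ≤ (∑ K ∈ Finset.Icc 1 K0, ‖b' K‖) * (n : ℝ) ^ 2 := by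
  unfold Cm
  rw [Finset.sum_mul]
  refine (norm_sum_le _ _).trans (Finset.sum_le_sum ?_)
  intro K hK
  rw [Finset.mem_Icc] at hK
  split_ifs with h
  · rw [norm_div, norm_mul, Complex.norm_natCast]
    have h1 : ((n * K / K0.factorial : ℕ) : ℝ) ≤ n := by
      have : n * K / K0.factorial ≤ n := by
        apply Nat.div_le_of_le_mul
        rw [mul_comm]
        exact Nat.mul_le_mul_right _ (hK.2.trans (Nat.self_le_factorial K0))
      exact_mod_cast this
    have h2 : ‖a (n * K / K0.factorial)‖ ≤ (n : ℝ) ^ 2 := by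
      refine (ha _).trans ?_
      gcongr
    have h3 : (1 : ℝ) ≤ K := by exact_mod_cast hK.1
    calc ‖a (n * K / K0.factorial)‖ * ‖b' K‖ / K ≤ ‖a (n * K / K0.factorial)‖ * ‖b' K‖ / 1 := by
          gcongr
      _ ≤ (n : ℝ) ^ 2 * ‖b' K‖ := by rw [div_one]; gcongr
      _ = ‖b' K‖ * (n : ℝ) ^ 2 := by ring
  · rw [norm_zero]; positivity

/-- OP12a. PROOF. `‖Cm K0 a b' n‖ ≤ ∑_(K ≤ K0) ‖a(nK/K0!)‖ ‖b'(K)‖ ≤ A n²` for a constant `A` depending on everything but `n`: `‖a(M')‖ = ‖∑_(m k = M') f2(m) conj b(k)‖ ≤ M'·M'` (at most `M'` divisors, `‖b k‖ ≤ k ≤ M'`), `M' = nK/K0! ≤ n`.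
With P10_decay the terms are `≤ A² n⁴ C (K0!)^8/(P n)^8`, summable. -/
theorem P12_summable (K0 : ℕ) (b : ArithmeticFunction ℂ) (f1 f2 : ℕ → ℂ) (w : ℝ → ℝ) (ω P : ℝ) (hb : ∀ h, ‖b h‖ ≤ h) (hf2 : ∀ n, ‖f2 n‖ ≤ 1)
    (hω : 0 < ω) (hP : 0 < P) :
    Summable (fun n : ℕ => ‖Cm K0 (LA f2 0 0 * cj b : ArithmeticFunction ℂ) (FA f1 w * b : ArithmeticFunction ℂ) n‖ ^ 2 * Psi 1 ω (P * ((n : ℝ) / (K0.factorial : ℝ)))) := by
  obtain ⟨C, hC, hPsi⟩ := P10_decay
  set A : ℝ := ∑ K ∈ Finset.Icc 1 K0, ‖(FA f1 w * b : ArithmeticFunction ℂ) K‖ with hA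
  have hA0 : 0 ≤ A := Finset.sum_nonneg (fun _ _ => norm_nonneg _)
  have hF : (0 : ℝ) < (K0.factorial : ℝ) := by exact_mod_cast Nat.factorial_pos K0
  have hCm : ∀ n : ℕ, ‖Cm K0 (LA f2 0 0 * cj b : ArithmeticFunction ℂ)
      (FA f1 w * b : ArithmeticFunction ℂ) n‖ ≤ A * (n : ℝ) ^ 2 := fun n =>
    P12a_aux_Cm K0 _ _ (P12a_aux_a b f2 hb hf2) n
  have hs : Summable (fun n : ℕ => (A ^ 2 * C * (K0.factorial : ℝ) ^ 8 / P ^ 8) * (1 / (n : ℝ) ^ 4)) :=
    (Real.summable_one_div_nat_pow.2 (by norm_num)).mul_left _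
  refine Summable.of_norm_bounded hs ?_
  intro n
  rcases Nat.eq_zero_or_pos n with hn | hn
  · subst hn
    have h0 := hCm 0
    have h1 : ‖Cm K0 (LA f2 0 0 * cj b : ArithmeticFunction ℂ)
      (FA f1 w * b : ArithmeticFunction ℂ) 0‖ = 0 := by
      apply le_antisymm _ (norm_nonneg _)
      simpa using h0
    rw [h1]
    simp
  · have hn' : (0 : ℝ) < n := by exact_mod_cast hn
    have hP' : 0 < P * ((n : ℝ) / (K0.factorial : ℝ)) := by positivity
    obtain ⟨hp0, hp1⟩ := hPsi ω _ hω hP'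
    rw [Real.norm_of_nonneg (by positivity)]
    calc ‖Cm K0 (LA f2 0 0 * cj b : ArithmeticFunction ℂ) (FA f1 w * b : ArithmeticFunction ℂ) n‖ ^ 2 *
          Psi 1 ω (P * ((n : ℝ) / (K0.factorial : ℝ)))
        ≤ (A * (n : ℝ) ^ 2) ^ 2 * (C / (P * ((n : ℝ) / (K0.factorial : ℝ))) ^ 8) := by
          gcongr
          exact hCm n
      _ = (A ^ 2 * C * (K0.factorial : ℝ) ^ 8 / P ^ 8) * (1 / (n : ℝ) ^ 4) := by
          field_simp

end OO

end
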