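import Pool.Agent.Lib.MP_0f5a55_nt.OM.K000
import Pool.Agent.Lib.MP_0f5a55_nt.OM.K004

section

section F_A12

open Complex MeasureTheory Set Filter Topology
open scoped ComplexConjugate

namespace LZ

theorem A12_sin {k b : ℕ} (hb : 1 ≤ b) (hbk : b < k) : 2 / (k : ℝ) ≤ Real.sin (Real.pi * b / k) := by
  have hk : (0:ℝ) < k := by exact_mod_cast (by omega : 0 < k)
  have hb1 : (1:ℝ) ≤ b := by exact_mod_cast hb
  have hbk1 : (b:ℝ) + 1 ≤ k := by exact_mod_cast hbk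
  have hpi := Real.pi_pos
  rcases le_total (2 * (b:ℝ)) k with h | h
  · have h1 := Real.mul_le_sin (x := Real.pi * b / k) (by positivity) (by
      rw [div_le_div_iff₀ hk two_pos]
      have := mul_le_mul_of_nonneg_left h hpi.le
      linarith only [this])
    refine le_trans ?_ h1
    have : 2 / Real.pi * (Real.pi * b / k) = 2 * b / k := by field_simp
    rw [this]
    exact div_le_div_of_nonneg_right (by linarith only [hb1]) hk.le
  · have h1 := Real.mul_le_sin (x := Real.pi * (k - b) / k) (by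
      have : 0 ≤ (k:ℝ) - b := by linarith only [hbk1]
      positivity) (by
      rw [div_le_div_iff₀ hk two_pos]
      have := mul_le_mul_of_nonneg_left h hpi.le
      linarith only [this])
    have h2 : Real.sin (Real.pi * b / k) = Real.sin (Real.pi * (k - b) / k) := by
      rw [← Real.sin_pi_sub]
      congr 1
      field_simp
    rw [h2]
    refine le_trans ?_ h1
    have : 2 / Real.pi * (Real.pi * (k - b) / k) = 2 * (k - b) / k := by field_simp
    rw [this]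
    exact div_le_div_of_nonneg_right (by linarith only [hbk1]) hk.le

theorem A12_a {r k : ℝ} (hr : 1 ≤ r) (hk : 2 ≤ k) : r * k ≤ 4 * r * (4 * k ^ 2) := by
  have h0 : 0 ≤ r * k := mul_nonneg (by linarith only [hr]) (by linarith only [hk])
  have h1 := mul_le_mul_of_nonneg_left (show (1:ℝ) ≤ 16 * k by linarith only [hk]) h0
  linarith only [h1]

theorem A12_b {r : ℝ} (h : r ≤ 64) : r ^ 3 ≤ 64 * r ^ 2 := by
  have h1 := mul_le_mul_of_nonneg_right h (sq_nonneg r)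
  linarith only [h1]

theorem A12_c {r : ℝ} (h : 64 ≤ r) : r ^ 3 ≤ (r ^ 2 - 1) ^ 2 := by
  have h1 : 64 * r ≤ r * r := mul_le_mul_of_nonneg_right h (by linarith only [h])
  have h6 : r ^ 2 ≤ 2 * (r ^ 2 - 1) := by linarith only [h1, h]
  have h8 : 2 * r ≤ r ^ 2 - 1 := by linarith only [h1, h]
  have h7 : r * r ^ 2 ≤ r * (2 * (r ^ 2 - 1)) := mul_le_mul_of_nonneg_left h6 (by linarith only [h])
  have h9 : 2 * r * (r ^ 2 - 1) ≤ (r ^ 2 - 1) * (r ^ 2 - 1) :=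
    mul_le_mul_of_nonneg_right h8 (by linarith only [h8, h])
  linarith only [h7, h9]

theorem A12_d {k : ℝ} (h : 2 ≤ k) : 1 ≤ 4 * k ^ 2 := by
  have h1 : 2 * 2 ≤ k * k := mul_le_mul h h (by norm_num) (by linarith only [h])
  linarith only [h1]

/-- |exp(y+2 pi i b/k)-1|^2 = (e^y-1)^2+4e^y sin^2(pi b/k) >= max((e^y-1)^2, 16 e^y/k^2). -/
theorem fz_off {k b : ℕ} (hb : 1 ≤ b) (hbk : b < k) {y : ℝ} (hy : 0 ≤ y) :
    exp ((y : ℂ) + 2 * Real.pi * I * b / k) - 1 ≠ 0 ∧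
    ‖(exp ((y : ℂ) + 2 * Real.pi * I * b / k) - 1)⁻¹‖ ≤ 4 * (k : ℝ) ^ 2 * Real.exp (-y / 2) ∧
    ‖exp ((y : ℂ) + 2 * Real.pi * I * b / k) / (exp ((y : ℂ) + 2 * Real.pi * I * b / k) - 1) ^ 2‖ ≤
      4 * (k : ℝ) ^ 2 * Real.exp (-y / 2) := by
  have hk2 : (2:ℝ) ≤ k := by exact_mod_cast (by omega : 2 ≤ k)
  have hk : (0:ℝ) < k := by linarith only [hk2]
  set w : ℂ := exp ((y : ℂ) + 2 * Real.pi * I * b / k) with hw
  set r : ℝ := Real.exp (y / 2) with hr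
  have hr1 : 1 ≤ r := Real.one_le_exp (by linarith only [hy])
  have hrinv : Real.exp (-y / 2) = r⁻¹ := by
    rw [hr, ← Real.exp_neg]
    congr 1
    ring
  have hE : Real.exp y = r ^ 2 := by
    rw [hr, sq, ← Real.exp_add]
    congr 1
    ring
  set θ : ℝ := 2 * (Real.pi * b / k) with hθ
  have hwE : w = (Real.exp y : ℂ) * (Real.cos θ + Real.sin θ * I) := by
    rw [hw, ofReal_exp, ofReal_cos, ofReal_sin, ← exp_mul_I, ← exp_add]
    congr 1
    rw [hθ]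
    push_cast
    ring
  have hwn : ‖w‖ = r ^ 2 := by
    rw [hw, norm_exp, ← hE]
    congr 1
    have : ((y : ℂ) + 2 * Real.pi * I * b / k) = (y : ℂ) + (θ : ℂ) * I := by
      rw [hθ]
      push_cast
      ring
    rw [this]
    simp
  have hsq : ‖w - 1‖ ^ 2 = (r ^ 2 - 1) ^ 2 + 4 * r ^ 2 * Real.sin (Real.pi * b / k) ^ 2 := by
    have hwc : w - 1 = ((r ^ 2 * Real.cos θ - 1 : ℝ) : ℂ) + ((r ^ 2 * Real.sin θ : ℝ) : ℂ) * I := by
      rw [hwE, hE]
      push_cast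
      ring
    have hre : (w - 1).re = r ^ 2 * Real.cos θ - 1 := by
      rw [hwc, add_re, ofReal_re, mul_re, I_re, I_im, ofReal_im]
      ring
    have him : (w - 1).im = r ^ 2 * Real.sin θ := by
      rw [hwc, add_im, ofReal_im, mul_im, I_re, I_im, ofReal_re]
      ring
    rw [Complex.sq_norm, normSq_apply, hre, him]
    have h1 : Real.cos θ = 1 - 2 * Real.sin (Real.pi * b / k) ^ 2 := by
      rw [hθ, Real.cos_two_mul, Real.cos_sq']
      ring
    have h2 := Real.sin_sq_add_cos_sq θ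
    have h3 : (r ^ 2 * Real.cos θ - 1) * (r ^ 2 * Real.cos θ - 1) +
        r ^ 2 * Real.sin θ * (r ^ 2 * Real.sin θ) = (r ^ 2 - 1) ^ 2 + 2 * r ^ 2 * (1 - Real.cos θ) := by
      linear_combination r ^ 4 * h2
    rw [h3, h1]
    ring
  have hs := A12_sin hb hbk
  have hlow : 16 * r ^ 2 / (k : ℝ) ^ 2 + (r ^ 2 - 1) ^ 2 ≤ ‖w - 1‖ ^ 2 := by
    have h1 : (2 / (k : ℝ)) ^ 2 ≤ Real.sin (Real.pi * b / k) ^ 2 :=
      pow_le_pow_left₀ (by positivity) hs 2
    have h2 : 16 * r ^ 2 / (k : ℝ) ^ 2 = 4 * r ^ 2 * (2 / (k : ℝ)) ^ 2 := by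
      field_simp
      norm_num
    rw [hsq, h2]
    have : 4 * r ^ 2 * (2 / (k : ℝ)) ^ 2 ≤ 4 * r ^ 2 * Real.sin (Real.pi * b / k) ^ 2 := by gcongr
    linarith only [this]
  have hposn : 0 < ‖w - 1‖ := by
    by_contra h
    have h0 : ‖w - 1‖ = 0 := le_antisymm (not_lt.mp h) (norm_nonneg _)
    rw [h0, zero_pow two_ne_zero] at hlow
    have : 0 < 16 * r ^ 2 / (k : ℝ) ^ 2 := by positivity
    linarith only [sq_nonneg (r ^ 2 - 1), this, hlow]
  refine ⟨norm_pos_iff.mp hposn, ?_, ?_⟩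
  · rw [norm_inv, hrinv, inv_le_comm₀ hposn (by positivity)]
    have h1 : (4 * r / k) ^ 2 ≤ ‖w - 1‖ ^ 2 := by
      refine le_trans ?_ hlow
      have : (4 * r / k) ^ 2 = 16 * r ^ 2 / (k : ℝ) ^ 2 := by ring
      rw [this]
      linarith only [sq_nonneg (r ^ 2 - 1)]
    have h2 : 4 * r / k ≤ ‖w - 1‖ := by
      exact le_of_sq_le_sq h1 (norm_nonneg _)
    refine le_trans ?_ h2
    rw [mul_inv, inv_inv, mul_inv]
    have h3 : (4:ℝ)⁻¹ * ((k : ℝ) ^ 2)⁻¹ * r = r / (4 * k ^ 2) := by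
      field_simp
    rw [h3, div_le_div_iff₀ (by positivity) hk]
    exact A12_a hr1 hk2
  · rw [norm_div, norm_pow, hwn, hrinv, div_le_iff₀ (by positivity)]
    have key : r ^ 3 ≤ 4 * (k : ℝ) ^ 2 * ‖w - 1‖ ^ 2 := by
      have h1 : 4 * (k : ℝ) ^ 2 * (16 * r ^ 2 / (k : ℝ) ^ 2 + (r ^ 2 - 1) ^ 2) ≤
          4 * (k : ℝ) ^ 2 * ‖w - 1‖ ^ 2 := by gcongr
      refine le_trans ?_ h1
      have h2 : 4 * (k : ℝ) ^ 2 * (16 * r ^ 2 / (k : ℝ) ^ 2 + (r ^ 2 - 1) ^ 2) =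
          64 * r ^ 2 + 4 * (k : ℝ) ^ 2 * (r ^ 2 - 1) ^ 2 := by
        field_simp
        ring
      rw [h2]
      rcases le_total r 64 with h | h
      · have : r ^ 3 ≤ 64 * r ^ 2 := A12_b h
        have h4 : 0 ≤ 4 * (k : ℝ) ^ 2 * (r ^ 2 - 1) ^ 2 := by positivity
        linarith only [this, h4]
      · have h4 : r ^ 3 ≤ (r ^ 2 - 1) ^ 2 := A12_c h
        have h5 : (r ^ 2 - 1) ^ 2 ≤ 4 * (k : ℝ) ^ 2 * (r ^ 2 - 1) ^ 2 := by
          exact le_mul_of_one_le_left (sq_nonneg _) (A12_d hk2)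
        have h6 : 0 ≤ 64 * r ^ 2 := by positivity
        linarith only [h4, h5, h6]
    have hr0 : 0 < r := by linarith only [hr1]
    calc r ^ 2 = r ^ 3 * r⁻¹ := by field_simp
      _ ≤ (4 * (k : ℝ) ^ 2 * ‖w - 1‖ ^ 2) * r⁻¹ := by gcongr
      _ = _ := by ring

end LZ

end F_A12

section F_P01

open Complex MeasureTheory Set Filter Topology
open scoped ComplexConjugate

namespace LZ

/-- (1.1). riemannZeta_eulerProduct_exp_log: zeta(s)=exp(tsum -log(1-p^(-s))); real part of -log(1-x) is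
Re x + O(|x|^2) for |x|<=1/2, and sum over primes of p^(-2) converges. -/
theorem R_log : ∃ C : ℝ, 0 ≤ C ∧ ∀ s : ℂ, 1 < s.re → |R s - Real.log ‖riemannZeta s‖| ≤ C := by
  have hsum2 : Summable (fun p : Nat.Primes => (p : ℝ) ^ (-2 : ℝ)) :=
    Nat.Primes.summable_rpow.2 (by norm_num)
  refine ⟨∑' p : Nat.Primes, (p : ℝ) ^ (-2 : ℝ), tsum_nonneg fun p => by positivity, ?_⟩
  intro s hs
  have hp2 : ∀ p : Nat.Primes, (2 : ℝ) ≤ (p : ℝ) := fun p => by
    exact_mod_cast p.2.two_le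
  have hn : ∀ p : Nat.Primes, ‖((p : ℕ) : ℂ) ^ (-s)‖ = (p : ℝ) ^ (-s.re) := by
    intro p
    have h0 : (0:ℝ) < (p : ℝ) := by have := hp2 p; linarith only [this]
    have : ((p : ℕ) : ℂ) = ((p : ℝ) : ℂ) := by simp
    rw [this, norm_cpow_eq_rpow_re_of_pos h0, neg_re]
  have hn1 : ∀ p : Nat.Primes, ‖((p : ℕ) : ℂ) ^ (-s)‖ ≤ (p : ℝ) ^ (-1 : ℝ) := by
    intro p
    rw [hn p]
    apply Real.rpow_le_rpow_of_exponent_le (by have := hp2 p; linarith only [this])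
    linarith only [hs]
  have hn2 : ∀ p : Nat.Primes, ‖((p : ℕ) : ℂ) ^ (-s)‖ ≤ 1 / 2 := by
    intro p
    refine (hn1 p).trans ?_
    rw [Real.rpow_neg_one, one_div]
    exact inv_anti₀ (by norm_num) (hp2 p)
  have hd : ∀ p : Nat.Primes, ‖(-log (1 - ((p : ℕ) : ℂ) ^ (-s))) - ((p : ℕ) : ℂ) ^ (-s)‖ ≤
      (p : ℝ) ^ (-2 : ℝ) := by
    intro p
    set x : ℂ := ((p : ℕ) : ℂ) ^ (-s) with hx
    have h1 : ‖-x‖ < 1 := by rw [norm_neg]; linarith only [hn2 p, hn2]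
    have h2 := norm_log_one_add_sub_self_le h1
    rw [norm_neg] at h2
    have h3 : (-log (1 - x)) - x = -(log (1 + -x) - -x) := by ring_nf
    rw [h3, norm_neg]
    have h4 : (1 - ‖x‖)⁻¹ ≤ 2 := by
      rw [inv_le_comm₀ (by linarith only [hn2 p, hn2]) (by norm_num)]
      linarith only [hn2 p, hn2]
    have h5 : ‖x‖ ^ 2 ≤ (p : ℝ) ^ (-2 : ℝ) := by
      have h6 : (p : ℝ) ^ (-2 : ℝ) = ((p : ℝ) ^ (-1 : ℝ)) ^ 2 := by
        rw [← Real.rpow_natCast, ← Real.rpow_mul (by have := hp2 p; linarith only [this])]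
        norm_num
      rw [h6]
      exact pow_le_pow_left₀ (norm_nonneg _) (hn1 p) 2
    calc _ ≤ ‖x‖ ^ 2 * (1 - ‖x‖)⁻¹ / 2 := h2
      _ ≤ ‖x‖ ^ 2 * 2 / 2 := by gcongr
      _ = ‖x‖ ^ 2 := by ring
      _ ≤ _ := h5
  have hs1 : Summable (fun p : Nat.Primes => ((p : ℕ) : ℂ) ^ (-s)) := by
    apply Summable.of_norm
    have : Summable (fun p : Nat.Primes => (p : ℝ) ^ (-s.re)) :=
      Nat.Primes.summable_rpow.2 (by linarith only [hs])
    exact this.congr fun p => (hn p).symm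
  have hs2 : Summable (fun p : Nat.Primes =>
      (-log (1 - ((p : ℕ) : ℂ) ^ (-s))) - ((p : ℕ) : ℂ) ^ (-s)) :=
    Summable.of_norm_bounded hsum2 hd
  have hs3 : Summable (fun p : Nat.Primes => (-log (1 - ((p : ℕ) : ℂ) ^ (-s)))) := by
    have := hs2.add hs1
    simpa using this
  have hz : Real.log ‖riemannZeta s‖ = (∑' p : Nat.Primes, -log (1 - ((p : ℕ) : ℂ) ^ (-s))).re := by
    rw [← riemannZeta_eulerProduct_exp_log hs, norm_exp, Real.log_exp]
  have hR : R s = (∑' p : Nat.Primes, ((p : ℕ) : ℂ) ^ (-s)).re := by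
    unfold R
    rw [re_tsum hs1]
  rw [hz, hR, ← sub_re, ← hs1.tsum_sub hs3]
  refine (abs_re_le_norm _).trans ?_
  refine tsum_of_norm_bounded hsum2.hasSum ?_
  intro p
  rw [norm_sub_rev]
  exact hd p

end LZ

end F_P01

section F_P02

open Complex MeasureTheory Set Filter Topology
open scoped ComplexConjugate

namespace LZ

/-- zeta(1+w) w is continuous and nonvanishing on the compact set {0<=Re w, |w|<=1} (value 1 at w=0:
riemannZeta_residue_one; nonvanishing riemannZeta_ne_zero_of_one_le_re). -/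
theorem zeta_one : ∃ C : ℝ, 0 < C ∧ ∀ w : ℂ, 0 < w.re → ‖w‖ ≤ 1 →
    ‖riemannZeta (1 + w)‖ ≤ C / ‖w‖ ∧ ‖riemannZeta (1 + w)‖⁻¹ ≤ C * ‖w‖ := by
  set h : ℂ → ℂ := Function.update (fun w => w * riemannZeta (1 + w)) 0 1 with hh
  have hne : ∀ w, w ≠ 0 → h w = w * riemannZeta (1 + w) := fun w hw => by
    rw [hh, Function.update_of_ne hw]
  have h0 : h 0 = 1 := by rw [hh, Function.update_self]
  have hcont : Continuous h := by
    rw [continuous_iff_continuousAt]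
    intro w
    by_cases hw : w = 0
    · subst hw
      rw [hh, continuousAt_update_same]
      have h1 := riemannZeta_residue_one
      have h2 : Tendsto (fun w : ℂ => 1 + w) (𝓝[≠] 0) (𝓝[≠] 1) := by
        refine tendsto_nhdsWithin_iff.2 ⟨?_, ?_⟩
        · have h3 : Tendsto (fun w : ℂ => 1 + w) (𝓝 0) (𝓝 (1 + 0)) :=
            (continuous_const.add continuous_id).tendsto 0
          rw [add_zero] at h3
          exact h3.mono_left nhdsWithin_le_nhds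
        · filter_upwards [self_mem_nhdsWithin] with w hw
          intro h4
          apply hw
          have h5 : (1 : ℂ) + w = 1 := h4
          exact left_eq_add.1 h5.symm
      have h6 := h1.comp h2
      refine h6.congr fun w => ?_
      simp
    · have h1 : ContinuousAt (fun w : ℂ => w * riemannZeta (1 + w)) w := by
        refine continuousAt_id.mul ?_
        have h2 : (1 : ℂ) + w ≠ 1 := fun h => hw (left_eq_add.1 h.symm)
        exact ContinuousAt.comp (f := fun w : ℂ => 1 + w)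
          (differentiableAt_riemannZeta h2).continuousAt
          (continuous_const.add continuous_id).continuousAt
      refine h1.congr ?_
      filter_upwards [isOpen_ne.mem_nhds hw] with v hv
      exact (hne v hv).symm
  have hK : IsCompact (Metric.closedBall (0 : ℂ) 1 ∩ {w : ℂ | 0 ≤ w.re}) :=
    (isCompact_closedBall 0 1).inter_right (isClosed_le continuous_const continuous_re)
  have hKne : (Metric.closedBall (0 : ℂ) 1 ∩ {w : ℂ | 0 ≤ w.re}).Nonempty :=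
    ⟨0, by simp, by simp⟩
  have hnz : ∀ w ∈ Metric.closedBall (0 : ℂ) 1 ∩ {w : ℂ | 0 ≤ w.re}, 0 < ‖h w‖ := by
    rintro w ⟨-, hw⟩
    rw [norm_pos_iff]
    by_cases hw0 : w = 0
    · rw [hw0, h0]; exact one_ne_zero
    · rw [hne w hw0]
      refine mul_ne_zero hw0 (riemannZeta_ne_zero_of_one_le_re ?_)
      have hw' : 0 ≤ w.re := hw
      rw [add_re, one_re]
      linarith only [hw']
  obtain ⟨w1, hw1, hmin⟩ := hK.exists_isMinOn hKne hcont.norm.continuousOn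
  obtain ⟨w2, hw2, hmax⟩ := hK.exists_isMaxOn hKne hcont.norm.continuousOn
  have hm : 0 < ‖h w1‖ := hnz w1 hw1
  have hM : 0 < ‖h w2‖ := hnz w2 hw2
  refine ⟨max ‖h w2‖ (1 / ‖h w1‖), lt_max_of_lt_left hM, fun w hre hw => ?_⟩
  have hw0 : w ≠ 0 := by
    rintro rfl
    simp at hre
  have hwn : 0 < ‖w‖ := norm_pos_iff.2 hw0
  have hwK : w ∈ Metric.closedBall (0 : ℂ) 1 ∩ {w : ℂ | 0 ≤ w.re} :=
    ⟨by simpa using hw, hre.le⟩
  have e1 : ‖h w‖ = ‖w‖ * ‖riemannZeta (1 + w)‖ := by rw [hne w hw0, norm_mul]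
  have b1 : ‖h w‖ ≤ ‖h w2‖ := hmax hwK
  have b2 : ‖h w1‖ ≤ ‖h w‖ := hmin hwK
  have hz : 0 < ‖riemannZeta (1 + w)‖ := by
    have := hnz w hwK
    rw [e1] at this
    exact pos_of_mul_pos_right this hwn.le
  constructor
  · rw [le_div_iff₀ hwn, mul_comm, ← e1]
    exact b1.trans (le_max_left _ _)
  · have h1 : 1 ≤ 1 / ‖h w1‖ * ‖h w‖ := by
      rw [one_div, inv_mul_eq_div, one_le_div hm]
      exact b2
    have h2 : 1 ≤ max ‖h w2‖ (1 / ‖h w1‖) * ‖h w‖ :=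
      h1.trans (mul_le_mul_of_nonneg_right (le_max_right _ _) (norm_nonneg _))
    rw [e1, ← mul_assoc] at h2
    rwa [inv_le_iff_one_le_mul₀ hz]

end LZ

end F_P02

section F_P04

open Complex MeasureTheory Set Filter Topology
open scoped ComplexConjugate

namespace LZ

/-- (1.2) from R_log, zeta_one, Rz_facts (|R(1+w)| <= R(1+Re w)). -/
theorem R_exp : ∃ C : ℝ, 0 < C ∧ ∀ w : ℂ, 0 < w.re → w.re ≤ 1 →
    Real.exp (R (1 + w)) ≤ C / w.re ∧ Real.exp (-R (1 + w)) ≤ C / w.re ∧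
    Real.exp (R ((1 + w.re : ℝ) : ℂ)) ≤ C / w.re ∧
    (‖w‖ ≤ 1 → Real.exp (R (1 + w)) ≤ C / ‖w‖ ∧ Real.exp (-R (1 + w)) ≤ C * ‖w‖) := by
  obtain ⟨C0, hC0, h0⟩ := R_log
  obtain ⟨C1, hC1, h1⟩ := zeta_one
  obtain ⟨-, hR, -, -, -⟩ := Rz_facts
  -- basic estimate in the disc
  have key : ∀ w : ℂ, 0 < w.re → ‖w‖ ≤ 1 →
      Real.exp (R (1 + w)) ≤ Real.exp C0 * C1 / ‖w‖ ∧ Real.exp (-R (1 + w)) ≤ Real.exp C0 * C1 * ‖w‖ := by
    intro w hw hw1
    have hs : 1 < (1 + w).re := by simp; exact hw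
    have hz : 0 < ‖riemannZeta (1 + w)‖ :=
      norm_pos_iff.2 (riemannZeta_ne_zero_of_one_le_re hs.le)
    have h2 := abs_le.1 (h0 (1 + w) hs)
    obtain ⟨h3, h4⟩ := h1 w hw hw1
    constructor
    · calc Real.exp (R (1 + w)) ≤ Real.exp (C0 + Real.log ‖riemannZeta (1 + w)‖) :=
            Real.exp_le_exp.2 (by linarith only [h2.2, h2])
        _ = Real.exp C0 * ‖riemannZeta (1 + w)‖ := by rw [Real.exp_add, Real.exp_log hz]
        _ ≤ Real.exp C0 * (C1 / ‖w‖) := by gcongr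
        _ = _ := by ring
    · calc Real.exp (-R (1 + w)) ≤ Real.exp (C0 + -Real.log ‖riemannZeta (1 + w)‖) :=
            Real.exp_le_exp.2 (by linarith only [h2.1, h2])
        _ = Real.exp C0 * ‖riemannZeta (1 + w)‖⁻¹ := by
            rw [Real.exp_add, Real.exp_neg, Real.exp_log hz]
        _ ≤ Real.exp C0 * (C1 * ‖w‖) := by gcongr
        _ = _ := by ring
  refine ⟨Real.exp C0 * C1, by positivity, ?_⟩
  intro w hw hw1
  have hs : 1 < (1 + w).re := by simp; exact hw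
  have e1 : (((1 + w).re : ℝ) : ℂ) = 1 + ((w.re : ℝ) : ℂ) := by simp
  have hn : ‖((w.re : ℝ) : ℂ)‖ = w.re := by rw [norm_real, Real.norm_eq_abs, abs_of_pos hw]
  have h5 := (key ((w.re : ℝ) : ℂ) (by simpa using hw) (by rw [hn]; exact hw1)).1
  rw [hn] at h5
  have h6 := hR (1 + w) hs
  rw [e1] at h6
  have h7 := abs_le.1 h6
  refine ⟨?_, ?_, ?_, fun h => key w hw h⟩
  · exact (Real.exp_le_exp.2 h7.2).trans h5
  · exact (Real.exp_le_exp.2 (by linarith only [h7.1, h7])).trans h5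
  · have e2 : ((1 + w.re : ℝ) : ℂ) = 1 + ((w.re : ℝ) : ℂ) := by push_cast; ring
    rw [e2]
    exact h5

end LZ

end F_P04

section F_M08

open Complex MeasureTheory Set Filter Topology
open scoped ComplexConjugate

namespace LZ

private theorem M08_mol (lam l : ℝ) (s : ℂ) : Mol lam l (conj s) = conj (Mol lam l s) := by
  unfold Mol
  rw [map_sum]
  refine Finset.sum_congr rfl fun S _ => ?_
  rw [map_mul, conj_ofReal]
  congr 1
  have h := cpow_conj ((nS S : ℕ) : ℂ) (-s) (by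
    rw [natCast_arg]
    exact Real.pi_pos.ne)
  rw [map_neg, conj_natCast] at h
  exact h

private theorem M08_one (l : ℝ) (s : ℂ) : Mol 0 l s = 1 := by
  unfold Mol
  rw [Finset.sum_eq_single ∅]
  · simp [cf, nS, wt]
  · intro S _ hS
    have h : S.card ≠ 0 := fun h => hS (Finset.card_eq_zero.1 h)
    simp [cf, h]
  · intro h
    exact absurd (Finset.empty_mem_powerset _) h

/-- reflection identities. -/
theorem conj_facts : (∀ s : ℂ, riemannZeta (conj s) = conj (riemannZeta s)) ∧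
    (∀ lam l : ℝ, ∀ s : ℂ, Mol lam l (conj s) = conj (Mol lam l s)) ∧
    (∀ l : ℝ, 0 < l → ∀ s : ℂ, Mol 0 l s = 1) ∧
    (∀ (l : ℝ), 0 < l → ∀ σ u1 u2 t : ℝ,
      XX ![1, 0, 1, 0] l (σ + u1 * I) (σ - u2 * I) ![σ + u1 * I, 0, σ - u2 * I, 0] t =
        FF l (1/2 + σ + (t + u1) * I) * conj (FF l (1/2 + σ + (t + u2) * I))) := by
  refine ⟨fun s => riemannZeta_conj s, M08_mol, fun l _ s => M08_one l s, ?_⟩
  intro l _ σ u1 u2 t
  have e1 : (1/2 + (σ + u1 * I) + t * I : ℂ) = 1/2 + σ + (t + u1) * I := by ring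
  have e2 : (1/2 + (σ - u2 * I) - t * I : ℂ) = conj (1/2 + σ + (t + u2) * I) := by
    have h2 : conj (2 : ℂ) = 2 := Complex.conj_ofNat 2
    simp only [map_add, map_mul, map_div₀, map_one, h2, conj_ofReal, conj_I]
    ring
  unfold XX FF
  simp only [Matrix.cons_val]
  rw [e1, e2, M08_one, M08_one, riemannZeta_conj, M08_mol, map_mul]
  ring

end LZ

end F_M08

end

section

/-!
# Row OP11b: the coefficient of a pole is the coefficient of the diagonal sum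
-/

open Complex MeasureTheory Set Filter Topology
open scoped ComplexConjugate

namespace OO

theorem P11b_aux_mem {H U M : ℕ} {j : ℕ × ℕ × ℕ × ℕ} (hj : j ∈ PJ H U M) :
    (1 ≤ j.1 ∧ j.1 ≤ H) ∧ (1 ≤ j.2.1 ∧ j.2.1 ≤ H) ∧ (1 ≤ j.2.2.1 ∧ j.2.2.1 ≤ U) ∧
      (1 ≤ j.2.2.2 ∧ j.2.2.2 ≤ M) := by
  unfold PJ at hj
  simpa only [Finset.mem_product, Finset.mem_Icc] using hj

/-- OP11b. PROOF. `ξ = m k/(u h)` and `u h ≤ U H ≤ K0` divides `K0!`. -/
theorem P11_px (H U M K0 : ℕ) (hK : U * H ≤ K0) (j : ℕ × ℕ × ℕ × ℕ) (hj : j ∈ PJ H U M) :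
    ∃ n : ℕ, 1 ≤ n ∧ px j = (n : ℚ) / (K0.factorial : ℚ) := by
  obtain ⟨⟨h1, h2⟩, ⟨h3, h4⟩, ⟨h5, h6⟩, ⟨h7, h8⟩⟩ := P11b_aux_mem hj
  have hpos : 0 < j.2.2.1 * j.1 := Nat.mul_pos (by omega) (by omega)
  have hle : j.2.2.1 * j.1 ≤ K0 := (Nat.mul_le_mul h6 h2).trans hK
  obtain ⟨c, hc⟩ : j.2.2.1 * j.1 ∣ K0.factorial := Nat.dvd_factorial hpos hle
  have hc0 : 0 < c := by
    rcases Nat.eq_zero_or_pos c with h | h
    · rw [h, mul_zero] at hc
      exact absurd hc (Nat.factorial_ne_zero _)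
    · exact h
  refine ⟨j.2.2.2 * j.2.1 * c, Nat.mul_pos (Nat.mul_pos (by omega) (by omega)) hc0, ?_⟩
  unfold px
  rw [hc]
  have e1 : ((j.2.2.1 * j.1 : ℕ) : ℚ) ≠ 0 := by exact_mod_cast hpos.ne'
  have e2 : (c : ℚ) ≠ 0 := by exact_mod_cast hc0.ne'
  push_cast at e1 ⊢
  rw [mul_div_mul_right _ _ e2]

/-- OP11c. PROOF. With `ξ = m k/(u h)`, `ξ' = m'k'/(u'h')`: `|ξ - ξ'| = |m k u'h' - m'k'u h|/(u h u'h') ≥ 1/(U H)²`; `ξ ≥ 1/(U H)`. -/
theorem P11_sep (H U M : ℕ) (i j : ℕ × ℕ × ℕ × ℕ) (hi : i ∈ PJ H U M) (hj : j ∈ PJ H U M) :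
    1 / ((U : ℝ) * H) ≤ ((px j : ℚ) : ℝ) ∧ (px i ≠ px j → 1 / ((U : ℝ) * H) ^ 2 ≤ |((px i : ℚ) : ℝ) - ((px j : ℚ) : ℝ)|) := by
  obtain ⟨⟨h1, h2⟩, ⟨h3, h4⟩, ⟨h5, h6⟩, ⟨h7, h8⟩⟩ := P11b_aux_mem hj
  obtain ⟨⟨g1, g2⟩, ⟨g3, g4⟩, ⟨g5, g6⟩, ⟨g7, g8⟩⟩ := P11b_aux_mem hi
  set a : ℕ := j.2.2.2 * j.2.1 with ha
  set d : ℕ := j.2.2.1 * j.1 with hd
  set a' : ℕ := i.2.2.2 * i.2.1 with ha'
  set d' : ℕ := i.2.2.1 * i.1 with hd'
  have hd0 : 0 < d := Nat.mul_pos (by omega) (by omega)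
  have hd0' : 0 < d' := Nat.mul_pos (by omega) (by omega)
  have ha0 : 1 ≤ a := Nat.mul_pos (by omega) (by omega)
  have hdle : d ≤ U * H := Nat.mul_le_mul h6 h2
  have hdle' : d' ≤ U * H := Nat.mul_le_mul g6 g2
  have hj' : ((px j : ℚ) : ℝ) = (a : ℝ) / d := by
    unfold px
    push_cast [ha, hd]
    rfl
  have hi' : ((px i : ℚ) : ℝ) = (a' : ℝ) / d' := by
    unfold px
    push_cast [ha', hd']
    rfl
  have dR : (0 : ℝ) < d := by exact_mod_cast hd0
  have dR' : (0 : ℝ) < d' := by exact_mod_cast hd0'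
  have aR : (1 : ℝ) ≤ a := by exact_mod_cast ha0
  have dleR : (d : ℝ) ≤ (U : ℝ) * H := by exact_mod_cast hdle
  have dleR' : (d' : ℝ) ≤ (U : ℝ) * H := by exact_mod_cast hdle'
  have hUH : (0 : ℝ) < (U : ℝ) * H := lt_of_lt_of_le dR dleR
  refine ⟨?_, ?_⟩
  · rw [hj']
    exact div_le_div₀ (by positivity) aR dR dleR
  · intro hne
    have hneR : (a' : ℝ) / d' ≠ (a : ℝ) / d := by
      rw [← hi', ← hj']
      exact_mod_cast hne
    rw [hi', hj', div_sub_div _ _ dR'.ne' dR.ne', abs_div, abs_of_pos (mul_pos dR' dR)]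
    have hint : (1 : ℝ) ≤ |(a' : ℝ) * d - d' * a| := by
      have h9 : (1 : ℤ) ≤ |(a' : ℤ) * d - d' * a| := by
        apply Int.one_le_abs
        intro h0
        apply hneR
        rw [div_eq_div_iff dR'.ne' dR.ne']
        have h10 : (a' : ℤ) * d = d' * a := by linarith
        have h11 : ((a' : ℝ)) * d = d' * a := by exact_mod_cast h10
        linarith
      exact_mod_cast h9
    refine div_le_div₀ (abs_nonneg _) hint (mul_pos dR' dR) ?_
    rw [sq]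
    exact mul_le_mul dleR' dleR dR.le hUH.le

/-- OP11d. PROOF. `‖pc j‖ ≤ H · H · B · 1 · 1/1`, `#PJ = H² U M`. -/
theorem P11_norm (H U M : ℕ) (b f1 f2 : ℕ → ℂ) (w : ℝ → ℝ) (B : ℝ) (hb : ∀ h, ‖b h‖ ≤ h) (hf1 : ∀ n, ‖f1 n‖ ≤ 1) (hf2 : ∀ n, ‖f2 n‖ ≤ 1)
    (hw : ∀ u : ℕ, |w u| ≤ B) : ∑ j ∈ PJ H U M, ‖pc b f1 f2 w j‖ ≤ B * H ^ 4 * U * M := by
  have hB : 0 ≤ B := (abs_nonneg _).trans (hw 0)
  have hterm : ∀ j ∈ PJ H U M, ‖pc b f1 f2 w j‖ ≤ B * H ^ 2 := by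
    intro j hj
    obtain ⟨⟨h1, h2⟩, ⟨h3, h4⟩, ⟨h5, h6⟩, ⟨h7, h8⟩⟩ := P11b_aux_mem hj
    have hd0 : 0 < j.2.2.1 * j.1 := Nat.mul_pos (by omega) (by omega)
    have hd1 : (1 : ℝ) ≤ ((j.2.2.1 * j.1 : ℕ) : ℝ) := by exact_mod_cast hd0
    unfold pc
    rw [norm_div, norm_mul, norm_mul, norm_mul, norm_mul, Complex.norm_conj, Complex.norm_real,
      Real.norm_eq_abs, Complex.norm_natCast]
    have e1 : ‖b j.1‖ ≤ H := (hb _).trans (by exact_mod_cast h2)
    have e2 : ‖b j.2.1‖ ≤ H := (hb _).trans (by exact_mod_cast h4)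
    have e3 : |w j.2.2.1| ≤ B := hw _
    have hH0 : (0 : ℝ) ≤ H := Nat.cast_nonneg _
    have e4 : ‖b j.1‖ * ‖b j.2.1‖ * |w j.2.2.1| * ‖f1 j.2.2.1‖ * ‖f2 j.2.2.2‖ ≤ H * H * B * 1 * 1 := by
      have f1' := hf1 j.2.2.1
      have f2' := hf2 j.2.2.2
      gcongr
    refine (div_le_self (by positivity) hd1).trans (e4.trans (le_of_eq ?_))
    ring
  refine (Finset.sum_le_sum hterm).trans (le_of_eq ?_)
  rw [Finset.sum_const, nsmul_eq_mul]
  unfold PJ
  simp only [Finset.card_product, Nat.card_Icc, Nat.add_sub_cancel]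
  push_cast
  ring

end OO

end

section

/-!
# Row OP14b: the mollifier and the cutoff
-/

open Complex MeasureTheory Set Filter Topology
open scoped ComplexConjugate

namespace OO

theorem P14b_aux_tau (i : Fin 22) : 500 ≤ tau i := by
  unfold tau
  have h0 : (0 : ℝ) ≤ (i : ℝ) := Nat.cast_nonneg _
  have h1 : ((i : ℕ) : ℝ) ≤ 21 := by
    have := i.2
    exact_mod_cast (by omega : (i : ℕ) ≤ 21)
  rw [le_div_iff₀ (by positivity)]
  linarith

theorem P14b_aux_wt (x : ℝ) (hx : 0 ≤ x) : |LZ.wt x| ≤ 1 := by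
  unfold LZ.wt
  have h0 : 0 ≤ max 0 (1 - x) := le_max_left _ _
  have h1 : max 0 (1 - x) ≤ 1 := max_le (by norm_num) (by linarith)
  rw [abs_of_nonneg (pow_nonneg h0 _)]
  exact pow_le_one₀ h0 h1

theorem P14b_aux_wt0 (x : ℝ) (hx : 1 ≤ x) : LZ.wt x = 0 := by
  unfold LZ.wt
  rw [max_eq_left (by linarith)]
  norm_num

/-- OP14b. PROOF. `|rho L x| ≤ ∑ |c_i|` if `log x ≥ 0`, `L > 0` (`0 ≤ wt ≤ 1` on `[0,∞)`); `x = 0`: `Real.log 0 = 0`. If `log u ≥ L/500` then `τ_i log u/L ≥ τ_i/500 ≥ 1`, so `rho L u = 0`. -/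
theorem P14_rho : ∃ B : ℝ, 0 < B ∧ ∀ L : ℝ, 1 ≤ L → (∀ u : ℕ, |rho L u| ≤ B) ∧ ∀ u : ℕ, ⌊Real.exp (L / 500)⌋₊ < u → rho L u = 0 := by
  refine ⟨∑ i : Fin 22, |ci i| + 1, ?_, ?_⟩
  · have : 0 ≤ ∑ i : Fin 22, |ci i| := Finset.sum_nonneg fun i _ => abs_nonneg _
    linarith
  · intro L hL
    constructor
    · intro u
      have hlog : 0 ≤ Real.log (u : ℝ) := Real.log_natCast_nonneg u
      unfold rho
      have h1 : |∑ i : Fin 22, ci i * LZ.wt (tau i * Real.log u / L)| ≤ ∑ i : Fin 22, |ci i| := by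
        refine (Finset.abs_sum_le_sum_abs _ _).trans (Finset.sum_le_sum fun i _ => ?_)
        rw [abs_mul]
        have ht := P14b_aux_tau i
        have hx : 0 ≤ tau i * Real.log u / L := by positivity
        have h2 := P14b_aux_wt _ hx
        calc |ci i| * |LZ.wt (tau i * Real.log u / L)| ≤ |ci i| * 1 :=
              mul_le_mul_of_nonneg_left h2 (abs_nonneg _)
          _ = |ci i| := mul_one _
      linarith
    · intro u hu
      have h1 : Real.exp (L / 500) < u := Nat.lt_of_floor_lt hu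
      have hu0 : (0 : ℝ) < u := (Real.exp_pos _).trans h1
      have h2 : L / 500 < Real.log u := (Real.lt_log_iff_exp_lt hu0).2 h1
      unfold rho
      refine Finset.sum_eq_zero fun i _ => ?_
      have ht := P14b_aux_tau i
      have h3 : 1 ≤ tau i * Real.log u / L := by
        rw [le_div_iff₀ (by linarith)]
        have hlog0 : 0 ≤ Real.log (u : ℝ) := by
          have : 0 < L / 500 := by positivity
          linarith
        nlinarith
      rw [P14b_aux_wt0 _ h3, mul_zero]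

/-- OP14c. -/
theorem P14_ch {q : ℕ} [NeZero q] (χ : DirichletCharacter ℂ q) (n : ℕ) : ‖ch χ n‖ ≤ 1 := by
  exact DirichletCharacter.norm_le_one χ _

end OO

end

section

/-! # Row OE04: summability of the double series -/

open Complex MeasureTheory Set Filter Topology
open scoped ComplexConjugate

namespace OO

/-- PROOF. `Real.add_one_le_exp` / power series: `y^k/k! ≤ exp y` (`Real.pow_div_factorial_le_exp`). -/
theorem E_exp_neg_le {y : ℝ} (hy : 0 < y) (k : ℕ) : Real.exp (-y) ≤ k.factorial / y ^ k := by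
  have h1 := Real.pow_div_factorial_le_exp y hy.le k
  have h2 : (0 : ℝ) < k.factorial := by exact_mod_cast k.factorial_pos
  have h3 : 0 < y ^ k := by positivity
  rw [Real.exp_neg, inv_eq_one_div, div_le_div_iff₀ (Real.exp_pos y) h3, one_mul]
  rw [div_le_iff₀ h2, mul_comm] at h1
  exact h1

theorem oe04_psi {al om : ℝ} (hal : 0 < al) (hom : 0 ≤ om) {P : ℝ} (hP : 0 < P) :
    Psi al om P ≤ 2 * (Nat.factorial 16) / (2 * al) ^ 8 / P ^ 9 := by
  refine (E_psi_le hal hom hP).trans ?_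
  have h0 : 0 < 2 * al * P := by positivity
  have h1 := E_exp_neg_le (Real.sqrt_pos.mpr h0) 16
  have h2 : Real.sqrt (2 * al * P) ^ 16 = (2 * al * P) ^ 8 := by
    have : Real.sqrt (2 * al * P) ^ 16 = (Real.sqrt (2 * al * P) ^ 2) ^ 8 := by rw [← pow_mul]
    rw [this, Real.sq_sqrt h0.le]
  rw [h2] at h1
  calc 2 / P * Real.exp (-Real.sqrt (2 * al * P)) ≤ 2 / P * ((Nat.factorial 16) / (2 * al * P) ^ 8) :=
        mul_le_mul_of_nonneg_left h1 (by positivity)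
    _ = 2 * (Nat.factorial 16) / (2 * al) ^ 8 / P ^ 9 := by
        rw [mul_pow (2 * al) P 8]
        field_simp

/-- PROOF. `lam 0 = 0` (`‖lam 0‖ ≤ B*0`), so only `p.1, p.2 ≥ 1` matter. With `m = min c c' > 0` and `P = c p.1 + c' p.2 ≥ m (p.1+p.2) ≥ m`:
`Psi ≤ 2/P exp(-√(2 al P)) ≤ (2/m) * 16!/(2 al P)^8 ≤ C (p.1+p.2)^(-8) ≤ C p.1^(-4) p.2^(-4)` (`E_psi_le`, `E_exp_neg_le` with `k = 16`, and
`p.1 p.2 ≤ (p.1+p.2)^2`). The term is at most `B^2 C p.1^(-3) p.2^(-3)`, summable: `Summable.mul_of_nonneg` of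
`Real.summable_nat_pow_inv`/`Real.summable_one_div_nat_pow`. -/
theorem E_summ {lam : ℕ → ℂ} {B al om : ℝ} (hlam : ∀ n, ‖lam n‖ ≤ B * n) (hal : 0 < al) (hom : 0 ≤ om)
    {c c' : ℝ} (hc : 0 < c) (hc' : 0 < c') :
    Summable (fun p : ℕ × ℕ => ‖lam p.1‖ * ‖lam p.2‖ * Psi al om (c * p.1 + c' * p.2)) := by
  have hB : 0 ≤ B := by
    have := (norm_nonneg _).trans (hlam 1)
    simpa using this
  have hl0 : ‖lam 0‖ = 0 := by
    have h := hlam 0
    simp only [Nat.cast_zero, mul_zero] at h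
    exact le_antisymm h (norm_nonneg _)
  obtain ⟨m, hm⟩ : ∃ m : ℝ, m = min c c' := ⟨_, rfl⟩
  have hm0 : 0 < m := hm ▸ lt_min hc hc'
  obtain ⟨D, hD⟩ : ∃ D : ℝ, D = 2 * (Nat.factorial 16) / (2 * al) ^ 8 := ⟨_, rfl⟩
  have hD0 : 0 ≤ D := by rw [hD]; positivity
  have hsum : Summable fun n : ℕ => ((n : ℝ) ^ 3)⁻¹ := Real.summable_nat_pow_inv.mpr (by norm_num)
  have hprod : Summable fun p : ℕ × ℕ => ((p.1 : ℝ) ^ 3)⁻¹ * ((p.2 : ℝ) ^ 3)⁻¹ :=
    Summable.mul_of_nonneg (f := fun n : ℕ => ((n : ℝ) ^ 3)⁻¹) (g := fun n : ℕ => ((n : ℝ) ^ 3)⁻¹) hsum hsum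
      (fun n => inv_nonneg.2 (pow_nonneg (Nat.cast_nonneg n) 3)) (fun n => inv_nonneg.2 (pow_nonneg (Nat.cast_nonneg n) 3))
  refine Summable.of_nonneg_of_le (fun p => ?_) (fun p => ?_) (hprod.mul_left (B ^ 2 * D / m ^ 9))
  · exact mul_nonneg (by positivity) (E_psi_nonneg _ _ _)
  · have hK : 0 ≤ B ^ 2 * D / m ^ 9 * (((p.1 : ℝ) ^ 3)⁻¹ * ((p.2 : ℝ) ^ 3)⁻¹) := by positivity
    rcases Nat.eq_zero_or_pos p.1 with h1 | h1
    · rw [h1, hl0, zero_mul, zero_mul]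
      rw [h1] at hK
      exact hK
    rcases Nat.eq_zero_or_pos p.2 with h2 | h2
    · rw [h2, hl0, mul_zero, zero_mul]
      rw [h2] at hK
      exact hK
    have hx : (1 : ℝ) ≤ p.1 := by exact_mod_cast h1
    have hy : (1 : ℝ) ≤ p.2 := by exact_mod_cast h2
    have hl1 := hlam p.1
    have hl2 := hlam p.2
    generalize (p.1 : ℝ) = x at *
    generalize (p.2 : ℝ) = y at *
    have hx00 : 0 < x := zero_lt_one.trans_le hx
    have hy00 : 0 < y := zero_lt_one.trans_le hy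
    have hPm : m * (x + y) ≤ c * x + c' * y := by
      have e1 : m ≤ c := hm.trans_le (min_le_left _ _)
      have e2 : m ≤ c' := hm.trans_le (min_le_right _ _)
      rw [mul_add]
      exact add_le_add (mul_le_mul_of_nonneg_right e1 hx00.le) (mul_le_mul_of_nonneg_right e2 hy00.le)
    have hP0 : 0 < c * x + c' * y := by positivity
    have hxy : x * y ≤ (x + y) ^ 2 := by
      have h5 := mul_pos hx00 hy00
      linarith only [h5, sq_nonneg x, sq_nonneg y, (by ring : (x + y) ^ 2 = x ^ 2 + 2 * (x * y) + y ^ 2)]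
    have h9 : m ^ 9 * (x * y) ^ 4 ≤ (c * x + c' * y) ^ 9 := by
      calc m ^ 9 * (x * y) ^ 4 ≤ m ^ 9 * ((x + y) ^ 2) ^ 4 :=
            mul_le_mul_of_nonneg_left (pow_le_pow_left₀ (by positivity) hxy 4) (by positivity)
        _ = m ^ 9 * ((x + y) ^ 8 * 1) := by rw [← pow_mul, mul_one]
        _ ≤ m ^ 9 * ((x + y) ^ 8 * (x + y)) :=
            mul_le_mul_of_nonneg_left (mul_le_mul_of_nonneg_left (by linarith only [hx, hy]) (by positivity)) (by positivity)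
        _ = (m * (x + y)) ^ 9 := by ring
        _ ≤ (c * x + c' * y) ^ 9 := pow_le_pow_left₀ (by positivity) hPm 9
    have hpsi := oe04_psi (al := al) (om := om) hal hom hP0
    rw [← hD] at hpsi
    have hpsi2 : Psi al om (c * x + c' * y) ≤ D / (m ^ 9 * (x * y) ^ 4) :=
      hpsi.trans (div_le_div_of_nonneg_left hD0 (by positivity) h9)
    calc ‖lam p.1‖ * ‖lam p.2‖ * Psi al om (c * x + c' * y)
        ≤ (B * x) * (B * y) * (D / (m ^ 9 * (x * y) ^ 4)) := by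
          refine mul_le_mul (mul_le_mul hl1 hl2 (norm_nonneg _) (by positivity)) hpsi2 (E_psi_nonneg _ _ _)
            (by positivity)
      _ = B ^ 2 * D / m ^ 9 * ((x ^ 3)⁻¹ * (y ^ 3)⁻¹) := by
          have hx0 : x ≠ 0 := by positivity
          have hy0 : y ≠ 0 := by positivity
          field_simp

end OO

end
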