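import Pool.Agent.Lib.MP_0f5a55_nt.OM.K000

section

open Complex MeasureTheory Set Filter Topology
open scoped ComplexConjugate

namespace OO

private theorem T_Rect_side {N : ℂ → ℂ} (p : ℝ → ℂ) (hp : Continuous p) {c d : ℝ} (hcd : c ≤ d)
    (h1 : ∀ x ∈ Icc c d, p x ≠ 1) (hN : ∀ x ∈ Icc c d, DifferentiableAt ℂ N (p x)) :
    (∫ x in c..d, N (p x) / (p x - 1)) =
      (∫ x in c..d, dslope N 1 (p x)) + N 1 * ∫ x in c..d, 1 / (p x - 1) := by
  have hu : uIcc c d = Icc c d := uIcc_of_le hcd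
  have hG : ContinuousOn (fun x => dslope N 1 (p x)) (uIcc c d) := by
    rw [hu]
    intro x hx
    have h2 : ContinuousAt (dslope N 1) (p x) :=
      ((differentiableAt_dslope_of_ne (h1 x hx)).2 (hN x hx)).continuousAt
    exact (ContinuousAt.comp (f := p) h2 hp.continuousAt).continuousWithinAt
  have hI : ContinuousOn (fun x => 1 / (p x - 1)) (uIcc c d) := by
    rw [hu]
    intro x hx
    have h2 : p x - 1 ≠ 0 := sub_ne_zero.2 (h1 x hx)
    exact (continuousAt_const.div (hp.continuousAt.sub continuousAt_const) h2).continuousWithinAt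
  rw [← intervalIntegral.integral_const_mul, ← intervalIntegral.integral_add
    hG.intervalIntegrable (hI.intervalIntegrable.const_mul _)]
  apply intervalIntegral.integral_congr
  intro x hx
  rw [hu] at hx
  have h2 : p x - 1 ≠ 0 := sub_ne_zero.2 (h1 x hx)
  simp only [dslope_of_ne _ (h1 x hx), slope_def_field]
  field_simp
  ring

private theorem T_Rect_log (p : ℝ → ℂ) (p' : ℂ) {c d : ℝ} (hcd : c ≤ d)
    (hp : ∀ x, HasDerivAt p p' x) (hs : ∀ x ∈ Icc c d, p x - 1 ∈ slitPlane) :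
    p' * (∫ x in c..d, 1 / (p x - 1)) = log (p d - 1) - log (p c - 1) := by
  have hu : uIcc c d = Icc c d := uIcc_of_le hcd
  have hpc : Continuous p := continuous_iff_continuousAt.2 fun x => (hp x).continuousAt
  rw [← intervalIntegral.integral_const_mul]
  apply intervalIntegral.integral_eq_sub_of_hasDerivAt (f := fun x => log (p x - 1))
  · intro x hx
    rw [hu] at hx
    have h := ((hp x).sub_const 1).clog_real (hs x hx)
    rw [mul_one_div]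
    exact h
  · apply ContinuousOn.intervalIntegrable
    rw [hu]
    intro x hx
    have h2 : p x - 1 ≠ 0 := slitPlane_ne_zero (hs x hx)
    exact (continuousAt_const.mul (continuousAt_const.div (hpc.continuousAt.sub
      continuousAt_const) h2)).continuousWithinAt

private theorem T_Rect_log' (p : ℝ → ℂ) (p' : ℂ) {c d : ℝ} (hcd : c ≤ d)
    (hp : ∀ x, HasDerivAt p p' x) (hs : ∀ x ∈ Icc c d, -(p x - 1) ∈ slitPlane) :
    p' * (∫ x in c..d, 1 / (p x - 1)) = log (-(p d - 1)) - log (-(p c - 1)) := by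
  have hu : uIcc c d = Icc c d := uIcc_of_le hcd
  have hpc : Continuous p := continuous_iff_continuousAt.2 fun x => (hp x).continuousAt
  rw [← intervalIntegral.integral_const_mul]
  apply intervalIntegral.integral_eq_sub_of_hasDerivAt (f := fun x => log (-(p x - 1)))
  · intro x hx
    rw [hu] at hx
    have h2 : p x - 1 ≠ 0 := neg_ne_zero.1 (slitPlane_ne_zero (hs x hx))
    have h := (((hp x).sub_const 1).neg).clog_real (hs x hx)
    have e : p' * (1 / (p x - 1)) = -p' / -(p x - 1) := by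
      rw [neg_div_neg_eq, mul_one_div]
    rw [e]
    exact h
  · apply ContinuousOn.intervalIntegrable
    rw [hu]
    intro x hx
    have h2 : p x - 1 ≠ 0 := neg_ne_zero.1 (slitPlane_ne_zero (hs x hx))
    exact (continuousAt_const.mul (continuousAt_const.div (hpc.continuousAt.sub
      continuousAt_const) h2)).continuousWithinAt

/-- OT08. Cauchy's formula for a rectangle around the point `1`.

Proof. Let `G s = (N s - N 1) / (s - 1)` for `s ≠ 1`, `G 1 = deriv N 1` (`dslope N 1`); it is differentiable on a neighbourhood of the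
closed rectangle except possibly `1`, continuous at `1`: `Complex.integral_boundary_rect_eq_zero_of_differentiable_on_off_countable`
with the exceptional set `{1}` (or `DifferentiableOn.dslope`-type lemma) gives boundary integral `0` for `G`. On the boundary
`N s/(s-1) = G s + N 1 /(s-1)`. It remains: the boundary integral of `1/(s-1)` is `2πi`. Write `z = s - 1`, corners
`z1 = (a-1) - iR`, `z2 = (b-1) - iR`, `z3 = (b-1) + iR`, `z4 = (a-1) + iR`. By the fundamental theorem of calculus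
(`intervalIntegral.integral_eq_sub_of_hasDerivAt`): bottom `= log z2 - log z1` and top `= log z3 - log z4` (principal logarithm,
`Im z ≠ 0` so in the slit plane), right side `i∫ = log z3 - log z2` (`Re z > 0`), left side: antiderivative `log (-z)` (`Re (-z) > 0`):
`i∫ dy/z = log (-z4) - log (-z1)`. Sum: bottom - top + right - left
`= (log z2 - log z1) - (log z3 - log z4) + (log z3 - log z2) - (log (-z4) - log (-z1))`
`= (log (-z1) - log z1) + (log z4 - log (-z4)) = iπ + iπ`, as `Im z1 < 0`, `Im z4 > 0`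
(`Complex.log_neg_eq...`: `arg (-z) = arg z + π` if `Im z < 0`, `arg (-z) = arg z - π` if `Im z > 0`;
`Complex.arg_neg_eq_arg_add_pi_of_im_neg`, `Complex.arg_neg_eq_arg_sub_pi_of_im_pos`). -/
theorem T_rect {N : ℂ → ℂ} {a b R : ℝ} (ha : a < 1) (hb : 1 < b) (hR : 0 < R)
    (hN : ∀ s : ℂ, a ≤ s.re → s.re ≤ b → DifferentiableAt ℂ N s) :
    (∫ x in a..b, N (x - R * I) / (x - R * I - 1)) - (∫ x in a..b, N (x + R * I) / (x + R * I - 1)) +
      I * (∫ y in (-R)..R, N (b + y * I) / (b + y * I - 1)) -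
      I * (∫ y in (-R)..R, N (a + y * I) / (a + y * I - 1)) = 2 * Real.pi * I * N 1 := by
  have hab : a ≤ b := by linarith only [ha, hb]
  have hRR : -R ≤ R := by linarith only [hR]
  -- boundary integral of the difference quotient
  have hN1 : DifferentiableAt ℂ N 1 := hN 1 (by simpa using ha.le) (by simpa using hb.le)
  have hbd := integral_boundary_rect_eq_zero_of_differentiable_on_off_countable (dslope N 1)
    (⟨a, -R⟩ : ℂ) (⟨b, R⟩ : ℂ) {1} (countable_singleton _)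
    (by
      intro s hs
      have h1 : a ≤ s.re ∧ s.re ≤ b := by
        have := hs.1
        simpa [uIcc_of_le hab] using this
      by_cases h : s = 1
      · subst h
        exact (continuousAt_dslope_same.2 hN1).continuousWithinAt
      · exact ((differentiableAt_dslope_of_ne h).2 (hN s h1.1 h1.2)).continuousAt.continuousWithinAt)
    (by
      intro s hs
      have h1 : a < s.re ∧ s.re < b := by
        have := hs.1.1
        simpa [min_eq_left hab, max_eq_right hab] using this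
      have h : s ≠ 1 := by
        intro h
        exact hs.2 (by simpa using h)
      exact (differentiableAt_dslope_of_ne h).2 (hN s h1.1.le h1.2.le))
  simp only [smul_eq_mul] at hbd
  -- the four sides
  have hne : ∀ s : ℂ, s.im ≠ 0 → s ≠ 1 := by
    intro s hs h
    apply hs
    rw [h]; simp
  have s1 := T_Rect_side (N := N) (fun x : ℝ => (x : ℂ) - R * I) (by fun_prop) hab
    (fun x _ => hne _ (by simp; linarith only [hR])) (fun x hx => hN _ (by simpa using hx.1) (by simpa using hx.2))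
  have s2 := T_Rect_side (N := N) (fun x : ℝ => (x : ℂ) + R * I) (by fun_prop) hab
    (fun x _ => hne _ (by simp; linarith only [hR])) (fun x hx => hN _ (by simpa using hx.1) (by simpa using hx.2))
  have s3 := T_Rect_side (N := N) (fun y : ℝ => (b : ℂ) + y * I) (by fun_prop) hRR
    (fun x _ h => by
      have := congrArg re h
      simp at this
      linarith only [hb, this]) (fun x _ => hN _ (by simpa using hab) (by simp))
  have s4 := T_Rect_side (N := N) (fun y : ℝ => (a : ℂ) + y * I) (by fun_prop) hRR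
    (fun x _ h => by
      have := congrArg re h
      simp at this
      linarith only [ha, this]) (fun x _ => hN _ (by simp) (by simpa using hab))
  have e1 : ∀ x : ℝ, (x : ℂ) + ((-R : ℝ) : ℂ) * I = x - R * I := by intro x; push_cast; ring
  simp only [e1] at hbd
  rw [s1, s2, s3, s4]
  -- logarithms
  have d1 : ∀ x : ℝ, HasDerivAt (fun x : ℝ => (x : ℂ) - R * I) 1 x := by
    intro x
    exact (HasDerivAt.ofReal_comp (hasDerivAt_id x)).sub_const _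
  have d2 : ∀ x : ℝ, HasDerivAt (fun x : ℝ => (x : ℂ) + R * I) 1 x := by
    intro x
    exact (HasDerivAt.ofReal_comp (hasDerivAt_id x)).add_const _
  have d3 : ∀ c : ℂ, ∀ x : ℝ, HasDerivAt (fun y : ℝ => c + y * I) I x := by
    intro c x
    have h := ((HasDerivAt.ofReal_comp (hasDerivAt_id x)).mul_const I).const_add c
    simpa using h
  have l1 := T_Rect_log (fun x : ℝ => (x : ℂ) - R * I) 1 hab d1
    (fun x _ => by rw [mem_slitPlane_iff]; right; simp; linarith only [hR])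
  have l2 := T_Rect_log (fun x : ℝ => (x : ℂ) + R * I) 1 hab d2
    (fun x _ => by rw [mem_slitPlane_iff]; right; simp; linarith only [hR])
  have l3 := T_Rect_log (fun y : ℝ => (b : ℂ) + y * I) I hRR (d3 _)
    (fun x _ => by rw [mem_slitPlane_iff]; left; simp; linarith only [hb])
  have l4 := T_Rect_log' (fun y : ℝ => (a : ℂ) + y * I) I hRR (d3 _)
    (fun x _ => by rw [mem_slitPlane_iff]; left; simp; linarith only [ha])
  rw [one_mul] at l1 l2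
  have c1 : ∀ c : ℂ, c + ((-R : ℝ) : ℂ) * I = c - R * I := by intro c; push_cast; ring
  simp only [c1] at l3 l4
  have g1 : log (-((a : ℂ) - R * I - 1)) = log ((a : ℂ) - R * I - 1) + Real.pi * I := by
    have him : ((a : ℂ) - R * I - 1).im < 0 := by simp; linarith only [hR]
    rw [log, log, norm_neg, arg_neg_eq_arg_add_pi_of_im_neg him]
    push_cast
    ring
  have g2 : log (-((a : ℂ) + R * I - 1)) = log ((a : ℂ) + R * I - 1) - Real.pi * I := by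
    have him : 0 < ((a : ℂ) + R * I - 1).im := by simp; linarith only [hR]
    rw [log, log, norm_neg, arg_neg_eq_arg_sub_pi_of_im_pos him]
    push_cast
    ring
  rw [l1, l2]
  rw [g1, g2] at l4
  linear_combination hbd + N 1 * l3 - N 1 * l4

end OO

end

section

/-!
# Shifted convolution sums for a product of two Dirichlet L-functions: definitions
-/

open Complex Finset
open scoped ComplexConjugate

namespace OOK

/-- A smooth cut-off `f` (with derivatives `f1`, `f2`) which vanishes on `x ≤ Y`. -/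
structure Cut (f f1 f2 : ℝ → ℝ) (B Y : ℝ) : Prop where
  B1 : 1 ≤ B
  Y2 : 2 ≤ Y
  zero : ∀ x ≤ Y, f x = 0
  bd0 : ∀ x, |f x| ≤ B
  d1 : ∀ x, 0 < x → HasDerivAt f (f1 x) x
  d2 : ∀ x, 0 < x → HasDerivAt f1 (f2 x) x
  bd1 : ∀ x, 0 < x → |f1 x| ≤ B / x
  bd2 : ∀ x, 0 < x → |f2 x| ≤ B / x ^ 2

variable {q1 q2 : ℕ}

/-- the coefficients `λ_N = (f χ₁) * (f χ₂)` -/
noncomputable def lamN (f : ℝ → ℝ) (χ1 : DirichletCharacter ℂ q1) (χ2 : DirichletCharacter ℂ q2)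
    (n : ℕ) : ℂ :=
  ∑ d ∈ n.divisorsAntidiagonal, ((f d.1 : ℝ) * χ1 d.1) * ((f d.2 : ℝ) * χ2 d.2)

/-- the shifted sum `S(a, b, r; κ)`, over the pairs `(n, n')` with `a n = b n' + r` -/
noncomputable def SS (f : ℝ → ℝ) (χ1 : DirichletCharacter ℂ q1) (χ2 : DirichletCharacter ℂ q2)
    (a b r : ℕ) (κ : ℂ) : ℂ :=
  ∑' p : ℕ × ℕ, if a * p.1 = b * p.2 + r then
    lamN f χ1 χ2 p.1 * conj (lamN f χ1 χ2 p.2) * cexp (-κ * p.1) else 0

/-- the terms of the fourfold sum; `p = ((u, v), (s, t))` -/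
noncomputable def wgt (f : ℝ → ℝ) (χ1 : DirichletCharacter ℂ q1) (χ2 : DirichletCharacter ℂ q2)
    (a b r : ℕ) (κ : ℂ) (p : (ℕ × ℕ) × (ℕ × ℕ)) : ℂ :=
  if a * (p.1.1 * p.1.2) = b * (p.2.1 * p.2.2) + r then
    ((f p.1.1 : ℝ) * χ1 p.1.1) * ((f p.1.2 : ℝ) * χ2 p.1.2) *
      (((f p.2.1 : ℝ) * conj (χ1 p.2.1)) * ((f p.2.2 : ℝ) * conj (χ2 p.2.2))) *
        cexp (-κ * (p.1.1 * p.1.2)) else 0

/-- the weighted fourfold sum, weight `w(u) exp(-η v)` -/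
noncomputable def ZZ (f : ℝ → ℝ) (χ1 : DirichletCharacter ℂ q1) (χ2 : DirichletCharacter ℂ q2)
    (a b r : ℕ) (κ : ℂ) (w : ℕ → ℂ) (η : ℝ) : ℂ :=
  ∑' p : (ℕ × ℕ) × (ℕ × ℕ), wgt f χ1 χ2 a b r κ p * (w p.1.1 * Real.exp (-η * p.1.2))

/-- the inner sum over `(s, t)` with `A ∣ b s t + r`, `v = (b s t + r) / A` -/
noncomputable def TT (f : ℝ → ℝ) (χ1 : DirichletCharacter ℂ q1) (χ2 : DirichletCharacter ℂ q2)
    (b r A : ℕ) (μ : ℂ) : ℂ :=
  ∑' p : ℕ × ℕ, if A ∣ b * (p.1 * p.2) + r then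
    ((f ((b * (p.1 * p.2) + r) / A : ℕ) : ℝ) * χ2 ((b * (p.1 * p.2) + r) / A : ℕ)) *
      (((f p.1 : ℝ) * conj (χ1 p.1)) * ((f p.2 : ℝ) * conj (χ2 p.2))) *
        cexp (-μ * (b * (p.1 * p.2) + r : ℕ)) else 0

/-- `H(m) = f(m / A) exp(-μ m)` -/
noncomputable def Hf (f : ℝ → ℝ) (A : ℝ) (μ : ℂ) (m : ℝ) : ℂ := (f (m / A) : ℝ) * cexp (-μ * m)

/-- `Φ(s, t) = f(s) f(t) H(b s t + r)` -/
noncomputable def Phi (f : ℝ → ℝ) (A : ℝ) (μ : ℂ) (b r : ℕ) (s t : ℕ) : ℂ :=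
  ((f s : ℝ) * (f t : ℝ) : ℂ) * Hf f A μ (b * (s * t) + r)

/-- the arithmetic factor, as a function of `(s, t)` modulo `c` -/
noncomputable def KK (χ1 : DirichletCharacter ℂ q1) (χ2 : DirichletCharacter ℂ q2)
    (b r A c : ℕ) (x y : ZMod c) : ℂ :=
  if A ∣ b * (x.val * y.val) + r then
    χ2 ((b * (x.val * y.val) + r) / A : ℕ) * (conj (χ1 (x.val : ℕ)) * conj (χ2 (y.val : ℕ))) else 0

/-- the Fourier transform of `K` -/
noncomputable def Khat {c : ℕ} [NeZero c] (K : ZMod c → ZMod c → ℂ) (k l : ZMod c) : ℂ :=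
  ∑ x : ZMod c, ∑ y : ZMod c, K x y * ZMod.stdAddChar (k * x + l * y)

/-- `|1 - e(k / c)|` -/
noncomputable def nu {c : ℕ} [NeZero c] (k : ZMod c) : ℝ := ‖1 - (ZMod.stdAddChar k : ℂ)‖

/-- the integer `d ≥ 1` with `n = d ^ 2 e`, `e` squarefree (`d = 0` for `n = 0`) -/
noncomputable def sqd (n : ℕ) : ℕ := (Nat.sq_mul_squarefree n).choose_spec.choose

/-- the squarefree part `e` of `n = d ^ 2 e` -/
noncomputable def sqe (n : ℕ) : ℕ := (Nat.sq_mul_squarefree n).choose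

lemma sqd_spec (n : ℕ) : sqd n ^ 2 * sqe n = n ∧ Squarefree (sqe n) :=
  (Nat.sq_mul_squarefree n).choose_spec.choose_spec

end OOK

end

section

/-!
# The arithmetic factor is periodic
-/

open Complex Finset
open scoped ComplexConjugate

namespace OOK

variable {q1 q2 : ℕ}

/-- reduction of a cast modulo a multiple of `q` -/
theorem OK08_cast_mod {q c : ℕ} (h : q ∣ c) (s : ℕ) :
    ((s % c : ℕ) : ZMod q) = (s : ZMod q) := by
  rw [ZMod.natCast_eq_natCast_iff]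
  exact (Nat.mod_modEq s c).of_dvd h

/-- `b x y + r` modulo `c = A q1 q2` determines whether `A` divides it and, in that case, its
quotient by `A` modulo `q1 q2`, hence modulo `q2`. -/
theorem KK_natCast (χ1 : DirichletCharacter ℂ q1) (χ2 : DirichletCharacter ℂ q2) {b r A c : ℕ}
    (hA : 0 < A) (hq1 : 0 < q1) (hq2 : 0 < q2) (hc : A * (q1 * q2) = c) (s t : ℕ) :
    KK χ1 χ2 b r A c s t = if A ∣ b * (s * t) + r then
      χ2 ((b * (s * t) + r) / A : ℕ) * (conj (χ1 s) * conj (χ2 t)) else 0 := by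
  have h1 : q1 ∣ c := ⟨A * q2, by rw [← hc]; ring⟩
  have h2 : q2 ∣ c := ⟨A * q1, by rw [← hc]; ring⟩
  have hAc : A ∣ c := ⟨q1 * q2, hc.symm⟩
  have hmod : b * (s % c * (t % c)) + r ≡ b * (s * t) + r [MOD c] :=
    (((Nat.mod_modEq s c).mul (Nat.mod_modEq t c)).mul_left b).add_right r
  have hdiv : A ∣ b * (s % c * (t % c)) + r ↔ A ∣ b * (s * t) + r :=
    (hmod.of_dvd hAc).dvd_iff dvd_rfl
  unfold KK
  rw [ZMod.val_natCast, ZMod.val_natCast]
  by_cases hd : A ∣ b * (s * t) + r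
  · rw [if_pos (hdiv.2 hd), if_pos hd, OK08_cast_mod h1, OK08_cast_mod h2]
    congr 2
    obtain ⟨k, hk⟩ := hd
    obtain ⟨k', hk'⟩ := hdiv.2 ⟨k, hk⟩
    rw [hk, hk', Nat.mul_div_cancel_left _ hA, Nat.mul_div_cancel_left _ hA,
      ZMod.natCast_eq_natCast_iff]
    rw [hk, hk', ← hc] at hmod
    have h3 : k' ≡ k [MOD q1 * q2] := Nat.ModEq.mul_left_cancel' hA.ne' hmod
    exact h3.of_dvd ⟨q1, by ring⟩
  · rw [if_neg (fun h => hd (hdiv.1 h)), if_neg hd]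

/-- Termwise: if `A ∣ m = b s t + r` then `((m / A : ℕ) : ℝ) = m / A`. -/
theorem TT_eq (f : ℝ → ℝ) (χ1 : DirichletCharacter ℂ q1) (χ2 : DirichletCharacter ℂ q2)
    {b r A c : ℕ} (hA : 0 < A) (hq1 : 0 < q1) (hq2 : 0 < q2) (hc : A * (q1 * q2) = c) (μ : ℂ) :
    TT f χ1 χ2 b r A μ =
      ∑' p : ℕ × ℕ, KK χ1 χ2 b r A c (p.1 : ℕ) (p.2 : ℕ) * Phi f A μ b r p.1 p.2 := by
  unfold TT
  refine tsum_congr fun p => ?_
  rw [KK_natCast χ1 χ2 hA hq1 hq2 hc]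
  by_cases hd : A ∣ b * (p.1 * p.2) + r
  · rw [if_pos hd, if_pos hd]
    have h1 : (((b * (p.1 * p.2) + r) / A : ℕ) : ℝ) = ((b : ℝ) * (p.1 * p.2) + r) / A := by
      rw [Nat.cast_div hd (by exact_mod_cast hA.ne')]
      push_cast
      ring
    unfold Phi Hf
    rw [h1]
    push_cast
    ring
  · rw [if_neg hd, if_neg hd, zero_mul]

theorem norm_KK_le (χ1 : DirichletCharacter ℂ q1) (χ2 : DirichletCharacter ℂ q2) (b r A c : ℕ)
    (x y : ZMod c) : ‖KK χ1 χ2 b r A c x y‖ ≤ 1 := by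
  unfold KK
  split_ifs
  · rw [norm_mul, norm_mul, RCLike.norm_conj, RCLike.norm_conj]
    have h1 := χ1.norm_le_one ((x.val : ℕ) : ZMod q1)
    have h2 := χ2.norm_le_one ((y.val : ℕ) : ZMod q2)
    have h3 := χ2.norm_le_one (((b * (x.val * y.val) + r) / A : ℕ) : ZMod q2)
    exact mul_le_one₀ h3 (by positivity) (mul_le_one₀ h1 (norm_nonneg _) h2)
  · simp

end OOK

end

section

/-!
# Completion of a double sum
-/

open Complex Finset
open scoped ComplexConjugate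

namespace OOK

variable {q1 q2 : ℕ}

theorem OK09_orth {c : ℕ} [NeZero c] (b : ZMod c) :
    ∑ k : ZMod c, (ZMod.stdAddChar (k * b) : ℂ) = if b = 0 then (c : ℂ) else 0 := by
  have h := AddChar.sum_mulShift (R := ZMod c) (R' := ℂ) (ψ := ZMod.stdAddChar) b
    (ZMod.isPrimitive_stdAddChar c)
  rw [h, ZMod.card]
  split_ifs <;> simp

/-- Fourier inversion on `(ZMod c)^2` (orthogonality of characters, `AddChar.sum_mulShift` or
`AddChar.sum_eq_ite`). -/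
theorem inversion {c : ℕ} [NeZero c] (K : ZMod c → ZMod c → ℂ) (x y : ZMod c) :
    K x y = ((c : ℂ) ^ 2)⁻¹ * ∑ k : ZMod c, ∑ l : ZMod c,
      Khat K k l * ZMod.stdAddChar (-(k * x + l * y)) := by
  have hc : (c : ℂ) ≠ 0 := Nat.cast_ne_zero.mpr (NeZero.ne c)
  have h1 : ∑ k : ZMod c, ∑ l : ZMod c, Khat K k l * ZMod.stdAddChar (-(k * x + l * y)) =
      ∑ x' : ZMod c, ∑ y' : ZMod c, K x' y' *
        ((∑ k : ZMod c, (ZMod.stdAddChar (k * (x' - x)) : ℂ)) *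
          (∑ l : ZMod c, (ZMod.stdAddChar (l * (y' - y)) : ℂ))) := by
    calc ∑ k : ZMod c, ∑ l : ZMod c, Khat K k l * ZMod.stdAddChar (-(k * x + l * y))
        = ∑ k : ZMod c, ∑ l : ZMod c, ∑ x' : ZMod c, ∑ y' : ZMod c, K x' y' *
          ((ZMod.stdAddChar (k * (x' - x)) : ℂ) * (ZMod.stdAddChar (l * (y' - y)) : ℂ)) := by
          refine Finset.sum_congr rfl fun k _ => Finset.sum_congr rfl fun l _ => ?_
          unfold Khat
          rw [Finset.sum_mul]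
          refine Finset.sum_congr rfl fun x' _ => ?_
          rw [Finset.sum_mul]
          refine Finset.sum_congr rfl fun y' _ => ?_
          rw [mul_assoc, ← AddChar.map_add_eq_mul, ← AddChar.map_add_eq_mul]
          congr 2
          ring
      _ = ∑ x' : ZMod c, ∑ y' : ZMod c, ∑ k : ZMod c, ∑ l : ZMod c, K x' y' *
          ((ZMod.stdAddChar (k * (x' - x)) : ℂ) * (ZMod.stdAddChar (l * (y' - y)) : ℂ)) := by
          rw [Finset.sum_congr rfl fun k _ => Finset.sum_comm, Finset.sum_comm]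
          refine Finset.sum_congr rfl fun x' _ => ?_
          rw [Finset.sum_congr rfl fun k _ => Finset.sum_comm, Finset.sum_comm]
      _ = _ := by
          refine Finset.sum_congr rfl fun x' _ => Finset.sum_congr rfl fun y' _ => ?_
          rw [Finset.sum_mul_sum, Finset.mul_sum]
          refine Finset.sum_congr rfl fun k _ => ?_
          rw [Finset.mul_sum]
  rw [h1]
  have h2 : ∑ x' : ZMod c, ∑ y' : ZMod c, K x' y' *
        ((∑ k : ZMod c, (ZMod.stdAddChar (k * (x' - x)) : ℂ)) *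
          (∑ l : ZMod c, (ZMod.stdAddChar (l * (y' - y)) : ℂ))) = K x y * ((c : ℂ) * c) := by
    rw [Finset.sum_eq_single x, Finset.sum_eq_single y]
    · rw [OK09_orth, OK09_orth, sub_self, sub_self, if_pos rfl]
    · intro y' _ hy
      rw [OK09_orth (y' - y), if_neg (sub_ne_zero.mpr hy)]
      simp
    · simp
    · intro x' _ hx
      refine Finset.sum_eq_zero fun y' _ => ?_
      rw [OK09_orth (x' - x), if_neg (sub_ne_zero.mpr hx)]
      simp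
    · simp
  rw [h2]
  field_simp

/-- summability of a bounded multiple -/
theorem OK09_summable {Φ : ℕ → ℕ → ℂ} (hΦ : Summable (fun p : ℕ × ℕ => Φ p.1 p.2)) {z w : ℂ}
    (hz : ‖z‖ = 1) (hw : ‖w‖ = 1) :
    Summable (fun p : ℕ × ℕ => Φ p.1 p.2 * (z ^ p.1 * w ^ p.2)) := by
  refine Summable.of_norm_bounded hΦ.norm fun p => ?_
  rw [norm_mul, norm_mul, norm_pow, norm_pow, hz, hw, one_pow, one_pow, mul_one, mul_one]

theorem OK09_shift1 {Φ : ℕ → ℕ → ℂ} (h0 : ∀ t, Φ 0 t = 0) {z w : ℂ} (hz : ‖z‖ = 1) :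
    ∑' p : ℕ × ℕ, Φ (p.1 + 1) p.2 * (z ^ p.1 * w ^ p.2) =
      z⁻¹ * ∑' p : ℕ × ℕ, Φ p.1 p.2 * (z ^ p.1 * w ^ p.2) := by
  have hz0 : z ≠ 0 := by
    intro h
    rw [h, norm_zero] at hz
    exact zero_ne_one hz
  have hinj : Function.Injective (fun p : ℕ × ℕ => (p.1 + 1, p.2)) := by
    rintro ⟨a, b⟩ ⟨a', b'⟩ h
    simp only [Prod.mk.injEq] at h ⊢
    exact ⟨by omega, h.2⟩
  have h1 : ∑' p : ℕ × ℕ, Φ (p.1 + 1) p.2 * (z ^ (p.1 + 1) * w ^ p.2) =
      ∑' p : ℕ × ℕ, Φ p.1 p.2 * (z ^ p.1 * w ^ p.2) := by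
    refine hinj.tsum_eq (f := fun p : ℕ × ℕ => Φ p.1 p.2 * (z ^ p.1 * w ^ p.2)) ?_
    rintro ⟨a, b⟩ hab
    rcases a with _ | a
    · exfalso
      apply hab
      simp [h0]
    · exact ⟨(a, b), rfl⟩
  rw [← h1, ← tsum_mul_left]
  refine tsum_congr fun p => ?_
  rw [pow_succ]
  field_simp

theorem OK09_shift2 {Φ : ℕ → ℕ → ℂ} (h0 : ∀ s, Φ s 0 = 0) {z w : ℂ} (hw : ‖w‖ = 1) :
    ∑' p : ℕ × ℕ, Φ p.1 (p.2 + 1) * (z ^ p.1 * w ^ p.2) =
      w⁻¹ * ∑' p : ℕ × ℕ, Φ p.1 p.2 * (z ^ p.1 * w ^ p.2) := by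
  have hw0 : w ≠ 0 := by
    intro h
    rw [h, norm_zero] at hw
    exact zero_ne_one hw
  have hinj : Function.Injective (fun p : ℕ × ℕ => (p.1, p.2 + 1)) := by
    rintro ⟨a, b⟩ ⟨a', b'⟩ h
    simp only [Prod.mk.injEq] at h ⊢
    exact ⟨h.1, by omega⟩
  have h1 : ∑' p : ℕ × ℕ, Φ p.1 (p.2 + 1) * (z ^ p.1 * w ^ (p.2 + 1)) =
      ∑' p : ℕ × ℕ, Φ p.1 p.2 * (z ^ p.1 * w ^ p.2) := by
    refine hinj.tsum_eq (f := fun p : ℕ × ℕ => Φ p.1 p.2 * (z ^ p.1 * w ^ p.2)) ?_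
    rintro ⟨a, b⟩ hab
    rcases b with _ | b
    · exfalso
      apply hab
      simp [h0]
    · exact ⟨(a, b), rfl⟩
  rw [← h1, ← tsum_mul_left]
  refine tsum_congr fun p => ?_
  rw [pow_succ]
  field_simp

theorem OK09_summable_shift1 {Φ : ℕ → ℕ → ℂ} (hΦ : Summable (fun p : ℕ × ℕ => Φ p.1 p.2)) :
    Summable (fun p : ℕ × ℕ => Φ (p.1 + 1) p.2) := by
  have hinj : Function.Injective (fun p : ℕ × ℕ => (p.1 + 1, p.2)) := by
    rintro ⟨a, b⟩ ⟨a', b'⟩ h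
    simp only [Prod.mk.injEq] at h ⊢
    exact ⟨by omega, h.2⟩
  have h0 := hΦ.comp_injective hinj
  exact h0

theorem OK09_summable_shift2 {Φ : ℕ → ℕ → ℂ} (hΦ : Summable (fun p : ℕ × ℕ => Φ p.1 p.2)) :
    Summable (fun p : ℕ × ℕ => Φ p.1 (p.2 + 1)) := by
  have hinj : Function.Injective (fun p : ℕ × ℕ => (p.1, p.2 + 1)) := by
    rintro ⟨a, b⟩ ⟨a', b'⟩ h
    simp only [Prod.mk.injEq] at h ⊢
    exact ⟨h.1, by omega⟩
  have h0 := hΦ.comp_injective hinj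
  exact h0

theorem OK09_inv_norm {z : ℂ} (hz : ‖z‖ = 1) : ‖z⁻¹ - 1‖ = ‖1 - z‖ := by
  have hz0 : z ≠ 0 := by
    intro h
    rw [h, norm_zero] at hz
    exact zero_ne_one hz
  have e : z⁻¹ - 1 = z⁻¹ * (1 - z) := by
    field_simp
  rw [e, norm_mul, norm_inv, hz, inv_one, one_mul]

/-- a bounded series -/
theorem OK09_norm_tsum {D : ℕ × ℕ → ℂ} {V : ℝ} (hV : ∀ F : Finset (ℕ × ℕ), ∑ p ∈ F, ‖D p‖ ≤ V)
    {z w : ℂ} (hz : ‖z‖ = 1) (hw : ‖w‖ = 1) :
    ‖∑' p : ℕ × ℕ, D p * (z ^ p.1 * w ^ p.2)‖ ≤ V := by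
  have hs : Summable (fun p : ℕ × ℕ => ‖D p‖) := summable_of_sum_le (fun p => norm_nonneg _) hV
  have hn : ∀ p : ℕ × ℕ, ‖D p * (z ^ p.1 * w ^ p.2)‖ = ‖D p‖ := by
    intro p
    rw [norm_mul, norm_mul, norm_pow, norm_pow, hz, hw, one_pow, one_pow, mul_one, mul_one]
  have hs2 : Summable (fun p : ℕ × ℕ => ‖D p * (z ^ p.1 * w ^ p.2)‖) := by
    simpa only [hn] using hs
  calc ‖∑' p : ℕ × ℕ, D p * (z ^ p.1 * w ^ p.2)‖
      ≤ ∑' p : ℕ × ℕ, ‖D p * (z ^ p.1 * w ^ p.2)‖ := norm_tsum_le_tsum_norm hs2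
    _ = ∑' p : ℕ × ℕ, ‖D p‖ := tsum_congr hn
    _ ≤ V := hs.tsum_le_of_sum_le hV

/-- Partial summation: if `Φ` is summable, `Φ 0 = 0`, `|z| = 1` then
`(z⁻¹ - 1) ∑ Φ(t) z^t = ∑ (Φ(t + 1) - Φ(t)) z^t`, so `|∑ Φ(t) z^t| ≤ ∑ |ΔΦ| / |1 - z|`. -/
theorem partial_one {Φ : ℕ → ℂ} (hΦ : Summable Φ) (h0 : Φ 0 = 0) {z : ℂ} (hz : ‖z‖ = 1)
    (hz1 : z ≠ 1) {V : ℝ} (hV : ∀ F : Finset ℕ, ∑ t ∈ F, ‖Φ (t + 1) - Φ t‖ ≤ V) :
    ‖∑' t, Φ t * z ^ t‖ ≤ V / ‖1 - z‖ := by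
  have hz0 : z ≠ 0 := by
    intro h
    rw [h, norm_zero] at hz
    exact zero_ne_one hz
  have hpos : 0 < ‖1 - z‖ := norm_pos_iff.mpr (sub_ne_zero.mpr (Ne.symm hz1))
  have hn : ∀ (Ψ : ℕ → ℂ) (t : ℕ), ‖Ψ t * z ^ t‖ = ‖Ψ t‖ := by
    intro Ψ t
    rw [norm_mul, norm_pow, hz, one_pow, mul_one]
  have hS1 : Summable (fun t => Φ t * z ^ t) :=
    Summable.of_norm_bounded hΦ.norm fun t => (hn Φ t).le
  have hΦ1 : Summable (fun t => Φ (t + 1)) := (summable_nat_add_iff 1).mpr hΦ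
  have hS2 : Summable (fun t => Φ (t + 1) * z ^ t) :=
    Summable.of_norm_bounded hΦ1.norm fun t => (hn (fun t => Φ (t + 1)) t).le
  have e1 : ∑' t, Φ (t + 1) * z ^ t = z⁻¹ * ∑' t, Φ t * z ^ t := by
    have h2 : ∑' t, Φ t * z ^ t = ∑' t, Φ (t + 1) * z ^ (t + 1) := by
      rw [hS1.tsum_eq_zero_add, h0, zero_mul, zero_add]
    rw [h2, ← tsum_mul_left]
    refine tsum_congr fun t => ?_
    rw [pow_succ]
    field_simp
  have e2 : ∑' t, (Φ (t + 1) - Φ t) * z ^ t = (z⁻¹ - 1) * ∑' t, Φ t * z ^ t := by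
    calc ∑' t, (Φ (t + 1) - Φ t) * z ^ t = ∑' t, (Φ (t + 1) * z ^ t - Φ t * z ^ t) :=
          tsum_congr fun t => by ring
      _ = ∑' t, Φ (t + 1) * z ^ t - ∑' t, Φ t * z ^ t := hS2.tsum_sub hS1
      _ = _ := by rw [e1]; ring
  have hs : Summable (fun t => ‖Φ (t + 1) - Φ t‖) := summable_of_sum_le (fun p => norm_nonneg _) hV
  have e3 : ‖∑' t, (Φ (t + 1) - Φ t) * z ^ t‖ ≤ V := by
    have hs2 : Summable (fun t => ‖(Φ (t + 1) - Φ t) * z ^ t‖) := by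
      simpa only [hn (fun t => Φ (t + 1) - Φ t)] using hs
    calc ‖∑' t, (Φ (t + 1) - Φ t) * z ^ t‖ ≤ ∑' t, ‖(Φ (t + 1) - Φ t) * z ^ t‖ :=
          norm_tsum_le_tsum_norm hs2
      _ = ∑' t, ‖Φ (t + 1) - Φ t‖ := tsum_congr (hn (fun t => Φ (t + 1) - Φ t))
      _ ≤ V := hs.tsum_le_of_sum_le hV
  rw [e2, norm_mul, OK09_inv_norm hz] at e3
  rw [le_div_iff₀ hpos]
  linarith only [e3]

/-- The same in two variables: `(z⁻¹ - 1) (w⁻¹ - 1) ∑ Φ(s, t) z^s w^t` is the sum of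
`(D₁₂Φ)(s, t) z^s w^t`, where `Φ(0, t) = Φ(s, 0) = 0`. -/
theorem partial_two {Φ : ℕ → ℕ → ℂ} (hΦ : Summable (fun p : ℕ × ℕ => Φ p.1 p.2))
    (h0 : ∀ t, Φ 0 t = 0) (h0' : ∀ s, Φ s 0 = 0) {z w : ℂ} (hz : ‖z‖ = 1) (hz1 : z ≠ 1)
    (hw : ‖w‖ = 1) (hw1 : w ≠ 1) {V : ℝ}
    (hV : ∀ F : Finset (ℕ × ℕ), ∑ p ∈ F, ‖Φ (p.1 + 1) (p.2 + 1) - Φ (p.1 + 1) p.2 -
      Φ p.1 (p.2 + 1) + Φ p.1 p.2‖ ≤ V) :
    ‖∑' p : ℕ × ℕ, Φ p.1 p.2 * (z ^ p.1 * w ^ p.2)‖ ≤ V / (‖1 - z‖ * ‖1 - w‖) := by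
  have hpos : 0 < ‖1 - z‖ := norm_pos_iff.mpr (sub_ne_zero.mpr (Ne.symm hz1))
  have hpos' : 0 < ‖1 - w‖ := norm_pos_iff.mpr (sub_ne_zero.mpr (Ne.symm hw1))
  have hΦ1 := OK09_summable_shift1 hΦ
  have hΦ2 := OK09_summable_shift2 hΦ
  have hΦ12 := OK09_summable_shift1 (Φ := fun s t => Φ s (t + 1)) hΦ2
  have s0 := OK09_summable hΦ hz hw
  have s1 := OK09_summable (Φ := fun s t => Φ (s + 1) t) hΦ1 hz hw
  have s2 := OK09_summable (Φ := fun s t => Φ s (t + 1)) hΦ2 hz hw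
  have s12 := OK09_summable (Φ := fun s t => Φ (s + 1) (t + 1)) hΦ12 hz hw
  have e1 := OK09_shift1 (Φ := Φ) (w := w) h0 hz
  have e2 := OK09_shift2 (Φ := Φ) (z := z) h0' hw
  have e12 := OK09_shift1 (Φ := fun s t => Φ s (t + 1)) (w := w) (fun t => h0 (t + 1)) hz
  have e3 : ∑' p : ℕ × ℕ, (Φ (p.1 + 1) (p.2 + 1) - Φ (p.1 + 1) p.2 -
      Φ p.1 (p.2 + 1) + Φ p.1 p.2) * (z ^ p.1 * w ^ p.2) =
      (z⁻¹ - 1) * ((w⁻¹ - 1) * ∑' p : ℕ × ℕ, Φ p.1 p.2 * (z ^ p.1 * w ^ p.2)) := by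
    calc ∑' p : ℕ × ℕ, (Φ (p.1 + 1) (p.2 + 1) - Φ (p.1 + 1) p.2 -
          Φ p.1 (p.2 + 1) + Φ p.1 p.2) * (z ^ p.1 * w ^ p.2)
        = ∑' p : ℕ × ℕ, (((Φ (p.1 + 1) (p.2 + 1) * (z ^ p.1 * w ^ p.2) -
            Φ (p.1 + 1) p.2 * (z ^ p.1 * w ^ p.2)) - Φ p.1 (p.2 + 1) * (z ^ p.1 * w ^ p.2)) +
              Φ p.1 p.2 * (z ^ p.1 * w ^ p.2)) := tsum_congr fun p => by ring
      _ = (∑' p : ℕ × ℕ, Φ (p.1 + 1) (p.2 + 1) * (z ^ p.1 * w ^ p.2) -
            ∑' p : ℕ × ℕ, Φ (p.1 + 1) p.2 * (z ^ p.1 * w ^ p.2)) -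
            ∑' p : ℕ × ℕ, Φ p.1 (p.2 + 1) * (z ^ p.1 * w ^ p.2) +
            ∑' p : ℕ × ℕ, Φ p.1 p.2 * (z ^ p.1 * w ^ p.2) := by
          rw [((s12.sub s1).sub s2).tsum_add s0, (s12.sub s1).tsum_sub s2, s12.tsum_sub s1]
      _ = _ := by
          rw [e12, e1, e2]
          ring
  have e4 := OK09_norm_tsum (D := fun p : ℕ × ℕ => Φ (p.1 + 1) (p.2 + 1) - Φ (p.1 + 1) p.2 -
      Φ p.1 (p.2 + 1) + Φ p.1 p.2) hV hz hw
  rw [e3, norm_mul, norm_mul, OK09_inv_norm hz, OK09_inv_norm hw] at e4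
  rw [le_div_iff₀ (mul_pos hpos hpos')]
  calc ‖∑' p : ℕ × ℕ, Φ p.1 p.2 * (z ^ p.1 * w ^ p.2)‖ * (‖1 - z‖ * ‖1 - w‖)
      = ‖1 - z‖ * (‖1 - w‖ * ‖∑' p : ℕ × ℕ, Φ p.1 p.2 * (z ^ p.1 * w ^ p.2)‖) := by ring
    _ ≤ V := e4

/-- one difference in the first variable -/
theorem OK09_diff1 {Φ : ℕ → ℕ → ℂ} (hΦ : Summable (fun p : ℕ × ℕ => Φ p.1 p.2))
    (h0 : ∀ t, Φ 0 t = 0) {z w : ℂ} (hz : ‖z‖ = 1) (hz1 : z ≠ 1) (hw : ‖w‖ = 1) {V : ℝ}
    (hV : ∀ F : Finset (ℕ × ℕ), ∑ p ∈ F, ‖Φ (p.1 + 1) p.2 - Φ p.1 p.2‖ ≤ V) :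
    ‖∑' p : ℕ × ℕ, Φ p.1 p.2 * (z ^ p.1 * w ^ p.2)‖ ≤ V / ‖1 - z‖ := by
  have hpos : 0 < ‖1 - z‖ := norm_pos_iff.mpr (sub_ne_zero.mpr (Ne.symm hz1))
  have s0 := OK09_summable hΦ hz hw
  have s1 := OK09_summable (Φ := fun s t => Φ (s + 1) t) (OK09_summable_shift1 hΦ) hz hw
  have e1 := OK09_shift1 (Φ := Φ) (w := w) h0 hz
  have e3 : ∑' p : ℕ × ℕ, (Φ (p.1 + 1) p.2 - Φ p.1 p.2) * (z ^ p.1 * w ^ p.2) =
      (z⁻¹ - 1) * ∑' p : ℕ × ℕ, Φ p.1 p.2 * (z ^ p.1 * w ^ p.2) := by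
    calc ∑' p : ℕ × ℕ, (Φ (p.1 + 1) p.2 - Φ p.1 p.2) * (z ^ p.1 * w ^ p.2)
        = ∑' p : ℕ × ℕ, (Φ (p.1 + 1) p.2 * (z ^ p.1 * w ^ p.2) -
            Φ p.1 p.2 * (z ^ p.1 * w ^ p.2)) := tsum_congr fun p => by ring
      _ = ∑' p : ℕ × ℕ, Φ (p.1 + 1) p.2 * (z ^ p.1 * w ^ p.2) -
            ∑' p : ℕ × ℕ, Φ p.1 p.2 * (z ^ p.1 * w ^ p.2) := s1.tsum_sub s0
      _ = _ := by
          rw [e1]
          ring
  have e4 := OK09_norm_tsum (D := fun p : ℕ × ℕ => Φ (p.1 + 1) p.2 - Φ p.1 p.2) hV hz hw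
  rw [e3, norm_mul, OK09_inv_norm hz] at e4
  rw [le_div_iff₀ hpos]
  linarith only [e4]

/-- one difference in the second variable -/
theorem OK09_diff2 {Φ : ℕ → ℕ → ℂ} (hΦ : Summable (fun p : ℕ × ℕ => Φ p.1 p.2))
    (h0 : ∀ s, Φ s 0 = 0) {z w : ℂ} (hz : ‖z‖ = 1) (hw : ‖w‖ = 1) (hw1 : w ≠ 1) {V : ℝ}
    (hV : ∀ F : Finset (ℕ × ℕ), ∑ p ∈ F, ‖Φ p.1 (p.2 + 1) - Φ p.1 p.2‖ ≤ V) :
    ‖∑' p : ℕ × ℕ, Φ p.1 p.2 * (z ^ p.1 * w ^ p.2)‖ ≤ V / ‖1 - w‖ := by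
  have hpos : 0 < ‖1 - w‖ := norm_pos_iff.mpr (sub_ne_zero.mpr (Ne.symm hw1))
  have s0 := OK09_summable hΦ hz hw
  have s1 := OK09_summable (Φ := fun s t => Φ s (t + 1)) (OK09_summable_shift2 hΦ) hz hw
  have e1 := OK09_shift2 (Φ := Φ) (z := z) h0 hw
  have e3 : ∑' p : ℕ × ℕ, (Φ p.1 (p.2 + 1) - Φ p.1 p.2) * (z ^ p.1 * w ^ p.2) =
      (w⁻¹ - 1) * ∑' p : ℕ × ℕ, Φ p.1 p.2 * (z ^ p.1 * w ^ p.2) := by
    calc ∑' p : ℕ × ℕ, (Φ p.1 (p.2 + 1) - Φ p.1 p.2) * (z ^ p.1 * w ^ p.2)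
        = ∑' p : ℕ × ℕ, (Φ p.1 (p.2 + 1) * (z ^ p.1 * w ^ p.2) -
            Φ p.1 p.2 * (z ^ p.1 * w ^ p.2)) := tsum_congr fun p => by ring
      _ = ∑' p : ℕ × ℕ, Φ p.1 (p.2 + 1) * (z ^ p.1 * w ^ p.2) -
            ∑' p : ℕ × ℕ, Φ p.1 p.2 * (z ^ p.1 * w ^ p.2) := s1.tsum_sub s0
      _ = _ := by
          rw [e1]
          ring
  have e4 := OK09_norm_tsum (D := fun p : ℕ × ℕ => Φ p.1 (p.2 + 1) - Φ p.1 p.2) hV hz hw
  rw [e3, norm_mul, OK09_inv_norm hw] at e4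
  rw [le_div_iff₀ hpos]
  linarith only [e4]

theorem OK09_norm_char {c : ℕ} [NeZero c] (k : ZMod c) : ‖(ZMod.stdAddChar k : ℂ)‖ = 1 :=
  AddChar.norm_apply _ _

theorem OK09_nu_neg {c : ℕ} [NeZero c] (k : ZMod c) :
    ‖1 - (ZMod.stdAddChar (-k) : ℂ)‖ = nu k := by
  unfold nu
  rw [AddChar.map_neg_eq_inv, ← OK09_inv_norm (OK09_norm_char k), norm_sub_rev]

theorem OK09_char_ne_one {c : ℕ} [NeZero c] {k : ZMod c} (hk : k ≠ 0) :
    (ZMod.stdAddChar (-k) : ℂ) ≠ 1 := by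
  intro h
  have h1 : (ZMod.stdAddChar (-k) : ℂ) = ZMod.stdAddChar (0 : ZMod c) := by
    rw [h, AddChar.map_zero_eq_one]
  have h2 := ZMod.injective_stdAddChar h1
  exact hk (neg_eq_zero.mp h2)

/-- The completion inequality: `inversion`, exchange of the finite sum over `(k, l)` and the series,
`stdAddChar (-(k s + l t)) = z^s w^t` with `z = stdAddChar (-k)`, `w = stdAddChar (-l)` (and
`‖1 - stdAddChar (-k)‖ = nu k`), `partial_two` for `k, l ≠ 0`, and for `k = 0`, `l ≠ 0`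
`partial_one` for each `s` (summed: `V1` bounds the sum over all `(s, t)`), symmetrically `l = 0`. -/
theorem completion {c : ℕ} [NeZero c] (K : ZMod c → ZMod c → ℂ) (h00 : Khat K 0 0 = 0)
    {Φ : ℕ → ℕ → ℂ} (hΦ : Summable (fun p : ℕ × ℕ => Φ p.1 p.2))
    (h0 : ∀ t, Φ 0 t = 0) (h0' : ∀ s, Φ s 0 = 0) {V V1 V2 : ℝ}
    (hV : ∀ F : Finset (ℕ × ℕ), ∑ p ∈ F, ‖Φ (p.1 + 1) (p.2 + 1) - Φ (p.1 + 1) p.2 -
      Φ p.1 (p.2 + 1) + Φ p.1 p.2‖ ≤ V)
    (hV1 : ∀ F : Finset (ℕ × ℕ), ∑ p ∈ F, ‖Φ p.1 (p.2 + 1) - Φ p.1 p.2‖ ≤ V1)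
    (hV2 : ∀ F : Finset (ℕ × ℕ), ∑ p ∈ F, ‖Φ (p.1 + 1) p.2 - Φ p.1 p.2‖ ≤ V2) :
    ‖∑' p : ℕ × ℕ, K (p.1 : ℕ) (p.2 : ℕ) * Φ p.1 p.2‖ ≤ ((c : ℝ) ^ 2)⁻¹ *
      (∑ k ∈ Finset.univ.erase (0 : ZMod c), ∑ l ∈ Finset.univ.erase (0 : ZMod c),
          ‖Khat K k l‖ * (V / (nu k * nu l)) +
        ∑ l ∈ Finset.univ.erase (0 : ZMod c), ‖Khat K 0 l‖ * (V1 / nu l) +
        ∑ k ∈ Finset.univ.erase (0 : ZMod c), ‖Khat K k 0‖ * (V2 / nu k)) := by
  set S : ZMod c → ZMod c → ℂ := fun k l => ∑' p : ℕ × ℕ, Φ p.1 p.2 *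
    ((ZMod.stdAddChar (-k) : ℂ) ^ p.1 * (ZMod.stdAddChar (-l) : ℂ) ^ p.2) with hS
  have hsum : ∀ k l : ZMod c, Summable (fun p : ℕ × ℕ => Khat K k l * (Φ p.1 p.2 *
      ((ZMod.stdAddChar (-k) : ℂ) ^ p.1 * (ZMod.stdAddChar (-l) : ℂ) ^ p.2))) := fun k l =>
    (OK09_summable hΦ (OK09_norm_char _) (OK09_norm_char _)).mul_left _
  have hterm : ∀ p : ℕ × ℕ, K (p.1 : ℕ) (p.2 : ℕ) * Φ p.1 p.2 = ((c : ℂ) ^ 2)⁻¹ *
      ∑ k : ZMod c, ∑ l : ZMod c, Khat K k l * (Φ p.1 p.2 *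
      ((ZMod.stdAddChar (-k) : ℂ) ^ p.1 * (ZMod.stdAddChar (-l) : ℂ) ^ p.2)) := by
    intro p
    rw [inversion K (p.1 : ℕ) (p.2 : ℕ), mul_assoc, Finset.sum_mul]
    congr 1
    refine Finset.sum_congr rfl fun k _ => ?_
    rw [Finset.sum_mul]
    refine Finset.sum_congr rfl fun l _ => ?_
    have e : (ZMod.stdAddChar (-(k * ((p.1 : ℕ) : ZMod c) + l * ((p.2 : ℕ) : ZMod c))) : ℂ) =
        (ZMod.stdAddChar (-k) : ℂ) ^ p.1 * (ZMod.stdAddChar (-l) : ℂ) ^ p.2 := by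
      rw [← AddChar.map_nsmul_eq_pow, ← AddChar.map_nsmul_eq_pow, ← AddChar.map_add_eq_mul]
      congr 1
      rw [nsmul_eq_mul, nsmul_eq_mul]
      ring
    rw [e]
    ring
  have hmain : ∑' p : ℕ × ℕ, K (p.1 : ℕ) (p.2 : ℕ) * Φ p.1 p.2 = ((c : ℂ) ^ 2)⁻¹ *
      ∑ k : ZMod c, ∑ l : ZMod c, Khat K k l * S k l := by
    rw [tsum_congr hterm, tsum_mul_left]
    congr 1
    rw [Summable.tsum_finsetSum fun k _ => summable_sum fun l _ => hsum k l]
    refine Finset.sum_congr rfl fun k _ => ?_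
    rw [Summable.tsum_finsetSum fun l _ => hsum k l]
    refine Finset.sum_congr rfl fun l _ => ?_
    rw [tsum_mul_left]
  have hb : ∀ k l : ZMod c, k ≠ 0 → l ≠ 0 → ‖S k l‖ ≤ V / (nu k * nu l) := by
    intro k l hk hl
    have := partial_two hΦ h0 h0' (OK09_norm_char (-k)) (OK09_char_ne_one hk)
      (OK09_norm_char (-l)) (OK09_char_ne_one hl) hV
    rwa [OK09_nu_neg, OK09_nu_neg] at this
  have hb1 : ∀ l : ZMod c, l ≠ 0 → ‖S 0 l‖ ≤ V1 / nu l := by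
    intro l hl
    have := OK09_diff2 hΦ h0' (OK09_norm_char (-(0 : ZMod c)))
      (OK09_norm_char (-l)) (OK09_char_ne_one hl) hV1
    rwa [OK09_nu_neg] at this
  have hb2 : ∀ k : ZMod c, k ≠ 0 → ‖S k 0‖ ≤ V2 / nu k := by
    intro k hk
    have := OK09_diff1 hΦ h0 (OK09_norm_char (-k)) (OK09_char_ne_one hk)
      (OK09_norm_char (-(0 : ZMod c))) hV2
    rwa [OK09_nu_neg] at this
  rw [hmain, norm_mul, norm_inv, norm_pow, Complex.norm_natCast]
  refine mul_le_mul_of_nonneg_left ?_ (by positivity)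
  have hsplit : ∑ k : ZMod c, ∑ l : ZMod c, Khat K k l * S k l =
      ∑ k ∈ Finset.univ.erase (0 : ZMod c), ∑ l ∈ Finset.univ.erase (0 : ZMod c), Khat K k l * S k l +
        ∑ l ∈ Finset.univ.erase (0 : ZMod c), Khat K 0 l * S 0 l +
        ∑ k ∈ Finset.univ.erase (0 : ZMod c), Khat K k 0 * S k 0 := by
    rw [← Finset.add_sum_erase Finset.univ (fun k => ∑ l : ZMod c, Khat K k l * S k l)
      (Finset.mem_univ (0 : ZMod c))]
    have h1 : ∀ k : ZMod c, ∑ l : ZMod c, Khat K k l * S k l = Khat K k 0 * S k 0 +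
        ∑ l ∈ Finset.univ.erase (0 : ZMod c), Khat K k l * S k l := fun k =>
      (Finset.add_sum_erase Finset.univ (fun l => Khat K k l * S k l)
        (Finset.mem_univ (0 : ZMod c))).symm
    rw [Finset.sum_congr rfl fun k _ => h1 k, Finset.sum_add_distrib, h1 0, h00]
    ring
  rw [hsplit]
  refine (norm_add₃_le).trans (add_le_add (add_le_add ?_ ?_) ?_)
  · refine (norm_sum_le _ _).trans (Finset.sum_le_sum fun k hk => ?_)
    refine (norm_sum_le _ _).trans (Finset.sum_le_sum fun l hl => ?_)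
    rw [norm_mul]
    exact mul_le_mul_of_nonneg_left (hb k l (Finset.ne_of_mem_erase hk) (Finset.ne_of_mem_erase hl))
      (norm_nonneg _)
  · refine (norm_sum_le _ _).trans (Finset.sum_le_sum fun l hl => ?_)
    rw [norm_mul]
    exact mul_le_mul_of_nonneg_left (hb1 l (Finset.ne_of_mem_erase hl)) (norm_nonneg _)
  · refine (norm_sum_le _ _).trans (Finset.sum_le_sum fun k hk => ?_)
    rw [norm_mul]
    exact mul_le_mul_of_nonneg_left (hb2 k (Finset.ne_of_mem_erase hk)) (norm_nonneg _)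

end OOK

end

section

/-!
# Sums over the frequencies
-/

open Complex Finset
open scoped ComplexConjugate

namespace OOK

variable {q1 q2 : ℕ}

lemma OK17_sin_ge {θ : ℝ} (h0 : 0 ≤ θ) (h1 : θ ≤ 1) :
    2 * min θ (1 - θ) ≤ Real.sin (Real.pi * θ) := by
  have hpi := Real.pi_pos
  rcases le_total θ (1 / 2) with h | h
  · have := Real.mul_le_sin (x := Real.pi * θ) (by positivity) (by nlinarith only [hpi, h])
    have e : 2 / Real.pi * (Real.pi * θ) = 2 * θ := by field_simp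
    rw [e] at this
    have := min_le_left θ (1 - θ)
    linarith
  · have := Real.mul_le_sin (x := Real.pi * (1 - θ)) (mul_nonneg hpi.le (by linarith only [h1])) (by nlinarith only [hpi, h])
    have e : 2 / Real.pi * (Real.pi * (1 - θ)) = 2 * (1 - θ) := by field_simp
    rw [e] at this
    have e2 : Real.sin (Real.pi * (1 - θ)) = Real.sin (Real.pi * θ) := by
      rw [show Real.pi * (1 - θ) = Real.pi - Real.pi * θ by ring, Real.sin_pi_sub]
    rw [e2] at this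
    have := min_le_right θ (1 - θ)
    linarith

/-- `stdAddChar k = e(k / c)` and `|1 - e(θ)| = 2 |sin π θ| ≥ 4 min(θ, 1 - θ)` for `0 ≤ θ ≤ 1`. -/
theorem le_nu {c : ℕ} [NeZero c] (k : ZMod c) :
    4 * (min (k.val : ℝ) (c - k.val)) / c ≤ nu k := by
  have hc : (0 : ℝ) < c := by exact_mod_cast Nat.pos_of_ne_zero (NeZero.ne c)
  have hv : (k.val : ℝ) ≤ c := by exact_mod_cast (ZMod.val_lt k).le
  have e1 : (ZMod.stdAddChar k : ℂ) = cexp (I * ((2 * Real.pi * (k.val / c) : ℝ) : ℂ)) := by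
    have : k = ((k.val : ℤ) : ZMod c) := by simp
    conv_lhs => rw [this]
    rw [ZMod.stdAddChar_coe]
    congr 1
    push_cast
    ring
  have e2 : nu k = ‖cexp (I * ((2 * Real.pi * (k.val / c) : ℝ) : ℂ)) - 1‖ := by
    rw [nu, e1, norm_sub_rev]
  rw [e2, Complex.norm_exp_I_mul_ofReal_sub_one]
  have h0 : (0 : ℝ) ≤ k.val / c := by positivity
  have h1 : (k.val : ℝ) / c ≤ 1 := by rw [div_le_one hc]; exact hv
  have := OK17_sin_ge h0 h1
  have e3 : 2 * Real.pi * (k.val / c) / 2 = Real.pi * (k.val / c) := by ring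
  rw [e3, Real.norm_eq_abs]
  refine le_trans ?_ (le_abs_self _)
  have e4 : 4 * (min (k.val : ℝ) (c - k.val)) / c = 2 * (2 * min ((k.val : ℝ) / c) (1 - k.val / c)) := by
    have : min ((k.val : ℝ) / c) (1 - k.val / c) = (min (k.val : ℝ) (c - k.val)) / c := by
      rw [← min_div_div_right hc.le, sub_div, div_self hc.ne']
    rw [this]
    ring
  rw [e4]
  linarith only [this]

lemma OK17_inv_nu {c : ℕ} [NeZero c] (k : ZMod c) (hk : k ≠ 0) :
    0 < nu k ∧ 1 / nu k ≤ c / 4 * (1 / (k.val : ℝ) + 1 / ((c - k.val : ℕ) : ℝ)) := by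
  have hc : (0 : ℝ) < c := by exact_mod_cast Nat.pos_of_ne_zero (NeZero.ne c)
  have hlt := ZMod.val_lt k
  have hv : (0 : ℝ) < k.val := by
    have : 0 < k.val := Nat.pos_of_ne_zero (by rwa [Ne, ZMod.val_eq_zero])
    exact_mod_cast this
  have hv2 : (0 : ℝ) < (c : ℝ) - k.val := by
    have : (k.val : ℝ) < c := by exact_mod_cast hlt
    linarith only [this]
  have hm : 0 < min (k.val : ℝ) (c - k.val) := lt_min hv hv2
  have h := le_nu k
  have hpos : 0 < 4 * (min (k.val : ℝ) (c - k.val)) / c := by positivity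
  refine ⟨lt_of_lt_of_le hpos h, ?_⟩
  have h1 : 1 / nu k ≤ 1 / (4 * (min (k.val : ℝ) (c - k.val)) / c) :=
    one_div_le_one_div_of_le hpos h
  refine h1.trans ?_
  have e : 1 / (4 * (min (k.val : ℝ) (c - k.val)) / c) =
      c / 4 * (1 / (min (k.val : ℝ) (c - k.val))) := by
    field_simp
  rw [e]
  refine mul_le_mul_of_nonneg_left ?_ (by positivity)
  rw [Nat.cast_sub hlt.le]
  rcases min_choice (k.val : ℝ) (c - k.val) with h2 | h2
  · rw [h2]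
    have : 0 < 1 / ((c : ℝ) - k.val) := by positivity
    linarith only [this]
  · rw [h2]
    have : 0 < 1 / (k.val : ℝ) := by positivity
    linarith only [this]

lemma OK17_sum_val {c : ℕ} [NeZero c] (F : ℕ → ℝ) :
    ∑ k ∈ Finset.univ.erase (0 : ZMod c), F k.val = ∑ v ∈ Finset.Ico 1 c, F v := by
  refine Finset.sum_bij (fun k _ => k.val) ?_ ?_ ?_ ?_
  · intro k hk
    rw [Finset.mem_erase] at hk
    rw [Finset.mem_Ico]
    exact ⟨Nat.pos_of_ne_zero (by rw [Ne, ZMod.val_eq_zero]; exact hk.1), ZMod.val_lt k⟩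
  · intro a _ b _ h
    exact ZMod.val_injective c h
  · intro b hb
    rw [Finset.mem_Ico] at hb
    refine ⟨(b : ZMod c), ?_, ZMod.val_cast_of_lt hb.2⟩
    rw [Finset.mem_erase]
    refine ⟨?_, Finset.mem_univ _⟩
    intro h0
    have := ZMod.val_cast_of_lt hb.2
    rw [h0, ZMod.val_zero] at this
    omega
  · intro a _
    rfl

lemma OK17_sum_gcd {c C1 : ℕ} (hc : 0 < c) (h : C1 ∣ c) :
    ∑ v ∈ Finset.Ico 1 c, (Nat.gcd v C1 : ℝ) / v ≤ C1.divisors.card * (1 + Real.log c) := by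
  have hC1 : C1 ≠ 0 := by
    rintro rfl
    rw [zero_dvd_iff] at h
    omega
  have hc1 : (1 : ℝ) ≤ c := by exact_mod_cast hc
  have s1 : ∀ v ∈ Finset.Ico 1 c, (Nat.gcd v C1 : ℝ) / v ≤
      ∑ g ∈ C1.divisors, if g ∣ v then (g : ℝ) / v else 0 := by
    intro v hv
    rw [Finset.mem_Ico] at hv
    have hg : Nat.gcd v C1 ∈ C1.divisors := Nat.mem_divisors.2 ⟨Nat.gcd_dvd_right _ _, hC1⟩
    have := Finset.single_le_sum (f := fun g : ℕ => if g ∣ v then (g : ℝ) / v else 0)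
      (fun g _ => by split_ifs <;> positivity) hg
    rw [if_pos (Nat.gcd_dvd_left _ _)] at this
    exact this
  refine (Finset.sum_le_sum s1).trans ?_
  rw [Finset.sum_comm]
  have s2 : ∀ g ∈ C1.divisors, (∑ v ∈ Finset.Ico 1 c, if g ∣ v then (g : ℝ) / v else 0) ≤
      1 + Real.log c := by
    intro g hg
    have hg0 : 0 < g := Nat.pos_of_mem_divisors hg
    rw [← Finset.sum_filter]
    have s3 : ∑ v ∈ (Finset.Ico 1 c).filter (fun v => g ∣ v), (g : ℝ) / v ≤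
        ∑ j ∈ Finset.Icc 1 c, ((j : ℝ))⁻¹ := by
      have : ∑ v ∈ (Finset.Ico 1 c).filter (fun v => g ∣ v), (g : ℝ) / v =
          ∑ j ∈ ((Finset.Ico 1 c).filter (fun v => g ∣ v)).image (fun v => v / g), ((j : ℝ))⁻¹ := by
        rw [Finset.sum_image]
        · refine Finset.sum_congr rfl fun v hv => ?_
          rw [Finset.mem_filter, Finset.mem_Ico] at hv
          obtain ⟨w, rfl⟩ := hv.2
          rw [Nat.mul_div_cancel_left _ hg0]
          have hw : (w : ℝ) ≠ 0 := by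
            have : w ≠ 0 := by rintro rfl; simp at hv
            exact_mod_cast this
          have hg' : (g : ℝ) ≠ 0 := by positivity
          push_cast
          field_simp
        · intro a ha b hb hab
          rw [Finset.mem_coe, Finset.mem_filter] at ha hb
          dsimp only at hab
          rw [← Nat.mul_div_cancel' ha.2, ← Nat.mul_div_cancel' hb.2, hab]
      rw [this]
      refine Finset.sum_le_sum_of_subset_of_nonneg ?_ (fun i _ _ => by positivity)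
      intro j hj
      rw [Finset.mem_image] at hj
      obtain ⟨v, hv, rfl⟩ := hj
      rw [Finset.mem_filter, Finset.mem_Ico] at hv
      rw [Finset.mem_Icc]
      exact ⟨Nat.div_pos (Nat.le_of_dvd (by omega) hv.2) hg0,
        (Nat.div_le_self _ _).trans hv.1.2.le⟩
    refine s3.trans ?_
    have h1 := harmonic_le_one_add_log c
    rw [harmonic_eq_sum_Icc] at h1
    push_cast at h1
    exact h1
  refine (Finset.sum_le_sum s2).trans ?_
  rw [Finset.sum_const, nsmul_eq_mul]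

lemma OK17_main {c C1 : ℕ} [NeZero c] (h : C1 ∣ c) :
    ∑ v ∈ Finset.Ico 1 c, (Nat.gcd v C1 : ℝ) * (c / 4 * (1 / (v : ℝ) + 1 / ((c - v : ℕ) : ℝ))) ≤
      c * C1.divisors.card * (1 + Real.log c) := by
  have hc0 : 0 < c := Nat.pos_of_ne_zero (NeZero.ne c)
  have hc : (1 : ℝ) ≤ c := by exact_mod_cast hc0
  have hS := OK17_sum_gcd hc0 h
  have e1 : ∑ v ∈ Finset.Ico 1 c, (Nat.gcd v C1 : ℝ) / ((c - v : ℕ) : ℝ) =
      ∑ v ∈ Finset.Ico 1 c, (Nat.gcd v C1 : ℝ) / v := by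
    refine Finset.sum_nbij' (fun v => c - v) (fun v => c - v) ?_ ?_ ?_ ?_ ?_
    · intro v hv
      rw [Finset.mem_Ico] at hv ⊢
      omega
    · intro v hv
      rw [Finset.mem_Ico] at hv ⊢
      omega
    · intro v hv
      rw [Finset.mem_Ico] at hv
      omega
    · intro v hv
      rw [Finset.mem_Ico] at hv
      omega
    · intro v hv
      rw [Finset.mem_Ico] at hv
      have : Nat.gcd v C1 = Nat.gcd (c - v) C1 := by
        apply Nat.dvd_antisymm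
        · refine Nat.dvd_gcd ?_ (Nat.gcd_dvd_right _ _)
          exact Nat.dvd_sub ((Nat.gcd_dvd_right _ _).trans h) (Nat.gcd_dvd_left _ _)
        · refine Nat.dvd_gcd ?_ (Nat.gcd_dvd_right _ _)
          have h2 : Nat.gcd (c - v) C1 ∣ c := (Nat.gcd_dvd_right _ _).trans h
          have h3 : v = c - (c - v) := by omega
          have h4 := Nat.dvd_sub h2 (Nat.gcd_dvd_left (c - v) C1)
          rwa [← h3] at h4
      rw [this]
  have e2 : ∑ v ∈ Finset.Ico 1 c, (Nat.gcd v C1 : ℝ) * (c / 4 * (1 / (v : ℝ) + 1 / ((c - v : ℕ) : ℝ)))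
      = c / 4 * (∑ v ∈ Finset.Ico 1 c, (Nat.gcd v C1 : ℝ) / v +
        ∑ v ∈ Finset.Ico 1 c, (Nat.gcd v C1 : ℝ) / ((c - v : ℕ) : ℝ)) := by
    rw [← Finset.sum_add_distrib, Finset.mul_sum]
    refine Finset.sum_congr rfl fun v _ => ?_
    ring
  rw [e2, e1]
  have hlog : 0 ≤ Real.log c := Real.log_nonneg hc
  have hR : 0 ≤ (C1.divisors.card : ℝ) * (1 + Real.log c) := by positivity
  nlinarith only [hS, hR]

/-- Pair `k` with `c - k` (`gcd(c - k, C₁) = gcd(k, C₁)` as `C₁ ∣ c`): the sum is at most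
`2 ∑_{1 ≤ k ≤ c/2} gcd(k, C₁) c / (4 k) ≤ (c / 2) ∑_{g ∣ C₁} g ∑_{k ≤ c, g ∣ k} 1 / k ≤
(c / 2) ∑_{g ∣ C₁} (1 + log c)` (`harm_le` of Part08 or `harmonic_le_one_add_log`). -/
theorem sum_gcd_nu {c C1 : ℕ} [NeZero c] (h : C1 ∣ c) :
    ∑ k ∈ Finset.univ.erase (0 : ZMod c), (Nat.gcd k.val C1 : ℝ) / nu k ≤
      c * C1.divisors.card * (1 + Real.log c) := by
  refine le_trans ?_ (OK17_main h)
  rw [← OK17_sum_val (fun v => (Nat.gcd v C1 : ℝ) * (c / 4 * (1 / (v : ℝ) + 1 / ((c - v : ℕ) : ℝ))))]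
  refine Finset.sum_le_sum fun k hk => ?_
  rw [Finset.mem_erase] at hk
  have h1 := (OK17_inv_nu k hk.1).2
  rw [div_eq_mul_one_div]
  exact mul_le_mul_of_nonneg_left h1 (by positivity)

/-- `sqrt g ≤ g` for `g ≥ 1` (`gcd(k, C₁) ≥ 1` as `C₁ ≥ 1`). -/
theorem sum_sqrt_gcd_nu {c C1 : ℕ} [NeZero c] (h : C1 ∣ c) (h1 : 0 < C1) :
    ∑ k ∈ Finset.univ.erase (0 : ZMod c), Real.sqrt (Nat.gcd k.val C1) / nu k ≤
      c * C1.divisors.card * (1 + Real.log c) := by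
  refine le_trans (Finset.sum_le_sum fun k hk => ?_) (sum_gcd_nu h)
  rw [Finset.mem_erase] at hk
  have hp := (OK17_inv_nu k hk.1).1
  have hg : (1 : ℝ) ≤ (Nat.gcd k.val C1 : ℝ) := by
    exact_mod_cast Nat.gcd_pos_of_pos_right _ h1
  refine div_le_div_of_nonneg_right ?_ hp.le
  rw [Real.sqrt_le_left (by linarith only [hg])]
  nlinarith only [hg]

end OOK

end

section

/-!
# Elementary series
-/

open Complex Finset
open scoped ComplexConjugate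

namespace OOK

variable {q1 q2 : ℕ}

/-- `exp(-y) ≤ C y^(-j)`: `y^j exp(-y)` is bounded on `(0, ∞)` (continuous, tends to `0` at infinity,
`tendsto_rpow_mul_exp_neg_mul_atTop_nhds_zero`, and `y^j ≤ 1` on `(0, 1]`; or
`Real.rpow_le_...`: with `n` an integer `≥ j`, `y^j ≤ 1 + y^n ≤ (1 + n!) exp y`). -/
theorem exp_neg_le_rpow {j : ℝ} (hj : 0 < j) :
    ∃ C : ℝ, 0 < C ∧ ∀ y : ℝ, 0 < y → Real.exp (-y) ≤ C * y ^ (-j) := by
  refine ⟨1 + (Nat.factorial ⌈j⌉₊ : ℝ), by positivity, fun y hy => ?_⟩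
  have hn : j ≤ (⌈j⌉₊ : ℝ) := Nat.le_ceil j
  have h1 : y ^ j ≤ 1 + y ^ ⌈j⌉₊ := by
    rcases le_total y 1 with h | h
    · have h2 : y ^ j ≤ 1 := Real.rpow_le_one hy.le h hj.le
      have h3 : 0 ≤ y ^ ⌈j⌉₊ := by positivity
      linarith only [h2, h3]
    · have h2 : y ^ j ≤ y ^ ((⌈j⌉₊ : ℕ) : ℝ) := Real.rpow_le_rpow_of_exponent_le h hn
      rw [Real.rpow_natCast] at h2
      linarith only [h2]
  have h2 : y ^ ⌈j⌉₊ ≤ (Nat.factorial ⌈j⌉₊ : ℝ) * Real.exp y := by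
    have h3 := Real.pow_div_factorial_le_exp y hy.le ⌈j⌉₊
    rwa [div_le_iff₀' (by positivity)] at h3
  have h3 : 1 ≤ Real.exp y := Real.one_le_exp hy.le
  have h4 : y ^ j ≤ (1 + (Nat.factorial ⌈j⌉₊ : ℝ)) * Real.exp y := by
    linarith only [h1, h2, h3]
  have h5 : 0 < y ^ j := Real.rpow_pos_of_pos hy j
  rw [Real.exp_neg, Real.rpow_neg hy.le, ← div_eq_mul_inv, inv_eq_one_div, div_le_div_iff₀ (Real.exp_pos y) h5, one_mul]
  exact h4

/-- the series `∑ u^(-1 - ε)` -/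
theorem OK01_sum {ε : ℝ} (hε : 0 < ε) : Summable (fun u : ℕ => (u : ℝ) ^ (-1 - ε)) := by
  rw [Real.summable_nat_rpow]
  linarith only [hε]

/-- By `exp_neg_le_rpow` with `j = 1 + α + ε`, `y = u / D`: the terms are at most
`C D^(1 + α + ε) u^(-1 - ε)`, and `∑ u^(-1 - ε)` converges. -/
theorem tsum_one {α ε : ℝ} (hε : 0 < ε) (hα : 0 < 1 + α + ε) :
    ∃ C : ℝ, 0 < C ∧ ∀ D : ℝ, 0 < D →
      Summable (fun u : ℕ => if 0 < u then (u : ℝ) ^ α * Real.exp (-u / D) else 0) ∧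
      ∑' u : ℕ, (if 0 < u then (u : ℝ) ^ α * Real.exp (-u / D) else 0) ≤ C * D ^ (1 + α + ε) := by
  obtain ⟨C, hC, h⟩ := exp_neg_le_rpow hα
  have hs := OK01_sum hε
  have hs0 : 0 ≤ ∑' u : ℕ, (u : ℝ) ^ (-1 - ε) := tsum_nonneg fun u => by positivity
  refine ⟨C * (∑' u : ℕ, (u : ℝ) ^ (-1 - ε) + 1), by positivity, fun D hD => ?_⟩
  have hDp : 0 < D ^ (1 + α + ε) := Real.rpow_pos_of_pos hD _
  have hb : ∀ u : ℕ, (if 0 < u then (u : ℝ) ^ α * Real.exp (-u / D) else 0) ≤ C * D ^ (1 + α + ε) * (u : ℝ) ^ (-1 - ε) := by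
    intro u
    split_ifs with hu
    · have hu' : (0 : ℝ) < u := by exact_mod_cast hu
      have h1 := h (u / D) (by positivity)
      rw [neg_div]
      calc (u : ℝ) ^ α * Real.exp (-(u / D)) ≤ (u : ℝ) ^ α * (C * (u / D) ^ (-(1 + α + ε))) := by gcongr
        _ = C * D ^ (1 + α + ε) * (u : ℝ) ^ (-1 - ε) := by
          have e1 : ((u : ℝ) / D) ^ (-(1 + α + ε)) = (u : ℝ) ^ (-(1 + α + ε)) * D ^ (1 + α + ε) := by
            rw [Real.div_rpow hu'.le hD.le, Real.rpow_neg hD.le, div_inv_eq_mul]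
          have e2 : (u : ℝ) ^ (-1 - ε) = (u : ℝ) ^ α * (u : ℝ) ^ (-(1 + α + ε)) := by
            rw [← Real.rpow_add hu']
            congr 1
            ring
          rw [e1, e2]
          ring
    · positivity
  have h0 : ∀ u : ℕ, 0 ≤ (if 0 < u then (u : ℝ) ^ α * Real.exp (-u / D) else 0) := by
    intro u
    split_ifs
    · positivity
    · exact le_rfl
  have hsum : Summable (fun u : ℕ => C * D ^ (1 + α + ε) * (u : ℝ) ^ (-1 - ε)) := hs.mul_left _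
  have hS : Summable (fun u : ℕ => if 0 < u then (u : ℝ) ^ α * Real.exp (-u / D) else 0) :=
    Summable.of_nonneg_of_le h0 hb hsum
  refine ⟨hS, ?_⟩
  calc ∑' u : ℕ, (if 0 < u then (u : ℝ) ^ α * Real.exp (-u / D) else 0)
      ≤ ∑' u : ℕ, C * D ^ (1 + α + ε) * (u : ℝ) ^ (-1 - ε) := hS.tsum_le_tsum hb hsum
    _ = C * D ^ (1 + α + ε) * ∑' u : ℕ, (u : ℝ) ^ (-1 - ε) := tsum_mul_left
    _ ≤ C * (∑' u : ℕ, (u : ℝ) ^ (-1 - ε) + 1) * D ^ (1 + α + ε) := by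
      have : 0 ≤ C * D ^ (1 + α + ε) := by positivity
      linarith only [this]

/-- Same proof: the terms are at most `C c^(-(1 + α + ε)) (u v)^(-1 - ε)` and
`∑_{u, v ≥ 1} (u v)^(-1 - ε) = (∑ u^(-1 - ε))^2` converges (`Summable.mul_of_nonneg`). -/
theorem tsum_two {α ε : ℝ} (hε : 0 < ε) (hα : 0 ≤ α) :
    ∃ C : ℝ, 0 < C ∧ ∀ c : ℝ, 0 < c →
      Summable (fun q : ℕ × ℕ => if 0 < q.1 ∧ 0 < q.2 then
        ((q.1 : ℝ) * q.2) ^ α * Real.exp (-c * (q.1 * q.2)) else 0) ∧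
      ∑' q : ℕ × ℕ, (if 0 < q.1 ∧ 0 < q.2 then
        ((q.1 : ℝ) * q.2) ^ α * Real.exp (-c * (q.1 * q.2)) else 0) ≤ C * c ^ (-(1 + α + ε)) := by
  obtain ⟨C, hC, h⟩ := exp_neg_le_rpow (j := 1 + α + ε) (by positivity)
  have hs := OK01_sum hε
  have hz : (0 : ℕ → ℝ) ≤ fun u : ℕ => (u : ℝ) ^ (-1 - ε) := by
    intro u
    exact Real.rpow_nonneg (Nat.cast_nonneg u) _
  have hs2 : Summable (fun q : ℕ × ℕ => (q.1 : ℝ) ^ (-1 - ε) * (q.2 : ℝ) ^ (-1 - ε)) := by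
    have h0 := Summable.mul_of_nonneg hs hs hz hz
    exact h0
  have hs0 : 0 ≤ ∑' q : ℕ × ℕ, (q.1 : ℝ) ^ (-1 - ε) * (q.2 : ℝ) ^ (-1 - ε) := tsum_nonneg fun u => by positivity
  refine ⟨C * (∑' q : ℕ × ℕ, (q.1 : ℝ) ^ (-1 - ε) * (q.2 : ℝ) ^ (-1 - ε) + 1), by positivity, fun c hc => ?_⟩
  have hDp : 0 < c ^ (-(1 + α + ε)) := Real.rpow_pos_of_pos hc _
  have hb : ∀ q : ℕ × ℕ, (if 0 < q.1 ∧ 0 < q.2 then
        ((q.1 : ℝ) * q.2) ^ α * Real.exp (-c * (q.1 * q.2)) else 0) ≤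
      C * c ^ (-(1 + α + ε)) * ((q.1 : ℝ) ^ (-1 - ε) * (q.2 : ℝ) ^ (-1 - ε)) := by
    intro q
    split_ifs with hq
    · have hu' : (0 : ℝ) < q.1 := by exact_mod_cast hq.1
      have hv' : (0 : ℝ) < q.2 := by exact_mod_cast hq.2
      have huv : (0 : ℝ) < q.1 * q.2 := by positivity
      have h1 := h (c * (q.1 * q.2)) (by positivity)
      rw [neg_mul]
      calc ((q.1 : ℝ) * q.2) ^ α * Real.exp (-(c * (q.1 * q.2)))
          ≤ ((q.1 : ℝ) * q.2) ^ α * (C * (c * (q.1 * q.2)) ^ (-(1 + α + ε))) := by gcongr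
        _ = C * c ^ (-(1 + α + ε)) * ((q.1 : ℝ) ^ (-1 - ε) * (q.2 : ℝ) ^ (-1 - ε)) := by
          have e1 : (c * ((q.1 : ℝ) * q.2)) ^ (-(1 + α + ε)) = c ^ (-(1 + α + ε)) * ((q.1 : ℝ) * q.2) ^ (-(1 + α + ε)) :=
            Real.mul_rpow hc.le huv.le
          have e2 : (q.1 : ℝ) ^ (-1 - ε) * (q.2 : ℝ) ^ (-1 - ε) = ((q.1 : ℝ) * q.2) ^ α * ((q.1 : ℝ) * q.2) ^ (-(1 + α + ε)) := by
            rw [← Real.rpow_add huv, ← Real.mul_rpow hu'.le hv'.le]
            congr 1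
            ring
          rw [e1, e2]
          ring
    · positivity
  have h0 : ∀ q : ℕ × ℕ, 0 ≤ (if 0 < q.1 ∧ 0 < q.2 then
        ((q.1 : ℝ) * q.2) ^ α * Real.exp (-c * (q.1 * q.2)) else 0) := by
    intro q
    split_ifs
    · positivity
    · exact le_rfl
  have hsum : Summable (fun q : ℕ × ℕ => C * c ^ (-(1 + α + ε)) * ((q.1 : ℝ) ^ (-1 - ε) * (q.2 : ℝ) ^ (-1 - ε))) :=
    hs2.mul_left _
  have hS : Summable (fun q : ℕ × ℕ => if 0 < q.1 ∧ 0 < q.2 then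
        ((q.1 : ℝ) * q.2) ^ α * Real.exp (-c * (q.1 * q.2)) else 0) :=
    Summable.of_nonneg_of_le h0 hb hsum
  refine ⟨hS, ?_⟩
  calc ∑' q : ℕ × ℕ, (if 0 < q.1 ∧ 0 < q.2 then
        ((q.1 : ℝ) * q.2) ^ α * Real.exp (-c * (q.1 * q.2)) else 0)
      ≤ ∑' q : ℕ × ℕ, C * c ^ (-(1 + α + ε)) * ((q.1 : ℝ) ^ (-1 - ε) * (q.2 : ℝ) ^ (-1 - ε)) := hS.tsum_le_tsum hb hsum
    _ = C * c ^ (-(1 + α + ε)) * ∑' q : ℕ × ℕ, ((q.1 : ℝ) ^ (-1 - ε) * (q.2 : ℝ) ^ (-1 - ε)) := tsum_mul_left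
    _ ≤ C * (∑' q : ℕ × ℕ, (q.1 : ℝ) ^ (-1 - ε) * (q.2 : ℝ) ^ (-1 - ε) + 1) * c ^ (-(1 + α + ε)) := by
      have : 0 ≤ C * c ^ (-(1 + α + ε)) := by positivity
      linarith only [this]

end OOK

end

section

/-!
# Completion, with the zero frequency
-/

open Complex Finset
open scoped ComplexConjugate

namespace OOK

/-- The completion inequality: `inversion`, exchange of the finite sum over `(k, l)` and the series,
`stdAddChar (-(k s + l t)) = z^s w^t` with `z = stdAddChar (-k)`, `w = stdAddChar (-l)` (and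
`‖1 - stdAddChar (-k)‖ = nu k`), `partial_two` for `k, l ≠ 0`, and for `k = 0`, `l ≠ 0`
`partial_one` for each `s` (summed: `V1` bounds the sum over all `(s, t)`), symmetrically `l = 0`. -/
theorem completion3 {c : ℕ} [NeZero c] (K : ZMod c → ZMod c → ℂ)
    {Φ : ℕ → ℕ → ℂ} (hΦ : Summable (fun p : ℕ × ℕ => Φ p.1 p.2))
    (h0 : ∀ t, Φ 0 t = 0) (h0' : ∀ s, Φ s 0 = 0) {V V1 V2 : ℝ}
    (hV : ∀ F : Finset (ℕ × ℕ), ∑ p ∈ F, ‖Φ (p.1 + 1) (p.2 + 1) - Φ (p.1 + 1) p.2 -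
      Φ p.1 (p.2 + 1) + Φ p.1 p.2‖ ≤ V)
    (hV1 : ∀ F : Finset (ℕ × ℕ), ∑ p ∈ F, ‖Φ p.1 (p.2 + 1) - Φ p.1 p.2‖ ≤ V1)
    (hV2 : ∀ F : Finset (ℕ × ℕ), ∑ p ∈ F, ‖Φ (p.1 + 1) p.2 - Φ p.1 p.2‖ ≤ V2) :
    ‖∑' p : ℕ × ℕ, K (p.1 : ℕ) (p.2 : ℕ) * Φ p.1 p.2‖ ≤ ((c : ℝ) ^ 2)⁻¹ *
      (∑ k ∈ Finset.univ.erase (0 : ZMod c), ∑ l ∈ Finset.univ.erase (0 : ZMod c),
          ‖Khat K k l‖ * (V / (nu k * nu l)) +
        ∑ l ∈ Finset.univ.erase (0 : ZMod c), ‖Khat K 0 l‖ * (V1 / nu l) +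
        ∑ k ∈ Finset.univ.erase (0 : ZMod c), ‖Khat K k 0‖ * (V2 / nu k)) +
      ((c : ℝ) ^ 2)⁻¹ * (‖Khat K 0 0‖ * ‖∑' p : ℕ × ℕ, Φ p.1 p.2‖) := by
  set S : ZMod c → ZMod c → ℂ := fun k l => ∑' p : ℕ × ℕ, Φ p.1 p.2 *
    ((ZMod.stdAddChar (-k) : ℂ) ^ p.1 * (ZMod.stdAddChar (-l) : ℂ) ^ p.2) with hS
  have hsum : ∀ k l : ZMod c, Summable (fun p : ℕ × ℕ => Khat K k l * (Φ p.1 p.2 *
      ((ZMod.stdAddChar (-k) : ℂ) ^ p.1 * (ZMod.stdAddChar (-l) : ℂ) ^ p.2))) := fun k l =>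
    (OK09_summable hΦ (OK09_norm_char _) (OK09_norm_char _)).mul_left _
  have hterm : ∀ p : ℕ × ℕ, K (p.1 : ℕ) (p.2 : ℕ) * Φ p.1 p.2 = ((c : ℂ) ^ 2)⁻¹ *
      ∑ k : ZMod c, ∑ l : ZMod c, Khat K k l * (Φ p.1 p.2 *
      ((ZMod.stdAddChar (-k) : ℂ) ^ p.1 * (ZMod.stdAddChar (-l) : ℂ) ^ p.2)) := by
    intro p
    rw [inversion K (p.1 : ℕ) (p.2 : ℕ), mul_assoc, Finset.sum_mul]
    congr 1
    refine Finset.sum_congr rfl fun k _ => ?_
    rw [Finset.sum_mul]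
    refine Finset.sum_congr rfl fun l _ => ?_
    have e : (ZMod.stdAddChar (-(k * ((p.1 : ℕ) : ZMod c) + l * ((p.2 : ℕ) : ZMod c))) : ℂ) =
        (ZMod.stdAddChar (-k) : ℂ) ^ p.1 * (ZMod.stdAddChar (-l) : ℂ) ^ p.2 := by
      rw [← AddChar.map_nsmul_eq_pow, ← AddChar.map_nsmul_eq_pow, ← AddChar.map_add_eq_mul]
      congr 1
      rw [nsmul_eq_mul, nsmul_eq_mul]
      ring
    rw [e]
    ring
  have hmain : ∑' p : ℕ × ℕ, K (p.1 : ℕ) (p.2 : ℕ) * Φ p.1 p.2 = ((c : ℂ) ^ 2)⁻¹ *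
      ∑ k : ZMod c, ∑ l : ZMod c, Khat K k l * S k l := by
    rw [tsum_congr hterm, tsum_mul_left]
    congr 1
    rw [Summable.tsum_finsetSum fun k _ => summable_sum fun l _ => hsum k l]
    refine Finset.sum_congr rfl fun k _ => ?_
    rw [Summable.tsum_finsetSum fun l _ => hsum k l]
    refine Finset.sum_congr rfl fun l _ => ?_
    rw [tsum_mul_left]
  have hb : ∀ k l : ZMod c, k ≠ 0 → l ≠ 0 → ‖S k l‖ ≤ V / (nu k * nu l) := by
    intro k l hk hl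
    have := partial_two hΦ h0 h0' (OK09_norm_char (-k)) (OK09_char_ne_one hk)
      (OK09_norm_char (-l)) (OK09_char_ne_one hl) hV
    rwa [OK09_nu_neg, OK09_nu_neg] at this
  have hb1 : ∀ l : ZMod c, l ≠ 0 → ‖S 0 l‖ ≤ V1 / nu l := by
    intro l hl
    have := OK09_diff2 hΦ h0' (OK09_norm_char (-(0 : ZMod c)))
      (OK09_norm_char (-l)) (OK09_char_ne_one hl) hV1
    rwa [OK09_nu_neg] at this
  have hb2 : ∀ k : ZMod c, k ≠ 0 → ‖S k 0‖ ≤ V2 / nu k := by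
    intro k hk
    have := OK09_diff1 hΦ h0 (OK09_norm_char (-k)) (OK09_char_ne_one hk)
      (OK09_norm_char (-(0 : ZMod c))) hV2
    rwa [OK09_nu_neg] at this
  have hS0 : S 0 0 = ∑' p : ℕ × ℕ, Φ p.1 p.2 := by
    simp only [hS]
    refine tsum_congr fun p => ?_
    simp
  rw [hmain, norm_mul, norm_inv, norm_pow, Complex.norm_natCast, ← mul_add]
  refine mul_le_mul_of_nonneg_left ?_ (by positivity)
  have hsplit : ∑ k : ZMod c, ∑ l : ZMod c, Khat K k l * S k l =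
      ∑ k ∈ Finset.univ.erase (0 : ZMod c), ∑ l ∈ Finset.univ.erase (0 : ZMod c), Khat K k l * S k l +
        ∑ l ∈ Finset.univ.erase (0 : ZMod c), Khat K 0 l * S 0 l +
        ∑ k ∈ Finset.univ.erase (0 : ZMod c), Khat K k 0 * S k 0 + Khat K 0 0 * S 0 0 := by
    rw [← Finset.add_sum_erase Finset.univ (fun k => ∑ l : ZMod c, Khat K k l * S k l)
      (Finset.mem_univ (0 : ZMod c))]
    have h1 : ∀ k : ZMod c, ∑ l : ZMod c, Khat K k l * S k l = Khat K k 0 * S k 0 +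
        ∑ l ∈ Finset.univ.erase (0 : ZMod c), Khat K k l * S k l := fun k =>
      (Finset.add_sum_erase Finset.univ (fun l => Khat K k l * S k l)
        (Finset.mem_univ (0 : ZMod c))).symm
    rw [Finset.sum_congr rfl fun k _ => h1 k, Finset.sum_add_distrib, h1 0]
    ring
  rw [hsplit]
  refine (norm_add_le _ _).trans (add_le_add ?_ (by rw [norm_mul, hS0]))
  refine (norm_add₃_le).trans (add_le_add (add_le_add ?_ ?_) ?_)
  · refine (norm_sum_le _ _).trans (Finset.sum_le_sum fun k hk => ?_)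
    refine (norm_sum_le _ _).trans (Finset.sum_le_sum fun l hl => ?_)
    rw [norm_mul]
    exact mul_le_mul_of_nonneg_left (hb k l (Finset.ne_of_mem_erase hk) (Finset.ne_of_mem_erase hl))
      (norm_nonneg _)
  · refine (norm_sum_le _ _).trans (Finset.sum_le_sum fun l hl => ?_)
    rw [norm_mul]
    exact mul_le_mul_of_nonneg_left (hb1 l (Finset.ne_of_mem_erase hl)) (norm_nonneg _)
  · refine (norm_sum_le _ _).trans (Finset.sum_le_sum fun k hk => ?_)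
    rw [norm_mul]
    exact mul_le_mul_of_nonneg_left (hb2 k (Finset.ne_of_mem_erase hk)) (norm_nonneg _)

end OOK

end

section

/-!
# The zero frequency
-/

open Complex Finset
open scoped ComplexConjugate

namespace OOK

variable {q1 q2 : ℕ}

theorem OK13_modEq {A Q m m' : ℕ} (hA : 0 < A) (h : m ≡ m' [MOD A * Q]) :
    (A ∣ m ↔ A ∣ m') ∧ (A ∣ m → m / A ≡ m' / A [MOD Q]) := by
  have h1 : m ≡ m' [MOD A] := Nat.ModEq.of_mul_right Q h
  have h2 : A ∣ m ↔ A ∣ m' := (Nat.ModEq.dvd_iff h1 dvd_rfl)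
  refine ⟨h2, fun hm => ?_⟩
  obtain ⟨k, rfl⟩ := hm
  obtain ⟨k', rfl⟩ := h2.1 (dvd_mul_right A k)
  rw [Nat.mul_div_cancel_left _ hA, Nat.mul_div_cancel_left _ hA]
  exact Nat.ModEq.mul_left_cancel' hA.ne' h

/-- `K(x g, y g⁻¹) = conj χ₁(g) · conj χ₂(g⁻¹) K(x, y) = conj χ₁(g) χ₂(g) K(x, y)` for a unit `g` of
`ZMod c`, `c = A q1 q2` (the value `b x y + r` modulo `c` does not change; use the description of
`KK` modulo `c`, e.g. `KK_natCast` for representatives), and `conj χ₁(g) χ₂(g) ≠ 1`. The given `g`,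
prime to `q1 q2`, is congruent modulo `q1 q2` to a number prime to `c`
(`ZMod.unitsMap_surjective`). -/
theorem Khat_zero (χ1 : DirichletCharacter ℂ q1) (χ2 : DirichletCharacter ℂ q2) {b r A c : ℕ}
    [NeZero c] (hA : 0 < A) (hq1 : 0 < q1) (hq2 : 0 < q2) (hc : A * (q1 * q2) = c)
    (hg : ∃ g : ℕ, g.Coprime (q1 * q2) ∧ χ1 g ≠ χ2 g) :
    Khat (KK χ1 χ2 b r A c) 0 0 = 0 := by
  classical
  obtain ⟨g, hgc, hgne⟩ := hg
  have hQc : q1 * q2 ∣ c := ⟨A, by rw [← hc]; ring⟩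
  have : NeZero (q1 * q2) := ⟨(Nat.mul_pos hq1 hq2).ne'⟩
  obtain ⟨G, hG⟩ := ZMod.unitsMap_surjective hQc (ZMod.unitOfCoprime g hgc)
  set a : ℕ := (G : ZMod c).val with ha
  set a' : ℕ := ((G⁻¹ : (ZMod c)ˣ) : ZMod c).val with ha'
  have hcast_a : ((a : ℕ) : ZMod c) = (G : ZMod c) := ZMod.natCast_zmod_val _
  have hcast_a' : ((a' : ℕ) : ZMod c) = ((G⁻¹ : (ZMod c)ˣ) : ZMod c) := ZMod.natCast_zmod_val _
  have haa : a * a' ≡ 1 [MOD c] := by
    rw [← ZMod.natCast_eq_natCast_iff]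
    push_cast
    rw [hcast_a, hcast_a']
    exact G.mul_inv
  have hag : a ≡ g [MOD q1 * q2] := by
    rw [← ZMod.natCast_eq_natCast_iff]
    have h1 : ((ZMod.unitsMap hQc G : (ZMod (q1 * q2))ˣ) : ZMod (q1 * q2)) = (g : ZMod (q1 * q2)) := by
      rw [hG]; rfl
    rw [← h1, ZMod.unitsMap_val, ← hcast_a, ZMod.cast_natCast hQc]
  have hag1 : ((a : ℕ) : ZMod q1) = (g : ZMod q1) :=
    (ZMod.natCast_eq_natCast_iff _ _ _).2 (hag.of_mul_right q2)
  have hag2 : ((a : ℕ) : ZMod q2) = (g : ZMod q2) :=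
    (ZMod.natCast_eq_natCast_iff _ _ _).2 (hag.of_mul_left q1)
  have haa2 : ((a : ℕ) : ZMod q2) * ((a' : ℕ) : ZMod q2) = 1 := by
    have h1 : a * a' ≡ 1 [MOD q2] := haa.of_dvd ((dvd_mul_left q2 q1).trans hQc)
    have h2 := (ZMod.natCast_eq_natCast_iff _ _ _).2 h1
    simpa using h2
  set w : ℂ := conj (χ1 (a : ℕ)) * conj (χ2 (a' : ℕ)) with hw
  have hw1 : w ≠ 1 := by
    intro h
    apply hgne
    have h1 : χ1 (a : ℕ) * χ2 (a' : ℕ) = 1 := by
      have h2 := congrArg conj h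
      simpa [hw] using h2
    have h3 : χ2 (a : ℕ) * χ2 (a' : ℕ) = 1 := by
      rw [← map_mul, haa2, map_one]
    have h4 : χ2 ((a' : ℕ) : ZMod q2) ≠ 0 := right_ne_zero_of_mul_eq_one h3
    rw [← hag1, ← hag2]
    exact mul_right_cancel₀ h4 (h1.trans h3.symm)
  have hK : ∀ x y : ZMod c, KK χ1 χ2 b r A c (x * G) (y * ((G⁻¹ : (ZMod c)ˣ) : ZMod c)) =
      w * KK χ1 χ2 b r A c x y := by
    intro x y
    have hx : x * G = ((x.val * a : ℕ) : ZMod c) := by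
      push_cast
      rw [hcast_a, ZMod.natCast_zmod_val]
    have hy : y * ((G⁻¹ : (ZMod c)ˣ) : ZMod c) = ((y.val * a' : ℕ) : ZMod c) := by
      push_cast
      rw [hcast_a', ZMod.natCast_zmod_val]
    rw [hx, hy, KK_natCast χ1 χ2 hA hq1 hq2 hc]
    have hmod : b * (x.val * a * (y.val * a')) + r ≡ b * (x.val * y.val) + r [MOD A * (q1 * q2)] := by
      rw [hc]
      refine Nat.ModEq.add_right r (Nat.ModEq.mul_left b ?_)
      have h1 : x.val * a * (y.val * a') = x.val * y.val * (a * a') := by ring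
      rw [h1]
      simpa using haa.mul_left (x.val * y.val)
    obtain ⟨hd, hq⟩ := OK13_modEq hA hmod
    unfold KK
    by_cases h : A ∣ b * (x.val * a * (y.val * a')) + r
    · rw [if_pos h, if_pos (hd.1 h)]
      have h2 : (((b * (x.val * a * (y.val * a')) + r) / A : ℕ) : ZMod q2) =
          (((b * (x.val * y.val) + r) / A : ℕ) : ZMod q2) :=
        (ZMod.natCast_eq_natCast_iff _ _ _).2 ((hq h).of_mul_left q1)
      rw [h2, hw]
      push_cast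
      rw [map_mul χ1, map_mul χ2, map_mul, map_mul]
      ring
    · rw [if_neg h, if_neg (fun h' => h (hd.2 h')), mul_zero]
  have hsum : ∑ x : ZMod c, ∑ y : ZMod c, KK χ1 χ2 b r A c x y =
      w * ∑ x : ZMod c, ∑ y : ZMod c, KK χ1 χ2 b r A c x y := by
    have e1 : ∑ x : ZMod c, ∑ y : ZMod c, KK χ1 χ2 b r A c x y =
        ∑ x : ZMod c, ∑ y : ZMod c, KK χ1 χ2 b r A c (x * G) (y * ((G⁻¹ : (ZMod c)ˣ) : ZMod c)) := by
      rw [← Equiv.sum_comp (Units.mulRight G) (fun x => ∑ y : ZMod c, KK χ1 χ2 b r A c x y)]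
      refine Finset.sum_congr rfl fun x _ => ?_
      rw [← Equiv.sum_comp (Units.mulRight G⁻¹) (fun y => KK χ1 χ2 b r A c (Units.mulRight G x) y)]
      rfl
    refine e1.trans ?_
    rw [Finset.mul_sum]
    refine Finset.sum_congr rfl fun x _ => ?_
    rw [Finset.mul_sum]
    exact Finset.sum_congr rfl fun y _ => hK x y
  have h0 : ∑ x : ZMod c, ∑ y : ZMod c, KK χ1 χ2 b r A c x y = 0 := by
    have h1 : (1 - w) * ∑ x : ZMod c, ∑ y : ZMod c, KK χ1 χ2 b r A c x y = 0 := by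
      rw [sub_mul, one_mul, sub_eq_zero]
      exact hsum
    rcases mul_eq_zero.1 h1 with h2 | h2
    · exact absurd (sub_eq_zero.1 h2).symm hw1
    · exact h2
  unfold Khat
  simpa using h0

end OOK

end

section

/-!
# The pairs (u, v) with a large square dividing u
-/

open Complex Finset
open scoped ComplexConjugate

namespace OOK

variable {q1 q2 : ℕ}

/-- the terms over the triples `(d, (e, v))`, `u = d ^ 2 e` -/
noncomputable def OK02_G (α c Z : ℝ) (p : ℕ × (ℕ × ℕ)) : ℝ :=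
  if Z < p.1 then (if 0 < p.2.1 ∧ 0 < p.2.2 then
    ((p.1 : ℝ) ^ 2 * ((p.2.1 : ℝ) * p.2.2)) ^ α * Real.exp (-c * ((p.1 : ℝ) ^ 2 * ((p.2.1 : ℝ) * p.2.2))) else 0) else 0

theorem OK02_G_nonneg (α c Z : ℝ) (p : ℕ × (ℕ × ℕ)) : 0 ≤ OK02_G α c Z p := by
  unfold OK02_G
  split_ifs
  · positivity
  · exact le_refl 0
  · exact le_refl 0

theorem OK02_inj : Function.Injective (fun q : ℕ × ℕ => ((sqd q.1, (sqe q.1, q.2)) : ℕ × (ℕ × ℕ))) := by
  intro q q' h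
  simp only [Prod.mk.injEq] at h
  obtain ⟨h1, h2, h3⟩ := h
  have e1 := (sqd_spec q.1).1
  have e2 := (sqd_spec q'.1).1
  rw [h1, h2, e2] at e1
  exact Prod.ext e1.symm h3

theorem OK02_sum_sq {Z : ℝ} (hZ : 1 ≤ Z) :
    Summable (fun d : ℕ => if Z < d then ((d : ℝ) ^ 2)⁻¹ else 0) ∧
      ∑' d : ℕ, (if Z < d then ((d : ℝ) ^ 2)⁻¹ else 0) ≤ 2 / Z := by
  have hnn : ∀ d : ℕ, 0 ≤ (if Z < d then ((d : ℝ) ^ 2)⁻¹ else 0) := by
    intro d
    split_ifs
    · positivity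
    · exact le_refl 0
  constructor
  · refine Summable.of_nonneg_of_le hnn ?_ (Real.summable_nat_pow_inv.mpr (by norm_num : 1 < 2))
    intro d
    split_ifs
    · exact le_refl _
    · positivity
  · refine Real.tsum_le_of_sum_range_le hnn ?_
    intro n
    have h1 : ∑ i ∈ range n, (if Z < i then ((i : ℝ) ^ 2)⁻¹ else 0) =
        ∑ i ∈ Ioo ⌊Z⌋₊ n, ((i : ℝ) ^ 2)⁻¹ := by
      rw [← Finset.sum_filter]
      congr 1
      ext i
      simp only [mem_filter, mem_range, mem_Ioo]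
      rw [Nat.floor_lt (by linarith only [hZ] : (0 : ℝ) ≤ Z)]
      tauto
    rw [h1]
    refine (sum_Ioo_inv_sq_le ⌊Z⌋₊ n).trans ?_
    have h2 : Z < (⌊Z⌋₊ : ℝ) + 1 := Nat.lt_floor_add_one Z
    exact div_le_div_of_nonneg_left (by norm_num) (by linarith only [hZ]) h2.le

/-- If `sqd u > Z` then `d ^ 2 ∣ u` for some `d > Z` (`d = sqd u`, `sqd_spec`), so the sum is at most
`∑_{d > Z} ∑_{u', v ≥ 1} (d^2 u' v)^α exp(-c d^2 u' v) ≤ ∑_{d > Z} d^(2 α) C (c d^2)^(-(1 + α + ε))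
≤ C c^(-(1 + α + ε)) ∑_{d > Z} d^(-2) ≤ 2 C c^(-(1 + α + ε)) / Z` (`tsum_two` with `c d^2`). To avoid
a triple series bound the partial sums over finite sets `F` of pairs: each `q ∈ F` has one `d`. -/
theorem tsum_sq {α ε : ℝ} (hε : 0 < ε) (hα : 0 ≤ α) :
    ∃ C : ℝ, 0 < C ∧ ∀ c Z : ℝ, 0 < c → 1 ≤ Z →
      Summable (fun q : ℕ × ℕ => if 0 < q.1 ∧ 0 < q.2 ∧ Z < sqd q.1 then
        ((q.1 : ℝ) * q.2) ^ α * Real.exp (-c * (q.1 * q.2)) else 0) ∧
      ∑' q : ℕ × ℕ, (if 0 < q.1 ∧ 0 < q.2 ∧ Z < sqd q.1 then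
        ((q.1 : ℝ) * q.2) ^ α * Real.exp (-c * (q.1 * q.2)) else 0) ≤
          C * c ^ (-(1 + α + ε)) / Z := by
  obtain ⟨C, hC, h2⟩ := tsum_two hε hα
  refine ⟨2 * C, by positivity, ?_⟩
  intro c Z hc hZ
  obtain ⟨hS, hSle⟩ := OK02_sum_sq hZ
  -- the inner sums
  have hin : ∀ d : ℕ, Summable (fun x : ℕ × ℕ => OK02_G α c Z (d, x)) ∧
      ∑' x : ℕ × ℕ, OK02_G α c Z (d, x) ≤
        (C * c ^ (-(1 + α + ε))) * (if Z < d then ((d : ℝ) ^ 2)⁻¹ else 0) := by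
    intro d
    by_cases hd : Z < d
    · have hd1 : (1 : ℝ) < d := lt_of_le_of_lt hZ hd
      have hd0 : (0 : ℝ) < d := by linarith only [hd1]
      have hd2 : (0 : ℝ) < (d : ℝ) ^ 2 := by positivity
      obtain ⟨hs, hle⟩ := h2 (c * (d : ℝ) ^ 2) (by positivity)
      have hfun : (fun x : ℕ × ℕ => OK02_G α c Z (d, x)) = fun x : ℕ × ℕ => ((d : ℝ) ^ 2) ^ α *
          (if 0 < x.1 ∧ 0 < x.2 then ((x.1 : ℝ) * x.2) ^ α * Real.exp (-(c * (d : ℝ) ^ 2) * (x.1 * x.2)) else 0) := by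
        funext x
        unfold OK02_G
        rw [if_pos hd]
        split_ifs
        · rw [Real.mul_rpow hd2.le (by positivity)]
          rw [show -c * ((d : ℝ) ^ 2 * ((x.1 : ℝ) * x.2)) = -(c * (d : ℝ) ^ 2) * (x.1 * x.2) by ring]
          ring
        · rw [mul_zero]
      rw [hfun, if_pos hd]
      refine ⟨hs.mul_left _, ?_⟩
      rw [tsum_mul_left]
      refine (mul_le_mul_of_nonneg_left hle (by positivity)).trans ?_
      rw [Real.mul_rpow hc.le hd2.le]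
      have e1 : ((d : ℝ) ^ 2) ^ α * (C * (c ^ (-(1 + α + ε)) * ((d : ℝ) ^ 2) ^ (-(1 + α + ε)))) =
          (C * c ^ (-(1 + α + ε))) * (((d : ℝ) ^ 2) ^ α * ((d : ℝ) ^ 2) ^ (-(1 + α + ε))) := by ring
      rw [e1, ← Real.rpow_add hd2]
      apply mul_le_mul_of_nonneg_left _ (by positivity)
      rw [← Real.rpow_neg_one ((d : ℝ) ^ 2)]
      apply Real.rpow_le_rpow_of_exponent_le
      · nlinarith only [hd1]
      · linarith only [hε]
    · have hfun : (fun x : ℕ × ℕ => OK02_G α c Z (d, x)) = fun _ => 0 := by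
        funext x
        unfold OK02_G
        rw [if_neg hd]
      rw [hfun, if_neg hd]
      refine ⟨summable_zero, ?_⟩
      rw [tsum_zero, mul_zero]
  have hGs : Summable (OK02_G α c Z) := by
    rw [summable_prod_of_nonneg (fun p => OK02_G_nonneg α c Z p)]
    refine ⟨fun d => (hin d).1, ?_⟩
    refine Summable.of_nonneg_of_le (fun d => tsum_nonneg fun x => OK02_G_nonneg α c Z (d, x)) (fun d => (hin d).2) ?_
    exact hS.mul_left _
  have hGle : ∑' p, OK02_G α c Z p ≤ 2 * C * c ^ (-(1 + α + ε)) / Z := by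
    rw [hGs.tsum_prod' (fun d => (hin d).1)]
    calc ∑' d : ℕ, ∑' x : ℕ × ℕ, OK02_G α c Z (d, x) ≤
        ∑' d : ℕ, (C * c ^ (-(1 + α + ε))) * (if Z < d then ((d : ℝ) ^ 2)⁻¹ else 0) := by
          refine Summable.tsum_le_tsum (fun d => (hin d).2) ?_ (hS.mul_left _)
          exact Summable.of_nonneg_of_le (fun d => tsum_nonneg fun x => OK02_G_nonneg α c Z (d, x))
            (fun d => (hin d).2) (hS.mul_left _)
      _ = (C * c ^ (-(1 + α + ε))) * ∑' d : ℕ, (if Z < d then ((d : ℝ) ^ 2)⁻¹ else 0) := by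
          rw [tsum_mul_left]
      _ ≤ (C * c ^ (-(1 + α + ε))) * (2 / Z) := mul_le_mul_of_nonneg_left hSle (by positivity)
      _ = 2 * C * c ^ (-(1 + α + ε)) / Z := by ring
  have hle : ∀ q : ℕ × ℕ, (if 0 < q.1 ∧ 0 < q.2 ∧ Z < sqd q.1 then
        ((q.1 : ℝ) * q.2) ^ α * Real.exp (-c * (q.1 * q.2)) else 0) ≤
        OK02_G α c Z (sqd q.1, (sqe q.1, q.2)) := by
    intro q
    split_ifs with h
    · obtain ⟨hu, hv, hZd⟩ := h
      have he : 0 < sqe q.1 := Nat.pos_of_ne_zero (sqd_spec q.1).2.ne_zero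
      have hu' : (q.1 : ℝ) = (sqd q.1 : ℝ) ^ 2 * (sqe q.1 : ℝ) := by
        have := (sqd_spec q.1).1
        conv_lhs => rw [← this]
        push_cast
        ring
      unfold OK02_G
      rw [if_pos hZd, if_pos ⟨he, hv⟩]
      apply le_of_eq
      have e2 : (q.1 : ℝ) * q.2 = (sqd q.1 : ℝ) ^ 2 * ((sqe q.1 : ℝ) * q.2) := by
        rw [← mul_assoc, ← hu']
      simp only
      rw [e2]
    · exact OK02_G_nonneg _ _ _ _
  have hnn : ∀ q : ℕ × ℕ, 0 ≤ (if 0 < q.1 ∧ 0 < q.2 ∧ Z < sqd q.1 then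
        ((q.1 : ℝ) * q.2) ^ α * Real.exp (-c * (q.1 * q.2)) else 0) := by
    intro q
    split_ifs
    · positivity
    · exact le_refl 0
  have hfs : Summable (fun q : ℕ × ℕ => if 0 < q.1 ∧ 0 < q.2 ∧ Z < sqd q.1 then
        ((q.1 : ℝ) * q.2) ^ α * Real.exp (-c * (q.1 * q.2)) else 0) :=
    Summable.of_nonneg_of_le hnn hle (hGs.comp_injective OK02_inj)
  refine ⟨hfs, le_trans ?_ hGle⟩
  exact Summable.tsum_le_tsum_of_inj _ OK02_inj (fun p _ => OK02_G_nonneg α c Z p) hle hfs hGs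

end OOK

end

section

/-!
# The cut-off of the interface
-/

open Complex Finset MeasureTheory
open scoped ComplexConjugate

namespace OOK

/-- `f̃ = f` on `(1, ∞)` and `0` on `(-∞, 1]`: it vanishes on `x ≤ Y` (`2 ≤ Y`, `f = 0` on `[1, Y]`),
near a point `0 < x < Y` it is `0`, near a point `x > 1` it is `f`; so it is twice differentiable on
`(0, ∞)` with the same bounds (`B' = max B 1`; `f1 = deriv f̃`, `f2 = deriv (deriv f̃)`). -/
theorem cut_of3 {f : ℝ → ℝ} {B Y : ℝ} (hB : 0 < B) (hY : 2 ≤ Y) (h0 : ∀ x : ℝ, 1 ≤ x → x ≤ Y → f x = 0)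
    (hb : ∀ x : ℝ, 1 ≤ x → |f x| ≤ B) (hc : ContDiffOn ℝ 2 f (Set.Ioi 0))
    (hb1 : ∀ x : ℝ, 1 ≤ x → |deriv f x| ≤ B / x)
    (hb2 : ∀ x : ℝ, 1 ≤ x → |deriv (deriv f) x| ≤ B / x ^ 2) :
    ∃ g : ℝ → ℝ, Cut g (deriv g) (deriv (deriv g)) (max B 1) Y ∧ (∀ x, 1 < x → g x = f x) ∧
      (∀ x, 1 < x → deriv g x = deriv f x) ∧ ∀ n : ℕ, 0 < n → g n = f n := by
  classical
  set g : ℝ → ℝ := fun x => if 1 < x then f x else 0 with hg
  have gz : ∀ x ≤ Y, g x = 0 := by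
    intro x hx
    by_cases h : 1 < x
    · simp only [hg, if_pos h]
      exact h0 x h.le hx
    · simp only [hg, if_neg h]
  -- near `x < Y`, `g` is `0`
  have e0 : ∀ x < Y, g =ᶠ[nhds x] fun _ => (0 : ℝ) := by
    intro x hx
    filter_upwards [Iio_mem_nhds hx] with y hy
    exact gz y (le_of_lt hy)
  -- near `x > 1`, `g` is `f`
  have e1 : ∀ x, 1 < x → g =ᶠ[nhds x] f := by
    intro x hx
    filter_upwards [Ioi_mem_nhds hx] with y hy
    simp only [hg, if_pos (Set.mem_Ioi.1 hy)]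
  have dg0 : ∀ x < Y, deriv g x = 0 := by
    intro x hx
    rw [(e0 x hx).deriv_eq, deriv_const]
  have dg1 : ∀ x, 1 < x → deriv g x = deriv f x := fun x hx => (e1 x hx).deriv_eq
  have e0' : ∀ x < Y, deriv g =ᶠ[nhds x] fun _ => (0 : ℝ) := by
    intro x hx
    filter_upwards [Iio_mem_nhds hx] with y hy
    exact dg0 y hy
  have e1' : ∀ x, 1 < x → deriv g =ᶠ[nhds x] deriv f := by
    intro x hx
    filter_upwards [Ioi_mem_nhds hx] with y hy
    exact dg1 y hy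
  have ddg0 : ∀ x < Y, deriv (deriv g) x = 0 := by
    intro x hx
    rw [(e0' x hx).deriv_eq, deriv_const]
  have ddg1 : ∀ x, 1 < x → deriv (deriv g) x = deriv (deriv f) x := fun x hx => (e1' x hx).deriv_eq
  -- differentiability of `f`, `deriv f`
  have hcd : ∀ x, 0 < x → DifferentiableAt ℝ f x := by
    intro x hx
    exact ((hc.differentiableOn (by norm_num)) x hx).differentiableAt (Ioi_mem_nhds hx)
  have hcd2 : ∀ x, 0 < x → DifferentiableAt ℝ (deriv f) x := by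
    intro x hx
    have h1 : ContDiffOn ℝ 1 (deriv f) (Set.Ioi 0) := by
      refine ((contDiffOn_succ_iff_deriv_of_isOpen (n := 1) isOpen_Ioi).1 ?_).2.2
      exact hc
    exact ((h1.differentiableOn (by norm_num)) x hx).differentiableAt (Ioi_mem_nhds hx)
  have hB' : B ≤ max B 1 := le_max_left _ _
  have hB1 : (1 : ℝ) ≤ max B 1 := le_max_right _ _
  refine ⟨g, ⟨hB1, hY, gz, ?_, ?_, ?_, ?_, ?_⟩, (fun x hx => (e1 x hx).eq_of_nhds), dg1, ?_⟩
  · intro x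
    by_cases h : 1 < x
    · simp only [hg, if_pos h]
      exact (hb x h.le).trans hB'
    · simp only [hg, if_neg h, abs_zero]
      linarith only [hB1]
  · intro x hx
    by_cases h : 1 < x
    · have := (hcd x hx).hasDerivAt
      rw [dg1 x h]
      exact this.congr_of_eventuallyEq (e1 x h)
    · have hxY : x < Y := by linarith [not_lt.1 h]
      rw [dg0 x hxY]
      exact (hasDerivAt_const x (0 : ℝ)).congr_of_eventuallyEq (e0 x hxY)
  · intro x hx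
    by_cases h : 1 < x
    · have := (hcd2 x hx).hasDerivAt
      rw [ddg1 x h]
      exact this.congr_of_eventuallyEq (e1' x h)
    · have hxY : x < Y := by linarith [not_lt.1 h]
      rw [ddg0 x hxY]
      exact (hasDerivAt_const x (0 : ℝ)).congr_of_eventuallyEq (e0' x hxY)
  · intro x hx
    by_cases h : 1 < x
    · rw [dg1 x h]
      exact (hb1 x h.le).trans (div_le_div_of_nonneg_right hB' hx.le)
    · have hxY : x < Y := by linarith [not_lt.1 h]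
      rw [dg0 x hxY, abs_zero]
      positivity
  · intro x hx
    by_cases h : 1 < x
    · rw [ddg1 x h]
      exact (hb2 x h.le).trans (div_le_div_of_nonneg_right hB' (by positivity))
    · have hxY : x < Y := by linarith [not_lt.1 h]
      rw [ddg0 x hxY, abs_zero]
      positivity
  · intro n hn
    by_cases h : 1 < (n : ℝ)
    · simp only [hg, if_pos h]
    · have hn1 : n = 1 := by
        have : n ≤ 1 := by exact_mod_cast not_lt.1 h
        omega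
      subst hn1
      simp only [hg, if_neg h]
      exact (h0 _ (by norm_num) (by push_cast; linarith only [hY])).symm

end OOK

end
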