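import Pool.Agent.Lib.MP_0f5a55_nt.OM.K000

section

section

open Polynomial Finset

namespace KlWeil

/-- The key congruence, in a ring where `e` is nilpotent of small order. -/
lemma step_id {A : Type*} [CommRing A] (p : ℕ) [Fact p.Prime] [CharP A p]
    (a b x y e : A) (ha : a ^ p = a) (hb : b ^ p = b) (hxy : x * y = 1)
    (k m : ℕ) (hm : 1 ≤ m) (hmk : m + 1 ≤ k) (he : e ^ (p ^ m) = 0) :
    (∑ i ∈ range k, (a * (x + e) ^ (p ^ (k - 1) + p ^ i) + b * (x + e) ^ (p ^ (k - 1) - p ^ i)))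
        * (x * (x + e)) ^ (p ^ (m - 1))
      = x ^ (p ^ (k - 1)) * ((∑ i ∈ range k, (a * x ^ (p ^ i) + b * y ^ (p ^ i)))
            * (x * (x + e)) ^ (p ^ (m - 1))
          + ∑ i ∈ range m, e ^ (p ^ i) * (a * (x * (x + e)) - b) ^ (p ^ i)
              * (x * (x + e)) ^ (p ^ (m - 1) - p ^ i)) := by
  have hp : 1 < p := (Fact.out : p.Prime).one_lt
  have hp0 : 0 < p := by omega
  have hai : ∀ i : ℕ, a ^ (p ^ i) = a := by
    intro i
    induction i with
    | zero => simp
    | succ i ih => rw [pow_succ, pow_mul, ih, ha]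
  have hbi : ∀ i : ℕ, b ^ (p ^ i) = b := by
    intro i
    induction i with
    | zero => simp
    | succ i ih => rw [pow_succ, pow_mul, ih, hb]
  have he' : ∀ i, m ≤ i → e ^ (p ^ i) = 0 := by
    intro i hi
    obtain ⟨j, rfl⟩ := Nat.exists_eq_add_of_le hi
    rw [pow_add, pow_mul, he, zero_pow (by positivity)]
  have hadd : ∀ i, (x + e) ^ (p ^ i) = x ^ (p ^ i) + e ^ (p ^ i) := fun i => add_pow_char_pow _ _ _ _
  have hD : (x + e) ^ (p ^ (k - 1)) = x ^ (p ^ (k - 1)) := by
    rw [hadd, he' _ (by omega), add_zero]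
  have hsplit : (∑ i ∈ range k, (a * x ^ (p ^ i) + b * y ^ (p ^ i))) * (x * (x + e)) ^ (p ^ (m - 1))
          + ∑ i ∈ range m, e ^ (p ^ i) * (a * (x * (x + e)) - b) ^ (p ^ i)
              * (x * (x + e)) ^ (p ^ (m - 1) - p ^ i)
      = ∑ i ∈ range k, ((a * x ^ (p ^ i) + b * y ^ (p ^ i)) * (x * (x + e)) ^ (p ^ (m - 1))
          + if i < m then e ^ (p ^ i) * (a * (x * (x + e)) - b) ^ (p ^ i)
              * (x * (x + e)) ^ (p ^ (m - 1) - p ^ i) else 0) := by
    rw [Finset.sum_mul, Finset.sum_add_distrib]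
    congr 1
    rw [← Finset.sum_filter]
    apply Finset.sum_congr _ (fun _ _ => rfl)
    ext i
    simp only [mem_range, mem_filter]
    omega
  rw [hsplit, Finset.sum_mul, Finset.mul_sum]
  apply Finset.sum_congr rfl
  intro i hi
  rw [mem_range] at hi
  have hiD : p ^ i ≤ p ^ (k - 1) := Nat.pow_le_pow_right hp0 (by omega)
  have hXY : x ^ (p ^ i) * y ^ (p ^ i) = 1 := by rw [← mul_pow, hxy, one_pow]
  have hm1 : (x + e) ^ (p ^ (k - 1) - p ^ i) * (x + e) ^ (p ^ i) = x ^ (p ^ (k - 1)) := by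
    rw [← pow_add, Nat.sub_add_cancel hiD, hD]
  by_cases him : i < m
  · rw [if_pos him]
    have hiP : p ^ i ≤ p ^ (m - 1) := Nat.pow_le_pow_right hp0 (by omega)
    have hv : (a * (x * (x + e)) - b) ^ (p ^ i) = a * (x * (x + e)) ^ (p ^ i) - b := by
      rw [sub_pow_char_pow, mul_pow, hai, hbi]
    have hw : (x * (x + e)) ^ (p ^ (m - 1))
        = (x * (x + e)) ^ (p ^ i) * (x * (x + e)) ^ (p ^ (m - 1) - p ^ i) := by
      rw [← pow_add, Nat.add_sub_cancel' hiP]
    rw [hv, hw, mul_pow x (x + e) (p ^ i), pow_add (x + e), hD]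
    generalize (x * (x + e)) ^ (p ^ (m - 1) - p ^ i) = W
    have hz := hadd i
    generalize (x + e) ^ (p ^ (k - 1) - p ^ i) = U at *
    generalize (x + e) ^ (p ^ i) = z at *
    generalize x ^ (p ^ (k - 1)) = XD at *
    generalize x ^ (p ^ i) = X' at *
    generalize y ^ (p ^ i) = Y' at *
    generalize e ^ (p ^ i) = E' at *
    subst hz
    linear_combination (b * X' * W) * hm1 - (b * XD * (X' + E') * W) * hXY
  · rw [if_neg him, add_zero]
    have hz := hadd i
    rw [he' i (by omega), add_zero] at hz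
    rw [pow_add (x + e), hD, hz]
    rw [hz] at hm1
    have : (x + e) ^ (p ^ (k - 1) - p ^ i) = x ^ (p ^ (k - 1)) * y ^ (p ^ i) := by
      calc (x + e) ^ (p ^ (k - 1) - p ^ i) = (x + e) ^ (p ^ (k - 1) - p ^ i) * (x ^ (p ^ i) * y ^ (p ^ i)) := by
            rw [hXY, mul_one]
        _ = x ^ (p ^ (k - 1)) * y ^ (p ^ i) := by rw [← mul_assoc, hm1]
    rw [this]
    ring


variable {K : Type*} [Field K]

/-- bounded degree in the inner variable -/
def XDeg (F : K[X][X]) (B : ℕ) : Prop := ∀ n, (F.coeff n).natDegree ≤ B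

lemma XDeg.mono {F : K[X][X]} {B C : ℕ} (h : XDeg F B) (hBC : B ≤ C) : XDeg F C :=
  fun n => (h n).trans hBC

lemma XDeg.add {F G : K[X][X]} {B : ℕ} (hF : XDeg F B) (hG : XDeg G B) : XDeg (F + G) B := by
  intro n
  rw [coeff_add]
  exact (natDegree_add_le _ _).trans (max_le (hF n) (hG n))

lemma XDeg.sub {F G : K[X][X]} {B : ℕ} (hF : XDeg F B) (hG : XDeg G B) : XDeg (F - G) B := by
  intro n
  rw [coeff_sub]
  exact (natDegree_sub_le _ _).trans (max_le (hF n) (hG n))

lemma XDeg.sum {ι : Type*} {s : Finset ι} {F : ι → K[X][X]} {B : ℕ}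
    (hF : ∀ i ∈ s, XDeg (F i) B) : XDeg (∑ i ∈ s, F i) B := by
  classical
  induction s using Finset.induction_on with
  | empty => intro n; simp
  | insert a s ha ih =>
    rw [Finset.sum_insert ha]
    exact (hF a (mem_insert_self _ _)).add (ih fun i hi => hF i (mem_insert_of_mem hi))

lemma XDeg.mul {F G : K[X][X]} {B C : ℕ} (hF : XDeg F B) (hG : XDeg G C) : XDeg (F * G) (B + C) := by
  intro n
  rw [coeff_mul]
  apply natDegree_sum_le_of_forall_le
  intro x _
  exact natDegree_mul_le.trans (add_le_add (hF _) (hG _))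

lemma XDeg.one : XDeg (1 : K[X][X]) 0 := by
  intro n
  rw [coeff_one]
  split_ifs <;> simp

lemma XDeg.pow {F : K[X][X]} {B : ℕ} (hF : XDeg F B) (n : ℕ) : XDeg (F ^ n) (n * B) := by
  induction n with
  | zero => simpa using XDeg.one
  | succ n ih => rw [pow_succ, Nat.succ_mul]; exact ih.mul hF

lemma XDeg.C {f : K[X]} {B : ℕ} (hf : f.natDegree ≤ B) : XDeg (C f) B := by
  intro n
  rw [coeff_C]
  split_ifs <;> simp [hf]

lemma XDeg.X : XDeg (X : K[X][X]) 0 := by
  intro n
  rw [coeff_X]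
  split_ifs <;> simp

/-- `w = x(x+ε)` -/
noncomputable def wP : K[X][X] := C X * (C X + X)

/-- `H = t w^P + ∑ ε^{p^i} (a w - b)^{p^i} w^{P-p^i}` -/
noncomputable def HP (p m : ℕ) (a b t : K) : K[X][X] :=
  C (C t) * wP ^ (p ^ (m - 1)) + ∑ i ∈ range m, X ^ (p ^ i) * (C (C a) * wP - C (C b)) ^ (p ^ i)
    * wP ^ (p ^ (m - 1) - p ^ i)

lemma xdeg_wP : XDeg (wP : K[X][X]) 2 := by
  have h1 : XDeg (C X : K[X][X]) 1 := XDeg.C (by simp)
  exact h1.mul (h1.add (XDeg.X.mono (by norm_num)))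

lemma xdeg_HP (p m : ℕ) (hp : 0 < p) (a b t : K) : XDeg (HP p m a b t) (p ^ (m - 1) * 2) := by
  unfold HP
  apply XDeg.add
  · have h0 : XDeg (C (C t) : K[X][X]) 0 := XDeg.C (by simp)
    have := h0.mul ((xdeg_wP (K := K)).pow (p ^ (m - 1)))
    simpa using this
  · apply XDeg.sum
    intro i hi
    rw [mem_range] at hi
    have hiP : p ^ i ≤ p ^ (m - 1) := Nat.pow_le_pow_right hp (by omega)
    have h0 : XDeg (C (C a) : K[X][X]) 0 := XDeg.C (by simp)
    have h1 : XDeg (C (C b) : K[X][X]) 2 := XDeg.C (by simp)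
    have h2 := (h0.mul (xdeg_wP (K := K)))
    rw [zero_add] at h2
    have h3 := ((XDeg.X (K := K)).pow (p ^ i)).mul ((h2.sub h1).pow (p ^ i))
    have h4 := h3.mul ((xdeg_wP (K := K)).pow (p ^ (m - 1) - p ^ i))
    refine h4.mono ?_
    rw [Nat.mul_zero, zero_add, ← Nat.add_mul, Nat.add_sub_cancel' hiP]

/-- the polynomial `G = x^{D} T(ax+b/x)` -/
noncomputable def GP (p k : ℕ) (a b : K) : K[X] :=
  ∑ i ∈ range k, (C a * X ^ (p ^ (k - 1) + p ^ i) + C b * X ^ (p ^ (k - 1) - p ^ i))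

lemma natDegree_GP (p k : ℕ) (hp : 1 < p) (hk : 1 ≤ k) (a b : K) (ha : a ≠ 0) :
    (GP p k a b).natDegree = 2 * p ^ (k - 1) ∧ GP p k a b ≠ 0 := by
  have hcoef : (GP p k a b).coeff (2 * p ^ (k - 1)) = a := by
    unfold GP
    rw [finsetSum_coeff, Finset.sum_eq_single (k - 1)]
    · rw [coeff_add, coeff_C_mul, coeff_C_mul, coeff_X_pow, coeff_X_pow, if_pos (by ring), if_neg, mul_one, mul_zero, add_zero]
      have : 0 < p ^ (k - 1) := by positivity
      omega
    · intro i hi hik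
      rw [mem_range] at hi
      have h1 : p ^ i < p ^ (k - 1) := Nat.pow_lt_pow_right hp (by omega)
      rw [coeff_add, coeff_C_mul, coeff_C_mul, coeff_X_pow, coeff_X_pow, if_neg (by omega), if_neg (by omega)]
      ring
    · intro h
      exfalso; apply h; rw [mem_range]; omega
  constructor
  · apply le_antisymm
    · unfold GP
      apply natDegree_sum_le_of_forall_le
      intro i hi
      rw [mem_range] at hi
      have h1 : p ^ i ≤ p ^ (k - 1) := Nat.pow_le_pow_right (by omega) (by omega)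
      refine (natDegree_add_le _ _).trans (max_le ?_ ?_)
      · exact (natDegree_C_mul_X_pow_le _ _).trans (by omega)
      · exact (natDegree_C_mul_X_pow_le _ _).trans (by omega)
    · apply le_natDegree_of_ne_zero
      rw [hcoef]; exact ha
  · intro h
    rw [h] at hcoef
    simp at hcoef
    exact ha hcoef.symm

/-- family of auxiliary monomials -/
noncomputable def SP (p k I : ℕ) (a b : K) (c : Fin I × Fin p × Fin (p ^ (k - 1))) : K[X] :=
  X ^ (c.2.2 : ℕ) * GP p k a b ^ (c.2.1 : ℕ) * X ^ ((p - 1 - (c.2.1 : ℕ)) * p ^ (k - 1))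
    * X ^ (p ^ k * (c.1 : ℕ))

lemma SP_ne_zero (p k I : ℕ) (hp : 1 < p) (hk : 1 ≤ k) (a b : K) (ha : a ≠ 0) (c : Fin I × Fin p × Fin (p ^ (k - 1))) :
    SP p k I a b c ≠ 0 := by
  unfold SP
  have := (natDegree_GP p k hp hk a b ha).2
  have hX : (X : K[X]) ≠ 0 := X_ne_zero
  positivity

lemma natDegree_SP (p k I : ℕ) (hp : 1 < p) (hk : 1 ≤ k) (a b : K) (ha : a ≠ 0) (c : Fin I × Fin p × Fin (p ^ (k - 1))) :
    (SP p k I a b c).natDegree
      = (c.2.2 : ℕ) + p ^ (k - 1) * ((c.2.1 : ℕ) + p * (c.1 : ℕ)) + (p - 1) * p ^ (k - 1) := by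
  unfold SP
  have h1 := (natDegree_GP p k hp hk a b ha)
  have hX : (X : K[X]) ≠ 0 := X_ne_zero
  rw [natDegree_mul (by simp [h1.2]) (by simp), natDegree_mul (by simp [h1.2]) (by simp),
    natDegree_mul (by simp) (by simp [h1.2]), natDegree_X_pow, natDegree_X_pow, natDegree_X_pow, natDegree_pow, h1.1]
  have hc : (c.2.1 : ℕ) < p := c.2.1.2
  have hpk : p ^ k = p * p ^ (k - 1) := by
    rw [← pow_succ']; congr 1; omega
  obtain ⟨r, hr⟩ := Nat.exists_eq_add_of_lt hc
  have : p - 1 = c.2.1 + r := by omega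
  rw [hpk, this]
  have h3 : (c.2.1 : ℕ) + r - c.2.1 = r := by omega
  rw [h3]
  ring

lemma SP_deg_inj (p k I : ℕ) (hp : 1 < p) (hk : 1 ≤ k) (a b : K) (ha : a ≠ 0)
    (c c' : Fin I × Fin p × Fin (p ^ (k - 1)))
    (h : (SP p k I a b c).natDegree = (SP p k I a b c').natDegree) : c = c' := by
  rw [natDegree_SP p k I hp hk a b ha, natDegree_SP p k I hp hk a b ha] at h
  have h0 : 0 < p ^ (k - 1) := by positivity
  have h1 : (c.2.2 : ℕ) + p ^ (k - 1) * ((c.2.1 : ℕ) + p * (c.1 : ℕ))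
      = (c'.2.2 : ℕ) + p ^ (k - 1) * ((c'.2.1 : ℕ) + p * (c'.1 : ℕ)) := by omega
  have h2 : (c.2.2 : ℕ) = c'.2.2 := by
    have := congrArg (· % p ^ (k - 1)) h1
    simpa [Nat.add_mul_mod_self_left, Nat.mod_eq_of_lt c.2.2.2, Nat.mod_eq_of_lt c'.2.2.2] using this
  have h3 : ((c.2.1 : ℕ) + p * (c.1 : ℕ)) = ((c'.2.1 : ℕ) + p * (c'.1 : ℕ)) := by
    rw [h2] at h1
    exact Nat.eq_of_mul_eq_mul_left h0 (by omega)
  have h4 : (c.2.1 : ℕ) = c'.2.1 := by
    have := congrArg (· % p) h3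
    simpa [Nat.add_mul_mod_self_left, Nat.mod_eq_of_lt c.2.1.2, Nat.mod_eq_of_lt c'.2.1.2] using this
  have h5 : (c.1 : ℕ) = c'.1 := by
    rw [h4] at h3
    exact Nat.eq_of_mul_eq_mul_left (by omega : 0 < p) (by omega)
  ext
  · exact h5
  · exact h4
  · exact h2

lemma SP_indep (p k I : ℕ) (hp : 1 < p) (hk : 1 ≤ k) (a b : K) (ha : a ≠ 0)
    (c : Fin I × Fin p × Fin (p ^ (k - 1)) → K) (h : ∑ i, C (c i) * SP p k I a b i = 0) : c = 0 := by
  classical
  by_contra hc
  obtain ⟨i0, hi0⟩ := Function.ne_iff.mp hc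
  have hdeg := degree_sum_eq_of_disjoint (fun i => C (c i) * SP p k I a b i) Finset.univ (by
    intro i hi j hj hij
    simp only [Function.comp, Finset.mem_univ, true_and, Set.mem_ofPred_eq, Function.onFun] at hi hj ⊢
    intro hd
    apply hij
    have hci : c i ≠ 0 := by
      intro h0; apply hi; rw [h0]; simp
    have hcj : c j ≠ 0 := by
      intro h0; apply hj; rw [h0]; simp
    rw [degree_C_mul hci, degree_C_mul hcj] at hd
    exact SP_deg_inj p k I hp hk a b ha i j (natDegree_eq_natDegree hd))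
  rw [h, degree_zero] at hdeg
  have hle : (C (c i0) * SP p k I a b i0).degree ≤ ⊥ := by
    rw [hdeg]
    exact Finset.le_sup (f := fun i => (C (c i) * SP p k I a b i).degree) (Finset.mem_univ i0)
  rw [le_bot_iff, degree_eq_bot, mul_eq_zero] at hle
  rcases hle with h1 | h1
  · rw [C_eq_zero] at h1; exact hi0 h1
  · exact SP_ne_zero p k I hp hk a b ha i0 h1

lemma natDegree_R_le (p k I : ℕ) (hp : 1 < p) (hk : 1 ≤ k) (a b : K) (ha : a ≠ 0)
    (c : Fin I × Fin p × Fin (p ^ (k - 1)) → K) :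
    (∑ i, C (c i) * SP p k I a b i).natDegree ≤ p ^ k * (I + 1) := by
  apply natDegree_sum_le_of_forall_le
  intro i _
  refine natDegree_C_mul_le _ _ |>.trans ?_
  rw [natDegree_SP p k I hp hk a b ha]
  have hpk : p ^ k = p * p ^ (k - 1) := by
    rw [← pow_succ']; congr 1; omega
  rw [hpk]
  have key : ∀ u v w D : ℕ, u < I → v < p → w < D →
      w + D * (v + p * u) + (p - 1) * D ≤ p * D * (I + 1) := by
    intro u v w D hu hv hw
    obtain ⟨p', rfl⟩ : ∃ p', p = p' + 1 := ⟨p - 1, by omega⟩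
    have h4 : D * (v + (p' + 1) * u) ≤ D * (p' + (p' + 1) * u) := by
      apply Nat.mul_le_mul_left; omega
    have h5 : u + 1 ≤ I := hu
    calc w + D * (v + (p' + 1) * u) + (p' + 1 - 1) * D
        ≤ D + D * (p' + (p' + 1) * u) + p' * D := by
          simp only [Nat.add_sub_cancel]; omega
      _ ≤ (p' + 1) * D * (u + 1 + 1) := by nlinarith only [hw]
      _ ≤ (p' + 1) * D * (I + 1) := by
          apply Nat.mul_le_mul_left; omega
  exact key _ _ _ _ i.1.2 i.2.1.2 i.2.2.2



/-- family `Θ` -/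
noncomputable def TP (p m k I : ℕ) (a b t : K) (c : Fin I × Fin p × Fin (p ^ (k - 1))) : K[X][X] :=
  (C X + X) ^ (c.2.2 : ℕ) * C X ^ (c.1 : ℕ) * HP p m a b t ^ (c.2.1 : ℕ)
    * wP ^ ((p - 1 - (c.2.1 : ℕ)) * p ^ (m - 1))

lemma xdeg_TP (p m k I : ℕ) (hp : 0 < p) (hm : 1 ≤ m) (a b t : K)
    (c : Fin I × Fin p × Fin (p ^ (k - 1))) :
    ∀ n, ((TP p m k I a b t c).coeff n).natDegree < p ^ (k - 1) + I + 2 * p ^ m := by
  have h1 : XDeg (C X : K[X][X]) 1 := XDeg.C (by simp)
  have h2 := (h1.add ((XDeg.X (K := K)).mono (by norm_num : 0 ≤ 1))).pow (c.2.2 : ℕ)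
  have h3 := h1.pow (c.1 : ℕ)
  have h4 := (xdeg_HP p m hp a b t).pow (c.2.1 : ℕ)
  have h5 := (xdeg_wP (K := K)).pow ((p - 1 - (c.2.1 : ℕ)) * p ^ (m - 1))
  have h6 := ((h2.mul h3).mul h4).mul h5
  intro n
  refine lt_of_le_of_lt (h6 n) ?_
  have e1 := c.1.2
  have e2 := c.2.1.2
  have e3 := c.2.2.2
  have hpm : p ^ m = p * p ^ (m - 1) := by
    rw [← pow_succ']; congr 1; omega
  have key : ∀ u v w D P : ℕ, u < I → v < p → w < D →
      w * 1 + u * 1 + v * (P * 2) + (p - 1 - v) * P * 2 < D + I + 2 * (p * P) := by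
    intro u v w D P hu hv hw
    obtain ⟨r, hr⟩ := Nat.exists_eq_add_of_lt hv
    have : p - 1 - v = r := by omega
    rw [this, hr]
    nlinarith only [Nat.zero_le P, hu, hw]
  rw [hpm]
  exact key _ _ _ _ _ e1 e2 e3

/-- the main divisibility -/
lemma main_dvd (p : ℕ) [Fact p.Prime] [CharP K p] (m k I : ℕ) (hm : 1 ≤ m) (hmk : m + 1 ≤ k)
    (a b t : K) (ha : a ^ p = a) (hb : b ^ p = b)
    (c : Fin I × Fin p × Fin (p ^ (k - 1)) → K)
    (hc : (X : K[X][X]) ^ (p ^ m) ∣ ∑ i, C (C (c i)) * TP p m k I a b t i)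
    (x : K) (hx : x ≠ 0) (hxq : x ^ (p ^ k) = x)
    (hT : ∑ i ∈ range k, (a * x ^ (p ^ i) + b * x⁻¹ ^ (p ^ i)) = t) :
    (X - C x) ^ (p ^ m) ∣ ∑ i, C (c i) * SP p k I a b i := by
  have hp : 1 < p := (Fact.out : p.Prime).one_lt
  set R : K[X] := ∑ i, C (c i) * SP p k I a b i with hR
  set f : K[X] := X ^ (p ^ m) with hf
  have hdf : f.degree ≠ 0 := by
    rw [hf, degree_X_pow]
    have : 0 < p ^ m := by positivity
    exact_mod_cast this.ne'
  have : Nontrivial (AdjoinRoot f) := AdjoinRoot.nontrivial f hdf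
  have : CharP (AdjoinRoot f) p :=
    charP_of_injective_algebraMap (algebraMap K (AdjoinRoot f)).injective p
  set φ : K[X] →+* AdjoinRoot f := AdjoinRoot.mk f with hφ
  set ev : K[X][X] →+* K[X] := Polynomial.mapRingHom (Polynomial.evalRingHom x) with hev
  set X0 : AdjoinRoot f := φ (C x) with hX0
  set Y0 : AdjoinRoot f := φ (C x⁻¹) with hY0
  set e : AdjoinRoot f := φ X with he
  have hep : e ^ (p ^ m) = 0 := by
    rw [he, ← RingHom.map_pow, hφ, AdjoinRoot.mk_eq_zero]
  have hXY : X0 * Y0 = 1 := by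
    rw [hX0, hY0, ← RingHom.map_mul, ← C_mul, mul_inv_cancel₀ hx, C_1, map_one]
  have hap : (φ (C a)) ^ p = φ (C a) := by rw [← RingHom.map_pow, ← C_pow, ha]
  have hbp : (φ (C b)) ^ p = φ (C b) := by rw [← RingHom.map_pow, ← C_pow, hb]
  have hstep := step_id p (φ (C a)) (φ (C b)) X0 Y0 e hap hbp hXY k m hm hmk hep
  -- images
  have hevX : ev X = X := by simp [hev]
  have hevCX : ev (C X) = C x := by simp [hev]
  have hevCC : ∀ r : K, ev (C (C r)) = C r := by intro r; simp [hev]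
  have hw : φ (ev wP) = X0 * (X0 + e) := by
    unfold wP
    rw [RingHom.map_mul, RingHom.map_add, hevX, hevCX, RingHom.map_mul, RingHom.map_add]
  have hH : φ (ev (HP p m a b t)) = φ (C t) * (X0 * (X0 + e)) ^ (p ^ (m - 1))
      + ∑ i ∈ range m, e ^ (p ^ i) * (φ (C a) * (X0 * (X0 + e)) - φ (C b)) ^ (p ^ i)
              * (X0 * (X0 + e)) ^ (p ^ (m - 1) - p ^ i) := by
    unfold HP
    simp only [RingHom.map_add, RingHom.map_mul, RingHom.map_pow, map_sum, RingHom.map_sub, hevX, hevCC]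
    simp only [hw]
    rfl
  have hG : φ ((GP p k a b).comp (C x + X)) = ∑ i ∈ range k, (φ (C a) * (X0 + e) ^ (p ^ (k - 1) + p ^ i)
      + φ (C b) * (X0 + e) ^ (p ^ (k - 1) - p ^ i)) := by
    unfold GP
    rw [Polynomial.sum_comp, map_sum]
    apply Finset.sum_congr rfl
    intro i _
    simp only [add_comp, mul_comp, C_comp, X_pow_comp, RingHom.map_add, RingHom.map_mul, RingHom.map_pow]
    rfl
  have hTT : ∑ i ∈ range k, (φ (C a) * X0 ^ (p ^ i) + φ (C b) * Y0 ^ (p ^ i)) = φ (C t) := by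
    rw [← hT]
    simp only [RingHom.map_add, RingHom.map_mul, RingHom.map_pow, map_sum]
    rfl
  rw [← hG, hTT, ← hH] at hstep
  have hadd : ∀ i, (X0 + e) ^ (p ^ i) = X0 ^ (p ^ i) + e ^ (p ^ i) := fun i => add_pow_char_pow _ _ _ _
  have he' : ∀ i, m ≤ i → e ^ (p ^ i) = 0 := by
    intro i hi
    obtain ⟨j, rfl⟩ := Nat.exists_eq_add_of_le hi
    rw [pow_add, pow_mul, hep, zero_pow (by positivity)]
  have hD : (X0 + e) ^ (p ^ (k - 1)) = X0 ^ (p ^ (k - 1)) := by
    rw [hadd, he' _ (by omega), add_zero]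
  have hq : (X0 + e) ^ (p ^ k) = X0 := by
    rw [hadd, he' _ (by omega), add_zero, hX0, ← RingHom.map_pow, ← C_pow, hxq]
  have hterm : ∀ i : Fin I × Fin p × Fin (p ^ (k - 1)),
      φ ((SP p k I a b i).comp (C x + X)) * (X0 * (X0 + e)) ^ ((p - 1) * p ^ (m - 1))
        = X0 ^ ((p - 1) * p ^ (k - 1)) * φ (ev (TP p m k I a b t i)) := by
    intro i
    unfold SP TP
    simp only [mul_comp, pow_comp, X_comp, RingHom.map_mul, RingHom.map_pow, RingHom.map_add, hevX, hevCX, hw]
    obtain ⟨r, hr⟩ := Nat.exists_eq_add_of_lt i.2.1.2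
    have h1 : p - 1 = (i.2.1 : ℕ) + r := by omega
    have h2 : p - 1 - (i.2.1 : ℕ) = r := by omega
    rw [h2, h1]
    have e1 : (X0 + e) ^ (r * p ^ (k - 1)) = X0 ^ (r * p ^ (k - 1)) := by
      rw [mul_comm, pow_mul, hD, pow_mul]
    have e2 : (X0 + e) ^ (p ^ k * (i.1 : ℕ)) = X0 ^ (i.1 : ℕ) := by
      rw [pow_mul, hq]
    have e3 : (X0 * (X0 + e)) ^ (((i.2.1 : ℕ) + r) * p ^ (m - 1))
        = ((X0 * (X0 + e)) ^ (p ^ (m - 1))) ^ (i.2.1 : ℕ) * (X0 * (X0 + e)) ^ (r * p ^ (m - 1)) := by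
      rw [Nat.add_mul, pow_add, mul_comm (i.2.1 : ℕ), pow_mul]
    have e4 : X0 ^ (((i.2.1 : ℕ) + r) * p ^ (k - 1))
        = (X0 ^ (p ^ (k - 1))) ^ (i.2.1 : ℕ) * X0 ^ (r * p ^ (k - 1)) := by
      rw [Nat.add_mul, pow_add, mul_comm (i.2.1 : ℕ), pow_mul]
    change (X0 + e) ^ (i.2.2 : ℕ) * φ ((GP p k a b).comp (C x + X)) ^ (i.2.1 : ℕ) * (X0 + e) ^ (r * p ^ (k - 1))
      * (X0 + e) ^ (p ^ k * (i.1 : ℕ)) * (X0 * (X0 + e)) ^ (((i.2.1 : ℕ) + r) * p ^ (m - 1)) =
      X0 ^ (((i.2.1 : ℕ) + r) * p ^ (k - 1)) * ((X0 + e) ^ (i.2.2 : ℕ) * X0 ^ (i.1 : ℕ)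
        * φ (ev (HP p m a b t)) ^ (i.2.1 : ℕ) * (X0 * (X0 + e)) ^ (r * p ^ (m - 1)))
    rw [e1, e2, e3, e4]
    have h5 := congrArg (· ^ (i.2.1 : ℕ)) hstep
    simp only [mul_pow] at h5 ⊢
    linear_combination (X0 + e) ^ (i.2.2 : ℕ) * X0 ^ (r * p ^ (k - 1)) * X0 ^ (i.1 : ℕ)
      * (X0 ^ (r * p ^ (m - 1)) * (X0 + e) ^ (r * p ^ (m - 1))) * h5
  have hsum : φ (R.comp (C x + X)) * (X0 * (X0 + e)) ^ ((p - 1) * p ^ (m - 1))
      = X0 ^ ((p - 1) * p ^ (k - 1)) * φ (ev (∑ i, C (C (c i)) * TP p m k I a b t i)) := by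
    rw [hR, Polynomial.sum_comp, map_sum, Finset.sum_mul, map_sum, map_sum, Finset.mul_sum]
    apply Finset.sum_congr rfl
    intro i _
    rw [mul_comp, C_comp, RingHom.map_mul, RingHom.map_mul, RingHom.map_mul, hevCC, mul_assoc, hterm]
    ring
  have hz : φ (ev (∑ i, C (C (c i)) * TP p m k I a b t i)) = 0 := by
    obtain ⟨Q, hQ⟩ := hc
    rw [hQ, RingHom.map_mul, RingHom.map_pow, hevX, RingHom.map_mul, RingHom.map_pow]
    change e ^ (p ^ m) * _ = 0
    rw [hep, zero_mul]
  rw [hz, mul_zero] at hsum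
  have hdvd : f ∣ R.comp (C x + X) * (C x * (C x + X)) ^ ((p - 1) * p ^ (m - 1)) := by
    rw [← AdjoinRoot.mk_eq_zero, RingHom.map_mul, RingHom.map_pow, RingHom.map_mul, RingHom.map_add]
    exact hsum
  have hcop : IsCoprime f ((C x * (C x + X)) ^ ((p - 1) * p ^ (m - 1))) := by
    apply IsCoprime.pow_right
    rw [hf]
    apply IsCoprime.pow_left
    apply IsCoprime.mul_right
    · exact ⟨0, C x⁻¹, by rw [zero_mul, zero_add, ← C_mul, inv_mul_cancel₀ hx, C_1]⟩
    · refine ⟨-C x⁻¹, C x⁻¹, ?_⟩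
      have : C x⁻¹ * C x = (1 : K[X]) := by rw [← C_mul, inv_mul_cancel₀ hx, C_1]
      linear_combination this
  have hfd : f ∣ R.comp (C x + X) := hcop.dvd_of_dvd_mul_right hdvd
  obtain ⟨Q, hQ⟩ := hfd
  have := congrArg (fun P : K[X] => P.comp (X - C x)) hQ
  simp only [comp_assoc, mul_comp, hf, X_pow_comp, add_comp, C_comp, X_comp] at this
  rw [show C x + (X - C x) = X by ring, comp_X] at this
  exact ⟨_, this⟩

lemma step_arith (p P : ℕ) (h2 : 2 ≤ p) (hP : 0 < P) :
    p * P * (p * (p * P) ^ 2 + (P + 1) + 2 * (p * P)) < (P + 1) * (p * (p * (p * P) ^ 2)) := by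
  have h3 : p * P * (p * (p * P) ^ 2 + (P + 1) + 2 * (p * P)) = p ^ 4 * P ^ 3 + p * P ^ 2 + p * P + 2 * p ^ 2 * P ^ 2 := by ring
  have h4 : (P + 1) * (p * (p * (p * P) ^ 2)) = p ^ 4 * P ^ 3 + p ^ 4 * P ^ 2 := by ring
  rw [h3, h4]
  have h5 : p * P ^ 2 * 2 ≤ p ^ 2 * P ^ 2 := by nlinarith only [Nat.zero_le (p * P ^ 2), h2]
  have h6 : p * P ≤ p * P ^ 2 := by
    apply Nat.mul_le_mul_left
    nlinarith only [hP]
  have h7 : p ^ 2 * P ^ 2 * 4 ≤ p ^ 4 * P ^ 2 := by
    have : 4 ≤ p ^ 2 := by nlinarith only [h2]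
    nlinarith only [Nat.zero_le (p ^ 2 * P ^ 2), h5, h2]
  have h8 : 0 < p ^ 2 * P ^ 2 := by positivity
  nlinarith only [h5, h6, h7, h8]

/-- Stepanov's bound. -/
theorem stepanov (p : ℕ) [Fact p.Prime] [CharP K p] (m : ℕ) (hm : 1 ≤ m)
    (a b t : K) (ha : a ^ p = a) (hb : b ^ p = b) (ha0 : a ≠ 0)
    (S : Finset K) (hS : ∀ x ∈ S, x ≠ 0 ∧ x ^ (p ^ (2 * m + 2)) = x ∧
      ∑ i ∈ range (2 * m + 2), (a * x ^ (p ^ i) + b * x⁻¹ ^ (p ^ i)) = t) :
    S.card * p ^ m ≤ p ^ (2 * m + 2) * (p ^ (m - 1) + 2) := by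
  classical
  have hp : 1 < p := (Fact.out : p.Prime).one_lt
  set k := 2 * m + 2 with hk
  set I := p ^ (m - 1) + 1 with hI
  set D := p ^ (k - 1) with hD
  set M := p ^ m with hM
  set B := D + I + 2 * M with hB
  -- linear map
  let Λ : (Fin I × Fin p × Fin D → K) →ₗ[K] (Fin M × Fin B → K) :=
    LinearMap.pi fun nb => ∑ i, (((TP p m k I a b t i).coeff nb.1).coeff nb.2) • LinearMap.proj i
  have hΛ : ∀ c n e, Λ c (n, e) = ∑ i, c i * (((TP p m k I a b t i).coeff n).coeff e) := by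
    intro c n e
    simp [Λ, mul_comm]
    rfl
  have hlt : Module.finrank K (Fin M × Fin B → K) < Module.finrank K (Fin I × Fin p × Fin D → K) := by
    rw [Module.finrank_fintype_fun_eq_card, Module.finrank_fintype_fun_eq_card]
    simp only [Fintype.card_prod, Fintype.card_fin]
    have hMp : M = p * p ^ (m - 1) := by
      rw [hM, ← pow_succ']; congr 1; omega
    have hDM : D = p * M ^ 2 := by
      rw [hD, hM, ← pow_mul, ← pow_succ']; congr 1; omega
    rw [hB, hI, hDM, hMp]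
    exact step_arith p (p ^ (m - 1)) hp (by positivity)
  have hker := LinearMap.ker_ne_bot_of_finrank_lt (f := Λ) hlt
  obtain ⟨c, hcker, hc0⟩ := (Submodule.ne_bot_iff _).mp hker
  rw [LinearMap.mem_ker] at hcker
  have hR0 : (∑ i, C (c i) * SP p k I a b i) ≠ 0 := by
    intro h
    exact hc0 (SP_indep p k I hp (by omega) a b ha0 c h)
  have hdvdX : (X : K[X][X]) ^ (p ^ m) ∣ ∑ i, C (C (c i)) * TP p m k I a b t i := by
    rw [X_pow_dvd_iff]
    intro n hn
    rw [finsetSum_coeff]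
    ext e
    rw [finsetSum_coeff, coeff_zero]
    by_cases heB : e < B
    · have h1 := congrFun hcker (⟨n, hn⟩, ⟨e, heB⟩)
      rw [hΛ] at h1
      simp only [Pi.zero_apply] at h1
      rw [← h1]
      apply Finset.sum_congr rfl
      intro i _
      rw [coeff_C_mul, coeff_C_mul]
    · apply Finset.sum_eq_zero
      intro i _
      rw [coeff_C_mul, coeff_C_mul, coeff_eq_zero_of_natDegree_lt, mul_zero]
      exact lt_of_lt_of_le (xdeg_TP p m k I (by omega) hm a b t i n) (not_lt.mp heB)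
  have hprod : ∏ x ∈ S, (X - C x) ^ (p ^ m) ∣ ∑ i, C (c i) * SP p k I a b i := by
    apply Finset.prod_dvd_of_coprime
    · intro x _ y _ hxy
      exact (isCoprime_X_sub_C_of_isUnit_sub ((sub_ne_zero_of_ne hxy).isUnit)).pow
    · intro x hx
      obtain ⟨h1, h2, h3⟩ := hS x hx
      exact main_dvd p m k I hm (by omega) a b t ha hb c hdvdX x h1 h2 h3
  have hdeg := natDegree_le_of_dvd hprod hR0
  rw [natDegree_prod_of_monic _ _ (fun x _ => (monic_X_sub_C x).pow _)] at hdeg
  simp only [natDegree_pow, natDegree_X_sub_C, mul_one, Finset.sum_const, smul_eq_mul] at hdeg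
  refine hdeg.trans ((natDegree_R_le p k I hp (by omega) a b ha0 c).trans ?_)
  rw [hI]

end KlWeil

end

end

section

section

open Polynomial Finset

namespace KlWeil

section tower

variable {K : Type*} [Field K] (p : ℕ) [Fact p.Prime] [CharP K p]

open Classical in
/-- the finite subfield with `p^k` elements, as a finset -/
noncomputable def FF (K : Type*) [Field K] (p k : ℕ) : Finset K :=
  ((X ^ (p ^ k) - X : K[X]).roots).toFinset

lemma mem_FF {k : ℕ} (hk : 1 ≤ k) {x : K} : x ∈ FF K p k ↔ x ^ (p ^ k) = x := by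
  classical
  have hp : 1 < p := (Fact.out : p.Prime).one_lt
  unfold FF
  rw [Multiset.mem_toFinset, mem_roots (FiniteField.X_pow_card_pow_sub_X_ne_zero K (by omega) hp)]
  simp [IsRoot, sub_eq_zero]

lemma card_FF [IsAlgClosed K] {k : ℕ} (hk : 1 ≤ k) : (FF K p k).card = p ^ k := by
  classical
  have hp : 1 < p := (Fact.out : p.Prime).one_lt
  have hsep : (X ^ (p ^ k) - X : K[X]).Separable := galois_poly_separable p _ (dvd_pow_self p (by omega))
  unfold FF
  rw [Multiset.toFinset_card_of_nodup (nodup_roots hsep)]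
  rw [← (IsAlgClosed.splits _).natDegree_eq_card_roots]
  exact FiniteField.X_pow_card_pow_sub_X_natDegree_eq K (by omega) hp

lemma FF_add {k : ℕ} (hk : 1 ≤ k) {x y : K} (hx : x ∈ FF K p k) (hy : y ∈ FF K p k) : x + y ∈ FF K p k := by
  rw [mem_FF p hk] at *
  rw [add_pow_char_pow, hx, hy]

lemma FF_sub {k : ℕ} (hk : 1 ≤ k) {x y : K} (hx : x ∈ FF K p k) (hy : y ∈ FF K p k) : x - y ∈ FF K p k := by
  rw [mem_FF p hk] at *
  rw [sub_pow_char_pow, hx, hy]

lemma FF_mul {k : ℕ} (hk : 1 ≤ k) {x y : K} (hx : x ∈ FF K p k) (hy : y ∈ FF K p k) : x * y ∈ FF K p k := by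
  rw [mem_FF p hk] at *
  rw [mul_pow, hx, hy]

lemma FF_inv {k : ℕ} (hk : 1 ≤ k) {x : K} (hx : x ∈ FF K p k) : x⁻¹ ∈ FF K p k := by
  rw [mem_FF p hk] at *
  rw [inv_pow, hx]

lemma FF_zero {k : ℕ} (hk : 1 ≤ k) : (0 : K) ∈ FF K p k := by
  rw [mem_FF p hk]
  have hp : 1 < p := (Fact.out : p.Prime).one_lt
  rw [zero_pow (by positivity)]

lemma FF_neg {k : ℕ} (hk : 1 ≤ k) {x : K} (hx : x ∈ FF K p k) : -x ∈ FF K p k := by
  have := FF_sub p hk (FF_zero p hk) hx
  simpa using this

lemma pow_pow_of_one {x : K} (hx : x ^ p = x) (i : ℕ) : x ^ (p ^ i) = x := by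
  induction i with
  | zero => simp
  | succ i ih => rw [pow_succ, pow_mul, ih, hx]

lemma FF_of_one {k : ℕ} (hk : 1 ≤ k) {x : K} (hx : x ∈ FF K p 1) : x ∈ FF K p k := by
  rw [mem_FF p le_rfl, pow_one] at hx
  rw [mem_FF p hk]
  exact pow_pow_of_one p hx k

/-- absolute trace -/
def TT (k : ℕ) (y : K) : K := ∑ i ∈ range k, y ^ (p ^ i)

lemma TT_add (k : ℕ) (x y : K) : TT p k (x + y) = TT p k x + TT p k y := by
  unfold TT
  rw [← Finset.sum_add_distrib]
  exact Finset.sum_congr rfl fun i _ => add_pow_char_pow _ _ _ _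

lemma TT_zero (k : ℕ) : TT p k (0 : K) = 0 := by
  have := TT_add p k (0 : K) 0
  simpa using this

lemma TT_smul (k : ℕ) {u : K} (hu : u ∈ FF K p 1) (x : K) : TT p k (u * x) = u * TT p k x := by
  rw [mem_FF p le_rfl, pow_one] at hu
  unfold TT
  rw [Finset.mul_sum]
  refine Finset.sum_congr rfl fun i _ => ?_
  rw [mul_pow, pow_pow_of_one p hu]

lemma TT_mem {k : ℕ} (hk : 1 ≤ k) {y : K} (hy : y ∈ FF K p k) : TT p k y ∈ FF K p 1 := by
  rw [mem_FF p hk] at hy
  rw [mem_FF p le_rfl, pow_one]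
  unfold TT
  have h1 : (∑ i ∈ range k, y ^ (p ^ i)) ^ p = ∑ i ∈ range k, y ^ (p ^ (i + 1)) := by
    rw [sum_pow_char]
    refine Finset.sum_congr rfl fun i _ => ?_
    rw [← pow_mul, pow_succ]
  rw [h1]
  have h2 := Finset.sum_range_succ (fun i => y ^ (p ^ i)) k
  have h3 := Finset.sum_range_succ' (fun i => y ^ (p ^ i)) k
  rw [h2] at h3
  simp only [pow_zero, pow_one, hy] at h3
  exact (add_right_cancel h3).symm

lemma TT_double (k : ℕ) (z : K) : TT p (2 * k) z = TT p k (z + z ^ (p ^ k)) := by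
  rw [TT_add]
  unfold TT
  rw [two_mul, Finset.sum_range_add]
  congr 1
  refine Finset.sum_congr rfl fun i _ => ?_
  rw [← pow_mul, ← pow_add]

lemma exists_TT_ne_zero [IsAlgClosed K] {k : ℕ} (hk : 1 ≤ k) : ∃ s ∈ FF K p k, TT p k s ≠ 0 := by
  classical
  have hp : 1 < p := (Fact.out : p.Prime).one_lt
  by_contra hcon
  push Not at hcon
  set f : K[X] := ∑ i ∈ range k, X ^ (p ^ i) with hf
  have hfc : f.coeff (p ^ (k - 1)) = 1 := by
    rw [hf, finsetSum_coeff, Finset.sum_eq_single (k - 1)]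
    · simp
    · intro i hi hik
      rw [mem_range] at hi
      rw [coeff_X_pow, if_neg]
      have : p ^ i < p ^ (k - 1) := Nat.pow_lt_pow_right hp (by omega)
      omega
    · intro h; exfalso; apply h; rw [mem_range]; omega
  have hf0 : f ≠ 0 := by
    intro h; rw [h] at hfc; simp at hfc
  have hfd : f.natDegree ≤ p ^ (k - 1) := by
    rw [hf]
    apply natDegree_sum_le_of_forall_le
    intro i hi
    rw [mem_range] at hi
    rw [natDegree_X_pow]
    exact Nat.pow_le_pow_right (by omega) (by omega)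
  have hsub : FF K p k ⊆ f.roots.toFinset := by
    intro s hs
    rw [Multiset.mem_toFinset, mem_roots hf0, IsRoot, hf, eval_finsetSum]
    have := hcon s hs
    unfold TT at this
    simpa using this
  have hcard := Finset.card_le_card hsub
  rw [card_FF p hk] at hcard
  have h2 := (Multiset.toFinset_card_le f.roots).trans (card_roots' f)
  have h3 : p ^ (k - 1) < p ^ k := Nat.pow_lt_pow_right hp (by omega)
  omega

/-- a nontrivial additive character of the prime field, viewed on `K` -/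
structure PChar (χ : K → ℂ) : Prop where
  add : ∀ u ∈ FF K p 1, ∀ v ∈ FF K p 1, χ (u + v) = χ u * χ v
  zero : χ 0 = 1
  norm : ∀ u ∈ FF K p 1, ‖χ u‖ = 1
  nontriv : ∃ u ∈ FF K p 1, χ u ≠ 1

variable {χ : K → ℂ}

lemma sum_TT_eq_zero [IsAlgClosed K] (hχ : PChar p χ) {k : ℕ} (hk : 1 ≤ k) {c : K} (hc : c ∈ FF K p k)
    (hc0 : c ≠ 0) : ∑ s ∈ FF K p k, χ (TT p k (s * c)) = 0 := by
  obtain ⟨s0, hs0, hT0⟩ := exists_TT_ne_zero (K := K) p hk
  obtain ⟨u0, hu0, hu1⟩ := hχ.nontriv
  have hT1 := TT_mem p hk hs0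
  have hlam : u0 * (TT p k s0)⁻¹ ∈ FF K p 1 := FF_mul p le_rfl hu0 (FF_inv p le_rfl hT1)
  set s1 : K := u0 * (TT p k s0)⁻¹ * s0 * c⁻¹ with hs1
  have hs1m : s1 ∈ FF K p k := FF_mul p hk (FF_mul p hk (FF_of_one p hk hlam) hs0) (FF_inv p hk hc)
  have hTs1 : TT p k (s1 * c) = u0 := by
    rw [hs1, mul_assoc, inv_mul_cancel₀ hc0, mul_one, TT_smul p k hlam, mul_assoc, inv_mul_cancel₀ hT0, mul_one]
  have hshift : ∑ s ∈ FF K p k, χ (TT p k (s * c)) = ∑ s ∈ FF K p k, χ (TT p k ((s + s1) * c)) := by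
    symm
    apply Finset.sum_bij (fun s _ => s + s1)
    · intro s hs; exact FF_add p hk hs hs1m
    · intro s _ s' _ h; exact add_right_cancel h
    · intro s hs; exact ⟨s - s1, FF_sub p hk hs hs1m, by ring⟩
    · intro s _; rfl
  have hfac : ∑ s ∈ FF K p k, χ (TT p k ((s + s1) * c)) = (∑ s ∈ FF K p k, χ (TT p k (s * c))) * χ u0 := by
    rw [Finset.sum_mul]
    refine Finset.sum_congr rfl fun s hs => ?_
    rw [add_mul, TT_add, hTs1, hχ.add _ (TT_mem p hk (FF_mul p hk hs hc)) _ hu0]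
  rw [hfac] at hshift
  have : (∑ s ∈ FF K p k, χ (TT p k (s * c))) * (χ u0 - 1) = 0 := by linear_combination -hshift
  rcases mul_eq_zero.mp this with h | h
  · exact h
  · exact absurd (sub_eq_zero.mp h) hu1

open Classical in
lemma count_two [IsAlgClosed K] {k : ℕ} (hk : 1 ≤ k) {s n : K} (hs : s ∈ FF K p k) (hn : n ∈ FF K p k)
    (hn0 : n ≠ 0) :
    ((((FF K p k).erase 0) ×ˢ ((FF K p k).erase 0)).filter (fun xy : K × K => (xy.1 + xy.2, xy.1 * xy.2) = (s, n))).card
      + (((FF K p (2 * k)).erase 0).filter (fun z : K => (z + z ^ (p ^ k), z * z ^ (p ^ k)) = (s, n))).card = 2 := by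
  -- roots
  obtain ⟨r1, hr1⟩ := IsAlgClosed.exists_root (X ^ 2 - C s * X + C n : K[X]) (by
    have : (X ^ 2 - C s * X + C n : K[X]).degree = 2 := by compute_degree!
    rw [this]
    decide)
  have hroot : r1 ^ 2 - s * r1 + n = 0 := by simpa [IsRoot] using hr1
  set r2 : K := s - r1 with hr2
  have hsum : r1 + r2 = s := by rw [hr2]; ring
  have hprod : r1 * r2 = n := by rw [hr2]; linear_combination -hroot
  have hr10 : r1 ≠ 0 := by rintro h; rw [h, zero_mul] at hprod; exact hn0 hprod.symm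
  have hr20 : r2 ≠ 0 := by rintro h; rw [h, mul_zero] at hprod; exact hn0 hprod.symm
  have h2k : 1 ≤ 2 * k := by omega
  have hsq := (mem_FF p hk).mp hs
  have hnq := (mem_FF p hk).mp hn
  have hpair : ∀ x y : K, x + y = s → x * y = n → (x = r1 ∧ y = r2) ∨ (x = r2 ∧ y = r1) := by
    intro x y h1 h2
    have h3 : (x - r1) * (x - r2) = 0 := by
      have : (x - r1) * (x - r2) = x ^ 2 - (r1 + r2) * x + r1 * r2 := by ring
      rw [this, hsum, hprod, ← h1, ← h2]; ring
    rcases mul_eq_zero.mp h3 with h | h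
    · left
      have hx : x = r1 := sub_eq_zero.mp h
      exact ⟨hx, by rw [hx, ← hsum] at h1; exact add_left_cancel h1⟩
    · right
      have hx : x = r2 := sub_eq_zero.mp h
      refine ⟨hx, ?_⟩
      rw [hx, ← hsum, add_comm r1 r2] at h1; exact add_left_cancel h1
  have hpow2 : ∀ z : K, z ^ (p ^ (2 * k)) = (z ^ (p ^ k)) ^ (p ^ k) := by
    intro z; rw [← pow_mul, ← pow_add, two_mul]
  have hfrob := hpair (r1 ^ (p ^ k)) (r2 ^ (p ^ k)) (by rw [← add_pow_char_pow, hsum, hsq])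
    (by rw [← mul_pow, hprod, hnq])
  rcases hfrob with ⟨hf1, hf2⟩ | ⟨hf1, hf2⟩
  · -- split case
    have hA : ((((FF K p k).erase 0) ×ˢ ((FF K p k).erase 0)).filter (fun xy : K × K => (xy.1 + xy.2, xy.1 * xy.2) = (s, n)))
        = {(r1, r2), (r2, r1)} := by
      ext ⟨x, y⟩
      simp only [mem_filter, mem_product, mem_erase, mem_insert, mem_singleton, Prod.mk.injEq]
      constructor
      · rintro ⟨_, h1, h2⟩
        exact hpair x y h1 h2
      · rintro (⟨rfl, rfl⟩ | ⟨rfl, rfl⟩)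
        · exact ⟨⟨⟨hr10, (mem_FF p hk).mpr hf1⟩, ⟨hr20, (mem_FF p hk).mpr hf2⟩⟩, hsum, hprod⟩
        · exact ⟨⟨⟨hr20, (mem_FF p hk).mpr hf2⟩, ⟨hr10, (mem_FF p hk).mpr hf1⟩⟩, by rw [add_comm]; exact hsum,
            by rw [mul_comm]; exact hprod⟩
    by_cases h12 : r1 = r2
    · have hB : (((FF K p (2 * k)).erase 0).filter (fun z : K => (z + z ^ (p ^ k), z * z ^ (p ^ k)) = (s, n)))
          = {r1} := by
        ext z
        simp only [mem_filter, mem_erase, mem_singleton, Prod.mk.injEq]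
        constructor
        · rintro ⟨_, h1, h2⟩
          rcases hpair _ _ h1 h2 with h | h
          · exact h.1
          · rw [h12]; exact h.1
        · rintro rfl
          refine ⟨⟨hr10, (mem_FF p h2k).mpr ?_⟩, ?_, ?_⟩
          · rw [hpow2, hf1, hf1]
          · rw [hf1]; nth_rewrite 2 [h12]; exact hsum
          · rw [hf1]; nth_rewrite 2 [h12]; exact hprod
      rw [hA, hB, ← h12]
      simp
    · have hB : (((FF K p (2 * k)).erase 0).filter (fun z : K => (z + z ^ (p ^ k), z * z ^ (p ^ k)) = (s, n)))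
          = ∅ := by
        ext z
        simp only [mem_filter, mem_erase, Prod.mk.injEq, Finset.notMem_empty, iff_false]
        rintro ⟨_, h1, h2⟩
        rcases hpair _ _ h1 h2 with ⟨ha, hb⟩ | ⟨ha, hb⟩
        · rw [ha, hf1] at hb; exact h12 hb
        · rw [ha, hf2] at hb; exact h12 hb.symm
      rw [hA, hB, Finset.card_pair]
      · simp
      · intro h
        exact h12 (Prod.mk.inj h).1
  · -- nonsplit or double case with swap
    by_cases h12 : r1 = r2
    · -- then both fixed: same as before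
      rw [← h12] at hf1 hf2
      have hA : ((((FF K p k).erase 0) ×ˢ ((FF K p k).erase 0)).filter (fun xy : K × K => (xy.1 + xy.2, xy.1 * xy.2) = (s, n)))
          = {(r1, r1)} := by
        ext ⟨x, y⟩
        simp only [mem_filter, mem_product, mem_erase, mem_singleton, Prod.mk.injEq]
        constructor
        · rintro ⟨_, h1, h2⟩
          rcases hpair x y h1 h2 with h | h
          · exact ⟨h.1, by rw [h12]; exact h.2⟩
          · exact ⟨by rw [h12]; exact h.1, h.2⟩
        · rintro ⟨rfl, rfl⟩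
          refine ⟨⟨⟨hr10, (mem_FF p hk).mpr hf1⟩, ⟨hr10, (mem_FF p hk).mpr hf1⟩⟩, ?_, ?_⟩
          · nth_rewrite 2 [h12]; exact hsum
          · nth_rewrite 2 [h12]; exact hprod
      have hB : (((FF K p (2 * k)).erase 0).filter (fun z : K => (z + z ^ (p ^ k), z * z ^ (p ^ k)) = (s, n)))
          = {r1} := by
        ext z
        simp only [mem_filter, mem_erase, mem_singleton, Prod.mk.injEq]
        constructor
        · rintro ⟨_, h1, h2⟩
          rcases hpair _ _ h1 h2 with h | h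
          · exact h.1
          · rw [h12]; exact h.1
        · rintro rfl
          refine ⟨⟨hr10, (mem_FF p h2k).mpr ?_⟩, ?_, ?_⟩
          · rw [hpow2, hf1, hf1]
          · rw [hf1]; nth_rewrite 2 [h12]; exact hsum
          · rw [hf1]; nth_rewrite 2 [h12]; exact hprod
      rw [hA, hB]
      simp
    · have hA : ((((FF K p k).erase 0) ×ˢ ((FF K p k).erase 0)).filter (fun xy : K × K => (xy.1 + xy.2, xy.1 * xy.2) = (s, n)))
          = ∅ := by
        ext ⟨x, y⟩
        simp only [mem_filter, mem_product, mem_erase, Prod.mk.injEq, Finset.notMem_empty, iff_false]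
        rintro ⟨⟨⟨_, hx⟩, ⟨_, hy⟩⟩, h1, h2⟩
        rw [mem_FF p hk] at hx hy
        rcases hpair x y h1 h2 with ⟨ha, hb⟩ | ⟨ha, hb⟩
        · rw [ha, hf1] at hx; exact h12 hx.symm
        · rw [ha, hf2] at hx; exact h12 hx
      have hB : (((FF K p (2 * k)).erase 0).filter (fun z : K => (z + z ^ (p ^ k), z * z ^ (p ^ k)) = (s, n)))
          = {r1, r2} := by
        ext z
        simp only [mem_filter, mem_erase, mem_insert, mem_singleton, Prod.mk.injEq]
        constructor
        · rintro ⟨_, h1, h2⟩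
          rcases hpair _ _ h1 h2 with h | h
          · exact Or.inl h.1
          · exact Or.inr h.1
        · rintro (rfl | rfl)
          · refine ⟨⟨hr10, (mem_FF p h2k).mpr ?_⟩, ?_, ?_⟩
            · rw [hpow2, hf1, hf2]
            · rw [hf1]; exact hsum
            · rw [hf1]; exact hprod
          · refine ⟨⟨hr20, (mem_FF p h2k).mpr ?_⟩, ?_, ?_⟩
            · rw [hpow2, hf2, hf1]
            · rw [hf2, add_comm]; exact hsum
            · rw [hf2, mul_comm]; exact hprod
      rw [hA, hB, Finset.card_pair h12]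
      simp

open Classical in
/-- the Kloosterman sum over the field with `p^k` elements -/
noncomputable def KS (χ : K → ℂ) (k : ℕ) (a b : K) : ℂ :=
  ∑ x ∈ (FF K p k).erase 0, χ (TT p k (a * x + b * x⁻¹))

theorem KS_double [IsAlgClosed K] (hχ : PChar p χ) {k : ℕ} (hk : 1 ≤ k) {a b : K} (ha : a ∈ FF K p 1)
    (hb : b ∈ FF K p 1) (ha0 : a ≠ 0) (hb0 : b ≠ 0) :
    KS p χ (2 * k) a b = 2 * (p : ℂ) ^ k - KS p χ k a b ^ 2 := by
  classical
  have hak := FF_of_one p hk ha
  have hbk := FF_of_one p hk hb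
  have h2k : 1 ≤ 2 * k := by omega
  set g : K × K → ℂ := fun sn => χ (TT p k (sn.1 * (a + b * sn.2⁻¹))) with hg
  have h1 : KS p χ k a b ^ 2 = ∑ xy ∈ ((FF K p k).erase 0) ×ˢ ((FF K p k).erase 0), g (xy.1 + xy.2, xy.1 * xy.2) := by
    unfold KS
    rw [pow_two, Finset.sum_mul_sum, Finset.sum_product]
    refine Finset.sum_congr rfl fun x hx => Finset.sum_congr rfl fun y hy => ?_
    rw [mem_erase] at hx hy
    have m1 : a * x + b * x⁻¹ ∈ FF K p k := FF_add p hk (FF_mul p hk hak hx.2) (FF_mul p hk hbk (FF_inv p hk hx.2))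
    have m2 : a * y + b * y⁻¹ ∈ FF K p k := FF_add p hk (FF_mul p hk hak hy.2) (FF_mul p hk hbk (FF_inv p hk hy.2))
    rw [← hχ.add _ (TT_mem p hk m1) _ (TT_mem p hk m2), ← TT_add]
    simp only [hg]
    congr 2
    have := hx.1
    have := hy.1
    field_simp
    ring
  have h2 : KS p χ (2 * k) a b = ∑ z ∈ (FF K p (2 * k)).erase 0, g (z + z ^ (p ^ k), z * z ^ (p ^ k)) := by
    unfold KS
    refine Finset.sum_congr rfl fun z hz => ?_
    rw [mem_erase] at hz
    rw [TT_double]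
    simp only [hg]
    congr 2
    have hz0 := hz.1
    have hzq : z ^ (p ^ k) ≠ 0 := pow_ne_zero _ hz0
    have haq := (mem_FF p hk).mp hak
    have hbq := (mem_FF p hk).mp hbk
    rw [add_pow_char_pow, mul_pow, mul_pow, haq, hbq, inv_pow]
    field_simp
    ring
  have hfib1 := Finset.sum_fiberwise_of_maps_to' (s := ((FF K p k).erase 0) ×ˢ ((FF K p k).erase 0))
    (t := (FF K p k) ×ˢ ((FF K p k).erase 0)) (g := fun xy : K × K => (xy.1 + xy.2, xy.1 * xy.2)) (by
      rintro ⟨x, y⟩ h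
      simp only [mem_product, mem_erase] at h ⊢
      exact ⟨FF_add p hk h.1.2 h.2.2, mul_ne_zero h.1.1 h.2.1, FF_mul p hk h.1.2 h.2.2⟩) g
  have hfib2 := Finset.sum_fiberwise_of_maps_to' (s := (FF K p (2 * k)).erase 0)
    (t := (FF K p k) ×ˢ ((FF K p k).erase 0)) (g := fun z : K => (z + z ^ (p ^ k), z * z ^ (p ^ k))) (by
      rintro z h
      simp only [mem_product, mem_erase] at h ⊢
      have hz := (mem_FF p h2k).mp h.2
      have hpow2 : (z ^ (p ^ k)) ^ (p ^ k) = z := by rw [← pow_mul, ← pow_add, ← two_mul, hz]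
      refine ⟨(mem_FF p hk).mpr ?_, mul_ne_zero h.1 (pow_ne_zero _ h.1), (mem_FF p hk).mpr ?_⟩
      · rw [add_pow_char_pow, hpow2, add_comm]
      · rw [mul_pow, hpow2, mul_comm]) g
  have hsum : KS p χ k a b ^ 2 + KS p χ (2 * k) a b
      = ∑ sn ∈ (FF K p k) ×ˢ ((FF K p k).erase 0), 2 * g sn := by
    rw [h1, h2, ← hfib1, ← hfib2, ← Finset.sum_add_distrib]
    refine Finset.sum_congr rfl fun sn hsn => ?_
    obtain ⟨s, n⟩ := sn
    simp only [mem_product, mem_erase] at hsn
    rw [Finset.sum_const, Finset.sum_const, ← add_smul, count_two p hk hsn.1 hsn.2.2 hsn.2.1]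
    simp
  have hinner : ∀ n ∈ (FF K p k).erase 0, ∑ s ∈ FF K p k, 2 * g (s, n)
      = if n = -b * a⁻¹ then 2 * (p : ℂ) ^ k else 0 := by
    intro n hn
    rw [mem_erase] at hn
    rw [← Finset.mul_sum]
    split_ifs with h
    · have : a + b * n⁻¹ = 0 := by
        rw [h]
        field_simp
        ring
      simp only [hg, this, mul_zero, TT_zero, hχ.zero, Finset.sum_const, card_FF p hk]
      simp
    · rw [show ∑ s ∈ FF K p k, g (s, n) = 0 from ?_, mul_zero]
      refine sum_TT_eq_zero p hχ hk (c := a + b * n⁻¹) ?_ ?_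
      · exact FF_add p hk hak (FF_mul p hk hbk (FF_inv p hk hn.2))
      · intro h0
        apply h
        have hn0 := hn.1
        field_simp at h0 ⊢
        linear_combination h0
  have htot : ∑ sn ∈ (FF K p k) ×ˢ ((FF K p k).erase 0), 2 * g sn = 2 * (p : ℂ) ^ k := by
    rw [Finset.sum_product_right, Finset.sum_congr rfl hinner, Finset.sum_ite_eq']
    rw [if_pos]
    rw [mem_erase]
    exact ⟨mul_ne_zero (neg_ne_zero.mpr hb0) (inv_ne_zero ha0), FF_mul p hk (FF_neg p hk hbk) (FF_inv p hk hak)⟩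
  rw [htot] at hsum
  linear_combination hsum

end tower

end KlWeil

end

end

section

section

open Polynomial Finset

namespace KlWeil

section growth

variable {K : Type*} [Field K] (p : ℕ) [Fact p.Prime] [CharP K p] {χ : K → ℂ}

lemma sum_char_zero [IsAlgClosed K] (hχ : PChar p χ) : ∑ t ∈ FF K p 1, χ t = 0 := by
  have h := sum_TT_eq_zero p hχ (k := 1) le_rfl (c := (1 : K)) (by rw [mem_FF p le_rfl]; simp) one_ne_zero
  simpa [TT] using h

open Classical in
theorem KS_bound [IsAlgClosed K] (hχ : PChar p χ) (m : ℕ) (hm : 1 ≤ m) {a b : K} (ha : a ∈ FF K p 1)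
    (hb : b ∈ FF K p 1) (ha0 : a ≠ 0) :
    ‖KS p χ (2 * m + 2) a b‖ ≤ 2 * (p : ℝ) ^ (m + 3) + 1 := by
  have hp : 1 < p := (Fact.out : p.Prime).one_lt
  set k := 2 * m + 2 with hk
  have hk1 : 1 ≤ k := by omega
  have hap := (mem_FF p le_rfl).mp ha
  have hbp := (mem_FF p le_rfl).mp hb
  rw [pow_one] at hap hbp
  have hak := FF_of_one p hk1 ha
  have hbk := FF_of_one p hk1 hb
  set N : K → ℕ := fun t => (((FF K p k).erase 0).filter (fun x => TT p k (a * x + b * x⁻¹) = t)).card with hN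
  set U : ℕ := p ^ (2 * m + 1) + 2 * p ^ (m + 2) with hU
  have hNU : ∀ t, N t ≤ U := by
    intro t
    have h1 := stepanov p m hm a b t hap hbp ha0
      (((FF K p k).erase 0).filter (fun x => TT p k (a * x + b * x⁻¹) = t)) (by
        intro x hx
        rw [mem_filter, mem_erase] at hx
        refine ⟨hx.1.1, (mem_FF p hk1).mp hx.1.2, ?_⟩
        rw [← hx.2, TT]
        refine Finset.sum_congr rfl fun i _ => ?_
        rw [add_pow_char_pow, mul_pow, mul_pow, pow_pow_of_one p hap, pow_pow_of_one p hbp])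
    have h2 : p ^ (2 * m + 2) * (p ^ (m - 1) + 2) = U * p ^ m := by
      rw [hU]
      obtain ⟨m', rfl⟩ : ∃ m', m = m' + 1 := ⟨m - 1, by omega⟩
      simp only [Nat.add_sub_cancel]
      ring
    rw [h2] at h1
    exact Nat.le_of_mul_le_mul_right h1 (by positivity)
  have hmaps : ∀ x ∈ (FF K p k).erase 0, TT p k (a * x + b * x⁻¹) ∈ FF K p 1 := by
    intro x hx
    rw [mem_erase] at hx
    exact TT_mem p hk1 (FF_add p hk1 (FF_mul p hk1 hak hx.2) (FF_mul p hk1 hbk (FF_inv p hk1 hx.2)))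
  have hKS : KS p χ k a b = ∑ t ∈ FF K p 1, (N t : ℂ) * χ t := by
    unfold KS
    rw [← Finset.sum_fiberwise_of_maps_to' (t := FF K p 1) (g := fun x => TT p k (a * x + b * x⁻¹)) hmaps χ]
    refine Finset.sum_congr rfl fun t _ => ?_
    rw [Finset.sum_const, nsmul_eq_mul]
  have hNsum : ∑ t ∈ FF K p 1, N t = p ^ k - 1 := by
    have h1 := Finset.card_eq_sum_card_fiberwise (s := (FF K p k).erase 0) (t := FF K p 1)
      (f := fun x => TT p k (a * x + b * x⁻¹)) hmaps
    rw [Finset.card_erase_of_mem (FF_zero p hk1), card_FF p hk1] at h1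
    rw [h1]
  have hKS2 : KS p χ k a b = ∑ t ∈ FF K p 1, ((N t : ℂ) - U) * χ t := by
    rw [hKS]
    simp only [sub_mul, Finset.sum_sub_distrib]
    rw [← Finset.mul_sum, sum_char_zero p hχ, mul_zero, sub_zero]
  rw [hKS2]
  refine (norm_sum_le _ _).trans ?_
  have h3 : ∀ t ∈ FF K p 1, ‖((N t : ℂ) - U) * χ t‖ = (U : ℝ) - N t := by
    intro t ht
    rw [norm_mul, hχ.norm t ht, mul_one, norm_sub_rev]
    have h4 : ((U : ℂ) - N t) = (((U : ℝ) - N t : ℝ) : ℂ) := by push_cast; ring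
    rw [h4, Complex.norm_real, Real.norm_of_nonneg]
    have := hNU t
    have : (N t : ℝ) ≤ U := by exact_mod_cast this
    linarith only [this]
  rw [Finset.sum_congr rfl h3, Finset.sum_sub_distrib, Finset.sum_const, card_FF p le_rfl, pow_one]
  have h5 : (∑ t ∈ FF K p 1, (N t : ℝ)) = (p : ℝ) ^ k - 1 := by
    rw [← Nat.cast_sum, hNsum, Nat.cast_sub (Nat.one_le_pow _ _ (by omega))]
    push_cast; ring
  rw [h5, hU, hk]
  simp only [nsmul_eq_mul]
  push_cast
  ring_nf
  exact le_rfl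

/-- The Weil bound over the prime field (inside an algebraically closed field). -/
theorem KS_weil [IsAlgClosed K] (hχ : PChar p χ) {a b : K} (ha : a ∈ FF K p 1)
    (hb : b ∈ FF K p 1) (ha0 : a ≠ 0) (hb0 : b ≠ 0) :
    ‖KS p χ 1 a b‖ ^ 2 ≤ 4 * p := by
  have hp : 1 < p := (Fact.out : p.Prime).one_lt
  have hpR : (1 : ℝ) < p := by exact_mod_cast hp
  by_contra hcon
  push Not at hcon
  set r : ℕ → ℝ := fun j => ‖KS p χ (2 ^ j) a b‖ with hr
  set Q : ℕ → ℝ := fun j => (p : ℝ) ^ (2 ^ j) with hQ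
  have hQpos : ∀ j, 0 < Q j := fun j => by simp only [hQ]; positivity
  have hQs : ∀ j, Q (j + 1) = Q j ^ 2 := by
    intro j; simp only [hQ]; rw [← pow_mul, pow_succ]
  have hrec : ∀ j, r j ^ 2 - 2 * Q j ≤ r (j + 1) := by
    intro j
    have h1 := KS_double p hχ (k := 2 ^ j) (Nat.one_le_two_pow) ha hb ha0 hb0
    simp only [hr, hQ]
    rw [pow_succ 2 j, mul_comm (2 ^ j) 2, h1]
    have h2 := norm_sub_norm_le (KS p χ (2 ^ j) a b ^ 2) (2 * (p : ℂ) ^ (2 ^ j))
    rw [norm_pow, norm_mul, norm_pow, Complex.norm_natCast, Complex.norm_two, norm_sub_rev] at h2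
    exact h2
  set δ0 : ℝ := r 0 ^ 2 / Q 0 - 4 with hδ0
  have hδpos : 0 < δ0 := by
    rw [hδ0, sub_pos, lt_div_iff₀ (hQpos 0)]
    simpa [hr, hQ] using hcon
  have hgrow : ∀ j, (4 + 4 ^ j * δ0) * Q j ≤ r j ^ 2 := by
    intro j
    induction j with
    | zero =>
      rw [hδ0]
      have := hQpos 0
      field_simp
      ring_nf
      exact le_rfl
    | succ j ih =>
      have h1 := hrec j
      have hq := hQpos j
      have h4 : (0 : ℝ) < 4 ^ j * δ0 := by positivity
      have h2 : (2 + 4 ^ j * δ0) * Q j ≤ r (j + 1) := by nlinarith only [ih, h1]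
      have h3 : 0 ≤ (2 + 4 ^ j * δ0) * Q j := by positivity
      have h5 : ((2 + 4 ^ j * δ0) * Q j) ^ 2 ≤ r (j + 1) ^ 2 := pow_le_pow_left₀ h3 h2 2
      rw [hQs]
      refine le_trans ?_ h5
      have h6 : (4 + 4 ^ (j + 1) * δ0) * Q j ^ 2 = (4 + 4 * (4 ^ j * δ0)) * Q j ^ 2 := by ring
      rw [h6, mul_pow]
      have h7 : (0 : ℝ) ≤ Q j ^ 2 := by positivity
      nlinarith only [sq_nonneg (4 ^ j * δ0)]
  have hub : ∀ j, 2 ≤ j → r j ^ 2 ≤ (2 * (p : ℝ) ^ 2 + 1) ^ 2 * Q j := by
    intro j hj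
    obtain ⟨i, rfl⟩ := Nat.exists_eq_add_of_le hj
    set m := 2 ^ (i + 1) - 1 with hm
    have hpow : 2 ≤ 2 ^ (i + 1) := by
      have := Nat.one_le_two_pow (n := i)
      rw [pow_succ]; omega
    have hm1 : 1 ≤ m := by omega
    have hk : 2 ^ (2 + i) = 2 * m + 2 := by
      have : 2 ^ (2 + i) = 2 * 2 ^ (i + 1) := by rw [← pow_succ']; congr 1; omega
      rw [this]; omega
    have h1 := KS_bound p hχ m hm1 ha hb ha0
    simp only [hr, hQ]
    rw [hk]
    have h2 : 2 * (p : ℝ) ^ (m + 3) + 1 ≤ (2 * (p : ℝ) ^ 2 + 1) * (p : ℝ) ^ (m + 1) := by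
      have : (1 : ℝ) ≤ (p : ℝ) ^ (m + 1) := one_le_pow₀ hpR.le
      calc 2 * (p : ℝ) ^ (m + 3) + 1 ≤ 2 * (p : ℝ) ^ (m + 3) + (p : ℝ) ^ (m + 1) := by linarith only [this]
        _ = _ := by ring
    have h3 := pow_le_pow_left₀ (norm_nonneg _) (h1.trans h2) 2
    refine h3.trans (le_of_eq ?_)
    rw [mul_pow, ← pow_mul]
    ring_nf
  -- contradiction
  obtain ⟨n, hn⟩ := exists_nat_gt ((2 * (p : ℝ) ^ 2 + 1) ^ 2 / δ0)
  have h1 := hgrow (n + 2)
  have h2 := hub (n + 2) (by omega)
  have h3 : (4 + 4 ^ (n + 2) * δ0) * Q (n + 2) ≤ (2 * (p : ℝ) ^ 2 + 1) ^ 2 * Q (n + 2) := h1.trans h2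
  have h4 := le_of_mul_le_mul_right h3 (hQpos _)
  rw [div_lt_iff₀ hδpos] at hn
  have h5 : (n : ℝ) ≤ 4 ^ (n + 2) := by
    have h6 : n + 2 < 4 ^ (n + 2) := Nat.lt_pow_self (by norm_num)
    have h7 : n ≤ 4 ^ (n + 2) := by omega
    exact_mod_cast h7
  nlinarith only [hn, h4, hδpos, h5]

end growth

/-! ### the prime field `ZMod p` -/

section zmod

variable (p : ℕ) [Fact p.Prime]

/-- **Weil's bound** for Kloosterman sums over `ZMod p`, additive character version. -/
theorem kloosterman_weil (ψ : AddChar (ZMod p) ℂ) (hψ : ψ ≠ 1) (a b : ZMod p) (ha : a ≠ 0) (hb : b ≠ 0) :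
    ‖∑ x ∈ (Finset.univ : Finset (ZMod p)).erase 0, ψ (a * x + b * x⁻¹)‖ ≤ 2 * Real.sqrt p := by
  classical
  let K := AlgebraicClosure (ZMod p)
  let ι : ZMod p →+* K := algebraMap (ZMod p) K
  have hι : Function.Injective ι := ι.injective
  have hCharP : CharP K p := charP_of_injective_algebraMap hι p
  let χ : K → ℂ := fun y => ψ (Function.invFun ι y)
  have hχι : ∀ u, χ (ι u) = ψ u := by
    intro u
    simp only [χ]
    rw [Function.leftInverse_invFun hι u]
  have hmem : ∀ u : ZMod p, ι u ∈ FF K p 1 := by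
    intro u
    rw [mem_FF p le_rfl, pow_one, ← map_pow, ZMod.pow_card]
  have hFF : FF K p 1 = Finset.univ.image ι := by
    symm
    apply Finset.eq_of_subset_of_card_le
    · intro y hy
      rw [mem_image] at hy
      obtain ⟨u, _, rfl⟩ := hy
      exact hmem u
    · rw [card_FF p le_rfl, Finset.card_image_of_injective _ hι, Finset.card_univ, ZMod.card, pow_one]
  have hex : ∀ y ∈ FF K p 1, ∃ u, ι u = y := by
    intro y hy
    rw [hFF, mem_image] at hy
    obtain ⟨u, _, h⟩ := hy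
    exact ⟨u, h⟩
  have hP : PChar p χ := by
    refine ⟨?_, ?_, ?_, ?_⟩
    · intro u hu v hv
      obtain ⟨u, rfl⟩ := hex u hu
      obtain ⟨v, rfl⟩ := hex v hv
      rw [← map_add, hχι, hχι, hχι, AddChar.map_add_eq_mul]
    · rw [← map_zero ι, hχι, AddChar.map_zero_eq_one]
    · intro u hu
      obtain ⟨u, rfl⟩ := hex u hu
      rw [hχι, AddChar.norm_apply]
    · obtain ⟨u, hu⟩ := (AddChar.ne_one_iff).mp hψ
      exact ⟨ι u, hmem u, by rw [hχι]; exact hu⟩
  have hmain := KS_weil p hP (hmem a) (hmem b) (by rw [Ne, map_eq_zero]; exact ha)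
    (by rw [Ne, map_eq_zero]; exact hb)
  have hEq : KS p χ 1 (ι a) (ι b) = ∑ x ∈ (Finset.univ : Finset (ZMod p)).erase 0, ψ (a * x + b * x⁻¹) := by
    unfold KS
    symm
    apply Finset.sum_bij (fun x _ => ι x)
    · intro x hx
      rw [mem_erase] at hx ⊢
      exact ⟨by rw [Ne, map_eq_zero]; exact hx.1, hmem x⟩
    · intro x _ y _ h; exact hι h
    · intro y hy
      rw [mem_erase] at hy
      obtain ⟨u, rfl⟩ := hex y hy.2
      refine ⟨u, ?_, rfl⟩
      rw [mem_erase]
      exact ⟨fun h => hy.1 (by rw [h, map_zero]), Finset.mem_univ _⟩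
    · intro x _
      simp only [TT, Finset.sum_range_one, pow_zero, pow_one]
      rw [← map_inv₀, ← map_mul, ← map_mul, ← map_add, hχι]
  rw [hEq] at hmain
  have hs : ‖∑ x ∈ (Finset.univ : Finset (ZMod p)).erase 0, ψ (a * x + b * x⁻¹)‖ ^ 2 ≤ (2 * Real.sqrt p) ^ 2 := by
    rw [mul_pow, Real.sq_sqrt (Nat.cast_nonneg p)]
    linarith
  exact le_of_sq_le_sq hs (by positivity)

end zmod

end KlWeil

end

end

section

section

open Finset

namespace KlWeil

/-! ### squarefree and squarefull parts (exact prime powers) -/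

/-- product of the primes dividing `q` exactly once -/
def sfPart (q : ℕ) : ℕ := ∏ p ∈ q.primeFactors, if q.factorization p = 1 then p else 1

/-- product of the prime powers `p^k ‖ q` with `k ≥ 2` -/
def sqPart (q : ℕ) : ℕ := ∏ p ∈ q.primeFactors, if q.factorization p = 1 then 1 else p ^ q.factorization p

lemma sfPart_mul_sqPart {q : ℕ} (hq : q ≠ 0) : sfPart q * sqPart q = q := by
  unfold sfPart sqPart
  rw [← Finset.prod_mul_distrib]
  conv_rhs => rw [← Nat.prod_factorization_pow_eq_self hq]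
  rw [Finsupp.prod, Nat.support_factorization]
  refine Finset.prod_congr rfl fun p _ => ?_
  split_ifs with h
  · rw [h]; simp
  · simp

lemma sfPart_pos {q : ℕ} (hq : q ≠ 0) : 0 < sfPart q := by
  rcases Nat.eq_zero_or_pos (sfPart q) with h | h
  · exfalso; apply hq; rw [← sfPart_mul_sqPart hq, h, zero_mul]
  · exact h

lemma sqPart_pos {q : ℕ} (hq : q ≠ 0) : 0 < sqPart q := by
  rcases Nat.eq_zero_or_pos (sqPart q) with h | h
  · exfalso; apply hq; rw [← sfPart_mul_sqPart hq, h, mul_zero]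
  · exact h

lemma fact_left {m n p : ℕ} (h : m.Coprime n) (hp : p ∈ m.primeFactors) :
    (m * n).factorization p = m.factorization p :=
  Nat.factorization_eq_of_coprime_left h (Nat.mem_primeFactors_iff_mem_primeFactorsList.mp hp)

lemma fact_right {m n p : ℕ} (h : m.Coprime n) (hp : p ∈ n.primeFactors) :
    (m * n).factorization p = n.factorization p :=
  Nat.factorization_eq_of_coprime_right h (Nat.mem_primeFactors_iff_mem_primeFactorsList.mp hp)

lemma sfPart_mul {m n : ℕ} (h : m.Coprime n) : sfPart (m * n) = sfPart m * sfPart n := by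
  unfold sfPart
  rw [h.primeFactors_mul, Finset.prod_union h.disjoint_primeFactors]
  congr 1
  · exact Finset.prod_congr rfl fun p hp => by rw [fact_left h hp]
  · exact Finset.prod_congr rfl fun p hp => by rw [fact_right h hp]

lemma sqPart_mul {m n : ℕ} (h : m.Coprime n) : sqPart (m * n) = sqPart m * sqPart n := by
  unfold sqPart
  rw [h.primeFactors_mul, Finset.prod_union h.disjoint_primeFactors]
  congr 1
  · exact Finset.prod_congr rfl fun p hp => by rw [fact_left h hp]
  · exact Finset.prod_congr rfl fun p hp => by rw [fact_right h hp]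

lemma sfPart_prime {p : ℕ} (hp : p.Prime) : sfPart p = p := by
  unfold sfPart
  rw [hp.primeFactors, Finset.prod_singleton, hp.factorization_self, if_pos rfl]

lemma sqPart_prime {p : ℕ} (hp : p.Prime) : sqPart p = 1 := by
  unfold sqPart
  rw [hp.primeFactors, Finset.prod_singleton, hp.factorization_self, if_pos rfl]

lemma sfPart_prime_pow {p k : ℕ} (hp : p.Prime) (hk : 2 ≤ k) : sfPart (p ^ k) = 1 := by
  unfold sfPart
  rw [Nat.primeFactors_prime_pow (by omega) hp, Finset.prod_singleton, hp.factorization_pow]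
  simp; omega

lemma sqPart_prime_pow {p k : ℕ} (hp : p.Prime) (hk : 2 ≤ k) : sqPart (p ^ k) = p ^ k := by
  unfold sqPart
  rw [Nat.primeFactors_prime_pow (by omega) hp, Finset.prod_singleton, hp.factorization_pow]
  simp; omega

/-! ### the sums `V` -/

/-- `V(u,v;w) = ∑_{ab=w} ψ(ua+vb)` -/
noncomputable def VS {q : ℕ} [NeZero q] (ψ : AddChar (ZMod q) ℂ) (u v w : ZMod q) : ℂ :=
  ∑ a : ZMod q, ∑ b : ZMod q, if a * b = w then ψ (u * a + v * b) else 0

/-- number of pairs -/
lemma card_ann {q : ℕ} [NeZero q] (a w : ZMod q) :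
    ((Finset.univ : Finset (ZMod q)).filter (fun b => a * b = w)).card ≤ Nat.gcd a.val q := by
  classical
  rcases ((Finset.univ : Finset (ZMod q)).filter (fun b => a * b = w)).eq_empty_or_nonempty with h | ⟨b0, hb0⟩
  · rw [h]; simp
  rw [mem_filter] at hb0
  have h1 : ((Finset.univ : Finset (ZMod q)).filter (fun b => a * b = w)).card
      ≤ ((Finset.univ : Finset (ZMod q)).filter (fun b => a * b = 0)).card := by
    apply Finset.card_le_card_of_injOn (fun b => b - b0)
    · intro b hb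
      simp only [coe_filter, mem_univ, true_and, Set.mem_ofPred_eq] at hb ⊢
      rw [mul_sub, hb, hb0.2, sub_self]
    · intro b _ b' _ h
      exact sub_left_injective h
  refine h1.trans ?_
  have hq : 0 < q := Nat.pos_of_ne_zero (NeZero.ne q)
  set g := Nat.gcd a.val q with hg
  have hgpos : 0 < g := Nat.gcd_pos_of_pos_right _ hq
  obtain ⟨q', hq'⟩ : g ∣ q := Nat.gcd_dvd_right _ _
  have hq'pos : 0 < q' := by
    rcases Nat.eq_zero_or_pos q' with h | h
    · rw [h, mul_zero] at hq'; omega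
    · exact h
  have h2 : ∀ b : ZMod q, a * b = 0 → q' ∣ b.val := by
    intro b hb
    have h3 : ((a.val * b.val : ℕ) : ZMod q) = 0 := by
      push_cast
      rw [ZMod.natCast_zmod_val, ZMod.natCast_zmod_val, hb]
    rw [ZMod.natCast_eq_zero_iff] at h3
    have h4 : q / g ∣ b.val := by
      have h5 : q / g ∣ (a.val / g) * b.val := by
        have : q / g ∣ (a.val * b.val) / g := Nat.div_dvd_div (Nat.gcd_dvd_right _ _) h3
        rwa [Nat.mul_comm, Nat.mul_div_assoc _ (Nat.gcd_dvd_left _ _), Nat.mul_comm] at this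
      have h6 : Nat.Coprime (q / g) (a.val / g) := (Nat.coprime_div_gcd_div_gcd hgpos).symm
      exact h6.dvd_of_dvd_mul_left h5
    rwa [Nat.div_eq_of_eq_mul_right hgpos hq'] at h4
  calc ((Finset.univ : Finset (ZMod q)).filter (fun b => a * b = 0)).card
      ≤ (Finset.range g).card := by
        apply Finset.card_le_card_of_injOn (fun b => b.val / q')
        · intro b hb
          simp only [coe_filter, mem_univ, true_and, Set.mem_ofPred_eq, coe_range, Set.mem_Iio] at hb ⊢
          have := ZMod.val_lt b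
          rw [Nat.div_lt_iff_lt_mul hq'pos]
          omega
        · intro b hb b' hb' h
          simp only [coe_filter, mem_univ, true_and, Set.mem_ofPred_eq] at hb hb'
          apply ZMod.val_injective q
          have e1 := Nat.div_mul_cancel (h2 b hb)
          have e2 := Nat.div_mul_cancel (h2 b' hb')
          simp only at h
          rw [← e1, ← e2, h]
    _ = g := Finset.card_range g

lemma sum_gcd_le {q : ℕ} (hq : 0 < q) : ∑ a ∈ range q, Nat.gcd a q ≤ q.divisors.card * q := by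
  classical
  have hmaps : ∀ a ∈ range q, Nat.gcd a q ∈ q.divisors := by
    intro a _
    rw [Nat.mem_divisors]
    exact ⟨Nat.gcd_dvd_right _ _, hq.ne'⟩
  rw [← Finset.sum_fiberwise_of_maps_to' (g := fun a => Nat.gcd a q) hmaps (fun g => g)]
  calc ∑ j ∈ q.divisors, ∑ i ∈ range q with Nat.gcd i q = j, j ≤ ∑ j ∈ q.divisors, q := by
        apply Finset.sum_le_sum
        intro g hg
        rw [Nat.mem_divisors] at hg
        obtain ⟨q', hq'⟩ := hg.1
        have hgpos : 0 < g := Nat.pos_of_dvd_of_pos hg.1 hq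
        rw [Finset.sum_const, smul_eq_mul]
        have : (Finset.filter (fun i => Nat.gcd i q = g) (range q)).card ≤ (range q').card := by
          apply Finset.card_le_card_of_injOn (fun i => i / g)
          · intro i hi
            simp only [coe_filter, Set.mem_ofPred_eq, mem_range, coe_range, Set.mem_Iio] at hi ⊢
            rw [Nat.div_lt_iff_lt_mul hgpos, Nat.mul_comm, ← hq']
            exact hi.1
          · intro i hi j hj h
            simp only [coe_filter, Set.mem_ofPred_eq, mem_range] at hi hj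
            have e1 : g ∣ i := hi.2 ▸ Nat.gcd_dvd_left i q
            have e2 : g ∣ j := by
              have := Nat.gcd_dvd_left j q
              rwa [hj.2] at this
            simp only at h
            rw [← Nat.div_mul_cancel e1, ← Nat.div_mul_cancel e2, h]
        rw [Finset.card_range] at this
        calc _ ≤ q' * g := Nat.mul_le_mul_right _ this
          _ = q := by rw [hq', Nat.mul_comm]
    _ = q.divisors.card * q := by rw [Finset.sum_const, smul_eq_mul]

/-- trivial bound -/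
lemma VS_trivial {q : ℕ} [NeZero q] (ψ : AddChar (ZMod q) ℂ) (u v w : ZMod q) :
    ‖VS ψ u v w‖ ≤ q.divisors.card * q := by
  classical
  have hq : 0 < q := Nat.pos_of_ne_zero (NeZero.ne q)
  unfold VS
  have h1 : ∀ a : ZMod q, ‖∑ b : ZMod q, (if a * b = w then ψ (u * a + v * b) else 0)‖ ≤ (Nat.gcd a.val q : ℝ) := by
    intro a
    rw [← Finset.sum_filter]
    refine (norm_sum_le _ _).trans ?_
    have : ∀ b ∈ (Finset.univ : Finset (ZMod q)).filter (fun b => a * b = w), ‖ψ (u * a + v * b)‖ = 1 :=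
      fun b _ => AddChar.norm_apply _ _
    rw [Finset.sum_congr rfl this, Finset.sum_const, nsmul_eq_mul, mul_one]
    exact_mod_cast card_ann a w
  refine (norm_sum_le _ _).trans ((Finset.sum_le_sum fun a _ => h1 a).trans ?_)
  have h2 : ∑ a : ZMod q, (Nat.gcd a.val q : ℝ) = ((∑ a ∈ range q, Nat.gcd a q : ℕ) : ℝ) := by
    push_cast
    apply Finset.sum_bij (fun a _ => a.val)
    · intro a _; rw [mem_range]; exact ZMod.val_lt a
    · intro a _ b _ h; exact ZMod.val_injective q h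
    · intro b hb
      rw [mem_range] at hb
      exact ⟨(b : ZMod q), Finset.mem_univ _, ZMod.val_cast_of_lt hb⟩
    · intro a _; rfl
  rw [h2]
  exact_mod_cast sum_gcd_le hq

/-- prime modulus -/
lemma VS_prime {p : ℕ} [hp : Fact p.Prime] (ψ : AddChar (ZMod p) ℂ) (hψ : ψ ≠ 1) (u v w : ZMod p)
    (hu : u ≠ 0) (hv : v ≠ 0) : ‖VS ψ u v w‖ ≤ 2 * Real.sqrt p := by
  classical
  have hp1 : 1 < p := hp.out.one_lt
  by_cases hw : w = 0
  · -- value -1
    have hV : VS ψ u v w = -1 := by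
      unfold VS
      rw [hw, ← Finset.add_sum_erase _ _ (Finset.mem_univ (0 : ZMod p))]
      have e1 : ∑ b : ZMod p, (if (0 : ZMod p) * b = 0 then ψ (u * 0 + v * b) else 0) = 0 := by
        simp only [zero_mul, if_true, mul_zero, zero_add]
        have := AddChar.sum_mulShift v (ψ := ψ) (AddChar.IsPrimitive.of_ne_one hψ)
        rw [if_neg hv] at this
        simpa [mul_comm] using this
      have e2 : ∀ a ∈ (Finset.univ : Finset (ZMod p)).erase 0,
          ∑ b : ZMod p, (if a * b = 0 then ψ (u * a + v * b) else 0) = ψ (u * a) := by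
        intro a ha
        rw [mem_erase] at ha
        rw [Finset.sum_eq_single 0]
        · simp
        · intro b _ hb
          rw [if_neg]
          exact mul_ne_zero ha.1 hb
        · intro h; exact absurd (Finset.mem_univ _) h
      rw [e1, Finset.sum_congr rfl e2, zero_add]
      have e3 : ∑ a : ZMod p, ψ (u * a) = 0 := by
        have := AddChar.sum_mulShift u (ψ := ψ) (AddChar.IsPrimitive.of_ne_one hψ)
        rw [if_neg hu] at this
        simpa [mul_comm] using this
      rw [← Finset.add_sum_erase _ _ (Finset.mem_univ (0 : ZMod p))] at e3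
      rw [mul_zero, AddChar.map_zero_eq_one] at e3
      linear_combination e3
    rw [hV, norm_neg, norm_one]
    have : (1 : ℝ) ≤ Real.sqrt p := by
      rw [Real.one_le_sqrt]; exact_mod_cast hp1.le
    linarith only [this]
  · have hV : VS ψ u v w = ∑ x ∈ (Finset.univ : Finset (ZMod p)).erase 0, ψ (u * x + (v * w) * x⁻¹) := by
      unfold VS
      rw [← Finset.add_sum_erase _ _ (Finset.mem_univ (0 : ZMod p))]
      have e1 : ∑ b : ZMod p, (if (0 : ZMod p) * b = w then ψ (u * 0 + v * b) else 0) = 0 := by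
        apply Finset.sum_eq_zero
        intro b _
        rw [if_neg]
        rw [zero_mul]; exact fun h => hw h.symm
      rw [e1, zero_add]
      refine Finset.sum_congr rfl fun x hx => ?_
      rw [mem_erase] at hx
      rw [Finset.sum_eq_single (w * x⁻¹)]
      · rw [if_pos (by field_simp [hx.1])]
        congr 1
        ring
      · intro b _ hb
        rw [if_neg]
        intro h
        apply hb
        rw [← h]
        field_simp [hx.1]
      · intro h; exact absurd (Finset.mem_univ _) h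
    rw [hV]
    exact kloosterman_weil p ψ hψ u (v * w) hu (mul_ne_zero hv hw)

/-! ### multiplicativity -/

section crt

variable {m n : ℕ} [NeZero m] [NeZero n]

/-- left component of a character -/
noncomputable def psiL (h : m.Coprime n) (ψ : AddChar (ZMod (m * n)) ℂ) : AddChar (ZMod m) ℂ :=
  ψ.compAddMonoidHom (((ZMod.chineseRemainder h).symm : ZMod m × ZMod n →+ ZMod (m * n)).comp
    (AddMonoidHom.inl (ZMod m) (ZMod n)))

/-- right component of a character -/
noncomputable def psiR (h : m.Coprime n) (ψ : AddChar (ZMod (m * n)) ℂ) : AddChar (ZMod n) ℂ :=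
  ψ.compAddMonoidHom (((ZMod.chineseRemainder h).symm : ZMod m × ZMod n →+ ZMod (m * n)).comp
    (AddMonoidHom.inr (ZMod m) (ZMod n)))

omit [NeZero m] [NeZero n] in
lemma psiL_apply (h : m.Coprime n) (ψ : AddChar (ZMod (m * n)) ℂ) (x : ZMod m) :
    psiL h ψ x = ψ ((ZMod.chineseRemainder h).symm (x, 0)) := rfl

omit [NeZero m] [NeZero n] in
lemma psiR_apply (h : m.Coprime n) (ψ : AddChar (ZMod (m * n)) ℂ) (x : ZMod n) :
    psiR h ψ x = ψ ((ZMod.chineseRemainder h).symm (0, x)) := rfl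

omit [NeZero m] [NeZero n] in
lemma psi_split (h : m.Coprime n) (ψ : AddChar (ZMod (m * n)) ℂ) (x : ZMod m × ZMod n) :
    ψ ((ZMod.chineseRemainder h).symm x) = psiL h ψ x.1 * psiR h ψ x.2 := by
  rw [psiL_apply, psiR_apply, ← AddChar.map_add_eq_mul, ← map_add]
  simp

omit [NeZero m] [NeZero n] in
lemma psiL_prim (h : m.Coprime n) {ψ : AddChar (ZMod (m * n)) ℂ} (hψ : ψ.IsPrimitive) :
    (psiL h ψ).IsPrimitive := by
  intro a ha
  have h1 : (ZMod.chineseRemainder h).symm (a, 0) ≠ 0 := by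
    rw [Ne, map_eq_zero_iff _ (ZMod.chineseRemainder h).symm.injective]
    intro h2; exact ha (congrArg Prod.fst h2)
  have h2 := hψ h1
  rw [AddChar.ne_one_iff] at h2 ⊢
  obtain ⟨z, hz⟩ := h2
  refine ⟨((ZMod.chineseRemainder h) z).1, ?_⟩
  rw [AddChar.mulShift_apply] at hz ⊢
  rw [psiL_apply]
  have h3 : (ZMod.chineseRemainder h).symm (a, 0) * z
      = (ZMod.chineseRemainder h).symm (a * ((ZMod.chineseRemainder h) z).1, 0) := by
    apply (ZMod.chineseRemainder h).injective
    rw [map_mul, RingEquiv.apply_symm_apply, RingEquiv.apply_symm_apply]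
    ext
    · rfl
    · simp
  rw [h3] at hz
  exact hz

omit [NeZero m] [NeZero n] in
lemma psiR_prim (h : m.Coprime n) {ψ : AddChar (ZMod (m * n)) ℂ} (hψ : ψ.IsPrimitive) :
    (psiR h ψ).IsPrimitive := by
  intro a ha
  have h1 : (ZMod.chineseRemainder h).symm (0, a) ≠ 0 := by
    rw [Ne, map_eq_zero_iff _ (ZMod.chineseRemainder h).symm.injective]
    intro h2; exact ha (congrArg Prod.snd h2)
  have h2 := hψ h1
  rw [AddChar.ne_one_iff] at h2 ⊢
  obtain ⟨z, hz⟩ := h2
  refine ⟨((ZMod.chineseRemainder h) z).2, ?_⟩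
  rw [AddChar.mulShift_apply] at hz ⊢
  rw [psiR_apply]
  have h3 : (ZMod.chineseRemainder h).symm (0, a) * z
      = (ZMod.chineseRemainder h).symm (0, a * ((ZMod.chineseRemainder h) z).2) := by
    apply (ZMod.chineseRemainder h).injective
    rw [map_mul, RingEquiv.apply_symm_apply, RingEquiv.apply_symm_apply]
    ext
    · simp
    · rfl
  rw [h3] at hz
  exact hz

lemma VS_mul (h : m.Coprime n) [NeZero (m * n)] (ψ : AddChar (ZMod (m * n)) ℂ) (u v w : ZMod (m * n)) :
    VS ψ u v w = VS (psiL h ψ) ((ZMod.chineseRemainder h) u).1 ((ZMod.chineseRemainder h) v).1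
        ((ZMod.chineseRemainder h) w).1
      * VS (psiR h ψ) ((ZMod.chineseRemainder h) u).2 ((ZMod.chineseRemainder h) v).2
        ((ZMod.chineseRemainder h) w).2 := by
  classical
  set e := ZMod.chineseRemainder h with he
  have hpt : ∀ a b : ZMod m × ZMod n,
      (if e.symm a * e.symm b = w then ψ (u * e.symm a + v * e.symm b) else 0)
        = (if a.1 * b.1 = (e w).1 then psiL h ψ ((e u).1 * a.1 + (e v).1 * b.1) else 0)
          * (if a.2 * b.2 = (e w).2 then psiR h ψ ((e u).2 * a.2 + (e v).2 * b.2) else 0) := by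
    intro a b
    have h1 : e.symm a * e.symm b = w ↔ (a.1 * b.1 = (e w).1 ∧ a.2 * b.2 = (e w).2) := by
      rw [← map_mul, RingEquiv.symm_apply_eq, Prod.ext_iff]
      rfl
    have h2 : u * e.symm a + v * e.symm b = e.symm ((e u) * a + (e v) * b) := by
      apply e.injective
      simp only [map_add, map_mul, RingEquiv.apply_symm_apply]
    rw [h2, he, psi_split h ψ, ← he]
    by_cases hA : a.1 * b.1 = (e w).1
    · by_cases hB : a.2 * b.2 = (e w).2
      · rw [if_pos (h1.mpr ⟨hA, hB⟩), if_pos hA, if_pos hB]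
        rfl
      · rw [if_neg (fun hh => hB (h1.mp hh).2), if_neg hB, mul_zero]
    · rw [if_neg (fun hh => hA (h1.mp hh).1), if_neg hA, zero_mul]
  unfold VS
  rw [← Equiv.sum_comp e.symm.toEquiv]
  have hb : ∀ a : ZMod m × ZMod n, ∑ b : ZMod (m * n), (if e.symm.toEquiv a * b = w then
      ψ (u * e.symm.toEquiv a + v * b) else 0) = ∑ b : ZMod m × ZMod n,
        (if a.1 * b.1 = (e w).1 then psiL h ψ ((e u).1 * a.1 + (e v).1 * b.1) else 0)
          * (if a.2 * b.2 = (e w).2 then psiR h ψ ((e u).2 * a.2 + (e v).2 * b.2) else 0) := by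
    intro a
    rw [← Equiv.sum_comp e.symm.toEquiv]
    exact Finset.sum_congr rfl fun b _ => hpt a b
  rw [Finset.sum_congr rfl fun a _ => hb a]
  rw [Finset.sum_mul_sum, Fintype.sum_prod_type]
  refine Finset.sum_congr rfl fun a1 _ => Finset.sum_congr rfl fun a2 _ => ?_
  rw [Finset.sum_mul_sum, Fintype.sum_prod_type]

end crt

/-- **General bound** for the dual sums. -/
theorem VS_bound : ∀ (q : ℕ) [NeZero q] (ψ : AddChar (ZMod q) ℂ), ψ.IsPrimitive → ∀ (u v : ℤ) (w : ZMod q),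
    ‖VS ψ (u : ZMod q) (v : ZMod q) w‖
      ≤ q.divisors.card * Real.sqrt (sfPart q) * Real.sqrt (Int.gcd (u * v) (sfPart q)) * sqPart q := by
  intro q
  induction q using Nat.recOnPosPrimePosCoprime with
  | zero => intro h; exact absurd rfl (NeZero.ne 0)
  | one =>
    intro _ ψ _ u v w
    refine (VS_trivial ψ _ _ w).trans ?_
    simp [sfPart, sqPart]
  | prime_pow p k hp hk =>
    intro _ ψ hψ u v w
    have : Fact p.Prime := ⟨hp⟩
    rcases Nat.lt_or_ge k 2 with h | h
    · have hk1 : k = 1 := by omega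
      subst hk1
      have key : ∀ (q : ℕ) (hqp : q = p) [NeZero q] (ψ : AddChar (ZMod q) ℂ), ψ.IsPrimitive →
        ∀ (u v : ℤ) (w : ZMod q), ‖VS ψ (u : ZMod q) (v : ZMod q) w‖
          ≤ q.divisors.card * Real.sqrt (sfPart q) * Real.sqrt (Int.gcd (u * v) (sfPart q)) * sqPart q := by
        intro q hqp
        subst hqp
        intro _ ψ hψ u v w
        rw [sfPart_prime hp, sqPart_prime hp, hp.divisors, Finset.card_pair hp.one_lt.ne]
        have hψ1 : ψ ≠ 1 := by
          have := hψ (one_ne_zero)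
          rwa [AddChar.mulShift_one] at this
        by_cases huv : (u : ZMod q) ≠ 0 ∧ (v : ZMod q) ≠ 0
        · have h1 := VS_prime ψ hψ1 (u : ZMod q) (v : ZMod q) w huv.1 huv.2
          have hg : (1 : ℝ) ≤ Real.sqrt (Int.gcd (u * v) q) := by
            rw [Real.one_le_sqrt]
            have : 0 < Int.gcd (u * v) q := Int.gcd_pos_of_ne_zero_right _ (by exact_mod_cast hp.ne_zero)
            exact_mod_cast this
          have h2 : (0 : ℝ) ≤ 2 * Real.sqrt q := by positivity
          push_cast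
          rw [mul_one]
          nlinarith
        · have hdvd : (q : ℤ) ∣ u * v := by
            rw [← ZMod.intCast_zmod_eq_zero_iff_dvd, Int.cast_mul, mul_eq_zero]
            by_contra hcon
            push Not at hcon
            exact huv hcon
          have hg : Int.gcd (u * v) q = q := by
            unfold Int.gcd
            rw [Int.natAbs_natCast]
            exact Nat.gcd_eq_right (by simpa using Int.natAbs_dvd_natAbs.mpr hdvd)
          rw [hg]
          have h1 := VS_trivial ψ (u : ZMod q) (v : ZMod q) w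
          rw [hp.divisors, Finset.card_pair hp.one_lt.ne] at h1
          have h3 : Real.sqrt q * Real.sqrt q = q := Real.mul_self_sqrt (Nat.cast_nonneg q)
          push_cast at h1 ⊢
          rw [mul_one, mul_assoc, h3]
          exact h1
      exact key (p ^ 1) (pow_one p) ψ hψ u v w
    · rw [sfPart_prime_pow hp h, sqPart_prime_pow hp h]
      have h1 := VS_trivial ψ (u : ZMod (p ^ k)) (v : ZMod (p ^ k)) w
      simpa using h1
  | coprime m n hm hn h ihm ihn =>
    intro _ ψ hψ u v w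
    have : NeZero m := ⟨by omega⟩
    have : NeZero n := ⟨by omega⟩
    rw [VS_mul h, norm_mul]
    have e1 : ((ZMod.chineseRemainder h) (u : ZMod (m * n))) = ((u : ZMod m), (u : ZMod n)) := by
      rw [map_intCast]; rfl
    have e2 : ((ZMod.chineseRemainder h) (v : ZMod (m * n))) = ((v : ZMod m), (v : ZMod n)) := by
      rw [map_intCast]; rfl
    rw [e1, e2]
    have h1 := ihm (psiL h ψ) (psiL_prim h hψ) u v ((ZMod.chineseRemainder h) w).1
    have h2 := ihn (psiR h ψ) (psiR_prim h hψ) u v ((ZMod.chineseRemainder h) w).2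
    refine (mul_le_mul h1 h2 (norm_nonneg _) (by positivity)).trans (le_of_eq ?_)
    have hsf : (sfPart m).Coprime (sfPart n) := by
      apply Nat.Coprime.coprime_dvd_left (Dvd.intro _ (sfPart_mul_sqPart (by omega)))
      exact Nat.Coprime.coprime_dvd_right (Dvd.intro _ (sfPart_mul_sqPart (by omega))) h
    have hg : Int.gcd (u * v) (sfPart (m * n)) = Int.gcd (u * v) (sfPart m) * Int.gcd (u * v) (sfPart n) := by
      rw [sfPart_mul h]
      simp only [Int.gcd, Int.natAbs_natCast]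
      exact Nat.Coprime.gcd_mul _ hsf
    rw [hg, sfPart_mul h, sqPart_mul h, h.card_divisors_mul]
    push_cast
    rw [Real.sqrt_mul (by positivity), Real.sqrt_mul (by positivity)]
    ring

end KlWeil

end

end

section

/-!
# Ramanujan sums
-/

open Complex Finset KlWeil
open scoped ComplexConjugate

namespace OOK

variable {q1 q2 : ℕ}

/-- Prime modulus. -/
theorem OK16_prime {p : ℕ} [hp : Fact p.Prime] (ψ : AddChar (ZMod p) ℂ) (hψ : ψ.IsPrimitive)
    (v w : ZMod p) (hw : w ≠ 0) :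
    VS ψ 0 v w = if v = 0 then (p : ℂ) - 1 else -1 := by
  classical
  have hV : VS ψ 0 v w = ∑ x ∈ (Finset.univ : Finset (ZMod p)).erase 0, ψ ((v * w) * x⁻¹) := by
    unfold VS
    rw [← Finset.add_sum_erase _ _ (Finset.mem_univ (0 : ZMod p))]
    have e1 : ∑ b : ZMod p, (if (0 : ZMod p) * b = w then ψ (0 * 0 + v * b) else 0) = 0 := by
      apply Finset.sum_eq_zero
      intro b _
      rw [if_neg]
      rw [zero_mul]; exact fun h => hw h.symm
    rw [e1, zero_add]
    refine Finset.sum_congr rfl fun x hx => ?_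
    rw [mem_erase] at hx
    rw [Finset.sum_eq_single (w * x⁻¹)]
    · rw [if_pos (by field_simp [hx.1])]
      congr 1
      ring
    · intro b _ hb
      rw [if_neg]
      intro h
      apply hb
      rw [← h]
      field_simp [hx.1]
    · intro h; exact absurd (Finset.mem_univ _) h
  rw [hV]
  by_cases hv : v = 0
  · rw [if_pos hv]
    have : ∀ x ∈ (Finset.univ : Finset (ZMod p)).erase 0, ψ ((v * w) * x⁻¹) = 1 := by
      intro x _
      rw [hv, zero_mul, zero_mul, AddChar.map_zero_eq_one]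
    rw [Finset.sum_congr rfl this, Finset.sum_const, Finset.card_erase_of_mem (Finset.mem_univ _),
      Finset.card_univ, ZMod.card, nsmul_eq_mul, mul_one, Nat.cast_sub hp.out.one_le, Nat.cast_one]
  · rw [if_neg hv]
    have hvw : v * w ≠ 0 := mul_ne_zero hv hw
    have e3 : ∑ a : ZMod p, ψ ((v * w) * a⁻¹) = 0 := by
      have h1 := AddChar.sum_mulShift (v * w) (ψ := ψ) hψ
      rw [if_neg hvw] at h1
      have h2 : ∑ a : ZMod p, ψ ((v * w) * a⁻¹) = ∑ a : ZMod p, ψ (a * (v * w)) := by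
        refine Fintype.sum_equiv ⟨fun a => a⁻¹, fun a => a⁻¹, fun a => inv_inv a, fun a => inv_inv a⟩ _ _ fun a => ?_
        change ψ ((v * w) * a⁻¹) = ψ (a⁻¹ * (v * w))
        rw [mul_comm]
      rw [h2]
      simpa using h1
    rw [← Finset.add_sum_erase _ _ (Finset.mem_univ (0 : ZMod p))] at e3
    rw [inv_zero, mul_zero, AddChar.map_zero_eq_one] at e3
    linear_combination e3

/-- Squarefree modulus, `w` a unit: induction `Nat.recOnPosPrimePosCoprime` as in `VS_bound`
(Part08; `VS_mul`, `psiL_prim`, `psiR_prim`); for a prime `p`: `VS ψ 0 l w = ∑_{y ≠ 0} ψ(l y)` is `p - 1`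
if `l = 0` and `-1` otherwise. -/
theorem VS_zero_left : ∀ (q : ℕ) [NeZero q], Squarefree q → ∀ (ψ : AddChar (ZMod q) ℂ),
    ψ.IsPrimitive → ∀ (l : ℕ) (w : ZMod q), IsUnit w →
      ‖VS ψ 0 (l : ZMod q) w‖ ≤ Nat.gcd l q := by
  intro q
  induction q using Nat.recOnPosPrimePosCoprime with
  | zero => intro h; exact absurd rfl (NeZero.ne 0)
  | one =>
    intro _ _ ψ _ l w _
    refine (VS_trivial ψ _ _ w).trans ?_
    simp
  | prime_pow p k hp hk =>
    intro _ hsq ψ hψ l w hw
    have : Fact p.Prime := ⟨hp⟩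
    have hk1 : k = 1 := by
      by_contra hne
      have h2 : 2 ≤ k := by omega
      have h3 : p * p ∣ p ^ k := by
        rw [← sq]
        exact pow_dvd_pow p h2
      exact hp.one_lt.ne' (Nat.isUnit_iff.1 (hsq p h3))
    subst hk1
    have key : ∀ (q : ℕ) (hqp : q = p) [NeZero q] (ψ : AddChar (ZMod q) ℂ), ψ.IsPrimitive →
        ∀ (l : ℕ) (w : ZMod q), IsUnit w → ‖VS ψ 0 (l : ZMod q) w‖ ≤ Nat.gcd l q := by
      intro q hqp
      subst hqp
      intro _ ψ hψ l w hw
      rw [OK16_prime ψ hψ _ _ hw.ne_zero]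
      by_cases hl : (l : ZMod q) = 0
      · rw [if_pos hl]
        rw [ZMod.natCast_eq_zero_iff] at hl
        rw [Nat.gcd_eq_right hl]
        have h1 : ((q : ℂ) - 1) = ((q - 1 : ℕ) : ℂ) := by
          rw [Nat.cast_sub hp.one_le, Nat.cast_one]
        rw [h1, Complex.norm_natCast]
        exact_mod_cast Nat.sub_le q 1
      · rw [if_neg hl, norm_neg, norm_one]
        have h1 : 0 < Nat.gcd l q := Nat.gcd_pos_of_pos_right _ hp.pos
        exact_mod_cast h1
    exact key (p ^ 1) (pow_one p) ψ hψ l w hw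
  | coprime m n hm hn h ihm ihn =>
    intro _ hsq ψ hψ l w hw
    have : NeZero m := ⟨by omega⟩
    have : NeZero n := ⟨by omega⟩
    rw [VS_mul h, norm_mul]
    have e1 : ((ZMod.chineseRemainder h) (l : ZMod (m * n))) = ((l : ZMod m), (l : ZMod n)) := by
      rw [map_natCast]; rfl
    have e2 : ((ZMod.chineseRemainder h) (0 : ZMod (m * n))) = ((0 : ZMod m), (0 : ZMod n)) := by
      rw [map_zero]; rfl
    rw [e1, e2]
    have hsm : Squarefree m := hsq.squarefree_of_dvd (Dvd.intro _ rfl)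
    have hsn : Squarefree n := hsq.squarefree_of_dvd (Dvd.intro_left _ rfl)
    have hu : IsUnit ((ZMod.chineseRemainder h) w) := hw.map (ZMod.chineseRemainder h)
    have hu1 : IsUnit ((ZMod.chineseRemainder h) w).1 := (Prod.isUnit_iff.1 hu).1
    have hu2 : IsUnit ((ZMod.chineseRemainder h) w).2 := (Prod.isUnit_iff.1 hu).2
    have h1 := ihm hsm (psiL h ψ) (psiL_prim h hψ) l ((ZMod.chineseRemainder h) w).1 hu1
    have h2 := ihn hsn (psiR h ψ) (psiR_prim h hψ) l ((ZMod.chineseRemainder h) w).2 hu2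
    refine (mul_le_mul h1 h2 (norm_nonneg _) (by positivity)).trans (le_of_eq ?_)
    rw [Nat.Coprime.gcd_mul _ h, Nat.cast_mul]

/-- `VS ψ k l w = VS ψ l k w` (exchange the two variables). -/
theorem VS_zero_right (q : ℕ) [NeZero q] (hq : Squarefree q) (ψ : AddChar (ZMod q) ℂ)
    (hψ : ψ.IsPrimitive) (k : ℕ) (w : ZMod q) (hw : IsUnit w) :
      ‖VS ψ (k : ZMod q) 0 w‖ ≤ Nat.gcd k q := by
  have h1 : VS ψ (k : ZMod q) 0 w = VS ψ 0 (k : ZMod q) w := by
    unfold VS
    rw [Finset.sum_comm]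
    refine Finset.sum_congr rfl fun b _ => Finset.sum_congr rfl fun a _ => ?_
    rw [mul_comm a b, add_comm]
  rw [h1]
  exact VS_zero_left q hq ψ hψ k w hw

end OOK

end
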