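import Pool.Agent.Lib.MP_0f5a55_nt.OM.K000
import Pool.Agent.Lib.MP_0f5a55_nt.OM.K004
import Pool.Agent.Lib.MP_0f5a55_nt.OM.K009
import Pool.Agent.Lib.MP_0f5a55_nt.OM.K017

section

/-! # Row OE06: splitting a double series according to a linear form, and reindexing -/

open Complex MeasureTheory Set Filter Topology
open scoped ComplexConjugate

namespace OO

private theorem E_split_aux {f : ℕ × ℕ → ℂ} (hf : Summable f) (u v : ℕ × ℕ → ℕ) :
    (Summable fun q : ℕ × (ℕ × ℕ) => if u q.2 = v q.2 + (q.1 + 1) then f q.2 else 0) := by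
  have hinj : Function.Injective (fun p : ℕ × ℕ => ((u p - v p - 1, p) : ℕ × (ℕ × ℕ))) := by
    intro p p' h
    exact (Prod.ext_iff.1 h).2
  rw [← hinj.summable_iff]
  · apply Summable.of_norm
    apply Summable.of_nonneg_of_le (fun _ => norm_nonneg _) _ hf.norm
    intro p
    simp only [Function.comp]
    split_ifs
    · exact le_rfl
    · simp
  · rintro ⟨r, p⟩ hq
    simp only
    rw [if_neg]
    intro h
    apply hq
    exact ⟨p, by simp only [Prod.mk.injEq, and_true]; omega⟩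

/-- PROOF. `f` is summable and `ℂ`-valued, so `‖f‖` is summable (`Summable.norm`). The family
`(r, p) ↦ if a*p.1 = c*p.2 + (r+1) then f p else 0` on `ℕ × (ℕ × ℕ)` is summable: its norm has, for each `p`, at most one nonzero value of `r`
(namely `r = a*p.1 - c*p.2 - 1`), so it is summable by `summable_prod_of_nonneg` after exchanging the roles
(`Summable.prod_symm`), or by injectivity of `p ↦ (r(p), p)` (`Function.Injective.summable_iff`).
Same for the third family. Then `∑' r, ∑' p = ∑' p, ∑' r` (`Summable.tsum_comm`), and for each `p` exactly one of the three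
alternatives `a*p.1 = c*p.2`, `∃! r, a*p.1 = c*p.2+(r+1)`, `∃! r, c*p.2 = a*p.1+(r+1)` holds (`tsum_eq_single`). Add (`Summable.tsum_add`). -/
theorem E_split {f : ℕ × ℕ → ℂ} (hf : Summable f) (a c : ℕ) :
    (Summable fun r : ℕ => ∑' p : ℕ × ℕ, if a * p.1 = c * p.2 + (r + 1) then f p else 0) ∧
    (Summable fun r : ℕ => ∑' p : ℕ × ℕ, if c * p.2 = a * p.1 + (r + 1) then f p else 0) ∧
    ∑' p, f p = (∑' p : ℕ × ℕ, if a * p.1 = c * p.2 then f p else 0) +
      (∑' r : ℕ, ∑' p : ℕ × ℕ, if a * p.1 = c * p.2 + (r + 1) then f p else 0) +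
      ∑' r : ℕ, ∑' p : ℕ × ℕ, if c * p.2 = a * p.1 + (r + 1) then f p else 0 := by
  have h1 := E_split_aux hf (fun p => a * p.1) (fun p => c * p.2)
  have h2 := E_split_aux hf (fun p => c * p.2) (fun p => a * p.1)
  try simp only at h1 h2
  refine ⟨h1.prod, h2.prod, ?_⟩
  have key : ∀ u v : ℕ × ℕ → ℕ,
      (Summable fun q : ℕ × (ℕ × ℕ) => if u q.2 = v q.2 + (q.1 + 1) then f q.2 else 0) →
      (∑' r : ℕ, ∑' p : ℕ × ℕ, if u p = v p + (r + 1) then f p else 0) =
        ∑' p : ℕ × ℕ, if v p < u p then f p else 0 := by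
    intro u v h
    rw [← Summable.tsum_comm (f := fun (r : ℕ) (p : ℕ × ℕ) => if u p = v p + (r + 1) then f p else 0) h]
    apply tsum_congr
    intro p
    by_cases hp : v p < u p
    · rw [if_pos hp, tsum_eq_single (u p - v p - 1)]
      · rw [if_pos (by omega)]
      · intro r hr
        rw [if_neg (by omega)]
    · rw [if_neg hp]
      have : ∀ r : ℕ, (if u p = v p + (r + 1) then f p else 0) = 0 := by
        intro r
        rw [if_neg (by omega)]
      simp only [this, tsum_zero]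
  rw [key (fun p => a * p.1) (fun p => c * p.2) h1, key (fun p => c * p.2) (fun p => a * p.1) h2]
  have hs : ∀ P : ℕ × ℕ → Prop, ∀ _ : DecidablePred P,
      Summable fun p : ℕ × ℕ => if P p then f p else 0 := by
    intro P _
    apply Summable.of_norm
    apply Summable.of_nonneg_of_le (fun _ => norm_nonneg _) _ hf.norm
    intro p
    split_ifs
    · exact le_rfl
    · simp
  rw [← Summable.tsum_add (hs _ _) (hs _ _), ← Summable.tsum_add ((hs _ _).add (hs _ _)) (hs _ _)]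
  apply tsum_congr
  intro p
  rcases lt_trichotomy (a * p.1) (c * p.2) with h | h | h
  · rw [if_neg (by omega), if_neg (by omega), if_pos h]
    simp
  · rw [if_pos h, if_neg (by omega), if_neg (by omega)]
    simp
  · rw [if_neg (by omega), if_pos h, if_neg (by omega)]
    simp

/-- PROOF. For `a ≥ 1` the map `n ↦ ((c*n+s)/a, n)` on `{n | a ∣ c*n+s}` is a bijection onto `{p | a*p.1 = c*p.2+s}` (inverse `p ↦ p.2`).
Use `tsum_eq_tsum_of_ne_zero_bij` or `Summable.tsum_comm`-free: `Function.Injective.tsum_eq` for `n ↦ ((c*n+s)/a, n)`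
(injective; the support of the left function is contained in its range), then compare terms: `a * ((c*n+s)/a) = c*n+s ↔ a ∣ c*n+s`. -/
theorem E_reindex (f : ℕ × ℕ → ℂ) {a : ℕ} (ha : 1 ≤ a) (c s : ℕ) :
    (∑' p : ℕ × ℕ, if a * p.1 = c * p.2 + s then f p else 0) =
      ∑' n : ℕ, if a ∣ c * n + s then f ((c * n + s) / a, n) else 0 := by
  have hinj : Function.Injective (fun n : ℕ => (((c * n + s) / a, n) : ℕ × ℕ)) := by
    intro n n' h
    exact (Prod.ext_iff.1 h).2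
  have hsup : Function.support (fun p : ℕ × ℕ => if a * p.1 = c * p.2 + s then f p else 0) ⊆
      Set.range (fun n : ℕ => (((c * n + s) / a, n) : ℕ × ℕ)) := by
    rintro ⟨m, n⟩ h
    have h2 : a * m = c * n + s := by
      by_contra h3
      apply h
      simp only
      rw [if_neg h3]
    refine ⟨n, ?_⟩
    simp only [Prod.mk.injEq, and_true]
    rw [← h2, Nat.mul_div_cancel_left _ (by omega)]
  rw [← hinj.tsum_eq hsup]
  apply tsum_congr
  intro n
  simp only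
  by_cases h : a ∣ c * n + s
  · rw [if_pos h, if_pos (Nat.mul_div_cancel' h)]
  · rw [if_neg h, if_neg]
    intro h2
    exact h ⟨_, h2.symm⟩

end OO

end

section

/-!
# Row OP14a: the mollifier and the cutoff
-/

open Complex MeasureTheory Set Filter Topology
open scoped ComplexConjugate

namespace OO

theorem P14a_aux_le (f : ℕ → ℂ) (hf : ∀ n, ‖f n‖ ≤ 1) (l : ℝ) (hl : 0 < l) (n : ℕ) :
    ‖MA f 0 (1 / l) n‖ ≤ 1 := by
  change ‖(if Squarefree n then
    (-1/2 : ℂ) ^ n.primeFactors.card * f n * (n : ℂ) ^ (-(0 : ℂ)) *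
      (LZ.wt ((1 / l) * Real.log n) : ℂ) else 0)‖ ≤ 1
  split_ifs with h
  · rw [neg_zero, Complex.cpow_zero, mul_one, norm_mul, norm_mul, norm_pow]
    have h1 : ‖(-1/2 : ℂ)‖ ^ n.primeFactors.card ≤ 1 := by
      apply pow_le_one₀ (norm_nonneg _)
      norm_num
    have hlog : 0 ≤ Real.log n := Real.log_natCast_nonneg n
    have h2 : ‖((LZ.wt ((1 / l) * Real.log n) : ℝ) : ℂ)‖ ≤ 1 := by
      have hx : 0 ≤ 1 / l * Real.log n := by positivity
      rw [Complex.norm_real, Real.norm_eq_abs, LZ.wt, abs_of_nonneg (by positivity)]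
      apply pow_le_one₀ (le_max_left _ _)
      exact max_le (by norm_num) (by linarith)
    calc ‖(-1/2 : ℂ)‖ ^ n.primeFactors.card * ‖f n‖ * ‖((LZ.wt ((1 / l) * Real.log n) : ℝ) : ℂ)‖
        ≤ 1 * 1 * 1 := by
          apply mul_le_mul (mul_le_mul h1 (hf n) (norm_nonneg _) zero_le_one) h2 (norm_nonneg _)
          norm_num
      _ = 1 := by norm_num
  · simp

theorem P14a_aux_supp (f : ℕ → ℂ) (l : ℝ) (hl : 0 < l) (n : ℕ) (h : l ≤ Real.log n) :
    MA f 0 (1 / l) n = 0 := by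
  change (if Squarefree n then
    (-1/2 : ℂ) ^ n.primeFactors.card * f n * (n : ℂ) ^ (-(0 : ℂ)) *
      (LZ.wt ((1 / l) * Real.log n) : ℂ) else 0) = 0
  have hw : LZ.wt ((1 / l) * Real.log n) = 0 := by
    have h1 : 1 ≤ 1 / l * Real.log n := by
      rw [one_div, inv_mul_eq_div, le_div_iff₀ hl]
      linarith
    rw [LZ.wt, max_eq_left (by linarith)]
    norm_num
  rw [hw]
  simp

/-- OP14a. PROOF. `MA f 0 (1/l)` is supported on the squarefree `n` with `log n < l` (`LZ.wt x = 0` for `x ≥ 1`), and `‖MA f 0 (1/l) n‖ ≤ 1`. The convolution: support `n < e^(2l)`, and `‖β(n)‖ ≤ ∑_(d e = n) 1 ≤ n`. -/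
theorem P14_beta (f1 f2 : ℕ → ℂ) (hf1 : ∀ n, ‖f1 n‖ ≤ 1) (hf2 : ∀ n, ‖f2 n‖ ≤ 1) (l : ℝ) (hl : 0 < l) :
    (∀ h, ‖beta f1 f2 l h‖ ≤ h) ∧ ∀ h, Hl l < h → beta f1 f2 l h = 0 := by
  constructor
  · intro h
    rw [beta, ArithmeticFunction.mul_apply]
    calc ‖∑ x ∈ h.divisorsAntidiagonal, MA f1 0 (1 / l) x.1 * MA f2 0 (1 / l) x.2‖
        ≤ ∑ x ∈ h.divisorsAntidiagonal, (1 : ℝ) := by
          apply norm_sum_le_of_le
          intro x _
          rw [norm_mul]
          exact mul_le_one₀ (P14a_aux_le f1 hf1 l hl _) (norm_nonneg _) (P14a_aux_le f2 hf2 l hl _)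
      _ = ((h.divisorsAntidiagonal.card : ℕ) : ℝ) := by simp
      _ ≤ h := by
          have h1 : h.divisorsAntidiagonal.card = h.divisors.card := by
            rw [← Nat.map_div_right_divisors, Finset.card_map]
          rw [h1]
          exact_mod_cast Nat.card_divisors_le_self h
  · intro h hh
    rw [beta, ArithmeticFunction.mul_apply]
    apply Finset.sum_eq_zero
    intro x hx
    obtain ⟨hx1, hx0⟩ := Nat.mem_divisorsAntidiagonal.1 hx
    have hlt : Real.exp (2 * l) < h := Nat.lt_of_floor_lt hh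
    have hlog : 2 * l < Real.log h := by
      rw [Real.lt_log_iff_exp_lt (lt_trans (Real.exp_pos _) hlt)]
      exact hlt
    have hx1' : (x.1 : ℝ) ≠ 0 := by
      intro h0
      rw [Nat.cast_eq_zero] at h0
      rw [h0, zero_mul] at hx1
      exact hx0 hx1.symm
    have hx2' : (x.2 : ℝ) ≠ 0 := by
      intro h0
      rw [Nat.cast_eq_zero] at h0
      rw [h0, mul_zero] at hx1
      exact hx0 hx1.symm
    have hsum : Real.log h = Real.log x.1 + Real.log x.2 := by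
      rw [← hx1, Nat.cast_mul, Real.log_mul hx1' hx2']
    rcases le_or_gt l (Real.log x.1) with h1 | h1
    · rw [P14a_aux_supp f1 l hl _ h1, zero_mul]
    · have h2 : l ≤ Real.log x.2 := by linarith
      rw [P14a_aux_supp f2 l hl _ h2, mul_zero]

end OO

end

section

/-!
# Factorisation of the Fourier transform
-/

open Complex Finset KlWeil
open scoped ComplexConjugate

namespace OOK

variable {q1 q2 : ℕ}

theorem KK_crt (χ1 : DirichletCharacter ℂ q1) (χ2 : DirichletCharacter ℂ q2) {b r A C1 C2 : ℕ}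
    [NeZero C1] [NeZero C2] [NeZero (C1 * C2)] (h : C1.Coprime C2) (hA : 0 < A) (hq1 : 0 < q1)
    (hq2 : 0 < q2) (hc : A * (q1 * q2) = C1 * C2) (hC1 : C1 ∣ A) (hb : C1.Coprime b)
    (hr : C1.Coprime r) : ∃ (w : ZMod C1) (G : ZMod C2 → ZMod C2 → ℂ), IsUnit w ∧
      (∀ x y, ‖G x y‖ ≤ 1) ∧ ∀ x y : ZMod (C1 * C2), KK χ1 χ2 b r A (C1 * C2) x y =
        if (ZMod.chineseRemainder h x).1 * (ZMod.chineseRemainder h y).1 = w then
          G (ZMod.chineseRemainder h x).2 (ZMod.chineseRemainder h y).2 else 0 := by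
  obtain ⟨A', hA'⟩ := hC1
  have hC1pos : 0 < C1 := Nat.pos_of_ne_zero (NeZero.ne C1)
  have hA'pos : 0 < A' := by
    rcases Nat.eq_zero_or_pos A' with h0 | h0
    · rw [h0, mul_zero] at hA'; omega
    · exact h0
  have hC2 : A' * (q1 * q2) = C2 := by
    have h1 : C1 * (A' * (q1 * q2)) = C1 * C2 := by rw [← hc, hA', mul_assoc]
    exact Nat.eq_of_mul_eq_mul_left hC1pos h1
  have hd1 : q1 ∣ C2 := ⟨A' * q2, by rw [← hC2]; ring⟩
  have hd2 : q2 ∣ C2 := ⟨A' * q1, by rw [← hC2]; ring⟩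
  have hdA : A' ∣ C2 := ⟨q1 * q2, hC2.symm⟩
  have hcopA : C1.Coprime A' := Nat.Coprime.coprime_dvd_right hdA h
  have hcopq : C1.Coprime q2 := Nat.Coprime.coprime_dvd_right hd2 h
  -- units
  have hbu : IsUnit (b : ZMod C1) := (ZMod.isUnit_iff_coprime b C1).2 hb.symm
  have hru : IsUnit (r : ZMod C1) := (ZMod.isUnit_iff_coprime r C1).2 hr.symm
  have hCu : IsUnit (C1 : ZMod q2) := (ZMod.isUnit_iff_coprime C1 q2).2 hcopq
  obtain ⟨bu, hbu'⟩ := hbu
  obtain ⟨Cu, hCu'⟩ := hCu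
  refine ⟨-(r : ZMod C1) * (bu⁻¹ : (ZMod C1)ˣ), fun x y => if A' ∣ b * (x.val * y.val) + r then
      χ2 ((Cu⁻¹ : (ZMod q2)ˣ) * (((b * (x.val * y.val) + r) / A' : ℕ) : ZMod q2)) *
        (conj (χ1 (x.val : ℕ)) * conj (χ2 (y.val : ℕ))) else 0, ?_, ?_, ?_⟩
  · exact (hru.neg).mul (Units.isUnit _)
  · intro x y
    dsimp only
    split_ifs
    · rw [norm_mul, norm_mul, RCLike.norm_conj, RCLike.norm_conj]
      have h1 := χ1.norm_le_one ((x.val : ℕ) : ZMod q1)
      have h2 := χ2.norm_le_one ((y.val : ℕ) : ZMod q2)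
      have h3 := χ2.norm_le_one ((Cu⁻¹ : (ZMod q2)ˣ) *
        (((b * (x.val * y.val) + r) / A' : ℕ) : ZMod q2))
      exact mul_le_one₀ h3 (by positivity) (mul_le_one₀ h1 (norm_nonneg _) h2)
    · simp
  · intro x y
    obtain ⟨s, hs⟩ : ∃ s : ℕ, s = x.val := ⟨_, rfl⟩
    obtain ⟨t, ht⟩ : ∃ t : ℕ, t = y.val := ⟨_, rfl⟩
    have hx : x = ((s : ℕ) : ZMod (C1 * C2)) := by rw [hs, ZMod.natCast_zmod_val]
    have hy : y = ((t : ℕ) : ZMod (C1 * C2)) := by rw [ht, ZMod.natCast_zmod_val]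
    have ex : ZMod.chineseRemainder h x = (((s : ℕ) : ZMod C1), ((s : ℕ) : ZMod C2)) := by
      rw [hx, map_natCast]; rfl
    have ey : ZMod.chineseRemainder h y = (((t : ℕ) : ZMod C1), ((t : ℕ) : ZMod C2)) := by
      rw [hy, map_natCast]; rfl
    rw [ex, ey]
    unfold KK
    rw [← hs, ← ht]
    dsimp only
    rw [ZMod.val_natCast, ZMod.val_natCast, OK08_cast_mod hd1, OK08_cast_mod hd2]
    -- the condition modulo `C1`
    have hcond1 : (s : ZMod C1) * (t : ZMod C1) = -(r : ZMod C1) * (bu⁻¹ : (ZMod C1)ˣ) ↔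
        C1 ∣ b * (s * t) + r := by
      rw [← ZMod.natCast_eq_zero_iff, Units.eq_mul_inv_iff_mul_eq]
      push_cast
      rw [← hbu', add_comm, ← eq_neg_iff_add_eq_zero]
      constructor
      · intro h1
        have h2 := congrArg Neg.neg h1
        rw [neg_neg] at h2
        rw [← h2]; ring
      · intro h1
        rw [h1]; ring
    have hmod : b * (s % C2 * (t % C2)) + r ≡ b * (s * t) + r [MOD C2] :=
      (((Nat.mod_modEq s C2).mul (Nat.mod_modEq t C2)).mul_left b).add_right r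
    have hcond2 : A' ∣ b * (s % C2 * (t % C2)) + r ↔ A' ∣ b * (s * t) + r :=
      (hmod.of_dvd hdA).dvd_iff dvd_rfl
    have hcondA : A ∣ b * (s * t) + r ↔ C1 ∣ b * (s * t) + r ∧ A' ∣ b * (s * t) + r := by
      rw [hA']
      constructor
      · intro h1
        exact ⟨(Dvd.intro _ rfl).trans h1, (Dvd.intro_left _ rfl).trans h1⟩
      · intro h1
        exact Nat.Coprime.mul_dvd_of_dvd_of_dvd hcopA h1.1 h1.2
    by_cases h1 : C1 ∣ b * (s * t) + r
    · rw [if_pos (hcond1.2 h1)]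
      by_cases h2 : A' ∣ b * (s * t) + r
      · rw [if_pos (hcondA.2 ⟨h1, h2⟩), if_pos (hcond2.2 h2)]
        congr 2
        obtain ⟨k, hk⟩ := hcondA.2 ⟨h1, h2⟩
        obtain ⟨k', hk'⟩ := hcond2.2 h2
        rw [hk, hk', Nat.mul_div_cancel_left _ hA, Nat.mul_div_cancel_left _ hA'pos]
        rw [hk, hk', hA', ← hC2, mul_comm C1 A', mul_assoc] at hmod
        have h3 : k' ≡ C1 * k [MOD q1 * q2] := Nat.ModEq.mul_left_cancel' hA'pos.ne' hmod
        have h4 : ((k' : ℕ) : ZMod q2) = ((C1 * k : ℕ) : ZMod q2) := by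
          rw [ZMod.natCast_eq_natCast_iff]
          exact h3.of_dvd ⟨q1, by ring⟩
        rw [h4, Nat.cast_mul, ← hCu', Units.inv_mul_cancel_left]
      · rw [if_neg (fun h3 => h2 (hcondA.1 h3).2), if_neg (fun h3 => h2 (hcond2.1 h3))]
    · rw [if_neg (fun h3 => h1 (hcond1.1 h3)), if_neg (fun h3 => h1 (hcondA.1 h3).1)]

/-- CRT for `c = C₁ C₂`: `x ↔ (x₁, x₂)`. As `A = C₁ A'` with `gcd(C₁, C₂) = 1`, `C₂ = A' q1 q2`:
`A ∣ b x y + r` iff `b x₁ y₁ + r = 0` in `ZMod C₁` (i.e. `x₁ y₁ = w := -r b⁻¹`, a unit) and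
`A' ∣ b x y + r`, and the remaining factors depend on `(x₂, y₂)` only: `χ₁(x)`, `χ₂(y)` on `x, y`
modulo `q1`, `q2`, which divide `C₂`, and `(b x y + r) / A` modulo `q2` is determined by
`(b x y + r) / A'` modulo `q2` divided by the unit `C₁` of `ZMod q2`. So for fixed `(x₂, y₂)` the sum
over `(x₁, y₁)` is a constant of modulus `≤ 1` times `VS (psiL ψ) k₁ l₁ w` (Part08: `VS`, `psiL`,
`psi_split`), and there are `C₂²` pairs `(x₂, y₂)`. -/
theorem Khat_le_VS (χ1 : DirichletCharacter ℂ q1) (χ2 : DirichletCharacter ℂ q2) {b r A C1 C2 : ℕ}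
    [NeZero C1] [NeZero C2] [NeZero (C1 * C2)] (h : C1.Coprime C2) (hA : 0 < A) (hq1 : 0 < q1)
    (hq2 : 0 < q2) (hc : A * (q1 * q2) = C1 * C2) (hC1 : C1 ∣ A) (hb : C1.Coprime b)
    (hr : C1.Coprime r) : ∃ w : ZMod C1, IsUnit w ∧ ∀ k l : ZMod (C1 * C2),
      ‖Khat (KK χ1 χ2 b r A (C1 * C2)) k l‖ ≤ (C2 : ℝ) ^ 2 *
        ‖VS (psiL h (ZMod.stdAddChar : AddChar (ZMod (C1 * C2)) ℂ)) (k.val : ZMod C1)
          (l.val : ZMod C1) w‖ := by
  classical
  obtain ⟨w, G, hw, hG, hK⟩ := KK_crt χ1 χ2 h hA hq1 hq2 hc hC1 hb hr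
  refine ⟨w, hw, fun k l => ?_⟩
  set ψ : AddChar (ZMod (C1 * C2)) ℂ := ZMod.stdAddChar with hψ
  set e := ZMod.chineseRemainder h with he
  have ek : (e k).1 = (k.val : ZMod C1) := by
    conv_lhs => rw [← ZMod.natCast_zmod_val k, map_natCast]
    rfl
  have el : (e l).1 = (l.val : ZMod C1) := by
    conv_lhs => rw [← ZMod.natCast_zmod_val l, map_natCast]
    rfl
  have hpt : ∀ a c : ZMod C1 × ZMod C2,
      KK χ1 χ2 b r A (C1 * C2) (e.symm a) (e.symm c) * ψ (k * e.symm a + l * e.symm c)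
        = (if a.1 * c.1 = w then psiL h ψ ((e k).1 * a.1 + (e l).1 * c.1) else 0)
          * (G a.2 c.2 * psiR h ψ ((e k).2 * a.2 + (e l).2 * c.2)) := by
    intro a c
    have h2 : k * e.symm a + l * e.symm c = e.symm ((e k) * a + (e l) * c) := by
      apply e.injective
      simp only [map_add, map_mul, RingEquiv.apply_symm_apply]
    rw [h2, he, psi_split h ψ, ← he, hK, RingEquiv.apply_symm_apply,
      RingEquiv.apply_symm_apply]
    by_cases hA : a.1 * c.1 = w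
    · rw [if_pos hA, if_pos hA]
      simp only [Prod.fst_add, Prod.fst_mul, Prod.snd_add, Prod.snd_mul]
      ring
    · rw [if_neg hA, if_neg hA, zero_mul, zero_mul]
  have hkey : Khat (KK χ1 χ2 b r A (C1 * C2)) k l = VS (psiL h ψ) (e k).1 (e l).1 w *
      ∑ a : ZMod C2, ∑ c : ZMod C2, G a c * psiR h ψ ((e k).2 * a + (e l).2 * c) := by
    unfold Khat VS
    rw [← Equiv.sum_comp e.symm.toEquiv]
    have hb : ∀ a : ZMod C1 × ZMod C2, ∑ y : ZMod (C1 * C2),
        KK χ1 χ2 b r A (C1 * C2) (e.symm.toEquiv a) y * ψ (k * e.symm.toEquiv a + l * y)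
        = ∑ c : ZMod C1 × ZMod C2,
          (if a.1 * c.1 = w then psiL h ψ ((e k).1 * a.1 + (e l).1 * c.1) else 0)
          * (G a.2 c.2 * psiR h ψ ((e k).2 * a.2 + (e l).2 * c.2)) := by
      intro a
      rw [← Equiv.sum_comp e.symm.toEquiv]
      exact Finset.sum_congr rfl fun c _ => hpt a c
    rw [Finset.sum_congr rfl fun a _ => hb a]
    rw [Finset.sum_mul_sum, Fintype.sum_prod_type]
    refine Finset.sum_congr rfl fun a1 _ => Finset.sum_congr rfl fun a2 _ => ?_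
    rw [Finset.sum_mul_sum, Fintype.sum_prod_type]
  rw [hkey, norm_mul, ek, el, mul_comm]
  refine mul_le_mul_of_nonneg_right ?_ (norm_nonneg _)
  have hone : ∀ a c : ZMod C2, ‖G a c * psiR h ψ ((e k).2 * a + (e l).2 * c)‖ ≤ 1 := by
    intro a c
    rw [norm_mul]
    have h1 : ‖psiR h ψ ((e k).2 * a + (e l).2 * c)‖ = 1 := AddChar.norm_apply _ _
    rw [h1, mul_one]
    exact hG a c
  calc ‖∑ a : ZMod C2, ∑ c : ZMod C2, G a c * psiR h ψ ((e k).2 * a + (e l).2 * c)‖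
      ≤ ∑ a : ZMod C2, ∑ c : ZMod C2, ‖G a c * psiR h ψ ((e k).2 * a + (e l).2 * c)‖ :=
        (norm_sum_le _ _).trans (Finset.sum_le_sum fun a _ => norm_sum_le _ _)
    _ ≤ ∑ a : ZMod C2, ∑ c : ZMod C2, (1 : ℝ) :=
        Finset.sum_le_sum fun a _ => Finset.sum_le_sum fun c _ => hone a c
    _ = (C2 : ℝ) ^ 2 := by
        simp only [Finset.sum_const, Finset.card_univ, ZMod.card, nsmul_eq_mul, mul_one]
        ring

end OOK

end

section

/-!
# The zero frequency, trivial bound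
-/

open Complex Finset
open scoped ComplexConjugate

namespace OOK

variable {q1 q2 : ℕ}

/-- for every `x` there are at most `N r` values of `y` modulo `A N` with `A ∣ β y + r` -/
theorem K3_count {A N β r : ℕ} (hA : 0 < A) (hr : 0 < r) :
    ((Finset.range (A * N)).filter (fun y => A ∣ β * y + r)).card ≤ N * r := by
  classical
  rcases ((Finset.range (A * N)).filter (fun y => A ∣ β * y + r)).eq_empty_or_nonempty with h | ⟨y0, hy0⟩
  · rw [h]
    simp
  · have h0 : A ∣ β * y0 + r := (Finset.mem_filter.1 hy0).2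
    obtain ⟨g, hg⟩ : ∃ g, g = A.gcd β := ⟨_, rfl⟩
    have hg0 : 0 < g := hg ▸ Nat.gcd_pos_of_pos_left _ hA
    have hgA : g ∣ A := hg ▸ Nat.gcd_dvd_left _ _
    have hgβ : g ∣ β := hg ▸ Nat.gcd_dvd_right _ _
    have hgr : g ∣ r := (Nat.dvd_add_right (hgβ.mul_right y0)).1 (hgA.trans h0)
    have hgle : g ≤ r := Nat.le_of_dvd hr hgr
    obtain ⟨m, hm⟩ := hgA
    have hm0 : 0 < m := by
      rcases Nat.eq_zero_or_pos m with h1 | h1
      · rw [h1] at hm; omega
      · exact h1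
    have hAg : A / A.gcd β = m := by
      rw [← hg, hm, Nat.mul_div_cancel_left _ hg0]
    have hsub : (Finset.range (A * N)).filter (fun y => A ∣ β * y + r) ⊆
        (Finset.range (A * N)).filter (fun y => y ≡ y0 [MOD m]) := by
      intro y hy
      rw [Finset.mem_filter] at hy ⊢
      refine ⟨hy.1, ?_⟩
      have h1 : β * y + r ≡ β * y0 + r [MOD A] :=
        ((Nat.modEq_zero_iff_dvd.2 hy.2).trans (Nat.modEq_zero_iff_dvd.2 h0).symm)
      have h2 : β * y ≡ β * y0 [MOD A] := Nat.ModEq.add_right_cancel' r h1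
      have h3 := Nat.ModEq.cancel_left_div_gcd hA h2
      rwa [hAg] at h3
    refine (Finset.card_le_card hsub).trans ?_
    have h4 := Nat.count_modEq_card (A * N) hm0 y0
    rw [Nat.count_eq_card_filter_range] at h4
    have h5 : A * N = m * (g * N) := by rw [hm]; ring
    have h6 : A * N / m = g * N := by rw [h5, Nat.mul_div_cancel_left _ hm0]
    have h7 : A * N % m = 0 := by rw [h5]; exact Nat.mul_mod_right _ _
    rw [h4, h6, h7, if_neg (by omega), add_zero, mul_comm N r]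
    exact Nat.mul_le_mul_right N hgle

/-- trivial bound of the zero frequency -/
theorem Khat_00 (χ1 : DirichletCharacter ℂ q1) (χ2 : DirichletCharacter ℂ q2) {b r A c : ℕ}
    [NeZero c] (hA : 0 < A) (hr : 0 < r) (hc : A * (q1 * q2) = c) :
    ‖Khat (KK χ1 χ2 b r A c) 0 0‖ ≤ (c : ℝ) * ((q1 * q2 : ℕ) * r) := by
  classical
  unfold Khat
  have h1 : ∀ x y : ZMod c, ‖KK χ1 χ2 b r A c x y * (ZMod.stdAddChar (0 * x + 0 * y) : ℂ)‖ ≤
      if A ∣ b * x.val * y.val + r then 1 else 0 := by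
    intro x y
    rw [zero_mul, zero_mul, add_zero, AddChar.map_zero_eq_one, mul_one]
    split_ifs with h
    · exact norm_KK_le χ1 χ2 b r A c x y
    · unfold KK
      rw [if_neg (by rwa [← mul_assoc]), norm_zero]
  have h2 : ∀ x : ZMod c, ∑ y : ZMod c, (if A ∣ b * x.val * y.val + r then (1 : ℝ) else 0) ≤
      (((q1 * q2) * r : ℕ) : ℝ) := by
    intro x
    rw [Finset.sum_ite, Finset.sum_const_zero, add_zero, Finset.sum_const, nsmul_eq_mul, mul_one]
    have h3 : (Finset.univ.filter (fun y : ZMod c => A ∣ b * x.val * y.val + r)).card ≤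
        ((Finset.range (A * (q1 * q2))).filter (fun y => A ∣ b * x.val * y + r)).card := by
      refine Finset.card_le_card_of_injOn (fun y => y.val) (fun y hy => ?_) ?_
      · have hy' := (Finset.mem_filter.1 (Finset.mem_coe.1 hy)).2
        refine Finset.mem_coe.2 (Finset.mem_filter.2 ⟨Finset.mem_range.2 ?_, hy'⟩)
        rw [hc]
        exact ZMod.val_lt y
      · intro y _ z _ h
        exact ZMod.val_injective c h
    exact_mod_cast h3.trans (K3_count hA hr)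
  calc ‖∑ x : ZMod c, ∑ y : ZMod c, KK χ1 χ2 b r A c x y * (ZMod.stdAddChar (0 * x + 0 * y) : ℂ)‖
      ≤ ∑ x : ZMod c, ∑ y : ZMod c, ‖KK χ1 χ2 b r A c x y * (ZMod.stdAddChar (0 * x + 0 * y) : ℂ)‖ :=
        (norm_sum_le _ _).trans (Finset.sum_le_sum fun x _ => norm_sum_le _ _)
    _ ≤ ∑ x : ZMod c, ∑ y : ZMod c, (if A ∣ b * x.val * y.val + r then (1 : ℝ) else 0) :=
        Finset.sum_le_sum fun x _ => Finset.sum_le_sum fun y _ => h1 x y
    _ ≤ ∑ x : ZMod c, (((q1 * q2) * r : ℕ) : ℝ) := Finset.sum_le_sum fun x _ => h2 x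
    _ = (c : ℝ) * ((q1 * q2 : ℕ) * r) := by
        rw [Finset.sum_const, Finset.card_univ, ZMod.card, nsmul_eq_mul]
        push_cast
        ring

end OOK

end

section

/-!
# Sums of the Fourier transform
-/

open Complex Finset KlWeil
open scoped ComplexConjugate

namespace OOK

variable {q1 q2 : ℕ}

lemma OK18_fact {q : ℕ} (hq : Squarefree q) {p : ℕ} (hp : p ∈ q.primeFactors) :
    q.factorization p = 1 := by
  have h1 : q.factorization p ≤ 1 := hq.natFactorization_le_one p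
  have h2 : 1 ≤ q.factorization p :=
    (Nat.prime_of_mem_primeFactors hp).factorization_pos_of_dvd hq.ne_zero
      (Nat.dvd_of_mem_primeFactors hp)
  omega

lemma OK18_sf {q : ℕ} (hq : Squarefree q) : sfPart q = q := by
  unfold sfPart
  rw [Finset.prod_congr rfl (fun p hp => if_pos (OK18_fact hq hp))]
  exact Nat.prod_primeFactors_of_squarefree hq

lemma OK18_sq {q : ℕ} (hq : Squarefree q) : sqPart q = 1 := by
  unfold sqPart
  exact Finset.prod_eq_one (fun p hp => if_pos (OK18_fact hq hp))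

/-- `VS_bound` (Part08) with `sfPart C₁ = C₁`, `sqPart C₁ = 1` (`C₁` squarefree),
`gcd(k l, C₁) ≤ gcd(k, C₁) gcd(l, C₁)`, `psiL_prim`, `ZMod.isPrimitive_stdAddChar`. -/
theorem Khat_kl (χ1 : DirichletCharacter ℂ q1) (χ2 : DirichletCharacter ℂ q2) {b r A C1 C2 : ℕ}
    [NeZero C1] [NeZero C2] [NeZero (C1 * C2)] (h : C1.Coprime C2) (hA : 0 < A) (hq1 : 0 < q1)
    (hq2 : 0 < q2) (hc : A * (q1 * q2) = C1 * C2) (hC1 : C1 ∣ A) (hb : C1.Coprime b)
    (hr : C1.Coprime r) (hsq : Squarefree C1) (k l : ZMod (C1 * C2)) :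
    ‖Khat (KK χ1 χ2 b r A (C1 * C2)) k l‖ ≤ (C2 : ℝ) ^ 2 * (C1.divisors.card * Real.sqrt C1 *
      (Real.sqrt (Nat.gcd k.val C1) * Real.sqrt (Nat.gcd l.val C1))) := by
  obtain ⟨w, hw, hk⟩ := Khat_le_VS χ1 χ2 h hA hq1 hq2 hc hC1 hb hr
  refine (hk k l).trans ?_
  apply mul_le_mul_of_nonneg_left _ (by positivity)
  have hv := VS_bound C1 (psiL h (ZMod.stdAddChar : AddChar (ZMod (C1 * C2)) ℂ))
    (psiL_prim h (ZMod.isPrimitive_stdAddChar _)) (k.val : ℤ) (l.val : ℤ) w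
  rw [OK18_sf hsq, OK18_sq hsq, Int.cast_natCast, Int.cast_natCast, Nat.cast_one, mul_one] at hv
  refine hv.trans ?_
  apply mul_le_mul_of_nonneg_left _ (by positivity)
  rw [← Real.sqrt_mul (Nat.cast_nonneg _)]
  apply Real.sqrt_le_sqrt
  have h1 : Int.gcd ((k.val : ℤ) * (l.val : ℤ)) (C1 : ℤ) = Nat.gcd (k.val * l.val) C1 := by
    rw [← Nat.cast_mul]
    exact Int.gcd_natCast_natCast _ _
  rw [h1]
  have h2 : Nat.gcd (k.val * l.val) C1 ∣ Nat.gcd k.val C1 * Nat.gcd l.val C1 := by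
    rw [Nat.gcd_comm _ C1, Nat.gcd_comm _ C1, Nat.gcd_comm _ C1]
    exact Nat.gcd_mul_right_dvd_mul_gcd C1 k.val l.val
  have h3 : 0 < Nat.gcd k.val C1 * Nat.gcd l.val C1 :=
    Nat.mul_pos (Nat.gcd_pos_of_pos_right _ (Nat.pos_of_ne_zero (NeZero.ne C1)))
      (Nat.gcd_pos_of_pos_right _ (Nat.pos_of_ne_zero (NeZero.ne C1)))
  have h4 := Nat.le_of_dvd h3 h2
  rw [← Nat.cast_mul]
  exact_mod_cast h4

/-- `VS_zero_left`, `VS_zero_right`. -/
theorem Khat_0l (χ1 : DirichletCharacter ℂ q1) (χ2 : DirichletCharacter ℂ q2) {b r A C1 C2 : ℕ}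
    [NeZero C1] [NeZero C2] [NeZero (C1 * C2)] (h : C1.Coprime C2) (hA : 0 < A) (hq1 : 0 < q1)
    (hq2 : 0 < q2) (hc : A * (q1 * q2) = C1 * C2) (hC1 : C1 ∣ A) (hb : C1.Coprime b)
    (hr : C1.Coprime r) (hsq : Squarefree C1) (l : ZMod (C1 * C2)) :
    ‖Khat (KK χ1 χ2 b r A (C1 * C2)) 0 l‖ ≤ (C2 : ℝ) ^ 2 * Nat.gcd l.val C1 ∧
    ‖Khat (KK χ1 χ2 b r A (C1 * C2)) l 0‖ ≤ (C2 : ℝ) ^ 2 * Nat.gcd l.val C1 := by
  obtain ⟨w, hw, hk⟩ := Khat_le_VS χ1 χ2 h hA hq1 hq2 hc hC1 hb hr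
  have hprim := psiL_prim h (ZMod.isPrimitive_stdAddChar (C1 * C2))
  constructor
  · refine (hk 0 l).trans ?_
    apply mul_le_mul_of_nonneg_left _ (by positivity)
    rw [ZMod.val_zero, Nat.cast_zero]
    exact VS_zero_left C1 hsq _ hprim l.val w hw
  · refine (hk l 0).trans ?_
    apply mul_le_mul_of_nonneg_left _ (by positivity)
    rw [ZMod.val_zero, Nat.cast_zero]
    exact VS_zero_right C1 hsq _ hprim l.val w hw

/-- Sum of the bounds: `sum_gcd_nu`, `sum_sqrt_gcd_nu` (the double sum is a product). -/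
theorem Khat_sum (χ1 : DirichletCharacter ℂ q1) (χ2 : DirichletCharacter ℂ q2) {b r A C1 C2 : ℕ}
    [NeZero C1] [NeZero C2] [NeZero (C1 * C2)] (h : C1.Coprime C2) (hA : 0 < A) (hq1 : 0 < q1)
    (hq2 : 0 < q2) (hc : A * (q1 * q2) = C1 * C2) (hC1 : C1 ∣ A) (hb : C1.Coprime b)
    (hr : C1.Coprime r) (hsq : Squarefree C1) {V V1 V2 : ℝ} (hV : 0 ≤ V) (hV1 : 0 ≤ V1)
    (hV2 : 0 ≤ V2) :
    (((C1 * C2 : ℕ) : ℝ) ^ 2)⁻¹ *
      (∑ k ∈ Finset.univ.erase (0 : ZMod (C1 * C2)), ∑ l ∈ Finset.univ.erase (0 : ZMod (C1 * C2)),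
          ‖Khat (KK χ1 χ2 b r A (C1 * C2)) k l‖ * (V / (nu k * nu l)) +
        ∑ l ∈ Finset.univ.erase (0 : ZMod (C1 * C2)),
          ‖Khat (KK χ1 χ2 b r A (C1 * C2)) 0 l‖ * (V1 / nu l) +
        ∑ k ∈ Finset.univ.erase (0 : ZMod (C1 * C2)),
          ‖Khat (KK χ1 χ2 b r A (C1 * C2)) k 0‖ * (V2 / nu k)) ≤
      (C2 : ℝ) ^ 2 * (C1.divisors.card : ℝ) ^ 3 * (1 + Real.log (C1 * C2 : ℕ)) ^ 2 *
        (Real.sqrt C1 * V + (V1 + V2) / (C1 * C2 : ℕ)) := by
  set c : ℕ := C1 * C2 with hcdef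
  have hC1pos : 0 < C1 := Nat.pos_of_ne_zero (NeZero.ne C1)
  have hcpos : 0 < c := Nat.pos_of_ne_zero (NeZero.ne c)
  have hc1 : (1 : ℝ) ≤ c := by exact_mod_cast hcpos
  have hcR : (0 : ℝ) < c := by linarith only [hc1]
  have hdvd : C1 ∣ c := Dvd.intro _ rfl
  set d : ℝ := (C1.divisors.card : ℝ) with hd
  have hd1 : 1 ≤ d := by
    have : 0 < C1.divisors.card := Finset.card_pos.mpr ⟨1, Nat.one_mem_divisors.mpr hC1pos.ne'⟩
    rw [hd]
    exact_mod_cast this
  set L : ℝ := 1 + Real.log (c : ℕ) with hL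
  have hL1 : 1 ≤ L := by
    have := Real.log_nonneg hc1
    linarith only [this]
  have hG := sum_gcd_nu (c := c) hdvd
  have hSq := sum_sqrt_gcd_nu (c := c) hdvd hC1pos
  set G : ℝ := ∑ k ∈ Finset.univ.erase (0 : ZMod c), (Nat.gcd k.val C1 : ℝ) / nu k with hGdef
  set S : ℝ := ∑ k ∈ Finset.univ.erase (0 : ZMod c), Real.sqrt (Nat.gcd k.val C1) / nu k with hSdef
  rw [← hd, ← hL] at hG hSq
  have hnu : ∀ k : ZMod c, 0 ≤ nu k := fun k => norm_nonneg _
  have hS0 : 0 ≤ S := Finset.sum_nonneg fun k _ => div_nonneg (Real.sqrt_nonneg _) (hnu k)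
  have hG0 : 0 ≤ G := Finset.sum_nonneg fun k _ => div_nonneg (Nat.cast_nonneg _) (hnu k)
  -- first sum
  have b1 : ∑ k ∈ Finset.univ.erase (0 : ZMod c), ∑ l ∈ Finset.univ.erase (0 : ZMod c),
      ‖Khat (KK χ1 χ2 b r A c) k l‖ * (V / (nu k * nu l)) ≤
      (C2 : ℝ) ^ 2 * d * Real.sqrt C1 * V * (S * S) := by
    rw [hSdef, Finset.sum_mul_sum, Finset.mul_sum]
    apply Finset.sum_le_sum
    intro k _
    rw [Finset.mul_sum]
    apply Finset.sum_le_sum
    intro l _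
    have h1 := Khat_kl χ1 χ2 h hA hq1 hq2 hc hC1 hb hr hsq k l
    have h2 : 0 ≤ V / (nu k * nu l) := div_nonneg hV (mul_nonneg (hnu k) (hnu l))
    refine (mul_le_mul_of_nonneg_right h1 h2).trans (le_of_eq ?_)
    rw [← hd, div_eq_mul_inv, div_eq_mul_inv, div_eq_mul_inv, mul_inv]
    ring
  have b2 : ∑ l ∈ Finset.univ.erase (0 : ZMod c), ‖Khat (KK χ1 χ2 b r A c) 0 l‖ * (V1 / nu l) ≤
      (C2 : ℝ) ^ 2 * V1 * G := by
    rw [hGdef, Finset.mul_sum]
    apply Finset.sum_le_sum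
    intro l _
    have h1 := (Khat_0l χ1 χ2 h hA hq1 hq2 hc hC1 hb hr hsq l).1
    have h2 : 0 ≤ V1 / nu l := div_nonneg hV1 (hnu l)
    refine (mul_le_mul_of_nonneg_right h1 h2).trans (le_of_eq ?_)
    ring
  have b3 : ∑ k ∈ Finset.univ.erase (0 : ZMod c), ‖Khat (KK χ1 χ2 b r A c) k 0‖ * (V2 / nu k) ≤
      (C2 : ℝ) ^ 2 * V2 * G := by
    rw [hGdef, Finset.mul_sum]
    apply Finset.sum_le_sum
    intro l _
    have h1 := (Khat_0l χ1 χ2 h hA hq1 hq2 hc hC1 hb hr hsq l).2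
    have h2 : 0 ≤ V2 / nu l := div_nonneg hV2 (hnu l)
    refine (mul_le_mul_of_nonneg_right h1 h2).trans (le_of_eq ?_)
    ring
  have b4 : S * S ≤ (c * d * L) * (c * d * L) := mul_le_mul hSq hSq hS0 (by positivity)
  have hinv : 0 ≤ ((c : ℝ) ^ 2)⁻¹ := by positivity
  have hsum : ∑ k ∈ Finset.univ.erase (0 : ZMod c), ∑ l ∈ Finset.univ.erase (0 : ZMod c),
          ‖Khat (KK χ1 χ2 b r A c) k l‖ * (V / (nu k * nu l)) +
        ∑ l ∈ Finset.univ.erase (0 : ZMod c),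
          ‖Khat (KK χ1 χ2 b r A c) 0 l‖ * (V1 / nu l) +
        ∑ k ∈ Finset.univ.erase (0 : ZMod c),
          ‖Khat (KK χ1 χ2 b r A c) k 0‖ * (V2 / nu k) ≤
      (C2 : ℝ) ^ 2 * d * Real.sqrt C1 * V * ((c * d * L) * (c * d * L)) +
        (C2 : ℝ) ^ 2 * V1 * (c * d * L) + (C2 : ℝ) ^ 2 * V2 * (c * d * L) := by
    refine (add_le_add (add_le_add b1 b2) b3).trans ?_
    refine add_le_add (add_le_add ?_ ?_) ?_
    · exact mul_le_mul_of_nonneg_left b4 (by positivity)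
    · exact mul_le_mul_of_nonneg_left hG (by positivity)
    · exact mul_le_mul_of_nonneg_left hG (by positivity)
  refine (mul_le_mul_of_nonneg_left hsum hinv).trans ?_
  have e1 : ((c : ℝ) ^ 2)⁻¹ * ((C2 : ℝ) ^ 2 * d * Real.sqrt C1 * V * ((c * d * L) * (c * d * L)) +
        (C2 : ℝ) ^ 2 * V1 * (c * d * L) + (C2 : ℝ) ^ 2 * V2 * (c * d * L)) =
      (C2 : ℝ) ^ 2 * d ^ 3 * L ^ 2 * (Real.sqrt C1 * V) +
        (C2 : ℝ) ^ 2 * (d * L) * ((V1 + V2) / c) := by
    field_simp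
    ring
  rw [e1, mul_add ((C2 : ℝ) ^ 2 * d ^ 3 * L ^ 2)]
  apply add_le_add le_rfl
  apply mul_le_mul_of_nonneg_right _ (by positivity)
  rw [mul_assoc]
  apply mul_le_mul_of_nonneg_left _ (by positivity)
  have hd3 : d ≤ d ^ 3 := le_self_pow₀ hd1 (by norm_num)
  have hL2 : L ≤ L ^ 2 := le_self_pow₀ hL1 (by norm_num)
  exact mul_le_mul hd3 hL2 (by linarith only [hL1]) (by positivity)

end OOK

end
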