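import Pool.Agent.Lib.MP_0f5a55_nt.OM.K000
import Pool.Agent.Lib.MP_0f5a55_nt.OM.K006
import Pool.Agent.Lib.MP_0f5a55_nt.OM.K011
import Pool.Agent.Lib.MP_0f5a55_nt.OM.K016
import Pool.Agent.Lib.MP_0f5a55_nt.OM.K018

section

/-!
# Row OP11a: the coefficient of a pole is the coefficient of the diagonal sum
-/

open Complex MeasureTheory Set Filter Topology
open scoped ComplexConjugate

namespace OO

theorem P11a_aux_wt : LZ.wt 0 = 1 := by
  unfold LZ.wt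
  norm_num

theorem P11a_aux_LA (f : ℕ → ℂ) (m : ℕ) (hm : m ≠ 0) : LA f 0 0 m = f m := by
  show (if m = 0 then 0 else f m * (m : ℂ) ^ (-(0 : ℂ)) * (LZ.wt (0 * Real.log m) : ℂ)) = f m
  rw [if_neg hm, neg_zero, Complex.cpow_zero, zero_mul, P11a_aux_wt]
  simp

theorem P11a_aux_FA (f : ℕ → ℂ) (w : ℝ → ℝ) (m : ℕ) (hm : m ≠ 0) : FA f w m = f m * (w m : ℂ) := by
  show (if m = 0 then 0 else f m * (w m : ℂ)) = _
  rw [if_neg hm]

/-- the divisibility condition -/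
theorem P11a_aux_div {K0 K n : ℕ} (h1 : 1 ≤ K) (h2 : K ≤ K0) (h : (K0.factorial / K) ∣ n) :
    (n * K / K0.factorial) * K0.factorial = n * K := by
  have hK : K ∣ K0.factorial := Nat.dvd_factorial h1 h2
  obtain ⟨c, hc⟩ := hK
  have hK0 : 0 < K := h1
  have hc' : K0.factorial / K = c := by rw [hc, Nat.mul_div_cancel_left _ hK0]
  rw [hc'] at h
  obtain ⟨e, he⟩ := h
  apply Nat.div_mul_cancel
  rw [hc, he]
  exact ⟨e, by ring⟩

theorem P11a_aux_div' {K0 K n e : ℕ} (h1 : 1 ≤ K) (h2 : K ≤ K0) (h : e * K0.factorial = n * K) :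
    (K0.factorial / K) ∣ n ∧ n * K / K0.factorial = e := by
  have hK : K ∣ K0.factorial := Nat.dvd_factorial h1 h2
  obtain ⟨c, hc⟩ := hK
  have hK0 : 0 < K := h1
  have hc' : K0.factorial / K = c := by rw [hc, Nat.mul_div_cancel_left _ hK0]
  refine ⟨?_, ?_⟩
  · rw [hc']
    refine ⟨e, ?_⟩
    rw [hc] at h
    have h3 : K * (c * e) = K * n := by
      calc K * (c * e) = e * (K * c) := by ring
        _ = n * K := h
        _ = K * n := by ring
    exact (Nat.eq_of_mul_eq_mul_left hK0 h3).symm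
  · rw [← h]
    exact Nat.mul_div_cancel _ (Nat.factorial_pos K0)

/-- the condition on `ξ` -/
theorem P11a_aux_px {K0 n m k u h : ℕ} (hu : u ≠ 0) (hh : h ≠ 0) :
    px (h, k, u, m) = (n : ℚ) / (K0.factorial : ℚ) ↔ m * k * K0.factorial = n * (u * h) := by
  unfold px
  have h1 : ((u * h : ℕ) : ℚ) ≠ 0 := by exact_mod_cast mul_ne_zero hu hh
  have h2 : (K0.factorial : ℚ) ≠ 0 := by exact_mod_cast Nat.factorial_ne_zero K0
  show ((m * k : ℕ) : ℚ) / ((u * h : ℕ) : ℚ) = _ ↔ _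
  rw [div_eq_div_iff h1 h2]
  constructor
  · intro h3
    exact_mod_cast h3
  · intro h3
    exact_mod_cast h3

/-- OP11a. PROOF. `Cm K0 a b' n = ∑_(K ∈ Icc 1 K0) [(K0!/K) ∣ n] a(nK/K0!) b'(K)/K`; `(K0!/K) ∣ n` iff `K0! ∣ n K` (`K ∣ K0!`, `Nat.factorial`), then `n K/K0! = M'` with `M'/K = n/K0! = ξ`. Expand `a = LA f2 0 0 * cj b`:
`a(M') = ∑_(m k = M') f2(m) conj b(k)` (`M' ≥ 1`; `wt 0 = 1`), `b' = FA f1 w * b`: `b'(K) = ∑_(u h = K) f1(u) w(u) b(h)` (`ArithmeticFunction.mul_apply`). So `Cm = ∑ over (m,k,u,h), u h ≤ K0, m k K0! = n u h, of f2(m) conj b(k) f1(u) w(u) b(h)/(u h)`.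
Nonzero terms have `h, k ≤ H` (`hb`), `u ≤ U` (`hw`) and `m = ξ u h/k ≤ M` (`hM`), and then `u h ≤ U H ≤ K0` is automatic: the sum is over the `j ∈ PJ H U M` with `px j = ξ`. -/
theorem P11_Cm (H U M K0 n : ℕ) (b : ArithmeticFunction ℂ) (f1 f2 : ℕ → ℂ) (w : ℝ → ℝ) (hb : ∀ h, H < h → b h = 0)
    (hw : ∀ u : ℕ, U < u → w u = 0) (hK : U * H ≤ K0) (hn : 1 ≤ n) (hM : n * (U * H) ≤ M * K0.factorial) :
    Cm K0 (LA f2 0 0 * cj b : ArithmeticFunction ℂ) (FA f1 w * b : ArithmeticFunction ℂ) n = PC H U M b f1 f2 w ((n : ℚ) / (K0.factorial : ℚ)) := by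
  classical
  unfold Cm
  rw [← Finset.sum_filter]
  have e1 : ∀ K ∈ (Finset.Icc 1 K0).filter (fun K => (K0.factorial / K) ∣ n),
      (LA f2 0 0 * cj b : ArithmeticFunction ℂ) (n * K / K0.factorial) * (FA f1 w * b : ArithmeticFunction ℂ) K / (K : ℂ) =
      ∑ p ∈ (n * K / K0.factorial).divisorsAntidiagonal ×ˢ K.divisorsAntidiagonal,
        LA f2 0 0 p.1.1 * conj (b p.1.2) * (FA f1 w p.2.1 * b p.2.2) / (K : ℂ) := by
    intro K _
    rw [ArithmeticFunction.mul_apply, ArithmeticFunction.mul_apply, Finset.sum_mul_sum, Finset.sum_product,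
      Finset.sum_div]
    refine Finset.sum_congr rfl fun x _ => ?_
    rw [Finset.sum_div]
    rfl
  rw [Finset.sum_congr rfl e1, Finset.sum_sigma']
  unfold PC
  have hmem : ∀ a ∈ ((Finset.Icc 1 K0).filter (fun K => (K0.factorial / K) ∣ n)).sigma
      (fun K => (n * K / K0.factorial).divisorsAntidiagonal ×ˢ K.divisorsAntidiagonal),
      (1 ≤ a.1 ∧ a.1 ≤ K0) ∧ a.2.1.1 * a.2.1.2 * K0.factorial = n * a.1 ∧ a.2.2.1 * a.2.2.2 = a.1 ∧
        a.2.1.1 ≠ 0 ∧ a.2.1.2 ≠ 0 ∧ a.2.2.1 ≠ 0 ∧ a.2.2.2 ≠ 0 := by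
    rintro ⟨K, ⟨⟨m, k⟩, ⟨u, h⟩⟩⟩ ha
    rw [Finset.mem_sigma, Finset.mem_filter, Finset.mem_Icc, Finset.mem_product,
      Nat.mem_divisorsAntidiagonal, Nat.mem_divisorsAntidiagonal] at ha
    obtain ⟨⟨⟨k1, k2⟩, k3⟩, ⟨k4, k5⟩, ⟨k6, k7⟩⟩ := ha
    simp only at k1 k2 k3 k4 k5 k6 k7 ⊢
    have k8 := P11a_aux_div k1 k2 k3
    rw [← k4] at k5 k8
    rw [← k6] at k7
    exact ⟨⟨k1, k2⟩, k8, k6, left_ne_zero_of_mul k5, right_ne_zero_of_mul k5, left_ne_zero_of_mul k7,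
      right_ne_zero_of_mul k7⟩
  refine Finset.sum_bij_ne_zero (fun a _ _ => (a.2.2.2, a.2.1.2, a.2.2.1, a.2.1.1)) ?_ ?_ ?_ ?_
  · rintro ⟨K, ⟨⟨m, k⟩, ⟨u, h⟩⟩⟩ ha hne
    obtain ⟨⟨k1, k2⟩, k3, k4, m0, k0, u0, h0⟩ := hmem _ ha
    simp only at k1 k2 k3 k4 m0 k0 u0 h0 hne ⊢
    rw [P11a_aux_FA f1 w u u0] at hne
    have bh : b h ≠ 0 := by
      intro h9
      apply hne
      rw [h9]
      ring
    have bk : b k ≠ 0 := by
      intro h9
      apply hne
      rw [h9, map_zero]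
      ring
    have wu : w u ≠ 0 := by
      intro h9
      apply hne
      rw [h9]
      push_cast
      ring
    have lh : h ≤ H := le_of_not_gt fun h9 => bh (hb h h9)
    have lk : k ≤ H := le_of_not_gt fun h9 => bk (hb k h9)
    have lu : u ≤ U := le_of_not_gt fun h9 => wu (hw u h9)
    have hxi : m * k * K0.factorial = n * (u * h) := by rw [k3, k4]
    have lm : m ≤ M := by
      have j1 : m * K0.factorial ≤ M * K0.factorial := by
        calc m * K0.factorial ≤ m * k * K0.factorial :=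
              Nat.mul_le_mul_right _ (Nat.le_mul_of_pos_right m (Nat.pos_of_ne_zero k0))
          _ = n * (u * h) := hxi
          _ ≤ n * (U * H) := Nat.mul_le_mul_left _ (Nat.mul_le_mul lu lh)
          _ ≤ M * K0.factorial := hM
      exact Nat.le_of_mul_le_mul_right j1 (Nat.factorial_pos K0)
    rw [Finset.mem_filter]
    refine ⟨?_, (P11a_aux_px u0 h0).mpr hxi⟩
    unfold PJ
    simp only [Finset.mem_product, Finset.mem_Icc]
    exact ⟨⟨Nat.pos_of_ne_zero h0, lh⟩, ⟨Nat.pos_of_ne_zero k0, lk⟩, ⟨Nat.pos_of_ne_zero u0, lu⟩,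
      Nat.pos_of_ne_zero m0, lm⟩
  · rintro ⟨K, ⟨⟨m, k⟩, ⟨u, h⟩⟩⟩ ha _ ⟨K', ⟨⟨m', k'⟩, ⟨u', h'⟩⟩⟩ ha' _ heq
    obtain ⟨-, -, k4, -⟩ := hmem _ ha
    obtain ⟨-, -, k4', -⟩ := hmem _ ha'
    simp only [Prod.mk.injEq] at heq k4 k4'
    obtain ⟨rfl, rfl, rfl, rfl⟩ := heq
    rw [k4] at k4'
    subst k4'
    rfl
  · rintro ⟨h, k, u, m⟩ hj hne
    rw [Finset.mem_filter] at hj
    obtain ⟨hj1, hj2⟩ := hj
    unfold PJ at hj1
    simp only [Finset.mem_product, Finset.mem_Icc] at hj1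
    obtain ⟨⟨h1, h2⟩, ⟨k1, k2⟩, ⟨u1, u2⟩, m1, m2⟩ := hj1
    have hxi := (P11a_aux_px (by omega) (by omega)).mp hj2
    have K1 : 1 ≤ u * h := Nat.mul_pos u1 h1
    have K2 : u * h ≤ K0 := (Nat.mul_le_mul u2 h2).trans hK
    obtain ⟨d1, d2⟩ := P11a_aux_div' K1 K2 hxi
    refine ⟨⟨u * h, ((m, k), (u, h))⟩, ?_, ?_, rfl⟩
    · rw [Finset.mem_sigma, Finset.mem_filter, Finset.mem_Icc, Finset.mem_product,
        Nat.mem_divisorsAntidiagonal, Nat.mem_divisorsAntidiagonal]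
      refine ⟨⟨⟨K1, K2⟩, d1⟩, ⟨?_, ?_⟩, ⟨rfl, ?_⟩⟩
      · exact d2.symm
      · rw [d2]
        exact (Nat.mul_pos m1 k1).ne'
      · exact Nat.one_le_iff_ne_zero.mp K1
    · show LA f2 0 0 m * conj (b k) * (FA f1 w u * b h) / ((u * h : ℕ) : ℂ) ≠ 0
      rw [P11a_aux_LA f2 m (by omega), P11a_aux_FA f1 w u (by omega)]
      intro h9
      apply hne
      rw [← h9]
      unfold pc
      simp only
      ring
  · rintro ⟨K, ⟨⟨m, k⟩, ⟨u, h⟩⟩⟩ ha _
    obtain ⟨-, -, k4, m0, -, u0, -⟩ := hmem _ ha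
    simp only at k4 m0 u0 ⊢
    rw [P11a_aux_LA f2 m m0, P11a_aux_FA f1 w u u0]
    unfold pc
    simp only
    rw [k4]
    ring

end OO

end

section

/-! # Row OE13: the integral of the exponential factor -/

open Complex MeasureTheory Set Filter Topology
open scoped ComplexConjugate

namespace OO

/-- PROOF. `cos (π/6) = √3/2 ≥ 1/2`, `sin (π/6 - ε) ≥ sin (π/6 - 1/10) ≥ 1/π`-type bound (`Real.mul_le_sin`: `sin y ≥ 2y/π` on `[0, π/2]`, `y = π/6 - ε ≥ 0.42`, so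
`2 π sin y ≥ 4 y ≥ 1`). -/
theorem E_wt_le {al om ε : ℝ} (hal : 0 < al) (hom : 0 ≤ om) (hε : 0 < ε) (hε' : ε ≤ 1 / 10) {k k' r : ℕ} (hk : 1 ≤ k)
    (hk' : 1 ≤ k') {x : ℝ} (hx : 0 < x) :
    Ewt al om ε k k' r x ≤ Real.exp (-(al / (2 * x)) - r * x / (k * k')) := by
  have hkR : (1 : ℝ) ≤ k := by exact_mod_cast hk
  have hkR' : (1 : ℝ) ≤ k' := by exact_mod_cast hk'
  have hM : 0 < (k : ℝ) * k' := by positivity
  have hpi := Real.pi_gt_three
  have hpi4 := Real.pi_le_four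
  have hr : (0 : ℝ) ≤ r := Nat.cast_nonneg r
  -- the cosine
  have hcos : 1 / 2 ≤ Real.cos (Real.pi / 6) := by
    rw [Real.cos_pi_div_six]
    have : (1 : ℝ) ≤ Real.sqrt 3 := by
      rw [Real.one_le_sqrt]
      norm_num
    linarith only [this]
  have h1 : al / (2 * x) ≤ (al / x + om * x) * Real.cos (Real.pi / 6) := by
    have h2 : al / (2 * x) = (al / x) * (1 / 2) := by
      field_simp
    rw [h2]
    have h3 : 0 ≤ al / x := by positivity
    have h4 : 0 ≤ om * x := by positivity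
    calc (al / x) * (1 / 2) ≤ (al / x + om * x) * (1 / 2) :=
        mul_le_mul_of_nonneg_right (le_add_of_nonneg_right h4) one_half_pos.le
      _ ≤ (al / x + om * x) * Real.cos (Real.pi / 6) :=
        mul_le_mul_of_nonneg_left hcos (add_nonneg h3 h4)
  -- the sine
  have hsin : 1 ≤ 2 * Real.pi * Real.sin (Real.pi / 6 - ε) := by
    have h2 := Real.mul_le_sin (x := Real.pi / 6 - ε) (by linarith only [hε', hpi]) (by linarith only [hε, hpi])
    have h3 : 2 * Real.pi * (2 / Real.pi * (Real.pi / 6 - ε)) ≤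
        2 * Real.pi * Real.sin (Real.pi / 6 - ε) :=
      mul_le_mul_of_nonneg_left h2 (by positivity)
    have h4 : 2 * Real.pi * (2 / Real.pi * (Real.pi / 6 - ε)) = 4 * (Real.pi / 6 - ε) := by
      field_simp
      ring
    linarith only [h3, h4, hε', hpi]
  have h5 : r * x / (k * k') ≤ 2 * Real.pi * r * x * Real.sin (Real.pi / 6 - ε) / (k * k') := by
    refine div_le_div_of_nonneg_right ?_ hM.le
    have h6 : 0 ≤ (r : ℝ) * x := by positivity
    calc (r : ℝ) * x = (r * x) * 1 := by ring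
      _ ≤ (r * x) * (2 * Real.pi * Real.sin (Real.pi / 6 - ε)) :=
        mul_le_mul_of_nonneg_left hsin h6
      _ = 2 * Real.pi * r * x * Real.sin (Real.pi / 6 - ε) := by ring
  rw [Ewt]
  refine Real.exp_le_exp.mpr ?_
  linarith only [h1, h5]

/-- PROOF. `M = k k' ≥ 1`. By `E_wt_le` and AM-GM, `al/(2x) + r x/M = (al/(4x) + r x/(2M)) + (al/(4x) + r x/(2M)) ≥ (1/(4x) + x/(2M)) + √(al r/(2M))` (`al ≥ 1`,
`r ≥ 1`, `u + v ≥ 2√(uv)`), and `exp (-y) ≤ (2N)!/y^(2N)` with `N = j + 15`, `y = √(al r/(2M))`: `exp (-y) ≤ (2N)! (2M)^N/(al r)^N ≤ (2N)! 2^N M^N/(al^j r^15)`.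
The function `exp (-(1/(4x))) (1+1/x)^6` is bounded on `x > 0` by a constant `C6` (for instance `(1+1/x)^6 ≤ 64 (1 + x^(-6))` and
`exp (-(1/(4x))) ≤ 6! (4x)^6`), and `(1+1/x)^p ≤ (1+1/x)^6`; `∫ exp (-(x/(2M))) = 2M`. Total: `K M^(j+16)/(al^j r^15)`. Measurability by continuity. -/
theorem E_int_bound (p : ℝ) (hp : 0 ≤ p) (hp' : p ≤ 6) (j : ℕ) : ∃ K : ℝ, 0 < K ∧ ∀ (al om ε : ℝ), 1 ≤ al → 0 ≤ om → 0 < ε →
    ε ≤ 1 / 10 → ∀ k k' r : ℕ, 1 ≤ k → 1 ≤ k' → 1 ≤ r →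
      IntegrableOn (fun x : ℝ => Ewt al om ε k k' r x * (1 + 1 / x) ^ p) (Ioi 0) ∧
      ∫ x in Ioi (0 : ℝ), Ewt al om ε k k' r x * (1 + 1 / x) ^ p ≤
        K * ((k : ℝ) * k') ^ (j + 16) / (al ^ j * (r : ℝ) ^ 15) := by
  set N := j + 15 with hN
  set C6 : ℝ := 4 ^ 6 * 720 * Real.exp (1 / 4) with hC6
  have hC6pos : 0 < C6 := by positivity
  set C0 : ℝ := (2 * N).factorial * 2 ^ N * C6 with hC0
  have hC0pos : 0 < C0 := by
    have : (0 : ℝ) < (2 * N).factorial := by exact_mod_cast Nat.factorial_pos _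
    positivity
  refine ⟨C0 * 2, by positivity, fun al om ε hal hom hε hε' k k' r hk hk' hr => ?_⟩
  have hkR : (1 : ℝ) ≤ k := by exact_mod_cast hk
  have hkR' : (1 : ℝ) ≤ k' := by exact_mod_cast hk'
  have hrR : (1 : ℝ) ≤ r := by exact_mod_cast hr
  set M : ℝ := (k : ℝ) * k' with hM
  have hM1 : 1 ≤ M := one_le_mul_of_one_le_of_one_le hkR hkR'
  have hM0 : 0 < M := zero_lt_one.trans_le hM1
  have hal0 : 0 < al := zero_lt_one.trans_le hal
  have hr0 : (0 : ℝ) < r := zero_lt_one.trans_le hrR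
  set Q : ℝ := C0 * M ^ N / (al ^ j * (r : ℝ) ^ 15) with hQ
  have hQ0 : 0 ≤ Q := by positivity
  -- the pointwise bound
  have hpt : ∀ x : ℝ, 0 < x → Ewt al om ε k k' r x * (1 + 1 / x) ^ p ≤
      Q * Real.exp (-(1 / (2 * M)) * x) := by
    intro x hx
    have hs : 0 < 1 / x := by positivity
    have b1 : (1 + 1 / x) ^ p ≤ (1 + 1 / x) ^ 6 := by
      rw [← Real.rpow_natCast (1 + 1 / x) 6]
      exact Real.rpow_le_rpow_of_exponent_le (le_add_of_nonneg_right hs.le) (by exact_mod_cast hp')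
    have b2 : (1 + 1 / x) ^ 6 ≤ C6 * Real.exp (1 / (4 * x)) := by
      have h1 := Real.pow_div_factorial_le_exp (x := (1 + 1 / x) / 4) (by positivity) 6
      have h2 : ((Nat.factorial 6 : ℕ) : ℝ) = 720 := by norm_num [Nat.factorial]
      rw [h2, div_le_iff₀ (by norm_num), div_pow] at h1
      have h3 : Real.exp ((1 + 1 / x) / 4) = Real.exp (1 / 4) * Real.exp (1 / (4 * x)) := by
        rw [← Real.exp_add]
        congr 1
        field_simp
      rw [h3, div_le_iff₀ (by norm_num)] at h1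
      calc (1 + 1 / x) ^ 6 ≤ Real.exp (1 / 4) * Real.exp (1 / (4 * x)) * 720 * 4 ^ 6 := h1
        _ = C6 * Real.exp (1 / (4 * x)) := by rw [hC6]; ring
    set u : ℝ := al / (4 * x) + r * x / (2 * M) with hu
    have hu0 : 0 < u := by positivity
    have hu2 : al * r / (2 * M) ≤ u ^ 2 := by
      have h1 : al * r / (2 * M) = 4 * (al / (4 * x)) * (r * x / (2 * M)) := by
        field_simp
      rw [h1, hu]
      exact four_mul_le_sq_add _ _
    have b3 : Real.exp (-u) ≤ (2 * N).factorial * 2 ^ N * M ^ N / (al ^ j * (r : ℝ) ^ 15) := by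
      have h1 := E_exp_neg_le hu0 (2 * N)
      have hfac : (0 : ℝ) ≤ (2 * N).factorial := Nat.cast_nonneg _
      have h2 : (al * r / (2 * M)) ^ N ≤ u ^ (2 * N) := by
        rw [pow_mul]
        exact pow_le_pow_left₀ (by positivity) hu2 N
      have h3 : al ^ j * (r : ℝ) ^ 15 ≤ (al * r) ^ N := by
        rw [mul_pow]
        refine mul_le_mul (pow_le_pow_right₀ hal (by omega)) (pow_le_pow_right₀ hrR (by omega))
          (by positivity) (by positivity)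
      have h4 : al ^ j * (r : ℝ) ^ 15 / (2 * M) ^ N ≤ u ^ (2 * N) := by
        refine le_trans ?_ h2
        rw [div_pow]
        exact div_le_div_of_nonneg_right h3 (by positivity)
      calc Real.exp (-u) ≤ (2 * N).factorial / u ^ (2 * N) := h1
        _ ≤ (2 * N).factorial / (al ^ j * (r : ℝ) ^ 15 / (2 * M) ^ N) :=
          div_le_div_of_nonneg_left hfac (by positivity) h4
        _ = (2 * N).factorial * 2 ^ N * M ^ N / (al ^ j * (r : ℝ) ^ 15) := by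
          rw [mul_pow]
          field_simp
    have b4 : Ewt al om ε k k' r x ≤ Real.exp (-(1 / (4 * x))) * Real.exp (-(1 / (2 * M)) * x) *
        Real.exp (-u) := by
      refine (E_wt_le hal0 hom hε hε' hk hk' hx).trans ?_
      rw [← Real.exp_add, ← Real.exp_add]
      refine Real.exp_le_exp.mpr ?_
      rw [hu, ← hM]
      have h1 : 1 / (4 * x) ≤ al / (4 * x) := div_le_div_of_nonneg_right hal (by positivity)
      have h2 : 1 / (2 * M) * x ≤ r * x / (2 * M) := by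
        have : 1 / (2 * M) * x = 1 * x / (2 * M) := by ring
        rw [this]
        exact div_le_div_of_nonneg_right (mul_le_mul_of_nonneg_right hrR hx.le) (by positivity)
      have h3 : al / (2 * x) = al / (4 * x) + al / (4 * x) := by
        field_simp
        ring
      have h4 : r * x / M = r * x / (2 * M) + r * x / (2 * M) := by
        field_simp
        ring
      rw [h3, h4]
      linarith only [h1, h2]
    have he1 : Real.exp (-(1 / (4 * x))) * Real.exp (1 / (4 * x)) = 1 := by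
      rw [← Real.exp_add]
      simp
    have hE0 : 0 ≤ Ewt al om ε k k' r x := (Real.exp_pos _).le
    calc Ewt al om ε k k' r x * (1 + 1 / x) ^ p
        ≤ Ewt al om ε k k' r x * (C6 * Real.exp (1 / (4 * x))) :=
          mul_le_mul_of_nonneg_left (b1.trans b2) hE0
      _ ≤ (Real.exp (-(1 / (4 * x))) * Real.exp (-(1 / (2 * M)) * x) * Real.exp (-u)) *
          (C6 * Real.exp (1 / (4 * x))) := mul_le_mul_of_nonneg_right b4 (by positivity)
      _ = (Real.exp (-(1 / (4 * x))) * Real.exp (1 / (4 * x))) *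
          (C6 * Real.exp (-(1 / (2 * M)) * x)) * Real.exp (-u) := by ring
      _ = (C6 * Real.exp (-(1 / (2 * M)) * x)) * Real.exp (-u) := by rw [he1, one_mul]
      _ ≤ (C6 * Real.exp (-(1 / (2 * M)) * x)) *
          ((2 * N).factorial * 2 ^ N * M ^ N / (al ^ j * (r : ℝ) ^ 15)) :=
          mul_le_mul_of_nonneg_left b3 (by positivity)
      _ = Q * Real.exp (-(1 / (2 * M)) * x) := by
          rw [hQ, hC0]
          ring
  have hneg : -(1 / (2 * M)) < 0 := by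
    have : 0 < 1 / (2 * M) := by positivity
    exact neg_lt_zero.mpr this
  have hi : IntegrableOn (fun x : ℝ => Q * Real.exp (-(1 / (2 * M)) * x)) (Ioi 0) :=
    (integrableOn_exp_mul_Ioi hneg 0).const_mul Q
  have hmeas : AEStronglyMeasurable (fun x : ℝ => Ewt al om ε k k' r x * (1 + 1 / x) ^ p)
      (volume.restrict (Ioi 0)) := by
    refine ContinuousOn.aestronglyMeasurable ?_ measurableSet_Ioi
    intro x hx
    have hx0 : (x : ℝ) ≠ 0 := ne_of_gt hx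
    refine ContinuousAt.continuousWithinAt ?_
    refine ContinuousAt.mul ?_ ?_
    · unfold Ewt
      refine Real.continuous_exp.continuousAt.comp ?_
      fun_prop (disch := exact hx0)
    · refine ContinuousAt.rpow_const (by fun_prop (disch := exact hx0)) (Or.inr hp)
  have hbd : ∀ᵐ x ∂(volume.restrict (Ioi (0 : ℝ))),
      ‖Ewt al om ε k k' r x * (1 + 1 / x) ^ p‖ ≤ Q * Real.exp (-(1 / (2 * M)) * x) := by
    refine (ae_restrict_iff' measurableSet_Ioi).mpr (ae_of_all _ fun x hx => ?_)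
    have hx0 : 0 < x := hx
    rw [Real.norm_eq_abs, abs_of_nonneg]
    · exact hpt x hx0
    · exact mul_nonneg (Real.exp_pos _).le (Real.rpow_nonneg (by positivity) _)
  have hI : IntegrableOn (fun x : ℝ => Ewt al om ε k k' r x * (1 + 1 / x) ^ p) (Ioi 0) :=
    Integrable.mono' hi hmeas hbd
  refine ⟨hI, ?_⟩
  calc ∫ x in Ioi (0 : ℝ), Ewt al om ε k k' r x * (1 + 1 / x) ^ p
      ≤ ∫ x in Ioi (0 : ℝ), Q * Real.exp (-(1 / (2 * M)) * x) :=
        setIntegral_mono_on hI hi measurableSet_Ioi fun x hx => hpt x hx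
    _ = Q * (2 * M) := by
        rw [integral_const_mul, integral_exp_mul_Ioi hneg 0]
        simp
    _ = C0 * 2 * M ^ (j + 16) / (al ^ j * (r : ℝ) ^ 15) := by
        rw [hQ, hN]
        ring

end OO

end

section

/-! # Row OE05: the integral of one product -/

open Complex MeasureTheory Set Filter Topology
open scoped ComplexConjugate

namespace OO

private theorem E_05_term (w : ℂ) (n : ℕ) :
    ‖exp (-(2 * Real.pi * n * w))‖ = Real.exp (-(2 * Real.pi * w.re) * n) := by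
  rw [norm_exp]
  congr 1
  have e : (-(2 * (Real.pi : ℂ) * n * w)) = ((-(2 * Real.pi * n) : ℝ) : ℂ) * w := by
    push_cast
    ring
  rw [e, re_ofReal_mul]
  ring

private theorem E_05_re {ε x : ℝ} {h k : ℕ} (hε : 0 < ε) (hε' : ε ≤ 1 / 10) (hx : 0 < x) (hh : 1 ≤ h)
    (hk : 1 ≤ k) : 0 < (zz ε * x * h / k).re := by
  have e : zz ε * x * h / k = ((x * h / k : ℝ) : ℂ) * zz ε := by
    push_cast
    ring
  rw [e, re_ofReal_mul, zz_re]
  have h1 : 0 < Real.sin ε := sin_pos' hε hε'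
  have h2 : (0 : ℝ) < h := Nat.cast_pos.2 hh
  have h3 : (0 : ℝ) < k := Nat.cast_pos.2 hk
  positivity

/-- PROOF. `‖lam n exp(-(2πnw))‖ ≤ B n exp(-(2π w.re) n)`; `n exp(-c n)` is summable
(`Real.summable_pow_mul_exp_neg_nat_mul 1`). -/
theorem E_FS_summable {lam : ℕ → ℂ} {B : ℝ} (hlam : ∀ n, ‖lam n‖ ≤ B * n) {w : ℂ} (hw : 0 < w.re) :
    Summable (fun n : ℕ => ‖lam n * exp (-(2 * Real.pi * n * w))‖) := by
  have h1 := (Real.summable_pow_mul_exp_neg_nat_mul 1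
    (show 0 < 2 * Real.pi * w.re by positivity)).mul_left B
  refine Summable.of_nonneg_of_le (fun n => norm_nonneg _) (fun n => ?_) h1
  rw [norm_mul, E_05_term, pow_one, ← mul_assoc]
  exact mul_le_mul_of_nonneg_right (hlam n) (Real.exp_pos _).le

private theorem E_05_summ {lam : ℕ → ℂ} {B al om ε : ℝ} (hlam : ∀ n, ‖lam n‖ ≤ B * n) (hal : 0 < al)
    (hom : 0 ≤ om) (hε : 0 < ε) (hε' : ε ≤ 1 / 10) {h k h' k' : ℕ} (hh : 1 ≤ h) (hk : 1 ≤ k)
    (hh' : 1 ≤ h') (hk' : 1 ≤ k') :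
    Summable (fun p : ℕ × ℕ => ‖lam p.1‖ * ‖lam p.2‖ * Psi al om (Eph ε h k h' k' p).re) := by
  have h1 : 0 < Real.sin ε := sin_pos' hε hε'
  have h2 : (0 : ℝ) < h := Nat.cast_pos.2 hh
  have h3 : (0 : ℝ) < k := Nat.cast_pos.2 hk
  have h4 : (0 : ℝ) < h' := Nat.cast_pos.2 hh'
  have h5 : (0 : ℝ) < k' := Nat.cast_pos.2 hk'
  have h6 := E_summ (lam := lam) (B := B) (al := al) (om := om) hlam hal hom
    (c := 2 * Real.pi * Real.sin ε * (h / k)) (c' := 2 * Real.pi * Real.sin ε * (h' / k'))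
    (by positivity) (by positivity)
  refine h6.congr (fun p => ?_)
  rw [Eph_re]
  congr 2
  ring

/-- PROOF. `‖Etm p‖ ≤ ‖lam p.1‖ ‖lam p.2‖ Psi al om (Eph p).re` (`E_ker_norm_le`), `(Eph p).re = c p.1 + c' p.2` with
`c = 2π sin ε h/k > 0`, `c' = 2π sin ε h'/k' > 0` (`Eph_re`); `E_summ`. -/
theorem E_tm_summable {lam : ℕ → ℂ} {B al om ε : ℝ} (hlam : ∀ n, ‖lam n‖ ≤ B * n) (hal : 0 < al) (hom : 0 ≤ om)
    (hε : 0 < ε) (hε' : ε ≤ 1 / 10) {h k h' k' : ℕ} (hh : 1 ≤ h) (hk : 1 ≤ k) (hh' : 1 ≤ h') (hk' : 1 ≤ k') :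
    Summable (fun p : ℕ × ℕ => ‖Etm lam al om ε h k h' k' p‖) := by
  refine Summable.of_nonneg_of_le (fun p => norm_nonneg _) (fun p => ?_)
    (E_05_summ hlam hal hom hε hε' hh hk hh' hk')
  rw [Etm, norm_mul, norm_mul, norm_conj]
  exact mul_le_mul_of_nonneg_left (E_ker_norm_le al om _)
    (mul_nonneg (norm_nonneg _) (norm_nonneg _))

private theorem E_05_int_tsum {ι : Type} [Countable ι] {μ : Measure ℝ} {F : ι → ℝ → ℂ}
    (hF : ∀ i, Integrable (F i) μ) (hs : Summable fun i => ∫ a, ‖F i a‖ ∂μ)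
    (hp : ∀ᵐ a ∂μ, Summable fun i => F i a) : Integrable (fun a => ∑' i, F i a) μ := by
  refine ⟨?_, ?_⟩
  · refine aestronglyMeasurable_of_tendsto_ae (atTop : Filter (Finset ι))
      (f := fun s a => ∑ i ∈ s, F i a) (fun s => ?_) ?_
    · exact s.aestronglyMeasurable_fun_sum fun i _ => (hF i).1
    · filter_upwards [hp] with a ha
      exact ha.hasSum
  · rw [hasFiniteIntegral_iff_enorm]
    refine (lintegral_mono (fun a => enorm_tsum_le_tsum_enorm)).trans_lt ?_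
    rw [lintegral_tsum (fun i => (hF i).1.enorm)]
    have e : ∀ i, ∫⁻ a, ‖F i a‖ₑ ∂μ = ‖∫ a, ‖F i a‖ ∂μ‖ₑ := by
      intro i
      dsimp [enorm]
      rw [lintegral_coe_eq_integral _ (hF i).norm, ENNReal.coe_nnreal_eq, coe_nnnorm,
        Real.norm_of_nonneg (integral_nonneg (fun a ↦ norm_nonneg (F i a)))]
      simp only [coe_nnnorm]
    rw [funext e]
    exact lt_top_iff_ne_top.2
      (ENNReal.tsum_coe_ne_top_iff_summable.2 (NNReal.summable_coe.1 hs.abs))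

/-- PROOF. Put `F p x = Wt al om x * (lam p.1 exp(-(2π p.1 w)) * conj (lam p.2 exp(-(2π p.2 w'))))`, `w = zz ε * x * h / k`,
`w' = zz ε * x * h' / k'` (both with positive real part for `x > 0`). Then `F p x = lam p.1 * conj (lam p.2) * (Wt al om x * exp(-(Eph p * x)))`.
(1) each `F p` is integrable on `Ioi 0` (`E_ker_int` times a constant; if `p.1 = 0` or `p.2 = 0` it is `0` because `lam 0 = 0`).
(2) `∑ p, ∫ ‖F p‖` converges: `∫ ‖F p‖ = ‖lam p.1‖ ‖lam p.2‖ Psi al om (Eph p).re` (`E_ker_norm_int`), `E_summ`.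
(3) `∑' p, F p x = Wt al om x * (FS w * conj (FS w'))` by `tsum_mul_tsum_of_summable_norm` (`E_FS_summable`), `Complex.conj_tsum`, `tsum_mul_left`.
`hasSum_integral_of_summable_integral_norm` gives the second claim (with `integral_const_mul`). Integrability: `MeasureTheory` has
`integrable_of_summable_norm...`; otherwise: measurable as a tsum or continuous on `Ioi 0`, and
`∫⁻ ‖∑' F p‖ ≤ ∑' ∫⁻ ‖F p‖ < ∞` (`lintegral_tsum`, `enorm_tsum_le_tsum_enorm`). -/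
theorem E_pair {lam : ℕ → ℂ} {B al om ε : ℝ} (hlam : ∀ n, ‖lam n‖ ≤ B * n) (hal : 0 < al) (hom : 0 ≤ om)
    (hε : 0 < ε) (hε' : ε ≤ 1 / 10) {h k h' k' : ℕ} (hh : 1 ≤ h) (hk : 1 ≤ k) (hh' : 1 ≤ h') (hk' : 1 ≤ k') :
    IntegrableOn (fun x : ℝ => (Wt al om x : ℂ) *
      (FS lam (zz ε * x * h / k) * conj (FS lam (zz ε * x * h' / k')))) (Ioi 0) ∧
    ∫ x in Ioi (0 : ℝ), (Wt al om x : ℂ) * (FS lam (zz ε * x * h / k) * conj (FS lam (zz ε * x * h' / k'))) =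
      ∑' p : ℕ × ℕ, Etm lam al om ε h k h' k' p := by
  have hl0 : lam 0 = 0 := by
    have h1 := hlam 0
    rw [Nat.cast_zero, mul_zero] at h1
    exact norm_le_zero_iff.1 h1
  obtain ⟨F, hFdef⟩ : ∃ F : ℕ × ℕ → ℝ → ℂ, F = fun p x => lam p.1 * conj (lam p.2) *
    ((Wt al om x : ℂ) * exp (-(Eph ε h k h' k' p * x))) := ⟨_, rfl⟩
  have hF : ∀ p, IntegrableOn (F p) (Ioi 0) := by
    intro p
    rw [hFdef]
    by_cases hp : p.1 = 0
    · simp only [hp, hl0, zero_mul]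
      exact integrableOn_zero
    · refine Integrable.const_mul ?_ _
      refine E_ker_int hal hom ?_
      rw [Eph_re]
      have h1 : 0 < Real.sin ε := sin_pos' hε hε'
      have h2 : (0 : ℝ) < h := Nat.cast_pos.2 hh
      have h3 : (0 : ℝ) < k := Nat.cast_pos.2 hk
      have h4 : (0 : ℝ) < p.1 := Nat.cast_pos.2 (Nat.pos_of_ne_zero hp)
      positivity
  have hnorm : ∀ p, ∫ x in Ioi (0 : ℝ), ‖F p x‖ =
      ‖lam p.1‖ * ‖lam p.2‖ * Psi al om (Eph ε h k h' k' p).re := by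
    intro p
    rw [← E_ker_norm_int, ← integral_const_mul, hFdef]
    refine integral_congr_ae (Eventually.of_forall (fun x => ?_))
    simp only [norm_mul, norm_conj]
  have hsum : Summable fun p => ∫ x in Ioi (0 : ℝ), ‖F p x‖ := by
    refine (E_05_summ hlam hal hom hε hε' hh hk hh' hk').congr (fun p => ?_)
    rw [hnorm]
  have hterm : ∀ (p : ℕ × ℕ) (x : ℝ), F p x = (Wt al om x : ℂ) *
      ((lam p.1 * exp (-(2 * Real.pi * p.1 * (zz ε * x * h / k)))) *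
        conj (lam p.2 * exp (-(2 * Real.pi * p.2 * (zz ε * x * h' / k'))))) := by
    intro p x
    rw [hFdef, map_mul, ← exp_conj]
    have e1 : conj (-(2 * (Real.pi : ℂ) * p.2 * (zz ε * x * h' / k'))) =
        -(2 * (Real.pi : ℂ) * p.2 * (conj (zz ε) * x * h' / k')) := by
      simp only [map_neg, map_mul, map_div₀, conj_ofReal, map_natCast, map_ofNat]
    rw [e1]
    have e2 : exp (-(Eph ε h k h' k' p * x)) =
        exp (-(2 * Real.pi * p.1 * (zz ε * x * h / k))) *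
          exp (-(2 * (Real.pi : ℂ) * p.2 * (conj (zz ε) * x * h' / k'))) := by
      rw [← exp_add, Eph]
      congr 1
      ring
    simp only [e2]
    ring
  have hs1 : ∀ x ∈ Ioi (0 : ℝ), Summable (fun n : ℕ =>
      ‖lam n * exp (-(2 * Real.pi * n * (zz ε * x * h / k)))‖) := fun x hx =>
    E_FS_summable hlam (E_05_re hε hε' hx hh hk)
  have hs2 : ∀ x ∈ Ioi (0 : ℝ), Summable (fun n : ℕ =>
      ‖conj (lam n * exp (-(2 * Real.pi * n * (zz ε * x * h' / k'))))‖) := fun x hx => by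
    simp only [norm_conj]
    exact E_FS_summable hlam (E_05_re hε hε' hx hh' hk')
  have hps : ∀ x ∈ Ioi (0 : ℝ), Summable fun p => F p x := by
    intro x hx
    have h1 := (summable_mul_of_summable_norm (hs1 x hx) (hs2 x hx)).mul_left (Wt al om x : ℂ)
    refine h1.congr (fun p => ?_)
    rw [hterm]
  have hval : ∀ x ∈ Ioi (0 : ℝ), ∑' p, F p x = (Wt al om x : ℂ) *
      (FS lam (zz ε * x * h / k) * conj (FS lam (zz ε * x * h' / k'))) := by
    intro x hx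
    rw [FS, FS, conj_tsum, tsum_mul_tsum_of_summable_norm (hs1 x hx) (hs2 x hx), ← tsum_mul_left]
    exact tsum_congr (fun p => hterm p x)
  have hint : IntegrableOn (fun x => ∑' p, F p x) (Ioi 0) :=
    E_05_int_tsum hF hsum
      ((ae_restrict_iff' measurableSet_Ioi).2 (Eventually.of_forall (fun x hx => hps x hx)))
  refine ⟨hint.congr_fun hval measurableSet_Ioi, ?_⟩
  rw [← setIntegral_congr_fun measurableSet_Ioi hval,
    ← integral_tsum_of_summable_integral_norm hF hsum]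
  refine tsum_congr (fun p => ?_)
  rw [hFdef, Etm, EK, ← integral_const_mul]

end OO

end

section

/-!
# Row OP06: crude bound of `g`
-/

open Complex MeasureTheory Set Filter Topology
open scoped ComplexConjugate

namespace OO

/-- OP06a. `Re (zz ε) = sin ε ≥ ε/2 > 0`, `Im (zz ε) = cos ε`, `zz ε = i exp(-iε)`. -/
theorem P06_zz (ε : ℝ) (h0 : 0 < ε) (h1 : ε ≤ 1) : (zz ε).re = Real.sin ε ∧ (zz ε).im = Real.cos ε ∧ ε / 2 ≤ Real.sin ε ∧
    zz ε = I * exp (-(ε * I)) := by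
  refine ⟨?_, ?_, ?_, ?_⟩
  · rw [zz, exp_re]
    simp [Real.cos_pi_div_two_sub]
  · rw [zz, exp_im]
    simp [Real.sin_pi_div_two_sub]
  · have hpi : ε ≤ Real.pi / 2 := by linarith only [h1, Real.pi_gt_three]
    have h2 := Real.mul_le_sin h0.le hpi
    have h3 : (1 : ℝ) / 2 ≤ 2 / Real.pi := by
      rw [div_le_div_iff₀ (by norm_num) Real.pi_pos]
      linarith only [Real.pi_le_four]
    have h4 := mul_le_mul_of_nonneg_right h3 h0.le
    linarith only [h2, h4]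
  · unfold zz
    have h : ((Real.pi / 2 - ε : ℝ) : ℂ) * I = (Real.pi / 2 : ℂ) * I + (-(ε * I)) := by
      push_cast
      ring
    rw [h, exp_add, Complex.exp_pi_div_two_mul_I]

theorem P06_aux_re (ε x : ℝ) (h k : ℕ) : (zz ε * x * h / k).re = (zz ε).re * (x * h / k) := by
  have e : zz ε * x * h / k = zz ε * ((x * h / k : ℝ) : ℂ) := by
    push_cast
    ring
  rw [e, re_mul_ofReal]

/-- OP06b. PROOF. P05_FS with `w = zz ε x h/k`, P01_crude: `‖Th χ (u w)‖ ≤ 1/(u x (h/k) sin ε) ≤ 2H/(x ε)`; `‖b h‖ ≤ h ≤ H`, `1/k ≤ 1`, `|wt u| ≤ B`, `‖f u‖ ≤ 1`; `H² U` terms, each `≤ H² B 2H/(x ε)`. -/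
theorem P06_crude {q : ℕ} [NeZero q] (χ : DirichletCharacter ℂ q) (b f : ℕ → ℂ) (wt : ℝ → ℝ) (H U : ℕ) (B ε x : ℝ)
    (hU : ∀ u : ℕ, U < u → wt u = 0) (hf : ∀ n, ‖f n‖ ≤ 1) (hB : ∀ u : ℕ, |wt u| ≤ B) (hb : ∀ h, ‖b h‖ ≤ h) (hε : 0 < ε) (hε1 : ε ≤ 1)
    (hx : 0 < x) : ‖gg b H (FA f wt * LA (ch χ) 0 0 : ArithmeticFunction ℂ) ε x‖ ≤ 2 * B * H ^ 5 * U / (x * ε) := by
  obtain ⟨hre, -, hsin, -⟩ := P06_zz ε hε hε1
  have hsin0 : 0 < Real.sin ε := lt_of_lt_of_le (half_pos hε) hsin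
  have hB0 : 0 ≤ B := (abs_nonneg _).trans (hB 0)
  have hterm : ∀ h ∈ Finset.Icc 1 H, ∀ k ∈ Finset.Icc 1 H,
      ‖b h * conj (b k) / k * FS (FA f wt * LA (ch χ) 0 0 : ArithmeticFunction ℂ) (zz ε * x * h / k)‖ ≤
        (H : ℝ) ^ 2 * (U * (B * (2 * H / (x * ε)))) := by
    intro h hh k hk
    obtain ⟨hh1, hhH⟩ := Finset.mem_Icc.mp hh
    obtain ⟨hk1, hkH⟩ := Finset.mem_Icc.mp hk
    have hh1' : (1 : ℝ) ≤ h := by exact_mod_cast hh1
    have hk1' : (1 : ℝ) ≤ k := by exact_mod_cast hk1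
    have hhH' : (h : ℝ) ≤ H := by exact_mod_cast hhH
    have hkH' : (k : ℝ) ≤ H := by exact_mod_cast hkH
    have hw : 0 < (zz ε * x * h / k).re := by
      rw [P06_aux_re, hre]
      positivity
    rw [P05_FS χ f wt U hU _ hw, norm_mul]
    apply mul_le_mul
    · rw [norm_div, norm_mul, Complex.norm_conj, Complex.norm_natCast]
      rw [div_le_iff₀ (lt_of_lt_of_le one_pos hk1')]
      have h1 : ‖b h‖ * ‖b k‖ ≤ h * k := mul_le_mul (hb h) (hb k) (norm_nonneg _) (Nat.cast_nonneg h)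
      have h2 : (h : ℝ) ≤ (H : ℝ) ^ 2 := by
        rw [pow_two]
        exact hhH'.trans (le_mul_of_one_le_left (Nat.cast_nonneg H) (hh1'.trans hhH'))
      calc ‖b h‖ * ‖b k‖ ≤ h * k := h1
        _ ≤ (H : ℝ) ^ 2 * k := mul_le_mul_of_nonneg_right h2 (Nat.cast_nonneg k)
    · refine (norm_sum_le _ _).trans ?_
      have hc : ∀ u ∈ Finset.Icc 1 U, ‖f u * (wt u : ℂ) * Th χ (u * (zz ε * x * h / k))‖ ≤ B * (2 * H / (x * ε)) := by
        intro u hu
        obtain ⟨hu1, -⟩ := Finset.mem_Icc.mp hu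
        have hu1' : (1 : ℝ) ≤ u := by exact_mod_cast hu1
        have hre2 : ((u : ℂ) * (zz ε * x * h / k)).re = u * (Real.sin ε * (x * h / k)) := by
          have e : (u : ℂ) * (zz ε * x * h / k) = ((u : ℝ) : ℂ) * (zz ε * x * h / k) := by norm_cast
          rw [e, re_ofReal_mul, P06_aux_re, hre]
        have hpos : 0 < u * (Real.sin ε * (x * h / k)) := by positivity
        have hTh : ‖Th χ (u * (zz ε * x * h / k))‖ ≤ 2 * H / (x * ε) := by
          refine (P01_crude χ _ (by rw [hre2]; exact hpos)).trans ?_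
          rw [hre2]
          rw [div_le_div_iff₀ hpos (by positivity)]
          have h3 : x * ε / H ≤ 2 * (u * (Real.sin ε * (x * h / k))) := by
            have h4 : x * ε / H ≤ x * ε / k := div_le_div_of_nonneg_left (mul_pos hx hε).le
              (lt_of_lt_of_le one_pos hk1') hkH'
            have h5 : x * ε / k ≤ 2 * (Real.sin ε * (x / k)) := by
              have : x * ε / k = x / k * ε := by ring
              rw [this]
              have hxk : 0 ≤ x / k := div_nonneg hx.le (Nat.cast_nonneg k)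
              have h9 := mul_le_mul_of_nonneg_left hsin hxk
              linarith only [h9]
            have h6 : Real.sin ε * (x / k) ≤ u * (Real.sin ε * (x * h / k)) := by
              have h7 : Real.sin ε * (x / k) ≤ Real.sin ε * (x * h / k) := by
                apply mul_le_mul_of_nonneg_left _ hsin0.le
                apply div_le_div_of_nonneg_right _ (Nat.cast_nonneg k)
                exact le_mul_of_one_le_right hx.le hh1'
              have h8 : 0 ≤ Real.sin ε * (x * h / k) := by positivity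
              exact h7.trans (le_mul_of_one_le_left h8 hu1')
            linarith only [h4, h5, h6]
          have hH0 : (0 : ℝ) < H := lt_of_lt_of_le one_pos (hh1'.trans hhH')
          rw [div_le_iff₀ hH0] at h3
          linarith only [h3]
        rw [norm_mul, norm_mul, Complex.norm_real, Real.norm_eq_abs]
        have h9 : ‖f u‖ * |wt u| ≤ B := by
          calc ‖f u‖ * |wt u| ≤ 1 * B := mul_le_mul (hf u) (hB u) (abs_nonneg _) zero_le_one
            _ = B := one_mul _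
        exact mul_le_mul h9 hTh (norm_nonneg _) hB0
      refine (Finset.sum_le_card_nsmul _ _ _ hc).trans ?_
      rw [Nat.card_Icc, nsmul_eq_mul, Nat.add_sub_cancel]
    · exact norm_nonneg _
    · positivity
  unfold gg
  refine (norm_sum_le _ _).trans ?_
  have h10 : ∀ h ∈ Finset.Icc 1 H, ‖∑ k ∈ Finset.Icc 1 H, b h * conj (b k) / k *
      FS (FA f wt * LA (ch χ) 0 0 : ArithmeticFunction ℂ) (zz ε * x * h / k)‖ ≤
      H * ((H : ℝ) ^ 2 * (U * (B * (2 * H / (x * ε))))) := by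
    intro h hh
    refine (norm_sum_le _ _).trans ?_
    refine (Finset.sum_le_card_nsmul _ _ _ (hterm h hh)).trans ?_
    rw [Nat.card_Icc, nsmul_eq_mul, Nat.add_sub_cancel]
  refine (Finset.sum_le_card_nsmul _ _ _ h10).trans ?_
  rw [Nat.card_Icc, nsmul_eq_mul, Nat.add_sub_cancel]
  apply le_of_eq
  ring

end OO

end

section

/-! # Row OE10: the diagonal terms as a sum over `m` -/

open Complex MeasureTheory Set Filter Topology
open scoped ComplexConjugate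

namespace OO

/-- the set of pairs of the diagonal -/
private def OE10_A (h k h' k' : ℕ) : Set (ℕ × ℕ) := {p | (h * k') * p.1 = (h' * k) * p.2}

/-- the set of `m` of the diagonal -/
private def OE10_B (Q h k h' k' : ℕ) : Set ℕ := {m | (Q * h ∣ m * k) ∧ (Q * h' ∣ m * k')}

private theorem OE10_left {Q h k : ℕ} (hQ : 0 < Q) (hh : 1 ≤ h) (hkQ : k ∣ Q) (a : ℕ) :
    Q / k * h * a * k = Q * h * a := by
  obtain ⟨q, rfl⟩ := hkQ
  have hk : 0 < k := Nat.pos_of_mul_pos_right hQ |> fun _ => by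
    rcases Nat.eq_zero_or_pos k with h0 | h0
    · subst h0; simp at hQ
    · exact h0
  rw [Nat.mul_div_cancel_left _ hk]
  ring

private theorem OE10_right {Q h k h' k' : ℕ} (hQ : 0 < Q) (hh : 1 ≤ h) (hkQ : k ∣ Q) {a b : ℕ}
    (hab : (h * k') * a = (h' * k) * b) :
    Q / k * h * a * k' = Q * h' * b := by
  obtain ⟨q, rfl⟩ := hkQ
  have hk : 0 < k := by
    rcases Nat.eq_zero_or_pos k with h0 | h0
    · subst h0; simp at hQ
    · exact h0
  rw [Nat.mul_div_cancel_left _ hk]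
  calc q * h * a * k' = q * ((h * k') * a) := by ring
    _ = q * ((h' * k) * b) := by rw [hab]
    _ = k * q * h' * b := by ring

/-- the bijection -/
private noncomputable def OE10_e {Q h k h' k' : ℕ} (hQ : 0 < Q) (hh : 1 ≤ h) (hk : 1 ≤ k) (hh' : 1 ≤ h')
    (hkQ : k ∣ Q) : OE10_A h k h' k' ≃ OE10_B Q h k h' k' where
  toFun p := ⟨Q / k * h * p.1.1, by
    constructor
    · rw [OE10_left hQ hh hkQ]; exact Dvd.intro _ rfl
    · rw [OE10_right hQ hh hkQ p.2]; exact Dvd.intro _ rfl⟩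
  invFun m := ⟨(m.1 * k / (Q * h), m.1 * k' / (Q * h')), by
    obtain ⟨m, ⟨a, ha⟩, ⟨b, hb⟩⟩ := m
    have h1 : 0 < Q * h := Nat.mul_pos hQ hh
    have h2 : 0 < Q * h' := Nat.mul_pos hQ hh'
    change (h * k') * (m * k / (Q * h)) = (h' * k) * (m * k' / (Q * h'))
    rw [ha, hb, Nat.mul_div_cancel_left _ h1, Nat.mul_div_cancel_left _ h2]
    apply Nat.eq_of_mul_eq_mul_left hQ
    calc Q * (h * k' * a) = (Q * h * a) * k' := by ring
      _ = m * k * k' := by rw [ha]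
      _ = m * k' * k := by ring
      _ = Q * h' * b * k := by rw [hb]
      _ = Q * (h' * k * b) := by ring⟩
  left_inv := by
    rintro ⟨⟨a, b⟩, hab⟩
    have h1 : 0 < Q * h := Nat.mul_pos hQ hh
    have h2 : 0 < Q * h' := Nat.mul_pos hQ hh'
    apply Subtype.ext
    change (Q / k * h * a * k / (Q * h), Q / k * h * a * k' / (Q * h')) = (a, b)
    rw [OE10_left hQ hh hkQ, OE10_right hQ hh hkQ hab, Nat.mul_div_cancel_left _ h1,
      Nat.mul_div_cancel_left _ h2]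
  right_inv := by
    rintro ⟨m, ⟨a, ha⟩, hb⟩
    have h1 : 0 < Q * h := Nat.mul_pos hQ hh
    apply Subtype.ext
    change Q / k * h * (m * k / (Q * h)) = m
    rw [ha, Nat.mul_div_cancel_left _ h1]
    apply Nat.eq_of_mul_eq_mul_right hk
    rw [OE10_left hQ hh hkQ, ha]

private theorem OE10_key (F : ℕ → ℕ → ℕ → ℂ) {Q h k h' k' : ℕ} (hQ : 0 < Q) (hh : 1 ≤ h) (hk : 1 ≤ k) (hh' : 1 ≤ h')
    (hkQ : k ∣ Q) (p : OE10_A h k h' k') :
    (if (h * k') * p.1.1 = (h' * k) * p.1.2 then F p.1.1 p.1.2 (Q / k * h * p.1.1) else 0) =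
      (fun m : ℕ => if (Q * h ∣ m * k) ∧ (Q * h' ∣ m * k') then
        F (m * k / (Q * h)) (m * k' / (Q * h')) m else 0) (OE10_e hQ hh hk hh' hkQ p : OE10_B Q h k h' k') := by
  obtain ⟨⟨a, b⟩, hab⟩ := p
  have h1 : 0 < Q * h := Nat.mul_pos hQ hh
  have h2 : 0 < Q * h' := Nat.mul_pos hQ hh'
  have hab' : (h * k') * a = (h' * k) * b := hab
  change (if (h * k') * a = (h' * k) * b then F a b (Q / k * h * a) else 0) =
    if (Q * h ∣ Q / k * h * a * k) ∧ (Q * h' ∣ Q / k * h * a * k') then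
        F (Q / k * h * a * k / (Q * h)) (Q / k * h * a * k' / (Q * h')) (Q / k * h * a) else 0
  rw [if_pos hab', OE10_left hQ hh hkQ, OE10_right hQ hh hkQ hab', Nat.mul_div_cancel_left _ h1,
      Nat.mul_div_cancel_left _ h2, if_pos ⟨Dvd.intro _ rfl, Dvd.intro _ rfl⟩]

private theorem OE10_dvd {H k : ℕ} (hk : 1 ≤ k) (hkH : k ≤ H) : k ∣ H.factorial :=
  Nat.dvd_factorial hk hkH

/-- General form of the change of variables, `Q = H!`.
PROOF. For `p` with `h k' p.1 = h' k p.2` put `m = (Q/k) h p.1 = (Q/k') h' p.2` (`k, k' ∣ Q`); then `m k = Q h p.1`, `m k' = Q h' p.2`. Conversely if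
`Q h ∣ m k` and `Q h' ∣ m k'` put `p = (m k/(Q h), m k'/(Q h'))`. These are inverse bijections between `{p | h k' p.1 = h' k p.2}` and
`{m | Q h ∣ m k ∧ Q h' ∣ m k'}`. Use `tsum_eq_tsum_of_ne_zero_bij`, or `Equiv.tsum_eq` on the two subtypes together with `tsum_subtype`. -/
theorem E_bij (F : ℕ → ℕ → ℕ → ℂ) {H h k h' k' : ℕ} (hh : 1 ≤ h) (hk : 1 ≤ k) (hkH : k ≤ H) (hh' : 1 ≤ h') (hk' : 1 ≤ k')
    (hkH' : k' ≤ H) :
    (∑' p : ℕ × ℕ, if (h * k') * p.1 = (h' * k) * p.2 then F p.1 p.2 (H.factorial / k * h * p.1) else 0) =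
      ∑' m : ℕ, if (H.factorial * h ∣ m * k) ∧ (H.factorial * h' ∣ m * k') then
        F (m * k / (H.factorial * h)) (m * k' / (H.factorial * h')) m else 0 := by
  have hQ : 0 < H.factorial := Nat.factorial_pos H
  have hkQ := OE10_dvd hk hkH
  have e1 := tsum_subtype_eq_of_support_subset (s := OE10_A h k h' k')
    (f := fun p : ℕ × ℕ => if (h * k') * p.1 = (h' * k) * p.2 then F p.1 p.2 (H.factorial / k * h * p.1) else 0)
    (by
      intro p hp
      rw [Function.mem_support] at hp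
      by_contra hc
      exact hp (if_neg hc))
  have e2 := tsum_subtype_eq_of_support_subset (s := OE10_B H.factorial h k h' k')
    (f := fun m : ℕ => if (H.factorial * h ∣ m * k) ∧ (H.factorial * h' ∣ m * k') then
        F (m * k / (H.factorial * h)) (m * k' / (H.factorial * h')) m else 0)
    (by
      intro p hp
      rw [Function.mem_support] at hp
      by_contra hc
      exact hp (if_neg hc))
  rw [← e1, ← e2, ← (OE10_e hQ hh hk hh' hkQ).tsum_eq]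
  exact tsum_congr fun p => OE10_key F hQ hh hk hh' hkQ p

theorem E_bij_summable (F : ℕ → ℕ → ℕ → ℂ) {H h k h' k' : ℕ} (hh : 1 ≤ h) (hk : 1 ≤ k) (hkH : k ≤ H) (hh' : 1 ≤ h')
    (hk' : 1 ≤ k') (hkH' : k' ≤ H)
    (hs : Summable fun p : ℕ × ℕ => if (h * k') * p.1 = (h' * k) * p.2 then F p.1 p.2 (H.factorial / k * h * p.1) else 0) :
    Summable fun m : ℕ => if (H.factorial * h ∣ m * k) ∧ (H.factorial * h' ∣ m * k') then
        F (m * k / (H.factorial * h)) (m * k' / (H.factorial * h')) m else 0 := by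
  have hQ : 0 < H.factorial := Nat.factorial_pos H
  have hkQ := OE10_dvd hk hkH
  have e2 := (Subtype.val_injective (p := fun m => m ∈ OE10_B H.factorial h k h' k')).summable_iff
    (f := fun m : ℕ => if (H.factorial * h ∣ m * k) ∧ (H.factorial * h' ∣ m * k') then
        F (m * k / (H.factorial * h)) (m * k' / (H.factorial * h')) m else 0)
    (by
      intro m hm
      refine if_neg fun hc => hm ⟨⟨m, hc⟩, rfl⟩)
  rw [← e2, ← (OE10_e hQ hh hk hh' hkQ).summable_iff]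
  have e3 := hs.comp_injective (Subtype.val_injective (p := fun m => m ∈ OE10_A h k h' k'))
  refine e3.congr fun p => ?_
  exact OE10_key F hQ hh hk hh' hkQ p

/-- PROOF. On the diagonal `Eph ε h k h' k' p = 2π (zz + conj zz) h p.1/k = 4π sin ε (h p.1/k)` is real, and `h p.1/k = m/Q` with `m = (Q/k) h p.1`. So
`Etm p = lam p.1 * conj (lam p.2) * Psi al om (4π sin ε (m/Q))` (`E_ker_real`). Apply `E_bij`, `E_bij_summable` with
`F n n' m = lam n * conj (lam n') * Psi al om (4π sin ε (m/Q))`; summability from `E_tm_summable`. -/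
theorem E_diag {lam : ℕ → ℂ} {B al om ε : ℝ} (hlam : ∀ n, ‖lam n‖ ≤ B * n) (hal : 0 < al) (hom : 0 ≤ om)
    (hε : 0 < ε) (hε' : ε ≤ 1 / 10) {H h k h' k' : ℕ} (hh : 1 ≤ h) (hk : 1 ≤ k) (hkH : k ≤ H) (hh' : 1 ≤ h')
    (hk' : 1 ≤ k') (hkH' : k' ≤ H) :
    (Summable fun m : ℕ => (if H.factorial * h ∣ m * k then lam (m * k / (H.factorial * h)) else 0) *
      conj (if H.factorial * h' ∣ m * k' then lam (m * k' / (H.factorial * h')) else 0) *
      (Psi al om (4 * Real.pi * Real.sin ε * ((m : ℝ) / (H.factorial : ℝ))) : ℂ)) ∧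
    ED lam al om ε h k h' k' = ∑' m : ℕ, (if H.factorial * h ∣ m * k then lam (m * k / (H.factorial * h)) else 0) *
      conj (if H.factorial * h' ∣ m * k' then lam (m * k' / (H.factorial * h')) else 0) *
      (Psi al om (4 * Real.pi * Real.sin ε * ((m : ℝ) / (H.factorial : ℝ))) : ℂ) := by
  have hQ : 0 < H.factorial := Nat.factorial_pos H
  have hkQ := OE10_dvd hk hkH
  set F : ℕ → ℕ → ℕ → ℂ := fun n n' m => lam n * conj (lam n') *
    (Psi al om (4 * Real.pi * Real.sin ε * ((m : ℝ) / (H.factorial : ℝ))) : ℂ) with hF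
  -- the terms
  have hterm : ∀ p : ℕ × ℕ, (if (h * k') * p.1 = (h' * k) * p.2 then Etm lam al om ε h k h' k' p else 0) =
      (if (h * k') * p.1 = (h' * k) * p.2 then F p.1 p.2 (H.factorial / k * h * p.1) else 0) := by
    intro p
    split_ifs with hp
    · have hkR : (k : ℝ) ≠ 0 := by positivity
      have hkR' : (k' : ℝ) ≠ 0 := by positivity
      have hQR : (H.factorial : ℝ) ≠ 0 := by positivity
      have e1 : ((h : ℝ) * p.1 / k) = ((H.factorial / k * h * p.1 : ℕ) : ℝ) / (H.factorial : ℝ) := by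
        have := OE10_left hQ hh hkQ p.1
        rw [div_eq_div_iff hkR hQR]
        have h3 : ((H.factorial / k * h * p.1 * k : ℕ) : ℝ) = ((H.factorial * h * p.1 : ℕ) : ℝ) := by rw [this]
        push_cast at h3 ⊢
        linarith
      have e2 : ((h' : ℝ) * p.2 / k') = ((h : ℝ) * p.1 / k) := by
        rw [div_eq_div_iff hkR' hkR]
        have h3 : (((h * k') * p.1 : ℕ) : ℝ) = (((h' * k) * p.2 : ℕ) : ℝ) := by rw [hp]
        push_cast at h3
        linarith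
      have e3 : Eph ε h k h' k' p =
          ((4 * Real.pi * Real.sin ε * (((H.factorial / k * h * p.1 : ℕ) : ℝ) / (H.factorial : ℝ)) : ℝ) : ℂ) := by
        have c1 : ((h : ℂ) * p.1 / k) = (((h : ℝ) * p.1 / k : ℝ) : ℂ) := by push_cast; ring
        have c2 : ((h' : ℂ) * p.2 / k') = (((h' : ℝ) * p.2 / k' : ℝ) : ℂ) := by push_cast; ring
        have c3 : zz ε + conj (zz ε) = ((2 * Real.sin ε : ℝ) : ℂ) := by
          rw [Complex.add_conj, zz_re]
        rw [Eph, c1, c2, e2]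
        rw [← add_mul, c3, e1]
        push_cast
        ring
      rw [hF]
      simp only [Etm]
      rw [e3, E_ker_real]
    · rfl
  have hs0 : Summable (fun p : ℕ × ℕ => if (h * k') * p.1 = (h' * k) * p.2 then Etm lam al om ε h k h' k' p else 0) := by
    refine Summable.of_norm_bounded (E_tm_summable hlam hal hom hε hε' hh hk hh' hk') fun p => ?_
    split_ifs
    · exact le_rfl
    · simp
  have hs1 : Summable (fun p : ℕ × ℕ => if (h * k') * p.1 = (h' * k) * p.2 then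
      F p.1 p.2 (H.factorial / k * h * p.1) else 0) := hs0.congr hterm
  have hrhs : ∀ m : ℕ, (if (H.factorial * h ∣ m * k) ∧ (H.factorial * h' ∣ m * k') then
        F (m * k / (H.factorial * h)) (m * k' / (H.factorial * h')) m else 0) =
      (if H.factorial * h ∣ m * k then lam (m * k / (H.factorial * h)) else 0) *
      conj (if H.factorial * h' ∣ m * k' then lam (m * k' / (H.factorial * h')) else 0) *
      (Psi al om (4 * Real.pi * Real.sin ε * ((m : ℝ) / (H.factorial : ℝ))) : ℂ) := by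
    intro m
    by_cases c1 : H.factorial * h ∣ m * k
    · by_cases c2 : H.factorial * h' ∣ m * k'
      · rw [if_pos ⟨c1, c2⟩, if_pos c1, if_pos c2]
      · rw [if_neg (fun hc => c2 hc.2), if_neg c2]
        simp
    · rw [if_neg (fun hc => c1 hc.1), if_neg c1]
      simp
  constructor
  · exact (E_bij_summable F hh hk hkH hh' hk' hkH' hs1).congr hrhs
  · rw [ED, tsum_congr hterm, E_bij F hh hk hkH hh' hk' hkH']
    exact tsum_congr hrhs

end OO

end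

section

/-! # Row OE08: the terms with negative shift; the integral of one product -/

open Complex MeasureTheory Set Filter Topology
open scoped ComplexConjugate

namespace OO

/-- PROOF. `Eph ε h k h' k' (n, n') = conj (Eph ε h' k' h k (n', n))`, `E_ker_conj`. -/
theorem E_tm_conj (lam : ℕ → ℂ) (al om ε : ℝ) (h k h' k' : ℕ) (p : ℕ × ℕ) :
    Etm lam al om ε h k h' k' p = conj (Etm lam al om ε h' k' h k (p.2, p.1)) := by
  have e1 : Eph ε h k h' k' p = conj (Eph ε h' k' h k (p.2, p.1)) := by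
    unfold Eph
    simp only [map_mul, map_add, map_div₀, Complex.conj_conj, Complex.conj_natCast, Complex.conj_ofReal, map_ofNat]
    ring
  unfold Etm
  rw [e1, E_ker_conj]
  simp only [map_mul, Complex.conj_conj]
  ring

/-- PROOF. `E_tm_conj`, `Complex.conj_tsum` and the equivalence `Prod.swap` (`Equiv.prodComm`, `Equiv.tsum_eq`). -/
theorem E_V (lam : ℕ → ℂ) (al om ε : ℝ) (h k h' k' r : ℕ) :
    (∑' p : ℕ × ℕ, if (h' * k) * p.2 = (h * k') * p.1 + (r + 1) then Etm lam al om ε h k h' k' p else 0) =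
      conj (EU lam al om ε h' k' h k r) := by
  unfold EU
  rw [Complex.conj_tsum, ← (Equiv.prodComm ℕ ℕ).tsum_eq]
  apply tsum_congr
  intro p
  show (if (h' * k) * p.1 = (h * k') * p.2 + (r + 1) then Etm lam al om ε h k h' k' (p.2, p.1) else 0) = _
  rw [apply_ite conj, map_zero]
  split_ifs
  · rw [E_tm_conj]
  · rfl

/-- PROOF. `E_pair`, `E_split` (with `a = h k'`, `c = h' k`; summability from `E_tm_summable`), `E_V`; summability of
`r ↦ conj (EU h' k' h k r)` gives that of `EU` for the exchanged indices. -/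
theorem E_one {lam : ℕ → ℂ} {B al om ε : ℝ} (hlam : ∀ n, ‖lam n‖ ≤ B * n) (hal : 0 < al) (hom : 0 ≤ om)
    (hε : 0 < ε) (hε' : ε ≤ 1 / 10) {h k h' k' : ℕ} (hh : 1 ≤ h) (hk : 1 ≤ k) (hh' : 1 ≤ h') (hk' : 1 ≤ k') :
    (Summable fun r => EU lam al om ε h k h' k' r) ∧
    ∫ x in Ioi (0 : ℝ), (Wt al om x : ℂ) * (FS lam (zz ε * x * h / k) * conj (FS lam (zz ε * x * h' / k'))) =
      ED lam al om ε h k h' k' + (∑' r, EU lam al om ε h k h' k' r) + ∑' r, conj (EU lam al om ε h' k' h k r) := by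
  have hs := (E_tm_summable hlam hal hom hε hε' hh hk hh' hk').of_norm
  obtain ⟨h1, _, h3⟩ := E_split hs (h * k') (h' * k)
  refine ⟨h1, ?_⟩
  rw [(E_pair hlam hal hom hε hε' hh hk hh' hk').2, h3]
  congr 1
  apply tsum_congr
  intro r
  exact E_V lam al om ε h k h' k' r

end OO

end

section

/-!
# Row OP04b: the series of a primitive character is the sum over its poles, up to a bounded error
-/

open Complex MeasureTheory Set Filter Topology

namespace OO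

theorem P04b_aux_tc {q : ℕ} (χ : DirichletCharacter ℂ q) : ‖tc χ‖ ≤ q := by
  unfold tc
  refine (norm_sum_le _ _).trans ?_
  have h : ∀ a ∈ Finset.Icc 1 q, ‖χ ((a : ℕ) : ZMod q) * exp (-(2 * Real.pi * I * a / q))‖ ≤ 1 := by
    intro a _
    rw [norm_mul]
    have h1 : ‖exp (-(2 * Real.pi * I * a / q))‖ = 1 := by
      have h2 : (-(2 * Real.pi * I * a / q) : ℂ) = ((-(2 * Real.pi * a / q) : ℝ) : ℂ) * I := by
        push_cast
        ring
      rw [h2, Complex.norm_exp_ofReal_mul_I]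
    rw [h1, mul_one]
    exact DirichletCharacter.norm_le_one χ _
  refine (Finset.sum_le_sum h).trans ?_
  simp

theorem P04b_aux_c {q : ℕ} [NeZero q] (χ : DirichletCharacter ℂ q) :
    ‖tc χ / (2 * Real.pi * q)‖ ≤ 1 := by
  have hq : (0 : ℝ) < q := by exact_mod_cast Nat.pos_of_ne_zero (NeZero.ne q)
  have hpi := Real.pi_gt_three
  have h1 : ‖(2 * Real.pi * q : ℂ)‖ = 2 * Real.pi * q := by
    have h2 : (2 * Real.pi * q : ℂ) = ((2 * Real.pi * q : ℝ) : ℂ) := by push_cast; ring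
    rw [h2, Complex.norm_real, Real.norm_of_nonneg (by positivity)]
  rw [norm_div, h1, div_le_one (by positivity)]
  refine (P04b_aux_tc χ).trans ?_
  exact le_mul_of_one_le_left hq.le (by linarith only [hpi])

/-- one term of the sum is at most `2q` when the pole is not the nearest one -/
theorem P04b_aux_term {q : ℕ} [NeZero q] (χ : DirichletCharacter ℂ q) (w : ℂ) (m0 m : ℕ)
    (hm : |q * w.im - m0| ≤ 1 / 2) (hne : m ≠ m0) :
    ‖χ ((m : ℕ) : ZMod q) / (w - I * m / q)‖ ≤ 2 * q := by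
  have hq : (0 : ℝ) < q := by exact_mod_cast Nat.pos_of_ne_zero (NeZero.ne q)
  have h1 : 1 / 2 ≤ |q * w.im - m| := by
    have h2 : (1 : ℝ) ≤ |(m : ℝ) - m0| := by
      have h3 : (1 : ℤ) ≤ |(m : ℤ) - m0| := by
        apply Int.one_le_abs
        omega
      exact_mod_cast h3
    have h4 : |(m : ℝ) - m0| ≤ |q * w.im - m| + |q * w.im - m0| := by
      have h5 : (m : ℝ) - m0 = -(q * w.im - m) + (q * w.im - m0) := by ring
      calc |(m : ℝ) - m0| = |-(q * w.im - m) + (q * w.im - m0)| := by rw [← h5]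
        _ ≤ |-(q * w.im - m)| + |q * w.im - m0| := abs_add_le _ _
        _ = _ := by rw [abs_neg]
    linarith only [h2, h4, hm]
  have him : (w - I * m / q).im = (q * w.im - m) / q := by
    have h2 : (w - I * m / q).im = w.im - m / q := by
      have h3 : (I * m / q : ℂ) = ((m / q : ℝ) : ℂ) * I := by push_cast; ring
      rw [h3, Complex.sub_im, Complex.mul_I_im, Complex.ofReal_re]
    rw [h2]
    field_simp
  have h3 : 1 / (2 * q) ≤ ‖w - I * m / q‖ := by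
    have h4 := Complex.abs_im_le_norm (w - I * m / q)
    rw [him, abs_div, abs_of_pos hq] at h4
    refine le_trans ?_ h4
    rw [div_le_div_iff₀ (by positivity) hq]
    have h5 := mul_le_mul_of_nonneg_right h1 (mul_pos two_pos hq).le
    linarith only [h5]
  rw [norm_div]
  have h5 : ‖χ ((m : ℕ) : ZMod q)‖ ≤ 1 := DirichletCharacter.norm_le_one χ _
  have h6 : (0 : ℝ) < 1 / (2 * q) := by positivity
  rw [div_le_iff₀ (h6.trans_le h3)]
  calc ‖χ ((m : ℕ) : ZMod q)‖ ≤ 1 := h5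
    _ = 2 * q * (1 / (2 * q)) := by field_simp
    _ ≤ 2 * q * ‖w - I * m / q‖ := mul_le_mul_of_nonneg_left h3 (by positivity)

/-- OP04b. PROOF. `m0 = round (q Im w)` as above. In the sum over `m ∈ Icc 1 M` the term `m = m0` (if `m0 ≥ 1`) is the one of P04_near; the other terms: `‖w - i m/q‖ ≥ |q Im w - m|/q ≥ 1/(2q)`, so each is `≤ 2q`, with the factor
`‖tc χ‖/(2πq) ≤ 1/(2π) ≤ 1`: together `≤ 2 q M`. If `m0 = 0` the term `χ⁻¹(0) tc χ/(2πq w)` of P04_near is `≤ 1/‖w‖`. So `C = 4 q exp(2πq) + 2q + 1` (`M ≥ 1`). -/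
theorem P04_main {q : ℕ} [NeZero q] (χ : DirichletCharacter ℂ q) (hχ : χ.IsPrimitive) : ∃ C : ℝ, 0 < C ∧ ∀ (w : ℂ) (M : ℕ), 0 < w.re → w.re ≤ 1 →
    0 ≤ w.im → q * w.im ≤ M - 1 / 2 →
    ‖Th χ w - tc χ / (2 * Real.pi * q) * ∑ m ∈ Finset.Icc 1 M, (χ⁻¹ : DirichletCharacter ℂ q) ((m : ℕ) : ZMod q) / (w - I * m / q)‖ ≤
      C * (M + 1 / ‖w‖) := by
  have hq : (0 : ℝ) < q := by exact_mod_cast Nat.pos_of_ne_zero (NeZero.ne q)
  refine ⟨4 * q * Real.exp (2 * Real.pi * q) + 2 * q + 1, by positivity, ?_⟩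
  intro w M h0 h1 hi hM
  have hqw : 0 ≤ q * w.im := by positivity
  have hM1 : (1 : ℝ) ≤ M := by
    have h2 : (0 : ℝ) < M := by linarith only [hqw, hM]
    exact_mod_cast h2
  set m0 : ℕ := ⌊q * w.im + 1 / 2⌋₊ with hm0
  have hfl : (m0 : ℝ) ≤ q * w.im + 1 / 2 := Nat.floor_le (by linarith only [hqw])
  have hfl2 : q * w.im + 1 / 2 < m0 + 1 := Nat.lt_floor_add_one _
  have hm : |q * w.im - m0| ≤ 1 / 2 := by
    rw [abs_le]
    constructor
    · linarith only [hfl]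
    · linarith only [hfl2]
  have hm0M : m0 ≤ M := by
    have h2 : (m0 : ℝ) ≤ M := by linarith only [hfl, hM]
    exact_mod_cast h2
  have hnear := P04_near χ hχ w h0 h1 m0 hm
  set c : ℂ := tc χ / (2 * Real.pi * q) with hc
  have hc1 : ‖c‖ ≤ 1 := P04b_aux_c χ
  set T : ℕ → ℂ := fun m => (χ⁻¹ : DirichletCharacter ℂ q) ((m : ℕ) : ZMod q) / (w - I * m / q) with hT
  have hnear' : ‖Th χ w - c * T m0‖ ≤ 4 * q * Real.exp (2 * Real.pi * q) := by
    have h2 : (χ⁻¹ : DirichletCharacter ℂ q) ((m0 : ℕ) : ZMod q) * tc χ /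
        (2 * Real.pi * q * (w - I * m0 / q)) = c * T m0 := by
      simp only [hc, hT]
      rw [div_mul_div_comm]
      ring
    rw [h2] at hnear
    exact hnear
  have hTle : ∀ m, m ≠ m0 → ‖T m‖ ≤ 2 * q := fun m hne => P04b_aux_term χ⁻¹ w m0 m hm hne
  have hw0 : 0 < ‖w‖ := by
    rw [norm_pos_iff]
    rintro rfl
    simp at h0
  have hinv : 0 < 1 / ‖w‖ := by positivity
  have hexp : 0 < Real.exp (2 * Real.pi * q) := Real.exp_pos _
  -- the rest of the sum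
  have hrest : ∀ S : Finset ℕ, (∀ m ∈ S, m ≠ m0) → S.card ≤ M → ‖c * ∑ m ∈ S, T m‖ ≤ 2 * q * M := by
    intro S hS hcard
    rw [norm_mul]
    have h2 : ‖∑ m ∈ S, T m‖ ≤ S.card * (2 * q) := by
      refine (norm_sum_le _ _).trans ?_
      refine (Finset.sum_le_sum fun m hm' => hTle m (hS m hm')).trans ?_
      simp
    have h3 : (S.card : ℝ) ≤ M := by exact_mod_cast hcard
    calc ‖c‖ * ‖∑ m ∈ S, T m‖ ≤ 1 * (S.card * (2 * q)) :=
          mul_le_mul hc1 h2 (norm_nonneg _) zero_le_one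
      _ = S.card * (2 * q) := one_mul _
      _ ≤ M * (2 * q) := mul_le_mul_of_nonneg_right h3 (by positivity)
      _ = 2 * q * M := by ring
  have hfinal : 4 * q * Real.exp (2 * Real.pi * q) + 1 / ‖w‖ + 2 * q * M ≤
      (4 * q * Real.exp (2 * Real.pi * q) + 2 * q + 1) * (M + 1 / ‖w‖) := by
    have e1 : 4 * q * Real.exp (2 * Real.pi * q) ≤ 4 * q * Real.exp (2 * Real.pi * q) * M :=
      le_mul_of_one_le_right (by positivity) hM1
    have e2 : 0 ≤ 4 * q * Real.exp (2 * Real.pi * q) * (1 / ‖w‖) := by positivity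
    have e3 : 0 ≤ 2 * q * (1 / ‖w‖) := by positivity
    linarith only [e1, e2, e3, hM1]
  by_cases hz : m0 = 0
  · have hsplit : Th χ w - c * ∑ m ∈ Finset.Icc 1 M, T m =
        (Th χ w - c * T m0) + c * T m0 - c * ∑ m ∈ Finset.Icc 1 M, T m := by ring
    have hT0 : ‖c * T m0‖ ≤ 1 / ‖w‖ := by
      rw [norm_mul]
      have h2 : ‖T m0‖ ≤ 1 / ‖w‖ := by
        simp only [hT, hz]
        rw [norm_div]
        have h3 : (w - I * ((0 : ℕ) : ℂ) / q : ℂ) = w := by simp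
        rw [h3]
        exact div_le_div_of_nonneg_right (DirichletCharacter.norm_le_one _ _) hw0.le
      calc ‖c‖ * ‖T m0‖ ≤ 1 * (1 / ‖w‖) := mul_le_mul hc1 h2 (norm_nonneg _) zero_le_one
        _ = _ := one_mul _
    have hr := hrest (Finset.Icc 1 M) (fun m hm' => by
      rw [Finset.mem_Icc] at hm'
      omega) (by simp)
    rw [hsplit]
    refine (norm_sub_le _ _).trans ?_
    refine (add_le_add ((norm_add_le _ _).trans (add_le_add hnear' hT0)) hr).trans hfinal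
  · have hmem : m0 ∈ Finset.Icc 1 M := Finset.mem_Icc.2 ⟨Nat.pos_of_ne_zero hz, hm0M⟩
    have hsplit : Th χ w - c * ∑ m ∈ Finset.Icc 1 M, T m =
        (Th χ w - c * T m0) - c * ∑ m ∈ (Finset.Icc 1 M).erase m0, T m := by
      rw [← Finset.add_sum_erase _ _ hmem]
      ring
    have hr := hrest ((Finset.Icc 1 M).erase m0) (fun m hm' => Finset.ne_of_mem_erase hm')
      ((Finset.card_erase_le).trans (by simp))
    rw [hsplit]
    refine (norm_sub_le _ _).trans ?_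
    refine (add_le_add hnear' hr).trans (le_trans ?_ hfinal)
    linarith only [hinv]

end OO

end

section

/-! # Row OE11: the diagonal sum -/

open Complex MeasureTheory Set Filter Topology
open scoped ComplexConjugate

namespace OO

/-- PROOF. `‖Cm m‖^2 = Cm m * conj (Cm m)`; expand both factors by `E_Cm` (four finite sums over `Icc 1 H`); the `m`-th term of `DS` (cast to `ℂ`) is
`∑ h k h' k', c h k * conj (c h' k') * (u m h k * conj (u m h' k') * Psi ..)` with `u m h k = if H! h ∣ m k then lam (..) else 0`. Exchange the finite sums with `∑' m`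
(`Summable.tsum_finsetSum`, summability from `E_diag`), and `E_diag`. -/
theorem E_DS (b lam : ArithmeticFunction ℂ) {B al om ε : ℝ} (hlam : ∀ n, ‖lam n‖ ≤ B * n) (hal : 0 < al) (hom : 0 ≤ om)
    (hε : 0 < ε) (hε' : ε ≤ 1 / 10) {H : ℕ} (hb : ∀ h, H < h → b h = 0) :
    (DS H (b * lam : ArithmeticFunction ℂ) (cj b) (fun y => Psi al om (4 * Real.pi * Real.sin ε * y)) : ℂ) =
      ∑ h ∈ Finset.Icc 1 H, ∑ k ∈ Finset.Icc 1 H, ∑ h' ∈ Finset.Icc 1 H, ∑ k' ∈ Finset.Icc 1 H,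
        (b h * conj (b k) / k) * conj (b h' * conj (b k') / k') * ED lam al om ε h k h' k' := by
  have hterm : ∀ m : ℕ, (((‖Cm H (b * lam : ArithmeticFunction ℂ) (cj b) m‖ ^ 2 *
      Psi al om (4 * Real.pi * Real.sin ε * ((m : ℝ) / (H.factorial : ℝ))) : ℝ)) : ℂ) =
      ∑ h ∈ Finset.Icc 1 H, ∑ k ∈ Finset.Icc 1 H, ∑ h' ∈ Finset.Icc 1 H, ∑ k' ∈ Finset.Icc 1 H,
        (b h * conj (b k) / k) * conj (b h' * conj (b k') / k') *
        ((if H.factorial * h ∣ m * k then lam (m * k / (H.factorial * h)) else 0) *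
          conj (if H.factorial * h' ∣ m * k' then lam (m * k' / (H.factorial * h')) else 0) *
          (Psi al om (4 * Real.pi * Real.sin ε * ((m : ℝ) / (H.factorial : ℝ))) : ℂ)) := by
    intro m
    have h1 : ((‖Cm H (b * lam : ArithmeticFunction ℂ) (cj b) m‖ ^ 2 : ℝ) : ℂ) =
        Cm H (b * lam : ArithmeticFunction ℂ) (cj b) m * conj (Cm H (b * lam : ArithmeticFunction ℂ) (cj b) m) := by
      rw [Complex.mul_conj, Complex.normSq_eq_norm_sq]
    rw [ofReal_mul, h1, E_Cm b lam hb m, map_sum]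
    simp only [map_sum]
    rw [Finset.sum_mul, Finset.sum_mul]
    refine Finset.sum_congr rfl fun h _ => ?_
    rw [Finset.sum_mul, Finset.sum_mul]
    refine Finset.sum_congr rfl fun k _ => ?_
    rw [Finset.mul_sum, Finset.sum_mul]
    refine Finset.sum_congr rfl fun h' _ => ?_
    rw [Finset.mul_sum, Finset.sum_mul]
    refine Finset.sum_congr rfl fun k' _ => ?_
    rw [map_mul conj (b h' * conj (b k') / k')]
    ring
  have hs : HasSum (fun m : ℕ => (((‖Cm H (b * lam : ArithmeticFunction ℂ) (cj b) m‖ ^ 2 *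
      Psi al om (4 * Real.pi * Real.sin ε * ((m : ℝ) / (H.factorial : ℝ))) : ℝ)) : ℂ))
      (∑ h ∈ Finset.Icc 1 H, ∑ k ∈ Finset.Icc 1 H, ∑ h' ∈ Finset.Icc 1 H, ∑ k' ∈ Finset.Icc 1 H,
        (b h * conj (b k) / k) * conj (b h' * conj (b k') / k') * ED lam al om ε h k h' k') := by
    simp only [hterm]
    refine hasSum_sum fun h hh => hasSum_sum fun k hk => hasSum_sum fun h' hh' =>
      hasSum_sum fun k' hk' => ?_
    rw [Finset.mem_Icc] at hh hk hh' hk'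
    have hd := E_diag (lam := lam) hlam hal hom hε hε' hh.1 hk.1 hk.2 hh'.1 hk'.1 hk'.2
    have hsum := hd.1.hasSum
    rw [← hd.2] at hsum
    exact hsum.mul_left _
  rw [DS, Complex.ofReal_tsum]
  exact hs.tsum_eq

end OO

end

section

/-!
# Row OP12b: the sum over the poles is at most the diagonal sum
-/

open Complex MeasureTheory Set Filter Topology
open scoped ComplexConjugate

namespace OO

/-- auxiliary: `Ψ ≥ 0` -/
theorem P12b_aux_Psi (ω P : ℝ) : 0 ≤ Psi 1 ω P := by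
  unfold Psi
  apply integral_nonneg
  intro x
  unfold Wt
  positivity

/-- OP12b. PROOF. Every `ξ` in the image is `n/K0!` with a unique `n ≥ 1` (P11_px), and `ξ ≤ X0` gives `n U H ≤ X0 K0! U H ≤ M K0!` so `PC .. ξ = Cm .. n` (P11_Cm). By P10_psi each term is
`≤ e³ (ω/q) ‖Cm n‖² Ψ(ω/q · n/K0!)`; a finite sum of terms of the series of nonnegative terms (P12_summable, P10_decay) is at most `DS` (`Summable.sum_le_tsum`, the map `ξ ↦ n` is injective: `Finset.sum_nbij` or `Finset.sum_image`). -/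
theorem P12_main (H U M K0 q : ℕ) (b : ArithmeticFunction ℂ) (f1 f2 : ℕ → ℂ) (w : ℝ → ℝ) (X0 ω : ℝ) (hb : ∀ h, H < h → b h = 0)
    (hb1 : ∀ h, ‖b h‖ ≤ h) (hf2 : ∀ n, ‖f2 n‖ ≤ 1) (hw : ∀ u : ℕ, U < u → w u = 0) (hK : U * H ≤ K0) (hq : 1 ≤ q) (hω : 0 < ω) (hω1 : ω ≤ 1 / 2)
    (hX : X0 * (U * H) ≤ M) :
    ∑ ξ ∈ ((PJ H U M).image px).filter (fun ξ => ((ξ : ℚ) : ℝ) ≤ X0), ‖PC H U M b f1 f2 w ξ‖ ^ 2 * (Wt 1 ω (((ξ : ℚ) : ℝ) / q) / ((ξ : ℚ) : ℝ)) ≤
      Real.exp 3 * (ω / q) * DS K0 (LA f2 0 0 * cj b : ArithmeticFunction ℂ) (FA f1 w * b : ArithmeticFunction ℂ) (fun y => Psi 1 (ω / q) (ω / q * y)) := by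
  classical
  set g : ℝ → ℝ := fun y => Psi 1 (ω / q) (ω / q * y) with hg
  set a1 : ArithmeticFunction ℂ := LA f2 0 0 * cj b with ha1
  set b1 : ArithmeticFunction ℂ := FA f1 w * b with hb1'
  have hq0 : (0 : ℝ) < q := by exact_mod_cast hq
  have hωq : 0 < ω / q := div_pos hω hq0
  have hK0 : (0 : ℝ) < (K0.factorial : ℝ) := by exact_mod_cast K0.factorial_pos
  set F : ℕ → ℝ := fun n => ‖Cm K0 a1 b1 n‖ ^ 2 * g ((n : ℝ) / (K0.factorial : ℝ)) with hF
  have hsum : Summable F := P12_summable K0 b f1 f2 w (ω / q) (ω / q) hb1 hf2 hωq hωq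
  have hF0 : ∀ n, 0 ≤ F n := fun n => mul_nonneg (by positivity) (P12b_aux_Psi _ _)
  set f : ℚ → ℕ := fun ξ => (ξ * (K0.factorial : ℚ)).num.toNat with hf
  set s := ((PJ H U M).image px).filter (fun ξ => ((ξ : ℚ) : ℝ) ≤ X0) with hs
  have hfx : ∀ n : ℕ, f ((n : ℚ) / (K0.factorial : ℚ)) = n := by
    intro n
    have hK0' : (K0.factorial : ℚ) ≠ 0 := by exact_mod_cast K0.factorial_ne_zero
    simp only [hf]
    rw [div_mul_cancel₀ _ hK0']
    simp
  have hkey : ∀ ξ ∈ s, 1 ≤ f ξ ∧ ξ = (f ξ : ℚ) / (K0.factorial : ℚ) := by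
    intro ξ hξ
    rw [hs, Finset.mem_filter, Finset.mem_image] at hξ
    obtain ⟨⟨j, hj, rfl⟩, -⟩ := hξ
    obtain ⟨n, hn, hjn⟩ := P11_px H U M K0 hK j hj
    rw [hjn, hfx n]
    exact ⟨hn, rfl⟩
  have hterm : ∀ ξ ∈ s, ‖PC H U M b f1 f2 w ξ‖ ^ 2 * (Wt 1 ω (((ξ : ℚ) : ℝ) / q) / ((ξ : ℚ) : ℝ)) ≤
      Real.exp 3 * (ω / q) * F (f ξ) := by
    intro ξ hξ
    obtain ⟨hn, hξe⟩ := hkey ξ hξ
    have hξX : ((ξ : ℚ) : ℝ) ≤ X0 := (Finset.mem_filter.mp hξ).2
    set n := f ξ with hnf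
    have hξr : ((ξ : ℚ) : ℝ) = (n : ℝ) / (K0.factorial : ℝ) := by
      rw [hξe]; push_cast; rfl
    have hn0 : (0 : ℝ) < n := by exact_mod_cast hn
    have hξ0 : 0 < ((ξ : ℚ) : ℝ) := by rw [hξr]; positivity
    have hM : n * (U * H) ≤ M * K0.factorial := by
      have h1 : ((n : ℝ) / (K0.factorial : ℝ)) * (U * H) ≤ M := by
        refine le_trans ?_ hX
        rw [← hξr]
        gcongr
      have h2 : (n : ℝ) * (U * H) ≤ M * K0.factorial := by
        rw [div_mul_eq_mul_div, div_le_iff₀ hK0] at h1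
        exact h1
      exact_mod_cast h2
    have hC := P11_Cm H U M K0 n b f1 f2 w hb hw hK hn hM
    have hP := P10_psi ω ((ξ : ℚ) : ℝ) q hq hω hω1 hξ0
    have hPC : PC H U M b f1 f2 w ξ = Cm K0 a1 b1 n := by rw [hC, ← hξe]
    rw [hPC]
    simp only [hF, hg]
    rw [← hξr]
    calc ‖Cm K0 a1 b1 n‖ ^ 2 * (Wt 1 ω (((ξ : ℚ) : ℝ) / q) / ((ξ : ℚ) : ℝ))
        ≤ ‖Cm K0 a1 b1 n‖ ^ 2 * (Real.exp 3 * (ω / q) * Psi 1 (ω / q) (ω / q * ((ξ : ℚ) : ℝ))) := by gcongr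
      _ = _ := by ring
  have hinj : ∀ x ∈ s, ∀ y ∈ s, f x = f y → x = y := by
    intro x hx y hy hxy
    rw [(hkey x hx).2, (hkey y hy).2, hxy]
  calc ∑ ξ ∈ s, ‖PC H U M b f1 f2 w ξ‖ ^ 2 * (Wt 1 ω (((ξ : ℚ) : ℝ) / q) / ((ξ : ℚ) : ℝ))
      ≤ ∑ ξ ∈ s, Real.exp 3 * (ω / q) * F (f ξ) := Finset.sum_le_sum hterm
    _ = Real.exp 3 * (ω / q) * ∑ ξ ∈ s, F (f ξ) := by rw [Finset.mul_sum]
    _ = Real.exp 3 * (ω / q) * ∑ n ∈ s.image f, F n := by rw [Finset.sum_image hinj]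
    _ ≤ Real.exp 3 * (ω / q) * ∑' n, F n := by
        gcongr
        exact hsum.sum_le_tsum _ (fun n _ => hF0 n)

/-- OP12c. PROOF. For `ξ > X0 > 0`: `Wt 1 ω (ξ/q)/ξ ≤ exp(-ω X0/q)/X0`, and `∑_ξ ‖PC ξ‖² ≤ (∑_ξ ‖PC ξ‖)² ≤ (∑_j ‖pc j‖)² ≤ N²` (the fibres of `px` are disjoint: `Finset.sum_fiberwise_of_maps_to`). -/
theorem P12_tail (H U M q : ℕ) (b f1 f2 : ℕ → ℂ) (w : ℝ → ℝ) (X0 ω N : ℝ) (hq : 1 ≤ q) (hω : 0 < ω) (hX : 0 < X0)
    (hN : ∑ j ∈ PJ H U M, ‖pc b f1 f2 w j‖ ≤ N) :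
    ∑ ξ ∈ ((PJ H U M).image px).filter (fun ξ => ¬ ((ξ : ℚ) : ℝ) ≤ X0), ‖PC H U M b f1 f2 w ξ‖ ^ 2 * (Wt 1 ω (((ξ : ℚ) : ℝ) / q) / ((ξ : ℚ) : ℝ)) ≤
      N ^ 2 * (Real.exp (-(ω * X0 / q)) / X0) := by
  classical
  set s := ((PJ H U M).image px).filter (fun ξ => ¬ ((ξ : ℚ) : ℝ) ≤ X0) with hs
  have hq0 : (0 : ℝ) < q := by exact_mod_cast hq
  have hN0 : 0 ≤ N := le_trans (Finset.sum_nonneg (fun j _ => norm_nonneg _)) hN
  have hS : ∑ ξ ∈ s, ‖PC H U M b f1 f2 w ξ‖ ≤ N := by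
    calc ∑ ξ ∈ s, ‖PC H U M b f1 f2 w ξ‖ ≤ ∑ ξ ∈ (PJ H U M).image px, ‖PC H U M b f1 f2 w ξ‖ :=
          Finset.sum_le_sum_of_subset_of_nonneg (Finset.filter_subset _ _) (fun _ _ _ => norm_nonneg _)
      _ ≤ ∑ ξ ∈ (PJ H U M).image px, ∑ j ∈ (PJ H U M).filter (fun j => px j = ξ), ‖pc b f1 f2 w j‖ :=
          Finset.sum_le_sum (fun ξ _ => norm_sum_le _ _)
      _ = ∑ j ∈ PJ H U M, ‖pc b f1 f2 w j‖ :=
          Finset.sum_fiberwise_of_maps_to (fun j hj => Finset.mem_image_of_mem px hj) _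
      _ ≤ N := hN
  have hone : ∀ ξ ∈ s, ‖PC H U M b f1 f2 w ξ‖ ≤ N := by
    intro ξ hξ
    exact (Finset.single_le_sum (f := fun ξ => ‖PC H U M b f1 f2 w ξ‖) (fun _ _ => norm_nonneg _) hξ).trans hS
  have hW : ∀ ξ ∈ s, Wt 1 ω (((ξ : ℚ) : ℝ) / q) / ((ξ : ℚ) : ℝ) ≤ Real.exp (-(ω * X0 / q)) / X0 := by
    intro ξ hξ
    have hξX : X0 < ((ξ : ℚ) : ℝ) := not_le.mp (Finset.mem_filter.mp hξ).2
    have hξ0 : 0 < ((ξ : ℚ) : ℝ) := hX.trans hξX
    have h1 : Wt 1 ω (((ξ : ℚ) : ℝ) / q) ≤ Real.exp (-(ω * X0 / q)) := by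
      unfold Wt
      apply Real.exp_le_exp.mpr
      have h2 : 0 ≤ 1 / (((ξ : ℚ) : ℝ) / q) := by positivity
      have h3 : ω * X0 / q ≤ ω * (((ξ : ℚ) : ℝ) / q) := by
        rw [← mul_div_assoc]; gcongr
      linarith
    gcongr
  set K : ℝ := Real.exp (-(ω * X0 / q)) / X0 with hK
  have hK0 : 0 ≤ K := by positivity
  calc ∑ ξ ∈ s, ‖PC H U M b f1 f2 w ξ‖ ^ 2 * (Wt 1 ω (((ξ : ℚ) : ℝ) / q) / ((ξ : ℚ) : ℝ))
      ≤ ∑ ξ ∈ s, (N * ‖PC H U M b f1 f2 w ξ‖) * K := by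
        apply Finset.sum_le_sum
        intro ξ hξ
        have h1 := hone ξ hξ
        have h2 := hW ξ hξ
        have h3 : ‖PC H U M b f1 f2 w ξ‖ ^ 2 ≤ N * ‖PC H U M b f1 f2 w ξ‖ := by
          rw [sq]; gcongr
        exact (mul_le_mul_of_nonneg_left h2 (by positivity)).trans (mul_le_mul_of_nonneg_right h3 hK0)
    _ = N * (∑ ξ ∈ s, ‖PC H U M b f1 f2 w ξ‖) * K := by
        rw [← Finset.sum_mul, ← Finset.mul_sum]
    _ ≤ N * N * K := by gcongr
    _ = N ^ 2 * K := by ring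

end OO

end

section

/-!
# Row P3h: the function `F_lam` of a product with one short variable, and the crude bound of `g`
-/

open Complex MeasureTheory Set Filter Topology
open scoped ComplexConjugate

namespace OO

theorem P3h_aux_LA {q : ℕ} [NeZero q] (χ : DirichletCharacter ℂ q) (y : ℝ) (v : ℕ) (hv : v ≠ 0) :
    LA (chx χ y) 0 0 v = chx χ y v := by
  have h0 : LZ.wt 0 = 1 := by simp [LZ.wt]
  simp [LA, hv, h0]

/-- the term of the divisor `u` -/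
noncomputable def P3h_auxT {q : ℕ} [NeZero q] (χ : DirichletCharacter ℂ q) (y : ℝ) (f : ℕ → ℂ) (wt : ℝ → ℝ) (u n : ℕ) : ℂ :=
  if u ∣ n ∧ n ≠ 0 then f u * (wt u : ℂ) * chx χ y (n / u) else 0

theorem P3h_aux_mul {q : ℕ} [NeZero q] (χ : DirichletCharacter ℂ q) (y : ℝ) (f : ℕ → ℂ) (wt : ℝ → ℝ) (U : ℕ)
    (hU : ∀ u : ℕ, U < u → wt u = 0) (n : ℕ) :
    (FA f wt * LA (chx χ y) 0 0 : ArithmeticFunction ℂ) n = ∑ u ∈ Finset.Icc 1 U, P3h_auxT χ y f wt u n := by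
  rcases Nat.eq_zero_or_pos n with rfl | hn
  · rw [ArithmeticFunction.map_zero]
    symm
    apply Finset.sum_eq_zero
    intro u _
    simp [P3h_auxT]
  · rw [ArithmeticFunction.mul_apply, Nat.sum_divisorsAntidiagonal (fun a b => FA f wt a * LA (chx χ y) 0 0 b)]
    have h1 : ∀ u ∈ n.divisors, FA f wt u * LA (chx χ y) 0 0 (n / u) = P3h_auxT χ y f wt u n := by
      intro u hu
      have hd := Nat.dvd_of_mem_divisors hu
      have hu0 : u ≠ 0 := by
        rintro rfl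
        simp at hu
      have hq0 : n / u ≠ 0 := by
        have := Nat.div_pos (Nat.le_of_dvd hn hd) (Nat.pos_of_ne_zero hu0)
        omega
      rw [P3h_aux_LA χ y _ hq0, P05_aux_FA f wt u hu0, P3h_auxT, if_pos ⟨hd, hn.ne'⟩]
    rw [Finset.sum_congr rfl h1]
    have h2 : ∑ u ∈ n.divisors, P3h_auxT χ y f wt u n = ∑ u ∈ n.divisors ∪ Finset.Icc 1 U, P3h_auxT χ y f wt u n := by
      apply Finset.sum_subset Finset.subset_union_left
      intro u _ hu
      rw [P3h_auxT, if_neg]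
      rintro ⟨h, h'⟩
      exact hu (Nat.mem_divisors.mpr ⟨h, h'⟩)
    have h3 : ∑ u ∈ Finset.Icc 1 U, P3h_auxT χ y f wt u n = ∑ u ∈ n.divisors ∪ Finset.Icc 1 U, P3h_auxT χ y f wt u n := by
      apply Finset.sum_subset Finset.subset_union_right
      intro u hu hu'
      have h4 : u ∈ n.divisors := by
        rcases Finset.mem_union.mp hu with h | h
        · exact h
        · exact absurd h hu'
      have hu0 : 0 < u := Nat.pos_of_mem_divisors h4
      have hlt : U < u := by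
        by_contra hcon
        exact hu' (Finset.mem_Icc.mpr ⟨hu0, by omega⟩)
      rw [P3h_auxT]
      split_ifs
      · rw [hU u hlt]
        simp
      · rfl
    rw [h2, h3]

theorem P3h_aux_comp {q : ℕ} [NeZero q] (χ : DirichletCharacter ℂ q) (y : ℝ) (f : ℕ → ℂ) (wt : ℝ → ℝ) (w : ℂ) (u : ℕ)
    (hu : 0 < u) (v : ℕ) :
    P3h_auxT χ y f wt u (u * (v + 1)) * exp (-(2 * Real.pi * ((u * (v + 1) : ℕ) : ℂ) * w)) =
      f u * (wt u : ℂ) * (chx χ y (v + 1) * exp (-(2 * Real.pi * ((v + 1 : ℕ) : ℂ) * (u * w)))) := by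
  have h1 : u ∣ u * (v + 1) ∧ u * (v + 1) ≠ 0 := ⟨dvd_mul_right _ _, by positivity⟩
  rw [P3h_auxT, if_pos h1, Nat.mul_div_cancel_left _ hu]
  have h2 : -(2 * (Real.pi : ℂ) * ((u * (v + 1) : ℕ) : ℂ) * w) = -(2 * Real.pi * ((v + 1 : ℕ) : ℂ) * (u * w)) := by
    push_cast
    ring
  rw [h2]
  ring

theorem P3h_aux_range {q : ℕ} [NeZero q] (χ : DirichletCharacter ℂ q) (y : ℝ) (f : ℕ → ℂ) (wt : ℝ → ℝ) (w : ℂ) (u : ℕ)
    (n : ℕ) (hn : n ∉ Set.range (fun v : ℕ => u * (v + 1))) :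
    P3h_auxT χ y f wt u n * exp (-(2 * Real.pi * n * w)) = 0 := by
  rw [P3h_auxT, if_neg, zero_mul]
  rintro ⟨⟨k, rfl⟩, h0⟩
  apply hn
  have hk : k ≠ 0 := by
    rintro rfl
    simp at h0
  exact ⟨k - 1, by
    have : k - 1 + 1 = k := by omega
    simp only [this]⟩

theorem P3h_aux_sum {q : ℕ} [NeZero q] (χ : DirichletCharacter ℂ q) (y : ℝ) (f : ℕ → ℂ) (wt : ℝ → ℝ) (w : ℂ) (hw : 0 < w.re)
    (u : ℕ) (hu : 0 < u) :
    Summable (fun n : ℕ => P3h_auxT χ y f wt u n * exp (-(2 * Real.pi * n * w))) := by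
  rw [← (P05_aux_inj u hu).summable_iff (P3h_aux_range χ y f wt w u)]
  have h1 : ((fun n : ℕ => P3h_auxT χ y f wt u n * exp (-(2 * Real.pi * n * w))) ∘ (fun v : ℕ => u * (v + 1))) =
      fun v : ℕ => f u * (wt u : ℂ) * (chx χ y (v + 1) * exp (-(2 * Real.pi * ((v + 1 : ℕ) : ℂ) * (u * w)))) := by
    funext v
    exact P3h_aux_comp χ y f wt w u hu v
  rw [h1]
  apply Summable.mul_left
  apply Summable.of_norm
  apply P3_summable
  simp only [Complex.mul_re, Complex.natCast_re, Complex.natCast_im, zero_mul, sub_zero]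
  positivity

theorem P3h_aux_tsum {q : ℕ} [NeZero q] (χ : DirichletCharacter ℂ q) (y : ℝ) (f : ℕ → ℂ) (wt : ℝ → ℝ) (w : ℂ)
    (u : ℕ) (hu : 0 < u) :
    ∑' n : ℕ, P3h_auxT χ y f wt u n * exp (-(2 * Real.pi * n * w)) = f u * (wt u : ℂ) * Th3 χ y (u * w) := by
  have hsup : Function.support (fun n : ℕ => P3h_auxT χ y f wt u n * exp (-(2 * Real.pi * n * w))) ⊆
      Set.range (fun v : ℕ => u * (v + 1)) := by
    intro n hn
    by_contra hcon
    exact hn (P3h_aux_range χ y f wt w u n hcon)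
  rw [← (P05_aux_inj u hu).tsum_eq hsup]
  have h1 : ∀ v : ℕ, P3h_auxT χ y f wt u (u * (v + 1)) * exp (-(2 * Real.pi * ((u * (v + 1) : ℕ) : ℂ) * w)) =
      f u * (wt u : ℂ) * (chx χ y (v + 1) * exp (-(2 * Real.pi * ((v + 1 : ℕ) : ℂ) * (u * w)))) :=
    P3h_aux_comp χ y f wt w u hu
  rw [tsum_congr h1, tsum_mul_left, Th3]

/-- PROOF. As P05_FS (OO/P_05.lean), with `chx χ y v` instead of `χ v`. -/
theorem P3_FS {q : ℕ} [NeZero q] (χ : DirichletCharacter ℂ q) (y : ℝ) (f : ℕ → ℂ) (wt : ℝ → ℝ) (U : ℕ) (hU : ∀ u : ℕ, U < u → wt u = 0)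
    (w : ℂ) (hw : 0 < w.re) : FS (FA f wt * LA (chx χ y) 0 0 : ArithmeticFunction ℂ) w = ∑ u ∈ Finset.Icc 1 U, f u * (wt u : ℂ) * Th3 χ y (u * w) := by
  have h1 : ∀ n : ℕ, (FA f wt * LA (chx χ y) 0 0 : ArithmeticFunction ℂ) n * exp (-(2 * Real.pi * n * w)) =
      ∑ u ∈ Finset.Icc 1 U, P3h_auxT χ y f wt u n * exp (-(2 * Real.pi * n * w)) := by
    intro n
    rw [P3h_aux_mul χ y f wt U hU n, Finset.sum_mul]
  rw [FS, tsum_congr h1, Summable.tsum_finsetSum]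
  · apply Finset.sum_congr rfl
    intro u hu
    exact P3h_aux_tsum χ y f wt w u (Finset.mem_Icc.mp hu).1
  · intro u hu
    exact P3h_aux_sum χ y f wt w hw u (Finset.mem_Icc.mp hu).1

/-- PROOF. As P06_crude (OO/P_06.lean) with P3_crude. -/
theorem P3_crude_g {q : ℕ} [NeZero q] (χ : DirichletCharacter ℂ q) (y : ℝ) (b f : ℕ → ℂ) (wt : ℝ → ℝ) (H U : ℕ) (B ε x : ℝ)
    (hU : ∀ u : ℕ, U < u → wt u = 0) (hf : ∀ n, ‖f n‖ ≤ 1) (hB : ∀ u : ℕ, |wt u| ≤ B) (hb : ∀ h, ‖b h‖ ≤ h) (hε : 0 < ε) (hε1 : ε ≤ 1)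
    (hx : 0 < x) : ‖gg b H (FA f wt * LA (chx χ y) 0 0 : ArithmeticFunction ℂ) ε x‖ ≤ 2 * B * H ^ 5 * U / (x * ε) := by
  obtain ⟨hre, -, hsin, -⟩ := P06_zz ε hε hε1
  have hsin0 : 0 < Real.sin ε := lt_of_lt_of_le (half_pos hε) hsin
  have hB0 : 0 ≤ B := (abs_nonneg _).trans (hB 0)
  have hterm : ∀ h ∈ Finset.Icc 1 H, ∀ k ∈ Finset.Icc 1 H,
      ‖b h * conj (b k) / k * FS (FA f wt * LA (chx χ y) 0 0 : ArithmeticFunction ℂ) (zz ε * x * h / k)‖ ≤
        (H : ℝ) ^ 2 * (U * (B * (2 * H / (x * ε)))) := by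
    intro h hh k hk
    obtain ⟨hh1, hhH⟩ := Finset.mem_Icc.mp hh
    obtain ⟨hk1, hkH⟩ := Finset.mem_Icc.mp hk
    have hh1' : (1 : ℝ) ≤ h := by exact_mod_cast hh1
    have hk1' : (1 : ℝ) ≤ k := by exact_mod_cast hk1
    have hhH' : (h : ℝ) ≤ H := by exact_mod_cast hhH
    have hkH' : (k : ℝ) ≤ H := by exact_mod_cast hkH
    have hw : 0 < (zz ε * x * h / k).re := by
      rw [P06_aux_re, hre]
      positivity
    rw [P3_FS χ y f wt U hU _ hw, norm_mul]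
    apply mul_le_mul
    · rw [norm_div, norm_mul, Complex.norm_conj, Complex.norm_natCast]
      rw [div_le_iff₀ (lt_of_lt_of_le one_pos hk1')]
      have h1 : ‖b h‖ * ‖b k‖ ≤ h * k := mul_le_mul (hb h) (hb k) (norm_nonneg _) (Nat.cast_nonneg h)
      have h2 : (h : ℝ) ≤ (H : ℝ) ^ 2 := by
        rw [pow_two]
        exact hhH'.trans (le_mul_of_one_le_left (Nat.cast_nonneg H) (hh1'.trans hhH'))
      calc ‖b h‖ * ‖b k‖ ≤ h * k := h1
        _ ≤ (H : ℝ) ^ 2 * k := mul_le_mul_of_nonneg_right h2 (Nat.cast_nonneg k)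
    · refine (norm_sum_le _ _).trans ?_
      have hc : ∀ u ∈ Finset.Icc 1 U, ‖f u * (wt u : ℂ) * Th3 χ y (u * (zz ε * x * h / k))‖ ≤ B * (2 * H / (x * ε)) := by
        intro u hu
        obtain ⟨hu1, -⟩ := Finset.mem_Icc.mp hu
        have hu1' : (1 : ℝ) ≤ u := by exact_mod_cast hu1
        have hre2 : ((u : ℂ) * (zz ε * x * h / k)).re = u * (Real.sin ε * (x * h / k)) := by
          have e : (u : ℂ) * (zz ε * x * h / k) = ((u : ℝ) : ℂ) * (zz ε * x * h / k) := by norm_cast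
          rw [e, re_ofReal_mul, P06_aux_re, hre]
        have hpos : 0 < u * (Real.sin ε * (x * h / k)) := by positivity
        have hTh : ‖Th3 χ y (u * (zz ε * x * h / k))‖ ≤ 2 * H / (x * ε) := by
          refine (P3_crude χ y _ (by rw [hre2]; exact hpos)).trans ?_
          rw [hre2]
          rw [div_le_div_iff₀ hpos (by positivity)]
          have h3 : x * ε / H ≤ 2 * (u * (Real.sin ε * (x * h / k))) := by
            have h4 : x * ε / H ≤ x * ε / k := div_le_div_of_nonneg_left (mul_pos hx hε).le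
              (lt_of_lt_of_le one_pos hk1') hkH'
            have h5 : x * ε / k ≤ 2 * (Real.sin ε * (x / k)) := by
              have : x * ε / k = x / k * ε := by ring
              rw [this]
              have hxk : 0 ≤ x / k := div_nonneg hx.le (Nat.cast_nonneg k)
              have h9 := mul_le_mul_of_nonneg_left hsin hxk
              linarith only [h9]
            have h6 : Real.sin ε * (x / k) ≤ u * (Real.sin ε * (x * h / k)) := by
              have h7 : Real.sin ε * (x / k) ≤ Real.sin ε * (x * h / k) := by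
                apply mul_le_mul_of_nonneg_left _ hsin0.le
                apply div_le_div_of_nonneg_right _ (Nat.cast_nonneg k)
                exact le_mul_of_one_le_right hx.le hh1'
              have h8 : 0 ≤ Real.sin ε * (x * h / k) := by positivity
              exact h7.trans (le_mul_of_one_le_left h8 hu1')
            linarith only [h4, h5, h6]
          have hH0 : (0 : ℝ) < H := lt_of_lt_of_le one_pos (hh1'.trans hhH')
          rw [div_le_iff₀ hH0] at h3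
          linarith only [h3]
        rw [norm_mul, norm_mul, Complex.norm_real, Real.norm_eq_abs]
        have h9 : ‖f u‖ * |wt u| ≤ B := by
          calc ‖f u‖ * |wt u| ≤ 1 * B := mul_le_mul (hf u) (hB u) (abs_nonneg _) zero_le_one
            _ = B := one_mul _
        exact mul_le_mul h9 hTh (norm_nonneg _) hB0
      refine (Finset.sum_le_card_nsmul _ _ _ hc).trans ?_
      rw [Nat.card_Icc, nsmul_eq_mul, Nat.add_sub_cancel]
    · exact norm_nonneg _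
    · positivity
  unfold gg
  refine (norm_sum_le _ _).trans ?_
  have h10 : ∀ h ∈ Finset.Icc 1 H, ‖∑ k ∈ Finset.Icc 1 H, b h * conj (b k) / k *
      FS (FA f wt * LA (chx χ y) 0 0 : ArithmeticFunction ℂ) (zz ε * x * h / k)‖ ≤
      H * ((H : ℝ) ^ 2 * (U * (B * (2 * H / (x * ε))))) := by
    intro h hh
    refine (norm_sum_le _ _).trans ?_
    refine (Finset.sum_le_card_nsmul _ _ _ (hterm h hh)).trans ?_
    rw [Nat.card_Icc, nsmul_eq_mul, Nat.add_sub_cancel]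
  refine (Finset.sum_le_card_nsmul _ _ _ h10).trans ?_
  rw [Nat.card_Icc, nsmul_eq_mul, Nat.add_sub_cancel]
  apply le_of_eq
  ring

end OO

end

section

/-! # Row OE07: the off-diagonal terms -/

open Complex MeasureTheory Set Filter Topology
open scoped ComplexConjugate

namespace OO

theorem E_zz_eq (ε : ℝ) : zz ε = I * exp (-((ε : ℂ) * I)) := by
  rw [zz]
  have : ((Real.pi / 2 - ε : ℝ) : ℂ) * I = (Real.pi / 2 : ℂ) * I + -((ε : ℂ) * I) := by
    push_cast; ring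
  rw [this, exp_add, Complex.exp_pi_div_two_mul_I]

theorem E_conj_zz (ε : ℝ) : conj (zz ε) = -I * exp ((ε : ℂ) * I) := by
  rw [E_zz_eq, map_mul, conj_I, ← exp_conj, map_neg, map_mul, conj_ofReal, conj_I]
  ring_nf

theorem E_ph_eq (ε : ℝ) {h k h' k' : ℕ} (hk : 1 ≤ k) (hk' : 1 ≤ k') {p : ℕ × ℕ} {r : ℕ}
    (hp : (h * k') * p.1 = (h' * k) * p.2 + r) :
    Eph ε h k h' k' p = 2 * Real.pi * (2 * Real.sin ε * ((h : ℂ) * p.1 / k) +
      I * exp ((ε : ℂ) * I) * ((r : ℂ) / (k * k'))) := by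
  have hk0 : (k : ℂ) ≠ 0 := by exact_mod_cast (by omega : k ≠ 0)
  have hk0' : (k' : ℂ) ≠ 0 := by exact_mod_cast (by omega : k' ≠ 0)
  have e1 : ((h : ℂ) * k') * p.1 = (h' * k) * p.2 + r := by exact_mod_cast hp
  have e2 : ((h' : ℂ) * p.2 / k') = (h : ℂ) * p.1 / k - r / (k * k') := by
    field_simp
    linear_combination -e1
  have e3 : zz ε + conj (zz ε) = 2 * Real.sin ε := by
    rw [add_conj, zz_re]
    push_cast
    ring
  rw [Eph, e2]
  have e4 : zz ε = 2 * Real.sin ε - conj (zz ε) := by rw [← e3]; ring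
  have e5 := E_conj_zz ε
  calc 2 * (Real.pi : ℂ) * (zz ε * ((h : ℂ) * p.1 / k) + conj (zz ε) * ((h : ℂ) * p.1 / k - r / (k * k')))
      = 2 * Real.pi * ((zz ε + conj (zz ε)) * ((h : ℂ) * p.1 / k) - conj (zz ε) * (r / (k * k'))) := by ring
    _ = _ := by rw [e3, e5]; ring

theorem E_ph_rot_re (ε : ℝ) {h k h' k' : ℕ} (hk : 1 ≤ k) (hk' : 1 ≤ k') {p : ℕ × ℕ} {r : ℕ}
    (hp : (h * k') * p.1 = (h' * k) * p.2 + r) :
    (Eph ε h k h' k' p * exp (-(((Real.pi / 6 : ℝ) : ℂ) * I))).re =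
      4 * Real.pi * ((h : ℝ) / k) * Real.sin ε * p.1 * Real.cos (Real.pi / 6) +
        2 * Real.pi * r * Real.sin (Real.pi / 6 - ε) / (k * k') := by
  rw [E_ph_eq ε hk hk' hp]
  have e1 : 2 * (Real.pi : ℂ) * (2 * Real.sin ε * ((h : ℂ) * p.1 / k) +
      I * exp ((ε : ℂ) * I) * ((r : ℂ) / (k * k'))) * exp (-(((Real.pi / 6 : ℝ) : ℂ) * I)) =
      ((2 * Real.pi * (2 * Real.sin ε * ((h : ℝ) * p.1 / k)) : ℝ) : ℂ) * exp (((-(Real.pi / 6) : ℝ) : ℂ) * I) +
        ((2 * Real.pi * ((r : ℝ) / (k * k')) : ℝ) : ℂ) * (exp (((ε - Real.pi / 6 : ℝ) : ℂ) * I) * I) := by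
    have e2 : exp (((ε - Real.pi / 6 : ℝ) : ℂ) * I) = exp ((ε : ℂ) * I) * exp (-(((Real.pi / 6 : ℝ) : ℂ) * I)) := by
      rw [← exp_add]
      congr 1
      push_cast
      ring
    rw [e2]
    have e3 : exp (((-(Real.pi / 6) : ℝ) : ℂ) * I) = exp (-(((Real.pi / 6 : ℝ) : ℂ) * I)) := by
      congr 1
      push_cast
      ring
    rw [e3]
    push_cast
    ring
  rw [e1, add_re, re_ofReal_mul, re_ofReal_mul, exp_ofReal_mul_I_re, mul_I_re, exp_ofReal_mul_I_im,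
    Real.cos_neg]
  have e4 : Real.sin (Real.pi / 6 - ε) = -Real.sin (ε - Real.pi / 6) := by
    rw [← Real.sin_neg]
    congr 1
    ring
  rw [e4]
  ring

theorem E_AB_cont (A B : ℂ) : ContinuousOn (fun x : ℝ => exp (-(A / x) - B * x)) (Ioi 0) := by
  intro x hx
  have hx : (0:ℝ) < x := hx
  have hx' : (x : ℂ) ≠ 0 := by exact_mod_cast hx.ne'
  refine ContinuousAt.continuousWithinAt ?_
  have h1 : ContinuousAt (fun y : ℝ => A / (y : ℂ)) x :=
    continuousAt_const.div Complex.continuous_ofReal.continuousAt hx'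
  have h2 : ContinuousAt (fun y : ℝ => B * (y : ℂ)) x := by fun_prop
  exact (h1.neg.sub h2).cexp

theorem E_AB_norm (A B : ℂ) (x : ℝ) : ‖exp (-(A / x) - B * x)‖ = Real.exp (-(A.re / x) - B.re * x) := by
  rw [norm_exp]
  congr 1
  simp

theorem E_AB_int {A B : ℂ} (hA : 0 < A.re) (hB : 0 < B.re) :
    IntegrableOn (fun x : ℝ => exp (-(A / x) - B * x)) (Ioi 0) := by
  have h1 := E_psi_int (al := A.re) (om := 0) (P := B.re) hA le_rfl hB
  refine Integrable.mono' h1 ((E_AB_cont A B).aestronglyMeasurable measurableSet_Ioi) ?_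
  refine (ae_restrict_mem measurableSet_Ioi).mono fun x hx => ?_
  rw [E_AB_norm, Wt, ← Real.exp_add]
  apply le_of_eq
  congr 1
  ring

theorem E_AB_norm_int (A B : ℂ) (u : ℝ) :
    ∫ x in Ioi (0 : ℝ), ‖exp (-(A / x) - B * x)‖ = Psi A.re u (B.re - u) := by
  rw [Psi]
  refine setIntegral_congr_fun measurableSet_Ioi fun x _ => ?_
  show ‖exp (-(A / x) - B * x)‖ = _
  rw [E_AB_norm, Wt, ← Real.exp_add]
  congr 1
  ring

theorem E_aux_div {h k h' k' m n : ℝ} (hk : 0 < k) (hk' : 0 < k') (H : h' * k * n ≤ h * k' * m) :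
    h / k * m ≥ h' / k' * n := by
  rw [ge_iff_le, div_mul_eq_mul_div, div_mul_eq_mul_div, div_le_div_iff₀ hk' hk]
  linarith

theorem E_aux_c {p u v s w m n : ℝ} (H : u * m ≥ v * n) (h0 : 0 ≤ 2 * p * s * w) :
    2 * p * u * s * w * m + 2 * p * v * s * w * n ≤ 4 * p * u * s * w * m := by
  have := mul_le_mul_of_nonneg_left H h0
  linarith

theorem E_U_cE6 {E6 : ℂ} (hE6 : E6 = exp (-(((Real.pi / 6 : ℝ) : ℂ) * I))) :
    E6 = exp (((-(Real.pi / 6) : ℝ) : ℂ) * I) := by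
  rw [hE6]; congr 1; push_cast; ring

theorem E_U_cB {E6 B0 : ℂ} {om ε : ℝ} {k k' s : ℕ} (hE6 : E6 = exp (-(((Real.pi / 6 : ℝ) : ℂ) * I)))
    (hB0 : B0 = om * E6 + 2 * Real.pi * (I * exp ((ε : ℂ) * I) * ((s : ℂ) / (k * k'))) * E6) :
    B0.re = om * Real.cos (Real.pi / 6) +
      2 * Real.pi * s * Real.sin (Real.pi / 6 - ε) / (k * k') := by
  have hE6re : E6.re = Real.cos (Real.pi / 6) := by
    rw [E_U_cE6 hE6, exp_ofReal_mul_I_re, Real.cos_neg]
  have e1 : 2 * (Real.pi : ℂ) * (I * exp ((ε : ℂ) * I) * ((s : ℂ) / (k * k'))) * E6 =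
      ((2 * Real.pi * ((s : ℝ) / (k * k')) : ℝ) : ℂ) * (exp (((ε - Real.pi / 6 : ℝ) : ℂ) * I) * I) := by
    have e2 : exp (((ε - Real.pi / 6 : ℝ) : ℂ) * I) = exp ((ε : ℂ) * I) * E6 := by
      rw [hE6, ← exp_add]
      congr 1
      push_cast
      ring
    rw [e2]
    push_cast
    ring
  rw [hB0, e1, add_re, re_ofReal_mul, re_ofReal_mul, hE6re, mul_I_re, exp_ofReal_mul_I_im]
  have e4 : Real.sin (Real.pi / 6 - ε) = -Real.sin (ε - Real.pi / 6) := by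
    rw [← Real.sin_neg]
    congr 1
    ring
  rw [e4]
  ring

theorem E_U_cK {E6 K0 : ℂ} {ε : ℝ} {h k : ℕ} (hE6 : E6 = exp (-(((Real.pi / 6 : ℝ) : ℂ) * I)))
    (hK0 : K0 = ((4 * Real.pi * ((h : ℝ) / k) * Real.sin ε : ℝ) : ℂ) * E6) :
    K0.re = 4 * Real.pi * ((h : ℝ) / k) * Real.sin ε * Real.cos (Real.pi / 6) := by
  rw [hK0, re_ofReal_mul, E_U_cE6 hE6, exp_ofReal_mul_I_re, Real.cos_neg]

theorem E_U_term {lam : ℕ → ℂ} {al om ε : ℝ} (hal : 0 < al) (hom : 0 ≤ om)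
    (hε : 0 < ε) (hε' : ε ≤ 1 / 10) {h k h' k' : ℕ} (hh : 1 ≤ h) (hk : 1 ≤ k) (hk' : 1 ≤ k')
    {s m n : ℕ} (hs : 1 ≤ s) (hm1 : 1 ≤ m) (hp : (h * k') * m = (h' * k) * n + s) {E6 A B0 K0 : ℂ}
    (hE6 : E6 = exp (-(((Real.pi / 6 : ℝ) : ℂ) * I)))
    (hA : A = (al : ℂ) * exp (((Real.pi / 6 : ℝ) : ℂ) * I))
    (hB0 : B0 = om * E6 + 2 * Real.pi * (I * exp ((ε : ℂ) * I) * ((s : ℂ) / (k * k'))) * E6)
    (hK0 : K0 = ((4 * Real.pi * ((h : ℝ) / k) * Real.sin ε : ℝ) : ℂ) * E6) :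
    Etm lam al om ε h k h' k' (m, n) =
      E6 * ∫ x in Ioi (0:ℝ), lam m * conj (lam n) * exp (-(A / x) - (B0 + K0 * (m : ℂ)) * x) := by
  have hpi := Real.pi_gt_three
  have hpi' := Real.pi_lt_four
  have hkR : (1:ℝ) ≤ k := by exact_mod_cast hk
  have hkR' : (1:ℝ) ≤ k' := by exact_mod_cast hk'
  have hhR : (1:ℝ) ≤ h := by exact_mod_cast hh
  have hsR : (1:ℝ) ≤ s := by exact_mod_cast hs
  have hmR : (1:ℝ) ≤ m := by exact_mod_cast hm1
  have hsin : 0 < Real.sin ε := sin_pos' hε hε'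
  have hpi0 : 0 < Real.pi := by linarith only [hpi]
  have hcos : 0 < Real.cos (Real.pi / 6) :=
    Real.cos_pos_of_mem_Ioo ⟨by linarith only [hpi], by linarith only [hpi]⟩
  have hsin2 : 0 < Real.sin (Real.pi / 6 - ε) :=
    Real.sin_pos_of_pos_of_lt_pi (by linarith only [hpi, hε']) (by linarith only [hpi, hε])
  have hPre : 0 < (Eph ε h k h' k' (m, n)).re := by
    rw [Eph_re]
    have h3 : 0 ≤ (h' : ℝ) * n / k' := by positivity
    have h4 : 0 < (h : ℝ) * m / k := by positivity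
    have h5 : 0 < (h : ℝ) * ((m, n) : ℕ × ℕ).1 / k + (h' : ℝ) * ((m, n) : ℕ × ℕ).2 / k' := by
      show 0 < (h : ℝ) * m / k + (h' : ℝ) * n / k'
      linarith only [h3, h4]
    positivity
  have hPre2 : 0 < (Eph ε h k h' k' (m, n) * exp (-(((Real.pi / 6 : ℝ) : ℂ) * I))).re := by
    rw [E_ph_rot_re ε hk hk' (p := (m, n)) (r := s) hp]
    have h5 : 0 < 4 * Real.pi * ((h : ℝ) / k) * Real.sin ε * ((m, n) : ℕ × ℕ).1 * Real.cos (Real.pi / 6) := by
      show 0 < 4 * Real.pi * ((h : ℝ) / k) * Real.sin ε * m * Real.cos (Real.pi / 6)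
      positivity
    have h6 : 0 < 2 * Real.pi * s * Real.sin (Real.pi / 6 - ε) / (k * k') := by
      apply div_pos _ (by positivity)
      positivity
    linarith only [h5, h6]
  rw [Etm, E_ker_rot hal hom hPre hPre2, integral_const_mul, ← hE6, ← hA]
  show lam m * conj (lam n) * (E6 * _) = E6 * (lam m * conj (lam n) * _)
  have e5 : ∀ x : ℝ, -(A / x) - (om : ℂ) * E6 * x - Eph ε h k h' k' (m, n) * E6 * x =
      -(A / x) - (B0 + K0 * (m : ℂ)) * x := by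
    intro x
    rw [E_ph_eq ε hk hk' (p := (m, n)) (r := s) hp, hB0, hK0]
    push_cast
    ring
  have e6 : (∫ x in Ioi (0:ℝ), exp (-(A / x) - (om : ℂ) * E6 * x - Eph ε h k h' k' (m, n) * E6 * x)) =
      ∫ x in Ioi (0:ℝ), exp (-(A / x) - (B0 + K0 * (m : ℂ)) * x) := by
    refine integral_congr_ae (Eventually.of_forall fun x => ?_)
    show exp _ = exp _
    rw [e5]
  rw [← e6]
  ring

/-- the summands of the off-diagonal term -/
noncomputable def EUF (lam : ℕ → ℂ) (a c s : ℕ) (A B0 K0 : ℂ) (n : ℕ) (x : ℝ) : ℂ :=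
  if a ∣ c * n + s then lam ((c * n + s) / a) * conj (lam n) *
    exp (-(A / x) - (B0 + K0 * (((c * n + s) / a : ℕ) : ℂ)) * x) else 0

theorem EUF_pos {lam : ℕ → ℂ} {a c s : ℕ} {A B0 K0 : ℂ} {n : ℕ} (hn : a ∣ c * n + s) :
    EUF lam a c s A B0 K0 n = fun x : ℝ => lam ((c * n + s) / a) * conj (lam n) *
    exp (-(A / x) - (B0 + K0 * (((c * n + s) / a : ℕ) : ℂ)) * x) := by
  funext x
  rw [EUF, if_pos hn]

theorem EUF_neg {lam : ℕ → ℂ} {a c s : ℕ} {A B0 K0 : ℂ} {n : ℕ} (hn : ¬ a ∣ c * n + s) :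
    EUF lam a c s A B0 K0 n = fun _ : ℝ => (0 : ℂ) := by
  funext x
  rw [EUF, if_neg hn]

theorem EUF_int {lam : ℕ → ℂ} {a c s : ℕ} {A B0 K0 : ℂ} (hA : 0 < A.re) (hB0 : 0 < B0.re) (hK0 : 0 < K0.re)
    (n : ℕ) : Integrable (EUF lam a c s A B0 K0 n) (volume.restrict (Ioi 0)) := by
  by_cases hn : a ∣ c * n + s
  · rw [EUF_pos hn]
    have hB : 0 < (B0 + K0 * (((c * n + s) / a : ℕ) : ℂ)).re := by
      have e : (B0 + K0 * (((c * n + s) / a : ℕ) : ℂ)).re = B0.re + K0.re * ((c * n + s) / a : ℕ) := by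
        rw [add_re, mul_re, natCast_re, natCast_im, mul_zero, sub_zero]
      rw [e]
      have h2 : 0 ≤ K0.re * (((c * n + s) / a : ℕ) : ℝ) := mul_nonneg hK0.le (Nat.cast_nonneg _)
      linarith only [h2, hB0]
    exact (E_AB_int hA hB).const_mul _
  · rw [EUF_neg hn]
    exact integrable_zero _ _ _

theorem EUF_norm {lam : ℕ → ℂ} {a c s : ℕ} {A B0 K0 : ℂ} {n : ℕ} (hn : a ∣ c * n + s) (u : ℝ) :
    ∫ x in Ioi (0:ℝ), ‖EUF lam a c s A B0 K0 n x‖ = ‖lam ((c * n + s) / a)‖ * ‖lam n‖ *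
      Psi A.re u (B0.re + K0.re * (((c * n + s) / a : ℕ) : ℝ) - u) := by
  have e : (fun x => ‖EUF lam a c s A B0 K0 n x‖) = fun x : ℝ => ‖lam ((c * n + s) / a)‖ * ‖lam n‖ *
      ‖exp (-(A / x) - (B0 + K0 * (((c * n + s) / a : ℕ) : ℂ)) * x)‖ := by
    funext x
    rw [EUF_pos hn, norm_mul, norm_mul, RCLike.norm_conj]
  rw [e, integral_const_mul, E_AB_norm_int _ _ u]
  have e2 : (B0 + K0 * (((c * n + s) / a : ℕ) : ℂ)).re = B0.re + K0.re * (((c * n + s) / a : ℕ) : ℝ) := by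
    rw [add_re, mul_re, natCast_re, natCast_im, mul_zero, sub_zero]
  rw [e2]

theorem EUF_tsum {lam : ℕ → ℂ} {a c s : ℕ} {A B0 K0 : ℂ} (x : ℝ) :
    ∑' n, EUF lam a c s A B0 K0 n x = exp (-(A / x) - B0 * x) * SS lam a c s (K0 * x) := by
  rw [SS, ← tsum_mul_left]
  refine tsum_congr fun n => ?_
  by_cases hn : a ∣ c * n + s
  · rw [EUF, if_pos hn, if_pos hn]
    have e3 : exp (-(A / x) - (B0 + K0 * (((c * n + s) / a : ℕ) : ℂ)) * x) =
        exp (-(A / x) - B0 * x) * exp (-(K0 * x * (((c * n + s) / a : ℕ) : ℂ))) := by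
      rw [← exp_add]
      congr 1
      ring
    rw [e3]
    ring
  · rw [EUF, if_neg hn, if_neg hn, mul_zero]

theorem EUF_term_le {lam : ℕ → ℂ} {al om ε : ℝ} (hal : 0 < al) (hom : 0 ≤ om)
    (hε : 0 < ε) (hε' : ε ≤ 1 / 10) {h k h' k' : ℕ} (hh : 1 ≤ h) (hk : 1 ≤ k) (hh' : 1 ≤ h') (hk' : 1 ≤ k')
    {s n : ℕ} (hs : 1 ≤ s) {E6 A B0 K0 : ℂ} {c1 c2 : ℝ}
    (hE6 : E6 = exp (-(((Real.pi / 6 : ℝ) : ℂ) * I)))
    (hA : A = (al : ℂ) * exp (((Real.pi / 6 : ℝ) : ℂ) * I))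
    (hB0 : B0 = om * E6 + 2 * Real.pi * (I * exp ((ε : ℂ) * I) * ((s : ℂ) / (k * k'))) * E6)
    (hK0 : K0 = ((4 * Real.pi * ((h : ℝ) / k) * Real.sin ε : ℝ) : ℂ) * E6)
    (hc1 : c1 = 2 * Real.pi * ((h : ℝ) / k) * Real.sin ε * Real.cos (Real.pi / 6))
    (hc2 : c2 = 2 * Real.pi * ((h' : ℝ) / k') * Real.sin ε * Real.cos (Real.pi / 6)) :
    ∫ x in Ioi (0:ℝ), ‖EUF lam (h * k') (h' * k) s A B0 K0 n x‖ ≤
      ‖lam (((h' * k) * n + s) / (h * k'))‖ * ‖lam n‖ *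
      Psi (al * Real.cos (Real.pi / 6)) (om * Real.cos (Real.pi / 6))
        (c1 * ((((h' * k) * n + s) / (h * k') : ℕ) : ℝ) + c2 * n) := by
  have hpi := Real.pi_gt_three
  have hpi0 : 0 < Real.pi := by linarith only [hpi]
  have hkR : (1:ℝ) ≤ k := by exact_mod_cast hk
  have hkR' : (1:ℝ) ≤ k' := by exact_mod_cast hk'
  have hhR : (1:ℝ) ≤ h := by exact_mod_cast hh
  have hhR' : (1:ℝ) ≤ h' := by exact_mod_cast hh'
  have hsR : (1:ℝ) ≤ s := by exact_mod_cast hs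
  have hsin : 0 < Real.sin ε := sin_pos' hε hε'
  have hcos : 0 < Real.cos (Real.pi / 6) :=
    Real.cos_pos_of_mem_Ioo ⟨by linarith only [hpi], by linarith only [hpi]⟩
  have hsin2 : 0 < Real.sin (Real.pi / 6 - ε) :=
    Real.sin_pos_of_pos_of_lt_pi (by linarith only [hpi, hε']) (by linarith only [hpi, hε])
  by_cases hn : (h * k') ∣ (h' * k) * n + s
  · rw [EUF_norm hn (om * Real.cos (Real.pi / 6))]
    obtain ⟨m, hm⟩ := hn
    have ha1 : 0 < h * k' := Nat.mul_pos hh hk'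
    have hm' : ((h' * k) * n + s) / (h * k') = m := by rw [hm]; exact Nat.mul_div_cancel_left m ha1
    have hm1 : 1 ≤ m := by
      rcases Nat.eq_zero_or_pos m with h0 | h0
      · rw [h0] at hm; omega
      · exact h0
    rw [hm']
    have hmR : (1:ℝ) ≤ m := by exact_mod_cast hm1
    have hArep : A.re = al * Real.cos (Real.pi / 6) := by
      rw [hA, re_ofReal_mul, exp_ofReal_mul_I_re]
    rw [hArep, E_U_cB hE6 hB0, E_U_cK hE6 hK0]
    refine mul_le_mul_of_nonneg_left ?_ (by positivity)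
    have hnR : (0:ℝ) ≤ n := Nat.cast_nonneg n
    refine E_psi_anti (by positivity) (by positivity) ?_ ?_
    · rw [hc1, hc2]
      positivity
    · have h7 : (h : ℝ) / k * m ≥ (h' : ℝ) / k' * n := by
        have h8 : (h' : ℝ) * k * n ≤ h * k' * m := by
          have h9 : (h' * k) * n ≤ (h * k') * m := by
            rw [← hm]; omega
          exact_mod_cast h9
        exact E_aux_div (by linarith only [hkR]) (by linarith only [hkR']) h8
      have h6 : 0 < 2 * Real.pi * s * Real.sin (Real.pi / 6 - ε) / (k * k') := by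
        apply div_pos _ (by positivity)
        positivity
      have h10 : 0 < 2 * Real.pi * Real.sin ε * Real.cos (Real.pi / 6) := by positivity
      have h11 : c1 * m + c2 * n ≤ 4 * Real.pi * ((h : ℝ) / k) * Real.sin ε * Real.cos (Real.pi / 6) * m := by
        rw [hc1, hc2]
        exact E_aux_c h7 h10.le
      linarith only [h11, h6]
  · rw [EUF_neg hn]
    simp only [norm_zero, integral_zero]
    have h1 := E_psi_nonneg (al * Real.cos (Real.pi / 6)) (om * Real.cos (Real.pi / 6))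
      (c1 * ((((h' * k) * n + s) / (h * k') : ℕ) : ℝ) + c2 * n)
    exact mul_nonneg (mul_nonneg (norm_nonneg _) (norm_nonneg _)) h1

theorem E_U_le {lam : ℕ → ℂ} {B al om ε : ℝ} (hlam : ∀ n, ‖lam n‖ ≤ B * n) (hal : 0 < al) (hom : 0 ≤ om)
    (hε : 0 < ε) (hε' : ε ≤ 1 / 10) {h k h' k' : ℕ} (hh : 1 ≤ h) (hk : 1 ≤ k) (hh' : 1 ≤ h') (hk' : 1 ≤ k') (r : ℕ) :
    ‖EU lam al om ε h k h' k' r‖ ≤ ∫ x in Ioi (0 : ℝ),
      Ewt al om ε k k' (r + 1) x * ‖SS lam (h * k') (h' * k) (r + 1) (Ekap ε h k x)‖ := by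
  have hpi := Real.pi_gt_three
  have hpi0 : 0 < Real.pi := by linarith only [hpi]
  have hkR : (1:ℝ) ≤ k := by exact_mod_cast hk
  have hkR' : (1:ℝ) ≤ k' := by exact_mod_cast hk'
  have hhR : (1:ℝ) ≤ h := by exact_mod_cast hh
  have hhR' : (1:ℝ) ≤ h' := by exact_mod_cast hh'
  have hsR : (1:ℝ) ≤ ((r + 1 : ℕ) : ℝ) := by exact_mod_cast (by omega : 1 ≤ r + 1)
  have ha1 : 1 ≤ h * k' := Nat.mul_pos hh hk'
  have hsin : 0 < Real.sin ε := sin_pos' hε hε'
  have hcos : 0 < Real.cos (Real.pi / 6) :=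
    Real.cos_pos_of_mem_Ioo ⟨by linarith only [hpi], by linarith only [hpi]⟩
  have hsin2 : 0 < Real.sin (Real.pi / 6 - ε) :=
    Real.sin_pos_of_pos_of_lt_pi (by linarith only [hpi, hε']) (by linarith only [hpi, hε])
  obtain ⟨E6, hE6⟩ : ∃ E6 : ℂ, E6 = exp (-(((Real.pi / 6 : ℝ) : ℂ) * I)) := ⟨_, rfl⟩
  obtain ⟨A, hA⟩ : ∃ A : ℂ, A = (al : ℂ) * exp (((Real.pi / 6 : ℝ) : ℂ) * I) := ⟨_, rfl⟩
  obtain ⟨B0, hB0⟩ : ∃ B0 : ℂ, B0 = om * E6 +
    2 * Real.pi * (I * exp ((ε : ℂ) * I) * (((r + 1 : ℕ) : ℂ) / (k * k'))) * E6 := ⟨_, rfl⟩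
  obtain ⟨K0, hK0⟩ : ∃ K0 : ℂ, K0 = ((4 * Real.pi * ((h : ℝ) / k) * Real.sin ε : ℝ) : ℂ) * E6 := ⟨_, rfl⟩
  obtain ⟨c1, hc1⟩ : ∃ c1 : ℝ, c1 = 2 * Real.pi * ((h : ℝ) / k) * Real.sin ε * Real.cos (Real.pi / 6) := ⟨_, rfl⟩
  obtain ⟨c2, hc2⟩ : ∃ c2 : ℝ, c2 = 2 * Real.pi * ((h' : ℝ) / k') * Real.sin ε * Real.cos (Real.pi / 6) := ⟨_, rfl⟩
  have hArep : A.re = al * Real.cos (Real.pi / 6) := by
    rw [hA, re_ofReal_mul, exp_ofReal_mul_I_re]
  have hAre : 0 < A.re := by rw [hArep]; positivity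
  have hB0re := E_U_cB hE6 hB0
  have hB0p : 0 < B0.re := by
    rw [hB0re]
    have h1 : 0 < 2 * Real.pi * ((r + 1 : ℕ) : ℝ) * Real.sin (Real.pi / 6 - ε) / (k * k') := by
      apply div_pos _ (by positivity)
      positivity
    have h2 : 0 ≤ om * Real.cos (Real.pi / 6) := by positivity
    linarith only [h1, h2]
  have hK0p : 0 < K0.re := by
    rw [E_U_cK hE6 hK0]
    positivity
  have hc1p : 0 < c1 := by rw [hc1]; positivity
  have hc2p : 0 < c2 := by rw [hc2]; positivity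
  have hsum0 : Summable fun n : ℕ => ‖lam (((h' * k) * n + (r + 1)) / (h * k'))‖ * ‖lam n‖ *
      Psi (al * Real.cos (Real.pi / 6)) (om * Real.cos (Real.pi / 6))
        (c1 * ((((h' * k) * n + (r + 1)) / (h * k') : ℕ) : ℝ) + c2 * n) := by
    have h1 := E_summ (lam := lam) (B := B) (al := al * Real.cos (Real.pi / 6))
      (om := om * Real.cos (Real.pi / 6)) hlam (by positivity) (by positivity) hc1p hc2p
    have h2 : Function.Injective fun n : ℕ => ((((h' * k) * n + (r + 1)) / (h * k'), n) : ℕ × ℕ) := by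
      intro x y hxy
      exact (Prod.mk.inj hxy).2
    have h3 := h1.comp_injective h2
    rw [Function.comp_def] at h3
    exact h3
  have hFint : ∀ n, Integrable (EUF lam (h * k') (h' * k) (r + 1) A B0 K0 n) (volume.restrict (Ioi 0)) :=
    fun n => EUF_int hAre hB0p hK0p n
  have hFsum : Summable fun n => ∫ x in Ioi (0:ℝ), ‖EUF lam (h * k') (h' * k) (r + 1) A B0 K0 n x‖ :=
    Summable.of_nonneg_of_le (fun n => integral_nonneg fun x => norm_nonneg _)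
      (fun n => EUF_term_le hal hom hε hε' hh hk hh' hk' (by omega) hE6 hA hB0 hK0 hc1 hc2) hsum0
  have hkey := hasSum_integral_of_summable_integral_norm hFint hFsum
  have e0 : EU lam al om ε h k h' k' r =
      ∑' n : ℕ, if (h * k') ∣ (h' * k) * n + (r + 1) then
        Etm lam al om ε h k h' k' (((h' * k) * n + (r + 1)) / (h * k'), n) else 0 := by
    rw [EU]
    exact E_reindex _ ha1 _ _
  have e1 : EU lam al om ε h k h' k' r =
      E6 * ∫ x in Ioi (0:ℝ), ∑' n, EUF lam (h * k') (h' * k) (r + 1) A B0 K0 n x := by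
    rw [e0, ← hkey.tsum_eq, ← tsum_mul_left]
    refine tsum_congr fun n => ?_
    by_cases hn : (h * k') ∣ (h' * k) * n + (r + 1)
    · rw [if_pos hn, EUF_pos hn]
      obtain ⟨m, hm⟩ := hn
      have hm' : ((h' * k) * n + (r + 1)) / (h * k') = m := by
        rw [hm]; exact Nat.mul_div_cancel_left m ha1
      have hm1 : 1 ≤ m := by
        rcases Nat.eq_zero_or_pos m with h0 | h0
        · rw [h0] at hm; omega
        · exact h0
      rw [hm']
      exact E_U_term hal hom hε hε' hh hk hk' (by omega) hm1 hm.symm hE6 hA hB0 hK0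
    · rw [if_neg hn, EUF_neg hn, integral_zero, mul_zero]
  have hE6n : ‖E6‖ = 1 := by
    rw [E_U_cE6 hE6, norm_exp_ofReal_mul_I]
  rw [e1, norm_mul, hE6n, one_mul]
  refine (norm_integral_le_integral_norm _).trans (le_of_eq ?_)
  refine setIntegral_congr_fun measurableSet_Ioi fun x hx => ?_
  show ‖∑' n, EUF lam (h * k') (h' * k) (r + 1) A B0 K0 n x‖ = _
  have eK : K0 * x = Ekap ε h k x := by
    rw [Ekap, ← hE6, hK0]
    push_cast
    ring
  rw [EUF_tsum, norm_mul, E_AB_norm, Ewt, hArep, hB0re, eK]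
  congr 2
  ring

end OO

end

section

/-! # Row OE14: the sum of the off-diagonal terms -/

open Complex MeasureTheory Set Filter Topology
open scoped ComplexConjugate

namespace OO

/-- PROOF. `‖Ekap‖ = 4π (h/k) sin ε x`, `4π sin ε ≥ ε` (`sin ε ≥ 2ε/π`), `h/k ≥ 1/H`, so `‖Ekap‖ ≥ ε x/H > 0`, `1 + 1/‖Ekap‖ ≤ 1 + H/(ε x) ≤ (H/ε)(1 + 1/x)`
(`H/ε ≥ 1`), `Real.rpow_le_rpow`, `Real.mul_rpow`. `Ekap.re = ‖Ekap‖ cos (π/6)`. -/
theorem E_kap_facts {ε : ℝ} (hε : 0 < ε) (hε' : ε ≤ 1 / 10) {H h k : ℕ} (hh : 1 ≤ h) (hk : 1 ≤ k) (hkH : k ≤ H) {x : ℝ}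
    (hx : 0 < x) : Ekap ε h k x ≠ 0 ∧ ‖Ekap ε h k x‖ / 2 ≤ (Ekap ε h k x).re ∧
      ∀ p : ℝ, 0 ≤ p → (1 + 1 / ‖Ekap ε h k x‖) ^ p ≤ (H : ℝ) ^ p * ε ^ (-p) * (1 + 1 / x) ^ p := by
  have hs : 0 < Real.sin ε := sin_pos' hε hε'
  have hh0 : (0 : ℝ) < h := by exact_mod_cast hh
  have hk0 : (0 : ℝ) < k := by exact_mod_cast hk
  have hH1 : (1 : ℝ) ≤ H := by exact_mod_cast hk.trans hkH
  have hkH' : (k : ℝ) ≤ H := by exact_mod_cast hkH
  set A : ℝ := 4 * Real.pi * ((h : ℝ) / k) * Real.sin ε * x with hA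
  have hA0 : 0 < A := by
    rw [hA]
    have := Real.pi_pos
    positivity
  have hEk : Ekap ε h k x = (A : ℂ) * exp (-(((Real.pi / 6 : ℝ) : ℂ) * I)) := by
    rw [Ekap]
  have hn1 : ‖exp (-(((Real.pi / 6 : ℝ) : ℂ) * I))‖ = 1 := by
    rw [norm_exp]
    simp
  have hnorm : ‖Ekap ε h k x‖ = A := by
    rw [hEk, norm_mul, hn1, mul_one, norm_real, Real.norm_of_nonneg hA0.le]
  have hre : (Ekap ε h k x).re = A * Real.cos (Real.pi / 6) := by
    rw [hEk, re_ofReal_mul, exp_re]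
    simp
  refine ⟨?_, ?_, ?_⟩
  · intro h0
    rw [h0, norm_zero] at hnorm
    exact hA0.ne hnorm
  · rw [hnorm, hre, Real.cos_pi_div_six]
    have h3 : (1 : ℝ) ≤ Real.sqrt 3 := by
      rw [show (1 : ℝ) = Real.sqrt 1 by simp]
      exact Real.sqrt_le_sqrt (by norm_num)
    have h4 := mul_le_mul_of_nonneg_left h3 hA0.le
    linarith only [h4]
  · intro p hp
    rw [hnorm]
    have hsin : 2 / Real.pi * ε ≤ Real.sin ε := Real.mul_le_sin hε.le (by linarith only [Real.pi_gt_three, hε'])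
    have hA1 : ε * x / H ≤ A := by
      have h1 : ε ≤ 4 * Real.pi * Real.sin ε := by
        have h2 : 4 * Real.pi * (2 / Real.pi * ε) = 8 * ε := by
          field_simp
          ring
        have h3 : 4 * Real.pi * (2 / Real.pi * ε) ≤ 4 * Real.pi * Real.sin ε :=
          mul_le_mul_of_nonneg_left hsin (by positivity)
        linarith only [h2, h3, hε]
      have h4 : (1 : ℝ) / H ≤ (h : ℝ) / k := by
        rw [div_le_div_iff₀ (zero_lt_one.trans_le hH1) hk0, one_mul]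
        have h5 : (1 : ℝ) ≤ h := by exact_mod_cast hh
        exact hkH'.trans (le_mul_of_one_le_left (zero_le_one.trans hH1) h5)
      calc ε * x / H = ε * (1 / H) * x := by ring
        _ ≤ (4 * Real.pi * Real.sin ε) * ((h : ℝ) / k) * x := by gcongr
        _ = A := by rw [hA]; ring
    have hHp : (0 : ℝ) < H := zero_lt_one.trans_le hH1
    have h5 : 1 / A ≤ H / (ε * x) := by
      rw [show (H : ℝ) / (ε * x) = 1 / (ε * x / H) by field_simp]
      exact one_div_le_one_div_of_le (by positivity) hA1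
    have h6 : 1 + 1 / A ≤ (H : ℝ) * ε⁻¹ * (1 + 1 / x) := by
      have h7 : (1 : ℝ) ≤ (H : ℝ) * ε⁻¹ := by
        have : (1 : ℝ) ≤ ε⁻¹ := by
          rw [one_le_inv₀ hε]
          linarith only [hε']
        exact one_le_mul_of_one_le_of_one_le hH1 this
      have h8 : (H : ℝ) / (ε * x) = (H : ℝ) * ε⁻¹ * (1 / x) := by field_simp
      rw [h8] at h5
      rw [mul_add, mul_one]
      exact add_le_add h7 h5
    calc (1 + 1 / A) ^ p ≤ ((H : ℝ) * ε⁻¹ * (1 + 1 / x)) ^ p :=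
          Real.rpow_le_rpow (by positivity) h6 hp
      _ = (H : ℝ) ^ p * ε ^ (-p) * (1 + 1 / x) ^ p := by
          rw [Real.mul_rpow (by positivity) (by positivity), Real.mul_rpow (by positivity) (by positivity),
            Real.inv_rpow hε.le, Real.rpow_neg hε.le]

theorem E_Uterm_N {H h k h' k' : ℕ} (hhH : h ≤ H) (hkH : k ≤ H) (hhH' : h' ≤ H) (hkH' : k' ≤ H) (r : ℕ) :
    (((h * k') * (h' * k) * (r + 1) : ℕ) : ℝ) ^ 12 ≤ (H : ℝ) ^ 48 * ((r : ℝ) + 1) ^ 12 := by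
  have h1 : (h * k') * (h' * k) * (r + 1) ≤ H ^ 4 * (r + 1) := by
    have h2 : (h * k') * (h' * k) ≤ (H * H) * (H * H) :=
      Nat.mul_le_mul (Nat.mul_le_mul hhH hkH') (Nat.mul_le_mul hhH' hkH)
    have h3 : (H * H) * (H * H) = H ^ 4 := by ring
    exact Nat.mul_le_mul_right _ (h2.trans h3.le)
  have h4 : (((h * k') * (h' * k) * (r + 1) : ℕ) : ℝ) ≤ (H : ℝ) ^ 4 * ((r : ℝ) + 1) := by
    have h5 : (((h * k') * (h' * k) * (r + 1) : ℕ) : ℝ) ≤ ((H ^ 4 * (r + 1) : ℕ) : ℝ) := Nat.cast_le.2 h1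
    rwa [Nat.cast_mul (H ^ 4), Nat.cast_pow, Nat.cast_add_one] at h5
  have h6 := pow_le_pow_left₀ (Nat.cast_nonneg ((h * k') * (h' * k) * (r + 1))) h4 12
  rwa [mul_pow, ← pow_mul] at h6

theorem E_Uterm_kk {H k k' : ℕ} (hkH : k ≤ H) (hkH' : k' ≤ H) (j : ℕ) :
    ((k : ℝ) * k') ^ (j + 16) ≤ (H : ℝ) ^ 32 * ((H : ℝ) ^ 2) ^ j := by
  have h1 : (k : ℝ) * k' ≤ (H : ℝ) ^ 2 := by
    rw [pow_two]
    exact mul_le_mul (Nat.cast_le.2 hkH) (Nat.cast_le.2 hkH') (Nat.cast_nonneg _) (Nat.cast_nonneg _)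
  have h2 := pow_le_pow_left₀ (mul_nonneg (Nat.cast_nonneg k) (Nat.cast_nonneg k')) h1 (j + 16)
  have h3 : ((H : ℝ) ^ 2) ^ (j + 16) = (H : ℝ) ^ 32 * ((H : ℝ) ^ 2) ^ j := by
    rw [pow_add, mul_comm, ← pow_mul _ 2 16]
  exact h2.trans h3.le

theorem E_Uterm_alg0 {t1 t2 t3 s1 i1 i3 C E K x ai : ℝ} (h : s1 * i1 = 1) :
    (t1 * s1) * (C * (t2 * E)) * (K * (t3 * x) * (ai * (i1 * i3))) = K * (t1 * t2 * t3) * (x * ai) * (C * E) * i3 := by
  linear_combination (t1 * C * t2 * E * K * t3 * x * ai * i3) * h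

theorem E_Uterm_alg {N C P E K I W x a s T : ℝ} (hN : 0 ≤ N) (hC : 0 ≤ C) (hP : 0 ≤ P) (hE : 0 ≤ E) (hK : 0 < K)
    (ha : 0 < a) (hs : 0 < s) (hT : 0 < T) (hN1 : N ≤ T ^ 48 * s ^ 12) (hP1 : P ≤ T ^ 6) (hW : W ≤ T ^ 32 * x) (hx : 0 ≤ x)
    (hI : I ≤ K * W / (a * s ^ 15)) :
    N * (C * (P * E)) * I ≤ (K * T ^ 86 * (x / a) * (C * E)) * (1 / s ^ 3) := by
  have hd : 0 < a * s ^ 15 := mul_pos ha (pow_pos hs _)
  have hCE : 0 ≤ C * (P * E) := mul_nonneg hC (mul_nonneg hP hE)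
  have h1 : I ≤ K * (T ^ 32 * x) / (a * s ^ 15) :=
    hI.trans (div_le_div_of_nonneg_right (mul_le_mul_of_nonneg_left hW hK.le) hd.le)
  have h2 : N * (C * (P * E)) ≤ (T ^ 48 * s ^ 12) * (C * (T ^ 6 * E)) :=
    mul_le_mul hN1 (mul_le_mul_of_nonneg_left (mul_le_mul_of_nonneg_right hP1 hE) hC) hCE
      (mul_nonneg (pow_nonneg hT.le _) (pow_nonneg hs.le _))
  have h3 : 0 ≤ K * (T ^ 32 * x) / (a * s ^ 15) :=
    div_nonneg (mul_nonneg hK.le (mul_nonneg (pow_nonneg hT.le _) hx)) hd.le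
  have h4 : N * (C * (P * E)) * I ≤ (T ^ 48 * s ^ 12) * (C * (T ^ 6 * E)) * (K * (T ^ 32 * x) / (a * s ^ 15)) :=
    (mul_le_mul_of_nonneg_left h1 (mul_nonneg hN hCE)).trans (mul_le_mul_of_nonneg_right h2 h3)
  have h5 : (T ^ 48 * s ^ 12) * (C * (T ^ 6 * E)) * (K * (T ^ 32 * x) / (a * s ^ 15)) =
      (K * T ^ 86 * (x / a) * (C * E)) * (1 / s ^ 3) := by
    have e1 : T ^ 86 = T ^ 48 * T ^ 6 * T ^ 32 := by rw [← pow_add, ← pow_add]
    have e2 : s ^ 15 = s ^ 12 * s ^ 3 := by rw [← pow_add]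
    have h12 : s ^ 12 * (s ^ 12)⁻¹ = 1 := mul_inv_cancel₀ (pow_pos hs _).ne'
    rw [e1, e2, div_eq_mul_inv, div_eq_mul_inv, one_div, mul_inv, mul_inv]
    exact E_Uterm_alg0 h12
  exact h4.trans h5.le

theorem E_Uterm_fin {K1 K2 D1 D2 w : ℝ} (hK1 : 0 < K1) (hK2 : 0 < K2) (h1 : 0 ≤ D1) (h2 : 0 ≤ D2)
    (hw : 0 ≤ w) {T q : ℝ} (hT : 0 ≤ T) (hq : 0 ≤ q) :
    (K1 * T * q * D1) * w + (K2 * T * q * D2) * w ≤ ((K1 + K2) * T * q * (D1 + D2)) * w := by
  have e1 : 0 ≤ T * q * w := mul_nonneg (mul_nonneg hT hq) hw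
  have e2 : 0 ≤ K2 * D1 + K1 * D2 := add_nonneg (mul_nonneg hK2.le h1) (mul_nonneg hK1.le h2)
  have e3 : ((K1 + K2) * T * q * (D1 + D2)) * w =
      ((K1 * T * q * D1) * w + (K2 * T * q * D2) * w) + (K2 * D1 + K1 * D2) * (T * q * w) := by ring
  rw [e3]
  exact le_add_of_nonneg_right (mul_nonneg e2 e1)

theorem E_Uterm_pt {w S N C1 C2 k1 k2 a1 a2 x1 x2 : ℝ} (hw : 0 ≤ w) (hN : 0 ≤ N) (hC1 : 0 ≤ C1) (hC2 : 0 ≤ C2)
    (hS : S ≤ N * (C1 * k1 + C2 * k2)) (h1 : k1 ≤ a1 * x1) (h2 : k2 ≤ a2 * x2) :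
    w * S ≤ N * (C1 * a1) * (w * x1) + N * (C2 * a2) * (w * x2) := by
  have e1 : C1 * k1 + C2 * k2 ≤ C1 * (a1 * x1) + C2 * (a2 * x2) :=
    add_le_add (mul_le_mul_of_nonneg_left h1 hC1) (mul_le_mul_of_nonneg_left h2 hC2)
  have e2 : w * S ≤ w * (N * (C1 * (a1 * x1) + C2 * (a2 * x2))) :=
    mul_le_mul_of_nonneg_left (hS.trans (mul_le_mul_of_nonneg_left e1 hN)) hw
  have e3 : w * (N * (C1 * (a1 * x1) + C2 * (a2 * x2))) = N * (C1 * a1) * (w * x1) + N * (C2 * a2) * (w * x2) := by ring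
  exact e2.trans e3.le

theorem E_Uterm_p6 {T p : ℝ} (hT : 1 ≤ T) (hp : p ≤ 6) : T ^ p ≤ T ^ 6 := by
  have h1 : T ^ p ≤ T ^ (6 : ℝ) := Real.rpow_le_rpow_of_exponent_le hT hp
  have h2 : T ^ (6 : ℝ) = T ^ 6 := by
    rw [← Real.rpow_natCast]
    norm_num
  exact h1.trans h2.le

/-- one term -/
theorem E_Uterm {p1 p2 : ℝ} (hp1 : 0 ≤ p1) (hp2 : 0 ≤ p2) (hp1' : p1 ≤ 6) (hp2' : p2 ≤ 6) (j : ℕ) {K1 K2 : ℝ}
    (hK1 : 0 < K1) (hK2 : 0 < K2)
    (hb1 : ∀ (al om ε : ℝ), 1 ≤ al → 0 ≤ om → 0 < ε →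
    ε ≤ 1 / 10 → ∀ k k' r : ℕ, 1 ≤ k → 1 ≤ k' → 1 ≤ r →
      IntegrableOn (fun x : ℝ => Ewt al om ε k k' r x * (1 + 1 / x) ^ p1) (Ioi 0) ∧
      ∫ x in Ioi (0 : ℝ), Ewt al om ε k k' r x * (1 + 1 / x) ^ p1 ≤
        K1 * ((k : ℝ) * k') ^ (j + 16) / (al ^ j * (r : ℝ) ^ 15))
    (hb2 : ∀ (al om ε : ℝ), 1 ≤ al → 0 ≤ om → 0 < ε →
    ε ≤ 1 / 10 → ∀ k k' r : ℕ, 1 ≤ k → 1 ≤ k' → 1 ≤ r →
      IntegrableOn (fun x : ℝ => Ewt al om ε k k' r x * (1 + 1 / x) ^ p2) (Ioi 0) ∧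
      ∫ x in Ioi (0 : ℝ), Ewt al om ε k k' r x * (1 + 1 / x) ^ p2 ≤
        K2 * ((k : ℝ) * k') ^ (j + 16) / (al ^ j * (r : ℝ) ^ 15))
    {H : ℕ} {lam : ArithmeticFunction ℂ} {B C1 C2 ε α ω : ℝ} (hH : 1 ≤ H)
    (hlam : ∀ n, ‖lam n‖ ≤ B * n) (hε : 0 < ε) (hε' : ε ≤ 1 / 10) (hα : 1 ≤ α) (hω : 0 ≤ ω) (hC1 : 0 ≤ C1) (hC2 : 0 ≤ C2)
    (hSS : ∀ a c r : ℕ, 1 ≤ a → 1 ≤ c → 1 ≤ r → ∀ κ : ℂ, κ ≠ 0 → ‖κ‖ / 2 ≤ κ.re →
        ‖SS lam a c r κ‖ ≤ ((a * c * r : ℕ) : ℝ) ^ 12 * (C1 * (1 + 1 / ‖κ‖) ^ p1 + C2 * (1 + 1 / ‖κ‖) ^ p2))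
    {h k h' k' : ℕ} (hh : 1 ≤ h) (hk : 1 ≤ k) (hh' : 1 ≤ h') (hk' : 1 ≤ k') (hhH : h ≤ H) (hkH : k ≤ H) (hhH' : h' ≤ H)
    (hkH' : k' ≤ H) (r : ℕ) :
    ‖EU lam α ω ε h k h' k' r‖ ≤
      ((K1 + K2) * (H : ℝ) ^ 86 * ((H : ℝ) ^ 2 / α) ^ j * (C1 * ε ^ (-p1) + C2 * ε ^ (-p2))) * (1 / ((r : ℝ) + 1) ^ 3) := by
  have hα0 : 0 < α := zero_lt_one.trans_le hα
  have hH1 : (1 : ℝ) ≤ H := Nat.one_le_cast.2 hH
  have hH0 : (0 : ℝ) < H := zero_lt_one.trans_le hH1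
  have hr1 : 1 ≤ r + 1 := Nat.succ_le_succ (Nat.zero_le r)
  have hU := E_U_le hlam hα0 hω hε hε' hh hk hh' hk' r
  obtain ⟨hi1, hB1⟩ := hb1 α ω ε hα hω hε hε' k k' (r + 1) hk hk' hr1
  obtain ⟨hi2, hB2⟩ := hb2 α ω ε hα hω hε hε' k k' (r + 1) hk hk' hr1
  have hN1 := E_Uterm_N hhH hkH hhH' hkH' r
  have hN0 : 0 ≤ (((h * k') * (h' * k) * (r + 1) : ℕ) : ℝ) ^ 12 := pow_nonneg (Nat.cast_nonneg _) _
  have hhk : 1 ≤ h * k' := Nat.mul_pos hh hk'
  have hhk' : 1 ≤ h' * k := Nat.mul_pos hh' hk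
  have hSS' := hSS (h * k') (h' * k) (r + 1) hhk hhk' hr1
  have hf := fun x (hx : 0 < x) => E_kap_facts hε hε' hh hk hkH hx
  generalize hN : (((h * k') * (h' * k) * (r + 1) : ℕ) : ℝ) ^ 12 = N at hN1 hN0 hSS'
  have hmaj : ∀ x : ℝ, 0 < x → Ewt α ω ε k k' (r + 1) x * ‖SS lam (h * k') (h' * k) (r + 1) (Ekap ε h k x)‖ ≤
      N * (C1 * ((H : ℝ) ^ p1 * ε ^ (-p1))) * (Ewt α ω ε k k' (r + 1) x * (1 + 1 / x) ^ p1) +
        N * (C2 * ((H : ℝ) ^ p2 * ε ^ (-p2))) * (Ewt α ω ε k k' (r + 1) x * (1 + 1 / x) ^ p2) := by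
    intro x hx
    obtain ⟨f1, f2, f3⟩ := hf x hx
    exact E_Uterm_pt (Real.exp_pos _).le hN0 hC1 hC2 (hSS' _ f1 f2) (f3 p1 hp1) (f3 p2 hp2)
  have hint := integral_mono_of_nonneg (μ := volume.restrict (Ioi (0 : ℝ)))
    (Eventually.of_forall fun x => mul_nonneg (Real.exp_pos _).le (norm_nonneg _))
    ((hi1.const_mul (N * (C1 * ((H : ℝ) ^ p1 * ε ^ (-p1))))).add (hi2.const_mul (N * (C2 * ((H : ℝ) ^ p2 * ε ^ (-p2))))))
    ((ae_restrict_mem measurableSet_Ioi).mono fun x hx => hmaj x hx)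
  have hsplit : ∫ x in Ioi (0 : ℝ), (N * (C1 * ((H : ℝ) ^ p1 * ε ^ (-p1))) * (Ewt α ω ε k k' (r + 1) x * (1 + 1 / x) ^ p1) +
        N * (C2 * ((H : ℝ) ^ p2 * ε ^ (-p2))) * (Ewt α ω ε k k' (r + 1) x * (1 + 1 / x) ^ p2)) =
      N * (C1 * ((H : ℝ) ^ p1 * ε ^ (-p1))) * (∫ x in Ioi (0 : ℝ), Ewt α ω ε k k' (r + 1) x * (1 + 1 / x) ^ p1) +
      N * (C2 * ((H : ℝ) ^ p2 * ε ^ (-p2))) * (∫ x in Ioi (0 : ℝ), Ewt α ω ε k k' (r + 1) x * (1 + 1 / x) ^ p2) := by
    rw [integral_add (hi1.const_mul _) (hi2.const_mul _), integral_const_mul, integral_const_mul]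
  have hint2 := hint.trans hsplit.le
  rw [Nat.cast_add_one] at hB1 hB2
  have hs0 : (0 : ℝ) < (r : ℝ) + 1 := add_pos_of_nonneg_of_pos (Nat.cast_nonneg r) zero_lt_one
  have hkk := E_Uterm_kk hkH hkH' j
  have hαj : 0 < α ^ j := pow_pos hα0 j
  have hx0 : 0 ≤ ((H : ℝ) ^ 2) ^ j := pow_nonneg (pow_nonneg hH0.le _) _
  have hε1 : 0 ≤ ε ^ (-p1) := (Real.rpow_pos_of_pos hε _).le
  have hε2 : 0 ≤ ε ^ (-p2) := (Real.rpow_pos_of_pos hε _).le
  have t1 := E_Uterm_alg hN0 hC1 (Real.rpow_pos_of_pos hH0 p1).le hε1 hK1 hαj hs0 hH0 hN1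
    (E_Uterm_p6 hH1 hp1') hkk hx0 hB1
  have t2 := E_Uterm_alg hN0 hC2 (Real.rpow_pos_of_pos hH0 p2).le hε2 hK2 hαj hs0 hH0 hN1
    (E_Uterm_p6 hH1 hp2') hkk hx0 hB2
  have t3 := E_Uterm_fin hK1 hK2 (mul_nonneg hC1 hε1) (mul_nonneg hC2 hε2)
    (one_div_pos.2 (pow_pos hs0 3)).le (pow_nonneg hH0.le 86) (div_nonneg hx0 hαj.le)
  rw [div_pow]
  exact hU.trans (hint2.trans ((add_le_add t1 t2).trans t3))

/-- PROOF. `E_U_le` with `s = r+1`, then the hypothesis with `a = h k'`, `c = h' k`, `κ = Ekap ε h k x` and `E_kap_facts`: the integrand is at most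
`Ewt .. s x * (a c s)^12 * (C1 H^p1 ε^(-p1) (1+1/x)^p1 + C2 H^p2 ε^(-p2) (1+1/x)^p2)`, `a c ≤ H^4`, `H^pi ≤ H^6`; `integral_mono_of_nonneg` (the majorant is integrable by
`E_int_bound`) and `E_int_bound` with `k k' ≤ H^2`:
`‖EU r‖ ≤ K1 (C1 ε^(-p1) + C2 ε^(-p2)) H^48 H^6 H^(2(j+16)) al^(-j) (r+1)^(-3)`. Sum over `r` (`∑ (r+1)^(-3) ≤ 2`, or any constant: `tsum` of a summable series), `H^(86+2j) = H^86 (H^2)^j`. -/
theorem E_Usum (p1 p2 : ℝ) (hp1 : 0 ≤ p1) (hp2 : 0 ≤ p2) (hp1' : p1 ≤ 6) (hp2' : p2 ≤ 6) (j : ℕ) : ∃ K : ℝ, 0 < K ∧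
    ∀ (H : ℕ) (lam : ArithmeticFunction ℂ) (B C1 C2 ε α ω : ℝ), 1 ≤ H →
      (∀ n, ‖lam n‖ ≤ B * n) → 0 < ε → ε ≤ 1 / 10 → 1 ≤ α → 0 ≤ ω → 0 ≤ C1 → 0 ≤ C2 →
      (∀ a c r : ℕ, 1 ≤ a → 1 ≤ c → 1 ≤ r → ∀ κ : ℂ, κ ≠ 0 → ‖κ‖ / 2 ≤ κ.re →
        ‖SS lam a c r κ‖ ≤ ((a * c * r : ℕ) : ℝ) ^ 12 * (C1 * (1 + 1 / ‖κ‖) ^ p1 + C2 * (1 + 1 / ‖κ‖) ^ p2)) →
      ∀ h ∈ Finset.Icc 1 H, ∀ k ∈ Finset.Icc 1 H, ∀ h' ∈ Finset.Icc 1 H, ∀ k' ∈ Finset.Icc 1 H,
        (Summable fun r => ‖EU lam α ω ε h k h' k' r‖) ∧ ∑' r, ‖EU lam α ω ε h k h' k' r‖ ≤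
          K * (H : ℝ) ^ 86 * ((H : ℝ) ^ 2 / α) ^ j * (C1 * ε ^ (-p1) + C2 * ε ^ (-p2)) := by
  obtain ⟨K1, hK1, hb1⟩ := E_int_bound p1 hp1 hp1' j
  obtain ⟨K2, hK2, hb2⟩ := E_int_bound p2 hp2 hp2' j
  have hsum : Summable fun r : ℕ => 1 / ((r : ℝ) + 1) ^ 3 := by
    have h1 := (summable_nat_add_iff 1).2 (Real.summable_one_div_nat_pow.2 (by norm_num : 1 < 3))
    simpa using h1
  have hS0 : 0 ≤ ∑' r : ℕ, 1 / ((r : ℝ) + 1) ^ 3 := tsum_nonneg fun r => by positivity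
  refine ⟨(K1 + K2) * (∑' r : ℕ, 1 / ((r : ℝ) + 1) ^ 3 + 1), by positivity, ?_⟩
  intro H lam B C1 C2 ε α ω hH hlam hε hε' hα hω hC1 hC2 hSS h hh k hk h' hh' k' hk'
  rw [Finset.mem_Icc] at hh hk hh' hk'
  have hterm := E_Uterm hp1 hp2 hp1' hp2' j hK1 hK2 hb1 hb2 hH hlam hε hε' hα hω hC1 hC2 hSS hh.1 hk.1 hh'.1 hk'.1 hh.2 hk.2 hh'.2 hk'.2
  have hsummaj : Summable fun r : ℕ => ((K1 + K2) * (H : ℝ) ^ 86 * ((H : ℝ) ^ 2 / α) ^ j * (C1 * ε ^ (-p1) + C2 * ε ^ (-p2))) *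
      (1 / ((r : ℝ) + 1) ^ 3) := hsum.mul_left _
  have hs : Summable fun r => ‖EU lam α ω ε h k h' k' r‖ :=
    Summable.of_nonneg_of_le (fun r => norm_nonneg _) hterm hsummaj
  refine ⟨hs, ?_⟩
  calc ∑' r, ‖EU lam α ω ε h k h' k' r‖ ≤ ∑' r : ℕ, ((K1 + K2) * (H : ℝ) ^ 86 * ((H : ℝ) ^ 2 / α) ^ j * (C1 * ε ^ (-p1) + C2 * ε ^ (-p2))) *
      (1 / ((r : ℝ) + 1) ^ 3) := hs.tsum_le_tsum hterm hsummaj
    _ = ((K1 + K2) * (H : ℝ) ^ 86 * ((H : ℝ) ^ 2 / α) ^ j * (C1 * ε ^ (-p1) + C2 * ε ^ (-p2))) *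
      ∑' r : ℕ, 1 / ((r : ℝ) + 1) ^ 3 := tsum_mul_left
    _ ≤ _ := by
      have hα0 : 0 < α := zero_lt_one.trans_le hα
      have hε1 : 0 < ε ^ (-p1) := Real.rpow_pos_of_pos hε _
      have hε2 : 0 < ε ^ (-p2) := Real.rpow_pos_of_pos hε _
      have hG : 0 ≤ (K1 + K2) * (H : ℝ) ^ 86 * ((H : ℝ) ^ 2 / α) ^ j * (C1 * ε ^ (-p1) + C2 * ε ^ (-p2)) := by positivity
      rw [mul_comm (K1 + K2) (_ + 1)]
      generalize (∑' r : ℕ, 1 / ((r : ℝ) + 1) ^ 3) = S at *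
      linarith only [hG]

end OO

end

section

/-!
# Row OP07b: `g` is the sum over the poles
-/

open Complex MeasureTheory Set Filter Topology
open scoped ComplexConjugate

namespace OO

theorem P07b_aux1 (u h k : ℕ) (hu : 1 ≤ u) (hh : 1 ≤ h) (hk : 1 ≤ k) (ε x : ℝ) (hε : 0 < ε) (hε1 : ε ≤ 1)
    (hx : 0 < x) :
    ((u : ℂ) * (zz ε * x * h / k)).re = x * (u * h / k) * Real.sin ε ∧
    ((u : ℂ) * (zz ε * x * h / k)).im = x * (u * h / k) * Real.cos ε ∧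
    ‖(u : ℂ) * (zz ε * x * h / k)‖ = x * (u * h / k) ∧ (0 : ℝ) < x * (u * h / k) := by
  obtain ⟨h1, h2, -, h4⟩ := P06_zz ε hε hε1
  have hu' : (0 : ℝ) < u := by exact_mod_cast hu
  have hh' : (0 : ℝ) < h := by exact_mod_cast hh
  have hk' : (0 : ℝ) < k := by exact_mod_cast hk
  have hpos : (0 : ℝ) < x * (u * h / k) := by positivity
  have e : (u : ℂ) * (zz ε * x * h / k) = ((x * (u * h / k) : ℝ) : ℂ) * zz ε := by
    push_cast
    ring
  have hn : ‖zz ε‖ = 1 := by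
    unfold zz
    exact norm_exp_ofReal_mul_I _
  rw [e]
  refine ⟨?_, ?_, ?_, hpos⟩
  · rw [re_ofReal_mul, h1]
  · rw [im_ofReal_mul, h2]
  · rw [norm_mul, hn, mul_one, norm_real, Real.norm_of_nonneg hpos.le]

/-- OP07b. PROOF. `gg = ∑_(h,k) b(h) conj b(k)/k ∑_u f(u) wt(u) Th χ (u w)`, `w = zz ε x h/k` (P05_FS). P04_main for `u w`: `Re (u w) = x (u h/k) sin ε ∈ (0, x U H ε] ⊆ (0, 1]` (`sin ε ≤ ε`), `Im (u w) = x (u h/k) cos ε ∈ [0, x U H]`,
`q x U H ≤ M - 1/2`; `‖u w‖ = x u h/k ≥ x/H`. The errors: `H² U` terms, each `≤ H · H · B · C (M + H/x)`. The main terms are P07_alg with `t = tc χ`, `f2 = ch χ⁻¹`. `C` is the constant of P04_main. -/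
theorem P07_main {q : ℕ} [NeZero q] (χ : DirichletCharacter ℂ q) (hχ : χ.IsPrimitive) : ∃ C : ℝ, 0 < C ∧
    ∀ (b f : ℕ → ℂ) (wt : ℝ → ℝ) (H U M : ℕ) (B ε x : ℝ), (∀ u : ℕ, U < u → wt u = 0) → (∀ n, ‖f n‖ ≤ 1) → (∀ u : ℕ, |wt u| ≤ B) →
      (∀ h, ‖b h‖ ≤ h) → 0 < ε → ε ≤ 1 → 0 < x → x * U * H * ε ≤ 1 → q * (x * U * H) ≤ M - 1 / 2 →
      ‖gg b H (FA f wt * LA (ch χ) 0 0 : ArithmeticFunction ℂ) ε x - tc χ / (2 * Real.pi * I * q) * PS H U M q b f (ch χ⁻¹) wt ε x‖ ≤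
        C * B * H ^ 4 * U * (M + H / x) := by
  obtain ⟨C, hC, hmain⟩ := P04_main χ hχ
  refine ⟨C, hC, ?_⟩
  intro b f wt H U M B ε x hU hf hB hb hε hε1 hx hx1 hx2
  have hB0 : 0 ≤ B := (abs_nonneg _).trans (hB 0)
  have hq1 : 1 ≤ q := NeZero.one_le
  have hq0 : (0 : ℝ) < q := by exact_mod_cast hq1
  have hsin0 : 0 < Real.sin ε := Real.sin_pos_of_pos_of_lt_pi hε (by linarith only [hε1, Real.pi_gt_three])
  have hsin1 : Real.sin ε ≤ ε := Real.sin_le hε.le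
  have hcos0 : 0 ≤ Real.cos ε :=
    Real.cos_nonneg_of_neg_pi_div_two_le_of_le (by linarith only [hε, Real.pi_gt_three])
      (by linarith only [hε1, Real.pi_gt_three])
  have hcos1 : Real.cos ε ≤ 1 := Real.cos_le_one _
  have halg := P07_alg b f (ch χ⁻¹) wt H U M q hq1 ε x (tc χ) hε hε1 hx
  rw [← halg]
  unfold gg
  rw [← Finset.sum_sub_distrib]
  set E : ℝ := C * (M + H / x) with hE
  have hE0 : 0 ≤ E := by positivity
  -- one value of (h, k, u)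
  have hone : ∀ h ∈ Finset.Icc 1 H, ∀ k ∈ Finset.Icc 1 H, ∀ u ∈ Finset.Icc 1 U,
      ‖Th χ ((u : ℂ) * (zz ε * x * h / k)) - tc χ / (2 * Real.pi * q) * ∑ m ∈ Finset.Icc 1 M,
        ch χ⁻¹ m / ((u : ℂ) * (zz ε * x * h / k) - I * m / q)‖ ≤ E := by
    intro h hh k hk u hu
    obtain ⟨hh1, hh2⟩ := Finset.mem_Icc.1 hh
    obtain ⟨hk1, hk2⟩ := Finset.mem_Icc.1 hk
    obtain ⟨hu1, hu2⟩ := Finset.mem_Icc.1 hu
    obtain ⟨e1, e2, e3, e4⟩ := P07b_aux1 u h k hu1 hh1 hk1 ε x hε hε1 hx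
    have hu' : (1 : ℝ) ≤ u := by exact_mod_cast hu1
    have hh' : (1 : ℝ) ≤ h := by exact_mod_cast hh1
    have hk' : (1 : ℝ) ≤ k := by exact_mod_cast hk1
    have hu'' : (u : ℝ) ≤ U := by exact_mod_cast hu2
    have hh'' : (h : ℝ) ≤ H := by exact_mod_cast hh2
    have hk'' : (k : ℝ) ≤ H := by exact_mod_cast hk2
    have hUH : (u : ℝ) * h ≤ U * H := mul_le_mul hu'' hh'' (zero_le_one.trans hh')
      (zero_le_one.trans (hu'.trans hu''))
    have hk0 : (0 : ℝ) < k := lt_of_lt_of_le one_pos hk'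
    have hH0 : (0 : ℝ) < H := lt_of_lt_of_le one_pos (hh'.trans hh'')
    have h5 : (1 : ℝ) ≤ u * h := one_le_mul_of_one_le_of_one_le hu' hh'
    have hfrac : (u : ℝ) * h / k ≤ U * H := by
      rw [div_le_iff₀ hk0]
      have h6 : (u : ℝ) * h ≤ U * H * 1 := by rw [mul_one]; exact hUH
      exact h6.trans (mul_le_mul_of_nonneg_left hk' (zero_le_one.trans (h5.trans hUH)))
    have hX : x * (u * h / k) ≤ x * U * H := by
      have := mul_le_mul_of_nonneg_left hfrac hx.le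
      rwa [← mul_assoc] at this
    have hXlow : x / H ≤ x * (u * h / k) := by
      rw [div_le_iff₀ hH0]
      have h6 : (1 : ℝ) ≤ u * h / k * H := by
        rw [div_mul_eq_mul_div, le_div_iff₀ hk0, one_mul]
        calc (k : ℝ) ≤ H := hk''
          _ = 1 * H := (one_mul _).symm
          _ ≤ u * h * H := mul_le_mul_of_nonneg_right h5 hH0.le
      calc x = x * 1 := (mul_one _).symm
        _ ≤ x * (u * h / k * H) := mul_le_mul_of_nonneg_left h6 hx.le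
        _ = x * (u * h / k) * H := by ring
    have hm := hmain ((u : ℂ) * (zz ε * x * h / k)) M (by rw [e1]; exact mul_pos e4 hsin0)
      (by
        rw [e1]
        calc x * (u * h / k) * Real.sin ε ≤ (x * U * H) * ε :=
              mul_le_mul hX hsin1 hsin0.le (e4.le.trans hX)
          _ ≤ 1 := hx1)
      (by rw [e2]; exact mul_nonneg e4.le hcos0)
      (by
        rw [e2]
        have h7 : x * (u * h / k) * Real.cos ε ≤ x * U * H := by
          calc x * (u * h / k) * Real.cos ε ≤ x * (u * h / k) * 1 :=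
                mul_le_mul_of_nonneg_left hcos1 e4.le
            _ ≤ _ := by rw [mul_one]; exact hX
        exact (mul_le_mul_of_nonneg_left h7 hq0.le).trans hx2)
    refine hm.trans ?_
    rw [hE, e3]
    apply mul_le_mul_of_nonneg_left _ hC.le
    have h8 : 1 / (x * (u * h / k)) ≤ H / x := by
      rw [div_le_div_iff₀ e4 hx, one_mul]
      rw [div_le_iff₀ hH0] at hXlow
      rwa [mul_comm] at hXlow
    exact add_le_add_right h8 _
  have hhk : ∀ h ∈ Finset.Icc 1 H, ∀ k ∈ Finset.Icc 1 H,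
      ‖b h * conj (b k) / k * FS (FA f wt * LA (ch χ) 0 0 : ArithmeticFunction ℂ) (zz ε * x * h / k) -
        b h * conj (b k) / k * ∑ u ∈ Finset.Icc 1 U, f u * (wt u : ℂ) *
          (tc χ / (2 * Real.pi * q) * ∑ m ∈ Finset.Icc 1 M, ch χ⁻¹ m / (u * (zz ε * x * h / k) - I * m / q))‖ ≤
        H * (U * (B * E)) := by
    intro h hh k hk
    obtain ⟨hh1, hh2⟩ := Finset.mem_Icc.1 hh
    obtain ⟨hk1, hk2⟩ := Finset.mem_Icc.1 hk
    have hre : 0 < (zz ε * x * h / k).re := by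
      have := P07b_aux1 1 h k le_rfl hh1 hk1 ε x hε hε1 hx
      have e1 := this.1
      rw [Nat.cast_one, one_mul] at e1
      rw [e1]
      exact mul_pos this.2.2.2 hsin0
    rw [P05_FS χ f wt U hU _ hre, ← mul_sub, ← Finset.sum_sub_distrib, norm_mul]
    have hb1 : ‖b h * conj (b k) / k‖ ≤ H := by
      rw [norm_div, norm_mul, RCLike.norm_conj, Complex.norm_natCast]
      have hk0 : (0 : ℝ) < k := by exact_mod_cast hk1
      rw [div_le_iff₀ hk0]
      apply mul_le_mul _ (hb k) (norm_nonneg _) (by positivity)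
      exact (hb h).trans (by exact_mod_cast hh2)
    apply mul_le_mul hb1 _ (norm_nonneg _) (by positivity)
    refine (norm_sum_le _ _).trans ?_
    have hterm : ∀ u ∈ Finset.Icc 1 U, ‖f u * (wt u : ℂ) * Th χ (u * (zz ε * x * h / k)) -
        f u * (wt u : ℂ) * (tc χ / (2 * Real.pi * q) * ∑ m ∈ Finset.Icc 1 M,
          ch χ⁻¹ m / (u * (zz ε * x * h / k) - I * m / q))‖ ≤ B * E := by
      intro u hu
      rw [← mul_sub, norm_mul]
      apply mul_le_mul _ (hone h hh k hk u hu) (norm_nonneg _) hB0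
      rw [norm_mul, norm_real, Real.norm_eq_abs]
      calc ‖f u‖ * |wt u| ≤ 1 * B := mul_le_mul (hf u) (hB u) (abs_nonneg _) (by norm_num)
        _ = B := one_mul _
    refine (Finset.sum_le_sum hterm).trans ?_
    rw [Finset.sum_const, Nat.card_Icc, nsmul_eq_mul]
    simp
  calc ‖∑ h ∈ Finset.Icc 1 H, (∑ k ∈ Finset.Icc 1 H,
        b h * conj (b k) / k * FS (FA f wt * LA (ch χ) 0 0 : ArithmeticFunction ℂ) (zz ε * x * h / k) -
        ∑ k ∈ Finset.Icc 1 H, b h * conj (b k) / k * ∑ u ∈ Finset.Icc 1 U, f u * (wt u : ℂ) *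
          (tc χ / (2 * Real.pi * q) * ∑ m ∈ Finset.Icc 1 M, ch χ⁻¹ m / (u * (zz ε * x * h / k) - I * m / q)))‖
      ≤ ∑ h ∈ Finset.Icc 1 H, ∑ k ∈ Finset.Icc 1 H, (H : ℝ) * (U * (B * E)) := by
        refine (norm_sum_le _ _).trans (Finset.sum_le_sum fun h hh => ?_)
        rw [← Finset.sum_sub_distrib]
        exact (norm_sum_le _ _).trans (Finset.sum_le_sum fun k hk => hhk h hh k hk)
    _ = (H : ℝ) ^ 3 * (U * (B * E)) := by
        rw [Finset.sum_const, Finset.sum_const, Nat.card_Icc, nsmul_eq_mul, nsmul_eq_mul]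
        simp only [Nat.add_sub_cancel]
        ring
    _ ≤ (H : ℝ) ^ 4 * (U * (B * E)) := by
        apply mul_le_mul_of_nonneg_right _ (by positivity)
        rcases Nat.eq_zero_or_pos H with h0 | h0
        · rw [h0]; norm_num
        · have h1 : (1 : ℝ) ≤ H := by exact_mod_cast h0
          exact pow_le_pow_right₀ h1 (by norm_num)
    _ = C * B * H ^ 4 * U * (M + H / x) := by rw [hE]; ring

end OO

end
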