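import Pool.Agent.Lib.MP_0f5a55_nt.OM.K000
import Pool.Agent.Lib.MP_0f5a55_nt.OM.K001

section

section F_E01

open Complex MeasureTheory Set Filter Topology
open scoped ComplexConjugate

namespace LZ

private theorem E01_circle {f : ℂ → ℂ} {c : ℂ} {r ρ : ℝ} (hρ : 0 < ρ) (hρr : ρ ≤ r)
    (hf : ∀ z : ℂ, |(z - c).re| ≤ r → |(z - c).im| ≤ r → DifferentiableAt ℂ f z) :
    2 * Real.pi * ‖f c‖ ^ 2 ≤
      ∫ θ in (-Real.pi)..Real.pi, ‖f (c + ρ * (Real.cos θ + Real.sin θ * I))‖ ^ 2 := by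
  have hd : ∀ z ∈ Metric.closedBall c ρ, DifferentiableAt ℂ f z := by
    intro z hz
    have hz' : ‖z - c‖ ≤ ρ := by rwa [Metric.mem_closedBall, dist_eq_norm] at hz
    exact hf z ((abs_re_le_norm _).trans (hz'.trans hρr)) ((abs_im_le_norm _).trans (hz'.trans hρr))
  have hdc : DiffContOnCl ℂ (fun z => f z ^ 2) (Metric.ball c |ρ|) := by
    rw [abs_of_pos hρ]
    apply DifferentiableOn.diffContOnCl
    intro z hz
    exact ((hd z (Metric.closure_ball_subset_closedBall hz)).pow 2).differentiableWithinAt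
  have hav := hdc.circleAverage
  have hcont : Continuous fun θ : ℝ => f (circleMap c ρ θ) := by
    rw [continuous_iff_continuousAt]
    intro θ
    have h1 : ContinuousAt f (circleMap c ρ θ) :=
      (hd _ (Metric.sphere_subset_closedBall (circleMap_mem_sphere c hρ.le θ))).continuousAt
    exact ContinuousAt.comp (f := circleMap c ρ) h1 (continuous_circleMap c ρ).continuousAt
  have h1 : 2 * Real.pi * ‖f c‖ ^ 2 ≤ ∫ θ in (0:ℝ)..2 * Real.pi, ‖f (circleMap c ρ θ)‖ ^ 2 := by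
    have h2 : ‖f c‖ ^ 2 = ‖Real.circleAverage (fun z => f z ^ 2) c ρ‖ := by
      rw [hav, norm_pow]
    rw [h2, Real.circleAverage_def, norm_smul, ← mul_assoc]
    have h3 : 2 * Real.pi * ‖(2 * Real.pi)⁻¹‖ = 1 := by
      rw [Real.norm_of_nonneg (by positivity)]
      field_simp
    rw [h3, one_mul]
    refine (intervalIntegral.norm_integral_le_integral_norm (by positivity)).trans ?_
    apply le_of_eq
    congr 1
    ext θ
    rw [norm_pow]
  refine h1.trans (le_of_eq ?_)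
  have hper : Function.Periodic (fun θ : ℝ => ‖f (circleMap c ρ θ)‖ ^ 2) (2 * Real.pi) := by
    intro θ
    simp only [periodic_circleMap c ρ θ]
  have h4 := hper.intervalIntegral_add_eq 0 (-Real.pi)
  rw [zero_add, show -Real.pi + 2 * Real.pi = Real.pi by ring] at h4
  rw [h4]
  apply intervalIntegral.integral_congr
  intro θ _
  simp only
  congr 3
  unfold circleMap
  rw [Complex.exp_mul_I]
  push_cast
  ring

/-- (6.1). f(c)^2 is the mean of f^2 over circles |z-c| = rho (Cauchy), integrate rho d rho over (0,r): mean over the disc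
(polar coordinates), then enlarge the disc to the square. -/
theorem sub_mean {f : ℂ → ℂ} {c : ℂ} {r : ℝ} (hr : 0 < r)
    (hf : ∀ z : ℂ, |(z - c).re| ≤ r → |(z - c).im| ≤ r → DifferentiableAt ℂ f z) :
    ‖f c‖ ^ 2 ≤ (Real.pi * r ^ 2)⁻¹ * ∫ σ in (-r)..r, ∫ t in (-r)..r, ‖f (c + σ + t * I)‖ ^ 2 := by
  have hpi := Real.pi_pos
  set g : ℂ → ℝ := fun z => ‖f (c + z)‖ ^ 2 with hg
  have hgd : ∀ z : ℂ, |z.re| ≤ r → |z.im| ≤ r → ContinuousAt g z := by
    intro z h1 h2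
    have h3 : DifferentiableAt ℂ f (c + z) := hf (c + z) (by simpa using h1) (by simpa using h2)
    have h4 : ContinuousAt (fun z => f (c + z)) z :=
      ContinuousAt.comp (f := fun z => c + z) h3.continuousAt (by fun_prop)
    exact (h4.norm).pow 2
  -- polar side
  set P : Set (ℝ × ℝ) := Ioc 0 r ×ˢ Ioo (-Real.pi) Real.pi with hP
  set pc : ℝ × ℝ → ℂ := fun p => p.1 * (Real.cos p.2 + Real.sin p.2 * I) with hpc
  have hpcc : Continuous pc := by
    simp only [hpc]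
    fun_prop
  have hpcn : ∀ p : ℝ × ℝ, ‖pc p‖ = |p.1| := by
    intro p
    have := norm_polarCoord_symm p
    rwa [Complex.polarCoord_symm_apply] at this
  have hcontP : ContinuousOn (fun p : ℝ × ℝ => p.1 * g (pc p)) (Icc 0 r ×ˢ Icc (-Real.pi) Real.pi) := by
    intro p hp
    have h1 : |p.1| ≤ r := by rw [abs_of_nonneg hp.1.1]; exact hp.1.2
    have h2 : ContinuousAt g (pc p) :=
      hgd _ ((abs_re_le_norm _).trans ((hpcn p).le.trans h1)) ((abs_im_le_norm _).trans ((hpcn p).le.trans h1))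
    have h3 : ContinuousAt (fun p : ℝ × ℝ => g (pc p)) p :=
      ContinuousAt.comp (f := pc) h2 hpcc.continuousAt
    exact (continuousAt_fst.mul h3).continuousWithinAt
  have hintP : IntegrableOn (fun p : ℝ × ℝ => p.1 * g (pc p)) (Icc 0 r ×ˢ Icc (-Real.pi) Real.pi) :=
    hcontP.integrableOn_compact (isCompact_Icc.prod isCompact_Icc)
  have hPsub : P ⊆ Icc 0 r ×ˢ Icc (-Real.pi) Real.pi :=
    prod_mono Ioc_subset_Icc_self Ioo_subset_Icc_self
  have hintP' : IntegrableOn (fun p : ℝ × ℝ => p.1 * g (pc p)) P := hintP.mono_set hPsub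
  have hlow : Real.pi * r ^ 2 * ‖f c‖ ^ 2 ≤ ∫ p in P, p.1 * g (pc p) := by
    rw [hP, Measure.volume_eq_prod, setIntegral_prod _ (by rw [← Measure.volume_eq_prod]; exact hintP')]
    have h1 : ∫ ρ in Ioc (0:ℝ) r, ρ * (2 * Real.pi * ‖f c‖ ^ 2) = Real.pi * r ^ 2 * ‖f c‖ ^ 2 := by
      rw [← intervalIntegral.integral_of_le hr.le, intervalIntegral.integral_mul_const, integral_id]
      ring
    rw [← h1]
    apply setIntegral_mono_on
    · rw [← intervalIntegrable_iff_integrableOn_Ioc_of_le hr.le]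
      exact (by fun_prop : Continuous fun ρ : ℝ => ρ * (2 * Real.pi * ‖f c‖ ^ 2)).intervalIntegrable _ _
    · have := hintP'
      rw [hP, Measure.volume_eq_prod, IntegrableOn, ← Measure.prod_restrict] at this
      exact this.integral_prod_left
    · exact measurableSet_Ioc
    · intro ρ hρ
      simp only
      rw [integral_const_mul]
      apply mul_le_mul_of_nonneg_left _ hρ.1.le
      have := E01_circle hρ.1 hρ.2 hf
      rw [intervalIntegral.integral_of_le (by linarith only [hpi]), integral_Ioc_eq_integral_Ioo] at this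
      exact this
  have hpolar : ∫ p in P, p.1 * g (pc p) = ∫ z in Metric.closedBall (0:ℂ) r, g z := by
    rw [← integral_indicator Metric.isClosed_closedBall.measurableSet,
      ← Complex.integral_comp_polarCoord_symm]
    have h1 : P ⊆ polarCoord.target := by
      rintro p ⟨h1, h2⟩
      exact ⟨h1.1, h2⟩
    rw [setIntegral_eq_of_subset_of_forall_sdiff_eq_zero (s := P) (t := polarCoord.target)
      (by exact polarCoord.open_target.measurableSet) h1]
    · apply setIntegral_congr_fun (measurableSet_Ioc.prod measurableSet_Ioo)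
      intro p hp
      simp only [smul_eq_mul]
      rw [indicator_of_mem]
      · rw [Complex.polarCoord_symm_apply]
      · rw [mem_closedBall_zero_iff, norm_polarCoord_symm, abs_of_pos hp.1.1]
        exact hp.1.2
    · rintro p ⟨hp1, hp2⟩
      rw [indicator_of_notMem, smul_zero]
      rw [mem_closedBall_zero_iff, norm_polarCoord_symm, abs_of_pos hp1.1]
      intro h
      exact hp2 ⟨⟨hp1.1, h⟩, hp1.2⟩
  -- the square
  set Sq : Set (ℝ × ℝ) := Icc (-r) r ×ˢ Icc (-r) r with hSq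
  set G : ℝ × ℝ → ℝ := fun p => g (p.1 + p.2 * I) with hG
  have hGc : ContinuousOn G Sq := by
    intro p hp
    have h1 : |p.1| ≤ r := abs_le.2 hp.1
    have h2 : |p.2| ≤ r := abs_le.2 hp.2
    have h3 : ContinuousAt g ((p.1 : ℂ) + p.2 * I) := hgd _ (by simpa using h1) (by simpa using h2)
    exact (ContinuousAt.comp (f := fun p : ℝ × ℝ => (p.1 : ℂ) + p.2 * I) h3 (by fun_prop)).continuousWithinAt
  have hGi : IntegrableOn G Sq := hGc.integrableOn_compact (isCompact_Icc.prod isCompact_Icc)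
  have hsq : ∫ z in Metric.closedBall (0:ℂ) r, g z ≤ ∫ p in Sq, G p := by
    have h1 : ∫ z in Metric.closedBall (0:ℂ) r, g z =
        ∫ p in {p : ℝ × ℝ | ‖(p.1 : ℂ) + p.2 * I‖ ≤ r}, G p := by
      rw [← integral_indicator Metric.isClosed_closedBall.measurableSet, ← integral_indicator
        (measurableSet_le (by fun_prop) measurable_const),
        ← (Complex.volume_preserving_equiv_real_prod.symm).integral_comp
        measurableEquivRealProd.symm.measurableEmbedding]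
      congr 1
      ext p
      have hp : (measurableEquivRealProd.symm p : ℂ) = (p.1 : ℂ) + p.2 * I := by
        apply Complex.ext <;> simp [measurableEquivRealProd]
      rw [hp]
      by_cases h : ‖(p.1 : ℂ) + p.2 * I‖ ≤ r
      · rw [indicator_of_mem (by rw [mem_closedBall_zero_iff]; exact h),
          indicator_of_mem (show p ∈ {p : ℝ × ℝ | ‖(p.1 : ℂ) + p.2 * I‖ ≤ r} from h)]
      · rw [indicator_of_notMem (by rw [mem_closedBall_zero_iff]; exact h),
          indicator_of_notMem (show p ∉ {p : ℝ × ℝ | ‖(p.1 : ℂ) + p.2 * I‖ ≤ r} from h)]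
    rw [h1]
    apply setIntegral_mono_set hGi
    · exact Filter.Eventually.of_forall fun p => by simp only [hG, hg]; positivity
    · apply LE.le.eventuallyLE
      intro p hp
      have hp' : ‖(p.1 : ℂ) + p.2 * I‖ ≤ r := hp
      have h2 := (abs_re_le_norm ((p.1 : ℂ) + p.2 * I)).trans hp'
      have h3 := (abs_im_le_norm ((p.1 : ℂ) + p.2 * I)).trans hp'
      simp at h2 h3
      exact ⟨abs_le.1 h2, abs_le.1 h3⟩
  have hfub : ∫ p in Sq, G p = ∫ σ in (-r)..r, ∫ t in (-r)..r, ‖f (c + σ + t * I)‖ ^ 2 := by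
    rw [hSq, Measure.volume_eq_prod, setIntegral_prod _ (by rw [← Measure.volume_eq_prod]; exact hGi),
      intervalIntegral.integral_of_le (by linarith only [hr]), integral_Icc_eq_integral_Ioc]
    apply setIntegral_congr_fun measurableSet_Ioc
    intro σ _
    simp only
    rw [intervalIntegral.integral_of_le (by linarith only [hr]), integral_Icc_eq_integral_Ioc]
    simp only [hG, hg, add_assoc]
  rw [← hfub]
  have hfin : Real.pi * r ^ 2 * ‖f c‖ ^ 2 ≤ ∫ p in Sq, G p := hlow.trans (hpolar.le.trans hsq)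
  have hpr : 0 < Real.pi * r ^ 2 := by positivity
  rw [← div_eq_inv_mul, le_div_iff₀ hpr]
  linarith only [hlow, hpolar, hsq]

end LZ

end F_E01

section F_A13

open Complex MeasureTheory Set Filter Topology
open scoped ComplexConjugate

namespace LZ

private lemma A13_small {y : ℝ} (hy : 0 < y) (hy1 : y ≤ 1) :
    |(Real.exp y - 1) ^ 2 - y ^ 2 * Real.exp y| ≤ y ^ 4 := by
  have h1 : 1 + y + y ^ 2 / 2 ≤ Real.exp y := Real.quadratic_le_exp_of_nonneg hy.le
  have h2 := Real.exp_bound' hy.le hy1 (n := 3) (by norm_num)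
  have h3 : Real.exp y ≤ 1 + y + y ^ 2 / 2 + y ^ 3 * (2/9) := by
    refine h2.trans (le_of_eq ?_)
    simp [Finset.sum_range_succ, Nat.factorial]
    ring
  set r := Real.exp y - (1 + y + y ^ 2 / 2) with hr
  have hr0 : 0 ≤ r := by linarith only [h1, hr]
  have hr1 : r ≤ y ^ 3 * (2/9) := by linarith only [h3, hr]
  have he : Real.exp y = 1 + y + y ^ 2 / 2 + r := by linarith only [hr]
  have h4 : (Real.exp y - 1) ^ 2 - y ^ 2 * Real.exp y = -(y ^ 4) / 4 + 2 * r * y + r ^ 2 := by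
    rw [he]; ring
  have hy3 : 0 < y ^ 3 := by positivity
  have hy4 : 0 < y ^ 4 := by positivity
  have h5 : r * y ≤ y ^ 4 * (2/9) := by
    calc r * y ≤ (y ^ 3 * (2/9)) * y := mul_le_mul_of_nonneg_right hr1 hy.le
      _ = y ^ 4 * (2/9) := by ring
  have h6 : r ^ 2 ≤ r * y := by
    have : r ≤ y := by
      have : y ^ 3 ≤ y := by
        calc y ^ 3 = y * y ^ 2 := by ring
          _ ≤ y * 1 := mul_le_mul_of_nonneg_left (pow_le_one₀ hy.le hy1) hy.le
          _ = y := mul_one y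
      linarith only [hy, h3, hr, this]
    rw [sq]
    exact mul_le_mul_of_nonneg_left this hr0
  have h7 : 0 ≤ r * y := by positivity
  rw [h4, abs_le]
  have h8 : 0 ≤ r ^ 2 := sq_nonneg r
  constructor <;> linarith only [hy4, h7, h8, h5, h6]

private lemma A13_m {y : ℝ} (hy : 0 < y) : 0 < Real.exp y - 1 := by
  have := Real.add_one_lt_exp hy.ne'
  linarith only [hy, this]

private lemma A13_big {y : ℝ} (hy : 1 ≤ y) : Real.exp y / 2 ≤ Real.exp y - 1 := by
  have := Real.add_one_le_exp y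
  linarith only [hy, this]

private lemma A13_kexp {k : ℕ} (hk : 1 ≤ k) {y : ℝ} (hy : 0 < y) : Real.exp (-(k * y)) ≤ Real.exp (-y) := by
  apply Real.exp_le_exp.mpr
  have h1 : (1 : ℝ) ≤ k := by exact_mod_cast hk
  have h2 : 1 * y ≤ k * y := mul_le_mul_of_nonneg_right h1 hy.le
  linarith only [h2]

/-- the class of multiples of k: phi(y) = 1/(e^y-1) - exp(-ky)/y and its derivative.
|e^(-x)(1+x)-1| <= x^2/2, 0 <= 1/y^2 - e^y/(e^y-1)^2 <= 1/12, 0 <= 1/y - 1/(e^y-1) <= 1; for y >= 1 crude. -/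
theorem phi0_bounds : ∃ C : ℝ, 0 < C ∧ ∀ k : ℕ, 1 ≤ k → ∀ y : ℝ, 0 < y →
    HasDerivAt (fun y : ℝ => 1 / (Real.exp y - 1) - Real.exp (-(k * y)) / y)
      (-Real.exp y / (Real.exp y - 1) ^ 2 + k * Real.exp (-(k * y)) / y + Real.exp (-(k * y)) / y ^ 2) y ∧
    |1 / (Real.exp y - 1) - Real.exp (-(k * y)) / y| ≤ C * (k : ℝ) ^ 2 * Real.exp (-y / 2) ∧
    |-Real.exp y / (Real.exp y - 1) ^ 2 + k * Real.exp (-(k * y)) / y + Real.exp (-(k * y)) / y ^ 2| ≤
      C * (k : ℝ) ^ 2 * Real.exp (-y / 2) := by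
  refine ⟨12, by norm_num, ?_⟩
  intro k hk y hy
  have hk1 : (1 : ℝ) ≤ k := by exact_mod_cast hk
  have hk2 : (1 : ℝ) ≤ (k : ℝ) ^ 2 := one_le_pow₀ hk1
  have hkk : (k : ℝ) ≤ (k : ℝ) ^ 2 := le_self_pow₀ hk1 two_ne_zero
  have hm := A13_m hy
  refine ⟨?_, ?_, ?_⟩
  · have h1 : HasDerivAt (fun y : ℝ => Real.exp y - 1) (Real.exp y) y := (Real.hasDerivAt_exp y).sub_const 1
    have h2 := h1.inv hm.ne'
    have h3 : HasDerivAt (fun y : ℝ => -((k : ℝ) * y)) (-(k : ℝ)) y := by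
      have h0 := ((hasDerivAt_id y).const_mul (k : ℝ)).neg
      exact (h0.congr_deriv (by simp)).congr_of_eventuallyEq (Filter.Eventually.of_forall fun z => by simp)
    have h4 := h3.exp.div (hasDerivAt_id y) hy.ne'
    have h5 := h2.sub h4
    refine (h5.congr_deriv ?_).congr_of_eventuallyEq (Filter.Eventually.of_forall fun z => ?_)
    · simp only [id]
      field_simp
      ring
    · simp
  · rcases le_total y 1 with h | h
    · have h1 : 1 / (Real.exp y - 1) ≤ 1 / y := by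
        apply one_div_le_one_div_of_le hy
        linarith only [Real.add_one_le_exp y]
      have h2 : 1 / y - 1 ≤ 1 / (Real.exp y - 1) := by
        have h3 : 1 - y ≤ Real.exp (-y) := by linarith only [Real.add_one_le_exp (-y)]
        have h4 : Real.exp y * (1 - y) ≤ 1 := by
          calc Real.exp y * (1 - y) ≤ Real.exp y * Real.exp (-y) :=
                mul_le_mul_of_nonneg_left h3 (Real.exp_pos _).le
            _ = 1 := by rw [← Real.exp_add]; simp
        have h5 : 1 / y - 1 = (1 - y) / y := by field_simp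
        rw [h5, div_le_div_iff₀ hy hm]
        linarith only [h4]
      have h3 : Real.exp (-(k * y)) / y ≤ 1 / y := by
        apply div_le_div_of_nonneg_right _ hy.le
        exact Real.exp_le_one_iff.mpr (by have : 0 < (k : ℝ) * y := by positivity
                                          linarith only [this])
      have h4 : 1 / y - k ≤ Real.exp (-(k * y)) / y := by
        have h5 : 1 - k * y ≤ Real.exp (-(k * y)) := by linarith only [Real.add_one_le_exp (-((k : ℝ) * y))]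
        have h6 : 1 / y - k = (1 - k * y) / y := by field_simp
        rw [h6]
        exact div_le_div_of_nonneg_right h5 hy.le
      have h7 : |1 / (Real.exp y - 1) - Real.exp (-(k * y)) / y| ≤ k := by
        rw [abs_le]
        constructor <;> linarith only [hk1, h2, h3, h1, h4]
      have h8 : (1 : ℝ) ≤ 2 * Real.exp (-y / 2) := by
        have := Real.add_one_le_exp (-y / 2)
        linarith only [h, this]
      calc |1 / (Real.exp y - 1) - Real.exp (-(k * y)) / y| ≤ k := h7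
        _ ≤ (k : ℝ) ^ 2 * (2 * Real.exp (-y / 2)) :=
            hkk.trans (le_mul_of_one_le_right (sq_nonneg _) h8)
        _ ≤ 12 * (k : ℝ) ^ 2 * Real.exp (-y / 2) := by
            have : 0 ≤ (k : ℝ) ^ 2 * Real.exp (-y / 2) := by positivity
            linarith only [this]
    · have hb := A13_big h
      have h1 : 1 / (Real.exp y - 1) ≤ 2 * Real.exp (-y) := by
        rw [Real.exp_neg, div_le_iff₀ hm]
        have : 2 * (Real.exp y)⁻¹ * (Real.exp y / 2) = 1 := by field_simp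
        calc (1 : ℝ) = 2 * (Real.exp y)⁻¹ * (Real.exp y / 2) := this.symm
          _ ≤ 2 * (Real.exp y)⁻¹ * (Real.exp y - 1) := mul_le_mul_of_nonneg_left hb (by positivity)
      have h2 : Real.exp (-(k * y)) / y ≤ Real.exp (-y) := by
        calc Real.exp (-(k * y)) / y ≤ Real.exp (-(k * y)) := div_le_self (Real.exp_pos _).le h
          _ ≤ Real.exp (-y) := A13_kexp hk hy
      have h3 : 0 ≤ 1 / (Real.exp y - 1) := by positivity
      have h4 : 0 ≤ Real.exp (-(k * y)) / y := by positivity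
      have h5 : Real.exp (-y) ≤ Real.exp (-y / 2) := Real.exp_le_exp.mpr (by linarith only [hy])
      have h6 : 0 < Real.exp (-y / 2) := Real.exp_pos _
      calc |1 / (Real.exp y - 1) - Real.exp (-(k * y)) / y| ≤ 3 * Real.exp (-y / 2) := by
            rw [abs_le]
            constructor <;> linarith only [h2, h3, h5, h6, h1, h4]
        _ ≤ 12 * (k : ℝ) ^ 2 * Real.exp (-y / 2) := by
            have h9 : Real.exp (-y / 2) ≤ (k : ℝ) ^ 2 * Real.exp (-y / 2) :=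
              le_mul_of_one_le_left h6.le hk2
            linarith only [h6, h9]
  · rcases le_total y 1 with h | h
    · have h0 := A13_small hy h
      have hy2 : y ^ 2 ≤ (Real.exp y - 1) ^ 2 := by
        apply pow_le_pow_left₀ hy.le
        linarith only [Real.add_one_le_exp y]
      have h1 : |1 / y ^ 2 - Real.exp y / (Real.exp y - 1) ^ 2| ≤ 1 := by
        have h2 : 1 / y ^ 2 - Real.exp y / (Real.exp y - 1) ^ 2 =
            ((Real.exp y - 1) ^ 2 - y ^ 2 * Real.exp y) / (y ^ 2 * (Real.exp y - 1) ^ 2) := by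
          field_simp
        rw [h2, abs_div, abs_of_pos (show 0 < y ^ 2 * (Real.exp y - 1) ^ 2 by positivity),
          div_le_one (by positivity)]
        calc |(Real.exp y - 1) ^ 2 - y ^ 2 * Real.exp y| ≤ y ^ 4 := h0
          _ = y ^ 2 * y ^ 2 := by ring
          _ ≤ y ^ 2 * (Real.exp y - 1) ^ 2 := mul_le_mul_of_nonneg_left hy2 (by positivity)
      have h2 : |k * Real.exp (-(k * y)) / y + Real.exp (-(k * y)) / y ^ 2 - 1 / y ^ 2| ≤ (k : ℝ) ^ 2 := by
        have h3 : k * Real.exp (-(k * y)) / y + Real.exp (-(k * y)) / y ^ 2 - 1 / y ^ 2 =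
            (Real.exp (-(k * y)) * (1 + k * y) - 1) / y ^ 2 := by
          field_simp; ring
        have hx : 0 < (k : ℝ) * y := by positivity
        have h4 : Real.exp (-(k * y)) * (1 + k * y) ≤ 1 := by
          calc Real.exp (-(k * y)) * (1 + k * y) ≤ Real.exp (-(k * y)) * Real.exp (k * y) :=
                mul_le_mul_of_nonneg_left (by linarith only [Real.add_one_le_exp ((k : ℝ) * y)]) (Real.exp_pos _).le
            _ = 1 := by rw [← Real.exp_add]; simp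
        have h5 : 1 - (k * y) ^ 2 ≤ Real.exp (-(k * y)) * (1 + k * y) := by
          calc 1 - ((k : ℝ) * y) ^ 2 = (1 - k * y) * (1 + k * y) := by ring
            _ ≤ Real.exp (-(k * y)) * (1 + k * y) :=
                mul_le_mul_of_nonneg_right (by linarith only [Real.add_one_le_exp (-((k : ℝ) * y))]) (by linarith only [hx])
        rw [h3, abs_div, abs_of_pos (show 0 < y ^ 2 by positivity), div_le_iff₀ (by positivity), abs_le]
        constructor
        · linarith only [h5]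
        · have : 0 ≤ (k : ℝ) ^ 2 * y ^ 2 := by positivity
          linarith only [h4, h5]
      have h3 : -Real.exp y / (Real.exp y - 1) ^ 2 + k * Real.exp (-(k * y)) / y + Real.exp (-(k * y)) / y ^ 2 =
          (1 / y ^ 2 - Real.exp y / (Real.exp y - 1) ^ 2) +
          (k * Real.exp (-(k * y)) / y + Real.exp (-(k * y)) / y ^ 2 - 1 / y ^ 2) := by ring
      have h8 : (1 : ℝ) ≤ 2 * Real.exp (-y / 2) := by
        have := Real.add_one_le_exp (-y / 2)
        linarith only [h, this]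
      rw [h3]
      calc |(1 / y ^ 2 - Real.exp y / (Real.exp y - 1) ^ 2) +
          (k * Real.exp (-(k * y)) / y + Real.exp (-(k * y)) / y ^ 2 - 1 / y ^ 2)|
          ≤ 1 + (k : ℝ) ^ 2 := (abs_add_le _ _).trans (by linarith only [h1, h2])
        _ ≤ 2 * (k : ℝ) ^ 2 * 1 := by linarith only [hk2]
        _ ≤ 2 * (k : ℝ) ^ 2 * (2 * Real.exp (-y / 2)) := mul_le_mul_of_nonneg_left h8 (by positivity)
        _ ≤ 12 * (k : ℝ) ^ 2 * Real.exp (-y / 2) := by
            have : 0 ≤ (k : ℝ) ^ 2 * Real.exp (-y / 2) := by positivity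
            linarith only [this]
    · have hb := A13_big h
      have h1 : Real.exp y / (Real.exp y - 1) ^ 2 ≤ 4 * Real.exp (-y) := by
        rw [Real.exp_neg, div_le_iff₀ (by positivity)]
        have h2 : (Real.exp y / 2) ^ 2 ≤ (Real.exp y - 1) ^ 2 := pow_le_pow_left₀ (by positivity) hb 2
        calc Real.exp y = 4 * (Real.exp y)⁻¹ * (Real.exp y / 2) ^ 2 := by field_simp; ring
          _ ≤ 4 * (Real.exp y)⁻¹ * (Real.exp y - 1) ^ 2 := mul_le_mul_of_nonneg_left h2 (by positivity)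
      have hke := A13_kexp hk hy
      have h2 : k * Real.exp (-(k * y)) / y ≤ k * Real.exp (-y) := by
        calc k * Real.exp (-(k * y)) / y ≤ k * Real.exp (-(k * y)) := div_le_self (by positivity) h
          _ ≤ k * Real.exp (-y) := mul_le_mul_of_nonneg_left hke (by positivity)
      have h3 : Real.exp (-(k * y)) / y ^ 2 ≤ Real.exp (-y) := by
        calc Real.exp (-(k * y)) / y ^ 2 ≤ Real.exp (-(k * y)) := div_le_self (Real.exp_pos _).le (one_le_pow₀ h)
          _ ≤ Real.exp (-y) := hke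
      have h4 : 0 ≤ Real.exp y / (Real.exp y - 1) ^ 2 := by positivity
      have h5 : 0 ≤ k * Real.exp (-(k * y)) / y := by positivity
      have h6 : 0 ≤ Real.exp (-(k * y)) / y ^ 2 := by positivity
      have h7 : Real.exp (-y) ≤ Real.exp (-y / 2) := Real.exp_le_exp.mpr (by linarith only [hy])
      have h8 : 0 < Real.exp (-y / 2) := Real.exp_pos _
      have h9 : 0 < Real.exp (-y) := Real.exp_pos _
      have h10 : (k : ℝ) * Real.exp (-y) ≤ (k : ℝ) ^ 2 * Real.exp (-y / 2) :=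
        mul_le_mul hkk h7 h9.le (by positivity)
      have h11 : Real.exp (-y) ≤ (k : ℝ) ^ 2 * Real.exp (-y / 2) :=
        h7.trans (le_mul_of_one_le_left h8.le hk2)
      rw [neg_div, abs_le]
      constructor <;> linarith only [h1, h2, h5, h6, h10, h11, h3, h4]

end LZ

end F_A13

section F_Q02

open Complex MeasureTheory Set Filter Topology
open scoped ComplexConjugate

namespace LZ

/-- |1+z| <= exp(Re z + |z|^2/2) -/
theorem Q02_one_add (z : ℂ) : ‖1 + z‖ ≤ Real.exp (z.re + ‖z‖ ^ 2 / 2) := by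
  have h1 : ‖1 + z‖ ^ 2 = 1 + (2 * z.re + ‖z‖ ^ 2) := by
    rw [← normSq_eq_norm_sq, ← normSq_eq_norm_sq, normSq_apply, normSq_apply]
    simp only [add_re, one_re, add_im, one_im]
    ring
  have h2 : 1 + (2 * z.re + ‖z‖ ^ 2) ≤ Real.exp (2 * z.re + ‖z‖ ^ 2) := by
    have := Real.add_one_le_exp (2 * z.re + ‖z‖ ^ 2)
    linarith only [this]
  have h3 : Real.exp (2 * z.re + ‖z‖ ^ 2) = Real.exp (z.re + ‖z‖ ^ 2 / 2) ^ 2 := by
    rw [← Real.exp_nat_mul]
    congr 1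
    push_cast
    ring
  rw [← h1, h3] at h2
  exact le_of_sq_le_sq h2 (Real.exp_pos _).le

theorem Q02_alg (x : Fin 4 → ℂ) (c : ℂ) (q : ℝ) (hq0 : 0 ≤ q) (hq1 : q ≤ 1) (hx : ∀ j, ‖x j‖ ≤ q)
    (h02 : ‖c * x 0 * x 2‖ ≤ q) (h03 : ‖c * x 0 * x 3‖ ≤ q) (h12 : ‖c * x 1 * x 2‖ ≤ q)
    (h13 : ‖c * x 1 * x 3‖ ≤ q) :
    ‖EP x c‖ ≤ Real.exp ((x 0 + x 1 + x 2 + x 3 +
      (c * x 0 * x 2 + c * x 0 * x 3 + c * x 1 * x 2 + c * x 1 * x 3)).re + 120 * q ^ 2) := by
  set L := x 0 + x 1 + x 2 + x 3 +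
      (c * x 0 * x 2 + c * x 0 * x 3 + c * x 1 * x 2 + c * x 1 * x 3) with hLd
  set E := x 0 * x 1 + x 2 * x 3 + (c * x 0 * x 2) * x 3 + (c * x 1 * x 2) * x 3 +
      (c * x 0 * x 2) * x 1 + (c * x 0 * x 3) * x 1 + (c * x 0 * x 2) * (c * x 1 * x 3) with hEd
  have hEP : EP x c = 1 + (L + E) := by
    rw [hLd, hEd]
    unfold EP
    ring
  have pr : ∀ a b : ℂ, ‖a‖ ≤ q → ‖b‖ ≤ q → ‖a * b‖ ≤ q ^ 2 := by
    intro a b ha hb
    rw [norm_mul, sq]
    exact mul_le_mul ha hb (norm_nonneg _) hq0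
  have hE : ‖E‖ ≤ 7 * q ^ 2 := by
    have := norm_add_le_of_le (norm_add_le_of_le (norm_add_le_of_le (norm_add_le_of_le
      (norm_add_le_of_le (norm_add_le_of_le (pr _ _ (hx 0) (hx 1)) (pr _ _ (hx 2) (hx 3)))
      (pr _ _ h02 (hx 3))) (pr _ _ h12 (hx 3))) (pr _ _ h02 (hx 1))) (pr _ _ h03 (hx 1)))
      (pr _ _ h02 h13)
    linarith only [this]
  have hL : ‖L‖ ≤ 8 * q := by
    have := norm_add_le_of_le (norm_add_le_of_le (norm_add_le_of_le (norm_add_le_of_le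
      (hx 0) (hx 1)) (hx 2)) (hx 3)) (norm_add_le_of_le (norm_add_le_of_le (norm_add_le_of_le
      h02 h03) h12) h13)
    linarith only [this]
  have hq2 : q ^ 2 ≤ q := by nlinarith only [hq0, hq1]
  have hz : ‖L + E‖ ≤ 15 * q := (norm_add_le _ _).trans (by linarith only [hE, hL, hq2])
  have hz2 : ‖L + E‖ ^ 2 ≤ 225 * q ^ 2 := by
    have := pow_le_pow_left₀ (norm_nonneg _) hz 2
    linarith only [this]
  have hre : (L + E).re ≤ L.re + 7 * q ^ 2 := by
    rw [add_re]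
    have := (abs_le.1 (abs_re_le_norm E)).2
    linarith only [hE, this]
  rw [hEP]
  refine (Q02_one_add _).trans (Real.exp_le_exp.2 ?_)
  have : (0:ℝ) ≤ q ^ 2 := sq_nonneg q
  linarith only [hz2, hre, this]

/-- (2.2). All terms of EP - 1 other than the four x_j and the four c x_i x_j (i in 0,1, j in 2,3) are
O(p^(-15/8)); |1+z| <= exp(Re z + |z|^2/2). -/
theorem EP_bound : ∃ K : ℝ, 0 ≤ K ∧ ∀ p : ℕ, p.Prime → ∀ lam : Fin 4 → ℝ, (∀ j, 0 ≤ lam j ∧ lam j ≤ 1) →
    ∀ (A : Fin 4 → ℂ) (C : ℂ), (∀ j, 15/16 ≤ (A j).re) →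
      15/16 ≤ (A 0 + A 2 - C).re → 15/16 ≤ (A 0 + A 3 - C).re → 15/16 ≤ (A 1 + A 2 - C).re →
      15/16 ≤ (A 1 + A 3 - C).re →
      ‖EP (fun j => -(lam j : ℂ) * (p : ℂ) ^ (-(A j))) ((p : ℂ) ^ C)‖ ≤
        Real.exp (SR (fun s => ((p : ℂ) ^ (-s)).re) lam A C + K * (p : ℝ) ^ (-(15/8) : ℝ)) := by
  refine ⟨120, by norm_num, ?_⟩
  intro p hp lam hlam A C hA h02 h03 h12 h13
  have hpR : (0:ℝ) < p := by exact_mod_cast hp.pos
  have hp1 : (1:ℝ) ≤ p := by exact_mod_cast hp.one_lt.le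
  have hp0 : (p : ℂ) ≠ 0 := by exact_mod_cast hp.ne_zero
  set q : ℝ := (p : ℝ) ^ (-(15/16) : ℝ) with hq
  have hq0 : 0 ≤ q := Real.rpow_nonneg hpR.le _
  have hq1 : q ≤ 1 := Real.rpow_le_one_of_one_le_of_nonpos hp1 (by norm_num)
  have hq2 : (p : ℝ) ^ (-(15/8) : ℝ) = q ^ 2 := by
    rw [hq, ← Real.rpow_natCast, ← Real.rpow_mul hpR.le]
    norm_num
  have hnorm : ∀ s : ℂ, 15/16 ≤ s.re → ‖(p : ℂ) ^ (-s)‖ ≤ q := by
    intro s hs
    have : (p : ℂ) = ((p : ℝ) : ℂ) := by simp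
    rw [this, norm_cpow_eq_rpow_re_of_pos hpR, neg_re]
    exact Real.rpow_le_rpow_of_exponent_le hp1 (by linarith only [hs])
  have hx : ∀ j, ‖-(lam j : ℂ) * (p : ℂ) ^ (-(A j))‖ ≤ q := by
    intro j
    rw [norm_mul, norm_neg, norm_real, Real.norm_eq_abs, abs_of_nonneg (hlam j).1]
    calc lam j * ‖(p : ℂ) ^ (-(A j))‖ ≤ 1 * q :=
          mul_le_mul (hlam j).2 (hnorm _ (hA j)) (norm_nonneg _) zero_le_one
      _ = q := one_mul _
  have hpair : ∀ i j, (p : ℂ) ^ C * (-(lam i : ℂ) * (p : ℂ) ^ (-(A i))) *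
      (-(lam j : ℂ) * (p : ℂ) ^ (-(A j))) =
      ((lam i * lam j : ℝ) : ℂ) * (p : ℂ) ^ (-(A i + A j - C)) := by
    intro i j
    have : -(A i + A j - C) = C + -(A i) + -(A j) := by ring
    rw [this, cpow_add _ _ hp0, cpow_add _ _ hp0]
    push_cast
    ring
  have hpn : ∀ i j, 15/16 ≤ (A i + A j - C).re →
      ‖(p : ℂ) ^ C * (-(lam i : ℂ) * (p : ℂ) ^ (-(A i))) * (-(lam j : ℂ) * (p : ℂ) ^ (-(A j)))‖ ≤ q := by
    intro i j hij
    rw [hpair, norm_mul, norm_real, Real.norm_eq_abs,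
      abs_of_nonneg (mul_nonneg (hlam i).1 (hlam j).1)]
    calc lam i * lam j * ‖(p : ℂ) ^ (-(A i + A j - C))‖ ≤ 1 * q :=
          mul_le_mul (mul_le_one₀ (hlam i).2 (hlam j).1 (hlam j).2) (hnorm _ hij)
            (norm_nonneg _) zero_le_one
      _ = q := one_mul _
  have key := Q02_alg (fun j => -(lam j : ℂ) * (p : ℂ) ^ (-(A j))) ((p : ℂ) ^ C) q hq0 hq1 hx
    (hpn 0 2 h02) (hpn 0 3 h03) (hpn 1 2 h12) (hpn 1 3 h13)
  refine key.trans (le_of_eq ?_)
  rw [hq2]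
  congr 2
  rw [hpair, hpair, hpair, hpair]
  unfold SR
  rw [Fin.sum_univ_four]
  simp only [add_re, re_ofReal_mul, neg_mul, neg_re]
  ring

end LZ

end F_Q02

section F_Q03

open Complex MeasureTheory Set Filter Topology
open scoped ComplexConjugate

namespace LZ

theorem Q03_SR_sum (z : ℕ) (lam : Fin 4 → ℝ) (A : Fin 4 → ℂ) (C : ℂ) :
    ∑ p ∈ PP z, SR (fun s => ((p : ℂ) ^ (-s)).re) lam A C = SR (Rz z) lam A C := by
  unfold SR Rz
  simp only [Finset.sum_add_distrib, Finset.sum_neg_distrib, Finset.mul_sum]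
  rw [Finset.sum_comm]

/-- product of (2.2) over p <= z; sum over p of p^(-15/8) converges; SR is linear in its first argument. -/
theorem prod_bound : ∃ K : ℝ, 0 < K ∧ ∀ (z : ℕ) (lam : Fin 4 → ℝ), (∀ j, 0 ≤ lam j ∧ lam j ≤ 1) →
    ∀ (A : Fin 4 → ℂ) (C : ℂ), (∀ j, 15/16 ≤ (A j).re) →
      15/16 ≤ (A 0 + A 2 - C).re → 15/16 ≤ (A 0 + A 3 - C).re → 15/16 ≤ (A 1 + A 2 - C).re →
      15/16 ≤ (A 1 + A 3 - C).re →
      ‖∏ p ∈ PP z, EP (fun j => -(lam j : ℂ) * (p : ℂ) ^ (-(A j))) ((p : ℂ) ^ C)‖ ≤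
        K * Real.exp (SR (Rz z) lam A C) := by
  obtain ⟨K, hK, h⟩ := EP_bound
  have hsum : Summable (fun n : ℕ => (n : ℝ) ^ (-(15/8) : ℝ)) :=
    Real.summable_nat_rpow.mpr (by norm_num)
  refine ⟨Real.exp (K * ∑' n : ℕ, (n : ℝ) ^ (-(15/8) : ℝ)), Real.exp_pos _, ?_⟩
  intro z lam hlam A C hA h1 h2 h3 h4
  rw [norm_prod]
  have hb : ∀ p ∈ PP z, ‖EP (fun j => -(lam j : ℂ) * (p : ℂ) ^ (-(A j))) ((p : ℂ) ^ C)‖ ≤
      Real.exp (SR (fun s => ((p : ℂ) ^ (-s)).re) lam A C + K * (p : ℝ) ^ (-(15/8) : ℝ)) := by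
    intro p hp
    unfold PP at hp
    rw [Finset.mem_filter] at hp
    exact h p hp.2 lam hlam A C hA h1 h2 h3 h4
  refine (Finset.prod_le_prod (fun p _ => norm_nonneg _) hb).trans ?_
  rw [← Real.exp_sum, Finset.sum_add_distrib, Q03_SR_sum, ← Finset.mul_sum, ← Real.exp_add]
  apply Real.exp_le_exp.mpr
  have h5 : ∑ p ∈ PP z, (p : ℝ) ^ (-(15/8) : ℝ) ≤ ∑' n : ℕ, (n : ℝ) ^ (-(15/8) : ℝ) :=
    hsum.sum_le_tsum _ (fun n _ => Real.rpow_nonneg (Nat.cast_nonneg n) _)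
  have h6 := mul_le_mul_of_nonneg_left h5 hK
  linarith only [h6]

end LZ

end F_Q03

section F_Q09

open Complex MeasureTheory Set Filter Topology
open scoped ComplexConjugate

namespace LZ

/-- if lam j = 0 then cf 0 l S = 0 unless S is empty, and nS of the empty set is 1. -/
theorem QQ_congr (z : ℕ) (lam : Fin 4 → ℝ) (l : ℝ) (e e' : Fin 4 → ℂ) (e4 : ℂ)
    (h : ∀ j, lam j = 0 ∨ e j = e' j) : QQ z lam l e e4 = QQ z lam l e' e4 := by
  unfold QQ
  apply Finset.sum_congr rfl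
  intro S _
  congr 1
  apply Finset.prod_congr rfl
  intro j _
  rcases h j with h0 | h0
  · rw [h0]
    by_cases hS : S j = ∅
    · rw [hS]
      unfold nS
      simp
    · have h1 : cf 0 l (S j) = 0 := by
        unfold cf
        rw [neg_zero, zero_pow (Finset.card_ne_zero.mpr (Finset.nonempty_iff_ne_empty.mpr hS)),
          zero_mul]
      rw [h1]
      simp
  · rw [h0]

end LZ

end F_Q09

end

section

/-!
# Row D_A4: local factors of Euler products
-/

open Complex MeasureTheory Set Filter Topology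
open scoped ComplexConjugate

namespace OO

/-- `‖1+y‖² = 1 + 2 re y + ‖y‖² ≤ exp (2 re y + ‖y‖²)` -/
theorem D_one_add (y : ℂ) : ‖1 + y‖ ≤ Real.exp (y.re + ‖y‖ ^ 2 / 2) := LZ.Q02_one_add y

theorem D_A4_sum (c : ℕ) : Summable (fun e : ℕ => ((e : ℝ) + c) ^ 12 * (1 / 2 : ℝ) ^ e) := by
  have h1 : Summable (fun n : ℕ => (n : ℝ) ^ 12 * (1 / 2 : ℝ) ^ n) :=
    summable_pow_mul_geometric_of_norm_lt_one 12 (by norm_num)
  have h2 := ((summable_nat_add_iff c).2 h1).mul_left ((2 : ℝ) ^ c)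
  refine h2.congr fun e => ?_
  push_cast
  rw [pow_add]
  have : (2 : ℝ) ^ c * ((1 / 2 : ℝ) ^ c) = 1 := by rw [← mul_pow]; norm_num
  linear_combination (((e : ℝ) + c) ^ 12 * (1 / 2 : ℝ) ^ e) * this

/-- bound of a shifted tail -/
theorem D_A4_tail (a : ℕ → ℂ) (p : ℕ) (hp : p.Prime)
    (ha : ∀ e, ‖a e‖ ≤ ((e : ℝ) + 1) ^ 12 * ((p : ℝ)⁻¹) ^ e) (c : ℕ) :
    Summable (fun e => a (e + c)) ∧ ‖∑' e, a (e + c)‖ ≤
      ((p : ℝ)⁻¹) ^ c * ∑' e : ℕ, ((e : ℝ) + ((c + 1 : ℕ) : ℝ)) ^ 12 * (1 / 2 : ℝ) ^ e := by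
  have hp2 : (2 : ℝ) ≤ p := by exact_mod_cast hp.two_le
  have hpi : (p : ℝ)⁻¹ ≤ 1 / 2 := by
    rw [one_div]; exact inv_anti₀ (by norm_num) hp2
  have hpi0 : 0 ≤ (p : ℝ)⁻¹ := by positivity
  have hb : ∀ e, ‖a (e + c)‖ ≤ ((p : ℝ)⁻¹) ^ c * (((e : ℝ) + ((c + 1 : ℕ) : ℝ)) ^ 12 * (1 / 2 : ℝ) ^ e) := by
    intro e
    refine (ha (e + c)).trans ?_
    have h1 : ((p : ℝ)⁻¹) ^ e ≤ (1 / 2 : ℝ) ^ e := pow_le_pow_left₀ hpi0 hpi e
    calc (((e + c : ℕ) : ℝ) + 1) ^ 12 * ((p : ℝ)⁻¹) ^ (e + c)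
        = ((p : ℝ)⁻¹) ^ c * (((e : ℝ) + ((c + 1 : ℕ) : ℝ)) ^ 12 * ((p : ℝ)⁻¹) ^ e) := by
          push_cast; rw [pow_add]; ring
      _ ≤ _ := by gcongr
  have hs := (D_A4_sum (c + 1)).mul_left (((p : ℝ)⁻¹) ^ c)
  refine ⟨Summable.of_norm_bounded hs hb, ?_⟩
  refine (tsum_of_norm_bounded hs.hasSum hb).trans (le_of_eq ?_)
  rw [tsum_mul_left]

/-- Local factor: `‖H (p^e)‖ ≤ (e+1)^12 p^(-e(1+κ)) ≤ (e+1)^12 p^(-e)` (`Nat.divisors_prime_pow`: `p^e` has
`e+1` divisors), so with `E = ∑' e, H (p^e)` (split off two terms: `Summable.sum_add_tsum_nat_add`):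
`‖E - 1 - H p‖ ≤ ∑_{e≥2} (e+1)^12 p^(-e) ≤ K1 p^(-2)`, `K1 = ∑_e (e+3)^12 2^(-e)`, and
`‖E - 1‖ ≤ K2 p^(-1)`, `K2 = ∑_e (e+2)^12 2^(-e)`. With `D_one_add`:
`‖E‖ ≤ exp (re (H p) + (K1 + K2²/2) p^(-2))`. -/
theorem D_local : ∃ K : ℝ, 0 ≤ K ∧ ∀ (H : ℕ → ℂ) (κ : ℝ), 0 < κ → H 1 = 1 →
    (∀ n : ℕ, ‖H n‖ ≤ (n.divisors.card : ℝ) ^ 12 * (n : ℝ) ^ (-(1 + κ))) →
    ∀ p : ℕ, p.Prime → ‖∑' e : ℕ, H (p ^ e)‖ ≤ Real.exp ((H p).re + K * (p : ℝ) ^ (-2 : ℝ)) := by
  set K1 : ℝ := ∑' e : ℕ, ((e : ℝ) + ((2 + 1 : ℕ) : ℝ)) ^ 12 * (1 / 2 : ℝ) ^ e with hK1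
  set K2 : ℝ := ∑' e : ℕ, ((e : ℝ) + ((1 + 1 : ℕ) : ℝ)) ^ 12 * (1 / 2 : ℝ) ^ e with hK2
  have hK10 : 0 ≤ K1 := tsum_nonneg fun e => by positivity
  have hK20 : 0 ≤ K2 := tsum_nonneg fun e => by positivity
  refine ⟨K1 + K2 ^ 2 / 2, by positivity, ?_⟩
  intro H κ hκ h1 hH p hp
  have hp0 : (0 : ℝ) < p := by exact_mod_cast hp.pos
  have hp1 : (1 : ℝ) ≤ p := by exact_mod_cast hp.one_lt.le
  have ha : ∀ e : ℕ, ‖H (p ^ e)‖ ≤ ((e : ℝ) + 1) ^ 12 * ((p : ℝ)⁻¹) ^ e := by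
    intro e
    refine (hH (p ^ e)).trans ?_
    have hd : (p ^ e).divisors.card = e + 1 := by
      rw [Nat.divisors_prime_pow hp, Finset.card_map, Finset.card_range]
    rw [hd]
    have hle : ((p ^ e : ℕ) : ℝ) ^ (-(1 + κ)) ≤ ((p : ℝ)⁻¹) ^ e := by
      have hpe : (1 : ℝ) ≤ ((p ^ e : ℕ) : ℝ) := by
        push_cast; exact one_le_pow₀ hp1
      calc ((p ^ e : ℕ) : ℝ) ^ (-(1 + κ)) ≤ ((p ^ e : ℕ) : ℝ) ^ (-1 : ℝ) :=
            Real.rpow_le_rpow_of_exponent_le hpe (by linarith)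
        _ = ((p : ℝ)⁻¹) ^ e := by
            rw [Real.rpow_neg_one]; push_cast; rw [inv_pow]
    push_cast at *
    gcongr
  obtain ⟨s0, _⟩ := D_A4_tail (fun e => H (p ^ e)) p hp ha 0
  obtain ⟨s1, b1⟩ := D_A4_tail (fun e => H (p ^ e)) p hp ha 1
  obtain ⟨s2, b2⟩ := D_A4_tail (fun e => H (p ^ e)) p hp ha 2
  rw [← hK2] at b1
  rw [← hK1] at b2
  have s0' : Summable (fun e => H (p ^ e)) := by simpa using s0
  have e1 : ∑' e : ℕ, H (p ^ e) = 1 + ∑' e : ℕ, H (p ^ (e + 1)) := by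
    rw [s0'.tsum_eq_zero_add, pow_zero, h1]
  have e2 : ∑' e : ℕ, H (p ^ (e + 1)) = H p + ∑' e : ℕ, H (p ^ (e + 2)) := by
    rw [s1.tsum_eq_zero_add]
    simp
  have hpm : (p : ℝ) ^ (-2 : ℝ) = ((p : ℝ)⁻¹) ^ 2 := by
    rw [Real.rpow_neg hp0.le, show (2 : ℝ) = ((2 : ℕ) : ℝ) by norm_num, Real.rpow_natCast, inv_pow]
  rw [e1]
  refine (D_one_add _).trans (Real.exp_le_exp.2 ?_)
  have r1 : (∑' e : ℕ, H (p ^ (e + 1))).re ≤ (H p).re + ((p : ℝ)⁻¹) ^ 2 * K1 := by
    rw [e2, add_re]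
    have := (Complex.re_le_norm (∑' e : ℕ, H (p ^ (e + 2)))).trans b2
    linarith
  have r2 : ‖∑' e : ℕ, H (p ^ (e + 1))‖ ^ 2 ≤ (((p : ℝ)⁻¹) ^ 1 * K2) ^ 2 := by gcongr
  rw [hpm]
  nlinarith [r1, r2]

end OO

end
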