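import Pool.Agent.Lib.MP_0f5a55_nt.OM.K004

section

open Complex MeasureTheory Set Filter Topology
open scoped ComplexConjugate

namespace OO

theorem OA02_den_pos (i : Fin 22) : (0 : ℝ) < 1 + (i : ℝ) / 21 := by positivity

theorem OA02_tau_inj : Function.Injective tau := by
  intro i j h
  unfold tau at h
  have h1 := OA02_den_pos i
  have h2 := OA02_den_pos j
  rw [div_eq_div_iff h1.ne' h2.ne'] at h
  have h3 : ((i : ℕ) : ℝ) = ((j : ℕ) : ℝ) := by linarith only [h]
  exact Fin.ext (by exact_mod_cast h3)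

theorem OA02_tau_le (i : Fin 22) : tau i ≤ 1000 := by
  unfold tau
  rw [div_le_iff₀ (OA02_den_pos i)]
  have : (0 : ℝ) ≤ (i : ℝ) / 21 := by positivity
  linarith only [this]

theorem OA02_le_tau (i : Fin 22) : 500 ≤ tau i := by
  unfold tau
  rw [le_div_iff₀ (OA02_den_pos i)]
  have h1 : ((i : ℕ) : ℝ) ≤ 21 := by
    have := i.2
    exact_mod_cast (by omega : (i : ℕ) ≤ 21)
  have : ((i : ℕ) : ℝ) / 21 ≤ 1 := by
    rw [div_le_one (by norm_num)]
    exact h1
  linarith only [h1]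

theorem OA02_tau_pos (i : Fin 22) : 0 < tau i := by linarith only [OA02_le_tau i]

theorem OA02_max (k : ℕ) (x : ℝ) :
    HasDerivAt (fun x : ℝ => (max 0 x) ^ (k + 2)) (((k + 2 : ℕ) : ℝ) * (max 0 x) ^ (k + 1)) x := by
  rcases lt_trichotomy x 0 with h | h | h
  · have h1 : (fun x : ℝ => (max 0 x) ^ (k + 2)) =ᶠ[𝓝 x] fun _ => (0 : ℝ) := by
      filter_upwards [Iio_mem_nhds h] with y hy
      rw [max_eq_left (le_of_lt hy)]
      simp
    have h2 : ((k + 2 : ℕ) : ℝ) * (max 0 x) ^ (k + 1) = 0 := by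
      rw [max_eq_left h.le]
      simp
    rw [h2]
    exact (hasDerivAt_const x (0 : ℝ)).congr_of_eventuallyEq h1
  · subst h
    have h2 : ((k + 2 : ℕ) : ℝ) * (max 0 (0 : ℝ)) ^ (k + 1) = 0 := by simp
    rw [h2]
    have hR : HasDerivWithinAt (fun x : ℝ => (max 0 x) ^ (k + 2)) 0 (Ici 0) 0 := by
      have h3 : HasDerivWithinAt (fun x : ℝ => x ^ (k + 2)) (((k + 2 : ℕ) : ℝ) * (0 : ℝ) ^ (k + 2 - 1)) (Ici 0) 0 :=
        (hasDerivAt_pow (k + 2) (0 : ℝ)).hasDerivWithinAt
      have h4 : ((k + 2 : ℕ) : ℝ) * (0 : ℝ) ^ (k + 2 - 1) = 0 := by simp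
      rw [h4] at h3
      refine h3.congr (fun y hy => ?_) (by simp)
      show (max 0 y) ^ (k + 2) = y ^ (k + 2)
      rw [max_eq_right hy]
    have hL : HasDerivWithinAt (fun x : ℝ => (max 0 x) ^ (k + 2)) 0 (Iic 0) 0 := by
      refine (hasDerivWithinAt_const (0 : ℝ) (Iic (0 : ℝ)) (0 : ℝ)).congr (fun y hy => ?_) (by simp)
      show (max 0 y) ^ (k + 2) = 0
      rw [max_eq_left hy]
      simp
    have hU := hL.union hR
    rw [Iic_union_Ici] at hU
    exact hU.hasDerivAt Filter.univ_mem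
  · have h1 : (fun x : ℝ => (max 0 x) ^ (k + 2)) =ᶠ[𝓝 x] fun x => x ^ (k + 2) := by
      filter_upwards [Ioi_mem_nhds h] with y hy
      rw [max_eq_right (le_of_lt hy)]
    have h2 : ((k + 2 : ℕ) : ℝ) * (max 0 x) ^ (k + 1) = ((k + 2 : ℕ) : ℝ) * x ^ (k + 2 - 1) := by
      rw [max_eq_right h.le]
      rfl
    rw [h2]
    exact (hasDerivAt_pow (k + 2) x).congr_of_eventuallyEq h1

theorem OA02_sub (x : ℝ) : HasDerivAt (fun x : ℝ => 1 - x) (-1) x := by
  simpa using (hasDerivAt_id x).const_sub 1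

/-- first derivative of the weight -/
noncomputable def OA02_v1 (x : ℝ) : ℝ := -21 * (max 0 (1 - x)) ^ 20

/-- second derivative of the weight -/
noncomputable def OA02_v2 (x : ℝ) : ℝ := 420 * (max 0 (1 - x)) ^ 19

theorem OA02_w1 (x : ℝ) : HasDerivAt LZ.wt (OA02_v1 x) x := by
  have h := (OA02_max 19 (1 - x)).comp x (OA02_sub x)
  have e : ((19 + 2 : ℕ) : ℝ) * (max 0 (1 - x)) ^ (19 + 1) * (-1) = OA02_v1 x := by
    unfold OA02_v1
    norm_num
  rw [e] at h
  exact h

theorem OA02_w2 (x : ℝ) : HasDerivAt OA02_v1 (OA02_v2 x) x := by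
  have h := ((OA02_max 18 (1 - x)).comp x (OA02_sub x)).const_mul (-21)
  have e : -21 * (((18 + 2 : ℕ) : ℝ) * (max 0 (1 - x)) ^ (18 + 1) * (-1)) = OA02_v2 x := by
    unfold OA02_v2
    push_cast
    ring
  rw [e] at h
  exact h

theorem OA02_contDiff : ContDiff ℝ 2 LZ.wt := by
  have h1 : deriv LZ.wt = OA02_v1 := funext fun x => (OA02_w1 x).deriv
  have h2 : deriv OA02_v1 = OA02_v2 := funext fun x => (OA02_w2 x).deriv
  have e : (2 : WithTop ℕ∞) = 1 + 1 := by norm_num
  rw [e, contDiff_succ_iff_deriv]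
  refine ⟨fun x => (OA02_w1 x).differentiableAt, by simp, ?_⟩
  rw [h1, contDiff_one_iff_deriv]
  refine ⟨fun x => (OA02_w2 x).differentiableAt, ?_⟩
  rw [h2]
  unfold OA02_v2
  fun_prop

theorem OA02_mx {y : ℝ} (hy : 0 ≤ y) (k : ℕ) : 0 ≤ (max 0 (1 - y)) ^ k ∧ (max 0 (1 - y)) ^ k ≤ 1 :=
  ⟨pow_nonneg (le_max_left _ _) _, pow_le_one₀ (le_max_left _ _) (max_le (by norm_num) (by linarith only [hy]))⟩

theorem OA02_v1_le {y : ℝ} (hy : 0 ≤ y) : |OA02_v1 y| ≤ 21 := by
  obtain ⟨h1, h2⟩ := OA02_mx hy 20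
  unfold OA02_v1
  rw [abs_le]
  constructor <;> linarith only [h2, h1]

theorem OA02_v2_le {y : ℝ} (hy : 0 ≤ y) : |OA02_v2 y| ≤ 420 := by
  obtain ⟨h1, h2⟩ := OA02_mx hy 19
  unfold OA02_v2
  rw [abs_le]
  constructor <;> linarith only [h1, h2]

theorem OA02_wt_le {y : ℝ} (hy : 0 ≤ y) : |LZ.wt y| ≤ 1 := by
  obtain ⟨h1, h2⟩ := OA02_mx hy 21
  unfold LZ.wt
  rw [abs_le]
  constructor <;> linarith only [h1, h2]

/-- the derivative of the cutoff function -/
noncomputable def OA02_d1 (L x : ℝ) : ℝ :=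
  -∑ i : Fin 22, ci i * (OA02_v1 (tau i * Real.log x / L) * (tau i / (L * x)))

/-- the second derivative of the cutoff function -/
noncomputable def OA02_d2 (L x : ℝ) : ℝ :=
  -∑ i : Fin 22, ci i * (OA02_v2 (tau i * Real.log x / L) * (tau i / (L * x)) * (tau i / (L * x)) +
    OA02_v1 (tau i * Real.log x / L) * (-(tau i / (L * x ^ 2))))

theorem OA02_arg {L x : ℝ} (hL : 1 ≤ L) (hx : 0 < x) (t : ℝ) :
    HasDerivAt (fun x : ℝ => t * Real.log x / L) (t / (L * x)) x := by
  have h := ((Real.hasDerivAt_log hx.ne').const_mul t).div_const L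
  have e : t * x⁻¹ / L = t / (L * x) := by
    field_simp
  rw [e] at h
  exact h

theorem OA02_h1 {L x : ℝ} (hL : 1 ≤ L) (hx : 0 < x) : HasDerivAt (ff L) (OA02_d1 L x) x := by
  have h : HasDerivAt (fun x => ∑ i : Fin 22, ci i * LZ.wt (tau i * Real.log x / L))
      (∑ i : Fin 22, ci i * (OA02_v1 (tau i * Real.log x / L) * (tau i / (L * x)))) x := by
    apply HasDerivAt.fun_sum
    intro i _
    exact ((OA02_w1 _).comp x (OA02_arg hL hx (tau i))).const_mul (ci i)
  have h2 := h.const_sub 1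
  exact h2

theorem OA02_inv {L x : ℝ} (hL : 1 ≤ L) (hx : 0 < x) (t : ℝ) :
    HasDerivAt (fun x : ℝ => t / (L * x)) (-(t / (L * x ^ 2))) x := by
  have h := (hasDerivAt_inv hx.ne').const_mul (t / L)
  have hL0 : L ≠ 0 := by positivity
  have e : t / L * (-(x ^ 2)⁻¹) = -(t / (L * x ^ 2)) := by
    field_simp
  rw [e] at h
  refine h.congr_of_eventuallyEq ?_
  filter_upwards [Ioi_mem_nhds hx] with y hy
  have hy0 : y ≠ 0 := ne_of_gt hy
  field_simp

theorem OA02_h2 {L x : ℝ} (hL : 1 ≤ L) (hx : 0 < x) : HasDerivAt (OA02_d1 L) (OA02_d2 L x) x := by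
  have h : HasDerivAt (fun x => ∑ i : Fin 22, ci i * (OA02_v1 (tau i * Real.log x / L) * (tau i / (L * x))))
      (∑ i : Fin 22, ci i * (OA02_v2 (tau i * Real.log x / L) * (tau i / (L * x)) * (tau i / (L * x)) +
        OA02_v1 (tau i * Real.log x / L) * (-(tau i / (L * x ^ 2))))) x := by
    apply HasDerivAt.fun_sum
    intro i _
    exact (((OA02_w2 _).comp x (OA02_arg hL hx (tau i))).mul (OA02_inv hL hx (tau i))).const_mul (ci i)
  exact h.neg

/-- Lagrange interpolation at 0: for a real polynomial of degree at most 21, `∑ c_i p(τ_i) = p(0)`.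

PROOF. `Lagrange.interpolate` / `Lagrange.eq_interpolate_of_eval_eq` (22 distinct nodes `tau i`, injective), evaluate at
`0`: `Lagrange.basis` at `0` is `∏_{j≠i} (0 - τ_j)/(τ_i - τ_j) = ∏ τ_j/(τ_j - τ_i) = ci i`. -/
theorem ff_lagrange (p : Polynomial ℝ) (hp : p.degree < 22) : ∑ i : Fin 22, ci i * p.eval (tau i) = p.eval 0 := by
  have h1 : p = Lagrange.interpolate Finset.univ tau fun i => p.eval (tau i) := by
    apply Lagrange.eq_interpolate (OA02_tau_inj.injOn)
    simpa using hp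
  conv_rhs => rw [h1]
  rw [Lagrange.interpolate_apply, Polynomial.eval_finsetSum]
  refine Finset.sum_congr rfl fun i _ => ?_
  rw [Polynomial.eval_mul, Polynomial.eval_C, mul_comm]
  congr 1
  unfold ci Lagrange.basis
  rw [Polynomial.eval_prod]
  refine Finset.prod_congr rfl fun j hj => ?_
  have hij : tau i ≠ tau j := fun h => (Finset.ne_of_mem_erase hj) (OA02_tau_inj h).symm
  unfold Lagrange.basisDivisor
  rw [Polynomial.eval_mul, Polynomial.eval_C, Polynomial.eval_sub, Polynomial.eval_X, Polynomial.eval_C, zero_sub]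
  have h2 : tau i - tau j ≠ 0 := sub_ne_zero.mpr hij
  have h3 : tau j - tau i ≠ 0 := sub_ne_zero.mpr hij.symm
  field_simp
  ring

/-- A1. The function of the cutoff: `ff L` vanishes on `(0, e^(L/1000)]`, equals 1 on `[e^(L/500), oo)`, is bounded on
`[1, oo)` and has first and second derivatives `≤ B/x, B/x²` there.

PROOF. `rho L x = ∑ c_i wt(τ_i y)`, `y = log x/L`, `500 ≤ τ_i ≤ 1000`. (1) `x ≤ e^(L/1000)`: `y ≤ 1/1000`, `τ_i y ≤ 1`
(also for `y < 0`), so `wt(τ_i y) = (1 - τ_i y)^21` is a polynomial in `τ_i` of degree 21; `ff_lagrange` with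
`p = (1 - C y * X)^21` gives `rho = p(0) = 1`. (2) `x ≥ e^(L/500)`: `y ≥ 1/500`, `τ_i y ≥ 1`, `wt = 0`. (3) for `x ≥ 1`:
`0 ≤ wt(τ_i y) ≤ 1`, so `|rho| ≤ ∑|c_i|`. (4) `wt x = (max 0 (1-x))^21` is C^2: its derivative is
`-21 (max 0 (1-x))^20`, its second derivative `420 (max 0 (1-x))^19` (prove `HasDerivAt` for `x ↦ (max 0 x)^(n+1)`,
`n ≥ 1`, by cases `x < 0, x = 0, x > 0`). So on `x > 0`:
`rho' = ∑ c_i wt'(τ_i y) τ_i/(L x)`, `rho'' = ∑ c_i (wt''(τ_i y) (τ_i/(L x))^2 - wt'(τ_i y) τ_i/(L x^2))`, and for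
`x ≥ 1`, `L ≥ 1`: `|wt'| ≤ 21`, `|wt''| ≤ 420` on `[0, oo)`. `B = 1 + ∑ |c_i| (1 + 21 τ_i + 420 τ_i^2 + 21 τ_i)`. -/
theorem ff_facts : ∃ B : ℝ, 0 < B ∧ ∀ L : ℝ, 1 ≤ L →
    (∀ x : ℝ, 0 < x → x ≤ Real.exp (L / 1000) → ff L x = 0) ∧
    (∀ x : ℝ, Real.exp (L / 500) ≤ x → ff L x = 1) ∧
    (∀ x : ℝ, 1 ≤ x → |ff L x| ≤ B) ∧
    ContDiffOn ℝ 2 (ff L) (Ioi 0) ∧
    (∀ x : ℝ, 1 ≤ x → |deriv (ff L) x| ≤ B / x) ∧
    (∀ x : ℝ, 1 ≤ x → |deriv (deriv (ff L)) x| ≤ B / x ^ 2) := by
  set S0 : ℝ := ∑ i : Fin 22, |ci i| with hS0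
  set S1 : ℝ := ∑ i : Fin 22, |ci i| * (21 * tau i) with hS1
  set S2 : ℝ := ∑ i : Fin 22, |ci i| * (420 * tau i ^ 2 + 21 * tau i) with hS2
  have h0 : 0 ≤ S0 := Finset.sum_nonneg fun i _ => abs_nonneg _
  have h1 : 0 ≤ S1 := Finset.sum_nonneg fun i _ => mul_nonneg (abs_nonneg _) (by linarith only [OA02_tau_pos i])
  have h2 : 0 ≤ S2 := Finset.sum_nonneg fun i _ => mul_nonneg (abs_nonneg _) (by
    have := OA02_tau_pos i
    positivity)
  refine ⟨1 + S0 + S1 + S2, by positivity, fun L hL => ⟨?_, ?_, ?_, ?_, ?_, ?_⟩⟩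
  · intro x hx hxL
    have hL0 : 0 < L := by linarith only [hL]
    have hlog : Real.log x ≤ L / 1000 := by
      rw [Real.log_le_iff_le_exp hx]
      exact hxL
    set y : ℝ := Real.log x / L with hy
    have hwt : ∀ i : Fin 22, LZ.wt (tau i * Real.log x / L) =
        ((1 - Polynomial.C y * Polynomial.X) ^ 21 : Polynomial ℝ).eval (tau i) := by
      intro i
      have h3 : tau i * Real.log x / L ≤ 1 := by
        rw [div_le_one hL0]
        rcases le_total 0 (Real.log x) with h4 | h4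
        · calc tau i * Real.log x ≤ 1000 * (L / 1000) :=
              mul_le_mul (OA02_tau_le i) hlog h4 (by norm_num)
            _ = L := by ring
        · exact (mul_nonpos_of_nonneg_of_nonpos (OA02_tau_pos i).le h4).trans hL0.le
      unfold LZ.wt
      rw [max_eq_right (by linarith only [h3])]
      simp only [Polynomial.eval_pow, Polynomial.eval_sub, Polynomial.eval_one, Polynomial.eval_mul,
        Polynomial.eval_C, Polynomial.eval_X]
      rw [hy]
      congr 2
      ring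
    have hdeg : ((1 - Polynomial.C y * Polynomial.X) ^ 21 : Polynomial ℝ).degree < 22 := by
      have h3 : ((1 - Polynomial.C y * Polynomial.X) ^ 21 : Polynomial ℝ).natDegree ≤ 21 * 1 := by
        refine Polynomial.natDegree_pow_le.trans (Nat.mul_le_mul_left 21 ?_)
        refine (Polynomial.natDegree_sub_le _ _).trans (max_le ?_ ?_)
        · simp
        · exact Polynomial.natDegree_C_mul_le y Polynomial.X |>.trans Polynomial.natDegree_X_le
      refine lt_of_le_of_lt (Polynomial.degree_le_of_natDegree_le h3) ?_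
      norm_num
    unfold ff rho
    rw [Finset.sum_congr rfl fun i _ => by rw [hwt i], ff_lagrange _ hdeg]
    simp
  · intro x hx
    have hL0 : 0 < L := by linarith only [hL]
    have hx0 : 0 < x := lt_of_lt_of_le (Real.exp_pos _) hx
    have hlog : L / 500 ≤ Real.log x := by
      rw [Real.le_log_iff_exp_le hx0]
      exact hx
    unfold ff rho
    rw [Finset.sum_eq_zero, sub_zero]
    intro i _
    have h3 : 1 ≤ tau i * Real.log x / L := by
      rw [le_div_iff₀ hL0, one_mul]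
      calc L = 500 * (L / 500) := by ring
        _ ≤ tau i * Real.log x := mul_le_mul (OA02_le_tau i) hlog (by positivity) (OA02_tau_pos i).le
    unfold LZ.wt
    rw [max_eq_left (by linarith only [h3])]
    simp
  · intro x hx
    have hL0 : 0 < L := by linarith only [hL]
    have h3 : |rho L x| ≤ S0 := by
      unfold rho
      refine (Finset.abs_sum_le_sum_abs _ _).trans (Finset.sum_le_sum fun i _ => ?_)
      rw [abs_mul]
      have hy : 0 ≤ tau i * Real.log x / L := by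
        have := OA02_tau_pos i
        have := Real.log_nonneg hx
        positivity
      exact mul_le_of_le_one_right (abs_nonneg _) (OA02_wt_le hy)
    unfold ff
    have h4 := abs_sub (1 : ℝ) (rho L x)
    rw [abs_one] at h4
    linarith only [h1, h2, h3, h4]
  · have hL0 : 0 < L := by linarith only [hL]
    unfold ff rho
    refine contDiffOn_const.sub (ContDiffOn.sum fun i _ => contDiffOn_const.mul ?_)
    refine OA02_contDiff.comp_contDiffOn ?_
    refine (contDiffOn_const.mul ?_).div_const L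
    exact Real.contDiffOn_log.mono fun x hx => ne_of_gt hx
  · intro x hx
    have hL0 : 0 < L := by linarith only [hL]
    have hx0 : 0 < x := by linarith only [hx]
    rw [(OA02_h1 hL hx0).deriv]
    unfold OA02_d1
    rw [abs_neg]
    refine le_trans (b := S1 / x) ?_ (by
      rw [div_le_div_iff_of_pos_right hx0]
      linarith only [h0, h2])
    rw [hS1, Finset.sum_div]
    refine (Finset.abs_sum_le_sum_abs _ _).trans (Finset.sum_le_sum fun i _ => ?_)
    have ht := OA02_tau_pos i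
    have hy : 0 ≤ tau i * Real.log x / L := by
      have := Real.log_nonneg hx
      positivity
    rw [abs_mul, mul_div_assoc |ci i|]
    refine mul_le_mul_of_nonneg_left ?_ (abs_nonneg _)
    rw [abs_mul, abs_of_pos (by positivity : 0 < tau i / (L * x))]
    have h3 : tau i / (L * x) ≤ tau i / x := by
      apply div_le_div_of_nonneg_left ht.le hx0
      nlinarith only [hL, hx]
    calc |OA02_v1 (tau i * Real.log x / L)| * (tau i / (L * x)) ≤ 21 * (tau i / x) :=
          mul_le_mul (OA02_v1_le hy) h3 (by positivity) (by norm_num)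
      _ = 21 * tau i / x := by ring
  · intro x hx
    have hL0 : 0 < L := by linarith only [hL]
    have hx0 : 0 < x := by linarith only [hx]
    have hev : deriv (ff L) =ᶠ[𝓝 x] OA02_d1 L := by
      filter_upwards [Ioi_mem_nhds hx0] with y hy
      exact (OA02_h1 hL hy).deriv
    rw [hev.deriv_eq, (OA02_h2 hL hx0).deriv]
    unfold OA02_d2
    rw [abs_neg]
    refine le_trans (b := S2 / x ^ 2) ?_ (by
      rw [div_le_div_iff_of_pos_right (by positivity)]
      linarith only [h0, h1])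
    rw [hS2, Finset.sum_div]
    refine (Finset.abs_sum_le_sum_abs _ _).trans (Finset.sum_le_sum fun i _ => ?_)
    have ht := OA02_tau_pos i
    have hy : 0 ≤ tau i * Real.log x / L := by
      have := Real.log_nonneg hx
      positivity
    rw [abs_mul, mul_div_assoc |ci i|]
    refine mul_le_mul_of_nonneg_left ?_ (abs_nonneg _)
    have h3 : tau i / (L * x) ≤ tau i / x := by
      apply div_le_div_of_nonneg_left ht.le hx0
      nlinarith only [hL, hx]
    have h3' : 0 ≤ tau i / (L * x) := by positivity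
    have h4 : tau i / (L * x ^ 2) ≤ tau i / x ^ 2 := by
      apply div_le_div_of_nonneg_left ht.le (by positivity)
      nlinarith only [pow_pos hx0 2, hL]
    have h4' : 0 ≤ tau i / (L * x ^ 2) := by positivity
    refine (abs_add_le _ _).trans ?_
    rw [abs_mul, abs_mul, abs_mul, abs_neg, abs_of_nonneg h3', abs_of_nonneg h4']
    have h5 : |OA02_v2 (tau i * Real.log x / L)| * (tau i / (L * x)) * (tau i / (L * x)) ≤
        420 * (tau i / x) * (tau i / x) :=
      mul_le_mul (mul_le_mul (OA02_v2_le hy) h3 h3' (by norm_num)) h3 h3' (by positivity)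
    have h6 : |OA02_v1 (tau i * Real.log x / L)| * (tau i / (L * x ^ 2)) ≤ 21 * (tau i / x ^ 2) :=
      mul_le_mul (OA02_v1_le hy) h4 h4' (by norm_num)
    calc _ ≤ 420 * (tau i / x) * (tau i / x) + 21 * (tau i / x ^ 2) := add_le_add h5 h6
      _ = (420 * tau i ^ 2 + 21 * tau i) / x ^ 2 := by ring

end OO

end

section

/-! # Row OE16: continuity and decay of `g` -/

open Complex MeasureTheory Set Filter Topology
open scoped ComplexConjugate

namespace OO

theorem E_Facts_term {lam : ℕ → ℂ} {B : ℝ} (hlam : ∀ n, ‖lam n‖ ≤ B * n) {w : ℂ} {c : ℝ} (hw : c ≤ w.re)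
    (n : ℕ) : ‖lam n * exp (-(2 * Real.pi * n * w))‖ ≤ B * (n * Real.exp (-(2 * Real.pi * c)) ^ n) := by
  have hB : 0 ≤ B * n := (norm_nonneg _).trans (hlam n)
  rw [norm_mul, Complex.norm_exp]
  have e1 : (-(2 * Real.pi * n * w) : ℂ).re = -(2 * Real.pi * n * w.re) := by
    have : (2 * (Real.pi : ℂ) * n * w) = ((2 * Real.pi * n : ℝ) : ℂ) * w := by push_cast; ring
    rw [neg_re, this, re_ofReal_mul]
  rw [e1]
  have e2 : Real.exp (-(2 * Real.pi * n * w.re)) ≤ Real.exp (-(2 * Real.pi * c)) ^ n := by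
    rw [← Real.exp_nat_mul]
    apply Real.exp_le_exp.2
    have h0 : 0 ≤ 2 * Real.pi * n := by positivity
    have h1 := mul_le_mul_of_nonneg_left hw h0
    linarith only [h1]
  calc ‖lam n‖ * Real.exp (-(2 * Real.pi * n * w.re)) ≤ (B * n) * Real.exp (-(2 * Real.pi * c)) ^ n :=
        mul_le_mul (hlam n) e2 (Real.exp_nonneg _) hB
    _ = _ := by ring

theorem E_Facts_geom {c : ℝ} (hc : 0 < c) : ‖Real.exp (-(2 * Real.pi * c))‖ < 1 := by
  rw [Real.norm_eq_abs, abs_of_pos (Real.exp_pos _), Real.exp_lt_one_iff]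
  have := Real.pi_pos
  have : 0 < 2 * Real.pi * c := by positivity
  exact neg_lt_zero.mpr this

/-- PROOF. `‖FS lam w‖ ≤ ∑ B n exp(-(y n))`, `y = 2π w.re > 0`, and `∑ n exp(-(y n)) = e^(-y)/(1-e^(-y))^2 ≤ e^(-y) (1+1/y)^2`
(`tsum_coe_mul_geometric_of_norm_lt_one`, `1 - e^(-y) ≥ y/(1+y)`). -/
theorem E_FS_le {lam : ℕ → ℂ} {B : ℝ} (hlam : ∀ n, ‖lam n‖ ≤ B * n) {w : ℂ} (hw : 0 < w.re) :
    ‖FS lam w‖ ≤ B * (1 + 1 / (2 * Real.pi * w.re)) ^ 2 * Real.exp (-(2 * Real.pi * w.re)) := by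
  have hB : 0 ≤ B := by
    have := (norm_nonneg _).trans (hlam 1)
    simpa using this
  set y : ℝ := 2 * Real.pi * w.re with hy
  have hy0 : 0 < y := by have := Real.pi_pos; positivity
  have hg := hasSum_coe_mul_geometric_of_norm_lt_one (E_Facts_geom hw)
  rw [← hy] at hg
  have h1 : ‖FS lam w‖ ≤ B * (Real.exp (-y) / (1 - Real.exp (-y)) ^ 2) := by
    unfold FS
    exact tsum_of_norm_bounded (hg.mul_left B) fun n => E_Facts_term hlam le_rfl n
  refine h1.trans ?_
  have h2 : y / (1 + y) ≤ 1 - Real.exp (-y) := by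
    have h3 : Real.exp (-y) ≤ 1 / (1 + y) := by
      rw [Real.exp_neg, ← one_div]
      apply one_div_le_one_div_of_le (add_pos one_pos hy0)
      have := Real.add_one_le_exp y
      rwa [add_comm] at this
    have h4 : y / (1 + y) = 1 - 1 / (1 + y) := by field_simp; ring
    rw [h4]
    exact sub_le_sub_left h3 1
  have h5 : 0 < y / (1 + y) := by positivity
  have h6 : 1 / (1 - Real.exp (-y)) ^ 2 ≤ (1 + 1 / y) ^ 2 := by
    have h7 : (1 + 1 / y) = 1 / (y / (1 + y)) := by field_simp; ring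
    rw [h7, ← one_div_pow]
    apply pow_le_pow_left₀ (one_div_nonneg.2 (le_trans h5.le h2))
    exact one_div_le_one_div_of_le h5 h2
  calc B * (Real.exp (-y) / (1 - Real.exp (-y)) ^ 2) = B * (1 / (1 - Real.exp (-y)) ^ 2) * Real.exp (-y) := by ring
    _ ≤ B * (1 + 1 / y) ^ 2 * Real.exp (-y) := by gcongr

/-- PROOF. Locally uniform convergence on `0 < w.re`: on `{w | c < w.re}` the terms are bounded by `B n exp(-(2π c n))`;
`continuousOn_tsum`, then glue (`ContinuousOn` on the open half plane is local). -/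
theorem E_FS_cont {lam : ℕ → ℂ} {B : ℝ} (hlam : ∀ n, ‖lam n‖ ≤ B * n) : ContinuousOn (FS lam) {w : ℂ | 0 < w.re} := by
  intro w hw
  have hw' : 0 < w.re := hw
  set c : ℝ := w.re / 2 with hc
  have hc0 : 0 < c := by positivity
  have h1 : ContinuousOn (FS lam) {u : ℂ | c < u.re} := by
    unfold FS
    refine continuousOn_tsum (u := fun n : ℕ => B * (n * Real.exp (-(2 * Real.pi * c)) ^ n)) ?_ ?_ ?_
    · intro n
      fun_prop
    · exact (hasSum_coe_mul_geometric_of_norm_lt_one (E_Facts_geom hc0)).summable.mul_left B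
    · intro n u hu
      exact E_Facts_term hlam (le_of_lt hu) n
  have hopen : IsOpen {u : ℂ | c < u.re} := isOpen_lt continuous_const Complex.continuous_re
  have hmem : w ∈ {u : ℂ | c < u.re} := by show c < w.re; rw [hc]; exact half_lt_self hw'
  exact (h1.continuousAt (hopen.mem_nhds hmem)).continuousWithinAt

/-- Continuity, decay, integrability of `g`.
PROOF. `(zz ε * x * h / k).re = sin ε * x * h/k ≥ c1 x > 0` for `x > 0`, `1 ≤ h, k ≤ H`, with `c1 = sin ε/(H+1)`; finite sum of `E_FS_le` and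
`E_FS_cont`: `‖g x‖ ≤ C0 (1 + 1/(2π c1 x))^2 exp(-(2π c1 x)) ≤ C (1+1/x)^3 exp(-(c x))`. -/
theorem gg_facts (b lam : ArithmeticFunction ℂ) (H : ℕ) (B ε : ℝ) (hlam : ∀ n, ‖lam n‖ ≤ B * n) (hε : 0 < ε)
    (hε' : ε ≤ 1 / 10) : ContinuousOn (gg b H lam ε) (Ioi 0) ∧ ∃ C c : ℝ, 0 < C ∧ 0 < c ∧
      ∀ x : ℝ, 0 < x → ‖gg b H lam ε x‖ ≤ C * (1 + 1 / x) ^ 3 * Real.exp (-(c * x)) := by
  have hs := sin_pos' hε hε'
  have hB : 0 ≤ B := by
    have := (norm_nonneg _).trans (hlam 1)
    simpa using this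
  have hre : ∀ (x : ℝ) (h k : ℕ), (zz ε * x * h / k).re = Real.sin ε * x * ((h : ℝ) / k) := by
    intro x h k
    have e1 : zz ε * x * h / k = zz ε * ((x * h / k : ℝ) : ℂ) := by push_cast; ring
    rw [e1, re_mul_ofReal, zz_re]
    ring
  have hpos : ∀ (x : ℝ) (h k : ℕ), 0 < x → 1 ≤ h → 1 ≤ k → 0 < (zz ε * x * h / k).re := by
    intro x h k hx hh hk
    rw [hre]
    have h1 : (0 : ℝ) < h := by exact_mod_cast hh
    have h2 : (0 : ℝ) < k := by exact_mod_cast hk
    positivity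
  refine ⟨?_, ?_⟩
  · unfold gg
    refine continuousOn_finsetSum _ fun h hh => continuousOn_finsetSum _ fun k hk => ?_
    rw [Finset.mem_Icc] at hh hk
    refine continuousOn_const.mul ?_
    refine (E_FS_cont hlam).comp (f := fun x : ℝ => zz ε * x * h / k) (by fun_prop) ?_
    intro x hx
    exact hpos x h k hx hh.1 hk.1
  · set c1 : ℝ := Real.sin ε / (H + 1) with hc1
    have hc10 : 0 < c1 := by positivity
    set c : ℝ := 2 * Real.pi * c1 with hc
    have hpi := Real.pi_pos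
    have hc0 : 0 < c := by positivity
    set N : ℝ := ∑ h ∈ Finset.Icc 1 H, ∑ k ∈ Finset.Icc 1 H, ‖b h * conj (b k) / k‖ with hN
    have hN0 : 0 ≤ N := Finset.sum_nonneg fun h _ => Finset.sum_nonneg fun k _ => norm_nonneg _
    refine ⟨N * (B * (1 + 1 / c) ^ 2) + 1, c, by positivity, hc0, ?_⟩
    intro x hx
    have hx1 : 1 ≤ 1 + 1 / x := by
      have : 0 < 1 / x := by positivity
      exact le_add_of_nonneg_right this.le
    have hFS : ∀ h ∈ Finset.Icc 1 H, ∀ k ∈ Finset.Icc 1 H, ‖FS lam (zz ε * x * h / k)‖ ≤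
        B * (1 + 1 / c) ^ 2 * (1 + 1 / x) ^ 3 * Real.exp (-(c * x)) := by
      intro h hh k hk
      rw [Finset.mem_Icc] at hh hk
      have hw := hpos x h k hx hh.1 hk.1
      have h1 := E_FS_le hlam hw
      have hge : c1 * x ≤ (zz ε * x * h / k).re := by
        rw [hre, hc1]
        have h2 : (0 : ℝ) < k := by exact_mod_cast hk.1
        have h3 : (1 : ℝ) ≤ h := by exact_mod_cast hh.1
        have h4 : (k : ℝ) ≤ H + 1 := by
          have : (k : ℝ) ≤ H := by exact_mod_cast hk.2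
          exact this.trans (le_add_of_nonneg_right zero_le_one)
        have h5 : 1 / ((H : ℝ) + 1) ≤ h / k := by
          rw [div_le_div_iff₀ (by positivity) h2, one_mul]
          exact h4.trans (le_mul_of_one_le_left (h2.le.trans h4) h3)
        calc Real.sin ε / (H + 1) * x = Real.sin ε * x * (1 / (H + 1)) := by ring
          _ ≤ Real.sin ε * x * (h / k) := by gcongr
      have hcx : c * x ≤ 2 * Real.pi * (zz ε * x * h / k).re := by
        rw [hc, mul_assoc]
        exact mul_le_mul_of_nonneg_left hge (by positivity)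
      have hcx0 : 0 < c * x := by positivity
      have h6 : (1 + 1 / (2 * Real.pi * (zz ε * x * h / k).re)) ^ 2 ≤ (1 + 1 / c) ^ 2 * (1 + 1 / x) ^ 3 := by
        have h7 : 1 / (2 * Real.pi * (zz ε * x * h / k).re) ≤ 1 / (c * x) :=
          one_div_le_one_div_of_le hcx0 hcx
        have h8 : 1 + 1 / (2 * Real.pi * (zz ε * x * h / k).re) ≤ (1 + 1 / c) * (1 + 1 / x) := by
          have h9 : (1 + 1 / c) * (1 + 1 / x) = 1 + 1 / (c * x) + 1 / c + 1 / x := by
            field_simp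
            ring
          have h10 : 0 < 1 / c := one_div_pos.mpr hc0
          have h11 : 0 < 1 / x := one_div_pos.mpr hx
          linarith only [h7, h9, h10, h11]
        calc (1 + 1 / (2 * Real.pi * (zz ε * x * h / k).re)) ^ 2 ≤ ((1 + 1 / c) * (1 + 1 / x)) ^ 2 := by
              have : 0 ≤ 1 + 1 / (2 * Real.pi * (zz ε * x * h / k).re) :=
                add_nonneg zero_le_one (one_div_nonneg.mpr (hcx0.le.trans hcx))
              exact pow_le_pow_left₀ this h8 2
          _ = (1 + 1 / c) ^ 2 * (1 + 1 / x) ^ 2 := by ring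
          _ ≤ (1 + 1 / c) ^ 2 * (1 + 1 / x) ^ 3 := by
              exact mul_le_mul_of_nonneg_left (pow_le_pow_right₀ hx1 (by norm_num)) (sq_nonneg _)
      have h12 : Real.exp (-(2 * Real.pi * (zz ε * x * h / k).re)) ≤ Real.exp (-(c * x)) :=
        Real.exp_le_exp.2 (neg_le_neg hcx)
      calc ‖FS lam (zz ε * x * h / k)‖ ≤ B * (1 + 1 / (2 * Real.pi * (zz ε * x * h / k).re)) ^ 2 *
            Real.exp (-(2 * Real.pi * (zz ε * x * h / k).re)) := h1
        _ ≤ B * ((1 + 1 / c) ^ 2 * (1 + 1 / x) ^ 3) * Real.exp (-(c * x)) := by gcongr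
        _ = _ := by ring
    have hgg : ‖gg b H lam ε x‖ ≤ N * (B * (1 + 1 / c) ^ 2 * (1 + 1 / x) ^ 3 * Real.exp (-(c * x))) := by
      unfold gg
      rw [hN, Finset.sum_mul]
      refine (norm_sum_le _ _).trans (Finset.sum_le_sum fun h hh => ?_)
      rw [Finset.sum_mul]
      refine (norm_sum_le _ _).trans (Finset.sum_le_sum fun k hk => ?_)
      rw [norm_mul]
      exact mul_le_mul_of_nonneg_left (hFS h hh k hk) (norm_nonneg _)
    refine hgg.trans ?_
    have hE : 0 ≤ (1 + 1 / x) ^ 3 * Real.exp (-(c * x)) := by positivity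
    calc N * (B * (1 + 1 / c) ^ 2 * (1 + 1 / x) ^ 3 * Real.exp (-(c * x)))
        = (N * (B * (1 + 1 / c) ^ 2)) * ((1 + 1 / x) ^ 3 * Real.exp (-(c * x))) := by ring
      _ ≤ (N * (B * (1 + 1 / c) ^ 2) + 1) * ((1 + 1 / x) ^ 3 * Real.exp (-(c * x))) := by
          exact mul_le_mul_of_nonneg_right (le_add_of_nonneg_right zero_le_one) hE
      _ = _ := by ring

end OO

end

section

section F_A15

open Complex MeasureTheory Set Filter Topology
open scoped ComplexConjugate

namespace LZ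

theorem A15_f1 {y : ℝ} (hy : 0 < y) : 0 ≤ f1 y ∧ f1 y ≤ Real.exp (-y) := by
  unfold f1
  rw [Real.exp_neg]
  have h1 : y + 1 ≤ Real.exp y := Real.add_one_le_exp y
  have h2 : 1 - y ≤ (Real.exp y)⁻¹ := by
    rw [← Real.exp_neg]; linarith only [Real.add_one_le_exp (-y)]
  set E := Real.exp y with hE
  have hE0 : 0 < E := Real.exp_pos y
  have hE1 : 0 < E - 1 := by linarith only [hy, h1]
  have h3 : E * (1 - y) ≤ 1 := by
    calc E * (1 - y) ≤ E * E⁻¹ := by gcongr
      _ = 1 := mul_inv_cancel₀ hE0.ne'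
  constructor
  · rw [sub_nonneg, ← one_div, div_div, div_le_div_iff₀ (by positivity) hE1]
    linarith only [h3]
  · rw [sub_le_iff_le_add, ← one_div, div_div, div_add_div _ _ (by positivity) (by positivity),
      div_le_div_iff₀ hE1 (by positivity)]
    nlinarith only [mul_nonneg hE0.le (by linarith : 0 ≤ E - 1 - y), hE0, h1]

/-- |zeta(1+eta)| and |Ac eta|: |Gamma(1-eta)| <= Gamma(1-Re eta), f1 bounded by C exp(-y/2). -/
theorem zA_bounds (V : ℝ) (hV : 0 ≤ V) : ∃ C : ℝ, 0 < C ∧ ∀ η : ℂ, |η.re| ≤ 1/8 → |η.im| ≤ V → η ≠ 0 →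
    ‖riemannZeta (1 + η)‖ ≤ C * (1 + 1 / ‖η‖) ∧ ‖Ac η‖ ≤ C * (1 + 1 / ‖η‖) := by
  set S : Set ℂ := Icc (-(1/8 : ℝ)) (1/8) ×ℂ Icc (-V) V with hS
  have hSc : IsCompact S := isCompact_Icc.reProdIm isCompact_Icc
  have hmem : ∀ η : ℂ, |η.re| ≤ 1/8 → |η.im| ≤ V → η ∈ S := by
    intro η h1 h2
    rw [hS, mem_reProdIm]
    exact ⟨abs_le.1 h1, abs_le.1 h2⟩
  have hre : ∀ η ∈ S, |η.re| ≤ 1/8 := by
    intro η h
    rw [hS, mem_reProdIm] at h
    exact abs_le.2 h.1
  -- zeta
  obtain ⟨C1, hC1⟩ := hSc.exists_bound_of_continuousOn (f := fun η : ℂ => riemannZeta₁ (1 + η))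
    (by
      refine Continuous.continuousOn ?_
      exact differentiable_riemannZeta₁.continuous.comp (by fun_prop))
  obtain ⟨C2, hC2⟩ := hSc.exists_bound_of_continuousOn (f := fun η : ℂ => Gamma (1 - η))
    (by
      intro η hη
      have h1 := abs_le.1 (hre η hη)
      refine ContinuousAt.continuousWithinAt ?_
      refine ContinuousAt.comp (g := Gamma) (f := fun η : ℂ => 1 - η) ?_ (by fun_prop)
      refine (differentiableAt_Gamma _ ?_).continuousAt
      intro m h
      have h2 := congrArg Complex.re h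
      simp only [sub_re, one_re, neg_re, natCast_re] at h2
      have h3 : (0 : ℝ) ≤ m := Nat.cast_nonneg m
      linarith only [h1, h2])
  set g : ℝ → ℝ := fun y => y ^ (-(1/8 : ℝ)) * Real.exp (-y) + y ^ (1/8 : ℝ) * Real.exp (-y) with hg
  have hgi : IntegrableOn g (Ioi 0) := by
    refine Integrable.add ?_ ?_
    · have h := integrableOn_rpow_mul_exp_neg_mul_rpow (s := -(1/8 : ℝ)) (p := 1) (b := 1) (by norm_num) one_pos one_pos
      refine h.congr_fun (fun t _ => ?_) measurableSet_Ioi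
      simp only [Real.rpow_one, neg_mul, one_mul]
    · have h := integrableOn_rpow_mul_exp_neg_mul_rpow (s := (1/8 : ℝ)) (p := 1) (b := 1) (by norm_num) one_pos one_pos
      refine h.congr_fun (fun t _ => ?_) measurableSet_Ioi
      simp only [Real.rpow_one, neg_mul, one_mul]
  set C3 : ℝ := ∫ y in Ioi (0 : ℝ), g y with hC3
  have hint : ∀ η : ℂ, |η.re| ≤ 1/8 → ‖∫ y in Ioi (0:ℝ), (y : ℂ) ^ (-η) * (f1 y : ℂ)‖ ≤ C3 := by
    intro η hη
    refine norm_integral_le_of_norm_le hgi ?_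
    refine (ae_restrict_iff' measurableSet_Ioi).2 (Eventually.of_forall fun y hy => ?_)
    have hy0 : (0 : ℝ) < y := hy
    obtain ⟨h1, h2⟩ := A15_f1 hy0
    obtain ⟨h3, h4⟩ := abs_le.1 hη
    rw [norm_mul, Complex.norm_cpow_eq_rpow_re_of_pos hy0, neg_re, Complex.norm_real, Real.norm_of_nonneg h1]
    have h5 : y ^ (-η.re) ≤ y ^ (-(1/8 : ℝ)) + y ^ (1/8 : ℝ) := by
      rcases le_total 1 y with h | h
      · have := Real.rpow_le_rpow_of_exponent_le h (by linarith only [h3] : -η.re ≤ 1/8)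
        have h6 : 0 ≤ y ^ (-(1/8 : ℝ)) := by positivity
        linarith only [this, h6]
      · have := Real.rpow_le_rpow_of_exponent_ge hy0 h (by linarith only [h4] : -(1/8) ≤ -η.re)
        have h6 : 0 ≤ y ^ (1/8 : ℝ) := by positivity
        linarith only [this, h6]
    calc y ^ (-η.re) * f1 y ≤ (y ^ (-(1/8 : ℝ)) + y ^ (1/8 : ℝ)) * Real.exp (-y) := by gcongr
      _ = g y := by rw [hg]; ring
  have hC3' : 0 ≤ C3 := (norm_nonneg _).trans (hint 0 (by simp))
  refine ⟨|C1| + |C2| + C3 + 1, by positivity, fun η h1 h2 h0 => ?_⟩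
  have hn : 0 < ‖η‖ := norm_pos_iff.2 h0
  have hi : 0 < 1 / ‖η‖ := by positivity
  constructor
  · have h3 := hC1 η (hmem η h1 h2)
    have h4 : riemannZeta (1 + η) = riemannZeta₁ (1 + η) / η := by
      have h6 : (1 : ℂ) + η ≠ 1 := by
        intro h
        exact h0 (by simpa using h)
      rw [riemannZeta_eq_inv_sub_mul h6, add_sub_cancel_left, div_eq_inv_mul]
    rw [h4, norm_div, div_eq_mul_one_div]
    have h5 : ‖riemannZeta₁ (1 + η)‖ ≤ |C1| + |C2| + C3 + 1 := by
      have := le_abs_self C1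
      have := abs_nonneg C2
      linarith
    calc ‖riemannZeta₁ (1 + η)‖ * (1 / ‖η‖) ≤ (|C1| + |C2| + C3 + 1) * (1 / ‖η‖) := by gcongr
      _ ≤ (|C1| + |C2| + C3 + 1) * (1 + 1 / ‖η‖) := by gcongr; linarith only []
  · unfold Ac
    have h3 := hC2 η (hmem η h1 h2)
    refine (norm_add_le _ _).trans ?_
    rw [norm_div, norm_neg, div_eq_mul_one_div]
    have a1 : ‖Gamma (1 - η)‖ * (1 / ‖η‖) ≤ (|C1| + |C2| + C3 + 1) * (1 / ‖η‖) := by
      gcongr
      have := le_abs_self C2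
      have := abs_nonneg C1
      linarith
    have a2 : ‖∫ y in Ioi (0:ℝ), (y : ℂ) ^ (-η) * (f1 y : ℂ)‖ ≤ |C1| + |C2| + C3 + 1 := by
      have := hint η h1
      have := abs_nonneg C1
      have := abs_nonneg C2
      linarith
    calc ‖Gamma (1 - η)‖ * (1 / ‖η‖) + ‖∫ y in Ioi (0:ℝ), (y : ℂ) ^ (-η) * (f1 y : ℂ)‖
        ≤ (|C1| + |C2| + C3 + 1) * (1 / ‖η‖) + (|C1| + |C2| + C3 + 1) := add_le_add a1 a2
      _ = (|C1| + |C2| + C3 + 1) * (1 + 1 / ‖η‖) := by ring

end LZ

end F_A15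

section F_X_M08

open Complex MeasureTheory Set Filter Topology
open scoped ComplexConjugate

namespace LX

open LZ

variable {q : ℕ} [NeZero q]

/-- reflection -/
theorem Lf_conj {χ : DirichletCharacter ℂ q} (hχ : χ ≠ 1) (s : ℂ) :
    Lf χ⁻¹ (conj s) = conj (Lf χ s) := by
  have hinv : χ⁻¹ ≠ 1 := inv_ne_one.mpr hχ
  have hf : AnalyticOnNhd ℂ (Lf χ⁻¹) univ := fun z _ => (Lf_diff hinv).analyticAt z
  have hgd : Differentiable ℂ (fun z => conj (Lf χ (conj z))) := by
    intro z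
    have h := ((Lf_diff hχ) (conj z)).conj_conj
    rw [Complex.conj_conj] at h
    exact h
  have hg : AnalyticOnNhd ℂ (fun z => conj (Lf χ (conj z))) univ := fun z _ => hgd.analyticAt z
  have h2 : (2 : ℂ) ∈ (univ : Set ℂ) := mem_univ _
  have key : EqOn (Lf χ⁻¹) (fun z => conj (Lf χ (conj z))) univ := by
    refine hf.eqOn_of_preconnected_of_eventuallyEq hg isPreconnected_univ h2 ?_
    have hev : ∀ᶠ z : ℂ in 𝓝 (2 : ℂ), 1 < z.re :=
      (isOpen_lt continuous_const Complex.continuous_re).mem_nhds (by simp)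
    filter_upwards [hev] with z hz
    have hz' : 1 < (conj z).re := by rwa [Complex.conj_re]
    unfold Lf
    rw [DirichletCharacter.LFunction_eq_LSeries _ hz, DirichletCharacter.LFunction_eq_LSeries _ hz']
    unfold LSeries
    rw [Complex.conj_tsum]
    refine tsum_congr fun n => ?_
    rcases Nat.eq_zero_or_pos n with rfl | hn
    · simp [LSeries.term_zero]
    · rw [LSeries.term_of_ne_zero hn.ne', LSeries.term_of_ne_zero hn.ne', map_div₀, inv_apply]
      congr 1
      have h := cpow_conj (n : ℂ) z (by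
        rw [natCast_arg]
        exact Real.pi_pos.ne)
      rw [conj_natCast] at h
      rw [h, Complex.conj_conj]
  have h3 := key (mem_univ (conj s))
  simp only [Complex.conj_conj] at h3
  exact h3

theorem Mol_zero (χ : DirichletCharacter ℂ q) (l : ℝ) (s : ℂ) : Mol χ 0 l s = 1 := by
  unfold Mol
  rw [Finset.sum_eq_single ∅]
  · simp [cf, nS, wt]
  · intro S _ hS
    have h : S.card ≠ 0 := fun h => hS (Finset.card_eq_zero.1 h)
    simp [cf, h]
  · intro h
    exact absurd (Finset.empty_mem_powerset _) h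

theorem XX_mu_eq {χ : DirichletCharacter ℂ q} (hχ : χ ≠ 1) (l σ u1 u2 t : ℝ) :
    XX χ ![1, 0, 1, 0] l (σ + u1 * I) (σ - u2 * I) ![σ + u1 * I, 0, σ - u2 * I, 0] t =
      FF χ l (1/2 + σ + (t + u1) * I) * conj (FF χ l (1/2 + σ + (t + u2) * I)) := by
  have e1 : (1/2 + (σ + u1 * I) + t * I : ℂ) = 1/2 + σ + (t + u1) * I := by ring
  have e2 : (1/2 + (σ - u2 * I) - t * I : ℂ) = conj (1/2 + σ + (t + u2) * I) := by
    have h2 : conj (2 : ℂ) = 2 := Complex.conj_ofNat 2
    simp only [map_add, map_mul, map_div₀, map_one, h2, conj_ofReal, conj_I]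
    ring
  unfold XX FF
  simp only [Matrix.cons_val]
  rw [e1, e2, Mol_zero, Mol_zero, Lf_conj hχ, Mol_conj, map_mul]
  ring

end LX

end F_X_M08

section F_Z03

open Complex MeasureTheory Set Filter Topology
open scoped ComplexConjugate

namespace LZ

theorem Z03_re (t : ℝ) : ((1/2 : ℂ) + t * I).re = 1/2 := by
  simp only [add_re, mul_re, ofReal_re, I_re, mul_zero, ofReal_im, I_im, zero_mul, sub_zero,
    add_zero]
  norm_num

theorem Z03_ne (t : ℝ) : Gammaℝ (1/2 + t * I) ≠ 0 :=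
  Gammaℝ_ne_zero_of_re_pos (by rw [Z03_re]; norm_num)

theorem Z03_cont : Continuous (fun t : ℝ => Gammaℝ (1/2 + t * I)) := by
  have h1 : Continuous (fun t : ℝ => (Gammaℝ (1/2 + t * I))⁻¹) :=
    differentiable_Gammaℝ_inv.continuous.comp
      (continuous_const.add (continuous_ofReal.mul continuous_const))
  have h2 := h1.inv₀ (fun t => inv_ne_zero (Z03_ne t))
  refine h2.congr (fun t => ?_)
  exact inv_inv _

theorem Z03_Gammaℝ_conj (s : ℂ) : Gammaℝ (conj s) = conj (Gammaℝ s) := by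
  rw [Gammaℝ_def, Gammaℝ_def, map_mul]
  have h1 : conj s / 2 = conj (s / 2) := by
    rw [map_div₀, Complex.conj_ofNat]
  have h2 : -conj s / 2 = conj (-s / 2) := by
    rw [map_div₀, map_neg, Complex.conj_ofNat]
  rw [h1, h2, Gamma_conj]
  congr 1
  have h3 := A_aux (-s / 2)
  exact h3
where
  A_aux (w : ℂ) : ((Real.pi : ℂ)) ^ (conj w) = conj ((Real.pi : ℂ) ^ w) := by
    rw [cpow_def_of_ne_zero (by exact_mod_cast Real.pi_ne_zero),
      cpow_def_of_ne_zero (by exact_mod_cast Real.pi_ne_zero), ← exp_conj, map_mul,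
      ← ofReal_log Real.pi_pos.le, conj_ofReal]

theorem Z03_completed_real (t : ℝ) :
    conj (completedRiemannZeta (1/2 + t * I)) = completedRiemannZeta (1/2 + t * I) := by
  have hne : ((1:ℂ)/2 + t * I) ≠ 0 := by
    intro h
    have := congrArg Complex.re h
    rw [Z03_re, zero_re] at this
    norm_num at this
  have hc : conj ((1:ℂ)/2 + t * I) = 1 - (1/2 + t * I) := by
    simp only [map_add, map_mul, conj_ofReal, conj_I, map_div₀, map_one]
    rw [Complex.conj_ofNat]
    ring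
  have hne2 : conj ((1:ℂ)/2 + t * I) ≠ 0 := by
    intro h
    rw [map_eq_zero] at h
    exact hne h
  have e1 : completedRiemannZeta (1/2 + t * I) = riemannZeta (1/2 + t * I) * Gammaℝ (1/2 + t * I) := by
    rw [riemannZeta_def_of_ne_zero hne]
    exact (div_mul_cancel₀ _ (Z03_ne t)).symm
  have e2 : completedRiemannZeta (conj ((1:ℂ)/2 + t * I)) =
      riemannZeta (conj ((1:ℂ)/2 + t * I)) * Gammaℝ (conj ((1:ℂ)/2 + t * I)) := by
    rw [riemannZeta_def_of_ne_zero hne2]
    refine (div_mul_cancel₀ _ ?_).symm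
    rw [Z03_Gammaℝ_conj]
    intro h
    rw [map_eq_zero] at h
    exact Z03_ne t h
  have e3 : completedRiemannZeta (conj ((1:ℂ)/2 + t * I)) =
      conj (completedRiemannZeta (1/2 + t * I)) := by
    rw [e2, riemannZeta_conj, Z03_Gammaℝ_conj, ← map_mul, ← e1]
  rw [← e3, hc, completedRiemannZeta_one_sub]

/-- completedRiemannZeta (1/2+it) is real, riemannZeta s = completedRiemannZeta s / Gammaℝ s. -/
theorem uu_facts : (∀ t : ℝ, ‖uu t‖ = 1) ∧ Continuous uu ∧ (∀ t : ℝ, (uu t * riemannZeta (1/2 + t * I)).im = 0) := by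
  refine ⟨fun t => ?_, ?_, fun t => ?_⟩
  · unfold uu
    rw [norm_div, norm_real, norm_norm, div_self]
    exact norm_ne_zero_iff.2 (Z03_ne t)
  · unfold uu
    refine Z03_cont.div (continuous_ofReal.comp Z03_cont.norm) (fun t => ?_)
    exact_mod_cast norm_ne_zero_iff.2 (Z03_ne t)
  · have hne : ((1:ℂ)/2 + t * I) ≠ 0 := by
      intro h
      have := congrArg Complex.re h
      rw [Z03_re, zero_re] at this
      norm_num at this
    rw [← conj_eq_iff_im]
    unfold uu
    rw [riemannZeta_def_of_ne_zero hne]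
    have h1 : Gammaℝ (1/2 + t * I) / (‖Gammaℝ (1/2 + t * I)‖ : ℂ) *
        (completedRiemannZeta (1/2 + t * I) / Gammaℝ (1/2 + t * I)) =
        completedRiemannZeta (1/2 + t * I) / (‖Gammaℝ (1/2 + t * I)‖ : ℂ) := by
      rw [div_mul_div_comm, mul_comm (‖Gammaℝ (1/2 + t * I)‖ : ℂ), mul_div_mul_left _ _ (Z03_ne t)]
    rw [h1, map_div₀, conj_ofReal, Z03_completed_real]

end LZ

end F_Z03

end

section

section F_X_Z03

open Complex MeasureTheory Set Filter Topology
open scoped ComplexConjugate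

namespace LX

open LZ

variable {q : ℕ} [NeZero q]

theorem Z03_inv_even {χ : DirichletCharacter ℂ q} : χ⁻¹.Even ↔ χ.Even := by
  unfold DirichletCharacter.Even
  rw [inv_apply]
  constructor
  · intro h
    have := congrArg conj h
    rwa [Complex.conj_conj, map_one] at this
  · intro h
    rw [h, map_one]

theorem Z03_gamma_inv (χ : DirichletCharacter ℂ q) (s : ℂ) : χ⁻¹.gammaFactor s = χ.gammaFactor s := by
  rcases χ.even_or_odd with h | h
  · rw [h.gammaFactor_def, (Z03_inv_even.mpr h).gammaFactor_def]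
  · have h' : χ⁻¹.Odd := by
      rcases χ⁻¹.even_or_odd with h1 | h1
      · exact absurd (Z03_inv_even.mp h1) h.not_even
      · exact h1
    rw [h.gammaFactor_def, h'.gammaFactor_def]

theorem Z03_gamma_conj (χ : DirichletCharacter ℂ q) (s : ℂ) :
    χ.gammaFactor (conj s) = conj (χ.gammaFactor s) := by
  rcases χ.even_or_odd with h | h
  · rw [h.gammaFactor_def, h.gammaFactor_def, Z03_Gammaℝ_conj]
  · rw [h.gammaFactor_def, h.gammaFactor_def, ← Z03_Gammaℝ_conj, map_add, map_one]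

theorem Z03_gne (χ : DirichletCharacter ℂ q) (t : ℝ) : χ.gammaFactor (1/2 + t * I) ≠ 0 := by
  rcases χ.even_or_odd with h | h
  · rw [h.gammaFactor_def]
    exact Z03_ne t
  · rw [h.gammaFactor_def]
    apply Gammaℝ_ne_zero_of_re_pos
    rw [add_re, Z03_re, one_re]
    norm_num

theorem Z03_gcont (χ : DirichletCharacter ℂ q) :
    Continuous (fun t : ℝ => χ.gammaFactor (1/2 + t * I)) := by
  rcases χ.even_or_odd with h | h
  · simp only [h.gammaFactor_def]
    exact Z03_cont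
  · simp only [h.gammaFactor_def]
    have h1 : Continuous (fun t : ℝ => (Gammaℝ (1/2 + t * I + 1))⁻¹) :=
      differentiable_Gammaℝ_inv.continuous.comp (by fun_prop)
    have hne : ∀ t : ℝ, Gammaℝ (1/2 + t * I + 1) ≠ 0 := fun t => by
      apply Gammaℝ_ne_zero_of_re_pos
      rw [add_re, Z03_re, one_re]
      norm_num
    have h2 := h1.inv₀ (fun t => inv_ne_zero (hne t))
    refine h2.congr (fun t => ?_)
    exact inv_inv _

theorem Z03_comp {χ : DirichletCharacter ℂ q} (t : ℝ) :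
    χ.completedLFunction (1/2 + t * I) = Lf χ (1/2 + t * I) * χ.gammaFactor (1/2 + t * I) := by
  have hne : ((1:ℂ)/2 + t * I) ≠ 0 := by
    intro h
    have := congrArg Complex.re h
    rw [Z03_re, zero_re] at this
    norm_num at this
  unfold Lf
  rw [DirichletCharacter.LFunction_eq_completed_div_gammaFactor χ _ (Or.inl hne),
    div_mul_cancel₀ _ (Z03_gne χ t)]

/-- the functional equation on the critical line -/
theorem Z03_fe {χ : DirichletCharacter ℂ q} (hχ : χ.IsPrimitive) (hq : 1 < q) (t : ℝ) :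
    conj (χ.completedLFunction (1/2 + t * I)) =
      (q : ℂ) ^ (t * I) * DirichletCharacter.rootNumber χ⁻¹ * χ.completedLFunction (1/2 + t * I) := by
  have hc : conj ((1:ℂ)/2 + t * I) = 1 - (1/2 + t * I) := by
    simp only [map_add, map_mul, conj_ofReal, conj_I, map_div₀, map_one]
    rw [Complex.conj_ofNat]
    ring
  have hc' : 1 - (1/2 + t * I) = 1/2 + ((-t : ℝ) : ℂ) * I := by push_cast; ring
  rw [Z03_comp, map_mul, ← Lf_conj (ne_one hχ hq), ← Z03_gamma_conj, ← Z03_gamma_inv χ, hc, hc',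
    ← Z03_comp, ← hc', DirichletCharacter.IsPrimitive.completedLFunction_one_sub (prim_inv hχ), inv_inv,
    ← Z03_comp]
  congr 3
  ring

theorem Z03_exists {χ : DirichletCharacter ℂ q} (hχ : χ ≠ 1) : ∃ t : ℝ, Lf χ (1/2 + t * I) ≠ 0 := by
  by_contra hcon
  push Not at hcon
  have hf : AnalyticOnNhd ℂ (Lf χ) univ := fun z _ => (Lf_diff hχ).analyticAt z
  have h0 : EqOn (Lf χ) 0 univ := by
    refine hf.eqOn_zero_of_preconnected_of_frequently_eq_zero isPreconnected_univ
      (mem_univ (1/2 : ℂ)) ?_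
    have ht : Tendsto (fun n : ℕ => (1/2 : ℂ) + (((1 : ℝ) / ((n : ℝ) + 1) : ℝ) : ℂ) * I) atTop
        (𝓝[≠] (1/2 : ℂ)) := by
      apply tendsto_nhdsWithin_of_tendsto_nhds_of_eventually_within
      · have h1 : Tendsto (fun n : ℕ => ((1 : ℝ) / ((n : ℝ) + 1))) atTop (𝓝 0) :=
          tendsto_one_div_add_atTop_nhds_zero_nat
        have h2 : Tendsto (fun x : ℝ => (1/2 : ℂ) + (x : ℂ) * I) (𝓝 0) (𝓝 (1/2 + ((0 : ℝ) : ℂ) * I)) :=
          Continuous.tendsto (by fun_prop) 0
        have h3 := h2.comp h1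
        have e : (1/2 : ℂ) + ((0 : ℝ) : ℂ) * I = 1/2 := by simp
        rw [e] at h3
        exact h3
      · refine Eventually.of_forall fun n => ?_
        have h4 : (0 : ℝ) < 1 / ((n : ℝ) + 1) := by positivity
        intro h
        have h5 : (1/2 : ℂ) + (((1 : ℝ) / ((n : ℝ) + 1) : ℝ) : ℂ) * I = 1/2 := h
        have h6 := congrArg Complex.im h5
        simp only [add_im, mul_im, ofReal_re, ofReal_im, I_re, I_im, mul_one, mul_zero, add_zero] at h6
        norm_num at h6
        have : (n : ℝ) + 1 ≠ 0 := by positivity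
        exact this h6
    exact ht.frequently (Frequently.of_forall fun n => hcon _)
  have h2 := h0 (mem_univ (2 : ℂ))
  have h3 : DirichletCharacter.LFunction χ 2 ≠ 0 :=
    DirichletCharacter.LFunction_ne_zero_of_one_le_re χ (Or.inl hχ) (by norm_num)
  exact h3 h2

theorem Z03_norm_cpow (t : ℝ) : ‖(q : ℂ) ^ (t * I)‖ = 1 := by
  rw [Complex.norm_natCast_cpow_of_pos (Nat.pos_of_ne_zero (NeZero.ne q))]
  simp

theorem Z03_root {χ : DirichletCharacter ℂ q} (hχ : χ.IsPrimitive) (hq : 1 < q) :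
    ‖DirichletCharacter.rootNumber χ⁻¹‖ = 1 := by
  obtain ⟨t, ht⟩ := Z03_exists (ne_one hχ hq)
  have h1 := congrArg norm (Z03_fe hχ hq t)
  rw [norm_mul, norm_mul, RCLike.norm_conj, Z03_norm_cpow, one_mul] at h1
  have h2 : ‖χ.completedLFunction (1/2 + t * I)‖ ≠ 0 := by
    rw [norm_ne_zero_iff, Z03_comp]
    exact mul_ne_zero ht (Z03_gne χ t)
  have h3 : (‖DirichletCharacter.rootNumber χ⁻¹‖ - 1) * ‖χ.completedLFunction (1/2 + t * I)‖ = 0 := by
    linarith
  rcases mul_eq_zero.mp h3 with h | h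
  · linarith
  · exact absurd h h2

theorem cc_sq {χ : DirichletCharacter ℂ q} (hχ : χ.IsPrimitive) (hq : 1 < q) :
    cc χ ^ 2 = DirichletCharacter.rootNumber χ⁻¹ := by
  have h0 : DirichletCharacter.rootNumber χ⁻¹ ≠ 0 := by
    rw [← norm_ne_zero_iff, Z03_root hχ hq]
    exact one_ne_zero
  unfold cc
  rw [sq, ← cpow_add _ _ h0]
  norm_num

theorem cc_norm {χ : DirichletCharacter ℂ q} (hχ : χ.IsPrimitive) (hq : 1 < q) : ‖cc χ‖ = 1 := by
  have h1 := congrArg norm (cc_sq hχ hq)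
  rw [norm_pow, Z03_root hχ hq] at h1
  have h2 := norm_nonneg (cc χ)
  nlinarith

theorem uu_facts {χ : DirichletCharacter ℂ q} (hχ : χ.IsPrimitive) (hq : 1 < q) :
    (∀ t : ℝ, ‖uu χ t‖ = 1) ∧ Continuous (uu χ) ∧
      (∀ t : ℝ, (uu χ t * Lf χ (1/2 + t * I)).im = 0) := by
  refine ⟨fun t => ?_, ?_, fun t => ?_⟩
  · unfold uu
    rw [norm_mul, norm_mul, cc_norm hχ hq, Complex.norm_exp_ofReal_mul_I, norm_div, norm_real, norm_norm,
      div_self (norm_ne_zero_iff.2 (Z03_gne χ t))]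
    norm_num
  · unfold uu
    refine (continuous_const.mul (by fun_prop)).mul
      ((Z03_gcont χ).div (continuous_ofReal.comp (Z03_gcont χ).norm) (fun t => ?_))
    exact_mod_cast norm_ne_zero_iff.2 (Z03_gne χ t)
  · rw [← conj_eq_iff_im]
    have hfe := Z03_fe hχ hq t
    rw [Z03_comp, ← cc_sq hχ hq] at hfe
    set c := cc χ with hc
    set Lv := Lf χ (1/2 + t * I) with hLv
    set g := χ.gammaFactor (1/2 + t * I) with hg
    have hcc : conj c * c = 1 := by
      rw [mul_comm, mul_conj, normSq_eq_norm_sq, hc, cc_norm hχ hq]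
      norm_num
    have hq0 : (0 : ℝ) < q := by exact_mod_cast (by omega : 0 < q)
    have hqt : (q : ℂ) ^ (t * I) = exp ((t / 2 * Real.log q : ℝ) * I) * exp ((t / 2 * Real.log q : ℝ) * I) := by
      rw [← exp_add, cpow_def_of_ne_zero (by exact_mod_cast hq0.ne'), ← natCast_log]
      congr 1
      push_cast
      ring
    set e := exp ((t / 2 * Real.log q : ℝ) * I) with he
    have hee : conj e * e = 1 := by
      rw [mul_comm, mul_conj, normSq_eq_norm_sq, he, Complex.norm_exp_ofReal_mul_I]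
      norm_num
    have hgn : (‖g‖ : ℂ) ≠ 0 := by exact_mod_cast norm_ne_zero_iff.2 (Z03_gne χ t)
    have hu : uu χ t = c * e * (g / (‖g‖ : ℂ)) := rfl
    rw [hqt] at hfe
    rw [hu]
    have h1 : conj (c * e * (g / (‖g‖ : ℂ)) * Lv) = conj c * conj e * (conj (Lv * g) / (‖g‖ : ℂ)) := by
      simp only [map_mul, map_div₀, conj_ofReal]
      ring
    rw [h1, hfe]
    calc conj c * conj e * (e * e * c ^ 2 * (Lv * g) / (‖g‖ : ℂ))
        = (conj c * c) * (conj e * e) * (c * e * (g / (‖g‖ : ℂ)) * Lv) := by ring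
      _ = _ := by rw [hcc, hee, one_mul, one_mul]

end LX

end F_X_Z03

end

section

open Complex MeasureTheory Set Filter Topology
open scoped ComplexConjugate

namespace OO

/-- `(1 + y)^6 e^(-y) ≤ 720 e` for `y ≥ 0` -/
private lemma OA05_pow_exp (y : ℝ) (hy : 0 ≤ y) : (1 + y) ^ 6 * Real.exp (-y) ≤ 720 * Real.exp 1 := by
  have h := Real.pow_div_factorial_le_exp (1 + y) (by linarith) 6
  have h6 : ((6 : ℕ).factorial : ℝ) = 720 := by norm_num [Nat.factorial]
  rw [h6, div_le_iff₀ (by norm_num), Real.exp_add] at h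
  have h2 : Real.exp y * Real.exp (-y) = 1 := by rw [← Real.exp_add, add_neg_cancel, Real.exp_zero]
  calc (1 + y) ^ 6 * Real.exp (-y) ≤ (Real.exp 1 * Real.exp y * 720) * Real.exp (-y) :=
        mul_le_mul_of_nonneg_right h (Real.exp_pos _).le
    _ = 720 * Real.exp 1 * (Real.exp y * Real.exp (-y)) := by ring
    _ = 720 * Real.exp 1 := by rw [h2, mul_one]

/-- Integrability of `W |g|^2` on `(0, oo)` for `α ≥ 1`, `ω ≥ 0`, and of `|g|^2` on `(c0, oo)`, `c0 > 0`.

PROOF. `gg_facts`: `g` is continuous on `(0, oo)` and `|g(x)| ≤ C (1+1/x)^3 e^(-cx)`; hence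
`W |g|^2 ≤ C^2 (1+1/x)^6 e^(-1/x) e^(-2cx) ≤ C' e^(-2cx)` because `(1+1/x)^6 e^(-1/x)` is bounded
(`(1+y)^6 e^(-y) ≤ 720 e` for `y ≥ 0`), and `e^(-2cx)` is integrable on `(0, oo)`. On `(c0, oo)`:
`|g|^2 ≤ C^2 (1+1/c0)^6 e^(-2cx)`. -/
theorem Wgg_integrable (b lam : ArithmeticFunction ℂ) (H : ℕ) (B ε : ℝ) (hlam : ∀ n, ‖lam n‖ ≤ B * n) (hε : 0 < ε)
    (hε' : ε ≤ 1 / 10) : (∀ α ω : ℝ, 1 ≤ α → 0 ≤ ω → IntegrableOn (fun x => Wt α ω x * ‖gg b H lam ε x‖ ^ 2) (Ioi 0)) ∧
      (∀ c0 : ℝ, 0 < c0 → IntegrableOn (fun x => ‖gg b H lam ε x‖ ^ 2) (Ioi c0)) := by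
  obtain ⟨hcont, C, c, hC, hc, hb⟩ := gg_facts b lam H B ε hlam hε hε'
  have hsq : ∀ x : ℝ, 0 < x → ‖gg b H lam ε x‖ ^ 2 ≤ C ^ 2 * (1 + 1 / x) ^ 6 * Real.exp (-(2 * c) * x) := by
    intro x hx
    have h1 := pow_le_pow_left₀ (norm_nonneg _) (hb x hx) 2
    refine h1.trans (le_of_eq ?_)
    have h2 : Real.exp (-(2 * c) * x) = Real.exp (-(c * x)) ^ 2 := by
      rw [← Real.exp_nat_mul]
      congr 1
      push_cast
      ring
    rw [h2]
    ring
  constructor
  · intro α ω hα hω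
    have hint : IntegrableOn (fun x : ℝ => C ^ 2 * (720 * Real.exp 1) * Real.exp (-(2 * c) * x)) (Ioi 0) :=
      (exp_neg_integrableOn_Ioi 0 (by positivity)).const_mul _
    refine Integrable.mono' hint ?_ ?_
    · refine ContinuousOn.aestronglyMeasurable ?_ measurableSet_Ioi
      refine ContinuousOn.mul ?_ (hcont.norm.pow 2)
      unfold Wt
      refine Real.continuous_exp.comp_continuousOn ?_
      refine ContinuousOn.sub ?_ ((continuous_const.mul continuous_id).continuousOn)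
      refine ContinuousOn.neg ?_
      exact continuousOn_const.div continuousOn_id (fun x hx => (ne_of_gt hx))
    · refine (ae_restrict_iff' measurableSet_Ioi).mpr (Filter.Eventually.of_forall fun x hx => ?_)
      have hx' : (0 : ℝ) < x := hx
      have hW0 : 0 ≤ Wt α ω x := (Real.exp_pos _).le
      rw [Real.norm_of_nonneg (mul_nonneg hW0 (by positivity))]
      have hW : Wt α ω x ≤ Real.exp (-(1 / x)) := by
        unfold Wt
        refine Real.exp_le_exp.mpr ?_
        have h1 : 1 / x ≤ α / x := by gcongr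
        have h2 : 0 ≤ ω * x := by positivity
        linarith
      have h3 := OA05_pow_exp (1 / x) (by positivity)
      calc Wt α ω x * ‖gg b H lam ε x‖ ^ 2
          ≤ Real.exp (-(1 / x)) * (C ^ 2 * (1 + 1 / x) ^ 6 * Real.exp (-(2 * c) * x)) :=
            mul_le_mul hW (hsq x hx') (by positivity) (Real.exp_pos _).le
        _ = C ^ 2 * ((1 + 1 / x) ^ 6 * Real.exp (-(1 / x))) * Real.exp (-(2 * c) * x) := by ring
        _ ≤ C ^ 2 * (720 * Real.exp 1) * Real.exp (-(2 * c) * x) := by gcongr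
  · intro c0 hc0
    have hint : IntegrableOn (fun x : ℝ => C ^ 2 * (1 + 1 / c0) ^ 6 * Real.exp (-(2 * c) * x)) (Ioi c0) :=
      (exp_neg_integrableOn_Ioi c0 (by positivity)).const_mul _
    refine Integrable.mono' hint ?_ ?_
    · refine ContinuousOn.aestronglyMeasurable ?_ measurableSet_Ioi
      exact (hcont.mono (Ioi_subset_Ioi hc0.le)).norm.pow 2
    · refine (ae_restrict_iff' measurableSet_Ioi).mpr (Filter.Eventually.of_forall fun x hx => ?_)
      have hx' : c0 < x := hx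
      have hx0 : 0 < x := hc0.trans hx'
      rw [Real.norm_of_nonneg (by positivity)]
      refine (hsq x hx0).trans ?_
      have h1 : 1 / x ≤ 1 / c0 := by gcongr
      gcongr

/-- Numbers: powers of `T`. For `T ≥ 2` (`L = log T`), `l ≤ dl L`: `Hl l ≤ T^(2 dl)`, `1 ≤ Hl l` (for `l ≥ 0`),
`T^(1/L) = e`, and for every `a < b` and every `C` eventually `C T^a ≤ T^b`. Also `1/T ≤ 4 π sin(1/T)`, so
`(4 π sin(1/T))^(-1-1/L) ≤ e T` for `T ≥ 10`. -/
theorem EN_num : (∀ T l : ℝ, 2 ≤ T → 0 ≤ l → l ≤ dl * Real.log T → 1 ≤ Hl l ∧ ((Hl l : ℕ) : ℝ) ≤ T ^ (2 * dl)) ∧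
    (∀ T : ℝ, 10 ≤ T → 0 < 4 * Real.pi * Real.sin (1 / T) ∧
      (4 * Real.pi * Real.sin (1 / T)) ^ (-1 - 1 / Real.log T) ≤ Real.exp 1 * T) ∧
    (∀ a b C : ℝ, a < b → ∃ T0 : ℝ, 2 ≤ T0 ∧ ∀ T : ℝ, T0 ≤ T → C * T ^ a ≤ T ^ b) := by
  refine ⟨?_, ?_, ?_⟩
  · intro T l hT hl hlT
    have h1 : (1 : ℝ) ≤ Real.exp (2 * l) := Real.one_le_exp (by linarith)
    refine ⟨Nat.le_floor (by simpa using h1), ?_⟩
    have h2 : ((Hl l : ℕ) : ℝ) ≤ Real.exp (2 * l) := Nat.floor_le (Real.exp_pos _).le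
    refine h2.trans ?_
    rw [Real.rpow_def_of_pos (by linarith)]
    refine Real.exp_le_exp.mpr ?_
    nlinarith
  · intro T hT
    have hT0 : (0 : ℝ) < T := by linarith
    have hy0 : 0 < 1 / T := by positivity
    have hy1 : 1 / T ≤ 1 := by
      rw [div_le_one hT0]
      linarith
    have hpi := Real.pi_gt_three
    have hs : 2 / Real.pi * (1 / T) ≤ Real.sin (1 / T) := Real.mul_le_sin hy0.le (by linarith)
    have hs2 : 1 / T ≤ 4 * Real.pi * Real.sin (1 / T) := by
      have h1 : 4 * Real.pi * (2 / Real.pi * (1 / T)) ≤ 4 * Real.pi * Real.sin (1 / T) := by gcongr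
      have h2 : 4 * Real.pi * (2 / Real.pi * (1 / T)) = 8 * (1 / T) := by
        field_simp
        ring
      linarith
    have hlog : 0 < Real.log T := Real.log_pos (by linarith)
    refine ⟨by linarith, ?_⟩
    have h3 : (4 * Real.pi * Real.sin (1 / T)) ^ (-1 - 1 / Real.log T) ≤ (1 / T) ^ (-1 - 1 / Real.log T) := by
      refine Real.rpow_le_rpow_of_nonpos hy0 hs2 ?_
      have : 0 < 1 / Real.log T := by positivity
      linarith
    refine h3.trans (le_of_eq ?_)
    rw [Real.rpow_def_of_pos hy0, one_div, Real.log_inv]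
    have h4 : -Real.log T * (-1 - 1 / Real.log T) = 1 + Real.log T := by
      field_simp
      ring
    rw [h4, Real.exp_add, Real.exp_log hT0]
  · intro a b C hab
    have h1 := (tendsto_rpow_atTop (sub_pos.mpr hab)).eventually_ge_atTop C
    obtain ⟨T1, hT1⟩ := Filter.eventually_atTop.mp h1
    refine ⟨max 2 T1, le_max_left _ _, fun T hT => ?_⟩
    have hT2 : 2 ≤ T := (le_max_left _ _).trans hT
    have hT0 : 0 < T := by linarith
    have h2 := hT1 T ((le_max_right _ _).trans hT)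
    calc C * T ^ a ≤ T ^ (b - a) * T ^ a := by gcongr
      _ = T ^ b := by
        rw [← Real.rpow_add hT0]
        congr 1
        ring

end OO

end
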