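import Pool.Agent.Lib.MP_0f5a55_nt.OM.K000
import Pool.Agent.Lib.MP_0f5a55_nt.OM.K006
import Pool.Agent.Lib.MP_0f5a55_nt.OM.K007
import Pool.Agent.Lib.MP_0f5a55_nt.OM.K011
import Pool.Agent.Lib.MP_0f5a55_nt.OM.K016
import Pool.Agent.Lib.MP_0f5a55_nt.OM.K020

section

/-!
# Row D_A17a: the cutoff as a combination of weights
-/

open Complex MeasureTheory Set Filter Topology
open scoped ComplexConjugate

namespace OO

/-- coefficients and nodes of `ff` -/
noncomputable def cN : Option (Fin 22) → ℝ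
  | none => 1
  | some i => -ci i

/-- nodes of `ff` -/
noncomputable def tN : Option (Fin 22) → ℝ
  | none => 0
  | some i => tau i

private lemma D_A17a_sum {ι : Type} (s : Finset ι) (F : ι → ArithmeticFunction ℂ) (n : ℕ) :
    (∑ i ∈ s, F i) n = ∑ i ∈ s, F i n := by
  classical
  induction s using Finset.induction_on with
  | empty => simp
  | insert a s ha ih => rw [Finset.sum_insert ha, Finset.sum_insert ha, ArithmeticFunction.add_apply, ih]

private lemma D_A17a_LC {ι : Type} [Fintype ι] (f : ℕ → ℂ) (c t : ι → ℝ) (n : ℕ) :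
    LC f 0 c t n = if n = 0 then 0 else ∑ i, (c i : ℂ) * (f n * (LZ.wt (t i * Real.log n) : ℂ)) := by
  unfold LC
  rw [D_A17a_sum]
  by_cases hn : n = 0
  · subst hn
    simp
  · rw [if_neg hn]
    apply Finset.sum_congr rfl
    intro i _
    show (c i : ℂ) * (if n = 0 then 0 else f n * (n : ℂ) ^ (-(0 : ℂ)) * (LZ.wt (t i * Real.log n) : ℂ)) = _
    rw [if_neg hn, neg_zero, cpow_zero, mul_one]

private lemma D_A17a_wt0 : LZ.wt 0 = 1 := by
  unfold LZ.wt
  norm_num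

/-- `ext n`; `ff L n = 1 - ∑ ci i wt (tau i log n / L)`, `wt 0 = 1`, `Fintype.sum_option`; `n^(-0) = 1` -/
theorem D_FA_ff (f : ℕ → ℂ) (L : ℝ) : FA f (ff L) = LC f 0 cN (fun i => tN i / L) := by
  ext n
  rw [D_A17a_LC]
  show (if n = 0 then 0 else f n * (ff L n : ℂ)) = _
  by_cases hn : n = 0
  · rw [if_pos hn, if_pos hn]
  · rw [if_neg hn, if_neg hn, Fintype.sum_option]
    have h1 : tN none / L * Real.log n = 0 := by
      show 0 / L * Real.log n = 0
      rw [zero_div, zero_mul]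
    rw [h1, D_A17a_wt0]
    unfold ff rho
    have h2 : ∀ i : Fin 22, (cN (some i) : ℂ) * (f n * (LZ.wt (tN (some i) / L * Real.log n) : ℂ)) =
        -(f n * ((ci i * LZ.wt (tau i * Real.log n / L) : ℝ) : ℂ)) := by
      intro i
      have h3 : tN (some i) / L * Real.log n = tau i * Real.log n / L := by
        show tau i / L * Real.log n = _
        ring
      have h4 : cN (some i) = -ci i := rfl
      rw [h3, h4]
      push_cast
      ring
    rw [Finset.sum_congr rfl fun i _ => h2 i, Finset.sum_neg_distrib, ← Finset.mul_sum]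
    have h5 : cN none = 1 := rfl
    rw [h5]
    push_cast
    ring

theorem D_FA_rho (f : ℕ → ℂ) (L : ℝ) : FA f (rho L) = LC f 0 ci (fun i => tau i / L) := by
  ext n
  rw [D_A17a_LC]
  show (if n = 0 then 0 else f n * (rho L n : ℂ)) = _
  by_cases hn : n = 0
  · rw [if_pos hn, if_pos hn]
  · rw [if_neg hn, if_neg hn]
    unfold rho
    push_cast
    rw [Finset.mul_sum]
    apply Finset.sum_congr rfl
    intro i _
    have h3 : tau i / L * Real.log n = tau i * Real.log n / L := by ring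
    rw [h3]
    ring

theorem D_LA_LC (f : ℕ → ℂ) (L : ℝ) :
    LA f 0 0 = LC f 0 (fun _ : Unit => (1 : ℝ)) (fun _ => (0 : ℝ) / L) := by
  ext n
  rw [D_A17a_LC]
  show (if n = 0 then 0 else f n * (n : ℂ) ^ (-(0 : ℂ)) * (LZ.wt (0 * Real.log n) : ℂ)) = _
  by_cases hn : n = 0
  · rw [if_pos hn, if_pos hn]
  · rw [if_neg hn, if_neg hn]
    simp

/-- `500 ≤ tau i ≤ 1000` -/
theorem D_tau (i : Fin 22) : 500 ≤ tau i ∧ tau i ≤ 1000 := by
  have h1 : (0 : ℝ) ≤ ((i : ℕ) : ℝ) := Nat.cast_nonneg _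
  have h2 : ((i : ℕ) : ℝ) ≤ 21 := by
    have : (i : ℕ) ≤ 21 := by omega
    exact_mod_cast this
  unfold tau
  constructor
  · rw [le_div_iff₀ (by positivity)]
    linarith
  · rw [div_le_iff₀ (by positivity)]
    linarith

end OO

end

section

open Complex MeasureTheory Set Filter Topology
open scoped ComplexConjugate

namespace OO

/-- the shifted function is integrable on the strip -/
theorem X_Win_aux1 {g : ℝ → ℝ} (hc : Continuous g) (hg : Integrable g) (h : ℝ) :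
    Integrable (fun p : ℝ × ℝ => g (p.1 + p.2)) (volume.prod (volume.restrict (Ioc 0 h))) := by
  have hm : AEStronglyMeasurable (fun p : ℝ × ℝ => g (p.1 + p.2))
      (volume.prod (volume.restrict (Ioc 0 h))) :=
    (hc.comp (continuous_fst.add continuous_snd)).aestronglyMeasurable
  rw [integrable_prod_iff' hm]
  refine ⟨ae_of_all _ fun v => hg.comp_add_right v, ?_⟩
  have e : (fun v : ℝ => ∫ t : ℝ, ‖g (t + v)‖) = fun _ => ∫ t : ℝ, ‖g t‖ := by
    funext v
    exact integral_add_right_eq_self (fun t => ‖g t‖) v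
  rw [e]
  exact integrable_const _

theorem X_Win_aux2 (f : ℝ → ℝ) {h : ℝ} (hh : 0 < h) (t : ℝ) :
    ∫ x in t..(t + h), f x = ∫ v in Ioc 0 h, f (t + v) := by
  rw [← intervalIntegral.integral_of_le hh.le, intervalIntegral.integral_comp_add_left, add_zero]

/-- Cauchy-Schwarz -/
theorem X_Win_aux3 {f : ℝ → ℝ} (hc : Continuous f) {h : ℝ} (hh : 0 < h) (t : ℝ) :
    (∫ x in t..(t + h), f x) ^ 2 ≤ h * ∫ x in t..(t + h), f x ^ 2 := by
  set A := ∫ x in t..(t + h), f x with hA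
  have h1 : 0 ≤ ∫ x in t..(t + h), (f x - A / h) ^ 2 :=
    intervalIntegral.integral_nonneg (by linarith) fun x _ => sq_nonneg _
  have e : (fun x => (f x - A / h) ^ 2) = fun x => f x ^ 2 - (2 * (A / h)) * f x + (A / h) ^ 2 := by
    funext x
    ring
  have i1 : IntervalIntegrable (fun x => f x ^ 2) volume t (t + h) :=
    (hc.pow 2).intervalIntegrable _ _
  have i2 : IntervalIntegrable (fun x => (2 * (A / h)) * f x) volume t (t + h) :=
    (continuous_const.mul hc).intervalIntegrable _ _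
  rw [e, intervalIntegral.integral_add (i1.sub i2) (by simp), intervalIntegral.integral_sub i1 i2,
    intervalIntegral.integral_const_mul, intervalIntegral.integral_const, ← hA] at h1
  simp only [add_sub_cancel_left, smul_eq_mul] at h1
  have h2 : h * (∫ x in t..(t + h), f x ^ 2) - 2 * A ^ 2 + A ^ 2 =
      h * ((∫ x in t..(t + h), f x ^ 2) - 2 * (A / h) * A + h * (A / h) ^ 2) := by
    field_simp
  have h3 : 0 ≤ h * ((∫ x in t..(t + h), f x ^ 2) - 2 * (A / h) * A + h * (A / h) ^ 2) :=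
    mul_nonneg hh.le h1
  linarith

theorem X_Win_aux4 {f : ℝ → ℝ} (hc : Continuous f) (hf : Integrable f) {h : ℝ} (hh : 0 < h)
    (ξ : ℝ) : T_ft (fun t => ((∫ x in t..(t + h), f x : ℝ) : ℂ)) ξ =
      (∫ v in (0 : ℝ)..h, exp (((2 * Real.pi * ξ : ℝ) : ℂ) * I * v)) * T_ft (fun t => (f t : ℂ)) ξ := by
  have e1 : ∀ t : ℝ, exp (((-(2 * Real.pi * t * ξ) : ℝ) : ℂ) * I) *
      ((∫ x in t..(t + h), f x : ℝ) : ℂ) =
      ∫ v in Ioc 0 h, exp (((-(2 * Real.pi * t * ξ) : ℝ) : ℂ) * I) * (f (t + v) : ℂ) := by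
    intro t
    rw [X_Win_aux2 f hh t, integral_const_mul]
    congr 1
    exact (integral_ofReal (𝕜 := ℂ)).symm
  have hint : Integrable (Function.uncurry fun t v : ℝ =>
      exp (((-(2 * Real.pi * t * ξ) : ℝ) : ℂ) * I) * (f (t + v) : ℂ))
      (volume.prod (volume.restrict (Ioc 0 h))) := by
    refine (X_Win_aux1 hc hf h).norm.mono' ?_ ?_
    · exact (Continuous.mul (by fun_prop) (by
        exact Complex.continuous_ofReal.comp (hc.comp (continuous_fst.add continuous_snd)))).aestronglyMeasurable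
    · refine ae_of_all _ fun p => ?_
      simp only [Function.uncurry]
      rw [norm_mul, Complex.norm_exp_ofReal_mul_I, one_mul, Complex.norm_real]
  have e2 : ∀ v : ℝ, ∫ t : ℝ, exp (((-(2 * Real.pi * t * ξ) : ℝ) : ℂ) * I) * (f (t + v) : ℂ) =
      exp (((2 * Real.pi * ξ : ℝ) : ℂ) * I * v) * T_ft (fun t => (f t : ℂ)) ξ := by
    intro v
    rw [T_ft, ← integral_const_mul, ← integral_add_right_eq_self
      (fun t : ℝ => exp (((2 * Real.pi * ξ : ℝ) : ℂ) * I * v) *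
        (exp (((-(2 * Real.pi * t * ξ) : ℝ) : ℂ) * I) * (f t : ℂ))) v]
    refine integral_congr_ae (ae_of_all _ fun t => ?_)
    simp only
    rw [← mul_assoc, ← Complex.exp_add]
    congr 2
    push_cast
    ring
  calc T_ft (fun t => ((∫ x in t..(t + h), f x : ℝ) : ℂ)) ξ
      = ∫ t : ℝ, ∫ v in Ioc 0 h, exp (((-(2 * Real.pi * t * ξ) : ℝ) : ℂ) * I) * (f (t + v) : ℂ) := by
        rw [T_ft]
        exact integral_congr_ae (ae_of_all _ fun t => e1 t)
    _ = ∫ v in Ioc 0 h, ∫ t : ℝ, exp (((-(2 * Real.pi * t * ξ) : ℝ) : ℂ) * I) * (f (t + v) : ℂ) :=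
        integral_integral_swap hint
    _ = ∫ v in Ioc 0 h, exp (((2 * Real.pi * ξ : ℝ) : ℂ) * I * v) * T_ft (fun t => (f t : ℂ)) ξ := by
        refine integral_congr_ae (ae_of_all _ fun v => ?_)
        exact e2 v
    _ = _ := by
        rw [integral_mul_const, intervalIntegral.integral_of_le hh.le]

/-- OX03. The transform of a window average.

Proof. `w t = ∫ x in t..t+h, f x = ∫ v in 0..h, f (t + v)`. Continuity: `w = F (t+h) - F t` with the primitive `F`. Fubini on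
`ℝ × (0,h]` (`∫_0^h ∫ |f (t+v)| dt dv = h ∫ |f|`): `w` is integrable and
`T_ft w ξ = ∫ v in 0..h, ∫ t, exp (-2πitξ) f (t + v) = ∫ v in 0..h, exp (2πivξ) dv * T_ft f ξ` (translation). Cauchy-Schwarz:
`w(t)² ≤ h ∫ x in t..t+h, f x ^ 2`, again Fubini: `∫ w² ≤ h² ∫ f²` and `w²` is integrable.
`‖∫ v in 0..h, exp (2πivξ)‖ ≤ h`; for `ξ ≠ 0` it is `‖(exp (2πihξ) - 1) / (2πiξ)‖ ≤ 2 / (2π|ξ|)`. -/
theorem X_win {f : ℝ → ℝ} (hc : Continuous f) (hf : Integrable f) (hf2 : Integrable (fun x => f x ^ 2)) {h : ℝ}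
    (hh : 0 < h) :
    Continuous (fun t => ∫ x in t..(t + h), f x) ∧ Integrable (fun t => ∫ x in t..(t + h), f x) ∧
    Integrable (fun t => (∫ x in t..(t + h), f x) ^ 2) ∧
    (∀ ξ, ‖T_ft (fun t => ((∫ x in t..(t + h), f x : ℝ) : ℂ)) ξ‖ ≤ h * ‖T_ft (fun t => (f t : ℂ)) ξ‖) ∧
    ∀ ξ, 0 < ξ → ‖T_ft (fun t => ((∫ x in t..(t + h), f x : ℝ) : ℂ)) ξ‖ ≤
      (Real.pi * ξ)⁻¹ * ‖T_ft (fun t => (f t : ℂ)) ξ‖ := by
  have hii : ∀ a b : ℝ, IntervalIntegrable f volume a b := fun a b => hc.intervalIntegrable a b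
  have hwc : Continuous (fun t => ∫ x in t..(t + h), f x) := by
    have e : (fun t => ∫ x in t..(t + h), f x) =
        fun t => (∫ x in (0 : ℝ)..(t + h), f x) - ∫ x in (0 : ℝ)..t, f x := by
      funext t
      exact (intervalIntegral.integral_interval_sub_left (hii _ _) (hii _ _)).symm
    rw [e]
    have h1 := intervalIntegral.continuous_primitive hii 0
    exact (h1.comp (continuous_add_const h)).sub h1
  have hw : Integrable (fun t => ∫ x in t..(t + h), f x) := by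
    have e : (fun t => ∫ x in t..(t + h), f x) = fun t => ∫ v in Ioc 0 h, f (t + v) := by
      funext t
      exact X_Win_aux2 f hh t
    rw [e]
    exact (X_Win_aux1 hc hf h).integral_prod_left
  have hw2 : Integrable (fun t => (∫ x in t..(t + h), f x) ^ 2) := by
    have i : Integrable (fun t => h * ∫ v in Ioc 0 h, f (t + v) ^ 2) :=
      ((X_Win_aux1 (g := fun x => f x ^ 2) (hc.pow 2) hf2 h).integral_prod_left).const_mul h
    refine i.mono' (hwc.pow 2).aestronglyMeasurable (ae_of_all _ fun t => ?_)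
    rw [Real.norm_eq_abs, abs_of_nonneg (sq_nonneg _), ← X_Win_aux2 (fun x => f x ^ 2) hh t]
    exact X_Win_aux3 hc hh t
  refine ⟨hwc, hw, hw2, fun ξ => ?_, fun ξ hξ => ?_⟩
  · rw [X_Win_aux4 hc hf hh, norm_mul]
    refine mul_le_mul_of_nonneg_right ?_ (norm_nonneg _)
    have h1 := intervalIntegral.norm_integral_le_of_norm_le_const (a := 0) (b := h) (C := 1)
      (f := fun v : ℝ => exp (((2 * Real.pi * ξ : ℝ) : ℂ) * I * v)) (fun v _ => by
        have : ((2 * Real.pi * ξ : ℝ) : ℂ) * I * v = ((2 * Real.pi * ξ * v : ℝ) : ℂ) * I := by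
          push_cast; ring
        rw [this, Complex.norm_exp_ofReal_mul_I])
    rwa [one_mul, sub_zero, abs_of_pos hh] at h1
  · rw [X_Win_aux4 hc hf hh, norm_mul]
    refine mul_le_mul_of_nonneg_right ?_ (norm_nonneg _)
    have hc0 : ((2 * Real.pi * ξ : ℝ) : ℂ) * I ≠ 0 := by
      refine mul_ne_zero ?_ I_ne_zero
      rw [Complex.ofReal_ne_zero]
      positivity
    rw [integral_exp_mul_complex hc0, norm_div]
    have n1 : ‖((2 * Real.pi * ξ : ℝ) : ℂ) * I‖ = 2 * Real.pi * ξ := by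
      rw [norm_mul, Complex.norm_I, mul_one, Complex.norm_real, Real.norm_eq_abs, abs_of_pos (by positivity)]
    have n2 : ‖exp (((2 * Real.pi * ξ : ℝ) : ℂ) * I * h) - exp (((2 * Real.pi * ξ : ℝ) : ℂ) * I * (0 : ℝ))‖ ≤ 2 := by
      refine (norm_sub_le _ _).trans ?_
      have : ∀ v : ℝ, ‖exp (((2 * Real.pi * ξ : ℝ) : ℂ) * I * v)‖ = 1 := by
        intro v
        have : ((2 * Real.pi * ξ : ℝ) : ℂ) * I * v = ((2 * Real.pi * ξ * v : ℝ) : ℂ) * I := by
          push_cast; ring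
        rw [this, Complex.norm_exp_ofReal_mul_I]
      rw [this, this]
      norm_num
    rw [n1]
    have hpos : 0 < 2 * Real.pi * ξ := by positivity
    rw [div_le_iff₀ hpos]
    refine n2.trans (le_of_eq ?_)
    field_simp

end OO

end

section

open Complex MeasureTheory Set Filter Topology
open scoped ComplexConjugate

namespace OO

/-- OX02. The transform of a real function.

Proof. `T_ft f (-ξ) = conj (T_ft f ξ)` (`integral_conj`, `conj (exp (iα)) = exp (-iα)`). So `ξ ↦ ‖T_ft f ξ‖²` is even and its integral over `ℝ`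
is twice the integral over `Ioi 0` (`integral_comp_abs`-type, or `∫ = ∫_{Iic 0} + ∫_{Ioi 0}` and `integral_comp_neg_Iic`).
With `X_planch`. -/
theorem X_even {f : ℝ → ℝ} (hf : Integrable f) (hf2 : Integrable (fun x => f x ^ 2)) :
    (∀ ξ, ‖T_ft (fun t => (f t : ℂ)) (-ξ)‖ = ‖T_ft (fun t => (f t : ℂ)) ξ‖) ∧
    Integrable (fun ξ => ‖T_ft (fun t => (f t : ℂ)) ξ‖ ^ 2) ∧
    ∫ x, f x ^ 2 = 2 * ∫ ξ in Ioi (0 : ℝ), ‖T_ft (fun t => (f t : ℂ)) ξ‖ ^ 2 := by
  have heven : ∀ ξ, ‖T_ft (fun t => (f t : ℂ)) (-ξ)‖ = ‖T_ft (fun t => (f t : ℂ)) ξ‖ := by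
    intro ξ
    have h : T_ft (fun t => (f t : ℂ)) (-ξ) = conj (T_ft (fun t => (f t : ℂ)) ξ) := by
      unfold T_ft
      rw [← integral_conj]
      refine integral_congr_ae (Eventually.of_forall fun t => ?_)
      simp only [map_mul, conj_ofReal, ← exp_conj, conj_I]
      congr 2
      push_cast
      ring
    rw [h, RCLike.norm_conj]
  have hn : (fun x => ‖(fun t => (f t : ℂ)) x‖ ^ 2) = fun x => f x ^ 2 := by
    funext x
    simp only [norm_real, Real.norm_eq_abs, sq_abs]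
  obtain ⟨-, hi, he⟩ := X_planch (f := fun t => (f t : ℂ)) hf.ofReal (by rw [hn]; exact hf2)
  refine ⟨heven, hi, ?_⟩
  have h1 : ∫ x, f x ^ 2 = ∫ ξ, ‖T_ft (fun t => (f t : ℂ)) ξ‖ ^ 2 := by
    rw [he]
    exact congrArg (fun F : ℝ → ℝ => ∫ x, F x) hn.symm
  rw [h1, ← integral_comp_abs (f := fun ξ => ‖T_ft (fun t => (f t : ℂ)) ξ‖ ^ 2)]
  refine integral_congr_ae (Eventually.of_forall fun ξ => ?_)
  rcases abs_choice ξ with h | h
  · simp only [h]
  · simp only [h, heven]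

end OO

end

section

section F_A06

open Complex MeasureTheory Set Filter Topology
open scoped ComplexConjugate

namespace LZ

theorem A06_bd {ε : ℝ} (hε : 0 < ε) (Y : ℝ) : ∃ K : ℝ, 0 ≤ K ∧ ∀ y : ℝ, Y ≤ y →
    (1 + |y|) ^ 5 * Real.exp (-(ε * y)) ≤ K * Real.exp (-(ε / 2) * y) := by
  refine ⟨(10 / ε) ^ 5 * Real.exp (ε / 2 + ε * |Y|), by positivity, ?_⟩
  intro y hy
  have h0 : 0 ≤ |y| := abs_nonneg y
  have h1 : ε / 10 * (1 + |y|) ≤ Real.exp (ε / 10 * (1 + |y|)) := by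
    have := Real.add_one_le_exp (ε / 10 * (1 + |y|)); linarith
  have h2 : 1 + |y| ≤ 10 / ε * Real.exp (ε / 10 * (1 + |y|)) := by
    have h3 : 1 + |y| = 10 / ε * (ε / 10 * (1 + |y|)) := by field_simp
    calc 1 + |y| = 10 / ε * (ε / 10 * (1 + |y|)) := h3
      _ ≤ _ := mul_le_mul_of_nonneg_left h1 (by positivity)
  have h4 : (1 + |y|) ^ 5 ≤ (10 / ε) ^ 5 * Real.exp (ε / 2 * (1 + |y|)) := by
    calc (1 + |y|) ^ 5 ≤ (10 / ε * Real.exp (ε / 10 * (1 + |y|))) ^ 5 :=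
          pow_le_pow_left₀ (by linarith) h2 5
      _ = (10 / ε) ^ 5 * Real.exp (ε / 2 * (1 + |y|)) := by
        rw [mul_pow, ← Real.exp_nat_mul]
        congr 2
        push_cast; ring
  have h5 : |y| ≤ y + 2 * |Y| := by
    rcases le_or_gt 0 y with h | h
    · rw [abs_of_nonneg h]; linarith [abs_nonneg Y]
    · rw [abs_of_neg h]
      have : -Y ≤ |Y| := neg_le_abs Y
      linarith
  calc (1 + |y|) ^ 5 * Real.exp (-(ε * y))
      ≤ ((10 / ε) ^ 5 * Real.exp (ε / 2 * (1 + |y|))) * Real.exp (-(ε * y)) := by gcongr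
    _ = (10 / ε) ^ 5 * Real.exp (ε / 2 * (1 + |y|) + -(ε * y)) := by rw [mul_assoc, ← Real.exp_add]
    _ ≤ (10 / ε) ^ 5 * Real.exp ((ε / 2 + ε * |Y|) + -(ε / 2) * y) := by
      apply mul_le_mul_of_nonneg_left _ (by positivity)
      rw [Real.exp_le_exp]
      nlinarith
    _ = _ := by rw [Real.exp_add, mul_assoc]

/-- shift of a half line; Cauchy on the rectangle [a,b] x [Y,R], R to infinity. -/
theorem half_shift {a b Y : ℝ} (hab : a ≤ b) {F : ℂ → ℂ}
    (hF : ∀ s : ℂ, a ≤ s.re → s.re ≤ b → Y ≤ s.im → DifferentiableAt ℂ F s) {C ε : ℝ} (hε : 0 < ε)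
    (hC : ∀ s : ℂ, a ≤ s.re → s.re ≤ b → Y ≤ s.im → ‖F s‖ ≤ C * (1 + |s.im|) ^ 5 * Real.exp (-(ε * s.im)))
    {D : ℝ} (hD : ∀ x ∈ Icc a b, ‖F (x + Y * I)‖ ≤ D) :
    ‖(∫ y in Ioi Y, F (a + y * I)) - ∫ y in Ioi Y, F (b + y * I)‖ ≤ (b - a) * D := by
  obtain ⟨K, hK0, hK⟩ := A06_bd hε Y
  have hre : ∀ x y : ℝ, ((x : ℂ) + y * I).re = x := fun x y => by simp
  have him : ∀ x y : ℝ, ((x : ℂ) + y * I).im = y := fun x y => by simp
  have hC0 : 0 ≤ C := by
    have h1 := hC (a + Y * I) (by rw [hre]) (by rw [hre]; exact hab) (by rw [him])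
    by_contra hneg
    push Not at hneg
    have h2 : C * (1 + |((a : ℂ) + Y * I).im|) ^ 5 * Real.exp (-(ε * ((a : ℂ) + Y * I).im)) < 0 := by
      rw [him, mul_assoc]
      have h3 : 0 < (1 + |Y|) ^ 5 * Real.exp (-(ε * Y)) := by positivity
      exact mul_neg_of_neg_of_pos hneg h3
    linarith [norm_nonneg (F (a + Y * I))]
  have hbd : ∀ x ∈ Icc a b, ∀ y : ℝ, Y ≤ y → ‖F (x + y * I)‖ ≤ C * K * Real.exp (-(ε / 2) * y) := by
    intro x hx y hy
    have h1 := hC (x + y * I) (by rw [hre]; exact hx.1) (by rw [hre]; exact hx.2) (by rw [him]; exact hy)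
    rw [him] at h1
    calc ‖F (x + y * I)‖ ≤ C * ((1 + |y|) ^ 5 * Real.exp (-(ε * y))) := by rw [← mul_assoc]; exact h1
      _ ≤ C * (K * Real.exp (-(ε / 2) * y)) := mul_le_mul_of_nonneg_left (hK y hy) hC0
      _ = _ := by ring
  have hint : ∀ x ∈ Icc a b, IntegrableOn (fun y : ℝ => F (x + y * I)) (Ioi Y) := by
    intro x hx
    refine Integrable.mono' ((exp_neg_integrableOn_Ioi Y (half_pos hε)).const_mul (C * K)) ?_ ?_
    · refine ContinuousOn.aestronglyMeasurable (fun y hy => ?_) measurableSet_Ioi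
      have h1 : DifferentiableAt ℂ F (x + y * I) :=
        hF _ (by rw [hre]; exact hx.1) (by rw [hre]; exact hx.2) (by rw [him]; exact le_of_lt hy)
      exact (ContinuousAt.comp (f := fun y : ℝ => (x : ℂ) + y * I) (g := F) h1.continuousAt
        (by fun_prop)).continuousWithinAt
    · rw [ae_restrict_iff' measurableSet_Ioi]
      exact Filter.Eventually.of_forall (fun y hy => hbd x hx y (le_of_lt hy))
  have hrect : ∀ R : ℝ, Y ≤ R →
      (∫ x in a..b, F (x + Y * I)) - (∫ x in a..b, F (x + R * I)) =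
        I * ((∫ y in Y..R, F (a + y * I)) - ∫ y in Y..R, F (b + y * I)) := by
    intro R hR
    have h1 := integral_boundary_rect_eq_zero_of_differentiableOn F (a + Y * I) (b + R * I) ?_
    · rw [hre, hre, him, him, smul_eq_mul, smul_eq_mul] at h1
      linear_combination h1
    · rw [hre, hre, him, him, uIcc_of_le hab, uIcc_of_le hR]
      intro s hs
      exact (hF s hs.1.1 hs.1.2 hs.2.1).differentiableWithinAt
  have ha : a ∈ Icc a b := left_mem_Icc.mpr hab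
  have hb : b ∈ Icc a b := right_mem_Icc.mpr hab
  have l1 : Tendsto (fun R : ℝ => ∫ y in Y..R, F (a + y * I)) atTop (𝓝 (∫ y in Ioi Y, F (a + y * I))) :=
    intervalIntegral_tendsto_integral_Ioi Y (hint a ha) tendsto_id
  have l2 : Tendsto (fun R : ℝ => ∫ y in Y..R, F (b + y * I)) atTop (𝓝 (∫ y in Ioi Y, F (b + y * I))) :=
    intervalIntegral_tendsto_integral_Ioi Y (hint b hb) tendsto_id
  have l3 : Tendsto (fun R : ℝ => ∫ x in a..b, F (x + R * I)) atTop (𝓝 0) := by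
    rw [tendsto_zero_iff_norm_tendsto_zero]
    have h1 : Tendsto (fun R : ℝ => C * K * Real.exp (-(ε / 2) * R) * |b - a|) atTop (𝓝 0) := by
      have h2 : Tendsto (fun R : ℝ => Real.exp (-(ε / 2) * R)) atTop (𝓝 0) := by
        rw [Real.tendsto_exp_comp_nhds_zero]
        exact tendsto_id.const_mul_atTop_of_neg (by linarith)
      have h3 := (h2.const_mul (C * K)).mul_const (|b - a|)
      simpa using h3
    refine squeeze_zero' (Filter.Eventually.of_forall (fun R => norm_nonneg _)) ?_ h1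
    filter_upwards [eventually_ge_atTop Y] with R hR
    apply intervalIntegral.norm_integral_le_of_norm_le_const
    intro x hx
    rw [uIoc_of_le hab] at hx
    exact hbd x ⟨le_of_lt hx.1, hx.2⟩ R hR
  have l4 : Tendsto (fun R : ℝ => (∫ x in a..b, F (x + Y * I)) - (∫ x in a..b, F (x + R * I))) atTop
      (𝓝 ((∫ x in a..b, F (x + Y * I)) - 0)) := l3.const_sub _
  have l5 : Tendsto (fun R : ℝ => I * ((∫ y in Y..R, F (a + y * I)) - ∫ y in Y..R, F (b + y * I))) atTop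
      (𝓝 (I * ((∫ y in Ioi Y, F (a + y * I)) - ∫ y in Ioi Y, F (b + y * I)))) :=
    (l1.sub l2).const_mul I
  have l6 : Tendsto (fun R : ℝ => (∫ x in a..b, F (x + Y * I)) - (∫ x in a..b, F (x + R * I))) atTop
      (𝓝 (I * ((∫ y in Ioi Y, F (a + y * I)) - ∫ y in Ioi Y, F (b + y * I)))) := by
    refine l5.congr' ?_
    filter_upwards [eventually_ge_atTop Y] with R hR
    exact (hrect R hR).symm
  have heq := tendsto_nhds_unique l4 l6
  rw [sub_zero] at heq
  have hnorm : ‖(∫ y in Ioi Y, F (a + y * I)) - ∫ y in Ioi Y, F (b + y * I)‖ =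
      ‖∫ x in a..b, F (x + Y * I)‖ := by
    rw [heq, norm_mul, norm_I, one_mul]
  rw [hnorm]
  have hfin : ‖∫ x in a..b, F (x + Y * I)‖ ≤ D * |b - a| := by
    apply intervalIntegral.norm_integral_le_of_norm_le_const
    intro x hx
    rw [uIoc_of_le hab] at hx
    exact hD x ⟨le_of_lt hx.1, hx.2⟩
  rw [abs_of_nonneg (by linarith : 0 ≤ b - a)] at hfin
  linarith

end LZ

end F_A06

section F_Y_JF

open Complex MeasureTheory Set Filter Topology
open scoped ComplexConjugate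

namespace LP

variable {N : ℕ} [NeZero N]

private theorem JF_exp (a b : ZMod N) (hab : a ≠ b) : ∃ c : ℕ, 1 ≤ c ∧ c < N ∧ ∀ y : ℝ,
    exp ((y : ℂ) + 2 * Real.pi * I * ((a.val : ℂ) - b.val) / N) = exp ((y : ℂ) + 2 * Real.pi * I * c / N) := by
  have hN : 0 < N := Nat.pos_of_ne_zero (NeZero.ne N)
  have hNC : (N : ℂ) ≠ 0 := by exact_mod_cast hN.ne'
  have h1 := ZMod.val_lt a
  have h2 := ZMod.val_lt b
  have h3 : a.val ≠ b.val := fun h => hab (ZMod.val_injective N h)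
  rcases lt_or_gt_of_ne h3 with h | h
  · refine ⟨a.val + N - b.val, by omega, by omega, fun y => ?_⟩
    rw [Nat.cast_sub (by omega), Nat.cast_add]
    have e : (y : ℂ) + 2 * Real.pi * I * ((a.val : ℂ) + N - b.val) / N =
        ((y : ℂ) + 2 * Real.pi * I * ((a.val : ℂ) - b.val) / N) + 2 * Real.pi * I := by
      field_simp
      ring
    rw [e, exp_periodic]
  · refine ⟨a.val - b.val, by omega, by omega, fun y => ?_⟩
    rw [Nat.cast_sub (by omega)]

private theorem JF_bound_rp (y t : ℝ) (hy0 : 0 < y) (h1 : -(1/8) ≤ t) (h2 : t ≤ 1/8) :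
    y ^ (-t) ≤ y ^ (-(1/8) : ℝ) + y ^ (1/8 : ℝ) := by
  rcases le_or_gt y 1 with h | h
  · exact (Real.rpow_le_rpow_of_exponent_ge hy0 h (neg_le_neg h2)).trans
      (le_add_of_nonneg_right (Real.rpow_nonneg hy0.le _))
  · exact (Real.rpow_le_rpow_of_exponent_le h.le (neg_le.1 h1)).trans
      (le_add_of_nonneg_left (Real.rpow_nonneg hy0.le _))

private theorem JF_bound_sum (f g : ZMod N → ℂ) (E : ZMod N → ZMod N → ℂ) (w : ℂ) :
    (∑ a : ZMod N, ∑ b : ZMod N, f a * g b * E a b) - Sf f g * w = ∑ a : ZMod N, ∑ b : ZMod N,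
        f a * g b * (E a b - (if a = b then w else 0)) := by
  have e1 : Sf f g * w = ∑ a : ZMod N, ∑ b : ZMod N, f a * g b * (if a = b then w else 0) := by
    unfold Sf
    rw [Finset.sum_mul]
    refine Finset.sum_congr rfl fun a _ => ?_
    rw [Finset.sum_eq_single a]
    · rw [if_pos rfl]
    · intro b _ hb
      rw [if_neg (Ne.symm hb), mul_zero]
    · intro h
      exact absurd (Finset.mem_univ a) h
  rw [e1, ← Finset.sum_sub_distrib]
  refine Finset.sum_congr rfl fun a _ => ?_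
  rw [← Finset.sum_sub_distrib]
  exact Finset.sum_congr rfl fun b _ => (mul_sub _ _ _).symm

private theorem JF_bound_int (s : ℝ) (hs : -1 < s) :
    IntegrableOn (fun y : ℝ => y ^ s * Real.exp (-y / 2)) (Ioi 0) := by
  have := integrableOn_rpow_mul_exp_neg_mul_rpow (p := 1) (s := s) (b := 1/2) hs one_pos one_half_pos
  refine this.congr_fun (fun y _ => ?_) measurableSet_Ioi
  simp only [Real.rpow_one]
  congr 2
  ring

/-- the regularised function and its integral are bounded -/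
theorem JF_bound (f g : ZMod N → ℂ) : ∃ C : ℝ, 0 < C ∧
    (∀ y : ℝ, 0 < y → ‖PF f g y - Sf f g * ((Real.exp (-y) / y : ℝ) : ℂ)‖ ≤ C * Real.exp (-y / 2)) ∧
    ∀ η : ℂ, |η.re| ≤ 1/8 → ‖JF f g η‖ ≤ C := by
  obtain ⟨C0, hC0, h0⟩ := LZ.phi0_bounds
  have key : ∀ a b : ZMod N, ∃ K : ℝ, 0 ≤ K ∧ ∀ y : ℝ, 0 < y →
      ‖(exp ((y : ℂ) + 2 * Real.pi * I * ((a.val : ℂ) - b.val) / N) - 1)⁻¹ -
        (if a = b then ((Real.exp (-y) / y : ℝ) : ℂ) else 0)‖ ≤ K * Real.exp (-y / 2) := by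
    intro a b
    by_cases hab : a = b
    · refine ⟨C0, hC0.le, fun y hy => ?_⟩
      rw [if_pos hab, hab]
      have h1 := (h0 1 le_rfl y hy).2.1
      simp only [Nat.cast_one, one_mul, one_pow, mul_one] at h1
      have e : (exp ((y : ℂ) + 2 * Real.pi * I * ((b.val : ℂ) - b.val) / N) - 1)⁻¹ -
          ((Real.exp (-y) / y : ℝ) : ℂ) = ((1 / (Real.exp y - 1) - Real.exp (-y) / y : ℝ) : ℂ) := by
        push_cast
        rw [sub_self, mul_zero, zero_div, add_zero, one_div]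
      rw [e, Complex.norm_real, Real.norm_eq_abs]
      exact h1
    · obtain ⟨c, hc1, hc2, hc⟩ := JF_exp a b hab
      refine ⟨4 * (N : ℝ) ^ 2, by positivity, fun y hy => ?_⟩
      rw [if_neg hab, sub_zero, hc y]
      exact (LZ.fz_off hc1 hc2 hy.le).2.1
  choose K hK0 hK using key
  obtain ⟨B, hB⟩ : ∃ B : ℝ, B = ∑ a : ZMod N, ∑ b : ZMod N, ‖f a * g b‖ * K a b := ⟨_, rfl⟩
  have hB0 : 0 ≤ B := hB ▸ Finset.sum_nonneg fun a _ => Finset.sum_nonneg fun b _ =>
    mul_nonneg (norm_nonneg _) (hK0 a b)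
  have h1 : ∀ y : ℝ, 0 < y → ‖PF f g y - Sf f g * ((Real.exp (-y) / y : ℝ) : ℂ)‖ ≤ B * Real.exp (-y / 2) := by
    intro y hy
    rw [PF, JF_bound_sum f g, hB, Finset.sum_mul]
    refine (norm_sum_le _ _).trans (Finset.sum_le_sum fun a _ => ?_)
    rw [Finset.sum_mul]
    refine (norm_sum_le _ _).trans (Finset.sum_le_sum fun b _ => ?_)
    rw [norm_mul (f a * g b), mul_assoc ‖f a * g b‖]
    exact mul_le_mul_of_nonneg_left (hK a b y hy) (norm_nonneg (f a * g b))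
  clear hK hK0 hB
  obtain ⟨D, hD⟩ : ∃ D : ℝ, D = ∫ y in Ioi (0:ℝ),
    B * (y ^ (-(1/8) : ℝ) * Real.exp (-y / 2) + y ^ (1/8 : ℝ) * Real.exp (-y / 2)) := ⟨_, rfl⟩
  have h2 : ∀ η : ℂ, |η.re| ≤ 1/8 → ‖JF f g η‖ ≤ D := by
    intro η hη
    rw [JF, hD]
    refine norm_integral_le_of_norm_le (((JF_bound_int _ (by norm_num)).add
      (JF_bound_int _ (by norm_num))).const_mul B) ?_
    filter_upwards [ae_restrict_mem measurableSet_Ioi] with y hy
    rw [norm_mul, Complex.norm_cpow_eq_rpow_re_of_pos hy, Complex.neg_re, ← add_mul,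
      mul_left_comm B]
    exact mul_le_mul (JF_bound_rp y η.re hy (abs_le.1 hη).1 (abs_le.1 hη).2) (h1 y hy)
      (norm_nonneg _) (add_nonneg (Real.rpow_nonneg (le_of_lt hy) _) (Real.rpow_nonneg (le_of_lt hy) _))
  exact ⟨max B D + 1, lt_of_le_of_lt (hB0.trans (le_max_left B D)) (lt_add_one _),
    fun y hy => (h1 y hy).trans (mul_le_mul_of_nonneg_right
      ((le_max_left B D).trans (le_add_of_nonneg_right zero_le_one)) (Real.exp_pos _).le),
    fun η hη => (h2 η hη).trans ((le_max_right B D).trans (le_add_of_nonneg_right zero_le_one))⟩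

end LP

end F_Y_JF

section F_Y_B07

open Complex MeasureTheory Set Filter Topology
open scoped ComplexConjugate

namespace LP

open LZ (kk nS cf EE ER PP wt Sep)

variable {N : ℕ} [NeZero N]

private theorem B07_sum_le {σ : ℝ} (hσ : 1 < σ) (hσ2 : σ ≤ 2) :
    ∑' n : ℕ, 1 / ((n : ℝ) + 1) ^ σ ≤ 2 / (σ - 1) := by
  have h := ZetaAsymptotics.zeta_limit_aux1 hσ
  have h0 : 0 ≤ ZetaAsymptotics.termTSum σ := by
    unfold ZetaAsymptotics.termTSum
    exact tsum_nonneg fun n => ZetaAsymptotics.term_nonneg _ _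
  have h1 : 0 ≤ σ * ZetaAsymptotics.termTSum σ := mul_nonneg (by linarith) h0
  have h2 : 1 ≤ 1 / (σ - 1) := by
    rw [le_div_iff₀ (by linarith)]
    linarith
  have h3 : 2 / (σ - 1) = 1 / (σ - 1) + 1 / (σ - 1) := by ring
  rw [h3]
  linarith

private theorem B07_LSeries {f : ℕ → ℂ} (hf : ∀ n, ‖f n‖ ≤ 1) {s : ℂ} (h1 : 1 < s.re)
    (h2 : s.re ≤ 2) : ‖LSeries f s‖ ≤ 2 / (s.re - 1) := by
  have hs : Summable fun n : ℕ => 1 / ((n : ℝ) + 1) ^ s.re := by
    have := (summable_nat_add_iff 1).mpr (Real.summable_one_div_nat_rpow.mpr h1)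
    simpa using this
  have hb : ∀ n : ℕ, ‖LSeries.term f s (n + 1)‖ ≤ 1 / ((n : ℝ) + 1) ^ s.re := by
    intro n
    rw [LSeries.norm_term_eq, if_neg (Nat.succ_ne_zero n)]
    push_cast
    have : 0 < ((n : ℝ) + 1) ^ s.re := by positivity
    exact div_le_div_of_nonneg_right (hf _) this.le
  have hsn : Summable fun n : ℕ => ‖LSeries.term f s (n + 1)‖ :=
    Summable.of_nonneg_of_le (fun _ => norm_nonneg _) hb hs
  have hsf : Summable fun n : ℕ => LSeries.term f s n :=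
    (summable_nat_add_iff 1).mp hsn.of_norm
  have h3 : LSeries f s = ∑' n : ℕ, LSeries.term f s (n + 1) := by
    rw [LSeries, hsf.tsum_eq_zero_add, LSeries.term_zero, zero_add]
  rw [h3]
  refine (norm_tsum_le_tsum_norm hsn).trans ?_
  exact (hsn.tsum_le_tsum hb hs).trans (B07_sum_le h1 h2)

/-- trivial two sided bounds for L-functions to the right of 1: |L(s,chi)|, |L(s,chi)|^-1 <= C/(Re s - 1), absolute C. -/
theorem L_trivial : ∃ C : ℝ, 0 < C ∧ ∀ (M : ℕ) [NeZero M] (χ : DirichletCharacter ℂ M) (s : ℂ), 1 < s.re → s.re ≤ 2 →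
    ‖LX.Lf χ s‖ ≤ C / (s.re - 1) ∧ ‖LX.Lf χ s‖⁻¹ ≤ C / (s.re - 1) := by
  refine ⟨2, two_pos, fun M _ χ s h1 h2 => ?_⟩
  have e : LX.Lf χ s = LSeries (fun n : ℕ => χ n) s := DirichletCharacter.LFunction_eq_LSeries χ h1
  rw [e]
  refine ⟨B07_LSeries (fun n => χ.norm_le_one _) h1 h2, ?_⟩
  have h3 := DirichletCharacter.LSeries.mul_mu_eq_one χ h1
  have h4 : ‖LSeries (fun n : ℕ => χ n) s‖⁻¹ =
      ‖LSeries ((fun n : ℕ => χ n) * fun n => (ArithmeticFunction.moebius n : ℂ)) s‖ := by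
    rw [← norm_inv, inv_eq_of_mul_eq_one_right h3]
  rw [h4]
  refine B07_LSeries (fun n => ?_) h1 h2
  rw [Pi.mul_apply, norm_mul]
  have h5 : ‖(ArithmeticFunction.moebius n : ℂ)‖ ≤ 1 := by
    rw [Complex.norm_intCast]
    exact_mod_cast ArithmeticFunction.abs_moebius_le_one
  exact mul_le_one₀ (χ.norm_le_one _) (norm_nonneg _) h5

end LP

end F_Y_B07

section F_P07

open Complex MeasureTheory Set Filter Topology
open scoped ComplexConjugate

namespace LZ

theorem P07_compact (u0 : ℝ) (hu : u0 ≠ 0) : ∃ M : ℝ, 0 < M ∧ ∀ w : ℂ, 0 ≤ w.re → w.re ≤ 1 →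
    |w.im - u0| ≤ |u0| / 2 → ‖riemannZeta (1 + w)‖ ≤ M ∧ ‖riemannZeta (1 + w)‖⁻¹ ≤ M := by
  have hu0 : 0 < |u0| := abs_pos.2 hu
  set S : Set ℂ := {w : ℂ | 0 ≤ w.re ∧ w.re ≤ 1 ∧ |w.im - u0| ≤ |u0| / 2} with hS
  have hScomp : IsCompact S := by
    rw [Metric.isCompact_iff_isClosed_bounded]
    constructor
    · have h1 : IsClosed {w : ℂ | 0 ≤ w.re} := isClosed_le continuous_const Complex.continuous_re
      have h2 : IsClosed {w : ℂ | w.re ≤ 1} := isClosed_le Complex.continuous_re continuous_const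
      have h3 : IsClosed {w : ℂ | |w.im - u0| ≤ |u0| / 2} :=
        isClosed_le ((Complex.continuous_im.sub continuous_const).abs) continuous_const
      exact h1.inter (h2.inter h3)
    · rw [isBounded_iff_forall_norm_le]
      refine ⟨1 + 2 * |u0|, fun w hw => ?_⟩
      obtain ⟨h1, h2, h3⟩ := hw
      refine (Complex.norm_le_abs_re_add_abs_im w).trans ?_
      rw [abs_of_nonneg h1]
      have h4 : |w.im| ≤ |w.im - u0| + |u0| := by
        have := abs_add_le (w.im - u0) u0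
        simpa using this
      linarith
  have hne : ∀ w ∈ S, (1 + w) ≠ 1 ∧ riemannZeta (1 + w) ≠ 0 := by
    rintro w ⟨h1, h2, h3⟩
    constructor
    · intro h
      have h4 : w = 0 := by
        have := congrArg (fun z => z - 1) h
        simpa using this
      rw [h4] at h3
      simp at h3
      linarith
    · apply riemannZeta_ne_zero_of_one_le_re
      rw [Complex.add_re, Complex.one_re]
      linarith
  have hcont : ContinuousOn (fun w : ℂ => riemannZeta (1 + w)) S := by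
    intro w hw
    apply ContinuousAt.continuousWithinAt
    exact ContinuousAt.comp (f := fun w : ℂ => 1 + w)
      (differentiableAt_riemannZeta (hne w hw).1).continuousAt
      (continuousAt_const.add continuousAt_id)
  obtain ⟨M1, hM1⟩ := hScomp.exists_bound_of_continuousOn hcont
  obtain ⟨M2, hM2⟩ := hScomp.exists_bound_of_continuousOn
    (hcont.inv₀ fun w hw => (hne w hw).2)
  refine ⟨max 1 (max M1 M2), by positivity, ?_⟩
  intro w h1 h2 h3
  have hw : w ∈ S := ⟨h1, h2, h3⟩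
  constructor
  · exact (hM1 w hw).trans ((le_max_left _ _).trans (le_max_right _ _))
  · have := hM2 w hw
    rw [Pi.inv_apply, norm_inv] at this
    exact this.trans ((le_max_right _ _).trans (le_max_right _ _))

private theorem P07_a {x A B v : ℝ} (h : x ≤ A) (hA : 0 ≤ A) (hB : 0 ≤ B) (hv : 0 ≤ v) :
    x ≤ (A + B) * (1 + v) := by
  have h1 := mul_nonneg hA hv
  have h2 := mul_nonneg hB hv
  have h3 : (A + B) * (1 + v) = A + B + A * v + B * v := by ring
  linarith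

private theorem P07_b {C l x : ℝ} (hC : 0 < C) (hl : 0 < l) (hx : 1 / l / 2 ≤ x) :
    C / x ≤ C * (2 * l) := by
  have hx0 : 0 < x := lt_of_lt_of_le (by positivity) hx
  rw [div_le_iff₀ hx0]
  have h1 : 1 ≤ 2 * l * x := by
    have h2 := mul_le_mul_of_nonneg_left hx (show 0 ≤ 2 * l by positivity)
    have e2 : 2 * l * (1 / l / 2) = 1 := by field_simp
    rwa [e2] at h2
  calc C = C * 1 := (mul_one C).symm
    _ ≤ C * (2 * l * x) := mul_le_mul_of_nonneg_left h1 hC.le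
    _ = C * (2 * l) * x := by ring

private theorem P07_c {l u v : ℝ} (hl : 0 < l) (hu : 0 < u) (hv : u / 2 < v / l) :
    l ≤ 2 * v / u := by
  rw [le_div_iff₀ hu]
  rw [div_lt_div_iff₀ two_pos hl] at hv
  linarith

private theorem P07_d {x A C l u v z : ℝ} (h1 : x ≤ C / z) (h2 : C / z ≤ C * (2 * l))
    (h3 : l ≤ 2 * v / u) (hA : 0 ≤ A) (hC : 0 ≤ C) (hu : 0 ≤ u) (hv : 0 ≤ v) :
    x ≤ (A + C * 4 / u) * (1 + v) := by
  have g6 : C * (2 * l) ≤ C * 4 / u * v := by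
    have : C * (2 * l) ≤ C * (2 * (2 * v / u)) :=
      mul_le_mul_of_nonneg_left (mul_le_mul_of_nonneg_left h3 zero_le_two) hC
    refine this.trans (le_of_eq ?_)
    ring
  have g7 : 0 ≤ C * 4 / u := div_nonneg (mul_nonneg hC (by norm_num)) hu
  have g8 : 0 ≤ A * (1 + v) := mul_nonneg hA (add_nonneg zero_le_one hv)
  have g9 : (A + C * 4 / u) * (1 + v) = A * (1 + v) + C * 4 / u + C * 4 / u * v := by ring
  linarith

private theorem P07_dv (c v l : ℝ) : ((c : ℂ) + v * I) / l = ((c / l : ℝ) : ℂ) +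
    ((v / l : ℝ) : ℂ) * I := by
  push_cast
  ring

private theorem P07_r0 {a c l : ℝ} (hl : 3 ≤ l) (hc : 1 ≤ c) (hc2 : c ≤ 2)
    (h1 : |a| ≤ 1 / (8 * l)) : 1 / l / 2 ≤ a + c / l ∧ a + c / l ≤ 1 := by
  have hl0 : 0 < l := by linarith
  have h1 := abs_le.1 h1
  have h8 : 1 / (8 * l) = (1 / l) / 8 := by field_simp
  have hil : 0 < 1 / l := one_div_pos.mpr hl0
  have hil3 : 1 / l ≤ 1 / 3 := one_div_le_one_div_of_le (by norm_num) hl
  have hcl1 : 1 / l ≤ c / l := div_le_div_of_nonneg_right hc hl0.le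
  have hcl2 : c / l ≤ 2 / l := div_le_div_of_nonneg_right hc2 hl0.le
  have h2l : 2 / l = 2 * (1 / l) := by ring
  exact ⟨by linarith [h1.1], by linarith [h1.2]⟩

private theorem P07_R {z : ℂ} {C1 M : ℝ} (hz : riemannZeta z ≠ 0)
    (h : |R z - Real.log ‖riemannZeta z‖| ≤ C1) (g1 : ‖riemannZeta z‖ ≤ M)
    (g2 : ‖riemannZeta z‖⁻¹ ≤ M) : Real.exp |R z| ≤ Real.exp C1 * M := by
  have hzp : 0 < ‖riemannZeta z‖ := norm_pos_iff.2 hz
  have g3 := abs_le.1 h
  rcases abs_cases (R z) with ⟨h, -⟩ | ⟨h, -⟩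
  · rw [h]
    calc Real.exp (R z) ≤ Real.exp (C1 + Real.log ‖riemannZeta z‖) :=
          Real.exp_le_exp.2 (by linarith [g3.2])
      _ = Real.exp C1 * ‖riemannZeta z‖ := by rw [Real.exp_add, Real.exp_log hzp]
      _ ≤ _ := mul_le_mul_of_nonneg_left g1 (Real.exp_pos _).le
  · rw [h]
    calc Real.exp (-R z) ≤ Real.exp (C1 + -Real.log ‖riemannZeta z‖) :=
          Real.exp_le_exp.2 (by linarith [g3.1])
      _ = Real.exp C1 * ‖riemannZeta z‖⁻¹ := by
          rw [Real.exp_add, Real.exp_neg, Real.exp_log hzp]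
      _ ≤ _ := mul_le_mul_of_nonneg_left g2 (Real.exp_pos _).le

/-- Away from the pole. If |v|/l <= |u0|/2 the point stays in the compact set {0<=Re w<=1, |Im w| in [|u0|/2, 3|u0|/2]}
where zeta(1+w) is bounded above and below (R_log); otherwise exp|R| <= C/Re w <= Cl <= C'|v|. -/
theorem R_off (u0 : ℝ) (hu : u0 ≠ 0) : ∃ C l0 : ℝ, 0 < C ∧ 1 ≤ l0 ∧ ∀ l : ℝ, l0 ≤ l → ∀ η : ℂ,
    |η.re| ≤ 1 / (8 * l) → η.im = u0 → ∀ c v : ℝ, 1 ≤ c → c ≤ 2 →
    Real.exp |R (1 + η + (c + v * I) / l)| ≤ C * (1 + |v|) := by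
  obtain ⟨C1, hC1, hLog⟩ := R_log
  obtain ⟨C2, hC2, hExp⟩ := R_exp
  obtain ⟨M, hM, hMz⟩ := P07_compact u0 hu
  have hu0 : 0 < |u0| := abs_pos.2 hu
  refine ⟨Real.exp C1 * M + C2 * 4 / |u0|, 3, by positivity, by norm_num, ?_⟩
  intro l hl η hη1 hη2 c v hc1 hc2
  have hl0 : 0 < l := lt_of_lt_of_le (by norm_num) hl
  set w : ℂ := η + (c + v * I) / l with hw
  have hwre : w.re = η.re + c / l := by
    rw [hw, P07_dv]; simp
  have hwim : w.im = u0 + v / l := by
    rw [hw, P07_dv]; simp [hη2]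
  obtain ⟨hre0, hre1⟩ := P07_r0 hl hc1 hc2 hη1
  rw [← hwre] at hre0 hre1
  have hrepos : 0 < w.re := lt_of_lt_of_le (half_pos (one_div_pos.mpr hl0)) hre0
  have e : 1 + η + (c + v * I) / l = 1 + w := by rw [hw]; ring
  rw [e]
  have hv0 : 0 ≤ |v| := abs_nonneg v
  have hone : 1 < (1 + w).re := by
    rw [Complex.add_re, Complex.one_re]
    exact lt_add_of_pos_right 1 hrepos
  have hEM : 0 ≤ Real.exp C1 * M := mul_nonneg (Real.exp_pos _).le hM.le
  by_cases hv : |v| / l ≤ |u0| / 2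
  · have h3 : |w.im - u0| ≤ |u0| / 2 := by
      rw [hwim]
      have : u0 + v / l - u0 = v / l := by ring
      rw [this, abs_div, abs_of_pos hl0]
      exact hv
    obtain ⟨g1, g2⟩ := hMz w hrepos.le hre1 h3
    have hz : riemannZeta (1 + w) ≠ 0 := riemannZeta_ne_zero_of_one_le_re hone.le
    exact P07_a (P07_R hz (hLog (1 + w) hone) g1 g2) hEM
      (div_nonneg (mul_nonneg hC2.le (by norm_num)) hu0.le) hv0
  · push Not at hv
    obtain ⟨g1, g2, -, -⟩ := hExp w hrepos hre1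
    have g3 : Real.exp |R (1 + w)| ≤ C2 / w.re := by
      rcases abs_cases (R (1 + w)) with ⟨h, -⟩ | ⟨h, -⟩
      · rw [h]; exact g1
      · rw [h]; exact g2
    exact P07_d g3 (P07_b hC2 hl0 hre0) (P07_c hl0 hu0 hv) hEM hC2.le hu0.le hv0

end LZ

end F_P07

end

section

open Complex MeasureTheory Set Filter Topology
open scoped ComplexConjugate

namespace OO

/-- the `j`-th logarithm -/
noncomputable def T_H3_f (v : ℝ) (j : ℕ) (s : ℂ) : ℂ := log (1 + (v : ℂ) ^ 2 / (s + j) ^ 2)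

theorem T_H3_slit (v : ℝ) (w : ℂ) (hw : 0 < w.re) : 1 + (v : ℂ) ^ 2 / w ^ 2 ∈ slitPlane := by
  have hw0 : w ≠ 0 := by
    rintro rfl
    simp at hw
  have hn : 0 < normSq w := normSq_pos.2 hw0
  have e : (v : ℂ) ^ 2 / w ^ 2 = ((v ^ 2 / normSq w ^ 2 : ℝ) : ℂ) * (conj w) ^ 2 := by
    have h1 : w * conj w = (normSq w : ℂ) := mul_conj w
    have h2 : (normSq w : ℂ) ≠ 0 := by exact_mod_cast hn.ne'
    have h3 : conj w ≠ 0 := by
      intro h
      rw [h, mul_zero] at h1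
      exact h2 h1.symm
    push_cast
    rw [← h1] at h2 ⊢
    field_simp
  have hre : ((conj w) ^ 2).re = w.re ^ 2 - w.im ^ 2 := by
    rw [sq, mul_re, conj_re, conj_im]; ring
  have him : ((conj w) ^ 2).im = -(2 * w.re * w.im) := by
    rw [sq, mul_im, conj_re, conj_im]; ring
  set r : ℝ := v ^ 2 / normSq w ^ 2 with hr
  have hr0 : 0 ≤ r := by positivity
  rw [e, mem_slitPlane_iff]
  rw [add_re, add_im, one_re, one_im, re_ofReal_mul, im_ofReal_mul, hre, him]
  by_cases h : w.im = 0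
  · left
    rw [h]
    have : 0 ≤ r * w.re ^ 2 := by positivity
    nlinarith
  · by_cases h' : r = 0
    · left
      rw [h']; norm_num
    · right
      rw [zero_add]
      exact mul_ne_zero h' (neg_ne_zero.2 (mul_ne_zero (mul_ne_zero two_ne_zero hw.ne') h))

theorem T_H3_re (j : ℕ) (s : ℂ) (hs : 0 < s.re) : 0 < (s + j).re := by
  have : (s + j).re = s.re + j := by simp
  rw [this]
  positivity

theorem T_H3_seq (v : ℝ) (s : ℂ) (hs : 0 < s.re) (n : ℕ) (hn : n ≠ 0) :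
    GammaSeq (s + v * I) n * GammaSeq (s - v * I) n =
      GammaSeq s n ^ 2 * exp (-(∑ j ∈ Finset.range (n + 1), T_H3_f v j s)) := by
  have hn0 : (n : ℂ) ≠ 0 := by exact_mod_cast hn
  have h1 : exp (-(∑ j ∈ Finset.range (n + 1), T_H3_f v j s)) =
      ∏ j ∈ Finset.range (n + 1), (1 + (v : ℂ) ^ 2 / (s + j) ^ 2)⁻¹ := by
    rw [Complex.exp_neg, Complex.exp_sum, ← Finset.prod_inv_distrib]
    refine Finset.prod_congr rfl fun j _ => ?_
    unfold T_H3_f
    rw [exp_log (slitPlane_ne_zero (T_H3_slit v _ (T_H3_re j s hs)))]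
  have h2 : (n : ℂ) ^ (s + v * I) * (n : ℂ) ^ (s - v * I) = ((n : ℂ) ^ s) ^ 2 := by
    rw [← cpow_add _ _ hn0, sq, ← cpow_add _ _ hn0]
    congr 1
    ring
  have h3 : (∏ j ∈ Finset.range (n + 1), (s + v * I + j)) * (∏ j ∈ Finset.range (n + 1), (s - v * I + j)) =
      (∏ j ∈ Finset.range (n + 1), (s + j)) ^ 2 * ∏ j ∈ Finset.range (n + 1), (1 + (v : ℂ) ^ 2 / (s + j) ^ 2) := by
    rw [← Finset.prod_mul_distrib, ← Finset.prod_pow, ← Finset.prod_mul_distrib]
    refine Finset.prod_congr rfl fun j _ => ?_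
    have : s + j ≠ 0 := by
      intro h
      have := T_H3_re j s hs
      rw [h] at this
      simp at this
    have hI := I_sq
    field_simp
    linear_combination (-(v : ℂ) ^ 2) * hI
  have h4 : ∀ j ∈ Finset.range (n + 1), (s + (j : ℂ)) ≠ 0 := by
    intro j _ h
    have := T_H3_re j s hs
    rw [h] at this
    simp at this
  have h5 : (∏ j ∈ Finset.range (n + 1), (s + (j : ℂ))) ≠ 0 := Finset.prod_ne_zero_iff.2 h4
  rw [h1, Finset.prod_inv_distrib]
  unfold GammaSeq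
  rw [div_mul_div_comm, h3, div_pow]
  have h6 : (∏ j ∈ Finset.range (n + 1), (1 + (v : ℂ) ^ 2 / (s + j) ^ 2)) ≠ 0 :=
    Finset.prod_ne_zero_iff.2 fun j _ => slitPlane_ne_zero (T_H3_slit v _ (T_H3_re j s hs))
  rw [← div_eq_mul_inv, div_div]
  congr 1
  linear_combination ((n.factorial : ℂ) ^ 2) * h2

theorem T_H3_bd (v : ℝ) (w : ℂ) (hw : 2 * v ^ 2 ≤ ‖w‖ ^ 2) (hw0 : 0 < ‖w‖) :
    ‖log (1 + (v : ℂ) ^ 2 / w ^ 2)‖ ≤ 3 / 2 * (v ^ 2 / ‖w‖ ^ 2) := by
  have h1 : ‖(v : ℂ) ^ 2 / w ^ 2‖ = v ^ 2 / ‖w‖ ^ 2 := by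
    rw [norm_div, norm_pow, norm_pow, norm_real, Real.norm_eq_abs, sq_abs]
  have h2 : ‖(v : ℂ) ^ 2 / w ^ 2‖ ≤ 1 / 2 := by
    rw [h1, div_le_div_iff₀ (by positivity) (by norm_num)]
    linarith
  have h3 := norm_log_one_add_half_le_self h2
  rwa [h1] at h3

theorem T_H3_nat (v : ℝ) : ∃ J : ℕ, ∀ (j : ℕ) (t : ℝ), 2 * v ^ 2 ≤ ‖(1 / 2 + (t : ℂ) * I) + ((j + J : ℕ) : ℂ)‖ ^ 2 ∧
    ((j : ℝ) + 1) ^ 2 ≤ ‖(1 / 2 + (t : ℂ) * I) + ((j + J : ℕ) : ℂ)‖ ^ 2 := by
  refine ⟨⌈2 * |v|⌉₊ + 1, ?_⟩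
  intro j t
  have h1 := Complex.abs_re_le_norm ((1 / 2 + (t : ℂ) * I) + ((j + (⌈2 * |v|⌉₊ + 1) : ℕ) : ℂ))
  have h2 : ((1 / 2 + (t : ℂ) * I) + ((j + (⌈2 * |v|⌉₊ + 1) : ℕ) : ℂ)).re = 1 / 2 + (j + (⌈2 * |v|⌉₊ + 1)) := by
    rw [add_re, natCast_re]
    push_cast
    simp
  have h3 : (2 * |v|) ≤ (⌈2 * |v|⌉₊ : ℝ) := Nat.le_ceil _
  have h4 : (0 : ℝ) ≤ j := Nat.cast_nonneg j
  have h5 : (0 : ℝ) ≤ (⌈2 * |v|⌉₊ : ℝ) := Nat.cast_nonneg _
  rw [h2, abs_of_nonneg (by positivity)] at h1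
  constructor
  · have h6 : 2 * |v| ≤ ‖(1 / 2 + (t : ℂ) * I) + ((j + (⌈2 * |v|⌉₊ + 1) : ℕ) : ℂ)‖ := by linarith
    have h7 : (2 * |v|) ^ 2 ≤ ‖(1 / 2 + (t : ℂ) * I) + ((j + (⌈2 * |v|⌉₊ + 1) : ℕ) : ℂ)‖ ^ 2 := by
      gcongr
    rw [mul_pow, sq_abs] at h7
    nlinarith [sq_nonneg v]
  · have h6 : (j : ℝ) + 1 ≤ ‖(1 / 2 + (t : ℂ) * I) + ((j + (⌈2 * |v|⌉₊ + 1) : ℕ) : ℂ)‖ := by linarith
    gcongr

theorem T_H3_cont (v : ℝ) (j : ℕ) : Continuous (fun t : ℝ => T_H3_f v j (1 / 2 + t * I)) := by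
  unfold T_H3_f
  refine Continuous.clog ?_ fun t => T_H3_slit v _ (T_H3_re j _ (by simp))
  refine continuous_const.add (Continuous.div continuous_const (by fun_prop) ?_)
  intro t h
  have h1 := T_H3_re j (1 / 2 + (t : ℂ) * I) (by simp)
  have h2 := pow_eq_zero_iff (two_ne_zero) |>.1 h
  rw [h2] at h1
  simp at h1

theorem T_H3_summ : Summable (fun j : ℕ => ((j : ℝ) + 1) ^ (-2 : ℝ)) := by
  have h := (summable_nat_add_iff 1).2 (Real.summable_nat_rpow.2 (by norm_num : (-2 : ℝ) < -1))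
  refine h.congr fun j => ?_
  push_cast
  rfl

theorem T_H3_S (v : ℝ) : ∃ S : ℝ → ℂ, Continuous S ∧
    ∀ t : ℝ, HasSum (fun j : ℕ => T_H3_f v j (1 / 2 + t * I)) (S t) := by
  obtain ⟨J, hJ⟩ := T_H3_nat v
  have hb : ∀ (j : ℕ) (t : ℝ), ‖T_H3_f v (j + J) (1 / 2 + t * I)‖ ≤ 3 / 2 * v ^ 2 * ((j : ℝ) + 1) ^ (-2 : ℝ) := by
    intro j t
    obtain ⟨h1, h2⟩ := hJ j t
    have hj : (0 : ℝ) < (j : ℝ) + 1 := by positivity
    have h0 : 0 < ‖(1 / 2 + (t : ℂ) * I) + ((j + J : ℕ) : ℂ)‖ := by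
      rw [norm_pos_iff]
      intro h
      rw [h] at h2
      simp only [norm_zero] at h2
      nlinarith
    have h3 := T_H3_bd v _ h1 h0
    unfold T_H3_f
    refine h3.trans ?_
    have h4 : ((j : ℝ) + 1) ^ (-2 : ℝ) = 1 / ((j : ℝ) + 1) ^ 2 := by
      rw [Real.rpow_neg hj.le, one_div]
      congr 1
      exact Real.rpow_two _
    rw [h4]
    have h5 : v ^ 2 / ‖(1 / 2 + (t : ℂ) * I) + ((j + J : ℕ) : ℂ)‖ ^ 2 ≤ v ^ 2 * (1 / ((j : ℝ) + 1) ^ 2) := by
      rw [mul_one_div]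
      gcongr
    linarith
  have hsum := T_H3_summ.mul_left (3 / 2 * v ^ 2)
  have hs : ∀ t : ℝ, Summable (fun j : ℕ => T_H3_f v (j + J) (1 / 2 + t * I)) := fun t =>
    Summable.of_norm_bounded hsum fun j => hb j t
  refine ⟨fun t => (∑ j ∈ Finset.range J, T_H3_f v j (1 / 2 + t * I)) +
    ∑' j : ℕ, T_H3_f v (j + J) (1 / 2 + t * I), ?_, ?_⟩
  · refine Continuous.add (continuous_finsetSum _ fun j _ => T_H3_cont v j) ?_
    exact continuous_tsum (fun j => T_H3_cont v (j + J)) hsum fun j t => hb j t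
  · intro t
    have h1 : Summable (fun j : ℕ => T_H3_f v j (1 / 2 + t * I)) :=
      (summable_nat_add_iff (f := fun j : ℕ => T_H3_f v j (1 / 2 + t * I)) J).1 (hs t)
    have h2 := h1.sum_add_tsum_nat_add J
    have h3 := h1.hasSum
    rw [← h2] at h3
    exact h3

theorem T_H3_tele (t : ℝ) (ht : 0 < t) :
    HasSum (fun j : ℕ => 1 / ((j : ℝ) + t) - 1 / (((j + 1 : ℕ) : ℝ) + t)) (1 / t) := by
  have h0 : Tendsto (fun j : ℕ => 1 / ((j : ℝ) + t)) atTop (𝓝 0) := by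
    have h1 : Tendsto (fun j : ℕ => (j : ℝ) + t) atTop atTop :=
      tendsto_atTop_add_const_right _ _ tendsto_natCast_atTop_atTop
    exact h1.inv_tendsto_atTop.congr fun j => by rw [Pi.inv_apply, one_div]
  have hnn : ∀ j : ℕ, 0 ≤ 1 / ((j : ℝ) + t) - 1 / (((j + 1 : ℕ) : ℝ) + t) := by
    intro j
    have hj : (0 : ℝ) ≤ j := Nat.cast_nonneg j
    rw [sub_nonneg]
    apply one_div_le_one_div_of_le (by positivity)
    push_cast
    linarith
  rw [hasSum_iff_tendsto_nat_of_nonneg hnn]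
  have h2 : ∀ n : ℕ, ∑ j ∈ Finset.range n, (1 / ((j : ℝ) + t) - 1 / (((j + 1 : ℕ) : ℝ) + t)) =
      1 / t - 1 / ((n : ℝ) + t) := by
    intro n
    rw [Finset.sum_range_sub' (fun j : ℕ => 1 / ((j : ℝ) + t))]
    simp
  simp only [h2]
  simpa using h0.const_sub (1 / t)

/-- a continuous square root of the phase of a quotient of Gamma factors -/
theorem T_h3 (v : ℝ) : ∃ g : ℝ → ℂ, T_hroot3 v g := by
  obtain ⟨S, hSc, hS⟩ := T_H3_S v
  refine ⟨fun t => exp (((-((S t).im / 2) : ℝ) : ℂ) * I), ?_, ?_, ?_, ?_⟩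
  · have : Continuous (fun t => (S t).im) := Complex.continuous_im.comp hSc
    exact Complex.continuous_exp.comp ((Complex.continuous_ofReal.comp (this.div_const 2).neg).mul continuous_const)
  · intro t
    exact Complex.norm_exp_ofReal_mul_I _
  · intro t
    refine ⟨Real.exp (-(S t).re), Real.exp_pos _, ?_⟩
    set s : ℂ := 1 / 2 + (t : ℂ) * I with hs
    have hsre : 0 < s.re := by rw [hs]; simp
    have e1 : (1 / 2 : ℂ) + ((t + v : ℝ) : ℂ) * I = s + v * I := by rw [hs]; push_cast; ring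
    have e2 : (1 / 2 : ℂ) + ((t - v : ℝ) : ℂ) * I = s - v * I := by rw [hs]; push_cast; ring
    have hG : Gamma (s + v * I) * Gamma (s - v * I) = Gamma s ^ 2 * exp (-(S t)) := by
      have l1 := (GammaSeq_tendsto_Gamma (s + v * I)).mul (GammaSeq_tendsto_Gamma (s - v * I))
      have l2 : Tendsto (fun n : ℕ => ∑ j ∈ Finset.range (n + 1), T_H3_f v j s) atTop (𝓝 (S t)) :=
        (hS t).tendsto_sum_nat.comp (tendsto_add_atTop_nat 1)
      have l3 := ((GammaSeq_tendsto_Gamma s).pow 2).mul ((Complex.continuous_exp.tendsto _).comp l2.neg)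
      refine tendsto_nhds_unique l1 (l3.congr' ?_)
      filter_upwards [eventually_ne_atTop 0] with n hn
      exact (T_H3_seq v s hsre n hn).symm
    have e3 : exp (-(S t)) = (Real.exp (-(S t).re) : ℂ) * (exp (((-((S t).im / 2) : ℝ) : ℂ) * I)) ^ 2 := by
      rw [Complex.ofReal_exp, sq, ← Complex.exp_add, ← Complex.exp_add]
      congr 1
      conv_lhs => rw [← re_add_im (S t)]
      push_cast
      ring
    have hpi : ((2 * Real.pi : ℝ) : ℂ) ≠ 0 := by exact_mod_cast (by positivity : (0:ℝ) < 2 * Real.pi).ne'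
    have e4 : ((2 * Real.pi : ℝ) : ℂ) ^ (-(s + v * I)) * ((2 * Real.pi : ℝ) : ℂ) ^ (-(s - v * I)) =
        (((2 * Real.pi : ℝ) : ℂ) ^ (-s)) ^ 2 := by
      rw [← cpow_add _ _ hpi, sq, ← cpow_add _ _ hpi]
      congr 1
      ring
    have e5 : exp (-(((Real.pi / 2 : ℝ) : ℂ) * I * (s + v * I))) * exp (-(((Real.pi / 2 : ℝ) : ℂ) * I * (s - v * I))) =
        (exp (-(((Real.pi / 2 : ℝ) : ℂ) * I * s))) ^ 2 := by
      rw [← Complex.exp_add, sq, ← Complex.exp_add]
      congr 1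
      ring
    rw [e1, e2]
    unfold T_Gi
    simp only
    calc (((2 * Real.pi : ℝ) : ℂ) ^ (-(s + v * I)) * Gamma (s + v * I) *
            exp (-(((Real.pi / 2 : ℝ) : ℂ) * I * (s + v * I)))) *
          (((2 * Real.pi : ℝ) : ℂ) ^ (-(s - v * I)) * Gamma (s - v * I) *
            exp (-(((Real.pi / 2 : ℝ) : ℂ) * I * (s - v * I))))
        = (((2 * Real.pi : ℝ) : ℂ) ^ (-(s + v * I)) * ((2 * Real.pi : ℝ) : ℂ) ^ (-(s - v * I))) *
            (Gamma (s + v * I) * Gamma (s - v * I)) *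
            (exp (-(((Real.pi / 2 : ℝ) : ℂ) * I * (s + v * I))) *
              exp (-(((Real.pi / 2 : ℝ) : ℂ) * I * (s - v * I)))) := by ring
      _ = _ := by
          rw [e4, e5, hG, e3]
          ring
  · have hbig : ∀ t : ℝ, 2 * |v| + 1 ≤ t → ‖exp (((-((S t).im / 2) : ℝ) : ℂ) * I) - 1‖ ≤ (2 * v ^ 2) / t := by
      intro t ht
      have hv := abs_nonneg v
      have ht0 : 0 < t := by linarith
      have hw : ∀ j : ℕ, t ^ 2 + ((j : ℝ) + 1 / 2) ^ 2 ≤ ‖(1 / 2 + (t : ℂ) * I) + (j : ℂ)‖ ^ 2 := by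
        intro j
        rw [← Complex.normSq_eq_norm_sq, Complex.normSq_apply]
        simp
        nlinarith
      have hterm : ∀ j : ℕ, ‖T_H3_f v j (1 / 2 + t * I)‖ ≤
          3 * v ^ 2 * (1 / ((j : ℝ) + t) - 1 / (((j + 1 : ℕ) : ℝ) + t)) := by
        intro j
        have hj : (0 : ℝ) ≤ j := Nat.cast_nonneg j
        have h1 := hw j
        have h2 : 0 < ‖(1 / 2 + (t : ℂ) * I) + (j : ℂ)‖ ^ 2 := lt_of_lt_of_le (by positivity) h1
        have h3 : 0 < ‖(1 / 2 + (t : ℂ) * I) + (j : ℂ)‖ := by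
          by_contra h
          have : ‖(1 / 2 + (t : ℂ) * I) + (j : ℂ)‖ = 0 := le_antisymm (not_lt.1 h) (norm_nonneg _)
          rw [this] at h2
          norm_num at h2
        have h4 : 2 * v ^ 2 ≤ ‖(1 / 2 + (t : ℂ) * I) + (j : ℂ)‖ ^ 2 := by
          have : (2 * |v|) ^ 2 ≤ t ^ 2 := by
            apply pow_le_pow_left₀ (by positivity)
            linarith
          rw [mul_pow, sq_abs] at this
          nlinarith [sq_nonneg v, sq_nonneg ((j : ℝ) + 1 / 2)]
        have h5 := T_H3_bd v _ h4 h3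
        unfold T_H3_f
        refine h5.trans ?_
        have e1 : 1 / ((j : ℝ) + t) - 1 / (((j + 1 : ℕ) : ℝ) + t) = 1 / (((j : ℝ) + t) * ((j : ℝ) + t + 1)) := by
          push_cast
          field_simp
          ring
        rw [e1]
        have h6 : ((j : ℝ) + t) * ((j : ℝ) + t + 1) ≤ 2 * ‖(1 / 2 + (t : ℂ) * I) + (j : ℂ)‖ ^ 2 := by
          nlinarith [sq_nonneg ((j : ℝ) + 1 / 2 - t)]
        have h7 : v ^ 2 / ‖(1 / 2 + (t : ℂ) * I) + (j : ℂ)‖ ^ 2 ≤ 2 * v ^ 2 * (1 / (((j : ℝ) + t) * ((j : ℝ) + t + 1))) := by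
          rw [mul_one_div, div_le_div_iff₀ h2 (by positivity)]
          nlinarith [sq_nonneg v]
        linarith
      have hSn : ‖S t‖ ≤ 3 * v ^ 2 * (1 / t) := by
        rw [← (hS t).tsum_eq]
        exact tsum_of_norm_bounded ((T_H3_tele t ht0).mul_left (3 * v ^ 2)) hterm
      have h8 := Real.norm_exp_I_mul_ofReal_sub_one_le (x := -((S t).im / 2))
      rw [mul_comm I] at h8
      refine h8.trans ?_
      rw [Real.norm_eq_abs, abs_neg, abs_div, abs_of_pos (by norm_num : (0:ℝ) < 2)]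
      have h9 := Complex.abs_im_le_norm (S t)
      have h10 : |(S t).im| ≤ 3 * v ^ 2 * (1 / t) := h9.trans hSn
      rw [div_le_iff₀ (by norm_num)]
      calc |(S t).im| ≤ 3 * v ^ 2 * (1 / t) := h10
        _ = 3 * v ^ 2 / t := by ring
        _ ≤ (2 * v ^ 2) / t * 2 := by
            rw [div_mul_eq_mul_div]
            apply div_le_div_of_nonneg_right _ ht0.le
            nlinarith [sq_nonneg v]
    refine ⟨2 * v ^ 2 + 2 * (2 * |v| + 1), by positivity, ?_⟩
    intro t ht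
    have ht0 : 0 < t := by linarith
    have hv := abs_nonneg v
    rcases le_or_gt (2 * |v| + 1) t with h | h
    · refine (hbig t h).trans ?_
      gcongr
      linarith
    · have h1 : ‖exp (((-((S t).im / 2) : ℝ) : ℂ) * I) - 1‖ ≤ 2 := by
        refine (norm_sub_le _ _).trans ?_
        rw [Complex.norm_exp_ofReal_mul_I, norm_one]
        norm_num
      refine h1.trans ?_
      rw [le_div_iff₀ ht0]
      nlinarith [sq_nonneg v]

end OO

end

section

open Complex MeasureTheory Set Filter Topology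
open scoped ComplexConjugate

namespace OO

theorem chx_one {q : ℕ} (χ : DirichletCharacter ℂ q) (y : ℝ) : chx χ y 1 = 1 := by
  simp [chx]

theorem chx_le {q : ℕ} (χ : DirichletCharacter ℂ q) (y : ℝ) (n : ℕ) : ‖chx χ y n‖ ≤ 1 := by
  unfold chx
  rw [norm_mul]
  have h1 : ‖χ (n : ZMod q)‖ ≤ 1 := χ.norm_le_one _
  have h2 : ‖(n : ℂ) ^ (-((y : ℂ) * I))‖ ≤ 1 := by
    rcases Nat.eq_zero_or_pos n with h | h
    · subst h
      rcases eq_or_ne y 0 with hy | hy
      · subst hy; simp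
      · have : (-((y : ℂ) * I)) ≠ 0 := by simpa using hy
        rw [Nat.cast_zero, zero_cpow this, norm_zero]
        exact zero_le_one
    · rw [norm_natCast_cpow_of_pos h]
      simp
  calc ‖χ (n : ZMod q)‖ * ‖(n : ℂ) ^ (-((y : ℂ) * I))‖ ≤ 1 * 1 := mul_le_mul h1 h2 (norm_nonneg _) zero_le_one
    _ = 1 := one_mul 1

theorem chx_conj {q : ℕ} (χ : DirichletCharacter ℂ q) (y : ℝ) (n : ℕ) :
    conj (chx χ y n) = chx χ⁻¹ (-y) n := by
  unfold chx
  rw [map_mul]
  congr 1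
  · rw [MulChar.inv_apply_eq_inv', ← Complex.star_def]
    exact MulChar.star_apply' χ _ |>.trans (by rw [MulChar.inv_apply_eq_inv'])
  · rcases Nat.eq_zero_or_pos n with h | h
    · subst h
      rcases eq_or_ne y 0 with hy | hy
      · subst hy; simp
      · have h1 : (-((y : ℂ) * I)) ≠ 0 := by simpa using hy
        have h2 : (-(((-y : ℝ) : ℂ) * I)) ≠ 0 := by simpa using hy
        rw [Nat.cast_zero, zero_cpow h1, zero_cpow h2, map_zero]
    · have harg : (n : ℂ).arg ≠ Real.pi := by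
        rw [Complex.natCast_arg]; exact Real.pi_pos.ne
      have h1 := Complex.cpow_conj (n : ℂ) (-((y : ℂ) * I)) harg
      rw [Complex.conj_natCast] at h1
      rw [← h1]
      congr 1
      simp

theorem NeX.symm {q1 q2 : ℕ} {χ1 : DirichletCharacter ℂ q1} {y1 : ℝ} {χ2 : DirichletCharacter ℂ q2} {y2 : ℝ}
    (h : NeX χ1 y1 χ2 y2) : NeX χ2 y2 χ1 y1 := by
  rcases h with ⟨n, hn, hn'⟩ | h
  · exact Or.inl ⟨n, by rwa [mul_comm], fun h => hn' h.symm⟩
  · exact Or.inr h.symm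

theorem shc_nonneg (D : ℝ) : 0 ≤ shc D := by
  unfold shc
  split_ifs
  · exact le_rfl
  · have := Real.pi_pos
    positivity

theorem shc_neg (D : ℝ) : shc (-D) = shc D := by
  unfold shc
  simp

theorem rhox_neg (D L : ℝ) : rhox (-D) L = rhox D L := by
  funext x
  unfold rhox
  rw [shc_neg]

theorem ffx_neg (D L : ℝ) : ffx (-D) L = ffx D L := by
  funext x
  unfold ffx
  rw [rhox_neg]

theorem ffx_eq (D L : ℝ) : ffx D L = fun x => (ff L x + ff L (Real.exp (shc D) * x)) / 2 := by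
  funext x
  unfold ffx rhox ff
  ring

theorem ff_diff (L : ℝ) (hL : 1 ≤ L) (x : ℝ) (hx : 0 < x) : HasDerivAt (ff L) (deriv (ff L) x) x := by
  have h := OA02_h1 hL hx
  rw [h.deriv]
  exact h

theorem ff_diff2 (L : ℝ) (hL : 1 ≤ L) (x : ℝ) (hx : 0 < x) :
    HasDerivAt (deriv (ff L)) (deriv (deriv (ff L)) x) x := by
  have h := OA02_h2 hL hx
  have he : deriv (ff L) =ᶠ[𝓝 x] OA02_d1 L := by
    filter_upwards [lt_mem_nhds hx] with z hz
    exact (OA02_h1 hL hz).deriv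
  have h2 : HasDerivAt (deriv (ff L)) (OA02_d2 L x) x := h.congr_of_eventuallyEq he
  rw [h2.deriv]
  exact h2

theorem ffx_deriv (D L : ℝ) (hL : 1 ≤ L) (x : ℝ) (hx : 0 < x) : HasDerivAt (ffx D L)
    ((deriv (ff L) x + Real.exp (shc D) * deriv (ff L) (Real.exp (shc D) * x)) / 2) x := by
  rw [ffx_eq]
  have hk : 0 < Real.exp (shc D) := Real.exp_pos _
  have h1 := ff_diff L hL x hx
  have h2 := ff_diff L hL (Real.exp (shc D) * x) (by positivity)
  have h3 : HasDerivAt (fun x : ℝ => Real.exp (shc D) * x) (Real.exp (shc D)) x := by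
    simpa using (hasDerivAt_id x).const_mul (Real.exp (shc D))
  have h4 := HasDerivAt.comp x h2 h3
  have h5 := (h1.add h4).div_const 2
  have h6 : (deriv (ff L) x + Real.exp (shc D) * deriv (ff L) (Real.exp (shc D) * x)) / 2 =
      (deriv (ff L) x + deriv (ff L) (Real.exp (shc D) * x) * Real.exp (shc D)) / 2 := by ring
  rw [h6]
  exact h5

theorem ffx_deriv2 (D L : ℝ) (hL : 1 ≤ L) (x : ℝ) (hx : 0 < x) : HasDerivAt (deriv (ffx D L))
    ((deriv (deriv (ff L)) x + Real.exp (shc D) ^ 2 * deriv (deriv (ff L)) (Real.exp (shc D) * x)) / 2) x := by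
  have hk : 0 < Real.exp (shc D) := Real.exp_pos _
  have he : deriv (ffx D L) =ᶠ[𝓝 x]
      fun x => (deriv (ff L) x + Real.exp (shc D) * deriv (ff L) (Real.exp (shc D) * x)) / 2 := by
    filter_upwards [lt_mem_nhds hx] with z hz
    exact (ffx_deriv D L hL z hz).deriv
  have h1 := ff_diff2 L hL x hx
  have h2 := ff_diff2 L hL (Real.exp (shc D) * x) (by positivity)
  have h3 : HasDerivAt (fun x : ℝ => Real.exp (shc D) * x) (Real.exp (shc D)) x := by
    simpa using (hasDerivAt_id x).const_mul (Real.exp (shc D))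
  have h4 := (HasDerivAt.comp x h2 h3).const_mul (Real.exp (shc D))
  have h5 := (h1.add h4).div_const 2
  refine HasDerivAt.congr_of_eventuallyEq ?_ he
  have h6 : (deriv (deriv (ff L)) x + Real.exp (shc D) ^ 2 * deriv (deriv (ff L)) (Real.exp (shc D) * x)) / 2 =
      (deriv (deriv (ff L)) x + Real.exp (shc D) *
        (deriv (deriv (ff L)) (Real.exp (shc D) * x) * Real.exp (shc D))) / 2 := by ring
  rw [h6]
  exact h5

/-- The averaged cut function. -/
theorem ffx_facts : ∃ B : ℝ, 0 < B ∧ ∀ D L : ℝ, 1 ≤ L →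
    (∀ x : ℝ, 0 < x → x ≤ Real.exp (L / 1000 - shc D) → ffx D L x = 0) ∧
    (∀ x : ℝ, Real.exp (L / 500) ≤ x → ffx D L x = 1) ∧
    (∀ x : ℝ, 1 ≤ x → |ffx D L x| ≤ B) ∧
    ContDiffOn ℝ 2 (ffx D L) (Ioi 0) ∧
    (∀ x : ℝ, 1 ≤ x → |deriv (ffx D L) x| ≤ B / x) ∧
    (∀ x : ℝ, 1 ≤ x → |deriv (deriv (ffx D L)) x| ≤ B / x ^ 2) := by
  obtain ⟨B, hB, H⟩ := ff_facts
  refine ⟨B, hB, fun D L hL => ?_⟩
  obtain ⟨f1, f2, f3, f4, f5, f6⟩ := H L hL
  set κ : ℝ := Real.exp (shc D) with hκ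
  have hκ0 : 0 < κ := Real.exp_pos _
  have hκ1 : 1 ≤ κ := Real.one_le_exp (shc_nonneg D)
  have hge : ∀ x : ℝ, 0 < x → x ≤ κ * x := fun x hx => by nlinarith
  refine ⟨?_, ?_, ?_, ?_, ?_, ?_⟩
  · intro x hx hx'
    rw [ffx_eq]
    have h1 : κ * x ≤ Real.exp (L / 1000) := by
      have : Real.exp (L / 1000 - shc D) * κ = Real.exp (L / 1000) := by
        rw [hκ, ← Real.exp_add]; congr 1; ring
      rw [← this, mul_comm κ x]
      exact mul_le_mul_of_nonneg_right hx' hκ0.le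
    show (ff L x + ff L (κ * x)) / 2 = 0
    rw [f1 x hx ((hge x hx).trans h1), f1 (κ * x) (by positivity) h1]
    norm_num
  · intro x hx
    have hx0 : 0 < x := lt_of_lt_of_le (Real.exp_pos _) hx
    rw [ffx_eq]
    show (ff L x + ff L (κ * x)) / 2 = 1
    rw [f2 x hx, f2 (κ * x) (hx.trans (hge x hx0))]
    norm_num
  · intro x hx
    have hx0 : 0 < x := by linarith
    rw [ffx_eq]
    show |(ff L x + ff L (κ * x)) / 2| ≤ B
    have h1 := f3 x hx
    have h2 := f3 (κ * x) (hx.trans (hge x hx0))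
    rw [abs_le] at h1 h2 ⊢
    constructor <;> linarith [h1.1, h1.2, h2.1, h2.2]
  · rw [ffx_eq]
    have h2 : ContDiffOn ℝ 2 (fun x => ff L (κ * x)) (Ioi 0) := by
      apply f4.comp (contDiff_const.mul contDiff_id).contDiffOn
      intro x hx
      have hx' : (0 : ℝ) < x := hx
      show 0 < κ * id x
      simp only [id]
      positivity
    exact (f4.add h2).div_const 2
  · intro x hx
    have hx0 : 0 < x := by linarith
    rw [(ffx_deriv D L hL x hx0).deriv]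
    have h1 := f5 x hx
    have h2 := f5 (κ * x) (hx.trans (hge x hx0))
    have h3 : |κ * deriv (ff L) (κ * x)| ≤ B / x := by
      rw [abs_mul, abs_of_pos hκ0]
      calc κ * |deriv (ff L) (κ * x)| ≤ κ * (B / (κ * x)) := mul_le_mul_of_nonneg_left h2 hκ0.le
        _ = B / x := by field_simp
    show |(deriv (ff L) x + κ * deriv (ff L) (κ * x)) / 2| ≤ B / x
    rw [abs_le] at h1 h3 ⊢
    constructor <;> linarith [h1.1, h1.2, h3.1, h3.2]
  · intro x hx
    have hx0 : 0 < x := by linarith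
    rw [(ffx_deriv2 D L hL x hx0).deriv]
    have h1 := f6 x hx
    have h2 := f6 (κ * x) (hx.trans (hge x hx0))
    have h3 : |κ ^ 2 * deriv (deriv (ff L)) (κ * x)| ≤ B / x ^ 2 := by
      rw [abs_mul, abs_of_pos (by positivity)]
      calc κ ^ 2 * |deriv (deriv (ff L)) (κ * x)| ≤ κ ^ 2 * (B / (κ * x) ^ 2) :=
            mul_le_mul_of_nonneg_left h2 (by positivity)
        _ = B / x ^ 2 := by field_simp
    show |(deriv (deriv (ff L)) x + κ ^ 2 * deriv (deriv (ff L)) (κ * x)) / 2| ≤ B / x ^ 2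
    rw [abs_le] at h1 h3 ⊢
    constructor <;> linarith [h1.1, h1.2, h3.1, h3.2]

end OO

end

section

open Complex MeasureTheory Set Filter Topology
open scoped ComplexConjugate

namespace OO

/-- OX04. Mean square of a window average through the transform.

Proof. `X_even` for `w t = ∫ x in t..t+h, f x`: `∫ w² = 2 ∫_{Ioi 0} ‖T_ft w‖² = 2 (∫_{Ioc 0 X} + ∫_{Ioi X})`; on `Ioc 0 X` use
`‖T_ft w‖ ≤ h ‖T_ft f‖`, on `Ioi X` use `‖T_ft w‖ ≤ (π ξ)⁻¹ ‖T_ft f‖ ≤ X⁻¹ ‖T_ft f‖`. -/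
theorem X_winsq {f : ℝ → ℝ} (hc : Continuous f) (hf : Integrable f) (hf2 : Integrable (fun x => f x ^ 2)) {h X : ℝ}
    (hh : 0 < h) (hX : 0 < X) :
    ∫ t, (∫ x in t..(t + h), f x) ^ 2 ≤
      2 * (h ^ 2 * (∫ ξ in Ioc 0 X, ‖T_ft (fun t => (f t : ℂ)) ξ‖ ^ 2) +
        X⁻¹ ^ 2 * ∫ ξ in Ioi X, ‖T_ft (fun t => (f t : ℂ)) ξ‖ ^ 2) := by
  obtain ⟨-, wi, w2, b1, b2⟩ := X_win hc hf hf2 hh
  obtain ⟨-, Wi, e⟩ := X_even wi w2
  obtain ⟨-, Fi, -⟩ := X_even hf hf2
  rw [e, ← Ioc_union_Ioi_eq_Ioi hX.le, setIntegral_union (Ioc_disjoint_Ioi le_rfl)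
    measurableSet_Ioi Wi.integrableOn Wi.integrableOn]
  have h1 : ∫ ξ in Ioc 0 X, ‖T_ft (fun t => ((∫ x in t..(t + h), f x : ℝ) : ℂ)) ξ‖ ^ 2 ≤
      h ^ 2 * ∫ ξ in Ioc 0 X, ‖T_ft (fun t => (f t : ℂ)) ξ‖ ^ 2 := by
    rw [← integral_const_mul]
    refine setIntegral_mono_on Wi.integrableOn (Fi.const_mul _).integrableOn measurableSet_Ioc
      fun ξ _ => ?_
    rw [← mul_pow]
    exact pow_le_pow_left₀ (norm_nonneg _) (b1 ξ) 2
  have h2 : ∫ ξ in Ioi X, ‖T_ft (fun t => ((∫ x in t..(t + h), f x : ℝ) : ℂ)) ξ‖ ^ 2 ≤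
      X⁻¹ ^ 2 * ∫ ξ in Ioi X, ‖T_ft (fun t => (f t : ℂ)) ξ‖ ^ 2 := by
    rw [← integral_const_mul]
    refine setIntegral_mono_on Wi.integrableOn (Fi.const_mul _).integrableOn measurableSet_Ioi
      fun ξ hξ => ?_
    rw [← mul_pow]
    have hξ0 : 0 < ξ := hX.trans hξ
    refine pow_le_pow_left₀ (norm_nonneg _) ((b2 ξ hξ0).trans ?_) 2
    refine mul_le_mul_of_nonneg_right ?_ (norm_nonneg _)
    refine inv_anti₀ hX ?_
    have h3 : X < ξ := hξ
    nlinarith [Real.pi_gt_three]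
  linarith

end OO

end
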