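import Pool.Agent.Lib.MP_0f5a55_nt.OM.K000
import Pool.Agent.Lib.MP_0f5a55_nt.OM.K001

section

open Complex MeasureTheory Set Filter Topology
open scoped ComplexConjugate

namespace OO

private theorem C17_ne (t : ℝ) : (1 / 2 + t * I : ℂ) ≠ 1 := by
  intro h
  have := congrArg Complex.re h
  norm_num at this

private theorem C17_an {q : ℕ} [NeZero q] (χ : DirichletCharacter ℂ q) :
    AnalyticOnNhd ℂ (LX.Lf χ) {1}ᶜ := by
  apply DifferentiableOn.analyticOnNhd _ isOpen_compl_singleton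
  intro s hs
  exact (DirichletCharacter.differentiableAt_LFunction χ s (Or.inl hs)).differentiableWithinAt

private theorem C17_top {q : ℕ} [NeZero q] (χ : DirichletCharacter ℂ q) (t : ℝ) :
    analyticOrderAt (LX.Lf χ) (1 / 2 + t * I) ≠ ⊤ := by
  intro htop
  have hpre : IsPreconnected ({1}ᶜ : Set ℂ) :=
    (isConnected_compl_singleton_of_one_lt_rank (by simp) 1).isPreconnected
  have h0 : LX.Lf χ =ᶠ[𝓝 (1 / 2 + t * I : ℂ)] 0 := by
    rw [analyticOrderAt_eq_top] at htop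
    exact htop
  have h1 : EqOn (LX.Lf χ) 0 {1}ᶜ :=
    (C17_an χ).eqOn_zero_of_preconnected_of_eventuallyEq_zero hpre (C17_ne t) h0
  have h2 : LX.Lf χ 2 = 0 := h1 (by norm_num : (2 : ℂ) ∈ ({1}ᶜ : Set ℂ))
  have h3 : LX.Lf χ 2 ≠ 0 := DirichletCharacter.LFunction_ne_zero_of_one_le_re χ (Or.inr (by norm_num)) (by norm_num)
  exact h3 h2

private theorem C17_shift {q : ℕ} [NeZero q] (χ : DirichletCharacter ℂ q) (t y : ℝ) :
    AnalyticAt ℂ (fun s => LX.Lf χ (s + y * I)) (1 / 2 + t * I) ∧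
    analyticOrderAt (fun s => LX.Lf χ (s + y * I)) (1 / 2 + t * I) = analyticOrderAt (LX.Lf χ) (1 / 2 + (t + y : ℝ) * I) := by
  have he : (1 / 2 + t * I + y * I : ℂ) = 1 / 2 + (t + y : ℝ) * I := by push_cast; ring
  have hg : AnalyticAt ℂ (fun s : ℂ => s + y * I) (1 / 2 + t * I) := analyticAt_id.add analyticAt_const
  have hd : deriv (fun s : ℂ => s + y * I) (1 / 2 + t * I) ≠ 0 := by simp
  have h1 := analyticOrderAt_comp_of_deriv_ne_zero (f := LX.Lf χ) hg hd
  constructor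
  · have h2 : AnalyticAt ℂ (LX.Lf χ) ((fun s : ℂ => s + y * I) (1 / 2 + t * I)) := by
      show AnalyticAt ℂ (LX.Lf χ) (1 / 2 + t * I + y * I)
      rw [he]
      exact C17_an χ _ (C17_ne (t + y))
    exact AnalyticAt.comp h2 hg
  · have h3 : (LX.Lf χ ∘ fun s : ℂ => s + y * I) = fun s => LX.Lf χ (s + y * I) := rfl
    rw [h3] at h1
    rw [h1, he]

/-- Orders of the shifted product on the critical line. -/
theorem F_orders3 {q1 q2 : ℕ} [NeZero q1] [NeZero q2] (χ1 : DirichletCharacter ℂ q1) (χ2 : DirichletCharacter ℂ q2)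
    (y t : ℝ) : AnalyticAt ℂ (fun s => LX.Lf χ1 (s + y * I) * LX.Lf χ2 (s + ((-y : ℝ) : ℂ) * I)) (1 / 2 + t * I) ∧
      analyticOrderAt (fun s => LX.Lf χ1 (s + y * I) * LX.Lf χ2 (s + ((-y : ℝ) : ℂ) * I)) (1 / 2 + t * I) ≠ ⊤ ∧
      analyticOrderNatAt (fun s => LX.Lf χ1 (s + y * I) * LX.Lf χ2 (s + ((-y : ℝ) : ℂ) * I)) (1 / 2 + t * I) =
        analyticOrderNatAt (LX.Lf χ1) (1 / 2 + (t + y : ℝ) * I) +
        analyticOrderNatAt (LX.Lf χ2) (1 / 2 + (t - y : ℝ) * I) := by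
  obtain ⟨a1, o1⟩ := C17_shift χ1 t y
  obtain ⟨a2, o2⟩ := C17_shift χ2 t (-y)
  have t1 : analyticOrderAt (fun s => LX.Lf χ1 (s + y * I)) (1 / 2 + t * I) ≠ ⊤ := by rw [o1]; exact C17_top χ1 _
  have t2 : analyticOrderAt (fun s => LX.Lf χ2 (s + ((-y : ℝ) : ℂ) * I)) (1 / 2 + t * I) ≠ ⊤ := by
    rw [o2]; exact C17_top χ2 _
  have e : (fun s => LX.Lf χ1 (s + y * I) * LX.Lf χ2 (s + ((-y : ℝ) : ℂ) * I)) =
    (fun s => LX.Lf χ1 (s + y * I)) * (fun s => LX.Lf χ2 (s + ((-y : ℝ) : ℂ) * I)) := rfl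
  rw [e]
  refine ⟨a1.mul a2, ?_, ?_⟩
  · rw [analyticOrderAt_mul a1 a2]
    intro h
    rcases ENat.add_eq_top.mp h with h | h
    · exact t1 h
    · exact t2 h
  · rw [analyticOrderNatAt_mul a1 a2 t1 t2]
    unfold analyticOrderNatAt
    rw [o1, o2, ← sub_eq_add_neg]

/-- Finitely many points of odd order on a segment of the critical line. -/
theorem F_fin_gen (f : ℂ → ℂ) (hf : ∀ t : ℝ, AnalyticAt ℂ f (1 / 2 + t * I))
    (hord : ∀ t : ℝ, analyticOrderAt f (1 / 2 + t * I) ≠ ⊤) (a b : ℝ) :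
    {t : ℝ | a ≤ t ∧ t ≤ b ∧ Odd (analyticOrderNatAt f (1 / 2 + t * I))}.Finite := by
  by_contra hinf
  have hinf' : {t : ℝ | a ≤ t ∧ t ≤ b ∧ Odd (analyticOrderNatAt f (1 / 2 + t * I))}.Infinite := hinf
  obtain ⟨t0, -, hacc⟩ := hinf'.exists_accPt_of_subset_isCompact (isCompact_Icc (a := a) (b := b))
    (fun g hg => ⟨hg.1, hg.2.1⟩)
  rcases (hf t0).eventually_eq_zero_or_eventually_ne_zero with h | h
  · exact hord t0 (analyticOrderAt_eq_top.mpr h)
  · have hc : Tendsto (fun t : ℝ => (1 / 2 + t * I : ℂ)) (𝓝[≠] t0) (𝓝[≠] (1 / 2 + t0 * I : ℂ)) := by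
      apply tendsto_nhdsWithin_of_tendsto_nhds_of_eventually_within
      · exact (Continuous.tendsto (by fun_prop) t0).mono_left nhdsWithin_le_nhds
      · filter_upwards [self_mem_nhdsWithin] with t ht
        intro h
        apply ht
        have := congrArg Complex.im h
        simpa using this
    have h2 := hc.eventually h
    rw [accPt_iff_frequently] at hacc
    have h3 : ∃ᶠ y in 𝓝[≠] t0, y ∈ {t : ℝ | a ≤ t ∧ t ≤ b ∧ Odd (analyticOrderNatAt f (1 / 2 + t * I))} := by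
      rw [frequently_nhdsWithin_iff]
      exact hacc.mono (fun y hy => ⟨hy.2, hy.1⟩)
    obtain ⟨y, hy, hy2⟩ := (h3.and_eventually h2).exists
    obtain ⟨-, -, hodd⟩ := hy
    apply hy2
    have hne : analyticOrderNatAt f (1 / 2 + y * I) ≠ 0 := by
      intro h0
      rw [h0] at hodd
      exact absurd hodd (by decide)
    exact apply_eq_zero_of_analyticOrderNatAt_ne_zero (f := f) hne

/-- The set counted in the theorem is finite. -/
theorem F_finite3 {q1 q2 : ℕ} [NeZero q1] [NeZero q2] (χ1 : DirichletCharacter ℂ q1) (χ2 : DirichletCharacter ℂ q2)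
    (D T : ℝ) : {g : ℝ | 0 < g ∧ g ≤ T ∧ Odd (analyticOrderNatAt (LX.Lf χ1) (1 / 2 + g * I) +
        analyticOrderNatAt (LX.Lf χ2) (1 / 2 + (g + D : ℝ) * I))}.Finite := by
  have h := F_fin_gen _ (fun t => (F_orders3 χ1 χ2 (-(D / 2)) t).1) (fun t => (F_orders3 χ1 χ2 (-(D / 2)) t).2.1)
    (D / 2) (T + D / 2)
  refine (h.image (fun t => t + -(D / 2))).subset ?_
  rintro g ⟨hg0, hgT, hg⟩
  refine ⟨g + D / 2, ⟨by linarith, by linarith, ?_⟩, by ring⟩
  rw [(F_orders3 χ1 χ2 (-(D / 2)) (g + D / 2)).2.2]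
  have e1 : (g + D / 2 + -(D / 2) : ℝ) = g := by ring
  have e2 : (g + D / 2 - -(D / 2) : ℝ) = g + D := by ring
  rw [e1, e2]
  exact hg

end OO

end

section

/-!
# Sum and integral
-/

open Complex Finset MeasureTheory Filter Topology
open scoped ComplexConjugate

namespace OOK

/-- comparison of a sum and an integral -/
theorem K3_em {φ : ℝ → ℂ} {D : ℕ → ℝ} (hφi : IntegrableOn φ (Set.Ioi (0 : ℝ)))
    (hφs : Summable (fun n : ℕ => φ n)) (hD0 : ∀ n, 0 ≤ D n) (hDs : Summable D)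
    (hD : ∀ n : ℕ, ∀ x ∈ Set.Icc (n : ℝ) (n + 1), ‖φ n - φ x‖ ≤ D n) :
    ‖∑' n : ℕ, φ n - ∫ x in Set.Ioi (0 : ℝ), φ x‖ ≤ ∑' n : ℕ, D n := by
  have hii : ∀ k : ℕ, IntervalIntegrable φ volume (k : ℝ) ((k + 1 : ℕ) : ℝ) := by
    intro k
    rw [intervalIntegrable_iff_integrableOn_Ioc_of_le (by push_cast; linarith)]
    refine hφi.mono_set fun x hx => ?_
    have : (0 : ℝ) ≤ k := Nat.cast_nonneg k
    exact lt_of_le_of_lt this hx.1
  have h1 : Tendsto (fun N : ℕ => ∫ x in (0 : ℝ)..(N : ℝ), φ x) atTop (𝓝 (∫ x in Set.Ioi (0 : ℝ), φ x)) :=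
    intervalIntegral_tendsto_integral_Ioi 0 hφi tendsto_natCast_atTop_atTop
  have h2 : ∀ N : ℕ, ∫ x in (0 : ℝ)..(N : ℝ), φ x = ∑ n ∈ Finset.range N, ∫ x in (n : ℝ)..((n + 1 : ℕ) : ℝ), φ x := by
    intro N
    have := intervalIntegral.sum_integral_adjacent_intervals (f := φ) (μ := volume) (a := fun k : ℕ => (k : ℝ))
      (n := N) (fun k _ => hii k)
    rw [this]
    simp
  have h3 : Tendsto (fun N : ℕ => ∑ n ∈ Finset.range N, φ n) atTop (𝓝 (∑' n : ℕ, φ n)) :=
    hφs.hasSum.tendsto_sum_nat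
  refine le_of_tendsto ((h3.sub h1).norm) (Eventually.of_forall fun N => ?_)
  rw [h2, ← Finset.sum_sub_distrib]
  refine (norm_sum_le _ _).trans ?_
  refine (Finset.sum_le_sum fun n _ => ?_).trans (hDs.sum_le_tsum (Finset.range N) fun n _ => hD0 n)
  have h4 : φ n - ∫ x in (n : ℝ)..((n + 1 : ℕ) : ℝ), φ x = ∫ x in (n : ℝ)..((n + 1 : ℕ) : ℝ), (φ n - φ x) := by
    rw [intervalIntegral.integral_sub intervalIntegrable_const (hii n), intervalIntegral.integral_const]
    push_cast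
    simp
  rw [h4]
  have h5 := intervalIntegral.norm_integral_le_of_norm_le_const (a := (n : ℝ)) (b := ((n + 1 : ℕ) : ℝ))
    (f := fun x => φ n - φ x) (C := D n) (fun x hx => by
      rw [Set.uIoc_of_le (by push_cast; linarith)] at hx
      refine hD n x ⟨hx.1.le, ?_⟩
      have := hx.2
      push_cast at this
      exact this)
  refine h5.trans (le_of_eq ?_)
  push_cast
  simp

/-- a cut-off is continuous on the positive axis -/
theorem Cut3.cont {F F1 F2 : ℝ → ℂ} {B Y : ℝ} (hF : Cut3 F F1 F2 B Y) : ContinuousOn F (Set.Ioi 0) :=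
  fun x hx => (hF.d1 x hx).continuousAt.continuousWithinAt

theorem K3_exp_int {c : ℝ} (hc : 0 < c) : IntegrableOn (fun x : ℝ => Real.exp (-c * x)) (Set.Ioi 0) ∧
    ∫ x in Set.Ioi (0 : ℝ), Real.exp (-c * x) = 1 / c := by
  refine ⟨integrableOn_exp_mul_Ioi (by linarith) 0, ?_⟩
  rw [integral_exp_mul_Ioi (by linarith) 0]
  simp

/-- the twisted divisor integrand -/
theorem K3_psi_zero {F F1 F2 G G1 G2 : ℝ → ℂ} {B Y : ℝ} (hF : Cut3 F F1 F2 B Y) (hG : Cut3 G G1 G2 B Y)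
    {m x : ℝ} (hx : 0 < x) (h : x ≤ Y ∨ m / Y ≤ x) : F x * G (m / x) / x = 0 := by
  have hY : 0 < Y := by linarith [hF.Y2]
  rcases h with h | h
  · rw [hF.zero x h]
    simp
  · have h1 : m / x ≤ Y := by
      rw [div_le_iff₀ hx]
      rw [div_le_iff₀ hY] at h
      linarith
    rw [hG.zero _ h1]
    simp

theorem K3_psi_cont {F F1 F2 G G1 G2 : ℝ → ℂ} {B Y : ℝ} (hF : Cut3 F F1 F2 B Y) (hG : Cut3 G G1 G2 B Y)
    {m : ℝ} (hm : 0 < m) : ContinuousOn (fun x : ℝ => F x * G (m / x) / x) (Set.Ioi 0) := by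
  refine ContinuousOn.div (ContinuousOn.mul hF.cont ?_) (Complex.continuous_ofReal.continuousOn) ?_
  · exact hG.cont.comp (ContinuousOn.div continuousOn_const continuousOn_id fun x hx => ne_of_gt hx)
      fun x hx => div_pos hm hx
  · intro x hx
    exact Complex.ofReal_ne_zero.mpr (ne_of_gt hx)

theorem K3_psi_int {F F1 F2 G G1 G2 : ℝ → ℂ} {B Y : ℝ} (hF : Cut3 F F1 F2 B Y) (hG : Cut3 G G1 G2 B Y)
    {m : ℝ} (hm : 0 < m) : IntegrableOn (fun x : ℝ => F x * G (m / x) / x) (Set.Ioi 0) := by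
  have hY : 0 < Y := by linarith [hF.Y2]
  have h1 : IntegrableOn (fun x : ℝ => F x * G (m / x) / x) (Set.Icc Y (m / Y)) :=
    ((K3_psi_cont hF hG hm).mono fun x hx => lt_of_lt_of_le hY hx.1).integrableOn_Icc
  refine IntegrableOn.of_forall_sdiff_eq_zero h1 measurableSet_Ioi fun x hx => ?_
  have hx0 : 0 < x := hx.1
  refine K3_psi_zero hF hG hx0 ?_
  by_contra hcon
  push Not at hcon
  exact hx.2 ⟨hcon.1.le, hcon.2.le⟩

theorem K3_psi_sum {F F1 F2 G G1 G2 : ℝ → ℂ} {B Y : ℝ} (hF : Cut3 F F1 F2 B Y) (hG : Cut3 G G1 G2 B Y)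
    (m : ℝ) : Summable (fun n : ℕ => F n * G (m / n) / (n : ℂ)) := by
  refine summable_of_ne_finset_zero (s := Finset.range (⌈m / Y⌉₊ + 1)) fun n hn => ?_
  rw [Finset.mem_range, not_lt] at hn
  have h1 : m / Y ≤ n := (Nat.le_ceil _).trans (by exact_mod_cast (by omega : ⌈m / Y⌉₊ ≤ n))
  have hn0 : (0 : ℝ) < n := by exact_mod_cast (by omega : 0 < n)
  exact_mod_cast K3_psi_zero hF hG hn0 (Or.inr h1)

/-- `ψ'(x) = F1(x) G(m/x)/x - F(x) G1(m/x) m/x³ - F(x) G(m/x)/x²` -/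
theorem K3_psi_diff {F F1 F2 G G1 G2 : ℝ → ℂ} {B Y : ℝ} (hF : Cut3 F F1 F2 B Y) (hG : Cut3 G G1 G2 B Y)
    {m : ℝ} (hm : 0 < m) (n : ℕ) {y : ℝ} (hy : y ∈ Set.Icc (n : ℝ) (n + 1)) :
    ‖F n * G (m / n) / ((n : ℝ) : ℂ) - F y * G (m / y) / y‖ ≤
      if 0 < n ∧ Y - 1 < n then 3 * B ^ 2 / (n : ℝ) ^ 2 else 0 := by
  have hY2 := hF.Y2
  have hB : 0 ≤ B := zero_le_one.trans hF.B1
  split_ifs with h
  · have hn : (0 : ℝ) < n := by exact_mod_cast h.1
    have key := (convex_Icc (n : ℝ) (n + 1)).norm_image_sub_le_of_norm_hasDerivWithin_le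
      (f := fun x : ℝ => F x * G (m / x) / x)
      (f' := fun x : ℝ => ((F1 x * G (m / x) + F x * ((-m / x ^ 2 : ℝ) * G1 (m / x))) * x - F x * G (m / x) * 1) / x ^ 2)
      (C := 3 * B ^ 2 / (n : ℝ) ^ 2) (x := y) (y := (n : ℝ))
      (fun x hx => by
        have hx0 : 0 < x := hn.trans_le hx.1
        have e1 : HasDerivAt (fun x : ℝ => m / x) (-m / x ^ 2) x := by
          have := (hasDerivAt_inv hx0.ne').const_mul m
          refine (this.congr_deriv ?_)
          field_simp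
        have e2 := HasDerivAt.scomp x (hG.d1 _ (div_pos hm hx0)) e1
        rw [Complex.real_smul] at e2
        have e3 := (hF.d1 x hx0).mul e2
        have e4 : HasDerivAt (fun x : ℝ => (x : ℂ)) 1 x := Complex.ofRealCLM.hasDerivAt
        exact (e3.div e4 (Complex.ofReal_ne_zero.mpr hx0.ne')).hasDerivWithinAt)
      (fun x hx => by
        have hx0 : 0 < x := hn.trans_le hx.1
        have hmx : 0 < m / x := div_pos hm hx0
        have b0 : ‖F x‖ ≤ B := hF.bd0 x
        have b1 : ‖F1 x‖ ≤ B / x := hF.bd1 x hx0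
        have c0 : ‖G (m / x)‖ ≤ B := hG.bd0 _
        have c1 : ‖G1 (m / x)‖ ≤ B / (m / x) := hG.bd1 _ hmx
        have nx : ‖(x : ℂ)‖ = x := by rw [Complex.norm_real, Real.norm_eq_abs, abs_of_pos hx0]
        have n1 : ‖F1 x * G (m / x)‖ ≤ B ^ 2 / x := by
          rw [norm_mul]
          calc ‖F1 x‖ * ‖G (m / x)‖ ≤ B / x * B := mul_le_mul b1 c0 (norm_nonneg _) (by positivity)
            _ = B ^ 2 / x := by ring
        have n2 : ‖F x * ((-m / x ^ 2 : ℝ) * G1 (m / x))‖ ≤ B ^ 2 / x := by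
          rw [norm_mul, norm_mul, Complex.norm_real, Real.norm_eq_abs, neg_div, abs_neg, abs_of_pos (by positivity)]
          calc ‖F x‖ * (m / x ^ 2 * ‖G1 (m / x)‖) ≤ B * (m / x ^ 2 * (B / (m / x))) := by
                refine mul_le_mul b0 (mul_le_mul_of_nonneg_left c1 (by positivity)) (by positivity) hB
            _ = B ^ 2 / x := by field_simp
        have n3 : ‖F x * G (m / x)‖ ≤ B ^ 2 := by
          rw [norm_mul, sq]
          exact mul_le_mul b0 c0 (norm_nonneg _) hB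
        rw [norm_div, norm_pow, nx]
        have n4 : ‖(F1 x * G (m / x) + F x * ((-m / x ^ 2 : ℝ) * G1 (m / x))) * x - F x * G (m / x) * 1‖ ≤ 3 * B ^ 2 := by
          refine (norm_sub_le _ _).trans ?_
          rw [norm_mul, nx, mul_one]
          have n5 := (norm_add_le (F1 x * G (m / x)) (F x * ((-m / x ^ 2 : ℝ) * G1 (m / x)))).trans (add_le_add n1 n2)
          have n6 := mul_le_mul_of_nonneg_right n5 hx0.le
          have n7 : (B ^ 2 / x + B ^ 2 / x) * x = 2 * B ^ 2 := by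
            field_simp
            ring
          rw [n7] at n6
          linarith only [n6, n3]
        refine (div_le_div_of_nonneg_right n4 (by positivity)).trans ?_
        refine div_le_div_of_nonneg_left (by positivity) (by positivity) ?_
        exact pow_le_pow_left₀ hn.le hx.1 2)
      hy (Set.left_mem_Icc.2 (by linarith))
    refine key.trans ?_
    have h1 : ‖(n : ℝ) - y‖ ≤ 1 := by
      rw [Real.norm_eq_abs, abs_le]
      constructor <;> linarith [hy.1, hy.2]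
    exact mul_le_of_le_one_right (by positivity) h1
  · have h1 : (n : ℝ) + 1 ≤ Y := by
      by_contra hcon
      push Not at hcon
      apply h
      refine ⟨?_, by linarith⟩
      rcases Nat.eq_zero_or_pos n with h2 | h2
      · rw [h2, Nat.cast_zero] at hcon
        linarith
      · exact h2
    rw [hF.zero n (by linarith), hF.zero y (by linarith [hy.2])]
    simp

/-- the trivial bound of the twisted divisor integral -/
theorem K3_J_le {F F1 F2 G G1 G2 : ℝ → ℂ} {B Y Y' : ℝ} (hF : Cut3 F F1 F2 B Y) (hG : Cut3 G G1 G2 B Y)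
    (hYY : Y ≤ Y') {m : ℝ} (hm : 0 < m) (hm2 : m ≤ Y' ^ 2) : ‖J3 F G m‖ ≤ 2 * B ^ 2 * Real.log Y' := by
  have hY2 := hF.Y2
  have hY : 0 < Y := by linarith
  have hY' : 0 < Y' := by linarith
  have hB : 0 ≤ B := zero_le_one.trans hF.B1
  have hlog : 0 ≤ Real.log Y' := Real.log_nonneg (by linarith)
  unfold J3
  rcases le_total (m / Y) Y with h | h
  · rw [setIntegral_congr_fun (g := fun _ => (0 : ℂ)) measurableSet_Ioi fun x hx => ?_]
    · simp only [integral_zero, norm_zero]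
      positivity
    · refine K3_psi_zero hF hG hx ?_
      by_contra hcon
      push Not at hcon
      linarith [hcon.1, hcon.2]
  · have h1 : ∫ x in Set.Ioi (0 : ℝ), F x * G (m / x) / x = ∫ x in Set.Ioc Y (m / Y), F x * G (m / x) / x := by
      have hsub : Set.Ioc Y (m / Y) ⊆ Set.Ioi 0 := fun x hx => lt_trans hY hx.1
      apply setIntegral_eq_of_subset_of_forall_sdiff_eq_zero measurableSet_Ioi hsub
      intro x hx
      have hx0 : 0 < x := hx.1
      refine K3_psi_zero hF hG hx0 ?_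
      by_contra hcon
      push Not at hcon
      exact hx.2 ⟨hcon.1, hcon.2.le⟩
    rw [h1, ← intervalIntegral.integral_of_le h]
    have h2 : ‖∫ x in Y..(m / Y), F x * G (m / x) / x‖ ≤ ∫ x in Y..(m / Y), B ^ 2 * (1 / x) := by
      refine intervalIntegral.norm_integral_le_of_norm_le h (Eventually.of_forall fun x hx => ?_) ?_
      · have hx0 : 0 < x := lt_trans hY hx.1
        rw [norm_div, norm_mul, Complex.norm_real, Real.norm_eq_abs, abs_of_pos hx0, mul_one_div]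
        refine div_le_div_of_nonneg_right ?_ hx0.le
        rw [sq]
        exact mul_le_mul (hF.bd0 _) (hG.bd0 _) (norm_nonneg _) hB
      · refine (ContinuousOn.intervalIntegrable ?_)
        rw [Set.uIcc_of_le h]
        refine ContinuousOn.mul continuousOn_const (ContinuousOn.div continuousOn_const continuousOn_id ?_)
        intro x hx
        exact (lt_of_lt_of_le hY hx.1).ne'
    refine h2.trans ?_
    have hmY : 0 < m / Y := by positivity
    rw [intervalIntegral.integral_const_mul, integral_one_div_of_pos hY hmY]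
    have h3 : Real.log (m / Y / Y) ≤ 2 * Real.log Y' := by
      rw [show (2 : ℝ) * Real.log Y' = Real.log (Y' ^ 2) by rw [Real.log_pow]; norm_num]
      refine Real.log_le_log (by positivity) ?_
      rw [div_div, div_le_iff₀ (by positivity)]
      have h4 : (1 : ℝ) ≤ Y * Y := by nlinarith
      calc m ≤ Y' ^ 2 := hm2
        _ ≤ Y' ^ 2 * (Y * Y) := le_mul_of_one_le_right (by positivity) h4
    calc B ^ 2 * Real.log (m / Y / Y) ≤ B ^ 2 * (2 * Real.log Y') := mul_le_mul_of_nonneg_left h3 (by positivity)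
      _ = _ := by ring

end OOK

end

section

/-!
# Differences of Φ
-/

open Complex Finset
open scoped ComplexConjugate

namespace OOK

/-- The real form of `Φ`. -/
noncomputable def K3_G (F G H : ℝ → ℂ) (b r x y : ℝ) : ℂ := F x * G y * H (b * (x * y) + r)

/-- The derivative in `y`. -/
noncomputable def K3_Gy (F G G1 H H1 : ℝ → ℂ) (b r x y : ℝ) : ℂ :=
  F x * G1 y * H (b * (x * y) + r) + F x * G y * ((b * x : ℝ) * H1 (b * (x * y) + r))

/-- The mixed derivative. -/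
noncomputable def K3_Gxy (F F1 G G1 H H1 H2 : ℝ → ℂ) (b r x y : ℝ) : ℂ :=
  F1 x * G1 y * H (b * (x * y) + r) + F x * G1 y * ((b * y : ℝ) * H1 (b * (x * y) + r)) +
    (F1 x * G y * ((b * x : ℝ) * H1 (b * (x * y) + r)) + F x * G y * (b * H1 (b * (x * y) + r)) +
    F x * G y * ((b * x : ℝ) * ((b * y : ℝ) * H2 (b * (x * y) + r))))

lemma K3_comp_y {H H1 : ℝ → ℂ} {b r x y : ℝ}
    (hH : HasDerivAt H (H1 (b * (x * y) + r)) (b * (x * y) + r)) :
    HasDerivAt (fun y : ℝ => H (b * (x * y) + r)) ((b * x : ℝ) * H1 (b * (x * y) + r)) y := by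
  have h1 : HasDerivAt (fun y : ℝ => b * (x * y) + r) (b * x) y := by
    have h2 := (((hasDerivAt_id y).const_mul x).const_mul b).add_const r
    simpa using h2
  have h3 := HasDerivAt.scomp y hH h1
  rw [Complex.real_smul] at h3
  exact h3

lemma K3_comp_x {H H1 : ℝ → ℂ} {b r x y : ℝ}
    (hH : HasDerivAt H (H1 (b * (x * y) + r)) (b * (x * y) + r)) :
    HasDerivAt (fun x : ℝ => H (b * (x * y) + r)) ((b * y : ℝ) * H1 (b * (x * y) + r)) x := by
  have h1 : HasDerivAt (fun x : ℝ => b * (x * y) + r) (b * y) x := by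
    have h2 := (((hasDerivAt_id x).mul_const y).const_mul b).add_const r
    simpa using h2
  have h3 := HasDerivAt.scomp x hH h1
  rw [Complex.real_smul] at h3
  exact h3

lemma K3_dy {F G G1 G2 : ℝ → ℂ} {B Y : ℝ} (hG : Cut3 G G1 G2 B Y) {H H1 : ℝ → ℂ} {b r x y : ℝ}
    (hy : 0 < y) (hH : HasDerivAt H (H1 (b * (x * y) + r)) (b * (x * y) + r)) :
    HasDerivAt (fun y : ℝ => K3_G F G H b r x y) (K3_Gy F G G1 H H1 b r x y) y :=
  ((hG.d1 y hy).const_mul (F x)).mul (K3_comp_y hH)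

lemma K3_dx {F F1 F2 G G1 : ℝ → ℂ} {B Y : ℝ} (hF : Cut3 F F1 F2 B Y) {H H1 H2 : ℝ → ℂ} {b r x y : ℝ}
    (hx : 0 < x) (hH : HasDerivAt H (H1 (b * (x * y) + r)) (b * (x * y) + r))
    (hH1 : HasDerivAt H1 (H2 (b * (x * y) + r)) (b * (x * y) + r)) :
    HasDerivAt (fun x : ℝ => K3_Gy F G G1 H H1 b r x y) (K3_Gxy F F1 G G1 H H1 H2 b r x y) x := by
  have h1 := (hF.d1 x hx).mul_const (G1 y)
  have h2 := h1.mul (K3_comp_x hH)
  have h3 := (hF.d1 x hx).mul_const (G y)
  have h4 : HasDerivAt (fun x : ℝ => ((b * x : ℝ) : ℂ)) (b : ℂ) x := by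
    have h5 : HasDerivAt (fun x : ℝ => b * x) b x := by
      simpa using (hasDerivAt_id x).const_mul b
    exact h5.ofReal_comp
  have h6 := h4.mul (K3_comp_x hH1)
  have h7 := h3.mul h6
  have h8 := h2.add h7
  refine h8.congr_deriv ?_
  unfold K3_Gxy
  simp only [Pi.mul_apply]
  push_cast
  ring

/-- The bounds at the point `m = b x y + r`. -/
lemma K3_pt {B ρ b r x y s t : ℝ} (hb : 0 < b) (hr : 0 < r) (hs : 0 < s) (hsx : s ≤ x)
    (ht : 0 < t) (hty : t ≤ y) (hB : 0 ≤ B) {H H1 H2 : ℝ → ℂ} (hH : Ker3 H H1 H2 B ρ) :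
    ‖H (b * (x * y) + r)‖ ≤ B * Real.exp (-ρ * b * (s * t) / 2) ∧
      ‖((b * x : ℝ) : ℂ) * H1 (b * (x * y) + r)‖ ≤ 5 * B / t * Real.exp (-ρ * b * (s * t) / 2) ∧
      ‖((b * y : ℝ) : ℂ) * H1 (b * (x * y) + r)‖ ≤ 5 * B / s * Real.exp (-ρ * b * (s * t) / 2) ∧
      ‖(b : ℂ) * H1 (b * (x * y) + r)‖ ≤ 5 * B / (s * t) * Real.exp (-ρ * b * (s * t) / 2) ∧
      ‖((b * x : ℝ) : ℂ) * (((b * y : ℝ) : ℂ) * H2 (b * (x * y) + r))‖ ≤
        12 * B / (s * t) * Real.exp (-ρ * b * (s * t) / 2) := by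
  have hρ := hH.ρ0
  have hx : 0 < x := hs.trans_le hsx
  have hy : 0 < y := ht.trans_le hty
  set m := b * (x * y) + r with hm
  have hm1 : b * (x * y) ≤ m := by rw [hm]; linarith only [hr]
  have hst : s * t ≤ x * y := mul_le_mul hsx hty ht.le hx.le
  have hm2 : b * (s * t) ≤ m := (mul_le_mul_of_nonneg_left hst hb.le).trans hm1
  have hm0 : 0 < m := by
    have : 0 < b * (x * y) := by positivity
    linarith only [hm1, this]
  have h0 := hH.b0 m hm0
  have h1 := hH.b1 m hm0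
  have h2 := hH.b2 m hm0
  set E := Real.exp (-ρ * b * (s * t) / 2) with hE
  have hEpos : 0 < E := Real.exp_pos _
  have hρm : ρ * (b * (s * t)) ≤ ρ * m := mul_le_mul_of_nonneg_left hm2 hρ.le
  have e1 : Real.exp (-ρ * m / 2) ≤ E := by
    rw [hE]
    apply Real.exp_le_exp.2
    linarith only [hρm]
  have e0 : Real.exp (-ρ * m) ≤ E := by
    refine le_trans ?_ e1
    apply Real.exp_le_exp.2
    have : 0 < ρ * m := by positivity
    linarith only [this]
  have hxm : b * x / m ≤ 1 / t := by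
    rw [div_le_div_iff₀ hm0 ht]
    have h3 : x * t ≤ x * y := mul_le_mul_of_nonneg_left hty hx.le
    have h4 : b * (x * t) ≤ b * (x * y) := mul_le_mul_of_nonneg_left h3 hb.le
    linarith only [hm1, h4]
  have hym : b * y / m ≤ 1 / s := by
    rw [div_le_div_iff₀ hm0 hs]
    have h3 : s * y ≤ x * y := mul_le_mul_of_nonneg_right hsx hy.le
    have h4 : b * (s * y) ≤ b * (x * y) := mul_le_mul_of_nonneg_left h3 hb.le
    linarith only [hm1, h4]
  have hbm : b / m ≤ 1 / (s * t) := by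
    rw [div_le_div_iff₀ hm0 (by positivity)]
    linarith only [hm2]
  have hE' := hEpos.le
  refine ⟨h0.trans (mul_le_mul_of_nonneg_left e0 hB), ?_, ?_, ?_, ?_⟩
  · rw [norm_mul, Complex.norm_real, Real.norm_eq_abs, abs_of_nonneg (by positivity)]
    calc b * x * ‖H1 m‖ ≤ b * x * (5 * B / m * E) := by
          refine mul_le_mul_of_nonneg_left (h1.trans ?_) (by positivity)
          exact mul_le_mul_of_nonneg_left e1 (by positivity)
      _ = (b * x / m) * (5 * B * E) := by ring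
      _ ≤ (1 / t) * (5 * B * E) := mul_le_mul_of_nonneg_right hxm (by positivity)
      _ = 5 * B / t * E := by ring
  · rw [norm_mul, Complex.norm_real, Real.norm_eq_abs, abs_of_nonneg (by positivity)]
    calc b * y * ‖H1 m‖ ≤ b * y * (5 * B / m * E) := by
          refine mul_le_mul_of_nonneg_left (h1.trans ?_) (by positivity)
          exact mul_le_mul_of_nonneg_left e1 (by positivity)
      _ = (b * y / m) * (5 * B * E) := by ring
      _ ≤ (1 / s) * (5 * B * E) := mul_le_mul_of_nonneg_right hym (by positivity)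
      _ = 5 * B / s * E := by ring
  · rw [norm_mul, Complex.norm_real, Real.norm_eq_abs, abs_of_nonneg hb.le]
    calc b * ‖H1 m‖ ≤ b * (5 * B / m * E) := by
          refine mul_le_mul_of_nonneg_left (h1.trans ?_) (by positivity)
          exact mul_le_mul_of_nonneg_left e1 (by positivity)
      _ = (b / m) * (5 * B * E) := by ring
      _ ≤ (1 / (s * t)) * (5 * B * E) := mul_le_mul_of_nonneg_right hbm (by positivity)
      _ = 5 * B / (s * t) * E := by ring
  · rw [norm_mul, norm_mul, Complex.norm_real, Complex.norm_real, Real.norm_eq_abs, Real.norm_eq_abs,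
      abs_of_nonneg (by positivity), abs_of_nonneg (by positivity)]
    calc b * x * (b * y * ‖H2 m‖) ≤ b * x * (b * y * (12 * B / m ^ 2 * E)) := by
          refine mul_le_mul_of_nonneg_left (mul_le_mul_of_nonneg_left (h2.trans ?_) (by positivity))
            (by positivity)
          exact mul_le_mul_of_nonneg_left e1 (by positivity)
      _ = (b * x / m) * (b * y / m) * (12 * B * E) := by
          field_simp
      _ ≤ (1 / t) * (1 / s) * (12 * B * E) := by
          refine mul_le_mul_of_nonneg_right ?_ (by positivity)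
          exact mul_le_mul hxm hym (by positivity) (by positivity)
      _ = 12 * B / (s * t) * E := by
          field_simp

lemma K3_Gy_le {F F1 F2 G G1 G2 : ℝ → ℂ} {B Y : ℝ} (hF : Cut3 F F1 F2 B Y) (hG : Cut3 G G1 G2 B Y)
    {ρ b r x y s t : ℝ} (hb : 0 < b) (hr : 0 < r) (hs : 0 < s) (hsx : s ≤ x)
    (ht : 0 < t) (hty : t ≤ y) {H H1 H2 : ℝ → ℂ} (hH : Ker3 H H1 H2 B ρ) :
    ‖K3_Gy F G G1 H H1 b r x y‖ ≤ 6 * B ^ 3 / t * Real.exp (-ρ * b * (s * t) / 2) := by
  have hB : 0 ≤ B := zero_le_one.trans hF.B1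
  obtain ⟨h0, h1, -, -, -⟩ := K3_pt hb hr hs hsx ht hty hB hH
  set E := Real.exp (-ρ * b * (s * t) / 2) with hE
  have hEpos : 0 < E := Real.exp_pos _
  have hy : 0 < y := ht.trans_le hty
  have hfx : ‖F x‖ ≤ B := hF.bd0 x
  have hfy : ‖G y‖ ≤ B := hG.bd0 y
  have hf1y : ‖G1 y‖ ≤ B / t := (hG.bd1 y hy).trans (div_le_div_of_nonneg_left hB ht hty)
  unfold K3_Gy
  refine (norm_add_le _ _).trans ?_
  rw [norm_mul (F x * G1 y), norm_mul (F x) (G1 y), norm_mul (F x * G y), norm_mul (F x) (G y)]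
  have k1 : ‖F x‖ * ‖G1 y‖ * ‖H (b * (x * y) + r)‖ ≤ B * (B / t) * (B * E) :=
    mul_le_mul (mul_le_mul hfx hf1y (norm_nonneg _) hB) h0 (norm_nonneg _) (by positivity)
  have k2 : ‖F x‖ * ‖G y‖ * ‖((b * x : ℝ) : ℂ) * H1 (b * (x * y) + r)‖ ≤
      B * B * (5 * B / t * E) :=
    mul_le_mul (mul_le_mul hfx hfy (norm_nonneg _) hB) h1 (norm_nonneg _) (by positivity)
  calc _ ≤ B * (B / t) * (B * E) + B * B * (5 * B / t * E) := add_le_add k1 k2
    _ = 6 * B ^ 3 / t * E := by ring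

lemma K3_Gxy_le {F F1 F2 G G1 G2 : ℝ → ℂ} {B Y : ℝ} (hF : Cut3 F F1 F2 B Y) (hG : Cut3 G G1 G2 B Y)
    {ρ b r x y s t : ℝ} (hb : 0 < b) (hr : 0 < r) (hs : 0 < s) (hsx : s ≤ x)
    (ht : 0 < t) (hty : t ≤ y) {H H1 H2 : ℝ → ℂ} (hH : Ker3 H H1 H2 B ρ) :
    ‖K3_Gxy F F1 G G1 H H1 H2 b r x y‖ ≤ 28 * B ^ 3 / (s * t) * Real.exp (-ρ * b * (s * t) / 2) := by
  have hB : 0 ≤ B := zero_le_one.trans hF.B1
  obtain ⟨h0, h1, h2, h3, h4⟩ := K3_pt hb hr hs hsx ht hty hB hH
  set E := Real.exp (-ρ * b * (s * t) / 2) with hE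
  have hEpos : 0 < E := Real.exp_pos _
  have hx : 0 < x := hs.trans_le hsx
  have hy : 0 < y := ht.trans_le hty
  have hfx : ‖F x‖ ≤ B := hF.bd0 x
  have hfy : ‖G y‖ ≤ B := hG.bd0 y
  have hf1y : ‖G1 y‖ ≤ B / t := (hG.bd1 y hy).trans (div_le_div_of_nonneg_left hB ht hty)
  have hf1x : ‖F1 x‖ ≤ B / s := (hF.bd1 x hx).trans (div_le_div_of_nonneg_left hB hs hsx)
  unfold K3_Gxy
  refine (norm_add_le _ _).trans ?_
  have n1 : ∀ u v w : ℂ, ‖u * v * w‖ = ‖u‖ * ‖v‖ * ‖w‖ := fun u v w => by rw [norm_mul, norm_mul]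
  have k1 : ‖F1 x * G1 y * H (b * (x * y) + r)‖ ≤ (B / s) * (B / t) * (B * E) := by
    rw [n1]
    exact mul_le_mul (mul_le_mul hf1x hf1y (norm_nonneg _) (by positivity)) h0 (norm_nonneg _)
      (by positivity)
  have k2 : ‖F x * G1 y * (((b * y : ℝ) : ℂ) * H1 (b * (x * y) + r))‖ ≤
      B * (B / t) * (5 * B / s * E) := by
    rw [n1]
    exact mul_le_mul (mul_le_mul hfx hf1y (norm_nonneg _) (by positivity)) h2 (norm_nonneg _)
      (by positivity)
  have k3 : ‖F1 x * G y * (((b * x : ℝ) : ℂ) * H1 (b * (x * y) + r))‖ ≤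
      (B / s) * B * (5 * B / t * E) := by
    rw [n1]
    exact mul_le_mul (mul_le_mul hf1x hfy (norm_nonneg _) (by positivity)) h1 (norm_nonneg _)
      (by positivity)
  have k4 : ‖F x * G y * ((b : ℂ) * H1 (b * (x * y) + r))‖ ≤
      B * B * (5 * B / (s * t) * E) := by
    rw [n1]
    exact mul_le_mul (mul_le_mul hfx hfy (norm_nonneg _) (by positivity)) h3 (norm_nonneg _)
      (by positivity)
  have k5 : ‖F x * G y *
      (((b * x : ℝ) : ℂ) * (((b * y : ℝ) : ℂ) * H2 (b * (x * y) + r)))‖ ≤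
      B * B * (12 * B / (s * t) * E) := by
    rw [n1]
    exact mul_le_mul (mul_le_mul hfx hfy (norm_nonneg _) (by positivity)) h4 (norm_nonneg _)
      (by positivity)
  have g1 := (norm_add_le (F1 x * G1 y * H (b * (x * y) + r))
    (F x * G1 y * (((b * y : ℝ) : ℂ) * H1 (b * (x * y) + r))))
  have g2 := (norm_add₃_le (a := F1 x * G y * (((b * x : ℝ) : ℂ) * H1 (b * (x * y) + r)))
    (b := F x * G y * ((b : ℂ) * H1 (b * (x * y) + r)))
    (c := F x * G y * (((b * x : ℝ) : ℂ) * (((b * y : ℝ) : ℂ) * H2 (b * (x * y) + r)))))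
  calc _ ≤ ((B / s) * (B / t) * (B * E) + B * (B / t) * (5 * B / s * E)) +
      ((B / s) * B * (5 * B / t * E) + B * B * (5 * B / (s * t) * E) +
        B * B * (12 * B / (s * t) * E)) :=
        add_le_add (g1.trans (add_le_add k1 k2)) (g2.trans (add_le_add (add_le_add k3 k4) k5))
    _ = 28 * B ^ 3 / (s * t) * E := by
        field_simp
        ring

/-- `|Φ(s, t)| ≤ B³ e^(-ρ b s t)`, and `Φ = 0` if a variable is `0`. -/
theorem norm_Phi3_le {F F1 F2 G G1 G2 : ℝ → ℂ} {B Y : ℝ} (hF : Cut3 F F1 F2 B Y) (hG : Cut3 G G1 G2 B Y)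
    {ρ : ℝ} {H H1 H2 : ℝ → ℂ} (hH : Ker3 H H1 H2 B ρ) {b r : ℕ} (hb : 0 < b) (hr : 0 < r) (s t : ℕ) :
    ‖Phi3 F G H b r s t‖ ≤ if 0 < s ∧ 0 < t then B ^ 3 * Real.exp (-ρ * b * (s * t)) else 0 := by
  have hB : 0 ≤ B := zero_le_one.trans hF.B1
  have hρ := hH.ρ0
  have hY2 := hF.Y2
  have hF0 : F 0 = 0 := hF.zero 0 (by linarith only [hY2])
  have hG0 : G 0 = 0 := hG.zero 0 (by linarith only [hY2])
  split_ifs with h
  · have hb' : (0 : ℝ) < b := by exact_mod_cast hb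
    have hr' : (0 : ℝ) < r := by exact_mod_cast hr
    have hm : (0 : ℝ) < b * (s * t) + r := by positivity
    have h3 := hH.b0 _ hm
    unfold Phi3
    rw [norm_mul, norm_mul]
    have h4 : Real.exp (-ρ * (b * (s * t) + r)) ≤ Real.exp (-ρ * b * (s * t)) := by
      apply Real.exp_le_exp.2
      have : 0 < ρ * r := by positivity
      linarith only [this]
    calc ‖F s‖ * ‖G t‖ * ‖H (b * (s * t) + r)‖
        ≤ B * B * (B * Real.exp (-ρ * b * (s * t))) := by
          refine mul_le_mul (mul_le_mul (hF.bd0 _) (hG.bd0 _) (norm_nonneg _) hB)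
            (h3.trans (mul_le_mul_of_nonneg_left h4 hB)) (norm_nonneg _) (by positivity)
      _ = B ^ 3 * Real.exp (-ρ * b * (s * t)) := by ring
  · have h1 : s = 0 ∨ t = 0 := by omega
    unfold Phi3
    rcases h1 with h1 | h1
    · rw [h1, Nat.cast_zero, hF0]
      simp
    · rw [h1, Nat.cast_zero, hG0]
      simp

lemma K3_Phi_eq (F G H : ℝ → ℂ) (b r s t : ℕ) :
    Phi3 F G H b r s t = K3_G F G H b r s t := rfl

/-- `Φ = 0` if the second variable is at most `Y`. -/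
lemma K3_Phi_zero (F H : ℝ → ℂ) {G G1 G2 : ℝ → ℂ} {B Y : ℝ} (hG : Cut3 G G1 G2 B Y) (b r s t : ℕ)
    (h : (t : ℝ) ≤ Y) : Phi3 F G H b r s t = 0 := by
  unfold Phi3
  rw [hG.zero t h]
  simp

lemma K3_Phi_symm (F G H : ℝ → ℂ) (b r s t : ℕ) :
    Phi3 F G H b r s t = Phi3 G F H b r t s := by
  unfold Phi3
  rw [mul_comm (F s), mul_comm (s : ℝ)]

theorem norm_D2_le3 {F F1 F2 G G1 G2 : ℝ → ℂ} {B Y : ℝ} (hF : Cut3 F F1 F2 B Y) (hG : Cut3 G G1 G2 B Y)
    {ρ : ℝ} {H H1 H2 : ℝ → ℂ} (hH : Ker3 H H1 H2 B ρ) {b r : ℕ} (hb : 0 < b) (hr : 0 < r) (s t : ℕ) :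
    ‖Phi3 F G H b r s (t + 1) - Phi3 F G H b r s t‖ ≤
      if 0 < s ∧ 0 < t ∧ Y - 1 < t then 6 * B ^ 3 / t * Real.exp (-ρ * b * (s * t) / 2) else 0 := by
  have hY := hF.Y2
  split_ifs with h
  · obtain ⟨hs, ht, -⟩ := h
    have hb' : (0 : ℝ) < b := by exact_mod_cast hb
    have hr' : (0 : ℝ) < r := by exact_mod_cast hr
    have hs' : (0 : ℝ) < s := by exact_mod_cast hs
    have ht' : (0 : ℝ) < t := by exact_mod_cast ht
    have key := (convex_Icc (t : ℝ) (t + 1)).norm_image_sub_le_of_norm_hasDerivWithin_le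
      (f := fun y : ℝ => K3_G F G H b r s y)
      (f' := fun y : ℝ => K3_Gy F G G1 H H1 b r s y)
      (C := 6 * B ^ 3 / t * Real.exp (-ρ * b * (s * t) / 2)) (x := (t : ℝ)) (y := (t : ℝ) + 1)
      (fun y hy => by
        have hy0 : 0 < y := ht'.trans_le hy.1
        have hm : (0 : ℝ) < b * (s * y) + r := by positivity
        exact (K3_dy hG hy0 (hH.d1 _ hm)).hasDerivWithinAt)
      (fun y hy => K3_Gy_le hF hG hb' hr' hs' le_rfl ht' hy.1 hH)
      (Set.left_mem_Icc.2 (by linarith only [ht'])) (Set.right_mem_Icc.2 (by linarith only [ht']))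
    rw [add_sub_cancel_left, norm_one, mul_one] at key
    rw [K3_Phi_eq, K3_Phi_eq, Nat.cast_add, Nat.cast_one]
    exact key
  · have h1 : s = 0 ∨ (t : ℝ) + 1 ≤ Y := by
      by_contra hcon
      push Not at hcon
      apply h
      refine ⟨Nat.pos_of_ne_zero hcon.1, ?_, by linarith⟩
      rcases Nat.eq_zero_or_pos t with h2 | h2
      · rw [h2, Nat.cast_zero] at hcon
        linarith [hcon.2]
      · exact h2
    rcases h1 with h1 | h1
    · rw [K3_Phi_symm, K3_Phi_symm F G H b r s t, K3_Phi_zero G H hF b r (t + 1) s (by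
        rw [h1, Nat.cast_zero]; linarith only [hY]), K3_Phi_zero G H hF b r t s (by
        rw [h1, Nat.cast_zero]; linarith only [hY])]
      simp
    · rw [K3_Phi_zero F H hG b r s (t + 1) (by push_cast; exact h1),
        K3_Phi_zero F H hG b r s t (by linarith only [h1])]
      simp

theorem norm_D1_le3 {F F1 F2 G G1 G2 : ℝ → ℂ} {B Y : ℝ} (hF : Cut3 F F1 F2 B Y) (hG : Cut3 G G1 G2 B Y)
    {ρ : ℝ} {H H1 H2 : ℝ → ℂ} (hH : Ker3 H H1 H2 B ρ) {b r : ℕ} (hb : 0 < b) (hr : 0 < r) (s t : ℕ) :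
    ‖Phi3 F G H b r (s + 1) t - Phi3 F G H b r s t‖ ≤
      if 0 < t ∧ 0 < s ∧ Y - 1 < s then 6 * B ^ 3 / s * Real.exp (-ρ * b * (t * s) / 2) else 0 := by
  rw [K3_Phi_symm F G H b r (s + 1) t, K3_Phi_symm F G H b r s t]
  exact norm_D2_le3 hG hF hH hb hr t s

theorem norm_D12_le3 {F F1 F2 G G1 G2 : ℝ → ℂ} {B Y : ℝ} (hF : Cut3 F F1 F2 B Y) (hG : Cut3 G G1 G2 B Y)
    {ρ : ℝ} {H H1 H2 : ℝ → ℂ} (hH : Ker3 H H1 H2 B ρ) {b r : ℕ} (hb : 0 < b) (hr : 0 < r) (s t : ℕ) :
    ‖Phi3 F G H b r (s + 1) (t + 1) - Phi3 F G H b r (s + 1) t - Phi3 F G H b r s (t + 1) +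
      Phi3 F G H b r s t‖ ≤
      if 0 < s ∧ 0 < t then 28 * B ^ 3 / (s * t) * Real.exp (-ρ * b * (s * t) / 2) else 0 := by
  have hY := hF.Y2
  split_ifs with h
  · obtain ⟨hs, ht⟩ := h
    have hb' : (0 : ℝ) < b := by exact_mod_cast hb
    have hr' : (0 : ℝ) < r := by exact_mod_cast hr
    have hs' : (0 : ℝ) < s := by exact_mod_cast hs
    have ht' : (0 : ℝ) < t := by exact_mod_cast ht
    have inner : ∀ y ∈ Set.Icc (t : ℝ) (t + 1),
        ‖K3_Gy F G G1 H H1 b r ((s : ℝ) + 1) y - K3_Gy F G G1 H H1 b r s y‖ ≤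
          28 * B ^ 3 / (s * t) * Real.exp (-ρ * b * (s * t) / 2) := by
      intro y hy
      have hy0 : 0 < y := ht'.trans_le hy.1
      have key := (convex_Icc (s : ℝ) (s + 1)).norm_image_sub_le_of_norm_hasDerivWithin_le
        (f := fun x : ℝ => K3_Gy F G G1 H H1 b r x y)
        (f' := fun x : ℝ => K3_Gxy F F1 G G1 H H1 H2 b r x y)
        (C := 28 * B ^ 3 / (s * t) * Real.exp (-ρ * b * (s * t) / 2)) (x := (s : ℝ))
        (y := (s : ℝ) + 1)
        (fun x hx => by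
          have hx0 : 0 < x := hs'.trans_le hx.1
          have hm : (0 : ℝ) < b * (x * y) + r := by positivity
          exact (K3_dx hF hx0 (hH.d1 _ hm) (hH.d2 _ hm)).hasDerivWithinAt)
        (fun x hx => K3_Gxy_le hF hG hb' hr' hs' hx.1 ht' hy.1 hH)
        (Set.left_mem_Icc.2 (by linarith only [hy0])) (Set.right_mem_Icc.2 (by linarith only [hy0]))
      rw [add_sub_cancel_left, norm_one, mul_one] at key
      exact key
    have key := (convex_Icc (t : ℝ) (t + 1)).norm_image_sub_le_of_norm_hasDerivWithin_le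
      (f := fun y : ℝ => K3_G F G H b r ((s : ℝ) + 1) y - K3_G F G H b r s y)
      (f' := fun y : ℝ => K3_Gy F G G1 H H1 b r ((s : ℝ) + 1) y - K3_Gy F G G1 H H1 b r s y)
      (C := 28 * B ^ 3 / (s * t) * Real.exp (-ρ * b * (s * t) / 2)) (x := (t : ℝ))
      (y := (t : ℝ) + 1)
      (fun y hy => by
        have hy0 : 0 < y := ht'.trans_le hy.1
        have hm : (0 : ℝ) < b * (s * y) + r := by positivity
        have hm' : (0 : ℝ) < b * (((s : ℝ) + 1) * y) + r := by positivity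
        exact ((K3_dy hG hy0 (hH.d1 _ hm')).sub (K3_dy hG hy0 (hH.d1 _ hm))).hasDerivWithinAt)
      inner
      (Set.left_mem_Icc.2 (by linarith only [ht'])) (Set.right_mem_Icc.2 (by linarith only [ht']))
    rw [add_sub_cancel_left, norm_one, mul_one] at key
    rw [K3_Phi_eq, K3_Phi_eq, K3_Phi_eq, K3_Phi_eq]
    push_cast
    refine le_trans (le_of_eq ?_) key
    congr 1
    ring
  · have h1 : s = 0 ∨ t = 0 := by omega
    rcases h1 with h1 | h1
    · have e1 : ∀ t' : ℕ, Phi3 F G H b r s t' = 0 := fun t' => by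
        rw [K3_Phi_symm]
        exact K3_Phi_zero G H hF b r t' s (by rw [h1, Nat.cast_zero]; linarith only [hY])
      have e2 : ∀ t' : ℕ, Phi3 F G H b r (s + 1) t' = 0 := fun t' => by
        rw [K3_Phi_symm]
        exact K3_Phi_zero G H hF b r t' (s + 1) (by rw [h1]; push_cast; linarith only [hY])
      rw [e1, e1, e2, e2]
      simp
    · have e1 : ∀ s' : ℕ, Phi3 F G H b r s' t = 0 := fun s' =>
        K3_Phi_zero F H hG b r s' t (by rw [h1, Nat.cast_zero]; linarith only [hY])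
      have e2 : ∀ s' : ℕ, Phi3 F G H b r s' (t + 1) = 0 := fun s' =>
        K3_Phi_zero F H hG b r s' (t + 1) (by rw [h1]; push_cast; linarith only [hY])
      rw [e1, e1, e2, e2]
      simp

end OOK

end
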