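import Pool.Agent.Lib.MP_0f5a55_nt.OM.K005
import Pool.Agent.Lib.MP_0f5a55_nt.OM.K008
import Pool.Agent.Lib.MP_0f5a55_nt.OM.K009

section

section F_X0

namespace LZX
open Complex MeasureTheory Filter Topology Set
open scoped Real ComplexConjugate

theorem intg_exp_abs {k : ℝ} (hk : 0 < k) : Integrable (fun y : ℝ => Real.exp (-(k * |y|))) := by
  refine Integrable.of_integral_ne_zero ?_
  have h1 : ∫ y : ℝ, Real.exp (-(k * |y|)) = 2 * ∫ y in Ioi (0:ℝ), Real.exp (-(k * y)) :=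
    integral_comp_abs (f := fun x => Real.exp (-(k * x)))
  have h2 : ∫ y in Ioi (0:ℝ), Real.exp (-(k * y)) = 1 / k := by
    have := Real.integral_rpow_mul_exp_neg_mul_Ioi (a := 1) (r := k) one_pos hk
    simpa using this
  rw [h1, h2]
  positivity

theorem exp_int_intg {s : ℂ} (hs : 0 < s.re) {W : ℂ} (hW : 0 < W.re) :
    IntegrableOn (fun x : ℝ => (x : ℂ) ^ (s - 1) * cexp (-(W * x))) (Ioi 0) := by
  have h1 : IntegrableOn (fun x : ℝ => x ^ (s.re - 1) * Real.exp (-W.re * x ^ (1:ℝ))) (Ioi 0) :=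
    integrableOn_rpow_mul_exp_neg_mul_rpow (by linarith only [hs]) one_pos hW
  refine Integrable.mono' h1 ?_ ?_
  · refine ContinuousOn.aestronglyMeasurable (fun x hx => ?_) measurableSet_Ioi
    have hx' : (x : ℂ) ∈ slitPlane := by simpa [mem_slitPlane_iff] using hx
    exact ((continuousAt_ofReal_cpow_const x (s - 1) (Or.inr (ne_of_gt hx))).mul
      (by fun_prop)).continuousWithinAt
  · refine (ae_restrict_mem measurableSet_Ioi).mono (fun x hx => ?_)
    have hx : 0 < x := hx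
    rw [norm_mul, norm_cpow_eq_rpow_re_of_pos hx, norm_exp]
    simp [hx]

theorem exp_int {s : ℂ} (hs : 0 < s.re) {W : ℂ} (hW : 0 < W.re) :
    ∫ x in Ioi (0:ℝ), (x:ℂ) ^ (s - 1) * cexp (-(W * x)) = W ^ (-s) * Gamma s := by
  set U : Set ℂ := {W | 0 < W.re} with hU
  have hUo : IsOpen U := isOpen_lt continuous_const continuous_re
  have hUc : IsPreconnected U := (convex_halfSpace_re_gt 0).isPreconnected
  have hf : AnalyticOnNhd ℂ (fun W : ℂ => ∫ x in Ioi (0:ℝ), (x:ℂ) ^ (s - 1) * cexp (-(W * x))) U := by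
    refine DifferentiableOn.analyticOnNhd (fun W0 hW0 => ?_) hUo
    have hW0 : 0 < W0.re := hW0
    have hb : Metric.ball W0 (W0.re / 2) ∈ 𝓝 W0 := Metric.ball_mem_nhds _ (by linarith only [hW0])
    have key := hasDerivAt_integral_of_dominated_loc_of_deriv_le
      (μ := volume.restrict (Ioi (0:ℝ))) (x₀ := W0)
      (F := fun (W : ℂ) (x : ℝ) => (x:ℂ) ^ (s - 1) * cexp (-(W * x)))
      (F' := fun (W : ℂ) (x : ℝ) => (x:ℂ) ^ (s - 1) * (cexp (-(W * x)) * (-x)))
      (bound := fun x : ℝ => x ^ s.re * Real.exp (-(W0.re / 2) * x ^ (1:ℝ))) hb ?_ ?_ ?_ ?_ ?_ ?_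
    · exact key.2.differentiableAt.differentiableWithinAt
    · filter_upwards [hUo.mem_nhds hW0] with W hW
      exact (exp_int_intg hs hW).aestronglyMeasurable
    · exact exp_int_intg hs hW0
    · refine ContinuousOn.aestronglyMeasurable (fun x hx => ?_) measurableSet_Ioi
      exact ((continuousAt_ofReal_cpow_const x (s - 1) (Or.inr (ne_of_gt hx))).mul
        (by fun_prop)).continuousWithinAt
    · refine (ae_restrict_mem measurableSet_Ioi).mono (fun x hx W hW => ?_)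
      have hx : 0 < x := hx
      rw [norm_mul, norm_cpow_eq_rpow_re_of_pos hx, norm_mul, norm_exp]
      have h1 : W0.re / 2 ≤ W.re := by
        have := abs_re_le_norm (W - W0)
        rw [Metric.mem_ball, dist_eq] at hW
        have h2 := abs_le.mp (this.trans hW.le)
        simp at h2
        linarith only [h2.1, h2]
      have h2 : x ^ s.re = x ^ (s.re - 1) * x := by
        rw [← Real.rpow_add_one hx.ne']; ring_nf
      have h3 : (-(W * (x:ℂ))).re ≤ -(W0.re / 2) * x ^ (1:ℝ) := by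
        simp
        nlinarith only [hx, h1]
      have h4 := Real.exp_le_exp.mpr h3
      have h5 : ‖-(x:ℂ)‖ = x := by rw [norm_neg, norm_real, Real.norm_of_nonneg hx.le]
      rw [h5, h2]
      have h6 : (s - 1).re = s.re - 1 := by simp
      rw [h6]
      calc x ^ (s.re - 1) * (Real.exp (-(W * (x:ℂ))).re * x) = x ^ (s.re - 1) * x * Real.exp (-(W * (x:ℂ))).re := by ring
        _ ≤ _ := by gcongr
    · exact integrableOn_rpow_mul_exp_neg_mul_rpow (by linarith only [hs]) one_pos (by linarith only [hW0])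
    · refine Eventually.of_forall (fun x W _ => ?_)
      have : HasDerivAt (fun W : ℂ => -(W * (x:ℂ))) (-(1 * (x:ℂ))) W := ((hasDerivAt_id W).mul_const _).neg
      simp only [one_mul] at this
      exact this.cexp.const_mul _
  have hg : AnalyticOnNhd ℂ (fun W : ℂ => W ^ (-s) * Gamma s) U := by
    refine DifferentiableOn.analyticOnNhd (fun W0 hW0 => ?_) hUo
    have hW0 : 0 < W0.re := hW0
    have : W0 ∈ slitPlane := Or.inl hW0
    exact ((differentiableAt_id.cpow_const this).mul_const _).differentiableWithinAt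
  have h1U : (1:ℂ) ∈ U := by simp [hU]
  have hfreq : ∃ᶠ z in 𝓝[≠] (1:ℂ), (fun W : ℂ => ∫ x in Ioi (0:ℝ), (x:ℂ) ^ (s - 1) * cexp (-(W * x))) z
      = (fun W : ℂ => W ^ (-s) * Gamma s) z := by
    have ht : Tendsto (fun r : ℝ => (r : ℂ)) (𝓝[≠] (1:ℝ)) (𝓝[≠] (1:ℂ)) := by
      refine tendsto_nhdsWithin_iff.mpr ⟨?_, ?_⟩
      · exact (continuous_ofReal.tendsto 1).mono_left nhdsWithin_le_nhds |>.congr (fun _ => rfl)
      · refine eventually_mem_nhdsWithin.mono (fun r hr => ?_)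
        intro h
        exact hr (by simpa using h)
    refine ht.frequently (Eventually.frequently ?_)
    have hpos : ∀ᶠ r : ℝ in 𝓝[≠] (1:ℝ), 0 < r :=
      nhdsWithin_le_nhds (lt_mem_nhds one_pos)
    refine hpos.mono (fun r hr => ?_)
    have := integral_cpow_mul_exp_neg_mul_Ioi (a := s) (r := r) hs hr
    simp only
    rw [this, one_div, inv_cpow _ _ (by rw [arg_ofReal_of_nonneg hr.le]; exact Real.pi_pos.ne), cpow_neg]
  exact hf.eqOn_of_preconnected_of_frequently_eq hg hUc h1U hfreq hW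

theorem Gamma_tau {τ : ℝ} (hτ : |τ| < π / 2) {s : ℂ} (hs : 0 < s.re) :
    ‖Gamma s‖ * Real.exp (τ * s.im) ≤ (1 / Real.cos τ) ^ s.re * Real.Gamma s.re := by
  have hcos : 0 < Real.cos τ := Real.cos_pos_of_mem_Ioo (abs_lt.mp hτ)
  have hτ' := abs_lt.mp hτ
  have hW : 0 < (cexp (τ * I)).re := by
    rw [exp_ofReal_mul_I_re]; exact hcos
  have e := exp_int hs hW
  have hn : ‖cexp (τ * I) ^ (-s)‖ = Real.exp (τ * s.im) := by
    rw [cpow_def_of_ne_zero (exp_ne_zero _), log_exp (by simp; linarith only [Real.pi_pos, hτ']) (by simp; linarith only [Real.pi_pos, hτ']),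
      norm_exp]
    simp
  have h2 : ‖∫ x in Ioi (0:ℝ), (x:ℂ) ^ (s - 1) * cexp (-(cexp (τ * I) * x))‖ ≤
      ∫ x in Ioi (0:ℝ), x ^ (s.re - 1) * Real.exp (-(Real.cos τ * x)) := by
    refine (norm_integral_le_integral_norm _).trans (le_of_eq ?_)
    refine setIntegral_congr_fun measurableSet_Ioi (fun x hx => ?_)
    have hx : 0 < x := hx
    rw [norm_mul, norm_cpow_eq_rpow_re_of_pos hx, norm_exp]
    have : (-(cexp (τ * I) * (x:ℂ))).re = -(Real.cos τ * x) := by
      rw [neg_re, re_mul_ofReal, exp_ofReal_mul_I_re]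
    rw [this]
    simp
  rw [e, norm_mul, hn, Real.integral_rpow_mul_exp_neg_mul_Ioi hs hcos] at h2
  linarith only [mul_comm (Real.exp (τ * s.im)) ‖Gamma s‖, h2]

theorem Gamma_decay {θ : ℝ} (h0 : 0 < θ) (h1 : θ < π / 2) {a b : ℝ} (ha : 0 < a) :
    ∃ C : ℝ, ∀ s : ℂ, a ≤ s.re → s.re ≤ b → ‖Gamma s‖ ≤ C * Real.exp (-(θ * |s.im|)) := by
  have hcos : 0 < Real.cos θ := Real.cos_pos_of_mem_Ioo ⟨by linarith only [h0, h1], h1⟩
  -- the basic bound
  have key : ∀ τ : ℝ, |τ| = θ → ∀ s : ℂ, 0 < s.re →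
      ‖Gamma s‖ * Real.exp (τ * s.im) ≤ (1 / Real.cos θ) ^ s.re * Real.Gamma s.re := by
    intro τ hτ s hs
    have hcτ : Real.cos τ = Real.cos θ := by rw [← Real.cos_abs, hτ]
    rw [← hcτ]
    exact Gamma_tau (by rw [hτ]; exact h1) hs
  have hcont : ContinuousOn (fun σ : ℝ => (1 / Real.cos θ) ^ σ * Real.Gamma σ) (Icc a b) := by
    refine ContinuousOn.mul ?_ ?_
    · exact (Real.continuous_const_rpow (by positivity)).continuousOn
    · intro σ hσ
      have hσ0 : 0 < σ := lt_of_lt_of_le ha hσ.1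
      exact (Real.differentiableAt_Gamma (fun m => by
        have : (0:ℝ) ≤ m := Nat.cast_nonneg m
        linarith only [hσ0])).continuousAt.continuousWithinAt
  obtain ⟨C, hC⟩ := isCompact_Icc.exists_bound_of_continuousOn hcont
  refine ⟨C, fun s hs1 hs2 => ?_⟩
  have hs0 : 0 < s.re := lt_of_lt_of_le ha hs1
  have hb : ∀ τ : ℝ, |τ| = θ → ‖Gamma s‖ * Real.exp (τ * s.im) ≤ C := fun τ hτ =>
    (key τ hτ s hs0).trans ((le_abs_self _).trans (by simpa using hC s.re ⟨hs1, hs2⟩))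
  have hfin : ‖Gamma s‖ * Real.exp (θ * |s.im|) ≤ C := by
    rcases abs_cases s.im with ⟨h, _⟩ | ⟨h, _⟩
    · rw [h]; exact hb θ (abs_of_pos h0)
    · rw [h, mul_neg, ← neg_mul]; exact hb (-θ) (by rw [abs_neg, abs_of_pos h0])
  rw [Real.exp_neg, ← div_eq_mul_inv, le_div_iff₀ (Real.exp_pos _)]
  exact hfin

end LZX

namespace LZX
open Complex MeasureTheory Filter Topology Set
open scoped Real ComplexConjugate

theorem exp_mellin {c : ℝ} (hc : 0 < c) {W : ℂ} (hW : 0 < W.re) :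
    Integrable (fun y : ℝ => Gamma (c + y * I) * W ^ (-(c + y * I : ℂ))) ∧
    (1 / (2 * π)) * ∫ y : ℝ, Gamma (c + y * I) * W ^ (-(c + y * I : ℂ)) = cexp (-W) := by
  have hW0 : W ≠ 0 := by rintro rfl; simp at hW
  have hre : ∀ y : ℝ, ((c : ℂ) + y * I).re = c := fun y => by simp
  have him : ∀ y : ℝ, ((c : ℂ) + y * I).im = y := fun y => by simp
  have hint : Integrable (fun y : ℝ => Gamma (c + y * I) * W ^ (-(c + y * I : ℂ))) := by
    have harg : |W.arg| < π / 2 := abs_arg_lt_pi_div_two_iff.mpr (Or.inl hW)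
    obtain ⟨θ, hθ1, hθ2⟩ := exists_between harg
    have hθ0 : 0 < θ := lt_of_le_of_lt (abs_nonneg _) hθ1
    obtain ⟨C, hC⟩ := Gamma_decay (a := c) (b := c) hθ0 hθ2 hc
    have hdec : Integrable (fun y : ℝ => C * ‖W‖ ^ (-c) * Real.exp (-((θ - |W.arg|) * |y|))) := by
      refine Integrable.const_mul ?_ _
      have hk : 0 < θ - |W.arg| := by linarith only [hθ1]
      exact intg_exp_abs hk
    refine Integrable.mono' hdec ?_ (Eventually.of_forall fun y => ?_)
    · refine Continuous.aestronglyMeasurable ?_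
      refine Continuous.mul ?_ ?_
      · refine continuous_iff_continuousAt.mpr (fun y => ?_)
        have : ContinuousAt Gamma ((c : ℂ) + y * I) := (differentiableAt_Gamma _ (fun m h => by
          have := congrArg Complex.re h
          rw [hre] at this
          have h2 : (0:ℝ) ≤ m := Nat.cast_nonneg m
          simp at this
          linarith only [hc, this])).continuousAt
        exact ContinuousAt.comp (f := fun y : ℝ => (c : ℂ) + y * I) (g := Gamma) this (by fun_prop)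
      · exact Continuous.const_cpow (by fun_prop) (Or.inl hW0)
    · rw [norm_mul]
      have h1 := hC (c + y * I) (by rw [hre]) (by rw [hre])
      rw [him] at h1
      have h2 : ‖W ^ (-(c + y * I : ℂ))‖ = ‖W‖ ^ (-c) * Real.exp (W.arg * y) := by
        rw [norm_cpow_of_ne_zero hW0]
        simp [Real.exp_neg]
      have h3 : Real.exp (W.arg * y) ≤ Real.exp (|W.arg| * |y|) := by
        refine Real.exp_le_exp.mpr ?_
        rw [← abs_mul]; exact le_abs_self _
      have hp : 0 ≤ ‖W‖ ^ (-c) := by positivity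
      calc ‖Gamma (c + y * I)‖ * ‖W ^ (-(c + y * I : ℂ))‖
          ≤ (C * Real.exp (-(θ * |y|))) * (‖W‖ ^ (-c) * Real.exp (|W.arg| * |y|)) := by
            rw [h2]
            refine mul_le_mul h1 (by gcongr) (by positivity) ((norm_nonneg _).trans h1)
        _ = C * ‖W‖ ^ (-c) * (Real.exp (-(θ * |y|)) * Real.exp (|W.arg| * |y|)) := by ring
        _ = _ := by rw [← Real.exp_add]; ring_nf
  refine ⟨hint, ?_⟩
  have hm : ∀ y : ℝ, mellin (fun x : ℝ => cexp (-(W * x))) (c + y * I) =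
      Gamma (c + y * I) * W ^ (-(c + y * I : ℂ)) := by
    intro y
    have := exp_int (s := c + y * I) (by rw [hre]; exact hc) hW
    rw [mul_comm (Gamma _), ← this]
    rfl
  have h1 : mellinInv c (mellin (fun x : ℝ => cexp (-(W * x)))) 1 = cexp (-(W * (1:ℝ))) := by
    refine mellinInv_mellin_eq c _ one_pos ?_ ?_ (by fun_prop)
    · have := exp_int_intg (s := c) (by simpa using hc) hW
      exact this
    · unfold VerticalIntegrable
      simp_rw [hm]
      exact hint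
  rw [mellinInv] at h1
  simp only [ofReal_one, one_cpow, one_smul, mul_one, hm] at h1
  rw [← h1, real_smul]
  push_cast
  rfl

end LZX

end F_X0

end

section

open Complex MeasureTheory Set Filter Topology
open scoped ComplexConjugate

namespace OO

variable {q1 q2 : ℕ}

theorem T_Lam_aux_LA (f : ℕ → ℂ) (n : ℕ) (hn : n ≠ 0) : LA f 0 0 n = f n := by
  simp [LA, hn, LZ.wt]

theorem T_Lam_aux_norm {q : ℕ} (χ : DirichletCharacter ℂ q) (n : ℕ) : ‖LA (ch χ) 0 0 n‖ ≤ 1 := by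
  rcases eq_or_ne n 0 with hn | hn
  · subst hn; simp
  · rw [T_Lam_aux_LA _ _ hn]
    exact DirichletCharacter.norm_le_one χ _

theorem T_Lam_aux_hasSum {q : ℕ} [NeZero q] (χ : DirichletCharacter ℂ q) (s : ℂ) (hs : 1 < s.re) :
    LSeriesHasSum (fun n => LA (ch χ) 0 0 n) s (LX.Lf χ s) := by
  have h1 := (DirichletCharacter.LSeriesSummable_of_one_lt_re χ hs).LSeriesHasSum
  have h2 : LX.Lf χ s = LSeries (fun n : ℕ => χ (n : ZMod q)) s := by
    unfold LX.Lf
    exact DirichletCharacter.LFunction_eq_LSeries χ hs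
  rw [h2]
  refine (LSeriesHasSum_congr s _ (fun {n} hn => ?_)).mpr h1
  rw [T_Lam_aux_LA _ _ hn]; rfl

/-- OT01. The Dirichlet series of `L1 L2`.

Proof. (a) `(LA f 0 0) n = f n` for `n ≥ 1` (`n ^ (-0) = 1`, `LZ.wt 0 = (max 0 (1 - 0)) ^ 21 = 1`) and `= 0` for `n = 0`. Hence
`lamF (ch χ1) (ch χ2) n = ∑ d ∈ n.divisorsAntidiagonal, χ1 d.1 * χ2 d.2` (`ArithmeticFunction.mul_apply`), of norm at most the number
of divisors of `n`, which is `≤ n` (`Nat.card_divisors_le_self` or the injection into `Icc 1 n`); for `n = 0` both sides are `0`.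
(b) For `Re s > 1`: `DirichletCharacter.LFunction_eq_LSeries`, `ZMod.LSeriesSummable_of_one_lt_re` (or
`DirichletCharacter.LSeriesSummable_of_one_lt_re`) and `ArithmeticFunction.LSeriesHasSum_mul` / `LSeriesHasSum.convolution`
(Mathlib.NumberTheory.LSeries.Convolution) give `HasSum (LSeries.term lam s) (L1 s * L2 s)`; `LSeries.term lam s n = lam n / n ^ s`
for `n ≥ 1` and `0` for `n = 0` (here `lam 0 = 0`). (c) absolute summability: `LSeriesSummable` is summability of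
`LSeries.term` in `ℂ`, take norms (`Summable.norm`) at `s = σ` real. -/
theorem T_lam [NeZero q1] [NeZero q2] (χ1 : DirichletCharacter ℂ q1) (χ2 : DirichletCharacter ℂ q2) :
    (∀ n : ℕ, ‖lamF (ch χ1) (ch χ2) n‖ ≤ n) ∧
    (∀ s : ℂ, 1 < s.re → HasSum (fun n : ℕ => lamF (ch χ1) (ch χ2) n * (n : ℂ) ^ (-s)) (T_LL χ1 χ2 s)) ∧
    (∀ σ : ℝ, 1 < σ → Summable (fun n : ℕ => ‖lamF (ch χ1) (ch χ2) n‖ * (n : ℝ) ^ (-σ))) ∧
    lamF (ch χ1) (ch χ2) 1 = 1 := by
  have key : ∀ s : ℂ, 1 < s.re →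
      HasSum (fun n : ℕ => lamF (ch χ1) (ch χ2) n * (n : ℂ) ^ (-s)) (T_LL χ1 χ2 s) := by
    intro s hs
    have h1 := ArithmeticFunction.LSeriesHasSum_mul (T_Lam_aux_hasSum χ1 s hs) (T_Lam_aux_hasSum χ2 s hs)
    unfold LSeriesHasSum at h1
    unfold T_LL lamF
    convert h1 using 1
    funext n
    rcases Nat.eq_zero_or_pos n with hn | hn
    · subst hn; simp
    · rw [LSeries.term_of_ne_zero hn.ne', Complex.cpow_neg, div_eq_mul_inv]
  refine ⟨?_, key, ?_, ?_⟩
  · intro n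
    unfold lamF
    rw [ArithmeticFunction.mul_apply]
    calc ‖∑ x ∈ n.divisorsAntidiagonal, LA (ch χ1) 0 0 x.1 * LA (ch χ2) 0 0 x.2‖
        ≤ ∑ x ∈ n.divisorsAntidiagonal, ‖LA (ch χ1) 0 0 x.1 * LA (ch χ2) 0 0 x.2‖ := norm_sum_le _ _
      _ ≤ ∑ x ∈ n.divisorsAntidiagonal, (1 : ℝ) := by
          refine Finset.sum_le_sum (fun x _ => ?_)
          rw [norm_mul]
          exact mul_le_one₀ (T_Lam_aux_norm χ1 _) (norm_nonneg _) (T_Lam_aux_norm χ2 _)
      _ = (n.divisors.card : ℝ) := by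
          rw [Nat.sum_divisorsAntidiagonal (fun _ _ => (1 : ℝ))]; simp
      _ ≤ n := by exact_mod_cast Nat.card_divisors_le_self n
  · intro σ hσ
    have h := (key (σ : ℂ) (by simpa using hσ)).summable.norm
    refine h.congr (fun n => ?_)
    rw [norm_mul]
    rcases Nat.eq_zero_or_pos n with hn | hn
    · subst hn; simp
    · rw [Complex.norm_natCast_cpow_of_pos hn]; simp
  · unfold lamF
    rw [ArithmeticFunction.mul_apply]
    simp [T_Lam_aux_LA, ch]

end OO

end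

section

open Complex MeasureTheory Set Filter Topology
open scoped ComplexConjugate

namespace OO

variable {q1 q2 : ℕ}

private theorem T_InvS_mulcpow {r : ℝ} (hr : 0 < r) {V : ℂ} (hV : V ≠ 0) (s : ℂ) :
    ((r : ℂ) * V) ^ s = (r : ℂ) ^ s * V ^ s := by
  have hr' : (r : ℂ) ≠ 0 := ofReal_ne_zero.mpr hr.ne'
  rw [cpow_def_of_ne_zero (mul_ne_zero hr' hV), cpow_def_of_ne_zero hr', cpow_def_of_ne_zero hV,
    log_ofReal_mul hr hV, ← exp_add, ofReal_log hr.le]
  congr 1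
  ring

private theorem T_InvS_cont [NeZero q1] [NeZero q2] (χ1 : DirichletCharacter ℂ q1) (χ2 : DirichletCharacter ℂ q2) :
    Continuous (fun y : ℝ => T_LL χ1 χ2 (2 + y * I)) := by
  have hc : Continuous (fun y : ℝ => (2 : ℂ) + y * I) := by fun_prop
  have hne : ∀ y : ℝ, (2 : ℂ) + y * I ≠ 1 := by
    intro y h
    have := congrArg Complex.re h
    simp at this
  rw [continuous_iff_continuousAt]
  intro y
  unfold T_LL LX.Lf
  have h1 : ContinuousAt (DirichletCharacter.LFunction χ1) ((2 : ℂ) + y * I) :=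
    (DirichletCharacter.differentiableAt_LFunction χ1 _ (Or.inl (hne y))).continuousAt
  have h2 : ContinuousAt (DirichletCharacter.LFunction χ2) ((2 : ℂ) + y * I) :=
    (DirichletCharacter.differentiableAt_LFunction χ2 _ (Or.inl (hne y))).continuousAt
  exact (ContinuousAt.comp (f := fun y : ℝ => (2 : ℂ) + y * I) h1 hc.continuousAt).mul
    (ContinuousAt.comp (f := fun y : ℝ => (2 : ℂ) + y * I) h2 hc.continuousAt)

/-- OT06. Mellin inversion of the exponential series.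

Proof. `n = 0`: `lam 0 = 0`. For `n ≥ 1` and `s = 2 + iy`: `((n:ℂ) * W) ^ (-s) = (n:ℂ) ^ (-s) * W ^ (-s)` (`n` a positive real:
`Complex.mul_cpow_ofReal_nonneg` needs both real; use `log (n W) = log n + log W`, `Complex.log_ofReal_mul`, as in V14 `A02_mulcpow`),
so `LZX.exp_mellin` (V13, `c = 2`, `W := n W`) gives
`∫ Γ(s) n^{-s} W^{-s} dy = 2π exp (-(n W))`, with `∫ ‖Γ(s) n^{-s} W^{-s}‖ = n^{-2} K`, `K = ∫ ‖Γ(s) W^{-s}‖ dy`.
Since `∑ ‖lam n‖ n^{-2} < ∞` (`T_lam`), `MeasureTheory.hasSum_integral_of_summable_integral_norm` applies to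
`F n y = lam n * n^{-s} * (Γ(s) * W^{-s})`, whose sum over `n` is `Γ(s) T_LL(s) W^{-s}` by `T_lam`. Integrability of the sum:
`‖T_LL(2+iy)‖ ≤ ∑ ‖lam n‖ n^{-2}` and measurability (continuity in `y`, `T_LL` is differentiable at `s ≠ 1`:
`DirichletCharacter.differentiableAt_LFunction`), `Integrable.mono'` against the integrable `‖Γ W^{-s}‖`. -/
theorem T_inv_series [NeZero q1] [NeZero q2] (χ1 : DirichletCharacter ℂ q1) (χ2 : DirichletCharacter ℂ q2)
    (W : ℂ) (hW : 0 < W.re) :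
    Integrable (fun y : ℝ => Gamma (2 + y * I) * T_LL χ1 χ2 (2 + y * I) * W ^ (-(2 + y * I : ℂ))) ∧
    ∫ y : ℝ, Gamma (2 + y * I) * T_LL χ1 χ2 (2 + y * I) * W ^ (-(2 + y * I : ℂ)) =
      2 * Real.pi * ∑' n : ℕ, lamF (ch χ1) (ch χ2) n * exp (-(n * W)) := by
  obtain ⟨-, hLL, hsumm, -⟩ := T_lam χ1 χ2
  set a : ℕ → ℂ := fun n => lamF (ch χ1) (ch χ2) n with ha
  have ha0 : a 0 = 0 := by simp [ha]
  have hW0 : W ≠ 0 := by rintro rfl; simp at hW
  have hpi : (Real.pi : ℂ) ≠ 0 := by exact_mod_cast Real.pi_ne_zero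
  have hmel : ∀ V : ℂ, 0 < V.re → Integrable (fun y : ℝ => Gamma (2 + y * I) * V ^ (-(2 + y * I : ℂ))) ∧
      ∫ y : ℝ, Gamma (2 + y * I) * V ^ (-(2 + y * I : ℂ)) = 2 * Real.pi * exp (-V) := by
    intro V hV
    have h := LZX.exp_mellin (c := 2) (by norm_num) hV
    have e2 : ((2 : ℝ) : ℂ) = 2 := by norm_num
    rw [e2] at h
    refine ⟨h.1, ?_⟩
    rw [← h.2, ← mul_assoc]
    have h2 : (2 * (Real.pi : ℂ)) * (1 / (2 * Real.pi)) = 1 := by field_simp
    rw [h2, one_mul]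
  set G : ℝ → ℂ := fun y => Gamma (2 + y * I) * W ^ (-(2 + y * I : ℂ)) with hG
  have hGint : Integrable G := (hmel W hW).1
  have hσ : ∀ y : ℝ, ((2 : ℂ) + y * I).re = 2 := fun y => by simp
  set F : ℕ → ℝ → ℂ := fun n y => a n * (n : ℂ) ^ (-(2 + y * I : ℂ)) * G y with hF
  have hFn : ∀ n : ℕ, 0 < n → F n = fun y : ℝ => a n * (Gamma (2 + y * I) * ((n : ℂ) * W) ^ (-(2 + y * I : ℂ))) := by
    intro n hn
    funext y
    have h1 := T_InvS_mulcpow (r := (n : ℝ)) (by exact_mod_cast hn) hW0 (-(2 + y * I : ℂ))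
    rw [ofReal_natCast] at h1
    simp only [hF, hG]
    rw [h1]
    ring
  have hF0 : F 0 = fun _ => 0 := by
    funext y
    simp only [hF, ha0, zero_mul]
  have hnW : ∀ n : ℕ, 0 < n → 0 < ((n : ℂ) * W).re := by
    intro n hn
    have : ((n : ℂ) * W).re = (n : ℝ) * W.re := by
      rw [← ofReal_natCast, re_ofReal_mul]
    rw [this]
    have hn' : (0 : ℝ) < n := by exact_mod_cast hn
    positivity
  have hFint : ∀ n, Integrable (F n) := by
    intro n
    rcases Nat.eq_zero_or_pos n with rfl | hn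
    · rw [hF0]; exact integrable_zero _ _ _
    · rw [hFn n hn]
      exact (hmel _ (hnW n hn)).1.const_mul _
  have hFval : ∀ n, ∫ y, F n y = 2 * Real.pi * (a n * exp (-(n * W))) := by
    intro n
    rcases Nat.eq_zero_or_pos n with rfl | hn
    · rw [hF0]; simp [ha0]
    · rw [hFn n hn]
      rw [integral_const_mul, (hmel _ (hnW n hn)).2]
      ring
  have hFnorm : ∀ n, (∫ y, ‖F n y‖) = ‖a n‖ * (n : ℝ) ^ (-2 : ℝ) * ∫ y, ‖G y‖ := by
    intro n
    rcases Nat.eq_zero_or_pos n with rfl | hn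
    · rw [hF0]; simp [ha0]
    · rw [← integral_const_mul]
      congr 1
      funext y
      simp only [hF]
      rw [norm_mul, norm_mul, norm_natCast_cpow_of_pos hn, neg_re, hσ]
  have hsummF : Summable (fun n => ∫ y, ‖F n y‖) := by
    simp_rw [hFnorm]
    exact (hsumm 2 (by norm_num)).mul_right _
  have hmainsum := hasSum_integral_of_summable_integral_norm hFint hsummF
  have hpt : ∀ y : ℝ, ∑' n, F n y = T_LL χ1 χ2 (2 + y * I) * G y := by
    intro y
    exact ((hLL (2 + y * I) (by rw [hσ]; norm_num)).mul_right (G y)).tsum_eq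
  have hfun : (fun y : ℝ => Gamma (2 + y * I) * T_LL χ1 χ2 (2 + y * I) * W ^ (-(2 + y * I : ℂ))) =
      fun y : ℝ => T_LL χ1 χ2 (2 + y * I) * G y := by
    funext y
    simp only [hG]
    ring
  rw [hfun]
  constructor
  · refine Integrable.mono' (g := fun y => (∑' n : ℕ, ‖a n‖ * (n : ℝ) ^ (-2 : ℝ)) * ‖G y‖)
      (hGint.norm.const_mul _) ?_ ?_
    · exact (T_InvS_cont χ1 χ2).aestronglyMeasurable.mul hGint.aestronglyMeasurable
    · refine Eventually.of_forall fun y => ?_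
      rw [norm_mul]
      apply mul_le_mul_of_nonneg_right _ (norm_nonneg _)
      rw [← (hLL (2 + y * I) (by rw [hσ]; norm_num)).tsum_eq]
      have hterm : ∀ n : ℕ, ‖a n * (n : ℂ) ^ (-(2 + y * I : ℂ))‖ = ‖a n‖ * (n : ℝ) ^ (-2 : ℝ) := by
        intro n
        rcases Nat.eq_zero_or_pos n with rfl | hn
        · simp [ha0]
        · rw [norm_mul, norm_natCast_cpow_of_pos hn, neg_re, hσ]
      have hs : Summable (fun n : ℕ => ‖a n * (n : ℂ) ^ (-(2 + y * I : ℂ))‖) := by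
        simp_rw [hterm]
        exact hsumm 2 (by norm_num)
      refine (norm_tsum_le_tsum_norm hs).trans (le_of_eq ?_)
      simp_rw [hterm]
  · have h1 : ∫ y : ℝ, T_LL χ1 χ2 (2 + y * I) * G y = ∫ y : ℝ, ∑' n, F n y := by
      congr 1
      funext y
      exact (hpt y).symm
    rw [h1, ← hmainsum.tsum_eq]
    simp_rw [hFval]
    rw [tsum_mul_left]

end OO

end

section

/-!
# The sums V, V1, V2
-/

open Complex Finset
open scoped ComplexConjugate

namespace OOK

/-- `norm_Phi3_le` and `tsum_two`. -/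
theorem summable_Phi3 {F F1 F2 G G1 G2 : ℝ → ℂ} {B Y : ℝ} (hF : Cut3 F F1 F2 B Y) (hG : Cut3 G G1 G2 B Y)
    {ρ : ℝ} {H H1 H2 : ℝ → ℂ} (hH : Ker3 H H1 H2 B ρ) {b r : ℕ} (hb : 0 < b) (hr : 0 < r) :
    Summable (fun p : ℕ × ℕ => Phi3 F G H b r p.1 p.2) := by
  obtain ⟨C, _, hC⟩ := tsum_two (α := 0) (ε := 1) one_pos le_rfl
  have hb' : (0 : ℝ) < b := by exact_mod_cast hb
  have hρ := hH.ρ0
  have h1 := (hC (ρ * b) (by positivity)).1
  refine Summable.of_norm_bounded (h1.mul_left (B ^ 3)) fun p => ?_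
  refine (norm_Phi3_le hF hG hH hb hr p.1 p.2).trans (le_of_eq ?_)
  split_ifs with h2
  · rw [Real.rpow_zero, one_mul]
    congr 2
    ring
  · rw [mul_zero]

lemma K3_prod_le (F : Finset (ℕ × ℕ)) (h : ℕ → ℕ → ℝ) (h0 : ∀ s t, 0 ≤ h s t) :
    ∑ p ∈ F, h p.1 p.2 ≤ ∑ t ∈ F.image Prod.snd, ∑ s ∈ F.image Prod.fst, h s t := by
  rw [Finset.sum_comm, ← Finset.sum_product' (F.image Prod.fst) (F.image Prod.snd) (fun s t => h s t)]
  refine Finset.sum_le_sum_of_subset_of_nonneg (fun p hp => ?_) fun p _ _ => h0 _ _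
  exact Finset.mem_product.2 ⟨Finset.mem_image_of_mem _ hp, Finset.mem_image_of_mem _ hp⟩

/-- `e^(-y) ≤ C y^(-ε)` (`exp_neg_le_rpow`) with `y = ρ b s t / 2`: the sum of
`28 B³ / (s t) e^(-ρ b s t / 2)` is at most `C (ρ b)^(-ε) ∑ (s t)^(-1 - ε)`, and
`(ρ b)^(-ε) ≤ ρ^(-ε)` as `b ≥ 1`. -/
theorem V_bound3 (B : ℝ) {ε : ℝ} (hε : 0 < ε) : ∃ C : ℝ, 0 < C ∧ ∀ (F F1 F2 G G1 G2 H H1 H2 : ℝ → ℂ)
    (Y ρ : ℝ), Cut3 F F1 F2 B Y → Cut3 G G1 G2 B Y → Ker3 H H1 H2 B ρ → ∀ b r : ℕ, 0 < b → 0 < r → ∀ S : Finset (ℕ × ℕ),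
      ∑ p ∈ S, ‖Phi3 F G H b r (p.1 + 1) (p.2 + 1) - Phi3 F G H b r (p.1 + 1) p.2 -
        Phi3 F G H b r p.1 (p.2 + 1) + Phi3 F G H b r p.1 p.2‖ ≤ C * ρ ^ (-ε) := by
  obtain ⟨C₀, hC₀, hexp⟩ := exp_neg_le_rpow hε
  have hsum : Summable (fun n : ℕ => (n : ℝ) ^ (-(1 + ε))) :=
    Real.summable_nat_rpow.2 (by linarith only [hε])
  have hg0 : ∀ n : ℕ, 0 ≤ (n : ℝ) ^ (-(1 + ε)) := fun n => Real.rpow_nonneg (Nat.cast_nonneg n) _
  set Z : ℝ := ∑' n : ℕ, (n : ℝ) ^ (-(1 + ε)) with hZ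
  have hZ0 : 0 ≤ Z := tsum_nonneg hg0
  refine ⟨28 * |B| ^ 3 * C₀ * 2 ^ ε * Z ^ 2 + 1, by positivity, ?_⟩
  intro F F1 F2 G G1 G2 H H1 H2 Y ρ hF hG hH b r hb hr S
  have hμ := hH.ρ0
  have hB : 1 ≤ B := hF.B1
  have hBabs : |B| = B := abs_of_pos (by linarith only [hB])
  have hb' : (1 : ℝ) ≤ b := by exact_mod_cast hb
  set K : ℝ := 28 * B ^ 3 * C₀ * 2 ^ ε * ρ ^ (-ε) with hK
  have hK0 : 0 ≤ K := by positivity
  have hterm : ∀ s t : ℕ, ‖Phi3 F G H b r (s + 1) (t + 1) - Phi3 F G H b r (s + 1) t -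
        Phi3 F G H b r s (t + 1) + Phi3 F G H b r s t‖ ≤
        K * ((s : ℝ) ^ (-(1 + ε)) * (t : ℝ) ^ (-(1 + ε))) := by
    intro s t
    refine (norm_D12_le3 hF hG hH hb hr s t).trans ?_
    split_ifs with h
    · have hs : (0 : ℝ) < s := by exact_mod_cast h.1
      have ht : (0 : ℝ) < t := by exact_mod_cast h.2
      have hst : (0 : ℝ) < s * t := mul_pos hs ht
      have h1 : Real.exp (-ρ * b * (s * t) / 2) ≤ C₀ * (ρ * (s * t) / 2) ^ (-ε) := by
        have h2 : Real.exp (-ρ * b * (s * t) / 2) ≤ Real.exp (-(ρ * (s * t) / 2)) := by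
          refine Real.exp_le_exp.2 ?_
          have : ρ * (s * t) ≤ ρ * (s * t) * b := le_mul_of_one_le_right (by positivity) hb'
          linarith only [this]
        exact h2.trans (hexp _ (by positivity))
      have h3 : (ρ * (s * t) / 2) ^ (-ε) = ρ ^ (-ε) * ((s : ℝ) * t) ^ (-ε) * 2 ^ ε := by
        rw [Real.div_rpow (by positivity) (by norm_num), Real.mul_rpow hμ.le hst.le,
          Real.rpow_neg (show (0 : ℝ) ≤ 2 by norm_num), div_inv_eq_mul]
      have h4 : (s : ℝ) ^ (-(1 + ε)) * (t : ℝ) ^ (-(1 + ε)) = ((s : ℝ) * t) ^ (-ε) / (s * t) := by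
        rw [← Real.mul_rpow hs.le ht.le, show -(1 + ε) = -ε - 1 by ring,
          Real.rpow_sub hst, Real.rpow_one]
      rw [h4]
      calc 28 * B ^ 3 / (s * t) * Real.exp (-ρ * b * (s * t) / 2)
          ≤ 28 * B ^ 3 / (s * t) * (C₀ * (ρ * (s * t) / 2) ^ (-ε)) :=
            mul_le_mul_of_nonneg_left h1 (by positivity)
        _ = K * (((s : ℝ) * t) ^ (-ε) / (s * t)) := by
            rw [h3, hK]; ring
    · exact mul_nonneg hK0 (mul_nonneg (hg0 s) (hg0 t))
  calc ∑ p ∈ S, ‖Phi3 F G H b r (p.1 + 1) (p.2 + 1) - Phi3 F G H b r (p.1 + 1) p.2 -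
        Phi3 F G H b r p.1 (p.2 + 1) + Phi3 F G H b r p.1 p.2‖
      ≤ ∑ p ∈ S, K * ((p.1 : ℝ) ^ (-(1 + ε)) * (p.2 : ℝ) ^ (-(1 + ε))) :=
        Finset.sum_le_sum fun p _ => hterm p.1 p.2
    _ ≤ ∑ t ∈ S.image Prod.snd, ∑ s ∈ S.image Prod.fst, K * ((s : ℝ) ^ (-(1 + ε)) * (t : ℝ) ^ (-(1 + ε))) :=
        K3_prod_le S (fun s t => K * ((s : ℝ) ^ (-(1 + ε)) * (t : ℝ) ^ (-(1 + ε))))
          fun s t => mul_nonneg hK0 (mul_nonneg (hg0 s) (hg0 t))
    _ = K * ((∑ s ∈ S.image Prod.fst, (s : ℝ) ^ (-(1 + ε))) * ∑ t ∈ S.image Prod.snd, (t : ℝ) ^ (-(1 + ε))) := by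
        rw [Finset.mul_sum, Finset.mul_sum]
        refine Finset.sum_congr rfl fun t _ => ?_
        rw [← Finset.mul_sum, ← Finset.sum_mul]
    _ ≤ K * (Z * Z) := by
        refine mul_le_mul_of_nonneg_left ?_ hK0
        exact mul_le_mul (hsum.sum_le_tsum _ fun n _ => hg0 n) (hsum.sum_le_tsum _ fun n _ => hg0 n)
          (Finset.sum_nonneg fun n _ => hg0 n) hZ0
    _ ≤ (28 * |B| ^ 3 * C₀ * 2 ^ ε * Z ^ 2 + 1) * ρ ^ (-ε) := by
        rw [hBabs, hK]
        have : 0 ≤ ρ ^ (-ε) := Real.rpow_nonneg hμ.le _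
        linarith only [this]

lemma K3_geom {y : ℝ} (hy : 0 < y) (S : Finset ℕ) :
    ∑ s ∈ S, (if 0 < s then Real.exp (-y * s) else 0) ≤ 1 / y := by
  set x : ℝ := Real.exp (-y) with hx
  have hx0 : 0 < x := Real.exp_pos _
  have hx1 : x < 1 := by rw [hx, Real.exp_lt_one_iff]; linarith only [hy]
  have hpow : ∀ s : ℕ, Real.exp (-y * s) = x ^ s := by
    intro s
    rw [hx, ← Real.exp_nat_mul]
    congr 1
    ring
  have h1 : ∑ s ∈ S, (if 0 < s then Real.exp (-y * s) else 0) ≤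
      ∑ s ∈ insert 0 S, (if 0 < s then Real.exp (-y * s) else 0) := by
    refine Finset.sum_le_sum_of_subset_of_nonneg (Finset.subset_insert 0 S) fun s _ _ => ?_
    split_ifs
    · exact Real.exp_nonneg _
    · exact le_rfl
  have h2 : ∑ s ∈ insert 0 S, (if 0 < s then Real.exp (-y * s) else 0) =
      ∑ s ∈ insert 0 S, x ^ s - 1 := by
    have h3 : ∀ s ∈ insert 0 S, (if 0 < s then Real.exp (-y * s) else 0) = x ^ s - (if s = 0 then 1 else 0) := by
      intro s _
      rcases Nat.eq_zero_or_pos s with h | h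
      · rw [h]; simp
      · rw [if_pos h, if_neg (by omega), hpow, sub_zero]
    rw [Finset.sum_congr rfl h3, Finset.sum_sub_distrib, Finset.sum_ite_eq' (insert 0 S) 0 (fun _ => (1 : ℝ)),
      if_pos (Finset.mem_insert_self 0 S)]
  have h4 : ∑ s ∈ insert 0 S, x ^ s ≤ (1 - x)⁻¹ := by
    have h5 := hasSum_geometric_of_lt_one hx0.le hx1
    rw [← h5.tsum_eq]
    exact h5.summable.sum_le_tsum _ fun n _ => pow_nonneg hx0.le n
  have h6 : (1 - x)⁻¹ - 1 ≤ 1 / y := by
    have h7 : 0 < 1 - x := by linarith only [hx1]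
    have h8 : x * (1 + y) ≤ 1 := by
      have h9 : 1 + y ≤ Real.exp y := by have := Real.add_one_le_exp y; linarith only [this]
      have h10 : x * Real.exp y = 1 := by rw [hx, ← Real.exp_add]; simp
      nlinarith only [hx0, h9, h10]
    rw [inv_eq_one_div, div_sub_one h7.ne', div_le_div_iff₀ h7 hy]
    linarith only [h8]
  linarith only [h1, h2, h4, h6]

lemma K3_tail {Y : ℝ} (hY : 2 ≤ Y) (T : Finset ℕ) :
    ∑ t ∈ T, (if 0 < t ∧ Y - 1 < t then 1 / (t : ℝ) ^ 2 else 0) ≤ 4 / Y := by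
  have hY0 : 0 < Y := by linarith only [hY]
  have key : ∀ N : ℕ, ∑ t ∈ Finset.range N, (if 0 < t ∧ Y - 1 < (t : ℝ) then 1 / (t : ℝ) ^ 2 else 0) ≤
      if Y - 1 < N then 4 / Y - 2 / N else 0 := by
    intro N
    induction N with
    | zero => 
      rw [Finset.sum_range_zero]
      split_ifs with h
      · exfalso; push_cast at h; linarith only [hY, h]
      · exact le_rfl
    | succ N ih =>
      rw [Finset.sum_range_succ]
      by_cases h : Y - 1 < (N : ℝ)
      · have hN : (0 : ℝ) < N := by linarith only [hY, h]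
        have hN' : 0 < N := by exact_mod_cast hN
        rw [if_pos h] at ih
        rw [if_pos ⟨hN', h⟩, if_pos (by push_cast; linarith only [h])]
        have h1 : 1 / (N : ℝ) ^ 2 ≤ 2 / N - 2 / ((N + 1 : ℕ) : ℝ) := by
          push_cast
          rw [div_sub_div _ _ hN.ne' (by positivity), div_le_div_iff₀ (by positivity) (by positivity)]
          have : (1 : ℝ) ≤ N := by exact_mod_cast hN'
          nlinarith only [this]
        linarith only [ih, h1]
      · rw [if_neg h] at ih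
        rw [if_neg (fun h' => h h'.2), add_zero]
        refine ih.trans ?_
        split_ifs with h2
        · have h3 : (0 : ℝ) < ((N + 1 : ℕ) : ℝ) := by positivity
          rw [sub_nonneg, div_le_div_iff₀ h3 hY0]
          linarith only [hY, h2]
        · exact le_rfl
  obtain ⟨N, hN⟩ : ∃ N, T ⊆ Finset.range N := ⟨T.sup id + 1, fun t ht =>
    Finset.mem_range.2 (Nat.lt_succ_of_le (Finset.le_sup (f := id) ht))⟩
  refine (Finset.sum_le_sum_of_subset_of_nonneg hN fun t _ _ => ?_).trans ((key N).trans ?_)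
  · split_ifs
    · positivity
    · exact le_rfl
  · split_ifs
    · have : (0 : ℝ) ≤ 2 / N := by positivity
      linarith only [this]
    · positivity

lemma K3_double {c Y : ℝ} (hc : 0 < c) (hY : 2 ≤ Y) (F : Finset (ℕ × ℕ)) :
    ∑ p ∈ F, (if 0 < p.1 ∧ 0 < p.2 ∧ Y - 1 < (p.2 : ℝ) then 1 / (p.2 : ℝ) * Real.exp (-c * (p.1 * p.2)) else 0) ≤
      4 / (c * Y) := by
  have h0 : ∀ s t : ℕ, 0 ≤ (if 0 < s ∧ 0 < t ∧ Y - 1 < (t : ℝ) then 1 / (t : ℝ) * Real.exp (-c * (s * t)) else 0) := by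
    intro s t
    split_ifs
    · positivity
    · exact le_rfl
  refine (K3_prod_le F (fun s t => if 0 < s ∧ 0 < t ∧ Y - 1 < (t : ℝ) then
    1 / (t : ℝ) * Real.exp (-c * (s * t)) else 0) h0).trans ?_
  have h1 : ∀ t : ℕ, ∑ s ∈ F.image Prod.fst, (if 0 < s ∧ 0 < t ∧ Y - 1 < (t : ℝ) then
      1 / (t : ℝ) * Real.exp (-c * (s * t)) else 0) ≤
      1 / c * (if 0 < t ∧ Y - 1 < (t : ℝ) then 1 / (t : ℝ) ^ 2 else 0) := by
    intro t
    by_cases h : 0 < t ∧ Y - 1 < (t : ℝ)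
    · have ht : (0 : ℝ) < t := by exact_mod_cast h.1
      rw [if_pos h]
      have h2 := K3_geom (mul_pos hc ht) (F.image Prod.fst)
      calc _ = 1 / (t : ℝ) * ∑ s ∈ F.image Prod.fst, (if 0 < s then Real.exp (-(c * t) * s) else 0) := by
            rw [Finset.mul_sum]
            refine Finset.sum_congr rfl fun s _ => ?_
            by_cases hs : 0 < s
            · rw [if_pos hs, if_pos ⟨hs, h.1, h.2⟩]
              congr 2
              ring
            · rw [if_neg hs, if_neg (fun h' => hs h'.1), mul_zero]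
        _ ≤ 1 / (t : ℝ) * (1 / (c * t)) := mul_le_mul_of_nonneg_left h2 (by positivity)
        _ = _ := by field_simp
    · rw [if_neg h, mul_zero]
      refine le_of_eq (Finset.sum_eq_zero fun s _ => ?_)
      rw [if_neg (fun h' => h ⟨h'.2.1, h'.2.2⟩)]
  refine (Finset.sum_le_sum fun t _ => h1 t).trans ?_
  rw [← Finset.mul_sum]
  refine (mul_le_mul_of_nonneg_left (K3_tail hY _) (by positivity)).trans (le_of_eq ?_)
  field_simp

/-- `∑_{s ≥ 1} e^(-ρ b s t / 2) ≤ 2 / (ρ b t)` (geometric series, `e^y - 1 ≥ y`) and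
`∑_{t > Y - 1, t ≥ 1} t^(-2) ≤ 4 / Y` (`Y ≥ 2`), so the sum is at most `48 B³ / (ρ b Y)`. -/
theorem V1_bound3 {F F1 F2 G G1 G2 : ℝ → ℂ} {B Y : ℝ} (hF : Cut3 F F1 F2 B Y) (hG : Cut3 G G1 G2 B Y)
    {ρ : ℝ} {H H1 H2 : ℝ → ℂ} (hH : Ker3 H H1 H2 B ρ) {b r : ℕ} (hb : 0 < b) (hr : 0 < r)
    (S : Finset (ℕ × ℕ)) :
    ∑ p ∈ S, ‖Phi3 F G H b r p.1 (p.2 + 1) - Phi3 F G H b r p.1 p.2‖ ≤
      48 * B ^ 3 / (ρ * b * Y) := by
  have hB : 1 ≤ B := hF.B1
  have hY : 2 ≤ Y := hF.Y2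
  have hρ := hH.ρ0
  have hb' : (0 : ℝ) < b := by exact_mod_cast hb
  have hc : 0 < ρ * b / 2 := by positivity
  have h1 := K3_double hc hY S
  calc _ ≤ ∑ p ∈ S, 6 * B ^ 3 * (if 0 < p.1 ∧ 0 < p.2 ∧ Y - 1 < (p.2 : ℝ) then
        1 / (p.2 : ℝ) * Real.exp (-(ρ * b / 2) * (p.1 * p.2)) else 0) := by
        refine Finset.sum_le_sum fun p _ => ?_
        refine (norm_D2_le3 hF hG hH hb hr p.1 p.2).trans (le_of_eq ?_)
        split_ifs with h
        · rw [show -ρ * b * (p.1 * p.2) / 2 = -(ρ * b / 2) * (p.1 * p.2) by ring]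
          ring
        · rw [mul_zero]
    _ ≤ 6 * B ^ 3 * (4 / (ρ * b / 2 * Y)) := by
        rw [← Finset.mul_sum]
        exact mul_le_mul_of_nonneg_left h1 (by positivity)
    _ = _ := by
        field_simp
        ring

theorem V2_bound3 {F F1 F2 G G1 G2 : ℝ → ℂ} {B Y : ℝ} (hF : Cut3 F F1 F2 B Y) (hG : Cut3 G G1 G2 B Y)
    {ρ : ℝ} {H H1 H2 : ℝ → ℂ} (hH : Ker3 H H1 H2 B ρ) {b r : ℕ} (hb : 0 < b) (hr : 0 < r)
    (S : Finset (ℕ × ℕ)) :
    ∑ p ∈ S, ‖Phi3 F G H b r (p.1 + 1) p.2 - Phi3 F G H b r p.1 p.2‖ ≤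
      48 * B ^ 3 / (ρ * b * Y) := by
  have hB : 1 ≤ B := hF.B1
  have hY : 2 ≤ Y := hF.Y2
  have hρ := hH.ρ0
  have hb' : (0 : ℝ) < b := by exact_mod_cast hb
  have hc : 0 < ρ * b / 2 := by positivity
  have h1 := K3_double hc hY (S.map (Equiv.prodComm ℕ ℕ).toEmbedding)
  rw [Finset.sum_map] at h1
  simp only [Equiv.coe_toEmbedding, Equiv.prodComm_apply, Prod.fst_swap, Prod.snd_swap] at h1
  calc _ ≤ ∑ p ∈ S, 6 * B ^ 3 * (if 0 < p.2 ∧ 0 < p.1 ∧ Y - 1 < (p.1 : ℝ) then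
        1 / (p.1 : ℝ) * Real.exp (-(ρ * b / 2) * (p.2 * p.1)) else 0) := by
        refine Finset.sum_le_sum fun p _ => ?_
        refine (norm_D1_le3 hF hG hH hb hr p.1 p.2).trans (le_of_eq ?_)
        split_ifs with h
        · rw [show -ρ * b * (p.2 * p.1) / 2 = -(ρ * b / 2) * (p.2 * p.1) by ring]
          ring
        · rw [mul_zero]
    _ ≤ 6 * B ^ 3 * (4 / (ρ * b / 2 * Y)) := by
        rw [← Finset.mul_sum]
        exact mul_le_mul_of_nonneg_left h1 (by positivity)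
    _ = _ := by
        field_simp
        ring

end OOK

end

section

/-!
# The complete sum
-/

open Complex Finset MeasureTheory Filter Topology
open scoped ComplexConjugate

namespace OOK

theorem K3_D2y {F F1 F2 G G1 G2 : ℝ → ℂ} {B Y : ℝ} (hF : Cut3 F F1 F2 B Y) (hG : Cut3 G G1 G2 B Y)
    {ρ : ℝ} {H H1 H2 : ℝ → ℂ} (hH : Ker3 H H1 H2 B ρ) {b r : ℕ} (hb : 0 < b) (hr : 0 < r) (s t : ℕ)
    {y : ℝ} (hy : y ∈ Set.Icc (t : ℝ) (t + 1)) :
    ‖K3_G F G H b r s t - K3_G F G H b r s y‖ ≤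
      if 0 < s ∧ 0 < t ∧ Y - 1 < t then 6 * B ^ 3 / t * Real.exp (-ρ * b * (s * t) / 2) else 0 := by
  have hY := hF.Y2
  have hB : 0 ≤ B := zero_le_one.trans hF.B1
  split_ifs with h
  · obtain ⟨hs, ht, -⟩ := h
    have hb' : (0 : ℝ) < b := by exact_mod_cast hb
    have hr' : (0 : ℝ) < r := by exact_mod_cast hr
    have hs' : (0 : ℝ) < s := by exact_mod_cast hs
    have ht' : (0 : ℝ) < t := by exact_mod_cast ht
    have key := (convex_Icc (t : ℝ) (t + 1)).norm_image_sub_le_of_norm_hasDerivWithin_le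
      (f := fun y : ℝ => K3_G F G H b r s y)
      (f' := fun y : ℝ => K3_Gy F G G1 H H1 b r s y)
      (C := 6 * B ^ 3 / t * Real.exp (-ρ * b * (s * t) / 2)) (x := y) (y := (t : ℝ))
      (fun y hy => by
        have hy0 : 0 < y := ht'.trans_le hy.1
        have hm : (0 : ℝ) < b * (s * y) + r := by positivity
        exact (K3_dy hG hy0 (hH.d1 _ hm)).hasDerivWithinAt)
      (fun y hy => K3_Gy_le hF hG hb' hr' hs' le_rfl ht' hy.1 hH)
      hy (Set.left_mem_Icc.2 (by linarith only [ht']))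
    refine key.trans ?_
    have h1 : ‖(t : ℝ) - y‖ ≤ 1 := by
      rw [Real.norm_eq_abs, abs_le]
      constructor <;> linarith [hy.1, hy.2]
    exact mul_le_of_le_one_right (by positivity) h1
  · have h1 : s = 0 ∨ (t : ℝ) + 1 ≤ Y := by
      by_contra hcon
      push Not at hcon
      apply h
      refine ⟨Nat.pos_of_ne_zero hcon.1, ?_, by linarith⟩
      rcases Nat.eq_zero_or_pos t with h2 | h2
      · rw [h2, Nat.cast_zero] at hcon
        linarith [hcon.2]
      · exact h2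
    unfold K3_G
    rcases h1 with h1 | h1
    · rw [h1, Nat.cast_zero, hF.zero 0 (by linarith only [hY])]
      simp
    · rw [hG.zero t (by linarith only [h1]), hG.zero y (by linarith [hy.2])]
      simp

/-- the row integrals exist -/
theorem K3_row_int {F F1 F2 G G1 G2 : ℝ → ℂ} {B Y : ℝ} (hF : Cut3 F F1 F2 B Y) (hG : Cut3 G G1 G2 B Y)
    {ρ : ℝ} {H H1 H2 : ℝ → ℂ} (hH : Ker3 H H1 H2 B ρ) {b r : ℕ} (hb : 0 < b) (hr : 0 < r) (s : ℕ) :
    IntegrableOn (fun y : ℝ => K3_G F G H b r s y) (Set.Ioi 0) := by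
  have hY := hF.Y2
  have hρ := hH.ρ0
  have hB : 0 ≤ B := zero_le_one.trans hF.B1
  have hb' : (0 : ℝ) < b := by exact_mod_cast hb
  have hr' : (0 : ℝ) < r := by exact_mod_cast hr
  rcases Nat.eq_zero_or_pos s with hs | hs
  · have : (fun y : ℝ => K3_G F G H b r s y) = fun _ => 0 := by
      funext y
      unfold K3_G
      rw [hs, Nat.cast_zero, hF.zero 0 (by linarith only [hY])]
      simp
    rw [this]
    exact integrableOn_zero
  · have hs' : (0 : ℝ) < s := by exact_mod_cast hs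
    have hc : 0 < ρ * b * s := by positivity
    refine ((K3_exp_int hc).1.const_mul (B ^ 3)).mono' ?_ ?_
    · refine ContinuousOn.aestronglyMeasurable (fun y hy => ?_) measurableSet_Ioi
      have hy0 : 0 < y := hy
      have hm : (0 : ℝ) < b * (s * y) + r := by positivity
      exact (K3_dy (F := F) (x := s) hG hy0 (hH.d1 _ hm)).continuousAt.continuousWithinAt
    · refine (ae_restrict_iff' measurableSet_Ioi).2 (Eventually.of_forall fun y hy => ?_)
      have hy0 : 0 < y := hy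
      have hm : (0 : ℝ) < b * (s * y) + r := by positivity
      unfold K3_G
      rw [norm_mul, norm_mul]
      have h3 := hH.b0 _ hm
      have h4 : Real.exp (-ρ * (b * (s * y) + r)) ≤ Real.exp (-(ρ * b * s) * y) := by
        apply Real.exp_le_exp.2
        have : 0 < ρ * r := by positivity
        linarith only [this]
      calc ‖F s‖ * ‖G y‖ * ‖H (b * (s * y) + r)‖
          ≤ B * B * (B * Real.exp (-(ρ * b * s) * y)) := by
            refine mul_le_mul (mul_le_mul (hF.bd0 _) (hG.bd0 _) (norm_nonneg _) hB)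
              (h3.trans (mul_le_mul_of_nonneg_left h4 hB)) (norm_nonneg _) (by positivity)
        _ = B ^ 3 * Real.exp (-(ρ * b * s) * y) := by ring

/-- substitution in the row integrals -/
theorem K3_row_eq {F F1 F2 : ℝ → ℂ} {B Y : ℝ} (hF : Cut3 F F1 F2 B Y) (G H : ℝ → ℂ) (b r : ℕ) (s : ℕ) :
    ∫ y in Set.Ioi (0 : ℝ), K3_G F G H b r s y =
      ∫ m in Set.Ioi (0 : ℝ), F s * G (m / s) / (s : ℂ) * H (b * m + r) := by
  have hY := hF.Y2
  rcases Nat.eq_zero_or_pos s with hs | hs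
  · rw [hs]
    have h0 : F ((0 : ℕ) : ℝ) = 0 := by
      rw [Nat.cast_zero]
      exact hF.zero 0 (by linarith only [hY])
    simp only [K3_G, h0]
    simp
  · have hs' : (0 : ℝ) < s := by exact_mod_cast hs
    have hsc : (s : ℂ) ≠ 0 := Nat.cast_ne_zero.mpr hs.ne'
    have h1 := integral_comp_mul_left_Ioi (fun m : ℝ => F s * G (m / s) / (s : ℂ) * H (b * m + r)) 0 hs'
    rw [mul_zero] at h1
    have h2 : ∀ y : ℝ, K3_G F G H b r s y = (s : ℂ) * (F s * G (s * y / s) / (s : ℂ) * H (b * (s * y) + r)) := by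
      intro y
      unfold K3_G
      rw [mul_div_cancel_left₀ y hs'.ne']
      field_simp
    simp only [h2]
    rw [integral_const_mul, h1, Complex.real_smul]
    push_cast
    rw [← mul_assoc, mul_inv_cancel₀ hsc, one_mul]

/-- integrability and decay of the rows, as functions of `m` -/
theorem K3_col_int {F F1 F2 G G1 G2 : ℝ → ℂ} {B Y : ℝ} (hF : Cut3 F F1 F2 B Y) (hG : Cut3 G G1 G2 B Y)
    {ρ : ℝ} {H H1 H2 : ℝ → ℂ} (hH : Ker3 H H1 H2 B ρ) {b r : ℕ} (hb : 0 < b) (hr : 0 < r) (s : ℕ) :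
    IntegrableOn (fun m : ℝ => F s * G (m / s) / (s : ℂ) * H (b * m + r)) (Set.Ioi 0) ∧
    ∫ m in Set.Ioi (0 : ℝ), ‖F s * G (m / s) / (s : ℂ) * H (b * m + r)‖ ≤
      B ^ 3 * Real.exp (-(ρ * b / 2) * s) * (1 / (ρ * b / 2)) := by
  have hY := hF.Y2
  have hρ := hH.ρ0
  have hB : 0 ≤ B := zero_le_one.trans hF.B1
  have hb' : (0 : ℝ) < b := by exact_mod_cast hb
  have hr' : (0 : ℝ) < r := by exact_mod_cast hr
  have hc : 0 < ρ * b / 2 := by positivity
  rcases Nat.eq_zero_or_pos s with hs | hs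
  · rw [hs]
    have h0 : F ((0 : ℕ) : ℝ) = 0 := by
      rw [Nat.cast_zero]
      exact hF.zero 0 (by linarith only [hY])
    simp only [h0]
    constructor
    · simp
    · simp only [zero_mul, zero_div, norm_zero, integral_zero]
      positivity
  · have hs' : (0 : ℝ) < s := by exact_mod_cast hs
    have hs1 : (1 : ℝ) ≤ s := by exact_mod_cast hs
    obtain ⟨hi, hv⟩ := K3_exp_int hc
    have hbd : ∀ m ∈ Set.Ioi (0 : ℝ), ‖F s * G (m / s) / (s : ℂ) * H (b * m + r)‖ ≤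
        B ^ 3 * Real.exp (-(ρ * b / 2) * s) * Real.exp (-(ρ * b / 2) * m) := by
      intro m hm
      have hm0 : 0 < m := hm
      have hm' : (0 : ℝ) < b * m + r := by positivity
      rcases le_or_gt (m / s) Y with h | h
      · rw [hG.zero _ h]
        simp only [mul_zero, zero_div, zero_mul, norm_zero]
        positivity
      · have hms : (s : ℝ) ≤ m := by
          rw [lt_div_iff₀ hs'] at h
          nlinarith only [h, hs', hY]
        rw [norm_mul, norm_div, norm_mul, Complex.norm_natCast]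
        have h3 := hH.b0 _ hm'
        have h4 : Real.exp (-ρ * (b * m + r)) ≤ Real.exp (-(ρ * b / 2) * s) * Real.exp (-(ρ * b / 2) * m) := by
          rw [← Real.exp_add]
          apply Real.exp_le_exp.2
          have h5 : 0 < ρ * r := by positivity
          have h6 : ρ * b / 2 * s ≤ ρ * b / 2 * m := mul_le_mul_of_nonneg_left hms hc.le
          linarith only [h5, h6]
        have h7 : ‖F s‖ * ‖G (m / s)‖ / s ≤ B * B := by
          refine (div_le_self (by positivity) hs1).trans ?_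
          exact mul_le_mul (hF.bd0 _) (hG.bd0 _) (norm_nonneg _) hB
        calc ‖F s‖ * ‖G (m / s)‖ / s * ‖H (b * m + r)‖
            ≤ B * B * (B * (Real.exp (-(ρ * b / 2) * s) * Real.exp (-(ρ * b / 2) * m))) :=
              mul_le_mul h7 (h3.trans (mul_le_mul_of_nonneg_left h4 hB)) (norm_nonneg _) (by positivity)
          _ = _ := by ring
    have hint : IntegrableOn (fun m : ℝ => F s * G (m / s) / (s : ℂ) * H (b * m + r)) (Set.Ioi 0) := by
      refine (hi.const_mul (B ^ 3 * Real.exp (-(ρ * b / 2) * s))).mono' ?_ ?_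
      · refine ContinuousOn.aestronglyMeasurable ?_ measurableSet_Ioi
        refine ContinuousOn.mul (ContinuousOn.div_const (ContinuousOn.mul continuousOn_const ?_) _) ?_
        · exact hG.cont.comp (continuousOn_id.div_const _) fun x hx => div_pos hx hs'
        · intro m hm
          have hm0 : 0 < m := hm
          have hm' : (0 : ℝ) < b * m + r := by positivity
          have h8 : ContinuousAt H (b * m + r) := (hH.d1 _ hm').continuousAt
          have h9 : ContinuousAt (fun m : ℝ => (b : ℝ) * m + r) m := by fun_prop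
          exact (ContinuousAt.comp (g := H) (f := fun m : ℝ => (b : ℝ) * m + r) h8 h9).continuousWithinAt
      · exact (ae_restrict_iff' measurableSet_Ioi).2 (Eventually.of_forall hbd)
    refine ⟨hint, ?_⟩
    refine (setIntegral_mono_on hint.norm (hi.const_mul (B ^ 3 * Real.exp (-(ρ * b / 2) * s)))
      measurableSet_Ioi hbd).trans (le_of_eq ?_)
    rw [integral_const_mul, hv]

theorem K3_sum {F F1 F2 G G1 G2 : ℝ → ℂ} {B Y : ℝ} (hF : Cut3 F F1 F2 B Y) (hG : Cut3 G G1 G2 B Y)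
    {ρ : ℝ} {H H1 H2 : ℝ → ℂ} (hH : Ker3 H H1 H2 B ρ) {b r : ℕ} (hb : 0 < b) (hr : 0 < r)
    {Y' : ℝ} (hYY : Y ≤ Y') (hJ : ∀ m, Y' ^ 2 ≤ m → J3 F G m = 0) :
    ‖∑' p : ℕ × ℕ, Phi3 F G H b r p.1 p.2‖ ≤ 60 * B ^ 3 * (1 / (ρ * b * Y) + Y' ^ (21 / 10 : ℝ)) := by
  classical
  have hY := hF.Y2
  have hY0 : 0 < Y := by linarith
  have hY'0 : 0 < Y' := by linarith
  have hρ := hH.ρ0
  have hB : 0 ≤ B := zero_le_one.trans hF.B1
  have hb' : (0 : ℝ) < b := by exact_mod_cast hb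
  have hr' : (0 : ℝ) < r := by exact_mod_cast hr
  have hc : 0 < ρ * b / 2 := by positivity
  -- first step
  set D : ℕ × ℕ → ℝ := fun p => if 0 < p.1 ∧ 0 < p.2 ∧ Y - 1 < (p.2 : ℝ) then
    6 * B ^ 3 / (p.2 : ℝ) * Real.exp (-ρ * b * (p.1 * p.2) / 2) else 0 with hD
  have hD0 : ∀ p, 0 ≤ D p := by
    intro p
    simp only [hD]
    split_ifs
    · positivity
    · exact le_rfl
  have hDF : ∀ S : Finset (ℕ × ℕ), ∑ p ∈ S, D p ≤ 48 * B ^ 3 / (ρ * b * Y) := by
    intro S
    have h1 := K3_double hc hY S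
    calc ∑ p ∈ S, D p = 6 * B ^ 3 * ∑ p ∈ S, (if 0 < p.1 ∧ 0 < p.2 ∧ Y - 1 < (p.2 : ℝ) then
          1 / (p.2 : ℝ) * Real.exp (-(ρ * b / 2) * (p.1 * p.2)) else 0) := by
          rw [Finset.mul_sum]
          refine Finset.sum_congr rfl fun p _ => ?_
          simp only [hD]
          split_ifs with h
          · rw [show -ρ * b * (p.1 * p.2) / 2 = -(ρ * b / 2) * (p.1 * p.2) by ring]
            ring
          · rw [mul_zero]
      _ ≤ 6 * B ^ 3 * (4 / (ρ * b / 2 * Y)) := mul_le_mul_of_nonneg_left h1 (by positivity)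
      _ = _ := by
          field_simp
          ring
  have hDs : Summable D := summable_of_sum_le hD0 hDF
  have hDt : ∑' p, D p ≤ 48 * B ^ 3 / (ρ * b * Y) := hDs.tsum_le_of_sum_le hDF
  have hΦ := summable_Phi3 hF hG hH hb hr
  have hrow : ∀ s : ℕ, ‖∑' t : ℕ, Phi3 F G H b r s t - ∫ y in Set.Ioi (0 : ℝ), K3_G F G H b r s y‖ ≤
      ∑' t : ℕ, D (s, t) := by
    intro s
    refine K3_em (φ := fun y => K3_G F G H b r s y) (D := fun t => D (s, t)) (K3_row_int hF hG hH hb hr s)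
      (hΦ.prod_factor s) (fun t => hD0 _) (hDs.prod_factor s) fun t y hy => ?_
    exact K3_D2y hF hG hH hb hr s t hy
  have hA : Summable (fun s : ℕ => ∑' t : ℕ, Phi3 F G H b r s t) := hΦ.prod
  have hAD : Summable (fun s : ℕ => ∑' t : ℕ, D (s, t)) := hDs.prod
  have hAI : Summable (fun s : ℕ => ∑' t : ℕ, Phi3 F G H b r s t - ∫ y in Set.Ioi (0 : ℝ), K3_G F G H b r s y) :=
    Summable.of_norm_bounded hAD hrow
  have hstep1 : ‖∑' s : ℕ, (∑' t : ℕ, Phi3 F G H b r s t - ∫ y in Set.Ioi (0 : ℝ), K3_G F G H b r s y)‖ ≤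
      48 * B ^ 3 / (ρ * b * Y) := by
    refine (tsum_of_norm_bounded hAD.hasSum hrow).trans ?_
    rw [← hDs.tsum_prod]
    exact hDt
  -- second step
  obtain ⟨hi, hv⟩ := K3_exp_int hc
  have hgeo : Summable (fun s : ℕ => B ^ 3 * Real.exp (-(ρ * b / 2) * s) * (1 / (ρ * b / 2))) := by
    refine Summable.mul_right _ (Summable.mul_left _ ?_)
    have h1 : ∀ s : ℕ, Real.exp (-(ρ * b / 2) * s) = Real.exp (-(ρ * b / 2)) ^ s := by
      intro s
      rw [← Real.exp_nat_mul]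
      congr 1
      ring
    simp only [h1]
    exact summable_geometric_of_lt_one (Real.exp_pos _).le (by rw [Real.exp_lt_one_iff]; linarith only [hc])
  have hexch := hasSum_integral_of_summable_integral_norm (μ := volume.restrict (Set.Ioi (0 : ℝ)))
    (F := fun (s : ℕ) (m : ℝ) => F s * G (m / s) / (s : ℂ) * H (b * m + r))
    (fun s => (K3_col_int hF hG hH hb hr s).1)
    (Summable.of_nonneg_of_le (fun s => integral_nonneg fun m => norm_nonneg _)
      (fun s => (K3_col_int hF hG hH hb hr s).2) hgeo)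
  have hI : ∑' s : ℕ, ∫ y in Set.Ioi (0 : ℝ), K3_G F G H b r s y =
      ∫ m in Set.Ioi (0 : ℝ), ∑' s : ℕ, F s * G (m / s) / (s : ℂ) * H (b * m + r) := by
    rw [← hexch.tsum_eq]
    exact tsum_congr fun s => K3_row_eq hF G H b r s
  have htail : Summable (fun n : ℕ => if 0 < n ∧ Y - 1 < (n : ℝ) then 3 * B ^ 2 / (n : ℝ) ^ 2 else 0) ∧
      ∑' n : ℕ, (if 0 < n ∧ Y - 1 < (n : ℝ) then 3 * B ^ 2 / (n : ℝ) ^ 2 else 0) ≤ 12 * B ^ 2 / Y := by
    have h0 : ∀ n : ℕ, 0 ≤ (if 0 < n ∧ Y - 1 < (n : ℝ) then 3 * B ^ 2 / (n : ℝ) ^ 2 else 0) := by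
      intro n
      split_ifs
      · positivity
      · exact le_rfl
    have h1 : ∀ S : Finset ℕ, ∑ n ∈ S, (if 0 < n ∧ Y - 1 < (n : ℝ) then 3 * B ^ 2 / (n : ℝ) ^ 2 else 0) ≤
        12 * B ^ 2 / Y := by
      intro S
      have h2 := K3_tail hY S
      calc _ = 3 * B ^ 2 * ∑ t ∈ S, (if 0 < t ∧ Y - 1 < (t : ℝ) then 1 / (t : ℝ) ^ 2 else 0) := by
            rw [Finset.mul_sum]
            refine Finset.sum_congr rfl fun n _ => ?_
            split_ifs
            · ring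
            · rw [mul_zero]
        _ ≤ 3 * B ^ 2 * (4 / Y) := mul_le_mul_of_nonneg_left h2 (by positivity)
        _ = _ := by ring
    have h2 := summable_of_sum_le h0 h1
    exact ⟨h2, h2.tsum_le_of_sum_le h1⟩
  have hcol : ∀ m ∈ Set.Ioi (0 : ℝ), ‖∑' s : ℕ, F s * G (m / s) / (s : ℂ)‖ ≤
      12 * B ^ 2 / Y + (if m < Y' ^ 2 then 2 * B ^ 2 * Real.log Y' else 0) := by
    intro m hm
    have hm0 : 0 < m := hm
    have h1 := K3_em (φ := fun x : ℝ => F x * G (m / x) / x)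
      (D := fun n : ℕ => if 0 < n ∧ Y - 1 < (n : ℝ) then 3 * B ^ 2 / (n : ℝ) ^ 2 else 0)
      (K3_psi_int hF hG hm0) (by simpa using K3_psi_sum hF hG m) (fun n => by
        split_ifs
        · positivity
        · exact le_rfl) htail.1 (fun n y hy => K3_psi_diff hF hG hm0 n hy)
    have h2 : ‖∫ x in Set.Ioi (0 : ℝ), F x * G (m / x) / x‖ ≤
        (if m < Y' ^ 2 then 2 * B ^ 2 * Real.log Y' else 0) := by
      split_ifs with h
      · exact K3_J_le hF hG hYY hm0 h.le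
      · have := hJ m (not_lt.1 h)
        unfold J3 at this
        rw [this, norm_zero]
    have h3 : ∑' n : ℕ, F (n : ℝ) * G (m / (n : ℝ)) / ((n : ℝ) : ℂ) = ∑' s : ℕ, F s * G (m / s) / (s : ℂ) :=
      tsum_congr fun n => by simp
    simp only [h3] at h1
    have h4 := norm_add_le (∑' s : ℕ, F s * G (m / s) / (s : ℂ) - ∫ x in Set.Ioi (0 : ℝ), F x * G (m / x) / x)
      (∫ x in Set.Ioi (0 : ℝ), F x * G (m / x) / x)
    rw [sub_add_cancel] at h4
    exact h4.trans (add_le_add (h1.trans htail.2) h2)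
  have hstep2 : ‖∫ m in Set.Ioi (0 : ℝ), ∑' s : ℕ, F s * G (m / s) / (s : ℂ) * H (b * m + r)‖ ≤
      12 * B ^ 3 / (ρ * b * Y) + 2 * B ^ 3 * Real.log Y' * Y' ^ 2 := by
    have hlog : 0 ≤ Real.log Y' := Real.log_nonneg (by linarith)
    have hc' : 0 < ρ * b := by positivity
    obtain ⟨hi', hv'⟩ := K3_exp_int hc'
    have hg1 : Integrable (fun m : ℝ => 12 * B ^ 3 / Y * Real.exp (-(ρ * b) * m)) (volume.restrict (Set.Ioi 0)) :=
      hi'.const_mul _
    have hg2 : Integrable ((Set.Iio (Y' ^ 2)).indicator fun _ : ℝ => 2 * B ^ 3 * Real.log Y')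
        (volume.restrict (Set.Ioi 0)) := by
      rw [integrable_indicator_iff measurableSet_Iio]
      refine (integrableOn_const (by
        rw [Measure.restrict_apply measurableSet_Iio, Set.inter_comm, Set.Ioi_inter_Iio, Real.volume_Ioo]
        exact ENNReal.ofReal_ne_top))
    have hbd : ∀ m ∈ Set.Ioi (0 : ℝ), ‖∑' s : ℕ, F s * G (m / s) / (s : ℂ) * H (b * m + r)‖ ≤
        12 * B ^ 3 / Y * Real.exp (-(ρ * b) * m) + (Set.Iio (Y' ^ 2)).indicator (fun _ : ℝ => 2 * B ^ 3 * Real.log Y') m := by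
      intro m hm
      have hm0 : 0 < m := hm
      have hm' : (0 : ℝ) < b * m + r := by positivity
      rw [tsum_mul_right, norm_mul]
      have h1 := hcol m hm
      have h2 := hH.b0 _ hm'
      have h3 : Real.exp (-ρ * (b * m + r)) ≤ Real.exp (-(ρ * b) * m) := by
        apply Real.exp_le_exp.2
        have : 0 < ρ * r := by positivity
        linarith only [this]
      have h4 : Real.exp (-(ρ * b) * m) ≤ 1 := by
        rw [Real.exp_le_one_iff]
        have : 0 < ρ * b * m := by positivity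
        linarith only [this]
      have h5 : ‖H (b * m + r)‖ ≤ B * Real.exp (-(ρ * b) * m) := h2.trans (mul_le_mul_of_nonneg_left h3 hB)
      have h6 : 0 ≤ (if m < Y' ^ 2 then 2 * B ^ 2 * Real.log Y' else 0) := by
        split_ifs
        · positivity
        · exact le_rfl
      calc _ ≤ (12 * B ^ 2 / Y + (if m < Y' ^ 2 then 2 * B ^ 2 * Real.log Y' else 0)) *
            (B * Real.exp (-(ρ * b) * m)) := mul_le_mul h1 h5 (norm_nonneg _) (by positivity)
        _ = 12 * B ^ 3 / Y * Real.exp (-(ρ * b) * m) +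
            (if m < Y' ^ 2 then 2 * B ^ 2 * Real.log Y' else 0) * B * Real.exp (-(ρ * b) * m) := by ring
        _ ≤ 12 * B ^ 3 / Y * Real.exp (-(ρ * b) * m) +
            (if m < Y' ^ 2 then 2 * B ^ 2 * Real.log Y' else 0) * B * 1 := by
            have := mul_le_mul_of_nonneg_left h4 (mul_nonneg h6 hB)
            linarith only [this]
        _ = _ := by
            rw [mul_one]
            congr 1
            by_cases h : m < Y' ^ 2
            · rw [if_pos h, Set.indicator_of_mem (Set.mem_Iio.2 h)]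
              ring
            · rw [if_neg h, Set.indicator_of_notMem (show m ∉ Set.Iio (Y' ^ 2) from h), zero_mul]
    refine (norm_integral_le_of_norm_le (hg1.add hg2)
      ((ae_restrict_iff' measurableSet_Ioi).2 (Eventually.of_forall hbd))).trans (le_of_eq ?_)
    rw [integral_add' hg1 hg2, integral_const_mul, hv', integral_indicator measurableSet_Iio,
      setIntegral_const]
    have h7 : (volume.restrict (Set.Ioi (0 : ℝ))).real (Set.Iio (Y' ^ 2)) = Y' ^ 2 := by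
      rw [measureReal_restrict_apply measurableSet_Iio, Set.inter_comm, Set.Ioi_inter_Iio,
        Real.volume_real_Ioo_of_le (by positivity), sub_zero]
    rw [h7, smul_eq_mul]
    field_simp
  -- conclusion
  have htot : ∑' p : ℕ × ℕ, Phi3 F G H b r p.1 p.2 =
      ∑' s : ℕ, (∑' t : ℕ, Phi3 F G H b r s t - ∫ y in Set.Ioi (0 : ℝ), K3_G F G H b r s y) +
      ∫ m in Set.Ioi (0 : ℝ), ∑' s : ℕ, F s * G (m / s) / (s : ℂ) * H (b * m + r) := by
    rw [← hI, hΦ.tsum_prod]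
    have hIs : Summable (fun s : ℕ => ∫ y in Set.Ioi (0 : ℝ), K3_G F G H b r s y) := by
      have := hA.sub hAI
      simpa using this
    rw [hA.tsum_sub hIs, sub_add_cancel]
  rw [htot]
  refine (norm_add_le _ _).trans ((add_le_add hstep1 hstep2).trans ?_)
  have hlog : Real.log Y' ≤ 10 * Y' ^ (1 / 10 : ℝ) := by
    have := Real.log_le_rpow_div hY'0.le (show (0 : ℝ) < 1 / 10 by norm_num)
    linarith only [this]
  have hpow : Y' ^ (1 / 10 : ℝ) * Y' ^ 2 = Y' ^ (21 / 10 : ℝ) := by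
    rw [← Real.rpow_natCast, ← Real.rpow_add hY'0]
    norm_num
  have h1 : 2 * B ^ 3 * Real.log Y' * Y' ^ 2 ≤ 20 * B ^ 3 * Y' ^ (21 / 10 : ℝ) := by
    rw [← hpow]
    have h2 : Real.log Y' * Y' ^ 2 ≤ 10 * Y' ^ (1 / 10 : ℝ) * Y' ^ 2 :=
      mul_le_mul_of_nonneg_right hlog (by positivity)
    have h3 := mul_le_mul_of_nonneg_left h2 (show 0 ≤ 2 * B ^ 3 by positivity)
    linarith only [h3]
  have h2 : 0 ≤ B ^ 3 * Y' ^ (21 / 10 : ℝ) := by positivity
  have h3 : 48 * B ^ 3 / (ρ * b * Y) + 12 * B ^ 3 / (ρ * b * Y) = 60 * B ^ 3 * (1 / (ρ * b * Y)) := by ring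
  rw [mul_add, ← h3]
  linarith only [h1, h2]

end OOK

end
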