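import Pool.Agent.Lib.MP_0f5a55_nt.OM.K000
import Pool.Agent.Lib.MP_0f5a55_nt.OM.K006
import Pool.Agent.Lib.MP_0f5a55_nt.OM.K010
import Pool.Agent.Lib.MP_0f5a55_nt.OM.K011

section

section F_Q04

open Complex MeasureTheory Set Filter Topology
open scoped ComplexConjugate FourierTransform

namespace LZ

/-- the function `t^21 exp(-t)` on `t > 0` -/
noncomputable def Q04_g (t : ℝ) : ℂ := (((max 0 t) ^ 21 * Real.exp (-t) : ℝ) : ℂ)

/-- its transform -/
noncomputable def Q04_h (u : ℝ) : ℂ := (Nat.factorial 21 : ℂ) * ((1 + (u : ℂ) * I) ^ 22)⁻¹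

theorem Q04_g_cont : Continuous Q04_g := by
  unfold Q04_g
  fun_prop

theorem Q04_g_ind : Q04_g = (Ioi (0 : ℝ)).indicator
    (fun x : ℝ => (x : ℂ) ^ ((22 : ℂ) - 1) * cexp (-(1 * x))) := by
  funext t
  by_cases ht : t ∈ Ioi (0 : ℝ)
  · rw [Set.indicator_of_mem ht]
    have ht0 : 0 < t := ht
    unfold Q04_g
    rw [max_eq_right ht0.le]
    have h1 : (22 : ℂ) - 1 = ((21 : ℕ) : ℂ) := by norm_num
    rw [h1, Complex.cpow_natCast]
    push_cast
    rw [one_mul]
  · rw [Set.indicator_of_notMem ht]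
    have ht0 : t ≤ 0 := not_lt.1 ht
    unfold Q04_g
    rw [max_eq_left ht0]
    simp

theorem Q04_g_int : Integrable Q04_g := by
  rw [Q04_g_ind, integrable_indicator_iff measurableSet_Ioi]
  have h := LZX.exp_int_intg (s := 22) (by norm_num) (W := 1) (by norm_num)
  exact h

theorem Q04_ne (u : ℝ) : (1 + (u : ℂ) * I) ≠ 0 := by
  intro h
  have := congrArg Complex.re h
  simp at this

theorem Q04_h_cont : Continuous Q04_h := by
  unfold Q04_h
  apply Continuous.mul continuous_const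
  apply Continuous.inv₀
  · fun_prop
  · intro u
    exact pow_ne_zero _ (Q04_ne u)

theorem Q04_h_int : Integrable Q04_h := by
  have hI := integrable_inv_one_add_sq.const_mul ‖(Nat.factorial 21 : ℂ)‖
  apply hI.mono' Q04_h_cont.aestronglyMeasurable
  filter_upwards with u
  unfold Q04_h
  rw [norm_mul, norm_inv, norm_pow]
  apply mul_le_mul_of_nonneg_left _ (norm_nonneg _)
  have h1 : ‖(1 + (u : ℂ) * I)‖ ^ 2 = 1 + u ^ 2 := by
    rw [← Complex.normSq_eq_norm_sq, Complex.normSq_apply]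
    simp
    ring
  have h2 : (1 : ℝ) ≤ 1 + u ^ 2 := by nlinarith [sq_nonneg u]
  apply inv_anti₀ (by linarith)
  calc 1 + u ^ 2 = (1 + u ^ 2) ^ 1 := (pow_one _).symm
    _ ≤ (1 + u ^ 2) ^ 11 := pow_le_pow_right₀ h2 (by norm_num)
    _ = ‖(1 + (u : ℂ) * I)‖ ^ 22 := by rw [← h1]; ring

theorem Q04_fourier (w : ℝ) : 𝓕 Q04_g w = Q04_h (2 * Real.pi * w) := by
  rw [Real.fourier_real_eq_integral_exp_smul]
  have h1 : ∀ v : ℝ, cexp (((-2 * Real.pi * v * w : ℝ) : ℂ) * I) • Q04_g v =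
      (Ioi (0 : ℝ)).indicator (fun x : ℝ => (x : ℂ) ^ ((22 : ℂ) - 1) *
        cexp (-((1 + ((2 * Real.pi * w : ℝ) : ℂ) * I) * x))) v := by
    intro v
    rw [Q04_g_ind]
    by_cases hv : v ∈ Ioi (0 : ℝ)
    · rw [Set.indicator_of_mem hv, Set.indicator_of_mem hv, smul_eq_mul]
      have : cexp (-((1 + ((2 * Real.pi * w : ℝ) : ℂ) * I) * v)) =
          cexp (((-2 * Real.pi * v * w : ℝ) : ℂ) * I) * cexp (-(1 * (v : ℂ))) := by
        rw [← Complex.exp_add]
        congr 1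
        push_cast
        ring
      rw [this]; ring
    · rw [Set.indicator_of_notMem hv, Set.indicator_of_notMem hv, smul_zero]
  simp_rw [h1]
  rw [integral_indicator measurableSet_Ioi]
  rw [LZX.exp_int (s := 22) (by norm_num) (W := 1 + ((2 * Real.pi * w : ℝ) : ℂ) * I) (by simp)]
  unfold Q04_h
  have h2 : Gamma (22 : ℂ) = (Nat.factorial 21 : ℂ) := by
    have := Complex.Gamma_nat_eq_factorial 21
    rw [← this]
    congr 1
    norm_num
  have h3 : (1 + ((2 * Real.pi * w : ℝ) : ℂ) * I) ^ (-(22 : ℂ)) =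
      ((1 + ((2 * Real.pi * w : ℝ) : ℂ) * I) ^ 22)⁻¹ := by
    rw [Complex.cpow_neg]
    congr 1
    have : (22 : ℂ) = ((22 : ℕ) : ℂ) := by norm_num
    rw [this, Complex.cpow_natCast]
  rw [h2, h3]
  ring

theorem Q04_inv (X : ℝ) : Q04_g X = ((2 * Real.pi : ℝ) : ℂ)⁻¹ * ∫ u : ℝ, cexp ((u * X : ℝ) * I) * Q04_h u := by
  have hpi : (0 : ℝ) < 2 * Real.pi := Real.two_pi_pos
  have hF : 𝓕 Q04_g = fun w => Q04_h (2 * Real.pi * w) := funext Q04_fourier
  have hFi : Integrable (𝓕 Q04_g) := by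
    rw [hF]
    exact Q04_h_int.comp_mul_left' hpi.ne'
  have h1 := Q04_g_int.fourierInv_fourier_eq hFi (Q04_g_cont.continuousAt (x := X))
  rw [← h1, Real.fourierInv_eq_fourier_neg, Real.fourier_real_eq_integral_exp_smul, hF]
  have h2 : ∀ v : ℝ, cexp (((-2 * Real.pi * v * -X : ℝ) : ℂ) * I) • Q04_h (2 * Real.pi * v) =
      (fun u : ℝ => cexp ((u * X : ℝ) * I) * Q04_h u) (2 * Real.pi * v) := by
    intro v
    simp only [smul_eq_mul]
    congr 2
    push_cast
    ring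
  simp_rw [h2]
  rw [MeasureTheory.Measure.integral_comp_mul_left (fun u : ℝ => cexp ((u * X : ℝ) * I) * Q04_h u),
    abs_of_pos (inv_pos.2 hpi), Complex.real_smul]
  push_cast
  rfl

/-- (0.1): Fourier inversion for g(x) = x^21 exp(-x) on x>0, 0 on x<=0 (continuous, integrable, transform
21!/(1+iu)^22 integrable); with X = 1-x: wt x = integral kk(u) exp(-(1+iu)x) du, for every real x. -/
theorem wt_eq (x : ℝ) : (wt x : ℂ) = ∫ u : ℝ, kk u * exp (-((1 + u * I) * x)) := by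
  have h1 : ∀ u : ℝ, kk u * exp (-((1 + u * I) * x)) =
      cexp (((1 - x : ℝ) : ℂ)) * (((2 * Real.pi : ℝ) : ℂ)⁻¹ *
        (cexp ((u * (1 - x) : ℝ) * I) * Q04_h u)) := by
    intro u
    unfold kk Q04_h
    have h2 : cexp (1 + u * I) * cexp (-((1 + u * I) * x)) =
        cexp (((1 - x : ℝ) : ℂ)) * cexp ((u * (1 - x) : ℝ) * I) := by
      rw [← Complex.exp_add, ← Complex.exp_add]
      congr 1
      push_cast
      ring
    calc _ = (Nat.factorial 21 : ℂ) / (2 * Real.pi) * ((1 + u * I) ^ 22)⁻¹ *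
          (cexp (1 + u * I) * cexp (-((1 + u * I) * x))) := by ring
      _ = _ := by rw [h2]; push_cast; ring
  simp_rw [h1]
  rw [integral_const_mul, integral_const_mul, ← Q04_inv (1 - x)]
  unfold Q04_g wt
  rw [← Complex.ofReal_exp]
  rw [← Complex.ofReal_mul]
  congr 1
  rw [mul_left_comm, ← Real.exp_add]
  simp

end LZ

end F_Q04

section F_Q06

open Complex MeasureTheory Set Filter Topology
open scoped ComplexConjugate

namespace LZ

private theorem Q06_kk_int : Integrable kk := by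
  obtain ⟨h1, h2⟩ := kk_facts
  refine h2.mono h1.aestronglyMeasurable (Eventually.of_forall fun u => ?_)
  rw [Real.norm_of_nonneg (by positivity)]
  have h3 : (1 : ℝ) ≤ (1 + |u|) ^ 16 := one_le_pow₀ (by linarith [abs_nonneg u])
  nlinarith [norm_nonneg (kk u)]

private theorem Q06_phi_int (n : ℕ) (hn : 0 < n) (l : ℝ) (e c : ℂ) :
    Integrable (fun u : ℝ => c * (kk u * (n : ℂ) ^ (-(1 + e + (1 + u * I) / l)))) := by
  apply Integrable.const_mul
  have hn0 : (n : ℂ) ≠ 0 := by exact_mod_cast hn.ne'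
  have hcont : Continuous (fun u : ℝ => (n : ℂ) ^ (-(1 + e + (1 + u * I) / l))) := by
    refine Continuous.const_cpow ?_ (Or.inl hn0)
    fun_prop
  refine Q06_kk_int.mul_bdd (c := (n : ℝ) ^ (-(1 + e.re + 1 / l))) hcont.aestronglyMeasurable
    (Eventually.of_forall fun u => ?_)
  rw [Complex.norm_natCast_cpow_of_pos hn]
  apply le_of_eq
  congr 1
  have : ((1 + (u : ℂ) * I) / (l : ℂ)).re = 1 / l := by
    rw [Complex.div_ofReal_re]
    simp
  simp only [neg_re, add_re, one_re, this]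

private theorem Q06_phi_val (n : ℕ) (hn : 0 < n) (l : ℝ) (e : ℂ) :
    (wt (Real.log n / l) : ℂ) * (n : ℂ) ^ (-1 - e) =
      ∫ u : ℝ, kk u * (n : ℂ) ^ (-(1 + e + (1 + u * I) / l)) := by
  have hn0 : (n : ℂ) ≠ 0 := by exact_mod_cast hn.ne'
  rw [wt_eq, ← integral_mul_const]
  refine integral_congr_ae (Eventually.of_forall fun u => ?_)
  simp only
  rw [mul_assoc]
  congr 1
  rw [Complex.cpow_def_of_ne_zero hn0, Complex.cpow_def_of_ne_zero hn0, ← Complex.exp_add]
  congr 1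
  have hlog : Complex.log (n : ℂ) = (Real.log n : ℂ) := (Complex.natCast_log).symm
  rw [hlog]
  push_cast
  ring

/-- Insert wt_eq (x = log n/l) for the four weights, exchange the finite sum with the integral over Fin 4 → ℝ
(product of four integrals: integral_fintype_prod_eq_prod) and use euler4. -/
theorem QQ_integral (z : ℕ) (lam : Fin 4 → ℝ) (l : ℝ) (hl : 0 < l) (e : Fin 4 → ℂ) (e4 : ℂ) :
    QQ z lam l e e4 = ∫ u : Fin 4 → ℝ, (∏ j, kk (u j)) *
      ∏ p ∈ PP z, EP (fun j => -(lam j : ℂ) * (p : ℂ) ^ (-(Aex l e u j))) ((p : ℂ) ^ (1 + e4)) := by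
  have hP : ∀ p ∈ PP z, p.Prime := fun p hp => (Finset.mem_filter.1 hp).2
  have hpos : ∀ S ∈ Fintype.piFinset (fun _ : Fin 4 => (PP z).powerset), ∀ j, 0 < nS (S j) := by
    intro S hS j
    have h1 := Fintype.mem_piFinset.1 hS j
    rw [Finset.mem_powerset] at h1
    exact Finset.prod_pos fun p hp => (hP p (h1 hp)).pos
  set φ : (Fin 4 → Finset ℕ) → Fin 4 → ℝ → ℂ := fun S j u =>
    (((-(lam j)) ^ (S j).card : ℝ) : ℂ) *
      (kk u * (nS (S j) : ℂ) ^ (-(1 + e j + (1 + u * I) / l))) with hφ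
  have hint : ∀ S ∈ Fintype.piFinset (fun _ : Fin 4 => (PP z).powerset), ∀ j,
      Integrable (φ S j) := fun S hS j => Q06_phi_int _ (hpos S hS j) l (e j) _
  have hval : ∀ S ∈ Fintype.piFinset (fun _ : Fin 4 => (PP z).powerset), ∀ j,
      (cf (lam j) l (S j) : ℂ) * (nS (S j) : ℂ) ^ (-1 - e j) = ∫ u : ℝ, φ S j u := by
    intro S hS j
    rw [hφ]
    simp only
    rw [integral_const_mul, ← Q06_phi_val _ (hpos S hS j) l (e j)]
    unfold cf
    push_cast
    ring
  unfold QQ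
  have h1 : ∀ S ∈ Fintype.piFinset (fun _ : Fin 4 => (PP z).powerset),
      (∏ j, (cf (lam j) l (S j) : ℂ) * (nS (S j) : ℂ) ^ (-1 - e j)) *
      ((Nat.gcd (nS (S 0) * nS (S 1)) (nS (S 2) * nS (S 3)) : ℕ) : ℂ) ^ (1 + e4) =
      ∫ u : Fin 4 → ℝ, (∏ j, φ S j (u j)) *
        ((Nat.gcd (nS (S 0) * nS (S 1)) (nS (S 2) * nS (S 3)) : ℕ) : ℂ) ^ (1 + e4) := by
    intro S hS
    rw [integral_mul_const, integral_fintype_prod_volume_eq_prod (fun j u => φ S j u)]
    congr 1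
    exact Finset.prod_congr rfl fun j _ => hval S hS j
  rw [Finset.sum_congr rfl h1, ← integral_finset_sum]
  · refine integral_congr_ae (Eventually.of_forall fun u => ?_)
    simp only
    rw [← euler4 (PP z) hP lam (Aex l e u) (1 + e4), Finset.mul_sum]
    refine Finset.sum_congr rfl fun S _ => ?_
    rw [← mul_assoc, ← Finset.prod_mul_distrib]
    congr 1
    refine Finset.prod_congr rfl fun j _ => ?_
    rw [hφ]
    simp only [Aex]
    ring
  · intro S hS
    apply Integrable.mul_const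
    exact Integrable.fintype_prod_dep (μ := fun _ => volume) (fun j => hint S hS j)

end LZ

end F_Q06

end

section

open Complex MeasureTheory Set Filter Topology
open scoped ComplexConjugate

namespace OO

/-- Elementary facts on the weight. -/
theorem wt_facts : (∀ x : ℝ, 0 ≤ LZ.wt x) ∧ (∀ x : ℝ, 0 ≤ x → LZ.wt x ≤ 1) ∧ (∀ x : ℝ, 1 ≤ x → LZ.wt x = 0) ∧
    LZ.wt 0 = 1 := by
  refine ⟨fun x => ?_, fun x hx => ?_, fun x hx => ?_, ?_⟩
  · exact pow_nonneg (le_max_left _ _) _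
  · apply pow_le_one₀ (le_max_left _ _)
    exact max_le (by norm_num) (by linarith)
  · have h : max 0 (1 - x) = 0 := max_eq_left (by linarith)
    unfold LZ.wt
    rw [h]
    norm_num
  · unfold LZ.wt
    norm_num

private theorem A_bas1_MA_le (f : ℕ → ℂ) (h : ∀ n, ‖f n‖ ≤ 1) (l : ℝ) (hl : 0 < l) (n : ℕ) :
    ‖MA f 0 (1 / l) n‖ ≤ 1 := by
  have e : MA f 0 (1 / l) n = if Squarefree n then
    (-1/2 : ℂ) ^ n.primeFactors.card * f n * (n : ℂ) ^ (-(0 : ℂ)) * (LZ.wt (1 / l * Real.log n) : ℂ) else 0 := rfl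
  rw [e]
  split_ifs with hs
  · have hlog : 0 ≤ 1 / l * Real.log n := mul_nonneg (by positivity) (Real.log_natCast_nonneg n)
    have h1 : ‖(-1/2 : ℂ) ^ n.primeFactors.card‖ ≤ 1 := by
      rw [norm_pow]
      apply pow_le_one₀ (norm_nonneg _)
      rw [norm_div, norm_neg, norm_one]
      norm_num
    have h2 : ‖(LZ.wt (1 / l * Real.log n) : ℂ)‖ ≤ 1 := by
      rw [Complex.norm_real, Real.norm_of_nonneg (wt_facts.1 _)]
      exact wt_facts.2.1 _ hlog
    rw [neg_zero, Complex.cpow_zero, mul_one, norm_mul, norm_mul]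
    exact mul_le_one₀ (mul_le_one₀ h1 (norm_nonneg _) (h n)) (norm_nonneg _) h2
  · simp

private theorem A_bas1_MA_zero (f : ℕ → ℂ) (l : ℝ) (hl : 0 < l) (n : ℕ) (hn : Real.exp l < n) :
    MA f 0 (1 / l) n = 0 := by
  have e : MA f 0 (1 / l) n = if Squarefree n then
    (-1/2 : ℂ) ^ n.primeFactors.card * f n * (n : ℂ) ^ (-(0 : ℂ)) * (LZ.wt (1 / l * Real.log n) : ℂ) else 0 := rfl
  rw [e]
  have hn0 : (0 : ℝ) < n := lt_trans (Real.exp_pos l) hn
  have hlog : l < Real.log n := (Real.lt_log_iff_exp_lt hn0).mpr hn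
  have h1 : 1 ≤ 1 / l * Real.log n := by
    rw [one_div, inv_mul_eq_div, one_le_div hl]
    exact hlog.le
  rw [wt_facts.2.2.1 _ h1]
  simp

private theorem A_bas1_card (n : ℕ) : n.divisorsAntidiagonal.card = n.divisors.card := by
  have h := Nat.sum_divisorsAntidiagonal (fun _ _ => 1) (n := n)
  simpa using h

private theorem A_bas1_conv (u v : ArithmeticFunction ℂ) (B1 B2 : ℝ) (hB1 : 0 ≤ B1) (hu : ∀ n, ‖u n‖ ≤ B1)
    (hv : ∀ n, ‖v n‖ ≤ B2) (n : ℕ) : ‖(u * v) n‖ ≤ B1 * B2 * (n.divisors.card : ℝ) := by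
  rw [ArithmeticFunction.mul_apply]
  calc ‖∑ x ∈ n.divisorsAntidiagonal, u x.1 * v x.2‖
      ≤ ∑ x ∈ n.divisorsAntidiagonal, ‖u x.1 * v x.2‖ := norm_sum_le _ _
    _ ≤ ∑ x ∈ n.divisorsAntidiagonal, B1 * B2 := by
        apply Finset.sum_le_sum
        intro x _
        rw [norm_mul]
        exact mul_le_mul (hu _) (hv _) (norm_nonneg _) hB1
    _ = B1 * B2 * (n.divisors.card : ℝ) := by
        rw [Finset.sum_const, nsmul_eq_mul, A_bas1_card]
        ring

/-- Facts on the mollifier coefficients, for functions `f1, f2` bounded by 1 with value 1 at 1 (`l > 0`).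

PROOF. `|MA f 0 (1/l) n| ≤ 1` (`|(-1/2)^k| ≤ 1`, `n^(-0) = 1`, `0 ≤ wt ≤ 1` as `log n ≥ 0`), it vanishes for
`n > e^l` (then `log n / l > 1`) and for `n = 0`. `beta h = ∑ over (d,e) in divisorsAntidiagonal` (`ArithmeticFunction.mul_apply`): at
most `d(h) = card divisors h` terms each `≤ 1`; `card divisors h ≤ h` (`Nat.card_divisors_le_self`). If `h > Hl l = ⌊e^(2l)⌋`, then
`h > e^(2l)` and for `d e = h` one of `d, e` is `> e^l`, so the term is 0. `beta 1 = MA 1 * MA 1 = 1`. -/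
theorem beta_facts (f1 f2 : ℕ → ℂ) (h1 : ∀ n, ‖f1 n‖ ≤ 1) (h2 : ∀ n, ‖f2 n‖ ≤ 1) (h1' : f1 1 = 1) (h2' : f2 1 = 1)
    (l : ℝ) (hl : 0 < l) : (∀ h : ℕ, ‖beta f1 f2 l h‖ ≤ (h.divisors.card : ℝ)) ∧ (∀ h : ℕ, ‖beta f1 f2 l h‖ ≤ h) ∧
      (∀ h : ℕ, Hl l < h → beta f1 f2 l h = 0) ∧ beta f1 f2 l 1 = 1 := by
  have hd : ∀ h : ℕ, ‖beta f1 f2 l h‖ ≤ (h.divisors.card : ℝ) := by
    intro h
    have h3 := A_bas1_conv (MA f1 0 (1 / l)) (MA f2 0 (1 / l)) 1 1 zero_le_one
      (A_bas1_MA_le f1 h1 l hl) (A_bas1_MA_le f2 h2 l hl) h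
    rw [one_mul, one_mul] at h3
    exact h3
  refine ⟨hd, fun h => ?_, fun h hh => ?_, ?_⟩
  · refine (hd h).trans ?_
    exact_mod_cast Nat.card_divisors_le_self h
  · have h3 : Real.exp (2 * l) < h := (Nat.floor_lt (Real.exp_pos _).le).mp hh
    unfold beta
    rw [ArithmeticFunction.mul_apply]
    apply Finset.sum_eq_zero
    intro x hx
    have hx1 : x.1 * x.2 = h := (Nat.mem_divisorsAntidiagonal.mp hx).1
    by_cases hc : Real.exp l < (x.1 : ℝ)
    · rw [A_bas1_MA_zero f1 l hl _ hc, zero_mul]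
    · by_cases hc2 : Real.exp l < (x.2 : ℝ)
      · rw [A_bas1_MA_zero f2 l hl _ hc2, mul_zero]
      · exfalso
        have h4 : (x.1 : ℝ) * x.2 ≤ Real.exp l * Real.exp l :=
          mul_le_mul (not_lt.mp hc) (not_lt.mp hc2) (Nat.cast_nonneg _) (Real.exp_pos _).le
        have h5 : Real.exp l * Real.exp l = Real.exp (2 * l) := by
          rw [← Real.exp_add]
          congr 1
          ring
        have h6 : ((x.1 * x.2 : ℕ) : ℝ) = h := by rw [hx1]
        rw [Nat.cast_mul] at h6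
        rw [h5, h6] at h4
        exact absurd h3 (not_lt.mpr h4)
  · unfold beta
    rw [ArithmeticFunction.mul_apply, Nat.divisorsAntidiagonal_one, Finset.sum_singleton]
    have e : ∀ f : ℕ → ℂ, f 1 = 1 → MA f 0 (1 / l) 1 = 1 := by
      intro f hf
      have e2 : MA f 0 (1 / l) 1 = if Squarefree 1 then
        (-1/2 : ℂ) ^ (Nat.primeFactors 1).card * f 1 * ((1 : ℕ) : ℂ) ^ (-(0 : ℂ)) *
          (LZ.wt (1 / l * Real.log ((1 : ℕ) : ℝ)) : ℂ) else 0 := rfl
      rw [e2, if_pos squarefree_one, hf]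
      have h3 : 1 / l * Real.log ((1 : ℕ) : ℝ) = 0 := by simp
      rw [h3, wt_facts.2.2.2]
      simp
    show MA f1 0 (1 / l) 1 * MA f2 0 (1 / l) 1 = 1
    rw [e f1 h1', e f2 h2', one_mul]

/-- Exchange of the two characters. -/
theorem beta_comm (f1 f2 : ℕ → ℂ) (l : ℝ) : beta f1 f2 l = beta f2 f1 l := by
  unfold beta
  exact mul_comm _ _

/-- Size of a convolution of two bounded functions. PROOF: `mul_apply`, at most `d(n) ≤ n` terms, each `≤ B1 B2`
(the factors vanish at 0, and the hypothesis is used at arguments `≥ 1`). -/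
theorem conv_bound (u v : ArithmeticFunction ℂ) (B1 B2 : ℝ) (hB1 : 0 ≤ B1) (hB2 : 0 ≤ B2) (hu : ∀ n, ‖u n‖ ≤ B1)
    (hv : ∀ n, ‖v n‖ ≤ B2) : (∀ n : ℕ, ‖(u * v) n‖ ≤ B1 * B2 * (n.divisors.card : ℝ)) ∧
      (∀ n : ℕ, ‖(u * v) n‖ ≤ B1 * B2 * n) := by
  refine ⟨A_bas1_conv u v B1 B2 hB1 hu hv, fun n => ?_⟩
  refine (A_bas1_conv u v B1 B2 hB1 hu hv n).trans ?_
  apply mul_le_mul_of_nonneg_left _ (mul_nonneg hB1 hB2)
  exact_mod_cast Nat.card_divisors_le_self n

end OO

end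

section

/-!
# Row G_4a: the Mellin transform of the weight with a cutoff, first bound
-/

open Complex MeasureTheory Set Filter Topology
open scoped ComplexConjugate

namespace OO

theorem G_4a_sq (t : ℝ) (ht : 0 ≤ t) : t ^ 2 ≤ Real.exp t := by
  have h1 : t / 2 ≤ Real.exp (t / 2 - 1) := by
    have := Real.add_one_le_exp (t / 2 - 1)
    linarith
  have h2 : Real.exp (t / 2 - 1) * 2 ≤ Real.exp (t / 2) := by
    have h3 : Real.exp (t / 2) = Real.exp (t / 2 - 1) * Real.exp 1 := by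
      rw [← Real.exp_add]; congr 1; ring
    rw [h3]
    have h4 : (2 : ℝ) ≤ Real.exp 1 := by
      have := Real.add_one_le_exp (1 : ℝ)
      linarith
    exact mul_le_mul_of_nonneg_left h4 (Real.exp_pos _).le
  have h5 : t ≤ Real.exp (t / 2) := by linarith
  calc t ^ 2 ≤ Real.exp (t / 2) ^ 2 := pow_le_pow_left₀ ht h5 2
    _ = Real.exp t := by rw [← Real.exp_nat_mul]; congr 1; push_cast; ring

/-- pointwise bound -/
theorem G_4a_pt (Y : ℝ) (w : ℂ) (x : ℝ) (hx : 0 < x) :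
    ‖(x : ℂ) ^ (-(1 + w)) * (Wt 1 (Real.exp (-Y)) x : ℂ)‖ =
      x ^ (-(1 + w.re)) * (Real.exp (-(1 / x)) * Real.exp (-(Real.exp (-Y) * x))) := by
  rw [norm_mul, Complex.norm_cpow_eq_rpow_re_of_pos hx]
  congr 1
  rw [Complex.norm_real, Real.norm_of_nonneg (by unfold Wt; positivity)]
  unfold Wt
  rw [← Real.exp_add]
  congr 1

/-- `W(x) = exp (-1/x - e^(-Y) x)`. First bound: `‖B(1+w)‖ ≤ ∫ x^(-1-re w) W(x) dx`
`≤ ∫_0^1 x^(-2) e^(-1/x) dx + ∫_1^{e^Y} x^(-1) dx + ∫_{e^Y}^∞ e^(-Y) exp (-e^(-Y) x) dx ≤ 1 + Y + 1 ≤ 3Y`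
(`x^(-1-re w) ≤ x^(-2)` for `x ≤ 1`, `≤ x^(-1)` for `x ≥ 1`, `x^(-1) ≤ e^(-Y)` for `x ≥ e^Y`;
`x^(-2) e^(-1/x)` is the derivative of `e^(-1/x)`). -/
theorem G_Bm_first (Y : ℝ) (hY : 1 ≤ Y) (w : ℂ) (hw : 0 < w.re) (hw1 : w.re ≤ 1) :
    ‖Bm 1 (Real.exp (-Y)) (1 + w)‖ ≤ 3 * Y := by
  have hE : 1 ≤ Real.exp Y := Real.one_le_exp (by linarith)
  set g : ℝ → ℝ := fun x => if x ≤ 1 then 1 else if x ≤ Real.exp Y then x⁻¹ else
    Real.exp (-Y) * Real.exp (-Real.exp (-Y) * x) with hg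
  -- pieces
  have e1 : Set.EqOn g (fun _ => (1 : ℝ)) (Ioc 0 1) := by
    intro x hx
    simp only [hg, if_pos hx.2]
  have e2 : Set.EqOn g (fun x => x⁻¹) (Ioc 1 (Real.exp Y)) := by
    intro x hx
    simp only [hg, if_neg (not_le.2 hx.1), if_pos hx.2]
  have e3 : Set.EqOn g (fun x => Real.exp (-Y) * Real.exp (-Real.exp (-Y) * x)) (Ioi (Real.exp Y)) := by
    intro x hx
    have hx' : Real.exp Y < x := hx
    simp only [hg, if_neg (not_le.2 (lt_of_le_of_lt hE hx')), if_neg (not_le.2 hx')]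
  have i1 : IntegrableOn g (Ioc 0 1) := by
    refine IntegrableOn.congr_fun ?_ e1.symm measurableSet_Ioc
    exact integrableOn_const (by simp)
  have i2' : IntervalIntegrable (fun x : ℝ => x⁻¹) volume 1 (Real.exp Y) := by
    apply ContinuousOn.intervalIntegrable
    apply continuousOn_inv₀.mono
    intro x hx
    rw [Set.uIcc_of_le hE] at hx
    have : 0 < x := lt_of_lt_of_le one_pos hx.1
    exact this.ne'
  have i2 : IntegrableOn g (Ioc 1 (Real.exp Y)) := by
    refine IntegrableOn.congr_fun ?_ e2.symm measurableSet_Ioc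
    rwa [intervalIntegrable_iff_integrableOn_Ioc_of_le hE] at i2'
  have hneg : -Real.exp (-Y) < 0 := by have := Real.exp_pos (-Y); linarith
  have i3 : IntegrableOn g (Ioi (Real.exp Y)) := by
    refine IntegrableOn.congr_fun ?_ e3.symm measurableSet_Ioi
    exact (integrableOn_exp_mul_Ioi hneg _).const_mul _
  have v1 : ∫ x in Ioc 0 1, g x = 1 := by
    rw [setIntegral_congr_fun measurableSet_Ioc e1]
    simp
  have v2 : ∫ x in Ioc 1 (Real.exp Y), g x = Y := by
    rw [setIntegral_congr_fun measurableSet_Ioc e2, ← intervalIntegral.integral_of_le hE,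
      integral_inv_of_pos one_pos (Real.exp_pos _), div_one, Real.log_exp]
  have v3 : ∫ x in Ioi (Real.exp Y), g x ≤ 1 := by
    rw [setIntegral_congr_fun measurableSet_Ioi e3, integral_const_mul, integral_exp_mul_Ioi hneg]
    have h1 : -Real.exp (-Y) * Real.exp Y = -1 := by
      rw [neg_mul, ← Real.exp_add, neg_add_cancel, Real.exp_zero]
    rw [h1, neg_div_neg_eq, mul_div_cancel₀]
    · exact Real.exp_le_one_iff.2 (by norm_num)
    · exact (Real.exp_pos _).ne'
  have hU1 : Ioi (0 : ℝ) = Ioc 0 1 ∪ Ioi 1 := (Ioc_union_Ioi_eq_Ioi zero_le_one).symm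
  have hU2 : Ioi (1 : ℝ) = Ioc 1 (Real.exp Y) ∪ Ioi (Real.exp Y) := (Ioc_union_Ioi_eq_Ioi hE).symm
  have i23 : IntegrableOn g (Ioi 1) := by rw [hU2]; exact i2.union i3
  have i123 : IntegrableOn g (Ioi 0) := by rw [hU1]; exact i1.union i23
  have v23 : ∫ x in Ioi 1, g x = (∫ x in Ioc 1 (Real.exp Y), g x) + ∫ x in Ioi (Real.exp Y), g x := by
    rw [hU2]
    exact setIntegral_union (Ioc_disjoint_Ioi le_rfl) measurableSet_Ioi i2 i3
  have v123 : ∫ x in Ioi 0, g x = (∫ x in Ioc 0 1, g x) + ∫ x in Ioi 1, g x := by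
    rw [hU1]
    exact setIntegral_union (Ioc_disjoint_Ioi le_rfl) measurableSet_Ioi i1 i23
  have hb : ∀ x ∈ Ioi (0 : ℝ), ‖(x : ℂ) ^ (-(1 + w)) * (Wt 1 (Real.exp (-Y)) x : ℂ)‖ ≤ g x := by
    intro x hx
    have hx' : 0 < x := hx
    rw [G_4a_pt Y w x hx']
    have hA : Real.exp (-(1 / x)) ≤ 1 := Real.exp_le_one_iff.2 (by have : 0 < 1 / x := by positivity
                                                                   linarith)
    have hB : Real.exp (-(Real.exp (-Y) * x)) ≤ 1 := Real.exp_le_one_iff.2 (by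
      have : 0 < Real.exp (-Y) * x := by positivity
      linarith)
    have hA0 := (Real.exp_pos (-(1 / x))).le
    have hB0 := (Real.exp_pos (-(Real.exp (-Y) * x))).le
    have hr0 : 0 ≤ x ^ (-(1 + w.re)) := Real.rpow_nonneg hx'.le _
    by_cases h1 : x ≤ 1
    · simp only [hg, if_pos h1]
      have hp : x ^ (-(1 + w.re)) ≤ (1 / x) ^ 2 := by
        have h2 : x ^ (-(1 + w.re)) ≤ x ^ (-2 : ℝ) :=
          Real.rpow_le_rpow_of_exponent_ge hx' h1 (by linarith)
        refine h2.trans (le_of_eq ?_)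
        rw [Real.rpow_neg hx'.le, one_div, inv_pow]
        congr 1
        exact Real.rpow_natCast x 2
      have h3 := G_4a_sq (1 / x) (by positivity)
      calc x ^ (-(1 + w.re)) * (Real.exp (-(1 / x)) * Real.exp (-(Real.exp (-Y) * x)))
          ≤ Real.exp (1 / x) * (Real.exp (-(1 / x)) * 1) := by
            apply mul_le_mul (hp.trans h3) _ (by positivity) (Real.exp_pos _).le
            exact mul_le_mul_of_nonneg_left hB hA0
        _ = 1 := by rw [mul_one, ← Real.exp_add, add_neg_cancel, Real.exp_zero]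
    · have h1' : 1 < x := not_le.1 h1
      have hp : x ^ (-(1 + w.re)) ≤ x⁻¹ := by
        rw [← Real.rpow_neg_one]
        exact Real.rpow_le_rpow_of_exponent_le h1'.le (by linarith)
      by_cases h2 : x ≤ Real.exp Y
      · simp only [hg, if_neg h1, if_pos h2]
        calc x ^ (-(1 + w.re)) * (Real.exp (-(1 / x)) * Real.exp (-(Real.exp (-Y) * x)))
            ≤ x⁻¹ * (1 * 1) := by
              apply mul_le_mul hp _ (by positivity) (by positivity)
              exact mul_le_mul hA hB hB0 zero_le_one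
          _ = x⁻¹ := by ring
      · simp only [hg, if_neg h1, if_neg h2]
        have h2' : Real.exp Y < x := not_le.1 h2
        have h3 : x⁻¹ ≤ Real.exp (-Y) := by
          rw [Real.exp_neg]
          exact inv_anti₀ (Real.exp_pos _) h2'.le
        calc x ^ (-(1 + w.re)) * (Real.exp (-(1 / x)) * Real.exp (-(Real.exp (-Y) * x)))
            ≤ Real.exp (-Y) * (1 * Real.exp (-(Real.exp (-Y) * x))) := by
              apply mul_le_mul (hp.trans h3) _ (by positivity) (by positivity)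
              exact mul_le_mul_of_nonneg_right hA hB0
          _ = Real.exp (-Y) * Real.exp (-Real.exp (-Y) * x) := by rw [one_mul, neg_mul]
  have hfin : ‖Bm 1 (Real.exp (-Y)) (1 + w)‖ ≤ ∫ x in Ioi (0 : ℝ), g x := by
    unfold Bm
    apply norm_integral_le_of_norm_le i123
    exact (ae_restrict_iff' measurableSet_Ioi).2 (Eventually.of_forall hb)
  rw [v123, v23, v1, v2] at hfin
  linarith

end OO

end

section

/-!
# Row D_A1: the six factors
-/

open Complex MeasureTheory Set Filter Topology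
open scoped ComplexConjugate

namespace OO

/-- the arithmetic factor of the six factors -/
noncomputable def D_A1_a (j : Fin 6) (n : ℕ) : ℂ :=
  if (j : ℕ) < 2 then 1 else if Squarefree n then (-1/2 : ℂ) ^ n.primeFactors.card else 0

theorem D_A1_eval (F : Fin 2 → ℕ → ℂ) (j : Fin 6) (A : ℂ) (th : ℝ) (n : ℕ) :
    XA F j A th n = if n = 0 then 0 else
      D_A1_a j n * F (fm j) n * (n : ℂ) ^ (-A) * (LZ.wt (th * Real.log n) : ℂ) := by
  unfold XA D_A1_a
  by_cases hj : (j : ℕ) < 2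
  · rw [if_pos hj, if_pos hj, one_mul]
    rfl
  · rw [if_neg hj, if_neg hj]
    by_cases hn : n = 0
    · rw [if_pos hn]
      show (if Squarefree n then _ else 0) = (0 : ℂ)
      rw [if_neg (by rw [hn]; exact not_squarefree_zero)]
    · rw [if_neg hn]
      show (if Squarefree n then _ else 0) = _
      by_cases hs : Squarefree n
      · rw [if_pos hs, if_pos hs]
      · rw [if_neg hs, if_neg hs]
        simp

theorem D_A1_a_le (j : Fin 6) (n : ℕ) : ‖D_A1_a j n‖ ≤ 1 := by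
  unfold D_A1_a
  split_ifs
  · simp
  · rw [norm_pow]
    apply pow_le_one₀ (norm_nonneg _)
    norm_num
  · simp

theorem D_A1_wt_zero : LZ.wt 0 = 1 := by
  unfold LZ.wt
  simp

theorem D_A1_wt_le {x : ℝ} (hx : 0 ≤ x) : 0 ≤ LZ.wt x ∧ LZ.wt x ≤ 1 := by
  unfold LZ.wt
  exact ⟨pow_nonneg (le_max_left _ _) _,
    pow_le_one₀ (le_max_left _ _) (max_le (by norm_num) (by linarith))⟩

/-- `0 ≤ wt x ≤ 1` for `x ≥ 0`, `‖n^(-A)‖ = n^(-re A)` for `n ≥ 1`, `‖(-1/2)^k‖ ≤ 1`. At `n = 0`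
the left side is `0`. -/
theorem D_XA_le (F : Fin 2 → ℕ → ℂ) (hF : ∀ i, IsCh (F i)) (j : Fin 6) (A : ℂ) (th : ℝ)
    (hth : 0 ≤ th) (n : ℕ) : ‖XA F j A th n‖ ≤ (n : ℝ) ^ (-A.re) := by
  rw [D_A1_eval]
  by_cases hn : n = 0
  · rw [if_pos hn, norm_zero]
    positivity
  · rw [if_neg hn]
    have hn0 : 0 < n := Nat.pos_of_ne_zero hn
    rw [norm_mul, norm_mul, norm_mul, Complex.norm_natCast_cpow_of_pos hn0, Complex.neg_re]
    have hlog : 0 ≤ th * Real.log n := mul_nonneg hth (Real.log_natCast_nonneg n)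
    obtain ⟨h1, h2⟩ := D_A1_wt_le hlog
    have h3 : ‖(LZ.wt (th * Real.log n) : ℂ)‖ ≤ 1 := by
      rw [Complex.norm_real, Real.norm_of_nonneg h1]
      exact h2
    have h4 : 0 ≤ (n : ℝ) ^ (-A.re) := by positivity
    calc ‖D_A1_a j n‖ * ‖F (fm j) n‖ * (n : ℝ) ^ (-A.re) * ‖(LZ.wt (th * Real.log n) : ℂ)‖
        ≤ 1 * 1 * (n : ℝ) ^ (-A.re) * 1 := by
          refine mul_le_mul (mul_le_mul_of_nonneg_right ?_ h4) h3 (norm_nonneg _) (by positivity)
          exact mul_le_mul (D_A1_a_le j n) ((hF _).le n) (norm_nonneg _) (by norm_num)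
      _ = (n : ℝ) ^ (-A.re) := by ring

/-- `wt 0 = 1`; `F (mn) = F m F n`, `(mn)^(-A) = m^(-A) n^(-A)` (`Nat.cast_mul`,
`Complex.natCast_mul_natCast_cpow`); for coprime `m, n`: `Squarefree (mn) ↔ Squarefree m ∧ Squarefree n`
(`Nat.squarefree_mul`), `(mn).primeFactors` is the disjoint union
(`Nat.Coprime.primeFactors_mul`, `Nat.Coprime.disjoint_primeFactors`).
Use `ArithmeticFunction.IsMultiplicative.iff_ne_zero`. -/
theorem D_XA_mult (F : Fin 2 → ℕ → ℂ) (hF : ∀ i, IsCh (F i)) (j : Fin 6) (A : ℂ) :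
    (XA F j A 0).IsMultiplicative := by
  rw [ArithmeticFunction.IsMultiplicative.iff_ne_zero]
  constructor
  · rw [D_A1_eval, if_neg one_ne_zero, (hF _).one, zero_mul, D_A1_wt_zero]
    unfold D_A1_a
    simp
  · intro m n hm hn hmn
    rw [D_A1_eval, D_A1_eval, D_A1_eval, if_neg (mul_ne_zero hm hn), if_neg hm, if_neg hn, (hF _).mul,
      Nat.cast_mul, Complex.natCast_mul_natCast_cpow, zero_mul, zero_mul, zero_mul, D_A1_wt_zero]
    have h1 : D_A1_a j (m * n) = D_A1_a j m * D_A1_a j n := by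
      unfold D_A1_a
      by_cases hj : (j : ℕ) < 2
      · rw [if_pos hj, if_pos hj, if_pos hj, one_mul]
      · rw [if_neg hj, if_neg hj, if_neg hj]
        have h2 := Nat.squarefree_mul hmn
        by_cases h3 : Squarefree m
        · by_cases h4 : Squarefree n
          · rw [if_pos (h2.mpr ⟨h3, h4⟩), if_pos h3, if_pos h4, hmn.primeFactors_mul,
              Finset.card_union_of_disjoint hmn.disjoint_primeFactors, pow_add]
          · rw [if_neg fun h => h4 (h2.mp h).2, if_neg h4, mul_zero]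
        · rw [if_neg fun h => h3 (h2.mp h).1, if_neg h3, zero_mul]
    rw [h1]
    push_cast
    ring

/-- `Nat.Prime.primeFactors`, `wt 0 = 1`; `fin_cases j` -/
theorem D_XA_prime (F : Fin 2 → ℕ → ℂ) (j : Fin 6) (A : ℂ) (p : ℕ) (hp : p.Prime) :
    XA F j A 0 p = (co j : ℂ) * F (fm j) p * (p : ℂ) ^ (-A) := by
  rw [D_A1_eval, if_neg hp.ne_zero, zero_mul, D_A1_wt_zero]
  have h1 : D_A1_a j p = (co j : ℂ) := by
    unfold D_A1_a co
    rw [if_pos hp.prime.squarefree, hp.primeFactors, Finset.card_singleton, pow_one]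
    fin_cases j <;> simp
  rw [h1]
  push_cast
  ring

/-- continuity in `u` (`n ≥ 1`: `n^z = exp (z log n)`; `n = 0`: zero) -/
theorem D_XA_cont (F : Fin 2 → ℕ → ℂ) (j : Fin 6) (A : ℂ) (th : ℝ) (n : ℕ) :
    Continuous (fun u : ℝ => XA F j (A + th * (1 + u * I)) 0 n) := by
  by_cases hn : n = 0
  · subst hn
    simp only [ArithmeticFunction.map_zero]
    exact continuous_const
  · have hn0 : (n : ℂ) ≠ 0 := Nat.cast_ne_zero.mpr hn
    have h1 : (fun u : ℝ => XA F j (A + th * (1 + u * I)) 0 n) = fun u : ℝ =>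
        D_A1_a j n * F (fm j) n * Complex.exp (Complex.log n * (-(A + th * (1 + u * I)))) *
          (LZ.wt (0 * Real.log n) : ℂ) := by
      funext u
      rw [D_A1_eval, if_neg hn, Complex.cpow_def_of_ne_zero hn0]
    rw [h1]
    fun_prop

/-- `LZ.wt_eq (th log n)` (V37), `n^(-(A + th (1+iu))) = n^(-A) exp (-(1+iu) th log n)` for `n ≥ 1`;
`integral_const_mul`. Both sides are `0` for `n = 0`. -/
theorem D_XA_int (F : Fin 2 → ℕ → ℂ) (j : Fin 6) (A : ℂ) (th : ℝ) (n : ℕ) :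
    XA F j A th n = ∫ u : ℝ, LZ.kk u * XA F j (A + th * (1 + u * I)) 0 n := by
  by_cases hn : n = 0
  · subst hn
    simp
  · have hn0 : (n : ℂ) ≠ 0 := Nat.cast_ne_zero.mpr hn
    rw [D_A1_eval, if_neg hn, LZ.wt_eq, ← integral_const_mul]
    refine integral_congr_ae (Eventually.of_forall fun u => ?_)
    simp only
    rw [D_A1_eval, if_neg hn, zero_mul, D_A1_wt_zero, Complex.cpow_def_of_ne_zero hn0,
      Complex.cpow_def_of_ne_zero hn0]
    have h2 : Complex.log n * (-(A + th * (1 + u * I))) =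
        Complex.log n * (-A) + -((1 + u * I) * ((th * Real.log n : ℝ) : ℂ)) := by
      push_cast
      ring
    rw [h2, Complex.exp_add]
    push_cast
    ring

end OO

end

section

/-!
# Row D_A2: bounds for Dirichlet convolutions
-/

open Complex MeasureTheory Set Filter Topology
open scoped ComplexConjugate

namespace OO

theorem D_A2_card (n : ℕ) : n.divisorsAntidiagonal.card = n.divisors.card := by
  have h := Nat.sum_divisorsAntidiagonal (fun _ _ => (1 : ℕ)) (n := n)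
  simpa using h

theorem D_A2_mono {x n : ℕ} (h : x ∣ n) (hn : n ≠ 0) :
    (x.divisors.card : ℝ) ≤ (n.divisors.card : ℝ) := by
  exact_mod_cast Finset.card_le_card (Nat.divisors_subset_of_dvd hn h)

/-- one convolution: `‖f n‖ ≤ B d(n)^i n^(-σ)`, `‖g n‖ ≤ B' d(n)^j n^(-σ)` give
`‖(f*g) n‖ ≤ ∑_{xy=n} B B' d(x)^i d(y)^j (xy)^(-σ) ≤ B B' d(n)^(i+j+1) n^(-σ)` (`d(x) ≤ d(n)` for
`x ∣ n`, `n ≥ 1`; `Nat.divisorsAntidiagonal` has `d(n)` elements; `n = 0`: left side `0`). -/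
theorem D_conv_le (f g : ArithmeticFunction ℂ) (σ B B' : ℝ) (i j : ℕ) (hB : 0 ≤ B) (hB' : 0 ≤ B')
    (hf : ∀ n, ‖f n‖ ≤ B * (n.divisors.card : ℝ) ^ i * (n : ℝ) ^ (-σ))
    (hg : ∀ n, ‖g n‖ ≤ B' * (n.divisors.card : ℝ) ^ j * (n : ℝ) ^ (-σ)) (n : ℕ) :
    ‖(f * g) n‖ ≤ B * B' * (n.divisors.card : ℝ) ^ (i + j + 1) * (n : ℝ) ^ (-σ) := by
  by_cases hn : n = 0
  · subst hn
    rw [ArithmeticFunction.map_zero, norm_zero]
    positivity
  rw [ArithmeticFunction.mul_apply]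
  have h1 : ∀ x ∈ n.divisorsAntidiagonal, ‖f x.1 * g x.2‖ ≤
      B * B' * (n.divisors.card : ℝ) ^ (i + j) * (n : ℝ) ^ (-σ) := by
    intro x hx
    obtain ⟨hx1, -⟩ := Nat.mem_divisorsAntidiagonal.1 hx
    have hd1 : x.1 ∣ n := ⟨x.2, hx1.symm⟩
    have hd2 : x.2 ∣ n := ⟨x.1, by rw [mul_comm]; exact hx1.symm⟩
    have e1 := D_A2_mono hd1 hn
    have e2 := D_A2_mono hd2 hn
    rw [norm_mul]
    calc ‖f x.1‖ * ‖g x.2‖ ≤ (B * (x.1.divisors.card : ℝ) ^ i * (x.1 : ℝ) ^ (-σ)) *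
          (B' * (x.2.divisors.card : ℝ) ^ j * (x.2 : ℝ) ^ (-σ)) :=
        mul_le_mul (hf _) (hg _) (norm_nonneg _) (by positivity)
      _ = B * B' * ((x.1.divisors.card : ℝ) ^ i * (x.2.divisors.card : ℝ) ^ j) *
          ((x.1 : ℝ) ^ (-σ) * (x.2 : ℝ) ^ (-σ)) := by ring
      _ = B * B' * ((x.1.divisors.card : ℝ) ^ i * (x.2.divisors.card : ℝ) ^ j) *
          (n : ℝ) ^ (-σ) := by
        rw [← Real.mul_rpow (Nat.cast_nonneg _) (Nat.cast_nonneg _), ← Nat.cast_mul, hx1]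
      _ ≤ B * B' * ((n.divisors.card : ℝ) ^ i * (n.divisors.card : ℝ) ^ j) *
          (n : ℝ) ^ (-σ) := by
        apply mul_le_mul_of_nonneg_right _ (Real.rpow_nonneg (Nat.cast_nonneg _) _)
        apply mul_le_mul_of_nonneg_left _ (mul_nonneg hB hB')
        exact mul_le_mul (pow_le_pow_left₀ (Nat.cast_nonneg _) e1 i)
          (pow_le_pow_left₀ (Nat.cast_nonneg _) e2 j) (by positivity) (by positivity)
      _ = B * B' * (n.divisors.card : ℝ) ^ (i + j) * (n : ℝ) ^ (-σ) := by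
        rw [pow_add]
  refine (norm_sum_le_of_le _ h1).trans (le_of_eq ?_)
  rw [Finset.sum_const, D_A2_card, nsmul_eq_mul, pow_succ]
  ring

/-- `Finset.induction` on `s`; empty product: `1 n` is `1` for `n = 1`, else `0`. Step:
`D_conv_le` with `i = 0`. -/
theorem D_prod_le {ι : Type} [DecidableEq ι] (s : Finset ι) (a : ι → ArithmeticFunction ℂ)
    (σ B : ℝ) (hB : 0 ≤ B) (h : ∀ j ∈ s, ∀ n, ‖a j n‖ ≤ B * (n : ℝ) ^ (-σ)) (n : ℕ) :
    ‖(∏ j ∈ s, a j) n‖ ≤ B ^ s.card * (n.divisors.card : ℝ) ^ s.card * (n : ℝ) ^ (-σ) := by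
  induction s using Finset.induction_on generalizing n with
  | empty =>
    rw [Finset.prod_empty, Finset.card_empty, pow_zero, pow_zero, one_mul, one_mul]
    by_cases hn : n = 1
    · subst hn
      rw [ArithmeticFunction.one_one]
      simp
    · rw [ArithmeticFunction.one_apply_ne hn, norm_zero]
      exact Real.rpow_nonneg (Nat.cast_nonneg _) _
  | insert k s hk ih =>
    have ih' := fun m => ih (fun j hj => h j (Finset.mem_insert_of_mem hj)) m
    have hk' : ∀ m, ‖a k m‖ ≤ B * (m.divisors.card : ℝ) ^ 0 * (m : ℝ) ^ (-σ) := by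
      intro m
      rw [pow_zero, mul_one]
      exact h k (Finset.mem_insert_self k s) m
    have := D_conv_le (a k) (∏ j ∈ s, a j) σ B (B ^ s.card) 0 s.card hB (pow_nonneg hB _) hk' ih' n
    rw [Finset.prod_insert hk, Finset.card_insert_of_notMem hk]
    refine this.trans (le_of_eq ?_)
    rw [zero_add, pow_succ' B]

/-- `D_tau_le (κ/(2(k+1)))`: `d(n)^k ≤ C^k n^(κ/2)`, then `∑ n^(-1-κ/2)`
(`Real.summable_nat_rpow`). -/
theorem D_div_summable (k : ℕ) (κ : ℝ) (hκ : 0 < κ) :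
    Summable (fun n : ℕ => (n.divisors.card : ℝ) ^ k * (n : ℝ) ^ (-(1 + κ))) := by
  obtain ⟨C, hC, h⟩ := D_tau_le (κ / (2 * ((k : ℝ) + 1))) (by positivity)
  have hk0 : (0 : ℝ) < (k : ℝ) + 1 := by positivity
  have hs : Summable (fun n : ℕ => C ^ k * (n : ℝ) ^ (-(1 + κ / 2))) := by
    apply Summable.mul_left
    rw [Real.summable_nat_rpow]
    linarith
  apply Summable.of_nonneg_of_le (fun n => by positivity) _ hs
  intro n
  by_cases hn : n = 0
  · subst hn
    have e0 : ((0 : ℕ) : ℝ) ^ (-(1 + κ)) = 0 := by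
      rw [Nat.cast_zero]
      exact Real.zero_rpow (by linarith)
    rw [e0, mul_zero]
    positivity
  · have hn0 : (0 : ℝ) < n := by exact_mod_cast Nat.pos_of_ne_zero hn
    have hn1 : (1 : ℝ) ≤ n := by exact_mod_cast Nat.pos_of_ne_zero hn
    have h1 : (n.divisors.card : ℝ) ^ k ≤ C ^ k * (n : ℝ) ^ (κ / 2) := by
      calc (n.divisors.card : ℝ) ^ k ≤ (C * (n : ℝ) ^ (κ / (2 * ((k : ℝ) + 1)))) ^ k :=
          pow_le_pow_left₀ (Nat.cast_nonneg _) (h n hn) k
        _ = C ^ k * (n : ℝ) ^ (κ / (2 * ((k : ℝ) + 1)) * k) := by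
          rw [mul_pow, ← Real.rpow_natCast ((n : ℝ) ^ _) k, ← Real.rpow_mul hn0.le]
        _ ≤ C ^ k * (n : ℝ) ^ (κ / 2) := by
          apply mul_le_mul_of_nonneg_left _ (by positivity)
          apply Real.rpow_le_rpow_of_exponent_le hn1
          rw [div_mul_eq_mul_div, div_le_div_iff₀ (by positivity) (by norm_num)]
          nlinarith
    calc (n.divisors.card : ℝ) ^ k * (n : ℝ) ^ (-(1 + κ)) ≤
          C ^ k * (n : ℝ) ^ (κ / 2) * (n : ℝ) ^ (-(1 + κ)) :=
        mul_le_mul_of_nonneg_right h1 (Real.rpow_nonneg hn0.le _)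
      _ = C ^ k * (n : ℝ) ^ (-(1 + κ / 2)) := by
        rw [mul_assoc, ← Real.rpow_add hn0]
        congr 2
        ring

end OO

end

section

/-!
# Row D_A3: bounds for the sixfold products
-/

open Complex MeasureTheory Set Filter Topology
open scoped ComplexConjugate

namespace OO

private theorem D_A3_rpow_le {n : ℕ} (hn : 0 < n) {a σ : ℝ} (h : σ ≤ a) :
    (n : ℝ) ^ (-a) ≤ (n : ℝ) ^ (-σ) :=
  Real.rpow_le_rpow_of_exponent_le (by exact_mod_cast hn) (neg_le_neg h)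

/-- `D_prod_le` (`B = 1`), `D_XA_le`, `n^(-re A) ≤ n^(-σ)` for `n ≥ 1`; for `n = 0` the left side of the
hypothesis of `D_prod_le` is `0` -/
theorem D_PX_le (F : Fin 2 → ℕ → ℂ) (hF : ∀ i, IsCh (F i)) (A : Fin 6 → ℂ) (th : Fin 6 → ℝ)
    (hth : ∀ j, 0 ≤ th j) (σ : ℝ) (h : ∀ j, σ ≤ (A j).re) (n : ℕ) :
    ‖PX F A th n‖ ≤ (n.divisors.card : ℝ) ^ 6 * (n : ℝ) ^ (-σ) := by
  have hc : (Finset.univ : Finset (Fin 6)).card = 6 := by simp
  have key := D_prod_le (Finset.univ) (fun j => XA F j (A j) (th j)) σ 1 zero_le_one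
    (by
      intro j _ m
      rcases Nat.eq_zero_or_pos m with h0 | h0
      · rw [h0, (XA F j (A j) (th j)).map_zero, norm_zero, one_mul]
        exact Real.rpow_nonneg (by simp) _
      · rw [one_mul]
        exact (D_XA_le F hF j (A j) (th j) (hth j) m).trans (D_A3_rpow_le h0 (h j))) n
  rw [hc, one_pow, one_mul] at key
  exact key

/-- `0 ≤ Ck` and integrability of the integrand (`LZ.kk_facts`: `(1+|u|)^12 ≤ (1+|u|)^16`) -/
theorem D_Ck : 0 ≤ Ck ∧ Integrable (fun u : ℝ => ‖LZ.kk u‖ * (1 + |u|) ^ 12) ∧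
    Integrable LZ.kk := by
  obtain ⟨hc, hi⟩ := LZ.kk_facts
  have h1 : ∀ u : ℝ, (1 : ℝ) ≤ 1 + |u| := fun u => by linarith [abs_nonneg u]
  refine ⟨integral_nonneg fun u => by positivity, ?_, ?_⟩
  · refine hi.mono' (by fun_prop) (Eventually.of_forall fun u => ?_)
    rw [Real.norm_of_nonneg (by positivity)]
    exact mul_le_mul_of_nonneg_left (pow_le_pow_right₀ (h1 u) (by norm_num)) (norm_nonneg _)
  · refine hi.mono' hc.aestronglyMeasurable (Eventually.of_forall fun u => ?_)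
    exact le_mul_of_one_le_right (norm_nonneg _) (one_le_pow₀ (h1 u))

/-- The weighted functions: `D_XA_int`, `‖XA F j (A + t(1+iu)) 0 n‖ ≤ n^(-(re A + t)) ≤ n^(-σ)`
(`D_XA_le`), so `‖XA F j A t n‖ ≤ (∫ ‖kk‖) n^(-σ)` (`LZ.kk_facts` for the integrability of `‖kk‖`;
for `n = 0` the left side is `0`) -/
theorem D_XA_le' (F : Fin 2 → ℕ → ℂ) (hF : ∀ i, IsCh (F i)) (j : Fin 6) (A : ℂ) (t σ : ℝ)
    (h : σ ≤ A.re + t) (n : ℕ) : ‖XA F j A t n‖ ≤ (∫ u : ℝ, ‖LZ.kk u‖) * (n : ℝ) ^ (-σ) := by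
  have hk : Integrable LZ.kk := D_Ck.2.2
  rcases Nat.eq_zero_or_pos n with h0 | h0
  · rw [h0, (XA F j A t).map_zero, norm_zero]
    exact mul_nonneg (integral_nonneg fun u => norm_nonneg _) (Real.rpow_nonneg (by simp) _)
  · rw [D_XA_int, ← integral_mul_const]
    refine norm_integral_le_of_norm_le (hk.norm.mul_const _) (Eventually.of_forall fun u => ?_)
    rw [norm_mul]
    refine mul_le_mul_of_nonneg_left ?_ (norm_nonneg _)
    refine (D_XA_le F hF j _ 0 le_rfl n).trans (D_A3_rpow_le h0 ?_)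
    have : (A + t * (1 + u * I)).re = A.re + t := by simp
    rw [this]
    exact h

/-- `D_prod_le` with `B = ∫ ‖kk‖`, `C = B ^ 6` -/
theorem D_PX_le' : ∃ C : ℝ, 0 ≤ C ∧ ∀ (F : Fin 2 → ℕ → ℂ) (_ : ∀ i, IsCh (F i)) (A : Fin 6 → ℂ)
    (t : Fin 6 → ℝ) (σ : ℝ) (_ : ∀ j, σ ≤ (A j).re + t j) (n : ℕ),
    ‖PX F A t n‖ ≤ C * (n.divisors.card : ℝ) ^ 6 * (n : ℝ) ^ (-σ) := by
  have hB : 0 ≤ ∫ u : ℝ, ‖LZ.kk u‖ := integral_nonneg fun u => norm_nonneg _
  refine ⟨(∫ u : ℝ, ‖LZ.kk u‖) ^ 6, pow_nonneg hB 6, ?_⟩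
  intro F hF A t σ h n
  have hc : (Finset.univ : Finset (Fin 6)).card = 6 := by simp
  have key := D_prod_le (Finset.univ) (fun j => XA F j (A j) (t j)) σ (∫ u : ℝ, ‖LZ.kk u‖) hB
    (fun j _ m => D_XA_le' F hF j (A j) (t j) σ (h j) m) n
  rw [hc] at key
  exact key

end OO

end

section

/-!
# Row D_A6: the prime sum of the product
-/

open Complex MeasureTheory Set Filter Topology
open scoped ComplexConjugate

namespace OO

private theorem D_A6_mul_prime (f g : ArithmeticFunction ℂ) (hf : f 1 = 1) (hg : g 1 = 1) (p : ℕ)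
    (hp : p.Prime) : (f * g) p = f p + g p := by
  rw [ArithmeticFunction.mul_apply, Nat.sum_divisorsAntidiagonal (fun i j => f i * g j), hp.divisors,
    Finset.sum_pair hp.one_lt.ne, Nat.div_one, Nat.div_self hp.pos, hf, hg]
  ring

private theorem D_A6_prod {ι : Type} (s : Finset ι) (f : ι → ArithmeticFunction ℂ) (hf : ∀ i, f i 1 = 1)
    (p : ℕ) (hp : p.Prime) : (∏ i ∈ s, f i) 1 = 1 ∧ (∏ i ∈ s, f i) p = ∑ i ∈ s, f i p := by
  classical
  induction s using Finset.induction_on with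
  | empty =>
    refine ⟨by simp, ?_⟩
    rw [Finset.prod_empty, Finset.sum_empty, ArithmeticFunction.one_apply_ne hp.one_lt.ne']
  | insert a s ha ih =>
    rw [Finset.prod_insert ha, Finset.sum_insert ha]
    refine ⟨?_, ?_⟩
    · rw [ArithmeticFunction.mul_apply_one, hf a, ih.1, mul_one]
    · rw [D_A6_mul_prime _ _ (hf a) ih.1 p hp, ih.2]

/-- induction over the finset of factors, or `Fin.prod_univ_six` and `IsMultiplicative.mul`; `D_XA_mult` -/
theorem D_PX_mult (F : Fin 2 → ℕ → ℂ) (hF : ∀ i, IsCh (F i)) (A : Fin 6 → ℂ) :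
    (PX F A 0).IsMultiplicative := by
  unfold PX
  apply Finset.prod_induction _ (fun f : ArithmeticFunction ℂ => f.IsMultiplicative)
  · intro a b ha hb
    exact ha.mul hb
  · exact ArithmeticFunction.isMultiplicative_one
  · intro j _
    rw [Pi.zero_apply]
    exact D_XA_mult F hF j (A j)

/-- for functions with value `1` at `1`: `(f*g)(p) = f p + g p` (`Nat.Prime.divisorsAntidiagonal`-type
lemma or `Nat.divisorsAntidiagonal` of a prime: `(1,p)`, `(p,1)`); six factors, `D_XA_prime` -/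
theorem D_PX_prime (F : Fin 2 → ℕ → ℂ) (hF : ∀ i, IsCh (F i)) (A : Fin 6 → ℂ) (p : ℕ)
    (hp : p.Prime) :
    PX F A 0 p = ∑ j, (co j : ℂ) * F (fm j) p * (p : ℂ) ^ (-(A j)) := by
  have h0 : PX F A 0 = ∏ j, XA F j (A j) 0 := by
    unfold PX
    simp only [Pi.zero_apply]
  rw [h0, (D_A6_prod Finset.univ (fun j => XA F j (A j) 0)
    (fun j => (D_XA_mult F hF j (A j)).map_one) p hp).2]
  apply Finset.sum_congr rfl
  intro j _
  exact D_XA_prime F j (A j) p hp

/-- product of the two sums (`Finset.sum_mul_sum`), `p^(-A) p^(-A') = p^(-(A+A'))`,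
`cjF F i p = conj (F i p)`; real coefficients; exchange the finite sums and the sum over primes
(`Summable.tsum_finsetSum`, `D_Rp_summable`). -/
theorem D_prime_sum (F : Fin 2 → ℕ → ℂ) (hF : ∀ i, IsCh (F i)) (hF' : ∀ i, IsCh (cjF F i))
    (A A' : Fin 6 → ℂ) (h : ∀ j k, 1 < (A j + A' k).re) :
    ∑' p : Nat.Primes, (PX F A 0 p * PX (cjF F) A' 0 p).re =
      ∑ j, ∑ k, co j * co k *
        Rp (fun n => F (fm j) n * conj (F (fm k) n)) (A j + A' k) := by
  have hterm : ∀ p : Nat.Primes, (PX F A 0 p * PX (cjF F) A' 0 p).re =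
      ∑ j, ∑ k, co j * co k *
        ((F (fm j) p * conj (F (fm k) p)) * ((p : ℕ) : ℂ) ^ (-(A j + A' k))).re := by
    intro p
    have hp0 : ((p : ℕ) : ℂ) ≠ 0 := by exact_mod_cast p.2.ne_zero
    rw [D_PX_prime F hF A p p.2, D_PX_prime (cjF F) hF' A' p p.2, Finset.sum_mul_sum, Complex.re_sum]
    apply Finset.sum_congr rfl
    intro j _
    rw [Complex.re_sum]
    apply Finset.sum_congr rfl
    intro k _
    have h1 : (co j : ℂ) * F (fm j) p * ((p : ℕ) : ℂ) ^ (-(A j)) *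
        ((co k : ℂ) * cjF F (fm k) p * ((p : ℕ) : ℂ) ^ (-(A' k))) =
        ((co j * co k : ℝ) : ℂ) * ((F (fm j) p * conj (F (fm k) p)) * ((p : ℕ) : ℂ) ^ (-(A j + A' k))) := by
      rw [neg_add, cpow_add _ _ hp0]
      unfold cjF
      push_cast
      ring
    rw [h1, Complex.re_ofReal_mul]
  have hsum : ∀ j k, Summable (fun p : Nat.Primes => co j * co k *
      ((F (fm j) p * conj (F (fm k) p)) * ((p : ℕ) : ℂ) ^ (-(A j + A' k))).re) := by
    intro j k
    apply Summable.mul_left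
    have h2 := D_Rp_summable (fun n => F (fm j) n * conj (F (fm k) n)) (fun n => by
      rw [norm_mul, RCLike.norm_conj]
      exact mul_le_one₀ ((hF (fm j)).le n) (norm_nonneg _) ((hF (fm k)).le n)) (A j + A' k) (h j k)
    exact (Complex.hasSum_re h2.hasSum).summable
  calc ∑' p : Nat.Primes, (PX F A 0 p * PX (cjF F) A' 0 p).re
      = ∑' p : Nat.Primes, ∑ j, ∑ k, co j * co k *
        ((F (fm j) p * conj (F (fm k) p)) * ((p : ℕ) : ℂ) ^ (-(A j + A' k))).re := tsum_congr hterm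
    _ = ∑ j, ∑' p : Nat.Primes, ∑ k, co j * co k *
        ((F (fm j) p * conj (F (fm k) p)) * ((p : ℕ) : ℂ) ^ (-(A j + A' k))).re := by
        rw [Summable.tsum_finsetSum]
        intro j _
        exact summable_sum fun k _ => hsum j k
    _ = ∑ j, ∑ k, ∑' p : Nat.Primes, co j * co k *
        ((F (fm j) p * conj (F (fm k) p)) * ((p : ℕ) : ℂ) ^ (-(A j + A' k))).re := by
        apply Finset.sum_congr rfl
        intro j _
        rw [Summable.tsum_finsetSum]
        intro k _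
        exact hsum j k
    _ = _ := by
        apply Finset.sum_congr rfl; intro j _
        apply Finset.sum_congr rfl; intro k _
        rw [tsum_mul_left]
        rfl

end OO

end

section

/-!
# Row D_A11: integration over one auxiliary variable
-/

open Complex MeasureTheory Set Filter Topology
open scoped ComplexConjugate

namespace OO

theorem D_A11_int {a : ℝ → ArithmeticFunction ℂ}
    (hcont : ∀ n, Continuous (fun u => a u n)) (hb : ∀ n, ∃ c : ℝ, ∀ u, ‖a u n‖ ≤ c) (n : ℕ) :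
    Integrable (fun u : ℝ => LZ.kk u * a u n) := by
  obtain ⟨c, hc⟩ := hb n
  exact D_Ck.2.2.mul_bdd (hcont n).aestronglyMeasurable (Eventually.of_forall hc)

theorem D_A11_conv {a : ℝ → ArithmeticFunction ℂ} {a0 B : ArithmeticFunction ℂ}
    (hcont : ∀ n, Continuous (fun u => a u n)) (hb : ∀ n, ∃ c : ℝ, ∀ u, ‖a u n‖ ≤ c)
    (hint : ∀ n, a0 n = ∫ u : ℝ, LZ.kk u * a u n) (n : ℕ) :
    Integrable (fun u : ℝ => LZ.kk u * (a u * B) n) ∧
      (a0 * B) n = ∫ u : ℝ, LZ.kk u * (a u * B) n := by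
  have h1 : ∀ u : ℝ, LZ.kk u * (a u * B) n =
      ∑ x ∈ n.divisorsAntidiagonal, (LZ.kk u * a u x.1) * B x.2 := by
    intro u
    rw [ArithmeticFunction.mul_apply, Finset.mul_sum]
    exact Finset.sum_congr rfl fun x _ => by ring
  have h2 : ∀ x ∈ n.divisorsAntidiagonal,
      Integrable (fun u : ℝ => (LZ.kk u * a u x.1) * B x.2) :=
    fun x _ => (D_A11_int hcont hb x.1).mul_const _
  simp_rw [h1]
  refine ⟨integrable_finsetSum _ h2, ?_⟩
  rw [integral_finsetSum _ h2, ArithmeticFunction.mul_apply]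
  refine Finset.sum_congr rfl fun x _ => ?_
  rw [integral_mul_const, hint x.1]

/-- One variable. `(a0 * B) n = ∫ kk u (a u * B) n du` (finite sum over `divisorsAntidiagonal`,
`integral_finset_sum`; each `u ↦ kk u * a u d` is continuous and dominated by `c ‖kk u‖`, `D_Ck`).
Exchange the sum over `n` and the integral (`hasSum_integral_of_summable_integral_norm` or
`integral_tsum`): `∑_n ∫ ‖kk u (a u * B) n G n‖ ≤ ∑ bd n ∫ ‖kk‖ < ∞`. Then
`‖∫ kk u ∑' ..‖ ≤ ∫ ‖kk u‖ M (1+|u|)^12 = M Ck` (`norm_integral_le_of_norm_le`, `D_Ck`). -/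
theorem D_one_var (a : ℝ → ArithmeticFunction ℂ) (a0 B G : ArithmeticFunction ℂ)
    (hcont : ∀ n, Continuous (fun u => a u n)) (hb : ∀ n, ∃ c : ℝ, ∀ u, ‖a u n‖ ≤ c)
    (hint : ∀ n, a0 n = ∫ u : ℝ, LZ.kk u * a u n) (bd : ℕ → ℝ)
    (hbd : ∀ u n, ‖(a u * B) n * G n‖ ≤ bd n) (hsum : Summable bd) (M : ℝ) (hM : 0 ≤ M)
    (h : ∀ u, ‖∑' n, (a u * B) n * G n‖ ≤ M * (1 + |u|) ^ 12) :
    ‖∑' n, (a0 * B) n * G n‖ ≤ M * Ck := by
  obtain ⟨-, hC2, hC3⟩ := D_Ck
  have hconv := D_A11_conv (B := B) hcont hb hint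
  have hbd0 : ∀ n, 0 ≤ bd n := fun n => (norm_nonneg _).trans (hbd 0 n)
  -- the integrals
  have hI : ∀ n, Integrable (fun u : ℝ => LZ.kk u * ((a u * B) n * G n)) := by
    intro n
    have := (hconv n).1.mul_const (G n)
    refine this.congr (Eventually.of_forall fun u => ?_)
    simp only
    ring
  have hE : ∀ n, (a0 * B) n * G n = ∫ u : ℝ, LZ.kk u * ((a u * B) n * G n) := by
    intro n
    rw [(hconv n).2, ← integral_mul_const]
    refine integral_congr_ae (Eventually.of_forall fun u => ?_)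
    simp only
    ring
  have hN : ∀ n, ∫ u : ℝ, ‖LZ.kk u * ((a u * B) n * G n)‖ ≤ bd n * ∫ u : ℝ, ‖LZ.kk u‖ := by
    intro n
    rw [← integral_const_mul]
    refine integral_mono (hI n).norm (hC3.norm.const_mul _) fun u => ?_
    simp only
    rw [norm_mul, mul_comm]
    exact mul_le_mul_of_nonneg_right (hbd u n) (norm_nonneg _)
  have hS : Summable fun n => ∫ u : ℝ, ‖LZ.kk u * ((a u * B) n * G n)‖ :=
    Summable.of_nonneg_of_le (fun n => integral_nonneg fun u => norm_nonneg _) hN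
      (hsum.mul_right _)
  have hH := hasSum_integral_of_summable_integral_norm hI hS
  have hT : ∑' n, (a0 * B) n * G n = ∫ u : ℝ, LZ.kk u * ∑' n, (a u * B) n * G n := by
    rw [tsum_congr hE, hH.tsum_eq]
    refine integral_congr_ae (Eventually.of_forall fun u => ?_)
    simp only
    rw [tsum_mul_left]
  rw [hT]
  have hfin := norm_integral_le_of_norm_le (f := fun u : ℝ => LZ.kk u * ∑' n, (a u * B) n * G n)
    (hC2.const_mul M) (Eventually.of_forall fun u => by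
      rw [norm_mul]
      have := mul_le_mul_of_nonneg_left (h u) (norm_nonneg (LZ.kk u))
      linarith)
  refine hfin.trans (le_of_eq ?_)
  rw [integral_const_mul]
  rfl

end OO

end
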