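import Pool.Agent.Lib.MP_0f5a55_nt.OM.K000
import Pool.Agent.Lib.MP_0f5a55_nt.OM.K012

section

/-!
# Row G_7a: first elementary integral
-/

open Complex MeasureTheory Set Filter Topology
open scoped ComplexConjugate

namespace OO

private lemma G_7a_re (L y : ℝ) (hL : 0 < L) : 1 / L ≤ ‖((1 / L : ℝ) : ℂ) + y * I‖ := by
  have h := Complex.abs_re_le_norm (((1 / L : ℝ) : ℂ) + y * I)
  have h2 : (((1 / L : ℝ) : ℂ) + y * I).re = 1 / L := by simp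
  rw [h2, abs_of_pos (by positivity)] at h
  exact h

private lemma G_7a_im (L y : ℝ) : |y| ≤ ‖((1 / L : ℝ) : ℂ) + y * I‖ := by
  have h := Complex.abs_im_le_norm (((1 / L : ℝ) : ℂ) + y * I)
  have h2 : (((1 / L : ℝ) : ℂ) + y * I).im = y := by simp
  rw [h2] at h
  exact h

private lemma G_7a_sq (L y : ℝ) : ‖((1 / L : ℝ) : ℂ) + y * I‖ ^ 2 = (1 / L) ^ 2 + y ^ 2 := by
  rw [Complex.sq_norm, Complex.normSq_apply]
  simp
  ring

private lemma G_7a_abs (L y : ℝ) :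
    ‖((1 / L : ℝ) : ℂ) + ((|y| : ℝ) : ℂ) * I‖ = ‖((1 / L : ℝ) : ℂ) + y * I‖ := by
  have h1 := G_7a_sq L y
  have h2 := G_7a_sq L |y|
  rw [sq_abs] at h2
  rw [← h1] at h2
  exact (pow_left_inj₀ (norm_nonneg _) (norm_nonneg _) two_ne_zero).1 h2

/-- `‖1/L + iy‖ ≥ max (1/L) |y|`. Pointwise, with `w = 1/L + iy`: `min Y (1/‖w‖)/‖w‖` is at most `Y L` for
`|y| ≤ 1/L`, at most `Y/|y|` for `1/L ≤ |y| ≤ 1/Y`, at most `1/y^2` for `|y| ≥ 1/Y`. The integral is at most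
`2 (Y + Y log (L/Y) + Y) ≤ 4 Y (1 + log (L/Y))`. Give first the integrability (continuous, `O(1/y^2)`). -/
theorem G_int1 (L Y : ℝ) (hY : 1 ≤ Y) (hYL : Y ≤ L) :
    Integrable (fun y : ℝ => min Y (1 / ‖((1 / L : ℝ) : ℂ) + y * I‖) / ‖((1 / L : ℝ) : ℂ) + y * I‖) ∧
    ∫ y : ℝ, min Y (1 / ‖((1 / L : ℝ) : ℂ) + y * I‖) / ‖((1 / L : ℝ) : ℂ) + y * I‖ ≤
      4 * Y * (1 + Real.log (L / Y)) := by
  have hY0 : 0 < Y := by linarith
  have hL0 : 0 < L := by linarith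
  have hN0 : ∀ y : ℝ, 0 < ‖((1 / L : ℝ) : ℂ) + y * I‖ := fun y =>
    lt_of_lt_of_le (by positivity) (G_7a_re L y hL0)
  set f : ℝ → ℝ := fun y : ℝ => min Y (1 / ‖((1 / L : ℝ) : ℂ) + y * I‖) / ‖((1 / L : ℝ) : ℂ) + y * I‖ with hf
  have hcont : Continuous f := by
    have h1 : Continuous (fun y : ℝ => ‖((1 / L : ℝ) : ℂ) + y * I‖) := by fun_prop
    have h2 : Continuous (fun y : ℝ => 1 / ‖((1 / L : ℝ) : ℂ) + y * I‖) :=
      continuous_const.div h1 (fun y => (hN0 y).ne')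
    exact (continuous_const.min h2).div h1 (fun y => (hN0 y).ne')
  have hf0 : ∀ y, 0 ≤ f y := fun y => by
    have := hN0 y
    simp only [hf]
    positivity
  have hint : Integrable f := by
    have hg : Integrable (fun y : ℝ => L ^ 2 * (1 + y ^ 2)⁻¹) := integrable_inv_one_add_sq.const_mul _
    refine hg.mono' hcont.aestronglyMeasurable (Filter.Eventually.of_forall fun y => ?_)
    rw [Real.norm_of_nonneg (hf0 y)]
    have hN := hN0 y
    calc f y ≤ (1 / ‖((1 / L : ℝ) : ℂ) + y * I‖) / ‖((1 / L : ℝ) : ℂ) + y * I‖ := by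
          simp only [hf]
          gcongr
          exact min_le_right _ _
      _ = 1 / ‖((1 / L : ℝ) : ℂ) + y * I‖ ^ 2 := by rw [div_div, ← pow_two]
      _ = 1 / ((1 / L) ^ 2 + y ^ 2) := by rw [G_7a_sq]
      _ ≤ L ^ 2 * (1 + y ^ 2)⁻¹ := by
          rw [← div_eq_mul_inv, div_le_div_iff₀ (by positivity) (by positivity)]
          have h1 : L ^ 2 * ((1 / L) ^ 2 + y ^ 2) = 1 + L ^ 2 * y ^ 2 := by
            field_simp
          rw [h1, one_mul]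
          have h2 : 1 ≤ L ^ 2 := one_le_pow₀ (by linarith)
          nlinarith [sq_nonneg y]
  refine ⟨hint, ?_⟩
  have hsym : ∀ y, f |y| = f y := fun y => by
    simp only [hf]
    rw [G_7a_abs]
  have h1 : ∫ y, f y = 2 * ∫ y in Ioi (0 : ℝ), f y := by
    rw [← integral_comp_abs (f := f)]
    simp only [hsym]
  have hLY : 1 / L ≤ 1 / Y := one_div_le_one_div_of_le hY0 hYL
  have hL1 : (0 : ℝ) < 1 / L := by positivity
  have hY1 : (0 : ℝ) < 1 / Y := by positivity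
  have e1 := intervalIntegral.integral_interval_add_Ioi (f := f) (μ := volume) (a := 0) (b := 1 / L)
    hint.integrableOn hint.integrableOn
  have e2 := intervalIntegral.integral_interval_add_Ioi (f := f) (μ := volume) (a := 1 / L) (b := 1 / Y)
    hint.integrableOn hint.integrableOn
  have b1 : ∫ x in (0:ℝ)..(1 / L), f x ≤ Y := by
    calc ∫ x in (0:ℝ)..(1 / L), f x ≤ ∫ x in (0:ℝ)..(1 / L), Y * L := by
          apply intervalIntegral.integral_mono_on hL1.le (hcont.intervalIntegrable _ _)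
            intervalIntegrable_const
          intro x _
          have hN := hN0 x
          have hN1 := G_7a_re L x hL0
          simp only [hf]
          calc min Y (1 / ‖((1 / L : ℝ) : ℂ) + x * I‖) / ‖((1 / L : ℝ) : ℂ) + x * I‖
              ≤ Y / (1 / L) := div_le_div₀ hY0.le (min_le_left _ _) hL1 hN1
            _ = Y * L := by field_simp
      _ = Y := by
          rw [intervalIntegral.integral_const]
          simp only [sub_zero, smul_eq_mul]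
          field_simp
  have b2 : ∫ x in (1 / L)..(1 / Y), f x ≤ Y * Real.log (L / Y) := by
    calc ∫ x in (1 / L)..(1 / Y), f x ≤ ∫ x in (1 / L)..(1 / Y), Y * x⁻¹ := by
          apply intervalIntegral.integral_mono_on hLY (hcont.intervalIntegrable _ _)
          · apply (intervalIntegral.intervalIntegrable_inv _ continuousOn_id).const_mul
            intro x hx
            rw [uIcc_of_le hLY] at hx
            exact (lt_of_lt_of_le hL1 hx.1).ne'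
          intro x hx
          have hx0 : 0 < x := lt_of_lt_of_le hL1 hx.1
          have hN1 := G_7a_im L x
          rw [abs_of_pos hx0] at hN1
          simp only [hf]
          rw [← div_eq_mul_inv]
          exact div_le_div₀ hY0.le (min_le_left _ _) hx0 hN1
      _ = Y * Real.log (L / Y) := by
          rw [intervalIntegral.integral_const_mul, integral_inv_of_pos hL1 hY1]
          congr 2
          field_simp
  have b3 : ∫ x in Ioi (1 / Y), f x ≤ Y := by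
    calc ∫ x in Ioi (1 / Y), f x ≤ ∫ x in Ioi (1 / Y), x ^ (-2 : ℝ) := by
          apply setIntegral_mono_on hint.integrableOn
            (integrableOn_Ioi_rpow_of_lt (by norm_num) hY1) measurableSet_Ioi
          intro x hx
          have hx0 : 0 < x := lt_trans hY1 hx
          have hN := hN0 x
          have hN1 := G_7a_im L x
          rw [abs_of_pos hx0] at hN1
          simp only [hf]
          calc min Y (1 / ‖((1 / L : ℝ) : ℂ) + x * I‖) / ‖((1 / L : ℝ) : ℂ) + x * I‖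
              ≤ (1 / x) / x := by
                apply div_le_div₀ (by positivity) _ hx0 hN1
                exact (min_le_right _ _).trans (one_div_le_one_div_of_le hx0 hN1)
            _ = x ^ (-2 : ℝ) := by
                rw [Real.rpow_neg hx0.le, div_div, ← pow_two, one_div]
                norm_num
      _ = Y := by
          rw [integral_Ioi_rpow_of_lt (by norm_num) hY1]
          norm_num
          rw [Real.rpow_neg_one, inv_inv]
  have hlog : 0 ≤ Real.log (L / Y) := Real.log_nonneg (by rw [le_div_iff₀ hY0]; linarith)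
  rw [h1, ← e1, ← e2]
  nlinarith [mul_nonneg hY0.le hlog]

end OO

end

section

/-!
# Row G_7b: second elementary integral
-/

open Complex MeasureTheory Set Filter Topology
open scoped ComplexConjugate

namespace OO

/-- `‖w‖^2 = 1/L^2 + y^2`, `∫ dy/(1/L^2 + y^2) = π L` (`integrable_inv_one_add_sq`,
`integral_univ_inv_one_add_sq`, substitution `y = x/L`) -/
theorem G_int2 (L : ℝ) (hL : 1 ≤ L) :
    Integrable (fun y : ℝ => 1 / ‖((1 / L : ℝ) : ℂ) + y * I‖ ^ 2) ∧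
    ∫ y : ℝ, 1 / ‖((1 / L : ℝ) : ℂ) + y * I‖ ^ 2 ≤ 4 * L := by
  have hL0 : 0 < L := by linarith
  have key : ∀ y : ℝ, 1 / ‖((1 / L : ℝ) : ℂ) + y * I‖ ^ 2 = L ^ 2 * (1 + (L * y) ^ 2)⁻¹ := by
    intro y
    have h1 : ‖((1 / L : ℝ) : ℂ) + y * I‖ ^ 2 = (1 / L) ^ 2 + y ^ 2 := by
      rw [← Complex.normSq_eq_norm_sq, Complex.normSq_add_mul_I]
    rw [h1]
    field_simp
  simp_rw [key]
  have hint : Integrable (fun y : ℝ => (1 + (L * y) ^ 2)⁻¹) :=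
    integrable_inv_one_add_sq.comp_mul_left' hL0.ne'
  refine ⟨hint.const_mul _, ?_⟩
  rw [MeasureTheory.integral_const_mul]
  have h2 : ∫ y : ℝ, (1 + (L * y) ^ 2)⁻¹ = |L⁻¹| • ∫ y : ℝ, (1 + y ^ 2)⁻¹ :=
    MeasureTheory.Measure.integral_comp_mul_left (fun y : ℝ => (1 + y ^ 2)⁻¹) L
  rw [h2, integral_univ_inv_one_add_sq, abs_of_pos (inv_pos.2 hL0), smul_eq_mul]
  have h3 : L ^ 2 * (L⁻¹ * Real.pi) = Real.pi * L := by
    field_simp
  rw [h3]
  exact mul_le_mul_of_nonneg_right Real.pi_le_four hL0.le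

end OO

end

section

/-!
# Row G_3: the weights and their Mellin transforms
-/

open Complex MeasureTheory Set Filter Topology
open scoped ComplexConjugate

namespace OO

/-- the weight is between `0` and `1`, and `x^(-c) W(x)` is integrable on `(0,∞)` for `c > 1`
(near `0`: `x^(-c) exp (-al/x)` is bounded; at `∞`: `x^(-c)`) -/
theorem G_Wt (al om : ℝ) (hal : 0 < al) (hom : 0 ≤ om) :
    (∀ x, 0 < x → 0 < Wt al om x ∧ Wt al om x ≤ 1) ∧
      ∀ c : ℝ, 1 < c → IntegrableOn (fun x : ℝ => x ^ (-c) * Wt al om x) (Ioi 0) := by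
  have h1 : ∀ x, 0 < x → 0 < Wt al om x ∧ Wt al om x ≤ 1 := by
    intro x hx
    refine ⟨Real.exp_pos _, ?_⟩
    unfold Wt
    rw [Real.exp_le_one_iff]
    have := div_pos hal hx
    have := mul_nonneg hom hx.le
    linarith
  refine ⟨h1, ?_⟩
  intro c hc
  have hmeas : Measurable (fun x : ℝ => x ^ (-c) * Wt al om x) := by
    unfold Wt
    fun_prop
  rw [← Ioc_union_Ioi_eq_Ioi (zero_le_one' ℝ)]
  apply IntegrableOn.union
  · obtain ⟨n, hn⟩ := exists_nat_ge c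
    have hb : ∀ x ∈ Ioc (0 : ℝ) 1, ‖x ^ (-c) * Wt al om x‖ ≤ (n.factorial : ℝ) / al ^ n := by
      intro x hx
      have hx0 : 0 < x := hx.1
      have hx1 : x ≤ 1 := hx.2
      have hy : 0 < al / x := div_pos hal hx0
      have e1 := Real.pow_div_factorial_le_exp (al / x) hy.le n
      have hnf : (0 : ℝ) < (n.factorial : ℝ) := by exact_mod_cast n.factorial_pos
      have e2 : Real.exp (-(al / x)) ≤ (n.factorial : ℝ) / al ^ n * x ^ n := by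
        rw [Real.exp_neg, inv_le_comm₀ (Real.exp_pos _) (by positivity)]
        refine le_trans (le_of_eq ?_) e1
        rw [div_pow, mul_inv, inv_div]
        field_simp
      have e3 : Wt al om x ≤ Real.exp (-(al / x)) := by
        unfold Wt
        apply Real.exp_le_exp.mpr
        have := mul_nonneg hom hx0.le
        linarith
      have e4 : x ^ (-c) * x ^ n ≤ 1 := by
        rw [← Real.rpow_natCast x n, ← Real.rpow_add hx0]
        exact Real.rpow_le_one hx0.le hx1 (by linarith)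
      rw [Real.norm_of_nonneg (mul_nonneg (Real.rpow_nonneg hx0.le _) (h1 x hx0).1.le)]
      calc x ^ (-c) * Wt al om x ≤ x ^ (-c) * ((n.factorial : ℝ) / al ^ n * x ^ n) := by
            apply mul_le_mul_of_nonneg_left (e3.trans e2) (Real.rpow_nonneg hx0.le _)
        _ = (n.factorial : ℝ) / al ^ n * (x ^ (-c) * x ^ n) := by ring
        _ ≤ (n.factorial : ℝ) / al ^ n * 1 := by gcongr
        _ = _ := mul_one _
    refine Measure.integrableOn_of_bounded (M := (n.factorial : ℝ) / al ^ n) (by simp) hmeas.aestronglyMeasurable ?_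
    filter_upwards [ae_restrict_mem measurableSet_Ioc] with x hx using hb x hx
  · have e1 : IntegrableOn (fun x : ℝ => x ^ (-c)) (Ioi 1) :=
      integrableOn_Ioi_rpow_of_lt (by linarith) zero_lt_one
    refine Integrable.mono' e1 hmeas.aestronglyMeasurable ?_
    filter_upwards [ae_restrict_mem measurableSet_Ioi] with x hx
    have hx0 : 0 < x := lt_trans zero_lt_one hx
    rw [Real.norm_of_nonneg (mul_nonneg (Real.rpow_nonneg hx0.le _) (h1 x hx0).1.le)]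
    exact mul_le_of_le_one_right (Real.rpow_nonneg hx0.le _) (h1 x hx0).2

/-- `∫ x^(-1-w) exp (-al/x) dx = al^(-w) Gamma w`: substitute `y = 1/x`
(`MeasureTheory.integral_comp_rpow_Ioi` with exponent `-1`), then
`Complex.integral_cpow_mul_exp_neg_mul_Ioi` (`r = al`). -/
theorem G_Bm_zero (al : ℝ) (hal : 0 < al) (w : ℂ) (hw : 0 < w.re) :
    Bm al 0 (1 + w) = (al : ℂ) ^ (-w) * Gamma w := by
  have hint := Complex.integral_cpow_mul_exp_neg_mul_Ioi (a := w) (r := al) hw hal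
  have hal' : (al : ℂ) ≠ 0 := by exact_mod_cast hal.ne'
  have e1 : (1 / (al : ℂ)) ^ w = (al : ℂ) ^ (-w) := by
    rw [one_div, Complex.inv_cpow _ _ (by rw [Complex.arg_ofReal_of_nonneg hal.le]; exact Real.pi_pos.ne),
      Complex.cpow_neg]
  rw [e1] at hint
  rw [← hint, ← MeasureTheory.integral_comp_rpow_Ioi
    (fun t : ℝ => (t : ℂ) ^ (w - 1) * exp (-((al : ℂ) * t))) (p := -1) (by norm_num)]
  unfold Bm
  apply setIntegral_congr_fun measurableSet_Ioi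
  intro x hx
  have hx0 : 0 < x := hx
  have hxc : (x : ℂ) ≠ 0 := by exact_mod_cast hx0.ne'
  have e2 : ((x ^ (-1 : ℝ) : ℝ) : ℂ) ^ (w - 1) = (x : ℂ) ^ (-(w - 1)) := by
    rw [Real.rpow_neg_one, Complex.ofReal_inv,
      Complex.inv_cpow _ _ (by rw [Complex.arg_ofReal_of_nonneg hx0.le]; exact Real.pi_pos.ne),
      Complex.cpow_neg]
  have e3 : ((x ^ (-1 - 1 : ℝ) : ℝ) : ℂ) = (x : ℂ) ^ (-2 : ℂ) := by
    rw [Complex.ofReal_cpow hx0.le]; norm_num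
  have e4 : (x : ℂ) ^ (-(1 + w)) = (x : ℂ) ^ (-2 : ℂ) * (x : ℂ) ^ (-(w - 1)) := by
    rw [← Complex.cpow_add _ _ hxc]; congr 1; ring
  have e5 : (Wt al 0 x : ℂ) = exp (-((al : ℂ) * ((x ^ (-1 : ℝ) : ℝ) : ℂ))) := by
    unfold Wt
    rw [Real.rpow_neg_one]
    push_cast
    congr 1
    ring
  simp only [abs_neg, abs_one, one_mul]
  rw [Complex.real_smul, e3, e2, ← e5, e4]
  ring

/-- auxiliary: `‖Γ(s)‖ ≤ Γ(re s)` -/
theorem G_3_norm_Gamma (s : ℂ) (hs : 0 < s.re) : ‖Gamma s‖ ≤ Real.Gamma s.re := by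
  rw [Complex.Gamma_eq_integral hs, Complex.GammaIntegral, Real.Gamma_eq_integral hs]
  refine (norm_integral_le_integral_norm _).trans (le_of_eq ?_)
  apply setIntegral_congr_fun measurableSet_Ioi
  intro x hx
  have hx0 : 0 < x := hx
  simp only [norm_mul]
  rw [Complex.norm_cpow_eq_rpow_re_of_pos hx0, Complex.norm_real, Real.norm_of_nonneg (Real.exp_pos _).le]
  simp

/-- `‖Γ(w)‖ = ‖Γ(1+w)‖/‖w‖` and `‖Γ(1+w)‖ ≤ Γ(1 + re w) ≤ 2` for `0 < re w ≤ 1`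
(`‖Γ(s)‖ ≤ Γ(re s)` from the integral `Complex.Gamma_eq_integral`; on `[1,2]` the real Gamma function is
`≤ 1` by convexity `Real.convexOn_Gamma`, `Γ(1) = Γ(2) = 1`). -/
theorem G_Bm_zero_le (al : ℝ) (hal : 1 ≤ al) (w : ℂ) (hw : 0 < w.re) (hw1 : w.re ≤ 1) :
    ‖Bm al 0 (1 + w)‖ ≤ 2 / ‖w‖ := by
  have hal0 : 0 < al := by linarith
  have hw0 : w ≠ 0 := by
    intro h
    rw [h] at hw
    simp at hw
  have hwn : 0 < ‖w‖ := norm_pos_iff.mpr hw0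
  rw [G_Bm_zero al hal0 w hw, norm_mul]
  have e1 : ‖(al : ℂ) ^ (-w)‖ ≤ 1 := by
    rw [Complex.norm_cpow_eq_rpow_re_of_pos hal0, Complex.neg_re]
    exact Real.rpow_le_one_of_one_le_of_nonpos hal (by linarith)
  have e2 : ‖Gamma (w + 1)‖ ≤ 1 := by
    refine (G_3_norm_Gamma (w + 1) (by simp; linarith)).trans ?_
    have hre : (w + 1).re = (1 - w.re) • (1 : ℝ) + w.re • (2 : ℝ) := by simp; ring
    rw [hre]
    have hcv := Real.convexOn_Gamma.2 (show (1 : ℝ) ∈ Ioi (0 : ℝ) by simp) (show (2 : ℝ) ∈ Ioi (0 : ℝ) by simp)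
      (show 0 ≤ 1 - w.re by linarith) hw.le (by ring)
    rw [Real.Gamma_one, Real.Gamma_two] at hcv
    refine hcv.trans (le_of_eq ?_)
    simp
  rw [Complex.Gamma_add_one w hw0, norm_mul] at e2
  have e3 : ‖Gamma w‖ ≤ 1 / ‖w‖ := by
    rw [le_div_iff₀ hwn]; linarith
  calc ‖(al : ℂ) ^ (-w)‖ * ‖Gamma w‖ ≤ 1 * (1 / ‖w‖) := by gcongr
    _ ≤ 2 / ‖w‖ := by rw [one_mul]; gcongr; norm_num

end OO

end

section

/-!
# Row G_4b: the Mellin transform of the weight with a cutoff, second bound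
-/

open Complex MeasureTheory Set Filter Topology
open scoped ComplexConjugate

namespace OO

theorem G_4b_exp {x : ℝ} (hx : 0 < x) : Real.exp (-(1 / x)) ≤ 6 * x ^ 3 := by
  have h := Real.pow_div_factorial_le_exp (1 / x) (by positivity) 3
  have h6 : ((Nat.factorial 3 : ℕ) : ℝ) = 6 := by norm_num [Nat.factorial]
  rw [h6] at h
  rw [Real.exp_neg]
  have hpos : 0 < (1 / x) ^ 3 / 6 := by positivity
  calc (Real.exp (1 / x))⁻¹ ≤ ((1 / x) ^ 3 / 6)⁻¹ := inv_anti₀ hpos h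
    _ = 6 * x ^ 3 := by field_simp

theorem G_4b_W1 {om x : ℝ} (hom : 0 ≤ om) (hx : 0 < x) : Wt 1 om x ≤ 6 * x ^ 3 := by
  refine le_trans ?_ (G_4b_exp hx)
  unfold Wt
  apply Real.exp_le_exp.mpr
  have : 0 ≤ om * x := by positivity
  linarith

theorem G_4b_W2 {om x : ℝ} (hx : 0 < x) : Wt 1 om x ≤ Real.exp (-(om * x)) := by
  unfold Wt
  apply Real.exp_le_exp.mpr
  have : 0 < 1 / x := by positivity
  linarith

theorem G_4b_W0 {om x : ℝ} : 0 < Wt 1 om x := Real.exp_pos _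

theorem G_4b_u {w : ℂ} {x : ℝ} (hx : 0 < x) :
    HasDerivAt (fun y : ℝ => (y : ℂ) ^ (-w)) (-w * (x : ℂ) ^ (-(1 + w))) x := by
  have hs : ((x : ℝ) : ℂ) ∈ Complex.slitPlane := Complex.ofReal_mem_slitPlane.mpr hx
  have h1 : HasDerivAt (fun z : ℂ => z ^ (-w)) (-w * (x : ℂ) ^ (-w - 1)) (x : ℂ) := by
    have := (hasDerivAt_id (x : ℂ)).cpow_const (c := -w) hs
    simpa using this
  have h2 := h1.comp_ofReal
  have e : -w - 1 = -(1 + w) := by ring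
  rw [e] at h2
  exact h2

theorem G_4b_v {om x : ℝ} (hx : 0 < x) :
    HasDerivAt (fun y : ℝ => Wt 1 om y) ((1 / x ^ 2 - om) * Wt 1 om x) x := by
  have h1 : HasDerivAt (fun y : ℝ => -(1 / y) - om * y) (1 / x ^ 2 - om) x := by
    have h2 := ((hasDerivAt_inv hx.ne').neg.sub ((hasDerivAt_id x).const_mul om))
    have e2 : -(-(x ^ 2)⁻¹) - om * 1 = 1 / x ^ 2 - om := by
      rw [one_div]
      ring
    refine (h2.congr_deriv e2).congr_of_eventuallyEq (Filter.Eventually.of_forall fun y => ?_)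
    simp
  have h3 := h1.exp
  rw [mul_comm]
  exact h3

theorem G_4b_norm {om : ℝ} {w : ℂ} {x : ℝ} (hx : 0 < x) :
    ‖(x : ℂ) ^ (-w) * (((1 / x ^ 2 - om) * Wt 1 om x : ℝ) : ℂ)‖ =
      x ^ (-w.re) * (|1 / x ^ 2 - om| * Wt 1 om x) := by
  rw [norm_mul, Complex.norm_cpow_eq_rpow_re_of_pos hx, Complex.norm_real, Real.norm_eq_abs,
    abs_mul, abs_of_pos (G_4b_W0 (om := om) (x := x)), Complex.neg_re]

theorem G_4b_small {om : ℝ} {w : ℂ} {x : ℝ} (hx : 0 < x) (hx1 : x ≤ 1) (hom : 0 ≤ om) (hom1 : om ≤ 1)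
    (hw1 : w.re ≤ 1) :
    ‖(x : ℂ) ^ (-w) * (((1 / x ^ 2 - om) * Wt 1 om x : ℝ) : ℂ)‖ ≤ 12 := by
  rw [G_4b_norm hx]
  have h1 : x ^ (-w.re) ≤ x ^ (-1 : ℝ) :=
    Real.rpow_le_rpow_of_exponent_ge hx hx1 (by linarith)
  rw [Real.rpow_neg_one] at h1
  have hx2 : 1 ≤ 1 / x ^ 2 := by
    rw [le_div_iff₀ (by positivity), one_mul]
    exact pow_le_one₀ hx.le hx1
  have h2 : |1 / x ^ 2 - om| ≤ 2 * (1 / x ^ 2) := by
    rw [abs_le]
    constructor <;> linarith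
  have h3 := G_4b_W1 hom hx
  calc x ^ (-w.re) * (|1 / x ^ 2 - om| * Wt 1 om x)
      ≤ x⁻¹ * ((2 * (1 / x ^ 2)) * (6 * x ^ 3)) := by
        refine mul_le_mul h1 (mul_le_mul h2 h3 (G_4b_W0).le (by positivity))
          (mul_nonneg (abs_nonneg _) (G_4b_W0).le) (by positivity)
    _ = 12 := by
        field_simp
        norm_num

theorem G_4b_large {om : ℝ} {w : ℂ} {x : ℝ} (hx1 : 1 ≤ x) (hom : 0 ≤ om) (hw : 0 < w.re) :
    ‖(x : ℂ) ^ (-w) * (((1 / x ^ 2 - om) * Wt 1 om x : ℝ) : ℂ)‖ ≤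
      x ^ (-2 : ℝ) + om * Real.exp (-(om * x)) := by
  have hx : 0 < x := by linarith
  rw [G_4b_norm hx]
  have h1 : x ^ (-w.re) ≤ 1 := Real.rpow_le_one_of_one_le_of_nonpos hx1 (by linarith)
  have h2 : |1 / x ^ 2 - om| ≤ 1 / x ^ 2 + om := by
    have : 0 < 1 / x ^ 2 := by positivity
    rw [abs_le]
    constructor <;> linarith
  have h3 : Wt 1 om x ≤ Real.exp (-(om * x)) := G_4b_W2 hx
  have h4 : Real.exp (-(om * x)) ≤ 1 := Real.exp_le_one_iff.mpr (by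
    have : 0 ≤ om * x := by positivity
    linarith)
  have e : x ^ (-2 : ℝ) = 1 / x ^ 2 := by
    rw [Real.rpow_neg hx.le, one_div]
    norm_num
  rw [e]
  have hW0 : 0 < Wt 1 om x := G_4b_W0
  have hp : 0 < 1 / x ^ 2 := by positivity
  calc x ^ (-w.re) * (|1 / x ^ 2 - om| * Wt 1 om x)
      ≤ 1 * ((1 / x ^ 2 + om) * Real.exp (-(om * x))) := by
        refine mul_le_mul h1 (mul_le_mul h2 h3 hW0.le (by positivity))
          (mul_nonneg (abs_nonneg _) hW0.le) (by norm_num)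
    _ = 1 / x ^ 2 * Real.exp (-(om * x)) + om * Real.exp (-(om * x)) := by ring
    _ ≤ 1 / x ^ 2 * 1 + om * Real.exp (-(om * x)) := by
        have := mul_le_mul_of_nonneg_left h4 hp.le
        linarith
    _ = _ := by ring

theorem G_4b_meas (om : ℝ) (w : ℂ) : Measurable (fun x : ℝ =>
    (x : ℂ) ^ (-w) * (((1 / x ^ 2 - om) * Wt 1 om x : ℝ) : ℂ)) := by
  unfold Wt
  have h1 : Measurable (fun x : ℝ => (x : ℂ) ^ (-w)) := Complex.measurable_ofReal.pow_const _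
  have h2 : Measurable (fun x : ℝ => ((1 / x ^ 2 - om) * Real.exp (-(1 / x) - om * x) : ℝ)) := by
    fun_prop
  exact h1.mul (Complex.measurable_ofReal.comp h2)

theorem G_4b_int0 {om : ℝ} {w : ℂ} (hom : 0 ≤ om) (hom1 : om ≤ 1) (hw1 : w.re ≤ 1) :
    IntegrableOn (fun x : ℝ => (x : ℂ) ^ (-w) * (((1 / x ^ 2 - om) * Wt 1 om x : ℝ) : ℂ))
      (Ioc 0 1) ∧
    ‖∫ x in Ioc (0 : ℝ) 1, (x : ℂ) ^ (-w) * (((1 / x ^ 2 - om) * Wt 1 om x : ℝ) : ℂ)‖ ≤ 12 := by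
  have hae : ∀ᵐ x : ℝ ∂(volume.restrict (Ioc (0 : ℝ) 1)),
      ‖(x : ℂ) ^ (-w) * (((1 / x ^ 2 - om) * Wt 1 om x : ℝ) : ℂ)‖ ≤ 12 := by
    refine (ae_restrict_iff' measurableSet_Ioc).mpr (Filter.Eventually.of_forall fun x hx => ?_)
    exact G_4b_small hx.1 hx.2 hom hom1 hw1
  have hc : IntegrableOn (fun _ : ℝ => (12 : ℝ)) (Ioc 0 1) :=
    integrableOn_const (by simp)
  constructor
  · exact Integrable.mono' hc (G_4b_meas om w).aestronglyMeasurable hae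
  · refine (norm_integral_le_of_norm_le hc hae).trans (le_of_eq ?_)
    simp

theorem G_4b_int1 {om : ℝ} {w : ℂ} (hom : 0 < om) (hw : 0 < w.re) :
    IntegrableOn (fun x : ℝ => (x : ℂ) ^ (-w) * (((1 / x ^ 2 - om) * Wt 1 om x : ℝ) : ℂ))
      (Ioi 1) ∧
    ‖∫ x in Ioi (1 : ℝ), (x : ℂ) ^ (-w) * (((1 / x ^ 2 - om) * Wt 1 om x : ℝ) : ℂ)‖ ≤ 2 := by
  have hae : ∀ᵐ x : ℝ ∂(volume.restrict (Ioi (1 : ℝ))),
      ‖(x : ℂ) ^ (-w) * (((1 / x ^ 2 - om) * Wt 1 om x : ℝ) : ℂ)‖ ≤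
        x ^ (-2 : ℝ) + om * Real.exp (-(om * x)) := by
    refine (ae_restrict_iff' measurableSet_Ioi).mpr (Filter.Eventually.of_forall fun x hx => ?_)
    exact G_4b_large (le_of_lt hx) hom.le hw
  have h1 : IntegrableOn (fun x : ℝ => x ^ (-2 : ℝ)) (Ioi 1) :=
    integrableOn_Ioi_rpow_of_lt (by norm_num) (by norm_num)
  have h2 : IntegrableOn (fun x : ℝ => om * Real.exp (-(om * x))) (Ioi 1) := by
    have h3 : IntegrableOn (fun x : ℝ => om * Real.exp (-om * x)) (Ioi 1) :=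
      (integrableOn_exp_mul_Ioi (a := -om) (by linarith) 1).const_mul om
    refine h3.congr_fun (fun x _ => ?_) measurableSet_Ioi
    simp only [neg_mul]
  have i1 : ∫ x in Ioi (1 : ℝ), x ^ (-2 : ℝ) = 1 := by
    rw [integral_Ioi_rpow_of_lt (by norm_num) (by norm_num)]
    norm_num
  have i2 : ∫ x in Ioi (1 : ℝ), om * Real.exp (-(om * x)) ≤ 1 := by
    have e : ∀ x : ℝ, om * Real.exp (-(om * x)) = om * Real.exp ((-om) * x) := fun x => by
      rw [neg_mul]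
    simp only [e]
    rw [integral_const_mul, integral_exp_mul_Ioi (by linarith)]
    have e2 : om * (-Real.exp (-om * 1) / -om) = Real.exp (-om * 1) := by
      field_simp
    rw [e2]
    exact Real.exp_le_one_iff.mpr (by linarith)
  constructor
  · exact Integrable.mono' (h1.add h2) (G_4b_meas om w).aestronglyMeasurable hae
  · refine (norm_integral_le_of_norm_le (h1.add h2) hae).trans ?_
    rw [integral_add' h1 h2, i1]
    linarith

theorem G_4b_zero {om : ℝ} {w : ℂ} (hom : 0 ≤ om) (hw1 : w.re ≤ 1) :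
    Tendsto ((fun x : ℝ => (x : ℂ) ^ (-w)) * (fun x : ℝ => ((Wt 1 om x : ℝ) : ℂ))) (𝓝[>] 0)
      (𝓝 0) := by
  have hlim : Tendsto (fun x : ℝ => 6 * x ^ 2) (𝓝[>] 0) (𝓝 0) := by
    have : Tendsto (fun x : ℝ => 6 * x ^ 2) (𝓝 0) (𝓝 (6 * 0 ^ 2)) :=
      (continuous_const.mul (continuous_pow 2)).tendsto 0
    rw [show (6 : ℝ) * 0 ^ 2 = 0 by norm_num] at this
    exact this.mono_left nhdsWithin_le_nhds
  refine squeeze_zero_norm' ?_ hlim
  have hmem : Ioc (0 : ℝ) 1 ∈ 𝓝[>] (0 : ℝ) := Ioc_mem_nhdsGT (by norm_num)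
  filter_upwards [hmem] with x hx
  rw [Pi.mul_apply, norm_mul, Complex.norm_cpow_eq_rpow_re_of_pos hx.1, Complex.norm_real,
    Real.norm_eq_abs, abs_of_pos G_4b_W0, Complex.neg_re]
  have h1 : x ^ (-w.re) ≤ x ^ (-1 : ℝ) :=
    Real.rpow_le_rpow_of_exponent_ge hx.1 hx.2 (by linarith)
  rw [Real.rpow_neg_one] at h1
  have hx0 : 0 < x := hx.1
  calc x ^ (-w.re) * Wt 1 om x ≤ x⁻¹ * (6 * x ^ 3) :=
        mul_le_mul h1 (G_4b_W1 hom hx.1) (G_4b_W0).le (by positivity)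
    _ = 6 * x ^ 2 := by field_simp

theorem G_4b_infty {om : ℝ} {w : ℂ} (hom : 0 < om) (hw : 0 < w.re) :
    Tendsto ((fun x : ℝ => (x : ℂ) ^ (-w)) * (fun x : ℝ => ((Wt 1 om x : ℝ) : ℂ))) atTop
      (𝓝 0) := by
  have hlim : Tendsto (fun x : ℝ => Real.exp (-(om * x))) atTop (𝓝 0) := by
    refine Real.tendsto_exp_atBot.comp ?_
    exact tendsto_neg_atTop_atBot.comp (tendsto_id.const_mul_atTop hom)
  refine squeeze_zero_norm' ?_ hlim
  filter_upwards [eventually_ge_atTop (1 : ℝ)] with x hx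
  have hx0 : 0 < x := by linarith
  rw [Pi.mul_apply, norm_mul, Complex.norm_cpow_eq_rpow_re_of_pos hx0, Complex.norm_real,
    Real.norm_eq_abs, abs_of_pos G_4b_W0, Complex.neg_re]
  have h1 : x ^ (-w.re) ≤ 1 := Real.rpow_le_one_of_one_le_of_nonpos hx (by linarith)
  calc x ^ (-w.re) * Wt 1 om x ≤ 1 * Real.exp (-(om * x)) :=
        mul_le_mul h1 (G_4b_W2 hx0) (G_4b_W0).le (by norm_num)
    _ = _ := one_mul _

/-- Second bound: integration by parts on `(0,∞)` (`MeasureTheory.integral_Ioi_mul_deriv_eq_deriv_mul`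
with limits `0` at both ends, or `integral_Ioi_of_hasDerivAt_of_tendsto` for `x^(-w) W(x)`):
`w B(1+w) = ∫ x^(-w) W'(x) dx`, `W'(x) = (x^(-2) - e^(-Y)) W(x)`, so
`‖w‖ ‖B‖ ≤ ∫_0^1 (x^(-3) + x^(-1)) e^(-1/x) dx + ∫_1^∞ x^(-2) dx + ∫_1^∞ e^(-Y) exp (-e^(-Y) x) dx ≤ C`
(`x^(-re w) ≤ x^(-1)` for `x ≤ 1`, `≤ 1` for `x ≥ 1`; `e^(-1/x) ≤ 6 x^3`, so the first integral is
at most `12`). -/
theorem G_Bm_second : ∃ C : ℝ, 0 < C ∧ ∀ Y : ℝ, 1 ≤ Y → ∀ w : ℂ, 0 < w.re → w.re ≤ 1 →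
    ‖w‖ * ‖Bm 1 (Real.exp (-Y)) (1 + w)‖ ≤ C := by
  refine ⟨14, by norm_num, fun Y hY w hw hw1 => ?_⟩
  set om : ℝ := Real.exp (-Y) with hom
  have hom0 : 0 < om := Real.exp_pos _
  have hom1 : om ≤ 1 := Real.exp_le_one_iff.mpr (by linarith)
  obtain ⟨a1, a2⟩ := G_4b_int0 (w := w) hom0.le hom1 hw1
  obtain ⟨b1, b2⟩ := G_4b_int1 (w := w) hom0 hw
  have hunion : Ioc (0 : ℝ) 1 ∪ Ioi 1 = Ioi 0 := Ioc_union_Ioi_eq_Ioi (by norm_num)
  have hF : IntegrableOn (fun x : ℝ => (x : ℂ) ^ (-w) *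
      (((1 / x ^ 2 - om) * Wt 1 om x : ℝ) : ℂ)) (Ioi 0) := by
    rw [← hunion]
    exact a1.union b1
  have hU : IntegrableOn (fun x : ℝ => (-w * (x : ℂ) ^ (-(1 + w))) * ((Wt 1 om x : ℝ) : ℂ))
      (Ioi 0) := by
    have h1 := (G_Wt 1 om (by norm_num) hom0.le).2 (1 + w.re) (by linarith)
    have hm : Measurable (fun x : ℝ => (-w * (x : ℂ) ^ (-(1 + w))) * ((Wt 1 om x : ℝ) : ℂ)) := by
      have h2 : Measurable (fun x : ℝ => (x : ℂ) ^ (-(1 + w))) :=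
        Complex.measurable_ofReal.pow_const _
      have h3 : Measurable (fun x : ℝ => Wt 1 om x) := by
        unfold Wt
        fun_prop
      exact (h2.const_mul (-w)).mul (Complex.measurable_ofReal.comp h3)
    refine Integrable.mono' (h1.const_mul ‖w‖) hm.aestronglyMeasurable ?_
    refine (ae_restrict_iff' measurableSet_Ioi).mpr (Filter.Eventually.of_forall fun x hx => ?_)
    have hx0 : 0 < x := hx
    rw [norm_mul, norm_mul, norm_neg, Complex.norm_cpow_eq_rpow_re_of_pos hx0, Complex.norm_real,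
      Real.norm_eq_abs, abs_of_pos G_4b_W0]
    have e : (-(1 + w)).re = -(1 + w.re) := by simp
    rw [e, mul_assoc]
  have hparts := integral_Ioi_mul_deriv_eq_deriv_mul (a := (0 : ℝ)) (a' := (0 : ℂ)) (b' := (0 : ℂ))
    (u := fun x : ℝ => (x : ℂ) ^ (-w)) (v := fun x : ℝ => ((Wt 1 om x : ℝ) : ℂ))
    (u' := fun x : ℝ => -w * (x : ℂ) ^ (-(1 + w)))
    (v' := fun x : ℝ => (((1 / x ^ 2 - om) * Wt 1 om x : ℝ) : ℂ))
    (fun x hx => G_4b_u hx) (fun x hx => (G_4b_v hx).ofReal_comp) hF hU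
    (G_4b_zero hom0.le hw1) (G_4b_infty hom0 hw)
  have hB : ∫ x in Ioi (0 : ℝ), (-w * (x : ℂ) ^ (-(1 + w))) * ((Wt 1 om x : ℝ) : ℂ) =
      -w * Bm 1 om (1 + w) := by
    unfold Bm
    rw [← integral_const_mul]
    refine integral_congr_ae (Filter.Eventually.of_forall fun x => ?_)
    simp only [mul_assoc]
  rw [hB] at hparts
  have e1 : w * Bm 1 om (1 + w) = ∫ x in Ioi (0 : ℝ), (x : ℂ) ^ (-w) *
      (((1 / x ^ 2 - om) * Wt 1 om x : ℝ) : ℂ) := by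
    rw [hparts]
    ring
  rw [← norm_mul, e1, ← hunion, setIntegral_union (Ioc_disjoint_Ioi le_rfl) measurableSet_Ioi a1 b1]
  calc ‖(∫ x in Ioc (0 : ℝ) 1, (x : ℂ) ^ (-w) * (((1 / x ^ 2 - om) * Wt 1 om x : ℝ) : ℂ)) +
        ∫ x in Ioi (1 : ℝ), (x : ℂ) ^ (-w) * (((1 / x ^ 2 - om) * Wt 1 om x : ℝ) : ℂ)‖
      ≤ 12 + 2 := (norm_add_le _ _).trans (add_le_add a2 b2)
    _ = 14 := by norm_num

/-- the minimum of the two bounds -/
theorem G_Bm : ∃ C : ℝ, 0 < C ∧ ∀ Y : ℝ, 1 ≤ Y → ∀ w : ℂ, 0 < w.re → w.re ≤ 1 →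
    ‖Bm 1 (Real.exp (-Y)) (1 + w)‖ ≤ C * min Y (1 / ‖w‖) := by
  obtain ⟨C, hC, h⟩ := G_Bm_second
  refine ⟨max 3 C, lt_of_lt_of_le (by norm_num) (le_max_left _ _), fun Y hY w hw hw1 => ?_⟩
  have hw0 : 0 < ‖w‖ := norm_pos_iff.mpr fun h0 => by simp [h0] at hw
  have h1 := G_Bm_first Y hY w hw hw1
  have h2 := h Y hY w hw hw1
  rw [mul_min_of_nonneg _ _ (le_trans (by norm_num) (le_max_left (3 : ℝ) C))]
  refine le_min ?_ ?_
  · exact h1.trans (mul_le_mul_of_nonneg_right (le_max_left _ _) (by linarith))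
  · rw [mul_one_div, le_div_iff₀ hw0, mul_comm]
    exact h2.trans (le_max_right _ _)

end OO

end

section

/-!
# Row G_5: Mellin formula for the Laplace transform of the weight
-/

open Complex MeasureTheory Set Filter Topology
open scoped ComplexConjugate

namespace OO

theorem G_5_norm_cpow (c y x : ℝ) (hx : 0 < x) : ‖(x : ℂ) ^ (-(c + y * I : ℂ))‖ = x ^ (-c) := by
  rw [Complex.norm_cpow_eq_rpow_re_of_pos hx]
  simp

theorem G_5_meas_Wt (al om : ℝ) : Measurable (fun x : ℝ => Wt al om x) := by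
  unfold Wt
  fun_prop

theorem G_5_gamma_cont (c : ℝ) (hc : 1 < c) : Continuous (fun y : ℝ => Gamma (c + y * I)) := by
  rw [continuous_iff_continuousAt]
  intro y
  have h1 : ContinuousAt Complex.Gamma (c + y * I) := by
    refine (Complex.differentiableAt_Gamma _ fun m h => ?_).continuousAt
    have h2 := congrArg Complex.re h
    simp at h2
    have h3 : (0 : ℝ) ≤ m := Nat.cast_nonneg m
    linarith
  have h2 : ContinuousAt (fun y : ℝ => (c + y * I : ℂ)) y := by fun_prop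
  exact ContinuousAt.comp (f := fun y : ℝ => (c + y * I : ℂ)) h1 h2

/-- `‖Bm (c + iy)‖ ≤ ∫ x^(-c) W`, and `y ↦ Bm (c+iy)` is continuous (dominated convergence) -/
theorem G_Bm_line (al om : ℝ) (hal : 0 < al) (hom : 0 ≤ om) (c : ℝ) (hc : 1 < c) :
    (∀ y : ℝ, ‖Bm al om (c + y * I)‖ ≤ ∫ x in Ioi (0 : ℝ), x ^ (-c) * Wt al om x) ∧
      Continuous (fun y : ℝ => Bm al om (c + y * I)) := by
  obtain ⟨hW, hint⟩ := G_Wt al om hal hom
  have hn : ∀ y : ℝ, ∀ x ∈ Ioi (0 : ℝ),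
      ‖(x : ℂ) ^ (-(c + y * I : ℂ)) * (Wt al om x : ℂ)‖ = x ^ (-c) * Wt al om x := by
    intro y x hx
    rw [norm_mul, G_5_norm_cpow c y x hx, Complex.norm_real, Real.norm_of_nonneg (hW x hx).1.le]
  refine ⟨fun y => ?_, ?_⟩
  · unfold Bm
    refine norm_integral_le_of_norm_le (hint c hc) ?_
    filter_upwards [ae_restrict_mem measurableSet_Ioi] with x hx
    exact (hn y x hx).le
  · unfold Bm
    refine continuous_of_dominated (bound := fun x : ℝ => x ^ (-c) * Wt al om x) ?_ ?_ (hint c hc) ?_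
    · intro y
      refine Measurable.aestronglyMeasurable ?_
      exact (Complex.measurable_ofReal.pow_const _).mul
        (Complex.measurable_ofReal.comp (G_5_meas_Wt al om))
    · intro y
      filter_upwards [ae_restrict_mem measurableSet_Ioi] with x hx
      exact (hn y x hx).le
    · filter_upwards [ae_restrict_mem measurableSet_Ioi] with x hx
      have hx0 : (x : ℂ) ≠ 0 := by exact_mod_cast (ne_of_gt hx)
      refine Continuous.mul ?_ continuous_const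
      refine Continuous.const_cpow (by fun_prop) (Or.inl hx0)

/-- `LZX.exp_mellin` (V13) with `W = P x`: `e^(-Px) = (1/2π) ∫ Γ(c+iy) (Px)^(-(c+iy)) dy`; insert in `Psi`,
`(Px)^(-s) = P^(-s) x^(-s)`, exchange (`MeasureTheory.integral_integral_swap`; the product
`‖Γ(c+iy)‖ P^(-c) x^(-c) W(x)` is integrable: `LZX.Gamma_decay` with `θ = 1`, `G_Wt`, `Integrable.mul_prod`).
Also the integrand is integrable. -/
theorem G_Psi (al om : ℝ) (hal : 0 < al) (hom : 0 ≤ om) (c : ℝ) (hc : 1 < c) (P : ℝ) (hP : 0 < P) :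
    Integrable (fun y : ℝ => Gamma (c + y * I) * Bm al om (c + y * I) * (P : ℂ) ^ (-(c + y * I : ℂ))) ∧
    (Psi al om P : ℂ) = 1 / (2 * Real.pi) *
      ∫ y : ℝ, Gamma (c + y * I) * Bm al om (c + y * I) * (P : ℂ) ^ (-(c + y * I : ℂ)) := by
  obtain ⟨hW, hint⟩ := G_Wt al om hal hom
  have hc0 : 0 < c := by linarith
  set F : ℝ → ℝ → ℂ := fun x y => (Wt al om x : ℂ) *
    (Gamma (c + y * I) * ((P : ℂ) ^ (-(c + y * I : ℂ)) * (x : ℂ) ^ (-(c + y * I : ℂ)))) with hF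
  -- integrability of the Gamma factor
  have hGam : Integrable (fun y : ℝ => Gamma (c + y * I) * (P : ℂ) ^ (-(c + y * I : ℂ))) :=
    (LZX.exp_mellin hc0 (W := (P : ℂ)) (by simpa using hP)).1
  have hprod : Integrable (fun z : ℝ × ℝ => (z.1 ^ (-c) * Wt al om z.1) *
      ‖Gamma (c + z.2 * I) * (P : ℂ) ^ (-(c + z.2 * I : ℂ))‖)
      ((volume.restrict (Ioi (0 : ℝ))).prod volume) :=
    Integrable.mul_prod (f := fun x : ℝ => x ^ (-c) * Wt al om x)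
      (g := fun y : ℝ => ‖Gamma (c + y * I) * (P : ℂ) ^ (-(c + y * I : ℂ))‖) (hint c hc) hGam.norm
  have hmeas : Measurable (Function.uncurry F) := by
    have h1 : Measurable (fun z : ℝ × ℝ => ((Wt al om z.1 : ℝ) : ℂ)) :=
      Complex.measurable_ofReal.comp ((G_5_meas_Wt al om).comp measurable_fst)
    have h2 : Measurable (fun z : ℝ × ℝ => Gamma (c + z.2 * I)) :=
      (G_5_gamma_cont c hc).measurable.comp measurable_snd
    have hs : Measurable (fun z : ℝ × ℝ => (-(c + z.2 * I) : ℂ)) := by fun_prop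
    have h3 : Measurable (fun z : ℝ × ℝ => (P : ℂ) ^ (-(c + z.2 * I : ℂ))) :=
      Measurable.pow measurable_const hs
    have h4 : Measurable (fun z : ℝ × ℝ => (z.1 : ℂ) ^ (-(c + z.2 * I : ℂ))) :=
      Measurable.pow (Complex.measurable_ofReal.comp measurable_fst) hs
    exact h1.mul (h2.mul (h3.mul h4))
  have hFi : Integrable (Function.uncurry F) ((volume.restrict (Ioi (0 : ℝ))).prod volume) := by
    refine Integrable.mono' hprod hmeas.aestronglyMeasurable ?_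
    have hae : ∀ᵐ z : ℝ × ℝ ∂((volume.restrict (Ioi (0 : ℝ))).prod volume), z.1 ∈ Ioi (0 : ℝ) :=
      (Measure.quasiMeasurePreserving_fst).ae (ae_restrict_mem measurableSet_Ioi)
    filter_upwards [hae] with z hz
    rw [Function.uncurry_def]
    simp only [hF]
    rw [norm_mul, norm_mul, norm_mul, norm_mul, G_5_norm_cpow c z.2 z.1 hz, Complex.norm_real,
      Real.norm_of_nonneg (hW z.1 hz).1.le]
    apply le_of_eq
    ring
  have hinner : ∀ y : ℝ, ∫ x in Ioi (0 : ℝ), F x y =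
      Gamma (c + y * I) * Bm al om (c + y * I) * (P : ℂ) ^ (-(c + y * I : ℂ)) := by
    intro y
    unfold Bm
    have h1 : ∀ x : ℝ, F x y = (Gamma (c + y * I) * (P : ℂ) ^ (-(c + y * I : ℂ))) *
        ((x : ℂ) ^ (-(c + y * I : ℂ)) * (Wt al om x : ℂ)) := by
      intro x
      simp only [hF]
      ring
    simp_rw [h1]
    rw [integral_const_mul]
    ring
  refine ⟨?_, ?_⟩
  · have h := hFi.integral_prod_right
    refine h.congr (Eventually.of_forall fun y => ?_)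
    exact hinner y
  · have hswap := integral_integral_swap hFi
    simp_rw [hinner] at hswap
    rw [← hswap, ← integral_const_mul]
    unfold Psi
    rw [← integral_complex_ofReal]
    refine setIntegral_congr_fun measurableSet_Ioi fun x hx => ?_
    have hx0 : (0 : ℝ) < x := hx
    have hPx : 0 < ((P * x : ℝ) : ℂ).re := by
      simpa using mul_pos hP hx0
    have h1 := (LZX.exp_mellin hc0 hPx).2
    have h2 : ∀ y : ℝ, F x y = (Wt al om x : ℂ) *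
        (Gamma (c + y * I) * ((P * x : ℝ) : ℂ) ^ (-(c + y * I : ℂ))) := by
      intro y
      simp only [hF]
      rw [Complex.ofReal_mul, Complex.mul_cpow_ofReal_nonneg hP.le hx0.le]
    simp_rw [h2]
    rw [integral_const_mul]
    have h3 : ((Real.exp (-(P * x)) : ℝ) : ℂ) = cexp (-((P * x : ℝ) : ℂ)) := by
      push_cast
      rfl
    simp only [Complex.ofReal_mul]
    rw [h3, ← h1]
    push_cast
    ring

end OO

end

section

/-!
# Row G_6: the diagonal sum as an integral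
-/

open Complex MeasureTheory Set Filter Topology
open scoped ComplexConjugate

namespace OO

theorem G_6_norm (M c y : ℝ) (hM : 0 < M) : ‖(M : ℂ) ^ (-(c + y * I : ℂ))‖ = M ^ (-c) := by
  rw [Complex.norm_cpow_eq_rpow_re_of_pos hM]
  congr 1
  simp

theorem G_6_mul (P M : ℝ) (hP : 0 < P) (hM : 0 < M) (s : ℂ) :
    ((P * M : ℝ) : ℂ) ^ s = (P : ℂ) ^ s * (M : ℂ) ^ s := by
  rw [Complex.ofReal_mul, Complex.mul_cpow_ofReal_nonneg hP.le hM.le]

/-- `x m = ‖Cm m‖^2 ≥ 0`, `x 0 = 0`. For `m ≥ 1`: `G_Psi` at `P m/Q`, `(P m/Q)^(-s) = P^(-s) (m/Q)^(-s)`;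
exchange the sum and the integral (`hasSum_integral_of_summable_integral_norm`: the norms are
`‖Γ(c+iy)‖ ‖Bm(c+iy)‖ P^(-c) x m (m/Q)^(-c)`, summable over `m` by `hsum`). -/
theorem G_DS (x : ℕ → ℝ) (hx : ∀ m, 0 ≤ x m) (hx0 : x 0 = 0) (Q : ℝ) (hQ : 0 < Q) (c : ℝ) (hc : 1 < c)
    (hsum : Summable (fun m : ℕ => x m * ((m : ℝ) / Q) ^ (-c)))
    (al om : ℝ) (hal : 0 < al) (hom : 0 ≤ om) (P : ℝ) (hP : 0 < P) :
    ((∑' m : ℕ, x m * Psi al om (P * ((m : ℝ) / Q)) : ℝ) : ℂ) = 1 / (2 * Real.pi) *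
      ∫ y : ℝ, Gamma (c + y * I) * Bm al om (c + y * I) * (P : ℂ) ^ (-(c + y * I : ℂ)) *
        ∑' m : ℕ, (x m : ℂ) * (((m : ℝ) / Q : ℝ) : ℂ) ^ (-(c + y * I : ℂ)) := by
  obtain ⟨hgi, -⟩ := G_Psi al om hal hom c hc P hP
  set g : ℝ → ℂ := fun y => Gamma (c + y * I) * Bm al om (c + y * I) * (P : ℂ) ^ (-(c + y * I : ℂ))
    with hg
  set F : ℕ → ℝ → ℂ := fun m y => g y * ((x m : ℂ) * (((m : ℝ) / Q : ℝ) : ℂ) ^ (-(c + y * I : ℂ)))
    with hF
  have hF0 : F 0 = fun _ => 0 := by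
    funext y
    simp [hF, hx0]
  have hFm : ∀ m : ℕ, 0 < m → F m = fun y : ℝ => (x m : ℂ) *
      (Gamma (c + y * I) * Bm al om (c + y * I) *
        ((P * ((m : ℝ) / Q) : ℝ) : ℂ) ^ (-(c + y * I : ℂ))) := by
    intro m hm
    funext y
    have hM : 0 < (m : ℝ) / Q := div_pos (Nat.cast_pos.2 hm) hQ
    rw [G_6_mul P _ hP hM]
    simp only [hF, hg]
    ring
  have hpos : ∀ m : ℕ, 0 < m → 0 < P * ((m : ℝ) / Q) := fun m hm =>
    mul_pos hP (div_pos (Nat.cast_pos.2 hm) hQ)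
  have hint : ∀ m, Integrable (F m) := by
    intro m
    rcases Nat.eq_zero_or_pos m with h | h
    · subst h
      rw [hF0]
      exact integrable_zero _ _ _
    · rw [hFm m h]
      exact (G_Psi al om hal hom c hc _ (hpos m h)).1.const_mul _
  have hval : ∀ m, ((x m * Psi al om (P * ((m : ℝ) / Q)) : ℝ) : ℂ) =
      1 / (2 * Real.pi) * ∫ y : ℝ, F m y := by
    intro m
    rcases Nat.eq_zero_or_pos m with h | h
    · subst h
      rw [hF0, hx0]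
      simp
    · rw [hFm m h, integral_const_mul, Complex.ofReal_mul,
        (G_Psi al om hal hom c hc _ (hpos m h)).2]
      ring
  have hnorm : ∀ m y, ‖F m y‖ = ‖g y‖ * (x m * ((m : ℝ) / Q) ^ (-c)) := by
    intro m y
    rcases Nat.eq_zero_or_pos m with h | h
    · subst h
      simp [hF, hx0]
    · have hM : 0 < (m : ℝ) / Q := div_pos (Nat.cast_pos.2 h) hQ
      change ‖g y * ((x m : ℂ) * (((m : ℝ) / Q : ℝ) : ℂ) ^ (-(c + y * I : ℂ)))‖ = _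
      rw [norm_mul (g y), norm_mul ((x m : ℝ) : ℂ), G_6_norm _ _ _ hM, Complex.norm_real,
        Real.norm_eq_abs, abs_of_nonneg (hx m)]
  have hS : Summable (fun m => ∫ y : ℝ, ‖F m y‖) := by
    have h1 : (fun m => ∫ y : ℝ, ‖F m y‖) =
        fun m : ℕ => (∫ y : ℝ, ‖g y‖) * (x m * ((m : ℝ) / Q) ^ (-c)) := by
      funext m
      rw [← integral_mul_const]
      exact integral_congr_ae (Eventually.of_forall fun y => hnorm m y)
    rw [h1]
    exact hsum.mul_left _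
  have hkey := hasSum_integral_of_summable_integral_norm hint hS
  have h2 : (∫ y : ℝ, ∑' m, F m y) = ∫ y : ℝ, g y *
      ∑' m : ℕ, (x m : ℂ) * (((m : ℝ) / Q : ℝ) : ℂ) ^ (-(c + y * I : ℂ)) := by
    congr 1
    funext y
    simp only [hF]
    rw [tsum_mul_left]
  rw [Complex.ofReal_tsum, tsum_congr hval, tsum_mul_left, hkey.tsum_eq, h2]

end OO

end

section

/-!
# Row D_A16b: growth of the coefficients
-/

open Complex MeasureTheory Set Filter Topology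
open scoped ComplexConjugate

namespace OO

/-- growth condition of block G -/
def Gr (a : ArithmeticFunction ℂ) : Prop := ∀ η : ℝ, 0 < η → ∃ B : ℝ, ∀ n : ℕ, ‖a n‖ ≤ B * (n : ℝ) ^ η

/-- bounded functions; `n^η ≥ 1` for `n ≥ 1`, `a 0 = 0` -/
theorem D_Gr_bdd (a : ArithmeticFunction ℂ) (B : ℝ) (h : ∀ n, ‖a n‖ ≤ B) : Gr a := by
  intro η hη
  have hB : 0 ≤ B := (norm_nonneg _).trans (h 0)
  refine ⟨B, fun n => ?_⟩
  rcases Nat.eq_zero_or_pos n with hn | hn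
  · subst hn
    simp [Real.zero_rpow hη.ne']
  · have h1 : (1 : ℝ) ≤ n := by exact_mod_cast hn
    calc ‖a n‖ ≤ B := h n
      _ = B * 1 := (mul_one _).symm
      _ ≤ B * (n : ℝ) ^ η := by
        gcongr
        exact Real.one_le_rpow h1 hη.le

/-- `‖(a*b) n‖ ≤ d(n) B n^(η/2) B' n^(η/2)`-type bound with `D_tau_le` (exponents `η/3`) -/
theorem D_Gr_mul (a b : ArithmeticFunction ℂ) (ha : Gr a) (hb : Gr b) : Gr (a * b) := by
  intro η hη
  obtain ⟨B, hB⟩ := ha (η / 3) (by positivity)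
  obtain ⟨B', hB'⟩ := hb (η / 3) (by positivity)
  obtain ⟨C, hC1, hC⟩ := D_tau_le (η / 3) (by positivity)
  have hC0 : 0 ≤ C := by linarith
  refine ⟨|B| * |B'| * C, fun n => ?_⟩
  rcases Nat.eq_zero_or_pos n with hn | hn
  · subst hn
    simp [Real.zero_rpow hη.ne']
  · have hn1 : (1 : ℝ) ≤ n := by exact_mod_cast hn
    rw [ArithmeticFunction.mul_apply]
    calc ‖∑ x ∈ n.divisorsAntidiagonal, a x.1 * b x.2‖
        ≤ ∑ x ∈ n.divisorsAntidiagonal, ‖a x.1 * b x.2‖ := norm_sum_le _ _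
      _ ≤ ∑ x ∈ n.divisorsAntidiagonal, |B| * |B'| * (n : ℝ) ^ (η / 3) := by
          apply Finset.sum_le_sum
          intro x hx
          have hxy : x.1 * x.2 = n := (Nat.mem_divisorsAntidiagonal.1 hx).1
          rw [norm_mul]
          have e1 : ‖a x.1‖ ≤ |B| * (x.1 : ℝ) ^ (η / 3) :=
            (hB x.1).trans (mul_le_mul_of_nonneg_right (le_abs_self _) (by positivity))
          have e2 : ‖b x.2‖ ≤ |B'| * (x.2 : ℝ) ^ (η / 3) :=
            (hB' x.2).trans (mul_le_mul_of_nonneg_right (le_abs_self _) (by positivity))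
          calc ‖a x.1‖ * ‖b x.2‖ ≤ (|B| * (x.1 : ℝ) ^ (η / 3)) * (|B'| * (x.2 : ℝ) ^ (η / 3)) :=
                mul_le_mul e1 e2 (norm_nonneg _) (by positivity)
            _ = |B| * |B'| * ((x.1 : ℝ) ^ (η / 3) * (x.2 : ℝ) ^ (η / 3)) := by ring
            _ = |B| * |B'| * (n : ℝ) ^ (η / 3) := by
                rw [← Real.mul_rpow (Nat.cast_nonneg _) (Nat.cast_nonneg _), ← hxy]
                push_cast
                rfl
      _ = (n.divisors.card : ℝ) * (|B| * |B'| * (n : ℝ) ^ (η / 3)) := by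
          rw [Finset.sum_const, nsmul_eq_mul, ← Nat.map_div_right_divisors, Finset.card_map]
      _ ≤ (C * (n : ℝ) ^ (η / 3)) * (|B| * |B'| * (n : ℝ) ^ (η / 3)) :=
          mul_le_mul_of_nonneg_right (hC n (by omega)) (by positivity)
      _ = |B| * |B'| * C * (n : ℝ) ^ (η / 3 + η / 3) := by
          rw [Real.rpow_add (by linarith)]
          ring
      _ ≤ |B| * |B'| * C * (n : ℝ) ^ η := by
          apply mul_le_mul_of_nonneg_left _ (by positivity)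
          exact Real.rpow_le_rpow_of_exponent_le hn1 (by linarith)

theorem D_Gr_cj (a : ArithmeticFunction ℂ) (ha : Gr a) : Gr (cj a) := by
  intro η hη
  obtain ⟨B, hB⟩ := ha η hη
  refine ⟨B, fun n => ?_⟩
  show ‖conj (a n)‖ ≤ _
  rw [RCLike.norm_conj]
  exact hB n

private lemma D_A16b_wt (x : ℝ) (hx : 0 ≤ x) : |LZ.wt x| ≤ 1 := by
  unfold LZ.wt
  have h0 : 0 ≤ max 0 (1 - x) := le_max_left _ _
  rw [abs_of_nonneg (by positivity)]
  apply pow_le_one₀ h0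
  exact max_le (by norm_num) (by linarith)

private lemma D_A16b_rho (L : ℝ) (hL : 0 < L) (n : ℕ) : |rho L n| ≤ ∑ i : Fin 22, |ci i| := by
  unfold rho
  refine (Finset.abs_sum_le_sum_abs _ _).trans ?_
  apply Finset.sum_le_sum
  intro i _
  rw [abs_mul]
  have h1 : 0 ≤ tau i * Real.log n / L := by
    have : 0 ≤ tau i := by unfold tau; positivity
    have h2 : 0 ≤ Real.log (n : ℝ) := Real.log_natCast_nonneg n
    positivity
  calc |ci i| * |LZ.wt (tau i * Real.log n / L)| ≤ |ci i| * 1 := by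
        gcongr
        exact D_A16b_wt _ h1
    _ = |ci i| := mul_one _

private lemma D_A16b_FA (f : ℕ → ℂ) (hf : ∀ n, ‖f n‖ ≤ 1) (w : ℝ → ℝ) (B : ℝ) (hB : 0 ≤ B)
    (hw : ∀ n : ℕ, |w n| ≤ B) (n : ℕ) : ‖FA f w n‖ ≤ B := by
  show ‖(if n = 0 then (0 : ℂ) else f n * (w n : ℂ))‖ ≤ B
  split_ifs
  · simpa using hB
  · rw [norm_mul, Complex.norm_real, Real.norm_eq_abs]
    calc ‖f n‖ * |w n| ≤ 1 * B := mul_le_mul (hf n) (hw n) (abs_nonneg _) zero_le_one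
      _ = B := one_mul _

/-- `‖FA f (ff L) n‖ ≤ 1 + ∑ |ci|`, `‖FA f (rho L) n‖ ≤ ∑ |ci|`, `‖LA f 0 0 n‖ ≤ 1`,
`‖MA f 0 t n‖ ≤ 1` for `t ≥ 0` (`0 ≤ wt x ≤ 1` for `x ≥ 0`, and `tau i * log n / L ≥ 0`) -/
theorem D_Gr_basic (f : ℕ → ℂ) (hf : ∀ n, ‖f n‖ ≤ 1) (L l : ℝ) (hL : 0 < L) (hl : 0 < l) :
    Gr (FA f (ff L)) ∧ Gr (FA f (rho L)) ∧ Gr (LA f 0 0) ∧ Gr (MA f 0 (1 / l)) := by
  have hS : 0 ≤ ∑ i : Fin 22, |ci i| := Finset.sum_nonneg fun _ _ => abs_nonneg _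
  refine ⟨D_Gr_bdd _ (1 + ∑ i : Fin 22, |ci i|) ?_, D_Gr_bdd _ (∑ i : Fin 22, |ci i|) ?_,
    D_Gr_bdd _ 1 ?_, D_Gr_bdd _ 1 ?_⟩
  · apply D_A16b_FA f hf _ _ (by positivity)
    intro n
    unfold ff
    calc |1 - rho L n| ≤ |1| + |rho L n| := abs_sub _ _
      _ ≤ 1 + ∑ i : Fin 22, |ci i| := by
        rw [abs_one]
        gcongr
        exact D_A16b_rho L hL n
  · exact D_A16b_FA f hf _ _ hS (D_A16b_rho L hL)
  · intro n
    show ‖(if n = 0 then (0:ℂ) else f n * (n : ℂ) ^ (-(0:ℂ)) * (LZ.wt (0 * Real.log n) : ℂ))‖ ≤ 1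
    split_ifs
    · simp
    · rw [norm_mul, norm_mul, neg_zero, cpow_zero, norm_one, mul_one, Complex.norm_real,
        Real.norm_eq_abs]
      calc ‖f n‖ * |LZ.wt (0 * Real.log n)| ≤ 1 * 1 :=
            mul_le_mul (hf n) (D_A16b_wt _ (by simp)) (abs_nonneg _) zero_le_one
        _ = 1 := one_mul _
  · intro n
    show ‖(if Squarefree n then
      (-1/2 : ℂ) ^ n.primeFactors.card * f n * (n : ℂ) ^ (-(0:ℂ)) *
        (LZ.wt (1 / l * Real.log n) : ℂ) else 0)‖ ≤ 1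
    split_ifs
    · rw [norm_mul, norm_mul, norm_mul, neg_zero, cpow_zero, norm_one, mul_one, Complex.norm_real,
        Real.norm_eq_abs, norm_pow]
      have h1 : ‖(-1/2 : ℂ)‖ ^ n.primeFactors.card ≤ 1 := by
        apply pow_le_one₀ (norm_nonneg _)
        norm_num
      have h2 : 0 ≤ 1 / l * Real.log (n : ℝ) := by
        have := Real.log_natCast_nonneg n
        positivity
      calc ‖(-1/2 : ℂ)‖ ^ n.primeFactors.card * ‖f n‖ * |LZ.wt (1 / l * Real.log n)| ≤ 1 * 1 * 1 :=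
            mul_le_mul (mul_le_mul h1 (hf n) (norm_nonneg _) zero_le_one) (D_A16b_wt _ h2)
              (abs_nonneg _) (by norm_num)
        _ = 1 := by norm_num
    · simp

end OO

end

section

/-!
# Row P3i: algebra of the poles
-/

open Complex MeasureTheory Set Filter Topology
open scoped ComplexConjugate

namespace OO

theorem P3i_aux_cpow {r : ℝ} (hr : 0 < r) (z s : ℂ) (hs : s ≠ 0) :
    ((r : ℂ) * z) ^ s = (r : ℂ) ^ s * z ^ s := by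
  have hr' : (r : ℂ) ≠ 0 := by exact_mod_cast hr.ne'
  by_cases hz : z = 0
  · rw [hz, mul_zero, zero_cpow hs, mul_zero]
  · rw [cpow_def_of_ne_zero (mul_ne_zero hr' hz), cpow_def_of_ne_zero hr', cpow_def_of_ne_zero hz,
      Complex.log_ofReal_mul hr hz, ofReal_log hr.le, add_mul, exp_add]

private theorem P3i_aux_term_alg (A B fu wu t X R W K U k : ℂ) (hk : k ≠ 0) (hW : W ≠ 0) :
    A * B / k * (fu * wu * (t * (X * (R / (U / k) * K)))) =
    t * (A * B * wu * fu * (X * (R * W)) / U * W⁻¹ * K) := by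
  have h1 : A * B / k * (fu * wu * (t * (X * (R / (U / k) * K)))) =
      A * B * fu * wu * t * X * R * K * U⁻¹ * (k⁻¹ * k) := by
    rw [div_div_eq_mul_div]; ring
  have h2 : t * (A * B * wu * fu * (X * (R * W)) / U * W⁻¹ * K) =
      A * B * fu * wu * t * X * R * K * U⁻¹ * (W⁻¹ * W) := by ring
  rw [h1, h2, inv_mul_cancel₀ hk, inv_mul_cancel₀ hW]

private theorem P3i_aux_term_base (u h k m q x E : ℂ) (hh : h ≠ 0) (hk : k ≠ 0) (hu : u ≠ 0) :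
    u * (I * E * x * h / k) - I * m / q =
      u * h / k * (I * (x * E - m * k / (u * h) / q)) := by
  have h1 : u * h / k * (m * k / (u * h)) = m := by
    rw [div_mul_div_comm, mul_comm k, mul_comm (u * h)]
    rw [mul_assoc, mul_comm k, mul_div_assoc, div_self (mul_ne_zero (mul_ne_zero hu hh) hk), mul_one]
  have h2 : u * h / k * (I * (x * E - m * k / (u * h) / q)) =
      u * (I * E * x * h / k) - I * (u * h / k * (m * k / (u * h))) / q := by ring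
  rw [h2, h1]

theorem P3i_aux_term (bh bk fu wu t X E x : ℂ) (y : ℝ) (h k u m q : ℕ) (hh : 1 ≤ h) (hk : 1 ≤ k)
    (hu : 1 ≤ u) (hm : 1 ≤ m) (hq : 1 ≤ q) :
    bh * bk / k * (fu * wu * (t * (X *
      (u * (I * E * x * h / k) - I * m / q) ^ ((y : ℂ) * I - 1)))) =
    t * (bh * bk * wu * fu * (X * (m : ℂ) ^ ((y : ℂ) * I)) / ((u * h : ℕ) : ℂ) *
      (((((m * k : ℕ) : ℚ) / ((u * h : ℕ) : ℚ) : ℚ) : ℝ) : ℂ) ^ (-((y : ℂ) * I)) *
      (I * (x * E - ((((((m * k : ℕ) : ℚ) / ((u * h : ℕ) : ℚ) : ℚ) : ℝ) / q : ℝ) : ℂ))) ^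
        ((y : ℂ) * I - 1)) := by
  have hh0 : (0 : ℝ) < h := by exact_mod_cast (by omega : 0 < h)
  have hk0 : (0 : ℝ) < k := by exact_mod_cast (by omega : 0 < k)
  have hu0 : (0 : ℝ) < u := by exact_mod_cast (by omega : 0 < u)
  have hm0 : (0 : ℝ) < m := by exact_mod_cast (by omega : 0 < m)
  have hh' : (h : ℂ) ≠ 0 := by exact_mod_cast (by omega : h ≠ 0)
  have hk' : (k : ℂ) ≠ 0 := by exact_mod_cast (by omega : k ≠ 0)
  have hu' : (u : ℂ) ≠ 0 := by exact_mod_cast (by omega : u ≠ 0)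
  have hm' : (m : ℂ) ≠ 0 := by exact_mod_cast (by omega : m ≠ 0)
  have hq' : (q : ℂ) ≠ 0 := by exact_mod_cast (by omega : q ≠ 0)
  have hs : (y : ℂ) * I - 1 ≠ 0 := by
    intro h0
    have := congrArg Complex.re h0
    simp at this
  set ξ : ℝ := (((((m * k : ℕ) : ℚ) / ((u * h : ℕ) : ℚ) : ℚ)) : ℝ) with hξ
  have hξ1 : ξ = (m * k : ℝ) / (u * h) := by rw [hξ]; push_cast; ring
  have hξ0 : 0 < ξ := by rw [hξ1]; positivity
  have hξ' : (ξ : ℂ) ≠ 0 := by exact_mod_cast hξ0.ne'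
  set r : ℝ := (u * h : ℝ) / k with hr
  have hr0 : 0 < r := by rw [hr]; positivity
  have hr' : (r : ℂ) ≠ 0 := by exact_mod_cast hr0.ne'
  have e0 : (ξ : ℂ) = (m * k : ℂ) / (u * h) := by rw [hξ1]; push_cast; ring
  have er : (r : ℂ) = (u * h : ℂ) / k := by rw [hr]; push_cast; ring
  have e1 : (u : ℂ) * (I * E * x * h / k) - I * m / q = (r : ℂ) * (I * (x * E - ((ξ / q : ℝ) : ℂ))) := by
    rw [er, ofReal_div, e0, ofReal_natCast]
    exact P3i_aux_term_base _ _ _ _ _ _ _ hh' hk' hu'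
  have e2 : (m : ℂ) ^ ((y : ℂ) * I) = (r : ℂ) ^ ((y : ℂ) * I) * (ξ : ℂ) ^ ((y : ℂ) * I) := by
    rw [← mul_cpow_ofReal_nonneg hr0.le hξ0.le]
    congr 1
    rw [er, e0]
    field_simp
  have hξp : (ξ : ℂ) ^ ((y : ℂ) * I) ≠ 0 := by
    rw [cpow_def_of_ne_zero hξ']; exact exp_ne_zero _
  have e3 : (r : ℂ) ^ ((y : ℂ) * I - 1) = (r : ℂ) ^ ((y : ℂ) * I) / r := by
    rw [cpow_sub _ _ hr', cpow_one]
  rw [e1, P3i_aux_cpow hr0 _ _ hs, e3, e2, cpow_neg]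
  generalize (I * (x * E - ((ξ / q : ℝ) : ℂ))) ^ ((y : ℂ) * I - 1) = K
  generalize (ξ : ℂ) ^ ((y : ℂ) * I) = W at hξp
  generalize (r : ℂ) ^ ((y : ℂ) * I) = R
  rw [er, Nat.cast_mul]
  exact P3i_aux_term_alg _ _ _ _ _ _ _ _ _ _ _ hk' hξp

/-- PROOF. As P07_alg (OO/P_07a.lean). One term: `D = x exp(-iε) - ξ/q`, `ξ = mk/(uh) = px j`: `u (zz ε x h/k) - i m/q = (uh/k) (i D)` (P07a_aux_zz), for a positive real `r`: `(r z)^s = r^s z^s` (`Complex.log_ofReal_mul`, `cpow_def_of_ne_zero`; if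
`z = 0` both sides are 0 since `iy - 1 ≠ 0`), `(1/k) (uh/k)^(iy-1) = (uh/k)^(iy)/(uh)` and `(uh/k)^(iy) = m^(iy) ξ^(-iy)` (positive reals, `uh/k = m/ξ`); `chx χ⁻¹ (-y) m = χ⁻¹(m) m^(iy)`. -/
theorem P3_alg {q : ℕ} [NeZero q] (χ : DirichletCharacter ℂ q) (b f : ℕ → ℂ) (wt : ℝ → ℝ) (H U M : ℕ) (y ε x : ℝ) (t : ℂ) :
    ∑ h ∈ Finset.Icc 1 H, ∑ k ∈ Finset.Icc 1 H, b h * conj (b k) / k * ∑ u ∈ Finset.Icc 1 U, f u * (wt u : ℂ) *
      (t * ∑ m ∈ Finset.Icc 1 M, (χ⁻¹ : DirichletCharacter ℂ q) ((m : ℕ) : ZMod q) *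
        (u * (zz ε * x * h / k) - I * m / q) ^ ((y : ℂ) * I - 1)) =
    t * PS3 H U M q b f (chx χ⁻¹ (-y)) wt y ε x := by
  have hq : 1 ≤ q := Nat.one_le_iff_ne_zero.mpr (NeZero.ne q)
  unfold PS3 PJ
  rw [Finset.sum_product, Finset.mul_sum]
  apply Finset.sum_congr rfl
  intro h hh
  rw [Finset.sum_product, Finset.mul_sum]
  apply Finset.sum_congr rfl
  intro k hk
  rw [Finset.sum_product, Finset.mul_sum, Finset.mul_sum]
  apply Finset.sum_congr rfl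
  intro u hu
  simp only [Finset.mul_sum]
  apply Finset.sum_congr rfl
  intro m hm
  rw [P07a_aux_zz]
  have := P3i_aux_term (b h) (conj (b k)) (f u) (wt u) t
    ((χ⁻¹ : DirichletCharacter ℂ q) ((m : ℕ) : ZMod q)) (exp (-(ε * I))) x y h k u m q
    (Finset.mem_Icc.mp hh).1 (Finset.mem_Icc.mp hk).1 (Finset.mem_Icc.mp hu).1
    (Finset.mem_Icc.mp hm).1 hq
  rw [this]
  unfold pc3 pc px kn chx
  have e5 : -((((-y : ℝ)) : ℂ) * I) = (y : ℂ) * I := by push_cast; ring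
  rw [e5]

end OO

end

section

/-!
# Row G_8a: common part of the bounds of the diagonal sums
-/

open Complex MeasureTheory Set Filter Topology
open scoped ComplexConjugate

namespace OO

/-- `‖Γ(1+1/L+iy)‖ (1+|y|)^40 ≤ C` for all `L ≥ 2`, `y` (`LZX.Gamma_decay` with `θ = 1` on `1 ≤ re ≤ 2`;
`(1+|y|)^40 e^(-|y|) ≤ 40! e`: `Real.pow_div_factorial_le_exp`). -/
theorem G_gam : ∃ C : ℝ, 0 < C ∧ ∀ L y : ℝ, 2 ≤ L →
    ‖Gamma (((1 + 1 / L : ℝ) : ℂ) + y * I)‖ * (1 + |y|) ^ 40 ≤ C := by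
  obtain ⟨C0, hC0⟩ := LZX.Gamma_decay (θ := 1) one_pos (by have := Real.pi_gt_three; linarith)
    (a := 1) (b := 2) one_pos
  refine ⟨|C0| * (Real.exp 1 * (Nat.factorial 40 : ℝ)) + 1, by positivity, ?_⟩
  intro L y hL
  have hL0 : 0 < L := by linarith
  have hre : ((((1 + 1 / L : ℝ) : ℂ)) + y * I).re = 1 + 1 / L := by simp
  have him : ((((1 + 1 / L : ℝ) : ℂ)) + y * I).im = y := by
    rw [Complex.add_im, Complex.ofReal_im, Complex.mul_im]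
    simp
  have k1 : 0 < 1 / L := by positivity
  have k2 : 1 / L ≤ 1 := by rw [div_le_one hL0]; linarith
  have h1 := hC0 ((((1 + 1 / L : ℝ) : ℂ)) + y * I) (by rw [hre]; linarith) (by rw [hre]; linarith)
  rw [him, one_mul] at h1
  have h2 : ‖Gamma (((1 + 1 / L : ℝ) : ℂ) + y * I)‖ ≤ |C0| * Real.exp (-|y|) :=
    h1.trans (mul_le_mul_of_nonneg_right (le_abs_self _) (Real.exp_pos _).le)
  have h3 : (1 + |y|) ^ 40 ≤ Real.exp (1 + |y|) * (Nat.factorial 40 : ℝ) := by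
    have := Real.pow_div_factorial_le_exp (1 + |y|) (by positivity) 40
    rwa [div_le_iff₀ (by positivity)] at this
  calc ‖Gamma (((1 + 1 / L : ℝ) : ℂ) + y * I)‖ * (1 + |y|) ^ 40
      ≤ (|C0| * Real.exp (-|y|)) * (Real.exp (1 + |y|) * (Nat.factorial 40 : ℝ)) := by
        apply mul_le_mul h2 h3 (by positivity) (by positivity)
    _ = |C0| * ((Real.exp (-|y|) * Real.exp (1 + |y|)) * (Nat.factorial 40 : ℝ)) := by ring
    _ = |C0| * (Real.exp 1 * (Nat.factorial 40 : ℝ)) := by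
        rw [← Real.exp_add]
        congr 3
        ring_nf
    _ ≤ _ := by linarith

theorem G_8a_Cm0 (a b : ArithmeticFunction ℂ) (K0 : ℕ) : Cm K0 a b 0 = 0 := by
  unfold Cm
  apply Finset.sum_eq_zero
  intro K _
  rw [zero_mul, Nat.zero_div, ArithmeticFunction.map_zero]
  simp

/-- Common part: a bound `‖Bm al om (1 + w)‖ ≤ g(y)` with `g/‖w‖` integrable gives
`DS ≤ C Q0 P^(-1-1/L) L^(-1) ∫ g/‖w‖`. `G_DS` with `x m = ‖Cm m‖^2`, `c = 1 + 1/L`, `Q = K0!` (`DS_series`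
with `s = 1 + 1/L + iy` gives the summability and turns the inner sum into the sum over `n` of the
hypothesis: `-s/2 = -(1/2) - w/2`, `-1 + s/2 = -(1/2) + w/2`); `‖P^(-s)‖ = P^(-1-1/L)`; `G_gam`. -/
theorem G_common : ∃ C : ℝ, 0 < C ∧ ∀ (a b : ArithmeticFunction ℂ) (K0 : ℕ) (L Q0 : ℝ), 2 ≤ L → 0 ≤ Q0 →
    (∀ k, K0 < k → b k = 0) → (∀ η : ℝ, 0 < η → ∃ B : ℝ, ∀ n : ℕ, ‖a n‖ ≤ B * (n : ℝ) ^ η) →
    (∀ t : ℝ, ‖∑' n : ℕ, (tw a (-(1 / 2) - ((1 / L : ℝ) + t * I) / 2) * tw (cj b) (-(1 / 2) + ((1 / L : ℝ) + t * I) / 2)) n *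
        (tw (cj a) (-(1 / 2) - ((1 / L : ℝ) + t * I) / 2) * tw b (-(1 / 2) + ((1 / L : ℝ) + t * I) / 2)) n‖ ≤
        Q0 * (1 + |t|) ^ 40 / (L * ‖((1 / L : ℝ) : ℂ) + t * I‖)) →
    ∀ P al om : ℝ, 0 < P → 0 < al → 0 ≤ om → ∀ g : ℝ → ℝ, (∀ y, 0 ≤ g y) →
      (∀ y : ℝ, ‖Bm al om (1 + (((1 / L : ℝ) : ℂ) + y * I))‖ ≤ g y) →
      Integrable (fun y : ℝ => g y / ‖((1 / L : ℝ) : ℂ) + y * I‖) →
      DS K0 a b (fun y => Psi al om (P * y)) ≤
        C * Q0 * P ^ (-1 - 1 / L) * (1 / L * ∫ y : ℝ, g y / ‖((1 / L : ℝ) : ℂ) + y * I‖) := by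
  obtain ⟨C, hC, hG⟩ := G_gam
  refine ⟨C, hC, ?_⟩
  intro a b K0 L Q0 hL hQ0 hb ha hyp P al om hP hal hom g hg hBm hint
  have hL0 : 0 < L := by linarith
  have hL1 : 0 < 1 / L := by positivity
  have hc : (1 : ℝ) < 1 + 1 / L := by linarith
  have hQ : (0 : ℝ) < (K0.factorial : ℝ) := by exact_mod_cast K0.factorial_pos
  have hs : ∀ y : ℝ, ((((1 + 1 / L : ℝ) : ℂ)) + y * I).re = 1 + 1 / L := fun y => by simp
  have hser := fun y : ℝ => DS_series a b K0 hb ((((1 + 1 / L : ℝ) : ℂ)) + y * I) (by rw [hs y]; exact hc) ha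
  have hx0 : ‖Cm K0 a b 0‖ ^ 2 = 0 := by rw [G_8a_Cm0]; simp
  have hsum : Summable (fun m : ℕ => ‖Cm K0 a b m‖ ^ 2 * ((m : ℝ) / (K0.factorial : ℝ)) ^ (-(1 + 1 / L))) := by
    have := (hser 0).1
    rwa [hs 0] at this
  have hDS := G_DS (fun m => ‖Cm K0 a b m‖ ^ 2) (fun m => by positivity) hx0 (K0.factorial : ℝ) hQ
    (1 + 1 / L) hc hsum al om hal hom P hP
  have hval : (DS K0 a b (fun y => Psi al om (P * y)) : ℂ) = 1 / (2 * Real.pi) *
      ∫ y : ℝ, Gamma (((1 + 1 / L : ℝ) : ℂ) + y * I) * Bm al om (((1 + 1 / L : ℝ) : ℂ) + y * I) *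
        (P : ℂ) ^ (-(((1 + 1 / L : ℝ) : ℂ) + y * I : ℂ)) *
        ∑' m : ℕ, ((‖Cm K0 a b m‖ ^ 2 : ℝ) : ℂ) * (((m : ℝ) / (K0.factorial : ℝ) : ℝ) : ℂ) ^
          (-(((1 + 1 / L : ℝ) : ℂ) + y * I : ℂ)) := hDS
  -- the pointwise bound
  have hpt : ∀ y : ℝ, ‖Gamma (((1 + 1 / L : ℝ) : ℂ) + y * I) * Bm al om (((1 + 1 / L : ℝ) : ℂ) + y * I) *
        (P : ℂ) ^ (-(((1 + 1 / L : ℝ) : ℂ) + y * I : ℂ)) *
        ∑' m : ℕ, ((‖Cm K0 a b m‖ ^ 2 : ℝ) : ℂ) * (((m : ℝ) / (K0.factorial : ℝ) : ℝ) : ℂ) ^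
          (-(((1 + 1 / L : ℝ) : ℂ) + y * I : ℂ))‖ ≤
      C * Q0 * P ^ (-1 - 1 / L) * (1 / L) * (g y / ‖((1 / L : ℝ) : ℂ) + y * I‖) := by
    intro y
    have e1 : (((1 + 1 / L : ℝ) : ℂ) + y * I : ℂ) = 1 + (((1 / L : ℝ) : ℂ) + y * I) := by
      push_cast; ring
    have e2 : -((((1 + 1 / L : ℝ) : ℂ) + y * I : ℂ)) / 2 = -(1 / 2) - ((1 / L : ℝ) + y * I) / 2 := by
      push_cast; ring
    have e3 : -1 + ((((1 + 1 / L : ℝ) : ℂ) + y * I : ℂ)) / 2 = -(1 / 2) + ((1 / L : ℝ) + y * I) / 2 := by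
      push_cast; ring
    have n1 := hyp y
    have n2 : ‖∑' m : ℕ, ((‖Cm K0 a b m‖ ^ 2 : ℝ) : ℂ) * (((m : ℝ) / (K0.factorial : ℝ) : ℝ) : ℂ) ^
          (-(((1 + 1 / L : ℝ) : ℂ) + y * I : ℂ))‖ ≤
        Q0 * (1 + |y|) ^ 40 / (L * ‖((1 / L : ℝ) : ℂ) + y * I‖) := by
      rw [(hser y).2, e2, e3]
      exact n1
    have n3 : ‖(P : ℂ) ^ (-(((1 + 1 / L : ℝ) : ℂ) + y * I : ℂ))‖ = P ^ (-1 - 1 / L) := by
      rw [Complex.norm_cpow_eq_rpow_re_of_pos hP, Complex.neg_re, hs y]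
      congr 1
      ring
    have n4 : ‖Bm al om (((1 + 1 / L : ℝ) : ℂ) + y * I)‖ ≤ g y := by
      rw [e1]; exact hBm y
    have n5 := hG L y hL
    have hw : 0 < ‖((1 / L : ℝ) : ℂ) + y * I‖ := by
      rw [norm_pos_iff]
      intro h0
      have := congrArg Complex.re h0
      simp at this
      linarith
    have hPp : 0 < P ^ (-1 - 1 / L) := Real.rpow_pos_of_pos hP _
    have hy : (0 : ℝ) < (1 + |y|) ^ 40 := by positivity
    rw [norm_mul, norm_mul, norm_mul, n3]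
    calc ‖Gamma (((1 + 1 / L : ℝ) : ℂ) + y * I)‖ * ‖Bm al om (((1 + 1 / L : ℝ) : ℂ) + y * I)‖ *
          P ^ (-1 - 1 / L) * ‖∑' m : ℕ, ((‖Cm K0 a b m‖ ^ 2 : ℝ) : ℂ) *
            (((m : ℝ) / (K0.factorial : ℝ) : ℝ) : ℂ) ^ (-(((1 + 1 / L : ℝ) : ℂ) + y * I : ℂ))‖
        ≤ ‖Gamma (((1 + 1 / L : ℝ) : ℂ) + y * I)‖ * g y * P ^ (-1 - 1 / L) *
          (Q0 * (1 + |y|) ^ 40 / (L * ‖((1 / L : ℝ) : ℂ) + y * I‖)) := by
          apply mul_le_mul _ n2 (norm_nonneg _) (by have := hg y; positivity)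
          exact mul_le_mul_of_nonneg_right (mul_le_mul_of_nonneg_left n4 (norm_nonneg _)) hPp.le
      _ = (‖Gamma (((1 + 1 / L : ℝ) : ℂ) + y * I)‖ * (1 + |y|) ^ 40) *
          (Q0 * P ^ (-1 - 1 / L) * (1 / L) * (g y / ‖((1 / L : ℝ) : ℂ) + y * I‖)) := by
          field_simp
      _ ≤ C * (Q0 * P ^ (-1 - 1 / L) * (1 / L) * (g y / ‖((1 / L : ℝ) : ℂ) + y * I‖)) := by
          apply mul_le_mul_of_nonneg_right n5
          have := hg y
          positivity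
      _ = _ := by ring
  have hdom : Integrable (fun y : ℝ => C * Q0 * P ^ (-1 - 1 / L) * (1 / L) *
      (g y / ‖((1 / L : ℝ) : ℂ) + y * I‖)) := hint.const_mul _
  have hnorm := norm_integral_le_of_norm_le hdom (Eventually.of_forall hpt)
  rw [integral_const_mul] at hnorm
  have hre : DS K0 a b (fun y => Psi al om (P * y)) ≤ ‖(DS K0 a b (fun y => Psi al om (P * y)) : ℂ)‖ := by
    rw [Complex.norm_real]
    exact le_abs_self _
  have hI0 : 0 ≤ ∫ y : ℝ, g y / ‖((1 / L : ℝ) : ℂ) + y * I‖ :=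
    integral_nonneg fun y => div_nonneg (hg y) (norm_nonneg _)
  have hPp : 0 < P ^ (-1 - 1 / L) := Real.rpow_pos_of_pos hP _
  refine hre.trans ?_
  rw [hval, norm_mul]
  have hpi : ‖(1 / (2 * Real.pi) : ℂ)‖ ≤ 1 := by
    rw [norm_div, norm_one, norm_mul, Complex.norm_real, Real.norm_of_nonneg Real.pi_pos.le, Complex.norm_two]
    rw [div_le_one (by positivity)]
    have := Real.pi_gt_three
    linarith
  calc ‖(1 / (2 * Real.pi) : ℂ)‖ * _ ≤ 1 * (C * Q0 * P ^ (-1 - 1 / L) * (1 / L) *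
        ∫ y : ℝ, g y / ‖((1 / L : ℝ) : ℂ) + y * I‖) :=
        mul_le_mul hpi hnorm (norm_nonneg _) zero_le_one
    _ = _ := by ring

end OO

end

section

/-!
# Row B_G1: common part, general majorant
-/

open Complex MeasureTheory Set Filter Topology
open scoped ComplexConjugate

namespace OO

/-- copy `G_common` (G_8a.lean): same proof with the general majorant `E`; pointwise
`‖Γ Bm P^(-s) ∑‖ ≤ ‖Γ‖ P^(-1-1/L) E y (1+|y|)^40 ≤ C P^(-1-1/L) E y` (`G_gam`). -/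
theorem G_commonE : ∃ C : ℝ, 0 < C ∧ ∀ (a b : ArithmeticFunction ℂ) (K0 : ℕ) (L : ℝ), 2 ≤ L →
    (∀ k, K0 < k → b k = 0) → (∀ η : ℝ, 0 < η → ∃ B : ℝ, ∀ n : ℕ, ‖a n‖ ≤ B * (n : ℝ) ^ η) →
    ∀ P al om : ℝ, 0 < P → 0 < al → 0 ≤ om → ∀ E : ℝ → ℝ, (∀ y, 0 ≤ E y) → Integrable E →
      (∀ t : ℝ, ‖Bm al om (1 + (((1 / L : ℝ) : ℂ) + t * I))‖ *
        ‖∑' n : ℕ, (tw a (-(1 / 2) - ((1 / L : ℝ) + t * I) / 2) * tw (cj b) (-(1 / 2) + ((1 / L : ℝ) + t * I) / 2)) n *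
          (tw (cj a) (-(1 / 2) - ((1 / L : ℝ) + t * I) / 2) * tw b (-(1 / 2) + ((1 / L : ℝ) + t * I) / 2)) n‖ ≤
        E t * (1 + |t|) ^ 40) →
      DS K0 a b (fun y => Psi al om (P * y)) ≤ C * P ^ (-1 - 1 / L) * ∫ y : ℝ, E y := by
  obtain ⟨C, hC, hG⟩ := G_gam
  refine ⟨C, hC, ?_⟩
  intro a b K0 L hL hb ha P al om hP hal hom E hE hint hyp
  have hL0 : 0 < L := by linarith only [hL]
  have hL1 : 0 < 1 / L := by positivity
  have hc : (1 : ℝ) < 1 + 1 / L := by linarith only [hL1]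
  have hQ : (0 : ℝ) < (K0.factorial : ℝ) := by exact_mod_cast K0.factorial_pos
  have hs : ∀ y : ℝ, ((((1 + 1 / L : ℝ) : ℂ)) + y * I).re = 1 + 1 / L := fun y => by simp
  have hser := fun y : ℝ => DS_series a b K0 hb ((((1 + 1 / L : ℝ) : ℂ)) + y * I) (by rw [hs y]; exact hc) ha
  have hx0 : ‖Cm K0 a b 0‖ ^ 2 = 0 := by rw [G_8a_Cm0]; simp
  have hsum : Summable (fun m : ℕ => ‖Cm K0 a b m‖ ^ 2 * ((m : ℝ) / (K0.factorial : ℝ)) ^ (-(1 + 1 / L))) := by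
    have := (hser 0).1
    rwa [hs 0] at this
  have hDS := G_DS (fun m => ‖Cm K0 a b m‖ ^ 2) (fun m => by positivity) hx0 (K0.factorial : ℝ) hQ
    (1 + 1 / L) hc hsum al om hal hom P hP
  have hval : (DS K0 a b (fun y => Psi al om (P * y)) : ℂ) = 1 / (2 * Real.pi) *
      ∫ y : ℝ, Gamma (((1 + 1 / L : ℝ) : ℂ) + y * I) * Bm al om (((1 + 1 / L : ℝ) : ℂ) + y * I) *
        (P : ℂ) ^ (-(((1 + 1 / L : ℝ) : ℂ) + y * I : ℂ)) *
        ∑' m : ℕ, ((‖Cm K0 a b m‖ ^ 2 : ℝ) : ℂ) * (((m : ℝ) / (K0.factorial : ℝ) : ℝ) : ℂ) ^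
          (-(((1 + 1 / L : ℝ) : ℂ) + y * I : ℂ)) := hDS
  -- the pointwise bound
  have hpt : ∀ y : ℝ, ‖Gamma (((1 + 1 / L : ℝ) : ℂ) + y * I) * Bm al om (((1 + 1 / L : ℝ) : ℂ) + y * I) *
        (P : ℂ) ^ (-(((1 + 1 / L : ℝ) : ℂ) + y * I : ℂ)) *
        ∑' m : ℕ, ((‖Cm K0 a b m‖ ^ 2 : ℝ) : ℂ) * (((m : ℝ) / (K0.factorial : ℝ) : ℝ) : ℂ) ^
          (-(((1 + 1 / L : ℝ) : ℂ) + y * I : ℂ))‖ ≤
      C * P ^ (-1 - 1 / L) * E y := by
    intro y
    have e1 : (((1 + 1 / L : ℝ) : ℂ) + y * I : ℂ) = 1 + (((1 / L : ℝ) : ℂ) + y * I) := by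
      push_cast; ring
    have e2 : -((((1 + 1 / L : ℝ) : ℂ) + y * I : ℂ)) / 2 = -(1 / 2) - ((1 / L : ℝ) + y * I) / 2 := by
      push_cast; ring
    have e3 : -1 + ((((1 + 1 / L : ℝ) : ℂ) + y * I : ℂ)) / 2 = -(1 / 2) + ((1 / L : ℝ) + y * I) / 2 := by
      push_cast; ring
    have n2 : ‖Bm al om (((1 + 1 / L : ℝ) : ℂ) + y * I)‖ *
        ‖∑' m : ℕ, ((‖Cm K0 a b m‖ ^ 2 : ℝ) : ℂ) * (((m : ℝ) / (K0.factorial : ℝ) : ℝ) : ℂ) ^
          (-(((1 + 1 / L : ℝ) : ℂ) + y * I : ℂ))‖ ≤ E y * (1 + |y|) ^ 40 := by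
      rw [(hser y).2, e2, e3, e1]
      exact hyp y
    have n3 : ‖(P : ℂ) ^ (-(((1 + 1 / L : ℝ) : ℂ) + y * I : ℂ))‖ = P ^ (-1 - 1 / L) := by
      rw [Complex.norm_cpow_eq_rpow_re_of_pos hP, Complex.neg_re, hs y]
      congr 1
      ring
    have n5 := hG L y hL
    have hPp : 0 < P ^ (-1 - 1 / L) := Real.rpow_pos_of_pos hP _
    rw [norm_mul, norm_mul, norm_mul, n3]
    calc ‖Gamma (((1 + 1 / L : ℝ) : ℂ) + y * I)‖ * ‖Bm al om (((1 + 1 / L : ℝ) : ℂ) + y * I)‖ *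
          P ^ (-1 - 1 / L) * ‖∑' m : ℕ, ((‖Cm K0 a b m‖ ^ 2 : ℝ) : ℂ) *
            (((m : ℝ) / (K0.factorial : ℝ) : ℝ) : ℂ) ^ (-(((1 + 1 / L : ℝ) : ℂ) + y * I : ℂ))‖
        = (‖Gamma (((1 + 1 / L : ℝ) : ℂ) + y * I)‖ * P ^ (-1 - 1 / L)) *
          (‖Bm al om (((1 + 1 / L : ℝ) : ℂ) + y * I)‖ * ‖∑' m : ℕ, ((‖Cm K0 a b m‖ ^ 2 : ℝ) : ℂ) *
            (((m : ℝ) / (K0.factorial : ℝ) : ℝ) : ℂ) ^ (-(((1 + 1 / L : ℝ) : ℂ) + y * I : ℂ))‖) := by ring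
      _ ≤ (‖Gamma (((1 + 1 / L : ℝ) : ℂ) + y * I)‖ * P ^ (-1 - 1 / L)) * (E y * (1 + |y|) ^ 40) :=
          mul_le_mul_of_nonneg_left n2 (mul_nonneg (norm_nonneg _) hPp.le)
      _ = (‖Gamma (((1 + 1 / L : ℝ) : ℂ) + y * I)‖ * (1 + |y|) ^ 40) * (P ^ (-1 - 1 / L) * E y) := by ring
      _ ≤ C * (P ^ (-1 - 1 / L) * E y) :=
          mul_le_mul_of_nonneg_right n5 (mul_nonneg hPp.le (hE y))
      _ = _ := by ring
  have hdom : Integrable (fun y : ℝ => C * P ^ (-1 - 1 / L) * E y) := hint.const_mul _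
  have hnorm := norm_integral_le_of_norm_le hdom (Eventually.of_forall hpt)
  rw [integral_const_mul] at hnorm
  have hre : DS K0 a b (fun y => Psi al om (P * y)) ≤ ‖(DS K0 a b (fun y => Psi al om (P * y)) : ℂ)‖ := by
    rw [Complex.norm_real]
    exact le_abs_self _
  refine hre.trans ?_
  rw [hval, norm_mul]
  have hpi : ‖(1 / (2 * Real.pi) : ℂ)‖ ≤ 1 := by
    rw [norm_div, norm_one, norm_mul, Complex.norm_real, Real.norm_of_nonneg Real.pi_pos.le, Complex.norm_two]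
    rw [div_le_one (mul_pos two_pos Real.pi_pos)]
    have := Real.pi_gt_three
    linarith only [this]
  exact (mul_le_mul hpi hnorm (norm_nonneg _) zero_le_one).trans (le_of_eq (one_mul _))

end OO

end

section

/-!
# Row B_G2: bound of the diagonal sums with two ranges
-/

open Complex MeasureTheory Set Filter Topology
open scoped ComplexConjugate

namespace OO

/-- pointwise majorant -/
theorem B_G2_pt {B S N y Q0 Q1 L τ0 c m : ℝ} (hL : 0 < L) (hN : 0 < N) (hyN : |y| ≤ N) (hτ : 0 < τ0)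
    (hτ1 : τ0 ≤ 1) (hB0 : 0 ≤ B) (hS0 : 0 ≤ S) (hc : 0 ≤ c) (hQ0 : 0 ≤ Q0) (hQ1 : 0 ≤ Q1)
    (hm : B ≤ m) (hBc : B ≤ c / N)
    (h0 : |y| ≤ τ0 → S ≤ Q0 / (L * N)) (h1 : S ≤ Q1 * (1 + |y|) ^ 40 / (L * N)) :
    B * S ≤ (Q0 / L * (m / N) + 2 * c * Q1 / (τ0 ^ 2 * L) * (1 + y ^ 2)⁻¹) * (1 + |y|) ^ 40 := by
  have hm0 : 0 ≤ m := hB0.trans hm
  have hp : (1 : ℝ) ≤ (1 + |y|) ^ 40 := one_le_pow₀ (by linarith only [abs_nonneg y])
  have hp0 : (0 : ℝ) ≤ (1 + |y|) ^ 40 := zero_le_one.trans hp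
  have hA : 0 ≤ Q0 / L * (m / N) := by positivity
  have hE : 0 ≤ 2 * c * Q1 / (τ0 ^ 2 * L) * (1 + y ^ 2)⁻¹ := by positivity
  rcases le_or_gt |y| τ0 with hy | hy
  · have h2 : B * S ≤ m * (Q0 / (L * N)) := mul_le_mul hm (h0 hy) hS0 hm0
    have h3 : m * (Q0 / (L * N)) = Q0 / L * (m / N) := by
      field_simp
    rw [h3] at h2
    calc B * S ≤ Q0 / L * (m / N) := h2
      _ ≤ Q0 / L * (m / N) + 2 * c * Q1 / (τ0 ^ 2 * L) * (1 + y ^ 2)⁻¹ := le_add_of_nonneg_right hE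
      _ ≤ _ := le_mul_of_one_le_right (add_nonneg hA hE) hp
  · have hy0 : 0 < |y| := hτ.trans hy
    have h2 : B * S ≤ c / N * (Q1 * (1 + |y|) ^ 40 / (L * N)) := mul_le_mul hBc h1 hS0 (by positivity)
    have h3 : c / N * (Q1 * (1 + |y|) ^ 40 / (L * N)) = c * Q1 / L * (1 / N ^ 2) * (1 + |y|) ^ 40 := by
      field_simp
    have h4 : 1 / N ^ 2 ≤ 2 / τ0 ^ 2 * (1 + y ^ 2)⁻¹ := by
      have h5 : y ^ 2 ≤ N ^ 2 := by
        rw [← sq_abs y]
        exact pow_le_pow_left₀ hy0.le hyN 2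
      have h6 : τ0 ^ 2 ≤ y ^ 2 := by
        rw [← sq_abs y]
        exact pow_le_pow_left₀ hτ.le hy.le 2
      have h7 : τ0 ^ 2 ≤ 1 := pow_le_one₀ hτ.le hτ1
      have h8 : 0 ≤ y ^ 2 := sq_nonneg y
      have h9 : 2 / τ0 ^ 2 * (1 + y ^ 2)⁻¹ = 2 / (τ0 ^ 2 * (1 + y ^ 2)) := by
        field_simp
      rw [h9, div_le_div_iff₀ (by positivity) (by positivity), one_mul]
      have h10 : τ0 ^ 2 * y ^ 2 ≤ y ^ 2 := mul_le_of_le_one_left h8 h7
      linarith only [h10, h5, h6]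
    calc B * S ≤ c * Q1 / L * (1 / N ^ 2) * (1 + |y|) ^ 40 := h2.trans h3.le
      _ ≤ c * Q1 / L * (2 / τ0 ^ 2 * (1 + y ^ 2)⁻¹) * (1 + |y|) ^ 40 := by
          apply mul_le_mul_of_nonneg_right _ hp0
          exact mul_le_mul_of_nonneg_left h4 (by positivity)
      _ = (2 * c * Q1 / (τ0 ^ 2 * L) * (1 + y ^ 2)⁻¹) * (1 + |y|) ^ 40 := by
          field_simp
      _ ≤ _ := by
          apply mul_le_mul_of_nonneg_right _ hp0
          exact le_add_of_nonneg_left hA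

/-- the integral of the majorant -/
theorem B_G2_int {f : ℝ → ℝ} {A D J : ℝ} (hf : Integrable f) (hA : 0 ≤ A) (hD : 0 ≤ D)
    (hJ : ∫ y : ℝ, f y ≤ J) :
    Integrable (fun y : ℝ => A * f y + D * (1 + y ^ 2)⁻¹) ∧
      ∫ y : ℝ, (A * f y + D * (1 + y ^ 2)⁻¹) ≤ A * J + D * 4 := by
  have h1 : Integrable (fun y : ℝ => A * f y) := hf.const_mul A
  have h2 : Integrable (fun y : ℝ => D * (1 + y ^ 2)⁻¹) := integrable_inv_one_add_sq.const_mul D
  refine ⟨h1.add h2, ?_⟩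
  rw [integral_add h1 h2, integral_const_mul, integral_const_mul, integral_univ_inv_one_add_sq]
  have h3 : A * ∫ y : ℝ, f y ≤ A * J := mul_le_mul_of_nonneg_left hJ hA
  have h4 : D * Real.pi ≤ D * 4 := mul_le_mul_of_nonneg_left Real.pi_le_four hD
  exact add_le_add h3 h4

theorem G_main2_w (L : ℝ) (hL : 2 ≤ L) (y : ℝ) :
    (0 < (((1 / L : ℝ) : ℂ) + y * I).re ∧ (((1 / L : ℝ) : ℂ) + y * I).re ≤ 1) ∧
      0 < ‖((1 / L : ℝ) : ℂ) + y * I‖ ∧ |y| ≤ ‖((1 / L : ℝ) : ℂ) + y * I‖ := by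
  have hL0 : 0 < L := lt_of_lt_of_le two_pos hL
  have h1 := Complex.abs_im_le_norm (((1 / L : ℝ) : ℂ) + y * I)
  have h2 := Complex.abs_re_le_norm (((1 / L : ℝ) : ℂ) + y * I)
  have hre : (((1 / L : ℝ) : ℂ) + y * I).re = 1 / L := by
    rw [add_re, ofReal_re, re_ofReal_mul, I_re, mul_zero, add_zero]
  have him : (((1 / L : ℝ) : ℂ) + y * I).im = y := by
    rw [add_im, ofReal_im, im_ofReal_mul, I_im, mul_one, zero_add]
  rw [him] at h1
  rw [hre] at h2 ⊢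
  have h3 : 0 < 1 / L := one_div_pos.mpr hL0
  refine ⟨⟨h3, ?_⟩, ?_, h1⟩
  · rw [div_le_one hL0]
    exact one_le_two.trans hL
  · exact h3.trans_le ((le_abs_self _).trans h2)

theorem G_main2_pt1 {B S N y Q0 Q1 L τ0 c Y : ℝ} (hL : 0 < L) (hN : 0 < N) (hyN : |y| ≤ N) (hτ : 0 < τ0)
    (hτ1 : τ0 ≤ 1) (hB0 : 0 ≤ B) (hS0 : 0 ≤ S) (hc : 0 ≤ c) (hQ0 : 0 ≤ Q0) (hQ1 : 0 ≤ Q1)
    (hm : B ≤ c * min Y (1 / N))
    (h0 : |y| ≤ τ0 → S ≤ Q0 / (L * N)) (h1 : S ≤ Q1 * (1 + |y|) ^ 40 / (L * N)) :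
    B * S ≤ (Q0 / L * c * (min Y (1 / N) / N) + 2 * c * Q1 / (τ0 ^ 2 * L) * (1 + y ^ 2)⁻¹) * (1 + |y|) ^ 40 := by
  have h4 : c * min Y (1 / N) ≤ c / N := by
    rw [div_eq_mul_one_div c]
    exact mul_le_mul_of_nonneg_left (min_le_right _ _) hc
  have h5 := B_G2_pt hL hN hyN hτ hτ1 hB0 hS0 hc hQ0 hQ1 hm (hm.trans h4) h0 h1
  rwa [mul_div_assoc c, ← mul_assoc (Q0 / L)] at h5

theorem G_main2_pt2 {B S N y Q0 Q1 L τ0 : ℝ} (hL : 0 < L) (hN : 0 < N) (hyN : |y| ≤ N) (hτ : 0 < τ0)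
    (hτ1 : τ0 ≤ 1) (hB0 : 0 ≤ B) (hS0 : 0 ≤ S) (hQ0 : 0 ≤ Q0) (hQ1 : 0 ≤ Q1)
    (hm : B ≤ 2 / N)
    (h0 : |y| ≤ τ0 → S ≤ Q0 / (L * N)) (h1 : S ≤ Q1 * (1 + |y|) ^ 40 / (L * N)) :
    B * S ≤ (Q0 / L * 2 * (1 / N ^ 2) + 2 * 2 * Q1 / (τ0 ^ 2 * L) * (1 + y ^ 2)⁻¹) * (1 + |y|) ^ 40 := by
  have h5 := B_G2_pt hL hN hyN hτ hτ1 hB0 hS0 zero_le_two hQ0 hQ1 hm hm h0 h1
  have h7 : 2 / N / N = 2 * (1 / N ^ 2) := by
    rw [div_div, ← sq, div_eq_mul_one_div]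
  rwa [h7, ← mul_assoc (Q0 / L)] at h5

theorem G_main2_nn {A D m y : ℝ} (hA : 0 ≤ A) (hD : 0 ≤ D) (hm : 0 ≤ m) : 0 ≤ A * m + D * (1 + y ^ 2)⁻¹ :=
  add_nonneg (mul_nonneg hA hm) (mul_nonneg hD (inv_nonneg.mpr (add_nonneg zero_le_one (sq_nonneg y))))

theorem G_main2_fin {D C1 C2 p X R J I : ℝ} (hC1 : 0 ≤ C1) (hC2 : 0 ≤ C2) (hp : 0 ≤ p) (hX : 0 ≤ X)
    (hD : D ≤ C1 * p * I) (hI : I ≤ J) (hJ : J ≤ (4 * C2 + 8) * X + (8 * C2 + 16) * R) :
    D ≤ C1 * (8 * C2 + 16) * p * (X + R) := by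
  have h1 : 0 ≤ C2 * X := mul_nonneg hC2 hX
  have h2 : I ≤ (8 * C2 + 16) * (X + R) := by linarith only [hI, hJ, h1, hX]
  calc D ≤ C1 * p * I := hD
    _ ≤ C1 * p * ((8 * C2 + 16) * (X + R)) := mul_le_mul_of_nonneg_left h2 (mul_nonneg hC1 hp)
    _ = _ := by ring

theorem G_main2_J1 {C2 Q0 Q1 L Y l τ0 : ℝ} (hX : 0 ≤ Q0 * (Y / L * (1 + l)))
    (hR : 0 ≤ Q1 / (τ0 ^ 2 * L)) :
    Q0 / L * C2 * (4 * Y * (1 + l)) + 2 * C2 * Q1 / (τ0 ^ 2 * L) * 4 ≤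
      (4 * C2 + 8) * (Q0 * (Y / L * (1 + l))) + (8 * C2 + 16) * (Q1 / (τ0 ^ 2 * L)) := by
  have e1 : Q0 / L * C2 * (4 * Y * (1 + l)) = 4 * C2 * (Q0 * (Y / L * (1 + l))) := by ring
  rw [e1, mul_div_assoc (2 * C2)]
  generalize Q0 * (Y / L * (1 + l)) = X at hX ⊢
  generalize Q1 / (τ0 ^ 2 * L) = R at hR ⊢
  linarith only [hX, hR]

theorem G_main2_J2 {C2 Q0 Q1 L τ0 : ℝ} (hL : 0 < L) (hC2 : 0 ≤ C2) (hX : 0 ≤ Q0)
    (hR : 0 ≤ Q1 / (τ0 ^ 2 * L)) :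
    Q0 / L * 2 * (4 * L) + 2 * 2 * Q1 / (τ0 ^ 2 * L) * 4 ≤
      (4 * C2 + 8) * Q0 + (8 * C2 + 16) * (Q1 / (τ0 ^ 2 * L)) := by
  have e1 : Q0 / L * L = Q0 := div_mul_cancel₀ Q0 hL.ne'
  rw [mul_div_assoc (2 * 2)]
  have h1 := mul_nonneg hC2 hX
  have h2 := mul_nonneg hC2 hR
  generalize Q1 / (τ0 ^ 2 * L) = R at hR h2 ⊢
  generalize Q0 / L = q at e1 ⊢
  linarith only [hX, hR, e1, h1, h2]

/-- `G_commonE` with `E y = C2 Q0/L * min Y (1/‖w‖)/‖w‖ + 2 C2 Q1/(τ0^2 L) * (1+y^2)⁻¹` for the first part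
(`G_Bm`, `G_int1`; for `|y| > τ0`: `1/‖w‖^2 ≤ 1/y^2 ≤ (2/τ0^2) (1+y^2)⁻¹`; for `|y| ≤ τ0` use the first
hypothesis and `1 ≤ (1+|y|)^40`), and `E y = 2 Q0/L /‖w‖^2 + 4 Q1/(τ0^2 L) (1+y^2)⁻¹` for the second
(`G_Bm_zero_le`, `G_int2`); `integral_univ_inv_one_add_sq`. See G_8b.lean. -/
theorem G_main2 : ∃ C : ℝ, 0 < C ∧ ∀ (a b : ArithmeticFunction ℂ) (K0 : ℕ) (L Q0 Q1 τ0 : ℝ), 2 ≤ L →
    0 ≤ Q0 → 0 ≤ Q1 → 0 < τ0 → τ0 ≤ 1 →
    (∀ k, K0 < k → b k = 0) → (∀ η : ℝ, 0 < η → ∃ B : ℝ, ∀ n : ℕ, ‖a n‖ ≤ B * (n : ℝ) ^ η) →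
    (∀ t : ℝ, |t| ≤ τ0 → ‖∑' n : ℕ, (tw a (-(1 / 2) - ((1 / L : ℝ) + t * I) / 2) * tw (cj b) (-(1 / 2) + ((1 / L : ℝ) + t * I) / 2)) n *
        (tw (cj a) (-(1 / 2) - ((1 / L : ℝ) + t * I) / 2) * tw b (-(1 / 2) + ((1 / L : ℝ) + t * I) / 2)) n‖ ≤
        Q0 / (L * ‖((1 / L : ℝ) : ℂ) + t * I‖)) →
    (∀ t : ℝ, ‖∑' n : ℕ, (tw a (-(1 / 2) - ((1 / L : ℝ) + t * I) / 2) * tw (cj b) (-(1 / 2) + ((1 / L : ℝ) + t * I) / 2)) n *
        (tw (cj a) (-(1 / 2) - ((1 / L : ℝ) + t * I) / 2) * tw b (-(1 / 2) + ((1 / L : ℝ) + t * I) / 2)) n‖ ≤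
        Q1 * (1 + |t|) ^ 40 / (L * ‖((1 / L : ℝ) : ℂ) + t * I‖)) →
    ∀ P : ℝ, 0 < P →
      (∀ Y : ℝ, 1 ≤ Y → Y ≤ L → DS K0 a b (fun y => Psi 1 (Real.exp (-Y)) (P * y)) ≤
        C * P ^ (-1 - 1 / L) * (Q0 * ((Y / L) * (1 + Real.log (L / Y))) + Q1 / (τ0 ^ 2 * L))) ∧
      (∀ α : ℝ, 1 ≤ α → DS K0 a b (fun y => Psi α 0 (P * y)) ≤
        C * P ^ (-1 - 1 / L) * (Q0 + Q1 / (τ0 ^ 2 * L))) := by
  obtain ⟨C1, hC1, h1⟩ := G_commonE
  obtain ⟨C2, hC2, h2⟩ := G_Bm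
  refine ⟨C1 * (8 * C2 + 16), mul_pos hC1 (by linarith only [hC2]), ?_⟩
  intro a b K0 L Q0 Q1 τ0 hL hQ0 hQ1 hτ hτ1 hb ha ht0 ht1 P hP
  have hL0 : 0 < L := lt_of_lt_of_le two_pos hL
  have hw := G_main2_w L hL
  have hPp : 0 ≤ P ^ (-1 - 1 / L) := (Real.rpow_pos_of_pos hP _).le
  have hT : 0 ≤ τ0 ^ 2 * L := mul_nonneg (sq_nonneg _) hL0.le
  have hR : 0 ≤ Q1 / (τ0 ^ 2 * L) := div_nonneg hQ1 hT
  have hQL : 0 ≤ Q0 / L := div_nonneg hQ0 hL0.le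
  constructor
  · intro Y hY hYL
    obtain ⟨hi, hI⟩ := G_int1 L Y hY hYL
    have hY0 : 0 < Y := one_pos.trans_le hY
    have hlog : 0 ≤ Real.log (L / Y) := Real.log_nonneg ((one_le_div hY0).mpr hYL)
    have hX : 0 ≤ Q0 * (Y / L * (1 + Real.log (L / Y))) :=
      mul_nonneg hQ0 (mul_nonneg (div_nonneg hY0.le hL0.le) (add_nonneg zero_le_one hlog))
    have hA : 0 ≤ Q0 / L * C2 := mul_nonneg hQL hC2.le
    have hD : 0 ≤ 2 * C2 * Q1 / (τ0 ^ 2 * L) := div_nonneg (mul_nonneg (mul_nonneg zero_le_two hC2.le) hQ1) hT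
    have hE := B_G2_int hi hA hD hI
    exact G_main2_fin hC1.le hC2.le hPp hX
      (h1 a b K0 L hL hb ha P 1 (Real.exp (-Y)) hP one_pos (Real.exp_pos _).le _
        (fun y => G_main2_nn hA hD (div_nonneg (le_min hY0.le (one_div_pos.mpr (hw y).2.1).le) (hw y).2.1.le))
        hE.1
        (fun y => G_main2_pt1 hL0 (hw y).2.1 (hw y).2.2 hτ hτ1 (norm_nonneg _) (norm_nonneg _) hC2.le hQ0 hQ1
          (h2 Y hY _ (hw y).1.1 (hw y).1.2) (ht0 y) (ht1 y)))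
      hE.2 (G_main2_J1 hX hR)
  · intro α hα
    obtain ⟨hi, hI⟩ := G_int2 L (one_le_two.trans hL)
    have hA : 0 ≤ Q0 / L * 2 := mul_nonneg hQL zero_le_two
    have hD : 0 ≤ 2 * 2 * Q1 / (τ0 ^ 2 * L) := div_nonneg (mul_nonneg (mul_nonneg zero_le_two zero_le_two) hQ1) hT
    have hE := B_G2_int hi hA hD hI
    exact G_main2_fin hC1.le hC2.le hPp hQ0
      (h1 a b K0 L hL hb ha P α 0 hP (one_pos.trans_le hα) le_rfl _
        (fun y => G_main2_nn hA hD (one_div_nonneg.mpr (sq_nonneg _)))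
        hE.1
        (fun y => G_main2_pt2 hL0 (hw y).2.1 (hw y).2.2 hτ hτ1 (norm_nonneg _) (norm_nonneg _) hQ0 hQ1
          (G_Bm_zero_le α hα _ (hw y).1.1 (hw y).1.2) (ht0 y) (ht1 y)))
      hE.2 (G_main2_J2 hL0 hC2.le hQ0 hR)

end OO

end
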