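import Pool.Agent.Lib.MP_0f5a55_nt.OM.K000
import Pool.Agent.Lib.MP_0f5a55_nt.OM.K004
import Pool.Agent.Lib.MP_0f5a55_nt.OM.K009

section

open Complex MeasureTheory Set Filter Topology
open scoped ComplexConjugate

namespace OO

private theorem T_Dec_exp (b : ℝ) (hb : 0 < b) : Integrable (fun t : ℝ => Real.exp (-(b * |t|))) := by
  rw [← integrableOn_univ, ← Iic_union_Ioi (a := (0 : ℝ)), integrableOn_union]
  constructor
  · have h := integrableOn_exp_mul_Iic hb 0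
    refine h.congr_fun (fun t ht => ?_) measurableSet_Iic
    have ht' : |t| = -t := abs_of_nonpos ht
    simp only [ht']
    congr 1
    ring
  · have h := integrableOn_exp_mul_Ioi (neg_neg_iff_pos.mpr hb) 0
    refine h.congr_fun (fun t ht => ?_) measurableSet_Ioi
    have ht' : |t| = t := abs_of_pos ht
    simp only [ht']
    congr 1
    ring

private theorem T_Dec_le (n : ℕ) (a : ℝ) (ha : 0 < a) (t : ℝ) :
    (1 + |t|) ^ n * Real.exp (-(a * |t|)) ≤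
      ((2 / a) ^ n * n.factorial * Real.exp (a / 2)) * Real.exp (-(a / 2 * |t|)) := by
  have h0 : 0 ≤ a / 2 * (1 + |t|) := by positivity
  have h1 := Real.pow_div_factorial_le_exp (a / 2 * (1 + |t|)) h0 n
  have hf : (0 : ℝ) < n.factorial := by positivity
  rw [div_le_iff₀ hf] at h1
  have h2 : (1 + |t|) ^ n = (2 / a) ^ n * (a / 2 * (1 + |t|)) ^ n := by
    rw [← mul_pow]
    congr 1
    field_simp
  have h3 : Real.exp (a / 2 * (1 + |t|)) * Real.exp (-(a * |t|)) =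
      Real.exp (a / 2) * Real.exp (-(a / 2 * |t|)) := by
    rw [← Real.exp_add, ← Real.exp_add]
    congr 1
    ring
  calc (1 + |t|) ^ n * Real.exp (-(a * |t|))
      = (2 / a) ^ n * (a / 2 * (1 + |t|)) ^ n * Real.exp (-(a * |t|)) := by rw [h2]
    _ ≤ (2 / a) ^ n * (Real.exp (a / 2 * (1 + |t|)) * n.factorial) * Real.exp (-(a * |t|)) := by
        gcongr
    _ = (2 / a) ^ n * n.factorial * (Real.exp (a / 2 * (1 + |t|)) * Real.exp (-(a * |t|))) := by ring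
    _ = ((2 / a) ^ n * n.factorial * Real.exp (a / 2)) * Real.exp (-(a / 2 * |t|)) := by
        rw [h3]; ring

private theorem T_Dec_int (n : ℕ) (a : ℝ) (ha : 0 < a) :
    Integrable (fun t : ℝ => (1 + |t|) ^ n * Real.exp (-(a * |t|))) := by
  have h := (T_Dec_exp (a / 2) (by positivity)).const_mul
    ((2 / a) ^ n * n.factorial * Real.exp (a / 2))
  refine h.mono' ?_ ?_
  · apply Continuous.aestronglyMeasurable
    fun_prop
  · refine Filter.Eventually.of_forall (fun t => ?_)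
    rw [Real.norm_of_nonneg (by positivity)]
    exact T_Dec_le n a ha t

private theorem T_Dec_sq (n : ℕ) (a t : ℝ) : ((1 + |t|) ^ n * Real.exp (-(a * |t|))) ^ 2 =
    (1 + |t|) ^ (2 * n) * Real.exp (-(2 * a * |t|)) := by
  rw [mul_pow, ← pow_mul, ← Real.exp_nat_mul]
  congr 1
  · rw [mul_comm]
  · congr 1
    push_cast
    ring

/-- OT05. Integrability of continuous functions bounded by a polynomial times an exponential.

Proof. `(1+|t|)^n exp (-a|t|) ≤ C exp (-(a/2)|t|)` and `∫ exp (-(a/2)|t|) < ∞` (`integrable_exp_neg_abs`-like: split at `0`,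
`integrableOn_Ioi` of `exp (-(a/2) t)`, or `integrable_of_isBigO_exp_neg` on both half lines); `Integrable.mono'`. For the square
apply the first part to `‖f‖²` with `2n`, `2a`. The last statement: `∫ (1+|t|)^n exp (-a|t|)` is a constant depending on `n`, `a`
only. -/
theorem T_dec (n : ℕ) (a : ℝ) (ha : 0 < a) :
    (∀ (f : ℝ → ℂ) (C : ℝ), Continuous f → (∀ t, ‖f t‖ ≤ C * (1 + |t|) ^ n * Real.exp (-(a * |t|))) →
      Integrable f ∧ Integrable (fun t => ‖f t‖ ^ 2)) ∧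
    Integrable (fun t : ℝ => (1 + |t|) ^ n * Real.exp (-(a * |t|))) ∧
    Integrable (fun t : ℝ => ((1 + |t|) ^ n * Real.exp (-(a * |t|))) ^ 2) := by
  have h1 := T_Dec_int n a ha
  have h2 : Integrable (fun t : ℝ => ((1 + |t|) ^ n * Real.exp (-(a * |t|))) ^ 2) := by
    simp_rw [T_Dec_sq]
    exact T_Dec_int (2 * n) (2 * a) (by positivity)
  refine ⟨fun f C hf hb => ⟨?_, ?_⟩, h1, h2⟩
  · refine (h1.const_mul C).mono' hf.aestronglyMeasurable (Filter.Eventually.of_forall fun t => ?_)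
    have h3 := hb t
    rw [mul_assoc] at h3
    exact h3
  · refine (h2.const_mul (C ^ 2)).mono' (hf.norm.pow 2).aestronglyMeasurable
      (Filter.Eventually.of_forall fun t => ?_)
    have h3 := hb t
    rw [Real.norm_of_nonneg (by positivity), ← mul_pow, ← mul_assoc]
    exact pow_le_pow_left₀ (norm_nonneg _) h3 2

end OO

end

section

open Complex MeasureTheory Set Filter Topology
open scoped ComplexConjugate

namespace OO

theorem T_Shift_lim {ε : ℝ} (hε : 0 < ε) (C : ℝ) :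
    Tendsto (fun R : ℝ => C * (1 + R) ^ 8 * Real.exp (-(ε * R))) atTop (𝓝 0) := by
  have h1 : Tendsto (fun x : ℝ => x ^ 8 / Real.exp (ε * x)) atTop (𝓝 0) :=
    (isLittleO_pow_exp_pos_mul_atTop 8 hε).tendsto_div_nhds_zero
  have h2 : Tendsto (fun R : ℝ => 1 + R) atTop atTop := tendsto_atTop_add_const_left _ _ tendsto_id
  have h3 := (h1.comp h2).const_mul (C * Real.exp ε)
  rw [mul_zero] at h3
  refine h3.congr fun R => ?_
  simp only [Function.comp_apply]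
  rw [div_eq_mul_inv, ← Real.exp_neg]
  have : Real.exp (-(ε * R)) = Real.exp ε * Real.exp (-(ε * (1 + R))) := by
    rw [← Real.exp_add]; congr 1; ring
  rw [this]; ring

theorem T_Shift_line {N : ℂ → ℂ} {a b a' : ℝ} (ha : a ≤ a') (hb : a' ≤ b) (h1 : a' ≠ 1)
    (hN : ∀ s : ℂ, a ≤ s.re → s.re ≤ b → DifferentiableAt ℂ N s) {C ε : ℝ} (hε : 0 < ε)
    (hC : ∀ s : ℂ, a ≤ s.re → s.re ≤ b → ‖N s‖ ≤ C * (1 + |s.im|) ^ 8 * Real.exp (-(ε * |s.im|))) :
    Integrable (fun y : ℝ => N (a' + y * I) / (a' + y * I - 1)) := by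
  have hre : ∀ y : ℝ, ((a' : ℂ) + y * I).re = a' := by intro y; simp
  have him : ∀ y : ℝ, ((a' : ℂ) + y * I).im = y := by intro y; simp
  have hd : ∀ y : ℝ, |a' - 1| ≤ ‖(a' : ℂ) + y * I - 1‖ := by
    intro y
    have := Complex.abs_re_le_norm ((a' : ℂ) + y * I - 1)
    simpa using this
  have hp : 0 < |a' - 1| := abs_pos.2 (sub_ne_zero.2 h1)
  have hcont : Continuous (fun y : ℝ => N (a' + y * I) / (a' + y * I - 1)) := by
    refine Continuous.div ?_ (by fun_prop) ?_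
    · rw [continuous_iff_continuousAt]
      intro y
      have h := (hN (a' + y * I) (by rw [hre]; exact ha) (by rw [hre]; exact hb)).continuousAt
      exact ContinuousAt.comp (f := fun y : ℝ => (a' : ℂ) + y * I) h (by fun_prop)
    · intro y h0
      have := hd y
      rw [h0, norm_zero] at this
      linarith
  refine ((T_dec 8 ε hε).1 _ (C / |a' - 1|) hcont ?_).1
  intro t
  rw [norm_div, div_le_iff₀ (lt_of_lt_of_le hp (hd t))]
  have h2 := hC (a' + t * I) (by rw [hre]; exact ha) (by rw [hre]; exact hb)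
  rw [him] at h2
  have h0 : 0 ≤ C * (1 + |t|) ^ 8 * Real.exp (-(ε * |t|)) := (norm_nonneg _).trans h2
  refine h2.trans ?_
  have e : C / |a' - 1| * (1 + |t|) ^ 8 * Real.exp (-(ε * |t|)) * ‖(a' : ℂ) + t * I - 1‖ =
      (C * (1 + |t|) ^ 8 * Real.exp (-(ε * |t|))) * (‖(a' : ℂ) + t * I - 1‖ / |a' - 1|) := by
    field_simp
  rw [e]
  exact le_mul_of_one_le_right h0 ((one_le_div hp).2 (hd t))

/-- OT09. Shift of a line integral over a simple pole at `1`.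

Proof. Both integrands are continuous (`a, b ≠ 1`) and bounded by `C' (1+|y|)^8 exp (-(ε|y|))` (`‖a + yI - 1‖ ≥ |a - 1| > 0`), so
integrable (`T_dec`). By `T_rect` for `R = n → ∞`: the horizontal integrals are bounded by
`(b - a) C (1+R)^8 exp (-(εR)) / R → 0`, the vertical ones tend to the full integrals
(`MeasureTheory.intervalIntegral_tendsto_integral`). Divide by `I`. -/
theorem T_shift {N : ℂ → ℂ} {a b : ℝ} (ha : a < 1) (hb : 1 < b)
    (hN : ∀ s : ℂ, a ≤ s.re → s.re ≤ b → DifferentiableAt ℂ N s) {C ε : ℝ} (hε : 0 < ε)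
    (hC : ∀ s : ℂ, a ≤ s.re → s.re ≤ b → ‖N s‖ ≤ C * (1 + |s.im|) ^ 8 * Real.exp (-(ε * |s.im|))) :
    Integrable (fun y : ℝ => N (a + y * I) / (a + y * I - 1)) ∧
    Integrable (fun y : ℝ => N (b + y * I) / (b + y * I - 1)) ∧
    ∫ y : ℝ, N (b + y * I) / (b + y * I - 1) =
      (∫ y : ℝ, N (a + y * I) / (a + y * I - 1)) + 2 * Real.pi * N 1 := by
  have hab : a ≤ b := by linarith
  have ia := T_Shift_line (a' := a) le_rfl hab ha.ne hN hε hC
  have ib := T_Shift_line (a' := b) hab le_rfl hb.ne' hN hε hC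
  refine ⟨ia, ib, ?_⟩
  have hlim := T_Shift_lim hε C
  have hR : ∀ R : ℝ, 0 < R → _ := fun R hR => T_rect ha hb hR hN
  -- horizontal integrals
  have hhor : ∀ (σ : ℝ), σ = 1 ∨ σ = -1 →
      Tendsto (fun R : ℝ => ∫ x in a..b, N (x + σ * R * I) / (x + σ * R * I - 1)) atTop (𝓝 0) := by
    intro σ hσ
    have h1 : Tendsto (fun R : ℝ => C * (1 + R) ^ 8 * Real.exp (-(ε * R)) * |b - a|) atTop (𝓝 0) := by
      simpa using hlim.mul_const |b - a|
    refine squeeze_zero_norm' ?_ h1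
    filter_upwards [eventually_ge_atTop (1 : ℝ)] with R hR1
    refine intervalIntegral.norm_integral_le_of_norm_le_const ?_
    intro x hx
    rw [uIoc_of_le hab] at hx
    have hre : ((x : ℂ) + σ * R * I).re = x := by simp
    have him : ((x : ℂ) + σ * R * I).im = σ * R := by simp
    have habs : |σ * R| = R := by
      rcases hσ with h | h <;> simp [h, abs_of_nonneg (by linarith : (0:ℝ) ≤ R)]
    have h2 := hC ((x : ℂ) + σ * R * I) (by rw [hre]; exact hx.1.le) (by rw [hre]; exact hx.2)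
    rw [him, habs] at h2
    have h3 : R ≤ ‖(x : ℂ) + σ * R * I - 1‖ := by
      have := Complex.abs_im_le_norm ((x : ℂ) + σ * R * I - 1)
      have e : ((x : ℂ) + σ * R * I - 1).im = σ * R := by simp
      rw [e, habs] at this
      exact this
    rw [norm_div]
    have h4 : 0 ≤ C * (1 + R) ^ 8 * Real.exp (-(ε * R)) := (norm_nonneg _).trans h2
    rw [div_le_iff₀ (by linarith)]
    refine h2.trans (le_mul_of_one_le_right h4 (by linarith))
  have hver : ∀ a' : ℝ, Integrable (fun y : ℝ => N (a' + y * I) / (a' + y * I - 1)) →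
      Tendsto (fun R : ℝ => ∫ y in (-R)..R, N (a' + y * I) / (a' + y * I - 1)) atTop
        (𝓝 (∫ y : ℝ, N (a' + y * I) / (a' + y * I - 1))) := by
    intro a' hi
    exact intervalIntegral_tendsto_integral hi tendsto_neg_atTop_atBot tendsto_id
  have hA := hhor (-1) (Or.inr rfl)
  have hB := hhor 1 (Or.inl rfl)
  have hA' : Tendsto (fun R : ℝ => ∫ x in a..b, N (x - R * I) / (x - R * I - 1)) atTop (𝓝 0) := by
    refine hA.congr fun R => ?_
    congr 1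
    funext x
    push_cast
    rw [show (x : ℂ) + -1 * R * I = x - R * I by ring]
  have hB' : Tendsto (fun R : ℝ => ∫ x in a..b, N (x + R * I) / (x + R * I - 1)) atTop (𝓝 0) := by
    refine hB.congr fun R => ?_
    congr 1
    funext x
    push_cast
    rw [show (x : ℂ) + 1 * R * I = x + R * I by ring]
  have hsum := ((hA'.sub hB').add ((hver b ib).const_mul I)).sub ((hver a ia).const_mul I)
  have hconst : Tendsto (fun R : ℝ => (∫ x in a..b, N (x - R * I) / (x - R * I - 1)) -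
      (∫ x in a..b, N (x + R * I) / (x + R * I - 1)) +
      I * (∫ y in (-R)..R, N (b + y * I) / (b + y * I - 1)) -
      I * (∫ y in (-R)..R, N (a + y * I) / (a + y * I - 1))) atTop (𝓝 (2 * Real.pi * I * N 1)) := by
    refine tendsto_const_nhds.congr' ?_
    filter_upwards [eventually_gt_atTop (0 : ℝ)] with R hR0
    exact (hR R hR0).symm
  have huniq := tendsto_nhds_unique hsum hconst
  have hI : (I : ℂ) ≠ 0 := I_ne_zero
  apply mul_left_cancel₀ hI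
  rw [sub_zero, zero_add] at huniq
  linear_combination huniq

end OO

end

section

/-!
# Row OP08: a finite sum over separated poles (elementary)
-/

open Complex MeasureTheory Set Filter Topology

namespace OO

/-- OP08a. PROOF. `‖x e^(-iε) - y‖² = (x - y)² + 2 x y (1 - cos ε)` (real and imaginary parts), `1 - cos ε = 2 sin²(ε/2) ≥ 2 (ε/π)² ≥ ε²/6` (`sin t ≥ 2t/π` on `[0,π/2]`: `Real.mul_le_sin`; `π² ≤ 12`). -/
theorem P08_norm (x y ε : ℝ) (hx : 0 ≤ x) (hy : 0 ≤ y) (hε : 0 ≤ ε) (hε1 : ε ≤ 1) :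
    (x - y) ^ 2 + x * y * ε ^ 2 / 3 ≤ ‖(x : ℂ) * exp (-(ε * I)) - (y : ℂ)‖ ^ 2 := by
  have he : exp (-((ε : ℂ) * I)) = (Real.cos ε : ℂ) - (Real.sin ε : ℂ) * I := by
    have h2 : -((ε : ℂ) * I) = ((-ε : ℝ) : ℂ) * I := by push_cast; ring
    rw [h2, Complex.exp_mul_I, ← Complex.ofReal_cos, ← Complex.ofReal_sin, Real.cos_neg,
      Real.sin_neg]
    push_cast; ring
  have h1 : (x : ℂ) * exp (-(ε * I)) - (y : ℂ) =
      ((x * Real.cos ε - y : ℝ) : ℂ) + ((-(x * Real.sin ε) : ℝ) : ℂ) * I := by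
    rw [he]; push_cast; ring
  have h2 : ‖(x : ℂ) * exp (-(ε * I)) - (y : ℂ)‖ ^ 2 =
      (x * Real.cos ε - y) ^ 2 + (x * Real.sin ε) ^ 2 := by
    rw [h1, ← Complex.normSq_eq_norm_sq, Complex.normSq_add_mul_I]
    ring
  have h3 : (x * Real.cos ε - y) ^ 2 + (x * Real.sin ε) ^ 2 =
      (x - y) ^ 2 + x * y * (2 * (1 - Real.cos ε)) := by
    have := Real.sin_sq_add_cos_sq ε
    linear_combination x ^ 2 * this
  have h4 : ε ^ 2 / 3 ≤ 2 * (1 - Real.cos ε) := by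
    have hb := Real.cos_bound (x := ε) (by rw [abs_of_nonneg hε]; exact hε1)
    have hb2 := (abs_le.1 hb).2
    rw [abs_of_nonneg hε] at hb2
    have h5 : ε ^ 4 ≤ ε ^ 2 := pow_le_pow_of_le_one hε hε1 (by norm_num)
    nlinarith [sq_nonneg ε]
  rw [h2, h3]
  have : x * y * ε ^ 2 / 3 = x * y * (ε ^ 2 / 3) := by ring
  rw [this]
  have hxy : 0 ≤ x * y := mul_nonneg hx hy
  nlinarith [mul_le_mul_of_nonneg_left h4 hxy]

theorem P08_abs (x y ε : ℝ) (hx : 0 ≤ x) (hy : 0 ≤ y) (hε : 0 ≤ ε) (hε1 : ε ≤ 1) :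
    |x - y| ≤ ‖(x : ℂ) * exp (-(ε * I)) - (y : ℂ)‖ := by
  have h := P08_norm x y ε hx hy hε hε1
  have h0 : 0 ≤ x * y * ε ^ 2 / 3 := by positivity
  exact abs_le_of_sq_le_sq (by linarith) (norm_nonneg _)

/-- OP08b. PROOF. Let `y : J → ℝ` be the positions, `N = ∑ ‖c j‖`. At most one value `y₀` of `y` has `|x - y₀| < Δ` (two would be at distance `< 2Δ`). The terms with `|x - y j| ≥ Δ` are `≤ ‖c j‖/Δ` each (P08_norm: `‖x e^(-iε) - y‖ ≥ |x - y|`), so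
they contribute `≤ N/Δ`; the others together are `(∑_(y j = y₀) c j)/(x e^(-iε) - y₀)` (`Finset.sum_filter`, `Finset.sum_div`). `‖a + b‖² ≤ 2‖a‖² + 2‖b‖²`. If there is no such `y₀`, the second sum on the right is `0` or just nonnegative. -/
theorem P08_split {ι : Type} (J : Finset ι) (y : ι → ℝ) (c : ι → ℂ) (Δ x ε : ℝ) (hy : ∀ j ∈ J, 0 < y j) (hΔ : 0 < Δ)
    (hsep : ∀ i ∈ J, ∀ j ∈ J, y i ≠ y j → 2 * Δ ≤ |y i - y j|) (hx : 0 < x) (hε : 0 < ε) (hε1 : ε ≤ 1) :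
    ‖∑ j ∈ J, c j / ((x : ℂ) * exp (-(ε * I)) - (y j : ℂ))‖ ^ 2 ≤ 2 * ((∑ j ∈ J, ‖c j‖) / Δ) ^ 2 +
      2 * ∑ y₀ ∈ J.image y, if |x - y₀| < Δ then ‖∑ j ∈ J.filter (fun j => y j = y₀), c j‖ ^ 2 / ‖(x : ℂ) * exp (-(ε * I)) - (y₀ : ℂ)‖ ^ 2 else 0 := by
  classical
  have hnn : ∀ y₀ ∈ J.image y, (0 : ℝ) ≤ if |x - y₀| < Δ then ‖∑ j ∈ J.filter (fun j => y j = y₀), c j‖ ^ 2 /
      ‖(x : ℂ) * exp (-(ε * I)) - (y₀ : ℂ)‖ ^ 2 else 0 := by
    intro y₀ _
    split_ifs <;> positivity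
  have hterm : ∀ j ∈ J, Δ ≤ |x - y j| →
      ‖c j / ((x : ℂ) * exp (-(ε * I)) - (y j : ℂ))‖ ≤ ‖c j‖ / Δ := by
    intro j hj hd
    rw [norm_div]
    have := P08_abs x (y j) ε hx.le (hy j hj).le hε.le hε1
    gcongr
    linarith
  by_cases hex : ∃ y₀ ∈ J.image y, |x - y₀| < Δ
  · obtain ⟨y₀, hy₀, hd₀⟩ := hex
    obtain ⟨i₀, hi₀, hyi⟩ := Finset.mem_image.1 hy₀
    have huniq : ∀ j ∈ J, y j ≠ y₀ → Δ ≤ |x - y j| := by
      intro j hj hne
      by_contra hlt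
      push Not at hlt
      have h1 := hsep j hj i₀ hi₀ (by rw [hyi]; exact hne)
      rw [hyi] at h1
      have h2 : |y j - y₀| ≤ |x - y j| + |x - y₀| := by
        have := abs_sub (y j - x) (y₀ - x)
        have e : y j - y₀ = (y j - x) - (y₀ - x) := by ring
        rw [e, abs_sub_comm x (y j), abs_sub_comm x y₀]
        exact this
      linarith
    have hsplit : ∑ j ∈ J, c j / ((x : ℂ) * exp (-(ε * I)) - (y j : ℂ)) =
        (∑ j ∈ J.filter (fun j => y j = y₀), c j) / ((x : ℂ) * exp (-(ε * I)) - (y₀ : ℂ)) +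
        ∑ j ∈ J.filter (fun j => ¬ y j = y₀), c j / ((x : ℂ) * exp (-(ε * I)) - (y j : ℂ)) := by
      rw [← Finset.sum_filter_add_sum_filter_not J (fun j => y j = y₀)]
      congr 1
      rw [Finset.sum_div]
      refine Finset.sum_congr rfl fun j hj => ?_
      rw [(Finset.mem_filter.1 hj).2]
    have hsec : ‖∑ j ∈ J.filter (fun j => ¬ y j = y₀), c j / ((x : ℂ) * exp (-(ε * I)) - (y j : ℂ))‖ ≤
        (∑ j ∈ J, ‖c j‖) / Δ := by
      refine (norm_sum_le _ _).trans ?_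
      rw [Finset.sum_div]
      refine (Finset.sum_le_sum fun j hj => ?_).trans
        (Finset.sum_le_sum_of_subset_of_nonneg (Finset.filter_subset _ J) fun j _ _ => by positivity)
      have := Finset.mem_filter.1 hj
      exact hterm j this.1 (huniq j this.1 this.2)
    set A := (∑ j ∈ J.filter (fun j => y j = y₀), c j) / ((x : ℂ) * exp (-(ε * I)) - (y₀ : ℂ)) with hA
    set B := ∑ j ∈ J.filter (fun j => ¬ y j = y₀), c j / ((x : ℂ) * exp (-(ε * I)) - (y j : ℂ)) with hB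
    have h1 : ‖A + B‖ ^ 2 ≤ 2 * ‖B‖ ^ 2 + 2 * ‖A‖ ^ 2 := by
      have h2 : ‖A + B‖ ^ 2 ≤ (‖A‖ + ‖B‖) ^ 2 := by gcongr; exact norm_add_le _ _
      nlinarith [sq_nonneg (‖A‖ - ‖B‖)]
    have h3 : ‖A‖ ^ 2 ≤ ∑ y₁ ∈ J.image y, if |x - y₁| < Δ then ‖∑ j ∈ J.filter (fun j => y j = y₁), c j‖ ^ 2 /
        ‖(x : ℂ) * exp (-(ε * I)) - (y₁ : ℂ)‖ ^ 2 else 0 := by
      refine le_trans (le_of_eq ?_) (Finset.single_le_sum hnn hy₀)
      rw [if_pos hd₀, hA, norm_div, div_pow]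
    have h4 : ‖B‖ ^ 2 ≤ ((∑ j ∈ J, ‖c j‖) / Δ) ^ 2 := by gcongr
    rw [hsplit]
    linarith
  · push Not at hex
    have hsum : ‖∑ j ∈ J, c j / ((x : ℂ) * exp (-(ε * I)) - (y j : ℂ))‖ ≤ (∑ j ∈ J, ‖c j‖) / Δ := by
      refine (norm_sum_le _ _).trans ?_
      rw [Finset.sum_div]
      exact Finset.sum_le_sum fun j hj => hterm j hj (hex _ (Finset.mem_image_of_mem y hj))
    have h4 : ‖∑ j ∈ J, c j / ((x : ℂ) * exp (-(ε * I)) - (y j : ℂ))‖ ^ 2 ≤ ((∑ j ∈ J, ‖c j‖) / Δ) ^ 2 := by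
      gcongr
    have h5 := Finset.sum_nonneg hnn
    nlinarith [sq_nonneg ((∑ j ∈ J, ‖c j‖) / Δ)]

end OO

end

section

/-!
# Row OP09: the integral over the neighbourhood of a pole
-/

open Complex MeasureTheory Set Filter Topology

namespace OO

/-- OP09a. PROOF. `|x - y| < Δ ≤ y/2` gives `x ≥ y/2`; `-1/x + 1/y = (x - y)/(x y) ≤ Δ/(y²/2) ≤ 1`, `-ω x + ω y ≤ ω Δ ≤ 1`. -/
theorem P09_wt (y Δ ω x : ℝ) (hy : 0 < y) (h1 : 2 * Δ ≤ y) (h2 : 2 * Δ ≤ y ^ 2) (h3 : Δ ≤ 1) (hω : 0 ≤ ω) (hω1 : ω ≤ 1)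
    (hx : |x - y| < Δ) : Wt 1 ω x ≤ Real.exp 2 * Wt 1 ω y := by
  have hx' := abs_lt.1 hx
  have hxy : y / 2 ≤ x := by linarith
  have hx0 : 0 < x := by linarith
  unfold Wt
  rw [← Real.exp_add]
  apply Real.exp_le_exp.2
  have e1 : 1 / y - 1 / x ≤ 1 := by
    rw [div_sub_div _ _ hy.ne' hx0.ne', div_le_one (by positivity)]
    nlinarith
  have e2 : ω * (y - x) ≤ 1 := by nlinarith
  linarith

theorem P09_aux_bound (y Δ ω ε x : ℝ) (hy : 0 < y) (h1 : 2 * Δ ≤ y) (h2 : 2 * Δ ≤ y ^ 2) (h3 : Δ ≤ 1)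
    (hω : 0 ≤ ω) (hω1 : ω ≤ 1) (hε : 0 < ε) (hε1 : ε ≤ 1) (hx : 0 < x) :
    (if |x - y| < Δ then Wt 1 ω x / ‖(x : ℂ) * exp (-(ε * I)) - (y : ℂ)‖ ^ 2 else 0) ≤
      Real.exp 2 * Wt 1 ω y * ((y * ε / 3) ^ 2)⁻¹ * (1 + ((x - y) / (y * ε / 3)) ^ 2)⁻¹ := by
  have hW : 0 < Wt 1 ω y := Real.exp_pos _
  have ha : 0 < y * ε / 3 := by positivity
  split_ifs with h
  · have hx' := abs_lt.1 h
    have hxy : y / 2 ≤ x := by linarith
    have e1 := P09_wt y Δ ω x hy h1 h2 h3 hω hω1 h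
    have e2 := P08_norm x y ε hx.le hy.le hε.le hε1
    have e3 : (x - y) ^ 2 + (y * ε / 3) ^ 2 ≤ ‖(x : ℂ) * exp (-(ε * I)) - (y : ℂ)‖ ^ 2 := by
      refine le_trans ?_ e2
      have : y / 2 * (y * ε ^ 2) ≤ x * (y * ε ^ 2) := mul_le_mul_of_nonneg_right hxy (by positivity)
      nlinarith [sq_nonneg (y * ε)]
    have e4 : 0 < (x - y) ^ 2 + (y * ε / 3) ^ 2 := by positivity
    have e5 : ((y * ε / 3) ^ 2)⁻¹ * (1 + ((x - y) / (y * ε / 3)) ^ 2)⁻¹ =
        ((x - y) ^ 2 + (y * ε / 3) ^ 2)⁻¹ := by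
      rw [← mul_inv]
      congr 1
      field_simp
      ring
    rw [mul_assoc, e5, ← div_eq_mul_inv]
    exact div_le_div₀ (by positivity) e1 e4 e3
  · positivity

/-- OP09b. PROOF. On the interval P09_wt and P08_norm with `x ≥ y/2`: integrand `≤ e² W(y) /((x-y)² + y²ε²/6)`, and `∫_ℝ dx/((x-y)² + a²) = π/a` with `a = yε/√6 ≥ yε/3` (`integral_univ_inv_one_add_sq`, scaling and translation), `π/a ≤ 3π/(yε)`.
The integrand on the left is bounded and measurable with support in a bounded interval (continuous on `(y-Δ,y+Δ)`), so it is integrable; both parts of the statement are needed. -/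
theorem P09_int (y Δ ω ε : ℝ) (hy : 0 < y) (hΔ : 0 < Δ) (h1 : 2 * Δ ≤ y) (h2 : 2 * Δ ≤ y ^ 2) (h3 : Δ ≤ 1) (hω : 0 ≤ ω) (hω1 : ω ≤ 1)
    (hε : 0 < ε) (hε1 : ε ≤ 1) :
    IntegrableOn (fun x : ℝ => if |x - y| < Δ then Wt 1 ω x / ‖(x : ℂ) * exp (-(ε * I)) - (y : ℂ)‖ ^ 2 else 0) (Ioi 0) ∧
    (∫ x in Ioi (0 : ℝ), if |x - y| < Δ then Wt 1 ω x / ‖(x : ℂ) * exp (-(ε * I)) - (y : ℂ)‖ ^ 2 else 0) ≤
      Real.exp 2 * Wt 1 ω y * (3 * Real.pi / (y * ε)) := by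
  have hW : 0 < Wt 1 ω y := Real.exp_pos _
  have ha : 0 < y * ε / 3 := by positivity
  have hg : Integrable (fun x : ℝ =>
      Real.exp 2 * Wt 1 ω y * ((y * ε / 3) ^ 2)⁻¹ * (1 + ((x - y) / (y * ε / 3)) ^ 2)⁻¹) := by
    have h4 := (integrable_inv_one_add_sq.comp_div ha.ne').comp_sub_right y
    exact h4.const_mul _
  have hgi : ∫ x : ℝ, Real.exp 2 * Wt 1 ω y * ((y * ε / 3) ^ 2)⁻¹ * (1 + ((x - y) / (y * ε / 3)) ^ 2)⁻¹ =
      Real.exp 2 * Wt 1 ω y * (3 * Real.pi / (y * ε)) := by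
    rw [integral_const_mul,
      integral_sub_right_eq_self (fun x : ℝ => (1 + (x / (y * ε / 3)) ^ 2)⁻¹) y,
      Measure.integral_comp_div (fun x : ℝ => (1 + x ^ 2)⁻¹) (y * ε / 3),
      integral_univ_inv_one_add_sq, abs_of_pos ha, smul_eq_mul]
    field_simp
  have hmeas : Measurable (fun x : ℝ => if |x - y| < Δ then
      Wt 1 ω x / ‖(x : ℂ) * exp (-(ε * I)) - (y : ℂ)‖ ^ 2 else 0) := by
    refine Measurable.ite ?_ ?_ measurable_const
    · exact measurableSet_lt (by fun_prop) measurable_const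
    · unfold Wt
      refine Measurable.div ?_ ?_
      · exact Real.measurable_exp.comp (((measurable_const.div measurable_id).neg).sub
          (measurable_const.mul measurable_id))
      · fun_prop
  have hnn : ∀ x : ℝ, 0 ≤ (if |x - y| < Δ then
      Wt 1 ω x / ‖(x : ℂ) * exp (-(ε * I)) - (y : ℂ)‖ ^ 2 else 0) := by
    intro x
    split_ifs
    · exact div_nonneg (Real.exp_pos _).le (by positivity)
    · exact le_rfl
  have hint : IntegrableOn (fun x : ℝ => if |x - y| < Δ then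
      Wt 1 ω x / ‖(x : ℂ) * exp (-(ε * I)) - (y : ℂ)‖ ^ 2 else 0) (Ioi 0) := by
    refine Integrable.mono' hg.integrableOn hmeas.aestronglyMeasurable ?_
    refine ae_restrict_of_forall_mem measurableSet_Ioi fun x hx => ?_
    rw [Real.norm_of_nonneg (hnn x)]
    exact P09_aux_bound y Δ ω ε x hy h1 h2 h3 hω hω1 hε hε1 hx
  refine ⟨hint, ?_⟩
  rw [← hgi]
  refine (setIntegral_mono_on hint hg.integrableOn measurableSet_Ioi fun x hx =>
    P09_aux_bound y Δ ω ε x hy h1 h2 h3 hω hω1 hε hε1 hx).trans ?_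
  exact setIntegral_le_integral hg (Eventually.of_forall fun x => by positivity)

end OO

end

section

/-!
# Row OP13: integration of the pointwise bound
-/

open Complex MeasureTheory Set Filter Topology

namespace OO

/-- OP13a. `exp(-1/x) (1 + 1/x)² ≤ 4` (`exp t ≥ 1 + t + t²/2`, so `(1+t)² ≤ 2 exp t`). -/
theorem P13_wt (ω x : ℝ) (hω : 0 ≤ ω) (hx : 0 < x) : Wt 1 ω x * (1 + 1 / x) ^ 2 ≤ 4 ∧ Wt 1 ω x ≤ 1 ∧ Wt 1 ω x ≤ Real.exp (-(ω * x)) ∧ 0 ≤ Wt 1 ω x := by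
  have ht : 0 < 1 / x := by positivity
  have hwx : 0 ≤ ω * x := by positivity
  refine ⟨?_, ?_, ?_, ?_⟩
  · have h1 := Real.quadratic_le_exp_of_nonneg ht.le
    have h2 : Wt 1 ω x ≤ Real.exp (-(1 / x)) := by
      unfold Wt
      exact Real.exp_le_exp.mpr (by linarith only [hwx])
    have h3 : (1 + 1 / x) ^ 2 ≤ 2 * Real.exp (1 / x) := by
      have h4 : (1 + 1 / x) ^ 2 = 1 + 2 * (1 / x) + (1 / x) ^ 2 := by ring
      rw [h4]
      linarith only [h1]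
    calc Wt 1 ω x * (1 + 1 / x) ^ 2 ≤ Real.exp (-(1 / x)) * (2 * Real.exp (1 / x)) :=
          mul_le_mul h2 h3 (by positivity) (Real.exp_pos _).le
      _ = 2 * (Real.exp (-(1 / x)) * Real.exp (1 / x)) := by ring
      _ = 2 := by rw [← Real.exp_add]; simp
      _ ≤ 4 := by norm_num
  · unfold Wt
    exact Real.exp_le_one_iff.mpr (by linarith only [hwx, ht])
  · unfold Wt
    exact Real.exp_le_exp.mpr (by linarith only [ht])
  · unfold Wt
    positivity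

/-- OP13b. PROOF. For `0 < x ≤ X1`: `‖G x‖² ≤ 2 ‖κ‖² ‖S x‖² + 2 (E (1 + 1/x))²`, `‖S x‖²` by P08_split (`N ≥ ∑ ‖c j‖`), so with `W = Wt 1 ω x ≤ 1`, P13_wt:
`W ‖G‖² ≤ 4 ‖κ‖² (N/Δ)² + 8 E² + 4 ‖κ‖² ∑_(y₀) ‖C(y₀)‖² [|x - y₀| < Δ] W/‖x e^(-iε) - y₀‖²`. For `x > X1 ≥ 1`: `W ‖G‖² ≤ exp(-ω x) D²`. The function on the right (indicator of `(0,X1]` times a constant, plus the finite sum, plus indicator of `(X1,∞)` times
`exp(-ωx) D²`) is integrable on `(0,∞)` (P09_int), and `∫ W ‖G‖² ≤` its integral (`integral_mono_of_nonneg`; no integrability of `G` is needed):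
`X1 (4‖κ‖²(N/Δ)² + 8E²) + 4‖κ‖² ∑ ‖C(y₀)‖² e² W(y₀) 3π/(y₀ ε) + D² exp(-ωX1)/ω`. -/
theorem P13_main {ι : Type} (J : Finset ι) (y : ι → ℝ) (c : ι → ℂ) (G : ℝ → ℂ) (κ : ℂ) (Δ ε ω X1 E D N : ℝ) (hy : ∀ j ∈ J, 0 < y j)
    (hΔ : 0 < Δ) (hsep : ∀ i ∈ J, ∀ j ∈ J, y i ≠ y j → 2 * Δ ≤ |y i - y j|) (h1 : ∀ j ∈ J, 2 * Δ ≤ y j) (h2 : ∀ j ∈ J, 2 * Δ ≤ y j ^ 2)
    (h3 : Δ ≤ 1) (hω : 0 < ω) (hω1 : ω ≤ 1) (hε : 0 < ε) (hε1 : ε ≤ 1) (hX1 : 1 ≤ X1) (hE : 0 ≤ E) (hD : 0 ≤ D)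
    (hN : ∑ j ∈ J, ‖c j‖ ≤ N)
    (hG1 : ∀ x : ℝ, 0 < x → x ≤ X1 → ‖G x - κ * ∑ j ∈ J, c j / ((x : ℂ) * exp (-(ε * I)) - (y j : ℂ))‖ ≤ E * (1 + 1 / x))
    (hG2 : ∀ x : ℝ, X1 < x → ‖G x‖ ≤ D) :
    (∫ x in Ioi (0 : ℝ), Wt 1 ω x * ‖G x‖ ^ 2) ≤
      X1 * (4 * ‖κ‖ ^ 2 * (N / Δ) ^ 2 + 8 * E ^ 2) + D ^ 2 * (Real.exp (-(ω * X1)) / ω) +
      4 * ‖κ‖ ^ 2 * (∑ y₀ ∈ J.image y, ‖∑ j ∈ J.filter (fun j => y j = y₀), c j‖ ^ 2 * (Real.exp 2 * Wt 1 ω y₀ * (3 * Real.pi / (y₀ * ε)))) := by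
  set K1 : ℝ := 4 * ‖κ‖ ^ 2 * (N / Δ) ^ 2 + 8 * E ^ 2 with hK1
  have hK10 : 0 ≤ K1 := by positivity
  set a : ℝ → ℝ := fun y₀ => ‖∑ j ∈ J.filter (fun j => y j = y₀), c j‖ ^ 2 with ha
  have ha0 : ∀ y₀, 0 ≤ a y₀ := fun y₀ => by rw [ha]; positivity
  set f : ℝ → ℝ → ℝ := fun y₀ x =>
    if |x - y₀| < Δ then Wt 1 ω x / ‖(x : ℂ) * exp (-(ε * I)) - (y₀ : ℂ)‖ ^ 2 else 0 with hf
  have hWt0 : ∀ x : ℝ, 0 ≤ Wt 1 ω x := fun x => by unfold Wt; positivity
  have hf0 : ∀ y₀ x, 0 ≤ f y₀ x := by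
    intro y₀ x
    rw [hf]
    simp only
    split_ifs
    · exact div_nonneg (hWt0 x) (by positivity)
    · exact le_rfl
  have hfint : ∀ y₀ ∈ J.image y, IntegrableOn (f y₀) (Ioi 0) ∧
      (∫ x in Ioi (0 : ℝ), f y₀ x) ≤ Real.exp 2 * Wt 1 ω y₀ * (3 * Real.pi / (y₀ * ε)) := by
    intro y₀ hy₀
    obtain ⟨j, hj, rfl⟩ := Finset.mem_image.mp hy₀
    exact P09_int (y j) Δ ω ε (hy j hj) hΔ (h1 j hj) (h2 j hj) h3 hω.le hω1 hε hε1
  set g1 : ℝ → ℝ := (Ioc (0 : ℝ) X1).indicator fun _ => K1 with hg1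
  set g2 : ℝ → ℝ := fun x => ∑ y₀ ∈ J.image y, 4 * ‖κ‖ ^ 2 * a y₀ * f y₀ x with hg2
  set g3 : ℝ → ℝ := (Ioi X1).indicator fun x => D ^ 2 * Real.exp (-ω * x) with hg3
  have hX0 : 0 ≤ X1 := zero_le_one.trans hX1
  have hsub : Ioi X1 ⊆ Ioi (0 : ℝ) := Ioi_subset_Ioi hX0
  have hsub2 : Ioc (0 : ℝ) X1 ⊆ Ioi (0 : ℝ) := fun x hx => hx.1
  have i1 : IntegrableOn g1 (Ioi 0) := by
    rw [hg1]
    have h : IntegrableOn (fun _ : ℝ => K1) (Ioc (0 : ℝ) X1) := integrableOn_const (by simp)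
    exact ((integrable_indicator_iff measurableSet_Ioc).mpr h).integrableOn
  have i2 : IntegrableOn g2 (Ioi 0) := by
    rw [hg2]
    exact integrable_finsetSum _ fun y₀ hy₀ => (hfint y₀ hy₀).1.const_mul _
  have i3 : IntegrableOn g3 (Ioi 0) := by
    rw [hg3]
    have h : IntegrableOn (fun x : ℝ => D ^ 2 * Real.exp (-ω * x)) (Ioi X1) :=
      (exp_neg_integrableOn_Ioi X1 hω).const_mul _
    exact ((integrable_indicator_iff measurableSet_Ioi).mpr h).integrableOn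
  have e1 : (∫ x in Ioi (0 : ℝ), g1 x) = X1 * K1 := by
    rw [hg1, setIntegral_indicator measurableSet_Ioc, inter_eq_self_of_subset_right hsub2,
      setIntegral_const]
    simp [hX0, Measure.real]
  have e2 : (∫ x in Ioi (0 : ℝ), g2 x) ≤ 4 * ‖κ‖ ^ 2 * (∑ y₀ ∈ J.image y,
      a y₀ * (Real.exp 2 * Wt 1 ω y₀ * (3 * Real.pi / (y₀ * ε)))) := by
    rw [hg2, integral_finsetSum _ fun y₀ hy₀ => (hfint y₀ hy₀).1.const_mul _, Finset.mul_sum]
    refine Finset.sum_le_sum fun y₀ hy₀ => ?_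
    rw [integral_const_mul, mul_assoc]
    exact mul_le_mul_of_nonneg_left (mul_le_mul_of_nonneg_left (hfint y₀ hy₀).2 (ha0 y₀)) (by positivity)
  have e3 : (∫ x in Ioi (0 : ℝ), g3 x) = D ^ 2 * (Real.exp (-(ω * X1)) / ω) := by
    rw [hg3, setIntegral_indicator measurableSet_Ioi, inter_eq_self_of_subset_right hsub,
      integral_const_mul, integral_exp_mul_Ioi (neg_neg_of_pos hω)]
    congr 1
    rw [neg_div_neg_eq, neg_mul]
  have hmain : (∫ x in Ioi (0 : ℝ), Wt 1 ω x * ‖G x‖ ^ 2) ≤ ∫ x in Ioi (0 : ℝ), (g1 x + g2 x + g3 x) := by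
    refine integral_mono_of_nonneg ?_ ((i1.add i2).add i3) ?_
    · exact Eventually.of_forall fun x => mul_nonneg (hWt0 x) (by positivity)
    · refine (ae_restrict_iff' measurableSet_Ioi).mpr (Eventually.of_forall fun x hx => ?_)
      have hx0 : 0 < x := hx
      obtain ⟨w1, w2, w3, w4⟩ := P13_wt ω x hω.le hx0
      have hg20 : 0 ≤ g2 x := by
        rw [hg2]
        exact Finset.sum_nonneg fun y₀ _ => mul_nonneg (mul_nonneg (by positivity) (ha0 y₀)) (hf0 y₀ x)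
      show Wt 1 ω x * ‖G x‖ ^ 2 ≤ g1 x + g2 x + g3 x
      rcases le_or_gt x X1 with hxX | hxX
      · have hg1x : g1 x = K1 := by
          rw [hg1]
          exact indicator_of_mem (show x ∈ Ioc (0 : ℝ) X1 from ⟨hx0, hxX⟩) _
        have hg3x : g3 x = 0 := by
          rw [hg3]
          exact indicator_of_notMem (fun h => absurd h (not_lt.mpr hxX)) _
        rw [hg1x, hg3x, add_zero]
        set S : ℂ := ∑ j ∈ J, c j / ((x : ℂ) * exp (-(ε * I)) - (y j : ℂ)) with hS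
        have hsplit := P08_split J y c Δ x ε hy hΔ hsep hx0 hε hε1
        rw [← hS] at hsplit
        have hG : ‖G x‖ ≤ ‖κ‖ * ‖S‖ + E * (1 + 1 / x) := by
          have h4 : ‖G x‖ ≤ ‖G x - κ * S‖ + ‖κ * S‖ := by
            calc ‖G x‖ = ‖(G x - κ * S) + κ * S‖ := by rw [sub_add_cancel]
              _ ≤ _ := norm_add_le _ _
          rw [norm_mul] at h4
          linarith only [h4, hG1 x hx0 hxX]
        have hG2' : ‖G x‖ ^ 2 ≤ 2 * ‖κ‖ ^ 2 * ‖S‖ ^ 2 + 2 * E ^ 2 * (1 + 1 / x) ^ 2 := by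
          have h5 : ‖G x‖ ^ 2 ≤ (‖κ‖ * ‖S‖ + E * (1 + 1 / x)) ^ 2 :=
            pow_le_pow_left₀ (norm_nonneg _) hG 2
          linarith only [h5, sq_nonneg (‖κ‖ * ‖S‖ - E * (1 + 1 / x))]
        have hN0 : 0 ≤ ∑ j ∈ J, ‖c j‖ := Finset.sum_nonneg fun j _ => norm_nonneg _
        have hND : ((∑ j ∈ J, ‖c j‖) / Δ) ^ 2 ≤ (N / Δ) ^ 2 := by
          apply pow_le_pow_left₀ (by positivity)
          rw [div_le_div_iff_of_pos_right hΔ]
          exact hN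
        have hsum : Wt 1 ω x * (∑ y₀ ∈ J.image y, if |x - y₀| < Δ then
            ‖∑ j ∈ J.filter (fun j => y j = y₀), c j‖ ^ 2 / ‖(x : ℂ) * exp (-(ε * I)) - (y₀ : ℂ)‖ ^ 2 else 0) =
            ∑ y₀ ∈ J.image y, a y₀ * f y₀ x := by
          rw [Finset.mul_sum]
          refine Finset.sum_congr rfl fun y₀ _ => ?_
          rw [ha, hf]
          simp only
          split_ifs
          · ring
          · ring
        set Q : ℝ := ∑ y₀ ∈ J.image y, if |x - y₀| < Δ then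
            ‖∑ j ∈ J.filter (fun j => y j = y₀), c j‖ ^ 2 / ‖(x : ℂ) * exp (-(ε * I)) - (y₀ : ℂ)‖ ^ 2 else 0 with hQ
        have hg2x : g2 x = 4 * ‖κ‖ ^ 2 * (Wt 1 ω x * Q) := by
          rw [hsum, hg2, Finset.mul_sum]
          refine Finset.sum_congr rfl fun y₀ _ => ?_
          ring
        rw [hg2x, hK1]
        have hS2 : ‖S‖ ^ 2 ≤ 2 * (N / Δ) ^ 2 + 2 * Q := hsplit.trans (by linarith only [hND])
        have t1 : Wt 1 ω x * ‖G x‖ ^ 2 ≤
            Wt 1 ω x * (2 * ‖κ‖ ^ 2 * (2 * (N / Δ) ^ 2 + 2 * Q) + 2 * E ^ 2 * (1 + 1 / x) ^ 2) := by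
          refine mul_le_mul_of_nonneg_left (hG2'.trans ?_) w4
          have := mul_le_mul_of_nonneg_left hS2 (by positivity : 0 ≤ 2 * ‖κ‖ ^ 2)
          linarith only [this]
        have t2 : Wt 1 ω x * (4 * ‖κ‖ ^ 2 * (N / Δ) ^ 2) ≤ 1 * (4 * ‖κ‖ ^ 2 * (N / Δ) ^ 2) :=
          mul_le_mul_of_nonneg_right w2 (by positivity)
        have t3 : 2 * E ^ 2 * (Wt 1 ω x * (1 + 1 / x) ^ 2) ≤ 2 * E ^ 2 * 4 :=
          mul_le_mul_of_nonneg_left w1 (by positivity)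
        calc Wt 1 ω x * ‖G x‖ ^ 2 ≤ _ := t1
          _ = Wt 1 ω x * (4 * ‖κ‖ ^ 2 * (N / Δ) ^ 2) + 4 * ‖κ‖ ^ 2 * (Wt 1 ω x * Q) +
              2 * E ^ 2 * (Wt 1 ω x * (1 + 1 / x) ^ 2) := by ring
          _ ≤ _ := by linarith only [t2, t3]
      · have hg1x : g1 x = 0 := by
          rw [hg1]
          exact indicator_of_notMem (fun h => absurd h.2 (not_le.mpr hxX)) _
        have hg3x : g3 x = D ^ 2 * Real.exp (-ω * x) := by
          rw [hg3]
          exact indicator_of_mem (show x ∈ Ioi X1 from hxX) _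
        rw [hg1x, hg3x, zero_add]
        have h6 : Wt 1 ω x * ‖G x‖ ^ 2 ≤ Real.exp (-(ω * x)) * D ^ 2 :=
          mul_le_mul w3 (pow_le_pow_left₀ (norm_nonneg _) (hG2 x hxX) 2) (by positivity) (Real.exp_pos _).le
        rw [neg_mul]
        linarith only [h6, hg20]
  refine hmain.trans ?_
  have h12 : (∫ x in Ioi (0 : ℝ), (g1 x + g2 x + g3 x)) =
      (∫ x in Ioi (0 : ℝ), g1 x) + (∫ x in Ioi (0 : ℝ), g2 x) + ∫ x in Ioi (0 : ℝ), g3 x := by
    have h13 : (∫ x in Ioi (0 : ℝ), (g1 x + g2 x + g3 x)) =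
        (∫ x in Ioi (0 : ℝ), (g1 x + g2 x)) + ∫ x in Ioi (0 : ℝ), g3 x := integral_add (i1.add i2) i3
    rw [h13, integral_add i1 i2]
  rw [h12, e1, e3]
  linarith only [e2]

end OO

end
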