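import Pool.Agent.Lib.MP_0f5a55_nt.OM.K000
import Pool.Agent.Lib.MP_0f5a55_nt.OM.K006
import Pool.Agent.Lib.MP_0f5a55_nt.OM.K025

section

/-!
# Row P3e: a beta integral (Fubini), Mathlib only
-/

open Complex MeasureTheory Set Filter Topology
open scoped ComplexConjugate

namespace OO

theorem P3e_aux_intg {s : ℂ} (hs : 0 < s.re) {W : ℂ} (hW : 0 < W.re) :
    IntegrableOn (fun x : ℝ => (x : ℂ) ^ (s - 1) * cexp (-(W * x))) (Ioi 0) := by
  have h1 : IntegrableOn (fun x : ℝ => x ^ (s.re - 1) * Real.exp (-W.re * x ^ (1:ℝ))) (Ioi 0) :=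
    integrableOn_rpow_mul_exp_neg_mul_rpow (by linarith) one_pos hW
  refine Integrable.mono' h1 ?_ ?_
  · refine ContinuousOn.aestronglyMeasurable (fun x hx => ?_) measurableSet_Ioi
    exact ((continuousAt_ofReal_cpow_const x (s - 1) (Or.inr (ne_of_gt hx))).mul
      (by fun_prop)).continuousWithinAt
  · refine (ae_restrict_mem measurableSet_Ioi).mono (fun x hx => ?_)
    have hx : 0 < x := hx
    rw [norm_mul, norm_cpow_eq_rpow_re_of_pos hx, norm_exp]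
    simp

theorem P3e_aux_int {s : ℂ} (hs : 0 < s.re) {W : ℂ} (hW : 0 < W.re) :
    ∫ x in Ioi (0:ℝ), (x:ℂ) ^ (s - 1) * cexp (-(W * x)) = W ^ (-s) * Gamma s := by
  set U : Set ℂ := {W | 0 < W.re} with hU
  have hUo : IsOpen U := isOpen_lt continuous_const continuous_re
  have hUc : IsPreconnected U := (convex_halfSpace_re_gt 0).isPreconnected
  have hf : AnalyticOnNhd ℂ (fun W : ℂ => ∫ x in Ioi (0:ℝ), (x:ℂ) ^ (s - 1) * cexp (-(W * x))) U := by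
    refine DifferentiableOn.analyticOnNhd (fun W0 hW0 => ?_) hUo
    have hW0 : 0 < W0.re := hW0
    have hb : Metric.ball W0 (W0.re / 2) ∈ 𝓝 W0 := Metric.ball_mem_nhds _ (by linarith)
    have key := hasDerivAt_integral_of_dominated_loc_of_deriv_le
      (μ := volume.restrict (Ioi (0:ℝ))) (x₀ := W0)
      (F := fun (W : ℂ) (x : ℝ) => (x:ℂ) ^ (s - 1) * cexp (-(W * x)))
      (F' := fun (W : ℂ) (x : ℝ) => (x:ℂ) ^ (s - 1) * (cexp (-(W * x)) * (-x)))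
      (bound := fun x : ℝ => x ^ s.re * Real.exp (-(W0.re / 2) * x ^ (1:ℝ))) hb ?_ ?_ ?_ ?_ ?_ ?_
    · exact key.2.differentiableAt.differentiableWithinAt
    · filter_upwards [hUo.mem_nhds hW0] with W hW
      exact (P3e_aux_intg hs hW).aestronglyMeasurable
    · exact P3e_aux_intg hs hW0
    · refine ContinuousOn.aestronglyMeasurable (fun x hx => ?_) measurableSet_Ioi
      exact ((continuousAt_ofReal_cpow_const x (s - 1) (Or.inr (ne_of_gt hx))).mul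
        (by fun_prop)).continuousWithinAt
    · refine (ae_restrict_mem measurableSet_Ioi).mono (fun x hx W hW => ?_)
      have hx : 0 < x := hx
      rw [norm_mul, norm_cpow_eq_rpow_re_of_pos hx, norm_mul, norm_exp]
      have h1 : W0.re / 2 ≤ W.re := by
        have := abs_re_le_norm (W - W0)
        rw [Metric.mem_ball, dist_eq] at hW
        have h2 := abs_le.mp (this.trans hW.le)
        simp at h2
        linarith [h2.1]
      have h2 : x ^ s.re = x ^ (s.re - 1) * x := by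
        rw [← Real.rpow_add_one hx.ne']; ring_nf
      have h3 : (-(W * (x:ℂ))).re ≤ -(W0.re / 2) * x ^ (1:ℝ) := by
        simp
        nlinarith
      have h4 := Real.exp_le_exp.mpr h3
      have h5 : ‖-(x:ℂ)‖ = x := by rw [norm_neg, norm_real, Real.norm_of_nonneg hx.le]
      rw [h5, h2]
      have h6 : (s - 1).re = s.re - 1 := by simp
      rw [h6]
      calc x ^ (s.re - 1) * (Real.exp (-(W * (x:ℂ))).re * x) = x ^ (s.re - 1) * x * Real.exp (-(W * (x:ℂ))).re := by ring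
        _ ≤ _ := by gcongr
    · exact integrableOn_rpow_mul_exp_neg_mul_rpow (by linarith) one_pos (by linarith)
    · refine Eventually.of_forall (fun x W _ => ?_)
      have : HasDerivAt (fun W : ℂ => -(W * (x:ℂ))) (-(1 * (x:ℂ))) W := ((hasDerivAt_id W).mul_const _).neg
      simp only [one_mul] at this
      exact this.cexp.const_mul _
  have hg : AnalyticOnNhd ℂ (fun W : ℂ => W ^ (-s) * Gamma s) U := by
    refine DifferentiableOn.analyticOnNhd (fun W0 hW0 => ?_) hUo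
    have hW0 : 0 < W0.re := hW0
    have : W0 ∈ slitPlane := Or.inl hW0
    exact ((differentiableAt_id.cpow_const this).mul_const _).differentiableWithinAt
  have h1U : (1:ℂ) ∈ U := by simp [hU]
  have hfreq : ∃ᶠ z in 𝓝[≠] (1:ℂ), (fun W : ℂ => ∫ x in Ioi (0:ℝ), (x:ℂ) ^ (s - 1) * cexp (-(W * x))) z
      = (fun W : ℂ => W ^ (-s) * Gamma s) z := by
    have ht : Tendsto (fun r : ℝ => (r : ℂ)) (𝓝[≠] (1:ℝ)) (𝓝[≠] (1:ℂ)) := by
      refine tendsto_nhdsWithin_iff.mpr ⟨?_, ?_⟩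
      · exact (continuous_ofReal.tendsto 1).mono_left nhdsWithin_le_nhds |>.congr (fun _ => rfl)
      · refine eventually_mem_nhdsWithin.mono (fun r hr => ?_)
        intro h
        exact hr (by simpa using h)
    refine ht.frequently (Eventually.frequently ?_)
    have hpos : ∀ᶠ r : ℝ in 𝓝[≠] (1:ℝ), 0 < r :=
      nhdsWithin_le_nhds (lt_mem_nhds one_pos)
    refine hpos.mono (fun r hr => ?_)
    have := integral_cpow_mul_exp_neg_mul_Ioi (a := s) (r := r) hs hr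
    simp only
    rw [this, one_div, inv_cpow _ _ (by rw [arg_ofReal_of_nonneg hr.le]; exact Real.pi_pos.ne), cpow_neg]
  exact hf.eqOn_of_preconnected_of_frequently_eq hg hUc h1U hfreq hW

/-- PROOF. Integrable: `‖x^(iy)/(x+ζ)²‖ ≤ 1/(x+ζ.re)²`, continuous on `(0,∞)` (`integrableOn_Ioi_rpow_of_lt` shifted, or `integrable_inv_one_add_sq`: `(x+ξ)² ≥ min(1,ξ²)(1+x²)/2`...). Value: `1/(x+ζ)² = ∫_(t>0) t exp(-t(x+ζ)) dt`
(`Complex.integral_cpow_mul_exp_neg_mul_Ioi` with `a = 2`, `r = x + ζ`), Fubini (`integral_integral_swap`; integrable on the product since `∫∫ t exp(-tx) exp(-tξ) dx dt = ∫ exp(-tξ) dt`: `integrable_prod_iff'`), the inner integral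
`∫ x^(iy) exp(-tx) dx = t^(-1-iy) Γ(1+iy)` (the same theorem with `a = 1+iy`, `r = t`), then `∫ t^(-iy) exp(-tζ) dt = (1/ζ)^(1-iy) Γ(1-iy)`, and `(1/ζ)^(1-iy) = ζ^(iy-1)` (`Complex.inv_cpow`, `arg ζ ≠ π`, `cpow_neg`). -/
theorem P3_beta (y : ℝ) (ζ : ℂ) (hζ : 0 < ζ.re) :
    IntegrableOn (fun x : ℝ => (x : ℂ) ^ ((y : ℂ) * I) / (x + ζ) ^ 2) (Ioi 0) ∧
    ∫ x in Ioi (0 : ℝ), (x : ℂ) ^ ((y : ℂ) * I) / (x + ζ) ^ 2 =
      Gamma (1 + (y : ℂ) * I) * Gamma (1 - (y : ℂ) * I) * ζ ^ ((y : ℂ) * I - 1) := by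
  have hn : ∀ x : ℝ, 0 < x → ‖(x : ℂ) ^ ((y : ℂ) * I)‖ = 1 := by
    intro x hx
    rw [norm_cpow_eq_rpow_re_of_pos hx]; simp
  have hne : ∀ x : ℝ, 0 ≤ x → (x : ℂ) + ζ ≠ 0 := by
    intro x hx h
    have := congrArg Complex.re h
    simp at this; linarith
  have hint1 : IntegrableOn (fun x : ℝ => (x + ζ.re) ^ (-2 : ℝ)) (Ioi 0) :=
    integrableOn_add_rpow_Ioi_of_lt (by norm_num) (by linarith)
  have hI : IntegrableOn (fun x : ℝ => (x : ℂ) ^ ((y : ℂ) * I) / (x + ζ) ^ 2) (Ioi 0) := by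
    refine Integrable.mono' hint1 ?_ ?_
    · refine ContinuousOn.aestronglyMeasurable (fun x hx => ?_) measurableSet_Ioi
      exact ((continuousAt_ofReal_cpow_const x _ (Or.inr (ne_of_gt hx))).div (by fun_prop)
        (pow_ne_zero 2 (hne x (le_of_lt hx)))).continuousWithinAt
    · refine (ae_restrict_mem measurableSet_Ioi).mono (fun x hx => ?_)
      have hx : 0 < x := hx
      rw [norm_div, hn x hx, norm_pow]
      have h2 : x + ζ.re ≤ ‖(x : ℂ) + ζ‖ := by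
        have := re_le_norm ((x:ℂ) + ζ); simpa using this
      rw [Real.rpow_neg (by linarith), Real.rpow_two, one_div]
      have h3 : 0 < x + ζ.re := by linarith
      gcongr
  refine ⟨hI, ?_⟩
  set F : ℝ → ℝ → ℂ := fun x t =>
    (x : ℂ) ^ ((y : ℂ) * I) * ((t : ℂ) ^ ((2:ℂ) - 1) * cexp (-(((x:ℂ) + ζ) * t))) with hF
  have hFn : ∀ x t : ℝ, 0 < x → 0 < t → ‖F x t‖ = t ^ ((2:ℝ) - 1) * Real.exp (-((x + ζ.re) * t)) := by
    intro x t hx ht
    simp only [hF]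
    rw [norm_mul, hn x hx, one_mul, norm_mul, norm_cpow_eq_rpow_re_of_pos ht, norm_exp]
    simp
  have hprod : Integrable (Function.uncurry F)
      ((volume.restrict (Ioi (0:ℝ))).prod (volume.restrict (Ioi (0:ℝ)))) := by
    have hm : AEStronglyMeasurable (Function.uncurry F)
        ((volume.restrict (Ioi (0:ℝ))).prod (volume.restrict (Ioi (0:ℝ)))) := by
      rw [Measure.prod_restrict]
      refine ContinuousOn.aestronglyMeasurable (fun p hp => ?_)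
        (measurableSet_Ioi.prod measurableSet_Ioi)
      obtain ⟨h1, h2⟩ := hp
      have c1 : ContinuousAt (fun p : ℝ × ℝ => (p.1 : ℂ) ^ ((y : ℂ) * I)) p :=
        (continuousAt_ofReal_cpow_const p.1 _ (Or.inr (ne_of_gt h1))).comp continuousAt_fst
      have c2 : ContinuousAt (fun p : ℝ × ℝ => (p.2 : ℂ) ^ ((2:ℂ) - 1)) p :=
        (continuousAt_ofReal_cpow_const p.2 _ (Or.inr (ne_of_gt h2))).comp continuousAt_snd
      exact (c1.mul (c2.mul (by fun_prop))).continuousWithinAt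
    rw [integrable_prod_iff hm]
    refine ⟨?_, ?_⟩
    · refine (ae_restrict_mem measurableSet_Ioi).mono (fun x hx => ?_)
      have hx : 0 < x := hx
      have h9 := (P3e_aux_intg (s := 2) (by norm_num) (W := (x:ℂ) + ζ) (by simp; linarith)).const_mul
        ((x : ℂ) ^ ((y : ℂ) * I))
      exact h9
    · refine hint1.congr ?_
      refine (ae_restrict_mem measurableSet_Ioi).mono (fun x hx => ?_)
      have hx : 0 < x := hx
      have e1 : ∫ t in Ioi (0:ℝ), ‖Function.uncurry F (x, t)‖ =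
          ∫ t in Ioi (0:ℝ), t ^ ((2:ℝ) - 1) * Real.exp (-((x + ζ.re) * t)) :=
        setIntegral_congr_fun measurableSet_Ioi (fun t ht => hFn x t hx ht)
      simp only
      rw [e1, Real.integral_rpow_mul_exp_neg_mul_Ioi (by norm_num) (by linarith)]
      have h3 : 0 < x + ζ.re := by linarith
      rw [Real.Gamma_two, mul_one, Real.rpow_neg h3.le, one_div, Real.inv_rpow h3.le]
  have hsw := integral_integral_swap hprod
  have hL : ∫ x in Ioi (0:ℝ), ∫ t in Ioi (0:ℝ), F x t =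
      ∫ x in Ioi (0 : ℝ), (x : ℂ) ^ ((y : ℂ) * I) / (x + ζ) ^ 2 := by
    refine setIntegral_congr_fun measurableSet_Ioi (fun x hx => ?_)
    have hx : 0 < x := hx
    simp only [hF]
    have hG2 : Gamma 2 = 1 := by
      have := Complex.Gamma_add_one 1 one_ne_zero
      rw [Complex.Gamma_one, mul_one] at this
      rw [← this]; norm_num
    rw [integral_const_mul, P3e_aux_int (by norm_num) (by simp; linarith), hG2,
      mul_one, cpow_neg, div_eq_mul_inv]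
    congr 2
    exact cpow_ofNat _ 2
  have hR : ∫ t in Ioi (0:ℝ), ∫ x in Ioi (0:ℝ), F x t =
      Gamma (1 + (y : ℂ) * I) * Gamma (1 - (y : ℂ) * I) * ζ ^ ((y : ℂ) * I - 1) := by
    have e1 : ∫ t in Ioi (0:ℝ), ∫ x in Ioi (0:ℝ), F x t =
        ∫ t in Ioi (0:ℝ), Gamma (1 + (y : ℂ) * I) *
          ((t : ℂ) ^ ((1 - (y : ℂ) * I) - 1) * cexp (-(ζ * t))) := by
      refine setIntegral_congr_fun measurableSet_Ioi (fun t ht => ?_)
      have ht : 0 < t := ht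
      have htc : (t : ℂ) ≠ 0 := by exact_mod_cast ht.ne'
      have e2 : ∀ x : ℝ, F x t = ((t : ℂ) * cexp (-(ζ * t))) *
          ((x : ℂ) ^ ((1 + (y : ℂ) * I) - 1) * cexp (-((t:ℂ) * x))) := by
        intro x
        simp only [hF]
        rw [show (2:ℂ) - 1 = 1 by norm_num, cpow_one, show (1 + (y : ℂ) * I) - 1 = (y:ℂ) * I by ring,
          show -(((x:ℂ) + ζ) * t) = -(ζ * t) + -((t:ℂ) * x) by ring, Complex.exp_add]
        ring
      simp only [e2]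
      rw [integral_const_mul, P3e_aux_int (by simp) (by simpa using ht),
        show -(1 + (y : ℂ) * I) = -1 + ((1 - (y : ℂ) * I) - 1) by ring, cpow_add _ _ htc, cpow_neg_one]
      field_simp
    rw [e1, integral_const_mul, P3e_aux_int (by simp) hζ,
      show -(1 - (y : ℂ) * I) = (y : ℂ) * I - 1 by ring]
    ring
  rw [← hL, hsw, hR]

end OO

end

section

/-!
# Row P3m: the Gamma factor
-/

open Complex MeasureTheory Set Filter Topology
open scoped ComplexConjugate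

namespace OO

theorem P3m_aux1 (y : ℝ) (hy : y ≠ 0) :
    ‖Gamma (1 - (y : ℂ) * I)‖ ^ 2 = Real.pi * y / Real.sinh (Real.pi * y) := by
  have hyI : (y : ℂ) * I ≠ 0 := by
    simp [hy]
  have h1 : ((‖Gamma (1 - (y : ℂ) * I)‖ : ℂ)) ^ 2
      = Gamma (1 - (y : ℂ) * I) * Gamma ((y : ℂ) * I + 1) := by
    rw [← Complex.mul_conj', ← Complex.Gamma_conj]
    congr 2
    simp only [map_sub, map_one, map_mul, Complex.conj_ofReal, Complex.conj_I]
    ring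
  rw [Complex.Gamma_add_one _ hyI] at h1
  have h2 := Complex.Gamma_mul_Gamma_one_sub ((y : ℂ) * I)
  have h3 : Complex.sin ((Real.pi : ℂ) * ((y : ℂ) * I))
      = (Real.sinh (Real.pi * y) : ℂ) * I := by
    rw [← mul_assoc, Complex.sin_mul_I]
    push_cast
    rfl
  rw [h3] at h2
  have h4 : ((‖Gamma (1 - (y : ℂ) * I)‖ : ℂ)) ^ 2
      = ((y : ℂ) * I) * ((Real.pi : ℂ) / ((Real.sinh (Real.pi * y) : ℂ) * I)) := by
    rw [h1, ← h2]
    ring
  have hs : Real.sinh (Real.pi * y) ≠ 0 := by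
    intro h0
    rw [Real.sinh_eq] at h0
    have h00 : Real.exp (Real.pi * y) = Real.exp (-(Real.pi * y)) := by linarith
    have h01 := Real.exp_injective h00
    exact mul_ne_zero Real.pi_ne_zero hy (by linarith)
  have h5 : ((‖Gamma (1 - (y : ℂ) * I)‖ : ℂ)) ^ 2
      = ((Real.pi * y / Real.sinh (Real.pi * y) : ℝ) : ℂ) := by
    rw [h4]
    push_cast
    have hs' : (Complex.sinh ((Real.pi : ℂ) * (y : ℂ))) ≠ 0 := by
      have := Complex.ofReal_ne_zero.2 hs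
      push_cast at this
      exact this
    field_simp
  exact_mod_cast h5

/-- PROOF. `y = 0`: both sides are `π` (`Γ(1) = 1`). `y ≠ 0`: the integral is `sinh(πy)/y` (FTC, `integral_exp_mul`..), and `‖Γ(1-iy)‖² = Γ(1-iy) conj(Γ(1-iy)) = Γ(1-iy) Γ(1+iy)` (`Complex.Gamma_conj`) `= Γ(1-iy) iy Γ(iy) = iy π/sin(πiy)
= πy/sinh(πy)` (`Complex.Gamma_add_one`, `Complex.Gamma_mul_Gamma_one_sub`, `Complex.sin_mul_I`). -/
theorem P3_gamma (y : ℝ) : ∫ t in (-(Real.pi / 2))..(Real.pi / 2), Real.exp (-(2 * y * t)) = Real.pi * S3 y := by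
  by_cases hy : y = 0
  · subst hy
    simp [S3]
  have h1 : S3 y = Real.sinh (Real.pi * y) / (Real.pi * y) := by
    unfold S3
    rw [P3m_aux1 y hy, inv_div]
  have h2 : ∫ t in (-(Real.pi / 2))..(Real.pi / 2), Real.exp (-(2 * y * t))
      = Real.sinh (Real.pi * y) / y := by
    have h3 : ∀ t : ℝ, Real.exp (-(2 * y * t)) = Real.exp ((-(2 * y)) * t) := by
      intro t
      congr 1
      ring
    simp only [h3]
    rw [intervalIntegral.integral_comp_mul_left (fun x => Real.exp x) (by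
      simpa using hy : (-(2 * y) : ℝ) ≠ 0), integral_exp, Real.sinh_eq, smul_eq_mul]
    have e1 : -(2 * y) * (Real.pi / 2) = -(Real.pi * y) := by ring
    have e2 : -(2 * y) * -(Real.pi / 2) = Real.pi * y := by ring
    rw [e1, e2]
    field_simp
    ring
  rw [h2, h1]
  have hpi := Real.pi_ne_zero
  field_simp

theorem P3_kap_norm {q : ℕ} [NeZero q] (χ : DirichletCharacter ℂ q) (y : ℝ) (h : ‖tc χ‖ ^ 2 = q) :
    ‖kap3 χ y‖ ^ 2 * S3 y * q = 1 / (4 * Real.pi ^ 2) := by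
  have hq : (q : ℝ) ≠ 0 := by exact_mod_cast NeZero.ne q
  have hG : ‖Gamma (1 - (y : ℂ) * I)‖ ≠ 0 := by
    rw [norm_ne_zero_iff]
    apply Complex.Gamma_ne_zero_of_re_pos
    simp
  have hp : ‖((2 * Real.pi : ℝ) : ℂ) ^ ((y : ℂ) * I - 1)‖ = (2 * Real.pi)⁻¹ := by
    rw [Complex.norm_cpow_eq_rpow_re_of_pos (by positivity)]
    have e : ((y : ℂ) * I - 1).re = -1 := by simp
    rw [e, Real.rpow_neg_one]
  unfold kap3 S3
  rw [norm_div, norm_mul, norm_mul, hp, Complex.norm_natCast]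
  have hpi := Real.pi_ne_zero
  have e2 : (‖tc χ‖ * ‖Gamma (1 - (y : ℂ) * I)‖ * (2 * Real.pi)⁻¹ / (q : ℝ)) ^ 2
      = ‖tc χ‖ ^ 2 * (‖Gamma (1 - (y : ℂ) * I)‖ ^ 2 * ((2 * Real.pi)⁻¹) ^ 2 / (q : ℝ) ^ 2) := by
    ring
  rw [e2, h]
  field_simp
  ring

end OO

end

section

/-!
# Row P3c2: the series G3 near its pole (elementary)
-/

open Complex MeasureTheory Set Filter Topology
open scoped ComplexConjugate

namespace OO

/-- the Taylor estimate of the docstring below: `X = exp(-θs)`, `Y = exp(-s)` -/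
private theorem P3c2_aux1 (θ : ℝ) (h0 : 0 ≤ θ) (h1 : θ ≤ 1) (s X Y : ℂ)
    (hX : ‖X - 1 + θ * s‖ ≤ ‖s‖ ^ 2) (hY1 : ‖Y - 1‖ ≤ ‖s‖) (hY2 : ‖Y - 1 + s‖ ≤ ‖s‖ ^ 2)
    (hY3 : ‖Y - 1 + s - s ^ 2 / 2‖ ≤ ‖s‖ ^ 3) :
    ‖s ^ 2 * (θ * X * (1 - Y) + X * Y) - (1 - Y) ^ 2‖ ≤ ‖s‖ ^ 4 * (6 + 3 * ‖s‖) := by
  obtain ⟨n, hn⟩ : ∃ n, n = ‖s‖ := ⟨_, rfl⟩
  rw [← hn] at hX hY1 hY2 hY3 ⊢
  have hn0 : 0 ≤ n := by rw [hn]; exact norm_nonneg _
  have hu : ‖1 - Y‖ ≤ n := by rw [norm_sub_rev]; exact hY1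
  have hθ : ‖((θ : ℝ) : ℂ) - 1‖ ≤ 1 := by
    rw [← Complex.ofReal_one, ← Complex.ofReal_sub, Complex.norm_real, Real.norm_eq_abs, abs_le]
    constructor <;> linarith only [h0, h1]
  have hθ' : ‖((θ : ℝ) : ℂ)‖ ≤ 1 := by
    rw [Complex.norm_real, Real.norm_of_nonneg h0]
    exact h1
  have e1 : s ^ 2 * (θ * X * (1 - Y) + X * Y) - (1 - Y) ^ 2 =
      s ^ 2 * (-(θ * (θ - 1) * s ^ 2) + (X - 1 + θ * s) * (1 + (θ - 1) * (1 - Y)) -
        (1 - θ * s) * ((θ - 1) * (Y - 1 + s))) - s ^ 4 / 4 +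
      (Y - 1 + s - s ^ 2 / 2) * (s - s ^ 2 / 2 + (1 - Y)) := by
    ring
  have b1 : ‖-((θ : ℂ) * (θ - 1) * s ^ 2)‖ ≤ n ^ 2 := by
    rw [norm_neg, norm_mul, norm_mul, norm_pow, ← hn]
    calc ‖(θ : ℂ)‖ * ‖(θ : ℂ) - 1‖ * n ^ 2 ≤ 1 * 1 * n ^ 2 := by gcongr
      _ = n ^ 2 := by ring
  have b2 : ‖(X - 1 + θ * s) * (1 + (θ - 1) * (1 - Y))‖ ≤ n ^ 2 * (1 + n) := by
    rw [norm_mul]
    have : ‖1 + ((θ : ℂ) - 1) * (1 - Y)‖ ≤ 1 + n := by
      calc ‖1 + ((θ : ℂ) - 1) * (1 - Y)‖ ≤ ‖(1 : ℂ)‖ + ‖((θ : ℂ) - 1) * (1 - Y)‖ :=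
            norm_add_le _ _
        _ ≤ 1 + 1 * n := by
            rw [norm_one, norm_mul]
            gcongr
        _ = 1 + n := by ring
    gcongr
  have b3 : ‖(1 - (θ : ℂ) * s) * ((θ - 1) * (Y - 1 + s))‖ ≤ (1 + n) * n ^ 2 := by
    rw [norm_mul, norm_mul]
    have h2 : ‖1 - (θ : ℂ) * s‖ ≤ 1 + n := by
      calc ‖1 - (θ : ℂ) * s‖ ≤ ‖(1 : ℂ)‖ + ‖(θ : ℂ) * s‖ := norm_sub_le _ _
        _ ≤ 1 + 1 * n := by
            rw [norm_one, norm_mul, ← hn]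
            gcongr
        _ = 1 + n := by ring
    calc ‖1 - (θ : ℂ) * s‖ * (‖(θ : ℂ) - 1‖ * ‖Y - 1 + s‖) ≤ (1 + n) * (1 * n ^ 2) := by gcongr
      _ = (1 + n) * n ^ 2 := by ring
  have b4 : ‖s ^ 4 / 4‖ ≤ n ^ 4 / 4 := by
    rw [norm_div, norm_pow, ← hn]
    have : ‖(4 : ℂ)‖ = 4 := by simp
    rw [this]
  have b5 : ‖(Y - 1 + s - s ^ 2 / 2) * (s - s ^ 2 / 2 + (1 - Y))‖ ≤
      n ^ 3 * (n + n ^ 2 / 2 + n) := by
    rw [norm_mul]
    have h2 : ‖s - s ^ 2 / 2 + (1 - Y)‖ ≤ n + n ^ 2 / 2 + n := by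
      have h3 : ‖s ^ 2 / 2‖ = n ^ 2 / 2 := by
        rw [norm_div, norm_pow, ← hn]
        have : ‖(2 : ℂ)‖ = 2 := by simp
        rw [this]
      calc ‖s - s ^ 2 / 2 + (1 - Y)‖ ≤ ‖s - s ^ 2 / 2‖ + ‖1 - Y‖ := norm_add_le _ _
        _ ≤ (‖s‖ + ‖s ^ 2 / 2‖) + n := add_le_add (norm_sub_le _ _) hu
        _ = n + n ^ 2 / 2 + n := by rw [h3, ← hn]
    gcongr
  rw [e1]
  refine (norm_add_le _ _).trans ?_
  refine (add_le_add (norm_sub_le _ _) b5).trans ?_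
  rw [norm_mul, norm_pow, ← hn]
  have b6 : ‖-((θ : ℂ) * (θ - 1) * s ^ 2) + (X - 1 + θ * s) * (1 + (θ - 1) * (1 - Y)) -
        (1 - θ * s) * ((θ - 1) * (Y - 1 + s))‖ ≤ n ^ 2 + n ^ 2 * (1 + n) + (1 + n) * n ^ 2 :=
    (norm_sub_le _ _).trans (add_le_add ((norm_add_le _ _).trans (add_le_add b1 b2)) b3)
  have b7 := mul_le_mul_of_nonneg_left b6 (by positivity : (0 : ℝ) ≤ n ^ 2)
  have h4 : 0 ≤ n ^ 4 := by positivity
  have h5 : 0 ≤ n ^ 5 := by positivity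
  nlinarith only [b4, b7, h4, h5]

/-- small real part -/
private theorem P3c2_aux2 (q a : ℕ) (hq : 1 ≤ q) (haq : a ≤ q) (ζ : ℂ)
    (hre : 0 < ζ.re) (him : |q * ζ.im| ≤ Real.pi) (hs : q * ζ.re ≤ 1) :
    ‖G3 q a ζ - 1 / (q * ζ ^ 2)‖ ≤ (42 * q / (Real.exp (-1) / 2) ^ 2) / (1 + ζ.re ^ 2) := by
  have hq0 : (0 : ℝ) < q := by exact_mod_cast (show 0 < q by omega)
  have hq1 : (1 : ℝ) ≤ q := by exact_mod_cast hq
  have hqc : (q : ℂ) ≠ 0 := by
    have : (q : ℝ) ≠ 0 := hq0.ne'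
    exact_mod_cast this
  have hζ0 : ζ ≠ 0 := by
    intro h
    rw [h, Complex.zero_re] at hre
    exact lt_irrefl _ hre
  obtain ⟨s, hsd⟩ : ∃ s : ℂ, s = q * ζ := ⟨_, rfl⟩
  have hsre : s.re = q * ζ.re := by rw [hsd]; simp
  have hsim : s.im = q * ζ.im := by rw [hsd]; simp
  have hs0 : 0 < s.re := by rw [hsre]; positivity
  have hs1 : s.re ≤ 1 := by rw [hsre]; exact hs
  have hsi : |s.im| ≤ Real.pi := by rw [hsim]; exact him
  have hsne : s ≠ 0 := by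
    intro h
    rw [h, Complex.zero_re] at hs0
    exact lt_irrefl _ hs0
  have hlow := P02_low 1 s hs0.le hs1 hsi
  have hn0 : 0 < ‖s‖ := norm_pos_iff.2 hsne
  have hn5 : ‖s‖ ≤ 5 := by
    have h1 := Complex.norm_le_abs_re_add_abs_im s
    rw [abs_of_pos hs0] at h1
    have h2 := Real.pi_le_four
    linarith only [h1, h2, hs1, hsi]
  obtain ⟨c, hc⟩ : ∃ c : ℝ, c = Real.exp (-1) / 2 := ⟨_, rfl⟩
  have hc0 : 0 < c := by rw [hc]; positivity
  have hlow' : c * ‖s‖ ≤ ‖1 - exp (-s)‖ := by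
    rw [hc]
    calc Real.exp (-1) / 2 * ‖s‖ = Real.exp (-1) * ‖s‖ / 2 := by ring
      _ ≤ _ := hlow
  rw [← hc]
  have hupos : 0 < ‖1 - exp (-s)‖ := lt_of_lt_of_le (by positivity) hlow'
  have hune : 1 - exp (-s) ≠ 0 := norm_pos_iff.1 hupos
  obtain ⟨θ, hθ⟩ : ∃ θ : ℝ, θ = a / q := ⟨_, rfl⟩
  have hθ0 : 0 ≤ θ := by rw [hθ]; positivity
  have hθ1 : θ ≤ 1 := by
    rw [hθ, div_le_one hq0]
    exact_mod_cast haq
  have hθs : (θ : ℂ) * s = a * ζ := by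
    rw [hθ, hsd]
    push_cast
    field_simp
  have hθre : 0 ≤ ((θ : ℂ) * s).re := by
    rw [Complex.re_ofReal_mul]
    positivity
  have hX := (P02_exp _ hθre).2
  have hX' : ‖exp (-((θ : ℂ) * s)) - 1 + θ * s‖ ≤ ‖s‖ ^ 2 := by
    refine hX.trans ?_
    have : ‖(θ : ℂ) * s‖ ≤ 1 * ‖s‖ := by
      rw [norm_mul, Complex.norm_real, Real.norm_of_nonneg hθ0]
      gcongr
    rw [one_mul] at this
    gcongr
  have hK := P3c2_aux1 θ hθ0 hθ1 s (exp (-((θ : ℂ) * s))) (exp (-s)) hX' (P02_exp s hs0.le).1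
    (P02_exp s hs0.le).2 (P3_exp3 s hs0.le)
  have e1 : G3 q a ζ - 1 / (q * ζ ^ 2) =
      q * (s ^ 2 * (θ * exp (-((θ : ℂ) * s)) * (1 - exp (-s)) + exp (-((θ : ℂ) * s)) * exp (-s)) -
        (1 - exp (-s)) ^ 2) / (s ^ 2 * (1 - exp (-s)) ^ 2) := by
    rw [P3_G_eq q a hq ζ hre, hθs]
    have h1 : (a : ℂ) = q * θ := by
      rw [hθ]
      push_cast
      field_simp
    generalize exp (-((a : ℂ) * ζ)) = X
    rw [h1, ← hsd]
    have h2 : (q : ℂ) * ζ ^ 2 = s ^ 2 / q := by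
      rw [hsd]
      field_simp
    rw [h2]
    generalize hY : exp (-s) = Y at hune ⊢
    field_simp
  rw [e1, norm_div, norm_mul, norm_mul, norm_pow, norm_pow, Complex.norm_natCast]
  have h3 : ‖s ^ 2 * (θ * exp (-((θ : ℂ) * s)) * (1 - exp (-s)) +
      exp (-((θ : ℂ) * s)) * exp (-s)) - (1 - exp (-s)) ^ 2‖ ≤ ‖s‖ ^ 4 * 21 := by
    refine hK.trans ?_
    gcongr
    linarith only [hn5]
  have hξ : ζ.re ≤ 1 := by
    have h4 : ζ.re ≤ q * ζ.re := le_mul_of_one_le_left hre.le hq1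
    linarith only [h4, hs]
  have hξ2 : 1 + ζ.re ^ 2 ≤ 2 := by nlinarith only [hξ, hre]
  rw [div_le_div_iff₀ (by positivity) (by positivity)]
  have h5 : (c * ‖s‖) ^ 2 ≤ ‖1 - exp (-s)‖ ^ 2 := by gcongr
  have h6 : 42 * q / c ^ 2 * (‖s‖ ^ 2 * (c * ‖s‖) ^ 2) ≤
      42 * q / c ^ 2 * (‖s‖ ^ 2 * ‖1 - exp (-s)‖ ^ 2) := by gcongr
  refine le_trans ?_ h6
  calc (q : ℝ) * ‖s ^ 2 * (θ * exp (-((θ : ℂ) * s)) * (1 - exp (-s)) +
      exp (-((θ : ℂ) * s)) * exp (-s)) - (1 - exp (-s)) ^ 2‖ * (1 + ζ.re ^ 2)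
      ≤ q * (‖s‖ ^ 4 * 21) * 2 := by gcongr
    _ = 42 * q / c ^ 2 * (‖s‖ ^ 2 * (c * ‖s‖) ^ 2) := by
      field_simp
      ring

/-- large real part -/
private theorem P3c2_aux3 (q a : ℕ) (hq : 1 ≤ q) (ha : 1 ≤ a) (haq : a ≤ q) (ζ : ℂ)
    (hre : 0 < ζ.re) (hs : 1 ≤ q * ζ.re) :
    ‖G3 q a ζ - 1 / (q * ζ ^ 2)‖ ≤ (12 * q + 1 + q ^ 2) / (1 + ζ.re ^ 2) := by
  have hq0 : (0 : ℝ) < q := by exact_mod_cast (show 0 < q by omega)
  have hq1 : (1 : ℝ) ≤ q := by exact_mod_cast hq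
  have ha1 : (1 : ℝ) ≤ a := by exact_mod_cast ha
  have haq' : (a : ℝ) ≤ q := by exact_mod_cast haq
  obtain ⟨ξ, hξ⟩ : ∃ ξ : ℝ, ξ = ζ.re := ⟨_, rfl⟩
  rw [← hξ] at hre hs ⊢
  have hnY : ‖exp (-((q : ℂ) * ζ))‖ = Real.exp (-(q * ξ)) := by
    rw [Complex.norm_exp]
    congr 1
    simp [hξ]
  have hnX : ‖exp (-((a : ℂ) * ζ))‖ = Real.exp (-(a * ξ)) := by
    rw [Complex.norm_exp]
    congr 1
    simp [hξ]
  have hY1 : Real.exp (-(q * ξ)) ≤ 1 / 2 := by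
    have h1 : Real.exp (-(q * ξ)) ≤ Real.exp (-1) := Real.exp_le_exp.2 (by linarith only [hs])
    have h2 : Real.exp (-1) ≤ 1 / 2 := by
      rw [Real.exp_neg, inv_eq_one_div]
      apply one_div_le_one_div_of_le (by norm_num)
      have := Real.add_one_le_exp (1 : ℝ)
      linarith only [this]
    exact h1.trans h2
  have hlow : 1 / 2 ≤ ‖1 - exp (-((q : ℂ) * ζ))‖ := by
    have h1 := norm_sub_norm_le (1 : ℂ) (exp (-((q : ℂ) * ζ)))
    rw [norm_one, hnY] at h1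
    linarith only [h1, hY1]
  have hexp : Real.exp (-ξ) ≤ 2 / (1 + ξ ^ 2) := by
    rw [Real.exp_neg, inv_eq_one_div]
    rw [div_le_div_iff₀ (Real.exp_pos _) (by positivity)]
    have := Real.quadratic_le_exp_of_nonneg hre.le
    nlinarith only [this, hre]
  have hXξ : Real.exp (-(a * ξ)) ≤ Real.exp (-ξ) := by
    apply Real.exp_le_exp.2
    have := le_mul_of_one_le_left hre.le ha1
    linarith only [this]
  have hG : ‖G3 q a ζ‖ ≤ 12 * q / (1 + ξ ^ 2) := by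
    rw [P3_G_eq q a hq ζ (by rw [← hξ]; exact hre), norm_mul, hnX]
    have h1 : ‖(a : ℂ) / (1 - exp (-((q : ℂ) * ζ)))‖ ≤ 2 * q := by
      rw [norm_div, Complex.norm_natCast, div_le_iff₀ (by linarith only [hlow])]
      calc (a : ℝ) ≤ q := haq'
        _ = 2 * q * (1 / 2) := by ring
        _ ≤ 2 * q * ‖1 - exp (-((q : ℂ) * ζ))‖ := by gcongr
    have h2 : ‖(q : ℂ) * exp (-((q : ℂ) * ζ)) / (1 - exp (-((q : ℂ) * ζ))) ^ 2‖ ≤ 4 * q := by
      rw [norm_div, norm_mul, Complex.norm_natCast, hnY, norm_pow,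
        div_le_iff₀ (by positivity)]
      calc (q : ℝ) * Real.exp (-(q * ξ)) ≤ q * 1 := by
            gcongr
            linarith only [hY1]
        _ = 4 * q * (1 / 2) ^ 2 := by ring
        _ ≤ 4 * q * ‖1 - exp (-((q : ℂ) * ζ))‖ ^ 2 := by gcongr
    calc Real.exp (-(a * ξ)) * ‖(a : ℂ) / (1 - exp (-((q : ℂ) * ζ))) +
          q * exp (-((q : ℂ) * ζ)) / (1 - exp (-((q : ℂ) * ζ))) ^ 2‖
        ≤ (2 / (1 + ξ ^ 2)) * (2 * q + 4 * q) := by
          have h3 := (norm_add_le ((a : ℂ) / (1 - exp (-((q : ℂ) * ζ))))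
            (q * exp (-((q : ℂ) * ζ)) / (1 - exp (-((q : ℂ) * ζ))) ^ 2)).trans
            (add_le_add h1 h2)
          have h4 := hXξ.trans hexp
          gcongr
      _ = 12 * q / (1 + ξ ^ 2) := by ring
  have hP : ‖1 / ((q : ℂ) * ζ ^ 2)‖ ≤ (1 + q ^ 2) / (1 + ξ ^ 2) := by
    rw [norm_div, norm_one, norm_mul, Complex.norm_natCast, norm_pow]
    have h1 : ξ ≤ ‖ζ‖ := by rw [hξ]; exact Complex.re_le_norm ζ
    have h2 : ξ ^ 2 ≤ q * ‖ζ‖ ^ 2 := by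
      calc ξ ^ 2 ≤ ‖ζ‖ ^ 2 := by gcongr
        _ ≤ q * ‖ζ‖ ^ 2 := le_mul_of_one_le_left (by positivity) hq1
    calc 1 / ((q : ℝ) * ‖ζ‖ ^ 2) ≤ 1 / ξ ^ 2 :=
          one_div_le_one_div_of_le (by positivity) h2
      _ ≤ (1 + q ^ 2) / (1 + ξ ^ 2) := by
          rw [div_le_div_iff₀ (by positivity) (by positivity)]
          have h3 : (1 : ℝ) ≤ (q * ξ) ^ 2 := one_le_pow₀ hs
          nlinarith only [h3]
  refine (norm_sub_le _ _).trans ((add_le_add hG hP).trans (le_of_eq ?_))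
  ring

/-- PROOF. `s = qζ`, `θ = a/q ∈ (0,1]`, `σ = Re s > 0`, `|Im s| ≤ π`: `G3 = q [θ exp(-θs)/(1 - e^(-s)) + exp(-(θ+1)s)/(1 - e^(-s))²]`, `1/(qζ²) = q/s²`. The difference is `q K/(s² (1 - e^(-s))²)`,
`K = s² θ exp(-θs)(1 - e^(-s)) + s² exp(-(θ+1)s) - (1 - e^(-s))²`.
(1) `σ ≤ 1` (so `‖s‖ ≤ 5`): by Taylor `exp(-z) = 1 - z + O(‖z‖²)` (P02_exp) and `1 - e^(-s) = s - s²/2 + O(‖s‖³)` (P3_exp3) all terms of order 2, 3 of `K` cancel: `‖K‖ ≤ C0 ‖s‖⁴` (e.g. `C0 = 1000`);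
`‖1 - e^(-s)‖ ≥ e^(-1)‖s‖/2` (P02_low with `R = 1`). So the difference is `≤ q C0 4 e²`, and `1/(1 + ζ.re²) ≥ 1/2` (`ζ.re ≤ 1/q ≤ 1`).
(2) `σ ≥ 1`: `‖1 - e^(-s)‖ ≥ 1 - e^(-1) ≥ 1/2`: `‖G3‖ ≤ 2a e^(-a ξ) + 4 q e^(-ξ) ≤ 6 q e^(-ξ)` with `ξ = ζ.re ≥ 1/q`, and `e^(-ξ) ≤ 2/(1 + ξ²)`; `‖1/(qζ²)‖ ≤ 1/ξ² ≤ (1 + q²)/(1 + ξ²)`. -/
theorem P3_G_bound (q : ℕ) (hq : 1 ≤ q) : ∃ C : ℝ, 0 < C ∧ ∀ (a : ℕ) (ζ : ℂ), 1 ≤ a → a ≤ q → 0 < ζ.re → |q * ζ.im| ≤ Real.pi →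
    ‖G3 q a ζ - 1 / (q * ζ ^ 2)‖ ≤ C / (1 + ζ.re ^ 2) := by
  have hq0 : (0 : ℝ) < q := by exact_mod_cast (show 0 < q by omega)
  have hc0 : 0 < 42 * (q : ℝ) / (Real.exp (-1) / 2) ^ 2 := by positivity
  refine ⟨42 * q / (Real.exp (-1) / 2) ^ 2 + (12 * q + 1 + q ^ 2), by positivity, ?_⟩
  intro a ζ ha haq hre him
  rcases le_total (q * ζ.re) 1 with hs | hs
  · refine (P3c2_aux2 q a hq haq ζ hre him hs).trans ?_
    apply div_le_div_of_nonneg_right _ (by positivity)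
    have : 0 ≤ 12 * (q : ℝ) + 1 + q ^ 2 := by positivity
    linarith only [this]
  · refine (P3c2_aux3 q a hq ha haq ζ hre hs).trans ?_
    apply div_le_div_of_nonneg_right _ (by positivity)
    linarith only [hc0]

end OO

end

section

/-!
# Row P3k: norm of the kernel
-/

open Complex MeasureTheory Set Filter Topology
open scoped ComplexConjugate

namespace OO

theorem P3k_aux1 (y : ℝ) (z : ℂ) (hz : z ≠ 0) :
    ‖z ^ ((y : ℂ) * I - 1)‖ = (‖z‖)⁻¹ / Real.exp (arg z * y) := by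
  have hre : ((y : ℂ) * I - 1).re = -1 := by simp
  have him : ((y : ℂ) * I - 1).im = y := by simp
  rw [Complex.norm_cpow_of_ne_zero hz, hre, him, Real.rpow_neg_one]

theorem P3k_aux2 (x y0 ε : ℝ) :
    (I * ((x : ℂ) * exp (-(ε * I)) - (y0 : ℂ))).re = x * Real.sin ε ∧
      (I * ((x : ℂ) * exp (-(ε * I)) - (y0 : ℂ))).im = x * Real.cos ε - y0 := by
  have e1 : exp (-((ε : ℂ) * I)) = ((Real.cos ε : ℝ) : ℂ) - ((Real.sin ε : ℝ) : ℂ) * I := by
    rw [show -((ε : ℂ) * I) = ((-ε : ℝ) : ℂ) * I by push_cast; ring, Complex.exp_mul_I,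
      ← Complex.ofReal_cos, ← Complex.ofReal_sin, Real.cos_neg, Real.sin_neg]
    push_cast
    ring
  rw [e1]
  constructor
  · simp [-Complex.ofReal_cos, -Complex.ofReal_sin]
  · simp [-Complex.ofReal_cos, -Complex.ofReal_sin]

/-- PROOF. `Complex.norm_cpow_of_ne_zero`: `‖z^s‖ = ‖z‖^(s.re)/exp(arg z * s.im)`, `s = iy - 1`, `|arg z| ≤ π/2` for `Re z > 0` (`Complex.abs_arg_lt_pi_div_two_iff`). -/
theorem P3_cpow (y : ℝ) (z : ℂ) (hz : 0 < z.re) : ‖z ^ ((y : ℂ) * I - 1)‖ ≤ Real.exp (Real.pi * |y| / 2) / ‖z‖ := by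
  have hz0 : z ≠ 0 := by
    rintro rfl
    simp at hz
  have harg : |arg z| < Real.pi / 2 := Complex.abs_arg_lt_pi_div_two_iff.mpr (Or.inl hz)
  rw [P3k_aux1 y z hz0, div_eq_mul_inv, ← Real.exp_neg, div_eq_mul_inv, mul_comm]
  refine mul_le_mul_of_nonneg_right (Real.exp_le_exp.mpr ?_) (by positivity)
  have h1 : |arg z * y| ≤ Real.pi / 2 * |y| := by
    rw [abs_mul]
    exact mul_le_mul_of_nonneg_right harg.le (abs_nonneg y)
  have h2 := neg_abs_le (arg z * y)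
  linarith

/-- PROOF. `I D` with `D = x exp(-iε) - y0` has real part `x sin ε > 0`, imaginary part `x cos ε - y0`; `‖kn y D‖ = exp(-y arg(ID))/‖D‖`, `arg(ID) = arctan(im/re)` (`Complex.arg_of_re_nonneg`.. or `Complex.arg_eq_arctan..`). -/
theorem P3_kn (y y0 x ε : ℝ) (hx : 0 < x) (hε : 0 < ε) (hε1 : ε ≤ 1) :
    ‖kn y ((x : ℂ) * exp (-(ε * I)) - (y0 : ℂ))‖ ^ 2 =
      Real.exp (-(2 * y * Real.arctan ((x * Real.cos ε - y0) / (x * Real.sin ε)))) / ‖(x : ℂ) * exp (-(ε * I)) - (y0 : ℂ)‖ ^ 2 ∧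
    ‖kn y ((x : ℂ) * exp (-(ε * I)) - (y0 : ℂ))‖ ≤ Real.exp (Real.pi * |y| / 2) / ‖(x : ℂ) * exp (-(ε * I)) - (y0 : ℂ)‖ := by
  obtain ⟨hre, him⟩ := P3k_aux2 x y0 ε
  have hsin : 0 < Real.sin ε := Real.sin_pos_of_pos_of_lt_pi hε (by
    have := Real.pi_gt_three
    linarith)
  set D : ℂ := (x : ℂ) * exp (-(ε * I)) - (y0 : ℂ) with hD
  have hpos : 0 < (I * D).re := by
    rw [hre]
    positivity
  have hnorm : ‖I * D‖ = ‖D‖ := by rw [norm_mul, Complex.norm_I, one_mul]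
  constructor
  · have hz0 : I * D ≠ 0 := by
      intro h0
      rw [h0] at hpos
      simp at hpos
    have harg : |arg (I * D)| < Real.pi / 2 := Complex.abs_arg_lt_pi_div_two_iff.mpr (Or.inl hpos)
    have h1 : Real.arctan ((x * Real.cos ε - y0) / (x * Real.sin ε)) = arg (I * D) := by
      rw [← hre, ← him, ← Complex.tan_arg]
      exact Real.arctan_tan (abs_lt.mp harg).1 (abs_lt.mp harg).2
    rw [h1]
    unfold kn
    rw [P3k_aux1 y (I * D) hz0, hnorm, div_pow, inv_pow, ← Real.exp_nat_mul, Real.exp_neg,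
      div_eq_mul_inv, div_eq_mul_inv, mul_comm]
    congr 3
    push_cast
    ring
  · have h1 := P3_cpow y (I * D) hpos
    rw [hnorm] at h1
    exact h1

end OO

end

section

/-!
# Row P3l: the integral over the neighbourhood of a pole
-/

open Complex MeasureTheory Set Filter Topology
open scoped ComplexConjugate

namespace OO

theorem P3l_aux_sin {ε : ℝ} (hε : 0 < ε) (hε1 : ε ≤ 1) : ε / 3 ≤ Real.sin ε := by
  have h := Real.sin_gt_sub_cube hε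
  have h3 : ε ^ 3 ≤ ε := by
    have h2 : ε ^ 2 ≤ 1 := pow_le_one₀ hε.le hε1
    calc ε ^ 3 = ε ^ 2 * ε := by ring
      _ ≤ 1 * ε := mul_le_mul_of_nonneg_right h2 hε.le
      _ = ε := one_mul ε
  linarith

theorem P3l_aux_norm (x y0 ε : ℝ) : ‖(x : ℂ) * exp (-(ε * I)) - (y0 : ℂ)‖ ^ 2 =
    (x * Real.cos ε - y0) ^ 2 + (x * Real.sin ε) ^ 2 := by
  have he : (x : ℂ) * exp (-(ε * I)) - (y0 : ℂ) =
      ((x * Real.cos ε - y0 : ℝ) : ℂ) + ((-(x * Real.sin ε) : ℝ) : ℂ) * I := by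
    rw [show -((ε : ℂ) * I) = ((-ε : ℝ) : ℂ) * I by push_cast; ring, Complex.exp_mul_I,
      ← Complex.ofReal_cos, ← Complex.ofReal_sin, Real.cos_neg, Real.sin_neg]
    push_cast
    ring
  rw [he, Complex.sq_norm, Complex.normSq_add_mul_I]
  ring

theorem P3l_aux_deriv {x y0 ε : ℝ} (hx : 0 < x) (hs : 0 < Real.sin ε) :
    HasDerivAt (fun x : ℝ => Real.arctan ((x * Real.cos ε - y0) / (x * Real.sin ε)))
      (y0 * Real.sin ε / ((x * Real.cos ε - y0) ^ 2 + (x * Real.sin ε) ^ 2)) x := by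
  have hxs : x * Real.sin ε ≠ 0 := (mul_pos hx hs).ne'
  have h1 : HasDerivAt (fun x : ℝ => x * Real.cos ε - y0) (1 * Real.cos ε) x :=
    ((hasDerivAt_id x).mul_const (Real.cos ε)).sub_const y0
  have h2 : HasDerivAt (fun x : ℝ => x * Real.sin ε) (1 * Real.sin ε) x :=
    (hasDerivAt_id x).mul_const (Real.sin ε)
  have h3 := (h1.div h2 hxs).arctan
  refine h3.congr_deriv ?_
  have hN : (x * Real.sin ε) ^ 2 + (x * Real.cos ε - y0) ^ 2 ≠ 0 := by positivity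
  have e1 : 1 + ((x * Real.cos ε - y0) / (x * Real.sin ε)) ^ 2 =
      ((x * Real.sin ε) ^ 2 + (x * Real.cos ε - y0) ^ 2) / (x * Real.sin ε) ^ 2 := by
    rw [div_pow, eq_div_iff (pow_ne_zero 2 hxs), add_mul, div_mul_cancel₀ _ (pow_ne_zero 2 hxs),
      one_mul]
  have e2 : 1 * Real.cos ε * (x * Real.sin ε) - (x * Real.cos ε - y0) * (1 * Real.sin ε) =
      y0 * Real.sin ε := by ring
  change 1 / (1 + ((x * Real.cos ε - y0) / (x * Real.sin ε)) ^ 2) *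
    ((1 * Real.cos ε * (x * Real.sin ε) - (x * Real.cos ε - y0) * (1 * Real.sin ε)) /
      (x * Real.sin ε) ^ 2) = _
  rw [e1, e2, one_div_div, div_mul_div_comm, mul_comm ((x * Real.sin ε) ^ 2) (y0 * Real.sin ε),
    mul_div_mul_right _ _ (pow_ne_zero 2 hxs), add_comm]

/-- PROOF. `θ(x) = arctan((x cos ε - y0)/(x sin ε))` has `θ'(x) = y0 sin ε/‖D‖²`, `‖D‖² = (x cos ε - y0)² + x² sin² ε`. So `∫_a^b ‖kn y D‖² dx = (1/(y0 sin ε)) ∫_a^b exp(-2yθ(x)) θ'(x) dx = (1/(y0 sin ε)) ∫_(θ(a))^(θ(b)) exp(-2yt) dt`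
(`intervalIntegral.integral_comp_mul_deriv'`) `≤ (1/(y0 sin ε)) ∫_(-π/2)^(π/2) exp(-2yt) dt`, and `1/sin ε ≤ 3/ε`. -/
theorem P3_int0 (y y0 a b ε : ℝ) (hy0 : 0 < y0) (ha : 0 < a) (hab : a ≤ b) (hε : 0 < ε) (hε1 : ε ≤ 1) :
    ∫ x in a..b, ‖kn y ((x : ℂ) * exp (-(ε * I)) - (y0 : ℂ))‖ ^ 2 ≤ 3 / (y0 * ε) * ∫ t in (-(Real.pi / 2))..(Real.pi / 2), Real.exp (-(2 * y * t)) := by
  have hs : 0 < Real.sin ε := lt_of_lt_of_le (by positivity) (P3l_aux_sin hε hε1)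
  have hys : 0 < y0 * Real.sin ε := mul_pos hy0 hs
  have hpos : ∀ x ∈ Set.uIcc a b, 0 < x := by
    intro x hx
    rw [Set.uIcc_of_le hab] at hx
    exact lt_of_lt_of_le ha hx.1
  have hN : ∀ x : ℝ, 0 < x → 0 < (x * Real.cos ε - y0) ^ 2 + (x * Real.sin ε) ^ 2 := by
    intro x hx
    have := mul_pos hx hs
    positivity
  have h1 : ∫ x in a..b, ‖kn y ((x : ℂ) * exp (-(ε * I)) - (y0 : ℂ))‖ ^ 2 =
      ∫ x in a..b, (1 / (y0 * Real.sin ε)) * (((fun t => Real.exp (-(2 * y * t))) ∘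
        (fun x : ℝ => Real.arctan ((x * Real.cos ε - y0) / (x * Real.sin ε)))) x *
          (y0 * Real.sin ε / ((x * Real.cos ε - y0) ^ 2 + (x * Real.sin ε) ^ 2))) := by
    refine intervalIntegral.integral_congr fun x hx => ?_
    have hx0 := hpos x hx
    have hNx := (hN x hx0).ne'
    change ‖kn y ((x : ℂ) * exp (-(ε * I)) - (y0 : ℂ))‖ ^ 2 = (1 / (y0 * Real.sin ε)) *
      (Real.exp (-(2 * y * Real.arctan ((x * Real.cos ε - y0) / (x * Real.sin ε)))) *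
        (y0 * Real.sin ε / ((x * Real.cos ε - y0) ^ 2 + (x * Real.sin ε) ^ 2)))
    rw [(P3_kn y y0 x ε hx0 hε hε1).1, P3l_aux_norm]
    rw [mul_div_assoc', mul_comm (Real.exp _) (y0 * Real.sin ε), mul_div_assoc, ← mul_assoc,
      one_div_mul_cancel hys.ne', one_mul]
  rw [h1, intervalIntegral.integral_const_mul, intervalIntegral.integral_comp_mul_deriv'
    (f := fun x : ℝ => Real.arctan ((x * Real.cos ε - y0) / (x * Real.sin ε)))
    (f' := fun x : ℝ => y0 * Real.sin ε / ((x * Real.cos ε - y0) ^ 2 + (x * Real.sin ε) ^ 2))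
    (g := fun t => Real.exp (-(2 * y * t)))
    (fun x hx => P3l_aux_deriv (hpos x hx) hs)
    (by
      refine ContinuousOn.div continuousOn_const (by fun_prop) fun x hx => (hN x (hpos x hx)).ne')
    (by fun_prop)]
  have hmono : Real.arctan ((a * Real.cos ε - y0) / (a * Real.sin ε)) ≤
      Real.arctan ((b * Real.cos ε - y0) / (b * Real.sin ε)) := by
    apply Real.arctan_mono
    have hb : 0 < b := lt_of_lt_of_le ha hab
    have e : ∀ x : ℝ, 0 < x → (x * Real.cos ε - y0) / (x * Real.sin ε) =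
        Real.cos ε / Real.sin ε - y0 / Real.sin ε / x := by
      intro x hx
      field_simp
    rw [e a ha, e b hb]
    have : y0 / Real.sin ε / b ≤ y0 / Real.sin ε / a :=
      div_le_div_of_nonneg_left (div_pos hy0 hs).le ha hab
    linarith
  have hint : ∫ t in (Real.arctan ((a * Real.cos ε - y0) / (a * Real.sin ε)))..
      (Real.arctan ((b * Real.cos ε - y0) / (b * Real.sin ε))), Real.exp (-(2 * y * t)) ≤
      ∫ t in (-(Real.pi / 2))..(Real.pi / 2), Real.exp (-(2 * y * t)) := by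
    refine intervalIntegral.integral_mono_interval (Real.neg_pi_div_two_lt_arctan _).le hmono
      (Real.arctan_lt_pi_div_two _).le (Eventually.of_forall fun t => (Real.exp_pos _).le) ?_
    exact Continuous.intervalIntegrable (by fun_prop) _ _
  have hI0 : 0 ≤ ∫ t in (-(Real.pi / 2))..(Real.pi / 2), Real.exp (-(2 * y * t)) :=
    intervalIntegral.integral_nonneg (by linarith [Real.pi_pos]) fun t _ => (Real.exp_pos _).le
  have hc : 1 / (y0 * Real.sin ε) ≤ 3 / (y0 * ε) := by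
    rw [div_le_div_iff₀ hys (mul_pos hy0 hε)]
    have := mul_le_mul_of_nonneg_left (P3l_aux_sin hε hε1) hy0.le
    linarith
  calc 1 / (y0 * Real.sin ε) * _ ≤ 1 / (y0 * Real.sin ε) * _ :=
        mul_le_mul_of_nonneg_left hint (by positivity)
    _ ≤ _ := mul_le_mul_of_nonneg_right hc hI0

end OO

end

section

/-!
# Row P3f: the series A3 near its pole
-/

open Complex MeasureTheory Set Filter Topology
open scoped ComplexConjugate

namespace OO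

/-- PROOF. P3_fub, P3_beta: `Γ(1+iy) (A3 - Γ(1-iy) ζ^(iy-1)/q) = ∫_(x>0) x^(iy) (G3 q a (x+ζ) - 1/(q (x+ζ)²)) dx` (`integral_sub`), by P3_G_bound at `x + ζ` (same imaginary part, real part `≥ x`) of norm
`≤ ∫ C/(1 + (x+ζ.re)²) ≤ ∫ C/(1+x²) ≤ C π` (`norm_integral_le_of_norm_le`, `integrable_inv_one_add_sq`); `Γ(1+iy) ≠ 0` (`Complex.Gamma_ne_zero_of_re_pos`). -/
theorem P3_A (q : ℕ) (hq : 1 ≤ q) (y : ℝ) : ∃ C : ℝ, 0 < C ∧ ∀ (a : ℕ) (ζ : ℂ), 1 ≤ a → a ≤ q → 0 < ζ.re → |q * ζ.im| ≤ Real.pi →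
    ‖A3 q a y ζ - Gamma (1 - (y : ℂ) * I) * ζ ^ ((y : ℂ) * I - 1) / q‖ ≤ C := by
  obtain ⟨C, hC, hG⟩ := P3_G_bound q hq
  have hΓ : Gamma (1 + (y : ℂ) * I) ≠ 0 := Complex.Gamma_ne_zero_of_re_pos (by simp)
  have hΓ' : 0 < ‖Gamma (1 + (y : ℂ) * I)‖ := norm_pos_iff.2 hΓ
  refine ⟨C * Real.pi / ‖Gamma (1 + (y : ℂ) * I)‖, by positivity, ?_⟩
  intro a ζ ha haq hζ hi
  obtain ⟨hi1, he1⟩ := P3_fub q a hq ha y ζ hζ
  obtain ⟨hi2, he2⟩ := P3_beta y ζ hζ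
  have hqc : (q : ℂ) ≠ 0 := by
    have : q ≠ 0 := by omega
    exact_mod_cast this
  have hi3 : IntegrableOn (fun x : ℝ => (1 / (q : ℂ)) * ((x : ℂ) ^ ((y : ℂ) * I) / (x + ζ) ^ 2))
      (Ioi 0) := Integrable.const_mul hi2 _
  have h1 : Gamma (1 + (y : ℂ) * I) * (A3 q a y ζ - Gamma (1 - (y : ℂ) * I) *
      ζ ^ ((y : ℂ) * I - 1) / q) = ∫ x in Ioi (0 : ℝ), ((x : ℂ) ^ ((y : ℂ) * I) * G3 q a (x + ζ) -
        (1 / (q : ℂ)) * ((x : ℂ) ^ ((y : ℂ) * I) / (x + ζ) ^ 2)) := by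
    rw [integral_sub hi1 hi3, integral_const_mul, he1, he2]
    field_simp
  have h2 : ‖∫ x in Ioi (0 : ℝ), ((x : ℂ) ^ ((y : ℂ) * I) * G3 q a (x + ζ) -
        (1 / (q : ℂ)) * ((x : ℂ) ^ ((y : ℂ) * I) / (x + ζ) ^ 2))‖ ≤ C * Real.pi := by
    have hb : Integrable (fun x : ℝ => C * (1 + x ^ 2)⁻¹) := integrable_inv_one_add_sq.const_mul C
    refine (norm_integral_le_of_norm_le (hb.integrableOn (s := Ioi (0 : ℝ))) ?_).trans ?_
    · rw [ae_restrict_iff' measurableSet_Ioi]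
      refine Eventually.of_forall (fun x hx => ?_)
      have hx : 0 < x := hx
      have h3 : (x : ℂ) ^ ((y : ℂ) * I) * G3 q a (x + ζ) -
          (1 / (q : ℂ)) * ((x : ℂ) ^ ((y : ℂ) * I) / (x + ζ) ^ 2) =
          (x : ℂ) ^ ((y : ℂ) * I) * (G3 q a (x + ζ) - 1 / (q * (x + ζ) ^ 2)) := by
        rw [mul_sub]
        congr 1
        rw [one_div, one_div, mul_inv]
        ring
      have hre : ((x : ℂ) + ζ).re = x + ζ.re := by simp
      have him : ((x : ℂ) + ζ).im = ζ.im := by simp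
      have h4 := hG a ((x : ℂ) + ζ) ha haq (by rw [hre]; linarith) (by rw [him]; exact hi)
      rw [hre] at h4
      rw [h3, norm_mul, Complex.norm_cpow_eq_rpow_re_of_pos hx]
      have h5 : ((y : ℂ) * I).re = 0 := by simp
      rw [h5, Real.rpow_zero, one_mul]
      refine h4.trans ?_
      rw [div_eq_mul_inv]
      apply mul_le_mul_of_nonneg_left _ hC.le
      apply inv_anti₀ (by positivity)
      nlinarith
    · rw [integral_const_mul]
      apply mul_le_mul_of_nonneg_left _ hC.le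
      calc ∫ x in Ioi (0 : ℝ), (1 + x ^ 2)⁻¹ ≤ ∫ x : ℝ, (1 + x ^ 2)⁻¹ := by
            apply setIntegral_le_integral integrable_inv_one_add_sq
            exact Eventually.of_forall (fun x => by positivity)
        _ = Real.pi := by rw [integral_univ_inv_one_add_sq]
  rw [le_div_iff₀ hΓ', mul_comm, ← norm_mul, h1]
  exact h2

end OO

end

section

/-!
# Row P3n: a finite sum over separated poles
-/

open Complex MeasureTheory Set Filter Topology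
open scoped ComplexConjugate

namespace OO

/-- PROOF. As P08_split (OO/P_08.lean), general kernel. -/
theorem P3_spl {ι : Type} (J : Finset ι) (p : ι → ℝ) (c : ι → ℂ) (k : ℝ → ℂ) (K Δ x : ℝ) (hK : 0 ≤ K) (hΔ : 0 < Δ)
    (hsep : ∀ i ∈ J, ∀ j ∈ J, p i ≠ p j → 2 * Δ ≤ |p i - p j|)
    (hk : ∀ j ∈ J, Δ ≤ |x - p j| → ‖k (p j)‖ ≤ K / Δ) :
    ‖∑ j ∈ J, c j * k (p j)‖ ^ 2 ≤ 2 * ((∑ j ∈ J, ‖c j‖) * K / Δ) ^ 2 +
      2 * ∑ y₀ ∈ J.image p, if |x - y₀| < Δ then ‖∑ j ∈ J.filter (fun j => p j = y₀), c j‖ ^ 2 * ‖k y₀‖ ^ 2 else 0 := by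
  classical
  have hnn : ∀ y₀ ∈ J.image p, (0 : ℝ) ≤ if |x - y₀| < Δ then
      ‖∑ j ∈ J.filter (fun j => p j = y₀), c j‖ ^ 2 * ‖k y₀‖ ^ 2 else 0 := by
    intro y₀ _
    split_ifs <;> positivity
  have hterm : ∀ j ∈ J, Δ ≤ |x - p j| → ‖c j * k (p j)‖ ≤ ‖c j‖ * K / Δ := by
    intro j hj hd
    rw [norm_mul, mul_div_assoc]
    exact mul_le_mul_of_nonneg_left (hk j hj hd) (norm_nonneg _)
  have hsumeq : (∑ j ∈ J, ‖c j‖) * K / Δ = ∑ j ∈ J, ‖c j‖ * K / Δ := by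
    rw [Finset.sum_mul, Finset.sum_div]
  by_cases hex : ∃ y₀ ∈ J.image p, |x - y₀| < Δ
  · obtain ⟨y₀, hy₀, hd₀⟩ := hex
    obtain ⟨i₀, hi₀, hyi⟩ := Finset.mem_image.1 hy₀
    have huniq : ∀ j ∈ J, p j ≠ y₀ → Δ ≤ |x - p j| := by
      intro j hj hne
      by_contra hlt
      push Not at hlt
      have h1 := hsep j hj i₀ hi₀ (by rw [hyi]; exact hne)
      rw [hyi] at h1
      have h2 : |p j - y₀| ≤ |x - p j| + |x - y₀| := by
        have := abs_sub (p j - x) (y₀ - x)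
        have e : p j - y₀ = (p j - x) - (y₀ - x) := by ring
        rw [e, abs_sub_comm x (p j), abs_sub_comm x y₀]
        exact this
      linarith
    have hsplit : ∑ j ∈ J, c j * k (p j) =
        (∑ j ∈ J.filter (fun j => p j = y₀), c j) * k y₀ +
        ∑ j ∈ J.filter (fun j => ¬ p j = y₀), c j * k (p j) := by
      rw [← Finset.sum_filter_add_sum_filter_not J (fun j => p j = y₀)]
      congr 1
      rw [Finset.sum_mul]
      refine Finset.sum_congr rfl fun j hj => ?_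
      rw [(Finset.mem_filter.1 hj).2]
    have hsec : ‖∑ j ∈ J.filter (fun j => ¬ p j = y₀), c j * k (p j)‖ ≤ (∑ j ∈ J, ‖c j‖) * K / Δ := by
      refine (norm_sum_le _ _).trans ?_
      rw [hsumeq]
      refine (Finset.sum_le_sum fun j hj => ?_).trans
        (Finset.sum_le_sum_of_subset_of_nonneg (Finset.filter_subset _ J) fun j _ _ => by positivity)
      have := Finset.mem_filter.1 hj
      exact hterm j this.1 (huniq j this.1 this.2)
    set A := (∑ j ∈ J.filter (fun j => p j = y₀), c j) * k y₀ with hA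
    set B := ∑ j ∈ J.filter (fun j => ¬ p j = y₀), c j * k (p j) with hB
    have h1 : ‖A + B‖ ^ 2 ≤ 2 * ‖B‖ ^ 2 + 2 * ‖A‖ ^ 2 := by
      have h2 : ‖A + B‖ ^ 2 ≤ (‖A‖ + ‖B‖) ^ 2 := by gcongr; exact norm_add_le _ _
      nlinarith [sq_nonneg (‖A‖ - ‖B‖)]
    have h3 : ‖A‖ ^ 2 ≤ ∑ y₁ ∈ J.image p, if |x - y₁| < Δ then
        ‖∑ j ∈ J.filter (fun j => p j = y₁), c j‖ ^ 2 * ‖k y₁‖ ^ 2 else 0 := by
      refine le_trans (le_of_eq ?_) (Finset.single_le_sum hnn hy₀)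
      rw [if_pos hd₀, hA, norm_mul, mul_pow]
    have h4 : ‖B‖ ^ 2 ≤ ((∑ j ∈ J, ‖c j‖) * K / Δ) ^ 2 := by gcongr
    rw [hsplit]
    linarith
  · push Not at hex
    have hsum : ‖∑ j ∈ J, c j * k (p j)‖ ≤ (∑ j ∈ J, ‖c j‖) * K / Δ := by
      refine (norm_sum_le _ _).trans ?_
      rw [hsumeq]
      exact Finset.sum_le_sum fun j hj => hterm j hj (hex _ (Finset.mem_image_of_mem p hj))
    have h4 : ‖∑ j ∈ J, c j * k (p j)‖ ^ 2 ≤ ((∑ j ∈ J, ‖c j‖) * K / Δ) ^ 2 := by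
      gcongr
    have h5 := Finset.sum_nonneg hnn
    nlinarith [sq_nonneg ((∑ j ∈ J, ‖c j‖) * K / Δ)]

theorem P3n_aux_meas (y y0 ε : ℝ) :
    Measurable (fun x : ℝ => ‖kn y ((x : ℂ) * exp (-(ε * I)) - (y0 : ℂ))‖ ^ 2) := by
  unfold kn
  refine (Measurable.norm ?_).pow_const 2
  exact Measurable.pow_const (by fun_prop) _

theorem P3n_aux_bd (y y0 Δ ε x : ℝ) (hy : 0 < y0) (h1 : 2 * Δ ≤ y0) (hε : 0 < ε) (hε1 : ε ≤ 1)
    (hx : |x - y0| < Δ) :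
    ‖kn y ((x : ℂ) * exp (-(ε * I)) - (y0 : ℂ))‖ ^ 2 ≤
      (Real.exp (Real.pi * |y| / 2)) ^ 2 / (y0 * y0 * ε ^ 2 / 6) := by
  have hx' := abs_lt.1 hx
  have hxy : y0 / 2 ≤ x := by linarith
  have hx0 : 0 < x := by linarith
  have h2 := (P3_kn y y0 x ε hx0 hε hε1).2
  have h3 := P08_norm x y0 ε hx0.le hy.le hε.le hε1
  have h4 : y0 * y0 * ε ^ 2 / 6 ≤ ‖(x : ℂ) * exp (-(ε * I)) - (y0 : ℂ)‖ ^ 2 := by
    refine le_trans ?_ h3
    have : y0 / 2 * (y0 * ε ^ 2) ≤ x * (y0 * ε ^ 2) := mul_le_mul_of_nonneg_right hxy (by positivity)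
    nlinarith [sq_nonneg (x - y0)]
  have h5 : 0 < y0 * y0 * ε ^ 2 / 6 := by positivity
  calc ‖kn y ((x : ℂ) * exp (-(ε * I)) - (y0 : ℂ))‖ ^ 2
      ≤ (Real.exp (Real.pi * |y| / 2) / ‖(x : ℂ) * exp (-(ε * I)) - (y0 : ℂ)‖) ^ 2 := by gcongr
    _ = (Real.exp (Real.pi * |y| / 2)) ^ 2 / ‖(x : ℂ) * exp (-(ε * I)) - (y0 : ℂ)‖ ^ 2 := by rw [div_pow]
    _ ≤ _ := by gcongr

/-- PROOF. As P09_int (OO/P_09.lean): on the interval P09_wt, then P3_int0, P3_gamma. -/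
theorem P3_int (y y0 Δ ω ε : ℝ) (hy : 0 < y0) (hΔ : 0 < Δ) (h1 : 2 * Δ ≤ y0) (h2 : 2 * Δ ≤ y0 ^ 2) (h3 : Δ ≤ 1) (hω : 0 ≤ ω) (hω1 : ω ≤ 1)
    (hε : 0 < ε) (hε1 : ε ≤ 1) :
    IntegrableOn (fun x : ℝ => if |x - y0| < Δ then Wt 1 ω x * ‖kn y ((x : ℂ) * exp (-(ε * I)) - (y0 : ℂ))‖ ^ 2 else 0) (Ioi 0) ∧
    (∫ x in Ioi (0 : ℝ), if |x - y0| < Δ then Wt 1 ω x * ‖kn y ((x : ℂ) * exp (-(ε * I)) - (y0 : ℂ))‖ ^ 2 else 0) ≤
      S3 y * (Real.exp 2 * Wt 1 ω y0 * (3 * Real.pi / (y0 * ε))) := by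
  have hW : 0 < Wt 1 ω y0 := Real.exp_pos _
  have hmem : ∀ x : ℝ, |x - y0| < Δ ↔ x ∈ Ioo (y0 - Δ) (y0 + Δ) := by
    intro x
    rw [abs_lt, mem_Ioo]
    constructor <;> rintro ⟨h4, h5⟩ <;> constructor <;> linarith
  have hF : (fun x : ℝ => if |x - y0| < Δ then Wt 1 ω x * ‖kn y ((x : ℂ) * exp (-(ε * I)) - (y0 : ℂ))‖ ^ 2 else 0) =
      (Ioo (y0 - Δ) (y0 + Δ)).indicator
        (fun x : ℝ => Wt 1 ω x * ‖kn y ((x : ℂ) * exp (-(ε * I)) - (y0 : ℂ))‖ ^ 2) := by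
    funext x
    by_cases hx : |x - y0| < Δ
    · rw [if_pos hx, indicator_of_mem ((hmem x).1 hx)]
    · rw [if_neg hx, indicator_of_notMem (fun h => hx ((hmem x).2 h))]
  have hk : IntegrableOn (fun x : ℝ => ‖kn y ((x : ℂ) * exp (-(ε * I)) - (y0 : ℂ))‖ ^ 2)
      (Ioo (y0 - Δ) (y0 + Δ)) := by
    refine Measure.integrableOn_of_bounded (M := (Real.exp (Real.pi * |y| / 2)) ^ 2 / (y0 * y0 * ε ^ 2 / 6))
      ?_ (P3n_aux_meas y y0 ε).aestronglyMeasurable ?_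
    · rw [Real.volume_Ioo]; exact ENNReal.ofReal_ne_top
    · refine ae_restrict_of_forall_mem measurableSet_Ioo fun x hx => ?_
      rw [Real.norm_of_nonneg (by positivity)]
      exact P3n_aux_bd y y0 Δ ε x hy h1 hε hε1 ((hmem x).2 hx)
  have hWm : Measurable (fun x : ℝ => Wt 1 ω x) := by
    unfold Wt
    exact Real.measurable_exp.comp (((measurable_const.div measurable_id).neg).sub
      (measurable_const.mul measurable_id))
  have hkc := hk.const_mul (Real.exp 2 * Wt 1 ω y0)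
  have hle : ∀ x ∈ Ioo (y0 - Δ) (y0 + Δ),
      Wt 1 ω x * ‖kn y ((x : ℂ) * exp (-(ε * I)) - (y0 : ℂ))‖ ^ 2 ≤
      Real.exp 2 * Wt 1 ω y0 * ‖kn y ((x : ℂ) * exp (-(ε * I)) - (y0 : ℂ))‖ ^ 2 := by
    intro x hx
    exact mul_le_mul_of_nonneg_right (P09_wt y0 Δ ω x hy h1 h2 h3 hω hω1 ((hmem x).2 hx)) (by positivity)
  have hWk : IntegrableOn (fun x : ℝ => Wt 1 ω x * ‖kn y ((x : ℂ) * exp (-(ε * I)) - (y0 : ℂ))‖ ^ 2)
      (Ioo (y0 - Δ) (y0 + Δ)) := by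
    refine Integrable.mono' hkc (hWm.mul (P3n_aux_meas y y0 ε)).aestronglyMeasurable ?_
    refine ae_restrict_of_forall_mem measurableSet_Ioo fun x hx => ?_
    have hWx : 0 ≤ Wt 1 ω x := (Real.exp_pos _).le
    rw [Real.norm_of_nonneg (mul_nonneg hWx (by positivity))]
    exact hle x hx
  rw [hF]
  refine ⟨((integrable_indicator_iff measurableSet_Ioo).2 hWk).integrableOn, ?_⟩
  have hsub : Ioi (0 : ℝ) ∩ Ioo (y0 - Δ) (y0 + Δ) = Ioo (y0 - Δ) (y0 + Δ) := by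
    apply inter_eq_right.2
    intro x hx
    show (0 : ℝ) < x
    linarith [hx.1]
  rw [setIntegral_indicator measurableSet_Ioo, hsub]
  have h6 := P3_int0 y y0 (y0 - Δ) (y0 + Δ) ε hy (by linarith) (by linarith) hε hε1
  rw [P3_gamma, intervalIntegral.integral_of_le (by linarith), integral_Ioc_eq_integral_Ioo] at h6
  calc ∫ x in Ioo (y0 - Δ) (y0 + Δ), Wt 1 ω x * ‖kn y ((x : ℂ) * exp (-(ε * I)) - (y0 : ℂ))‖ ^ 2
      ≤ ∫ x in Ioo (y0 - Δ) (y0 + Δ),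
          Real.exp 2 * Wt 1 ω y0 * ‖kn y ((x : ℂ) * exp (-(ε * I)) - (y0 : ℂ))‖ ^ 2 :=
        setIntegral_mono_on hWk hkc measurableSet_Ioo hle
    _ = Real.exp 2 * Wt 1 ω y0 *
          ∫ x in Ioo (y0 - Δ) (y0 + Δ), ‖kn y ((x : ℂ) * exp (-(ε * I)) - (y0 : ℂ))‖ ^ 2 := by
        rw [integral_const_mul]
    _ ≤ Real.exp 2 * Wt 1 ω y0 * (3 / (y0 * ε) * (Real.pi * S3 y)) := by gcongr
    _ = S3 y * (Real.exp 2 * Wt 1 ω y0 * (3 * Real.pi / (y0 * ε))) := by ring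

end OO

end

section

/-!
# Row P3o: integration of the pointwise bound
-/

open Complex MeasureTheory Set Filter Topology
open scoped ComplexConjugate

namespace OO

/-- PROOF. As P13_main (OO/P_13.lean), with P3_spl (`K = exp(π|y|/2)`, P3_kn, P08_abs) and P3_int. -/
theorem P3_int_main {ι : Type} (J : Finset ι) (p : ι → ℝ) (c : ι → ℂ) (G : ℝ → ℂ) (κ : ℂ) (y Δ ε ω X1 E D N : ℝ) (hy : ∀ j ∈ J, 0 < p j)
    (hΔ : 0 < Δ) (hsep : ∀ i ∈ J, ∀ j ∈ J, p i ≠ p j → 2 * Δ ≤ |p i - p j|) (h1 : ∀ j ∈ J, 2 * Δ ≤ p j) (h2 : ∀ j ∈ J, 2 * Δ ≤ p j ^ 2)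
    (h3 : Δ ≤ 1) (hω : 0 < ω) (hω1 : ω ≤ 1) (hε : 0 < ε) (hε1 : ε ≤ 1) (hX1 : 1 ≤ X1) (hE : 0 ≤ E) (hD : 0 ≤ D)
    (hN : ∑ j ∈ J, ‖c j‖ ≤ N)
    (hG1 : ∀ x : ℝ, 0 < x → x ≤ X1 → ‖G x - κ * ∑ j ∈ J, c j * kn y ((x : ℂ) * exp (-(ε * I)) - (p j : ℂ))‖ ≤ E * (1 + 1 / x))
    (hG2 : ∀ x : ℝ, X1 < x → ‖G x‖ ≤ D) :
    (∫ x in Ioi (0 : ℝ), Wt 1 ω x * ‖G x‖ ^ 2) ≤
      X1 * (4 * ‖κ‖ ^ 2 * (N * Real.exp (Real.pi * |y| / 2) / Δ) ^ 2 + 8 * E ^ 2) + D ^ 2 * (Real.exp (-(ω * X1)) / ω) +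
      4 * (‖κ‖ ^ 2 * S3 y) * (∑ y₀ ∈ J.image p, ‖∑ j ∈ J.filter (fun j => p j = y₀), c j‖ ^ 2 * (Real.exp 2 * Wt 1 ω y₀ * (3 * Real.pi / (y₀ * ε)))) := by
  set K : ℝ := Real.exp (Real.pi * |y| / 2) with hKdef
  have hK0 : 0 < K := Real.exp_pos _
  set K1 : ℝ := 4 * ‖κ‖ ^ 2 * (N * K / Δ) ^ 2 + 8 * E ^ 2 with hK1
  have hK10 : 0 ≤ K1 := by positivity
  set a : ℝ → ℝ := fun y₀ => ‖∑ j ∈ J.filter (fun j => p j = y₀), c j‖ ^ 2 with ha
  have ha0 : ∀ y₀, 0 ≤ a y₀ := fun y₀ => by rw [ha]; positivity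
  set f : ℝ → ℝ → ℝ := fun y₀ x =>
    if |x - y₀| < Δ then Wt 1 ω x * ‖kn y ((x : ℂ) * exp (-(ε * I)) - (y₀ : ℂ))‖ ^ 2 else 0 with hf
  have hWt0 : ∀ x : ℝ, 0 ≤ Wt 1 ω x := fun x => by unfold Wt; positivity
  have hf0 : ∀ y₀ x, 0 ≤ f y₀ x := by
    intro y₀ x
    rw [hf]
    simp only
    split_ifs
    · exact mul_nonneg (hWt0 x) (by positivity)
    · exact le_rfl
  have hfint : ∀ y₀ ∈ J.image p, IntegrableOn (f y₀) (Ioi 0) ∧
      (∫ x in Ioi (0 : ℝ), f y₀ x) ≤ S3 y * (Real.exp 2 * Wt 1 ω y₀ * (3 * Real.pi / (y₀ * ε))) := by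
    intro y₀ hy₀
    obtain ⟨j, hj, rfl⟩ := Finset.mem_image.mp hy₀
    exact P3_int y (p j) Δ ω ε (hy j hj) hΔ (h1 j hj) (h2 j hj) h3 hω.le hω1 hε hε1
  set g1 : ℝ → ℝ := (Ioc (0 : ℝ) X1).indicator fun _ => K1 with hg1
  set g2 : ℝ → ℝ := fun x => ∑ y₀ ∈ J.image p, 4 * ‖κ‖ ^ 2 * a y₀ * f y₀ x with hg2
  set g3 : ℝ → ℝ := (Ioi X1).indicator fun x => D ^ 2 * Real.exp (-ω * x) with hg3
  have hX0 : 0 ≤ X1 := zero_le_one.trans hX1
  have hsub : Ioi X1 ⊆ Ioi (0 : ℝ) := Ioi_subset_Ioi hX0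
  have hsub2 : Ioc (0 : ℝ) X1 ⊆ Ioi (0 : ℝ) := fun x hx => hx.1
  have i1 : IntegrableOn g1 (Ioi 0) := by
    rw [hg1]
    have h : IntegrableOn (fun _ : ℝ => K1) (Ioc (0 : ℝ) X1) := integrableOn_const (by simp)
    exact ((integrable_indicator_iff measurableSet_Ioc).mpr h).integrableOn
  have i2 : IntegrableOn g2 (Ioi 0) := by
    rw [hg2]
    exact integrable_finsetSum _ fun y₀ hy₀ => (hfint y₀ hy₀).1.const_mul _
  have i3 : IntegrableOn g3 (Ioi 0) := by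
    rw [hg3]
    have h : IntegrableOn (fun x : ℝ => D ^ 2 * Real.exp (-ω * x)) (Ioi X1) :=
      (exp_neg_integrableOn_Ioi X1 hω).const_mul _
    exact ((integrable_indicator_iff measurableSet_Ioi).mpr h).integrableOn
  have e1 : (∫ x in Ioi (0 : ℝ), g1 x) = X1 * K1 := by
    rw [hg1, setIntegral_indicator measurableSet_Ioc, inter_eq_self_of_subset_right hsub2,
      setIntegral_const]
    simp [hX0, Measure.real]
  have e2 : (∫ x in Ioi (0 : ℝ), g2 x) ≤ 4 * (‖κ‖ ^ 2 * S3 y) * (∑ y₀ ∈ J.image p,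
      a y₀ * (Real.exp 2 * Wt 1 ω y₀ * (3 * Real.pi / (y₀ * ε)))) := by
    rw [hg2, integral_finsetSum _ fun y₀ hy₀ => (hfint y₀ hy₀).1.const_mul _, Finset.mul_sum]
    refine Finset.sum_le_sum fun y₀ hy₀ => ?_
    rw [integral_const_mul]
    have h := mul_le_mul_of_nonneg_left (hfint y₀ hy₀).2
      (mul_nonneg (by positivity : 0 ≤ 4 * ‖κ‖ ^ 2) (ha0 y₀))
    refine h.trans (le_of_eq ?_)
    ring
  have e3 : (∫ x in Ioi (0 : ℝ), g3 x) = D ^ 2 * (Real.exp (-(ω * X1)) / ω) := by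
    rw [hg3, setIntegral_indicator measurableSet_Ioi, inter_eq_self_of_subset_right hsub,
      integral_const_mul, integral_exp_mul_Ioi (neg_neg_of_pos hω)]
    congr 1
    rw [neg_div_neg_eq, neg_mul]
  have hmain : (∫ x in Ioi (0 : ℝ), Wt 1 ω x * ‖G x‖ ^ 2) ≤ ∫ x in Ioi (0 : ℝ), (g1 x + g2 x + g3 x) := by
    refine integral_mono_of_nonneg ?_ ((i1.add i2).add i3) ?_
    · exact Eventually.of_forall fun x => mul_nonneg (hWt0 x) (by positivity)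
    · refine (ae_restrict_iff' measurableSet_Ioi).mpr (Eventually.of_forall fun x hx => ?_)
      have hx0 : 0 < x := hx
      obtain ⟨w1, w2, w3, w4⟩ := P13_wt ω x hω.le hx0
      have hg20 : 0 ≤ g2 x := by
        rw [hg2]
        exact Finset.sum_nonneg fun y₀ _ => mul_nonneg (mul_nonneg (by positivity) (ha0 y₀)) (hf0 y₀ x)
      show Wt 1 ω x * ‖G x‖ ^ 2 ≤ g1 x + g2 x + g3 x
      rcases le_or_gt x X1 with hxX | hxX
      · have hg1x : g1 x = K1 := by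
          rw [hg1]
          exact indicator_of_mem (show x ∈ Ioc (0 : ℝ) X1 from ⟨hx0, hxX⟩) _
        have hg3x : g3 x = 0 := by
          rw [hg3]
          exact indicator_of_notMem (fun h => absurd h (not_lt.mpr hxX)) _
        rw [hg1x, hg3x, add_zero]
        set S : ℂ := ∑ j ∈ J, c j * kn y ((x : ℂ) * exp (-(ε * I)) - (p j : ℂ)) with hS
        have hsplit := P3_spl J p c (fun t : ℝ => kn y ((x : ℂ) * exp (-(ε * I)) - (t : ℂ))) K Δ x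
          hK0.le hΔ hsep (fun j hj hjx => by
            have h5 := (P3_kn y (p j) x ε hx0 hε hε1).2
            have h6 := P08_abs x (p j) ε hx0.le (hy j hj).le hε.le hε1
            exact h5.trans (div_le_div_of_nonneg_left hK0.le hΔ (hjx.trans h6)))
        rw [← hS] at hsplit
        have hG : ‖G x‖ ≤ ‖κ‖ * ‖S‖ + E * (1 + 1 / x) := by
          have h4 : ‖G x‖ ≤ ‖G x - κ * S‖ + ‖κ * S‖ := by
            calc ‖G x‖ = ‖(G x - κ * S) + κ * S‖ := by rw [sub_add_cancel]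
              _ ≤ _ := norm_add_le _ _
          rw [norm_mul] at h4
          linarith only [h4, hG1 x hx0 hxX]
        have hG2' : ‖G x‖ ^ 2 ≤ 2 * ‖κ‖ ^ 2 * ‖S‖ ^ 2 + 2 * E ^ 2 * (1 + 1 / x) ^ 2 := by
          have h5 : ‖G x‖ ^ 2 ≤ (‖κ‖ * ‖S‖ + E * (1 + 1 / x)) ^ 2 :=
            pow_le_pow_left₀ (norm_nonneg _) hG 2
          linarith only [h5, sq_nonneg (‖κ‖ * ‖S‖ - E * (1 + 1 / x))]
        have hN0 : 0 ≤ ∑ j ∈ J, ‖c j‖ := Finset.sum_nonneg fun j _ => norm_nonneg _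
        have hND : ((∑ j ∈ J, ‖c j‖) * K / Δ) ^ 2 ≤ (N * K / Δ) ^ 2 := by
          apply pow_le_pow_left₀ (by positivity)
          rw [div_le_div_iff_of_pos_right hΔ]
          exact mul_le_mul_of_nonneg_right hN hK0.le
        have hsum : Wt 1 ω x * (∑ y₀ ∈ J.image p, if |x - y₀| < Δ then
            ‖∑ j ∈ J.filter (fun j => p j = y₀), c j‖ ^ 2 * ‖kn y ((x : ℂ) * exp (-(ε * I)) - (y₀ : ℂ))‖ ^ 2 else 0) =
            ∑ y₀ ∈ J.image p, a y₀ * f y₀ x := by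
          rw [Finset.mul_sum]
          refine Finset.sum_congr rfl fun y₀ _ => ?_
          rw [ha, hf]
          simp only
          split_ifs
          · ring
          · ring
        set Q : ℝ := ∑ y₀ ∈ J.image p, if |x - y₀| < Δ then
            ‖∑ j ∈ J.filter (fun j => p j = y₀), c j‖ ^ 2 * ‖kn y ((x : ℂ) * exp (-(ε * I)) - (y₀ : ℂ))‖ ^ 2 else 0 with hQ
        have hg2x : g2 x = 4 * ‖κ‖ ^ 2 * (Wt 1 ω x * Q) := by
          rw [hsum, hg2, Finset.mul_sum]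
          refine Finset.sum_congr rfl fun y₀ _ => ?_
          ring
        rw [hg2x, hK1]
        have hS2 : ‖S‖ ^ 2 ≤ 2 * (N * K / Δ) ^ 2 + 2 * Q := hsplit.trans (by linarith only [hND])
        have t1 : Wt 1 ω x * ‖G x‖ ^ 2 ≤
            Wt 1 ω x * (2 * ‖κ‖ ^ 2 * (2 * (N * K / Δ) ^ 2 + 2 * Q) + 2 * E ^ 2 * (1 + 1 / x) ^ 2) := by
          refine mul_le_mul_of_nonneg_left (hG2'.trans ?_) w4
          have := mul_le_mul_of_nonneg_left hS2 (by positivity : 0 ≤ 2 * ‖κ‖ ^ 2)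
          linarith only [this]
        have t2 : Wt 1 ω x * (4 * ‖κ‖ ^ 2 * (N * K / Δ) ^ 2) ≤ 1 * (4 * ‖κ‖ ^ 2 * (N * K / Δ) ^ 2) :=
          mul_le_mul_of_nonneg_right w2 (by positivity)
        have t3 : 2 * E ^ 2 * (Wt 1 ω x * (1 + 1 / x) ^ 2) ≤ 2 * E ^ 2 * 4 :=
          mul_le_mul_of_nonneg_left w1 (by positivity)
        calc Wt 1 ω x * ‖G x‖ ^ 2 ≤ _ := t1
          _ = Wt 1 ω x * (4 * ‖κ‖ ^ 2 * (N * K / Δ) ^ 2) + 4 * ‖κ‖ ^ 2 * (Wt 1 ω x * Q) +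
              2 * E ^ 2 * (Wt 1 ω x * (1 + 1 / x) ^ 2) := by ring
          _ ≤ _ := by linarith only [t2, t3]
      · have hg1x : g1 x = 0 := by
          rw [hg1]
          exact indicator_of_notMem (fun h => absurd h.2 (not_le.mpr hxX)) _
        have hg3x : g3 x = D ^ 2 * Real.exp (-ω * x) := by
          rw [hg3]
          exact indicator_of_mem (show x ∈ Ioi X1 from hxX) _
        rw [hg1x, hg3x, zero_add]
        have h6 : Wt 1 ω x * ‖G x‖ ^ 2 ≤ Real.exp (-(ω * x)) * D ^ 2 :=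
          mul_le_mul w3 (pow_le_pow_left₀ (norm_nonneg _) (hG2 x hxX) 2) (by positivity) (Real.exp_pos _).le
        rw [neg_mul]
        linarith only [h6, hg20]
  refine hmain.trans ?_
  have h12 : (∫ x in Ioi (0 : ℝ), (g1 x + g2 x + g3 x)) =
      (∫ x in Ioi (0 : ℝ), g1 x) + (∫ x in Ioi (0 : ℝ), g2 x) + ∫ x in Ioi (0 : ℝ), g3 x := by
    have h13 : (∫ x in Ioi (0 : ℝ), (g1 x + g2 x + g3 x)) =
        (∫ x in Ioi (0 : ℝ), (g1 x + g2 x)) + ∫ x in Ioi (0 : ℝ), g3 x := integral_add (i1.add i2) i3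
    rw [h13, integral_add i1 i2]
  rw [h12, e1, e3]
  linarith only [e2]

end OO

end

section

/-!
# Row P3g: the series is the sum over its poles, up to a bounded error
-/

open Complex MeasureTheory Set Filter Topology
open scoped ComplexConjugate

namespace OO

/-- a positive real factor -/
theorem P3g_aux_mul (r : ℝ) (hr : 0 < r) (z s : ℂ) (hz : z ≠ 0) : ((r : ℂ) * z) ^ s = (r : ℂ) ^ s * z ^ s := by
  have hr' : (r : ℂ) ≠ 0 := by exact_mod_cast hr.ne'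
  rw [Complex.cpow_def_of_ne_zero (mul_ne_zero hr' hz), Complex.cpow_def_of_ne_zero hr', Complex.cpow_def_of_ne_zero hz,
    ← Complex.exp_add, Complex.log_ofReal_mul hr hz, Complex.ofReal_log hr.le]
  congr 1
  ring

theorem P3_near {q : ℕ} [NeZero q] (χ : DirichletCharacter ℂ q) (hχ : χ.IsPrimitive) (y : ℝ) : ∃ C : ℝ, 0 < C ∧
    ∀ (w : ℂ) (m0 : ℕ), 0 < w.re → |q * w.im - m0| ≤ 1 / 2 →
    ‖Th3 χ y w - kap3 χ y * ((χ⁻¹ : DirichletCharacter ℂ q) ((m0 : ℕ) : ZMod q) * (w - I * m0 / q) ^ ((y : ℂ) * I - 1))‖ ≤ C := by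
  have hq1 : 1 ≤ q := NeZero.one_le
  have hqpos : (0 : ℝ) < q := by exact_mod_cast hq1
  have hq0 : (q : ℂ) ≠ 0 := by exact_mod_cast hqpos.ne'
  obtain ⟨C, hC, hA⟩ := P3_A q hq1 y
  refine ⟨q * C, by positivity, ?_⟩
  intro w m0 h0 hm
  have hpi := Real.pi_pos
  have himq : (I * m0 / q : ℂ) = ((m0 / q : ℝ) : ℂ) * I := by push_cast; ring
  set w' : ℂ := w - I * m0 / q with hw'
  have hre : w'.re = w.re := by
    rw [hw', himq, sub_re, re_ofReal_mul, I_re, mul_zero, sub_zero]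
  have him : w'.im = w.im - m0 / q := by
    rw [hw', himq, sub_im, im_ofReal_mul, I_im, mul_one]
  have hw'0 : w' ≠ 0 := by
    intro h
    rw [h, zero_re] at hre
    exact h0.ne hre
  set ζ : ℂ := 2 * Real.pi * w' with hζ
  have hζ' : ζ = ((2 * Real.pi : ℝ) : ℂ) * w' := by rw [hζ]; push_cast; ring
  have hζre : 0 < ζ.re := by
    rw [hζ', re_ofReal_mul, hre]
    positivity
  have hζim : |q * ζ.im| ≤ Real.pi := by
    rw [hζ', im_ofReal_mul, him]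
    have e : (q : ℝ) * (2 * Real.pi * (w.im - m0 / q)) = 2 * Real.pi * (q * w.im - m0) := by
      field_simp
    rw [e, abs_mul, abs_of_pos (by positivity : (0 : ℝ) < 2 * Real.pi)]
    calc 2 * Real.pi * |(q : ℝ) * w.im - m0| ≤ 2 * Real.pi * (1 / 2) :=
          mul_le_mul_of_nonneg_left hm (by positivity)
      _ = Real.pi := by ring
  have hgauss := P03_gauss χ hχ m0
  rw [P3_split χ y w h0 m0]
  have hsplit : kap3 χ y * ((χ⁻¹ : DirichletCharacter ℂ q) ((m0 : ℕ) : ZMod q) * w' ^ ((y : ℂ) * I - 1)) =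
      ∑ a ∈ Finset.Icc 1 q, χ ((a : ℕ) : ZMod q) * exp (-(2 * Real.pi * I * a * m0 / q)) *
        (Gamma (1 - (y : ℂ) * I) * ζ ^ ((y : ℂ) * I - 1) / q) := by
    rw [← Finset.sum_mul, hgauss, hζ', P3g_aux_mul _ (by positivity) w' _ hw'0]
    unfold kap3
    ring
  rw [hsplit, ← Finset.sum_sub_distrib]
  calc ‖∑ a ∈ Finset.Icc 1 q, (χ ((a : ℕ) : ZMod q) * exp (-(2 * Real.pi * I * a * m0 / q)) * A3 q a y ζ -
        χ ((a : ℕ) : ZMod q) * exp (-(2 * Real.pi * I * a * m0 / q)) *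
        (Gamma (1 - (y : ℂ) * I) * ζ ^ ((y : ℂ) * I - 1) / q))‖
      ≤ ∑ a ∈ Finset.Icc 1 q, C := by
        refine (norm_sum_le _ _).trans (Finset.sum_le_sum fun a ha => ?_)
        obtain ⟨ha1, ha2⟩ := Finset.mem_Icc.mp ha
        rw [← mul_sub, norm_mul, norm_mul]
        have hn1 : ‖exp (-(2 * Real.pi * I * a * m0 / q))‖ = 1 := by
          have : -(2 * Real.pi * I * a * m0 / q) = ((-(2 * Real.pi * a * m0 / q) : ℝ) : ℂ) * I := by
            push_cast; ring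
          rw [this, Complex.norm_exp_ofReal_mul_I]
        rw [hn1, mul_one]
        calc ‖χ ((a : ℕ) : ZMod q)‖ * ‖A3 q a y ζ - Gamma (1 - (y : ℂ) * I) * ζ ^ ((y : ℂ) * I - 1) / q‖
            ≤ 1 * C := mul_le_mul (DirichletCharacter.norm_le_one χ _) (hA a ζ ha1 ha2 hζre hζim) (norm_nonneg _) zero_le_one
          _ = C := one_mul _
    _ = q * C := by
        rw [Finset.sum_const, Nat.card_Icc]; simp

/-- one term of the sum is bounded when the pole is not the nearest one -/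
theorem P3g_aux_term {q : ℕ} [NeZero q] (χ : DirichletCharacter ℂ q) (y : ℝ) (w : ℂ) (h0 : 0 < w.re) (m0 m : ℕ)
    (hm : |q * w.im - m0| ≤ 1 / 2) (hne : m ≠ m0) :
    ‖χ ((m : ℕ) : ZMod q) * (w - I * m / q) ^ ((y : ℂ) * I - 1)‖ ≤ Real.exp (Real.pi * |y| / 2) * (2 * q) := by
  have hq : (0 : ℝ) < q := by exact_mod_cast Nat.pos_of_ne_zero (NeZero.ne q)
  have h1 : 1 / 2 ≤ |q * w.im - m| := by
    have h2 : (1 : ℝ) ≤ |(m : ℝ) - m0| := by
      have h3 : (1 : ℤ) ≤ |(m : ℤ) - m0| := by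
        apply Int.one_le_abs
        omega
      exact_mod_cast h3
    have h4 : |(m : ℝ) - m0| ≤ |q * w.im - m| + |q * w.im - m0| := by
      have h5 : (m : ℝ) - m0 = -(q * w.im - m) + (q * w.im - m0) := by ring
      calc |(m : ℝ) - m0| = |-(q * w.im - m) + (q * w.im - m0)| := by rw [← h5]
        _ ≤ |-(q * w.im - m)| + |q * w.im - m0| := abs_add_le _ _
        _ = _ := by rw [abs_neg]
    linarith only [h2, h4, hm]
  have h3 : (I * m / q : ℂ) = ((m / q : ℝ) : ℂ) * I := by push_cast; ring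
  have him : (w - I * m / q).im = (q * w.im - m) / q := by
    have h2 : (w - I * m / q).im = w.im - m / q := by
      rw [h3, Complex.sub_im, Complex.mul_I_im, Complex.ofReal_re]
    rw [h2]
    field_simp
  have hre : (w - I * m / q).re = w.re := by
    rw [h3, Complex.sub_re, Complex.mul_I_re, Complex.ofReal_im, neg_zero, sub_zero]
  have h4 : 1 / (2 * q) ≤ ‖w - I * m / q‖ := by
    have h4 := Complex.abs_im_le_norm (w - I * m / q)
    rw [him, abs_div, abs_of_pos hq] at h4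
    refine le_trans ?_ h4
    rw [div_le_div_iff₀ (by positivity) hq]
    have h5 := mul_le_mul_of_nonneg_right h1 (mul_pos two_pos hq).le
    linarith only [h5]
  have h5 := P3_cpow y (w - I * m / q) (by rw [hre]; exact h0)
  rw [norm_mul]
  have h6 : ‖χ ((m : ℕ) : ZMod q)‖ ≤ 1 := DirichletCharacter.norm_le_one χ _
  have h7 : (0 : ℝ) < 1 / (2 * q) := by positivity
  calc ‖χ ((m : ℕ) : ZMod q)‖ * ‖(w - I * m / q) ^ ((y : ℂ) * I - 1)‖
      ≤ 1 * (Real.exp (Real.pi * |y| / 2) / (1 / (2 * q))) := by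
        apply mul_le_mul h6 _ (norm_nonneg _) zero_le_one
        exact h5.trans (div_le_div_of_nonneg_left (Real.exp_pos _).le h7 h4)
    _ = _ := by rw [one_mul]; field_simp

theorem P3_main {q : ℕ} [NeZero q] (χ : DirichletCharacter ℂ q) (hχ : χ.IsPrimitive) (y : ℝ) : ∃ C : ℝ, 0 < C ∧
    ∀ (w : ℂ) (M : ℕ), 0 < w.re → 0 ≤ w.im → q * w.im ≤ M - 1 / 2 →
    ‖Th3 χ y w - kap3 χ y * ∑ m ∈ Finset.Icc 1 M, (χ⁻¹ : DirichletCharacter ℂ q) ((m : ℕ) : ZMod q) *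
      (w - I * m / q) ^ ((y : ℂ) * I - 1)‖ ≤ C * (M + 1 / ‖w‖) := by
  have hq : (0 : ℝ) < q := by exact_mod_cast Nat.pos_of_ne_zero (NeZero.ne q)
  obtain ⟨C, hC, hnear⟩ := P3_near χ hχ y
  obtain ⟨c, hc⟩ : ∃ c : ℂ, c = kap3 χ y := ⟨_, rfl⟩
  obtain ⟨E, hE⟩ : ∃ E : ℝ, E = Real.exp (Real.pi * |y| / 2) := ⟨_, rfl⟩
  have hE0 : 0 < E := by rw [hE]; exact Real.exp_pos _
  refine ⟨C + ‖c‖ * (E * (2 * q)) + ‖c‖ * E, by positivity, ?_⟩
  intro w M h0 hi hM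
  rw [← hc]
  have hqw : 0 ≤ q * w.im := by positivity
  have hM1 : (1 : ℝ) ≤ M := by
    have h2 : (0 : ℝ) < M := by linarith only [hqw, hM]
    exact_mod_cast h2
  set m0 : ℕ := ⌊q * w.im + 1 / 2⌋₊ with hm0
  have hfl : (m0 : ℝ) ≤ q * w.im + 1 / 2 := Nat.floor_le (by linarith only [hqw])
  have hfl2 : q * w.im + 1 / 2 < m0 + 1 := Nat.lt_floor_add_one _
  have hm : |q * w.im - m0| ≤ 1 / 2 := by
    rw [abs_le]
    constructor
    · linarith only [hfl]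
    · linarith only [hfl2]
  have hm0M : m0 ≤ M := by
    have h2 : (m0 : ℝ) ≤ M := by linarith only [hfl, hM]
    exact_mod_cast h2
  set T : ℕ → ℂ := fun m => (χ⁻¹ : DirichletCharacter ℂ q) ((m : ℕ) : ZMod q) *
    (w - I * m / q) ^ ((y : ℂ) * I - 1) with hT
  have hnear' : ‖Th3 χ y w - c * T m0‖ ≤ C := by
    have h := hnear w m0 h0 hm
    rw [← hc] at h
    exact h
  have hTle : ∀ m, m ≠ m0 → ‖T m‖ ≤ E * (2 * q) := fun m hne => by
    rw [hE]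
    exact P3g_aux_term χ⁻¹ y w h0 m0 m hm hne
  have hw0 : 0 < ‖w‖ := by
    rw [norm_pos_iff]
    rintro rfl
    simp at h0
  have hinv : 0 < 1 / ‖w‖ := by positivity
  have hrest : ∀ S : Finset ℕ, (∀ m ∈ S, m ≠ m0) → S.card ≤ M → ‖c * ∑ m ∈ S, T m‖ ≤ ‖c‖ * (E * (2 * q)) * M := by
    intro S hS hcard
    rw [norm_mul]
    have h2 : ‖∑ m ∈ S, T m‖ ≤ S.card * (E * (2 * q)) := by
      refine (norm_sum_le _ _).trans ?_
      refine (Finset.sum_le_sum fun m hm' => hTle m (hS m hm')).trans ?_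
      simp
    have h3 : (S.card : ℝ) ≤ M := by exact_mod_cast hcard
    calc ‖c‖ * ‖∑ m ∈ S, T m‖ ≤ ‖c‖ * (S.card * (E * (2 * q))) :=
          mul_le_mul_of_nonneg_left h2 (norm_nonneg _)
      _ ≤ ‖c‖ * (M * (E * (2 * q))) := mul_le_mul_of_nonneg_left
          (mul_le_mul_of_nonneg_right h3 (by positivity)) (norm_nonneg _)
      _ = ‖c‖ * (E * (2 * q)) * M := by ring
  have hfinal : C + ‖c‖ * E * (1 / ‖w‖) + ‖c‖ * (E * (2 * q)) * M ≤
      (C + ‖c‖ * (E * (2 * q)) + ‖c‖ * E) * (M + 1 / ‖w‖) := by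
    have e1 : C ≤ C * M := le_mul_of_one_le_right hC.le hM1
    have e2 : 0 ≤ C * (1 / ‖w‖) := by positivity
    have e3 : 0 ≤ ‖c‖ * (E * (2 * q)) * (1 / ‖w‖) := by positivity
    have e4 : 0 ≤ ‖c‖ * E * M := by positivity
    have e5 : (C + ‖c‖ * (E * (2 * q)) + ‖c‖ * E) * (M + 1 / ‖w‖) = C * M + C * (1 / ‖w‖) +
        ‖c‖ * (E * (2 * q)) * M + ‖c‖ * (E * (2 * q)) * (1 / ‖w‖) + ‖c‖ * E * M + ‖c‖ * E * (1 / ‖w‖) := by ring
    rw [e5]
    linarith only [e1, e2, e3, e4]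
  by_cases hz : m0 = 0
  · have hsplit : Th3 χ y w - c * ∑ m ∈ Finset.Icc 1 M, T m =
        (Th3 χ y w - c * T m0) + c * T m0 - c * ∑ m ∈ Finset.Icc 1 M, T m := by ring
    have hT0 : ‖c * T m0‖ ≤ ‖c‖ * E * (1 / ‖w‖) := by
      rw [norm_mul, mul_assoc]
      apply mul_le_mul_of_nonneg_left _ (norm_nonneg _)
      simp only [hT, hz]
      rw [norm_mul]
      have h3 : (w - I * ((0 : ℕ) : ℂ) / q : ℂ) = w := by simp
      rw [h3]
      have h4 := P3_cpow y w h0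
      rw [← hE] at h4
      calc ‖(χ⁻¹ : DirichletCharacter ℂ q) ((0 : ℕ) : ZMod q)‖ * ‖w ^ ((y : ℂ) * I - 1)‖ ≤ 1 * (E / ‖w‖) :=
            mul_le_mul (DirichletCharacter.norm_le_one _ _) h4 (norm_nonneg _) zero_le_one
        _ = E * (1 / ‖w‖) := by ring
    have hr := hrest (Finset.Icc 1 M) (fun m hm' => by
      rw [Finset.mem_Icc] at hm'
      omega) (by simp)
    rw [hsplit]
    refine (norm_sub_le _ _).trans ?_
    refine (add_le_add ((norm_add_le _ _).trans (add_le_add hnear' hT0)) hr).trans hfinal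
  · have hmem : m0 ∈ Finset.Icc 1 M := Finset.mem_Icc.2 ⟨Nat.pos_of_ne_zero hz, hm0M⟩
    have hsplit : Th3 χ y w - c * ∑ m ∈ Finset.Icc 1 M, T m =
        (Th3 χ y w - c * T m0) - c * ∑ m ∈ (Finset.Icc 1 M).erase m0, T m := by
      rw [← Finset.add_sum_erase _ _ hmem]
      ring
    have hr := hrest ((Finset.Icc 1 M).erase m0) (fun m hm' => Finset.ne_of_mem_erase hm')
      ((Finset.card_erase_le).trans (by simp))
    rw [hsplit]
    refine (norm_sub_le _ _).trans ?_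
    refine (add_le_add hnear' hr).trans (le_trans ?_ hfinal)
    have e2 : 0 ≤ ‖c‖ * E * (1 / ‖w‖) := by positivity
    linarith only [e2]

end OO

end
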