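import Pool.Agent.Lib.MP_0f5a55_nt.OM.K000
import Pool.Agent.Lib.MP_0f5a55_nt.OM.K006

section

/-!
# Row D_A7: elementary estimates for one pair of factors
-/

open Complex MeasureTheory Set Filter Topology
open scoped ComplexConjugate

namespace OO

theorem D_A7_re (L v : ℝ) : (ww L v).re = 1 / L := by
  unfold ww
  rw [Complex.add_re, Complex.ofReal_re, Complex.mul_re]
  simp

theorem D_A7_im (L v : ℝ) : (ww L v).im = v := by
  unfold ww
  rw [Complex.add_im, Complex.ofReal_im, Complex.mul_im]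
  simp

/-- `0 < ‖ww‖`, `1/L ≤ ‖ww‖`, `|v| ≤ ‖ww‖`, `‖ww‖ ≤ 1/L + |v|` -/
theorem D_ww (L v : ℝ) (hL : 0 < L) : 0 < ‖ww L v‖ ∧ 1 / L ≤ ‖ww L v‖ ∧
    |v| ≤ ‖ww L v‖ ∧ ‖ww L v‖ ≤ 1 / L + |v| ∧ (ww L v).re = 1 / L := by
  have h0 : 0 < 1 / L := by positivity
  have h1 : 1 / L ≤ ‖ww L v‖ := by
    have := Complex.abs_re_le_norm (ww L v)
    rw [D_A7_re, abs_of_pos h0] at this
    exact this
  have h2 : |v| ≤ ‖ww L v‖ := by
    have := Complex.abs_im_le_norm (ww L v)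
    rwa [D_A7_im] at this
  have h3 : ‖ww L v‖ ≤ 1 / L + |v| := by
    have := Complex.norm_le_abs_re_add_abs_im (ww L v)
    rwa [D_A7_re, D_A7_im, abs_of_pos h0] at this
  exact ⟨h0.trans_le h1, h1, h2, h3, D_A7_re L v⟩

theorem D_A7_sh (t u : ℝ) (ht : 0 ≤ t) : ‖(t : ℂ) * (1 + u * I)‖ ≤ t * (1 + |u|) := by
  rw [norm_mul, Complex.norm_real, Real.norm_eq_abs, abs_of_nonneg ht]
  refine mul_le_mul_of_nonneg_left ?_ ht
  refine (norm_add_le _ _).trans ?_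
  rw [norm_one, norm_mul, Complex.norm_I, mul_one, Complex.norm_real, Real.norm_eq_abs]

theorem D_A7_reom (L v e e' t t' u u' : ℝ) :
    ((e : ℂ) * ww L v / 2 + t * (1 + u * I) + (e' * ww L v / 2 + t' * (1 + u' * I))).re =
      e / 2 * (1 / L) + t + (e' / 2 * (1 / L) + t') := by
  have h1 : ∀ a b c : ℝ, ((a : ℂ) * ww L v / 2 + b * (1 + c * I)).re = a / 2 * (1 / L) + b := by
    intro a b c
    have : (a : ℂ) * ww L v / 2 + b * (1 + c * I) =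
        ((a / 2 : ℝ) : ℂ) * ww L v + (b : ℂ) * ((1 : ℝ) + (c : ℂ) * I) := by
      push_cast; ring
    rw [this, Complex.add_re, Complex.re_ofReal_mul, Complex.re_ofReal_mul, D_A7_re,
      Complex.add_re, Complex.ofReal_re, Complex.re_ofReal_mul, Complex.I_re]
    ring
  rw [Complex.add_re, h1, h1]

theorem D_pair_cases (e e' : ℝ) (he : e = 1 ∨ e = -1) (he' : e' = 1 ∨ e' = -1) :
    (e = e' ∧ |(e + e') / 2| = 1) ∨ (e ≠ e' ∧ (e + e') / 2 = 0) := by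
  rcases he with rfl | rfl <;> rcases he' with rfl | rfl
  · exact Or.inl ⟨rfl, by norm_num⟩
  · exact Or.inr ⟨by norm_num, by norm_num⟩
  · exact Or.inr ⟨by norm_num, by norm_num⟩
  · exact Or.inl ⟨rfl, by norm_num⟩

theorem D_pair_re1 (m t e : ℝ) (he : e = 1 ∨ e = -1) (hm : 0 < m) (ht : 0 ≤ t)
    (hte : e = -1 → m ≤ t) : m / 2 ≤ e / 2 * m + t ∧ e / 2 * m ≤ m / 2 := by
  rcases he with rfl | rfl
  · exact ⟨by linarith only [ht], by linarith only [hm]⟩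
  · have := hte rfl
    exact ⟨by linarith only [this], by linarith only [hm]⟩

theorem D_pair_sh (T a b t t' : ℝ) (ht1 : t ≤ T) (ht1' : t' ≤ T) (hT : 0 ≤ T)
    (ha : 1 ≤ a) (hb : 1 ≤ b) : t * a + t' * b ≤ 2 * (T * (a * b)) := by
  have ha0 := zero_le_one.trans ha
  have hb0 := zero_le_one.trans hb
  rw [two_mul]
  exact add_le_add
    (mul_le_mul ht1 (le_mul_of_one_le_right ha0 hb) ha0 hT)
    (mul_le_mul ht1' (le_mul_of_one_le_left hb0 ha) hb0 hT)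

theorem D_pair_abs (R x y : ℝ) (hR : 0 < R) (hx : 0 < x) (hy : 0 < y) (h1 : x ≤ R * y)
    (h2 : y ≤ R * x) : |Real.log x - Real.log y| ≤ Real.log R := by
  have h3 := Real.log_le_log hx h1
  have h4 := Real.log_le_log hy h2
  rw [Real.log_mul hR.ne' hy.ne'] at h3
  rw [Real.log_mul hR.ne' hx.ne'] at h4
  exact abs_sub_le_iff.2 ⟨sub_le_iff_le_add.2 h3, sub_le_iff_le_add.2 h4⟩

theorem D_pair_logR (Th a b : ℝ) (hTh : 0 < 4 * Th) (ha : 0 < a) (hb : 0 < b) :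
    Real.log (4 * Th * (a * b)) = Real.log (4 * Th) + Real.log a + Real.log b := by
  rw [Real.log_mul hTh.ne' (mul_pos ha hb).ne', Real.log_mul ha.ne' hb.ne', add_assoc]

theorem D_pair_logV (Th V a b : ℝ) (hTh : 0 < 4 * Th) (hV : 0 < V) (ha : 0 < a) (hb : 0 < b) :
    Real.log (4 * Th * V * (a * b)) =
      Real.log (4 * Th) + Real.log V + Real.log a + Real.log b := by
  rw [Real.log_mul (mul_pos hTh hV).ne' (mul_pos ha hb).ne', Real.log_mul ha.ne' hb.ne',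
    Real.log_mul hTh.ne' hV.ne', add_assoc (_ + _)]

theorem D_pair_num (P n x m s : ℝ) (hP : 1 ≤ P) (hm : 0 ≤ m) (hmn : m ≤ n)
    (hx : x ≤ n + s) (hs : s ≤ 2 * (P * m)) : x ≤ 4 * P * n := by
  have h1 : P * m ≤ P * n := mul_le_mul_of_nonneg_left hmn (zero_le_one.trans hP)
  have h2 : n ≤ P * n := le_mul_of_one_le_left (hm.trans hmn) hP
  linarith only [h1, h2, hx, hs, hm, hmn]

theorem D_pair_num2 (Th q V x : ℝ) (hTh : 1 ≤ Th) (hq : 1 ≤ q) (hV : 1 ≤ V)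
    (h : 1 + x ≤ V + 1 / 4 + q / 2) : 1 + x ≤ 4 * Th * V * q := by
  have h1 : V ≤ V * q := le_mul_of_one_le_right (zero_le_one.trans hV) hq
  have h2 : q ≤ V * q := le_mul_of_one_le_left (zero_le_one.trans hq) hV
  have h3 : V * q ≤ Th * (V * q) := le_mul_of_one_le_left
    ((zero_le_one.trans hq).trans h2) hTh
  linarith only [h, h1, h2, h3, hq]

theorem D_pair_om (L v e e' t t' u u' : ℝ) :
    (e : ℂ) * ww L v / 2 + t * (1 + u * I) + (e' * ww L v / 2 + t' * (1 + u' * I)) =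
      (((e + e') / 2 : ℝ) : ℂ) * ww L v + (t * (1 + u * I) + t' * (1 + u' * I)) := by
  push_cast
  ring

theorem D_pair_key (Th L a b n x s v : ℝ) (hTh : 1 ≤ Th) (hL : 4 * Th ≤ L) (ha : 1 ≤ a)
    (hb : 1 ≤ b) (hn : 1 / L ≤ n) (hx : 1 / L ≤ x) (hnv : n ≤ 1 / L + |v|) (hxn : x ≤ n + s)
    (hs : s ≤ 2 * (Th / L * (a * b))) :
    0 < 1 / L ∧ x ≤ 4 * Th * (a * b) * n ∧ (n ≤ x + s → n ≤ 4 * Th * (a * b) * x) ∧
      (x ≤ s → x ≤ 4 * Th * (a * b) * (1 / L) ∧ 1 / L ≤ 4 * Th * (a * b) * x) ∧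
      1 + x ≤ 4 * Th * (1 + |v|) * (a * b) := by
  have hL0 : 0 < L := lt_of_lt_of_le (by linarith only [hTh]) hL
  have hi : 0 < 1 / L := one_div_pos.2 hL0
  have hab : 1 ≤ a * b := one_le_mul_of_one_le_of_one_le ha hb
  have hP : 1 ≤ Th * (a * b) := one_le_mul_of_one_le_of_one_le hTh hab
  have hs' : s ≤ 2 * (Th * (a * b) * (1 / L)) := by
    rw [mul_one_div, mul_div_right_comm]; exact hs
  have hT4 : Th / L ≤ 1 / 4 := by
    rw [div_le_iff₀ hL0]; linarith only [hL]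
  have hi4 : 1 / L ≤ 1 / 4 := one_div_le_one_div_of_le four_pos (by linarith only [hTh, hL])
  have h5 : Th / L * (a * b) ≤ 1 / 4 * (a * b) :=
    mul_le_mul_of_nonneg_right hT4 (zero_le_one.trans hab)
  refine ⟨hi, ?_, fun h => ?_, fun h => ⟨?_, ?_⟩, ?_⟩
  · rw [mul_assoc 4]; exact D_pair_num _ n x _ s hP hi.le hn hxn hs'
  · rw [mul_assoc 4]; exact D_pair_num _ x n _ s hP hi.le hx h hs'
  · rw [mul_assoc 4]
    exact D_pair_num _ (1 / L) x _ s hP hi.le le_rfl (h.trans (le_add_of_nonneg_left hi.le)) hs'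
  · rw [mul_assoc 4]
    have h6 : x ≤ Th * (a * b) * x := le_mul_of_one_le_left (hi.le.trans hx) hP
    linarith only [h6, hx, hi]
  · exact D_pair_num2 Th _ _ x hTh hab (le_add_of_nonneg_right (abs_nonneg v))
      (by linarith only [hxn, hnv, hi4, h5, hs])

/-- `w = ww L v = 1/L + i v`, `sh = t (1 + i u) + t' (1 + i u')`, `om = ((e + e')/2) w + sh`.
`‖sh‖ ≤ Th (2 + |u| + |u'|)/L ≤ 2 Th U/L`, `U = (1+|u|)(1+|u'|)`. Real part: `e/(2L) + t ≥ 1/(2L)` in both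
cases, so `re om ≥ 1/L`, and `re om ≤ (1 + 2 Th)/L ≤ 3/4`.
If `e = e'`: `om = ± w + sh`, `‖w‖ ≥ 1/L`, `‖om‖ ≥ 1/L`, so `‖om‖ ≤ ‖w‖ (1 + 2 Th U) ≤ 3 Th U ‖w‖` and
`‖w‖ ≤ ‖om‖ + ‖sh‖ ≤ 3 Th U ‖om‖`. If `e ≠ e'`: `om = sh`, `1/L ≤ ‖om‖ ≤ 2 Th U/L`.
`1 + ‖om‖ ≤ 1 + ‖w‖ + ‖sh‖ ≤ 2 + |v| + 2 Th U ≤ 4 Th (1+|v|) U`. `K = log (4 Th)`. -/
theorem D_pair (Th : ℝ) (hTh : 1 ≤ Th) : ∃ K : ℝ, 0 ≤ K ∧ ∀ L v : ℝ, 4 * Th ≤ L →
    ∀ e e' t t' u u' : ℝ, (e = 1 ∨ e = -1) → (e' = 1 ∨ e' = -1) → 0 ≤ t → t ≤ Th / L →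
    0 ≤ t' → t' ≤ Th / L → (e = -1 → 1 / L ≤ t) → (e' = -1 → 1 / L ≤ t') →
    ∀ om : ℂ, om = e * ww L v / 2 + t * (1 + u * I) + (e' * ww L v / 2 + t' * (1 + u' * I)) →
      0 < om.re ∧ om.re ≤ 1 ∧
      |Real.log ‖om‖ - (if e = e' then Real.log ‖ww L v‖ else -Real.log L)| ≤
        K + Real.log (1 + |u|) + Real.log (1 + |u'|) ∧
      Real.log (1 + ‖om‖) ≤
        K + Real.log (1 + |v|) + Real.log (1 + |u|) + Real.log (1 + |u'|) := by
  refine ⟨Real.log (4 * Th), Real.log_nonneg (by linarith only [hTh]), ?_⟩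
  intro L v hL e e' t t' u u' he he' ht ht1 ht' ht1' hte hte' om hom
  have hTh0 : 0 < 4 * Th := by linarith only [hTh]
  have hL0 : 0 < L := hTh0.trans_le hL
  obtain ⟨hw0, hwL, -, hwu, -⟩ := D_ww L v hL0
  have hi : 0 < 1 / L := one_div_pos.2 hL0
  have hT4 : Th / L ≤ 1 / 4 := by
    rw [div_le_iff₀ hL0]; linarith only [hL]
  have hi4 : 1 / L ≤ 1 / 4 := one_div_le_one_div_of_le four_pos (by linarith only [hTh, hL])
  have ha1 : 1 ≤ 1 + |u| := le_add_of_nonneg_right (abs_nonneg u)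
  have hb1 : 1 ≤ 1 + |u'| := le_add_of_nonneg_right (abs_nonneg u')
  have hre := D_A7_reom L v e e' t t' u u'
  rw [← hom] at hre
  rw [D_pair_om] at hom
  obtain ⟨hr1, hr2⟩ := D_pair_re1 (1 / L) t e he hi ht hte
  obtain ⟨hr3, hr4⟩ := D_pair_re1 (1 / L) t' e' he' hi ht' hte'
  have hre1 : 1 / L ≤ om.re := by rw [hre]; linarith only [hr1, hr3]
  have hre2 : om.re ≤ 1 := by
    rw [hre]; linarith only [hr2, hr4, ht1, ht1', hT4, hi4]
  have hom1 : 1 / L ≤ ‖om‖ := hre1.trans (Complex.re_le_norm om)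
  generalize hsh : (t : ℂ) * (1 + u * I) + t' * (1 + u' * I) = sh at hom
  have hshn : ‖sh‖ ≤ 2 * (Th / L * ((1 + |u|) * (1 + |u'|))) := by
    rw [← hsh]
    exact ((norm_add_le _ _).trans (add_le_add (D_A7_sh t u ht) (D_A7_sh t' u' ht'))).trans
      (D_pair_sh _ _ _ t t' ht1 ht1' (ht.trans ht1) ha1 hb1)
  have hc1 : |(e + e') / 2| ≤ 1 := by
    rcases D_pair_cases e e' he he' with h | h
    · exact h.2.le
    · rw [h.2, abs_zero]; exact zero_le_one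
  have hcw : ‖(((e + e') / 2 : ℝ) : ℂ) * ww L v‖ = |(e + e') / 2| * ‖ww L v‖ := by
    rw [norm_mul, Complex.norm_real, Real.norm_eq_abs]
  have hxn : ‖om‖ ≤ ‖ww L v‖ + ‖sh‖ := by
    rw [hom]
    refine (norm_add_le _ _).trans (add_le_add ?_ le_rfl)
    rw [hcw]
    exact mul_le_of_le_one_left hw0.le hc1
  have ha0 : 0 < 1 + |u| := zero_lt_one.trans_le ha1
  have hb0 : 0 < 1 + |u'| := zero_lt_one.trans_le hb1
  have hR0 : 0 < 4 * Th * ((1 + |u|) * (1 + |u'|)) := mul_pos hTh0 (mul_pos ha0 hb0)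
  obtain ⟨-, hk1, hk2, hk3, hk4⟩ := D_pair_key Th L (1 + |u|) (1 + |u'|) ‖ww L v‖ ‖om‖ ‖sh‖ v
    hTh hL ha1 hb1 hwL hom1 hwu hxn hshn
  refine ⟨hi.trans_le hre1, hre2, ?_, ?_⟩
  · rw [← D_pair_logR Th _ _ hTh0 ha0 hb0]
    rcases D_pair_cases e e' he he' with h | h
    · rw [if_pos h.1]
      refine D_pair_abs _ _ _ hR0 (hi.trans_le hom1) hw0 hk1 (hk2 ?_)
      have h7 : ‖ww L v‖ = ‖om - sh‖ := by
        rw [hom, add_sub_cancel_right, hcw, h.2, one_mul]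
      rw [h7]
      exact norm_sub_le _ _
    · rw [if_neg h.1, ← Real.log_inv, ← one_div]
      have h7 : ‖om‖ ≤ ‖sh‖ := by
        rw [hom, h.2, Complex.ofReal_zero, zero_mul, zero_add]
      exact D_pair_abs _ _ _ hR0 (hi.trans_le hom1) hi (hk3 h7).1 (hk3 h7).2
  · have hv0 : 0 < 1 + |v| := zero_lt_one.trans_le (le_add_of_nonneg_right (abs_nonneg v))
    rw [← D_pair_logV Th _ _ _ hTh0 hv0 ha0 hb0]
    exact Real.log_le_log (zero_lt_one.trans_le (le_add_of_nonneg_right (norm_nonneg om))) hk4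

end OO

end

section

/-!
# Row D_A9: one term of the double sum
-/

open Complex MeasureTheory Set Filter Topology
open scoped ComplexConjugate

namespace OO

/-- `sg s j` is `1` or `-1` -/
theorem D_sg (s : Fin 2 → ℝ) (hs : ∀ i, s i = 1 ∨ s i = -1) (j : Fin 6) :
    sg s j = 1 ∨ sg s j = -1 := by
  have h0 := hs 0
  have h1 := hs 1
  fin_cases j <;> simp [sg, sgn] <;> assumption

/-- `re (AA j) ≥ 1/2 + 1/(2L)` (sign `1`: `t_j ≥ 0`; sign `-1`: `t_j ≥ 1/L`) and the same for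
`re (AB j) + t_j` -/
theorem D_AA_re (L Th v : ℝ) (hL : 0 < L) (s : Fin 2 → ℝ) (hs : ∀ i, s i = 1 ∨ s i = -1)
    (t u : Fin 6 → ℝ) (ht : Ad L Th s t) (j : Fin 6) :
    1 / 2 + 1 / (2 * L) ≤ (AA L v s t u j).re ∧ 1 / 2 + 1 / (2 * L) ≤ (AB L v s j).re + t j := by
  have hw : (ww L v).re = 1 / L := by
    rw [ww, add_re, ofReal_re, re_ofReal_mul, I_re, mul_zero, add_zero]
  have hB : (AB L v s j).re = 1 / 2 + sg s j * (1 / L) / 2 := by
    have e1 : AB L v s j = ((1 / 2 : ℝ) : ℂ) + ((sg s j / 2 : ℝ) : ℂ) * ww L v := by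
      rw [AB]
      push_cast
      ring
    rw [e1, add_re, ofReal_re, re_ofReal_mul, hw]
    ring
  have hA : (AA L v s t u j).re = (AB L v s j).re + t j := by
    have e2 : (t j : ℂ) * (1 + u j * I) = ((t j : ℝ) : ℂ) + ((t j * u j : ℝ) : ℂ) * I := by
      push_cast
      ring
    rw [AA, e2, add_re, add_re, ofReal_re, re_ofReal_mul, I_re, mul_zero, add_zero]
  have key : 1 / 2 + 1 / (2 * L) ≤ (AB L v s j).re + t j := by
    rw [hB]
    have e3 : 1 / (2 * L) = 1 / L / 2 := by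
      field_simp
    rw [e3]
    obtain ⟨h1, _, h3⟩ := ht j
    rcases D_sg s hs j with h | h
    · rw [h]
      linarith
    · have h4 := h3 h
      rw [h]
      linarith
  exact ⟨by rw [hA]; exact key, key⟩

/-- For one pair: `co_j co_k R ≤ |co_j co_k| (K1 + 2 log (1+‖om‖)) - [fm j = fm k] co_j co_k log ‖om‖`
from `RB` (both signs of `co_j co_k`), then `D_pair`, with `K = K1 + 3 K0`. Note
`AA j + AA' k = 1 + om`, `om` as in `D_pair` with `e = sg s j`, `e' = sg s k`. -/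
theorem D_pair_term (F : Fin 2 → ℕ → ℂ) (K1 : ℝ) (hRB : RB F K1) (Th : ℝ) (hTh : 1 ≤ Th) :
    ∃ K : ℝ, ∀ L v : ℝ, 4 * Th ≤ L → ∀ s : Fin 2 → ℝ, (∀ i, s i = 1 ∨ s i = -1) →
    ∀ t t' u u' : Fin 6 → ℝ, Ad L Th s t → Ad L Th s t' → ∀ j k : Fin 6,
    co j * co k * Rp (fun n => F (fm j) n * conj (F (fm k) n))
        (AA L v s t u j + AA L v s t' u' k) ≤
      |co j * co k| * (K + 2 * Real.log (1 + |v|) + 3 * Real.log (1 + |u j|) +
        3 * Real.log (1 + |u' k|)) -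
      (if fm j = fm k then co j * co k *
        (if sg s j = sg s k then Real.log ‖ww L v‖ else -Real.log L) else 0) := by
  obtain ⟨K0, hK0, hp⟩ := D_pair Th hTh
  refine ⟨K1 + 3 * K0, ?_⟩
  intro L v hL s hs t t' u u' ht ht' j k
  obtain ⟨a1, a2, a3⟩ := ht j
  obtain ⟨b1, b2, b3⟩ := ht' k
  obtain ⟨c1, c2, c3, c4⟩ := hp L v hL (sg s j) (sg s k) (t j) (t' k) (u j) (u' k) (D_sg s hs j)
    (D_sg s hs k) a1 a2 b1 b2 a3 b3 _ rfl
  have hAA : AA L v s t u j + AA L v s t' u' k = 1 + ((sg s j : ℂ) * ww L v / 2 +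
      t j * (1 + u j * I) + ((sg s k : ℂ) * ww L v / 2 + t' k * (1 + u' k * I))) := by
    rw [AA, AA, AB, AB]
    ring
  rw [hAA]
  have hR := hRB (fm j) (fm k) _ c1 c2
  generalize (sg s j : ℂ) * ww L v / 2 + t j * (1 + u j * I) +
    ((sg s k : ℂ) * ww L v / 2 + t' k * (1 + u' k * I)) = om at *
  generalize Rp (fun n => F (fm j) n * conj (F (fm k) n)) (1 + om) = R at *
  generalize (if sg s j = sg s k then Real.log ‖ww L v‖ else -Real.log L) = X at *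
  generalize co j * co k = c at *
  have hu : 0 ≤ Real.log (1 + |u j|) := Real.log_nonneg (by linarith [abs_nonneg (u j)])
  have hu' : 0 ≤ Real.log (1 + |u' k|) := Real.log_nonneg (by linarith [abs_nonneg (u' k)])
  generalize Real.log (1 + |u j|) = a at *
  generalize Real.log (1 + |u' k|) = b at *
  generalize Real.log (1 + |v|) = lv at *
  generalize Real.log (1 + ‖om‖) = lo at *
  have hc := abs_nonneg c
  split_ifs at hR ⊢ with hf
  · have e1 : c * R + c * X = c * (R + Real.log ‖om‖) - c * (Real.log ‖om‖ - X) := by ring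
    have e2 : c * (R + Real.log ‖om‖) ≤ |c| * (K1 + 2 * lo) :=
      (le_abs_self _).trans (by rw [abs_mul]; exact mul_le_mul_of_nonneg_left hR hc)
    have e3 : -(c * (Real.log ‖om‖ - X)) ≤ |c| * (K0 + a + b) :=
      (neg_le_abs _).trans (by rw [abs_mul]; exact mul_le_mul_of_nonneg_left c3 hc)
    have e4 : |c| * lo ≤ |c| * (K0 + lv + a + b) := mul_le_mul_of_nonneg_left c4 hc
    nlinarith
  · rw [add_zero] at hR
    have e2 : c * R ≤ |c| * (K1 + 2 * lo) :=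
      (le_abs_self _).trans (by rw [abs_mul]; exact mul_le_mul_of_nonneg_left hR hc)
    have e4 : |c| * lo ≤ |c| * (K0 + lv + a + b) := mul_le_mul_of_nonneg_left c4 hc
    have e5 : 0 ≤ |c| * (K0 + a + b) := by positivity
    nlinarith

end OO

end

section

open Complex MeasureTheory Set Filter Topology
open scoped ComplexConjugate

namespace OO

variable {q1 q2 : ℕ}

/-- OX06. The transform of `M(1/2 + it)`, shifted.

Proof. `x = exp (2πη)`, `η = ξ - ψ/(2π)`, so `x = exp (2πξ - ψ)`. `x ^ (-(1/2 + it)) = exp (-(1/2 + it) 2πη) = x^{-1/2} exp (-2πitη)`; so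
`T_ft m η = x^{1/2} ∫ m(t) x^{-(1/2+it)} dt = 2π x^{1/2} (gg x - R0/x)` by `T_gg_line`. And `T_ft (t ↦ u e^{iψt} m(t)) ξ = u T_ft m η` since
`exp (-2πitξ) exp (iψt) = exp (-2πit(ξ - ψ/(2π)))`. Norm squared with `‖u‖ = 1`: `4π² x ‖gg x - R0/x‖²`. -/
theorem X_ftm [NeZero q1] [NeZero q2] (χ1 : DirichletCharacter ℂ q1) (χ2 : DirichletCharacter ℂ q2)
    (b : ℕ → ℂ) (H : ℕ) (ε : ℝ) (R0 u : ℂ) (hu : ‖u‖ = 1)
    (h : ∀ x : ℝ, 0 < x → ∫ t : ℝ, MM χ1 χ2 b H ε (1 / 2 + t * I) * (x : ℂ) ^ (-(1 / 2 + t * I : ℂ)) =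
      2 * Real.pi * (gg b H (lamF (ch χ1) (ch χ2)) ε x - R0 / x)) (ψ ξ : ℝ) :
    ‖T_ft (fun t => u * exp (((ψ * t : ℝ) : ℂ) * I) * MM χ1 χ2 b H ε (1 / 2 + t * I)) ξ‖ ^ 2 =
      4 * Real.pi ^ 2 * (Real.exp (2 * Real.pi * ξ - ψ) *
        ‖gg b H (lamF (ch χ1) (ch χ2)) ε (Real.exp (2 * Real.pi * ξ - ψ)) - R0 / (Real.exp (2 * Real.pi * ξ - ψ) : ℂ)‖ ^ 2) := by
  set y : ℝ := 2 * Real.pi * ξ - ψ with hy
  have hx : 0 < Real.exp y := Real.exp_pos y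
  have hpow : ∀ t : ℝ, ((Real.exp y : ℝ) : ℂ) ^ (-(1 / 2 + t * I : ℂ)) =
      exp (((-(y / 2) : ℝ) : ℂ)) * exp (((-(t * y) : ℝ) : ℂ) * I) := by
    intro t
    rw [cpow_def_of_ne_zero (by exact_mod_cast hx.ne'), ← ofReal_log hx.le, Real.log_exp, ← exp_add]
    congr 1
    push_cast
    ring
  have hint : ∀ t : ℝ, exp (((-(2 * Real.pi * t * ξ) : ℝ) : ℂ) * I) *
      (u * exp (((ψ * t : ℝ) : ℂ) * I) * MM χ1 χ2 b H ε (1 / 2 + t * I)) =
      (u * exp (((y / 2 : ℝ) : ℂ))) *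
        (MM χ1 χ2 b H ε (1 / 2 + t * I) * ((Real.exp y : ℝ) : ℂ) ^ (-(1 / 2 + t * I : ℂ))) := by
    intro t
    rw [hpow]
    have e1 : exp (((-(2 * Real.pi * t * ξ) : ℝ) : ℂ) * I) * exp (((ψ * t : ℝ) : ℂ) * I) =
        exp (((y / 2 : ℝ) : ℂ)) * (exp (((-(y / 2) : ℝ) : ℂ)) * exp (((-(t * y) : ℝ) : ℂ) * I)) := by
      rw [← exp_add, ← exp_add, ← exp_add]
      congr 1
      rw [hy]
      push_cast
      ring
    linear_combination (u * MM χ1 χ2 b H ε (1 / 2 + t * I)) * e1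
  have hval : T_ft (fun t => u * exp (((ψ * t : ℝ) : ℂ) * I) * MM χ1 χ2 b H ε (1 / 2 + t * I)) ξ =
      (u * exp (((y / 2 : ℝ) : ℂ))) *
        (2 * Real.pi * (gg b H (lamF (ch χ1) (ch χ2)) ε (Real.exp y) - R0 / (Real.exp y : ℂ))) := by
    unfold T_ft
    rw [integral_congr_ae (Filter.Eventually.of_forall hint), integral_const_mul, h _ hx]
  rw [hval, norm_mul, norm_mul, hu, one_mul, mul_pow, norm_mul, mul_pow]
  have e2 : ‖exp (((y / 2 : ℝ) : ℂ))‖ ^ 2 = Real.exp y := by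
    rw [norm_exp, ofReal_re, ← Real.exp_nat_mul]
    congr 1
    push_cast
    ring
  have e3 : ‖(2 * Real.pi : ℂ)‖ ^ 2 = 4 * Real.pi ^ 2 := by
    have : (2 * Real.pi : ℂ) = ((2 * Real.pi : ℝ) : ℂ) := by push_cast; ring
    rw [this, norm_real, Real.norm_of_nonneg (by positivity)]
    ring
  rw [e2, e3]
  ring

end OO

end
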