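import Pool.Agent.Lib.MP_0f5a55_nt.OM.K000
import Pool.Agent.Lib.MP_0f5a55_nt.OM.K013
import Pool.Agent.Lib.MP_0f5a55_nt.OM.K020

section

open Complex MeasureTheory Set Filter Topology
open scoped ComplexConjugate

namespace OO

variable {q1 q2 : ℕ}

theorem T_Sg_aux1 {y : ℝ} (hy : 0 ≤ y) : 0 ≤ Real.arctan y ∧ Real.arctan y ≤ y := by
  have h0 : 0 ≤ Real.arctan y := Real.arctan_nonneg.2 hy
  refine ⟨h0, ?_⟩
  have := Real.le_tan h0 (Real.arctan_lt_pi_div_two y)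
  rwa [Real.tan_arctan] at this

theorem T_Sg_aux2 (y : ℝ) : exp (((Real.arctan y : ℝ) : ℂ) * I) * (Real.sqrt (1 + y ^ 2) : ℂ) = 1 + y * I := by
  have hr : 0 < Real.sqrt (1 + y ^ 2) := Real.sqrt_pos.2 (by positivity)
  have hr' : (Real.sqrt (1 + y ^ 2) : ℂ) ≠ 0 := by exact_mod_cast hr.ne'
  rw [Complex.exp_mul_I, ← Complex.ofReal_cos, ← Complex.ofReal_sin, Real.cos_arctan, Real.sin_arctan]
  push_cast
  field_simp

theorem T_Sg_aux3 (y : ℝ) : exp (-(((Real.arctan y : ℝ) : ℂ) * I)) * (Real.sqrt (1 + y ^ 2) : ℂ) = 1 - y * I := by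
  have h := T_Sg_aux2 (-y)
  rw [Real.arctan_neg] at h
  push_cast at h
  rw [neg_mul] at h
  rw [show (1 : ℂ) - y * I = 1 + -(y : ℂ) * I by ring, ← h]
  simp

/-- OT13. The phase correction.

Proof. `y = e^{-πt}`, `θ = arctan y ∈ (0, π/2)`. For `k = ±1`: `1 + k i y = sqrt (1+y²) e^{ikθ}` (`cos θ = 1/sqrt (1+y²)`,
`sin θ = y / sqrt (1+y²)`: `Real.cos_arctan`, `Real.sin_arctan`). So `(1 + k1 i y)(1 + k2 i y) = (1+y²) e^{i(k1+k2)θ} = (1+y²) sg²`,
`y² = e^{-2πt}`. `‖e^{iα} - 1‖ ≤ |α|` and `|(k1+k2)/2| ≤ 1`, `arctan y ≤ y` for `y ≥ 0`. -/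
theorem T_sg_facts (χ1 : DirichletCharacter ℂ q1) (χ2 : DirichletCharacter ℂ q2)
    (h1 : T_kp χ1 = 1 ∨ T_kp χ1 = -1) (h2 : T_kp χ2 = 1 ∨ T_kp χ2 = -1) :
    Continuous (T_sg χ1 χ2) ∧ (∀ t, ‖T_sg χ1 χ2 t‖ = 1) ∧
    (∀ t, ‖T_sg χ1 χ2 t - 1‖ ≤ Real.exp (-(Real.pi * t))) ∧
    ∀ t, T_sg χ1 χ2 t ^ 2 * (1 + (Real.exp (-(2 * Real.pi * t)) : ℂ)) =
      (1 + T_kp χ1 * I * (Real.exp (-(Real.pi * t)) : ℂ)) * (1 + T_kp χ2 * I * (Real.exp (-(Real.pi * t)) : ℂ)) := by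
  refine ⟨?_, ?_, ?_, ?_⟩
  · unfold T_sg
    have h : Continuous fun t : ℝ => (T_kp χ1 + T_kp χ2) / 2 * Real.arctan (Real.exp (-(Real.pi * t))) := by
      refine continuous_const.mul (Real.continuous_arctan.comp ?_)
      fun_prop
    exact Complex.continuous_exp.comp ((Complex.continuous_ofReal.comp h).mul continuous_const)
  · intro t
    unfold T_sg
    exact Complex.norm_exp_ofReal_mul_I _
  · intro t
    unfold T_sg
    rw [mul_comm _ I]
    refine Real.norm_exp_I_mul_ofReal_sub_one_le.trans ?_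
    obtain ⟨h0, hle⟩ := T_Sg_aux1 (Real.exp_nonneg (-(Real.pi * t)))
    rw [Real.norm_eq_abs, abs_mul, abs_of_nonneg h0]
    have hk : |(T_kp χ1 + T_kp χ2) / 2| ≤ 1 := by
      rcases h1 with h1 | h1 <;> rcases h2 with h2 | h2 <;> rw [h1, h2] <;> norm_num
    calc _ ≤ 1 * Real.arctan (Real.exp (-(Real.pi * t))) := mul_le_mul_of_nonneg_right hk h0
      _ ≤ _ := by rw [one_mul]; exact hle
  · intro t
    obtain ⟨y, hy⟩ : ∃ y : ℝ, y = Real.exp (-(Real.pi * t)) := ⟨_, rfl⟩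
    have hy2 : Real.exp (-(2 * Real.pi * t)) = y ^ 2 := by
      rw [hy, ← Real.exp_nat_mul]; congr 1; push_cast; ring
    have hsq : ((Real.sqrt (1 + y ^ 2) : ℝ) : ℂ) ^ 2 = 1 + (y : ℂ) ^ 2 := by
      rw [← Complex.ofReal_pow, Real.sq_sqrt (by positivity)]; push_cast; ring
    have ha := T_Sg_aux2 y
    have hb := T_Sg_aux3 y
    unfold T_sg
    rw [hy2, ← hy]
    generalize Real.arctan y = v at ha hb ⊢
    rcases h1 with h1 | h1 <;> rcases h2 with h2 | h2 <;> rw [h1, h2]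
    · rw [show ((1 : ℝ) + 1) / 2 * v = v by ring]
      push_cast
      rw [← hsq, ← mul_pow, ha]; ring
    · rw [show ((1 : ℝ) + -1) / 2 * v = 0 by ring]
      push_cast
      rw [zero_mul, Complex.exp_zero]
      linear_combination ((y : ℂ) ^ 2) * Complex.I_sq
    · rw [show ((-1 : ℝ) + 1) / 2 * v = 0 by ring]
      push_cast
      rw [zero_mul, Complex.exp_zero]
      linear_combination ((y : ℂ) ^ 2) * Complex.I_sq
    · rw [show ((-1 : ℝ) + -1) / 2 * v = -v by ring]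
      push_cast
      rw [← hsq, ← mul_pow, neg_mul]
      rw [hb]; ring

end OO

end

section

/-!
# Row D3_pair: one pair, with a possible pole
-/

open Complex MeasureTheory Set Filter Topology
open scoped ComplexConjugate

namespace OO

theorem D3_pole_a1 {T l x y s : ℝ} (hT : 1 ≤ T) (hl : 0 < l) (hs : s ≤ 2 * T * l) (hx : 0 < x) (hy : l ≤ y)
    (h1 : x ≤ y + s) : Real.log x ≤ Real.log (4 * T) + Real.log y := by
  have hT0 : 0 < T := one_pos.trans_le hT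
  have hy0 : 0 < y := hl.trans_le hy
  have h3 : T * l ≤ T * y := mul_le_mul_of_nonneg_left hy hT0.le
  have h4 : y ≤ T * y := le_mul_of_one_le_left hy0.le hT
  have h5 : x ≤ 4 * T * y := by
    have h6 : 0 < T * y := mul_pos hT0 hy0
    linarith only [h1, hs, h3, h4, h6]
  have h7 : 0 < 4 * T := mul_pos four_pos hT0
  rw [← Real.log_mul h7.ne' hy0.ne']
  exact Real.log_le_log hx h5

theorem D3_pole_a2 {Th m l x y s : ℝ} (hTh : 1 ≤ Th) (hm : 1 ≤ m) (hl : 0 < l) (hs : s ≤ 2 * (Th * m) * l)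
    (hx : l ≤ x) (hy : l ≤ y) (h1 : x ≤ y + s) (h2 : y ≤ x + s) :
    |Real.log x - Real.log y| ≤ Real.log (4 * Th) + Real.log m := by
  have hT : 1 ≤ Th * m := one_le_mul_of_one_le_of_one_le hTh hm
  have h3 := D3_pole_a1 hT hl hs (hl.trans_le hx) hy h1
  have h4 := D3_pole_a1 hT hl hs (hl.trans_le hy) hx h2
  have h5 : Real.log (4 * (Th * m)) = Real.log (4 * Th) + Real.log m := by
    rw [← mul_assoc, Real.log_mul (mul_pos four_pos (one_pos.trans_le hTh)).ne' (one_pos.trans_le hm).ne']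
  rw [h5] at h3 h4
  rw [abs_le]
  exact ⟨by linarith only [h4], by linarith only [h3]⟩

theorem D3_pole_a3 {Th m l x s d : ℝ} (hTh : 1 ≤ Th) (hm : 1 ≤ m) (hl : 0 < l) (hl4 : Th * l ≤ 1 / 4)
    (hs : s ≤ 2 * (Th * m) * l) (hd : 0 < d) (hx : l ≤ x) (h1 : x ≤ s + d) (h2 : d ≤ x + s) :
    |Real.log x| ≤ Real.log (4 * Th) + Real.log (1 + d) + |Real.log d| + Real.log m := by
  have hTh0 : 0 < Th := one_pos.trans_le hTh
  have hm0 : 0 < m := one_pos.trans_le hm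
  have hx0 : 0 < x := hl.trans_le hx
  have hT : 1 ≤ Th * m := one_le_mul_of_one_le_of_one_le hTh hm
  have hT0 : 0 < Th * m := one_pos.trans_le hT
  have h3 : x ≤ (1 + d) * m := by
    have h4 : Th * l * m ≤ 1 / 4 * m := mul_le_mul_of_nonneg_right hl4 hm0.le
    have h5 : d ≤ d * m := le_mul_of_one_le_right hd.le hm
    linarith only [hs, h4, h1, h5, hm0]
  have h6 : d ≤ 4 * (Th * m) * x := by
    have h7 : Th * m * l ≤ Th * m * x := mul_le_mul_of_nonneg_left hx hT0.le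
    have h8 : x ≤ Th * m * x := le_mul_of_one_le_left hx0.le hT
    linarith only [hs, h7, h8, h2, hx0]
  have h9 : 0 < 4 * Th := mul_pos four_pos hTh0
  have h10 : 0 < 1 + d := add_pos one_pos hd
  have h11 := Real.log_le_log hx0 h3
  have h12 := Real.log_le_log hd h6
  rw [Real.log_mul h10.ne' hm0.ne'] at h11
  rw [← mul_assoc, Real.log_mul (mul_pos h9 hm0).ne' hx0.ne', Real.log_mul h9.ne' hm0.ne'] at h12
  have h13 : 0 ≤ Real.log (4 * Th) := Real.log_nonneg (by linarith only [hTh])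
  have h14 : 0 ≤ Real.log (1 + d) := Real.log_nonneg (by linarith only [hd])
  have h15 : 0 ≤ |Real.log d| := abs_nonneg _
  have h16 := neg_le_abs (Real.log d)
  rw [abs_le]
  exact ⟨by linarith only [h12, h14, h16], by linarith only [h11, h13, h15]⟩

theorem D3_pole_re {e t l : ℝ} (he : e = 1 ∨ e = -1) (ht : 0 ≤ t) (hte : e = -1 → l ≤ t) :
    1 / 2 * l ≤ e / 2 * l + t := by
  rcases he with he | he
  · rw [he]; exact le_add_of_nonneg_right ht
  · have := hte he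
    rw [he]; linarith only [this]

theorem D3_pole_sh {Th L t t' a b : ℝ} (ha : 1 ≤ a) (hb : 1 ≤ b) (hTL : 0 ≤ Th * (1 / L))
    (ht1 : t ≤ Th / L) (ht1' : t' ≤ Th / L) : t * a + t' * b ≤ 2 * (Th * (a * b)) * (1 / L) := by
  rw [div_eq_mul_one_div] at ht1 ht1'
  have ha0 := zero_le_one.trans ha
  have hb0 := zero_le_one.trans hb
  have h1 : t * a ≤ Th * (1 / L) * (a * b) := mul_le_mul ht1 (le_mul_of_one_le_right ha0 hb) ha0 hTL
  have h2 : t' * b ≤ Th * (1 / L) * (a * b) := mul_le_mul ht1' (le_mul_of_one_le_left hb0 ha) hb0 hTL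
  linarith only [h1, h2]

theorem D3_pole_c0 {e : ℝ} (he : e = 1 ∨ e = -1) : (e : ℂ) * e = 1 ∧ ‖(e : ℂ)‖ = 1 := by
  rcases he with rfl | rfl
  · exact ⟨by rw [ofReal_one, one_mul], by rw [ofReal_one, norm_one]⟩
  · exact ⟨by rw [ofReal_neg, ofReal_one, neg_mul_neg, one_mul], by rw [ofReal_neg, ofReal_one, norm_neg, norm_one]⟩

theorem D3_pole_c1 {e D' : ℝ} (he : e = 1 ∨ e = -1) (w sh om : ℂ) (hom : om = e * w + sh) :
    ‖om + (D' : ℂ) * I‖ ≤ ‖w + ((e * D' : ℝ) : ℂ) * I‖ + ‖sh‖ ∧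
    ‖w + ((e * D' : ℝ) : ℂ) * I‖ ≤ ‖om + (D' : ℂ) * I‖ + ‖sh‖ := by
  obtain ⟨h1, h2⟩ := D3_pole_c0 he
  have h3 : ‖(e : ℂ) * (w + ((e * D' : ℝ) : ℂ) * I)‖ = ‖w + ((e * D' : ℝ) : ℂ) * I‖ := by
    rw [norm_mul, h2, one_mul]
  have h4 : om + (D' : ℂ) * I = (e : ℂ) * (w + ((e * D' : ℝ) : ℂ) * I) + sh := by
    rw [hom, ofReal_mul]
    linear_combination (-(D' : ℂ) * I) * h1
  rw [← h3, h4]
  refine ⟨norm_add_le _ _, ?_⟩
  have h5 := norm_sub_le ((e : ℂ) * (w + ((e * D' : ℝ) : ℂ) * I) + sh) sh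
  rwa [add_sub_cancel_right] at h5

theorem D3_pole_c2 {D' d : ℝ} (hd : |D'| = d) (sh : ℂ) :
    ‖sh + (D' : ℂ) * I‖ ≤ ‖sh‖ + d ∧ d ≤ ‖sh + (D' : ℂ) * I‖ + ‖sh‖ := by
  have h1 : ‖(D' : ℂ) * I‖ = d := by
    rw [norm_mul, Complex.norm_real, Complex.norm_I, mul_one, Real.norm_eq_abs, hd]
  rw [← h1]
  refine ⟨norm_add_le _ _, ?_⟩
  have h5 := norm_sub_le (sh + (D' : ℂ) * I) sh
  rwa [add_sub_cancel_left] at h5

theorem D3_pole_c3 (e w p q : ℂ) : e * w / 2 + p + (e * w / 2 + q) = e * w + (p + q) := by ring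

theorem D3_pole_c4 (e w p q : ℂ) : e * w / 2 + p + (-e * w / 2 + q) = p + q := by ring

theorem D3_pole_ne {e e' : ℝ} (he : e = 1 ∨ e = -1) (he' : e' = 1 ∨ e' = -1) (hne : e ≠ e') : e' = -e := by
  rcases he with rfl | rfl <;> rcases he' with rfl | rfl
  · exact absurd rfl hne
  · rfl
  · exact (neg_neg 1).symm
  · exact absurd rfl hne

theorem D3_pole_z (z : ℂ) (D' l : ℝ) (h : l ≤ z.re) : l ≤ ‖z + (D' : ℂ) * I‖ := by
  refine h.trans ?_
  have h := Complex.re_le_norm (z + (D' : ℂ) * I)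
  rwa [Complex.add_re, Complex.re_ofReal_mul, Complex.I_re, mul_zero, add_zero] at h

/-- the distance to the pole. `w = ww L v`, `sh = t (1 + i u) + t' (1 + i u')`, `om = ((e + e')/2) w + sh`, `D' = ± D`
(`D ≠ 0`), `U = (1+|u|)(1+|u'|)`. `‖sh‖ ≤ 2 Th U/L` (see `D_pair`, OO/D_A7.lean), `re om ≥ 1/L`.
If `e = e'`: `om + i D' = e w + i D' + sh`, `‖e w + i D'‖ = ‖w + i e D'‖` (`e = ±1`), both `‖om + i D'‖ ≥ re om ≥ 1/L` and
`‖w + i e D'‖ ≥ 1/L`, so the two numbers agree up to the factor `1 + 2 Th U ≤ 3 Th U`.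
If `e ≠ e'`: `om = sh`; `‖sh + i D'‖ ≤ 2 Th U/L + |D| ≤ (1 + |D|) U` (`2 Th/L ≤ 1/2`); and `‖sh + iD'‖ ≥ |D|/(4 Th U)`: this is
clear if `‖sh‖ ≤ |D|/2`; otherwise `|D|/2 < 2 Th U/L`, so `‖sh + i D'‖ ≥ re sh ≥ 1/L ≥ |D|/(4 Th U)`. -/
theorem D3_pole (Th : ℝ) (hTh : 1 ≤ Th) (D : ℝ) (hD : D ≠ 0) : ∃ K : ℝ, 0 ≤ K ∧ ∀ L v : ℝ, 4 * Th ≤ L →
    ∀ e e' t t' u u' D' : ℝ, (e = 1 ∨ e = -1) → (e' = 1 ∨ e' = -1) → (D' = D ∨ D' = -D) → 0 ≤ t → t ≤ Th / L →
    0 ≤ t' → t' ≤ Th / L → (e = -1 → 1 / L ≤ t) → (e' = -1 → 1 / L ≤ t') →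
    ∀ om : ℂ, om = e * ww L v / 2 + t * (1 + u * I) + (e' * ww L v / 2 + t' * (1 + u' * I)) →
      |Real.log ‖om + (D' : ℂ) * I‖ - (if e = e' then Real.log ‖ww L v + ((e * D' : ℝ) : ℂ) * I‖ else 0)| ≤
        K + Real.log (1 + |u|) + Real.log (1 + |u'|) := by
  have hD0 : 0 < |D| := abs_pos.2 hD
  have hk1 : 0 ≤ Real.log (4 * Th) := Real.log_nonneg (by linarith only [hTh])
  have hk2 : 0 ≤ Real.log (1 + |D|) := Real.log_nonneg (by linarith only [hD0])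
  have hk3 : 0 ≤ |Real.log (|D|)| := abs_nonneg _
  refine ⟨Real.log (4 * Th) + Real.log (1 + |D|) + |Real.log (|D|)|, add_nonneg (add_nonneg hk1 hk2) hk3, ?_⟩
  intro L v hL e e' t t' u u' D' he he' hD' ht ht1 ht' ht1' hte hte' om hom
  have hTh0 : 0 < Th := one_pos.trans_le hTh
  have hL0 : 0 < L := (mul_pos four_pos hTh0).trans_le hL
  have hDD : |D'| = |D| := by
    rcases hD' with h | h
    · rw [h]
    · rw [h, abs_neg]
  have hLi : 0 < 1 / L := one_div_pos.2 hL0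
  have hThL4 : Th * (1 / L) ≤ 1 / 4 := by
    rw [mul_one_div, div_le_div_iff₀ hL0 four_pos]; linarith only [hL]
  have hre1 : 1 / L ≤ om.re := by
    rw [hom, D_A7_reom L v e e' t t' u u']
    have h1 := D3_pole_re he ht hte
    have h2 := D3_pole_re he' ht' hte'
    linarith only [h1, h2]
  have ha1 : 1 ≤ 1 + |u| := le_add_of_nonneg_right (abs_nonneg u)
  have hb1 : 1 ≤ 1 + |u'| := le_add_of_nonneg_right (abs_nonneg u')
  have hab : 1 ≤ (1 + |u|) * (1 + |u'|) := one_le_mul_of_one_le_of_one_le ha1 hb1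
  have hshn : ‖(t : ℂ) * (1 + u * I) + t' * (1 + u' * I)‖ ≤ 2 * (Th * ((1 + |u|) * (1 + |u'|))) * (1 / L) :=
    ((norm_add_le _ _).trans (add_le_add (D_A7_sh t u ht) (D_A7_sh t' u' ht'))).trans
      (D3_pole_sh ha1 hb1 (mul_nonneg hTh0.le hLi.le) ht1 ht1')
  have hz1 := D3_pole_z om D' (1 / L) hre1
  have hlogab : Real.log ((1 + |u|) * (1 + |u'|)) = Real.log (1 + |u|) + Real.log (1 + |u'|) :=
    Real.log_mul (one_pos.trans_le ha1).ne' (one_pos.trans_le hb1).ne'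
  rw [add_assoc, ← hlogab]
  by_cases hee : e = e'
  · rw [if_pos hee]
    rw [← hee, D3_pole_c3] at hom
    obtain ⟨h1, h2⟩ := D3_pole_c1 (D' := D') he _ _ om hom
    have hz2 := D3_pole_z (ww L v) (e * D') (1 / L) (D_A7_re L v).ge
    have h3 := D3_pole_a2 hTh hab hLi hshn hz1 hz2 h1 h2
    linarith only [h3, hk2, hk3]
  · rw [if_neg hee, sub_zero]
    rw [D3_pole_ne he he' hee, ofReal_neg, D3_pole_c4] at hom
    obtain ⟨h1, h2⟩ := D3_pole_c2 hDD om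
    rw [← hom] at hshn
    exact D3_pole_a3 hTh hab hLi hThL4 hshn hD0 hz1 h1 h2

/-- As `D_pair_term` (OO/D_A9.lean; copy it): equal families: no change. Different families: `RBx` gives
`|R + b log ‖om + i D'‖| ≤ K1 + 2 log (1+‖om‖)` with `D' = if fm j = 0 then D else -D`; for `b = 1` use `D3_pole`
(`e D' = D` iff `(if fm j = 0 then 1 else -1) * sg s j = 1`, otherwise `e D' = -D`). `K = K1 + 3 K0 + K0'`. -/
theorem D3_pair_term (F : Fin 2 → ℕ → ℂ) (K1 D b : ℝ) (hb : Bx D b) (hRB : RBx F K1 D b) (Th : ℝ)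
    (hTh : 1 ≤ Th) :
    ∃ K : ℝ, ∀ L v : ℝ, 4 * Th ≤ L → ∀ s : Fin 2 → ℝ, (∀ i, s i = 1 ∨ s i = -1) →
    ∀ t t' u u' : Fin 6 → ℝ, Ad L Th s t → Ad L Th s t' → ∀ j k : Fin 6,
    co j * co k * Rp (fun n => F (fm j) n * conj (F (fm k) n))
        (AA L v s t u j + AA L v s t' u' k) ≤
      |co j * co k| * (K + 2 * Real.log (1 + |v|) + 3 * Real.log (1 + |u j|) +
        3 * Real.log (1 + |u' k|)) -
      (if fm j = fm k then co j * co k *
        (if sg s j = sg s k then Real.log ‖ww L v‖ else -Real.log L)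
        else b * (co j * co k * (if sg s j = sg s k then
          (if (if fm j = 0 then (1 : ℝ) else -1) * sg s j = 1 then Real.log ‖ww L v + (D : ℂ) * I‖
            else Real.log ‖ww L v + ((-D : ℝ) : ℂ) * I‖) else 0))) := by
  obtain ⟨K0, hK0, hp⟩ := D_pair Th hTh
  -- the constant for the pole
  obtain ⟨K2, hK2, hq⟩ : ∃ K2 : ℝ, 0 ≤ K2 ∧ ∀ L v : ℝ, 4 * Th ≤ L →
    ∀ e e' t t' u u' D' : ℝ, (e = 1 ∨ e = -1) → (e' = 1 ∨ e' = -1) → (D' = D ∨ D' = -D) → 0 ≤ t → t ≤ Th / L →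
    0 ≤ t' → t' ≤ Th / L → (e = -1 → 1 / L ≤ t) → (e' = -1 → 1 / L ≤ t') →
    ∀ om : ℂ, om = e * ww L v / 2 + t * (1 + u * I) + (e' * ww L v / 2 + t' * (1 + u' * I)) →
      |b * (Real.log ‖om + (D' : ℂ) * I‖ - (if e = e' then Real.log ‖ww L v + ((e * D' : ℝ) : ℂ) * I‖ else 0))| ≤
        K2 + Real.log (1 + |u|) + Real.log (1 + |u'|) := by
    rcases hb with hb | ⟨hb, hD⟩
    · refine ⟨0, le_rfl, ?_⟩
      intro L v hL e e' t t' u u' D' he he' hD' ht ht1 ht' ht1' hte hte' om hom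
      rw [hb, zero_mul, abs_zero, zero_add]
      have h1 : 0 ≤ Real.log (1 + |u|) := Real.log_nonneg (by linarith only [abs_nonneg u])
      have h2 : 0 ≤ Real.log (1 + |u'|) := Real.log_nonneg (by linarith only [abs_nonneg u'])
      linarith only [h1, h2]
    · obtain ⟨K2, hK2, h⟩ := D3_pole Th hTh D hD
      refine ⟨K2, hK2, ?_⟩
      intro L v hL e e' t t' u u' D' he he' hD' ht ht1 ht' ht1' hte hte' om hom
      rw [hb, one_mul]
      exact h L v hL e e' t t' u u' D' he he' hD' ht ht1 ht' ht1' hte hte' om hom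
  refine ⟨K1 + 3 * K0 + K2, ?_⟩
  intro L v hL s hs t t' u u' ht ht' j k
  obtain ⟨a1, a2, a3⟩ := ht j
  obtain ⟨b1, b2, b3⟩ := ht' k
  obtain ⟨c1, c2, c3, c4⟩ := hp L v hL (sg s j) (sg s k) (t j) (t' k) (u j) (u' k) (D_sg s hs j)
    (D_sg s hs k) a1 a2 b1 b2 a3 b3 _ rfl
  have c5 := hq L v hL (sg s j) (sg s k) (t j) (t' k) (u j) (u' k) (if fm j = 0 then D else -D) (D_sg s hs j)
    (D_sg s hs k) (by split_ifs <;> simp) a1 a2 b1 b2 a3 b3 _ rfl
  have hAA : AA L v s t u j + AA L v s t' u' k = 1 + ((sg s j : ℂ) * ww L v / 2 +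
      t j * (1 + u j * I) + ((sg s k : ℂ) * ww L v / 2 + t' k * (1 + u' k * I))) := by
    rw [AA, AA, AB, AB]
    ring
  rw [hAA]
  have hR := hRB (fm j) (fm k) _ c1 c2
  -- the values of the pole term
  have hval : (if sg s j = sg s k then Real.log ‖ww L v + ((sg s j * (if fm j = 0 then D else -D) : ℝ) : ℂ) * I‖
      else 0) = (if sg s j = sg s k then
          (if (if fm j = 0 then (1 : ℝ) else -1) * sg s j = 1 then Real.log ‖ww L v + (D : ℂ) * I‖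
            else Real.log ‖ww L v + ((-D : ℝ) : ℂ) * I‖) else 0) := by
    have n2 : ¬ ((-1 : ℝ) = 1) := by norm_num
    congr 1
    rcases D_sg s hs j with h | h
    · by_cases hf : fm j = 0
      · rw [h, if_pos hf, if_pos hf, one_mul, one_mul, if_pos rfl]
      · rw [h, if_neg hf, if_neg hf, one_mul, mul_one, if_neg n2]
    · by_cases hf : fm j = 0
      · rw [h, if_pos hf, if_pos hf, one_mul, if_neg n2, neg_one_mul]
      · rw [h, if_neg hf, if_neg hf]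
        have e1 : (-1 : ℝ) * -1 = 1 := by norm_num
        have e2 : (-1 : ℝ) * -D = D := by ring
        rw [e1, e2, if_pos rfl]
  rw [hval] at c5
  generalize (if sg s j = sg s k then
          (if (if fm j = 0 then (1 : ℝ) else -1) * sg s j = 1 then Real.log ‖ww L v + (D : ℂ) * I‖
            else Real.log ‖ww L v + ((-D : ℝ) : ℂ) * I‖) else 0) = Z at *
  generalize (if fm j = 0 then D else -D) = D' at *
  generalize (sg s j : ℂ) * ww L v / 2 + t j * (1 + u j * I) +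
    ((sg s k : ℂ) * ww L v / 2 + t' k * (1 + u' k * I)) = om at *
  generalize Rp (fun n => F (fm j) n * conj (F (fm k) n)) (1 + om) = R at *
  generalize (if sg s j = sg s k then Real.log ‖ww L v‖ else -Real.log L) = X at *
  generalize co j * co k = c at *
  have hu : 0 ≤ Real.log (1 + |u j|) := Real.log_nonneg (by linarith only [abs_nonneg (u j)])
  have hu' : 0 ≤ Real.log (1 + |u' k|) := Real.log_nonneg (by linarith only [abs_nonneg (u' k)])
  generalize Real.log (1 + |u j|) = a at *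
  generalize Real.log (1 + |u' k|) = b' at *
  generalize Real.log (1 + |v|) = lv at *
  generalize Real.log (1 + ‖om‖) = lo at *
  generalize Real.log ‖om + (D' : ℂ) * I‖ = lp at *
  have hc := abs_nonneg c
  split_ifs at hR ⊢ with hf
  · have e1 : c * R + c * X = c * (R + Real.log ‖om‖) - c * (Real.log ‖om‖ - X) := by ring
    have e2 : c * (R + Real.log ‖om‖) ≤ |c| * (K1 + 2 * lo) :=
      (le_abs_self _).trans (by rw [abs_mul]; exact mul_le_mul_of_nonneg_left hR hc)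
    have e3 : -(c * (Real.log ‖om‖ - X)) ≤ |c| * (K0 + a + b') :=
      (neg_le_abs _).trans (by rw [abs_mul]; exact mul_le_mul_of_nonneg_left c3 hc)
    have e4 : |c| * lo ≤ |c| * (K0 + lv + a + b') := mul_le_mul_of_nonneg_left c4 hc
    have e5 : 0 ≤ |c| * K2 := by positivity
    nlinarith only [e1, e2, e3, e4, e5]
  · have e1 : c * R + b * (c * Z) = c * (R + b * lp) - c * (b * (lp - Z)) := by ring
    have e2 : c * (R + b * lp) ≤ |c| * (K1 + 2 * lo) :=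
      (le_abs_self _).trans (by rw [abs_mul]; exact mul_le_mul_of_nonneg_left hR hc)
    have e3 : -(c * (b * (lp - Z))) ≤ |c| * (K2 + a + b') :=
      (neg_le_abs _).trans (by rw [abs_mul]; exact mul_le_mul_of_nonneg_left c5 hc)
    have e4 : |c| * lo ≤ |c| * (K0 + lv + a + b') := mul_le_mul_of_nonneg_left c4 hc
    have e5 : 0 ≤ |c| * K0 := by positivity
    nlinarith only [e1, e2, e3, e4, e5]

end OO

end

section

open Complex MeasureTheory Set Filter Topology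
open scoped ComplexConjugate

namespace OO

theorem T_Fe_exp (t : ℝ) : exp (((Real.pi : ℝ) : ℂ) * I * (1 / 2 + t * I)) =
    I * (Real.exp (-(Real.pi * t)) : ℂ) := by
  have h : ((Real.pi : ℝ) : ℂ) * I * (1 / 2 + t * I) =
      (Real.pi : ℂ) / 2 * I + ((-(Real.pi * t) : ℝ) : ℂ) := by
    push_cast
    linear_combination ((Real.pi : ℂ) * t) * I_sq
  rw [h, exp_add, Complex.exp_pi_div_two_mul_I, Complex.ofReal_exp]

theorem T_Fe_half (t : ℝ) : exp (((Real.pi : ℝ) : ℂ) * I * (1 / 2 + t * I)) =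
    exp ((((Real.pi / 2 : ℝ) : ℂ) * I * (1 / 2 + t * I))) *
      exp ((((Real.pi / 2 : ℝ) : ℂ) * I * (1 / 2 + t * I))) := by
  rw [← exp_add]
  congr 1
  push_cast
  ring

theorem T_Fe_ev (t : ℝ) : T_Gi (1 / 2 + t * I) * (1 + I * (Real.exp (-(Real.pi * t)) : ℂ)) =
    2 * ((2 * Real.pi : ℂ)) ^ (-(1 / 2 + t * I : ℂ)) * Gamma (1 / 2 + t * I) *
      cos (Real.pi * (1 / 2 + t * I) / 2) := by
  have h2 : exp ((((Real.pi / 2 : ℝ) : ℂ) * I * (1 / 2 + t * I))) ≠ 0 := exp_ne_zero _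
  have hc : 2 * cos (Real.pi * (1 / 2 + t * I) / 2) =
      exp ((((Real.pi / 2 : ℝ) : ℂ) * I * (1 / 2 + t * I))) +
      (exp ((((Real.pi / 2 : ℝ) : ℂ) * I * (1 / 2 + t * I))))⁻¹ := by
    rw [Complex.two_cos, ← exp_neg]
    congr 2
    · push_cast; ring
    · push_cast; ring
  unfold T_Gi
  rw [← T_Fe_exp, T_Fe_half, exp_neg]
  have e1 : ((2 * Real.pi : ℝ) : ℂ) = 2 * (Real.pi : ℂ) := by push_cast; ring
  rw [e1]
  set E := exp ((((Real.pi / 2 : ℝ) : ℂ) * I * (1 / 2 + t * I))) with hE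
  set P := (2 * (Real.pi : ℂ)) ^ (-(1 / 2 + t * I : ℂ)) with hP
  set G := Gamma (1 / 2 + t * I) with hG
  have : 2 * P * G * cos (Real.pi * (1 / 2 + t * I) / 2) =
      P * G * (2 * cos (Real.pi * (1 / 2 + t * I) / 2)) := by ring
  rw [this, hc]
  field_simp
  ring

theorem T_Fe_od (t : ℝ) : T_Gi (1 / 2 + t * I) * (1 - I * (Real.exp (-(Real.pi * t)) : ℂ)) =
    -I * (2 * ((2 * Real.pi : ℂ)) ^ (-(1 / 2 + t * I : ℂ)) * Gamma (1 / 2 + t * I) *
      sin (Real.pi * (1 / 2 + t * I) / 2)) := by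
  have h2 : exp ((((Real.pi / 2 : ℝ) : ℂ) * I * (1 / 2 + t * I))) ≠ 0 := exp_ne_zero _
  have hc : 2 * sin (Real.pi * (1 / 2 + t * I) / 2) =
      ((exp ((((Real.pi / 2 : ℝ) : ℂ) * I * (1 / 2 + t * I))))⁻¹ -
      exp ((((Real.pi / 2 : ℝ) : ℂ) * I * (1 / 2 + t * I)))) * I := by
    rw [Complex.two_sin, ← exp_neg]
    congr 3
    · push_cast; ring
    · push_cast; ring
  unfold T_Gi
  rw [← T_Fe_exp, T_Fe_half, exp_neg]
  have e1 : ((2 * Real.pi : ℝ) : ℂ) = 2 * (Real.pi : ℂ) := by push_cast; ring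
  rw [e1]
  set E := exp ((((Real.pi / 2 : ℝ) : ℂ) * I * (1 / 2 + t * I))) with hE
  set P := (2 * (Real.pi : ℂ)) ^ (-(1 / 2 + t * I : ℂ)) with hP
  set G := Gamma (1 / 2 + t * I) with hG
  have : -I * (2 * P * G * sin (Real.pi * (1 / 2 + t * I) / 2)) =
      -I * P * G * (2 * sin (Real.pi * (1 / 2 + t * I) / 2)) := by ring
  rw [this, hc]
  have h3 : -I * P * G * ((E⁻¹ - E) * I) = P * G * (E⁻¹ - E) := by
    linear_combination (-P * G * (E⁻¹ - E)) * I_sq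
  rw [h3]
  field_simp

theorem T_Fe_nn (t : ℝ) (n : ℕ) : (1 / 2 + t * I : ℂ) ≠ -(n : ℂ) := by
  intro h
  have := congrArg Complex.re h
  rw [LZ.Z03_re] at this
  simp at this
  have h0 : (0 : ℝ) ≤ n := Nat.cast_nonneg n
  linarith

theorem T_Fe_alg1 {L g h W Q c : ℂ} (hh : h ≠ 0) (hW : W ≠ 0) (hQ : Q ≠ 0)
    (e : c * h = Q * W * (L * g)) : L * (g * h⁻¹) = W⁻¹ * Q⁻¹ * c := by
  field_simp
  linear_combination -e

theorem T_Fe_alg2 {L g A : ℂ} (hg : g ≠ 0) : L * g * (A * g⁻¹) = L * A := by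
  field_simp

/-- OT12. The functional equation on the critical line.

Proof. `s = 1/2 + it`, `1 - s = conj s`, `e^{iπs} = i e^{-πt}`.
Case `q = 1` (`χ = 1`, `LX.Lf χ = riemannZeta`: `DirichletCharacter.LFunction_modOne_eq`): Mathlib `riemannZeta_one_sub`
(`ζ(1-s) = 2 (2π)^{-s} Γ(s) cos (πs/2) ζ(s)`), `ζ(conj s) = conj ζ(s)` (`LZ.conj_facts`, V06), and
`2 cos (πs/2) = e^{-iπs/2} (1 + e^{iπs})`. So `C = 1`, `T_kp χ = 1`.
General (`q > 1`, `χ` primitive, so `χ 0 = 0`): Mathlib `ZMod.LFunction_one_sub` for `Φ = χ⁻¹` (hypothesis `s ≠ -n` since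
`Re s = 1/2`): `L(1-s, χ⁻¹) = q^{s-1} (2π)^{-s} Γ(s) (e^{πis/2} L(𝓕 Φ, s) + e^{-πis/2} L(𝓕 (x ↦ Φ (-x)), s))`. For primitive `χ⁻¹` the
discrete Fourier transform is `𝓕 χ⁻¹ = τ' • χ` with `τ' = χ⁻¹(-1) * gaussSum χ⁻¹ stdAddChar`, of norm `sqrt q`
(`DirichletCharacter.fourierTransform_eq_inv_mul_gaussSum`, see Mathlib.NumberTheory.DirichletCharacter.GaussSum and the proof of
`DirichletCharacter.IsPrimitive.completedLFunction_one_sub`; norm: `gaussSum_mul_gaussSum_eq_card`-type lemma or the norm of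
`rootNumber` = 1, V65 `LX.Z03_root`, V30), `Φ (-x) = k Φ x`, `k = χ(-1) = ±1`. Hence
`conj (L(s,χ)) = L(conj s, χ⁻¹) = L(1-s, χ⁻¹) = q^{s-1} (2π)^{-s} Γ(s) τ' k e^{-iπs/2} (1 + k e^{iπs}) L(s,χ)` (`k² = 1`;
`LX.Lf_conj` in V30 for `χ ≠ 1`), i.e. the claim with `C = q / (k τ')`, `‖C‖ = sqrt q`. -/
theorem T_fe {q : ℕ} [NeZero q] (χ : DirichletCharacter ℂ q) (hχ : χ.IsPrimitive) :
    (T_kp χ = 1 ∨ T_kp χ = -1) ∧ ∃ C : ℂ, ‖C‖ = Real.sqrt q ∧ ∀ t : ℝ,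
      T_Gi (1 / 2 + t * I) * LX.Lf χ (1 / 2 + t * I) * (1 + T_kp χ * I * (Real.exp (-(Real.pi * t)) : ℂ)) =
        C * (q : ℂ) ^ (-(1 / 2 + t * I : ℂ)) * conj (LX.Lf χ (1 / 2 + t * I)) := by
  rcases Nat.lt_or_ge 1 q with hq | hq
  · -- q > 1
    have hq0 : (q : ℂ) ≠ 0 := by exact_mod_cast NeZero.ne q
    have hW1 := LX.Z03_root hχ hq
    have hW0 : DirichletCharacter.rootNumber χ⁻¹ ≠ 0 := by
      rw [← norm_ne_zero_iff, hW1]; exact one_ne_zero
    set W := DirichletCharacter.rootNumber χ⁻¹ with hW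
    have hcs : ∀ t : ℝ, conj ((1:ℂ)/2 + t * I) = 1 - (1/2 + t * I) := by
      intro t
      simp only [map_add, map_mul, conj_ofReal, conj_I, map_div₀, map_one]
      rw [Complex.conj_ofNat]
      ring
    have key : ∀ t : ℝ, LX.Lf χ (1 / 2 + t * I) * (χ.gammaFactor (1 / 2 + t * I) *
        (χ.gammaFactor (1 - (1 / 2 + t * I)))⁻¹) =
        W⁻¹ * (q : ℂ) ^ (-(t * I)) * conj (LX.Lf χ (1 / 2 + t * I)) := by
      intro t
      have h1 := LX.Z03_fe hχ hq t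
      rw [LX.Z03_comp, map_mul, ← LX.Z03_gamma_conj, hcs] at h1
      have hg : χ.gammaFactor (1 - (1 / 2 + t * I)) ≠ 0 := by
        have := LX.Z03_gne χ (-t)
        have e : (1 / 2 + ((-t : ℝ) : ℂ) * I : ℂ) = 1 - (1 / 2 + t * I) := by push_cast; ring
        rwa [e] at this
      have hq1 : (q : ℂ) ^ (t * I) ≠ 0 := by
        rw [Ne, cpow_eq_zero_iff]; tauto
      rw [cpow_neg]
      exact T_Fe_alg1 hg hW0 hq1 h1
    have hnq : ‖(q : ℂ) ^ (1 / 2 : ℂ)‖ = Real.sqrt q := by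
      rw [Complex.norm_natCast_cpow_of_pos (Nat.pos_of_ne_zero (NeZero.ne q)), Real.sqrt_eq_rpow]
      norm_num
    have hsplit : ∀ t : ℝ, (q : ℂ) ^ (-(t * I) : ℂ) =
        (q : ℂ) ^ (1 / 2 : ℂ) * (q : ℂ) ^ (-(1 / 2 + t * I : ℂ)) := by
      intro t
      rw [← cpow_add _ _ hq0]
      congr 1
      ring
    rcases χ.even_or_odd with he | ho
    · have hk : T_kp χ = 1 := by
        unfold T_kp
        rw [show χ (-1) = 1 from he]; rfl
      refine ⟨Or.inl hk, W⁻¹ * (q : ℂ) ^ (1 / 2 : ℂ), ?_, fun t => ?_⟩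
      · rw [norm_mul, norm_inv, hW1, hnq]; simp
      · have h := key t
        rw [he.gammaFactor_def, he.gammaFactor_def, Complex.inv_Gammaℝ_one_sub (T_Fe_nn t),
          Complex.Gammaℂ_def, hsplit] at h
        have hE := T_Fe_ev t
        have hne := LZ.Z03_ne t
        rw [hk]
        rw [show ((1 : ℝ) : ℂ) * I = I by simp]
        have h4 : T_Gi (1 / 2 + t * I) * LX.Lf χ (1 / 2 + t * I) *
            (1 + I * (Real.exp (-(Real.pi * t)) : ℂ)) =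
            LX.Lf χ (1 / 2 + t * I) * (T_Gi (1 / 2 + t * I) *
            (1 + I * (Real.exp (-(Real.pi * t)) : ℂ))) := by ring
        rw [h4, hE]
        rw [← mul_assoc] at h
        have h5 : LX.Lf χ (1 / 2 + t * I) * Gammaℝ (1 / 2 + t * I) *
          (2 * (2 * (Real.pi : ℂ)) ^ (-(1 / 2 + t * I : ℂ)) * Gamma (1 / 2 + t * I) *
            cos (Real.pi * (1 / 2 + t * I) / 2) * (Gammaℝ (1 / 2 + t * I))⁻¹) =
            LX.Lf χ (1 / 2 + t * I) * (2 * (2 * (Real.pi : ℂ)) ^ (-(1 / 2 + t * I : ℂ)) *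
              Gamma (1 / 2 + t * I) * cos (Real.pi * (1 / 2 + t * I) / 2)) :=
          T_Fe_alg2 hne
        rw [h5] at h
        rw [h]
        ring
    · have hk : T_kp χ = -1 := by
        unfold T_kp
        rw [show χ (-1) = -1 from ho]; simp
      refine ⟨Or.inr hk, -I * (W⁻¹ * (q : ℂ) ^ (1 / 2 : ℂ)), ?_, fun t => ?_⟩
      · rw [norm_mul, norm_mul, norm_inv, hW1, hnq]; simp
      · have h := key t
        have e2 : (1 - (1 / 2 + t * I) + 1 : ℂ) = 2 - (1 / 2 + t * I) := by ring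
        rw [ho.gammaFactor_def, ho.gammaFactor_def, e2, Complex.inv_Gammaℝ_two_sub (T_Fe_nn t),
          Complex.Gammaℂ_def, hsplit] at h
        have hE := T_Fe_od t
        have hne : Gammaℝ (1 / 2 + t * I + 1) ≠ 0 := by
          have := LX.Z03_gne χ t
          rwa [ho.gammaFactor_def] at this
        rw [hk]
        have h4 : T_Gi (1 / 2 + t * I) * LX.Lf χ (1 / 2 + t * I) *
            (1 + ((-1 : ℝ) : ℂ) * I * (Real.exp (-(Real.pi * t)) : ℂ)) =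
            LX.Lf χ (1 / 2 + t * I) * (T_Gi (1 / 2 + t * I) *
            (1 - I * (Real.exp (-(Real.pi * t)) : ℂ))) := by push_cast; ring
        rw [h4, hE]
        rw [← mul_assoc] at h
        have h5 : LX.Lf χ (1 / 2 + t * I) * Gammaℝ (1 / 2 + t * I + 1) *
          (2 * (2 * (Real.pi : ℂ)) ^ (-(1 / 2 + t * I : ℂ)) * Gamma (1 / 2 + t * I) *
            sin (Real.pi * (1 / 2 + t * I) / 2) * (Gammaℝ (1 / 2 + t * I + 1))⁻¹) =
            LX.Lf χ (1 / 2 + t * I) * (2 * (2 * (Real.pi : ℂ)) ^ (-(1 / 2 + t * I : ℂ)) *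
              Gamma (1 / 2 + t * I) * sin (Real.pi * (1 / 2 + t * I) / 2)) :=
          T_Fe_alg2 hne
        rw [h5] at h
        linear_combination -I * h
  · -- q = 1
    have hq1 : q = 1 := le_antisymm hq (Nat.one_le_iff_ne_zero.2 (NeZero.ne q))
    subst hq1
    have hk : T_kp χ = 1 := by
      unfold T_kp
      rw [Subsingleton.elim (-1 : ZMod 1) 1, map_one]; rfl
    have hL : LX.Lf χ = riemannZeta := by
      unfold LX.Lf
      exact DirichletCharacter.LFunction_modOne_eq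
    refine ⟨Or.inl hk, 1, by simp, fun t => ?_⟩
    rw [hk, hL, show ((1 : ℝ) : ℂ) * I = I by simp]
    have hcs : conj ((1:ℂ)/2 + t * I) = 1 - (1/2 + t * I) := by
      simp only [map_add, map_mul, conj_ofReal, conj_I, map_div₀, map_one]
      rw [Complex.conj_ofNat]
      ring
    have hne1 : (1 / 2 + t * I : ℂ) ≠ 1 := by
      intro h
      have := congrArg Complex.re h
      rw [LZ.Z03_re, one_re] at this
      norm_num at this
    have h1 := riemannZeta_one_sub (T_Fe_nn t) hne1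
    rw [← hcs] at h1
    have h2 : conj (riemannZeta (1 / 2 + t * I)) = riemannZeta (conj (1 / 2 + t * I)) :=
      (riemannZeta_conj _).symm
    rw [h2, h1]
    have h4 : T_Gi (1 / 2 + t * I) * riemannZeta (1 / 2 + t * I) *
        (1 + I * (Real.exp (-(Real.pi * t)) : ℂ)) =
        riemannZeta (1 / 2 + t * I) * (T_Gi (1 / 2 + t * I) *
        (1 + I * (Real.exp (-(Real.pi * t)) : ℂ))) := by ring
    rw [h4, T_Fe_ev]
    simp
    ring

end OO

end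

section

open Complex MeasureTheory Set Filter Topology
open scoped ComplexConjugate

namespace OO

variable {q1 q2 : ℕ}

theorem T_Sg3_aux (k y : ℝ) (hk : k = 1 ∨ k = -1) :
    exp (((k * Real.arctan y : ℝ) : ℂ) * I) * (Real.sqrt (1 + y ^ 2) : ℂ) = 1 + k * I * (y : ℂ) := by
  rcases hk with h | h
  · rw [h, one_mul, T_Sg_aux2]
    push_cast
    ring
  · have := T_Sg_aux3 y
    rw [h]
    generalize Real.arctan y = w at this ⊢
    push_cast
    rw [neg_one_mul, neg_mul, this]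
    ring

theorem T_E3_le (t v : ℝ) : T_E3 (t + v) ≤ Real.exp (Real.pi * |v|) * Real.exp (-(Real.pi * t)) := by
  unfold T_E3
  rw [← Real.exp_add]
  apply Real.exp_le_exp.2
  have h1 := neg_abs_le v
  have h2 := Real.pi_pos
  nlinarith

theorem T_sg3_facts (χ1 : DirichletCharacter ℂ q1) (χ2 : DirichletCharacter ℂ q2) (v : ℝ)
    (h1 : T_kp χ1 = 1 ∨ T_kp χ1 = -1) (h2 : T_kp χ2 = 1 ∨ T_kp χ2 = -1) :
    Continuous (T_sg3 χ1 χ2 v) ∧ (∀ t, ‖T_sg3 χ1 χ2 v t‖ = 1) ∧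
    (∀ t, ‖T_sg3 χ1 χ2 v t - 1‖ ≤ Real.exp (Real.pi * |v|) * Real.exp (-(Real.pi * t))) ∧
    ∀ t, T_sg3 χ1 χ2 v t ^ 2 * ((Real.sqrt (1 + T_E3 (t + v) ^ 2) * Real.sqrt (1 + T_E3 (t - v) ^ 2) : ℝ) : ℂ) =
      (1 + T_kp χ1 * I * (T_E3 (t + v) : ℂ)) * (1 + T_kp χ2 * I * (T_E3 (t - v) : ℂ)) := by
  refine ⟨?_, ?_, ?_, ?_⟩
  · unfold T_sg3 T_E3
    have h : Continuous fun t : ℝ => T_kp χ1 / 2 * Real.arctan (Real.exp (-(Real.pi * (t + v)))) +
        T_kp χ2 / 2 * Real.arctan (Real.exp (-(Real.pi * (t - v)))) := by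
      refine (continuous_const.mul (Real.continuous_arctan.comp ?_)).add
        (continuous_const.mul (Real.continuous_arctan.comp ?_)) <;> fun_prop
    exact Complex.continuous_exp.comp ((Complex.continuous_ofReal.comp h).mul continuous_const)
  · intro t
    unfold T_sg3
    exact Complex.norm_exp_ofReal_mul_I _
  · intro t
    unfold T_sg3
    rw [mul_comm _ I]
    refine Real.norm_exp_I_mul_ofReal_sub_one_le.trans ?_
    obtain ⟨a0, ale⟩ := T_Sg_aux1 (y := T_E3 (t + v)) (Real.exp_nonneg _)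
    obtain ⟨b0, ble⟩ := T_Sg_aux1 (y := T_E3 (t - v)) (Real.exp_nonneg _)
    have c1 := T_E3_le t v
    have c2 := T_E3_le t (-v)
    rw [abs_neg, ← sub_eq_add_neg] at c2
    rw [Real.norm_eq_abs]
    refine (abs_add_le _ _).trans ?_
    rw [abs_mul, abs_mul, abs_of_nonneg a0, abs_of_nonneg b0]
    have k1 : |T_kp χ1 / 2| = 1 / 2 := by rcases h1 with h | h <;> rw [h] <;> norm_num
    have k2 : |T_kp χ2 / 2| = 1 / 2 := by rcases h2 with h | h <;> rw [h] <;> norm_num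
    rw [k1, k2]
    linarith
  · intro t
    have a := T_Sg3_aux (T_kp χ1) (T_E3 (t + v)) h1
    have b := T_Sg3_aux (T_kp χ2) (T_E3 (t - v)) h2
    rw [← a, ← b]
    unfold T_sg3
    rw [← Complex.exp_nat_mul]
    have e : ((2 : ℕ) : ℂ) * (((T_kp χ1 / 2 * Real.arctan (T_E3 (t + v)) + T_kp χ2 / 2 * Real.arctan (T_E3 (t - v)) : ℝ) : ℂ) * I) =
        ((T_kp χ1 * Real.arctan (T_E3 (t + v)) : ℝ) : ℂ) * I + ((T_kp χ2 * Real.arctan (T_E3 (t - v)) : ℝ) : ℂ) * I := by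
      push_cast
      ring
    rw [e, Complex.exp_add]
    push_cast
    ring

theorem T_Good3_real {z : ℂ} {r : ℝ} (hr : 0 ≤ r) (h : z ^ 2 = (r : ℂ)) : z.im = 0 := by
  have h1 := congrArg im h
  have h2 := congrArg re h
  simp only [pow_two, mul_im, mul_re, ofReal_im, ofReal_re] at h1 h2
  have h3 : z.re * z.im = 0 := by linarith
  rcases mul_eq_zero.1 h3 with h4 | h4
  · rw [h4] at h2
    have h5 : z.im * z.im ≤ 0 := by linarith
    exact mul_self_eq_zero.1 (le_antisymm h5 (mul_self_nonneg _))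
  · exact h4

theorem T_Good3_cpow {q : ℕ} [NeZero q] (s : ℂ) :
    (q : ℂ) ^ s = exp ((Real.log q : ℝ) * s) := by
  have hq : (q : ℂ) ≠ 0 := Nat.cast_ne_zero.2 (NeZero.ne q)
  rw [cpow_def_of_ne_zero hq, natCast_log]

/-- the constant `c` -/
theorem T_exists_c3 [NeZero q1] [NeZero q2] (χ1 : DirichletCharacter ℂ q1) (χ2 : DirichletCharacter ℂ q2)
    (h1 : χ1.IsPrimitive) (h2 : χ2.IsPrimitive) (v : ℝ) (g : ℝ → ℂ) (hg : T_hroot3 v g) :
    ∃ c : ℂ, T_good3 c χ1 χ2 v g := by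
  obtain ⟨hk1, C1, hC1, hF1⟩ := T_fe χ1 h1
  obtain ⟨hk2, C2, hC2, hF2⟩ := T_fe χ2 h2
  obtain ⟨-, -, -, hsg⟩ := T_sg3_facts χ1 χ2 v hk1 hk2
  have hq1 : (0 : ℝ) < q1 := Nat.cast_pos.2 (Nat.pos_of_ne_zero (NeZero.ne q1))
  have hq2 : (0 : ℝ) < q2 := Nat.cast_pos.2 (Nat.pos_of_ne_zero (NeZero.ne q2))
  have hC1' : C1 ≠ 0 := by
    rw [← norm_pos_iff, hC1]; exact Real.sqrt_pos.2 hq1
  have hC2' : C2 ≠ 0 := by
    rw [← norm_pos_iff, hC2]; exact Real.sqrt_pos.2 hq2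
  have hlog : Real.log (q1 * q2) = Real.log q1 + Real.log q2 := Real.log_mul hq1.ne' hq2.ne'
  obtain ⟨c, hc⟩ := IsAlgClosed.exists_pow_nat_eq (exp (T_psi q1 q2 : ℝ) *
    exp (((v * (Real.log q1 - Real.log q2) : ℝ) : ℂ) * I) / (C1 * C2)) (n := 2) two_pos
  have hc2 : c ^ 2 * C1 * C2 = exp (T_psi q1 q2 : ℝ) * exp (((v * (Real.log q1 - Real.log q2) : ℝ) : ℂ) * I) := by
    rw [hc]; field_simp
  refine ⟨c, ?_, ?_⟩
  · have h3 : ‖c‖ ^ 2 * (Real.sqrt q1 * Real.sqrt q2) = Real.exp (T_psi q1 q2) := by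
      have h4 := congrArg norm hc2
      rw [norm_mul, norm_mul, norm_pow, hC1, hC2, norm_mul, Complex.norm_exp_ofReal_mul_I, mul_one, ← ofReal_exp,
        norm_real, Real.norm_of_nonneg (Real.exp_pos _).le] at h4
      linarith
    have h5 : Real.exp (T_psi q1 q2) = Real.sqrt q1 * Real.sqrt q2 := by
      rw [← Real.sqrt_mul hq1.le, eq_comm, Real.sqrt_eq_iff_mul_self_eq (by positivity) (Real.exp_pos _).le,
        ← Real.exp_add, T_psi, add_halves, Real.exp_log (by positivity)]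
    have h6 : Real.sqrt q1 * Real.sqrt q2 ≠ 0 :=
      (mul_pos (Real.sqrt_pos.2 hq1) (Real.sqrt_pos.2 hq2)).ne'
    rw [h5] at h3
    have h7 : ‖c‖ ^ 2 = 1 := by
      apply mul_right_cancel₀ h6
      rw [h3, one_mul]
    exact (pow_eq_one_iff_of_nonneg (norm_nonneg c) two_ne_zero).1 h7
  · intro t
    obtain ⟨ρ, hρ, hG⟩ := hg.2.2.1 t
    have e1 := hF1 (t + v)
    have e2 := hF2 (t - v)
    have e3 := hsg t
    rw [T_Good3_cpow] at e1 e2
    rw [T_LL3_line]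
    set L1 := LX.Lf χ1 (1 / 2 + ((t + v : ℝ) : ℂ) * I) with hL1
    set L2 := LX.Lf χ2 (1 / 2 + ((t - v : ℝ) : ℂ) * I) with hL2
    set G := T_Gi (1 / 2 + t * I) with hGd
    set Gp := T_Gi (1 / 2 + ((t + v : ℝ) : ℂ) * I) with hGp
    set Gm := T_Gi (1 / 2 + ((t - v : ℝ) : ℂ) * I) with hGm
    have hE : ∀ u : ℝ, Real.exp (-(Real.pi * u)) = T_E3 u := fun u => rfl
    rw [hE] at e1 e2
    set S : ℝ := Real.sqrt (1 + T_E3 (t + v) ^ 2) * Real.sqrt (1 + T_E3 (t - v) ^ 2) with hS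
    have hS0 : 0 < S := mul_pos (Real.sqrt_pos.2 (by positivity)) (Real.sqrt_pos.2 (by positivity))
    set r : ℝ := ‖L1‖ ^ 2 * ‖L2‖ ^ 2 / (ρ * S) with hr
    have hden : (0 : ℝ) < ρ * S := by positivity
    have hden' : ((ρ : ℂ) * (S : ℂ)) ≠ 0 := by
      exact_mod_cast hden.ne'
    have hn1 : conj L1 * L1 = ((‖L1‖ ^ 2 : ℝ) : ℂ) := by
      rw [conj_mul']; push_cast; ring
    have hn2 : conj L2 * L2 = ((‖L2‖ ^ 2 : ℝ) : ℂ) := by
      rw [conj_mul']; push_cast; ring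
    have hexp : exp (((T_psi q1 q2 * t : ℝ) : ℂ) * I) ^ 2 *
        (exp ((Real.log q1 : ℝ) * (-(1 / 2 + ((t + v : ℝ) : ℂ) * I))) *
          exp ((Real.log q2 : ℝ) * (-(1 / 2 + ((t - v : ℝ) : ℂ) * I)))) *
        (exp (T_psi q1 q2 : ℝ) * exp (((v * (Real.log q1 - Real.log q2) : ℝ) : ℂ) * I)) = 1 := by
      rw [← exp_nat_mul, ← exp_add, ← exp_add, ← exp_add, ← exp_add, T_psi, hlog]
      convert exp_zero using 2
      push_cast
      ring
    apply T_Good3_real (r := r)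
    · positivity
    · unfold T_U3
      rw [← hGd]
      apply mul_right_cancel₀ hden'
      have hr2 : (r : ℂ) * ((ρ : ℂ) * (S : ℂ)) = ((‖L1‖ ^ 2 : ℝ) : ℂ) * ((‖L2‖ ^ 2 : ℝ) : ℂ) := by
        rw [← ofReal_mul, ← ofReal_mul, ← ofReal_mul, hr, div_mul_cancel₀ _ hden.ne']
      rw [hr2, ← hn1, ← hn2]
      set E := exp (((T_psi q1 q2 * t : ℝ) : ℂ) * I)
      set Q1 := exp ((Real.log q1 : ℝ) * (-(1 / 2 + ((t + v : ℝ) : ℂ) * I)))
      set Q2 := exp ((Real.log q2 : ℝ) * (-(1 / 2 + ((t - v : ℝ) : ℂ) * I)))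
      set P := exp ((T_psi q1 q2 : ℝ) : ℂ) * exp (((v * (Real.log q1 - Real.log q2) : ℝ) : ℂ) * I)
      calc (c * E * T_sg3 χ1 χ2 v t * g t * G * (L1 * L2)) ^ 2 * ((ρ : ℂ) * (S : ℂ))
          = c ^ 2 * E ^ 2 * ((ρ : ℂ) * g t ^ 2 * G ^ 2) * (L1 * L2) ^ 2 *
            (T_sg3 χ1 χ2 v t ^ 2 * (S : ℂ)) := by ring
        _ = c ^ 2 * E ^ 2 * (Gp * L1 * (1 + T_kp χ1 * I * (T_E3 (t + v) : ℂ))) *
            (Gm * L2 * (1 + T_kp χ2 * I * (T_E3 (t - v) : ℂ))) * (L1 * L2) := by rw [e3, ← hG]; ring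
        _ = (c ^ 2 * C1 * C2) * E ^ 2 * (Q1 * Q2) * (conj L1 * L1) * (conj L2 * L2) := by
            rw [e1, e2]; ring
        _ = (E ^ 2 * (Q1 * Q2) * P) * (conj L1 * L1) * (conj L2 * L2) := by rw [hc2]; ring
        _ = conj L1 * L1 * (conj L2 * L2) := by rw [hexp]; ring

end OO

end
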