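import Pool.Agent.Lib.MP_0f5a55_nt.OM.K000
import Pool.Agent.Lib.MP_0f5a55_nt.OM.K006
import Pool.Agent.Lib.MP_0f5a55_nt.OM.K010
import Pool.Agent.Lib.MP_0f5a55_nt.OM.K025

section

section F_A04

open Complex MeasureTheory Set Filter Topology
open scoped ComplexConjugate

namespace LZ

theorem A04_bdd : ∃ M : ℝ, 0 < M ∧ ∀ x : ℝ, 1/4 ≤ x → x ≤ 3 → Real.Gamma x ≤ M := by
  have hc : ContinuousOn Real.Gamma (Set.Icc (1/4) 3) := by
    intro x hx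
    apply ContinuousAt.continuousWithinAt
    apply (Real.differentiableAt_Gamma _).continuousAt
    intro m h
    have : (0 : ℝ) ≤ m := Nat.cast_nonneg m
    have h2 := hx.1
    linarith only [h, h2]
  obtain ⟨M, hM⟩ := isCompact_Icc.exists_bound_of_continuousOn hc
  refine ⟨max M 1, lt_of_lt_of_le one_pos (le_max_right _ _), fun x h1 h2 => ?_⟩
  exact ((le_abs_self _).trans (hM x ⟨h1, h2⟩)).trans (le_max_left _ _)

/-- LZX.Gamma_tau (X0): |Gamma(x+iy)| exp(tau y) <= (1/cos tau)^x Gamma(x) for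
|tau| < pi/2; take tau = sign(y)(pi/2 - 1/(1+|y|)), cos tau = sin(1/(1+|y|)) >= (2/pi)/(1+|y|). -/
theorem Gamma_strip : ∃ C : ℝ, 0 < C ∧ ∀ x y : ℝ, 1/4 ≤ x → x ≤ 3 →
    ‖Gamma (x + y * I)‖ ≤ C * (1 + |y|) ^ 3 * Real.exp (-(Real.pi / 2 * |y|)) := by
  obtain ⟨M, hM0, hM⟩ := A04_bdd
  refine ⟨(Real.pi / 2) ^ 3 * M * Real.exp 1, by positivity, ?_⟩
  intro x y hx1 hx2
  have hpi := Real.pi_gt_three
  set δ : ℝ := 1 / (1 + |y|) with hδ
  have hy := abs_nonneg y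
  have hδ0 : 0 < δ := by positivity
  have hδ1 : δ ≤ 1 := by
    rw [hδ, div_le_one (by positivity)]
    linarith only [hy]
  set θ : ℝ := Real.pi / 2 - δ with hθ
  have hθ0 : 0 < θ := by rw [hθ]; linarith only [hpi, hδ1]
  set τ : ℝ := if 0 ≤ y then θ else -θ with hτ
  have hτabs : |τ| < Real.pi / 2 := by
    have : |τ| = θ := by
      rw [hτ]
      split_ifs
      · exact abs_of_pos hθ0
      · rw [abs_neg]; exact abs_of_pos hθ0
    rw [this, hθ]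
    linarith only [hδ0]
  have hτy : τ * y = θ * |y| := by
    rw [hτ]
    split_ifs with h
    · rw [abs_of_nonneg h]
    · rw [abs_of_neg (not_le.mp h)]
      ring
  have hcos : Real.cos τ = Real.sin δ := by
    have : Real.cos τ = Real.cos θ := by
      rw [hτ]
      split_ifs
      · rfl
      · rw [Real.cos_neg]
    rw [this, hθ, Real.cos_pi_div_two_sub]
  have hs : 0 < ((x : ℂ) + y * I).re := by
    simp
    linarith only [hx1]
  have h := LZX.Gamma_tau hτabs hs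
  have hre : ((x : ℂ) + y * I).re = x := by simp
  have him : ((x : ℂ) + y * I).im = y := by simp
  rw [hre, him, hτy, hcos] at h
  have hsin : 2 / Real.pi * δ ≤ Real.sin δ := Real.mul_le_sin hδ0.le (by linarith only [hpi, hδ1])
  have hsin0 : 0 < 2 / Real.pi * δ := by positivity
  have h1 : 1 / Real.sin δ ≤ Real.pi / 2 * (1 + |y|) := by
    refine (one_div_le_one_div_of_le hsin0 hsin).trans (le_of_eq ?_)
    rw [hδ]
    field_simp
  have h2 : 1 ≤ Real.pi / 2 * (1 + |y|) := by nlinarith only [hpi, hy]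
  have hsin1 : 0 < Real.sin δ := lt_of_lt_of_le hsin0 hsin
  have h3 : (1 / Real.sin δ) ^ x ≤ (Real.pi / 2 * (1 + |y|)) ^ 3 := by
    calc (1 / Real.sin δ) ^ x ≤ (Real.pi / 2 * (1 + |y|)) ^ x :=
          Real.rpow_le_rpow (by positivity) h1 (by linarith only [hs, hre])
      _ ≤ (Real.pi / 2 * (1 + |y|)) ^ (3 : ℝ) := Real.rpow_le_rpow_of_exponent_le h2 hx2
      _ = (Real.pi / 2 * (1 + |y|)) ^ 3 := by
          rw [show (3 : ℝ) = ((3 : ℕ) : ℝ) by norm_num, Real.rpow_natCast]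
  have h4 : (1 / Real.sin δ) ^ x * Real.Gamma x ≤ (Real.pi / 2 * (1 + |y|)) ^ 3 * M :=
    mul_le_mul h3 (hM x hx1 hx2) (Real.Gamma_pos_of_pos (by linarith only [hs, hre])).le (by positivity)
  have h5 : Real.exp (Real.pi / 2 * |y| - 1) ≤ Real.exp (θ * |y|) := by
    apply Real.exp_le_exp.mpr
    rw [hθ]
    have : δ * |y| ≤ 1 := by
      rw [hδ, one_div, inv_mul_le_iff₀ (by positivity)]
      linarith only []
    nlinarith only [this]
  have h6 : ‖Gamma ((x : ℂ) + y * I)‖ * Real.exp (Real.pi / 2 * |y| - 1) ≤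
      (Real.pi / 2 * (1 + |y|)) ^ 3 * M :=
    (mul_le_mul_of_nonneg_left h5 (norm_nonneg _)).trans (h.trans h4)
  have h7 : Real.exp (Real.pi / 2 * |y| - 1) * (Real.exp 1 * Real.exp (-(Real.pi / 2 * |y|))) = 1 := by
    rw [← Real.exp_add, ← Real.exp_add]
    rw [show Real.pi / 2 * |y| - 1 + (1 + -(Real.pi / 2 * |y|)) = 0 by ring, Real.exp_zero]
  calc ‖Gamma ((x : ℂ) + y * I)‖ = ‖Gamma ((x : ℂ) + y * I)‖ * (Real.exp (Real.pi / 2 * |y| - 1) *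
        (Real.exp 1 * Real.exp (-(Real.pi / 2 * |y|)))) := by rw [h7, mul_one]
    _ = ‖Gamma ((x : ℂ) + y * I)‖ * Real.exp (Real.pi / 2 * |y| - 1) *
        (Real.exp 1 * Real.exp (-(Real.pi / 2 * |y|))) := by ring
    _ ≤ (Real.pi / 2 * (1 + |y|)) ^ 3 * M * (Real.exp 1 * Real.exp (-(Real.pi / 2 * |y|))) :=
        mul_le_mul_of_nonneg_right h6 (by positivity)
    _ = (Real.pi / 2) ^ 3 * M * Real.exp 1 * (1 + |y|) ^ 3 * Real.exp (-(Real.pi / 2 * |y|)) := by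
        ring

end LZ

end F_A04

end

section

/-!
# Row D_A15a: twists and conjugates
-/

open Complex MeasureTheory Set Filter Topology
open scoped ComplexConjugate

namespace OO

/-- `ext n`, `ArithmeticFunction.mul_apply`, `(xy)^z = x^z y^z` for naturals -/
theorem D_tw_mul (a b : ArithmeticFunction ℂ) (z : ℂ) : tw (a * b) z = tw a z * tw b z := by
  ext n
  rw [ArithmeticFunction.mul_apply]
  show (a * b) n * (n : ℂ) ^ z = _
  rw [ArithmeticFunction.mul_apply, Finset.sum_mul]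
  apply Finset.sum_congr rfl
  intro x hx
  have hx1 : x.1 * x.2 = n := (Nat.mem_divisorsAntidiagonal.mp hx).1
  show a x.1 * b x.2 * (n : ℂ) ^ z = (a x.1 * (x.1 : ℂ) ^ z) * (b x.2 * (x.2 : ℂ) ^ z)
  rw [← hx1, Nat.cast_mul, Complex.natCast_mul_natCast_cpow]
  ring

/-- `n^(-A) n^z = n^(-(A - z))` for `n ≥ 1` -/
theorem D_tw_LA (f : ℕ → ℂ) (A z : ℂ) (t : ℝ) : tw (LA f A t) z = LA f (A - z) t := by
  ext n
  show (if n = 0 then (0 : ℂ) else f n * (n : ℂ) ^ (-A) * (LZ.wt (t * Real.log n) : ℂ)) * (n : ℂ) ^ z =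
    if n = 0 then (0 : ℂ) else f n * (n : ℂ) ^ (-(A - z)) * (LZ.wt (t * Real.log n) : ℂ)
  by_cases hn : n = 0
  · rw [if_pos hn, if_pos hn, zero_mul]
  · rw [if_neg hn, if_neg hn]
    have h0 : (n : ℂ) ≠ 0 := Nat.cast_ne_zero.mpr hn
    have h1 : (n : ℂ) ^ (-(A - z)) = (n : ℂ) ^ (-A) * (n : ℂ) ^ z := by
      rw [← Complex.cpow_add _ _ h0]
      congr 1
      ring
    rw [h1]
    ring

theorem D_tw_MA (f : ℕ → ℂ) (A z : ℂ) (t : ℝ) : tw (MA f A t) z = MA f (A - z) t := by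
  ext n
  show (if Squarefree n then
    (-1/2 : ℂ) ^ n.primeFactors.card * f n * (n : ℂ) ^ (-A) * (LZ.wt (t * Real.log n) : ℂ) else 0) *
      (n : ℂ) ^ z = if Squarefree n then
    (-1/2 : ℂ) ^ n.primeFactors.card * f n * (n : ℂ) ^ (-(A - z)) * (LZ.wt (t * Real.log n) : ℂ) else 0
  by_cases hn : Squarefree n
  · rw [if_pos hn, if_pos hn]
    have h0 : (n : ℂ) ≠ 0 := Nat.cast_ne_zero.mpr hn.ne_zero
    have h1 : (n : ℂ) ^ (-(A - z)) = (n : ℂ) ^ (-A) * (n : ℂ) ^ z := by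
      rw [← Complex.cpow_add _ _ h0]
      congr 1
      ring
    rw [h1]
    ring
  · rw [if_neg hn, if_neg hn, zero_mul]

theorem D_A15a_sum {ι : Type} (s : Finset ι) (g : ι → ArithmeticFunction ℂ) (n : ℕ) :
    (∑ i ∈ s, g i) n = ∑ i ∈ s, g i n := by
  classical
  induction s using Finset.induction_on with
  | empty => simp
  | insert a s ha ih => rw [Finset.sum_insert ha, Finset.sum_insert ha, ArithmeticFunction.add_apply, ih]

theorem D_A15a_LC {ι : Type} [Fintype ι] (f : ℕ → ℂ) (A : ℂ) (c t : ι → ℝ) (n : ℕ) :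
    LC f A c t n = ∑ i, (c i : ℂ) * LA f A (t i) n := by
  unfold LC
  rw [D_A15a_sum]
  apply Finset.sum_congr rfl
  intro i _
  rw [ArithmeticFunction.smul_map, smul_eq_mul]

theorem D_tw_LC {ι : Type} [Fintype ι] (f : ℕ → ℂ) (A z : ℂ) (c t : ι → ℝ) :
    tw (LC f A c t) z = LC f (A - z) c t := by
  ext n
  show LC f A c t n * (n : ℂ) ^ z = _
  rw [D_A15a_LC, D_A15a_LC, Finset.sum_mul]
  apply Finset.sum_congr rfl
  intro i _
  rw [← D_tw_LA f A z (t i), mul_assoc]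
  rfl

theorem D_cj_mul (a b : ArithmeticFunction ℂ) : cj (a * b) = cj a * cj b := by
  ext n
  rw [ArithmeticFunction.mul_apply]
  show conj ((a * b) n) = ∑ x ∈ n.divisorsAntidiagonal, conj (a x.1) * conj (b x.2)
  rw [ArithmeticFunction.mul_apply, map_sum]
  apply Finset.sum_congr rfl
  intro x _
  rw [map_mul]

theorem D_cj_cj (a : ArithmeticFunction ℂ) : cj (cj a) = a := by
  ext n
  show conj (conj (a n)) = a n
  exact Complex.conj_conj _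

theorem D_cj_MA (f : ℕ → ℂ) (t : ℝ) : cj (MA f 0 t) = MA (fun n => conj (f n)) 0 t := by
  ext n
  show conj (if Squarefree n then
    (-1/2 : ℂ) ^ n.primeFactors.card * f n * (n : ℂ) ^ (-(0 : ℂ)) * (LZ.wt (t * Real.log n) : ℂ) else 0) =
      if Squarefree n then
    (-1/2 : ℂ) ^ n.primeFactors.card * conj (f n) * (n : ℂ) ^ (-(0 : ℂ)) *
      (LZ.wt (t * Real.log n) : ℂ) else 0
  by_cases hn : Squarefree n
  · rw [if_pos hn, if_pos hn, neg_zero, Complex.cpow_zero, map_mul, map_mul, map_mul, map_pow,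
      Complex.conj_ofReal, map_one]
    congr 4
    rw [map_div₀, map_neg, map_one, Complex.conj_ofNat]
  · rw [if_neg hn, if_neg hn, map_zero]

theorem D_cj_LC {ι : Type} [Fintype ι] (f : ℕ → ℂ) (c t : ι → ℝ) :
    cj (LC f 0 c t) = LC (fun n => conj (f n)) 0 c t := by
  ext n
  show conj (LC f 0 c t n) = _
  rw [D_A15a_LC, D_A15a_LC, map_sum]
  apply Finset.sum_congr rfl
  intro i _
  rw [map_mul, Complex.conj_ofReal]
  congr 1
  show conj (if n = 0 then (0 : ℂ) else f n * (n : ℂ) ^ (-(0 : ℂ)) * (LZ.wt (t i * Real.log n) : ℂ)) =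
    if n = 0 then (0 : ℂ) else conj (f n) * (n : ℂ) ^ (-(0 : ℂ)) * (LZ.wt (t i * Real.log n) : ℂ)
  by_cases hn : n = 0
  · rw [if_pos hn, if_pos hn, map_zero]
  · rw [if_neg hn, if_neg hn, neg_zero, Complex.cpow_zero, map_mul, map_mul, Complex.conj_ofReal, map_one]

theorem D_cjF_cjF (F : Fin 2 → ℕ → ℂ) : cjF (cjF F) = F := by
  funext i n
  show conj (conj (F i n)) = F i n
  exact Complex.conj_conj _

end OO

end

section

open Complex MeasureTheory Set Filter Topology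
open scoped ComplexConjugate

namespace OO

/-- norm of a natural power -/
private theorem T_Phi_nrm (h : ℕ) (hh : 1 ≤ h) (s : ℂ) : ‖(h : ℂ) ^ s‖ = (h : ℝ) ^ s.re :=
  Complex.norm_natCast_cpow_of_pos hh s

private theorem T_Phi_diff (b : ℕ → ℂ) (H : ℕ) : Differentiable ℂ (phi b H) := by
  unfold phi
  refine Differentiable.fun_sum fun h hh => ?_
  have h1 : (h : ℂ) ≠ 0 := by
    have := (Finset.mem_Icc.mp hh).1
    exact_mod_cast (by omega : h ≠ 0)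
  refine Differentiable.const_mul ?_ _
  exact (differentiable_id.neg).const_cpow (Or.inl h1)

/-- OT04. Bounds of the Dirichlet polynomial.

Proof. (i) each term of `phi b H s` has norm `≤ h * h ^ (-Re s) ≤ h ≤ H`, `H` terms. (ii) each term of
`phi (conj b) H (1 - s)` has norm `≤ h * h ^ (Re s - 1) ≤ h * h = h² ≤ H²` (`Re s ≤ 2`, `h ≥ 1`), `H` terms.
(iii) `conj (h ^ (-s)) = h ^ (-conj s)` for natural `h` (`Complex.conj_natCast_cpow` / `cpow_conj` with `arg ≠ π`, or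
`Complex.natCast_cpow`... ), and `conj (1/2 + it) = 1 - (1/2 + it)`; so `phi (conj b) H (1 - s) = conj (phi b H s)`.
(iv) finite sums of differentiable functions (`h ≥ 1`, so `(h : ℂ) ≠ 0`). -/
theorem T_phi (b : ℕ → ℂ) (H : ℕ) (hb : ∀ h, ‖b h‖ ≤ h) :
    (∀ s : ℂ, 0 ≤ s.re → ‖phi b H s‖ ≤ (H : ℝ) ^ 2) ∧
    (∀ s : ℂ, s.re ≤ 2 → ‖phi (fun n => conj (b n)) H (1 - s)‖ ≤ (H : ℝ) ^ 3) ∧
    (∀ t : ℝ, phi b H (1 / 2 + t * I) * phi (fun n => conj (b n)) H (1 - (1 / 2 + t * I)) =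
      ((‖phi b H (1 / 2 + t * I)‖ ^ 2 : ℝ) : ℂ)) ∧
    Differentiable ℂ (phi b H) ∧ Differentiable ℂ (phi (fun n => conj (b n)) H) := by
  refine ⟨?_, ?_, ?_, T_Phi_diff b H, T_Phi_diff _ H⟩
  · intro s hs
    unfold phi
    calc ‖∑ h ∈ Finset.Icc 1 H, b h * (h : ℂ) ^ (-s)‖ ≤ ∑ h ∈ Finset.Icc 1 H, ‖b h * (h : ℂ) ^ (-s)‖ :=
          norm_sum_le _ _
      _ ≤ ∑ _h ∈ Finset.Icc 1 H, (H : ℝ) := by
          refine Finset.sum_le_sum fun h hh => ?_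
          obtain ⟨h1, h2⟩ := Finset.mem_Icc.mp hh
          have h1' : (1 : ℝ) ≤ h := by exact_mod_cast h1
          have h2' : (h : ℝ) ≤ H := by exact_mod_cast h2
          rw [norm_mul, T_Phi_nrm h h1]
          have h3 : (h : ℝ) ^ (-s).re ≤ 1 := by
            apply Real.rpow_le_one_of_one_le_of_nonpos h1'
            simpa using hs
          calc ‖b h‖ * (h : ℝ) ^ (-s).re ≤ h * 1 :=
                mul_le_mul (hb h) h3 (by positivity) (by positivity)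
            _ ≤ H := by linarith
      _ = (H : ℝ) ^ 2 := by
          rw [Finset.sum_const, Nat.card_Icc]; simp; ring
  · intro s hs
    unfold phi
    calc ‖∑ h ∈ Finset.Icc 1 H, conj (b h) * (h : ℂ) ^ (-(1 - s))‖
          ≤ ∑ h ∈ Finset.Icc 1 H, ‖conj (b h) * (h : ℂ) ^ (-(1 - s))‖ :=
          norm_sum_le _ _
      _ ≤ ∑ _h ∈ Finset.Icc 1 H, (H : ℝ) ^ 2 := by
          refine Finset.sum_le_sum fun h hh => ?_
          obtain ⟨h1, h2⟩ := Finset.mem_Icc.mp hh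
          have h1' : (1 : ℝ) ≤ h := by exact_mod_cast h1
          have h2' : (h : ℝ) ≤ H := by exact_mod_cast h2
          rw [norm_mul, T_Phi_nrm h h1, Complex.norm_conj]
          have h3 : (h : ℝ) ^ (-(1 - s)).re ≤ h := by
            calc (h : ℝ) ^ (-(1 - s)).re ≤ (h : ℝ) ^ (1 : ℝ) := by
                  apply Real.rpow_le_rpow_of_exponent_le h1'
                  simp only [neg_re, sub_re, one_re]
                  linarith
              _ = h := Real.rpow_one _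
          calc ‖b h‖ * (h : ℝ) ^ (-(1 - s)).re ≤ h * h :=
                mul_le_mul (hb h) h3 (by positivity) (by positivity)
            _ ≤ (H : ℝ) ^ 2 := by nlinarith
      _ = (H : ℝ) ^ 3 := by
          rw [Finset.sum_const, Nat.card_Icc]; simp; ring
  · intro t
    have hconj : phi (fun n => conj (b n)) H (1 - (1 / 2 + t * I)) = conj (phi b H (1 / 2 + t * I)) := by
      unfold phi
      rw [map_sum]
      refine Finset.sum_congr rfl fun h hh => ?_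
      rw [map_mul]
      congr 1
      have harg : (h : ℂ).arg ≠ Real.pi := by
        rw [Complex.natCast_arg]
        exact Real.pi_pos.ne
      have h3 := Complex.cpow_conj (h : ℂ) (-(1 / 2 + t * I)) harg
      rw [Complex.conj_natCast] at h3
      rw [← h3]
      congr 1
      simp only [map_neg, map_add, map_mul, conj_I, conj_ofReal, map_div₀, map_one, map_ofNat]
      ring
    rw [hconj, Complex.mul_conj, Complex.normSq_eq_norm_sq]

end OO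

end

section

/-!
# Row D_A15b: the two types
-/

open Complex MeasureTheory Set Filter Topology
open scoped ComplexConjugate

namespace OO

private lemma D_A15b_AB1 (L v : ℝ) : (0 : ℂ) - (-(1 / 2) - ww L v / 2) = 1 / 2 + ((1 : ℝ) : ℂ) * ww L v / 2 := by
  push_cast
  ring

private lemma D_A15b_AB2 (L v : ℝ) : (0 : ℂ) - (-(1 / 2) + ww L v / 2) = 1 / 2 + ((-1 : ℝ) : ℂ) * ww L v / 2 := by
  push_cast
  ring

private lemma D_A15b_I (L v : ℝ) : AB L v ![1, 1] 0 = 1 / 2 + ((1 : ℝ) : ℂ) * ww L v / 2 ∧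
    AB L v ![1, 1] 1 = 1 / 2 + ((1 : ℝ) : ℂ) * ww L v / 2 ∧
    AB L v ![1, 1] 2 = 1 / 2 + ((1 : ℝ) : ℂ) * ww L v / 2 ∧
    AB L v ![1, 1] 3 = 1 / 2 + ((1 : ℝ) : ℂ) * ww L v / 2 ∧
    AB L v ![1, 1] 4 = 1 / 2 + ((-1 : ℝ) : ℂ) * ww L v / 2 ∧
    AB L v ![1, 1] 5 = 1 / 2 + ((-1 : ℝ) : ℂ) * ww L v / 2 :=
  ⟨rfl, rfl, rfl, rfl, rfl, rfl⟩

private lemma D_A15b_II (L v : ℝ) : AB L v ![-1, 1] 0 = 1 / 2 + ((-1 : ℝ) : ℂ) * ww L v / 2 ∧
    AB L v ![-1, 1] 1 = 1 / 2 + ((1 : ℝ) : ℂ) * ww L v / 2 ∧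
    AB L v ![-1, 1] 2 = 1 / 2 + ((1 : ℝ) : ℂ) * ww L v / 2 ∧
    AB L v ![-1, 1] 3 = 1 / 2 + ((1 : ℝ) : ℂ) * ww L v / 2 ∧
    AB L v ![-1, 1] 4 = 1 / 2 + ((-1 : ℝ) : ℂ) * ww L v / 2 ∧
    AB L v ![-1, 1] 5 = 1 / 2 + ((-1 : ℝ) : ℂ) * ww L v / 2 :=
  ⟨rfl, rfl, rfl, rfl, rfl, rfl⟩

private lemma D_A15b_cj (F : Fin 2 → ℕ → ℂ) (i : Fin 2) : cjF F i = fun n => conj (F i n) := rfl

/-- The two factors for type I: `a = β * (LC F0 * LC F1)`, `b = conj β`. `D_tw_mul`, `D_cj_mul`, `D_tw_LC`,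
`D_tw_MA`; exponents `0 - (-(1/2) - w/2) = 1/2 + 1 * w/2`, `0 - (-(1/2) + w/2) = 1/2 + (-1) * w/2`
(`AB`, `sg`, `sgn` unfolded; the six entries by `simp`/`ring`), then commutativity in
`ArithmeticFunction ℂ`. -/
theorem D_typeI (F : Fin 2 → ℕ → ℂ) (L v l : ℝ) {ι0 ι1 : Type} [Fintype ι0] [Fintype ι1]
    (c0 t0 : ι0 → ℝ) (c1 t1 : ι1 → ℝ) (a b : ArithmeticFunction ℂ)
    (ha : a = beta (F 0) (F 1) l * (LC (F 0) 0 c0 t0 * LC (F 1) 0 c1 t1))
    (hb : b = cj (beta (F 0) (F 1) l)) :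
    tw a (-(1 / 2) - ww L v / 2) * tw (cj b) (-(1 / 2) + ww L v / 2) =
        PL F (AB L v ![1, 1]) c0 t0 c1 t1 (1 / l) ∧
      tw (cj a) (-(1 / 2) - ww L v / 2) * tw b (-(1 / 2) + ww L v / 2) =
        PL (cjF F) (AB L v ![1, 1]) c0 t0 c1 t1 (1 / l) := by
  obtain ⟨h0, h1, h2, h3, h4, h5⟩ := D_A15b_I L v
  subst ha hb
  unfold PL beta
  rw [h0, h1, h2, h3, h4, h5]
  constructor
  · simp only [D_cj_cj, D_tw_mul, D_tw_LC, D_tw_MA, D_A15b_AB1, D_A15b_AB2]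
    ring
  · simp only [D_cj_mul, D_cj_MA, D_cj_LC, D_tw_mul, D_tw_LC, D_tw_MA, D_A15b_AB1, D_A15b_AB2, D_A15b_cj]
    ring

/-- The two factors for type II: `a = LC (conj F1) * conj β`, `b = LC F0 * β`. As for type I. -/
theorem D_typeII (F : Fin 2 → ℕ → ℂ) (L v l : ℝ) {ι0 ι1 : Type} [Fintype ι0] [Fintype ι1]
    (c0 t0 : ι0 → ℝ) (c1 t1 : ι1 → ℝ) (a b : ArithmeticFunction ℂ)
    (ha : a = LC (cjF F 1) 0 c1 t1 * cj (beta (F 0) (F 1) l))
    (hb : b = LC (F 0) 0 c0 t0 * beta (F 0) (F 1) l) :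
    tw a (-(1 / 2) - ww L v / 2) * tw (cj b) (-(1 / 2) + ww L v / 2) =
        PL (cjF F) (AB L v ![-1, 1]) c0 t0 c1 t1 (1 / l) ∧
      tw (cj a) (-(1 / 2) - ww L v / 2) * tw b (-(1 / 2) + ww L v / 2) =
        PL F (AB L v ![-1, 1]) c0 t0 c1 t1 (1 / l) := by
  obtain ⟨h0, h1, h2, h3, h4, h5⟩ := D_A15b_II L v
  subst ha hb
  unfold PL beta
  rw [h0, h1, h2, h3, h4, h5]
  constructor
  · simp only [D_cj_mul, D_cj_MA, D_cj_LC, D_tw_mul, D_tw_LC, D_tw_MA, D_A15b_AB1, D_A15b_AB2, D_A15b_cj]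
    ring
  · simp only [D_cj_mul, D_cj_cj, D_cj_LC, D_tw_mul, D_tw_LC, D_tw_MA, D_A15b_AB1, D_A15b_AB2, D_A15b_cj,
      Complex.conj_conj]
    ring

end OO

end

section

open Complex MeasureTheory Set Filter Topology
open scoped ComplexConjugate

namespace OO

private theorem T_GiA_exp (s : ℂ) :
    ‖exp (-(((Real.pi / 2 : ℝ) : ℂ) * I * s))‖ = Real.exp (Real.pi / 2 * s.im) := by
  rw [norm_exp]
  congr 1
  rw [neg_re, mul_re, mul_re, mul_im, ofReal_re, ofReal_im, I_re, I_im]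
  ring

private theorem T_GiA_pow (s : ℂ) :
    ‖((2 * Real.pi : ℝ) : ℂ) ^ (-s)‖ = (2 * Real.pi) ^ (-s.re) := by
  rw [norm_cpow_eq_rpow_re_of_pos (by positivity), neg_re]

private theorem T_GiA_Gamma (t : ℝ) :
    ‖Gamma (1 / 2 + t * I)‖ ^ 2 = Real.pi / Real.cosh (Real.pi * t) := by
  have h1 : (1 : ℂ) - (1 / 2 + t * I) = conj (1 / 2 + t * I) := by
    apply Complex.ext
    · simp
      norm_num
    · simp
  have h2 := Gamma_mul_Gamma_one_sub (1 / 2 + t * I)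
  rw [h1, Gamma_conj] at h2
  have h3 : Complex.sin (Real.pi * (1 / 2 + t * I)) = ((Real.cosh (Real.pi * t) : ℝ) : ℂ) := by
    have e1 : (Real.pi : ℂ) * (1 / 2 + t * I) = Real.pi / 2 + (((Real.pi * t : ℝ) : ℂ)) * I := by
      push_cast
      ring
    rw [e1, Complex.sin_add, Complex.sin_pi_div_two, Complex.cos_pi_div_two, Complex.cos_mul_I,
      ofReal_cosh]
    ring
  rw [h3] at h2
  have h4 := congrArg norm h2
  rw [norm_mul, RCLike.norm_conj, norm_div, norm_real, norm_real, Real.norm_eq_abs,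
    Real.norm_eq_abs, abs_of_pos Real.pi_pos, abs_of_pos (Real.cosh_pos _)] at h4
  rw [sq]
  exact h4

/-- OT03. The gamma factor.

Proof. (i) For `s = 1/2 + it`: `‖(2π)^{-s}‖ = (2π)^{-1/2}` (`Complex.norm_cpow_eq_rpow_re_of_pos`);
`‖exp (-(π/2 I s))‖ = exp (π t / 2)`; `‖Γ(s)‖² = Γ(s) Γ(conj s) = Γ(s) Γ(1 - s) = π / sin (π s)` (`Complex.Gamma_conj`,
`Complex.Gamma_mul_Gamma_one_sub`) and `sin (π/2 + iπt) = cos (iπt) = cosh (πt)`. So
`‖T_Gi‖² = (2π)^{-1} π / cosh (π t) * exp (π t) = 1 / (1 + exp (-2πt))`.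
(ii) `Γ` is differentiable and nonzero at `s` with `0 < Re s` (`Complex.differentiableAt_Gamma`, `Complex.Gamma_ne_zero_of_re_pos`).
(iii) `LZ.Gamma_strip` (V19): `‖Γ(x+iy)‖ ≤ C (1+|y|)³ exp (-(π/2)|y|)` for `1/4 ≤ x ≤ 3`; `‖(2π)^{-s}‖ = (2π)^{-Re s} ≤ 1`;
`‖exp (-(π/2 I s))‖ = exp (π/2 Im s)`. -/
theorem T_gi : (∀ t : ℝ, ‖T_Gi (1 / 2 + t * I)‖ ^ 2 = 1 / (1 + Real.exp (-(2 * Real.pi * t)))) ∧
    (∀ s : ℂ, 0 < s.re → DifferentiableAt ℂ T_Gi s ∧ T_Gi s ≠ 0) ∧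
    ∃ C : ℝ, 0 < C ∧ ∀ s : ℂ, 1/2 ≤ s.re → s.re ≤ 2 →
      ‖T_Gi s‖ ≤ C * (1 + |s.im|) ^ 3 * Real.exp (Real.pi / 2 * s.im - Real.pi / 2 * |s.im|) := by
  refine ⟨?_, ?_, ?_⟩
  · intro t
    have hre : (1 / 2 + (t : ℂ) * I).re = 1 / 2 := by simp
    have him : (1 / 2 + (t : ℂ) * I).im = t := by simp
    rw [T_Gi, norm_mul, norm_mul, mul_pow, mul_pow, T_GiA_exp, T_GiA_pow, T_GiA_Gamma, hre, him]
    have e1 : ((2 * Real.pi) ^ (-(1 / 2 : ℝ))) ^ 2 = (2 * Real.pi)⁻¹ := by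
      rw [← Real.rpow_natCast, ← Real.rpow_mul (by positivity)]
      norm_num
      rw [Real.rpow_neg_one]
      ring
    have e2 : Real.exp (Real.pi / 2 * t) ^ 2 = Real.exp (Real.pi * t) := by
      rw [← Real.exp_nat_mul]
      congr 1
      push_cast
      ring
    have e3 : Real.exp (-(2 * Real.pi * t)) = Real.exp (-(Real.pi * t)) / Real.exp (Real.pi * t) := by
      rw [← Real.exp_sub]
      congr 1
      ring
    rw [e1, e2, e3, Real.cosh_eq]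
    have h1 := Real.exp_pos (Real.pi * t)
    have h2 := Real.exp_pos (-(Real.pi * t))
    have h3 := Real.pi_pos
    field_simp
  · intro s hs
    have hG : DifferentiableAt ℂ Gamma s := differentiableAt_Gamma s (fun m hm => by
      rw [hm, neg_re, natCast_re] at hs
      have : (0 : ℝ) ≤ m := Nat.cast_nonneg m
      linarith)
    have h2 : ((2 * Real.pi : ℝ) : ℂ) ≠ 0 := by
      have : (2 * Real.pi : ℝ) ≠ 0 := by positivity
      exact_mod_cast this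
    refine ⟨?_, ?_⟩
    · have h3 : DifferentiableAt ℂ (fun s : ℂ => ((2 * Real.pi : ℝ) : ℂ) ^ (-s)) s :=
        (differentiableAt_id.neg).const_cpow (Or.inl h2)
      have h4 : DifferentiableAt ℂ (fun s : ℂ => exp (-(((Real.pi / 2 : ℝ) : ℂ) * I * s))) s := by
        fun_prop
      exact (h3.mul hG).mul h4
    · rw [T_Gi]
      refine mul_ne_zero (mul_ne_zero ?_ (Gamma_ne_zero_of_re_pos hs)) (exp_ne_zero _)
      rw [Ne, cpow_eq_zero_iff]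
      exact fun h => h2 h.1
  · obtain ⟨C, hC, hb⟩ := LZ.Gamma_strip
    refine ⟨C, hC, ?_⟩
    intro s hs1 hs2
    have h1 := hb s.re s.im (by linarith) (by linarith)
    rw [re_add_im] at h1
    rw [T_Gi, norm_mul, norm_mul, T_GiA_exp, T_GiA_pow]
    have h2 : (2 * Real.pi) ^ (-s.re) ≤ 1 := by
      apply Real.rpow_le_one_of_one_le_of_nonpos
      · have := Real.pi_gt_three
        linarith
      · linarith
    have h3 : 0 ≤ (2 * Real.pi) ^ (-s.re) := by positivity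
    calc (2 * Real.pi) ^ (-s.re) * ‖Gamma s‖ * Real.exp (Real.pi / 2 * s.im) ≤
        1 * (C * (1 + |s.im|) ^ 3 * Real.exp (-(Real.pi / 2 * |s.im|))) * Real.exp (Real.pi / 2 * s.im) := by
          gcongr
      _ = C * (1 + |s.im|) ^ 3 * Real.exp (Real.pi / 2 * s.im - Real.pi / 2 * |s.im|) := by
          rw [sub_eq_add_neg, add_comm, Real.exp_add]
          ring

end OO

end

section

open Complex MeasureTheory Set Filter Topology
open scoped ComplexConjugate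

namespace OO

variable {q1 q2 : ℕ}

/-- the point `W = 2π z x h / k` as `r e^{iθ}` -/
theorem T_InvG_W (ε x : ℝ) (h k : ℕ) :
    2 * (Real.pi : ℂ) * (zz ε * x * h / k) =
      ((2 * Real.pi * x * h / k : ℝ) : ℂ) * exp (((Real.pi / 2 - ε : ℝ) : ℂ) * I) := by
  unfold zz
  push_cast
  ring

theorem T_InvG_re (ε : ℝ) (hε : 0 < ε) (hε' : ε ≤ 1 / 10) (x : ℝ) (hx : 0 < x) (h k : ℕ) (hh : 1 ≤ h) (hk : 1 ≤ k) :
    0 < (2 * (Real.pi : ℂ) * (zz ε * x * h / k)).re := by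
  rw [T_InvG_W, Complex.re_ofReal_mul, Complex.exp_ofReal_mul_I_re, Real.cos_pi_div_two_sub]
  have hh' : (0 : ℝ) < h := by exact_mod_cast hh
  have hk' : (0 : ℝ) < k := by exact_mod_cast hk
  have h1 : 0 < Real.sin ε := Real.sin_pos_of_pos_of_lt_pi hε (by linarith [Real.pi_gt_three])
  have h2 := Real.pi_pos
  positivity

theorem T_InvG_cpow (ε : ℝ) (hε : 0 < ε) (hε' : ε ≤ 1 / 10) (x : ℝ) (hx : 0 < x) (h k : ℕ) (hh : 1 ≤ h) (hk : 1 ≤ k)
    (s : ℂ) : (2 * (Real.pi : ℂ) * (zz ε * x * h / k)) ^ (-s) =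
      ((2 * Real.pi : ℝ) : ℂ) ^ (-s) * exp (-(((Real.pi / 2 - ε : ℝ) : ℂ) * I * s)) * (x : ℂ) ^ (-s) *
        ((h : ℂ) ^ (-s) * (k : ℂ) ^ s) := by
  have hh' : (0 : ℝ) < h := by exact_mod_cast hh
  have hk' : (0 : ℝ) < k := by exact_mod_cast hk
  have hpi := Real.pi_pos
  have hr : (0 : ℝ) < 2 * Real.pi * x * h / k := by positivity
  have hlog : Complex.log (2 * (Real.pi : ℂ) * (zz ε * x * h / k)) =
      ((Real.log (2 * Real.pi) + Real.log x + Real.log h - Real.log k : ℝ) : ℂ) +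
        ((Real.pi / 2 - ε : ℝ) : ℂ) * I := by
    rw [T_InvG_W, Complex.log_ofReal_mul hr (Complex.exp_ne_zero _), Complex.log_exp]
    · congr 2
      rw [Real.log_div (by positivity) (by positivity), Real.log_mul (by positivity) (by positivity),
        Real.log_mul (by positivity) (by positivity)]
    · have h3 := Real.pi_gt_three
      simp only [mul_im, ofReal_re, ofReal_im, I_re, I_im]; linarith
    · simp only [mul_im, ofReal_re, ofReal_im, I_re, I_im]; linarith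
  have hW0 : (2 * (Real.pi : ℂ) * (zz ε * x * h / k)) ≠ 0 := by
    rw [T_InvG_W]
    exact mul_ne_zero (by exact_mod_cast hr.ne') (Complex.exp_ne_zero _)
  have e1 : ((2 * Real.pi : ℝ) : ℂ) ≠ 0 := by exact_mod_cast (by positivity : (0:ℝ) < 2 * Real.pi).ne'
  have e2 : (x : ℂ) ≠ 0 := by exact_mod_cast hx.ne'
  have e3 : (h : ℂ) ≠ 0 := by exact_mod_cast hh'.ne'
  have e4 : (k : ℂ) ≠ 0 := by exact_mod_cast hk'.ne'
  rw [Complex.cpow_def_of_ne_zero hW0, Complex.cpow_def_of_ne_zero e1, Complex.cpow_def_of_ne_zero e2,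
    Complex.cpow_def_of_ne_zero e3, Complex.cpow_def_of_ne_zero e4, hlog, ← Complex.ofReal_log (by positivity),
    ← Complex.ofReal_log hx.le, ← Complex.natCast_log, ← Complex.natCast_log,
    ← Complex.exp_add, ← Complex.exp_add, ← Complex.exp_add, ← Complex.exp_add]
  congr 1
  push_cast
  ring

theorem T_InvG_MM [NeZero q1] [NeZero q2] (χ1 : DirichletCharacter ℂ q1) (χ2 : DirichletCharacter ℂ q2)
    (b : ℕ → ℂ) (H : ℕ) (ε : ℝ) (hε : 0 < ε) (hε' : ε ≤ 1 / 10) (x : ℝ) (hx : 0 < x) (s : ℂ) :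
    MM χ1 χ2 b H ε s * (x : ℂ) ^ (-s) = ∑ h ∈ Finset.Icc 1 H, ∑ k ∈ Finset.Icc 1 H,
      b h * conj (b k) / k * (Gamma s * T_LL χ1 χ2 s * (2 * (Real.pi : ℂ) * (zz ε * x * h / k)) ^ (-s)) := by
  have e : MM χ1 χ2 b H ε s * (x : ℂ) ^ (-s) =
      (Gamma s * T_LL χ1 χ2 s * (((2 * Real.pi : ℝ) : ℂ) ^ (-s) *
        exp (-(((Real.pi / 2 - ε : ℝ) : ℂ) * I * s)) * (x : ℂ) ^ (-s))) *
      ((∑ h ∈ Finset.Icc 1 H, b h * (h : ℂ) ^ (-s)) *
        (∑ k ∈ Finset.Icc 1 H, conj (b k) * (k : ℂ) ^ (-(1 - s)))) := by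
    unfold MM phi T_LL
    ring
  rw [e, Finset.sum_mul_sum, Finset.mul_sum]
  refine Finset.sum_congr rfl (fun h hh => ?_)
  rw [Finset.mul_sum]
  refine Finset.sum_congr rfl (fun k hk => ?_)
  have hh1 := (Finset.mem_Icc.mp hh).1
  have hk1 := (Finset.mem_Icc.mp hk).1
  rw [T_InvG_cpow ε hε hε' x hx h k hh1 hk1 s]
  have hk0 : (k : ℂ) ≠ 0 := by exact_mod_cast (by omega : k ≠ 0)
  have e5 : (k : ℂ) ^ (-(1 - s)) = (k : ℂ) ^ s / k := by
    rw [neg_sub, Complex.cpow_sub _ _ hk0, Complex.cpow_one]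
  rw [e5]
  ring

/-- OT07. `g` is the inverse Mellin transform of `M` on the line `Re s = 2`.

Proof. Put `s = 2 + iy`, `θ = π/2 - ε ∈ (0, π/2)`, `r = 2π x h / k > 0`, `W = 2π z x h / k = r e^{iθ}` (`h, k ≥ 1`), `Re W = r cos θ > 0`.
`W ^ (-s) = exp (-s (log r + iθ))` (`Complex.log_mul_ofReal`-type lemma: `log (r e^{iθ}) = log r + iθ` since `θ ∈ (-π, π]`;
`Complex.log_ofReal_mul`, `Complex.log_exp`), hence
`W ^ (-s) = (2π) ^ (-s) * exp (-(θ I s)) * (x:ℂ) ^ (-s) * (h:ℂ) ^ (-s) * (k:ℂ) ^ s`. Also `(k:ℂ) ^ (-(1-s)) = k⁻¹ * k ^ s`. Therefore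
`MM(s) x^{-s} = ∑_{h,k} b h conj (b k) k⁻¹ * (Γ(s) T_LL(s) W_{h,k}^{-s})` (expand the two sums `phi`, `Finset.sum_mul_sum`), and
`T_inv_series` for every pair gives integrability and the value
`2π ∑_{h,k} b h conj (b k)/k * ∑' n, lam n exp (-(n W_{h,k}))`, with `n W_{h,k} = 2 π n (z x h / k)`: this is `2π gg`. -/
theorem T_inv_gg [NeZero q1] [NeZero q2] (χ1 : DirichletCharacter ℂ q1) (χ2 : DirichletCharacter ℂ q2)
    (b : ℕ → ℂ) (H : ℕ) (ε : ℝ) (hε : 0 < ε) (hε' : ε ≤ 1 / 10) (x : ℝ) (hx : 0 < x) :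
    Integrable (fun y : ℝ => MM χ1 χ2 b H ε (2 + y * I) * (x : ℂ) ^ (-(2 + y * I : ℂ))) ∧
    ∫ y : ℝ, MM χ1 χ2 b H ε (2 + y * I) * (x : ℂ) ^ (-(2 + y * I : ℂ)) =
      2 * Real.pi * gg b H (lamF (ch χ1) (ch χ2)) ε x := by
  have hfun : (fun y : ℝ => MM χ1 χ2 b H ε (2 + y * I) * (x : ℂ) ^ (-(2 + y * I : ℂ))) =
      fun y : ℝ => ∑ h ∈ Finset.Icc 1 H, ∑ k ∈ Finset.Icc 1 H, b h * conj (b k) / k *
        (Gamma (2 + y * I) * T_LL χ1 χ2 (2 + y * I) * (2 * (Real.pi : ℂ) * (zz ε * x * h / k)) ^ (-(2 + y * I : ℂ))) := by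
    funext y
    exact T_InvG_MM χ1 χ2 b H ε hε hε' x hx _
  have hint : ∀ h ∈ Finset.Icc 1 H, ∀ k ∈ Finset.Icc 1 H, Integrable (fun y : ℝ => b h * conj (b k) / k *
        (Gamma (2 + y * I) * T_LL χ1 χ2 (2 + y * I) * (2 * (Real.pi : ℂ) * (zz ε * x * h / k)) ^ (-(2 + y * I : ℂ)))) :=
    fun h hh k hk => (T_inv_series χ1 χ2 _ (T_InvG_re ε hε hε' x hx h k (Finset.mem_Icc.mp hh).1
      (Finset.mem_Icc.mp hk).1)).1.const_mul _
  rw [hfun]
  refine ⟨integrable_finsetSum _ (fun h hh => integrable_finsetSum _ (fun k hk => hint h hh k hk)), ?_⟩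
  rw [integral_finsetSum _ (fun h hh => integrable_finsetSum _ (fun k hk => hint h hh k hk))]
  unfold gg
  rw [Finset.mul_sum]
  refine Finset.sum_congr rfl (fun h hh => ?_)
  rw [integral_finsetSum _ (fun k hk => hint h hh k hk), Finset.mul_sum]
  refine Finset.sum_congr rfl (fun k hk => ?_)
  rw [integral_const_mul, (T_inv_series χ1 χ2 _ (T_InvG_re ε hε hε' x hx h k (Finset.mem_Icc.mp hh).1
      (Finset.mem_Icc.mp hk).1)).2]
  have e : (∑' n : ℕ, lamF (ch χ1) (ch χ2) n * exp (-(n * (2 * (Real.pi : ℂ) * (zz ε * x * h / k))))) =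
      FS (lamF (ch χ1) (ch χ2)) (zz ε * x * h / k) := by
    unfold FS
    refine tsum_congr (fun n => ?_)
    congr 2
    ring
  rw [e]
  ring

end OO

end

section

/-!
# Row D3_tw: twists and conjugates, the two types
-/

open Complex MeasureTheory Set Filter Topology
open scoped ComplexConjugate

namespace OO

theorem D3_tw_LAs (f : ℕ → ℂ) (A z : ℂ) (t c : ℝ) : tw (LAs f A t c) z = LAs f (A - z) t c := by
  ext n
  show (if n = 0 then (0 : ℂ) else f n * (n : ℂ) ^ (-A) * (LZ.wt (t * (Real.log n + c)) : ℂ)) * (n : ℂ) ^ z =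
    if n = 0 then (0 : ℂ) else f n * (n : ℂ) ^ (-(A - z)) * (LZ.wt (t * (Real.log n + c)) : ℂ)
  by_cases hn : n = 0
  · rw [if_pos hn, if_pos hn, zero_mul]
  · rw [if_neg hn, if_neg hn]
    have h0 : (n : ℂ) ≠ 0 := Nat.cast_ne_zero.mpr hn
    have h1 : (n : ℂ) ^ (-(A - z)) = (n : ℂ) ^ (-A) * (n : ℂ) ^ z := by
      rw [← Complex.cpow_add _ _ h0]
      congr 1
      ring
    rw [h1]
    ring

theorem D3_LCs_apply {ι : Type} [Fintype ι] (f : ℕ → ℂ) (A : ℂ) (c t sh : ι → ℝ) (n : ℕ) :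
    LCs f A c t sh n = ∑ i, (c i : ℂ) * LAs f A (t i) (sh i) n := by
  unfold LCs
  rw [D_A15a_sum]
  apply Finset.sum_congr rfl
  intro i _
  rw [ArithmeticFunction.smul_map, smul_eq_mul]

/-- copy `D_tw_LC` (OO/D_A15a.lean) -/
theorem D3_tw_LCs {ι : Type} [Fintype ι] (f : ℕ → ℂ) (A z : ℂ) (c t sh : ι → ℝ) :
    tw (LCs f A c t sh) z = LCs f (A - z) c t sh := by
  ext n
  show LCs f A c t sh n * (n : ℂ) ^ z = _
  rw [D3_LCs_apply, D3_LCs_apply, Finset.sum_mul]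
  apply Finset.sum_congr rfl
  intro i _
  rw [← D3_tw_LAs f A z (t i), mul_assoc]
  rfl

/-- copy `D_cj_LC` (OO/D_A15a.lean) -/
theorem D3_cj_LCs {ι : Type} [Fintype ι] (f : ℕ → ℂ) (c t sh : ι → ℝ) :
    cj (LCs f 0 c t sh) = LCs (fun n => conj (f n)) 0 c t sh := by
  ext n
  show conj (LCs f 0 c t sh n) = _
  rw [D3_LCs_apply, D3_LCs_apply, map_sum]
  apply Finset.sum_congr rfl
  intro i _
  rw [map_mul, Complex.conj_ofReal]
  congr 1
  show conj (if n = 0 then (0 : ℂ) else f n * (n : ℂ) ^ (-(0 : ℂ)) * (LZ.wt (t i * (Real.log n + sh i)) : ℂ)) =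
    if n = 0 then (0 : ℂ) else conj (f n) * (n : ℂ) ^ (-(0 : ℂ)) * (LZ.wt (t i * (Real.log n + sh i)) : ℂ)
  by_cases hn : n = 0
  · rw [if_pos hn, if_pos hn, map_zero]
  · rw [if_neg hn, if_neg hn, neg_zero, Complex.cpow_zero, map_mul, map_mul, Complex.conj_ofReal, map_one]

theorem D3_tw_AB1 (L v : ℝ) : (0 : ℂ) - (-(1 / 2) - ww L v / 2) = 1 / 2 + ((1 : ℝ) : ℂ) * ww L v / 2 := by
  push_cast
  ring

theorem D3_tw_AB2 (L v : ℝ) : (0 : ℂ) - (-(1 / 2) + ww L v / 2) = 1 / 2 + ((-1 : ℝ) : ℂ) * ww L v / 2 := by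
  push_cast
  ring

theorem D3_tw_I (L v : ℝ) : AB L v ![1, 1] 0 = 1 / 2 + ((1 : ℝ) : ℂ) * ww L v / 2 ∧
    AB L v ![1, 1] 1 = 1 / 2 + ((1 : ℝ) : ℂ) * ww L v / 2 ∧
    AB L v ![1, 1] 2 = 1 / 2 + ((1 : ℝ) : ℂ) * ww L v / 2 ∧
    AB L v ![1, 1] 3 = 1 / 2 + ((1 : ℝ) : ℂ) * ww L v / 2 ∧
    AB L v ![1, 1] 4 = 1 / 2 + ((-1 : ℝ) : ℂ) * ww L v / 2 ∧
    AB L v ![1, 1] 5 = 1 / 2 + ((-1 : ℝ) : ℂ) * ww L v / 2 :=
  ⟨rfl, rfl, rfl, rfl, rfl, rfl⟩

theorem D3_tw_II (L v : ℝ) : AB L v ![-1, 1] 0 = 1 / 2 + ((-1 : ℝ) : ℂ) * ww L v / 2 ∧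
    AB L v ![-1, 1] 1 = 1 / 2 + ((1 : ℝ) : ℂ) * ww L v / 2 ∧
    AB L v ![-1, 1] 2 = 1 / 2 + ((1 : ℝ) : ℂ) * ww L v / 2 ∧
    AB L v ![-1, 1] 3 = 1 / 2 + ((1 : ℝ) : ℂ) * ww L v / 2 ∧
    AB L v ![-1, 1] 4 = 1 / 2 + ((-1 : ℝ) : ℂ) * ww L v / 2 ∧
    AB L v ![-1, 1] 5 = 1 / 2 + ((-1 : ℝ) : ℂ) * ww L v / 2 :=
  ⟨rfl, rfl, rfl, rfl, rfl, rfl⟩

theorem D3_tw_cj (F : Fin 2 → ℕ → ℂ) (i : Fin 2) : cjF F i = fun n => conj (F i n) := rfl

/-- copy `D_typeI` (OO/D_A15b.lean; its private lemmas must be copied, too, with new names) -/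
theorem D3_typeI (F : Fin 2 → ℕ → ℂ) (L v l : ℝ) {ι0 ι1 : Type} [Fintype ι0] [Fintype ι1]
    (c0 t0 sh0 : ι0 → ℝ) (c1 t1 sh1 : ι1 → ℝ) (a b : ArithmeticFunction ℂ)
    (ha : a = beta (F 0) (F 1) l * (LCs (F 0) 0 c0 t0 sh0 * LCs (F 1) 0 c1 t1 sh1))
    (hb : b = cj (beta (F 0) (F 1) l)) :
    tw a (-(1 / 2) - ww L v / 2) * tw (cj b) (-(1 / 2) + ww L v / 2) =
        PLs F (AB L v ![1, 1]) c0 t0 sh0 c1 t1 sh1 (1 / l) ∧
      tw (cj a) (-(1 / 2) - ww L v / 2) * tw b (-(1 / 2) + ww L v / 2) =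
        PLs (cjF F) (AB L v ![1, 1]) c0 t0 sh0 c1 t1 sh1 (1 / l) := by
  obtain ⟨h0, h1, h2, h3, h4, h5⟩ := D3_tw_I L v
  subst ha hb
  unfold PLs beta
  rw [h0, h1, h2, h3, h4, h5]
  constructor
  · simp only [D_cj_cj, D_tw_mul, D3_tw_LCs, D_tw_MA, D3_tw_AB1, D3_tw_AB2]
    ring
  · simp only [D_cj_mul, D_cj_MA, D3_cj_LCs, D_tw_mul, D3_tw_LCs, D_tw_MA, D3_tw_AB1, D3_tw_AB2, D3_tw_cj]
    ring

/-- copy `D_typeII` (OO/D_A15b.lean) -/
theorem D3_typeII (F : Fin 2 → ℕ → ℂ) (L v l : ℝ) {ι0 ι1 : Type} [Fintype ι0] [Fintype ι1]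
    (c0 t0 sh0 : ι0 → ℝ) (c1 t1 sh1 : ι1 → ℝ) (a b : ArithmeticFunction ℂ)
    (ha : a = LCs (cjF F 1) 0 c1 t1 sh1 * cj (beta (F 0) (F 1) l))
    (hb : b = LCs (F 0) 0 c0 t0 sh0 * beta (F 0) (F 1) l) :
    tw a (-(1 / 2) - ww L v / 2) * tw (cj b) (-(1 / 2) + ww L v / 2) =
        PLs (cjF F) (AB L v ![-1, 1]) c0 t0 sh0 c1 t1 sh1 (1 / l) ∧
      tw (cj a) (-(1 / 2) - ww L v / 2) * tw b (-(1 / 2) + ww L v / 2) =
        PLs F (AB L v ![-1, 1]) c0 t0 sh0 c1 t1 sh1 (1 / l) := by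
  obtain ⟨h0, h1, h2, h3, h4, h5⟩ := D3_tw_II L v
  subst ha hb
  unfold PLs beta
  rw [h0, h1, h2, h3, h4, h5]
  constructor
  · simp only [D_cj_mul, D_cj_MA, D3_cj_LCs, D_tw_mul, D3_tw_LCs, D_tw_MA, D3_tw_AB1, D3_tw_AB2, D3_tw_cj]
    ring
  · simp only [D_cj_mul, D_cj_cj, D3_cj_LCs, D_tw_mul, D3_tw_LCs, D_tw_MA, D3_tw_AB1, D3_tw_AB2, D3_tw_cj,
      Complex.conj_conj]
    ring

end OO

end

section

open Complex MeasureTheory Set Filter Topology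
open scoped ComplexConjugate

namespace OO

variable {q1 q2 : ℕ}

private theorem T_MMl_norm (t : ℝ) : 1 / 4 ≤ ‖((1 / 2 : ℂ) + t * I) - 1‖ := by
  have h := Complex.abs_re_le_norm (((1 / 2 : ℂ) + t * I) - 1)
  have h2 : (((1 / 2 : ℂ) + t * I) - 1).re = -(1 / 2) := by
    simp
    norm_num
  rw [h2, abs_neg, abs_of_pos (by norm_num : (0 : ℝ) < 1 / 2)] at h
  linarith

private theorem T_MMl_re (t : ℝ) : ((1 / 2 : ℂ) + t * I).re = 1 / 2 := by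
  simp

private theorem T_MMl_im (t : ℝ) : ((1 / 2 : ℂ) + t * I).im = t := by
  simp

private theorem T_MMl_lc : Continuous (fun t : ℝ => (1 / 2 : ℂ) + t * I) := by
  fun_prop

private theorem T_MMl_ne (t : ℝ) : (1 / 2 : ℂ) + t * I ≠ 1 := by
  intro h
  have := congrArg Complex.re h
  rw [T_MMl_re] at this
  simp at this

private theorem T_MMl_expo (ε : ℝ) (hε : 0 < ε) (hε1 : ε ≤ 1 / 10) (t : ℝ) (G : ℝ) (hG0 : 0 ≤ G)
    (hG : G ^ 2 = 1 / (1 + Real.exp (-(2 * Real.pi * t)))) :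
    Real.exp (-(ε * t)) * G ≤ Real.exp (-(ε * |t|)) := by
  have hpi := Real.pi_gt_three
  rcases le_or_gt 0 t with ht | ht
  · rw [abs_of_nonneg ht]
    have h1 : G ^ 2 ≤ 1 := by
      rw [hG, div_le_one (by positivity)]
      linarith [Real.exp_pos (-(2 * Real.pi * t))]
    have h2 : G ≤ 1 := by nlinarith
    calc Real.exp (-(ε * t)) * G ≤ Real.exp (-(ε * t)) * 1 := by gcongr
      _ = _ := mul_one _
  · rw [abs_of_neg ht]
    have h1 : G ^ 2 ≤ (Real.exp (Real.pi * t)) ^ 2 := by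
      rw [hG, ← Real.exp_nat_mul, div_le_iff₀ (by positivity)]
      have : Real.exp ((2 : ℕ) * (Real.pi * t)) * Real.exp (-(2 * Real.pi * t)) = 1 := by
        rw [← Real.exp_add]
        have : ((2 : ℕ) : ℝ) * (Real.pi * t) + -(2 * Real.pi * t) = 0 := by push_cast; ring
        rw [this, Real.exp_zero]
      nlinarith [Real.exp_pos ((2 : ℕ) * (Real.pi * t))]
    have h2 : G ≤ Real.exp (Real.pi * t) := by
      exact le_trans (le_abs_self G) (abs_le_of_sq_le_sq h1 (Real.exp_pos _).le)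
    calc Real.exp (-(ε * t)) * G ≤ Real.exp (-(ε * t)) * Real.exp (Real.pi * t) := by gcongr
      _ = Real.exp (-(ε * t) + Real.pi * t) := by rw [Real.exp_add]
      _ ≤ _ := by
          apply Real.exp_le_exp.mpr
          nlinarith

/-- OT10. `M` on the critical line.

Proof. (i) `exp (-((π/2 - ε) I s)) = exp (-(π/2 I s)) * exp (ε I s)` and `exp (ε I (1/2 + it)) = exp (ε I/2) exp (-(εt))`; the product
of the two polynomials is `‖φ‖²` (`T_phi`). (ii) take norms, `‖exp (ε/2 I)‖ = 1`, `T_gi`. (iii) continuity: `T_gi`, `T_ent` (the line does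
not meet `1`), `T_phi`; bound: `‖LL‖ ≤ C (1+|t|)²` (`T_ent`, `‖1/2 + it - 1‖ ≥ 1/2`), `‖φ‖² ≤ H⁴`,
`exp (-εt) / sqrt (1 + exp (-2πt)) ≤ exp (-ε|t|)`: clear for `t ≥ 0`; for `t < 0`, `≤ exp (ε|t| - π|t|) ≤ exp (-ε|t|)`.
Integrability by `T_dec`. -/
theorem T_mm_line [NeZero q1] [NeZero q2] (χ1 : DirichletCharacter ℂ q1) (χ2 : DirichletCharacter ℂ q2) :
    ∃ C : ℝ, 0 < C ∧ ∀ (b : ℕ → ℂ) (H : ℕ) (ε : ℝ), (∀ h, ‖b h‖ ≤ h) → 0 < ε → ε ≤ 1 / 10 →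
      (∀ t : ℝ, MM χ1 χ2 b H ε (1 / 2 + t * I) = exp ((ε / 2 : ℝ) * I) * (Real.exp (-(ε * t)) : ℂ) *
        (T_Gi (1 / 2 + t * I) * T_LL χ1 χ2 (1 / 2 + t * I)) * ((‖phi b H (1 / 2 + t * I)‖ ^ 2 : ℝ) : ℂ)) ∧
      Continuous (fun t : ℝ => MM χ1 χ2 b H ε (1 / 2 + t * I)) ∧
      (∀ t : ℝ, ‖MM χ1 χ2 b H ε (1 / 2 + t * I)‖ ≤ C * (H : ℝ) ^ 4 * (1 + |t|) ^ 2 * Real.exp (-(ε * |t|))) ∧
      Integrable (fun t : ℝ => MM χ1 χ2 b H ε (1 / 2 + t * I)) ∧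
      Integrable (fun t : ℝ => ‖MM χ1 χ2 b H ε (1 / 2 + t * I)‖ ^ 2) := by
  obtain ⟨⟨C, hC, hLL⟩, hdiff, -⟩ := T_ent χ1 χ2
  obtain ⟨hG1, hG2, -⟩ := T_gi
  refine ⟨C, hC, ?_⟩
  intro b H ε hb hε hε1
  obtain ⟨hphi1, -, hphi3, hphid, -⟩ := T_phi b H hb
  have hform : ∀ t : ℝ, MM χ1 χ2 b H ε (1 / 2 + t * I) = exp ((ε / 2 : ℝ) * I) * (Real.exp (-(ε * t)) : ℂ) *
        (T_Gi (1 / 2 + t * I) * T_LL χ1 χ2 (1 / 2 + t * I)) * ((‖phi b H (1 / 2 + t * I)‖ ^ 2 : ℝ) : ℂ) := by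
    intro t
    rw [← hphi3 t]
    unfold MM T_Gi T_LL
    have he : exp (-(((Real.pi / 2 - ε : ℝ) : ℂ) * I * (1 / 2 + t * I))) =
        exp (-(((Real.pi / 2 : ℝ) : ℂ) * I * (1 / 2 + t * I))) * (exp ((ε / 2 : ℝ) * I) *
          (Real.exp (-(ε * t)) : ℂ)) := by
      rw [Complex.ofReal_exp, ← Complex.exp_add, ← Complex.exp_add]
      congr 1
      push_cast
      linear_combination (-(ε : ℂ) * t) * (-1 : ℂ) * I_sq
    rw [he]
    ring
  have hcontLL : Continuous (fun t : ℝ => T_LL χ1 χ2 (1 / 2 + t * I)) := by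
    rw [continuous_iff_continuousAt]
    intro t
    exact ContinuousAt.comp (g := T_LL χ1 χ2) (f := fun t : ℝ => (1 / 2 : ℂ) + t * I)
      (hdiff _ (T_MMl_ne t)).continuousAt T_MMl_lc.continuousAt
  have hcontG : Continuous (fun t : ℝ => T_Gi (1 / 2 + t * I)) := by
    rw [continuous_iff_continuousAt]
    intro t
    exact ContinuousAt.comp (g := T_Gi) (f := fun t : ℝ => (1 / 2 : ℂ) + t * I)
      (hG2 _ (by rw [T_MMl_re]; norm_num)).1.continuousAt T_MMl_lc.continuousAt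
  have hcontphi : Continuous (fun t : ℝ => phi b H (1 / 2 + t * I)) :=
    hphid.continuous.comp T_MMl_lc
  have hcont : Continuous (fun t : ℝ => MM χ1 χ2 b H ε (1 / 2 + t * I)) := by
    have : (fun t : ℝ => MM χ1 χ2 b H ε (1 / 2 + t * I)) = fun t : ℝ => exp ((ε / 2 : ℝ) * I) * (Real.exp (-(ε * t)) : ℂ) *
        (T_Gi (1 / 2 + t * I) * T_LL χ1 χ2 (1 / 2 + t * I)) * ((‖phi b H (1 / 2 + t * I)‖ ^ 2 : ℝ) : ℂ) :=
      funext hform
    rw [this]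
    apply Continuous.mul
    · apply Continuous.mul
      · fun_prop
      · exact hcontG.mul hcontLL
    · exact Complex.continuous_ofReal.comp (hcontphi.norm.pow 2)
  have hbound : ∀ t : ℝ, ‖MM χ1 χ2 b H ε (1 / 2 + t * I)‖ ≤ C * (H : ℝ) ^ 4 * (1 + |t|) ^ 2 * Real.exp (-(ε * |t|)) := by
    intro t
    rw [hform t]
    have e1 : ‖T_LL χ1 χ2 (1 / 2 + t * I)‖ ≤ C * (1 + |t|) ^ 2 := by
      have := hLL (1 / 2 + t * I) (by rw [T_MMl_re]) (T_MMl_norm t)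
      rwa [T_MMl_im] at this
    have e2 : ‖phi b H (1 / 2 + t * I)‖ ≤ (H : ℝ) ^ 2 :=
      hphi1 _ (by rw [T_MMl_re]; norm_num)
    have e3 : ‖phi b H (1 / 2 + t * I)‖ ^ 2 ≤ (H : ℝ) ^ 4 := by
      calc ‖phi b H (1 / 2 + t * I)‖ ^ 2 ≤ ((H : ℝ) ^ 2) ^ 2 := by gcongr
        _ = (H : ℝ) ^ 4 := by ring
    have e4 := T_MMl_expo ε hε hε1 t ‖T_Gi (1 / 2 + t * I)‖ (norm_nonneg _) (hG1 t)
    rw [norm_mul, norm_mul, norm_mul, norm_mul, Complex.norm_exp_ofReal_mul_I, Complex.norm_real,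
      Complex.norm_real, Real.norm_of_nonneg (Real.exp_nonneg _), Real.norm_of_nonneg (by positivity)]
    have e5 : (0 : ℝ) ≤ C * (1 + |t|) ^ 2 := by positivity
    calc 1 * Real.exp (-(ε * t)) * (‖T_Gi (1 / 2 + t * I)‖ * ‖T_LL χ1 χ2 (1 / 2 + t * I)‖) *
          ‖phi b H (1 / 2 + t * I)‖ ^ 2 = (Real.exp (-(ε * t)) * ‖T_Gi (1 / 2 + t * I)‖) *
          ‖T_LL χ1 χ2 (1 / 2 + t * I)‖ * ‖phi b H (1 / 2 + t * I)‖ ^ 2 := by ring
      _ ≤ Real.exp (-(ε * |t|)) * (C * (1 + |t|) ^ 2) * (H : ℝ) ^ 4 := by gcongr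
      _ = _ := by ring
  have hdec := (T_dec 2 ε hε).1 (fun t : ℝ => MM χ1 χ2 b H ε (1 / 2 + t * I)) (C * (H : ℝ) ^ 4) hcont hbound
  exact ⟨hform, hcont, hbound, hdec.1, hdec.2⟩

end OO

end

section

open Complex MeasureTheory Set Filter Topology
open scoped ComplexConjugate

namespace OO

variable {q1 q2 : ℕ}

theorem T_MMl3_norm (t v : ℝ) : 1 / 4 ≤ ‖((1 / 2 : ℂ) + t * I) + v * I - 1‖ ∧
    1 / 4 ≤ ‖((1 / 2 : ℂ) + t * I) - v * I - 1‖ := by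
  have h := Complex.abs_re_le_norm (((1 / 2 : ℂ) + t * I) + v * I - 1)
  have h' := Complex.abs_re_le_norm (((1 / 2 : ℂ) + t * I) - v * I - 1)
  have h2 : (((1 / 2 : ℂ) + t * I) + v * I - 1).re = -(1 / 2) := by
    simp
    norm_num
  have h2' : (((1 / 2 : ℂ) + t * I) - v * I - 1).re = -(1 / 2) := by
    simp
    norm_num
  rw [h2, abs_neg, abs_of_pos (by norm_num : (0 : ℝ) < 1 / 2)] at h
  rw [h2', abs_neg, abs_of_pos (by norm_num : (0 : ℝ) < 1 / 2)] at h'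
  constructor <;> linarith

private theorem T_MMl3_re (t : ℝ) : ((1 / 2 : ℂ) + t * I).re = 1 / 2 := by
  simp

private theorem T_MMl3_im (t : ℝ) : ((1 / 2 : ℂ) + t * I).im = t := by
  simp

private theorem T_MMl3_lc : Continuous (fun t : ℝ => (1 / 2 : ℂ) + t * I) := by
  fun_prop

theorem T_MMl3_ne (t v : ℝ) : (1 / 2 : ℂ) + t * I + v * I ≠ 1 ∧ (1 / 2 : ℂ) + t * I - v * I ≠ 1 := by
  constructor <;>
  · intro h
    have := congrArg Complex.re h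
    simp at this

theorem T_MMl3_cLL [NeZero q1] [NeZero q2] (χ1 : DirichletCharacter ℂ q1) (χ2 : DirichletCharacter ℂ q2) (v : ℝ) :
    Continuous (fun t : ℝ => T_LL3 χ1 χ2 v (1 / 2 + t * I)) := by
  rw [continuous_iff_continuousAt]
  intro t
  exact ContinuousAt.comp (g := T_LL3 χ1 χ2 v) (f := fun t : ℝ => (1 / 2 : ℂ) + t * I)
    (T_Ent3_diff χ1 χ2 v _ (T_MMl3_ne t v).1 (T_MMl3_ne t v).2).continuousAt T_MMl3_lc.continuousAt

private theorem T_MMl3_expo (ε : ℝ) (hε : 0 < ε) (hε1 : ε ≤ 1 / 10) (t : ℝ) (G : ℝ) (hG0 : 0 ≤ G)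
    (hG : G ^ 2 = 1 / (1 + Real.exp (-(2 * Real.pi * t)))) :
    Real.exp (-(ε * t)) * G ≤ Real.exp (-(ε * |t|)) := by
  have hpi := Real.pi_gt_three
  rcases le_or_gt 0 t with ht | ht
  · rw [abs_of_nonneg ht]
    have h1 : G ^ 2 ≤ 1 := by
      rw [hG, div_le_one (by positivity)]
      linarith [Real.exp_pos (-(2 * Real.pi * t))]
    have h2 : G ≤ 1 := by nlinarith
    calc Real.exp (-(ε * t)) * G ≤ Real.exp (-(ε * t)) * 1 := by gcongr
      _ = _ := mul_one _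
  · rw [abs_of_neg ht]
    have h1 : G ^ 2 ≤ (Real.exp (Real.pi * t)) ^ 2 := by
      rw [hG, ← Real.exp_nat_mul, div_le_iff₀ (by positivity)]
      have : Real.exp ((2 : ℕ) * (Real.pi * t)) * Real.exp (-(2 * Real.pi * t)) = 1 := by
        rw [← Real.exp_add]
        have : ((2 : ℕ) : ℝ) * (Real.pi * t) + -(2 * Real.pi * t) = 0 := by push_cast; ring
        rw [this, Real.exp_zero]
      nlinarith [Real.exp_pos ((2 : ℕ) * (Real.pi * t))]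
    have h2 : G ≤ Real.exp (Real.pi * t) := by
      exact le_trans (le_abs_self G) (abs_le_of_sq_le_sq h1 (Real.exp_pos _).le)
    calc Real.exp (-(ε * t)) * G ≤ Real.exp (-(ε * t)) * Real.exp (Real.pi * t) := by gcongr
      _ = Real.exp (-(ε * t) + Real.pi * t) := by rw [Real.exp_add]
      _ ≤ _ := by
          apply Real.exp_le_exp.mpr
          nlinarith

/-- `M` on the critical line -/
theorem T_mm_line3 [NeZero q1] [NeZero q2] (χ1 : DirichletCharacter ℂ q1) (χ2 : DirichletCharacter ℂ q2) (v : ℝ) :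
    ∃ C : ℝ, 0 < C ∧ ∀ (b : ℕ → ℂ) (H : ℕ) (ε : ℝ), (∀ h, ‖b h‖ ≤ h) → 0 < ε → ε ≤ 1 / 10 →
      (∀ t : ℝ, MM3 χ1 χ2 v b H ε (1 / 2 + t * I) = exp ((ε / 2 : ℝ) * I) * (Real.exp (-(ε * t)) : ℂ) *
        (T_Gi (1 / 2 + t * I) * T_LL3 χ1 χ2 v (1 / 2 + t * I)) * ((‖phi b H (1 / 2 + t * I)‖ ^ 2 : ℝ) : ℂ)) ∧
      Continuous (fun t : ℝ => MM3 χ1 χ2 v b H ε (1 / 2 + t * I)) ∧
      (∀ t : ℝ, ‖MM3 χ1 χ2 v b H ε (1 / 2 + t * I)‖ ≤ C * (H : ℝ) ^ 4 * (1 + |t|) ^ 2 * Real.exp (-(ε * |t|))) ∧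
      Integrable (fun t : ℝ => MM3 χ1 χ2 v b H ε (1 / 2 + t * I)) ∧
      Integrable (fun t : ℝ => ‖MM3 χ1 χ2 v b H ε (1 / 2 + t * I)‖ ^ 2) := by
  obtain ⟨C, hC, hLL⟩ := T_Ent3_bd χ1 χ2 v
  obtain ⟨hG1, hG2, -⟩ := T_gi
  refine ⟨C, hC, ?_⟩
  intro b H ε hb hε hε1
  obtain ⟨hphi1, -, hphi3, hphid, -⟩ := T_phi b H hb
  have hform : ∀ t : ℝ, MM3 χ1 χ2 v b H ε (1 / 2 + t * I) = exp ((ε / 2 : ℝ) * I) * (Real.exp (-(ε * t)) : ℂ) *
        (T_Gi (1 / 2 + t * I) * T_LL3 χ1 χ2 v (1 / 2 + t * I)) * ((‖phi b H (1 / 2 + t * I)‖ ^ 2 : ℝ) : ℂ) := by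
    intro t
    rw [← hphi3 t]
    unfold MM3 T_Gi
    have he : exp (-(((Real.pi / 2 - ε : ℝ) : ℂ) * I * (1 / 2 + t * I))) =
        exp (-(((Real.pi / 2 : ℝ) : ℂ) * I * (1 / 2 + t * I))) * (exp ((ε / 2 : ℝ) * I) *
          (Real.exp (-(ε * t)) : ℂ)) := by
      rw [Complex.ofReal_exp, ← Complex.exp_add, ← Complex.exp_add]
      congr 1
      push_cast
      linear_combination (-(ε : ℂ) * t) * (-1 : ℂ) * I_sq
    rw [he]
    ring
  have hcontLL : Continuous (fun t : ℝ => T_LL3 χ1 χ2 v (1 / 2 + t * I)) := T_MMl3_cLL χ1 χ2 v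
  have hcontG : Continuous (fun t : ℝ => T_Gi (1 / 2 + t * I)) := by
    rw [continuous_iff_continuousAt]
    intro t
    exact ContinuousAt.comp (g := T_Gi) (f := fun t : ℝ => (1 / 2 : ℂ) + t * I)
      (hG2 _ (by rw [T_MMl3_re]; norm_num)).1.continuousAt T_MMl3_lc.continuousAt
  have hcontphi : Continuous (fun t : ℝ => phi b H (1 / 2 + t * I)) :=
    hphid.continuous.comp T_MMl3_lc
  have hcont : Continuous (fun t : ℝ => MM3 χ1 χ2 v b H ε (1 / 2 + t * I)) := by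
    have : (fun t : ℝ => MM3 χ1 χ2 v b H ε (1 / 2 + t * I)) = fun t : ℝ => exp ((ε / 2 : ℝ) * I) * (Real.exp (-(ε * t)) : ℂ) *
        (T_Gi (1 / 2 + t * I) * T_LL3 χ1 χ2 v (1 / 2 + t * I)) * ((‖phi b H (1 / 2 + t * I)‖ ^ 2 : ℝ) : ℂ) :=
      funext hform
    rw [this]
    apply Continuous.mul
    · apply Continuous.mul
      · fun_prop
      · exact hcontG.mul hcontLL
    · exact Complex.continuous_ofReal.comp (hcontphi.norm.pow 2)
  have hbound : ∀ t : ℝ, ‖MM3 χ1 χ2 v b H ε (1 / 2 + t * I)‖ ≤ C * (H : ℝ) ^ 4 * (1 + |t|) ^ 2 * Real.exp (-(ε * |t|)) := by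
    intro t
    rw [hform t]
    have e1 : ‖T_LL3 χ1 χ2 v (1 / 2 + t * I)‖ ≤ C * (1 + |t|) ^ 2 := by
      have := hLL (1 / 2 + t * I) (by rw [T_MMl3_re]) (T_MMl3_norm t v).1 (T_MMl3_norm t v).2
      rwa [T_MMl3_im] at this
    have e2 : ‖phi b H (1 / 2 + t * I)‖ ≤ (H : ℝ) ^ 2 :=
      hphi1 _ (by rw [T_MMl3_re]; norm_num)
    have e3 : ‖phi b H (1 / 2 + t * I)‖ ^ 2 ≤ (H : ℝ) ^ 4 := by
      calc ‖phi b H (1 / 2 + t * I)‖ ^ 2 ≤ ((H : ℝ) ^ 2) ^ 2 := by gcongr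
        _ = (H : ℝ) ^ 4 := by ring
    have e4 := T_MMl3_expo ε hε hε1 t ‖T_Gi (1 / 2 + t * I)‖ (norm_nonneg _) (hG1 t)
    rw [norm_mul, norm_mul, norm_mul, norm_mul, Complex.norm_exp_ofReal_mul_I, Complex.norm_real,
      Complex.norm_real, Real.norm_of_nonneg (Real.exp_nonneg _), Real.norm_of_nonneg (by positivity)]
    have e5 : (0 : ℝ) ≤ C * (1 + |t|) ^ 2 := by positivity
    calc 1 * Real.exp (-(ε * t)) * (‖T_Gi (1 / 2 + t * I)‖ * ‖T_LL3 χ1 χ2 v (1 / 2 + t * I)‖) *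
          ‖phi b H (1 / 2 + t * I)‖ ^ 2 = (Real.exp (-(ε * t)) * ‖T_Gi (1 / 2 + t * I)‖) *
          ‖T_LL3 χ1 χ2 v (1 / 2 + t * I)‖ * ‖phi b H (1 / 2 + t * I)‖ ^ 2 := by ring
      _ ≤ Real.exp (-(ε * |t|)) * (C * (1 + |t|) ^ 2) * (H : ℝ) ^ 4 := by gcongr
      _ = _ := by ring
  have hdec := (T_dec 2 ε hε).1 (fun t : ℝ => MM3 χ1 χ2 v b H ε (1 / 2 + t * I)) (C * (H : ℝ) ^ 4) hcont hbound
  exact ⟨hform, hcont, hbound, hdec.1, hdec.2⟩

end OO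

end

section

open Complex MeasureTheory Set Filter Topology
open scoped ComplexConjugate

namespace OO

variable {q1 q2 : ℕ}

/-- OT11. `g` as an inverse Mellin transform on the critical line, with the residue at `1`.

Proof. By `Ne12`, not both characters are trivial: if `χ1 = 1` and `χ2 = 1` then `χ1 n = 1 = χ2 n` for `n` prime to `q1 q2`. Take `E`
from `T_ent`. `N s = T_Gi s * exp (ε I s) * E s * phi b H s * phi (conj b) H (1 - s) * (x:ℂ) ^ (-s)` satisfies the hypotheses of `T_shift`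
with `a = 1/2`, `b = 2`: bound by `T_gi` (iii) and `‖exp (ε I s)‖ = exp (-(ε Im s))`:
`exp (π/2 y - π/2|y| - εy) ≤ exp (-(ε|y|))` (for `y < 0` it is `exp (-(π - ε)|y|)`), `‖E‖ ≤ C (1+|y|)³`, `T_phi`,
`‖x ^ (-s)‖ = x ^ (-Re s) ≤ x ^ (-1/2) + x ^ (-2)`; and `(1+|y|)^6 ≤ (1+|y|)^8`. For `s ≠ 1`, `N s / (s - 1) = MM s * x ^ (-s)`.
So `2π gg = ∫ MM(1/2+it) x^{-(1/2+it)} dt + 2π N 1` (`T_inv_gg`), `N 1 = R * x⁻¹`,
`R = T_Gi 1 * exp (εI) * E 1 * phi b H 1 * phi (conj b) H 0`, `‖R‖ ≤ C H² H³`. Put `R0 = R`. -/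
theorem T_gg_line [NeZero q1] [NeZero q2] (χ1 : DirichletCharacter ℂ q1) (χ2 : DirichletCharacter ℂ q2)
    (hne : Ne12 χ1 χ2) : ∃ C : ℝ, 0 < C ∧ ∀ (b : ℕ → ℂ) (H : ℕ) (ε : ℝ), (∀ h, ‖b h‖ ≤ h) → 0 < ε → ε ≤ 1 / 10 →
      ∃ R0 : ℂ, ‖R0‖ ≤ C * (H : ℝ) ^ 5 ∧ ∀ x : ℝ, 0 < x →
        ∫ t : ℝ, MM χ1 χ2 b H ε (1 / 2 + t * I) * (x : ℂ) ^ (-(1 / 2 + t * I : ℂ)) =
          2 * Real.pi * (gg b H (lamF (ch χ1) (ch χ2)) ε x - R0 / x) := by
  have hnt : ¬ (χ1 = 1 ∧ χ2 = 1) := by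
    rintro ⟨h1, h2⟩
    obtain ⟨n, hn, hne'⟩ := hne
    apply hne'
    have u1 : IsUnit (n : ZMod q1) := (ZMod.isUnit_iff_coprime n q1).mpr (Nat.Coprime.coprime_mul_right_right hn)
    have u2 : IsUnit (n : ZMod q2) := (ZMod.isUnit_iff_coprime n q2).mpr (Nat.Coprime.coprime_mul_left_right hn)
    rw [h1, h2, MulChar.one_apply u1, MulChar.one_apply u2]
  obtain ⟨E, hEd, hEe, C1, hC1, hEb⟩ := (T_ent χ1 χ2).2.2 hnt
  obtain ⟨-, hGd, C2, hC2, hGb⟩ := T_gi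
  refine ⟨‖T_Gi 1‖ * ‖E 1‖ + 1, by positivity, ?_⟩
  intro b H ε hb hε hε'
  obtain ⟨hp1, hp2, -, hpd1, hpd2⟩ := T_phi b H hb
  set φ2 : ℂ → ℂ := phi (fun n => conj (b n)) H with hφ2
  refine ⟨T_Gi 1 * exp ((ε : ℂ) * I) * E 1 * phi b H 1 * φ2 (1 - 1), ?_, ?_⟩
  · have e1 : ‖exp ((ε : ℂ) * I)‖ = 1 := Complex.norm_exp_ofReal_mul_I ε
    have e2 := hp1 1 (by norm_num)
    have e3 := hp2 1 (by norm_num)
    rw [norm_mul, norm_mul, norm_mul, norm_mul, e1, mul_one]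
    have hH : (0 : ℝ) ≤ (H : ℝ) := Nat.cast_nonneg H
    calc ‖T_Gi 1‖ * ‖E 1‖ * ‖phi b H 1‖ * ‖φ2 (1 - 1)‖
        ≤ ‖T_Gi 1‖ * ‖E 1‖ * (H : ℝ) ^ 2 * (H : ℝ) ^ 3 := by gcongr
      _ = (‖T_Gi 1‖ * ‖E 1‖) * (H : ℝ) ^ 5 := by ring
      _ ≤ (‖T_Gi 1‖ * ‖E 1‖ + 1) * (H : ℝ) ^ 5 := by gcongr; linarith only [hε, hε']
  intro x hx
  have hxc : (x : ℂ) ≠ 0 := by exact_mod_cast hx.ne'
  set N : ℂ → ℂ := fun s => T_Gi s * exp ((ε : ℂ) * I * s) * E s * phi b H s * φ2 (1 - s) * (x : ℂ) ^ (-s) with hN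
  have hNd : ∀ s : ℂ, 1 / 2 ≤ s.re → s.re ≤ 2 → DifferentiableAt ℂ N s := by
    intro s hs1 _
    have d1 := (hGd s (by linarith only [hε, hε', hs1])).1
    have d2 : DifferentiableAt ℂ (fun s : ℂ => exp ((ε : ℂ) * I * s)) s := by fun_prop
    have d3 : DifferentiableAt ℂ E s := hEd s
    have d4 : DifferentiableAt ℂ (phi b H) s := hpd1 s
    have d5 : DifferentiableAt ℂ (fun s : ℂ => φ2 (1 - s)) s :=
      (hpd2 (1 - s)).comp s ((differentiableAt_const 1).sub differentiableAt_id)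
    have d6 : DifferentiableAt ℂ (fun s : ℂ => (x : ℂ) ^ (-s)) s :=
      (differentiableAt_id.neg).const_cpow (Or.inl hxc)
    exact ((((d1.mul d2).mul d3).mul d4).mul d5).mul d6
  have hNb : ∀ s : ℂ, 1 / 2 ≤ s.re → s.re ≤ 2 →
      ‖N s‖ ≤ (C2 * C1 * (H : ℝ) ^ 5 * (x ^ (-(1 / 2) : ℝ) + x ^ (-2 : ℝ))) * (1 + |s.im|) ^ 8 *
        Real.exp (-(ε * |s.im|)) := by
    intro s hs1 hs2
    have b1 := hGb s hs1 hs2
    have b2 : ‖exp ((ε : ℂ) * I * s)‖ = Real.exp (-(ε * s.im)) := by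
      rw [Complex.norm_exp]; congr 1; simp
    have b3 := hEb s hs1 hs2
    have b4 := hp1 s (by linarith only [hε, hε', hs1])
    have b5 := hp2 s hs2
    have b6 : ‖(x : ℂ) ^ (-s)‖ ≤ x ^ (-(1 / 2) : ℝ) + x ^ (-2 : ℝ) := by
      rw [Complex.norm_cpow_eq_rpow_re_of_pos hx, Complex.neg_re]
      rcases le_total x 1 with h | h
      · have := Real.rpow_le_rpow_of_exponent_ge hx h (show (-2 : ℝ) ≤ -s.re by linarith only [hs2])
        have h0 := Real.rpow_pos_of_pos hx (-(1 / 2) : ℝ)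
        linarith only [this, h0]
      · have := Real.rpow_le_rpow_of_exponent_le h (show -s.re ≤ (-(1 / 2) : ℝ) by linarith only [hs1])
        have h0 := Real.rpow_pos_of_pos hx (-2 : ℝ)
        linarith only [this, h0]
    have b7 : Real.exp (Real.pi / 2 * s.im - Real.pi / 2 * |s.im|) * Real.exp (-(ε * s.im)) ≤
        Real.exp (-(ε * |s.im|)) := by
      rw [← Real.exp_add]
      apply Real.exp_le_exp.mpr
      have hpi := Real.pi_gt_three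
      rcases abs_cases s.im with ⟨h, h'⟩ | ⟨h, h'⟩
      · rw [h]; linarith only []
      · rw [h]
        have hpe : 2 * ε ≤ Real.pi := by linarith only [hpi, hε']
        have hm := mul_nonneg_of_nonpos_of_nonpos (sub_nonpos.2 hpe) h'.le
        linarith only [hm]
    have hP : (1 : ℝ) ≤ 1 + |s.im| := by have := abs_nonneg s.im; linarith only [this]
    have b8 : (1 + |s.im|) ^ 6 ≤ (1 + |s.im|) ^ 8 := pow_le_pow_right₀ hP (by norm_num)
    have hX0 : 0 ≤ x ^ (-(1 / 2) : ℝ) + x ^ (-2 : ℝ) := by positivity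
    have hH : (0 : ℝ) ≤ (H : ℝ) := Nat.cast_nonneg H
    calc ‖N s‖ = ‖T_Gi s‖ * ‖exp ((ε : ℂ) * I * s)‖ * ‖E s‖ * ‖phi b H s‖ * ‖φ2 (1 - s)‖ * ‖(x : ℂ) ^ (-s)‖ := by
          simp only [hN, norm_mul]
      _ ≤ (C2 * (1 + |s.im|) ^ 3 * Real.exp (Real.pi / 2 * s.im - Real.pi / 2 * |s.im|)) *
            Real.exp (-(ε * s.im)) * (C1 * (1 + |s.im|) ^ 3) * (H : ℝ) ^ 2 * (H : ℝ) ^ 3 *
            (x ^ (-(1 / 2) : ℝ) + x ^ (-2 : ℝ)) := by
          rw [b2]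
          have m1 := mul_le_mul_of_nonneg_right b1 (Real.exp_pos (-(ε * s.im))).le
          have m2 := mul_le_mul m1 b3 (norm_nonneg _) ((mul_nonneg (norm_nonneg _) (Real.exp_pos _).le).trans m1)
          have m3 := mul_le_mul m2 b4 (norm_nonneg _) ((mul_nonneg (mul_nonneg (norm_nonneg _) (Real.exp_pos _).le)
            (norm_nonneg _)).trans m2)
          have m4 := mul_le_mul m3 b5 (norm_nonneg _) ((mul_nonneg (mul_nonneg (mul_nonneg (norm_nonneg _)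
            (Real.exp_pos _).le) (norm_nonneg _)) (norm_nonneg _)).trans m3)
          exact mul_le_mul m4 b6 (norm_nonneg _) ((mul_nonneg (mul_nonneg (mul_nonneg (mul_nonneg (norm_nonneg _)
            (Real.exp_pos _).le) (norm_nonneg _)) (norm_nonneg _)) (norm_nonneg _)).trans m4)
      _ = (C2 * C1 * (H : ℝ) ^ 5 * (x ^ (-(1 / 2) : ℝ) + x ^ (-2 : ℝ))) * (1 + |s.im|) ^ 6 *
            (Real.exp (Real.pi / 2 * s.im - Real.pi / 2 * |s.im|) * Real.exp (-(ε * s.im))) := by ring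
      _ ≤ _ := mul_le_mul (mul_le_mul_of_nonneg_left b8 (mul_nonneg (mul_nonneg (mul_nonneg hC2.le hC1.le)
            (pow_nonneg hH 5)) hX0)) b7 (mul_nonneg (Real.exp_pos _).le (Real.exp_pos _).le)
            (mul_nonneg (mul_nonneg (mul_nonneg (mul_nonneg hC2.le hC1.le) (pow_nonneg hH 5)) hX0)
            (pow_nonneg (zero_le_one.trans hP) 8))
  have hNM : ∀ s : ℂ, s ≠ 1 → N s / (s - 1) = MM χ1 χ2 b H ε s * (x : ℂ) ^ (-s) := by
    intro s hs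
    have hs' : s - 1 ≠ 0 := sub_ne_zero.mpr hs
    have e1 : exp (-(((Real.pi / 2 : ℝ) : ℂ) * I * s)) * exp ((ε : ℂ) * I * s) =
        exp (-(((Real.pi / 2 - ε : ℝ) : ℂ) * I * s)) := by
      rw [← Complex.exp_add]; congr 1; push_cast; ring
    simp only [hN, MM, ← hφ2]
    rw [hEe s hs, ← e1, T_Gi, T_LL, div_eq_iff hs']
    ring
  have hsh := T_shift (N := N) (a := 1 / 2) (b := 2) (by norm_num) (by norm_num) hNd hε hNb
  obtain ⟨-, -, hsh⟩ := hsh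
  have c1 : (((1 / 2 : ℝ)) : ℂ) = 1 / 2 := by push_cast; ring
  have c2 : (((2 : ℝ)) : ℂ) = 2 := by push_cast; ring
  rw [c1, c2] at hsh
  have i1 : ∀ y : ℝ, N (2 + y * I) / (2 + y * I - 1) = MM χ1 χ2 b H ε (2 + y * I) * (x : ℂ) ^ (-(2 + y * I : ℂ)) := by
    intro y
    apply hNM
    intro h
    have := congrArg Complex.re h
    norm_num at this
  have i2 : ∀ y : ℝ, N (1 / 2 + y * I) / (1 / 2 + y * I - 1) =
      MM χ1 χ2 b H ε (1 / 2 + y * I) * (x : ℂ) ^ (-(1 / 2 + y * I : ℂ)) := by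
    intro y
    apply hNM
    intro h
    have := congrArg Complex.re h
    norm_num at this
  simp only [i1, i2] at hsh
  rw [(T_inv_gg χ1 χ2 b H ε hε hε' x hx).2] at hsh
  have hN1 : N 1 = (T_Gi 1 * exp ((ε : ℂ) * I) * E 1 * phi b H 1 * φ2 (1 - 1)) / x := by
    simp only [hN]
    rw [Complex.cpow_neg_one, mul_one, div_eq_mul_inv]
  rw [hN1] at hsh
  rw [mul_sub, hsh]
  ring

end OO

end
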