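import Pool.Agent.Lib.MP_0f5a55_nt.OM.K000
import Pool.Agent.Lib.MP_0f5a55_nt.OM.K021
import Pool.Agent.Lib.MP_0f5a55_nt.OM.K026

section

open Complex MeasureTheory Set Filter Topology
open scoped ComplexConjugate

namespace OO

variable {q1 q2 : ℕ}

theorem T_Lam3_norm {q : ℕ} (χ : DirichletCharacter ℂ q) (v : ℝ) (n : ℕ) : ‖chx χ v n‖ ≤ 1 := by
  unfold chx
  rw [norm_mul]
  have h1 : ‖χ (n : ZMod q)‖ ≤ 1 := DirichletCharacter.norm_le_one χ _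
  have h2 : ‖(n : ℂ) ^ (-((v : ℂ) * I))‖ ≤ 1 := by
    rcases Nat.eq_zero_or_pos n with h | h
    · subst h
      by_cases hv : (-((v : ℂ) * I)) = 0
      · rw [hv]; simp
      · rw [Nat.cast_zero, Complex.zero_cpow hv]; simp
    · rw [Complex.norm_natCast_cpow_of_pos h]
      simp
  exact mul_le_one₀ h1 (norm_nonneg _) h2

theorem T_Lam3_one {q : ℕ} (χ : DirichletCharacter ℂ q) (v : ℝ) : chx χ v 1 = 1 := by
  simp [chx]

theorem T_Lam3_LAnorm {q : ℕ} (χ : DirichletCharacter ℂ q) (v : ℝ) (n : ℕ) : ‖LA (chx χ v) 0 0 n‖ ≤ 1 := by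
  rcases eq_or_ne n 0 with hn | hn
  · subst hn; simp
  · rw [T_Lam_aux_LA _ _ hn]
    exact T_Lam3_norm χ v n

theorem T_Lam3_hasSum {q : ℕ} [NeZero q] (χ : DirichletCharacter ℂ q) (v : ℝ) (s : ℂ) (hs : 1 < s.re) :
    LSeriesHasSum (fun n => LA (chx χ v) 0 0 n) s (LX.Lf χ (s + v * I)) := by
  have hs' : 1 < (s + v * I).re := by simpa using hs
  have h0 := T_Lam_aux_hasSum χ (s + v * I) hs'
  unfold LSeriesHasSum at h0 ⊢
  convert h0 using 1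
  funext n
  rcases Nat.eq_zero_or_pos n with hn | hn
  · subst hn; simp
  · have hn0 : (n : ℂ) ≠ 0 := by exact_mod_cast hn.ne'
    rw [LSeries.term_of_ne_zero hn.ne', LSeries.term_of_ne_zero hn.ne', T_Lam_aux_LA _ _ hn.ne',
      T_Lam_aux_LA _ _ hn.ne']
    unfold chx ch
    rw [Complex.cpow_add _ _ hn0, Complex.cpow_neg]
    field_simp

/-- the Dirichlet series of `L(s + iv, χ1) L(s - iv, χ2)` -/
theorem T_lam3 [NeZero q1] [NeZero q2] (χ1 : DirichletCharacter ℂ q1) (χ2 : DirichletCharacter ℂ q2) (v : ℝ) :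
    (∀ n : ℕ, ‖lamF (chx χ1 v) (chx χ2 (-v)) n‖ ≤ n) ∧
    (∀ s : ℂ, 1 < s.re → HasSum (fun n : ℕ => lamF (chx χ1 v) (chx χ2 (-v)) n * (n : ℂ) ^ (-s)) (T_LL3 χ1 χ2 v s)) ∧
    (∀ σ : ℝ, 1 < σ → Summable (fun n : ℕ => ‖lamF (chx χ1 v) (chx χ2 (-v)) n‖ * (n : ℝ) ^ (-σ))) ∧
    lamF (chx χ1 v) (chx χ2 (-v)) 1 = 1 := by
  have key : ∀ s : ℂ, 1 < s.re →
      HasSum (fun n : ℕ => lamF (chx χ1 v) (chx χ2 (-v)) n * (n : ℂ) ^ (-s)) (T_LL3 χ1 χ2 v s) := by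
    intro s hs
    have h1 := ArithmeticFunction.LSeriesHasSum_mul (T_Lam3_hasSum χ1 v s hs) (T_Lam3_hasSum χ2 (-v) s hs)
    unfold LSeriesHasSum at h1
    have e : s + ((-v : ℝ) : ℂ) * I = s - v * I := by push_cast; ring
    rw [e] at h1
    unfold T_LL3 lamF
    convert h1 using 1
    funext n
    rcases Nat.eq_zero_or_pos n with hn | hn
    · subst hn; simp
    · rw [LSeries.term_of_ne_zero hn.ne', Complex.cpow_neg, div_eq_mul_inv]
  refine ⟨?_, key, ?_, ?_⟩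
  · intro n
    unfold lamF
    rw [ArithmeticFunction.mul_apply]
    calc ‖∑ x ∈ n.divisorsAntidiagonal, LA (chx χ1 v) 0 0 x.1 * LA (chx χ2 (-v)) 0 0 x.2‖
        ≤ ∑ x ∈ n.divisorsAntidiagonal, ‖LA (chx χ1 v) 0 0 x.1 * LA (chx χ2 (-v)) 0 0 x.2‖ := norm_sum_le _ _
      _ ≤ ∑ x ∈ n.divisorsAntidiagonal, (1 : ℝ) := by
          refine Finset.sum_le_sum (fun x _ => ?_)
          rw [norm_mul]
          exact mul_le_one₀ (T_Lam3_LAnorm χ1 v _) (norm_nonneg _) (T_Lam3_LAnorm χ2 (-v) _)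
      _ = (n.divisors.card : ℝ) := by
          rw [Nat.sum_divisorsAntidiagonal (fun _ _ => (1 : ℝ))]; simp
      _ ≤ n := by exact_mod_cast Nat.card_divisors_le_self n
  · intro σ hσ
    have h := (key (σ : ℂ) (by simpa using hσ)).summable.norm
    refine h.congr (fun n => ?_)
    rw [norm_mul]
    rcases Nat.eq_zero_or_pos n with hn | hn
    · subst hn; simp
    · rw [Complex.norm_natCast_cpow_of_pos hn]; simp
  · unfold lamF
    rw [ArithmeticFunction.mul_apply]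
    simp [T_Lam_aux_LA, T_Lam3_one]

theorem T_Beta3_MA_one {q : ℕ} (χ : DirichletCharacter ℂ q) (v l : ℝ) : MA (chx χ v) 0 (1 / l) 1 = 1 := by
  rw [T_Beta_MA_apply]
  simp [T_Lam3_one, LZ.wt]

end OO

end

section

open Complex MeasureTheory Set Filter Topology
open scoped ComplexConjugate

namespace OO

variable {q1 q2 : ℕ}

theorem T_R_kp {q : ℕ} (χ : DirichletCharacter ℂ q) : T_kp χ = 1 ∨ T_kp χ = -1 := by
  unfold T_kp
  rcases χ.even_or_odd with h | h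
  · left
    rw [show χ (-1) = 1 from h]; simp
  · right
    rw [show χ (-1) = -1 from h]; simp

theorem T_R_gi_le (t : ℝ) : ‖T_Gi (1 / 2 + t * I)‖ ≤ 1 ∧ ‖T_Gi (1 / 2 + t * I)‖ ≤ Real.exp (Real.pi * t) := by
  have h := T_gi.1 t
  have hpos : 0 < 1 + Real.exp (-(2 * Real.pi * t)) := by positivity
  constructor
  · have : ‖T_Gi (1 / 2 + t * I)‖ ^ 2 ≤ 1 ^ 2 := by
      rw [h, one_pow, div_le_one hpos]
      have := Real.exp_pos (-(2 * Real.pi * t))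
      linarith
    exact (sq_le_sq₀ (norm_nonneg _) zero_le_one).1 this
  · have : ‖T_Gi (1 / 2 + t * I)‖ ^ 2 ≤ Real.exp (Real.pi * t) ^ 2 := by
      rw [h, div_le_iff₀ hpos, ← Real.exp_nat_mul, mul_add, ← Real.exp_add]
      have e1 : ((2 : ℕ) : ℝ) * (Real.pi * t) + -(2 * Real.pi * t) = 0 := by push_cast; ring
      rw [e1, Real.exp_zero]
      have := Real.exp_pos (((2 : ℕ) : ℝ) * (Real.pi * t))
      linarith
    exact (sq_le_sq₀ (norm_nonneg _) (Real.exp_pos _).le).1 this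

theorem T_R_mono {A B h w x : ℝ} (hAB : A ≤ B) (hh : 0 ≤ h) (hw : 0 ≤ w) (hx : 0 ≤ x) :
    A * h * w * x ≤ B * h * w * x :=
  mul_le_mul_of_nonneg_right (mul_le_mul_of_nonneg_right (mul_le_mul_of_nonneg_right hAB hh) hw) hx

theorem T_R_k {s G ε t : ℝ} (hs1 : s ≤ Real.exp (-(Real.pi * t))) (hs2 : s ≤ 2)
    (hG0 : 0 ≤ G) (hG1 : G ≤ 1) (hG2 : G ≤ Real.exp (Real.pi * t)) (hε : 0 < ε) (hε1 : ε ≤ 1 / 10) :
    s * (Real.exp (-(ε * t)) * G) ≤ 2 * Real.exp (-(2 * |t|)) := by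
  have hpi : 3 < Real.pi := Real.pi_gt_three
  have hE := (Real.exp_pos (-(ε * t))).le
  rcases le_or_gt 0 t with ht | ht
  · have a1 : Real.exp (-(ε * t)) ≤ 1 :=
      Real.exp_le_one_iff.2 (neg_nonpos.2 (mul_nonneg hε.le ht))
    have a2 : Real.exp (-(ε * t)) * G ≤ 1 * 1 := mul_le_mul a1 hG1 hG0 zero_le_one
    have a3 : s * (Real.exp (-(ε * t)) * G) ≤ Real.exp (-(Real.pi * t)) * (1 * 1) :=
      mul_le_mul hs1 a2 (mul_nonneg hE hG0) (Real.exp_pos _).le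
    have a4 : Real.exp (-(Real.pi * t)) ≤ Real.exp (-(2 * |t|)) := by
      apply Real.exp_le_exp.2
      rw [abs_of_nonneg ht]
      exact neg_le_neg (mul_le_mul_of_nonneg_right (by linarith) ht)
    have a5 := Real.exp_pos (-(2 * |t|))
    linarith
  · have a2 : Real.exp (-(ε * t)) * G ≤ Real.exp (-(ε * t)) * Real.exp (Real.pi * t) :=
      mul_le_mul_of_nonneg_left hG2 hE
    have a3 : s * (Real.exp (-(ε * t)) * G) ≤ 2 * (Real.exp (-(ε * t)) * Real.exp (Real.pi * t)) :=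
      mul_le_mul hs2 a2 (mul_nonneg hE hG0) zero_le_two
    rw [← Real.exp_add] at a3
    refine a3.trans (mul_le_mul_of_nonneg_left (Real.exp_le_exp.2 ?_) zero_le_two)
    rw [abs_of_neg ht]
    have h1 := mul_nonpos_of_nonneg_of_nonpos (by linarith : 0 ≤ Real.pi - ε - 2) ht.le
    linarith

theorem T_R_last {s E G L P CL CM h w x : ℝ} (hL0 : 0 ≤ L) (hP0 : 0 ≤ P)
    (hk : s * (E * G) ≤ 2 * x) (hL : L ≤ CL * w) (hP : P ≤ h) (hCM : 0 ≤ CM) (hCL : 0 ≤ CL)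
    (hh : 0 ≤ h) (hw : 0 ≤ w) (hx : 0 ≤ x) :
    s * (1 * E * (G * L) * P) ≤ (CM + 2 * CL) * h * w * x := by
  have h1 : s * (E * G) * L ≤ 2 * x * (CL * w) :=
    mul_le_mul hk hL hL0 (mul_nonneg zero_le_two hx)
  have h2 : s * (E * G) * L * P ≤ 2 * x * (CL * w) * h :=
    mul_le_mul h1 hP hP0 (mul_nonneg (mul_nonneg zero_le_two hx) (mul_nonneg hCL hw))
  have h3 : s * (1 * E * (G * L) * P) = s * (E * G) * L * P := by ring
  have h4 : 2 * x * (CL * w) * h = 2 * CL * h * w * x := by ring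
  rw [h3]
  refine (h2.trans_eq h4).trans (T_R_mono (by linarith) hh hw hx)

/-- OT15. The function `r`.

Proof. `c` good: `(T_r0 : ℂ) = exp (-(εt)) * (T_U * T_LL)`. `‖T_U‖ = ‖T_Gi‖` (`‖c‖ = 1`, `‖T_sg‖ = 1` by `T_sg_facts`), `T_gi` (i) gives (iii).
Continuity: `T_sg_facts`, `T_gi`, `T_ent`, `T_phi`. `T_U ≠ 0` as `T_Gi ≠ 0`. Bound: as in `T_mm_line`
(`|r| = ‖MM(1/2 + it)‖`, by (iii) and `T_mm_line` (i)), so integrability follows from `T_mm_line` / `T_dec`.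
(vi) `r - c e^{-iε/2} e^{iψt} MM = c e^{iψt} (sg - 1) e^{-εt} T_Gi T_LL ‖φ‖²`, of norm
`≤ min(2, e^{-πt}) e^{-εt} (1+e^{-2πt})^{-1/2} C (1+|t|)² H⁴`: for `t ≥ 0` it is `≤ C (1+|t|)² H⁴ e^{-πt}`, for `t < 0` it is
`≤ 2 C (1+|t|)² H⁴ e^{(ε - π)|t|}`; `π ≥ 2`, `π - 1/10 ≥ 2`. -/
theorem T_r_facts [NeZero q1] [NeZero q2] (χ1 : DirichletCharacter ℂ q1) (χ2 : DirichletCharacter ℂ q2)
    (h1 : χ1.IsPrimitive) (h2 : χ2.IsPrimitive) (c : ℂ) (hc : T_good c χ1 χ2) :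
    Continuous (T_U c χ1 χ2) ∧ (∀ t, T_U c χ1 χ2 t ≠ 0) ∧
    ∃ C : ℝ, 0 < C ∧ ∀ (b : ℕ → ℂ) (H : ℕ) (ε : ℝ), (∀ h, ‖b h‖ ≤ h) → 0 < ε → ε ≤ 1 / 10 →
      (∀ t, (T_r0 c χ1 χ2 ε t : ℂ) = (Real.exp (-(ε * t)) : ℂ) * T_U c χ1 χ2 t * T_LL χ1 χ2 (1 / 2 + t * I)) ∧
      Continuous (T_r0 c χ1 χ2 ε) ∧ Continuous (T_r c χ1 χ2 b H ε) ∧
      (∀ t, T_r c χ1 χ2 b H ε t ^ 2 = Real.exp (-(2 * ε * t)) / (1 + Real.exp (-(2 * Real.pi * t))) *
        (‖T_LL χ1 χ2 (1 / 2 + t * I)‖ ^ 2 * ‖phi b H (1 / 2 + t * I)‖ ^ 4)) ∧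
      Integrable (T_r c χ1 χ2 b H ε) ∧ Integrable (fun t => T_r c χ1 χ2 b H ε t ^ 2) ∧
      (∀ t, |T_r c χ1 χ2 b H ε t| ≤ C * (H : ℝ) ^ 4 * (1 + |t|) ^ 2 * Real.exp (-(ε * |t|))) ∧
      (∀ t, ‖(T_r c χ1 χ2 b H ε t : ℂ) - c * exp (-((ε / 2 : ℝ) * I)) * exp (((T_psi q1 q2 * t : ℝ) : ℂ) * I) *
        MM χ1 χ2 b H ε (1 / 2 + t * I)‖ ≤ C * (H : ℝ) ^ 4 * (1 + |t|) ^ 2 * Real.exp (-(2 * |t|))) := by
  obtain ⟨hsgc, hsgn, hsg1, -⟩ := T_sg_facts χ1 χ2 (T_R_kp χ1) (T_R_kp χ2)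
  obtain ⟨hgi1, hgi2, -⟩ := T_gi
  obtain ⟨⟨CL, hCL, hLL⟩, hLd, -⟩ := T_ent χ1 χ2
  obtain ⟨CM, hCM, hMM⟩ := T_mm_line χ1 χ2
  obtain ⟨hc1, hcim⟩ := hc
  have hline : Continuous (fun t : ℝ => (1 / 2 + t * I : ℂ)) := by fun_prop
  have hre : ∀ t : ℝ, (1 / 2 + t * I : ℂ).re = 1 / 2 := by intro t; simp
  have him : ∀ t : ℝ, (1 / 2 + t * I : ℂ).im = t := by intro t; simp
  have hne1 : ∀ t : ℝ, (1 / 2 + t * I : ℂ) ≠ 1 := by
    intro t h
    have := congrArg Complex.re h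
    rw [hre] at this
    norm_num at this
  have hGic : Continuous (fun t : ℝ => T_Gi (1 / 2 + t * I)) := by
    rw [continuous_iff_continuousAt]
    intro t
    exact ContinuousAt.comp (f := fun t : ℝ => (1 / 2 + t * I : ℂ)) (g := T_Gi)
      ((hgi2 _ (by rw [hre]; norm_num)).1.continuousAt) hline.continuousAt
  have hLLc : Continuous (fun t : ℝ => T_LL χ1 χ2 (1 / 2 + t * I)) := by
    rw [continuous_iff_continuousAt]
    intro t
    exact ContinuousAt.comp (f := fun t : ℝ => (1 / 2 + t * I : ℂ)) (g := T_LL χ1 χ2)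
      ((hLd _ (hne1 t)).continuousAt) hline.continuousAt
  have hUc : Continuous (T_U c χ1 χ2) := by
    unfold T_U
    refine Continuous.mul (Continuous.mul ?_ hsgc) hGic
    fun_prop
  have hexpn : ∀ x : ℝ, ‖exp ((x : ℂ) * I)‖ = 1 := fun x => Complex.norm_exp_ofReal_mul_I x
  have hUn : ∀ t, ‖T_U c χ1 χ2 t‖ = ‖T_Gi (1 / 2 + t * I)‖ := by
    intro t
    unfold T_U
    rw [norm_mul, norm_mul, norm_mul, hc1, hexpn, hsgn]
    ring
  have hUne : ∀ t, T_U c χ1 χ2 t ≠ 0 := by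
    intro t
    rw [← norm_ne_zero_iff, hUn, norm_ne_zero_iff]
    exact (hgi2 _ (by rw [hre]; norm_num)).2
  refine ⟨hUc, hUne, CM + 2 * CL, by positivity, ?_⟩
  intro b H ε hb hε hε1
  obtain ⟨hM1, -, hM3, -, -⟩ := hMM b H ε hb hε hε1
  obtain ⟨hphi1, -, -, hphi4, -⟩ := T_phi b H hb
  have hr0 : ∀ t, (T_r0 c χ1 χ2 ε t : ℂ) =
      (Real.exp (-(ε * t)) : ℂ) * T_U c χ1 χ2 t * T_LL χ1 χ2 (1 / 2 + t * I) := by
    intro t
    unfold T_r0
    rw [mul_assoc, Complex.ofReal_mul]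
    congr 1
    apply Complex.ext
    · simp
    · rw [Complex.ofReal_im, hcim t]
  have hr0c : Continuous (T_r0 c χ1 χ2 ε) := by
    unfold T_r0
    refine Continuous.mul (by fun_prop) ?_
    exact Complex.continuous_re.comp (hUc.mul hLLc)
  have hphic : Continuous (fun t : ℝ => phi b H (1 / 2 + t * I)) := hphi4.continuous.comp hline
  have hrc : Continuous (T_r c χ1 χ2 b H ε) := by
    unfold T_r
    exact hr0c.mul (hphic.norm.pow 2)
  have hr : ∀ t, (T_r c χ1 χ2 b H ε t : ℂ) = (c * exp (-((ε / 2 : ℝ) * I)) *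
      exp (((T_psi q1 q2 * t : ℝ) : ℂ) * I) * T_sg χ1 χ2 t) * MM χ1 χ2 b H ε (1 / 2 + t * I) := by
    intro t
    rw [hM1 t]
    unfold T_r
    rw [Complex.ofReal_mul, hr0 t]
    unfold T_U
    have e1 : exp (-((ε / 2 : ℝ) * I)) * exp ((ε / 2 : ℝ) * I) = 1 := by
      rw [← Complex.exp_add, neg_add_cancel, Complex.exp_zero]
    linear_combination (-(c * exp (((T_psi q1 q2 * t : ℝ) : ℂ) * I) * T_sg χ1 χ2 t *
      (Real.exp (-(ε * t)) : ℂ) *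
        (T_Gi (1 / 2 + t * I) * T_LL χ1 χ2 (1 / 2 + t * I)) *
        ((‖phi b H (1 / 2 + t * I)‖ ^ 2 : ℝ) : ℂ))) * e1
  have hexpn' : ‖exp (-((ε / 2 : ℝ) * I))‖ = 1 := by
    have := hexpn (-(ε / 2))
    rw [Complex.ofReal_neg, neg_mul] at this
    exact this
  have hrn : ∀ t, |T_r c χ1 χ2 b H ε t| = ‖MM χ1 χ2 b H ε (1 / 2 + t * I)‖ := by
    intro t
    rw [← Real.norm_eq_abs, ← Complex.norm_real, hr t, norm_mul, norm_mul, norm_mul, norm_mul, hc1, hexpn',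
      hexpn, hsgn]
    ring
  have hbd : ∀ t, |T_r c χ1 χ2 b H ε t| ≤ (CM + 2 * CL) * (H : ℝ) ^ 4 * (1 + |t|) ^ 2 * Real.exp (-(ε * |t|)) := by
    intro t
    rw [hrn t]
    refine (hM3 t).trans ?_
    exact T_R_mono (by linarith) (pow_nonneg (Nat.cast_nonneg H) 4) (sq_nonneg _) (Real.exp_pos _).le
  have hdec := (T_dec 2 ε hε).1 (fun t => (T_r c χ1 χ2 b H ε t : ℂ)) ((CM + 2 * CL) * (H : ℝ) ^ 4)
    (Complex.continuous_ofReal.comp hrc) (fun t => by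
      rw [Complex.norm_real, Real.norm_eq_abs]
      exact hbd t)
  refine ⟨hr0, hr0c, hrc, ?_, ?_, ?_, hbd, ?_⟩
  · intro t
    have e0 : T_r c χ1 χ2 b H ε t ^ 2 = T_r0 c χ1 χ2 ε t ^ 2 * ‖phi b H (1 / 2 + t * I)‖ ^ 4 := by
      unfold T_r
      ring
    have e1 : T_r0 c χ1 χ2 ε t ^ 2 = (Real.exp (-(ε * t)) * ‖T_U c χ1 χ2 t‖ * ‖T_LL χ1 χ2 (1 / 2 + t * I)‖) ^ 2 := by
      rw [← sq_abs, ← Real.norm_eq_abs, ← Complex.norm_real, hr0 t, norm_mul, norm_mul, Complex.norm_real,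
        Real.norm_of_nonneg (Real.exp_pos _).le]
    have e2 : Real.exp (-(ε * t)) ^ 2 = Real.exp (-(2 * ε * t)) := by
      rw [← Real.exp_nat_mul]
      congr 1
      push_cast
      ring
    rw [e0, e1, mul_pow, mul_pow, hUn, hgi1 t, e2]
    ring
  · have := hdec.1.re
    simpa using this
  · have := hdec.2
    refine this.congr (Filter.Eventually.of_forall fun t => ?_)
    simp only [Complex.norm_real, Real.norm_eq_abs, sq_abs]
  · intro t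
    have e1 : (T_r c χ1 χ2 b H ε t : ℂ) - c * exp (-((ε / 2 : ℝ) * I)) * exp (((T_psi q1 q2 * t : ℝ) : ℂ) * I) *
        MM χ1 χ2 b H ε (1 / 2 + t * I) = (c * exp (-((ε / 2 : ℝ) * I)) *
        exp (((T_psi q1 q2 * t : ℝ) : ℂ) * I)) * (T_sg χ1 χ2 t - 1) * MM χ1 χ2 b H ε (1 / 2 + t * I) := by
      rw [hr t]
      ring
    rw [e1, norm_mul, norm_mul, norm_mul, norm_mul, hc1, hexpn', hexpn, one_mul, one_mul, one_mul, hM1 t,
      norm_mul, norm_mul, norm_mul, norm_mul, Complex.norm_real, Complex.norm_real, hexpn,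
      Real.norm_of_nonneg (Real.exp_pos _).le, Real.norm_of_nonneg (sq_nonneg _)]
    have hL : ‖T_LL χ1 χ2 (1 / 2 + t * I)‖ ≤ CL * (1 + |t|) ^ 2 := by
      have := hLL (1 / 2 + t * I) (by rw [hre]) (by
        have h1 := Complex.abs_re_le_norm ((1 / 2 + t * I : ℂ) - 1)
        rw [Complex.sub_re, hre, Complex.one_re] at h1
        norm_num at h1
        linarith)
      rwa [him] at this
    have hP : ‖phi b H (1 / 2 + t * I)‖ ^ 2 ≤ (H : ℝ) ^ 4 := by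
      have := hphi1 (1 / 2 + t * I) (by rw [hre]; norm_num)
      calc ‖phi b H (1 / 2 + t * I)‖ ^ 2 ≤ ((H : ℝ) ^ 2) ^ 2 := by gcongr
        _ = (H : ℝ) ^ 4 := by ring
    have a3 : ‖T_sg χ1 χ2 t - 1‖ ≤ 2 := by
      have h := norm_sub_le (T_sg χ1 χ2 t) 1
      rw [hsgn, norm_one, one_add_one_eq_two] at h
      exact h
    have hk := T_R_k (hsg1 t) a3 (norm_nonneg _) (T_R_gi_le t).1
      (T_R_gi_le t).2 hε hε1
    exact T_R_last (norm_nonneg _) (pow_nonneg (norm_nonneg _) 2) hk hL hP hCM.le hCL.le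
      (pow_nonneg (Nat.cast_nonneg H) 4) (sq_nonneg _) (Real.exp_pos _).le

end OO

end
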