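import Pool.Agent.Lib.MP_0f5a55_nt.OM.K000
import Pool.Agent.Lib.MP_0f5a55_nt.OM.K019
import Pool.Agent.Lib.MP_0f5a55_nt.OM.K022
import Pool.Agent.Lib.MP_0f5a55_nt.OM.K033
import Pool.Agent.Lib.MP_0f5a55_nt.OM.K034
import Pool.Agent.Lib.MP_0f5a55_nt.OM.K035

section

/-!
# Row D_A16a: support of the coefficients
-/

open Complex MeasureTheory Set Filter Topology
open scoped ComplexConjugate

namespace OO

theorem D_A16a_wt (x : ℝ) (hx : 1 ≤ x) : LZ.wt x = 0 := by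
  unfold LZ.wt
  rw [max_eq_left (by linarith)]
  norm_num

theorem D_A16a_MA (f : ℕ → ℂ) (l : ℝ) (hl : 0 < l) (n : ℕ) (hn : l ≤ Real.log n) :
    MA f 0 (1 / l) n = 0 := by
  have h1 : LZ.wt (1 / l * Real.log n) = 0 := by
    apply D_A16a_wt
    rw [one_div, ← div_eq_inv_mul]
    exact (one_le_div hl).2 hn
  change (if Squarefree n then
    (-1/2 : ℂ) ^ n.primeFactors.card * f n * (n : ℂ) ^ (-(0:ℂ)) * (LZ.wt (1 / l * Real.log n) : ℂ) else 0) = 0
  rw [h1]
  simp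

/-- `MA f 0 (1/l)` vanishes at `n` with `log n ≥ l` (`wt x = 0` for `x ≥ 1`); if `xy = n`,
`n > ⌊e^(2l)⌋`, then `log x + log y > 2 l`, so one of the factors vanishes. -/
theorem D_beta_supp (f1 f2 : ℕ → ℂ) (l : ℝ) (hl : 0 < l) (n : ℕ) (hn : Hl l < n) :
    beta f1 f2 l n = 0 := by
  have hn0 : n ≠ 0 := by omega
  unfold beta
  rw [ArithmeticFunction.mul_apply]
  apply Finset.sum_eq_zero
  rintro ⟨x, y⟩ hxy
  rw [Nat.mem_divisorsAntidiagonal] at hxy
  obtain ⟨hxy, -⟩ := hxy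
  simp only at hxy ⊢
  by_cases hx : l ≤ Real.log x
  · rw [D_A16a_MA f1 l hl x hx, zero_mul]
  by_cases hy : l ≤ Real.log y
  · rw [D_A16a_MA f2 l hl y hy, mul_zero]
  exfalso
  have hx0 : x ≠ 0 := by rintro rfl; simp at hxy; omega
  have hy0 : y ≠ 0 := by rintro rfl; simp at hxy; omega
  have hlog : Real.log n = Real.log x + Real.log y := by
    rw [← hxy]
    push_cast
    exact Real.log_mul (by exact_mod_cast hx0) (by exact_mod_cast hy0)
  have h2 : Real.log n < 2 * l := by linarith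
  have h3 : (n : ℝ) < Real.exp (2 * l) := by
    rw [← Real.log_lt_iff_lt_exp (by exact_mod_cast Nat.pos_of_ne_zero hn0)]
    exact h2
  have h4 : n ≤ Hl l := Nat.le_floor h3.le
  omega

theorem D_A16a_tau (i : Fin 22) : 500 ≤ tau i := by
  unfold tau
  have h1 : (i : ℝ) ≤ 21 := by
    have := i.2
    have h2 : (i : ℕ) ≤ 21 := by omega
    exact_mod_cast h2
  have h0 : (0 : ℝ) ≤ i := Nat.cast_nonneg _
  rw [le_div_iff₀ (by positivity)]
  linarith

theorem D_A16a_rho (L : ℝ) (hL : 0 < L) (n : ℕ) (hn : L / 500 ≤ Real.log n) : rho L n = 0 := by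
  unfold rho
  apply Finset.sum_eq_zero
  intro i _
  rw [D_A16a_wt, mul_zero]
  rw [le_div_iff₀ hL, one_mul]
  have h1 := D_A16a_tau i
  have h2 : 0 ≤ Real.log n := by
    have : 0 ≤ L / 500 := by positivity
    linarith
  nlinarith

/-- `rho L n = 0` for `log n ≥ L/500` (`tau i ≥ 500`, so `tau i * log n / L ≥ 1`); product as before. -/
theorem D_rho_supp (f1 f2 : ℕ → ℂ) (L l : ℝ) (hL : 0 < L) (hl : 0 < l) (n : ℕ)
    (hn : ⌊Real.exp (L / 500 + 2 * l)⌋₊ < n) : (FA f1 (rho L) * beta f1 f2 l) n = 0 := by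
  have hn0 : n ≠ 0 := by omega
  rw [ArithmeticFunction.mul_apply]
  apply Finset.sum_eq_zero
  rintro ⟨x, y⟩ hxy
  rw [Nat.mem_divisorsAntidiagonal] at hxy
  obtain ⟨hxy, -⟩ := hxy
  simp only at hxy ⊢
  by_cases hx : L / 500 ≤ Real.log x
  · have h1 : FA f1 (rho L) x = 0 := by
      change (if x = 0 then 0 else f1 x * (rho L x : ℂ)) = 0
      rw [D_A16a_rho L hL x hx]
      simp
    rw [h1, zero_mul]
  by_cases hy : Hl l < y
  · rw [D_beta_supp f1 f2 l hl y hy, mul_zero]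
  exfalso
  have hx0 : x ≠ 0 := by rintro rfl; simp at hxy; omega
  have hy0 : y ≠ 0 := by rintro rfl; simp at hxy; omega
  have hy1 : (y : ℝ) ≤ Real.exp (2 * l) := by
    have h1 : y ≤ Hl l := by omega
    have h2 : (Hl l : ℝ) ≤ Real.exp (2 * l) := Nat.floor_le (Real.exp_pos _).le
    exact (by exact_mod_cast h1 : (y : ℝ) ≤ Hl l).trans h2
  have hy2 : Real.log y ≤ 2 * l := by
    rw [Real.log_le_iff_le_exp (by exact_mod_cast Nat.pos_of_ne_zero hy0)]
    exact hy1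
  have hlog : Real.log n = Real.log x + Real.log y := by
    rw [← hxy]
    push_cast
    exact Real.log_mul (by exact_mod_cast hx0) (by exact_mod_cast hy0)
  have h2 : Real.log n < L / 500 + 2 * l := by linarith
  have h3 : (n : ℝ) < Real.exp (L / 500 + 2 * l) := by
    rw [← Real.log_lt_iff_lt_exp (by exact_mod_cast Nat.pos_of_ne_zero hn0)]
    exact h2
  have h4 : n ≤ ⌊Real.exp (L / 500 + 2 * l)⌋₊ := Nat.le_floor h3.le
  omega

end OO

end

section

/-!
# Row D3_cut: the averaged cutoff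
-/

open Complex MeasureTheory Set Filter Topology
open scoped ComplexConjugate

namespace OO

/-- coefficients of `rhox` (index: node, shifted or not) -/
noncomputable def cR : Fin 22 × Bool → ℝ := fun i => ci i.1 / 2

/-- nodes of `rhox` -/
noncomputable def tR : Fin 22 × Bool → ℝ := fun i => tau i.1

/-- shifts of `rhox` -/
noncomputable def sR (D : ℝ) : Fin 22 × Bool → ℝ := fun i => if i.2 then shc D else 0

/-- coefficients of `ffx` -/
noncomputable def cX : Option (Fin 22 × Bool) → ℝ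
  | none => 1
  | some i => -cR i

/-- nodes of `ffx` -/
noncomputable def tX : Option (Fin 22 × Bool) → ℝ
  | none => 0
  | some i => tR i

/-- shifts of `ffx` -/
noncomputable def sX (D : ℝ) : Option (Fin 22 × Bool) → ℝ
  | none => 0
  | some i => sR D i

/-- `shc D = pi/|D| ≥ 0` -/
theorem D3_shc (D : ℝ) : 0 ≤ shc D := by
  unfold shc
  split_ifs
  · exact le_rfl
  · exact div_nonneg Real.pi_pos.le (abs_nonneg _)

theorem D3_sR (D : ℝ) (i : Fin 22 × Bool) : 0 ≤ sR D i := by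
  unfold sR
  split_ifs
  · exact D3_shc D
  · exact le_rfl

theorem D3_sX (D : ℝ) (i : Option (Fin 22 × Bool)) : 0 ≤ sX D i := by
  cases i with
  | none => exact le_rfl
  | some i => exact D3_sR D i

theorem D3_cut_sum {ι : Type} (s : Finset ι) (F : ι → ArithmeticFunction ℂ) (n : ℕ) :
    (∑ i ∈ s, F i) n = ∑ i ∈ s, F i n := by
  classical
  induction s using Finset.induction_on with
  | empty => simp
  | insert a s ha ih => rw [Finset.sum_insert ha, Finset.sum_insert ha, ArithmeticFunction.add_apply, ih]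

theorem D3_cut_LCs {ι : Type} [Fintype ι] (f : ℕ → ℂ) (c t sh : ι → ℝ) (n : ℕ) :
    LCs f 0 c t sh n = if n = 0 then 0 else ∑ i, (c i : ℂ) * (f n * (LZ.wt (t i * (Real.log n + sh i)) : ℂ)) := by
  unfold LCs
  rw [D3_cut_sum]
  by_cases hn : n = 0
  · subst hn
    simp
  · rw [if_neg hn]
    apply Finset.sum_congr rfl
    intro i _
    show (c i : ℂ) * (if n = 0 then 0 else f n * (n : ℂ) ^ (-(0 : ℂ)) * (LZ.wt (t i * (Real.log n + sh i)) : ℂ)) = _
    rw [if_neg hn, neg_zero, cpow_zero, mul_one]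

/-- the averaged cutoff as a sum over the shifted nodes -/
theorem D3_rhox_eq (D L : ℝ) (n : ℕ) (hn : n ≠ 0) :
    rhox D L n = ∑ i : Fin 22 × Bool, cR i * LZ.wt (tR i / L * (Real.log n + sR D i)) := by
  have hn0 : (0 : ℝ) < n := by exact_mod_cast Nat.pos_of_ne_zero hn
  have hlog : Real.log (Real.exp (shc D) * n) = Real.log n + shc D := by
    rw [Real.log_mul (Real.exp_pos _).ne' hn0.ne', Real.log_exp, add_comm]
  rw [Fintype.sum_prod_type]
  unfold rhox rho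
  rw [hlog, ← Finset.sum_add_distrib, Finset.sum_div]
  refine Finset.sum_congr rfl fun i _ => ?_
  rw [Fintype.sum_bool]
  have e1 : cR (i, true) = ci i / 2 := rfl
  have e2 : cR (i, false) = ci i / 2 := rfl
  have e3 : tR (i, true) = tau i := rfl
  have e4 : tR (i, false) = tau i := rfl
  have e5 : sR D (i, true) = shc D := rfl
  have e6 : sR D (i, false) = 0 := rfl
  rw [e1, e2, e3, e4, e5, e6, add_zero]
  have h3 : tau i / L * Real.log n = tau i * Real.log n / L := by ring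
  have h4 : tau i / L * (Real.log n + shc D) = tau i * (Real.log n + shc D) / L := by ring
  rw [h3, h4]
  ring

/-- copy `D_FA_rho` (OO/D_A17a.lean); `log (exp (shc D) * n) = log n + shc D` for `n ≥ 1`; `Fintype.sum_prod_type`,
`Fintype.sum_bool` -/
theorem D3_FA_rhox (f : ℕ → ℂ) (D L : ℝ) :
    FA f (rhox D L) = LCs f 0 cR (fun i => tR i / L) (sR D) := by
  ext n
  rw [D3_cut_LCs]
  show (if n = 0 then 0 else f n * (rhox D L n : ℂ)) = _
  by_cases hn : n = 0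
  · rw [if_pos hn, if_pos hn]
  · rw [if_neg hn, if_neg hn, D3_rhox_eq D L n hn]
    push_cast
    rw [Finset.mul_sum]
    apply Finset.sum_congr rfl
    intro i _
    ring

theorem D3_wt0 : LZ.wt 0 = 1 := by
  unfold LZ.wt
  norm_num

/-- copy `D_FA_ff` (OO/D_A17a.lean): `ffx = 1 - rhox`, `Fintype.sum_option` -/
theorem D3_FA_ffx (f : ℕ → ℂ) (D L : ℝ) :
    FA f (ffx D L) = LCs f 0 cX (fun i => tX i / L) (sX D) := by
  ext n
  rw [D3_cut_LCs]
  show (if n = 0 then 0 else f n * (ffx D L n : ℂ)) = _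
  by_cases hn : n = 0
  · rw [if_pos hn, if_pos hn]
  · rw [if_neg hn, if_neg hn, Fintype.sum_option]
    have h1 : tX none / L * (Real.log n + sX D none) = 0 := by
      show 0 / L * _ = 0
      rw [zero_div, zero_mul]
    rw [h1, D3_wt0]
    unfold ffx
    rw [D3_rhox_eq D L n hn]
    have h2 : ∀ i : Fin 22 × Bool, (cX (some i) : ℂ) *
        (f n * (LZ.wt (tX (some i) / L * (Real.log n + sX D (some i))) : ℂ)) =
        -(f n * ((cR i * LZ.wt (tR i / L * (Real.log n + sR D i)) : ℝ) : ℂ)) := by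
      intro i
      have h3 : tX (some i) = tR i := rfl
      have h4 : cX (some i) = -cR i := rfl
      have h5 : sX D (some i) = sR D i := rfl
      rw [h3, h4, h5]
      push_cast
      ring
    rw [Finset.sum_congr rfl fun i _ => h2 i, Finset.sum_neg_distrib, ← Finset.mul_sum]
    have h5 : cX none = 1 := rfl
    rw [h5]
    push_cast
    ring

/-- copy `D_LA_LC` (OO/D_A17a.lean) -/
theorem D3_LA_LCs (f : ℕ → ℂ) (L : ℝ) :
    LA f 0 0 = LCs f 0 (fun _ : Unit => (1 : ℝ)) (fun _ => (0 : ℝ) / L) (fun _ => (0 : ℝ)) := by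
  ext n
  rw [D3_cut_LCs]
  show (if n = 0 then 0 else f n * (n : ℂ) ^ (-(0 : ℂ)) * (LZ.wt (0 * Real.log n) : ℂ)) = _
  by_cases hn : n = 0
  · rw [if_pos hn, if_pos hn]
  · rw [if_neg hn, if_neg hn]
    simp

/-- nodes and coefficients -/
theorem D3_tR (i : Fin 22 × Bool) : 500 ≤ tR i ∧ tR i ≤ 1000 := D_tau i.1

theorem D3_rhox_zero (D L : ℝ) (hL : 0 < L) (n : ℕ) (hn0 : n ≠ 0) (hn : L / 500 ≤ Real.log n) : rhox D L n = 0 := by
  rw [D3_rhox_eq D L n hn0]
  apply Finset.sum_eq_zero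
  intro i _
  rw [D_A16a_wt, mul_zero]
  have h1 := (D3_tR i).1
  have h3 := D3_sR D i
  have h2 : 0 < L / 500 := by positivity
  have h4 : 500 * (L / 500) ≤ tR i * (Real.log n + sR D i) :=
    mul_le_mul h1 (by linarith only [hn, h3]) h2.le (by linarith only [h1])
  rw [div_mul_eq_mul_div, le_div_iff₀ hL]
  linarith only [h4]

/-- copy `D_rho_supp` (OO/D_A16a.lean): `rhox D L n = 0` for `log n ≥ L/500` -/
theorem D3_rhox_supp (f1 f2 : ℕ → ℂ) (D L l : ℝ) (hL : 0 < L) (hl : 0 < l) (n : ℕ)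
    (hn : ⌊Real.exp (L / 500 + 2 * l)⌋₊ < n) : (FA f1 (rhox D L) * beta f1 f2 l) n = 0 := by
  have hn0 : n ≠ 0 := by omega
  rw [ArithmeticFunction.mul_apply]
  apply Finset.sum_eq_zero
  rintro ⟨x, y⟩ hxy
  rw [Nat.mem_divisorsAntidiagonal] at hxy
  obtain ⟨hxy, -⟩ := hxy
  simp only at hxy ⊢
  have hx0 : x ≠ 0 := by rintro rfl; simp at hxy; omega
  have hy0 : y ≠ 0 := by rintro rfl; simp at hxy; omega
  by_cases hx : L / 500 ≤ Real.log x
  · have h1 : FA f1 (rhox D L) x = 0 := by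
      change (if x = 0 then 0 else f1 x * (rhox D L x : ℂ)) = 0
      rw [D3_rhox_zero D L hL x hx0 hx]
      simp
    rw [h1, zero_mul]
  by_cases hy : Hl l < y
  · rw [D_beta_supp f1 f2 l hl y hy, mul_zero]
  exfalso
  have hy1 : (y : ℝ) ≤ Real.exp (2 * l) := by
    have h1 : y ≤ Hl l := by omega
    have h2 : (Hl l : ℝ) ≤ Real.exp (2 * l) := Nat.floor_le (Real.exp_pos _).le
    exact (by exact_mod_cast h1 : (y : ℝ) ≤ Hl l).trans h2
  have hy2 : Real.log y ≤ 2 * l := by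
    rw [Real.log_le_iff_le_exp (by exact_mod_cast Nat.pos_of_ne_zero hy0)]
    exact hy1
  have hlog : Real.log n = Real.log x + Real.log y := by
    rw [← hxy]
    push_cast
    exact Real.log_mul (by exact_mod_cast hx0) (by exact_mod_cast hy0)
  have h2 : Real.log n < L / 500 + 2 * l := by linarith only [hx, hy2, hlog]
  have h3 : (n : ℝ) < Real.exp (L / 500 + 2 * l) := by
    rw [← Real.log_lt_iff_lt_exp (by exact_mod_cast Nat.pos_of_ne_zero hn0)]
    exact h2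
  have h4 : n ≤ ⌊Real.exp (L / 500 + 2 * l)⌋₊ := Nat.le_floor h3.le
  omega

theorem D3_wt_le (x : ℝ) (hx : 0 ≤ x) : |LZ.wt x| ≤ 1 := by
  unfold LZ.wt
  have h0 : 0 ≤ max 0 (1 - x) := le_max_left _ _
  rw [abs_of_nonneg (by positivity)]
  apply pow_le_one₀ h0
  exact max_le (by norm_num) (by linarith only [hx])

theorem D3_rhox_le (D L : ℝ) (hL : 0 < L) (n : ℕ) (hn : n ≠ 0) : |rhox D L n| ≤ ∑ i : Fin 22 × Bool, |cR i| := by
  rw [D3_rhox_eq D L n hn]
  refine (Finset.abs_sum_le_sum_abs _ _).trans ?_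
  apply Finset.sum_le_sum
  intro i _
  rw [abs_mul]
  have h1 : 0 ≤ tR i / L * (Real.log n + sR D i) := by
    have h1 := (D3_tR i).1
    have h2 := D3_sR D i
    have h3 : 0 ≤ Real.log (n : ℝ) := Real.log_natCast_nonneg n
    exact mul_nonneg (div_nonneg (by linarith only [h1]) hL.le) (add_nonneg h3 h2)
  calc |cR i| * |LZ.wt (tR i / L * (Real.log n + sR D i))| ≤ |cR i| * 1 :=
        mul_le_mul_of_nonneg_left (D3_wt_le _ h1) (abs_nonneg _)
    _ = |cR i| := mul_one _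

theorem D3_FA_bdd (f : ℕ → ℂ) (hf : ∀ n, ‖f n‖ ≤ 1) (w : ℝ → ℝ) (B : ℝ) (hB : 0 ≤ B)
    (hw : ∀ n : ℕ, n ≠ 0 → |w n| ≤ B) (n : ℕ) : ‖FA f w n‖ ≤ B := by
  show ‖(if n = 0 then (0 : ℂ) else f n * (w n : ℂ))‖ ≤ B
  split_ifs with h
  · simpa using hB
  · rw [norm_mul, Complex.norm_real, Real.norm_eq_abs]
    calc ‖f n‖ * |w n| ≤ 1 * B := mul_le_mul (hf n) (hw n h) (abs_nonneg _) zero_le_one
      _ = B := one_mul _

/-- see `D_Gr_basic` (OO/D_A16b.lean): `|rhox D L n| ≤ ∑ |ci|` for natural `n` -/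
theorem D3_Gr_cut (f : ℕ → ℂ) (hf : ∀ n, ‖f n‖ ≤ 1) (D L : ℝ) (hL : 0 < L) :
    Gr (FA f (ffx D L)) ∧ Gr (FA f (rhox D L)) := by
  have hS : 0 ≤ ∑ i : Fin 22 × Bool, |cR i| := Finset.sum_nonneg fun _ _ => abs_nonneg _
  refine ⟨D_Gr_bdd _ (1 + ∑ i : Fin 22 × Bool, |cR i|) ?_, D_Gr_bdd _ (∑ i : Fin 22 × Bool, |cR i|) ?_⟩
  · apply D3_FA_bdd f hf _ _ (by linarith only [hS])
    intro n hn
    unfold ffx
    calc |1 - rhox D L n| ≤ |1| + |rhox D L n| := abs_sub _ _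
      _ ≤ 1 + ∑ i : Fin 22 × Bool, |cR i| := by
        rw [abs_one]
        exact add_le_add le_rfl (D3_rhox_le D L hL n hn)
  · exact D3_FA_bdd f hf _ _ hS (D3_rhox_le D L hL)

end OO

end

section

open Complex MeasureTheory Set Filter Topology
open scoped ComplexConjugate

namespace OO

variable {q1 q2 : ℕ}

private theorem T_InvS3_mulcpow {r : ℝ} (hr : 0 < r) {V : ℂ} (hV : V ≠ 0) (s : ℂ) :
    ((r : ℂ) * V) ^ s = (r : ℂ) ^ s * V ^ s := by
  have hr' : (r : ℂ) ≠ 0 := ofReal_ne_zero.mpr hr.ne'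
  rw [cpow_def_of_ne_zero (mul_ne_zero hr' hV), cpow_def_of_ne_zero hr', cpow_def_of_ne_zero hV,
    log_ofReal_mul hr hV, ← exp_add, ofReal_log hr.le]
  congr 1
  ring

private theorem T_InvS3_cont [NeZero q1] [NeZero q2] (χ1 : DirichletCharacter ℂ q1) (χ2 : DirichletCharacter ℂ q2) (v : ℝ) :
    Continuous (fun y : ℝ => T_LL3 χ1 χ2 v (2 + y * I)) := by
  have hc : Continuous (fun y : ℝ => (2 : ℂ) + y * I) := by fun_prop
  rw [continuous_iff_continuousAt]
  intro y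
  have n1 : (2 : ℂ) + y * I + v * I ≠ 1 := by
    intro h
    have := congrArg Complex.re h
    simp at this
  have n2 : (2 : ℂ) + y * I - v * I ≠ 1 := by
    intro h
    have := congrArg Complex.re h
    simp at this
  exact ContinuousAt.comp (f := fun y : ℝ => (2 : ℂ) + y * I) (T_Ent3_diff χ1 χ2 v _ n1 n2).continuousAt hc.continuousAt

/-- Mellin inversion of the exponential series -/
theorem T_inv_series3 [NeZero q1] [NeZero q2] (χ1 : DirichletCharacter ℂ q1) (χ2 : DirichletCharacter ℂ q2) (v : ℝ)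
    (W : ℂ) (hW : 0 < W.re) :
    Integrable (fun y : ℝ => Gamma (2 + y * I) * T_LL3 χ1 χ2 v (2 + y * I) * W ^ (-(2 + y * I : ℂ))) ∧
    ∫ y : ℝ, Gamma (2 + y * I) * T_LL3 χ1 χ2 v (2 + y * I) * W ^ (-(2 + y * I : ℂ)) =
      2 * Real.pi * ∑' n : ℕ, lamF (chx χ1 v) (chx χ2 (-v)) n * exp (-(n * W)) := by
  obtain ⟨-, hLL, hsumm, -⟩ := T_lam3 χ1 χ2 v
  set a : ℕ → ℂ := fun n => lamF (chx χ1 v) (chx χ2 (-v)) n with ha
  have ha0 : a 0 = 0 := by simp [ha]
  have hW0 : W ≠ 0 := by rintro rfl; simp at hW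
  have hpi : (Real.pi : ℂ) ≠ 0 := by exact_mod_cast Real.pi_ne_zero
  have hmel : ∀ V : ℂ, 0 < V.re → Integrable (fun y : ℝ => Gamma (2 + y * I) * V ^ (-(2 + y * I : ℂ))) ∧
      ∫ y : ℝ, Gamma (2 + y * I) * V ^ (-(2 + y * I : ℂ)) = 2 * Real.pi * exp (-V) := by
    intro V hV
    have h := LZX.exp_mellin (c := 2) (by norm_num) hV
    have e2 : ((2 : ℝ) : ℂ) = 2 := by norm_num
    rw [e2] at h
    refine ⟨h.1, ?_⟩
    rw [← h.2, ← mul_assoc]
    have h2 : (2 * (Real.pi : ℂ)) * (1 / (2 * Real.pi)) = 1 := by field_simp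
    rw [h2, one_mul]
  set G : ℝ → ℂ := fun y => Gamma (2 + y * I) * W ^ (-(2 + y * I : ℂ)) with hG
  have hGint : Integrable G := (hmel W hW).1
  have hσ : ∀ y : ℝ, ((2 : ℂ) + y * I).re = 2 := fun y => by simp
  set F : ℕ → ℝ → ℂ := fun n y => a n * (n : ℂ) ^ (-(2 + y * I : ℂ)) * G y with hF
  have hFn : ∀ n : ℕ, 0 < n → F n = fun y : ℝ => a n * (Gamma (2 + y * I) * ((n : ℂ) * W) ^ (-(2 + y * I : ℂ))) := by
    intro n hn
    funext y
    have h1 := T_InvS3_mulcpow (r := (n : ℝ)) (by exact_mod_cast hn) hW0 (-(2 + y * I : ℂ))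
    rw [ofReal_natCast] at h1
    simp only [hF, hG]
    rw [h1]
    ring
  have hF0 : F 0 = fun _ => 0 := by
    funext y
    simp only [hF, ha0, zero_mul]
  have hnW : ∀ n : ℕ, 0 < n → 0 < ((n : ℂ) * W).re := by
    intro n hn
    have : ((n : ℂ) * W).re = (n : ℝ) * W.re := by
      rw [← ofReal_natCast, re_ofReal_mul]
    rw [this]
    have hn' : (0 : ℝ) < n := by exact_mod_cast hn
    positivity
  have hFint : ∀ n, Integrable (F n) := by
    intro n
    rcases Nat.eq_zero_or_pos n with rfl | hn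
    · rw [hF0]; exact integrable_zero _ _ _
    · rw [hFn n hn]
      exact (hmel _ (hnW n hn)).1.const_mul _
  have hFval : ∀ n, ∫ y, F n y = 2 * Real.pi * (a n * exp (-(n * W))) := by
    intro n
    rcases Nat.eq_zero_or_pos n with rfl | hn
    · rw [hF0]; simp [ha0]
    · rw [hFn n hn]
      rw [integral_const_mul, (hmel _ (hnW n hn)).2]
      ring
  have hFnorm : ∀ n, (∫ y, ‖F n y‖) = ‖a n‖ * (n : ℝ) ^ (-2 : ℝ) * ∫ y, ‖G y‖ := by
    intro n
    rcases Nat.eq_zero_or_pos n with rfl | hn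
    · rw [hF0]; simp [ha0]
    · rw [← integral_const_mul]
      congr 1
      funext y
      simp only [hF]
      rw [norm_mul, norm_mul, norm_natCast_cpow_of_pos hn, neg_re, hσ]
  have hsummF : Summable (fun n => ∫ y, ‖F n y‖) := by
    simp_rw [hFnorm]
    exact (hsumm 2 (by norm_num)).mul_right _
  have hmainsum := hasSum_integral_of_summable_integral_norm hFint hsummF
  have hpt : ∀ y : ℝ, ∑' n, F n y = T_LL3 χ1 χ2 v (2 + y * I) * G y := by
    intro y
    exact ((hLL (2 + y * I) (by rw [hσ]; norm_num)).mul_right (G y)).tsum_eq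
  have hfun : (fun y : ℝ => Gamma (2 + y * I) * T_LL3 χ1 χ2 v (2 + y * I) * W ^ (-(2 + y * I : ℂ))) =
      fun y : ℝ => T_LL3 χ1 χ2 v (2 + y * I) * G y := by
    funext y
    simp only [hG]
    ring
  rw [hfun]
  constructor
  · refine Integrable.mono' (g := fun y => (∑' n : ℕ, ‖a n‖ * (n : ℝ) ^ (-2 : ℝ)) * ‖G y‖)
      (hGint.norm.const_mul _) ?_ ?_
    · exact (T_InvS3_cont χ1 χ2 v).aestronglyMeasurable.mul hGint.aestronglyMeasurable
    · refine Eventually.of_forall fun y => ?_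
      rw [norm_mul]
      apply mul_le_mul_of_nonneg_right _ (norm_nonneg _)
      rw [← (hLL (2 + y * I) (by rw [hσ]; norm_num)).tsum_eq]
      have hterm : ∀ n : ℕ, ‖a n * (n : ℂ) ^ (-(2 + y * I : ℂ))‖ = ‖a n‖ * (n : ℝ) ^ (-2 : ℝ) := by
        intro n
        rcases Nat.eq_zero_or_pos n with rfl | hn
        · simp [ha0]
        · rw [norm_mul, norm_natCast_cpow_of_pos hn, neg_re, hσ]
      have hs : Summable (fun n : ℕ => ‖a n * (n : ℂ) ^ (-(2 + y * I : ℂ))‖) := by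
        simp_rw [hterm]
        exact hsumm 2 (by norm_num)
      refine (norm_tsum_le_tsum_norm hs).trans (le_of_eq ?_)
      simp_rw [hterm]
  · have h1 : ∫ y : ℝ, T_LL3 χ1 χ2 v (2 + y * I) * G y = ∫ y : ℝ, ∑' n, F n y := by
      congr 1
      funext y
      exact (hpt y).symm
    rw [h1, ← hmainsum.tsum_eq]
    simp_rw [hFval]
    rw [tsum_mul_left]

end OO

end

section

open Complex MeasureTheory Set Filter Topology
open scoped ComplexConjugate

namespace OO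

variable {q1 q2 : ℕ}

theorem T_InvG3_MM [NeZero q1] [NeZero q2] (χ1 : DirichletCharacter ℂ q1) (χ2 : DirichletCharacter ℂ q2) (v : ℝ)
    (b : ℕ → ℂ) (H : ℕ) (ε : ℝ) (hε : 0 < ε) (hε' : ε ≤ 1 / 10) (x : ℝ) (hx : 0 < x) (s : ℂ) :
    MM3 χ1 χ2 v b H ε s * (x : ℂ) ^ (-s) = ∑ h ∈ Finset.Icc 1 H, ∑ k ∈ Finset.Icc 1 H,
      b h * conj (b k) / k * (Gamma s * T_LL3 χ1 χ2 v s * (2 * (Real.pi : ℂ) * (zz ε * x * h / k)) ^ (-s)) := by
  have e : MM3 χ1 χ2 v b H ε s * (x : ℂ) ^ (-s) =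
      (Gamma s * T_LL3 χ1 χ2 v s * (((2 * Real.pi : ℝ) : ℂ) ^ (-s) *
        exp (-(((Real.pi / 2 - ε : ℝ) : ℂ) * I * s)) * (x : ℂ) ^ (-s))) *
      ((∑ h ∈ Finset.Icc 1 H, b h * (h : ℂ) ^ (-s)) *
        (∑ k ∈ Finset.Icc 1 H, conj (b k) * (k : ℂ) ^ (-(1 - s)))) := by
    unfold MM3 phi
    ring
  rw [e, Finset.sum_mul_sum, Finset.mul_sum]
  refine Finset.sum_congr rfl (fun h hh => ?_)
  rw [Finset.mul_sum]
  refine Finset.sum_congr rfl (fun k hk => ?_)
  have hh1 := (Finset.mem_Icc.mp hh).1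
  have hk1 := (Finset.mem_Icc.mp hk).1
  rw [T_InvG_cpow ε hε hε' x hx h k hh1 hk1 s]
  have hk0 : (k : ℂ) ≠ 0 := by exact_mod_cast (by omega : k ≠ 0)
  have e5 : (k : ℂ) ^ (-(1 - s)) = (k : ℂ) ^ s / k := by
    rw [neg_sub, Complex.cpow_sub _ _ hk0, Complex.cpow_one]
  rw [e5]
  ring

/-- `g` is the inverse Mellin transform of `M` on the line `Re s = 2` -/
theorem T_inv_gg3 [NeZero q1] [NeZero q2] (χ1 : DirichletCharacter ℂ q1) (χ2 : DirichletCharacter ℂ q2) (v : ℝ)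
    (b : ℕ → ℂ) (H : ℕ) (ε : ℝ) (hε : 0 < ε) (hε' : ε ≤ 1 / 10) (x : ℝ) (hx : 0 < x) :
    Integrable (fun y : ℝ => MM3 χ1 χ2 v b H ε (2 + y * I) * (x : ℂ) ^ (-(2 + y * I : ℂ))) ∧
    ∫ y : ℝ, MM3 χ1 χ2 v b H ε (2 + y * I) * (x : ℂ) ^ (-(2 + y * I : ℂ)) =
      2 * Real.pi * gg b H (lamF (chx χ1 v) (chx χ2 (-v))) ε x := by
  have hfun : (fun y : ℝ => MM3 χ1 χ2 v b H ε (2 + y * I) * (x : ℂ) ^ (-(2 + y * I : ℂ))) =
      fun y : ℝ => ∑ h ∈ Finset.Icc 1 H, ∑ k ∈ Finset.Icc 1 H, b h * conj (b k) / k *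
        (Gamma (2 + y * I) * T_LL3 χ1 χ2 v (2 + y * I) * (2 * (Real.pi : ℂ) * (zz ε * x * h / k)) ^ (-(2 + y * I : ℂ))) := by
    funext y
    exact T_InvG3_MM χ1 χ2 v b H ε hε hε' x hx _
  have hint : ∀ h ∈ Finset.Icc 1 H, ∀ k ∈ Finset.Icc 1 H, Integrable (fun y : ℝ => b h * conj (b k) / k *
        (Gamma (2 + y * I) * T_LL3 χ1 χ2 v (2 + y * I) * (2 * (Real.pi : ℂ) * (zz ε * x * h / k)) ^ (-(2 + y * I : ℂ)))) :=
    fun h hh k hk => (T_inv_series3 χ1 χ2 v _ (T_InvG_re ε hε hε' x hx h k (Finset.mem_Icc.mp hh).1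
      (Finset.mem_Icc.mp hk).1)).1.const_mul _
  rw [hfun]
  refine ⟨integrable_finsetSum _ (fun h hh => integrable_finsetSum _ (fun k hk => hint h hh k hk)), ?_⟩
  rw [integral_finsetSum _ (fun h hh => integrable_finsetSum _ (fun k hk => hint h hh k hk))]
  unfold gg
  rw [Finset.mul_sum]
  refine Finset.sum_congr rfl (fun h hh => ?_)
  rw [integral_finsetSum _ (fun k hk => hint h hh k hk), Finset.mul_sum]
  refine Finset.sum_congr rfl (fun k hk => ?_)
  rw [integral_const_mul, (T_inv_series3 χ1 χ2 v _ (T_InvG_re ε hε hε' x hx h k (Finset.mem_Icc.mp hh).1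
      (Finset.mem_Icc.mp hk).1)).2]
  have e : (∑' n : ℕ, lamF (chx χ1 v) (chx χ2 (-v)) n * exp (-(n * (2 * (Real.pi : ℂ) * (zz ε * x * h / k))))) =
      FS (lamF (chx χ1 v) (chx χ2 (-v))) (zz ε * x * h / k) := by
    unfold FS
    refine tsum_congr (fun n => ?_)
    congr 2
    ring
  rw [e]
  ring

end OO

end

section

/-!
# Row P3j: `g` is the sum over the poles
-/

open Complex MeasureTheory Set Filter Topology
open scoped ComplexConjugate

namespace OO

/-- PROOF. As P07_main (OO/P_07b.lean) with P3_main, P3_FS, P3_alg (`t = kap3 χ y`). -/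
theorem P3_g_main {q : ℕ} [NeZero q] (χ : DirichletCharacter ℂ q) (hχ : χ.IsPrimitive) (y : ℝ) : ∃ C : ℝ, 0 < C ∧
    ∀ (b f : ℕ → ℂ) (wt : ℝ → ℝ) (H U M : ℕ) (B ε x : ℝ), (∀ u : ℕ, U < u → wt u = 0) → (∀ n, ‖f n‖ ≤ 1) → (∀ u : ℕ, |wt u| ≤ B) →
      (∀ h, ‖b h‖ ≤ h) → 0 < ε → ε ≤ 1 → 0 < x → q * (x * U * H) ≤ M - 1 / 2 →
      ‖gg b H (FA f wt * LA (chx χ y) 0 0 : ArithmeticFunction ℂ) ε x - kap3 χ y * PS3 H U M q b f (chx χ⁻¹ (-y)) wt y ε x‖ ≤
        C * B * H ^ 4 * U * (M + H / x) := by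
  obtain ⟨C, hC, hmain⟩ := P3_main χ hχ y
  refine ⟨C, hC, ?_⟩
  intro b f wt H U M B ε x hU hf hB hb hε hε1 hx hx2
  have hB0 : 0 ≤ B := (abs_nonneg _).trans (hB 0)
  have hq1 : 1 ≤ q := NeZero.one_le
  have hq0 : (0 : ℝ) < q := by exact_mod_cast hq1
  have hsin0 : 0 < Real.sin ε := Real.sin_pos_of_pos_of_lt_pi hε (by linarith only [hε1, Real.pi_gt_three])
  have hcos0 : 0 ≤ Real.cos ε :=
    Real.cos_nonneg_of_neg_pi_div_two_le_of_le (by linarith only [hε, Real.pi_gt_three])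
      (by linarith only [hε1, Real.pi_gt_three])
  have hcos1 : Real.cos ε ≤ 1 := Real.cos_le_one _
  have halg := P3_alg χ b f wt H U M y ε x (kap3 χ y)
  rw [← halg]
  unfold gg
  rw [← Finset.sum_sub_distrib]
  set E : ℝ := C * (M + H / x) with hE
  have hE0 : 0 ≤ E := by positivity
  -- one value of (h, k, u)
  have hone : ∀ h ∈ Finset.Icc 1 H, ∀ k ∈ Finset.Icc 1 H, ∀ u ∈ Finset.Icc 1 U,
      ‖Th3 χ y ((u : ℂ) * (zz ε * x * h / k)) - kap3 χ y * ∑ m ∈ Finset.Icc 1 M,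
        (χ⁻¹ : DirichletCharacter ℂ q) ((m : ℕ) : ZMod q) *
          ((u : ℂ) * (zz ε * x * h / k) - I * m / q) ^ ((y : ℂ) * I - 1)‖ ≤ E := by
    intro h hh k hk u hu
    obtain ⟨hh1, hh2⟩ := Finset.mem_Icc.1 hh
    obtain ⟨hk1, hk2⟩ := Finset.mem_Icc.1 hk
    obtain ⟨hu1, hu2⟩ := Finset.mem_Icc.1 hu
    obtain ⟨e1, e2, e3, e4⟩ := P07b_aux1 u h k hu1 hh1 hk1 ε x hε hε1 hx
    have hu' : (1 : ℝ) ≤ u := by exact_mod_cast hu1
    have hh' : (1 : ℝ) ≤ h := by exact_mod_cast hh1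
    have hk' : (1 : ℝ) ≤ k := by exact_mod_cast hk1
    have hu'' : (u : ℝ) ≤ U := by exact_mod_cast hu2
    have hh'' : (h : ℝ) ≤ H := by exact_mod_cast hh2
    have hk'' : (k : ℝ) ≤ H := by exact_mod_cast hk2
    have hUH : (u : ℝ) * h ≤ U * H := mul_le_mul hu'' hh'' (zero_le_one.trans hh')
      (zero_le_one.trans (hu'.trans hu''))
    have hk0 : (0 : ℝ) < k := lt_of_lt_of_le one_pos hk'
    have hH0 : (0 : ℝ) < H := lt_of_lt_of_le one_pos (hh'.trans hh'')
    have h5 : (1 : ℝ) ≤ u * h := one_le_mul_of_one_le_of_one_le hu' hh'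
    have hfrac : (u : ℝ) * h / k ≤ U * H := by
      rw [div_le_iff₀ hk0]
      have h6 : (u : ℝ) * h ≤ U * H * 1 := by rw [mul_one]; exact hUH
      exact h6.trans (mul_le_mul_of_nonneg_left hk' (zero_le_one.trans (h5.trans hUH)))
    have hX : x * (u * h / k) ≤ x * U * H := by
      have := mul_le_mul_of_nonneg_left hfrac hx.le
      rwa [← mul_assoc] at this
    have hXlow : x / H ≤ x * (u * h / k) := by
      rw [div_le_iff₀ hH0]
      have h6 : (1 : ℝ) ≤ u * h / k * H := by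
        rw [div_mul_eq_mul_div, le_div_iff₀ hk0, one_mul]
        calc (k : ℝ) ≤ H := hk''
          _ = 1 * H := (one_mul _).symm
          _ ≤ u * h * H := mul_le_mul_of_nonneg_right h5 hH0.le
      calc x = x * 1 := (mul_one _).symm
        _ ≤ x * (u * h / k * H) := mul_le_mul_of_nonneg_left h6 hx.le
        _ = x * (u * h / k) * H := by ring
    have hm := hmain ((u : ℂ) * (zz ε * x * h / k)) M (by rw [e1]; exact mul_pos e4 hsin0)
      (by rw [e2]; exact mul_nonneg e4.le hcos0)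
      (by
        rw [e2]
        have h7 : x * (u * h / k) * Real.cos ε ≤ x * U * H := by
          calc x * (u * h / k) * Real.cos ε ≤ x * (u * h / k) * 1 :=
                mul_le_mul_of_nonneg_left hcos1 e4.le
            _ ≤ _ := by rw [mul_one]; exact hX
        exact (mul_le_mul_of_nonneg_left h7 hq0.le).trans hx2)
    refine hm.trans ?_
    rw [hE, e3]
    apply mul_le_mul_of_nonneg_left _ hC.le
    have h8 : 1 / (x * (u * h / k)) ≤ H / x := by
      rw [div_le_div_iff₀ e4 hx, one_mul]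
      rw [div_le_iff₀ hH0] at hXlow
      rwa [mul_comm] at hXlow
    exact add_le_add_right h8 _
  have hhk : ∀ h ∈ Finset.Icc 1 H, ∀ k ∈ Finset.Icc 1 H,
      ‖b h * conj (b k) / k * FS (FA f wt * LA (chx χ y) 0 0 : ArithmeticFunction ℂ) (zz ε * x * h / k) -
        b h * conj (b k) / k * ∑ u ∈ Finset.Icc 1 U, f u * (wt u : ℂ) *
          (kap3 χ y * ∑ m ∈ Finset.Icc 1 M, (χ⁻¹ : DirichletCharacter ℂ q) ((m : ℕ) : ZMod q) *
            (u * (zz ε * x * h / k) - I * m / q) ^ ((y : ℂ) * I - 1))‖ ≤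
        H * (U * (B * E)) := by
    intro h hh k hk
    obtain ⟨hh1, hh2⟩ := Finset.mem_Icc.1 hh
    obtain ⟨hk1, hk2⟩ := Finset.mem_Icc.1 hk
    have hre : 0 < (zz ε * x * h / k).re := by
      have := P07b_aux1 1 h k le_rfl hh1 hk1 ε x hε hε1 hx
      have e1 := this.1
      rw [Nat.cast_one, one_mul] at e1
      rw [e1]
      exact mul_pos this.2.2.2 hsin0
    rw [P3_FS χ y f wt U hU _ hre, ← mul_sub, ← Finset.sum_sub_distrib, norm_mul]
    have hb1 : ‖b h * conj (b k) / k‖ ≤ H := by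
      rw [norm_div, norm_mul, RCLike.norm_conj, Complex.norm_natCast]
      have hk0 : (0 : ℝ) < k := by exact_mod_cast hk1
      rw [div_le_iff₀ hk0]
      apply mul_le_mul _ (hb k) (norm_nonneg _) (by positivity)
      exact (hb h).trans (by exact_mod_cast hh2)
    apply mul_le_mul hb1 _ (norm_nonneg _) (by positivity)
    refine (norm_sum_le _ _).trans ?_
    have hterm : ∀ u ∈ Finset.Icc 1 U, ‖f u * (wt u : ℂ) * Th3 χ y (u * (zz ε * x * h / k)) -
        f u * (wt u : ℂ) * (kap3 χ y * ∑ m ∈ Finset.Icc 1 M, (χ⁻¹ : DirichletCharacter ℂ q) ((m : ℕ) : ZMod q) *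
          (u * (zz ε * x * h / k) - I * m / q) ^ ((y : ℂ) * I - 1))‖ ≤ B * E := by
      intro u hu
      rw [← mul_sub, norm_mul]
      apply mul_le_mul _ (hone h hh k hk u hu) (norm_nonneg _) hB0
      rw [norm_mul, norm_real, Real.norm_eq_abs]
      calc ‖f u‖ * |wt u| ≤ 1 * B := mul_le_mul (hf u) (hB u) (abs_nonneg _) (by norm_num)
        _ = B := one_mul _
    refine (Finset.sum_le_sum hterm).trans ?_
    rw [Finset.sum_const, Nat.card_Icc, nsmul_eq_mul]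
    simp
  calc ‖∑ h ∈ Finset.Icc 1 H, (∑ k ∈ Finset.Icc 1 H,
        b h * conj (b k) / k * FS (FA f wt * LA (chx χ y) 0 0 : ArithmeticFunction ℂ) (zz ε * x * h / k) -
        ∑ k ∈ Finset.Icc 1 H, b h * conj (b k) / k * ∑ u ∈ Finset.Icc 1 U, f u * (wt u : ℂ) *
          (kap3 χ y * ∑ m ∈ Finset.Icc 1 M, (χ⁻¹ : DirichletCharacter ℂ q) ((m : ℕ) : ZMod q) *
            (u * (zz ε * x * h / k) - I * m / q) ^ ((y : ℂ) * I - 1)))‖
      ≤ ∑ h ∈ Finset.Icc 1 H, ∑ k ∈ Finset.Icc 1 H, (H : ℝ) * (U * (B * E)) := by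
        refine (norm_sum_le _ _).trans (Finset.sum_le_sum fun h hh => ?_)
        rw [← Finset.sum_sub_distrib]
        exact (norm_sum_le _ _).trans (Finset.sum_le_sum fun k hk => hhk h hh k hk)
    _ = (H : ℝ) ^ 3 * (U * (B * E)) := by
        rw [Finset.sum_const, Finset.sum_const, Nat.card_Icc, nsmul_eq_mul, nsmul_eq_mul]
        simp only [Nat.add_sub_cancel]
        ring
    _ ≤ (H : ℝ) ^ 4 * (U * (B * E)) := by
        apply mul_le_mul_of_nonneg_right _ (by positivity)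
        rcases Nat.eq_zero_or_pos H with h0 | h0
        · rw [h0]; norm_num
        · have h1 : (1 : ℝ) ≤ H := by exact_mod_cast h0
          exact pow_le_pow_right₀ h1 (by norm_num)
    _ = C * B * H ^ 4 * U * (M + H / x) := by rw [hE]; ring

end OO

end
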