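import Pool.Agent.Lib.MP_0f5a55_nt.OM.K000
import Pool.Agent.Lib.MP_0f5a55_nt.OM.K025

section

open Complex MeasureTheory Set Filter Topology
open scoped ComplexConjugate

namespace OO

/-- shift of a line integral over a simple pole at `1 - iv` -/
theorem T_shift3 {N : ℂ → ℂ} {a b : ℝ} (v : ℝ) (ha : a < 1) (hb : 1 < b)
    (hN : ∀ s : ℂ, a ≤ s.re → s.re ≤ b → DifferentiableAt ℂ N s) {C ε : ℝ} (hε : 0 < ε)
    (hC : ∀ s : ℂ, a ≤ s.re → s.re ≤ b → ‖N s‖ ≤ C * (1 + |s.im|) ^ 8 * Real.exp (-(ε * |s.im|))) :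
    Integrable (fun y : ℝ => N (a + y * I) / (a + y * I + v * I - 1)) ∧
    Integrable (fun y : ℝ => N (b + y * I) / (b + y * I + v * I - 1)) ∧
    ∫ y : ℝ, N (b + y * I) / (b + y * I + v * I - 1) =
      (∫ y : ℝ, N (a + y * I) / (a + y * I + v * I - 1)) + 2 * Real.pi * N (1 - v * I) := by
  have hC0 : 0 ≤ C := by
    have h := (norm_nonneg _).trans (hC (a : ℂ) (by simp) (by simp; linarith))
    simp only [ofReal_im, abs_zero, add_zero, one_pow, mul_one, mul_zero, neg_zero, Real.exp_zero] at h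
    exact h
  have hN' : ∀ s : ℂ, a ≤ s.re → s.re ≤ b → DifferentiableAt ℂ (fun s => N (s - v * I)) s := by
    intro s h1 h2
    have hre : (s - v * I).re = s.re := by simp
    exact DifferentiableAt.comp (g := N) (f := fun s : ℂ => s - v * I) s
      (hN _ (by rw [hre]; exact h1) (by rw [hre]; exact h2)) (by fun_prop)
  have hC' : ∀ s : ℂ, a ≤ s.re → s.re ≤ b → ‖(fun s => N (s - v * I)) s‖ ≤
      (C * (1 + |v|) ^ 8 * Real.exp (ε * |v|)) * (1 + |s.im|) ^ 8 * Real.exp (-(ε * |s.im|)) := by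
    intro s h1 h2
    have hre : (s - v * I).re = s.re := by simp
    have him : (s - v * I).im = s.im - v := by simp
    have h := hC (s - v * I) (by rw [hre]; exact h1) (by rw [hre]; exact h2)
    rw [him] at h
    have a1 : 1 + |s.im - v| ≤ (1 + |v|) * (1 + |s.im|) := by
      have h1 := abs_sub s.im v
      have h2 := abs_nonneg s.im
      have h3 := abs_nonneg v
      nlinarith [mul_nonneg h2 h3]
    have a2 : |s.im| - |v| ≤ |s.im - v| := abs_sub_abs_le_abs_sub _ _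
    have a3 : Real.exp (-(ε * |s.im - v|)) ≤ Real.exp (ε * |v|) * Real.exp (-(ε * |s.im|)) := by
      rw [← Real.exp_add]
      apply Real.exp_le_exp.2
      nlinarith
    calc ‖N (s - v * I)‖ ≤ C * (1 + |s.im - v|) ^ 8 * Real.exp (-(ε * |s.im - v|)) := h
      _ ≤ C * ((1 + |v|) * (1 + |s.im|)) ^ 8 * (Real.exp (ε * |v|) * Real.exp (-(ε * |s.im|))) := by
          gcongr
      _ = _ := by ring
  obtain ⟨ia, ib, h⟩ := T_shift ha hb hN' hε hC'
  have hf : ∀ a' : ℝ, (fun y : ℝ => N (a' + y * I) / (a' + y * I + v * I - 1)) =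
      fun y : ℝ => (fun y : ℝ => (fun s => N (s - v * I)) (a' + y * I) / (a' + y * I - 1)) (y + v) := by
    intro a'
    funext y
    simp only
    congr 1
    · congr 1
      push_cast
      ring
    · push_cast
      ring
  refine ⟨?_, ?_, ?_⟩
  · rw [hf a]
    exact ia.comp_add_right v
  · rw [hf b]
    exact ib.comp_add_right v
  · rw [hf a, hf b, integral_add_right_eq_self (μ := volume)
      (fun y : ℝ => (fun s => N (s - v * I)) (a + y * I) / (a + y * I - 1)) v,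
      integral_add_right_eq_self (μ := volume)
      (fun y : ℝ => (fun s => N (s - v * I)) (b + y * I) / (b + y * I - 1)) v]
    exact h

end OO

end

section

/-!
# Row OP15a: numerics
-/

open Complex MeasureTheory Set Filter Topology

namespace OO

theorem P15a_aux_ev (a c : ℝ) (ha : 0 < a) : ∃ T0 : ℝ, 2 ≤ T0 ∧ ∀ T : ℝ, T0 ≤ T → c ≤ T ^ a := by
  have h := (tendsto_rpow_atTop ha).eventually_ge_atTop c
  obtain ⟨T1, hT1⟩ := Filter.eventually_atTop.1 h
  exact ⟨max 2 T1, le_max_left _ _, fun T hT => hT1 T (le_trans (le_max_right _ _) hT)⟩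

/-- OP15a. PROOF. `dl = 10^(-10)`; `U H ≤ T^(1/500 + 2 dl)`. The six inequalities compare powers of `T` with different exponents (`T^a ≤ c T^b` for `a < b`, `T` large):
(1) exponent `7dl + 1/500 + 2dl - 1 < 0`; (2) `7dl + 1/500 + 2dl < 3/1000`; (3), (4) `-1/100 < -2(1/500 + 2dl)`, `-1/100 < -(1/500+2dl)`; (5) `1/2000 + 1/500 + 2dl < 3/1000`; (6) `U H` is a natural number `≤ T^(1/500 + 2dl)`.
Use `Real.rpow_add`, `Real.rpow_le_rpow_of_exponent_le`, and `(tendsto_rpow_atTop h).eventually_ge_atTop`. -/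
theorem P15_a (q : ℕ) (hq : 1 ≤ q) : ∃ T0 : ℝ, 2 ≤ T0 ∧ ∀ (T : ℝ) (H U M : ℕ), T0 ≤ T → 1 ≤ H → 1 ≤ U → (H : ℝ) ≤ T ^ (2 * dl) → (U : ℝ) ≤ T ^ (1 / 500 : ℝ) →
    M = ⌈T ^ (3 / 1000 : ℝ)⌉₊ →
    T ^ (7 * dl) * U * H * (1 / T) ≤ 1 ∧ q * (T ^ (7 * dl) * U * H) ≤ M - 1 / 2 ∧ 2 * T ^ (-(1 / 100) : ℝ) ≤ 1 / (q * ((U : ℝ) * H) ^ 2) ∧
    2 * T ^ (-(1 / 100) : ℝ) ≤ 1 / (q * ((U : ℝ) * H)) ∧ 2 * T ^ (-(1 / 100) : ℝ) ≤ (1 / (q * ((U : ℝ) * H))) ^ 2 ∧
    T ^ (1 / 2000 : ℝ) * (U * H) ≤ M ∧ U * H ≤ ⌊T ^ (1 / 500 + 2 * dl : ℝ)⌋₊ := by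
  have hdl : dl = 1 / 10 ^ 10 := rfl
  obtain ⟨Ta, hTa2, hTa⟩ := P15a_aux_ev (1 / 2000) ((q : ℝ) + 1) (by norm_num)
  obtain ⟨Tb, hTb2, hTb⟩ := P15a_aux_ev (1 / 200) (2 * (q : ℝ) ^ 2) (by norm_num)
  refine ⟨max Ta Tb, le_trans hTa2 (le_max_left _ _), ?_⟩
  intro T H U M hT hH hU hHT hUT hM
  have hTa' := hTa T (le_trans (le_max_left _ _) hT)
  have hTb' := hTb T (le_trans (le_max_right _ _) hT)
  have hT2 : 2 ≤ T := le_trans hTa2 (le_trans (le_max_left _ _) hT)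
  have hT1 : 1 ≤ T := le_trans one_le_two hT2
  have hT0 : 0 < T := lt_of_lt_of_le one_pos hT1
  have hq' : (1 : ℝ) ≤ q := by exact_mod_cast hq
  have hH' : (1 : ℝ) ≤ H := by exact_mod_cast hH
  have hU' : (1 : ℝ) ≤ U := by exact_mod_cast hU
  have hUH : (U : ℝ) * H ≤ T ^ (1 / 500 + 2 * dl : ℝ) := by
    rw [Real.rpow_add hT0]
    exact mul_le_mul hUT hHT (zero_le_one.trans hH') (Real.rpow_nonneg hT0.le _)
  have hUH1 : (1 : ℝ) ≤ (U : ℝ) * H := one_le_mul_of_one_le_of_one_le hU' hH'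
  have h7 : T ^ (7 * dl) * U * H ≤ T ^ (7 * dl + (1 / 500 + 2 * dl) : ℝ) := by
    rw [Real.rpow_add hT0, mul_assoc]
    exact mul_le_mul_of_nonneg_left hUH (by positivity)
  have hMT : T ^ (3 / 1000 : ℝ) ≤ M := by
    rw [hM]
    exact Nat.le_ceil _
  -- exponent comparison
  have e1 : T ^ (7 * dl + (1 / 500 + 2 * dl) : ℝ) ≤ T := by
    calc T ^ (7 * dl + (1 / 500 + 2 * dl) : ℝ) ≤ T ^ (1 : ℝ) :=
          Real.rpow_le_rpow_of_exponent_le hT1 (by rw [hdl]; norm_num)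
      _ = T := Real.rpow_one T
  have e2 : ((q : ℝ) + 1) * T ^ (7 * dl + (1 / 500 + 2 * dl) : ℝ) ≤ T ^ (3 / 1000 : ℝ) := by
    calc ((q : ℝ) + 1) * T ^ (7 * dl + (1 / 500 + 2 * dl) : ℝ)
        ≤ T ^ (1 / 2000 : ℝ) * T ^ (7 * dl + (1 / 500 + 2 * dl) : ℝ) :=
          mul_le_mul_of_nonneg_right hTa' (by positivity)
      _ = T ^ (1 / 2000 + (7 * dl + (1 / 500 + 2 * dl)) : ℝ) := by rw [← Real.rpow_add hT0]
      _ ≤ T ^ (3 / 1000 : ℝ) := Real.rpow_le_rpow_of_exponent_le hT1 (by rw [hdl]; norm_num)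
  have e2' : (1 : ℝ) ≤ T ^ (7 * dl + (1 / 500 + 2 * dl) : ℝ) :=
    Real.one_le_rpow hT1 (by rw [hdl]; norm_num)
  have e3 : 2 * (q : ℝ) ^ 2 * ((U : ℝ) * H) ^ 2 ≤ T ^ (1 / 100 : ℝ) := by
    have hs : ((U : ℝ) * H) ^ 2 ≤ T ^ (1 / 500 + 2 * dl + (1 / 500 + 2 * dl) : ℝ) := by
      rw [Real.rpow_add hT0 (1 / 500 + 2 * dl), pow_two]
      exact mul_le_mul hUH hUH (zero_le_one.trans hUH1) (Real.rpow_nonneg hT0.le _)
    calc 2 * (q : ℝ) ^ 2 * ((U : ℝ) * H) ^ 2
        ≤ T ^ (1 / 200 : ℝ) * T ^ (1 / 500 + 2 * dl + (1 / 500 + 2 * dl) : ℝ) :=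
          mul_le_mul hTb' hs (by positivity) (by positivity)
      _ = T ^ (1 / 200 + (1 / 500 + 2 * dl + (1 / 500 + 2 * dl)) : ℝ) := by rw [← Real.rpow_add hT0]
      _ ≤ T ^ (1 / 100 : ℝ) := Real.rpow_le_rpow_of_exponent_le hT1 (by rw [hdl]; norm_num)
  have hinv : T ^ (-(1 / 100) : ℝ) = 1 / T ^ (1 / 100 : ℝ) := by
    rw [Real.rpow_neg hT0.le]
    exact (one_div _).symm
  have hTp : 0 < T ^ (1 / 100 : ℝ) := by positivity
  have key : 2 * T ^ (-(1 / 100) : ℝ) ≤ 1 / ((q : ℝ) ^ 2 * ((U : ℝ) * H) ^ 2) := by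
    rw [hinv, mul_one_div, div_le_div_iff₀ hTp (by positivity)]
    linarith only [e3]
  refine ⟨?_, ?_, ?_, ?_, ?_, ?_, ?_⟩
  · rw [mul_one_div, div_le_one hT0]
    exact h7.trans e1
  · have : (q : ℝ) * (T ^ (7 * dl) * U * H) ≤ q * T ^ (7 * dl + (1 / 500 + 2 * dl) : ℝ) :=
      mul_le_mul_of_nonneg_left h7 (zero_le_one.trans hq')
    linarith only [this, e2, e2', hMT]
  · refine key.trans ?_
    apply one_div_le_one_div_of_le (by positivity)
    apply mul_le_mul_of_nonneg_right _ (by positivity)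
    rw [pow_two]
    exact le_mul_of_one_le_left (zero_le_one.trans hq') hq'
  · refine key.trans ?_
    apply one_div_le_one_div_of_le (by positivity)
    have h1 : (q : ℝ) ≤ (q : ℝ) ^ 2 := by rw [pow_two]; exact le_mul_of_one_le_left (zero_le_one.trans hq') hq'
    have h2 : (U : ℝ) * H ≤ ((U : ℝ) * H) ^ 2 := by
      rw [pow_two]; exact le_mul_of_one_le_left (zero_le_one.trans hUH1) hUH1
    exact mul_le_mul h1 h2 (by positivity) (by positivity)
  · refine key.trans (le_of_eq ?_)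
    rw [div_pow, one_pow]
    congr 1
    ring
  · calc T ^ (1 / 2000 : ℝ) * ((U : ℝ) * H) ≤ T ^ (1 / 2000 : ℝ) * T ^ (1 / 500 + 2 * dl : ℝ) :=
          mul_le_mul_of_nonneg_left hUH (by positivity)
      _ = T ^ (1 / 2000 + (1 / 500 + 2 * dl) : ℝ) := by rw [← Real.rpow_add hT0]
      _ ≤ T ^ (3 / 1000 : ℝ) := Real.rpow_le_rpow_of_exponent_le hT1 (by rw [hdl]; norm_num)
      _ ≤ M := hMT
  · apply Nat.le_floor
    push_cast
    exact hUH

end OO

end

section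

/-!
# Twists of a cut-off
-/

open Complex Finset MeasureTheory
open scoped ComplexConjugate

namespace OOK

/-- `x^(-iy)` -/
noncomputable def EE (y x : ℝ) : ℂ := cexp (((-(y * Real.log x) : ℝ) : ℂ) * I)

theorem EE_norm (y x : ℝ) : ‖EE y x‖ = 1 := Complex.norm_exp_ofReal_mul_I _

theorem EE_mul (y z x : ℝ) : EE y x * EE z x = EE (y + z) x := by
  unfold EE
  rw [← Complex.exp_add]
  congr 1
  push_cast
  ring

theorem EE_zero (x : ℝ) : EE 0 x = 1 := by
  unfold EE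
  simp

theorem EE_conj (y x : ℝ) : conj (EE y x) = EE (-y) x := by
  unfold EE
  rw [← Complex.exp_conj]
  congr 1
  rw [map_mul, Complex.conj_ofReal, Complex.conj_I]
  push_cast
  ring

theorem EE_div (y : ℝ) {m x : ℝ} (hm : 0 < m) (hx : 0 < x) : EE y (m / x) = EE y m * EE (-y) x := by
  unfold EE
  rw [← Complex.exp_add, Real.log_div hm.ne' hx.ne']
  congr 1
  push_cast
  ring

theorem EE_deriv (y : ℝ) {x : ℝ} (hx : 0 < x) : HasDerivAt (EE y) (EE y x * (-(y : ℂ) / x * I)) x := by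
  have h1 : HasDerivAt (fun x : ℝ => -(y * Real.log x)) (-(y * x⁻¹)) x :=
    ((Real.hasDerivAt_log hx.ne').const_mul y).neg
  have h2 := (h1.ofReal_comp.mul_const I).cexp
  refine h2.congr_deriv ?_
  unfold EE
  push_cast
  ring

theorem EE_cont (y : ℝ) : ContinuousOn (EE y) (Set.Ioi 0) :=
  fun _ hx => (EE_deriv y hx).continuousAt.continuousWithinAt

theorem EE_nat (y : ℝ) {n : ℕ} (hn : 0 < n) : EE y n = (n : ℂ) ^ (-((y : ℂ) * I)) := by
  have hn' : (n : ℂ) ≠ 0 := Nat.cast_ne_zero.mpr hn.ne'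
  rw [Complex.cpow_def_of_ne_zero hn', ← Complex.natCast_log]
  unfold EE
  congr 1
  push_cast
  ring

theorem EE_cpow (y : ℝ) {x : ℝ} (hx : 0 < x) : (x : ℂ) ^ (((y : ℝ) : ℂ) * I) = EE (-y) x := by
  rw [Complex.cpow_def_of_ne_zero (Complex.ofReal_ne_zero.mpr hx.ne'), ← Complex.ofReal_log hx.le]
  unfold EE
  congr 1
  push_cast
  ring

theorem Cut3.mono {F F1 F2 : ℝ → ℂ} {B B' Y : ℝ} (hF : Cut3 F F1 F2 B Y) (h : B ≤ B') : Cut3 F F1 F2 B' Y where
  B1 := hF.B1.trans h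
  Y2 := hF.Y2
  zero := hF.zero
  bd0 x := (hF.bd0 x).trans h
  d1 := hF.d1
  d2 := hF.d2
  bd1 x hx := (hF.bd1 x hx).trans (div_le_div_of_nonneg_right h hx.le)
  bd2 x hx := (hF.bd2 x hx).trans (div_le_div_of_nonneg_right h (by positivity))

/-- the twist of a cut-off -/
theorem Cut3_of {f f1 f2 : ℝ → ℝ} {B Y : ℝ} (hf : Cut f f1 f2 B Y) (y : ℝ) :
    Cut3 (fun x => (f x : ℂ) * EE y x) (fun x => ((f1 x : ℂ) - (y : ℂ) * I * f x / x) * EE y x)
      (fun x => ((f2 x : ℂ) - 2 * (y : ℂ) * I * f1 x / x + ((y : ℂ) * I - (y : ℂ) ^ 2) * f x / x ^ 2) * EE y x)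
      ((1 + 3 * |y| + y ^ 2) * B) Y := by
  have hB := hf.B1
  have hy : 0 ≤ |y| := abs_nonneg y
  have hB0 : 0 ≤ B := zero_le_one.trans hB
  have hc1 : 1 ≤ 1 + 3 * |y| + y ^ 2 := by nlinarith [sq_nonneg y]
  have hny : ‖(y : ℂ)‖ = |y| := by rw [Complex.norm_real, Real.norm_eq_abs]
  refine ⟨one_le_mul_of_one_le_of_one_le hc1 hB, hf.Y2, ?_, ?_, ?_, ?_, ?_, ?_⟩
  · intro x hx
    rw [hf.zero x hx]
    simp
  · intro x
    rw [norm_mul, EE_norm, mul_one, Complex.norm_real, Real.norm_eq_abs]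
    exact (hf.bd0 x).trans (le_mul_of_one_le_left hB0 hc1)
  · intro x hx
    have hxc : (x : ℂ) ≠ 0 := Complex.ofReal_ne_zero.mpr hx.ne'
    have := (hf.d1 x hx).ofReal_comp.mul (EE_deriv y hx)
    refine this.congr_deriv ?_
    field_simp
    ring
  · intro x hx
    have hxc : (x : ℂ) ≠ 0 := Complex.ofReal_ne_zero.mpr hx.ne'
    have h1 : HasDerivAt (fun x : ℝ => (x : ℂ)) 1 x := Complex.ofRealCLM.hasDerivAt
    have h2 := ((hf.d1 x hx).ofReal_comp.const_mul ((y : ℂ) * I)).div h1 hxc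
    have h3 := ((hf.d2 x hx).ofReal_comp.sub h2).mul (EE_deriv y hx)
    refine h3.congr_deriv ?_
    simp only [Pi.sub_apply, Pi.div_apply]
    field_simp
    ring_nf
    rw [Complex.I_sq]
    ring
  · intro x hx
    have nx : ‖(x : ℂ)‖ = x := by rw [Complex.norm_real, Real.norm_eq_abs, abs_of_pos hx]
    rw [norm_mul, EE_norm, mul_one]
    refine (norm_sub_le _ _).trans ?_
    rw [norm_div, norm_mul, norm_mul, Complex.norm_I, hny, nx, Complex.norm_real, Complex.norm_real,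
      Real.norm_eq_abs, Real.norm_eq_abs, mul_one]
    have h1 : |y| * |f x| / x ≤ |y| * B / x :=
      div_le_div_of_nonneg_right (mul_le_mul_of_nonneg_left (hf.bd0 x) hy) hx.le
    have h2 := hf.bd1 x hx
    have h3 : (1 + 3 * |y| + y ^ 2) * B / x = B / x + |y| * B / x + (2 * |y| + y ^ 2) * B / x := by ring
    have h4 : 0 ≤ (2 * |y| + y ^ 2) * B / x := by positivity
    rw [h3]
    linarith only [h1, h2, h4]
  · intro x hx
    have nx : ‖(x : ℂ)‖ = x := by rw [Complex.norm_real, Real.norm_eq_abs, abs_of_pos hx]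
    rw [norm_mul, EE_norm, mul_one]
    refine (norm_add_le _ _).trans ((add_le_add_left (norm_sub_le _ _) _).trans ?_)
    rw [norm_div, norm_mul, norm_mul, norm_mul, Complex.norm_I, hny, nx, norm_div, norm_mul, norm_pow, nx,
      Complex.norm_real, Complex.norm_real, Complex.norm_real,
      Real.norm_eq_abs, Real.norm_eq_abs, Real.norm_eq_abs, mul_one, Complex.norm_ofNat]
    have hn : ‖(y : ℂ) * I - (y : ℂ) ^ 2‖ ≤ |y| + y ^ 2 := by
      refine (norm_sub_le _ _).trans (le_of_eq ?_)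
      rw [norm_mul, norm_pow, Complex.norm_I, hny, mul_one, sq_abs]
    have h1 : 2 * |y| * |f1 x| / x ≤ 2 * |y| * (B / x) / x :=
      div_le_div_of_nonneg_right (mul_le_mul_of_nonneg_left (hf.bd1 x hx) (by positivity)) hx.le
    have h2 := hf.bd2 x hx
    have h3 : ‖(y : ℂ) * I - (y : ℂ) ^ 2‖ * |f x| / x ^ 2 ≤ (|y| + y ^ 2) * B / x ^ 2 :=
      div_le_div_of_nonneg_right (mul_le_mul hn (hf.bd0 x) (abs_nonneg _) (by positivity)) (by positivity)
    have h4 : (1 + 3 * |y| + y ^ 2) * B / x ^ 2 = B / x ^ 2 + 2 * |y| * (B / x) / x + (|y| + y ^ 2) * B / x ^ 2 := by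
      field_simp
      ring
    rw [h4]
    linarith only [h1, h2, h3]

end OOK

end

section

/-!
# The twisted divisor integral vanishes
-/

open Complex Finset MeasureTheory
open scoped ComplexConjugate

namespace OOK

/-- the derivative of a cut-off which is eventually constant -/
theorem K3_f1_zero {f f1 f2 : ℝ → ℝ} {B Y Y' : ℝ} (hf : Cut f f1 f2 B Y) (hY' : 0 < Y')
    (h1 : ∀ x, Y' ≤ x → f x = 1) {x : ℝ} (hx : Y' < x) : f1 x = 0 := by
  have hx0 : 0 < x := hY'.trans hx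
  have h2 := hf.d1 x hx0
  have h3 : HasDerivAt f 0 x := by
    refine (hasDerivAt_const x (1 : ℝ)).congr_of_eventuallyEq ?_
    filter_upwards [Ioi_mem_nhds hx] with y hy
    exact h1 y (le_of_lt hy)
  exact h2.unique h3

theorem K3_f_cont {f f1 f2 : ℝ → ℝ} {B Y : ℝ} (hf : Cut f f1 f2 B Y) :
    ContinuousOn (fun x : ℝ => (f x : ℂ)) (Set.Ioi 0) ∧ ContinuousOn (fun x : ℝ => (f1 x : ℂ)) (Set.Ioi 0) :=
  ⟨fun x hx => ((hf.d1 x hx).ofReal_comp).continuousAt.continuousWithinAt,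
    fun x hx => ((hf.d2 x hx).ofReal_comp).continuousAt.continuousWithinAt⟩

/-- `∫_Y^R f(x) x^(-iD-1) dx = i R^(-iD) / D` for `R ≥ Y'` -/
theorem K3_kappa {f f1 f2 : ℝ → ℝ} {B Y Y' : ℝ} (hf : Cut f f1 f2 B Y) (hYY : Y ≤ Y')
    (h1 : ∀ x, Y' ≤ x → f x = 1) {D : ℝ} (hD : D ≠ 0)
    (h0 : ∫ x in Y..Y', (f1 x : ℂ) * EE D x = 0) {R : ℝ} (hR : Y' ≤ R) :
    ∫ x in Y..R, (f x : ℂ) * EE D x / x = I * EE D R / D := by
  have hY0 : 0 < Y := by linarith [hf.Y2]
  have hY'0 : 0 < Y' := by linarith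
  have hR0 : 0 < R := by linarith
  have hYR : Y ≤ R := hYY.trans hR
  have hDc : (D : ℂ) ≠ 0 := Complex.ofReal_ne_zero.mpr hD
  have hsub : Set.uIcc Y R ⊆ Set.Ioi 0 := by
    rw [Set.uIcc_of_le hYR]
    exact fun x hx => lt_of_lt_of_le hY0 hx.1
  obtain ⟨c0, c1⟩ := K3_f_cont hf
  have i1 : IntervalIntegrable (fun x : ℝ => (f1 x : ℂ) * EE D x) volume Y R :=
    ((c1.mul (EE_cont D)).mono hsub).intervalIntegrable
  have i0 : IntervalIntegrable (fun x : ℝ => (f x : ℂ) * EE D x / x) volume Y R := by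
    refine ContinuousOn.intervalIntegrable (((c0.mul (EE_cont D)).mono hsub).div
      Complex.continuous_ofReal.continuousOn fun x hx => ?_)
    exact Complex.ofReal_ne_zero.mpr (ne_of_gt (hsub hx))
  -- the derivative of f x^(-iD)
  have hder : ∀ x ∈ Set.uIcc Y R, HasDerivAt (fun x : ℝ => (f x : ℂ) * EE D x)
      ((f1 x : ℂ) * EE D x - D * I * ((f x : ℂ) * EE D x / x)) x := by
    intro x hx
    have hx0 : 0 < x := hsub hx
    have hxc : (x : ℂ) ≠ 0 := Complex.ofReal_ne_zero.mpr hx0.ne'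
    refine ((hf.d1 x hx0).ofReal_comp.mul (EE_deriv D hx0)).congr_deriv ?_
    field_simp
    ring
  have hftc := intervalIntegral.integral_eq_sub_of_hasDerivAt hder (i1.sub (i0.const_mul (D * I)))
  rw [intervalIntegral.integral_sub i1 (i0.const_mul (D * I)), intervalIntegral.integral_const_mul] at hftc
  have hz : ∫ x in Y..R, (f1 x : ℂ) * EE D x = 0 := by
    have hs1 : IntervalIntegrable (fun x : ℝ => (f1 x : ℂ) * EE D x) volume Y Y' := by
      refine ((c1.mul (EE_cont D)).mono ?_).intervalIntegrable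
      rw [Set.uIcc_of_le hYY]
      exact fun x hx => lt_of_lt_of_le hY0 hx.1
    have hs2 : IntervalIntegrable (fun x : ℝ => (f1 x : ℂ) * EE D x) volume Y' R := by
      refine ((c1.mul (EE_cont D)).mono ?_).intervalIntegrable
      rw [Set.uIcc_of_le hR]
      exact fun x hx => lt_of_lt_of_le hY'0 hx.1
    rw [← intervalIntegral.integral_add_adjacent_intervals hs1 hs2, h0, zero_add,
      intervalIntegral.integral_of_le hR]
    refine (setIntegral_congr_fun (g := fun _ => (0 : ℂ)) measurableSet_Ioc fun x hx => ?_).trans ?_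
    · show (f1 x : ℂ) * EE D x = 0
      rw [K3_f1_zero hf hY'0 h1 hx.1]
      simp
    · simp
  rw [hz, h1 R hR, hf.zero Y le_rfl] at hftc
  have h5 : D * I * ∫ x in Y..R, (f x : ℂ) * EE D x / x = -EE D R := by
    have : (0 : ℂ) - D * I * ∫ x in Y..R, (f x : ℂ) * EE D x / x = EE D R := by
      rw [hftc]
      simp
    rw [← this]
    ring
  have h6 : (D : ℂ) * I ≠ 0 := mul_ne_zero hDc Complex.I_ne_zero
  apply mul_left_cancel₀ h6
  rw [h5]
  have h7 : (D : ℂ) * I * (I * EE D R / D) = I ^ 2 * EE D R := by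
    field_simp
  rw [h7, Complex.I_sq]
  ring

/-- the second half, by the substitution `x ↦ m / x` -/
theorem K3_half {f f1 f2 : ℝ → ℝ} {B Y : ℝ} (hf : Cut f f1 f2 B Y) {D : ℝ} {m R : ℝ} (hR : Y ≤ R)
    (hm : 0 < m) (hmR : m / R ≤ m / Y) :
    ∫ x in (m / R)..(m / Y), (f (m / x) : ℂ) * EE D x / x = EE D m * ∫ x in Y..R, (f x : ℂ) * EE (-D) x / x := by
  have hY0 : 0 < Y := by linarith [hf.Y2]
  have hR0 : 0 < R := by linarith
  obtain ⟨c0, c1⟩ := K3_f_cont hf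
  -- κ
  set k : ℝ → ℂ := fun r => ∫ x in Y..r, (f x : ℂ) * EE (-D) x / x with hk
  have hcont : ContinuousOn (fun x : ℝ => (f x : ℂ) * EE (-D) x / x) (Set.Ioi 0) := by
    refine ContinuousOn.div (c0.mul (EE_cont _)) Complex.continuous_ofReal.continuousOn fun x hx => ?_
    exact Complex.ofReal_ne_zero.mpr (ne_of_gt hx)
  have hkd : ∀ r, 0 < r → HasDerivAt k ((f r : ℂ) * EE (-D) r / r) r := by
    intro r hr
    refine intervalIntegral.integral_hasDerivAt_right ?_ ?_ (hcont.continuousAt (Ioi_mem_nhds hr))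
    · refine (hcont.mono fun x hx => ?_).intervalIntegrable
      have h1 : min Y r ≤ x := (Set.mem_uIcc.1 hx).elim (fun h => (min_le_left _ _).trans h.1)
        (fun h => (min_le_right _ _).trans h.1)
      exact lt_of_lt_of_le (lt_min hY0 hr) h1
    · exact hcont.stronglyMeasurableAtFilter isOpen_Ioi r hr
  have hder : ∀ x ∈ Set.uIcc (m / R) (m / Y), HasDerivAt (fun x : ℝ => -(EE D m * k (m / x)))
      ((f (m / x) : ℂ) * EE D x / x) x := by
    intro x hx
    rw [Set.uIcc_of_le hmR] at hx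
    have hx0 : 0 < x := lt_of_lt_of_le (by positivity) hx.1
    have hxc : (x : ℂ) ≠ 0 := Complex.ofReal_ne_zero.mpr hx0.ne'
    have hmc : (m : ℂ) ≠ 0 := Complex.ofReal_ne_zero.mpr hm.ne'
    have e1 : HasDerivAt (fun x : ℝ => m / x) (-m / x ^ 2) x := by
      have := (hasDerivAt_inv hx0.ne').const_mul m
      refine (this.congr_deriv ?_)
      field_simp
    have e2 := HasDerivAt.scomp x (hkd (m / x) (by positivity)) e1
    rw [Complex.real_smul] at e2
    refine ((e2.const_mul (EE D m)).neg).congr_deriv ?_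
    have e3 : EE (-D) (m / x) = EE (-D) m * EE D x := by
      rw [EE_div (-D) hm hx0, neg_neg]
    have e4 : EE D m * EE (-D) m = 1 := by
      rw [EE_mul, add_neg_cancel, EE_zero]
    rw [e3]
    push_cast
    field_simp
    linear_combination ((f (m / x) : ℂ) * EE D x) * e4
  have hsub : Set.uIcc (m / R) (m / Y) ⊆ Set.Ioi 0 := by
    rw [Set.uIcc_of_le hmR]
    exact fun x hx => lt_of_lt_of_le (by positivity) hx.1
  have hint : IntervalIntegrable (fun x : ℝ => (f (m / x) : ℂ) * EE D x / x) volume (m / R) (m / Y) := by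
    refine ContinuousOn.intervalIntegrable (ContinuousOn.div (ContinuousOn.mul ?_ ((EE_cont D).mono hsub))
      Complex.continuous_ofReal.continuousOn fun x hx => Complex.ofReal_ne_zero.mpr (ne_of_gt (hsub hx)))
    refine c0.comp (ContinuousOn.div continuousOn_const continuousOn_id fun x hx => ne_of_gt (hsub hx)) ?_
    exact fun x hx => div_pos hm (hsub hx)
  rw [intervalIntegral.integral_eq_sub_of_hasDerivAt hder hint]
  have hY1 : m / (m / Y) = Y := by field_simp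
  have hR1 : m / (m / R) = R := by field_simp
  rw [hY1, hR1]
  simp only [hk, intervalIntegral.integral_same]
  ring

theorem K3_J_zero {f f1 f2 : ℝ → ℝ} {B Y Y' : ℝ} (hf : Cut f f1 f2 B Y) (hYY : Y ≤ Y')
    (h1 : ∀ x, Y' ≤ x → f x = 1) {y1 y2 : ℝ} (hy : y1 ≠ y2)
    (h0 : ∫ x in Y..Y', (f1 x : ℂ) * EE (y1 - y2) x = 0) {m : ℝ} (hm : Y' ^ 2 ≤ m) :
    J3 (fun x => (f x : ℂ) * EE y1 x) (fun x => (f x : ℂ) * EE y2 x) m = 0 := by
  have hY0 : 0 < Y := by linarith [hf.Y2]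
  have hY'0 : 0 < Y' := by linarith
  have hm0 : 0 < m := lt_of_lt_of_le (by positivity) hm
  set D : ℝ := y1 - y2 with hDdef
  have hD : D ≠ 0 := sub_ne_zero.mpr hy
  have hDc : (D : ℂ) ≠ 0 := Complex.ofReal_ne_zero.mpr hD
  set R : ℝ := Real.sqrt m with hRdef
  have hRR : R * R = m := Real.mul_self_sqrt hm0.le
  have hR : Y' ≤ R := Real.le_sqrt_of_sq_le hm
  have hR0 : 0 < R := by linarith
  have hYR : Y ≤ R := hYY.trans hR
  have hmR : m / R = R := by
    rw [← hRR]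
    field_simp
  have hRY : R ≤ m / Y := by
    rw [le_div_iff₀ hY0, ← hRR]
    exact mul_le_mul_of_nonneg_left hYR hR0.le
  obtain ⟨c0, c1⟩ := K3_f_cont hf
  -- the integrand
  have hg : ∀ x ∈ Set.Ioi (0 : ℝ), (f x : ℂ) * EE y1 x * ((f (m / x) : ℂ) * EE y2 (m / x)) / x =
      EE y2 m * ((f x : ℂ) * (f (m / x) : ℂ) * EE D x / x) := by
    intro x hx
    have hx0 : 0 < x := hx
    rw [EE_div y2 hm0 hx0]
    have e1 : EE y1 x * EE (-y2) x = EE D x := by rw [EE_mul, hDdef, sub_eq_add_neg]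
    rw [← e1]
    ring
  unfold J3
  rw [setIntegral_congr_fun measurableSet_Ioi hg, integral_const_mul]
  have hzero : ∀ x ∈ Set.Ioi (0 : ℝ) \ Set.Ioc Y (m / Y), (f x : ℂ) * (f (m / x) : ℂ) * EE D x / x = 0 := by
    intro x hx
    have hx0 : 0 < x := hx.1
    have h : x ≤ Y ∨ m / Y ≤ x := by
      by_contra hcon
      push Not at hcon
      exact hx.2 ⟨hcon.1, hcon.2.le⟩
    rcases h with h | h
    · rw [hf.zero x h]
      simp
    · have h2 : m / x ≤ Y := by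
        rw [div_le_iff₀ hx0]
        rw [div_le_iff₀ hY0] at h
        linarith
      rw [hf.zero _ h2]
      simp
  have hsub : Set.Ioc Y (m / Y) ⊆ Set.Ioi 0 := fun x hx => lt_trans hY0 hx.1
  rw [setIntegral_eq_of_subset_of_forall_sdiff_eq_zero measurableSet_Ioi hsub hzero,
    ← intervalIntegral.integral_of_le (hYR.trans hRY)]
  have hcont : ContinuousOn (fun x : ℝ => (f x : ℂ) * (f (m / x) : ℂ) * EE D x / x) (Set.Ioi 0) := by
    refine ContinuousOn.div (ContinuousOn.mul (c0.mul ?_) (EE_cont D))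
      Complex.continuous_ofReal.continuousOn fun x hx => Complex.ofReal_ne_zero.mpr (ne_of_gt hx)
    exact c0.comp (ContinuousOn.div continuousOn_const continuousOn_id fun x hx => ne_of_gt hx)
      fun x hx => div_pos hm0 hx
  have j1 : IntervalIntegrable (fun x : ℝ => (f x : ℂ) * (f (m / x) : ℂ) * EE D x / x) volume Y R := by
    refine (hcont.mono ?_).intervalIntegrable
    rw [Set.uIcc_of_le hYR]
    exact fun x hx => lt_of_lt_of_le hY0 hx.1
  have j2 : IntervalIntegrable (fun x : ℝ => (f x : ℂ) * (f (m / x) : ℂ) * EE D x / x) volume R (m / Y) := by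
    refine (hcont.mono ?_).intervalIntegrable
    rw [Set.uIcc_of_le hRY]
    exact fun x hx => lt_of_lt_of_le hR0 hx.1
  rw [← intervalIntegral.integral_add_adjacent_intervals j1 j2]
  have e1 : ∫ x in Y..R, (f x : ℂ) * (f (m / x) : ℂ) * EE D x / x = ∫ x in Y..R, (f x : ℂ) * EE D x / x := by
    refine intervalIntegral.integral_congr fun x hx => ?_
    rw [Set.uIcc_of_le hYR] at hx
    have hx0 : 0 < x := lt_of_lt_of_le hY0 hx.1
    have h2 : Y' ≤ m / x := by
      refine hR.trans ?_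
      rw [le_div_iff₀ hx0, ← hRR]
      exact mul_le_mul_of_nonneg_left hx.2 hR0.le
    show (f x : ℂ) * (f (m / x) : ℂ) * EE D x / x = (f x : ℂ) * EE D x / x
    rw [h1 _ h2, Complex.ofReal_one, mul_one]
  have e2 : ∫ x in R..(m / Y), (f x : ℂ) * (f (m / x) : ℂ) * EE D x / x =
      ∫ x in (m / R)..(m / Y), (f (m / x) : ℂ) * EE D x / x := by
    rw [hmR]
    refine intervalIntegral.integral_congr fun x hx => ?_
    rw [Set.uIcc_of_le hRY] at hx
    show (f x : ℂ) * (f (m / x) : ℂ) * EE D x / x = (f (m / x) : ℂ) * EE D x / x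
    rw [h1 x (hR.trans hx.1), Complex.ofReal_one, one_mul]
  have h0' : ∫ x in Y..Y', (f1 x : ℂ) * EE (-D) x = 0 := by
    have h2 : ∀ x : ℝ, (f1 x : ℂ) * EE (-D) x = conj ((f1 x : ℂ) * EE D x) := by
      intro x
      rw [map_mul, Complex.conj_ofReal, EE_conj]
    simp only [h2]
    rw [intervalIntegral.integral_of_le hYY, integral_conj, ← intervalIntegral.integral_of_le hYY, h0, map_zero]
  rw [e1, e2, K3_half hf hYR hm0 (by rw [hmR]; exact hRY), K3_kappa hf hYY h1 hD h0 hR,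
    K3_kappa hf hYY h1 (neg_ne_zero.mpr hD) h0' hR]
  have e3 : EE D m = EE D R * EE D R := by
    unfold EE
    rw [← Complex.exp_add, ← hRR, Real.log_mul hR0.ne' hR0.ne']
    congr 1
    push_cast
    ring
  have e4 : EE D R * EE (-D) R = 1 := by rw [EE_mul, add_neg_cancel, EE_zero]
  have e5 : I * EE D R / D + EE D m * (I * EE (-D) R / ((-D : ℝ) : ℂ)) = 0 := by
    rw [e3]
    push_cast
    field_simp
    linear_combination (-(I * EE D R)) * e4
  rw [e5, mul_zero]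

end OOK

end
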