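import Pool.Agent.Lib.MP_0f5a55_nt.OM.K000
import Pool.Agent.Lib.MP_0f5a55_nt.OM.K035

open Complex MeasureTheory Set Filter Topology
open scoped ComplexConjugate

namespace OO

variable {q1 q2 : ℕ}

/-- the function `r` -/
theorem T_r_facts3 [NeZero q1] [NeZero q2] (χ1 : DirichletCharacter ℂ q1) (χ2 : DirichletCharacter ℂ q2)
    (v : ℝ) (g : ℝ → ℂ) (hg : T_hroot3 v g) (c : ℂ) (hc : T_good3 c χ1 χ2 v g) :
    Continuous (T_U3 c χ1 χ2 v g) ∧ (∀ t, T_U3 c χ1 χ2 v g t ≠ 0) ∧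
    ∃ C : ℝ, 0 < C ∧ ∀ (b : ℕ → ℂ) (H : ℕ) (ε : ℝ), (∀ h, ‖b h‖ ≤ h) → 0 < ε → ε ≤ 1 / 10 →
      (∀ t, (T_r03 c χ1 χ2 v g ε t : ℂ) = (Real.exp (-(ε * t)) : ℂ) * T_U3 c χ1 χ2 v g t * T_LL3 χ1 χ2 v (1 / 2 + t * I)) ∧
      Continuous (T_r03 c χ1 χ2 v g ε) ∧ Continuous (T_r3 c χ1 χ2 v g b H ε) ∧
      (∀ t, T_r3 c χ1 χ2 v g b H ε t ^ 2 = Real.exp (-(2 * ε * t)) / (1 + Real.exp (-(2 * Real.pi * t))) *
        (‖T_LL3 χ1 χ2 v (1 / 2 + t * I)‖ ^ 2 * ‖phi b H (1 / 2 + t * I)‖ ^ 4)) ∧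
      Integrable (T_r3 c χ1 χ2 v g b H ε) ∧ Integrable (fun t => T_r3 c χ1 χ2 v g b H ε t ^ 2) ∧
      (∀ t, |T_r3 c χ1 χ2 v g b H ε t| ≤ C * (H : ℝ) ^ 4 * (1 + |t|) ^ 2 * Real.exp (-(ε * |t|))) ∧
      (∀ t, t ≤ 0 → |T_r3 c χ1 χ2 v g b H ε t| ≤ C * (H : ℝ) ^ 4 * (1 + |t|) ^ 2 * Real.exp (-(2 * |t|))) ∧
      (∀ t, (T_r3 c χ1 χ2 v g b H ε t : ℂ) - c * exp (-((ε / 2 : ℝ) * I)) * exp (((T_psi q1 q2 * t : ℝ) : ℂ) * I) *
        MM3 χ1 χ2 v b H ε (1 / 2 + t * I) = (c * exp (-((ε / 2 : ℝ) * I)) * exp (((T_psi q1 q2 * t : ℝ) : ℂ) * I)) *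
          (T_sg3 χ1 χ2 v t * g t - 1) * MM3 χ1 χ2 v b H ε (1 / 2 + t * I)) ∧
      (∀ t, |T_r3 c χ1 χ2 v g b H ε t| = ‖MM3 χ1 χ2 v b H ε (1 / 2 + t * I)‖) := by
  obtain ⟨hsgc, hsgn, hsg1, -⟩ := T_sg3_facts χ1 χ2 v (T_R_kp χ1) (T_R_kp χ2)
  obtain ⟨hgc, hgn, -, -⟩ := hg
  obtain ⟨hgi1, hgi2, -⟩ := T_gi
  obtain ⟨CL, hCL, hLL⟩ := T_Ent3_bd χ1 χ2 v
  obtain ⟨CM, hCM, hMM⟩ := T_mm_line3 χ1 χ2 v
  obtain ⟨hc1, hcim⟩ := hc
  have hline : Continuous (fun t : ℝ => (1 / 2 + t * I : ℂ)) := by fun_prop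
  have hre : ∀ t : ℝ, (1 / 2 + t * I : ℂ).re = 1 / 2 := by intro t; simp
  have him : ∀ t : ℝ, (1 / 2 + t * I : ℂ).im = t := by intro t; simp
  have hGic : Continuous (fun t : ℝ => T_Gi (1 / 2 + t * I)) := by
    rw [continuous_iff_continuousAt]
    intro t
    exact ContinuousAt.comp (f := fun t : ℝ => (1 / 2 + t * I : ℂ)) (g := T_Gi)
      ((hgi2 _ (by rw [hre]; norm_num)).1.continuousAt) hline.continuousAt
  have hLLc : Continuous (fun t : ℝ => T_LL3 χ1 χ2 v (1 / 2 + t * I)) := T_MMl3_cLL χ1 χ2 v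
  have hUc : Continuous (T_U3 c χ1 χ2 v g) := by
    unfold T_U3
    refine Continuous.mul (Continuous.mul (Continuous.mul ?_ hsgc) hgc) hGic
    fun_prop
  have hexpn : ∀ x : ℝ, ‖exp ((x : ℂ) * I)‖ = 1 := fun x => Complex.norm_exp_ofReal_mul_I x
  have hUn : ∀ t, ‖T_U3 c χ1 χ2 v g t‖ = ‖T_Gi (1 / 2 + t * I)‖ := by
    intro t
    unfold T_U3
    rw [norm_mul, norm_mul, norm_mul, norm_mul, hc1, hexpn, hsgn, hgn]
    ring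
  have hUne : ∀ t, T_U3 c χ1 χ2 v g t ≠ 0 := by
    intro t
    rw [← norm_ne_zero_iff, hUn, norm_ne_zero_iff]
    exact (hgi2 _ (by rw [hre]; norm_num)).2
  refine ⟨hUc, hUne, CM + 2 * CL, by positivity, ?_⟩
  intro b H ε hb hε hε1
  obtain ⟨hM1, -, hM3, -, -⟩ := hMM b H ε hb hε hε1
  obtain ⟨hphi1, -, -, hphi4, -⟩ := T_phi b H hb
  have hr0 : ∀ t, (T_r03 c χ1 χ2 v g ε t : ℂ) =
      (Real.exp (-(ε * t)) : ℂ) * T_U3 c χ1 χ2 v g t * T_LL3 χ1 χ2 v (1 / 2 + t * I) := by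
    intro t
    unfold T_r03
    rw [mul_assoc, Complex.ofReal_mul]
    congr 1
    apply Complex.ext
    · simp
    · rw [Complex.ofReal_im, hcim t]
  have hr0c : Continuous (T_r03 c χ1 χ2 v g ε) := by
    unfold T_r03
    refine Continuous.mul (by fun_prop) ?_
    exact Complex.continuous_re.comp (hUc.mul hLLc)
  have hphic : Continuous (fun t : ℝ => phi b H (1 / 2 + t * I)) := hphi4.continuous.comp hline
  have hrc : Continuous (T_r3 c χ1 χ2 v g b H ε) := by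
    unfold T_r3
    exact hr0c.mul (hphic.norm.pow 2)
  have hr : ∀ t, (T_r3 c χ1 χ2 v g b H ε t : ℂ) = (c * exp (-((ε / 2 : ℝ) * I)) *
      exp (((T_psi q1 q2 * t : ℝ) : ℂ) * I) * (T_sg3 χ1 χ2 v t * g t)) * MM3 χ1 χ2 v b H ε (1 / 2 + t * I) := by
    intro t
    rw [hM1 t]
    unfold T_r3
    rw [Complex.ofReal_mul, hr0 t]
    unfold T_U3
    have e1 : exp (-((ε / 2 : ℝ) * I)) * exp ((ε / 2 : ℝ) * I) = 1 := by
      rw [← Complex.exp_add, neg_add_cancel, Complex.exp_zero]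
    linear_combination (-(c * exp (((T_psi q1 q2 * t : ℝ) : ℂ) * I) * (T_sg3 χ1 χ2 v t * g t) *
      (Real.exp (-(ε * t)) : ℂ) *
        (T_Gi (1 / 2 + t * I) * T_LL3 χ1 χ2 v (1 / 2 + t * I)) *
        ((‖phi b H (1 / 2 + t * I)‖ ^ 2 : ℝ) : ℂ))) * e1
  have hexpn' : ‖exp (-((ε / 2 : ℝ) * I))‖ = 1 := by
    have := hexpn (-(ε / 2))
    rw [Complex.ofReal_neg, neg_mul] at this
    exact this
  have hrn : ∀ t, |T_r3 c χ1 χ2 v g b H ε t| = ‖MM3 χ1 χ2 v b H ε (1 / 2 + t * I)‖ := by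
    intro t
    rw [← Real.norm_eq_abs, ← Complex.norm_real, hr t, norm_mul, norm_mul, norm_mul, norm_mul, norm_mul, hc1, hexpn',
      hexpn, hsgn, hgn]
    ring
  have hbd : ∀ t, |T_r3 c χ1 χ2 v g b H ε t| ≤ (CM + 2 * CL) * (H : ℝ) ^ 4 * (1 + |t|) ^ 2 * Real.exp (-(ε * |t|)) := by
    intro t
    rw [hrn t]
    refine (hM3 t).trans ?_
    exact T_R_mono (by linarith) (pow_nonneg (Nat.cast_nonneg H) 4) (sq_nonneg _) (Real.exp_pos _).le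
  have hdec := (T_dec 2 ε hε).1 (fun t => (T_r3 c χ1 χ2 v g b H ε t : ℂ)) ((CM + 2 * CL) * (H : ℝ) ^ 4)
    (Complex.continuous_ofReal.comp hrc) (fun t => by
      rw [Complex.norm_real, Real.norm_eq_abs]
      exact hbd t)
  refine ⟨hr0, hr0c, hrc, ?_, ?_, ?_, hbd, ?_, ?_, hrn⟩
  · intro t
    have e0 : T_r3 c χ1 χ2 v g b H ε t ^ 2 = T_r03 c χ1 χ2 v g ε t ^ 2 * ‖phi b H (1 / 2 + t * I)‖ ^ 4 := by
      unfold T_r3
      ring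
    have e1 : T_r03 c χ1 χ2 v g ε t ^ 2 = (Real.exp (-(ε * t)) * ‖T_U3 c χ1 χ2 v g t‖ * ‖T_LL3 χ1 χ2 v (1 / 2 + t * I)‖) ^ 2 := by
      rw [← sq_abs, ← Real.norm_eq_abs, ← Complex.norm_real, hr0 t, norm_mul, norm_mul, Complex.norm_real,
        Real.norm_of_nonneg (Real.exp_pos _).le]
    have e2 : Real.exp (-(ε * t)) ^ 2 = Real.exp (-(2 * ε * t)) := by
      rw [← Real.exp_nat_mul]
      congr 1
      push_cast
      ring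
    rw [e0, e1, mul_pow, mul_pow, hUn, hgi1 t, e2]
    ring
  · have := hdec.1.re
    simpa using this
  · have := hdec.2
    refine this.congr (Filter.Eventually.of_forall fun t => ?_)
    simp only [Complex.norm_real, Real.norm_eq_abs, sq_abs]
  · intro t ht
    rw [hrn t, hM1 t, norm_mul, norm_mul, norm_mul, norm_mul, Complex.norm_real, Complex.norm_real, hexpn,
      Real.norm_of_nonneg (Real.exp_pos _).le, Real.norm_of_nonneg (sq_nonneg _)]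
    have hL : ‖T_LL3 χ1 χ2 v (1 / 2 + t * I)‖ ≤ CL * (1 + |t|) ^ 2 := by
      have := hLL (1 / 2 + t * I) (by rw [hre]) (T_MMl3_norm t v).1 (T_MMl3_norm t v).2
      rwa [him] at this
    have hP : ‖phi b H (1 / 2 + t * I)‖ ^ 2 ≤ (H : ℝ) ^ 4 := by
      have := hphi1 (1 / 2 + t * I) (by rw [hre]; norm_num)
      calc ‖phi b H (1 / 2 + t * I)‖ ^ 2 ≤ ((H : ℝ) ^ 2) ^ 2 := by gcongr
        _ = (H : ℝ) ^ 4 := by ring
    have hk := T_R_k (s := 1) (Real.one_le_exp (by have := Real.pi_pos; nlinarith : 0 ≤ -(Real.pi * t)))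
      (by norm_num) (norm_nonneg _) (T_R_gi_le t).1 (T_R_gi_le t).2 hε hε1
    have hlast := T_R_last (norm_nonneg (T_LL3 χ1 χ2 v (1 / 2 + t * I)))
      (pow_nonneg (norm_nonneg (phi b H (1 / 2 + t * I))) 2) hk hL hP hCM.le hCL.le
      (pow_nonneg (Nat.cast_nonneg H) 4) (sq_nonneg _) (Real.exp_pos _).le
    rw [one_mul] at hlast
    exact hlast
  · intro t
    rw [hr t]
    ring

theorem T_R3_pw {r w K A t c3 : ℝ} (hA : 1 ≤ A) (hw2 : w ≤ 2) (hw0 : 0 ≤ w)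
    (hwt : 1 ≤ t → w ≤ c3 / t) (hc3 : 0 ≤ c3)
    (hr : t ≤ A → r ^ 2 ≤ K * (A ^ 6 * (1 + t ^ 2)⁻¹)) (hK : 0 ≤ K) :
    w ^ 2 * r ^ 2 ≤ 4 * K * A ^ 6 * (1 + t ^ 2)⁻¹ + c3 ^ 2 * A⁻¹ ^ 2 * r ^ 2 := by
  have hA0 : 0 < A := by linarith
  rcases le_or_gt t A with h | h
  · have h1 := hr h
    have h2 : w ^ 2 ≤ 4 := by nlinarith
    have h3 : w ^ 2 * r ^ 2 ≤ 4 * (K * (A ^ 6 * (1 + t ^ 2)⁻¹)) := mul_le_mul h2 h1 (sq_nonneg _) (by norm_num)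
    have h4 : 0 ≤ c3 ^ 2 * A⁻¹ ^ 2 * r ^ 2 := by positivity
    linarith
  · have ht : 0 < t := by linarith
    have h1 := hwt (by linarith)
    have h2 : c3 / t ≤ c3 * A⁻¹ := by
      rw [div_eq_mul_inv]
      apply mul_le_mul_of_nonneg_left _ hc3
      exact inv_anti₀ hA0 h.le
    have h3 : w ^ 2 ≤ (c3 * A⁻¹) ^ 2 := pow_le_pow_left₀ hw0 (h1.trans h2) 2
    have h4 : w ^ 2 * r ^ 2 ≤ (c3 * A⁻¹) ^ 2 * r ^ 2 := mul_le_mul_of_nonneg_right h3 (sq_nonneg _)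
    have h5 : 0 ≤ 4 * K * A ^ 6 * (1 + t ^ 2)⁻¹ := by positivity
    rw [mul_pow] at h4
    linarith

theorem T_R3_poly (x : ℝ) (hx : 0 ≤ x) : (1 + x) ^ 6 * Real.exp (-(4 * x)) ≤ 5000 := by
  have h1 : (1 + x) ^ 6 ≤ 720 * Real.exp (1 + x) := by
    have h := Real.pow_div_factorial_le_exp (1 + x) (by linarith) 6
    have e : ((Nat.factorial 6 : ℕ) : ℝ) = 720 := by norm_num [Nat.factorial]
    rw [e, div_le_iff₀ (by norm_num)] at h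
    linarith
  calc (1 + x) ^ 6 * Real.exp (-(4 * x)) ≤ 720 * Real.exp (1 + x) * Real.exp (-(4 * x)) := by gcongr
    _ = 720 * Real.exp (1 - 3 * x) := by
        rw [mul_assoc, ← Real.exp_add]
        congr 2
        ring
    _ ≤ 720 * Real.exp 1 := by
        have : Real.exp (1 - 3 * x) ≤ Real.exp 1 := Real.exp_le_exp.2 (by linarith)
        linarith
    _ ≤ 5000 := by
        have := Real.exp_one_lt_d9
        linarith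

/-- the error term -/
theorem T_r_err3 [NeZero q1] [NeZero q2] (χ1 : DirichletCharacter ℂ q1) (χ2 : DirichletCharacter ℂ q2)
    (v : ℝ) (g : ℝ → ℂ) (hg : T_hroot3 v g) (c : ℂ) (hc : T_good3 c χ1 χ2 v g) :
    ∃ C : ℝ, 0 < C ∧ ∀ (b : ℕ → ℂ) (H : ℕ) (ε : ℝ), 1 ≤ H → (∀ h, ‖b h‖ ≤ h) → 0 < ε → ε ≤ 1 / 10 →
      Integrable (fun t : ℝ => (T_r3 c χ1 χ2 v g b H ε t : ℂ) - c * exp (-((ε / 2 : ℝ) * I)) *
        exp (((T_psi q1 q2 * t : ℝ) : ℂ) * I) * MM3 χ1 χ2 v b H ε (1 / 2 + t * I)) ∧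
      Integrable (fun t : ℝ => ‖(T_r3 c χ1 χ2 v g b H ε t : ℂ) - c * exp (-((ε / 2 : ℝ) * I)) *
        exp (((T_psi q1 q2 * t : ℝ) : ℂ) * I) * MM3 χ1 χ2 v b H ε (1 / 2 + t * I)‖ ^ 2) ∧
      ∀ A : ℝ, 1 ≤ A → (∫ t : ℝ, ‖(T_r3 c χ1 χ2 v g b H ε t : ℂ) - c * exp (-((ε / 2 : ℝ) * I)) *
        exp (((T_psi q1 q2 * t : ℝ) : ℂ) * I) * MM3 χ1 χ2 v b H ε (1 / 2 + t * I)‖ ^ 2) ≤
          C * (A ^ 20 * (H : ℝ) ^ 20) + C * (A⁻¹ ^ 2 * ∫ t : ℝ, T_r3 c χ1 χ2 v g b H ε t ^ 2) := by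
  obtain ⟨hsgc, hsgn, hsg1, -⟩ := T_sg3_facts χ1 χ2 v (T_R_kp χ1) (T_R_kp χ2)
  obtain ⟨-, -, C1, hC1, HR⟩ := T_r_facts3 χ1 χ2 v g hg c hc
  obtain ⟨CM, hCM, hMM⟩ := T_mm_line3 χ1 χ2 v
  obtain ⟨hgc, hgn, -, Cg, hCg, hgb⟩ := hg
  obtain ⟨hc1, -⟩ := hc
  set c3 : ℝ := Real.exp (Real.pi * |v|) + Cg with hc3
  have hc30 : 0 < c3 := by positivity
  have hpi := Real.pi_gt_three
  have hw0 : ∀ t, ‖T_sg3 χ1 χ2 v t * g t - 1‖ ≤ ‖T_sg3 χ1 χ2 v t - 1‖ + ‖g t - 1‖ := by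
    intro t
    have e : T_sg3 χ1 χ2 v t * g t - 1 = (T_sg3 χ1 χ2 v t - 1) * g t + (g t - 1) := by ring
    rw [e]
    refine (norm_add_le _ _).trans ?_
    rw [norm_mul, hgn, mul_one]
  have hw2 : ∀ t, ‖T_sg3 χ1 χ2 v t * g t - 1‖ ≤ 2 := by
    intro t
    refine (norm_sub_le _ _).trans ?_
    rw [norm_mul, hsgn, hgn, norm_one]
    norm_num
  have hwt : ∀ t : ℝ, 1 ≤ t → ‖T_sg3 χ1 χ2 v t * g t - 1‖ ≤ c3 / t := by
    intro t ht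
    have ht0 : 0 < t := by linarith
    refine (hw0 t).trans ?_
    have h1 := hsg1 t
    have h2 := hgb t ht
    have h3 : Real.exp (-(Real.pi * t)) ≤ 1 / t := by
      rw [Real.exp_neg, ← one_div]
      apply one_div_le_one_div_of_le ht0
      have := Real.add_one_le_exp (Real.pi * t)
      nlinarith
    have h4 : Real.exp (Real.pi * |v|) * Real.exp (-(Real.pi * t)) ≤ Real.exp (Real.pi * |v|) * (1 / t) :=
      mul_le_mul_of_nonneg_left h3 (Real.exp_pos _).le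
    have h5 : c3 / t = Real.exp (Real.pi * |v|) * (1 / t) + Cg / t := by
      rw [hc3]
      ring
    rw [h5]
    linarith
  refine ⟨(4 * (5000 * C1 ^ 2) * Real.pi + c3 ^ 2), by positivity, ?_⟩
  intro b H ε hH hb hε hε1
  obtain ⟨hr0, hr0c, hrc, hsq, hri, hr2, hrb, hrneg, hre, hrn⟩ := HR b H ε hb hε hε1
  obtain ⟨-, hMc, hM3, hMi, hM2⟩ := hMM b H ε hb hε hε1
  have hH1 : (1 : ℝ) ≤ (H : ℝ) := by exact_mod_cast hH
  set e : ℝ → ℂ := fun t => (T_r3 c χ1 χ2 v g b H ε t : ℂ) - c * exp (-((ε / 2 : ℝ) * I)) *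
        exp (((T_psi q1 q2 * t : ℝ) : ℂ) * I) * MM3 χ1 χ2 v b H ε (1 / 2 + t * I) with he
  have hexpn : ∀ x : ℝ, ‖exp ((x : ℂ) * I)‖ = 1 := fun x => Complex.norm_exp_ofReal_mul_I x
  have hexpn' : ‖exp (-((ε / 2 : ℝ) * I))‖ = 1 := by
    have := hexpn (-(ε / 2))
    rw [Complex.ofReal_neg, neg_mul] at this
    exact this
  have hen : ∀ t, ‖e t‖ = ‖T_sg3 χ1 χ2 v t * g t - 1‖ * |T_r3 c χ1 χ2 v g b H ε t| := by
    intro t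
    simp only [he]
    rw [hre t, norm_mul, norm_mul, norm_mul, norm_mul, hc1, hexpn', hexpn, hrn t]
    ring
  have hec : Continuous e := by
    refine (Complex.continuous_ofReal.comp hrc).sub ?_
    refine Continuous.mul ?_ hMc
    fun_prop
  have heb : ∀ t, ‖e t‖ ≤ (2 * C1 * (H : ℝ) ^ 4) * (1 + |t|) ^ 2 * Real.exp (-(ε * |t|)) := by
    intro t
    rw [hen t]
    calc ‖T_sg3 χ1 χ2 v t * g t - 1‖ * |T_r3 c χ1 χ2 v g b H ε t|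
        ≤ 2 * (C1 * (H : ℝ) ^ 4 * (1 + |t|) ^ 2 * Real.exp (-(ε * |t|))) :=
          mul_le_mul (hw2 t) (hrb t) (abs_nonneg _) (by norm_num)
      _ = _ := by ring
  obtain ⟨hei, he2⟩ := (T_dec 2 ε hε).1 e (2 * C1 * (H : ℝ) ^ 4) hec heb
  refine ⟨hei, he2, ?_⟩
  intro A hA
  have hA0 : 0 < A := by linarith
  have hK0 : 0 ≤ 5000 * C1 ^ 2 * (H : ℝ) ^ 8 := by positivity
  have hrA : ∀ t, t ≤ A → |T_r3 c χ1 χ2 v g b H ε t| ^ 2 ≤ (5000 * C1 ^ 2 * (H : ℝ) ^ 8) * (A ^ 6 * (1 + t ^ 2)⁻¹) := by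
    intro t ht
    have h1t : 0 < 1 + t ^ 2 := by positivity
    have hsq1 : 1 + t ^ 2 ≤ (1 + |t|) ^ 2 := by
      have := abs_nonneg t
      rw [← sq_abs t]
      nlinarith
    have hA6 : (1 : ℝ) ≤ A ^ 6 := one_le_pow₀ hA
    rw [← mul_assoc, ← div_eq_mul_inv, le_div_iff₀ h1t]
    rcases le_or_gt t 0 with h | h
    · have h1 := hrneg t h
      have h2 : |T_r3 c χ1 χ2 v g b H ε t| ^ 2 ≤ (C1 * (H : ℝ) ^ 4 * (1 + |t|) ^ 2 * Real.exp (-(2 * |t|))) ^ 2 :=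
        pow_le_pow_left₀ (abs_nonneg _) h1 2
      have h3 := T_R3_poly |t| (abs_nonneg t)
      have e1 : (Real.exp (-(2 * |t|))) ^ 2 = Real.exp (-(4 * |t|)) := by
        rw [← Real.exp_nat_mul]
        congr 1
        push_cast
        ring
      calc |T_r3 c χ1 χ2 v g b H ε t| ^ 2 * (1 + t ^ 2)
          ≤ (C1 * (H : ℝ) ^ 4 * (1 + |t|) ^ 2 * Real.exp (-(2 * |t|))) ^ 2 * (1 + |t|) ^ 2 := by gcongr
        _ = C1 ^ 2 * (H : ℝ) ^ 8 * ((1 + |t|) ^ 6 * Real.exp (-(4 * |t|))) := by rw [← e1]; ring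
        _ ≤ C1 ^ 2 * (H : ℝ) ^ 8 * 5000 := by gcongr
        _ = 5000 * C1 ^ 2 * (H : ℝ) ^ 8 * 1 := by ring
        _ ≤ _ := by gcongr
    · have h1 := hrb t
      have h0 : Real.exp (-(ε * |t|)) ≤ 1 := Real.exp_le_one_iff.2 (by have := mul_nonneg hε.le (abs_nonneg t); linarith)
      have h1' : |T_r3 c χ1 χ2 v g b H ε t| ≤ C1 * (H : ℝ) ^ 4 * (1 + |t|) ^ 2 := by
        refine h1.trans (mul_le_of_le_one_right (by positivity) h0)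
      have h2 : |T_r3 c χ1 χ2 v g b H ε t| ^ 2 ≤ (C1 * (H : ℝ) ^ 4 * (1 + |t|) ^ 2) ^ 2 :=
        pow_le_pow_left₀ (abs_nonneg _) h1' 2
      have h3 : 1 + |t| ≤ 2 * A := by
        rw [abs_of_pos h]
        linarith
      calc |T_r3 c χ1 χ2 v g b H ε t| ^ 2 * (1 + t ^ 2)
          ≤ (C1 * (H : ℝ) ^ 4 * (1 + |t|) ^ 2) ^ 2 * (1 + |t|) ^ 2 := by gcongr
        _ = C1 ^ 2 * (H : ℝ) ^ 8 * (1 + |t|) ^ 6 := by ring
        _ ≤ C1 ^ 2 * (H : ℝ) ^ 8 * (2 * A) ^ 6 := by gcongr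
        _ = 64 * C1 ^ 2 * (H : ℝ) ^ 8 * A ^ 6 := by ring
        _ ≤ _ := by gcongr; norm_num
  have hpw : ∀ t, ‖e t‖ ^ 2 ≤ 4 * (5000 * C1 ^ 2 * (H : ℝ) ^ 8) * A ^ 6 * (1 + t ^ 2)⁻¹ +
      c3 ^ 2 * A⁻¹ ^ 2 * T_r3 c χ1 χ2 v g b H ε t ^ 2 := by
    intro t
    rw [hen t, mul_pow, sq_abs]
    exact T_R3_pw hA (hw2 t) (norm_nonneg _) (hwt t) hc30.le (fun h => by
      have := hrA t h
      rwa [sq_abs] at this) hK0
  have hint1 : Integrable (fun t : ℝ => (1 + t ^ 2)⁻¹) := integrable_inv_one_add_sq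
  have h1 : (∫ t : ℝ, ‖e t‖ ^ 2) ≤ ∫ t : ℝ, (4 * (5000 * C1 ^ 2 * (H : ℝ) ^ 8) * A ^ 6 * (1 + t ^ 2)⁻¹ +
      c3 ^ 2 * A⁻¹ ^ 2 * T_r3 c χ1 χ2 v g b H ε t ^ 2) :=
    integral_mono he2 ((hint1.const_mul _).add (hr2.const_mul _)) hpw
  rw [integral_add (hint1.const_mul _) (hr2.const_mul _), integral_const_mul, integral_const_mul,
    integral_univ_inv_one_add_sq] at h1
  refine h1.trans ?_
  have hA620 : A ^ 6 ≤ A ^ 20 := pow_le_pow_right₀ hA (by norm_num)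
  have hH820 : (H : ℝ) ^ 8 ≤ (H : ℝ) ^ 20 := pow_le_pow_right₀ hH1 (by norm_num)
  have hI0 : 0 ≤ ∫ t : ℝ, T_r3 c χ1 χ2 v g b H ε t ^ 2 := integral_nonneg fun t => sq_nonneg _
  have t1 : 4 * (5000 * C1 ^ 2 * (H : ℝ) ^ 8) * A ^ 6 * Real.pi ≤
      (4 * (5000 * C1 ^ 2) * Real.pi + c3 ^ 2) * (A ^ 20 * (H : ℝ) ^ 20) := by
    calc 4 * (5000 * C1 ^ 2 * (H : ℝ) ^ 8) * A ^ 6 * Real.pi
        ≤ 4 * (5000 * C1 ^ 2 * (H : ℝ) ^ 20) * A ^ 20 * Real.pi := by gcongr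
      _ = (4 * (5000 * C1 ^ 2) * Real.pi) * (A ^ 20 * (H : ℝ) ^ 20) := by ring
      _ ≤ _ := by
          apply mul_le_mul_of_nonneg_right _ (by positivity)
          have := sq_nonneg c3
          linarith
  have t2 : c3 ^ 2 * A⁻¹ ^ 2 * (∫ t : ℝ, T_r3 c χ1 χ2 v g b H ε t ^ 2) ≤
      (4 * (5000 * C1 ^ 2) * Real.pi + c3 ^ 2) * (A⁻¹ ^ 2 * ∫ t : ℝ, T_r3 c χ1 χ2 v g b H ε t ^ 2) := by
    rw [mul_assoc]
    apply mul_le_mul_of_nonneg_right _ (by positivity)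
    have : 0 ≤ 4 * (5000 * C1 ^ 2) * Real.pi := by positivity
    linarith
  linarith

end OO
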