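import Pool.Agent.Lib.MP_0f5a55_nt.OM.K000
import Pool.Agent.Lib.MP_0f5a55_nt.OM.K011
import Pool.Agent.Lib.MP_0f5a55_nt.OM.K035

section

open Complex MeasureTheory Set Filter Topology
open scoped ComplexConjugate

namespace OO

private theorem X_Chg_exp (p : ℝ) {y : ℝ} (hy : 0 < y) :
    Real.exp (2 * Real.pi * ((Real.log y + p) / (2 * Real.pi)) - p) = y := by
  have h : 2 * Real.pi * ((Real.log y + p) / (2 * Real.pi)) - p = Real.log y := by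
    have := Real.pi_pos
    field_simp
    ring
  rw [h, Real.exp_log hy]

private theorem X_Chg_lt (p : ℝ) {a b : ℝ} :
    Real.exp (2 * Real.pi * a - p) < Real.exp (2 * Real.pi * b - p) ↔ a < b := by
  rw [Real.exp_lt_exp, sub_lt_sub_iff_right, mul_lt_mul_iff_right₀ (by positivity)]

private theorem X_Chg_zero (p : ℝ) : Real.exp (-p) = Real.exp (2 * Real.pi * 0 - p) := by
  rw [mul_zero, zero_sub]

private theorem X_Chg_im1 (p X : ℝ) : (fun ξ => Real.exp (2 * Real.pi * ξ - p)) '' (Ioc 0 X) =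
    Ioc (Real.exp (-p)) (Real.exp (2 * Real.pi * X - p)) := by
  ext y
  constructor
  · rintro ⟨ξ, ⟨h1, h2⟩, rfl⟩
    refine ⟨?_, ?_⟩
    · rw [X_Chg_zero]
      exact (X_Chg_lt p).2 h1
    · exact not_lt.1 fun h => absurd ((X_Chg_lt p).1 h) (not_lt.2 h2)
  · rintro ⟨h1, h2⟩
    have hy : 0 < y := (Real.exp_pos _).trans h1
    refine ⟨(Real.log y + p) / (2 * Real.pi), ⟨?_, ?_⟩, X_Chg_exp p hy⟩
    · apply (X_Chg_lt p).1
      rw [X_Chg_exp p hy, ← X_Chg_zero]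
      exact h1
    · apply not_lt.1
      intro h
      have h3 := (X_Chg_lt p).2 h
      rw [X_Chg_exp p hy] at h3
      exact absurd h3 (not_lt.2 h2)

private theorem X_Chg_im2 (p : ℝ) : (fun ξ => Real.exp (2 * Real.pi * ξ - p)) '' (Ioi 0) =
    Ioi (Real.exp (-p)) := by
  ext y
  constructor
  · rintro ⟨ξ, h1, rfl⟩
    rw [mem_Ioi, X_Chg_zero]
    exact (X_Chg_lt p).2 h1
  · intro h1
    have hy : 0 < y := (Real.exp_pos _).trans h1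
    refine ⟨(Real.log y + p) / (2 * Real.pi), ?_, X_Chg_exp p hy⟩
    apply (X_Chg_lt p).1
    rw [X_Chg_exp p hy, ← X_Chg_zero]
    exact h1

private theorem X_Chg_inj (p : ℝ) (s : Set ℝ) :
    InjOn (fun ξ => Real.exp (2 * Real.pi * ξ - p)) s := by
  intro a _ b _ h
  apply le_antisymm
  · exact not_lt.1 fun h1 => absurd h (ne_of_gt ((X_Chg_lt p).2 h1))
  · exact not_lt.1 fun h1 => absurd h (ne_of_lt ((X_Chg_lt p).2 h1))

private theorem X_Chg_der (p : ℝ) (s : Set ℝ) : ∀ x ∈ s,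
    HasDerivWithinAt (fun ξ => Real.exp (2 * Real.pi * ξ - p))
      (2 * Real.pi * Real.exp (2 * Real.pi * x - p)) s x := by
  intro x _
  have h1 : HasDerivAt (fun ξ : ℝ => 2 * Real.pi * ξ - p) (2 * Real.pi) x := by
    have := ((hasDerivAt_id x).const_mul (2 * Real.pi)).sub_const p
    rw [mul_one] at this
    exact this
  exact (h1.exp.congr_deriv (mul_comm _ _)).hasDerivWithinAt

private theorem X_Chg_abs (G : ℝ → ℝ) (p x : ℝ) :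
    |2 * Real.pi * Real.exp (2 * Real.pi * x - p)| • G (Real.exp (2 * Real.pi * x - p)) =
      2 * Real.pi * (Real.exp (2 * Real.pi * x - p) * G (Real.exp (2 * Real.pi * x - p))) := by
  rw [abs_of_pos (by positivity), smul_eq_mul, mul_assoc]

private theorem X_Chg_int (G : ℝ → ℝ) (p : ℝ) {s : Set ℝ} (hs : MeasurableSet s) :
    ∫ ξ in s, Real.exp (2 * Real.pi * ξ - p) * G (Real.exp (2 * Real.pi * ξ - p)) =
      (2 * Real.pi)⁻¹ * ∫ x in (fun ξ => Real.exp (2 * Real.pi * ξ - p)) '' s, G x := by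
  rw [integral_image_eq_integral_abs_deriv_smul hs (X_Chg_der p s) (X_Chg_inj p s)]
  simp only [X_Chg_abs]
  rw [integral_const_mul, ← mul_assoc, inv_mul_cancel₀ (by positivity), one_mul]

/-- OX05. Change of variables `x = exp (2πξ - p)`.

Proof. `φ ξ = exp (2πξ - p)` is injective with derivative `2π φ ξ`, `φ '' (Ioc 0 X) = Ioc (exp (-p)) (exp (2πX - p))`,
`φ '' (Ioi 0) = Ioi (exp (-p))`: `MeasureTheory.integral_image_eq_integral_abs_deriv_smul` and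
`MeasureTheory.integrableOn_image_iff_integrableOn_abs_deriv_smul`. -/
theorem X_chg (G : ℝ → ℝ) (p : ℝ) :
    (∀ X : ℝ, 0 < X → ∫ ξ in Ioc 0 X, Real.exp (2 * Real.pi * ξ - p) * G (Real.exp (2 * Real.pi * ξ - p)) =
      (2 * Real.pi)⁻¹ * ∫ x in Ioc (Real.exp (-p)) (Real.exp (2 * Real.pi * X - p)), G x) ∧
    (∫ ξ in Ioi (0 : ℝ), Real.exp (2 * Real.pi * ξ - p) * G (Real.exp (2 * Real.pi * ξ - p)) =
      (2 * Real.pi)⁻¹ * ∫ x in Ioi (Real.exp (-p)), G x) ∧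
    (IntegrableOn G (Ioi (Real.exp (-p))) →
      IntegrableOn (fun ξ => Real.exp (2 * Real.pi * ξ - p) * G (Real.exp (2 * Real.pi * ξ - p))) (Ioi 0)) := by
  refine ⟨?_, ?_, ?_⟩
  · intro X _
    rw [X_Chg_int G p measurableSet_Ioc, X_Chg_im1]
  · rw [X_Chg_int G p measurableSet_Ioi, X_Chg_im2]
  · intro h
    rw [← X_Chg_im2, integrableOn_image_iff_integrableOn_abs_deriv_smul measurableSet_Ioi
      (X_Chg_der p _) (X_Chg_inj p _)] at h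
    simp only [X_Chg_abs] at h
    have h2 := h.const_mul (2 * Real.pi)⁻¹
    refine h2.congr (Eventually.of_forall fun x => ?_)
    change (2 * Real.pi)⁻¹ * (2 * Real.pi * _) = _
    rw [← mul_assoc, inv_mul_cancel₀ (by positivity), one_mul]

end OO

end

section

open Complex MeasureTheory Set Filter Topology
open scoped ComplexConjugate

namespace OO

variable {q1 q2 : ℕ}

theorem X_En_pi (J : ℝ) : 4 * Real.pi ^ 2 * ((2 * Real.pi)⁻¹ * J) = 2 * Real.pi * J := by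
  have := Real.pi_ne_zero
  field_simp
  ring

theorem X_En_sq {z x y : ℝ} (hz : 0 ≤ z) (h : z ≤ x + y) : z ^ 2 ≤ 2 * x ^ 2 + 2 * y ^ 2 := by
  have h1 : z ^ 2 ≤ (x + y) ^ 2 := pow_le_pow_left₀ hz h 2
  have h2 := sq_nonneg (x - y)
  linarith

theorem X_En_fin (P g r K2 K Z c1 c3 J : ℝ) (h12 : 0 ≤ Z)
    (hR : 8 * P * r * K2 ≤ 8 * P * (c3 * Z) * K2)
    (hJ : J ≤ 2 * (2 * P * (2 * g + 2 * r * K2)) + 2 * (c1 * Z * K)) :
    J ≤ 8 * P * g + (1 + 8 * P * c3 * K2 + 2 * c1 * K) * Z := by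
  linarith

theorem X_En_exp (t ξ : ℝ) : ‖exp (((-(2 * Real.pi * t * ξ) : ℝ) : ℂ) * I)‖ = 1 :=
  Complex.norm_exp_ofReal_mul_I _

theorem X_En_int {f : ℝ → ℂ} (hf : Integrable f) (ξ : ℝ) :
    Integrable (fun t : ℝ => exp (((-(2 * Real.pi * t * ξ) : ℝ) : ℂ) * I) * f t) := by
  refine hf.bdd_mul (c := 1) ?_ (ae_of_all _ fun t => (X_En_exp t ξ).le)
  exact (by fun_prop : Continuous fun t : ℝ =>
    exp (((-(2 * Real.pi * t * ξ) : ℝ) : ℂ) * I)).aestronglyMeasurable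

theorem X_En_add {A e : ℝ → ℂ} (hA : Integrable A) (he : Integrable e) (ξ : ℝ) :
    T_ft (fun t => A t + e t) ξ = T_ft A ξ + T_ft e ξ := by
  unfold T_ft
  rw [← integral_add (X_En_int hA ξ) (X_En_int he ξ)]
  refine integral_congr_ae (ae_of_all _ fun t => ?_)
  simp only
  ring

theorem X_En_core {A e : ℝ → ℂ} (hA : Integrable A) (hA2 : Integrable (fun x => ‖A x‖ ^ 2))
    (he : Integrable e) (he2 : Integrable (fun x => ‖e x‖ ^ 2)) (S : Set ℝ) :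
    ∫ ξ in S, ‖T_ft (fun t => A t + e t) ξ‖ ^ 2 ≤
      2 * (∫ ξ in S, ‖T_ft A ξ‖ ^ 2) + 2 * ∫ x, ‖e x‖ ^ 2 := by
  obtain ⟨_, iA, _⟩ := X_planch hA hA2
  obtain ⟨_, ie, ee⟩ := X_planch he he2
  rw [← ee]
  have h1 : ∫ ξ in S, ‖T_ft e ξ‖ ^ 2 ≤ ∫ ξ, ‖T_ft e ξ‖ ^ 2 :=
    setIntegral_le_integral ie (ae_of_all _ fun ξ => by positivity)
  have h2 : ∫ ξ in S, ‖T_ft (fun t => A t + e t) ξ‖ ^ 2 ≤
      ∫ ξ in S, (2 * ‖T_ft A ξ‖ ^ 2 + 2 * ‖T_ft e ξ‖ ^ 2) := by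
    refine integral_mono_of_nonneg (ae_of_all _ fun ξ => by positivity) ?_
      (ae_of_all _ fun ξ => ?_)
    · exact ((iA.integrableOn.const_mul 2).add (ie.integrableOn.const_mul 2))
    · simp only
      rw [X_En_add hA he]
      have := norm_add_le (T_ft A ξ) (T_ft e ξ)
      exact X_En_sq (norm_nonneg _) this
  have h3 : ∫ ξ in S, (2 * ‖T_ft A ξ‖ ^ 2 + 2 * ‖T_ft e ξ‖ ^ 2) =
      2 * (∫ ξ in S, ‖T_ft A ξ‖ ^ 2) + 2 * ∫ ξ in S, ‖T_ft e ξ‖ ^ 2 := by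
    rw [integral_add (iA.integrableOn.const_mul 2) (ie.integrableOn.const_mul 2),
      integral_const_mul, integral_const_mul]
  linarith

theorem X_En_gg {g : ℝ → ℂ} {R0 : ℂ} {c0 : ℝ} (hc0 : 0 < c0) (hgc : ContinuousOn g (Ioi 0))
    (hg : IntegrableOn (fun x => ‖g x‖ ^ 2) (Ioi c0)) :
    IntegrableOn (fun x : ℝ => ‖g x - R0 / (x : ℂ)‖ ^ 2) (Ioi c0) ∧
    ∀ S : Set ℝ, S ⊆ Ioi c0 → MeasurableSet S → ∫ x in S, ‖g x - R0 / (x : ℂ)‖ ^ 2 ≤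
      2 * (∫ x in S, ‖g x‖ ^ 2) + 2 * ‖R0‖ ^ 2 * ∫ x in Ioi c0, x ^ (-2 : ℝ) := by
  have hsub : Ioi c0 ⊆ Ioi (0 : ℝ) := Ioi_subset_Ioi hc0.le
  have hp : IntegrableOn (fun x : ℝ => x ^ (-2 : ℝ)) (Ioi c0) :=
    integrableOn_Ioi_rpow_of_lt (by norm_num) hc0
  have hptw : ∀ x ∈ Ioi c0, ‖g x - R0 / (x : ℂ)‖ ^ 2 ≤
      2 * ‖g x‖ ^ 2 + 2 * ‖R0‖ ^ 2 * x ^ (-2 : ℝ) := by
    intro x hx
    have hx0 : 0 < x := hsub hx
    have h1 : x ^ (-2 : ℝ) = (‖(x : ℂ)‖⁻¹) ^ 2 := by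
      rw [Complex.norm_real, Real.norm_of_nonneg hx0.le, Real.rpow_neg hx0.le]
      norm_num
    have h2 : ‖R0 / (x : ℂ)‖ ^ 2 = ‖R0‖ ^ 2 * x ^ (-2 : ℝ) := by
      rw [norm_div, h1, div_eq_mul_inv, mul_pow]
    have h3 := norm_sub_le (g x) (R0 / (x : ℂ))
    rw [mul_assoc, ← h2]
    exact X_En_sq (norm_nonneg _) h3
  have hd : IntegrableOn (fun x : ℝ => 2 * ‖g x‖ ^ 2 + 2 * ‖R0‖ ^ 2 * x ^ (-2 : ℝ)) (Ioi c0) :=
    (hg.const_mul 2).add (hp.const_mul _)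
  have hcont : ContinuousOn (fun x : ℝ => ‖g x - R0 / (x : ℂ)‖ ^ 2) (Ioi c0) := by
    refine ContinuousOn.pow (ContinuousOn.norm (ContinuousOn.sub (hgc.mono hsub) ?_)) 2
    refine ContinuousOn.div continuousOn_const continuous_ofReal.continuousOn ?_
    intro x hx
    have : 0 < x := hsub hx
    exact_mod_cast this.ne'
  refine ⟨?_, ?_⟩
  · refine Integrable.mono' hd (hcont.aestronglyMeasurable measurableSet_Ioi) ?_
    refine (ae_restrict_mem measurableSet_Ioi).mono fun x hx => ?_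
    rw [Real.norm_of_nonneg (by positivity)]
    exact hptw x hx
  · intro S hS hSm
    have h1 : ∫ x in S, ‖g x - R0 / (x : ℂ)‖ ^ 2 ≤
        ∫ x in S, (2 * ‖g x‖ ^ 2 + 2 * ‖R0‖ ^ 2 * x ^ (-2 : ℝ)) := by
      refine integral_mono_of_nonneg (ae_of_all _ fun ξ => by positivity) (hd.mono_set hS) ?_
      exact (ae_restrict_mem hSm).mono fun x hx => hptw x (hS hx)
    have h2 : ∫ x in S, (2 * ‖g x‖ ^ 2 + 2 * ‖R0‖ ^ 2 * x ^ (-2 : ℝ)) =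
        2 * (∫ x in S, ‖g x‖ ^ 2) + 2 * ‖R0‖ ^ 2 * ∫ x in S, x ^ (-2 : ℝ) := by
      rw [integral_add ((hg.mono_set hS).const_mul 2) ((hp.mono_set hS).const_mul _),
        integral_const_mul, integral_const_mul]
    have h3 : ∫ x in S, x ^ (-2 : ℝ) ≤ ∫ x in Ioi c0, x ^ (-2 : ℝ) := by
      refine setIntegral_mono_set hp ?_ (ae_of_all _ hS)
      exact (ae_restrict_mem measurableSet_Ioi).mono fun x hx =>
        Real.rpow_nonneg (le_of_lt (hsub hx)) _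
    have h4 : 2 * ‖R0‖ ^ 2 * ∫ x in S, x ^ (-2 : ℝ) ≤
        2 * ‖R0‖ ^ 2 * ∫ x in Ioi c0, x ^ (-2 : ℝ) :=
      mul_le_mul_of_nonneg_left h3 (by positivity)
    linarith

/-- OX07. The energy of the transform of `r` in terms of `g`.

Proof. `c0 = exp (-ψ)`, `ψ = T_psi q1 q2 ≥ 0`. Let `c` be good, `u = c exp (-(ε/2) I)`, `A t = u e^{iψt} MM(1/2+it)`, `e t = r t - A t`; both
integrable, square integrable (`T_mm_line`, `T_r_facts`), `T_ft r = T_ft A + T_ft e` (`integral_add`), so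
`‖T_ft r ξ‖² ≤ 2 ‖T_ft A ξ‖² + 2 ‖T_ft e ξ‖²`. `∫ ‖T_ft e‖² = ∫ ‖e‖²` (`X_planch`) `≤ C² H^8 ∫ ((1+|t|)² e^{-2|t|})² = C' H^8 ≤ C' H^20`
(`T_dec`). `T_gg_line` gives `R0`, `‖R0‖ ≤ C H^5`, and `X_ftm`, `X_chg` with `G x = ‖gg x - R0/x‖²`:
`∫_{Ioc 0 X} ‖T_ft A‖² = 2π ∫_{Ioc c0 (exp (2πX - ψ))} G ≤ 2π ∫_{Ioc c0 (exp (2πX))} G` (`ψ ≥ 0`, `G ≥ 0` integrable on `Ioi c0`), and
`G x ≤ 2 ‖gg x‖² + 2 ‖R0‖²/x²`, `∫_{Ioi c0} x^{-2} = 1/c0`; so `≤ 4π ∫ ‖gg‖² + 4π C² H^10/c0`. Same over `Ioi 0`.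
Integrability of `G` on `Ioi c0`: hypothesis `hg` (the measurability of `gg` follows from `hgc`) and `x^{-2}`. -/
theorem X_en [NeZero q1] [NeZero q2] (χ1 : DirichletCharacter ℂ q1) (χ2 : DirichletCharacter ℂ q2)
    (h1 : χ1.IsPrimitive) (h2 : χ2.IsPrimitive) (hne : Ne12 χ1 χ2) (c : ℂ) (hc : T_good c χ1 χ2) :
    ∃ C : ℝ, 0 < C ∧ ∀ (b : ℕ → ℂ) (H : ℕ) (ε : ℝ), 1 ≤ H → (∀ h, ‖b h‖ ≤ h) → 0 < ε → ε ≤ 1 / 10 →
      ContinuousOn (gg b H (lamF (ch χ1) (ch χ2)) ε) (Ioi 0) →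
      IntegrableOn (fun x => ‖gg b H (lamF (ch χ1) (ch χ2)) ε x‖ ^ 2) (Ioi (Real.exp (-T_psi q1 q2))) →
      (∀ X : ℝ, 0 < X → (∫ ξ in Ioc 0 X, ‖T_ft (fun t => (T_r c χ1 χ2 b H ε t : ℂ)) ξ‖ ^ 2) ≤
        8 * Real.pi * (∫ x in Ioc (Real.exp (-T_psi q1 q2)) (Real.exp (2 * Real.pi * X)),
          ‖gg b H (lamF (ch χ1) (ch χ2)) ε x‖ ^ 2) + C * (H : ℝ) ^ 20) ∧
      (∫ ξ in Ioi (0 : ℝ), ‖T_ft (fun t => (T_r c χ1 χ2 b H ε t : ℂ)) ξ‖ ^ 2) ≤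
        8 * Real.pi * (∫ x in Ioi (Real.exp (-T_psi q1 q2)), ‖gg b H (lamF (ch χ1) (ch χ2)) ε x‖ ^ 2) +
          C * (H : ℝ) ^ 20 := by
  obtain ⟨hUc, hU0, C1, hC1, HR⟩ := T_r_facts χ1 χ2 h1 h2 c hc
  obtain ⟨C2, hC2, HM⟩ := T_mm_line χ1 χ2
  obtain ⟨C3, hC3, HG⟩ := T_gg_line χ1 χ2 hne
  obtain ⟨hdec, _, hK⟩ := T_dec 2 2 (by norm_num)
  set ψ := T_psi q1 q2 with hψ
  have hψ0 : 0 ≤ ψ := by
    rw [hψ]
    unfold T_psi
    have ha : (1 : ℝ) ≤ (q1 : ℝ) := by exact_mod_cast Nat.one_le_iff_ne_zero.2 (NeZero.ne q1)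
    have hb : (1 : ℝ) ≤ (q2 : ℝ) := by exact_mod_cast Nat.one_le_iff_ne_zero.2 (NeZero.ne q2)
    have : (1 : ℝ) ≤ (q1 : ℝ) * q2 := by nlinarith
    have := Real.log_nonneg this
    linarith
  set c0 := Real.exp (-ψ) with hc0
  have hc0p : 0 < c0 := Real.exp_pos _
  set K := ∫ t : ℝ, ((1 + |t|) ^ 2 * Real.exp (-(2 * |t|))) ^ 2 with hKd
  have hK0 : 0 ≤ K := integral_nonneg fun t => by positivity
  set K2 := ∫ x in Ioi c0, x ^ (-2 : ℝ) with hK2d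
  have hK20 : 0 ≤ K2 :=
    setIntegral_nonneg measurableSet_Ioi fun x hx => Real.rpow_nonneg (hc0p.trans hx).le _
  have hpi := Real.pi_pos
  refine ⟨1 + 8 * Real.pi * C3 ^ 2 * K2 + 2 * C1 ^ 2 * K, by positivity, ?_⟩
  intro b H ε hH hb hε hε1 hgc hg
  obtain ⟨_, _, hrc, _, hri, hr2, hrb, hre⟩ := HR b H ε hb hε hε1
  obtain ⟨_, hMc, hMb, hMi, hM2⟩ := HM b H ε hb hε hε1
  obtain ⟨R0, hR0, hRx⟩ := HG b H ε hb hε hε1
  have hH1 : (1 : ℝ) ≤ (H : ℝ) := by exact_mod_cast hH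
  set u : ℂ := c * exp (-((ε / 2 : ℝ) * I)) with hu
  have hu1 : ‖u‖ = 1 := by
    rw [hu, norm_mul, hc.1, one_mul]
    have : (-(((ε / 2 : ℝ) : ℂ) * I)) = ((-(ε / 2) : ℝ) : ℂ) * I := by push_cast; ring
    rw [this, Complex.norm_exp_ofReal_mul_I]
  set A : ℝ → ℂ := fun t => u * exp (((ψ * t : ℝ) : ℂ) * I) * MM χ1 χ2 b H ε (1 / 2 + t * I) with hA
  have hAn : ∀ t, ‖A t‖ = ‖MM χ1 χ2 b H ε (1 / 2 + t * I)‖ := by
    intro t
    simp only [hA]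
    rw [norm_mul, norm_mul, hu1, Complex.norm_exp_ofReal_mul_I]
    ring
  have hAc : Continuous A := by
    refine Continuous.mul (Continuous.mul continuous_const ?_) hMc
    fun_prop
  have hAi : Integrable A := by
    refine Integrable.mono hMi hAc.aestronglyMeasurable (ae_of_all _ fun t => ?_)
    rw [hAn]
  have hA2 : Integrable (fun t => ‖A t‖ ^ 2) := by
    refine hM2.congr (ae_of_all _ fun t => ?_)
    simp only
    rw [hAn]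
  set e : ℝ → ℂ := fun t => (T_r c χ1 χ2 b H ε t : ℂ) - A t with he
  have hec : Continuous e := (continuous_ofReal.comp hrc).sub hAc
  have heb : ∀ t, ‖e t‖ ≤ C1 * (H : ℝ) ^ 4 * (1 + |t|) ^ 2 * Real.exp (-(2 * |t|)) := by
    intro t
    have := hre t
    simpa only [he, hA, hu] using this
  obtain ⟨hei, he2⟩ := hdec e (C1 * (H : ℝ) ^ 4) hec heb
  have heint : ∫ t, ‖e t‖ ^ 2 ≤ (C1 * (H : ℝ) ^ 4) ^ 2 * K := by
    rw [hKd, ← integral_const_mul]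
    refine integral_mono he2 (hK.const_mul _) fun t => ?_
    simp only
    rw [← mul_pow]
    refine pow_le_pow_left₀ (norm_nonneg _) ?_ 2
    rw [← mul_assoc]
    exact heb t
  have hrA : (fun t => (T_r c χ1 χ2 b H ε t : ℂ)) = fun t => A t + e t := by
    funext t
    simp only [he]
    ring
  obtain ⟨hGi, hGS⟩ := X_En_gg (R0 := R0) hc0p hgc hg
  obtain ⟨hch1, hch2, _⟩ := X_chg (fun x => ‖gg b H (lamF (ch χ1) (ch χ2)) ε x - R0 / (x : ℂ)‖ ^ 2) ψ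
  have hft : ∀ ξ, ‖T_ft A ξ‖ ^ 2 = 4 * Real.pi ^ 2 * (Real.exp (2 * Real.pi * ξ - ψ) *
        ‖gg b H (lamF (ch χ1) (ch χ2)) ε (Real.exp (2 * Real.pi * ξ - ψ)) -
          R0 / (Real.exp (2 * Real.pi * ξ - ψ) : ℂ)‖ ^ 2) := fun ξ =>
    X_ftm χ1 χ2 b H ε R0 u hu1 hRx ψ ξ
  -- the final numeric step
  have hfin : ∀ J g' : ℝ, 0 ≤ g' → J ≤ 2 * (2 * Real.pi * (2 * g' + 2 * ‖R0‖ ^ 2 * K2)) +
      2 * ((C1 * (H : ℝ) ^ 4) ^ 2 * K) →
      J ≤ 8 * Real.pi * g' + (1 + 8 * Real.pi * C3 ^ 2 * K2 + 2 * C1 ^ 2 * K) * (H : ℝ) ^ 20 := by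
    intro J g' hg' hJ
    have hR2 : ‖R0‖ ^ 2 ≤ C3 ^ 2 * (H : ℝ) ^ 20 := by
      have h5 : ‖R0‖ ^ 2 ≤ (C3 * (H : ℝ) ^ 5) ^ 2 := pow_le_pow_left₀ (norm_nonneg _) hR0 2
      have h6 : (H : ℝ) ^ 10 ≤ (H : ℝ) ^ 20 := pow_le_pow_right₀ hH1 (by norm_num)
      have h7 : (C3 * (H : ℝ) ^ 5) ^ 2 = C3 ^ 2 * (H : ℝ) ^ 10 := by ring
      rw [h7] at h5
      exact h5.trans (mul_le_mul_of_nonneg_left h6 (by positivity))
    have h8 : (C1 * (H : ℝ) ^ 4) ^ 2 ≤ C1 ^ 2 * (H : ℝ) ^ 20 := by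
      have h6 : (H : ℝ) ^ 8 ≤ (H : ℝ) ^ 20 := pow_le_pow_right₀ hH1 (by norm_num)
      have h7 : (C1 * (H : ℝ) ^ 4) ^ 2 = C1 ^ 2 * (H : ℝ) ^ 8 := by ring
      rw [h7]
      exact mul_le_mul_of_nonneg_left h6 (by positivity)
    have h9 : 8 * Real.pi * ‖R0‖ ^ 2 * K2 ≤ 8 * Real.pi * (C3 ^ 2 * (H : ℝ) ^ 20) * K2 :=
      mul_le_mul_of_nonneg_right (mul_le_mul_of_nonneg_left hR2 (by positivity)) hK20
    have h10 : 2 * ((C1 * (H : ℝ) ^ 4) ^ 2 * K) ≤ 2 * (C1 ^ 2 * (H : ℝ) ^ 20 * K) :=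
      mul_le_mul_of_nonneg_left (mul_le_mul_of_nonneg_right h8 hK0) zero_le_two
    exact X_En_fin _ _ _ _ _ _ _ _ _ (pow_nonneg (zero_le_one.trans hH1) 20) h9
      (hJ.trans (add_le_add_right h10 _))
  refine ⟨fun X hX => ?_, ?_⟩
  · rw [hrA]
    have hcore := X_En_core hAi hA2 hei he2 (Ioc 0 X)
    have hAS : ∫ ξ in Ioc 0 X, ‖T_ft A ξ‖ ^ 2 =
        2 * Real.pi * ∫ x in Ioc c0 (Real.exp (2 * Real.pi * X - ψ)),
          ‖gg b H (lamF (ch χ1) (ch χ2)) ε x - R0 / (x : ℂ)‖ ^ 2 := by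
      simp only [hft]
      rw [integral_const_mul]
      rw [hch1 X hX]
      exact X_En_pi _
    have hmono : ∫ x in Ioc c0 (Real.exp (2 * Real.pi * X - ψ)),
          ‖gg b H (lamF (ch χ1) (ch χ2)) ε x - R0 / (x : ℂ)‖ ^ 2 ≤
        ∫ x in Ioc c0 (Real.exp (2 * Real.pi * X)),
          ‖gg b H (lamF (ch χ1) (ch χ2)) ε x - R0 / (x : ℂ)‖ ^ 2 := by
      refine setIntegral_mono_set (hGi.mono_set Ioc_subset_Ioi_self)
        (ae_of_all _ fun x => by positivity) (ae_of_all _ ?_)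
      exact Ioc_subset_Ioc_right (Real.exp_le_exp.2 (by linarith))
    have hb3 := hGS (Ioc c0 (Real.exp (2 * Real.pi * X))) Ioc_subset_Ioi_self measurableSet_Ioc
    refine hfin _ _ (setIntegral_nonneg measurableSet_Ioc fun x _ => by positivity) ?_
    rw [hAS] at hcore
    have h20 := mul_le_mul_of_nonneg_left (hmono.trans hb3) (by positivity : 0 ≤ 2 * Real.pi)
    linarith
  · rw [hrA]
    have hcore := X_En_core hAi hA2 hei he2 (Ioi 0)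
    have hAS : ∫ ξ in Ioi (0 : ℝ), ‖T_ft A ξ‖ ^ 2 =
        2 * Real.pi * ∫ x in Ioi c0,
          ‖gg b H (lamF (ch χ1) (ch χ2)) ε x - R0 / (x : ℂ)‖ ^ 2 := by
      simp only [hft]
      rw [integral_const_mul]
      rw [hch2]
      exact X_En_pi _
    have hb3 := hGS (Ioi c0) subset_rfl measurableSet_Ioi
    refine hfin _ _ (setIntegral_nonneg measurableSet_Ioi fun x _ => by positivity) ?_
    rw [hAS] at hcore
    have h20 := mul_le_mul_of_nonneg_left hb3 (by positivity : 0 ≤ 2 * Real.pi)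
    linarith

end OO

end
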