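import Pool.Agent.Lib.MP_0f5a55_nt.OM.K000
import Pool.Agent.Lib.MP_0f5a55_nt.OM.K036
import Pool.Agent.Lib.MP_0f5a55_nt.OM.K041
import Pool.Agent.Lib.MP_0f5a55_nt.OM.K044
import Pool.Agent.Lib.MP_0f5a55_nt.OM.K045

section

open Complex MeasureTheory Set Filter Topology
open scoped ComplexConjugate

namespace OO

variable {q1 q2 : ℕ}

/-- the function `N s = T_Gi s e^{iεs} E s φ(s) φ*(1-s) x^{-s}` on the strip -/
theorem T_Line3_N {E : ℂ → ℂ} (hEd : Differentiable ℂ E) {C1 : ℝ} (hC1 : 0 < C1)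
    (hEb : ∀ s : ℂ, 1/2 ≤ s.re → s.re ≤ 2 → ‖E s‖ ≤ C1 * (1 + |s.im|) ^ 4) (v : ℝ) :
    ∃ C : ℝ, 0 < C ∧ ∀ (b : ℕ → ℂ) (H : ℕ) (ε : ℝ), (∀ h, ‖b h‖ ≤ h) → 0 < ε → ε ≤ 1 / 10 →
      ∃ R : ℂ, ‖R‖ ≤ C * (H : ℝ) ^ 5 ∧ ∀ x : ℝ, 0 < x →
        Integrable (fun y : ℝ => (fun s => T_Gi s * exp ((ε : ℂ) * I * s) * E s * phi b H s *
          phi (fun n => conj (b n)) H (1 - s) * (x : ℂ) ^ (-s)) (1 / 2 + y * I) / (1 / 2 + y * I + v * I - 1)) ∧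
        Integrable (fun y : ℝ => (fun s => T_Gi s * exp ((ε : ℂ) * I * s) * E s * phi b H s *
          phi (fun n => conj (b n)) H (1 - s) * (x : ℂ) ^ (-s)) (2 + y * I) / (2 + y * I + v * I - 1)) ∧
        ∫ y : ℝ, (fun s => T_Gi s * exp ((ε : ℂ) * I * s) * E s * phi b H s *
          phi (fun n => conj (b n)) H (1 - s) * (x : ℂ) ^ (-s)) (2 + y * I) / (2 + y * I + v * I - 1) =
        (∫ y : ℝ, (fun s => T_Gi s * exp ((ε : ℂ) * I * s) * E s * phi b H s *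
          phi (fun n => conj (b n)) H (1 - s) * (x : ℂ) ^ (-s)) (1 / 2 + y * I) / (1 / 2 + y * I + v * I - 1)) +
          2 * Real.pi * (R * (x : ℂ) ^ (-(1 - v * I))) := by
  obtain ⟨-, hGd, C2, hC2, hGb⟩ := T_gi
  refine ⟨‖T_Gi (1 - v * I)‖ * Real.exp |v| * ‖E (1 - v * I)‖ + 1, by positivity, ?_⟩
  intro b H ε hb hε hε'
  obtain ⟨hp1, hp2, -, hpd1, hpd2⟩ := T_phi b H hb
  set φ2 : ℂ → ℂ := phi (fun n => conj (b n)) H with hφ2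
  refine ⟨T_Gi (1 - v * I) * exp ((ε : ℂ) * I * (1 - v * I)) * E (1 - v * I) * phi b H (1 - v * I) *
    φ2 (1 - (1 - v * I)), ?_, ?_⟩
  · have e1 : ‖exp ((ε : ℂ) * I * (1 - v * I))‖ ≤ Real.exp |v| := by
      rw [Complex.norm_exp]
      apply Real.exp_le_exp.2
      have : ((ε : ℂ) * I * (1 - v * I)).re = ε * v := by simp
      rw [this]
      have h1 := le_abs_self v
      have h2 := abs_nonneg v
      nlinarith
    have e2 := hp1 (1 - v * I) (by simp)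
    have e3 := hp2 (1 - v * I) (by simp)
    rw [norm_mul, norm_mul, norm_mul, norm_mul]
    have hH : (0 : ℝ) ≤ (H : ℝ) := Nat.cast_nonneg H
    calc ‖T_Gi (1 - v * I)‖ * ‖exp ((ε : ℂ) * I * (1 - v * I))‖ * ‖E (1 - v * I)‖ * ‖phi b H (1 - v * I)‖ *
          ‖φ2 (1 - (1 - v * I))‖
        ≤ ‖T_Gi (1 - v * I)‖ * Real.exp |v| * ‖E (1 - v * I)‖ * (H : ℝ) ^ 2 * (H : ℝ) ^ 3 := by gcongr
      _ = (‖T_Gi (1 - v * I)‖ * Real.exp |v| * ‖E (1 - v * I)‖) * (H : ℝ) ^ 5 := by ring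
      _ ≤ _ := by gcongr; linarith
  intro x hx
  have hxc : (x : ℂ) ≠ 0 := by exact_mod_cast hx.ne'
  set N : ℂ → ℂ := fun s => T_Gi s * exp ((ε : ℂ) * I * s) * E s * phi b H s * φ2 (1 - s) * (x : ℂ) ^ (-s) with hN
  have hNd : ∀ s : ℂ, 1 / 2 ≤ s.re → s.re ≤ 2 → DifferentiableAt ℂ N s := by
    intro s hs1 _
    have d1 := (hGd s (by linarith)).1
    have d2 : DifferentiableAt ℂ (fun s : ℂ => exp ((ε : ℂ) * I * s)) s := by fun_prop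
    have d3 : DifferentiableAt ℂ E s := hEd s
    have d4 : DifferentiableAt ℂ (phi b H) s := hpd1 s
    have d5 : DifferentiableAt ℂ (fun s : ℂ => φ2 (1 - s)) s :=
      (hpd2 (1 - s)).comp s ((differentiableAt_const 1).sub differentiableAt_id)
    have d6 : DifferentiableAt ℂ (fun s : ℂ => (x : ℂ) ^ (-s)) s :=
      (differentiableAt_id.neg).const_cpow (Or.inl hxc)
    exact ((((d1.mul d2).mul d3).mul d4).mul d5).mul d6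
  have hNb : ∀ s : ℂ, 1 / 2 ≤ s.re → s.re ≤ 2 →
      ‖N s‖ ≤ (C2 * C1 * (H : ℝ) ^ 5 * (x ^ (-(1 / 2) : ℝ) + x ^ (-2 : ℝ))) * (1 + |s.im|) ^ 8 *
        Real.exp (-(ε * |s.im|)) := by
    intro s hs1 hs2
    have b1 := hGb s hs1 hs2
    have b2 : ‖exp ((ε : ℂ) * I * s)‖ = Real.exp (-(ε * s.im)) := by
      rw [Complex.norm_exp]; congr 1; simp
    have b3 := hEb s hs1 hs2
    have b4 := hp1 s (by linarith)
    have b5 := hp2 s hs2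
    have b6 : ‖(x : ℂ) ^ (-s)‖ ≤ x ^ (-(1 / 2) : ℝ) + x ^ (-2 : ℝ) := by
      rw [Complex.norm_cpow_eq_rpow_re_of_pos hx, Complex.neg_re]
      rcases le_total x 1 with h | h
      · have := Real.rpow_le_rpow_of_exponent_ge hx h (show (-2 : ℝ) ≤ -s.re by linarith)
        have h0 := Real.rpow_pos_of_pos hx (-(1 / 2) : ℝ)
        linarith
      · have := Real.rpow_le_rpow_of_exponent_le h (show -s.re ≤ (-(1 / 2) : ℝ) by linarith)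
        have h0 := Real.rpow_pos_of_pos hx (-2 : ℝ)
        linarith
    have b7 : Real.exp (Real.pi / 2 * s.im - Real.pi / 2 * |s.im|) * Real.exp (-(ε * s.im)) ≤
        Real.exp (-(ε * |s.im|)) := by
      rw [← Real.exp_add]
      apply Real.exp_le_exp.mpr
      have hpi := Real.pi_gt_three
      rcases abs_cases s.im with ⟨h, h'⟩ | ⟨h, h'⟩
      · rw [h]; linarith
      · rw [h]
        have hpe : 2 * ε ≤ Real.pi := by linarith only [hpi, hε']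
        have hm := mul_nonneg_of_nonpos_of_nonpos (sub_nonpos.2 hpe) h'.le
        linarith only [hm]
    have hP : (1 : ℝ) ≤ 1 + |s.im| := by have := abs_nonneg s.im; linarith
    have b8 : (1 + |s.im|) ^ 7 ≤ (1 + |s.im|) ^ 8 := pow_le_pow_right₀ hP (by norm_num)
    have hX0 : 0 ≤ x ^ (-(1 / 2) : ℝ) + x ^ (-2 : ℝ) := by positivity
    have hH : (0 : ℝ) ≤ (H : ℝ) := Nat.cast_nonneg H
    calc ‖N s‖ = ‖T_Gi s‖ * ‖exp ((ε : ℂ) * I * s)‖ * ‖E s‖ * ‖phi b H s‖ * ‖φ2 (1 - s)‖ * ‖(x : ℂ) ^ (-s)‖ := by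
          simp only [hN, norm_mul]
      _ ≤ (C2 * (1 + |s.im|) ^ 3 * Real.exp (Real.pi / 2 * s.im - Real.pi / 2 * |s.im|)) *
            Real.exp (-(ε * s.im)) * (C1 * (1 + |s.im|) ^ 4) * (H : ℝ) ^ 2 * (H : ℝ) ^ 3 *
            (x ^ (-(1 / 2) : ℝ) + x ^ (-2 : ℝ)) := by
          rw [b2]
          have m1 := mul_le_mul_of_nonneg_right b1 (Real.exp_pos (-(ε * s.im))).le
          have m2 := mul_le_mul m1 b3 (norm_nonneg _) ((mul_nonneg (norm_nonneg _) (Real.exp_pos _).le).trans m1)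
          have m3 := mul_le_mul m2 b4 (norm_nonneg _) ((mul_nonneg (mul_nonneg (norm_nonneg _) (Real.exp_pos _).le)
            (norm_nonneg _)).trans m2)
          have m4 := mul_le_mul m3 b5 (norm_nonneg _) ((mul_nonneg (mul_nonneg (mul_nonneg (norm_nonneg _)
            (Real.exp_pos _).le) (norm_nonneg _)) (norm_nonneg _)).trans m3)
          exact mul_le_mul m4 b6 (norm_nonneg _) ((mul_nonneg (mul_nonneg (mul_nonneg (mul_nonneg (norm_nonneg _)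
            (Real.exp_pos _).le) (norm_nonneg _)) (norm_nonneg _)) (norm_nonneg _)).trans m4)
      _ = (C2 * C1 * (H : ℝ) ^ 5 * (x ^ (-(1 / 2) : ℝ) + x ^ (-2 : ℝ))) * (1 + |s.im|) ^ 7 *
            (Real.exp (Real.pi / 2 * s.im - Real.pi / 2 * |s.im|) * Real.exp (-(ε * s.im))) := by ring
      _ ≤ _ := mul_le_mul (mul_le_mul_of_nonneg_left b8 (mul_nonneg (mul_nonneg (mul_nonneg hC2.le hC1.le)
            (pow_nonneg hH 5)) hX0)) b7 (mul_nonneg (Real.exp_pos _).le (Real.exp_pos _).le)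
            (mul_nonneg (mul_nonneg (mul_nonneg (mul_nonneg hC2.le hC1.le) (pow_nonneg hH 5)) hX0)
            (pow_nonneg (zero_le_one.trans hP) 8))
  have hsh := T_shift3 (N := N) (a := 1 / 2) (b := 2) v (by norm_num) (by norm_num) hNd hε hNb
  have c1 : (((1 / 2 : ℝ)) : ℂ) = 1 / 2 := by push_cast; ring
  have c2 : (((2 : ℝ)) : ℂ) = 2 := by push_cast; ring
  rw [c1, c2] at hsh
  exact hsh

/-- `g` as an inverse Mellin transform on the critical line, with two residues -/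
theorem T_gg_line3 [NeZero q1] [NeZero q2] (χ1 : DirichletCharacter ℂ q1) (χ2 : DirichletCharacter ℂ q2) (v : ℝ)
    (hne : NeX χ1 v χ2 (-v)) : ∃ C : ℝ, 0 < C ∧ ∀ (b : ℕ → ℂ) (H : ℕ) (ε : ℝ), (∀ h, ‖b h‖ ≤ h) → 0 < ε → ε ≤ 1 / 10 →
      ∃ R1 R2 : ℂ, ‖R1‖ ≤ C * (H : ℝ) ^ 5 ∧ ‖R2‖ ≤ C * (H : ℝ) ^ 5 ∧ ∀ x : ℝ, 0 < x →
        ∫ t : ℝ, MM3 χ1 χ2 v b H ε (1 / 2 + t * I) * (x : ℂ) ^ (-(1 / 2 + t * I : ℂ)) =
          2 * Real.pi * (gg b H (lamF (chx χ1 v) (chx χ2 (-v))) ε x -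
            (R1 * (x : ℂ) ^ (-(1 - v * I)) + R2 * (x : ℂ) ^ (-(1 + v * I)))) := by
  obtain ⟨E1, E2, hE1, hE2, hEe, C0, hC0, hEb⟩ := T_ent3 χ1 χ2 v hne
  obtain ⟨Ca, hCa, ha⟩ := T_Line3_N hE1 hC0 (fun s h1 h2 => (hEb s h1 h2).1) v
  obtain ⟨Cb, hCb, hb'⟩ := T_Line3_N hE2 hC0 (fun s h1 h2 => (hEb s h1 h2).2) (-v)
  refine ⟨Ca + Cb, by positivity, ?_⟩
  intro b H ε hb hε hε'
  obtain ⟨R1, hR1, H1⟩ := ha b H ε hb hε hε'
  obtain ⟨R2, hR2, H2⟩ := hb' b H ε hb hε hε'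
  have hH5 : (0 : ℝ) ≤ (H : ℝ) ^ 5 := by positivity
  refine ⟨R1, R2, hR1.trans (by nlinarith), hR2.trans (by nlinarith), ?_⟩
  intro x hx
  obtain ⟨i1, i2, e1⟩ := H1 x hx
  obtain ⟨j1, j2, e2⟩ := H2 x hx
  -- pointwise identity
  have hNM : ∀ s : ℂ, s + v * I ≠ 1 → s - v * I ≠ 1 →
      (fun s => T_Gi s * exp ((ε : ℂ) * I * s) * E1 s * phi b H s *
          phi (fun n => conj (b n)) H (1 - s) * (x : ℂ) ^ (-s)) s / (s + v * I - 1) +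
      (fun s => T_Gi s * exp ((ε : ℂ) * I * s) * E2 s * phi b H s *
          phi (fun n => conj (b n)) H (1 - s) * (x : ℂ) ^ (-s)) s / (s + ((-v : ℝ) : ℂ) * I - 1) =
      MM3 χ1 χ2 v b H ε s * (x : ℂ) ^ (-s) := by
    intro s hs1 hs2
    have hs1' : s + v * I - 1 ≠ 0 := sub_ne_zero.mpr hs1
    have hs2' : s - v * I - 1 ≠ 0 := sub_ne_zero.mpr hs2
    have e3 : exp (-(((Real.pi / 2 : ℝ) : ℂ) * I * s)) * exp ((ε : ℂ) * I * s) =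
        exp (-(((Real.pi / 2 - ε : ℝ) : ℂ) * I * s)) := by
      rw [← Complex.exp_add]; congr 1; push_cast; ring
    have e4 : s + ((-v : ℝ) : ℂ) * I - 1 = s - v * I - 1 := by push_cast; ring
    simp only [MM3]
    rw [hEe s hs1 hs2, ← e3, T_Gi, e4]
    ring
  have n2 : ∀ y : ℝ, (2 : ℂ) + y * I + v * I ≠ 1 ∧ (2 : ℂ) + y * I - v * I ≠ 1 := by
    intro y
    constructor <;>
    · intro h
      have := congrArg Complex.re h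
      simp at this
  have f1 : ∀ y : ℝ, MM3 χ1 χ2 v b H ε (1 / 2 + y * I) * (x : ℂ) ^ (-(1 / 2 + y * I : ℂ)) =
      (fun s => T_Gi s * exp ((ε : ℂ) * I * s) * E1 s * phi b H s *
          phi (fun n => conj (b n)) H (1 - s) * (x : ℂ) ^ (-s)) (1 / 2 + y * I) / (1 / 2 + y * I + v * I - 1) +
      (fun s => T_Gi s * exp ((ε : ℂ) * I * s) * E2 s * phi b H s *
          phi (fun n => conj (b n)) H (1 - s) * (x : ℂ) ^ (-s)) (1 / 2 + y * I) /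
            (1 / 2 + y * I + ((-v : ℝ) : ℂ) * I - 1) := fun y =>
    (hNM _ (T_MMl3_ne y v).1 (T_MMl3_ne y v).2).symm
  have f2 : ∀ y : ℝ, MM3 χ1 χ2 v b H ε (2 + y * I) * (x : ℂ) ^ (-(2 + y * I : ℂ)) =
      (fun s => T_Gi s * exp ((ε : ℂ) * I * s) * E1 s * phi b H s *
          phi (fun n => conj (b n)) H (1 - s) * (x : ℂ) ^ (-s)) (2 + y * I) / (2 + y * I + v * I - 1) +
      (fun s => T_Gi s * exp ((ε : ℂ) * I * s) * E2 s * phi b H s *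
          phi (fun n => conj (b n)) H (1 - s) * (x : ℂ) ^ (-s)) (2 + y * I) /
            (2 + y * I + ((-v : ℝ) : ℂ) * I - 1) := fun y =>
    (hNM _ (n2 y).1 (n2 y).2).symm
  have hinv := (T_inv_gg3 χ1 χ2 v b H ε hε hε' x hx).2
  simp only [f2] at hinv
  rw [integral_add i2 j2, e1, e2] at hinv
  simp only [f1]
  rw [integral_add i1 j1]
  have e5 : (x : ℂ) ^ (-(1 - ((-v : ℝ) : ℂ) * I)) = (x : ℂ) ^ (-(1 + v * I)) := by
    congr 1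
    push_cast
    ring
  rw [e5] at hinv
  linear_combination hinv

end OO

end

section

open Complex MeasureTheory Set Filter Topology
open scoped ComplexConjugate

namespace OO

variable {q1 q2 : ℕ}

/-- the transform of `m`, shifted -/
theorem X_ftm3 (m G : ℝ → ℂ) (u : ℂ) (hu : ‖u‖ = 1)
    (h : ∀ x : ℝ, 0 < x → ∫ t : ℝ, m t * (x : ℂ) ^ (-(1 / 2 + t * I : ℂ)) = 2 * Real.pi * G x) (ψ ξ : ℝ) :
    ‖T_ft (fun t => u * exp (((ψ * t : ℝ) : ℂ) * I) * m t) ξ‖ ^ 2 =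
      4 * Real.pi ^ 2 * (Real.exp (2 * Real.pi * ξ - ψ) * ‖G (Real.exp (2 * Real.pi * ξ - ψ))‖ ^ 2) := by
  set y : ℝ := 2 * Real.pi * ξ - ψ with hy
  have hx : 0 < Real.exp y := Real.exp_pos y
  have hpow : ∀ t : ℝ, ((Real.exp y : ℝ) : ℂ) ^ (-(1 / 2 + t * I : ℂ)) =
      exp (((-(y / 2) : ℝ) : ℂ)) * exp (((-(t * y) : ℝ) : ℂ) * I) := by
    intro t
    rw [cpow_def_of_ne_zero (by exact_mod_cast hx.ne'), ← ofReal_log hx.le, Real.log_exp, ← exp_add]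
    congr 1
    push_cast
    ring
  have hint : ∀ t : ℝ, exp (((-(2 * Real.pi * t * ξ) : ℝ) : ℂ) * I) *
      (u * exp (((ψ * t : ℝ) : ℂ) * I) * m t) =
      (u * exp (((y / 2 : ℝ) : ℂ))) * (m t * ((Real.exp y : ℝ) : ℂ) ^ (-(1 / 2 + t * I : ℂ))) := by
    intro t
    rw [hpow]
    have e1 : exp (((-(2 * Real.pi * t * ξ) : ℝ) : ℂ) * I) * exp (((ψ * t : ℝ) : ℂ) * I) =
        exp (((y / 2 : ℝ) : ℂ)) * (exp (((-(y / 2) : ℝ) : ℂ)) * exp (((-(t * y) : ℝ) : ℂ) * I)) := by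
      rw [← exp_add, ← exp_add, ← exp_add]
      congr 1
      rw [hy]
      push_cast
      ring
    linear_combination (u * m t) * e1
  have hval : T_ft (fun t => u * exp (((ψ * t : ℝ) : ℂ) * I) * m t) ξ =
      (u * exp (((y / 2 : ℝ) : ℂ))) * (2 * Real.pi * G (Real.exp y)) := by
    unfold T_ft
    rw [integral_congr_ae (Filter.Eventually.of_forall hint), integral_const_mul, h _ hx]
  rw [hval, norm_mul, norm_mul, hu, one_mul, mul_pow, norm_mul, mul_pow]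
  have e2 : ‖exp (((y / 2 : ℝ) : ℂ))‖ ^ 2 = Real.exp y := by
    rw [norm_exp, ofReal_re, ← Real.exp_nat_mul]
    congr 1
    push_cast
    ring
  have e3 : ‖(2 * Real.pi : ℂ)‖ ^ 2 = 4 * Real.pi ^ 2 := by
    have : (2 * Real.pi : ℂ) = ((2 * Real.pi : ℝ) : ℂ) := by push_cast; ring
    rw [this, norm_real, Real.norm_of_nonneg (by positivity)]
    ring
  rw [e2, e3]
  ring

/-- the residue terms are `O(1/x)` -/
theorem X_En3_res {v x : ℝ} (hx : 0 < x) (R1 R2 : ℂ) :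
    ‖R1 * (x : ℂ) ^ (-(1 - v * I)) + R2 * (x : ℂ) ^ (-(1 + v * I))‖ ≤ (‖R1‖ + ‖R2‖) * x⁻¹ := by
  have e1 : ‖(x : ℂ) ^ (-(1 - v * I))‖ = x⁻¹ := by
    rw [Complex.norm_cpow_eq_rpow_re_of_pos hx]
    have : (-(1 - (v : ℂ) * I)).re = -1 := by simp
    rw [this, Real.rpow_neg_one]
  have e2 : ‖(x : ℂ) ^ (-(1 + v * I))‖ = x⁻¹ := by
    rw [Complex.norm_cpow_eq_rpow_re_of_pos hx]
    have : (-(1 + (v : ℂ) * I)).re = -1 := by simp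
    rw [this, Real.rpow_neg_one]
  refine (norm_add_le _ _).trans ?_
  rw [norm_mul, norm_mul, e1, e2]
  linarith

theorem X_En3_gg {g ρ : ℝ → ℂ} {R c0 : ℝ} (hc0 : 0 < c0) (hgc : ContinuousOn g (Ioi 0))
    (hρc : ContinuousOn ρ (Ioi 0)) (hρ : ∀ x, 0 < x → ‖ρ x‖ ≤ R * x⁻¹)
    (hg : IntegrableOn (fun x => ‖g x‖ ^ 2) (Ioi c0)) :
    IntegrableOn (fun x : ℝ => ‖g x - ρ x‖ ^ 2) (Ioi c0) ∧
    ∀ S : Set ℝ, S ⊆ Ioi c0 → MeasurableSet S → ∫ x in S, ‖g x - ρ x‖ ^ 2 ≤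
      2 * (∫ x in S, ‖g x‖ ^ 2) + 2 * R ^ 2 * ∫ x in Ioi c0, x ^ (-2 : ℝ) := by
  have hsub : Ioi c0 ⊆ Ioi (0 : ℝ) := Ioi_subset_Ioi hc0.le
  have hp : IntegrableOn (fun x : ℝ => x ^ (-2 : ℝ)) (Ioi c0) :=
    integrableOn_Ioi_rpow_of_lt (by norm_num) hc0
  have hptw : ∀ x ∈ Ioi c0, ‖g x - ρ x‖ ^ 2 ≤ 2 * ‖g x‖ ^ 2 + 2 * R ^ 2 * x ^ (-2 : ℝ) := by
    intro x hx
    have hx0 : 0 < x := hsub hx
    have h1 : x ^ (-2 : ℝ) = (x⁻¹) ^ 2 := by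
      rw [Real.rpow_neg hx0.le]
      norm_num
    have h2 : ‖ρ x‖ ^ 2 ≤ R ^ 2 * x ^ (-2 : ℝ) := by
      rw [h1, ← mul_pow]
      exact pow_le_pow_left₀ (norm_nonneg _) (hρ x hx0) 2
    have h3 := norm_sub_le (g x) (ρ x)
    have h4 := X_En_sq (norm_nonneg _) h3
    linarith
  have hd : IntegrableOn (fun x : ℝ => 2 * ‖g x‖ ^ 2 + 2 * R ^ 2 * x ^ (-2 : ℝ)) (Ioi c0) :=
    (hg.const_mul 2).add (hp.const_mul _)
  have hcont : ContinuousOn (fun x : ℝ => ‖g x - ρ x‖ ^ 2) (Ioi c0) :=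
    ContinuousOn.pow (ContinuousOn.norm (ContinuousOn.sub (hgc.mono hsub) (hρc.mono hsub))) 2
  refine ⟨?_, ?_⟩
  · refine Integrable.mono' hd (hcont.aestronglyMeasurable measurableSet_Ioi) ?_
    refine (ae_restrict_mem measurableSet_Ioi).mono fun x hx => ?_
    rw [Real.norm_of_nonneg (by positivity)]
    exact hptw x hx
  · intro S hS hSm
    have h1 : ∫ x in S, ‖g x - ρ x‖ ^ 2 ≤
        ∫ x in S, (2 * ‖g x‖ ^ 2 + 2 * R ^ 2 * x ^ (-2 : ℝ)) := by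
      refine integral_mono_of_nonneg (ae_of_all _ fun ξ => by positivity) (hd.mono_set hS) ?_
      exact (ae_restrict_mem hSm).mono fun x hx => hptw x (hS hx)
    have h2 : ∫ x in S, (2 * ‖g x‖ ^ 2 + 2 * R ^ 2 * x ^ (-2 : ℝ)) =
        2 * (∫ x in S, ‖g x‖ ^ 2) + 2 * R ^ 2 * ∫ x in S, x ^ (-2 : ℝ) := by
      rw [integral_add ((hg.mono_set hS).const_mul 2) ((hp.mono_set hS).const_mul _),
        integral_const_mul, integral_const_mul]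
    have h3 : ∫ x in S, x ^ (-2 : ℝ) ≤ ∫ x in Ioi c0, x ^ (-2 : ℝ) := by
      refine setIntegral_mono_set hp ?_ (ae_of_all _ hS)
      exact (ae_restrict_mem measurableSet_Ioi).mono fun x hx =>
        Real.rpow_nonneg (le_of_lt (hsub hx)) _
    have h4 : 2 * R ^ 2 * ∫ x in S, x ^ (-2 : ℝ) ≤
        2 * R ^ 2 * ∫ x in Ioi c0, x ^ (-2 : ℝ) :=
      mul_le_mul_of_nonneg_left h3 (by positivity)
    linarith

theorem X_en3_fast_num {P g' K2 R2 C3 Ce Z E J : ℝ} (hP : 0 ≤ P) (hK : 0 ≤ K2) (hZ : 0 ≤ Z)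
    (hR : R2 ≤ 4 * C3 ^ 2 * Z) (hE : E ≤ Ce * Z)
    (hJ : J ≤ 2 * (2 * P * (2 * g' + 2 * R2 * K2)) + 2 * E) :
    J ≤ 8 * P * g' + (1 + 32 * P * C3 ^ 2 * K2 + 2 * Ce) * Z := by
  have h1 : (8 * P * K2) * R2 ≤ (8 * P * K2) * (4 * C3 ^ 2 * Z) :=
    mul_le_mul_of_nonneg_left hR (mul_nonneg (mul_nonneg (by norm_num) hP) hK)
  linarith only [h1, hJ, hE, hZ]

theorem X_en3_fast_core {r m g ρ : ℝ → ℂ} {u : ℂ} {ψ R C3 Ce Z : ℝ} (hu : ‖u‖ = 1) (hψ : 0 ≤ ψ)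
    (hmc : Continuous m) (hmi : Integrable m) (hm2 : Integrable (fun t => ‖m t‖ ^ 2))
    (hei : Integrable (fun t : ℝ => r t - u * exp (((ψ * t : ℝ) : ℂ) * I) * m t))
    (he2 : Integrable (fun t : ℝ => ‖r t - u * exp (((ψ * t : ℝ) : ℂ) * I) * m t‖ ^ 2))
    (heZ : (∫ t : ℝ, ‖r t - u * exp (((ψ * t : ℝ) : ℂ) * I) * m t‖ ^ 2) ≤ Ce * Z)
    (hRx : ∀ x : ℝ, 0 < x → ∫ t : ℝ, m t * (x : ℂ) ^ (-(1 / 2 + t * I : ℂ)) =
      2 * Real.pi * (g x - ρ x))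
    (hgc : ContinuousOn g (Ioi 0)) (hρc : ContinuousOn ρ (Ioi 0))
    (hρb : ∀ x, 0 < x → ‖ρ x‖ ≤ R * x⁻¹)
    (hg : IntegrableOn (fun x => ‖g x‖ ^ 2) (Ioi (Real.exp (-ψ))))
    (hZ : 0 ≤ Z) (hR : R ^ 2 ≤ 4 * C3 ^ 2 * Z) :
    (∀ X : ℝ, 0 < X → (∫ ξ in Ioc 0 X, ‖T_ft r ξ‖ ^ 2) ≤
      8 * Real.pi * (∫ x in Ioc (Real.exp (-ψ)) (Real.exp (2 * Real.pi * X)), ‖g x‖ ^ 2) +
        (1 + 32 * Real.pi * C3 ^ 2 * (∫ x in Ioi (Real.exp (-ψ)), x ^ (-2 : ℝ)) + 2 * Ce) * Z) ∧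
    (∫ ξ in Ioi (0 : ℝ), ‖T_ft r ξ‖ ^ 2) ≤
      8 * Real.pi * (∫ x in Ioi (Real.exp (-ψ)), ‖g x‖ ^ 2) +
        (1 + 32 * Real.pi * C3 ^ 2 * (∫ x in Ioi (Real.exp (-ψ)), x ^ (-2 : ℝ)) + 2 * Ce) * Z := by
  have hpi := Real.pi_pos
  have hc0p : 0 < Real.exp (-ψ) := Real.exp_pos _
  have hK20 : 0 ≤ ∫ x in Ioi (Real.exp (-ψ)), x ^ (-2 : ℝ) :=
    setIntegral_nonneg measurableSet_Ioi fun x hx => Real.rpow_nonneg (hc0p.trans hx).le _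
  obtain ⟨Am, hAm⟩ : ∃ Am : ℝ → ℂ, Am = fun t => u * exp (((ψ * t : ℝ) : ℂ) * I) * m t := ⟨_, rfl⟩
  obtain ⟨e, he⟩ : ∃ e : ℝ → ℂ, e = fun t => r t - u * exp (((ψ * t : ℝ) : ℂ) * I) * m t := ⟨_, rfl⟩
  have hrA : r = fun t => Am t + e t := by
    funext t
    rw [hAm, he]
    exact (add_sub_cancel _ _).symm
  have hAn : ∀ t, ‖Am t‖ = ‖m t‖ := by
    intro t
    rw [hAm]
    show ‖u * exp (((ψ * t : ℝ) : ℂ) * I) * m t‖ = ‖m t‖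
    rw [norm_mul, norm_mul, hu, Complex.norm_exp_ofReal_mul_I, one_mul, one_mul]
  have hAc : Continuous Am := by
    rw [hAm]
    exact (continuous_const.mul (Complex.continuous_exp.comp ((Complex.continuous_ofReal.comp
      (continuous_const.mul continuous_id)).mul continuous_const))).mul hmc
  have hAi : Integrable Am := hmi.mono hAc.aestronglyMeasurable (ae_of_all _ fun t => (hAn t).le)
  have hA2 : Integrable (fun t => ‖Am t‖ ^ 2) := by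
    have : (fun t => ‖Am t‖ ^ 2) = fun t => ‖m t‖ ^ 2 := funext fun t => by rw [hAn]
    rw [this]; exact hm2
  obtain ⟨hGi, hGS⟩ := X_En3_gg hc0p hgc hρc hρb hg
  obtain ⟨hch1, hch2, _⟩ := X_chg (fun x => ‖g x - ρ x‖ ^ 2) ψ
  have hft : ∀ ξ, ‖T_ft Am ξ‖ ^ 2 = 4 * Real.pi ^ 2 * (Real.exp (2 * Real.pi * ξ - ψ) *
        ‖g (Real.exp (2 * Real.pi * ξ - ψ)) - ρ (Real.exp (2 * Real.pi * ξ - ψ))‖ ^ 2) := by
    intro ξ
    rw [hAm]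
    exact X_ftm3 m (fun x => g x - ρ x) u hu hRx ψ ξ
  rw [← he] at hei
  have he2' : Integrable (fun t => ‖e t‖ ^ 2) := by rw [he]; exact he2
  have heZ' : (∫ t, ‖e t‖ ^ 2) ≤ Ce * Z := by rw [he]; exact heZ
  have hkey : ∀ S S' T : Set ℝ, S' ⊆ T → T ⊆ Ioi (Real.exp (-ψ)) → MeasurableSet T →
      (∫ ξ in S, Real.exp (2 * Real.pi * ξ - ψ) *
        ‖g (Real.exp (2 * Real.pi * ξ - ψ)) - ρ (Real.exp (2 * Real.pi * ξ - ψ))‖ ^ 2) =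
        (2 * Real.pi)⁻¹ * ∫ x in S', ‖g x - ρ x‖ ^ 2 →
      (∫ ξ in S, ‖T_ft r ξ‖ ^ 2) ≤ 8 * Real.pi * (∫ x in T, ‖g x‖ ^ 2) +
        (1 + 32 * Real.pi * C3 ^ 2 * (∫ x in Ioi (Real.exp (-ψ)), x ^ (-2 : ℝ)) + 2 * Ce) * Z := by
    intro S S' T hST hT hTm hch
    have hcore := X_En_core hAi hA2 hei he2' S
    rw [← hrA, integral_congr_ae (ae_of_all _ hft), integral_const_mul, hch, X_En_pi] at hcore
    have hmono : ∫ x in S', ‖g x - ρ x‖ ^ 2 ≤ ∫ x in T, ‖g x - ρ x‖ ^ 2 :=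
      setIntegral_mono_set (hGi.mono_set hT) (ae_of_all _ fun x => sq_nonneg _) (ae_of_all _ hST)
    have hb3 := hmono.trans (hGS T hT hTm)
    refine X_en3_fast_num hpi.le hK20 hZ hR heZ' (hcore.trans ?_)
    exact add_le_add (mul_le_mul_of_nonneg_left (mul_le_mul_of_nonneg_left hb3
      (mul_nonneg zero_le_two hpi.le)) zero_le_two) le_rfl
  refine ⟨fun X hX => ?_, ?_⟩
  · exact hkey (Ioc 0 X) (Ioc (Real.exp (-ψ)) (Real.exp (2 * Real.pi * X - ψ))) _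
      (Ioc_subset_Ioc_right (Real.exp_le_exp.2 (sub_le_self _ hψ))) Ioc_subset_Ioi_self
      measurableSet_Ioc (hch1 X hX)
  · exact hkey (Ioi 0) (Ioi (Real.exp (-ψ))) _ subset_rfl subset_rfl measurableSet_Ioi hch2

theorem X_en3_fast_u {c : ℂ} {ε : ℝ} (hc : ‖c‖ = 1) : ‖c * exp (-((ε / 2 : ℝ) * I))‖ = 1 := by
  rw [norm_mul, hc, one_mul, ← neg_mul, ← ofReal_neg]
  exact Complex.norm_exp_ofReal_mul_I _

theorem X_en3_fast_psi [NeZero q1] [NeZero q2] : 0 ≤ T_psi q1 q2 := by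
  unfold T_psi
  have ha : (1 : ℝ) ≤ (q1 : ℝ) := Nat.one_le_cast.2 (Nat.one_le_iff_ne_zero.2 (NeZero.ne q1))
  have hb : (1 : ℝ) ≤ (q2 : ℝ) := Nat.one_le_cast.2 (Nat.one_le_iff_ne_zero.2 (NeZero.ne q2))
  have h1 : (1 : ℝ) ≤ (q1 : ℝ) * q2 := one_le_mul_of_one_le_of_one_le ha hb
  have := Real.log_nonneg h1
  linarith only [this]

theorem X_en3_fast_rho {v : ℝ} {R1 R2 : ℂ} :
    ContinuousOn (fun x : ℝ => R1 * (x : ℂ) ^ (-(1 - v * I)) + R2 * (x : ℂ) ^ (-(1 + v * I)))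
      (Ioi 0) := by
  have hk : ∀ w : ℂ, ContinuousOn (fun x : ℝ => (x : ℂ) ^ w) (Ioi 0) := by
    intro w x hx
    exact (continuousAt_ofReal_cpow_const x w (Or.inr (ne_of_gt hx))).continuousWithinAt
  exact (continuousOn_const.mul (hk _)).add (continuousOn_const.mul (hk _))

theorem X_en3_fast_Z {C3 Hr A I0 : ℝ} (hH : 1 ≤ Hr) (hA : 1 ≤ A) (hI : 0 ≤ I0) :
    0 ≤ A ^ 20 * Hr ^ 20 + A⁻¹ ^ 2 * I0 ∧
    (2 * C3 * Hr ^ 5) ^ 2 ≤ 4 * C3 ^ 2 * (A ^ 20 * Hr ^ 20 + A⁻¹ ^ 2 * I0) := by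
  have h0 : 0 ≤ A := zero_le_one.trans hA
  have h6 : Hr ^ 10 ≤ Hr ^ 20 := pow_le_pow_right₀ hH (by norm_num)
  have h5 : 0 ≤ Hr ^ 20 := pow_nonneg (zero_le_one.trans hH) 20
  have h8 : Hr ^ 20 ≤ A ^ 20 * Hr ^ 20 := le_mul_of_one_le_left h5 (one_le_pow₀ hA)
  have h9 : 0 ≤ A⁻¹ ^ 2 * I0 := mul_nonneg (sq_nonneg _) hI
  have h10 : Hr ^ 10 ≤ A ^ 20 * Hr ^ 20 + A⁻¹ ^ 2 * I0 :=
    h6.trans (h8.trans (le_add_of_nonneg_right h9))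
  refine ⟨add_nonneg (h5.trans h8) h9, ?_⟩
  have h11 := mul_le_mul_of_nonneg_left h10 (mul_nonneg (by norm_num : (0 : ℝ) ≤ 4) (sq_nonneg C3))
  have h12 : (2 * C3 * Hr ^ 5) ^ 2 = 4 * C3 ^ 2 * Hr ^ 10 := by ring
  rw [h12]; exact h11

theorem X_en3_fast_pos {P C3 K2 Ce : ℝ} (hP : 0 < P) (hK : 0 ≤ K2) (hCe : 0 < Ce) :
    0 < 1 + 32 * P * C3 ^ 2 * K2 + 2 * Ce := by positivity

/-- the energy of the transform of `r` in terms of `g` -/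
theorem X_en3 [NeZero q1] [NeZero q2] (χ1 : DirichletCharacter ℂ q1) (χ2 : DirichletCharacter ℂ q2)
    (v : ℝ) (hne : NeX χ1 v χ2 (-v)) (gr : ℝ → ℂ) (hgr : T_hroot3 v gr) (c : ℂ) (hc : T_good3 c χ1 χ2 v gr) :
    ∃ C : ℝ, 0 < C ∧ ∀ (b : ℕ → ℂ) (H : ℕ) (ε : ℝ), 1 ≤ H → (∀ h, ‖b h‖ ≤ h) → 0 < ε → ε ≤ 1 / 10 →
      ContinuousOn (gg b H (lamF (chx χ1 v) (chx χ2 (-v))) ε) (Ioi 0) →
      IntegrableOn (fun x => ‖gg b H (lamF (chx χ1 v) (chx χ2 (-v))) ε x‖ ^ 2) (Ioi (Real.exp (-T_psi q1 q2))) →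
      ∀ A : ℝ, 1 ≤ A →
      (∀ X : ℝ, 0 < X → (∫ ξ in Ioc 0 X, ‖T_ft (fun t => (T_r3 c χ1 χ2 v gr b H ε t : ℂ)) ξ‖ ^ 2) ≤
        8 * Real.pi * (∫ x in Ioc (Real.exp (-T_psi q1 q2)) (Real.exp (2 * Real.pi * X)),
          ‖gg b H (lamF (chx χ1 v) (chx χ2 (-v))) ε x‖ ^ 2) +
          C * (A ^ 20 * (H : ℝ) ^ 20 + A⁻¹ ^ 2 * ∫ t : ℝ, T_r3 c χ1 χ2 v gr b H ε t ^ 2)) ∧
      (∫ ξ in Ioi (0 : ℝ), ‖T_ft (fun t => (T_r3 c χ1 χ2 v gr b H ε t : ℂ)) ξ‖ ^ 2) ≤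
        8 * Real.pi * (∫ x in Ioi (Real.exp (-T_psi q1 q2)), ‖gg b H (lamF (chx χ1 v) (chx χ2 (-v))) ε x‖ ^ 2) +
          C * (A ^ 20 * (H : ℝ) ^ 20 + A⁻¹ ^ 2 * ∫ t : ℝ, T_r3 c χ1 χ2 v gr b H ε t ^ 2) := by
  obtain ⟨Ce, hCe, HE⟩ := T_r_err3 χ1 χ2 v gr hgr c hc
  obtain ⟨C2, hC2, HM⟩ := T_mm_line3 χ1 χ2 v
  obtain ⟨C3, hC3, HG⟩ := T_gg_line3 χ1 χ2 v hne
  have hK20 : 0 ≤ ∫ x in Ioi (Real.exp (-T_psi q1 q2)), x ^ (-2 : ℝ) :=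
    setIntegral_nonneg measurableSet_Ioi fun x hx =>
      Real.rpow_nonneg ((Real.exp_pos _).trans hx).le _
  refine ⟨_, X_en3_fast_pos (C3 := C3) Real.pi_pos hK20 hCe, ?_⟩
  intro b H ε hH hb hε hε1 hgc hg A hA
  obtain ⟨_, hMc, _, hMi, hM2⟩ := HM b H ε hb hε hε1
  obtain ⟨R1, R2, hR1, hR2, hRx⟩ := HG b H ε hb hε hε1
  obtain ⟨hei, he2, heA⟩ := HE b H ε hH hb hε hε1
  obtain ⟨hZ, hZ2⟩ := X_en3_fast_Z (C3 := C3) (Hr := (H : ℝ)) (A := A)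
    (I0 := ∫ t : ℝ, T_r3 c χ1 χ2 v gr b H ε t ^ 2) (Nat.one_le_cast.2 hH) hA
    (integral_nonneg fun t => sq_nonneg _)
  refine X_en3_fast_core (X_en3_fast_u hc.1) X_en3_fast_psi hMc hMi hM2 hei he2
    ((heA A hA).trans (mul_add _ _ _).ge) hRx hgc X_en3_fast_rho ?_ hg hZ hZ2
  intro x hx
  refine (X_En3_res hx R1 R2).trans (mul_le_mul_of_nonneg_right ?_ (inv_nonneg.2 hx.le))
  linarith only [hR1, hR2]

end OO

end
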