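import Pool.Agent.Lib.MP_0f5a55_nt.OM.K000
import Pool.Agent.Lib.MP_0f5a55_nt.OM.K046

section

open Complex MeasureTheory Set Filter Topology
open scoped ComplexConjugate

namespace OO

/-- OX08. Integrability of `‖gg‖²` from the bound of `gg_facts`.

Proof. On `Ioi c0`: `‖g x‖² ≤ C² (1 + 1/c0)^6 exp (-(2 c x))`, integrable; measurable since `g` is continuous on the measurable set
`Ioi 0 ⊇ Ioi c0`. -/
theorem X_gint (g : ℝ → ℂ) (hg : ContinuousOn g (Ioi 0)) (C c : ℝ) (hc : 0 < c)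
    (hb : ∀ x : ℝ, 0 < x → ‖g x‖ ≤ C * (1 + 1 / x) ^ 3 * Real.exp (-(c * x))) (c0 : ℝ) (hc0 : 0 < c0) :
    IntegrableOn (fun x => ‖g x‖ ^ 2) (Ioi c0) := by
  have hdom : IntegrableOn (fun x : ℝ => C ^ 2 * (1 + 1 / c0) ^ 6 * Real.exp (-(2 * c) * x)) (Ioi c0) :=
    (exp_neg_integrableOn_Ioi c0 (by positivity : (0 : ℝ) < 2 * c)).const_mul _
  have hcont : ContinuousOn (fun x => ‖g x‖ ^ 2) (Ioi c0) :=
    ((hg.mono (fun x hx => lt_trans hc0 hx)).norm).pow 2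
  refine Integrable.mono' hdom (hcont.aestronglyMeasurable measurableSet_Ioi) ?_
  refine (ae_restrict_iff' measurableSet_Ioi).mpr (Eventually.of_forall fun x hx => ?_)
  have hx' : c0 < x := hx
  have hx0 : 0 < x := lt_trans hc0 hx'
  have h1 : ‖g x‖ ^ 2 ≤ (C * (1 + 1 / x) ^ 3 * Real.exp (-(c * x))) ^ 2 :=
    pow_le_pow_left₀ (norm_nonneg _) (hb x hx0) 2
  have h2 : (1 + 1 / x) ^ 6 ≤ (1 + 1 / c0) ^ 6 := by
    apply pow_le_pow_left₀ (by positivity)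
    have : 1 / x ≤ 1 / c0 := one_div_le_one_div_of_le hc0 hx'.le
    linarith
  have h3 : Real.exp (-(c * x)) ^ 2 = Real.exp (-(2 * c) * x) := by
    rw [← Real.exp_nat_mul]
    congr 1
    push_cast
    ring
  rw [Real.norm_of_nonneg (by positivity)]
  calc ‖g x‖ ^ 2 ≤ (C * (1 + 1 / x) ^ 3 * Real.exp (-(c * x))) ^ 2 := h1
    _ = C ^ 2 * (1 + 1 / x) ^ 6 * Real.exp (-(2 * c) * x) := by rw [← h3]; ring
    _ ≤ C ^ 2 * (1 + 1 / c0) ^ 6 * Real.exp (-(2 * c) * x) := by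
        apply mul_le_mul_of_nonneg_right _ (Real.exp_pos _).le
        exact mul_le_mul_of_nonneg_left h2 (sq_nonneg C)

end OO

end

section

open Complex MeasureTheory Set Filter Topology
open scoped ComplexConjugate

namespace OO

/-- absorbing the error term -/
theorem X_Main3_abs {C2 A0 I G K π' : ℝ} (hC2 : 0 < C2) (hA0 : A0 = 1 + 8 * C2) (hI0 : 0 ≤ I) (hG0 : 0 ≤ G)
    (hπ : 0 < π') (h : I ≤ 2 * (8 * π' * G + C2 * (A0 ^ 20 * K + A0⁻¹ ^ 2 * I))) (hK : 0 ≤ K) :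
    I ≤ 32 * π' * G + 3 * C2 * A0 ^ 20 * K := by
  have hA1 : 1 ≤ A0 := by rw [hA0]; linarith
  have hA : C2 * A0⁻¹ ^ 2 ≤ 1 / 8 := by
    rw [inv_pow, ← div_eq_mul_inv, div_le_iff₀ (by positivity)]
    rw [hA0]
    nlinarith
  have h1 : C2 * (A0⁻¹ ^ 2 * I) ≤ 1 / 8 * I := by
    have := mul_le_mul_of_nonneg_right hA hI0
    linarith
  have h2 : 0 ≤ C2 * A0 ^ 20 * K := by positivity
  have h3 : 0 ≤ π' * G := by positivity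
  linarith

private theorem X_TX_main_abs3_alg0 {C2 P p Y G GX I J1 J2 J0 a t u v : ℝ} (hC2 : 0 < C2) (hP : 0 ≤ P)
    (hp : 0 < p) (hY : 0 ≤ Y) (hG : 0 ≤ G) (hGX : 0 ≤ GX) (ha0 : 0 ≤ a) (ha1 : a ≤ 1) (ht : 1 ≤ t)
    (hu : 0 ≤ u) (hv : 0 ≤ v) (hIb : I ≤ 32 * p * G + 3 * C2 * P * Y)
    (h1 : J1 ≤ 8 * p * GX + C2 * (t * Y + a * I)) (h0 : J0 ≤ 8 * p * G + C2 * (t * Y + a * I))
    (h2 : J2 ≤ J0) :
    2 * (u * J1 + v * J2) ≤ 32 * p * (u * GX + v * G) +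
      (2 * C2 * (1 + 3 * C2 * P + 32 * p) + 3 * C2 * P) * ((u + v) * (t * Y + a * G)) := by
  have hCP : 0 ≤ 3 * C2 * P := mul_nonneg (by linarith only [hC2]) hP
  have htY : 0 ≤ t * Y := mul_nonneg (by linarith only [ht]) hY
  have haG : 0 ≤ a * G := mul_nonneg ha0 hG
  have haY : a * Y ≤ t * Y := mul_le_mul_of_nonneg_right (by linarith only [ha1, ht]) hY
  have e1 := mul_le_mul_of_nonneg_left hIb ha0
  have e2 := mul_le_mul_of_nonneg_left haY hCP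
  have e3 : a * I ≤ 32 * p * (a * G) + 3 * C2 * P * (t * Y) := by linarith only [e1, e2]
  have e4 : 0 ≤ 3 * C2 * P * (a * G) := mul_nonneg hCP haG
  have e5 : 0 ≤ p * (t * Y) := mul_nonneg hp.le htY
  have e6 : t * Y + a * I ≤ (1 + 3 * C2 * P + 32 * p) * (t * Y + a * G) := by
    linarith only [e3, e4, e5, haG]
  have e7 := mul_le_mul_of_nonneg_left e6 hC2.le
  have k1 := mul_le_mul_of_nonneg_left (h1.trans (add_le_add_right e7 _)) hu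
  have k2 := mul_le_mul_of_nonneg_left (h2.trans (h0.trans (add_le_add_right e7 _))) hv
  have k3 : 0 ≤ p * (u * GX) := mul_nonneg hp.le (mul_nonneg hu hGX)
  have k4 : 0 ≤ p * (v * G) := mul_nonneg hp.le (mul_nonneg hv hG)
  have k5 : 0 ≤ 3 * C2 * P * ((u + v) * (t * Y + a * G)) :=
    mul_nonneg hCP (mul_nonneg (add_nonneg hu hv) (add_nonneg htY haG))
  linarith only [k1, k2, k3, k4, k5]

private theorem X_TX_main_abs3_alg {C2 P p Y G GX I J1 J2 J0 A h X : ℝ} (hC2 : 0 < C2) (hP : 0 ≤ P)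
    (hp : 0 < p) (hY : 0 ≤ Y) (hG : 0 ≤ G) (hGX : 0 ≤ GX) (hA : 1 ≤ A)
    (hIb : I ≤ 32 * p * G + 3 * C2 * P * Y)
    (h1 : J1 ≤ 8 * p * GX + C2 * (A ^ 20 * Y + A⁻¹ ^ 2 * I))
    (h0 : J0 ≤ 8 * p * G + C2 * (A ^ 20 * Y + A⁻¹ ^ 2 * I)) (h2 : J2 ≤ J0) :
    2 * (h ^ 2 * J1 + X⁻¹ ^ 2 * J2) ≤ 32 * p * (h ^ 2 * GX + X⁻¹ ^ 2 * G) +
      (2 * C2 * (1 + 3 * C2 * P + 32 * p) + 3 * C2 * P) *
        ((h ^ 2 + X⁻¹ ^ 2) * (A ^ 20 * Y + A⁻¹ ^ 2 * G)) :=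
  X_TX_main_abs3_alg0 hC2 hP hp hY hG hGX (sq_nonneg _)
    (pow_le_one₀ (inv_nonneg.2 (zero_le_one.trans hA)) (inv_le_one_of_one_le₀ hA)) (one_le_pow₀ hA)
    (sq_nonneg _) (sq_nonneg _) hIb h1 h0 h2

private theorem X_TX_main_abs3_alg2 {C2 P p Y G I : ℝ} (hC2 : 0 < C2) (hP : 0 ≤ P)
    (hp : 0 < p) (hY : 0 ≤ Y) (hIb : I ≤ 32 * p * G + 3 * C2 * P * Y) :
    I ≤ 32 * p * G + (2 * C2 * (1 + 3 * C2 * P + 32 * p) + 3 * C2 * P) * Y := by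
  have hCP : 0 ≤ 3 * C2 * P := mul_nonneg (by linarith only [hC2]) hP
  have h1 : 0 ≤ 2 * C2 * (1 + 3 * C2 * P + 32 * p) * Y :=
    mul_nonneg (mul_nonneg (by linarith only [hC2]) (by linarith only [hCP, hp])) hY
  linarith only [h1, hIb]

private theorem X_TX_main_abs3_pos {C2 P p : ℝ} (hC2 : 0 < C2) (hP : 0 ≤ P) (hp : 0 < p) :
    0 < 2 * C2 * (1 + 3 * C2 * P + 32 * p) + 3 * C2 * P := by
  have hCP : 0 ≤ 3 * C2 * P := mul_nonneg (by linarith only [hC2]) hP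
  have h1 : 0 < 2 * C2 * (1 + 3 * C2 * P + 32 * p) :=
    mul_pos (by linarith only [hC2]) (by linarith only [hCP, hp])
  linarith only [h1, hCP]

/-- Blocks T and X with shifts, absolute constant, with the facts on `gg` as a hypothesis -/
theorem X_TX_main_abs3
    (hgg : ∀ (b lam : ArithmeticFunction ℂ) (H : ℕ) (B ε : ℝ), (∀ n, ‖lam n‖ ≤ B * n) → 0 < ε → ε ≤ 1 / 10 →
      ContinuousOn (gg b H lam ε) (Ioi 0) ∧ ∃ C c : ℝ, 0 < C ∧ 0 < c ∧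
      ∀ x : ℝ, 0 < x → ‖gg b H lam ε x‖ ≤ C * (1 + 1 / x) ^ 3 * Real.exp (-(c * x))) :
    ∃ C : ℝ, 0 < C ∧ ∀ (q1 q2 : ℕ) [NeZero q1] [NeZero q2] (χ1 : DirichletCharacter ℂ q1)
    (χ2 : DirichletCharacter ℂ q2) (y : ℝ), χ1.IsPrimitive → χ2.IsPrimitive → NeX χ1 y χ2 (-y) →
    ∃ c0 Cx : ℝ, 0 < c0 ∧ 0 < Cx ∧
    ∀ (b : ArithmeticFunction ℂ) (H : ℕ) (ε : ℝ), 1 ≤ H → (∀ h, H < h → b h = 0) → (∀ h, ‖b h‖ ≤ h) →
      0 < ε → ε ≤ 1 / 10 → ∃ r r0 : ℝ → ℝ, Continuous r ∧ Continuous r0 ∧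
      (∀ t, r t = r0 t * ‖phi b H (1 / 2 + t * I)‖ ^ 2) ∧
      (∀ t, r t ^ 2 = Real.exp (-(2 * ε * t)) / (1 + Real.exp (-(2 * Real.pi * t))) *
        (‖LX.Lf χ1 (1 / 2 + (t + y : ℝ) * I) * LX.Lf χ2 (1 / 2 + (t - y : ℝ) * I)‖ ^ 2 *
          ‖phi b H (1 / 2 + t * I)‖ ^ 4)) ∧
      (∃ u : ℝ → ℂ, Continuous u ∧ (∀ t, u t ≠ 0) ∧
        ∀ t, (r0 t : ℂ) = u t * (LX.Lf χ1 (1 / 2 + (t + y : ℝ) * I) * LX.Lf χ2 (1 / 2 + (t - y : ℝ) * I))) ∧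
      Integrable r ∧ Integrable (fun t => r t ^ 2) ∧
      (∫ t, r t ^ 2) ≤ C * (∫ x in Ioi c0, ‖gg b H (lamF (chx χ1 y) (chx χ2 (-y))) ε x‖ ^ 2) + Cx * (H : ℝ) ^ 20 ∧
      ∀ h X A : ℝ, 0 < h → h ≤ 1 → 1 ≤ X → 1 ≤ A → Integrable (fun t => (∫ s in t..(t + h), r s) ^ 2) ∧
        (∫ t, (∫ s in t..(t + h), r s) ^ 2) ≤
          C * (h ^ 2 * (∫ x in Ioc c0 (Real.exp (2 * Real.pi * X)),
              ‖gg b H (lamF (chx χ1 y) (chx χ2 (-y))) ε x‖ ^ 2) +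
            X⁻¹ ^ 2 * (∫ x in Ioi c0, ‖gg b H (lamF (chx χ1 y) (chx χ2 (-y))) ε x‖ ^ 2)) +
          Cx * ((h ^ 2 + X⁻¹ ^ 2) * (A ^ 20 * (H : ℝ) ^ 20 +
            A⁻¹ ^ 2 * (∫ x in Ioi c0, ‖gg b H (lamF (chx χ1 y) (chx χ2 (-y))) ε x‖ ^ 2))) := by
  have hpi := Real.pi_pos
  refine ⟨32 * Real.pi, mul_pos (by norm_num) hpi, ?_⟩
  intro q1 q2 _ _ χ1 χ2 v h1 h2 hne
  obtain ⟨g, hg⟩ := T_h3 v
  obtain ⟨c, hc⟩ := T_exists_c3 χ1 χ2 h1 h2 v g hg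
  obtain ⟨hU, hU0, C1, hC1, hr⟩ := T_r_facts3 χ1 χ2 v g hg c hc
  obtain ⟨C2, hC2, hen⟩ := X_en3 χ1 χ2 v hne g hg c hc
  have hA01 : 1 ≤ 1 + 8 * C2 := by linarith only [hC2]
  have hP : 0 ≤ (1 + 8 * C2) ^ 20 := pow_nonneg (zero_le_one.trans hA01) 20
  refine ⟨Real.exp (-T_psi q1 q2), 2 * C2 * (1 + 3 * C2 * (1 + 8 * C2) ^ 20 + 32 * Real.pi) +
    3 * C2 * (1 + 8 * C2) ^ 20, Real.exp_pos _, X_TX_main_abs3_pos hC2 hP hpi, ?_⟩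
  intro b H ε hH _hb0 hb hε hε'
  obtain ⟨hr0, hcr0, hcr, hsq, hi, hi2, -, -, -, -⟩ := hr b H ε hb hε hε'
  obtain ⟨hgc, Cg, cg, -, hcg, hgb⟩ := hgg b (lamF (chx χ1 v) (chx χ2 (-v))) H 1 ε
    (fun n => by simpa only [one_mul] using (T_lam3 χ1 χ2 v).1 n) hε hε'
  have hgi := X_gint _ hgc Cg cg hcg hgb (Real.exp (-T_psi q1 q2)) (Real.exp_pos _)
  have hen' := hen b H ε hH hb hε hε' hgc hgi
  have hY : (0 : ℝ) ≤ (H : ℝ) ^ 20 := pow_nonneg (Nat.cast_nonneg H) 20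
  have hG0 : 0 ≤ ∫ x in Ioi (Real.exp (-T_psi q1 q2)), ‖gg b H (lamF (chx χ1 v) (chx χ2 (-v))) ε x‖ ^ 2 :=
    integral_nonneg fun x => sq_nonneg _
  have hev := (X_even hi hi2).2.2
  have hIb : (∫ t, T_r3 c χ1 χ2 v g b H ε t ^ 2) ≤ 32 * Real.pi *
      (∫ x in Ioi (Real.exp (-T_psi q1 q2)), ‖gg b H (lamF (chx χ1 v) (chx χ2 (-v))) ε x‖ ^ 2) +
      3 * C2 * (1 + 8 * C2) ^ 20 * (H : ℝ) ^ 20 :=
    X_Main3_abs hC2 rfl (integral_nonneg fun x => sq_nonneg _) hG0 hpi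
      (hev.trans_le (mul_le_mul_of_nonneg_left (hen' (1 + 8 * C2) hA01).2 zero_le_two)) hY
  refine ⟨T_r3 c χ1 χ2 v g b H ε, T_r03 c χ1 χ2 v g ε, hcr, hcr0, fun t => rfl, ?_,
    ⟨fun t => (Real.exp (-(ε * t)) : ℂ) * T_U3 c χ1 χ2 v g t, ?_, ?_, ?_⟩, hi, hi2,
    X_TX_main_abs3_alg2 hC2 hP hpi hY hIb, ?_⟩
  · intro t
    have := hsq t
    rw [T_LL3_line] at this
    exact this
  · exact (continuous_ofReal.comp (Real.continuous_exp.comp (continuous_const.mul continuous_id).neg)).mul hU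
  · intro t
    exact mul_ne_zero (ofReal_ne_zero.2 (Real.exp_ne_zero _)) (hU0 t)
  · intro t
    have := hr0 t
    rw [T_LL3_line] at this
    exact this
  · intro h X A hh hh1 hX hA
    have hX0 : 0 < X := zero_lt_one.trans_le hX
    refine ⟨(X_win hcr hi hi2 hh).2.2.1, ?_⟩
    refine (X_winsq hcr hi hi2 hh hX0).trans ?_
    refine X_TX_main_abs3_alg hC2 hP hpi hY hG0 (integral_nonneg fun x => sq_nonneg _) hA hIb
      ((hen' A hA).1 X hX0) (hen' A hA).2 ?_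
    refine setIntegral_mono_set (X_even hi hi2).2.1.integrableOn ?_ ?_
    · exact Filter.Eventually.of_forall fun ξ => sq_nonneg _
    · exact (Ioi_subset_Ioi hX0.le).eventuallyLE

end OO

end
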