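import Pool.Agent.Lib.MP_0f5a55_nt.OM.K000
import Pool.Agent.Lib.MP_0f5a55_nt.OM.K010
import Pool.Agent.Lib.MP_0f5a55_nt.OM.K018

section

section

open Finset

namespace KlWeil

/-- `sqPart` is of the form `a²b³` -/
lemma sqPart_rep (q : ℕ) : ∃ a b : ℕ, a ^ 2 * b ^ 3 = sqPart q := by
  unfold sqPart
  apply Finset.prod_induction _ (fun x => ∃ a b : ℕ, a ^ 2 * b ^ 3 = x)
  · rintro x y ⟨a, b, rfl⟩ ⟨c, d, rfl⟩
    exact ⟨a * c, b * d, by ring⟩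
  · exact ⟨1, 1, by norm_num⟩
  · intro p hp
    split_ifs with h
    · exact ⟨1, 1, by norm_num⟩
    · have h1 : 0 < q.factorization p := by
        rw [Nat.mem_primeFactors] at hp
        exact hp.1.factorization_pos_of_dvd hp.2.2 hp.2.1
      obtain ⟨k, hk⟩ : ∃ k, q.factorization p = k + 2 := ⟨q.factorization p - 2, by omega⟩
      rw [hk]
      rcases Nat.even_or_odd k with ⟨j, hj⟩ | ⟨j, hj⟩
      · exact ⟨p ^ (j + 1), 1, by rw [hj]; ring⟩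
      · exact ⟨p ^ j, p, by rw [hj]; ring⟩

lemma sqrt_sqPart_le {q : ℕ} (hq : q ≠ 0) :
    Real.sqrt (sqPart q) ≤ ∑ ab ∈ (Finset.Icc 1 q ×ˢ Finset.Icc 1 q).filter (fun ab : ℕ × ℕ => ab.1 ^ 2 * ab.2 ^ 3 ∣ q),
      (ab.1 : ℝ) * (ab.2 : ℝ) * Real.sqrt ab.2 := by
  obtain ⟨a, b, hab⟩ := sqPart_rep q
  have hpos := sqPart_pos hq
  have hdvd : sqPart q ∣ q := Dvd.intro_left _ (sfPart_mul_sqPart hq)
  have ha : 0 < a := by
    rcases Nat.eq_zero_or_pos a with h | h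
    · rw [h] at hab; simp at hab; omega
    · exact h
  have hb : 0 < b := by
    rcases Nat.eq_zero_or_pos b with h | h
    · rw [h] at hab; simp at hab; omega
    · exact h
  have hq0 : 0 < q := Nat.pos_of_ne_zero hq
  have haq : a ≤ q := by
    apply Nat.le_of_dvd hq0
    have h : a ∣ sqPart q := by
      rw [← hab]; exact Dvd.dvd.mul_right (dvd_pow_self a two_ne_zero) _
    exact h.trans hdvd
  have hbq : b ≤ q := by
    apply Nat.le_of_dvd hq0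
    have h : b ∣ sqPart q := by
      rw [← hab]; exact Dvd.dvd.mul_left (dvd_pow_self b three_ne_zero) _
    exact h.trans hdvd
  have hmem : (a, b) ∈ (Finset.Icc 1 q ×ˢ Finset.Icc 1 q).filter (fun ab : ℕ × ℕ => ab.1 ^ 2 * ab.2 ^ 3 ∣ q) := by
    rw [mem_filter, mem_product, mem_Icc, mem_Icc]
    exact ⟨⟨⟨ha, haq⟩, ⟨hb, hbq⟩⟩, by rw [hab]; exact hdvd⟩
  have h1 : Real.sqrt (sqPart q) = (a : ℝ) * b * Real.sqrt b := by
    rw [← hab]
    push_cast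
    have : ((a : ℝ) ^ 2 * (b : ℝ) ^ 3) = (a * b) ^ 2 * b := by ring
    rw [this, Real.sqrt_mul (by positivity), Real.sqrt_sq (by positivity)]
  rw [h1]
  exact Finset.single_le_sum (f := fun ab : ℕ × ℕ => (ab.1 : ℝ) * (ab.2 : ℝ) * Real.sqrt ab.2)
    (fun ab _ => by positivity) hmem

/-- harmonic sum bound -/
lemma harm_le (Q : ℕ) : ∑ r ∈ Finset.Icc 1 Q, (r : ℝ)⁻¹ ≤ 1 + Real.log (Q + 1) := by
  have h1 := harmonic_le_one_add_log Q
  rw [harmonic_eq_sum_Icc] at h1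
  push_cast at h1
  refine h1.trans ?_
  rcases Nat.eq_zero_or_pos Q with h | h
  · rw [h]; simp
  · have : Real.log Q ≤ Real.log (Q + 1) := Real.log_le_log (by exact_mod_cast h) (by linarith only [])
    linarith only [this]

lemma sum_sqrt_sqPart (Q : ℕ) :
    ∑ q ∈ Finset.Icc 1 Q, Real.sqrt (sqPart q) / q ≤ 3 * (1 + Real.log (Q + 1)) ^ 3 := by
  classical
  set H := ∑ r ∈ Finset.Icc 1 Q, (r : ℝ)⁻¹ with hH
  have hH0 : 0 ≤ H := Finset.sum_nonneg fun r _ => by positivity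
  -- sum over b of b^{-3/2} <= H as well (crude)
  have key : ∑ q ∈ Finset.Icc 1 Q, Real.sqrt (sqPart q) / q
      ≤ ∑ a ∈ Finset.Icc 1 Q, ∑ b ∈ Finset.Icc 1 Q, ∑ r ∈ Finset.Icc 1 Q, (a : ℝ)⁻¹ * (b : ℝ)⁻¹ * (r : ℝ)⁻¹ := by
    have h1 : ∀ q ∈ Finset.Icc 1 Q, Real.sqrt (sqPart q) / q ≤
        ∑ ab ∈ (Finset.Icc 1 Q ×ˢ Finset.Icc 1 Q).filter (fun ab : ℕ × ℕ => ab.1 ^ 2 * ab.2 ^ 3 ∣ q),
          ((ab.1 : ℝ) * (ab.2 : ℝ) * Real.sqrt ab.2) / q := by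
      intro q hq
      rw [mem_Icc] at hq
      rw [← Finset.sum_div]
      apply div_le_div_of_nonneg_right _ (by positivity)
      refine (sqrt_sqPart_le (by omega)).trans ?_
      apply Finset.sum_le_sum_of_subset_of_nonneg
      · intro ab h
        rw [mem_filter, mem_product, mem_Icc, mem_Icc] at h ⊢
        exact ⟨⟨⟨h.1.1.1, h.1.1.2.trans hq.2⟩, ⟨h.1.2.1, h.1.2.2.trans hq.2⟩⟩, h.2⟩
      · intro ab _ _; positivity
    refine (Finset.sum_le_sum h1).trans ?_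
    simp_rw [Finset.sum_filter]
    rw [Finset.sum_comm, Finset.sum_product]
    apply Finset.sum_le_sum
    intro a ha
    apply Finset.sum_le_sum
    intro b hb
    rw [mem_Icc] at ha hb
    simp only
    rw [← Finset.sum_filter]
    have hab : 0 < a ^ 2 * b ^ 3 := by
      have : 0 < a := ha.1
      have : 0 < b := hb.1
      positivity
    calc ∑ q ∈ (Finset.Icc 1 Q).filter (fun q => a ^ 2 * b ^ 3 ∣ q), ((a : ℝ) * b * Real.sqrt b) / q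
        ≤ ∑ r ∈ Finset.Icc 1 Q, ((a : ℝ) * b * Real.sqrt b) / ((a ^ 2 * b ^ 3 * r : ℕ) : ℝ) := by
          have hsub : (Finset.Icc 1 Q).filter (fun q => a ^ 2 * b ^ 3 ∣ q)
              ⊆ (Finset.Icc 1 Q).image (fun r => a ^ 2 * b ^ 3 * r) := by
            intro q hq
            rw [mem_filter, mem_Icc] at hq
            obtain ⟨r, hr⟩ := hq.2
            rw [mem_image]
            refine ⟨r, ?_, hr.symm⟩
            rw [mem_Icc]
            constructor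
            · rcases Nat.eq_zero_or_pos r with h | h
              · rw [h, mul_zero] at hr; omega
              · exact h
            · calc r ≤ a ^ 2 * b ^ 3 * r := Nat.le_mul_of_pos_left r hab
                _ = q := hr.symm
                _ ≤ Q := hq.1.2
          refine (Finset.sum_le_sum_of_subset_of_nonneg hsub fun q _ _ => by positivity).trans ?_
          rw [Finset.sum_image fun x _ y _ h => Nat.eq_of_mul_eq_mul_left hab h]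
      _ ≤ ∑ r ∈ Finset.Icc 1 Q, (a : ℝ)⁻¹ * (b : ℝ)⁻¹ * (r : ℝ)⁻¹ := by
          apply Finset.sum_le_sum
          intro r hr
          rw [mem_Icc] at hr
          have hr0 : 0 < r := hr.1
          have ha0 : (0 : ℝ) < a := by exact_mod_cast ha.1
          have hb0 : (0 : ℝ) < b := by exact_mod_cast hb.1
          have hb1 : (1 : ℝ) ≤ b := by exact_mod_cast hb.1
          have hr1 : (0 : ℝ) < r := by exact_mod_cast hr0
          have hsb : Real.sqrt b ≤ b := by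
            rw [Real.sqrt_le_left (by positivity)]
            nlinarith only [hb1]
          push_cast
          rw [div_le_iff₀ (by positivity)]
          have : (a : ℝ)⁻¹ * (b : ℝ)⁻¹ * (r : ℝ)⁻¹ * ((a : ℝ) ^ 2 * (b : ℝ) ^ 3 * r) = a * b * b := by
            field_simp
          rw [this]
          exact mul_le_mul_of_nonneg_left hsb (by positivity)
  refine key.trans ?_
  have h2 : ∑ a ∈ Finset.Icc 1 Q, ∑ b ∈ Finset.Icc 1 Q, ∑ r ∈ Finset.Icc 1 Q, (a : ℝ)⁻¹ * (b : ℝ)⁻¹ * (r : ℝ)⁻¹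
      = H * H * H := by
    rw [hH]
    simp_rw [← Finset.mul_sum, ← Finset.sum_mul]
    simp_rw [← Finset.mul_sum]
    simp_rw [← Finset.sum_mul]
  rw [h2]
  have h3 := harm_le Q
  rw [← hH] at h3
  calc H * H * H = H ^ 3 := by ring
    _ ≤ (1 + Real.log (Q + 1)) ^ 3 := pow_le_pow_left₀ hH0 h3 3
    _ ≤ 3 * (1 + Real.log (Q + 1)) ^ 3 := by
        have : 0 ≤ (1 + Real.log (Q + 1)) ^ 3 := by
          have : 0 ≤ Real.log (Q + 1) := Real.log_nonneg (by have : (0 : ℝ) ≤ Q := Nat.cast_nonneg Q; linarith only [])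
          positivity
        linarith only [this]


/-- the divisor bound -/
theorem card_divisors_le_rpow (σ : ℝ) (hσ : 0 < σ) : ∃ C : ℝ, 1 ≤ C ∧ ∀ n : ℕ, n ≠ 0 →
    ((n.divisors.card : ℕ) : ℝ) ≤ C * (n : ℝ) ^ σ := by
  have hl2 : 0 < Real.log 2 := Real.log_pos (by norm_num)
  set A : ℝ := max 1 (1 / (σ * Real.log 2)) with hA
  have hA1 : 1 ≤ A := le_max_left _ _
  have hA2 : 1 ≤ A * (σ * Real.log 2) := by
    have h : 1 / (σ * Real.log 2) ≤ A := le_max_right _ _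
    rwa [div_le_iff₀ (by positivity)] at h
  set P0 : ℕ := ⌈(2 : ℝ) ^ (1 / σ)⌉₊ with hP0
  -- small primes
  have hsmall : ∀ p : ℕ, p.Prime → ∀ k : ℕ, ((k + 1 : ℕ) : ℝ) ≤ A * ((p : ℝ) ^ k) ^ σ := by
    intro p hp k
    have hp2 : (2 : ℝ) ≤ p := by exact_mod_cast hp.two_le
    have h1 : ((2 : ℝ) ^ k) ^ σ ≤ ((p : ℝ) ^ k) ^ σ :=
      Real.rpow_le_rpow (by positivity) (pow_le_pow_left₀ (by norm_num) hp2 k) hσ.le
    have h2 : 1 + k * (σ * Real.log 2) ≤ ((2 : ℝ) ^ k) ^ σ := by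
      rw [Real.rpow_def_of_pos (by positivity), Real.log_pow]
      have := Real.add_one_le_exp (k * Real.log 2 * σ)
      linarith only [this]
    have h3 : ((k + 1 : ℕ) : ℝ) ≤ A * (1 + k * (σ * Real.log 2)) := by
      push_cast
      have hk : (0 : ℝ) ≤ k := Nat.cast_nonneg _
      nlinarith only [hA1, hA2]
    exact h3.trans (mul_le_mul_of_nonneg_left (h2.trans h1) (by positivity))
  -- large primes
  have hlarge : ∀ p : ℕ, P0 ≤ p → ∀ k : ℕ, ((k + 1 : ℕ) : ℝ) ≤ ((p : ℝ) ^ k) ^ σ := by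
    intro p hp k
    have h1 : (2 : ℝ) ^ (1 / σ) ≤ p := (Nat.le_ceil _).trans (by exact_mod_cast hp)
    have h2 : (2 : ℝ) ≤ (p : ℝ) ^ σ := by
      calc (2 : ℝ) = ((2 : ℝ) ^ (1 / σ)) ^ σ := by
            rw [← Real.rpow_mul (by norm_num), one_div_mul_cancel hσ.ne', Real.rpow_one]
        _ ≤ (p : ℝ) ^ σ := Real.rpow_le_rpow (by positivity) h1 hσ.le
    have h3 : ((p : ℝ) ^ k) ^ σ = ((p : ℝ) ^ σ) ^ k := by
      rw [← Real.rpow_natCast, ← Real.rpow_mul (by positivity), mul_comm,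
        Real.rpow_mul (by positivity), Real.rpow_natCast]
    have h4 : k + 1 ≤ 2 ^ k := Nat.lt_two_pow_self
    calc ((k + 1 : ℕ) : ℝ) ≤ (2 : ℝ) ^ k := by exact_mod_cast h4
      _ ≤ ((p : ℝ) ^ σ) ^ k := pow_le_pow_left₀ (by norm_num) h2 k
      _ = _ := h3.symm
  refine ⟨A ^ P0, one_le_pow₀ hA1, fun n hn => ?_⟩
  rw [Nat.card_divisors hn]
  have hn' : (n : ℝ) = ∏ p ∈ n.primeFactors, (p : ℝ) ^ (n.factorization p) := by
    conv_lhs => rw [← Nat.prod_factorization_pow_eq_self hn]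
    rw [Finsupp.prod, Nat.support_factorization]
    push_cast
    rfl
  have hpw : (n : ℝ) ^ σ = ∏ p ∈ n.primeFactors, ((p : ℝ) ^ (n.factorization p)) ^ σ := by
    conv_lhs => rw [hn']
    rw [Real.finsetProd_rpow _ _ (fun i _ => by positivity)]
  rw [hpw, Nat.cast_prod]
  have hterm : ∀ p ∈ n.primeFactors, ((n.factorization p + 1 : ℕ) : ℝ) ≤
      (if p < P0 then A else 1) * ((p : ℝ) ^ (n.factorization p)) ^ σ := by
    intro p hp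
    split_ifs with h
    · exact hsmall p (Nat.prime_of_mem_primeFactors hp) _
    · rw [one_mul]
      exact hlarge p (not_lt.1 h) _
  refine (Finset.prod_le_prod (fun _ _ => Nat.cast_nonneg _) hterm).trans ?_
  rw [Finset.prod_mul_distrib]
  apply mul_le_mul_of_nonneg_right _ (Finset.prod_nonneg fun _ _ => by positivity)
  rw [Finset.prod_ite, Finset.prod_const, Finset.prod_const_one, mul_one]
  apply pow_le_pow_right₀ hA1
  calc (n.primeFactors.filter (fun p => p < P0)).card ≤ (Finset.range P0).card := by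
        apply Finset.card_le_card
        intro p hp
        rw [Finset.mem_filter] at hp
        exact Finset.mem_range.2 hp.2
    _ = P0 := Finset.card_range _


end KlWeil

end

end

section

/-!
# Counting the pairs (s, t)
-/

open Complex Finset
open scoped ComplexConjugate

namespace OOK

variable {q1 q2 : ℕ}

/-- For each `m` the pairs `(s, t)`, `s, t ≥ 1`, with `b s t + r = m` are the pairs in the
`divisorsAntidiagonal` of `(m - r) / b`, so there are at most `d((m - r) / b) ≤ C m^ε` of them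
(`card_divisors_le_rpow` of Part08; there are none if `m = 0`, as `r ≥ 1`). -/
theorem count_st {ε : ℝ} (hε : 0 < ε) : ∃ C : ℝ, 1 ≤ C ∧ ∀ b r m : ℕ, 0 < b → 0 < r →
    ∀ F : Finset (ℕ × ℕ), (∀ p ∈ F, b * (p.1 * p.2) + r = m ∧ 0 < p.1 ∧ 0 < p.2) →
      (F.card : ℝ) ≤ C * (m : ℝ) ^ ε := by
  obtain ⟨C, hC1, hC⟩ := KlWeil.card_divisors_le_rpow ε hε
  refine ⟨C, hC1, ?_⟩
  intro b r m hb hr F hF
  rcases F.eq_empty_or_nonempty with h | ⟨p0, hp0⟩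
  · subst h
    have : (0 : ℝ) ≤ (m : ℝ) ^ ε := Real.rpow_nonneg (Nat.cast_nonneg m) ε
    simp only [card_empty, Nat.cast_zero]
    positivity
  · obtain ⟨h1, h2, h3⟩ := hF p0 hp0
    have hn : ∀ p ∈ F, p.1 * p.2 = p0.1 * p0.2 := by
      intro p hp
      obtain ⟨h4, -, -⟩ := hF p hp
      have h5 : b * (p.1 * p.2) = b * (p0.1 * p0.2) := by omega
      exact Nat.eq_of_mul_eq_mul_left hb h5
    have hn0 : p0.1 * p0.2 ≠ 0 := (Nat.mul_pos h2 h3).ne'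
    have hsub : F ⊆ (p0.1 * p0.2).divisorsAntidiagonal := by
      intro p hp
      rw [Nat.mem_divisorsAntidiagonal]
      exact ⟨hn p hp, hn0⟩
    have hcard : F.card ≤ (p0.1 * p0.2).divisors.card := by
      calc F.card ≤ ((p0.1 * p0.2).divisorsAntidiagonal).card := card_le_card hsub
        _ = (p0.1 * p0.2).divisors.card := by
          rw [← Nat.map_div_right_divisors, card_map]
    have hle : p0.1 * p0.2 ≤ m := by
      have : p0.1 * p0.2 ≤ b * (p0.1 * p0.2) := Nat.le_mul_of_pos_left _ hb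
      omega
    calc (F.card : ℝ) ≤ ((p0.1 * p0.2).divisors.card : ℝ) := by exact_mod_cast hcard
      _ ≤ C * ((p0.1 * p0.2 : ℕ) : ℝ) ^ ε := hC _ hn0
      _ ≤ C * (m : ℝ) ^ ε := by
          apply mul_le_mul_of_nonneg_left _ (by linarith only [hC1])
          exact Real.rpow_le_rpow (Nat.cast_nonneg _) (by exact_mod_cast hle) hε.le

/-- Sum over `(s, t)` first (`count_st` with `m = a u v`): a nonnegative function on the quadruples
is summable if the sums over the second pair are bounded by `C g(u, v) (a u v)^ε`, which is summable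
(`summable_prod_of_nonneg`, `Summable.tsum_prod'`). For fixed `(u, v)` the function of `(s, t)` has
finite support. -/
theorem fourfold {ε : ℝ} (hε : 0 < ε) : ∃ C : ℝ, 1 ≤ C ∧ ∀ a b r : ℕ, 0 < a → 0 < b → 0 < r →
    ∀ g : ℕ × ℕ → ℝ, (∀ q, 0 ≤ g q) →
      Summable (fun q : ℕ × ℕ => if 0 < q.1 ∧ 0 < q.2 then g q * ((a : ℝ) * (q.1 * q.2)) ^ ε else 0) →
      Summable (fun p : (ℕ × ℕ) × (ℕ × ℕ) =>
        if a * (p.1.1 * p.1.2) = b * (p.2.1 * p.2.2) + r ∧ 0 < p.2.1 ∧ 0 < p.2.2 then g p.1 else 0) ∧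
      ∑' p : (ℕ × ℕ) × (ℕ × ℕ),
        (if a * (p.1.1 * p.1.2) = b * (p.2.1 * p.2.2) + r ∧ 0 < p.2.1 ∧ 0 < p.2.2 then g p.1 else 0) ≤
        C * ∑' q : ℕ × ℕ, (if 0 < q.1 ∧ 0 < q.2 then g q * ((a : ℝ) * (q.1 * q.2)) ^ ε else 0) := by
  classical
  obtain ⟨C, hC1, hC⟩ := count_st hε
  refine ⟨C, hC1, ?_⟩
  intro a b r ha hb hr g hg hsum
  set f : (ℕ × ℕ) × (ℕ × ℕ) → ℝ := fun p =>
    if a * (p.1.1 * p.1.2) = b * (p.2.1 * p.2.2) + r ∧ 0 < p.2.1 ∧ 0 < p.2.2 then g p.1 else 0 with hf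
  set G : ℕ × ℕ → ℝ := fun q =>
    if 0 < q.1 ∧ 0 < q.2 then g q * ((a : ℝ) * (q.1 * q.2)) ^ ε else 0 with hG
  -- the finite set of the pairs `(s, t)`
  set S : ℕ × ℕ → Finset (ℕ × ℕ) := fun q =>
    ((range (a * (q.1 * q.2) + 1)) ×ˢ (range (a * (q.1 * q.2) + 1))).filter
      (fun p => a * (q.1 * q.2) = b * (p.1 * p.2) + r ∧ 0 < p.1 ∧ 0 < p.2) with hS
  have hmem : ∀ q p : ℕ × ℕ, p ∈ S q ↔
      (a * (q.1 * q.2) = b * (p.1 * p.2) + r ∧ 0 < p.1 ∧ 0 < p.2) := by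
    intro q p
    simp only [hS, mem_filter, mem_product, mem_range]
    constructor
    · rintro ⟨-, h⟩
      exact h
    · rintro ⟨h1, h2, h3⟩
      refine ⟨⟨?_, ?_⟩, h1, h2, h3⟩
      · have h4 : p.1 ≤ p.1 * p.2 := Nat.le_mul_of_pos_right _ h3
        have h5 : p.1 * p.2 ≤ b * (p.1 * p.2) := Nat.le_mul_of_pos_left _ hb
        omega
      · have h4 : p.2 ≤ p.1 * p.2 := Nat.le_mul_of_pos_left _ h2
        have h5 : p.1 * p.2 ≤ b * (p.1 * p.2) := Nat.le_mul_of_pos_left _ hb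
        omega
  have hzero : ∀ q p : ℕ × ℕ, p ∉ S q → f (q, p) = 0 := by
    intro q p hp
    simp only [hf]
    rw [if_neg]
    intro h
    exact hp ((hmem q p).2 h)
  have hval : ∀ q p : ℕ × ℕ, p ∈ S q → f (q, p) = g q := by
    intro q p hp
    simp only [hf]
    rw [if_pos ((hmem q p).1 hp)]
  have hin : ∀ q : ℕ × ℕ, HasSum (fun p => f (q, p)) (((S q).card : ℝ) * g q) := by
    intro q
    have h1 : HasSum (fun p => f (q, p)) (∑ p ∈ S q, f (q, p)) :=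
      hasSum_sum_of_ne_finset_zero (fun p hp => hzero q p hp)
    rw [sum_congr rfl (fun p hp => hval q p hp), sum_const, nsmul_eq_mul] at h1
    exact h1
  have hGn : ∀ q, 0 ≤ G q := by
    intro q
    simp only [hG]
    split_ifs
    · have := hg q
      positivity
    · exact le_refl _
  have hbd : ∀ q : ℕ × ℕ, ((S q).card : ℝ) * g q ≤ C * G q := by
    intro q
    by_cases hq : 0 < q.1 ∧ 0 < q.2
    · have h1 := hC b r (a * (q.1 * q.2)) hb hr (S q) (by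
        intro p hp
        have := (hmem q p).1 hp
        exact ⟨this.1.symm, this.2⟩)
      simp only [hG]
      rw [if_pos hq]
      have h2 : (((a * (q.1 * q.2) : ℕ) : ℝ)) = (a : ℝ) * (q.1 * q.2) := by push_cast; ring
      rw [h2] at h1
      calc ((S q).card : ℝ) * g q ≤ (C * ((a : ℝ) * (q.1 * q.2)) ^ ε) * g q :=
            mul_le_mul_of_nonneg_right h1 (hg q)
        _ = C * (g q * ((a : ℝ) * (q.1 * q.2)) ^ ε) := by ring
    · have hemp : S q = ∅ := by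
        rw [Finset.eq_empty_iff_forall_notMem]
        intro p hp
        have h1 := ((hmem q p).1 hp).1
        have h2 : q.1 * q.2 = 0 := by
          rcases Nat.eq_zero_or_pos q.1 with h | h
          · rw [h, Nat.zero_mul]
          · rcases Nat.eq_zero_or_pos q.2 with h' | h'
            · rw [h', Nat.mul_zero]
            · exact absurd ⟨h, h'⟩ hq
        rw [h2] at h1
        omega
      rw [hemp, card_empty, Nat.cast_zero, zero_mul]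
      exact mul_nonneg (by linarith only [hC1]) (hGn q)
  have hf0 : 0 ≤ f := by
    intro p
    simp only [hf, Pi.zero_apply]
    split_ifs
    · exact hg _
    · exact le_refl _
  have hCG : Summable (fun q => C * G q) := hsum.mul_left C
  have hts : ∀ q, ∑' p, f (q, p) = ((S q).card : ℝ) * g q := fun q => (hin q).tsum_eq
  have hout : Summable (fun q => ∑' p, f (q, p)) := by
    apply Summable.of_nonneg_of_le (f := fun q => C * G q)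
    · intro q
      rw [hts q]
      exact mul_nonneg (Nat.cast_nonneg _) (hg q)
    · intro q
      rw [hts q]
      exact hbd q
    · exact hCG
  have hfs : Summable f := by
    rw [summable_prod_of_nonneg hf0]
    exact ⟨fun q => (hin q).summable, hout⟩
  refine ⟨hfs, ?_⟩
  calc ∑' p, f p = ∑' q, ∑' p, f (q, p) := hfs.tsum_prod
    _ ≤ ∑' q, C * G q := by
        apply hout.tsum_le_tsum _ hCG
        intro q
        rw [hts q]
        exact hbd q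
    _ = C * ∑' q, G q := tsum_mul_left

end OOK

end

section

/-!
# Derivatives of H
-/

open Complex Finset
open scoped ComplexConjugate

namespace OOK

variable {q1 q2 : ℕ}

lemma OK10_e1 {y : ℝ} (hy : 0 ≤ y) : (1 + 2 * y) * Real.exp (-y) ≤ 5 * Real.exp (-y / 2) := by
  have h1 : Real.exp (-y) = Real.exp (-y / 2) * Real.exp (-y / 2) := by
    rw [← Real.exp_add]; ring_nf
  have h2 : (1 + 2 * y) * Real.exp (-y / 2) ≤ 5 := by
    have h3 : 1 + y / 2 ≤ Real.exp (y / 2) := by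
      have := Real.add_one_le_exp (y / 2); linarith only [this]
    have h4 : Real.exp (-y / 2) = (Real.exp (y / 2))⁻¹ := by
      rw [← Real.exp_neg]; ring_nf
    rw [h4, ← div_eq_mul_inv, div_le_iff₀ (Real.exp_pos _)]
    linarith only [hy, h3]
  rw [h1, ← mul_assoc]
  exact mul_le_mul_of_nonneg_right h2 (Real.exp_nonneg _)

lemma OK10_e2 {y : ℝ} (hy : 0 ≤ y) : (1 + 2 * y) ^ 2 * Real.exp (-y) ≤ 12 * Real.exp (-y / 2) := by
  have h1 : Real.exp (-y) = Real.exp (-y / 2) * Real.exp (-y / 2) := by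
    rw [← Real.exp_add]; ring_nf
  have h2 : (1 + 2 * y) ^ 2 * Real.exp (-y / 2) ≤ 12 := by
    have h3 := Real.sum_le_exp_of_nonneg (show 0 ≤ y / 2 by linarith only [hy]) 5
    have h4 : Real.exp (-y / 2) = (Real.exp (y / 2))⁻¹ := by
      rw [← Real.exp_neg]; ring_nf
    rw [h4, ← div_eq_mul_inv, div_le_iff₀ (Real.exp_pos _)]
    simp only [Finset.sum_range_succ, Finset.sum_range_zero, Nat.factorial] at h3
    norm_num at h3
    obtain ⟨z, hz⟩ : ∃ z : ℝ, z = y / 2 := ⟨_, rfl⟩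
    have hy2 : y = 2 * z := by rw [hz]; ring
    rw [← hz] at h3
    rw [← hz, hy2]
    have hz0 : 0 ≤ z := by rw [hz]; linarith only [hy]
    nlinarith [sq_nonneg (z ^ 2 - 81 / 25), mul_nonneg hz0 (sq_nonneg (z - 9 / 5)),
      sq_nonneg (z - 14 / 5)]
  rw [h1, ← mul_assoc]
  exact mul_le_mul_of_nonneg_right h2 (Real.exp_nonneg _)

/-- `H(m) = f(m / A) exp(-μ m)` with `ρ = Re μ > 0`, `|μ| ≤ 2 ρ`: `H' = f1(m/A)/A E - μ f(m/A) E`,
`H'' = f2(m/A)/A² E - 2 μ f1(m/A)/A E + μ² f(m/A) E`, `|f1(m/A)/A| ≤ B/m`, `|f2(m/A)/A²| ≤ B/m²`, so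
`|H| ≤ B e^(-ρm)`, `|H'| ≤ (B/m) (1 + 2ρm) e^(-ρm)`, `|H''| ≤ (B/m²) (1 + 2ρm)² e^(-ρm)`, and
`(1 + 2y) e^(-y/2) ≤ 5`, `(1 + 2y)² e^(-y/2) ≤ 12` for `y ≥ 0` (e.g. `1 + x ≤ e^x` suitably scaled:
`e^(y/4) ≥ 1 + y/4 + y²/32`, or `e^(y/2) ≥ ∑_{i ≤ 4} (y/2)^i / i!`). -/
theorem Hf_deriv {f f1 f2 : ℝ → ℝ} {B Y : ℝ} (hf : Cut f f1 f2 B Y) {A : ℝ} (hA : 0 < A) {μ : ℂ}
    (hμ : 0 < μ.re) (hμ2 : ‖μ‖ ≤ 2 * μ.re) : ∃ H1 H2 : ℝ → ℂ, ∀ m : ℝ, 0 < m →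
      HasDerivAt (Hf f A μ) (H1 m) m ∧ HasDerivAt H1 (H2 m) m ∧
      ‖Hf f A μ m‖ ≤ B * Real.exp (-μ.re * m) ∧
      ‖H1 m‖ ≤ 5 * B / m * Real.exp (-μ.re * m / 2) ∧
      ‖H2 m‖ ≤ 12 * B / m ^ 2 * Real.exp (-μ.re * m / 2) := by
  have hB := hf.B1
  refine ⟨fun m => (((f1 (m / A) / A : ℝ) : ℂ) - μ * (f (m / A) : ℝ)) * cexp (-μ * m),
    fun m => (((f2 (m / A) / A ^ 2 : ℝ) : ℂ) - 2 * μ * ((f1 (m / A) / A : ℝ) : ℂ) +
      μ ^ 2 * (f (m / A) : ℝ)) * cexp (-μ * m), fun m hm => ?_⟩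
  have hmA : 0 < m / A := div_pos hm hA
  have dlin : HasDerivAt (fun x : ℝ => x / A) (1 / A) m := (hasDerivAt_id m).div_const A
  have d0 : HasDerivAt (fun x : ℝ => f (x / A)) (f1 (m / A) * (1 / A)) m :=
    (hf.d1 _ hmA).comp m dlin
  have d1 : HasDerivAt (fun x : ℝ => f1 (x / A)) (f2 (m / A) * (1 / A)) m :=
    (hf.d2 _ hmA).comp m dlin
  have c0 : HasDerivAt (fun x : ℝ => ((f (x / A) : ℝ) : ℂ)) ((f1 (m / A) * (1 / A) : ℝ) : ℂ) m :=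
    d0.ofReal_comp
  have c1 : HasDerivAt (fun x : ℝ => ((f1 (x / A) / A : ℝ) : ℂ)) ((f2 (m / A) * (1 / A) / A : ℝ) : ℂ) m :=
    (d1.div_const A).ofReal_comp
  have e0 : HasDerivAt (fun x : ℝ => cexp (-μ * x)) (cexp (-μ * m) * (-μ)) m := by
    have h1 : HasDerivAt (fun x : ℝ => -μ * (x : ℂ)) (-μ * 1) m :=
      (Complex.ofRealCLM.hasDerivAt (x := m)).const_mul (-μ)
    rw [mul_one] at h1
    exact h1.cexp
  have nE : ‖cexp (-μ * m)‖ = Real.exp (-μ.re * m) := by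
    rw [Complex.norm_exp]
    congr 1
    simp
  have hEpos : 0 < Real.exp (-μ.re * m) := Real.exp_pos _
  have b0 : |f (m / A)| ≤ B := hf.bd0 _
  have b1 : |f1 (m / A) / A| ≤ B / m := by
    rw [abs_div, abs_of_pos hA, div_le_iff₀ hA]
    refine (hf.bd1 _ hmA).trans (le_of_eq ?_)
    field_simp
  have b2 : |f2 (m / A) / A ^ 2| ≤ B / m ^ 2 := by
    rw [abs_div, abs_of_pos (pow_pos hA 2), div_le_iff₀ (pow_pos hA 2)]
    refine (hf.bd2 _ hmA).trans (le_of_eq ?_)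
    field_simp
  have hy : 0 ≤ μ.re * m := by positivity
  have x1 := OK10_e1 hy
  have x2 := OK10_e2 hy
  have hneg : -(μ.re * m) = -μ.re * m := by ring
  rw [hneg] at x1 x2
  have hμ0 : 0 ≤ ‖μ‖ := norm_nonneg _
  refine ⟨?_, ?_, ?_, ?_, ?_⟩
  · have := c0.mul e0
    refine this.congr_deriv ?_
    push_cast
    ring
  · have := (c1.sub (c0.const_mul μ)).mul e0
    refine this.congr_deriv ?_
    simp only [Pi.sub_apply]
    push_cast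
    ring
  · unfold Hf
    rw [norm_mul, nE, Complex.norm_real, Real.norm_eq_abs]
    exact mul_le_mul_of_nonneg_right b0 hEpos.le
  · rw [norm_mul, nE]
    have h1 : ‖((f1 (m / A) / A : ℝ) : ℂ) - μ * (f (m / A) : ℝ)‖ ≤ B / m * (1 + 2 * (μ.re * m)) := by
      refine (norm_sub_le _ _).trans ?_
      rw [norm_mul, Complex.norm_real, Complex.norm_real, Real.norm_eq_abs, Real.norm_eq_abs]
      have h2 : ‖μ‖ * |f (m / A)| ≤ 2 * μ.re * B := mul_le_mul hμ2 b0 (abs_nonneg _) (by positivity)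
      calc |f1 (m / A) / A| + ‖μ‖ * |f (m / A)| ≤ B / m + 2 * μ.re * B := add_le_add b1 h2
        _ = B / m * (1 + 2 * (μ.re * m)) := by field_simp
    calc _ ≤ B / m * (1 + 2 * (μ.re * m)) * Real.exp (-μ.re * m) :=
          mul_le_mul_of_nonneg_right h1 hEpos.le
      _ = B / m * ((1 + 2 * (μ.re * m)) * Real.exp (-μ.re * m)) := by ring
      _ ≤ B / m * (5 * Real.exp (-μ.re * m / 2)) := mul_le_mul_of_nonneg_left x1 (by positivity)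
      _ = _ := by ring
  · rw [norm_mul, nE]
    have h1 : ‖((f2 (m / A) / A ^ 2 : ℝ) : ℂ) - 2 * μ * ((f1 (m / A) / A : ℝ) : ℂ) +
        μ ^ 2 * (f (m / A) : ℝ)‖ ≤ B / m ^ 2 * (1 + 2 * (μ.re * m)) ^ 2 := by
      refine (norm_add_le _ _).trans ?_
      have h3 := norm_sub_le ((f2 (m / A) / A ^ 2 : ℝ) : ℂ) (2 * μ * ((f1 (m / A) / A : ℝ) : ℂ))
      rw [norm_mul, norm_mul, Complex.norm_real, Complex.norm_real, Real.norm_eq_abs, Real.norm_eq_abs,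
        Complex.norm_ofNat] at h3
      rw [norm_mul (μ ^ 2), norm_pow, Complex.norm_real, Real.norm_eq_abs]
      have h4 : 2 * ‖μ‖ * |f1 (m / A) / A| ≤ 2 * (2 * μ.re) * (B / m) :=
        mul_le_mul (by linarith only [hμ2]) b1 (abs_nonneg _) (by positivity)
      have h5 : ‖μ‖ ^ 2 * |f (m / A)| ≤ (2 * μ.re) ^ 2 * B :=
        mul_le_mul (pow_le_pow_left₀ hμ0 hμ2 2) b0 (abs_nonneg _) (by positivity)
      have h6 : B / m ^ 2 * (1 + 2 * (μ.re * m)) ^ 2 = B / m ^ 2 + 2 * (2 * μ.re) * (B / m) + (2 * μ.re) ^ 2 * B := by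
        field_simp
        ring
      rw [h6]
      linarith only [b2, h3, h4, h5]
    calc _ ≤ B / m ^ 2 * (1 + 2 * (μ.re * m)) ^ 2 * Real.exp (-μ.re * m) :=
          mul_le_mul_of_nonneg_right h1 hEpos.le
      _ = B / m ^ 2 * ((1 + 2 * (μ.re * m)) ^ 2 * Real.exp (-μ.re * m)) := by ring
      _ ≤ B / m ^ 2 * (12 * Real.exp (-μ.re * m / 2)) := mul_le_mul_of_nonneg_left x2 (by positivity)
      _ = _ := by ring

end OOK

end

section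

/-!
# The splitting of the modulus
-/

open Complex Finset
open scoped ComplexConjugate

namespace OOK

variable {q1 q2 : ℕ}

/-- `g = gcd(e, a b r d N)`, `C₁ = e / g`, `C₂ = a d² g N`: `C₁ C₂ = a d² e N`; a prime `p ∣ C₁` does not
divide `a b r d N` (otherwise `p ∣ g` and `p² ∣ e`) nor `g` (`e` is squarefree). -/
theorem exists_split {a b r d e N : ℕ} (ha : 0 < a) (hb : 0 < b) (hr : 0 < r) (hd : 0 < d)
    (he : Squarefree e) (hN : 0 < N) : ∃ C1 C2 : ℕ, 0 < C1 ∧ 0 < C2 ∧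
      a * (d ^ 2 * e) * N = C1 * C2 ∧ C1.Coprime C2 ∧ Squarefree C1 ∧ C1 ∣ d ^ 2 * e ∧
      C1.Coprime b ∧ C1.Coprime r ∧ C1.Coprime N ∧ C2 ≤ a ^ 2 * b * r * N ^ 2 * d ^ 3 := by
  have he0 : 0 < e := Nat.pos_of_ne_zero he.ne_zero
  set M : ℕ := a * b * r * d * N with hM
  have hM0 : 0 < M := by positivity
  obtain ⟨g, hg⟩ : ∃ g, g = e.gcd M := ⟨_, rfl⟩
  have hg0 : 0 < g := hg ▸ Nat.gcd_pos_of_pos_left _ he0
  obtain ⟨C, hC⟩ : g ∣ e := hg ▸ Nat.gcd_dvd_left _ _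
  have hC0 : 0 < C := by
    rcases Nat.eq_zero_or_pos C with h | h
    · subst h; omega
    · exact h
  have hgM : g ∣ M := hg ▸ Nat.gcd_dvd_right _ _
  -- `C` is coprime to `M` and to `g`
  have hCg : C.Coprime g := by
    rw [hC] at he
    exact ((Nat.squarefree_mul_iff.1 he).1).symm
  have hCM : C.Coprime M := by
    rw [Nat.coprime_iff_gcd_eq_one]
    by_contra hne
    obtain ⟨p, hp, hpd⟩ := Nat.exists_prime_and_dvd hne
    have h1 : p ∣ C := hpd.trans (Nat.gcd_dvd_left _ _)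
    have h2 : p ∣ M := hpd.trans (Nat.gcd_dvd_right _ _)
    have h3 : p ∣ g := by
      rw [hg]; exact Nat.dvd_gcd (hC ▸ h1.mul_left g) h2
    exact hp.one_lt.ne' (Nat.dvd_one.1 (hCg ▸ Nat.dvd_gcd h1 h3))
  have ca : C.Coprime a := hCM.coprime_dvd_right ⟨b * r * d * N, by rw [hM]; ring⟩
  have cb : C.Coprime b := hCM.coprime_dvd_right ⟨a * r * d * N, by rw [hM]; ring⟩
  have cr : C.Coprime r := hCM.coprime_dvd_right ⟨a * b * d * N, by rw [hM]; ring⟩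
  have cd : C.Coprime d := hCM.coprime_dvd_right ⟨a * b * r * N, by rw [hM]; ring⟩
  have cN : C.Coprime N := hCM.coprime_dvd_right ⟨a * b * r * d, by rw [hM]; ring⟩
  refine ⟨C, a * d ^ 2 * g * N, hC0, by positivity, by rw [hC]; ring, ?_, ?_, ?_, cb, cr, cN, ?_⟩
  · exact ((ca.mul_right (cd.pow_right 2)).mul_right hCg).mul_right cN
  · rw [hC] at he; exact (Nat.squarefree_mul_iff.1 he).2.2
  · exact ⟨d ^ 2 * g, by rw [hC]; ring⟩
  · have h1 : g ≤ M := Nat.le_of_dvd hM0 hgM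
    calc a * d ^ 2 * g * N ≤ a * d ^ 2 * M * N := by gcongr
      _ = a ^ 2 * b * r * N ^ 2 * d ^ 3 := by rw [hM]; ring

end OOK

end

section

/-!
# The arithmetic factor is periodic
-/

open Complex Finset
open scoped ComplexConjugate

namespace OOK

variable {q1 q2 : ℕ}

/-- Termwise: if `A ∣ m = b s t + r` then `((m / A : ℕ) : ℝ) = m / A`. -/
theorem TT_eq3 (F G : ℝ → ℂ) (χ1 : DirichletCharacter ℂ q1) (χ2 : DirichletCharacter ℂ q2)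
    {b r A c : ℕ} (hA : 0 < A) (hq1 : 0 < q1) (hq2 : 0 < q2) (hc : A * (q1 * q2) = c) (μ : ℂ) :
    TT3 (fun n => F n * χ1 n) (fun n => G n * χ2 n) b r A μ =
      ∑' p : ℕ × ℕ, KK χ1 χ2 b r A c (p.1 : ℕ) (p.2 : ℕ) *
        Phi3 (fun x => conj (F x)) (fun x => conj (G x)) (Hf3 G A μ) b r p.1 p.2 := by
  unfold TT3
  refine tsum_congr fun p => ?_
  rw [KK_natCast χ1 χ2 hA hq1 hq2 hc]
  by_cases hd : A ∣ b * (p.1 * p.2) + r
  · rw [if_pos hd, if_pos hd]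
    have h1 : (((b * (p.1 * p.2) + r) / A : ℕ) : ℝ) = ((b : ℝ) * (p.1 * p.2) + r) / A := by
      rw [Nat.cast_div hd (by exact_mod_cast hA.ne')]
      push_cast
      ring
    unfold Phi3 Hf3
    beta_reduce
    rw [h1, map_mul, map_mul]
    push_cast
    ring
  · rw [if_neg hd, if_neg hd, zero_mul]

end OOK

end

section

/-!
# Derivatives of H
-/

open Complex Finset
open scoped ComplexConjugate

namespace OOK

/-- conjugation of a cut-off -/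
theorem Cut3.conj {F F1 F2 : ℝ → ℂ} {B Y : ℝ} (hf : Cut3 F F1 F2 B Y) :
    Cut3 (fun x => conj (F x)) (fun x => conj (F1 x)) (fun x => conj (F2 x)) B Y where
  B1 := hf.B1
  Y2 := hf.Y2
  zero x hx := by rw [hf.zero x hx, map_zero]
  bd0 x := by rw [RCLike.norm_conj]; exact hf.bd0 x
  d1 x hx := (hf.d1 x hx).star
  d2 x hx := (hf.d2 x hx).star
  bd1 x hx := by rw [RCLike.norm_conj]; exact hf.bd1 x hx
  bd2 x hx := by rw [RCLike.norm_conj]; exact hf.bd2 x hx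

/-- `H(m) = F(m / A) exp(-μ m)` with `ρ = Re μ > 0`, `|μ| ≤ 2 ρ`. -/
theorem Ker3_of {F F1 F2 : ℝ → ℂ} {B Y : ℝ} (hf : Cut3 F F1 F2 B Y) {A : ℝ} (hA : 0 < A) {μ : ℂ}
    (hμ : 0 < μ.re) (hμ2 : ‖μ‖ ≤ 2 * μ.re) : ∃ H1 H2 : ℝ → ℂ, Ker3 (Hf3 F A μ) H1 H2 B μ.re := by
  have hB := hf.B1
  have hAc : (A : ℂ) ≠ 0 := Complex.ofReal_ne_zero.mpr hA.ne'
  have main : ∀ m : ℝ, 0 < m →
      HasDerivAt (Hf3 F A μ) ((F1 (m / A) / A - μ * F (m / A)) * cexp (-μ * m)) m ∧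
      HasDerivAt (fun m : ℝ => (F1 (m / A) / A - μ * F (m / A)) * cexp (-μ * m))
        ((F2 (m / A) / A ^ 2 - 2 * μ * (F1 (m / A) / A) + μ ^ 2 * F (m / A)) * cexp (-μ * m)) m ∧
      ‖Hf3 F A μ m‖ ≤ B * Real.exp (-μ.re * m) ∧
      ‖(F1 (m / A) / A - μ * F (m / A)) * cexp (-μ * m)‖ ≤ 5 * B / m * Real.exp (-μ.re * m / 2) ∧
      ‖(F2 (m / A) / A ^ 2 - 2 * μ * (F1 (m / A) / A) + μ ^ 2 * F (m / A)) * cexp (-μ * m)‖ ≤
        12 * B / m ^ 2 * Real.exp (-μ.re * m / 2) := by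
    intro m hm
    have hmA : 0 < m / A := div_pos hm hA
    have dlin : HasDerivAt (fun x : ℝ => x / A) (1 / A) m := (hasDerivAt_id m).div_const A
    have c0 : HasDerivAt (fun x : ℝ => F (x / A)) (F1 (m / A) / A) m := by
      have h1 := HasDerivAt.scomp m (hf.d1 _ hmA) dlin
      rw [Complex.real_smul] at h1
      refine h1.congr_deriv ?_
      push_cast
      field_simp
    have c1 : HasDerivAt (fun x : ℝ => F1 (x / A) / A) (F2 (m / A) / A ^ 2) m := by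
      have h1 := (HasDerivAt.scomp m (hf.d2 _ hmA) dlin).div_const (A : ℂ)
      rw [Complex.real_smul] at h1
      refine h1.congr_deriv ?_
      push_cast
      field_simp
    have e0 : HasDerivAt (fun x : ℝ => cexp (-μ * x)) (cexp (-μ * m) * (-μ)) m := by
      have h1 : HasDerivAt (fun x : ℝ => -μ * (x : ℂ)) (-μ * 1) m :=
        (Complex.ofRealCLM.hasDerivAt (x := m)).const_mul (-μ)
      rw [mul_one] at h1
      exact h1.cexp
    have nE : ‖cexp (-μ * m)‖ = Real.exp (-μ.re * m) := by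
      rw [Complex.norm_exp]
      congr 1
      simp
    have hEpos : 0 < Real.exp (-μ.re * m) := Real.exp_pos _
    have b0 : ‖F (m / A)‖ ≤ B := hf.bd0 _
    have b1 : ‖F1 (m / A) / A‖ ≤ B / m := by
      rw [norm_div, Complex.norm_real, Real.norm_eq_abs, abs_of_pos hA, div_le_iff₀ hA]
      refine (hf.bd1 _ hmA).trans (le_of_eq ?_)
      field_simp
    have b2 : ‖F2 (m / A) / A ^ 2‖ ≤ B / m ^ 2 := by
      rw [norm_div, norm_pow, Complex.norm_real, Real.norm_eq_abs, abs_of_pos hA, div_le_iff₀ (pow_pos hA 2)]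
      refine (hf.bd2 _ hmA).trans (le_of_eq ?_)
      field_simp
    have hy : 0 ≤ μ.re * m := by positivity
    have x1 := OK10_e1 hy
    have x2 := OK10_e2 hy
    have hneg : -(μ.re * m) = -μ.re * m := by ring
    rw [hneg] at x1 x2
    have hμ0 : 0 ≤ ‖μ‖ := norm_nonneg _
    refine ⟨?_, ?_, ?_, ?_, ?_⟩
    · have := c0.mul e0
      refine this.congr_deriv ?_
      ring
    · have := (c1.sub (c0.const_mul μ)).mul e0
      refine this.congr_deriv ?_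
      simp only [Pi.sub_apply]
      ring
    · unfold Hf3
      rw [norm_mul, nE]
      exact mul_le_mul_of_nonneg_right b0 hEpos.le
    · rw [norm_mul, nE]
      have h1 : ‖F1 (m / A) / A - μ * F (m / A)‖ ≤ B / m * (1 + 2 * (μ.re * m)) := by
        refine (norm_sub_le _ _).trans ?_
        rw [norm_mul]
        have h2 : ‖μ‖ * ‖F (m / A)‖ ≤ 2 * μ.re * B := mul_le_mul hμ2 b0 (norm_nonneg _) (by positivity)
        calc ‖F1 (m / A) / A‖ + ‖μ‖ * ‖F (m / A)‖ ≤ B / m + 2 * μ.re * B := add_le_add b1 h2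
          _ = B / m * (1 + 2 * (μ.re * m)) := by field_simp
      calc _ ≤ B / m * (1 + 2 * (μ.re * m)) * Real.exp (-μ.re * m) :=
            mul_le_mul_of_nonneg_right h1 hEpos.le
        _ = B / m * ((1 + 2 * (μ.re * m)) * Real.exp (-μ.re * m)) := by ring
        _ ≤ B / m * (5 * Real.exp (-μ.re * m / 2)) := mul_le_mul_of_nonneg_left x1 (by positivity)
        _ = _ := by ring
    · rw [norm_mul, nE]
      have h1 : ‖F2 (m / A) / A ^ 2 - 2 * μ * (F1 (m / A) / A) + μ ^ 2 * F (m / A)‖ ≤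
          B / m ^ 2 * (1 + 2 * (μ.re * m)) ^ 2 := by
        refine (norm_add_le _ _).trans ?_
        have h3 := norm_sub_le (F2 (m / A) / A ^ 2) (2 * μ * (F1 (m / A) / A))
        rw [norm_mul, norm_mul, Complex.norm_ofNat] at h3
        rw [norm_mul (μ ^ 2), norm_pow]
        have h4 : 2 * ‖μ‖ * ‖F1 (m / A) / A‖ ≤ 2 * (2 * μ.re) * (B / m) :=
          mul_le_mul (by linarith only [hμ2]) b1 (norm_nonneg _) (by positivity)
        have h5 : ‖μ‖ ^ 2 * ‖F (m / A)‖ ≤ (2 * μ.re) ^ 2 * B :=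
          mul_le_mul (pow_le_pow_left₀ hμ0 hμ2 2) b0 (norm_nonneg _) (by positivity)
        have h6 : B / m ^ 2 * (1 + 2 * (μ.re * m)) ^ 2 = B / m ^ 2 + 2 * (2 * μ.re) * (B / m) + (2 * μ.re) ^ 2 * B := by
          field_simp
          ring
        rw [h6]
        linarith only [b2, h3, h4, h5]
      calc _ ≤ B / m ^ 2 * (1 + 2 * (μ.re * m)) ^ 2 * Real.exp (-μ.re * m) :=
            mul_le_mul_of_nonneg_right h1 hEpos.le
        _ = B / m ^ 2 * ((1 + 2 * (μ.re * m)) ^ 2 * Real.exp (-μ.re * m)) := by ring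
        _ ≤ B / m ^ 2 * (12 * Real.exp (-μ.re * m / 2)) := mul_le_mul_of_nonneg_left x2 (by positivity)
        _ = _ := by ring
  exact ⟨fun m => (F1 (m / A) / A - μ * F (m / A)) * cexp (-μ * m),
    fun m => (F2 (m / A) / A ^ 2 - 2 * μ * (F1 (m / A) / A) + μ ^ 2 * F (m / A)) * cexp (-μ * m),
    ⟨hμ, fun m hm => (main m hm).1, fun m hm => (main m hm).2.1, fun m hm => (main m hm).2.2.1,
      fun m hm => (main m hm).2.2.2.1, fun m hm => (main m hm).2.2.2.2⟩⟩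

end OOK

end

section

/-!
# The trivial bounds of the fourfold sum
-/

open Complex Finset
open scoped ComplexConjugate

namespace OOK

theorem K3_A2_master {ε : ℝ} (hε : 0 < ε) : ∃ C : ℝ, 1 ≤ C ∧ ∀ a b r : ℕ, 0 < a → 0 < b → 0 < r →
    ∀ (g G : ℕ × ℕ → ℝ) (K : ℝ) (F : (ℕ × ℕ) × (ℕ × ℕ) → ℂ), (∀ q, 0 ≤ g q) →
      (∀ q : ℕ × ℕ, (if 0 < q.1 ∧ 0 < q.2 then g q * ((a : ℝ) * (q.1 * q.2)) ^ ε else 0) = K * G q) →
      Summable G →
      (∀ p, ‖F p‖ ≤ if a * (p.1.1 * p.1.2) = b * (p.2.1 * p.2.2) + r ∧ 0 < p.2.1 ∧ 0 < p.2.2 then g p.1 else 0) →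
      Summable F ∧ ‖∑' p, F p‖ ≤ C * (K * ∑' q, G q) := by
  obtain ⟨C, hC, h⟩ := fourfold hε
  refine ⟨C, hC, ?_⟩
  intro a b r ha hb hr g G K F hg hG hGs hF
  have hfun : (fun q : ℕ × ℕ => if 0 < q.1 ∧ 0 < q.2 then g q * ((a : ℝ) * (q.1 * q.2)) ^ ε else 0) =
      fun q => K * G q := funext hG
  obtain ⟨hs, hle⟩ := h a b r ha hb hr g hg (by rw [hfun]; exact hGs.mul_left K)
  have hFs : Summable fun p => ‖F p‖ := Summable.of_nonneg_of_le (fun p => norm_nonneg _) hF hs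
  refine ⟨hFs.of_norm, ?_⟩
  calc ‖∑' p, F p‖ ≤ ∑' p, ‖F p‖ := norm_tsum_le_tsum_norm hFs
    _ ≤ _ := hFs.tsum_le_tsum hF hs
    _ ≤ _ := hle
    _ = C * (K * ∑' q, G q) := by
      rw [show (∑' q : ℕ × ℕ, (if 0 < q.1 ∧ 0 < q.2 then g q * ((a : ℝ) * (q.1 * q.2)) ^ ε else 0)) =
        ∑' q, K * G q from tsum_congr hG, tsum_mul_left]

/-- `|exp(-κ u v)| = exp(-Re κ u v)`. -/
theorem norm_wgt3_le {g1 g2 : ℕ → ℂ} {B : ℝ} (hg1 : Bd3 g1 B) (hg2 : Bd3 g2 B)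
     (a b r : ℕ) (κ : ℂ)
    (p : (ℕ × ℕ) × (ℕ × ℕ)) :
    ‖wgt3 g1 g2 a b r κ p‖ ≤
      if a * (p.1.1 * p.1.2) = b * (p.2.1 * p.2.2) + r ∧ 0 < p.2.1 ∧ 0 < p.2.2 then
        B ^ 4 * Real.exp (-κ.re * (p.1.1 * p.1.2)) else 0 := by
  have hB : 0 ≤ B := by linarith [hg1.B1]
  unfold wgt3
  by_cases h1 : a * (p.1.1 * p.1.2) = b * (p.2.1 * p.2.2) + r
  · by_cases h2 : 0 < p.2.1 ∧ 0 < p.2.2
    · rw [if_pos h1, if_pos ⟨h1, h2⟩]
      have e3 : ‖conj (g1 p.2.1)‖ ≤ B := by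
        rw [RCLike.norm_conj]
        exact hg1.bd _
      have e4 : ‖conj (g2 p.2.2)‖ ≤ B := by
        rw [RCLike.norm_conj]
        exact hg2.bd _
      have e5 : ‖cexp (-κ * (p.1.1 * p.1.2))‖ = Real.exp (-κ.re * (p.1.1 * p.1.2)) := by
        rw [Complex.norm_exp]
        congr 1
        rw [show ((p.1.1 : ℂ) * (p.1.2 : ℂ)) = (((p.1.1 : ℝ) * (p.1.2 : ℝ) : ℝ) : ℂ) by push_cast; ring]
        rw [Complex.re_mul_ofReal, Complex.neg_re]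
      rw [norm_mul, norm_mul, norm_mul (g1 p.1.1), norm_mul (conj (g1 p.2.1)), e5]
      have e6 : ‖g1 p.1.1‖ * ‖g2 p.1.2‖ ≤ B * B :=
        mul_le_mul (hg1.bd _) (hg2.bd _) (norm_nonneg _) hB
      have e7 : ‖conj (g1 p.2.1)‖ * ‖conj (g2 p.2.2)‖ ≤ B * B :=
        mul_le_mul e3 e4 (norm_nonneg _) hB
      refine mul_le_mul_of_nonneg_right ?_ (Real.exp_nonneg _)
      calc _ ≤ (B * B) * (B * B) := mul_le_mul e6 e7 (by positivity) (by positivity)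
        _ = B ^ 4 := by ring
    · rw [if_pos h1, if_neg (fun h => h2 h.2)]
      have h3 : p.2.1 = 0 ∨ p.2.2 = 0 := by omega
      rcases h3 with h3 | h3 <;> rw [h3] <;> simp [hg1.zero, hg2.zero]
  · rw [if_neg h1, if_neg (fun h => h1 h.1)]
    simp

theorem K3_A2_mul {a : ℕ} {ε α c K : ℝ} (_ : 0 ≤ α) (_ : 0 ≤ ε) (u v : ℕ) (hu : 0 < u) (hv : 0 < v) :
    (K * (((u : ℝ) * v) ^ α * Real.exp (-c * (u * v)))) * ((a : ℝ) * (u * v)) ^ ε =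
      K * (a : ℝ) ^ ε * (((u : ℝ) * v) ^ (α + ε) * Real.exp (-c * (u * v))) := by
  have h : (0 : ℝ) < u * v := by positivity
  rw [Real.mul_rpow (Nat.cast_nonneg a) h.le, Real.rpow_add h]
  ring

/-- `fourfold` with `g(u, v) = B^4 exp(-Re κ u v)` and `tsum_two` (`α = ε`). -/
theorem summable_wgt3 {g1 g2 : ℕ → ℂ} {B : ℝ} (hg1 : Bd3 g1 B) (hg2 : Bd3 g2 B)
     {a b r : ℕ} (ha : 0 < a)
    (hb : 0 < b) (hr : 0 < r) {κ : ℂ} (hκ : 0 < κ.re) : Summable (wgt3 g1 g2 a b r κ) := by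
  have hB : 0 ≤ B := by linarith [hg1.B1]
  obtain ⟨C, hC, h⟩ := K3_A2_master (ε := 1) one_pos
  obtain ⟨C2, hC2, h2⟩ := tsum_two (α := 1) (ε := 1) one_pos zero_le_one
  refine (h a b r ha hb hr (fun q => B ^ 4 * Real.exp (-κ.re * (q.1 * q.2)))
    (fun q => if 0 < q.1 ∧ 0 < q.2 then ((q.1 : ℝ) * q.2) ^ (1 : ℝ) * Real.exp (-κ.re * (q.1 * q.2)) else 0)
    (B ^ 4 * (a : ℝ) ^ (1 : ℝ)) _ (fun q => by positivity) ?_ (h2 κ.re hκ).1
    (norm_wgt3_le hg1 hg2 a b r κ)).1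
  intro q
  split_ifs with hq
  · have := K3_A2_mul (a := a) (ε := 1) (α := 0) (c := κ.re) (K := B ^ 4) le_rfl zero_le_one q.1 q.2 hq.1 hq.2
    rw [Real.rpow_zero, one_mul, zero_add] at this
    exact this
  · rw [mul_zero]

/-- The part `(1 - exp(-u/D)) (1 - exp(-v/D)) ≤ u v / D^2` of the fourfold sum: `fourfold` with
`g(u, v) = B^4 (u v / D^2) exp(-c u v)`, `c = Re κ`, and `tsum_two` with `α = 1 + ε`; the exponent
`ε` of the statement is obtained with `ε / 2` in both. -/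
theorem rem_bound3 (B : ℝ) {ε : ℝ} (hε : 0 < ε) : ∃ C : ℝ, 0 < C ∧
    ∀ g1 g2 : ℕ → ℂ, Bd3 g1 B → Bd3 g2 B → ∀ a b r : ℕ, 0 < a → 0 < b → 0 < r →
      ∀ κ : ℂ, 0 < κ.re → ∀ D : ℝ, 1 ≤ D →
        ‖∑' p : (ℕ × ℕ) × (ℕ × ℕ), wgt3 g1 g2 a b r κ p *
          ((1 - Real.exp (-p.1.1 / D) : ℝ) * (1 - Real.exp (-p.1.2 / D) : ℝ) : ℂ)‖ ≤
          C * (a : ℝ) ^ ε * κ.re ^ (-(2 + ε)) / D ^ 2 := by
  obtain ⟨C1, hC1, h1⟩ := K3_A2_master (ε := ε / 2) (by positivity)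
  obtain ⟨C2, hC2, h2⟩ := tsum_two (α := 1 + ε / 2) (ε := ε / 2) (by positivity) (by positivity)
  refine ⟨C1 * (|B| ^ 4 + 1) * C2, by positivity, ?_⟩
  intro g1 g2 hg1 hg2 a b r ha hb hr κ hκ D hD
  have hB : 0 ≤ B := by linarith [hg1.B1]
  have hD0 : 0 < D := by linarith only [hD]
  have ha1 : (1 : ℝ) ≤ a := by exact_mod_cast ha
  obtain ⟨hs, hle⟩ := h2 κ.re hκ
  have hmain := (h1 a b r ha hb hr
    (fun q => B ^ 4 / D ^ 2 * (((q.1 : ℝ) * q.2) ^ (1 : ℝ) * Real.exp (-κ.re * (q.1 * q.2))))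
    (fun q => if 0 < q.1 ∧ 0 < q.2 then ((q.1 : ℝ) * q.2) ^ (1 + ε / 2) * Real.exp (-κ.re * (q.1 * q.2)) else 0)
    (B ^ 4 / D ^ 2 * (a : ℝ) ^ (ε / 2))
    (fun p => wgt3 g1 g2 a b r κ p *
          ((1 - Real.exp (-p.1.1 / D) : ℝ) * (1 - Real.exp (-p.1.2 / D) : ℝ) : ℂ))
    (fun q => by positivity) ?_ hs ?_).2
  · refine hmain.trans ?_
    have e1 : (a : ℝ) ^ (ε / 2) ≤ (a : ℝ) ^ ε := Real.rpow_le_rpow_of_exponent_le ha1 (by linarith only [hε])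
    have e2 : -(1 + (1 + ε / 2) + ε / 2) = -(2 + ε) := by ring
    rw [e2] at hle
    have e3 : B ^ 4 ≤ |B| ^ 4 + 1 := by rw [abs_of_nonneg hB]; linarith only [e2]
    have e4 : 0 ≤ κ.re ^ (-(2 + ε)) := by positivity
    calc C1 * (B ^ 4 / D ^ 2 * (a : ℝ) ^ (ε / 2) * _) ≤
        C1 * (B ^ 4 / D ^ 2 * (a : ℝ) ^ (ε / 2) * (C2 * κ.re ^ (-(2 + ε)))) := by
          refine mul_le_mul_of_nonneg_left (mul_le_mul_of_nonneg_left hle (by positivity)) (by linarith only [hC1])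
      _ ≤ C1 * ((|B| ^ 4 + 1) / D ^ 2 * (a : ℝ) ^ ε * (C2 * κ.re ^ (-(2 + ε)))) := by
          gcongr
      _ = _ := by ring
  · intro q
    split_ifs with hq
    · exact K3_A2_mul (by norm_num) (by positivity) q.1 q.2 hq.1 hq.2
    · rw [mul_zero]
  · intro p
    have key : ∀ u : ℕ, ‖((1 - Real.exp (-(u : ℝ) / D) : ℝ) : ℂ)‖ ≤ u / D := by
      intro u
      rw [Complex.norm_real, Real.norm_eq_abs]
      have hu : 0 ≤ (u : ℝ) / D := by positivity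
      have h3 : Real.exp (-(u : ℝ) / D) ≤ 1 := by
        rw [Real.exp_le_one_iff, neg_div]; linarith only [hu]
      have h4 := Real.add_one_le_exp (-(u : ℝ) / D)
      rw [abs_of_nonneg (by linarith only [h3])]
      rw [neg_div] at h4 ⊢
      linarith only [h4]
    rw [norm_mul, norm_mul]
    have h5 := norm_wgt3_le hg1 hg2 a b r κ p
    split_ifs at h5 ⊢ with hc
    · calc _ ≤ (B ^ 4 * Real.exp (-κ.re * (p.1.1 * p.1.2))) * ((p.1.1 / D) * (p.1.2 / D)) := by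
            refine mul_le_mul h5 (mul_le_mul (key _) (key _) (norm_nonneg _) (by positivity))
              (by positivity) (by positivity)
        _ = _ := by
            rw [Real.rpow_one]
            field_simp
    · have h6 : ‖wgt3 g1 g2 a b r κ p‖ = 0 := le_antisymm h5 (norm_nonneg _)
      rw [h6, zero_mul]

/-- The part of the weighted sum where `sqd u > Z`, `|w| ≤ 1` (`Z ≥ 1`, `η ≥ 0`): `fourfold` with
`g(u, v) = B^4 exp(-c u v)` if `sqd u > Z` and `0` otherwise, and `tsum_sq` (`α = ε / 2`). -/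
theorem sq_bound3 (B : ℝ) {ε : ℝ} (hε : 0 < ε) : ∃ C : ℝ, 0 < C ∧
    ∀ g1 g2 : ℕ → ℂ, Bd3 g1 B → Bd3 g2 B → ∀ a b r : ℕ, 0 < a → 0 < b → 0 < r →
      ∀ κ : ℂ, 0 < κ.re → ∀ (Z : ℝ), 1 ≤ Z → ∀ (w : ℕ → ℂ), (∀ u, ‖w u‖ ≤ 1) →
        (∀ u, (sqd u : ℝ) ≤ Z → w u = 0) → ∀ η : ℝ, 0 ≤ η →
        ‖ZZ3 g1 g2 a b r κ w η‖ ≤ C * (a : ℝ) ^ ε * κ.re ^ (-(1 + ε)) / Z := by
  obtain ⟨C1, hC1, h1⟩ := K3_A2_master (ε := ε / 2) (by positivity)
  obtain ⟨C2, hC2, h2⟩ := tsum_sq (α := ε / 2) (ε := ε / 2) (by positivity) (by positivity)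
  refine ⟨C1 * (|B| ^ 4 + 1) * C2, by positivity, ?_⟩
  intro g1 g2 hg1 hg2 a b r ha hb hr κ hκ Z hZ w hw hw0 η hη
  have hB : 0 ≤ B := by linarith [hg1.B1]
  have hZ0 : 0 < Z := by linarith only [hZ]
  have ha1 : (1 : ℝ) ≤ a := by exact_mod_cast ha
  obtain ⟨hs, hle⟩ := h2 κ.re Z hκ hZ
  unfold ZZ3
  have hmain := (h1 a b r ha hb hr
    (fun q => if Z < sqd q.1 then B ^ 4 * Real.exp (-κ.re * (q.1 * q.2)) else 0)
    (fun q => if 0 < q.1 ∧ 0 < q.2 ∧ Z < sqd q.1 then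
      ((q.1 : ℝ) * q.2) ^ (ε / 2) * Real.exp (-κ.re * (q.1 * q.2)) else 0)
    (B ^ 4 * (a : ℝ) ^ (ε / 2))
    (fun p => wgt3 g1 g2 a b r κ p * (w p.1.1 * Real.exp (-η * p.1.2)))
    (fun q => by split_ifs <;> positivity) ?_ hs ?_).2
  · refine hmain.trans ?_
    have e1 : (a : ℝ) ^ (ε / 2) ≤ (a : ℝ) ^ ε := Real.rpow_le_rpow_of_exponent_le ha1 (by linarith only [hε])
    have e2 : -(1 + ε / 2 + ε / 2) = -(1 + ε) := by ring
    rw [e2] at hle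
    have e3 : B ^ 4 ≤ |B| ^ 4 + 1 := by rw [abs_of_nonneg hB]; linarith only [e2]
    have e4 : 0 ≤ κ.re ^ (-(1 + ε)) := by positivity
    calc C1 * (B ^ 4 * (a : ℝ) ^ (ε / 2) * _) ≤
        C1 * (B ^ 4 * (a : ℝ) ^ (ε / 2) * (C2 * κ.re ^ (-(1 + ε)) / Z)) := by
          refine mul_le_mul_of_nonneg_left (mul_le_mul_of_nonneg_left hle (by positivity)) (by linarith only [hC1])
      _ ≤ C1 * ((|B| ^ 4 + 1) * (a : ℝ) ^ ε * (C2 * κ.re ^ (-(1 + ε)) / Z)) := by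
          gcongr
      _ = _ := by ring
  · intro q
    by_cases hq : 0 < q.1 ∧ 0 < q.2
    · by_cases hz : Z < sqd q.1
      · rw [if_pos hq, if_pos hz, if_pos ⟨hq.1, hq.2, hz⟩]
        have := K3_A2_mul (a := a) (ε := ε / 2) (α := 0) (c := κ.re) (K := B ^ 4) le_rfl (by positivity)
          q.1 q.2 hq.1 hq.2
        rw [Real.rpow_zero, one_mul, zero_add] at this
        exact this
      · rw [if_pos hq, if_neg hz, if_neg (fun h => hz h.2.2)]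
        ring
    · rw [if_neg hq, if_neg (fun h => hq ⟨h.1, h.2.1⟩), mul_zero]
  · intro p
    rw [norm_mul, norm_mul]
    have h5 := norm_wgt3_le hg1 hg2 a b r κ p
    have h7 : ‖((Real.exp (-η * p.1.2) : ℝ) : ℂ)‖ ≤ 1 := by
      rw [Complex.norm_real, Real.norm_eq_abs, abs_of_nonneg (Real.exp_nonneg _), Real.exp_le_one_iff]
      have : 0 ≤ η * p.1.2 := by positivity
      linarith only [this]
    by_cases hz : Z < sqd p.1.1
    · rw [if_pos hz]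
      split_ifs at h5 ⊢ with hc
      · calc _ ≤ (B ^ 4 * Real.exp (-κ.re * (p.1.1 * p.1.2))) * (1 * 1) := by
              refine mul_le_mul h5 (mul_le_mul (hw _) h7 (norm_nonneg _) (by positivity))
                (by positivity) (by positivity)
          _ = _ := by ring
      · have h6 : ‖wgt3 g1 g2 a b r κ p‖ = 0 := le_antisymm h5 (norm_nonneg _)
        rw [h6, zero_mul]
    · rw [hw0 p.1.1 (not_lt.1 hz), norm_zero, zero_mul, mul_zero, if_neg hz, ite_self]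

end OOK

end

section

/-!
# Summing over u last
-/

open Complex Finset
open scoped ComplexConjugate

namespace OOK

private lemma OK07_inner3 {g1 g2 : ℕ → ℂ} {B : ℝ} (hg1 : Bd3 g1 B)
     {a b r : ℕ} (ha : 0 < a)
    {κ : ℂ} (w : ℕ → ℂ) {η : ℝ} (u : ℕ)
    (hs : Summable fun y : ℕ × (ℕ × ℕ) => wgt3 g1 g2 a b r κ ((u, y.1), y.2) *
      (w u * Real.exp (-η * y.1))) :
    ∑' y : ℕ × (ℕ × ℕ), wgt3 g1 g2 a b r κ ((u, y.1), y.2) * (w u * Real.exp (-η * y.1)) =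
      w u * g1 u * TT3 g1 g2 b r (a * u) (κ / a + η / (a * u)) := by
  rcases Nat.eq_zero_or_pos u with rfl | hu
  · have h0 : g1 0 = 0 := hg1.zero
    have h1 : ∀ y : ℕ × (ℕ × ℕ), wgt3 g1 g2 a b r κ ((0, y.1), y.2) *
        (w 0 * Real.exp (-η * y.1)) = 0 := by
      intro y
      unfold wgt3
      simp only [h0]
      simp
    rw [tsum_congr h1, tsum_zero, h0]
    simp
  · have hau : 0 < a * u := Nat.mul_pos ha hu
    rw [← (Equiv.prodComm (ℕ × ℕ) ℕ).tsum_eq, Summable.tsum_prod]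
    swap
    · exact hs.prod_symm
    unfold TT3
    rw [← tsum_mul_left]
    refine tsum_congr fun st => ?_
    simp only [Equiv.prodComm_apply, Prod.swap_prod_mk]
    by_cases hd : a * u ∣ b * (st.1 * st.2) + r
    · obtain ⟨v0, hv0⟩ := hd
      have hq : (b * (st.1 * st.2) + r) / (a * u) = v0 := by
        rw [hv0]
        exact Nat.mul_div_cancel_left _ hau
      rw [tsum_eq_single v0, if_pos ⟨v0, hv0⟩]
      · have hcond : a * (u * v0) = b * (st.1 * st.2) + r := by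
          rw [hv0, mul_assoc]
        have hexp : cexp (-κ * ((u : ℂ) * (v0 : ℂ))) * ((Real.exp (-η * (v0 : ℝ)) : ℝ) : ℂ) =
            cexp (-(κ / a + η / (a * u)) * ((b * (st.1 * st.2) + r : ℕ) : ℂ)) := by
          rw [ofReal_exp, ← Complex.exp_add]
          congr 1
          rw [hv0]
          have ha' : (a : ℂ) ≠ 0 := Nat.cast_ne_zero.mpr ha.ne'
          have hu' : (u : ℂ) ≠ 0 := Nat.cast_ne_zero.mpr hu.ne'
          push_cast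
          field_simp
          ring
        unfold wgt3
        simp only [if_pos hcond, hq]
        rw [← hexp]
        ring
      · intro v hv
        have hcond : ¬ (a * (u * v) = b * (st.1 * st.2) + r) := by
          intro h
          apply hv
          have h2 : a * u * v = a * u * v0 := by rw [mul_assoc, h, hv0]
          exact Nat.eq_of_mul_eq_mul_left hau h2
        unfold wgt3
        simp only [if_neg hcond, zero_mul]
    · rw [if_neg hd, mul_zero]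
      have h1 : ∀ v : ℕ, wgt3 g1 g2 a b r κ ((u, v), st) * (w u * Real.exp (-η * v)) = 0 := by
        intro v
        have hcond : ¬ (a * (u * v) = b * (st.1 * st.2) + r) := by
          intro h
          exact hd ⟨v, by rw [← h, mul_assoc]⟩
        unfold wgt3
        simp only [if_neg hcond, zero_mul]
      rw [tsum_congr h1, tsum_zero]

/-- For fixed `u ≥ 1`: the quadruples with `a u v = b s t + r` correspond to the pairs `(s, t)` with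
`a u ∣ b s t + r`, `v = (b s t + r) / (a u)`; `exp(-κ u v - η v) = exp(-μ (b s t + r))`,
`μ = κ / a + η / (a u)`, because `b s t + r = a u v`. Use `summable_wgt3` (bounded weights) and
`tsum_prod`/`HasSum.sigma` for the map `p ↦ u`; the terms with `u = 0` vanish (`f 0 = 0`). -/
theorem ZZ_eq3 {g1 g2 : ℕ → ℂ} {B : ℝ} (hg1 : Bd3 g1 B) (hg2 : Bd3 g2 B)
     {a b r : ℕ} (ha : 0 < a)
    (hb : 0 < b) (hr : 0 < r) {κ : ℂ} (hκ : 0 < κ.re) (w : ℕ → ℂ) (hw : ∀ u, ‖w u‖ ≤ 1)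
    {η : ℝ} (hη : 0 ≤ η) :
    Summable (fun u : ℕ => w u * g1 u *
      TT3 g1 g2 b r (a * u) (κ / a + η / (a * u))) ∧
    ZZ3 g1 g2 a b r κ w η = ∑' u : ℕ, w u * g1 u *
      TT3 g1 g2 b r (a * u) (κ / a + η / (a * u)) := by
  have hG : Summable fun p : (ℕ × ℕ) × (ℕ × ℕ) => wgt3 g1 g2 a b r κ p *
      (w p.1.1 * Real.exp (-η * p.1.2)) := by
    refine Summable.of_norm_bounded (summable_wgt3 hg1 hg2 ha hb hr hκ).norm fun p => ?_
    rw [norm_mul]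
    refine mul_le_of_le_one_right (norm_nonneg _) ?_
    rw [norm_mul]
    refine mul_le_one₀ (hw _) (norm_nonneg _) ?_
    rw [Complex.norm_real, Real.norm_eq_abs, abs_of_pos (Real.exp_pos _), Real.exp_le_one_iff]
    have : 0 ≤ η * (p.1.2 : ℝ) := by positivity
    linarith only [this]
  set e := Equiv.prodAssoc ℕ ℕ (ℕ × ℕ) with he
  have hG' : Summable fun x : ℕ × (ℕ × (ℕ × ℕ)) => wgt3 g1 g2 a b r κ ((x.1, x.2.1), x.2.2) *
      (w x.1 * Real.exp (-η * x.2.1)) := hG.comp_injective e.symm.injective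
  have hin : ∀ u : ℕ, ∑' y : ℕ × (ℕ × ℕ), wgt3 g1 g2 a b r κ ((u, y.1), y.2) *
      (w u * Real.exp (-η * y.1)) =
      w u * g1 u * TT3 g1 g2 b r (a * u) (κ / a + η / (a * u)) := fun u =>
    OK07_inner3 hg1 ha w u (hG'.prod_factor u)
  have hin' : (fun u : ℕ => ∑' y : ℕ × (ℕ × ℕ), wgt3 g1 g2 a b r κ ((u, y.1), y.2) *
      (w u * Real.exp (-η * y.1))) = fun u : ℕ =>
      w u * g1 u * TT3 g1 g2 b r (a * u) (κ / a + η / (a * u)) := funext hin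
  constructor
  · rw [← hin']
    exact hG'.prod
  · rw [← hin']
    unfold ZZ3
    rw [← e.symm.tsum_eq]
    exact hG'.tsum_prod

end OOK

end

section

/-!
# The bound of the inner sum
-/

open Complex Finset
open scoped ComplexConjugate

namespace OOK

variable {q1 q2 : ℕ}

/-- the bound of the logarithm -/
theorem K3_log {ε N : ℝ} (hε : 0 < ε) (hN : 1 ≤ N) {x : ℝ} (hx : 1 ≤ x) :
    1 + Real.log (x * N) ≤ (1 + Real.log N + 1 / ε) * x ^ ε := by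
  have hx0 : 0 < x := by linarith only [hx]
  have hN0 : 0 < N := by linarith only [hN]
  rw [Real.log_mul hx0.ne' hN0.ne']
  have h1 : Real.log x ≤ x ^ ε / ε := Real.log_le_rpow_div hx0.le hε
  have h2 : 1 ≤ x ^ ε := Real.one_le_rpow hx hε.le
  have h3 : 0 ≤ Real.log N := Real.log_nonneg hN
  have h4 : 1 + Real.log N ≤ (1 + Real.log N) * x ^ ε := le_mul_of_one_le_right (by linarith only [h3]) h2
  have h5 : (1 + Real.log N + 1 / ε) * x ^ ε = (1 + Real.log N) * x ^ ε + x ^ ε / ε := by ring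
  rw [h5]
  linarith only [h1, h4]

/-- the final numerical inequality -/
theorem K3_num {ε ε1 a b r d u X N Cd Cl CB S P1 P2 P3 P4 : ℝ} (h1 : 0 < ε1) (h2 : ε1 ≤ ε / 8) (h3 : ε1 ≤ 1)
    (ha : 1 ≤ a) (hb : 1 ≤ b) (hr : 1 ≤ r) (hd : 1 ≤ d) (hu : 1 ≤ u) (hX : 1 ≤ X) (hN : 1 ≤ N) (hCd : 0 ≤ Cd)
    (hCl : 0 ≤ Cl) (hCB : 0 ≤ CB) (hS : 0 ≤ S) (p1 : P1 ≤ (a ^ 2 * b * r * N ^ 2 * d ^ 3) ^ 2)
    (p2 : P2 ≤ (Cd * u ^ ε1) ^ 3) (p3 : P3 ≤ (Cl * (a * u) ^ ε1) ^ 2) (p4 : P4 ≤ CB * (2 * a * X) ^ ε1 * S)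
    (q1 : 0 ≤ P1) (q2 : 0 ≤ P2) (q3 : 0 ≤ P3) (q4 : 0 ≤ P4) :
    P1 * P2 * P3 * P4 ≤ N ^ 4 * Cd ^ 3 * Cl ^ 2 * 2 * CB * (a * b * r * d) ^ 12 * (u * X) ^ ε * S := by
  have ha0 : 0 ≤ a := by linarith only [ha]
  have hb0 : 0 ≤ b := by linarith only [hb]
  have hr0 : 0 ≤ r := by linarith only [hr]
  have hd0 : 0 ≤ d := by linarith only [hd]
  have hu0 : 0 ≤ u := by linarith only [hu]
  have hX0 : 0 ≤ X := by linarith only [hX]
  have hN0 : 0 ≤ N := by linarith only [hN]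
  have hε : 0 < ε := by linarith only [h1, h2]
  have e1 : P1 * P2 * P3 * P4 ≤ (a ^ 2 * b * r * N ^ 2 * d ^ 3) ^ 2 * (Cd * u ^ ε1) ^ 3 * (Cl * (a * u) ^ ε1) ^ 2 *
      (CB * (2 * a * X) ^ ε1 * S) := by
    have t1 : P1 * P2 ≤ (a ^ 2 * b * r * N ^ 2 * d ^ 3) ^ 2 * (Cd * u ^ ε1) ^ 3 :=
      mul_le_mul p1 p2 q2 (by positivity)
    have t2 := mul_le_mul t1 p3 q3 (by positivity)
    exact mul_le_mul t2 p4 q4 (by positivity)
  refine e1.trans ?_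
  have f1 : (a * u) ^ ε1 = a ^ ε1 * u ^ ε1 := Real.mul_rpow ha0 hu0
  have f2 : (2 * a * X) ^ ε1 = 2 ^ ε1 * a ^ ε1 * X ^ ε1 := by
    rw [Real.mul_rpow (by positivity) hX0, Real.mul_rpow (by norm_num) ha0]
  have f3 : (u * X) ^ ε = u ^ ε * X ^ ε := Real.mul_rpow hu0 hX0
  rw [f1, f2, f3]
  have g1 : a ^ ε1 ≤ a := by
    calc a ^ ε1 ≤ a ^ (1 : ℝ) := Real.rpow_le_rpow_of_exponent_le ha h3
      _ = a := Real.rpow_one a
  have g2 : (2 : ℝ) ^ ε1 ≤ 2 := by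
    calc (2 : ℝ) ^ ε1 ≤ 2 ^ (1 : ℝ) := Real.rpow_le_rpow_of_exponent_le (by norm_num) h3
      _ = 2 := Real.rpow_one 2
  have g3 : (u ^ ε1) ^ 5 ≤ u ^ ε := by
    rw [← Real.rpow_natCast, ← Real.rpow_mul hu0]
    apply Real.rpow_le_rpow_of_exponent_le hu
    push_cast
    linarith only [h1, h2]
  have g4 : X ^ ε1 ≤ X ^ ε := Real.rpow_le_rpow_of_exponent_le hX (by linarith only [h1, h2])
  have a1 : 0 ≤ a ^ ε1 := Real.rpow_nonneg ha0 _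
  have u1 : 0 ≤ u ^ ε1 := Real.rpow_nonneg hu0 _
  have X1 : 0 ≤ X ^ ε1 := Real.rpow_nonneg hX0 _
  have X2 : 0 ≤ X ^ ε := Real.rpow_nonneg hX0 _
  have u2 : 0 ≤ u ^ ε := Real.rpow_nonneg hu0 _
  have w2 : 0 ≤ (2 : ℝ) ^ ε1 := Real.rpow_nonneg (by norm_num) _
  have g5 : (a ^ ε1) ^ 3 ≤ a ^ 3 := pow_le_pow_left₀ a1 g1 3
  have m1 : (a ^ ε1) ^ 3 * (u ^ ε1) ^ 5 * 2 ^ ε1 * X ^ ε1 ≤ a ^ 3 * u ^ ε * 2 * X ^ ε :=
    mul_le_mul (mul_le_mul (mul_le_mul g5 g3 (by positivity) (by positivity)) g2 w2 (by positivity)) g4 X1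
      (by positivity)
  have m2 : a ^ 4 * b ^ 2 * r ^ 2 * d ^ 6 * a ^ 3 ≤ (a * b * r * d) ^ 12 := by
    have k1 : a ^ 7 ≤ a ^ 12 := pow_le_pow_right₀ ha (by norm_num)
    have k2 : b ^ 2 ≤ b ^ 12 := pow_le_pow_right₀ hb (by norm_num)
    have k3 : r ^ 2 ≤ r ^ 12 := pow_le_pow_right₀ hr (by norm_num)
    have k4 : d ^ 6 ≤ d ^ 12 := pow_le_pow_right₀ hd (by norm_num)
    calc a ^ 4 * b ^ 2 * r ^ 2 * d ^ 6 * a ^ 3 = a ^ 7 * b ^ 2 * r ^ 2 * d ^ 6 := by ring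
      _ ≤ a ^ 12 * b ^ 12 * r ^ 12 * d ^ 12 :=
          mul_le_mul (mul_le_mul (mul_le_mul k1 k2 (by positivity) (by positivity)) k3 (by positivity)
            (by positivity)) k4 (by positivity) (by positivity)
      _ = _ := by ring
  calc (a ^ 2 * b * r * N ^ 2 * d ^ 3) ^ 2 * (Cd * u ^ ε1) ^ 3 * (Cl * (a ^ ε1 * u ^ ε1)) ^ 2 *
        (CB * (2 ^ ε1 * a ^ ε1 * X ^ ε1) * S)
      = (N ^ 4 * Cd ^ 3 * Cl ^ 2 * CB * S) * (a ^ 4 * b ^ 2 * r ^ 2 * d ^ 6) *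
          ((a ^ ε1) ^ 3 * (u ^ ε1) ^ 5 * 2 ^ ε1 * X ^ ε1) := by ring
    _ ≤ (N ^ 4 * Cd ^ 3 * Cl ^ 2 * CB * S) * (a ^ 4 * b ^ 2 * r ^ 2 * d ^ 6) * (a ^ 3 * u ^ ε * 2 * X ^ ε) :=
        mul_le_mul_of_nonneg_left m1 (by positivity)
    _ = (N ^ 4 * Cd ^ 3 * Cl ^ 2 * CB * S * u ^ ε * 2 * X ^ ε) * (a ^ 4 * b ^ 2 * r ^ 2 * d ^ 6 * a ^ 3) := by ring
    _ ≤ (N ^ 4 * Cd ^ 3 * Cl ^ 2 * CB * S * u ^ ε * 2 * X ^ ε) * (a * b * r * d) ^ 12 :=
        mul_le_mul_of_nonneg_left m2 (by positivity)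
    _ = _ := by ring

theorem T_bound3_a1 {A ρ b Y a u N X : ℝ} (hA : 0 ≤ A) (hρ : 0 < ρ) (hb : 1 ≤ b) (hY : 0 < Y) (ha : 0 < a)
    (hu : 0 < u) (hN : 1 ≤ N) (hρX : 1 / ρ ≤ 2 * a * X) :
    (A / (ρ * b * Y) + A / (ρ * b * Y)) / (a * u * N) ≤ 4 * A * (X / (Y * u)) := by
  have hb0 : 0 < b := one_pos.trans_le hb
  have hN0 : 0 < N := one_pos.trans_le hN
  have h1 : 1 ≤ 2 * a * X * ρ := (div_le_iff₀ hρ).1 hρX
  have h2 : 1 ≤ 2 * a * X * ρ * (b * N) :=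
    one_le_mul_of_one_le_of_one_le h1 (one_le_mul_of_one_le_of_one_le hb hN)
  rw [← add_div, div_div, ← mul_div_assoc, div_le_div_iff₀ (mul_pos (mul_pos (mul_pos hρ hb0) hY) (mul_pos (mul_pos ha hu) hN0))
    (mul_pos hY hu)]
  have h3 : (A + A) * (Y * u) ≤ (A + A) * (Y * u) * (2 * a * X * ρ * (b * N)) :=
    le_mul_of_one_le_right (mul_nonneg (add_nonneg hA hA) (mul_pos hY hu).le) h2
  refine h3.trans (le_of_eq ?_)
  ring

theorem T_bound3_a2 {s1 su CV R P E x z : ℝ} (hs10 : s1 ≤ su) (hsu : 0 ≤ su) (hCV : 0 ≤ CV) (hR0 : 0 ≤ R)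
    (hR : R ≤ P) (hP : 1 ≤ P) (hE : 0 ≤ E) (hx : 0 ≤ x) (hz : z ≤ 192 * E * x) :
    s1 * (CV * R) + z ≤ (CV + 192 * E) * P * (su + x) := by
  have h1 : s1 * (CV * R) ≤ su * (CV * P) :=
    mul_le_mul hs10 (mul_le_mul_of_nonneg_left hR hCV) (mul_nonneg hCV hR0) hsu
  have hP0 : 0 ≤ P := zero_le_one.trans hP
  have h3 : E * x ≤ E * x * P := le_mul_of_one_le_right (mul_nonneg hE hx) hP
  have h4 : 0 ≤ CV * P * x := mul_nonneg (mul_nonneg hCV hP0) hx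
  have h5 : 0 ≤ E * P * su := mul_nonneg (mul_nonneg hE hP0) hsu
  linarith only [h1, hz, h3, h4, h5]

theorem T_bound3_a3 {a b Y X ρ : ℝ} (hb : 1 ≤ b) (hY : 0 < Y) (hρ : 0 < ρ) (hρX : 1 / ρ ≤ 2 * a * X) :
    1 / (ρ * b * Y) ≤ 2 * a * (X / Y) := by
  have hb0 : 0 < b := one_pos.trans_le hb
  have h1 : 1 ≤ 2 * a * X * ρ := (div_le_iff₀ hρ).1 hρX
  rw [← mul_div_assoc, div_le_div_iff₀ (mul_pos (mul_pos hρ hb0) hY) hY]
  have h2 : 1 ≤ 2 * a * X * ρ * b := one_le_mul_of_one_le_of_one_le h1 hb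
  have h3 : Y ≤ Y * (2 * a * X * ρ * b) := le_mul_of_one_le_right hY.le h2
  linarith only [h3]

theorem T_bound3_a4 {c a u N r n1 n3 E Q X Y W P UX x : ℝ} (hc : c = a * u * N) (ha : 1 ≤ a) (hu : 0 < u)
    (hN : 0 < N) (hr : 0 ≤ r) (h1 : n1 ≤ c * (N * r)) (h3 : n3 ≤ 60 * E * (x + Q)) (hn3 : 0 ≤ n3)
    (hx : x ≤ 2 * a * (X / Y)) (hQ : 0 ≤ Q) (hE : 0 ≤ E) (hW : W = X / Y + Q) (hW0 : 0 ≤ W) (hP : r ≤ P) (hUX : 1 ≤ UX) :
    (c ^ 2)⁻¹ * (n1 * n3) ≤ 120 * E * P * UX * (W / u) := by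
  have ha0 : 0 < a := one_pos.trans_le ha
  have hc0 : 0 < c := hc ▸ mul_pos (mul_pos ha0 hu) hN
  have h4 : x + Q ≤ 2 * a * W := by
    have h5 : Q ≤ a * Q := le_mul_of_one_le_left hQ ha
    have h6 : 0 ≤ a * Q := mul_nonneg ha0.le hQ
    rw [hW]
    linarith only [hx, h5, h6]
  have h7 : n1 * n3 ≤ c * (N * r) * (60 * E * (2 * a * W)) :=
    mul_le_mul h1 (h3.trans (mul_le_mul_of_nonneg_left h4 (mul_nonneg (by norm_num) hE))) hn3
      (mul_nonneg hc0.le (mul_nonneg hN.le hr))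
  have h8 : (c ^ 2)⁻¹ * (n1 * n3) ≤ (c ^ 2)⁻¹ * (c * (N * r) * (60 * E * (2 * a * W))) :=
    mul_le_mul_of_nonneg_left h7 (inv_pos.2 (pow_pos hc0 2)).le
  have h9 : (c ^ 2)⁻¹ * (c * (N * r) * (60 * E * (2 * a * W))) = 120 * E * r * 1 * (W / u) := by
    rw [hc]
    field_simp
    ring
  have h10 : 120 * E * r * 1 * (W / u) ≤ 120 * E * P * UX * (W / u) := by
    have h11 : 0 ≤ 120 * E := mul_nonneg (by norm_num) hE
    exact mul_le_mul_of_nonneg_right (mul_le_mul (mul_le_mul_of_nonneg_left hP h11) hUX zero_le_one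
      (mul_nonneg h11 (hr.trans hP))) (div_nonneg hW0 hu.le)
  rw [← h9] at h10
  exact h8.trans h10

theorem T_bound3_a5 {M F P UX su x w Z1 Z2 : ℝ} (hM : 0 ≤ M) (hF : 0 ≤ F) (hP : 0 ≤ P) (hUX : 0 ≤ UX) (hsu : 0 ≤ su)
    (hx : x ≤ w) (h1 : Z1 ≤ M * P * UX * (su + x)) (h2 : Z2 ≤ F * P * UX * w) :
    Z1 + Z2 ≤ (M + F) * P * UX * (su + w) := by
  have h3 : 0 ≤ F * P * UX * su := mul_nonneg (mul_nonneg (mul_nonneg hF hP) hUX) hsu
  have h4 : M * P * UX * (su + x) ≤ M * P * UX * (su + w) :=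
    mul_le_mul_of_nonneg_left (by linarith only [hx]) (mul_nonneg (mul_nonneg hM hP) hUX)
  linarith only [h1, h2, h3, h4]

theorem T_bound3_a6 {ε ε1 a b r d u X Y N Cd Cl CV E su s1 Q W P UX c ρ R D1 lg C2 Z1 Z2 : ℝ}
    (h1 : 0 < ε1) (h2 : ε1 ≤ ε / 8) (h3 : ε1 ≤ 1) (ha : 1 ≤ a) (hb : 1 ≤ b) (hr : 1 ≤ r) (hd : 1 ≤ d) (hu : 1 ≤ u)
    (hX : 1 ≤ X) (hN : 1 ≤ N) (hCd : 0 < Cd) (hCl : 0 < Cl) (hCV : 0 < CV) (hE : 0 ≤ E) (hY : 0 < Y) (hρ : 0 < ρ)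
    (hρX : 1 / ρ ≤ 2 * a * X) (hR : R ≤ (2 * a * X) ^ ε1) (hR0 : 0 ≤ R) (hsu : 0 ≤ su) (hs1 : s1 ≤ su) (hs10 : 0 ≤ s1)
    (hQ : 0 ≤ Q) (hW : W = X / Y + Q) (hc : c = a * u * N)
    (p1 : C2 ≤ a ^ 2 * b * r * N ^ 2 * d ^ 3) (hC20 : 0 ≤ C2) (p2 : D1 ≤ Cd * u ^ ε1) (hD1 : 0 ≤ D1)
    (p3 : lg ≤ Cl * (a * u) ^ ε1) (hlg : 0 ≤ lg) (hP : P = (a * b * r * d) ^ 12) (hUX : UX = (u * X) ^ ε)
    (k1 : Z1 ≤ C2 ^ 2 * D1 ^ 3 * lg ^ 2 * (s1 * (CV * R) + (48 * E / (ρ * b * Y) + 48 * E / (ρ * b * Y)) / c))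
    (k2 : Z2 ≤ 120 * E * P * UX * (W / u)) :
    Z1 + Z2 ≤ (N ^ 4 * Cd ^ 3 * Cl ^ 2 * 2 * (CV + 192 * E) + 120 * E) * P * UX * (su + W / u) := by
  have ha0 : 0 < a := one_pos.trans_le ha
  have hb0 : 0 < b := one_pos.trans_le hb
  have hu0 : 0 < u := one_pos.trans_le hu
  have hX0 : 0 < X := one_pos.trans_le hX
  have hN0 : 0 < N := one_pos.trans_le hN
  have hP1 : 1 ≤ (2 * a * X) ^ ε1 :=
    Real.one_le_rpow (by have := one_le_mul_of_one_le_of_one_le ha hX; linarith only [this]) h1.le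
  have hx : 0 ≤ X / (Y * u) := (div_pos hX0 (mul_pos hY hu0)).le
  have hCB : 0 ≤ CV + 192 * E := add_nonneg hCV.le (mul_nonneg (by norm_num) hE)
  have h48 : 0 ≤ 48 * E := mul_nonneg (by norm_num) hE
  have t1 := T_bound3_a1 h48 hρ hb hY ha0 hu0 hN hρX
  have t2 : s1 * (CV * R) + (48 * E / (ρ * b * Y) + 48 * E / (ρ * b * Y)) / c ≤
      (CV + 192 * E) * (2 * a * X) ^ ε1 * (su + X / (Y * u)) := by
    rw [hc]
    exact T_bound3_a2 hs1 hsu hCV.le hR0 hR hP1 hE hx (by linarith only [t1])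
  have hv : 0 ≤ 48 * E / (ρ * b * Y) := div_nonneg h48 (mul_pos (mul_pos hρ hb0) hY).le
  have hc0 : 0 ≤ c := hc ▸ (mul_pos (mul_pos ha0 hu0) hN0).le
  have q4 : 0 ≤ s1 * (CV * R) + (48 * E / (ρ * b * Y) + 48 * E / (ρ * b * Y)) / c :=
    add_nonneg (mul_nonneg hs10 (mul_nonneg hCV.le hR0)) (div_nonneg (add_nonneg hv hv) hc0)
  have t3 := K3_num h1 h2 h3 ha hb hr hd hu hX hN hCd.le hCl.le hCB (add_nonneg hsu hx)
    (pow_le_pow_left₀ hC20 p1 2) (pow_le_pow_left₀ hD1 p2 3) (pow_le_pow_left₀ hlg p3 2) t2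
    (pow_nonneg hC20 2) (pow_nonneg hD1 3) (pow_nonneg hlg 2) q4
  rw [← hP, ← hUX] at t3
  have hP0 : 0 ≤ P := hP ▸ pow_nonneg (mul_nonneg (mul_nonneg (mul_nonneg ha0.le hb0.le)
    (zero_le_one.trans hr)) (zero_le_one.trans hd)) 12
  have hUX0 : 0 ≤ UX := hUX ▸ Real.rpow_nonneg (mul_nonneg hu0.le hX0.le) ε
  have hXW : X / (Y * u) ≤ W / u := by
    rw [← div_div]
    refine div_le_div_of_nonneg_right ?_ hu0.le
    rw [hW]
    exact le_add_of_nonneg_right hQ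
  have hM : 0 ≤ N ^ 4 * Cd ^ 3 * Cl ^ 2 * 2 * (CV + 192 * E) :=
    mul_nonneg (mul_nonneg (mul_nonneg (mul_nonneg (pow_nonneg hN0.le 4) (pow_nonneg hCd.le 3)) (pow_nonneg hCl.le 2))
      zero_le_two) hCB
  exact T_bound3_a5 hM (mul_nonneg (by norm_num) hE) hP0 hUX0 hsu hXW (k1.trans t3) k2

/-- `exists_split` with `N = q1 q2` (the modulus is `C₁ C₂ = A N`, `A = a u`, `u = d² e`), `TT_eq`,
`completion` (`Khat_zero`, `summable_Phi`, `V_bound`, `V1_bound`, `V2_bound`), `Khat_sum`. Then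
`C₂² ≤ (a² b r N² d³)²`, `d(C₁) ≤ C u^ε'` and `1 + log(a u N) ≤ C (a u)^ε'` (`card_divisors_le_rpow`,
`Real.log_le_rpow_div`; the implied constants may depend on `N` and `ε`), `sqrt C₁ ≤ sqrt u`,
`V ≤ C (2 a X)^ε'`, `(V₁ + V₂) / (C₁ C₂) ≤ 96 B³ 2 a X / (b Y a u N) ≤ 192 B³ a X / (Y u)`. Exponents of
`a, b, r, d`: at most `4 + 1 + small`, `2`, `2`, `6`, all `≤ 12`. -/
theorem T_bound3 (χ1 : DirichletCharacter ℂ q1) (χ2 : DirichletCharacter ℂ q2) (hq1 : 0 < q1)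
    (hq2 : 0 < q2) (B : ℝ) {ε : ℝ} (hε : 0 < ε) : ∃ C : ℝ, 0 < C ∧
      ∀ (F F1 F2 G G1 G2 : ℝ → ℂ) (Y Y' : ℝ), Cut3 F F1 F2 B Y → Cut3 G G1 G2 B Y → Y ≤ Y' →
      ((∃ g : ℕ, g.Coprime (q1 * q2) ∧ χ1 g ≠ χ2 g) ∨ ∀ m, Y' ^ 2 ≤ m → J3 F G m = 0) →
      ∀ a b r u : ℕ, 0 < a → 0 < b → 0 < r → 0 < u → ∀ (μ : ℂ) (X : ℝ), 0 < μ.re →
        ‖μ‖ ≤ 2 * μ.re → 1 ≤ X → 1 / μ.re ≤ 2 * a * X →
        ‖TT3 (fun n => F n * χ1 n) (fun n => G n * χ2 n) b r (a * u) μ‖ ≤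
          C * ((a * b * r * sqd u : ℕ) : ℝ) ^ 12 * (u * X) ^ ε *
          (Real.sqrt u + (X / Y + Y' ^ (21 / 10 : ℝ)) / u) := by
  classical
  obtain ⟨ε1, hε1, hε18, hε11⟩ : ∃ ε1 : ℝ, 0 < ε1 ∧ ε1 ≤ ε / 8 ∧ ε1 ≤ 1 :=
    ⟨min (ε / 8) 1, lt_min (by linarith only [hε]) one_pos, min_le_left _ _, min_le_right _ _⟩
  obtain ⟨Cd, hCd1, hCd⟩ := KlWeil.card_divisors_le_rpow ε1 hε1
  obtain ⟨CV, hCV, hVb⟩ := V_bound3 B hε1
  have hNN : 0 < q1 * q2 := Nat.mul_pos hq1 hq2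
  obtain ⟨N, hN⟩ : ∃ N : ℝ, N = ((q1 * q2 : ℕ) : ℝ) := ⟨_, rfl⟩
  have hN1 : 1 ≤ N := by
    rw [hN]
    exact Nat.one_le_cast.2 hNN
  obtain ⟨Cl, hCl⟩ : ∃ Cl : ℝ, Cl = 1 + Real.log N + 1 / ε1 := ⟨_, rfl⟩
  have hCl0 : 0 < Cl := by
    have h1 := Real.log_nonneg hN1
    have h2 : 0 < 1 / ε1 := one_div_pos.2 hε1
    rw [hCl]
    linarith only [h1, h2]
  have hCd0 : 0 < Cd := by linarith only [hCd1]
  have hN0 : 0 < N := one_pos.trans_le hN1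
  have hB3 : 0 ≤ |B| ^ 3 := pow_nonneg (abs_nonneg B) 3
  refine ⟨N ^ 4 * Cd ^ 3 * Cl ^ 2 * 2 * (CV + 192 * |B| ^ 3) + 120 * |B| ^ 3,
    add_pos_of_pos_of_nonneg (mul_pos (mul_pos (mul_pos (mul_pos (pow_pos hN0 4) (pow_pos hCd0 3)) (pow_pos hCl0 2))
      two_pos) (add_pos_of_pos_of_nonneg hCV (mul_nonneg (by norm_num) hB3))) (mul_nonneg (by norm_num) hB3), ?_⟩
  intro F F1 F2 G G1 G2 Y Y' hF' hG' hYY hg a b r u ha hb hr hu μ X hμ hμ2 hX hρX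
  have hF := hF'.conj
  have hG := hG'.conj
  have hA : 0 < a * u := Nat.mul_pos ha hu
  obtain ⟨H1, H2, hH⟩ := Ker3_of hG' (A := ((a * u : ℕ) : ℝ)) (Nat.cast_pos.2 hA) hμ hμ2
  have hB1 := hF.B1
  have hBabs : |B| = B := abs_of_nonneg (zero_le_one.trans hB1)
  rw [hBabs] at hB3 ⊢
  have hY0 : 0 < Y := two_pos.trans_le hF.Y2
  obtain ⟨hde, hsqf⟩ := sqd_spec u
  have hd : 0 < sqd u := by
    rcases Nat.eq_zero_or_pos (sqd u) with h | h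
    · rw [h, zero_pow two_ne_zero, zero_mul] at hde
      exact absurd hde hu.ne
    · exact h
  obtain ⟨C1, C2, hC1, hC2, hC, hcop, hsq, hC1u, hC1b, hC1r, hC1N, hC2le⟩ :=
    exists_split ha hb hr hd hsqf hNN
  rw [hde] at hC hC1u
  have : NeZero C1 := ⟨hC1.ne'⟩
  have : NeZero C2 := ⟨hC2.ne'⟩
  have : NeZero (C1 * C2) := ⟨(Nat.mul_pos hC1 hC2).ne'⟩
  have hF0 : F 0 = 0 := hF'.zero 0 hY0.le
  have hG0 : G 0 = 0 := hG'.zero 0 hY0.le
  have hR0 : 0 ≤ μ.re ^ (-ε1) := Real.rpow_nonneg hμ.le _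
  have hV0 : 0 ≤ CV * μ.re ^ (-ε1) := mul_nonneg hCV.le hR0
  have hb' : (0 : ℝ) < b := Nat.cast_pos.2 hb
  have hV1 : 0 ≤ 48 * B ^ 3 / (μ.re * b * Y) :=
    div_nonneg (mul_nonneg (by norm_num) hB3) (mul_pos (mul_pos hμ hb') hY0).le
  have key := completion3 (KK χ1 χ2 b r (a * u) (C1 * C2))
    (summable_Phi3 hF hG hH hb hr)
    (fun t => by unfold Phi3; beta_reduce; rw [Nat.cast_zero, hF0, map_zero, zero_mul, zero_mul])
    (fun s => by unfold Phi3; beta_reduce; rw [Nat.cast_zero, hG0, map_zero, mul_zero, zero_mul])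
    (hVb _ _ _ _ _ _ _ _ _ Y μ.re hF hG hH b r hb hr) (V1_bound3 hF hG hH hb hr) (V2_bound3 hF hG hH hb hr)
  have ks := Khat_sum χ1 χ2 (b := b) (r := r) (A := a * u) hcop hA hq1 hq2 hC (hC1u.mul_left a)
    hC1b hC1r hsq hV0 hV1 hV1
  rw [TT_eq3 F G χ1 χ2 hA hq1 hq2 hC μ]
  refine key.trans ?_
  have ra : (1 : ℝ) ≤ a := Nat.one_le_cast.2 ha
  have rb : (1 : ℝ) ≤ b := Nat.one_le_cast.2 hb
  have rr : (1 : ℝ) ≤ r := Nat.one_le_cast.2 hr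
  have rd : (1 : ℝ) ≤ (sqd u : ℝ) := Nat.one_le_cast.2 hd
  have ru : (1 : ℝ) ≤ u := Nat.one_le_cast.2 hu
  have ru0 : (0 : ℝ) < u := one_pos.trans_le ru
  have ra0 : (0 : ℝ) < a := one_pos.trans_le ra
  have hC1le : C1 ≤ u := Nat.le_of_dvd hu hC1u
  have hC1r' : (C1 : ℝ) ≤ u := Nat.cast_le.2 hC1le
  have hcc : ((C1 * C2 : ℕ) : ℝ) = a * u * N := by
    rw [← hC, hN, Nat.cast_mul, Nat.cast_mul]
  have p1 : (C2 : ℝ) ≤ (a : ℝ) ^ 2 * b * r * N ^ 2 * (sqd u : ℝ) ^ 3 := by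
    have h1 : (C2 : ℝ) ≤ ((a ^ 2 * b * r * (q1 * q2) ^ 2 * sqd u ^ 3 : ℕ) : ℝ) := Nat.cast_le.2 hC2le
    rw [Nat.cast_mul, Nat.cast_mul, Nat.cast_mul, Nat.cast_mul, Nat.cast_pow, Nat.cast_pow, Nat.cast_pow, ← hN] at h1
    exact h1
  have p2 : (C1.divisors.card : ℝ) ≤ Cd * (u : ℝ) ^ ε1 :=
    (hCd C1 hC1.ne').trans
      (mul_le_mul_of_nonneg_left (Real.rpow_le_rpow (Nat.cast_nonneg _) hC1r' hε1.le) hCd0.le)
  have hau : (1 : ℝ) ≤ (a : ℝ) * u := one_le_mul_of_one_le_of_one_le ra ru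
  have p3 : 1 + Real.log ((C1 * C2 : ℕ) : ℝ) ≤ Cl * ((a : ℝ) * u) ^ ε1 := by
    rw [hcc, hCl]
    exact K3_log hε1 hN1 hau
  have hlg : 0 ≤ 1 + Real.log ((C1 * C2 : ℕ) : ℝ) := by
    rw [hcc]
    exact add_nonneg zero_le_one (Real.log_nonneg (one_le_mul_of_one_le_of_one_le hau hN1))
  have hX0 : 0 < X := one_pos.trans_le hX
  have hρ : μ.re ^ (-ε1) ≤ (2 * (a : ℝ) * X) ^ ε1 := by
    rw [Real.rpow_neg hμ.le, ← Real.inv_rpow hμ.le, ← one_div]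
    exact Real.rpow_le_rpow (one_div_pos.2 hμ).le hρX hε1.le
  have hQ0 : 0 ≤ Y' ^ (21 / 10 : ℝ) := Real.rpow_nonneg (hY0.le.trans hYY) _
  have hW0 : 0 ≤ X / Y + Y' ^ (21 / 10 : ℝ) := add_nonneg (div_pos hX0 hY0).le hQ0
  have hP : ((a * b * r * sqd u : ℕ) : ℝ) ^ 12 = ((a : ℝ) * b * r * sqd u) ^ 12 := by
    rw [Nat.cast_mul, Nat.cast_mul, Nat.cast_mul]
  refine T_bound3_a6 hε1 hε18 hε11 ra rb rr rd ru hX hN1 hCd0 hCl0 hCV hB3 hY0 hμ hρX hρ hR0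
    (Real.sqrt_nonneg _) (Real.sqrt_le_sqrt hC1r') (Real.sqrt_nonneg _) hQ0 rfl hcc p1 (Nat.cast_nonneg _)
    p2 (Nat.cast_nonneg _) p3 hlg hP rfl ks ?_
  -- the zero frequency
  rcases hg with hg | hJ
  · rw [Khat_zero χ1 χ2 hA hq1 hq2 hC hg, norm_zero, zero_mul, mul_zero]
    exact mul_nonneg (mul_nonneg (mul_nonneg (mul_nonneg (by norm_num) hB3) (pow_nonneg (Nat.cast_nonneg _) 12))
      (Real.rpow_nonneg (mul_nonneg ru0.le hX0.le) _)) (div_nonneg hW0 ru0.le)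
  · have h1 := Khat_00 χ1 χ2 (b := b) hA hr hC
    have hJ' : ∀ m, Y' ^ 2 ≤ m → J3 (fun x => conj (F x)) (fun x => conj (G x)) m = 0 := by
      intro m hm
      have h2 := hJ m hm
      unfold J3 at h2 ⊢
      have h3 : ∀ s : ℝ, conj (F s) * conj (G (m / s)) / (s : ℂ) = conj (F s * G (m / s) / s) := by
        intro s
        rw [map_div₀, map_mul, Complex.conj_ofReal]
      simp only [h3]
      rw [integral_conj, h2, map_zero]
    have h2 := K3_sum hF hG hH hb hr hYY hJ'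
    rw [← hN] at h1
    have habrd : 1 ≤ a * b * r * sqd u := Nat.mul_pos (Nat.mul_pos (Nat.mul_pos ha hb) hr) hd
    have hP1 : (r : ℝ) ≤ ((a * b * r * sqd u : ℕ) : ℝ) ^ 12 := by
      have h1 : r ≤ a * b * r * sqd u :=
        (Nat.le_mul_of_pos_left r (Nat.mul_pos ha hb)).trans (Nat.le_mul_of_pos_right _ hd)
      exact (Nat.cast_le.2 h1).trans (le_self_pow₀ (Nat.one_le_cast.2 habrd) (by norm_num))
    exact T_bound3_a4 hcc ra ru0 hN0 (Nat.cast_nonneg _) h1 h2 (norm_nonneg _)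
      (T_bound3_a3 rb hY0 hμ hρX) hQ0 hB3 rfl hW0 hP1
      (Real.one_le_rpow (one_le_mul_of_one_le_of_one_le ru hX) hε.le)

end OOK

end

section

/-!
# The bound of the weighted sums
-/

open Complex Finset
open scoped ComplexConjugate

namespace OOK

variable {q1 q2 : ℕ}

/-- the coefficients -/
theorem Bd3_of {F F1 F2 : ℝ → ℂ} {B Y : ℝ} (hF : Cut3 F F1 F2 B Y) {q : ℕ} (χ : DirichletCharacter ℂ q) :
    Bd3 (fun n : ℕ => F n * χ n) B where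
  B1 := hF.B1
  zero := by
    have hY := hF.Y2
    simp only [Nat.cast_zero]
    rw [hF.zero 0 (by linarith only [hY]), zero_mul]
  bd n := by
    have hB : 0 ≤ B := zero_le_one.trans hF.B1
    rw [norm_mul]
    calc ‖F n‖ * ‖χ n‖ ≤ B * 1 := mul_le_mul (hF.bd0 _) (DirichletCharacter.norm_le_one _ _) (norm_nonneg _) hB
      _ = B := mul_one _

/-- the weighted sums are summable (bounded weight) -/
lemma K3_ZZ_summable {g1 g2 : ℕ → ℂ} {B : ℝ} (hg1 : Bd3 g1 B) (hg2 : Bd3 g2 B)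
    {a b r : ℕ} (ha : 0 < a)
    (hb : 0 < b) (hr : 0 < r) {κ : ℂ} (hκ : 0 < κ.re) (w : ℕ → ℂ) (hw : ∀ u, ‖w u‖ ≤ 1)
    {η : ℝ} (hη : 0 ≤ η) :
    Summable (fun p : (ℕ × ℕ) × (ℕ × ℕ) =>
      wgt3 g1 g2 a b r κ p * (w p.1.1 * Real.exp (-η * p.1.2))) := by
  have hs := (summable_wgt3 hg1 hg2 ha hb hr hκ).norm
  refine Summable.of_norm_bounded hs ?_
  intro p
  rw [norm_mul, norm_mul, Complex.norm_real, Real.norm_eq_abs, abs_of_pos (Real.exp_pos _)]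
  have h1 : Real.exp (-η * p.1.2) ≤ 1 := by
    rw [Real.exp_le_one_iff]
    have : (0 : ℝ) ≤ p.1.2 := Nat.cast_nonneg _
    nlinarith only [hη]
  have h2 : ‖w p.1.1‖ * Real.exp (-η * p.1.2) ≤ 1 :=
    mul_le_one₀ (hw _) (Real.exp_pos _).le h1
  exact mul_le_of_le_one_right (norm_nonneg _) h2

/-- additivity of the weighted sum in the weight -/
lemma K3_ZZ_add {g1 g2 : ℕ → ℂ} {B : ℝ} (hg1 : Bd3 g1 B) (hg2 : Bd3 g2 B)
    {a b r : ℕ} (ha : 0 < a)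
    (hb : 0 < b) (hr : 0 < r) {κ : ℂ} (hκ : 0 < κ.re) (w w1 w2 : ℕ → ℂ)
    (h1 : ∀ u, ‖w1 u‖ ≤ 1) (h2 : ∀ u, ‖w2 u‖ ≤ 1) (hw : ∀ u, w u = w1 u + w2 u)
    {η : ℝ} (hη : 0 ≤ η) :
    ZZ3 g1 g2 a b r κ w η = ZZ3 g1 g2 a b r κ w1 η + ZZ3 g1 g2 a b r κ w2 η := by
  unfold ZZ3
  rw [← (K3_ZZ_summable hg1 hg2 ha hb hr hκ w1 h1 hη).tsum_add
    (K3_ZZ_summable hg1 hg2 ha hb hr hκ w2 h2 hη)]
  refine tsum_congr fun p => ?_
  rw [hw]
  ring


private theorem Z_bound3_fin {A C P E S1 S2 : ℝ} (hA : 0 ≤ A) (hC : 0 ≤ C) (hP : 0 ≤ P)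
    (hE : 0 ≤ E) (h1 : 0 ≤ S1) (h2 : 0 ≤ S2) :
    A * P * E * S1 + C * P * E * S2 ≤ (A + C) * P * E * (S1 + S2) := by
  have h3 : 0 ≤ A * P * E * S2 := mul_nonneg (mul_nonneg (mul_nonneg hA hP) hE) h2
  have h4 : 0 ≤ C * P * E * S1 := mul_nonneg (mul_nonneg (mul_nonneg hC hP) hE) h1
  have h5 : (A + C) * P * E * (S1 + S2) =
      A * P * E * S1 + C * P * E * S2 + (A * P * E * S2 + C * P * E * S1) := by ring
  rw [h5]
  linarith only [h3, h4]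

private theorem Z_bound3_weights (D Z : ℝ) (hD0 : 0 < D) : ∃ w1 w2 : ℕ → ℂ,
    (∀ u, ‖w1 u‖ ≤ 1) ∧ (∀ u, ‖w2 u‖ ≤ 1) ∧
    (∀ u : ℕ, ((Real.exp (-(u : ℝ) / D) : ℝ) : ℂ) = w1 u + w2 u) ∧
    (∀ u, (sqd u : ℝ) ≤ Z → w2 u = 0) ∧
    (∀ u, (sqd u : ℝ) ≤ Z → ‖w1 u‖ = Real.exp (-(u : ℝ) / D)) ∧
    (∀ u, ¬ (sqd u : ℝ) ≤ Z → w1 u = 0) := by
  have hexp1 : ∀ u : ℕ, Real.exp (-(u : ℝ) / D) ≤ 1 := by
    intro u
    rw [Real.exp_le_one_iff, neg_div]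
    exact neg_nonpos.2 (div_nonneg (Nat.cast_nonneg _) hD0.le)
  have hn : ∀ u : ℕ, ‖((Real.exp (-(u : ℝ) / D) : ℝ) : ℂ)‖ = Real.exp (-(u : ℝ) / D) := by
    intro u
    rw [Complex.norm_real, Real.norm_eq_abs, abs_of_pos (Real.exp_pos _)]
  refine ⟨fun u => if (sqd u : ℝ) ≤ Z then ((Real.exp (-(u : ℝ) / D) : ℝ) : ℂ) else 0,
    fun u => if (sqd u : ℝ) ≤ Z then 0 else ((Real.exp (-(u : ℝ) / D) : ℝ) : ℂ),
    fun u => ?_, fun u => ?_, fun u => ?_, fun u hu => ?_, fun u hu => ?_, fun u hu => ?_⟩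
  · by_cases h : (sqd u : ℝ) ≤ Z
    · simp only [if_pos h, hn]; exact hexp1 u
    · simp only [if_neg h, norm_zero]; exact zero_le_one
  · by_cases h : (sqd u : ℝ) ≤ Z
    · simp only [if_pos h, norm_zero]; exact zero_le_one
    · simp only [if_neg h, hn]; exact hexp1 u
  · by_cases h : (sqd u : ℝ) ≤ Z
    · simp only [if_pos h, add_zero]
    · simp only [if_neg h, zero_add]
  · simp only [if_pos hu]
  · simp only [if_pos hu, hn]
  · simp only [if_neg hu]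

private theorem Z_bound3_b2 {a P C2 e1 ε k X D Z : ℝ} (ha1 : 1 ≤ a) (haP : a ≤ P) (hC2 : 0 ≤ C2)
    (he10 : 0 ≤ e1) (he11 : e1 ≤ 1) (he1ε : e1 ≤ ε) (hX1 : 1 ≤ X) (hD1 : 1 ≤ D) (hZ0 : 0 < Z)
    (hk : (2 * X)⁻¹ ≤ k) :
    C2 * a ^ e1 * k ^ (-(1 + e1)) / Z ≤ 4 * C2 * P * (X * D) ^ ε * (X / Z) := by
  have hX0 : 0 < X := one_pos.trans_le hX1
  have hX2 : 0 < 2 * X := mul_pos two_pos hX0
  have hP0 : 0 ≤ P := (zero_le_one.trans ha1).trans haP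
  have h1 : a ^ e1 ≤ P := by
    calc a ^ e1 ≤ a ^ (1 : ℝ) := Real.rpow_le_rpow_of_exponent_le ha1 he11
      _ = a := Real.rpow_one _
      _ ≤ P := haP
  have h22 : k ^ (-(1 + e1)) ≤ ((2 * X)⁻¹) ^ (-(1 + e1)) :=
    Real.rpow_le_rpow_of_nonpos (inv_pos.2 hX2) hk (by linarith only [he10])
  have h21 : ((2 * X)⁻¹) ^ (-(1 + e1)) = (2 : ℝ) ^ (1 + e1) * X ^ (1 + e1) := by
    rw [Real.rpow_neg (inv_pos.2 hX2).le, Real.inv_rpow hX2.le, inv_inv,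
      Real.mul_rpow two_pos.le hX0.le]
  have h23 : (2 : ℝ) ^ (1 + e1) ≤ 4 := by
    calc (2 : ℝ) ^ (1 + e1) ≤ (2 : ℝ) ^ (2 : ℝ) :=
          Real.rpow_le_rpow_of_exponent_le one_le_two (by linarith only [he11])
      _ = 4 := by norm_num
  have h24 : X ^ (1 + e1) ≤ X * (X * D) ^ ε := by
    rw [Real.rpow_add hX0, Real.rpow_one]
    refine mul_le_mul_of_nonneg_left ?_ hX0.le
    calc X ^ e1 ≤ X ^ ε := Real.rpow_le_rpow_of_exponent_le hX1 he1ε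
      _ ≤ (X * D) ^ ε := Real.rpow_le_rpow hX0.le
          (le_mul_of_one_le_right hX0.le hD1) (he10.trans he1ε)
  have h2 : k ^ (-(1 + e1)) ≤ 4 * (X * (X * D) ^ ε) := by
    refine h22.trans ?_
    rw [h21]
    exact mul_le_mul h23 h24 (Real.rpow_nonneg hX0.le _) zero_le_four
  have hk0 : 0 ≤ k := (inv_pos.2 hX2).le.trans hk
  have h3 : C2 * a ^ e1 * k ^ (-(1 + e1)) ≤ C2 * P * (4 * (X * (X * D) ^ ε)) :=
    mul_le_mul (mul_le_mul_of_nonneg_left h1 hC2) h2 (Real.rpow_nonneg hk0 _)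
      (mul_nonneg hC2 hP0)
  calc C2 * a ^ e1 * k ^ (-(1 + e1)) / Z ≤ C2 * P * (4 * (X * (X * D) ^ ε)) / Z :=
        div_le_div_of_nonneg_right h3 hZ0.le
    _ = 4 * C2 * P * (X * D) ^ ε * (X / Z) := by ring

private theorem Z_bound3_mu (κ : ℂ) (a u : ℕ) (ha0 : (0 : ℝ) < a) (hu0 : (0 : ℝ) < u) (η X : ℝ)
    (hη : 0 ≤ η) (hκ : ‖κ‖ / 2 ≤ κ.re) (hκre : 0 < κ.re) (hX0 : 0 < X)
    (hinvX : (2 * X)⁻¹ ≤ κ.re) :
    0 < (κ / a + η / (a * u) : ℂ).re ∧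
    ‖(κ / a + η / (a * u) : ℂ)‖ ≤ 2 * (κ / a + η / (a * u) : ℂ).re ∧
    1 / (κ / a + η / (a * u) : ℂ).re ≤ 2 * a * X := by
  have e0 : ((η : ℂ) / ((a : ℂ) * (u : ℂ))) = ((η / (a * u) : ℝ) : ℂ) := by
    push_cast
    rfl
  have hμeq : (κ / a + η / (a * u) : ℂ).re = κ.re / a + η / (a * u) := by
    rw [Complex.add_re, Complex.div_natCast_re, e0, Complex.ofReal_re]
  have hηau : 0 ≤ η / ((a : ℝ) * u) := div_nonneg hη (mul_pos ha0 hu0).le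
  have hκa : 0 < κ.re / a := div_pos hκre ha0
  rw [hμeq]
  refine ⟨add_pos_of_pos_of_nonneg hκa hηau, ?_, ?_⟩
  · refine (norm_add_le _ _).trans ?_
    rw [norm_div, Complex.norm_natCast, e0, Complex.norm_real, Real.norm_eq_abs,
      abs_of_nonneg hηau]
    have h1 : ‖κ‖ / a ≤ 2 * (κ.re / a) := by
      rw [← mul_div_assoc]
      exact div_le_div_of_nonneg_right (by linarith only [hκ]) ha0.le
    linarith only [hηau, h1]
  · have h2 : (2 * (a : ℝ) * X)⁻¹ = (2 * X)⁻¹ / a := by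
      rw [mul_assoc, mul_inv, mul_inv, mul_inv]
      ring
    have h1 : (2 * a * X)⁻¹ ≤ κ.re / a + η / (a * u) := by
      rw [h2]
      have h3 : (2 * X)⁻¹ / a ≤ κ.re / a := div_le_div_of_nonneg_right hinvX ha0.le
      linarith only [hηau, h3]
    rw [one_div]
    exact inv_le_of_inv_le₀ (mul_pos (mul_pos two_pos ha0) hX0) h1

private theorem Z_bound3_pow {u X W ε : ℝ} (hu0 : 0 < u) (hX0 : 0 < X) :
    (u * X) ^ (ε / 2) * (Real.sqrt u + W / u) =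
      X ^ (ε / 2) * (u ^ (1 / 2 + ε / 2) + W * u ^ (ε / 2 - 1)) := by
  have hu : u ≠ 0 := hu0.ne'
  rw [Real.mul_rpow hu0.le hX0.le, Real.rpow_add hu0, Real.rpow_sub hu0,
    Real.rpow_one, Real.sqrt_eq_rpow]
  ring

private theorem Z_bound3_t {E G T B' C1 S Xe V1 V2 W : ℝ} (hE : 0 ≤ E) (hG : 0 ≤ G)
    (hGB : G ≤ B') (hT0 : 0 ≤ T) (hT : T ≤ C1 * S * (Xe * (V1 + W * V2))) :
    E * G * T ≤ B' * C1 * S * Xe * (V1 * E + W * (V2 * E)) := by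
  have h : E * G * T ≤ E * B' * (C1 * S * (Xe * (V1 + W * V2))) :=
    mul_le_mul (mul_le_mul_of_nonneg_left hGB hE) hT hT0 (mul_nonneg hE (hG.trans hGB))
  refine h.trans (le_of_eq ?_)
  ring

private theorem Z_bound3_b1 {K0 C3 C4 T3 T4 D ε X W Z12 : ℝ} (hK : 0 ≤ K0) (hZ : 0 ≤ Z12)
    (hD0 : 0 < D) (hX1 : 1 ≤ X) (hε : 0 < ε) (hC3 : 0 ≤ C3) (hC4 : 0 ≤ C4) (hW : 0 ≤ W)
    (b3 : T3 ≤ C3 * D ^ (1 + (1 / 2 + ε / 2) + ε / 2))
    (b4 : T4 ≤ C4 * D ^ (1 + (ε / 2 - 1) + ε / 2)) :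
    K0 * Z12 * X ^ (ε / 2) * (T3 + W * T4) ≤
      K0 * (C3 + C4) * (X * D) ^ ε * (Z12 * (D ^ (3 / 2 : ℝ) + W)) := by
  have hX0 : 0 < X := one_pos.trans_le hX1
  have e1 : (1 + (1 / 2 + ε / 2) + ε / 2 : ℝ) = ε + 3 / 2 := by ring
  have e2 : (1 + (ε / 2 - 1) + ε / 2 : ℝ) = ε := by ring
  rw [e1, Real.rpow_add hD0] at b3
  rw [e2] at b4
  rw [Real.mul_rpow hX0.le hD0.le]
  have hXε : X ^ (ε / 2) ≤ X ^ ε :=
    Real.rpow_le_rpow_of_exponent_le hX1 (by linarith only [hε])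
  have hX3 : 0 ≤ X ^ (ε / 2) := Real.rpow_nonneg hX0.le _
  have hX4 : 0 ≤ X ^ ε := Real.rpow_nonneg hX0.le _
  have hD3 : 0 ≤ D ^ ε := Real.rpow_nonneg hD0.le _
  have hD4 : 0 ≤ D ^ (3 / 2 : ℝ) := Real.rpow_nonneg hD0.le _
  generalize X ^ (ε / 2) = x1 at *
  generalize X ^ ε = x2 at *
  generalize D ^ ε = d1 at *
  generalize D ^ (3 / 2 : ℝ) = d2 at *
  have h1 : T3 + W * T4 ≤ (C3 + C4) * d1 * (d2 + W) := by
    have h2 : W * T4 ≤ W * (C4 * d1) := mul_le_mul_of_nonneg_left b4 hW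
    have h3 : (C3 + C4) * d1 * (d2 + W) =
        C3 * (d1 * d2) + W * (C4 * d1) + (C4 * (d1 * d2) + W * (C3 * d1)) := by ring
    have h4 : 0 ≤ C4 * (d1 * d2) + W * (C3 * d1) :=
      add_nonneg (mul_nonneg hC4 (mul_nonneg hD3 hD4)) (mul_nonneg hW (mul_nonneg hC3 hD3))
    rw [h3]
    linarith only [b3, h2, h4]
  have h5 : 0 ≤ (C3 + C4) * d1 * (d2 + W) :=
    mul_nonneg (mul_nonneg (add_nonneg hC3 hC4) hD3) (add_nonneg hD4 hW)
  have h6 : K0 * Z12 * x1 * (T3 + W * T4) ≤ K0 * Z12 * x2 * ((C3 + C4) * d1 * (d2 + W)) :=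
    (mul_le_mul_of_nonneg_left h1 (mul_nonneg (mul_nonneg hK hZ) hX3)).trans
      (mul_le_mul_of_nonneg_right (mul_le_mul_of_nonneg_left hXε (mul_nonneg hK hZ)) h5)
  refine h6.trans (le_of_eq ?_)
  ring

private theorem Z_bound3_hb1 {g1 g2 : ℕ → ℂ} {B B' C1 C3 C4 ε : ℝ} (hg1 : Bd3 g1 B)
    (hg2 : Bd3 g2 B) (hε : 0 < ε) (hB : B ≤ B') (hC1 : 0 ≤ C1) (hC3 : 0 ≤ C3) (hC4 : 0 ≤ C4)
    {a b r : ℕ} (ha : 0 < a) (hb : 0 < b) (hr : 0 < r) {κ : ℂ} (hκre : 0 < κ.re)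
    {w1 : ℕ → ℂ} (hw1n : ∀ u, ‖w1 u‖ ≤ 1) {η : ℝ} (hη : 0 ≤ η) {D Z X W P : ℝ} (hD0 : 0 < D)
    (hZ0 : 0 ≤ Z) (hX1 : 1 ≤ X) (hW0 : 0 ≤ W) (hP0 : 0 ≤ P)
    (s3 : Summable (fun u : ℕ =>
      if 0 < u then (u : ℝ) ^ (1 / 2 + ε / 2) * Real.exp (-u / D) else 0))
    (b3 : ∑' u : ℕ, (if 0 < u then (u : ℝ) ^ (1 / 2 + ε / 2) * Real.exp (-u / D) else 0) ≤
      C3 * D ^ (1 + (1 / 2 + ε / 2) + ε / 2))
    (s4 : Summable (fun u : ℕ =>
      if 0 < u then (u : ℝ) ^ (ε / 2 - 1) * Real.exp (-u / D) else 0))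
    (b4 : ∑' u : ℕ, (if 0 < u then (u : ℝ) ^ (ε / 2 - 1) * Real.exp (-u / D) else 0) ≤
      C4 * D ^ (1 + (ε / 2 - 1) + ε / 2))
    (hw1e : ∀ u, (sqd u : ℝ) ≤ Z → ‖w1 u‖ = Real.exp (-(u : ℝ) / D))
    (hw10 : ∀ u, ¬ (sqd u : ℝ) ≤ Z → w1 u = 0)
    (hTT : ∀ u : ℕ, 0 < u → (sqd u : ℝ) ≤ Z →
      ‖TT3 g1 g2 b r (a * u) (κ / a + η / (a * u))‖ ≤
        C1 * (P * Z ^ 12) * (X ^ (ε / 2) *
          ((u : ℝ) ^ (1 / 2 + ε / 2) + W * (u : ℝ) ^ (ε / 2 - 1)))) :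
    ‖ZZ3 g1 g2 a b r κ w1 η‖ ≤
      B' * C1 * (C3 + C4) * P * (X * D) ^ ε * (Z ^ 12 * (D ^ (3 / 2 : ℝ) + W)) := by
  have hB'0 : 0 ≤ B' := (zero_le_one.trans hg1.B1).trans hB
  have hX0 : 0 < X := one_pos.trans_le hX1
  have hK0 : 0 ≤ B' * C1 * (P * Z ^ 12) * X ^ (ε / 2) :=
    mul_nonneg (mul_nonneg (mul_nonneg hB'0 hC1) (mul_nonneg hP0 (pow_nonneg hZ0 12)))
      (Real.rpow_nonneg hX0.le _)
  rw [(ZZ_eq3 hg1 hg2 ha hb hr hκre w1 hw1n hη).2]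
  have hterm : ∀ u : ℕ, ‖w1 u * g1 u * TT3 g1 g2 b r (a * u) (κ / a + η / (a * u))‖ ≤
      B' * C1 * (P * Z ^ 12) * X ^ (ε / 2) *
        ((if 0 < u then (u : ℝ) ^ (1 / 2 + ε / 2) * Real.exp (-u / D) else 0) +
          W * (if 0 < u then (u : ℝ) ^ (ε / 2 - 1) * Real.exp (-u / D) else 0)) := by
    intro u
    rcases Nat.eq_zero_or_pos u with hu | hu
    · subst hu
      rw [hg1.zero, mul_zero, zero_mul, norm_zero, if_neg (lt_irrefl 0), if_neg (lt_irrefl 0),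
        mul_zero, add_zero, mul_zero]
    · rw [if_pos hu, if_pos hu]
      by_cases hs : (sqd u : ℝ) ≤ Z
      · rw [norm_mul, norm_mul, hw1e u hs]
        exact Z_bound3_t (Real.exp_pos _).le (norm_nonneg _) ((hg1.bd u).trans hB)
          (norm_nonneg _) (hTT u hu hs)
      · rw [hw10 u hs, zero_mul, zero_mul, norm_zero]
        refine mul_nonneg hK0 (add_nonneg ?_ (mul_nonneg hW0 ?_)) <;>
        exact mul_nonneg (Real.rpow_nonneg (Nat.cast_nonneg _) _) (Real.exp_pos _).le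
  refine (tsum_of_norm_bounded ((s3.add (s4.mul_left W)).mul_left _).hasSum hterm).trans ?_
  rw [tsum_mul_left, s3.tsum_add (s4.mul_left _), tsum_mul_left]
  have h := Z_bound3_b1 (K0 := B' * C1 * P) (Z12 := Z ^ 12)
    (mul_nonneg (mul_nonneg hB'0 hC1) hP0) (pow_nonneg hZ0 12) hD0 hX1 hε hC3 hC4 hW0 b3 b4
  have e3 : B' * C1 * (P * Z ^ 12) * X ^ (ε / 2) = B' * C1 * P * Z ^ 12 * X ^ (ε / 2) := by ring
  have e4 : B' * C1 * (C3 + C4) * P * (X * D) ^ ε = B' * C1 * P * (C3 + C4) * (X * D) ^ ε := by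
    ring
  rw [e3, e4]
  exact h

private theorem Z_bound3_inv {κ : ℂ} (hn : 0 < ‖κ‖) (hκ : ‖κ‖ / 2 ≤ κ.re) :
    (2 * (1 + 1 / ‖κ‖))⁻¹ ≤ κ.re := by
  have h1 : 0 < 1 / ‖κ‖ := div_pos one_pos hn
  have h2 : (1 + 1 / ‖κ‖)⁻¹ ≤ ‖κ‖ := by
    rw [inv_le_comm₀ (add_pos one_pos h1) hn, one_div]
    exact le_add_of_nonneg_left zero_le_one
  rw [mul_inv]
  linarith only [hκ, h2]

/-- Split `w = w₁ + w₂`, `w(u) = exp(-u/D)`, `w₂(u) = w(u)` if `sqd u > Z` and `0` otherwise. `ZZ` is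
additive in `w` (`summable_wgt`). `ZZ w₂`: `sq_bound`. `ZZ w₁`: `ZZ_eq` and `T_bound` with
`μ = κ/a + η/(a u)` (`Re μ ≥ Re κ / a ≥ |κ| / (2a)`, so `1 / Re μ ≤ 2 a X`, `X = 1 + 1/|κ|`;
`|μ| ≤ 2 Re μ`), `sqd u ≤ Z`, `|f u| ≤ B`: the sum is at most
`C (a b r)^12 Z^12 X^ε ∑_{u ≥ 1} e^(-u/D) (u^(1/2 + ε) + (X/Y) u^(ε - 1))`; `tsum_one` twice (take `ε/4`
instead of `ε` in `T_bound`). `κ.re ^ (-(1 + ε)) ≤ (2 X)^(1 + ε)`. -/
theorem Z_bound3 (χ1 : DirichletCharacter ℂ q1) (χ2 : DirichletCharacter ℂ q2) (hq1 : 0 < q1)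
    (hq2 : 0 < q2) (B : ℝ) {ε : ℝ} (hε : 0 < ε) : ∃ C : ℝ, 0 < C ∧
      ∀ (F F1 F2 G G1 G2 : ℝ → ℂ) (Y Y' : ℝ), Cut3 F F1 F2 B Y → Cut3 G G1 G2 B Y → Y ≤ Y' →
      ((∃ g : ℕ, g.Coprime (q1 * q2) ∧ χ1 g ≠ χ2 g) ∨ ∀ m, Y' ^ 2 ≤ m → J3 F G m = 0) →
      ∀ a b r : ℕ, 0 < a → 0 < b → 0 < r → ∀ κ : ℂ, κ ≠ 0 → ‖κ‖ / 2 ≤ κ.re →
        ∀ D Z η : ℝ, 1 ≤ D → 1 ≤ Z → 0 ≤ η →
        ‖ZZ3 (fun n => F n * χ1 n) (fun n => G n * χ2 n) a b r κ (fun u => (Real.exp (-u / D) : ℝ)) η‖ ≤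
          C * ((a * b * r : ℕ) : ℝ) ^ 12 * ((1 + 1 / ‖κ‖) * D) ^ ε *
            (Z ^ 12 * (D ^ (3 / 2 : ℝ) + ((1 + 1 / ‖κ‖) / Y + Y' ^ (21 / 10 : ℝ))) + (1 + 1 / ‖κ‖) / Z) := by
  have hε2 : 0 < ε / 2 := half_pos hε
  obtain ⟨e1, he10, he11, he1ε⟩ : ∃ e1 : ℝ, 0 < e1 ∧ e1 ≤ 1 ∧ e1 ≤ ε :=
    ⟨min ε 1, lt_min hε one_pos, min_le_right _ _, min_le_left _ _⟩
  obtain ⟨C1, hC1, hT⟩ := T_bound3 χ1 χ2 hq1 hq2 B hε2
  obtain ⟨C2, hC2, hS⟩ := sq_bound3 B he10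
  obtain ⟨C3, hC3, hU3⟩ := tsum_one (α := 1 / 2 + ε / 2) (ε := ε / 2) hε2
    (by linarith only [hε2])
  obtain ⟨C4, hC4, hU4⟩ := tsum_one (α := ε / 2 - 1) (ε := ε / 2) hε2 (by linarith only [hε2])
  obtain ⟨B', hB'0, hBB⟩ : ∃ B' : ℝ, 0 < B' ∧ B ≤ B' :=
    ⟨|B| + 1, add_pos_of_nonneg_of_pos (abs_nonneg B) one_pos,
      (le_abs_self B).trans (le_add_of_nonneg_right zero_le_one)⟩
  refine ⟨B' * C1 * (C3 + C4) + 4 * C2, add_pos (mul_pos (mul_pos hB'0 hC1) (add_pos hC3 hC4))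
    (mul_pos four_pos hC2), ?_⟩
  intro F F1 F2 G G1 G2 Y Y' hF hG hYY hg a b r ha hb hr κ hκ0 hκ D Z η hD1 hZ1 hη
  have hTT0 := hT F F1 F2 G G1 G2 Y Y' hF hG hYY hg a b r
  have hg1 := Bd3_of hF χ1
  have hg2 := Bd3_of hG χ2
  have hY2 := hF.Y2
  clear hT hF hG hg
  generalize (fun n : ℕ => F n * χ1 n) = g1 at hTT0 hg1 ⊢
  generalize (fun n : ℕ => G n * χ2 n) = g2 at hTT0 hg2 ⊢
  have hn : 0 < ‖κ‖ := norm_pos_iff.mpr hκ0
  have hκre : 0 < κ.re := lt_of_lt_of_le (half_pos hn) hκ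
  have hinvX := Z_bound3_inv hn hκ
  have hX1 : 1 ≤ 1 + 1 / ‖κ‖ := le_add_of_nonneg_right (div_pos one_pos hn).le
  generalize 1 + 1 / ‖κ‖ = X at hinvX hX1 ⊢
  have hX0 : 0 < X := one_pos.trans_le hX1
  have hD0 : 0 < D := one_pos.trans_le hD1
  have hZ0 : 0 < Z := one_pos.trans_le hZ1
  have hY0 : 0 < Y := two_pos.trans_le hY2
  have hW0 : 0 ≤ X / Y + Y' ^ (21 / 10 : ℝ) :=
    add_nonneg (div_nonneg hX0.le hY0.le) (Real.rpow_nonneg (hY0.le.trans hYY) _)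
  have hTT1 := fun u hu μ hμ1 hμ2 hμ3 => hTT0 u ha hb hr hu μ X hμ1 hμ2 hX1 hμ3
  clear hTT0
  generalize X / Y + Y' ^ (21 / 10 : ℝ) = W at hW0 hTT1 ⊢
  have habr : (a : ℝ) ≤ ((a * b * r : ℕ) : ℝ) := by
    have h : a ≤ a * b * r := by
      calc a = a * 1 * 1 := by rw [mul_one, mul_one]
        _ ≤ a * b * r := Nat.mul_le_mul (Nat.mul_le_mul_left a hb) hr
    exact Nat.cast_le.2 h
  have ha1 : (1 : ℝ) ≤ a := Nat.one_le_cast.2 ha
  have ha0 : (0 : ℝ) < a := one_pos.trans_le ha1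
  have haP : (a : ℝ) ≤ ((a * b * r : ℕ) : ℝ) ^ 12 :=
    habr.trans (le_self_pow₀ (ha1.trans habr) (by decide))
  have hTT2 : ∀ u : ℕ, 0 < u → (sqd u : ℝ) ≤ Z →
      ‖TT3 g1 g2 b r (a * u) (κ / a + η / (a * u))‖ ≤
        C1 * (((a * b * r : ℕ) : ℝ) ^ 12 * Z ^ 12) * (X ^ (ε / 2) *
          ((u : ℝ) ^ (1 / 2 + ε / 2) + W * (u : ℝ) ^ (ε / 2 - 1))) := by
    intro u hu hs
    have hu0 : (0 : ℝ) < u := Nat.cast_pos.2 hu
    obtain ⟨h1, h2, h3⟩ := Z_bound3_mu κ a u ha0 hu0 η X hη hκ hκre hX0 hinvX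
    refine (hTT1 u hu _ h1 h2 h3).trans ?_
    rw [mul_assoc, Z_bound3_pow hu0 hX0]
    refine mul_le_mul_of_nonneg_right (mul_le_mul_of_nonneg_left ?_ hC1.le)
      (mul_nonneg (Real.rpow_nonneg hX0.le _) (add_nonneg (Real.rpow_nonneg hu0.le _)
        (mul_nonneg hW0 (Real.rpow_nonneg hu0.le _))))
    rw [← mul_pow]
    refine pow_le_pow_left₀ (Nat.cast_nonneg _) ?_ 12
    rw [Nat.cast_mul (a * b * r)]
    exact mul_le_mul_of_nonneg_left hs (Nat.cast_nonneg _)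
  clear hTT1
  generalize ((a * b * r : ℕ) : ℝ) ^ 12 = P at haP hTT2 ⊢
  have hP0 : 0 ≤ P := ha0.le.trans haP
  obtain ⟨w1, w2, hw1n, hw2n, hsplit, hw20, hw1e, hw10⟩ := Z_bound3_weights D Z hD0
  rw [K3_ZZ_add hg1 hg2 ha hb hr hκre _ w1 w2 hw1n hw2n hsplit hη]
  refine (norm_add_le _ _).trans ?_
  have hb2 : ‖ZZ3 g1 g2 a b r κ w2 η‖ ≤ 4 * C2 * P * (X * D) ^ ε * (X / Z) :=
    (hS g1 g2 hg1 hg2 a b r ha hb hr κ hκre Z hZ1 w2 hw2n hw20 η hη).trans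
      (Z_bound3_b2 ha1 haP hC2.le he10.le he11 he1ε hX1 hD1 hZ0 hinvX)
  obtain ⟨s3, b3⟩ := hU3 D hD0
  obtain ⟨s4, b4⟩ := hU4 D hD0
  have hb1 := Z_bound3_hb1 hg1 hg2 hε hBB hC1.le hC3.le hC4.le ha hb hr hκre hw1n hη hD0
    hZ0.le hX1 hW0 hP0 s3 b3 s4 b4 hw1e hw10 hTT2
  refine (add_le_add hb1 hb2).trans ?_
  exact Z_bound3_fin (mul_nonneg (mul_nonneg hB'0.le hC1.le) (add_nonneg hC3.le hC4.le))
    (mul_nonneg zero_le_four hC2.le) hP0 (Real.rpow_nonneg (mul_nonneg hX0.le hD0.le) _)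
    (mul_nonneg (pow_nonneg hZ0.le 12) (add_nonneg (Real.rpow_nonneg hD0.le _) hW0))
    (div_nonneg hX0.le hZ0.le)

end OOK

end
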