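import Pool.Agent.Lib.MP_0f5a55_nt.OM.K000
import Pool.Agent.Lib.MP_0f5a55_nt.OM.K035
import Pool.Agent.Lib.MP_0f5a55_nt.OM.K041
import Pool.Agent.Lib.MP_0f5a55_nt.OM.K048

section

open Complex MeasureTheory Set Filter Topology
open scoped ComplexConjugate

namespace OO

theorem T_Beta3_MA_norm {q : ℕ} (χ : DirichletCharacter ℂ q) (v : ℝ) {l : ℝ} (hl : 0 < l) (n : ℕ) :
    ‖MA (chx χ v) 0 (1 / l) n‖ ≤ 1 := by
  rw [T_Beta_MA_apply]
  split_ifs with hn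
  · have hn0 : n ≠ 0 := hn.ne_zero
    have hlog : 0 ≤ Real.log n := Real.log_natCast_nonneg n
    have h0 : 0 ≤ 1 / l * Real.log n := by positivity
    rw [neg_zero, Complex.cpow_zero, mul_one, norm_mul, norm_mul, norm_pow, Complex.norm_real,
      Real.norm_of_nonneg (T_Beta_wt_nonneg _)]
    have e1 : ‖(-1 / 2 : ℂ)‖ ≤ 1 := by norm_num
    have e2 : ‖chx χ v n‖ ≤ 1 := T_Lam3_norm χ v n
    have e3 := T_Beta_wt_le h0
    calc ‖(-1 / 2 : ℂ)‖ ^ n.primeFactors.card * ‖chx χ v n‖ * LZ.wt (1 / l * Real.log n)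
        ≤ 1 * 1 * 1 := by
          gcongr
          · exact T_Beta_wt_nonneg _
          · exact pow_le_one₀ (norm_nonneg _) e1
      _ = 1 := by norm_num
  · simp

theorem T_Beta3_MA_zero {q : ℕ} (χ : DirichletCharacter ℂ q) (v : ℝ) {l : ℝ} (hl : 0 < l) (n : ℕ)
    (hn : MA (chx χ v) 0 (1 / l) n ≠ 0) : (n : ℝ) ≤ Real.exp l := by
  rw [T_Beta_MA_apply] at hn
  split_ifs at hn with hsq
  · by_contra hlt
    push Not at hlt
    apply hn
    have hlog : l ≤ Real.log n := by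
      rw [← Real.log_exp l]
      exact Real.log_le_log (Real.exp_pos _) hlt.le
    have h1 : 1 ≤ 1 / l * Real.log n := by
      rw [one_div, ← div_eq_inv_mul, le_div_iff₀ hl]
      linarith
    rw [T_Beta_wt_eq h1]
    simp
  · exact absurd rfl hn

/-- the coefficients beta -/
theorem T_beta3 {q1 q2 : ℕ} (χ1 : DirichletCharacter ℂ q1) (χ2 : DirichletCharacter ℂ q2) (v l : ℝ) (hl : 0 < l) :
    beta (chx χ1 v) (chx χ2 (-v)) l 1 = 1 ∧ (∀ h, ‖beta (chx χ1 v) (chx χ2 (-v)) l h‖ ≤ h) ∧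
    (∀ h, Hl l < h → beta (chx χ1 v) (chx χ2 (-v)) l h = 0) ∧ 1 ≤ Hl l ∧ (Hl l : ℝ) ≤ Real.exp (2 * l) := by
  refine ⟨?_, ?_, ?_, ?_, ?_⟩
  · unfold beta
    rw [ArithmeticFunction.mul_apply, Nat.divisorsAntidiagonal_one, Finset.sum_singleton, T_Beta3_MA_one,
      T_Beta3_MA_one, one_mul]
  · intro h
    unfold beta
    rw [ArithmeticFunction.mul_apply]
    have h1 : ‖∑ x ∈ h.divisorsAntidiagonal, MA (chx χ1 v) 0 (1 / l) x.1 * MA (chx χ2 (-v)) 0 (1 / l) x.2‖ ≤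
        ∑ x ∈ h.divisorsAntidiagonal, (1 : ℝ) := by
      refine norm_sum_le_of_le _ fun x _ => ?_
      rw [norm_mul]
      have a1 := T_Beta3_MA_norm χ1 v hl x.1
      have a2 := T_Beta3_MA_norm χ2 (-v) hl x.2
      nlinarith [norm_nonneg (MA (chx χ1 v) 0 (1 / l) x.1), norm_nonneg (MA (chx χ2 (-v)) 0 (1 / l) x.2)]
    refine h1.trans ?_
    rw [Finset.sum_const, nsmul_eq_mul, mul_one, Nat.cast_le]
    have h2 : h.divisorsAntidiagonal.card ≤ h.divisors.card := by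
      rw [← Nat.map_div_right_divisors, Finset.card_map]
    exact h2.trans (Nat.card_divisors_le_self h)
  · intro h hh
    unfold beta
    rw [ArithmeticFunction.mul_apply]
    apply Finset.sum_eq_zero
    intro x hx
    by_contra hne
    have a1 := T_Beta3_MA_zero χ1 v hl x.1 (left_ne_zero_of_mul hne)
    have a2 := T_Beta3_MA_zero χ2 (-v) hl x.2 (right_ne_zero_of_mul hne)
    have hx' := (Nat.mem_divisorsAntidiagonal.1 hx).1
    have h3 : (h : ℝ) ≤ Real.exp (2 * l) := by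
      rw [← hx', Nat.cast_mul, two_mul, Real.exp_add]
      exact mul_le_mul a1 a2 (Nat.cast_nonneg _) (Real.exp_pos _).le
    have h4 : h ≤ Hl l := Nat.le_floor h3
    omega
  · apply Nat.le_floor
    rw [Nat.cast_one]
    exact Real.one_le_exp (by positivity)
  · exact Nat.floor_le (Real.exp_pos _).le

end OO

end

section

/-!
# The fourfold sum
-/

open Complex Finset
open scoped ComplexConjugate

namespace OOK

/-- Expand `lam3` and reorganise: for `n, n' ≥ 1` the pairs `(u, v)` with `u v = n` are the elements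
of `n.divisorsAntidiagonal` (terms with a zero variable vanish because `f 0 = 0`; `lam3 0 = 0`). Use
`summable_wgt3`, `tsum_prod`, `(Nat.divisorsAntidiagonal ...)` or
`tsum` over the fibres of `p ↦ (p.1.1 * p.1.2, p.2.1 * p.2.2)` (`HasSum.sigma`, `Equiv.sigmaFiberEquiv`):
`∑' p, wgt p = ∑' (n, n'), ∑_{(u,v) ∈ n.divisorsAntidiagonal} ∑_{(s,t) ∈ n'.divisorsAntidiagonal} wgt`. -/
theorem SS_eq3 {g1 g2 : ℕ → ℂ} {B : ℝ} (hg1 : Bd3 g1 B) (hg2 : Bd3 g2 B)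
     {a b r : ℕ} (ha : 0 < a)
    (hb : 0 < b) (hr : 0 < r) {κ : ℂ} (hκ : 0 < κ.re) :
    SS3 g1 g2 a b r κ = ∑' p, wgt3 g1 g2 a b r κ p := by
  classical
  have hsum : Summable (wgt3 g1 g2 a b r κ) := summable_wgt3 hg1 hg2 ha hb hr hκ
  set φ : (ℕ × ℕ) × (ℕ × ℕ) → ℕ × ℕ := fun p => (p.1.1 * p.1.2, p.2.1 * p.2.2) with hφ
  rw [← (hsum.hasSum.tsum_fiberwise φ).tsum_eq]
  unfold SS3
  refine tsum_congr fun c => ?_
  rw [tsum_subtype (φ ⁻¹' {c}) (wgt3 g1 g2 a b r κ)]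
  rw [tsum_eq_sum (s := c.1.divisorsAntidiagonal ×ˢ c.2.divisorsAntidiagonal)]
  · rw [Finset.sum_product]
    have hterm : ∀ x ∈ c.1.divisorsAntidiagonal, ∀ y ∈ c.2.divisorsAntidiagonal,
        (φ ⁻¹' {c}).indicator (wgt3 g1 g2 a b r κ) (x, y) = if a * c.1 = b * c.2 + r then
          (g1 x.1 * g2 x.2) * conj (g1 y.1 * g2 y.2) * cexp (-κ * c.1) else 0 := by
      intro x hx y hy
      have hx1 := (Nat.mem_divisorsAntidiagonal.1 hx).1
      have hy1 := (Nat.mem_divisorsAntidiagonal.1 hy).1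
      have hmem : (x, y) ∈ φ ⁻¹' {c} := by
        show φ (x, y) = c
        rw [hφ]
        exact Prod.ext hx1 hy1
      rw [Set.indicator_of_mem hmem]
      unfold wgt3
      dsimp only
      rw [hx1, hy1]
      by_cases hc : a * c.1 = b * c.2 + r
      · rw [if_pos hc, if_pos hc]
        have e1 : ((x.1 : ℂ) * (x.2 : ℂ)) = (c.1 : ℂ) := by
          rw [← hx1]; push_cast; ring
        rw [e1]
        simp only [map_mul]
      · rw [if_neg hc, if_neg hc]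
    rw [Finset.sum_congr rfl fun x hx => Finset.sum_congr rfl fun y hy => hterm x hx y hy]
    by_cases hc : a * c.1 = b * c.2 + r
    · simp only [if_pos hc]
      unfold lam3
      rw [map_sum, Finset.sum_mul_sum, Finset.sum_mul]
      refine Finset.sum_congr rfl fun x _ => ?_
      rw [Finset.sum_mul]
    · simp only [if_neg hc, Finset.sum_const_zero]
  · intro p hp
    by_cases hm : p ∈ φ ⁻¹' {c}
    · rw [Set.indicator_of_mem hm]
      have hm' : φ p = c := hm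
      have h1 : p.1.1 * p.1.2 = c.1 := congrArg Prod.fst hm'
      have h2 : p.2.1 * p.2.2 = c.2 := congrArg Prod.snd hm'
      have hz : c.1 = 0 ∨ c.2 = 0 := by
        by_contra hcon
        rw [not_or] at hcon
        exact hp (Finset.mem_product.2 ⟨Nat.mem_divisorsAntidiagonal.2 ⟨h1, hcon.1⟩,
          Nat.mem_divisorsAntidiagonal.2 ⟨h2, hcon.2⟩⟩)
      have hz2 : p.1.1 = 0 ∨ p.1.2 = 0 ∨ p.2.1 = 0 ∨ p.2.2 = 0 := by
        rcases hz with hz | hz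
        · rw [hz] at h1
          rcases Nat.mul_eq_zero.1 h1 with h | h
          · exact Or.inl h
          · exact Or.inr (Or.inl h)
        · rw [hz] at h2
          rcases Nat.mul_eq_zero.1 h2 with h | h
          · exact Or.inr (Or.inr (Or.inl h))
          · exact Or.inr (Or.inr (Or.inr h))
      unfold wgt3
      split_ifs
      · rcases hz2 with h | h | h | h
        · rw [h]; simp [hg1.zero]
        · rw [h]; simp [hg2.zero]
        · rw [h]; simp [hg1.zero]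
        · rw [h]; simp [hg2.zero]
      · rfl
    · rw [Set.indicator_of_notMem hm]

end OOK

end

section

/-!
# The partition3
-/

open Complex Finset
open scoped ComplexConjugate

namespace OOK

/-- `((u, v), (s, t)) ↦ ((v, u), (t, s))` exchanges the two characters (`Equiv.tsum_eq` with
`(Equiv.prodComm ..).prodCongr (Equiv.prodComm ..)`). -/
theorem wgt_swap3 (g1 g2 : ℕ → ℂ) (a b r : ℕ) (κ : ℂ) (u v s t : ℕ) :
    wgt3 g1 g2 a b r κ ((u, v), (s, t)) = wgt3 g2 g1 a b r κ ((v, u), (t, s)) := by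
  unfold wgt3
  dsimp only
  rw [mul_comm v u, mul_comm t s, mul_comm (v : ℂ) (u : ℂ)]
  by_cases h : a * (u * v) = b * (s * t) + r
  · rw [if_pos h, if_pos h]
    ring
  · rw [if_neg h, if_neg h]

/-- `1 = e^(-u/D) + e^(-v/D) - e^(-u/D) e^(-v/D) + (1 - e^(-u/D)) (1 - e^(-v/D))`; all the series
converge absolutely (`summable_wgt3`, bounded weights); the second one is the first one with the
characters exchanged (`wgt_swap3`). -/
theorem partition3 {g1 g2 : ℕ → ℂ} {B : ℝ} (hg1 : Bd3 g1 B) (hg2 : Bd3 g2 B)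
     {a b r : ℕ} (ha : 0 < a)
    (hb : 0 < b) (hr : 0 < r) {κ : ℂ} (hκ : 0 < κ.re) {D : ℝ} (hD : 1 ≤ D) :
    SS3 g1 g2 a b r κ =
      ZZ3 g1 g2 a b r κ (fun u => (Real.exp (-u / D) : ℝ)) 0 +
      ZZ3 g2 g1 a b r κ (fun u => (Real.exp (-u / D) : ℝ)) 0 -
      ZZ3 g1 g2 a b r κ (fun u => (Real.exp (-u / D) : ℝ)) (1 / D) +
      ∑' p : (ℕ × ℕ) × (ℕ × ℕ), wgt3 g1 g2 a b r κ p *
          ((1 - Real.exp (-p.1.1 / D) : ℝ) * (1 - Real.exp (-p.1.2 / D) : ℝ) : ℂ) := by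
  have hD0 : 0 < D := lt_of_lt_of_le one_pos hD
  have hs := summable_wgt3 hg1 hg2 ha hb hr hκ
  have hs' := summable_wgt3 hg2 hg1 ha hb hr hκ
  have hE1 : ∀ n : ℕ, ‖((Real.exp (-(n : ℝ) / D) : ℝ) : ℂ)‖ ≤ 1 := by
    intro n
    rw [Complex.norm_real, Real.norm_eq_abs, abs_of_pos (Real.exp_pos _)]
    exact Real.exp_le_one_iff.2 (by
      have : (0 : ℝ) ≤ n / D := by positivity
      rw [neg_div]
      linarith only [this])
  have key : ∀ (g : (ℕ × ℕ) × (ℕ × ℕ) → ℂ) (w : (ℕ × ℕ) × (ℕ × ℕ) → ℂ), Summable g → (∀ p, ‖w p‖ ≤ 1) →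
      Summable (fun p => g p * w p) := by
    intro g w hg hw
    refine Summable.of_norm_bounded hg.norm fun p => ?_
    rw [norm_mul]
    calc ‖g p‖ * ‖w p‖ ≤ ‖g p‖ * 1 := by gcongr; exact hw p
      _ = ‖g p‖ := mul_one _
  have hA : Summable (fun p : (ℕ × ℕ) × (ℕ × ℕ) => wgt3 g1 g2 a b r κ p * ((Real.exp (-(p.1.1 : ℝ) / D) : ℝ) : ℂ)) :=
    key _ _ hs fun p => hE1 _
  have hB : Summable (fun p : (ℕ × ℕ) × (ℕ × ℕ) => wgt3 g1 g2 a b r κ p * ((Real.exp (-(p.1.2 : ℝ) / D) : ℝ) : ℂ)) :=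
    key _ _ hs fun p => hE1 _
  have hC : Summable (fun p : (ℕ × ℕ) × (ℕ × ℕ) => wgt3 g1 g2 a b r κ p *
      (((Real.exp (-(p.1.1 : ℝ) / D) : ℝ) : ℂ) * ((Real.exp (-(p.1.2 : ℝ) / D) : ℝ) : ℂ))) := by
    refine key _ _ hs fun p => ?_
    rw [norm_mul]
    exact mul_le_one₀ (hE1 _) (norm_nonneg _) (hE1 _)
  have e1 : ZZ3 g1 g2 a b r κ (fun u => (Real.exp (-u / D) : ℝ)) 0 =
      ∑' p : (ℕ × ℕ) × (ℕ × ℕ), wgt3 g1 g2 a b r κ p * ((Real.exp (-(p.1.1 : ℝ) / D) : ℝ) : ℂ) := by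
    unfold ZZ3
    refine tsum_congr fun p => ?_
    rw [neg_zero, zero_mul, Real.exp_zero, Complex.ofReal_one, mul_one]
  have e2 : ZZ3 g2 g1 a b r κ (fun u => (Real.exp (-u / D) : ℝ)) 0 =
      ∑' p : (ℕ × ℕ) × (ℕ × ℕ), wgt3 g1 g2 a b r κ p * ((Real.exp (-(p.1.2 : ℝ) / D) : ℝ) : ℂ) := by
    unfold ZZ3
    rw [← Equiv.tsum_eq ((Equiv.prodComm ℕ ℕ).prodCongr (Equiv.prodComm ℕ ℕ))]
    refine tsum_congr fun p => ?_
    obtain ⟨⟨u, v⟩, ⟨s, t⟩⟩ := p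
    rw [neg_zero, zero_mul, Real.exp_zero, Complex.ofReal_one, mul_one]
    change wgt3 g2 g1 a b r κ ((v, u), (t, s)) * ((Real.exp (-(v : ℝ) / D) : ℝ) : ℂ) =
      wgt3 g1 g2 a b r κ ((u, v), (s, t)) * ((Real.exp (-(v : ℝ) / D) : ℝ) : ℂ)
    rw [wgt_swap3]
  have e3 : ZZ3 g1 g2 a b r κ (fun u => (Real.exp (-u / D) : ℝ)) (1 / D) =
      ∑' p : (ℕ × ℕ) × (ℕ × ℕ), wgt3 g1 g2 a b r κ p *
        (((Real.exp (-(p.1.1 : ℝ) / D) : ℝ) : ℂ) * ((Real.exp (-(p.1.2 : ℝ) / D) : ℝ) : ℂ)) := by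
    unfold ZZ3
    refine tsum_congr fun p => ?_
    have h : -(1 / D) * (p.1.2 : ℝ) = -(p.1.2 : ℝ) / D := by ring
    rw [h]
  have e4 : ∑' p : (ℕ × ℕ) × (ℕ × ℕ), wgt3 g1 g2 a b r κ p *
          ((1 - Real.exp (-p.1.1 / D) : ℝ) * (1 - Real.exp (-p.1.2 / D) : ℝ) : ℂ) =
      ∑' p, wgt3 g1 g2 a b r κ p -
        ∑' p : (ℕ × ℕ) × (ℕ × ℕ), wgt3 g1 g2 a b r κ p * ((Real.exp (-(p.1.1 : ℝ) / D) : ℝ) : ℂ) -
        ∑' p : (ℕ × ℕ) × (ℕ × ℕ), wgt3 g1 g2 a b r κ p * ((Real.exp (-(p.1.2 : ℝ) / D) : ℝ) : ℂ) +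
        ∑' p : (ℕ × ℕ) × (ℕ × ℕ), wgt3 g1 g2 a b r κ p *
          (((Real.exp (-(p.1.1 : ℝ) / D) : ℝ) : ℂ) * ((Real.exp (-(p.1.2 : ℝ) / D) : ℝ) : ℂ)) := by
    rw [← hs.tsum_sub hA, ← (hs.sub hA).tsum_sub hB, ← ((hs.sub hA).sub hB).tsum_add hC]
    refine tsum_congr fun p => ?_
    rw [Complex.ofReal_sub, Complex.ofReal_sub, Complex.ofReal_one]
    ring
  rw [SS_eq3 hg1 hg2 ha hb hr hκ, e1, e2, e3, e4]
  ring

end OOK

end

section

/-!
# The bound of the shifted sums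
-/

open Complex Finset
open scoped ComplexConjugate

namespace OOK

variable {q1 q2 : ℕ}

/-- the inner inequality for the exponents -/
lemma K3_inner {X Y : ℝ} (hX : 1 ≤ X) (hY : 1 ≤ Y) :
    ((min X Y) ^ (1 / 200 : ℝ)) ^ 12 * ((X ^ (11 / 20 : ℝ)) ^ (3 / 2 : ℝ) + X / Y) +
      X / (min X Y) ^ (1 / 200 : ℝ) ≤
      2 * (X * (X ^ (-(1 / 200) : ℝ) + Y ^ (-(1 / 200) : ℝ))) := by
  have hX0 : 0 < X := by linarith only [hX]
  have hY0 : 0 < Y := by linarith only [hY]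
  have hm1 : 1 ≤ min X Y := le_min hX hY
  have hm0 : 0 < min X Y := by linarith only [hm1]
  have e1 : ((min X Y) ^ (1 / 200 : ℝ)) ^ 12 = (min X Y) ^ (12 / 200 : ℝ) := by
    rw [← Real.rpow_natCast, ← Real.rpow_mul hm0.le]
    norm_num
  have e2 : (X ^ (11 / 20 : ℝ)) ^ (3 / 2 : ℝ) = X ^ (33 / 40 : ℝ) := by
    rw [← Real.rpow_mul hX0.le]
    norm_num
  have h1 : (min X Y) ^ (12 / 200 : ℝ) * X ^ (33 / 40 : ℝ) ≤ X * X ^ (-(1 / 200) : ℝ) := by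
    calc (min X Y) ^ (12 / 200 : ℝ) * X ^ (33 / 40 : ℝ)
        ≤ X ^ (12 / 200 : ℝ) * X ^ (33 / 40 : ℝ) := by
          apply mul_le_mul_of_nonneg_right _ (by positivity)
          exact Real.rpow_le_rpow hm0.le (min_le_left _ _) (by norm_num)
      _ = X ^ (12 / 200 + 33 / 40 : ℝ) := by rw [← Real.rpow_add hX0]
      _ ≤ X ^ (1 + -(1 / 200) : ℝ) := Real.rpow_le_rpow_of_exponent_le hX (by norm_num)
      _ = X * X ^ (-(1 / 200) : ℝ) := by rw [Real.rpow_add hX0, Real.rpow_one]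
  have h2 : (min X Y) ^ (12 / 200 : ℝ) * (X / Y) ≤ X * Y ^ (-(1 / 200) : ℝ) := by
    calc (min X Y) ^ (12 / 200 : ℝ) * (X / Y)
        ≤ Y ^ (12 / 200 : ℝ) * (X / Y) := by
          apply mul_le_mul_of_nonneg_right _ (by positivity)
          exact Real.rpow_le_rpow hm0.le (min_le_right _ _) (by norm_num)
      _ = X * Y ^ (12 / 200 + (-1) : ℝ) := by
          rw [Real.rpow_add hY0, Real.rpow_neg_one]
          ring
      _ ≤ X * Y ^ (-(1 / 200) : ℝ) := by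
          apply mul_le_mul_of_nonneg_left _ hX0.le
          exact Real.rpow_le_rpow_of_exponent_le hY (by norm_num)
  have h3 : X / (min X Y) ^ (1 / 200 : ℝ) ≤ X * (X ^ (-(1 / 200) : ℝ) + Y ^ (-(1 / 200) : ℝ)) := by
    rw [div_eq_mul_inv, ← Real.rpow_neg hm0.le]
    apply mul_le_mul_of_nonneg_left _ hX0.le
    have hx : 0 < X ^ (-(1 / 200) : ℝ) := by positivity
    have hy : 0 < Y ^ (-(1 / 200) : ℝ) := by positivity
    rcases min_choice X Y with h | h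
    · rw [h]; linarith only [hy]
    · rw [h]; linarith only [hx]
  rw [e1, e2, mul_add]
  have : 2 * (X * (X ^ (-(1 / 200) : ℝ) + Y ^ (-(1 / 200) : ℝ))) =
      X * X ^ (-(1 / 200) : ℝ) + X * Y ^ (-(1 / 200) : ℝ) +
        X * (X ^ (-(1 / 200) : ℝ) + Y ^ (-(1 / 200) : ℝ)) := by ring
  rw [this]
  linarith only [h1, h2, h3]

/-- the bound of the shifted sums -/
theorem K_main3_aux (χ1 : DirichletCharacter ℂ q1) (χ2 : DirichletCharacter ℂ q2) (hq1 : 0 < q1)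
    (hq2 : 0 < q2) (B : ℝ) {e' : ℝ} (he : 0 < e') : ∃ C : ℝ, 0 < C ∧
      ∀ (F F1 F2 G G1 G2 : ℝ → ℂ) (Y Y' : ℝ), Cut3 F F1 F2 B Y → Cut3 G G1 G2 B Y → Y ≤ Y' →
      ((∃ g : ℕ, g.Coprime (q1 * q2) ∧ χ1 g ≠ χ2 g) ∨
        ((∀ m, Y' ^ 2 ≤ m → J3 F G m = 0) ∧ ∀ m, Y' ^ 2 ≤ m → J3 G F m = 0)) →
      ∀ a b r : ℕ, 0 < a → 0 < b → 0 < r → ∀ κ : ℂ, κ ≠ 0 → ‖κ‖ / 2 ≤ κ.re →
        ‖SS3 (fun n => F n * χ1 n) (fun n => G n * χ2 n) a b r κ‖ ≤ C * ((a * b * r : ℕ) : ℝ) ^ 12 *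
          ((1 + 1 / ‖κ‖) ^ (1 + e') * ((1 + 1 / ‖κ‖) ^ (-(1 / 200) : ℝ) + Y ^ (-(1 / 200) : ℝ)) +
          (1 + 1 / ‖κ‖) ^ e' * Y' ^ (11 / 5 : ℝ)) := by
  set e : ℝ := min (e' / 4) 1 with hedef
  have he0 : 0 < e := lt_min (by linarith only [he]) one_pos
  have he1 : e ≤ 1 := min_le_right _ _
  have he4 : e ≤ e' / 4 := min_le_left _ _
  obtain ⟨C1, hC1, hZ1⟩ := Z_bound3 χ1 χ2 hq1 hq2 B he0
  obtain ⟨C2, hC2, hZ2⟩ := Z_bound3 χ2 χ1 hq2 hq1 B he0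
  obtain ⟨C3, hC3, hR⟩ := rem_bound3 B he0
  refine ⟨2 * (2 * C1 + C2) + 8 * C3, by positivity, ?_⟩
  intro F F1 F2 G G1 G2 Y Y' hF hG hYY hg a b r ha hb hr κ hκ0 hκ
  have hgA : (∃ g : ℕ, g.Coprime (q1 * q2) ∧ χ1 g ≠ χ2 g) ∨ ∀ m, Y' ^ 2 ≤ m → J3 F G m = 0 :=
    hg.imp id And.left
  have hgB : (∃ g : ℕ, g.Coprime (q2 * q1) ∧ χ2 g ≠ χ1 g) ∨ ∀ m, Y' ^ 2 ≤ m → J3 G F m = 0 := by
    rcases hg with ⟨g, h1, h2⟩ | h
    · exact Or.inl ⟨g, by rwa [mul_comm], fun h => h2 h.symm⟩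
    · exact Or.inr h.2
  have hg1 := Bd3_of hF χ1
  have hg2 := Bd3_of hG χ2
  have hn : 0 < ‖κ‖ := norm_pos_iff.mpr hκ0
  have hκre : 0 < κ.re := by linarith only [hκ, hn]
  set X : ℝ := 1 + 1 / ‖κ‖ with hX
  have hX1 : 1 ≤ X := by
    have : 0 < 1 / ‖κ‖ := by positivity
    linarith only [this]
  have hX0 : 0 < X := by linarith only [hX1]
  have hY2 := hF.Y2
  have hY1 : 1 ≤ Y := by linarith only [hY2]
  have hY0 : 0 < Y := by linarith only [hY1]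
  have hY'1 : 1 ≤ Y' := hY1.trans hYY
  have hY'0 : 0 < Y' := by linarith only [hY'1]
  set D : ℝ := X ^ (11 / 20 : ℝ) with hD
  have hD1 : 1 ≤ D := Real.one_le_rpow hX1 (by norm_num)
  have hDX : D ≤ X := by
    calc D ≤ X ^ (1 : ℝ) := Real.rpow_le_rpow_of_exponent_le hX1 (by norm_num)
      _ = X := Real.rpow_one X
  have hD0 : 0 < D := by linarith only [hD1]
  set Z : ℝ := (min X Y) ^ (1 / 200 : ℝ) with hZ
  have hZone : 1 ≤ Z := Real.one_le_rpow (le_min hX1 hY1) (by norm_num)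
  set P : ℝ := ((a * b * r : ℕ) : ℝ) ^ 12 with hP
  have habr : 1 ≤ ((a * b * r : ℕ) : ℝ) := by
    have : 0 < a * b * r := by positivity
    exact_mod_cast this
  have hP1 : 1 ≤ P := one_le_pow₀ habr
  set W : ℝ := X ^ (-(1 / 200) : ℝ) + Y ^ (-(1 / 200) : ℝ) with hW
  have hWx : 0 < X ^ (-(1 / 200) : ℝ) := by positivity
  have hWy : 0 < Y ^ (-(1 / 200) : ℝ) := by positivity
  have hW0 : 0 < W := by linarith only [hWx, hWy]
  have hin := K3_inner hX1 hY1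
  rw [← hD, ← hZ, ← hW] at hin
  obtain ⟨Q, hQ⟩ : ∃ Q : ℝ, Q = Y' ^ (21 / 10 : ℝ) := ⟨_, rfl⟩
  obtain ⟨R, hR'⟩ : ∃ R : ℝ, R = Y' ^ (11 / 5 : ℝ) := ⟨_, rfl⟩
  have hQ0 : 0 ≤ Q := by rw [hQ]; positivity
  have hR0 : 0 ≤ R := by rw [hR']; positivity
  have hZQ : Z ^ 12 * Q ≤ R := by
    have h1 : Z ^ 12 = (min X Y) ^ (12 / 200 : ℝ) := by
      rw [hZ, ← Real.rpow_natCast, ← Real.rpow_mul (le_min hX0.le hY0.le)]
      norm_num
    have h2 : (min X Y) ^ (12 / 200 : ℝ) ≤ Y' ^ (12 / 200 : ℝ) :=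
      Real.rpow_le_rpow (le_min hX0.le hY0.le) ((min_le_right _ _).trans hYY) (by norm_num)
    rw [h1, hQ, hR']
    calc (min X Y) ^ (12 / 200 : ℝ) * Y' ^ (21 / 10 : ℝ) ≤ Y' ^ (12 / 200 : ℝ) * Y' ^ (21 / 10 : ℝ) :=
          mul_le_mul_of_nonneg_right h2 (by positivity)
      _ = Y' ^ (12 / 200 + 21 / 10 : ℝ) := by rw [← Real.rpow_add hY'0]
      _ ≤ Y' ^ (11 / 5 : ℝ) := Real.rpow_le_rpow_of_exponent_le hY'1 (by norm_num)
  obtain ⟨M, hM⟩ : ∃ M : ℝ, M = X ^ (1 + e') * W + X ^ e' * R := ⟨_, rfl⟩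
  rw [← hR', ← hM]
  -- the three main terms
  have hbig : (X * D) ^ e * (Z ^ 12 * (D ^ (3 / 2 : ℝ) + (X / Y + Q)) + X / Z) ≤ 2 * M := by
    have h1 : (X * D) ^ e ≤ X ^ e' := by
      calc (X * D) ^ e ≤ (X * X) ^ e :=
            Real.rpow_le_rpow (by positivity) (mul_le_mul_of_nonneg_left hDX hX0.le) he0.le
        _ = X ^ (e + e) := by rw [Real.mul_rpow hX0.le hX0.le, ← Real.rpow_add hX0]
        _ ≤ X ^ e' := Real.rpow_le_rpow_of_exponent_le hX1 (by linarith only [he0, he4])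
    have h2 : 0 ≤ Z ^ 12 * (D ^ (3 / 2 : ℝ) + (X / Y + Q)) + X / Z := by positivity
    have h3 : Z ^ 12 * (D ^ (3 / 2 : ℝ) + (X / Y + Q)) + X / Z ≤ 2 * (X * W) + R := by
      have h4 : Z ^ 12 * (D ^ (3 / 2 : ℝ) + (X / Y + Q)) + X / Z =
        (Z ^ 12 * (D ^ (3 / 2 : ℝ) + X / Y) + X / Z) + Z ^ 12 * Q := by ring
      rw [h4]
      linarith only [hin, hZQ]
    have h5 : 0 ≤ X ^ e' * R := by positivity
    calc (X * D) ^ e * (Z ^ 12 * (D ^ (3 / 2 : ℝ) + (X / Y + Q)) + X / Z)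
        ≤ X ^ e' * (2 * (X * W) + R) := mul_le_mul h1 h3 h2 (by positivity)
      _ = 2 * (X ^ (1 + e') * W) + X ^ e' * R := by
          rw [Real.rpow_add hX0, Real.rpow_one]
          ring
      _ ≤ 2 * M := by
          rw [hM]
          linarith only [h5]
  have hz : ∀ C : ℝ, 0 < C → C * P * (X * D) ^ e *
      (Z ^ 12 * (D ^ (3 / 2 : ℝ) + (X / Y + Q)) + X / Z) ≤ 2 * C * (P * M) := by
    intro C hC
    calc C * P * (X * D) ^ e * (Z ^ 12 * (D ^ (3 / 2 : ℝ) + (X / Y + Q)) + X / Z)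
        = C * P * ((X * D) ^ e * (Z ^ 12 * (D ^ (3 / 2 : ℝ) + (X / Y + Q)) + X / Z)) := by ring
      _ ≤ C * P * (2 * M) := mul_le_mul_of_nonneg_left hbig (by positivity)
      _ = 2 * C * (P * M) := by ring
  rw [hQ] at hz
  have t1 := (hZ1 F F1 F2 G G1 G2 Y Y' hF hG hYY hgA a b r ha hb hr κ hκ0 hκ D Z 0 hD1 hZone le_rfl).trans
    (hz C1 hC1)
  have t2 := (hZ2 G G1 G2 F F1 F2 Y Y' hG hF hYY hgB a b r ha hb hr κ hκ0 hκ D Z 0 hD1 hZone le_rfl).trans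
    (hz C2 hC2)
  have t3 := (hZ1 F F1 F2 G G1 G2 Y Y' hF hG hYY hgA a b r ha hb hr κ hκ0 hκ D Z (1 / D) hD1 hZone
    (by positivity)).trans (hz C1 hC1)
  -- the remainder
  have t4 : ‖∑' p : (ℕ × ℕ) × (ℕ × ℕ), wgt3 (fun n : ℕ => F n * χ1 n) (fun n : ℕ => G n * χ2 n) a b r κ p *
          ((1 - Real.exp (-p.1.1 / D) : ℝ) * (1 - Real.exp (-p.1.2 / D) : ℝ) : ℂ)‖ ≤
      8 * C3 * (P * M) := by
    refine (hR _ _ hg1 hg2 a b r ha hb hr κ hκre D hD1).trans ?_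
    have ha1 : (1 : ℝ) ≤ a := by exact_mod_cast ha
    have h1 : (a : ℝ) ^ e ≤ P := by
      calc (a : ℝ) ^ e ≤ (a : ℝ) ^ (1 : ℝ) := Real.rpow_le_rpow_of_exponent_le ha1 he1
        _ = a := Real.rpow_one _
        _ ≤ ((a * b * r : ℕ) : ℝ) := by
            have : a ≤ a * b * r := by
              calc a = a * 1 * 1 := by ring
                _ ≤ a * b * r := Nat.mul_le_mul (Nat.mul_le_mul_left a hb) hr
            exact_mod_cast this
        _ ≤ P := le_self_pow₀ habr (by norm_num)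
    have h2 : κ.re ^ (-(2 + e)) ≤ 8 * X ^ (2 + e) := by
      have h21 : (2 * X)⁻¹ ≤ κ.re := by
        have : (2 * X)⁻¹ ≤ ‖κ‖ / 2 := by
          rw [mul_inv, hX, inv_eq_one_div (2 : ℝ)]
          have : (1 + 1 / ‖κ‖)⁻¹ ≤ ‖κ‖ := by
            rw [inv_le_comm₀ (by positivity) hn]
            rw [one_div]
            linarith only [h1]
          linarith only [this]
        linarith only [hκ, this]
      have h22 : κ.re ^ (-(2 + e)) ≤ ((2 * X)⁻¹) ^ (-(2 + e)) :=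
        Real.rpow_le_rpow_of_nonpos (by positivity) h21 (by linarith only [he0])
      refine h22.trans ?_
      rw [Real.rpow_neg (by positivity), Real.inv_rpow (by positivity), inv_inv,
        Real.mul_rpow (by norm_num) hX0.le]
      apply mul_le_mul_of_nonneg_right _ (by positivity)
      calc (2 : ℝ) ^ (2 + e) ≤ (2 : ℝ) ^ (3 : ℝ) :=
            Real.rpow_le_rpow_of_exponent_le (by norm_num) (by linarith only [he1])
        _ = 8 := by norm_num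
    have h3 : X ^ (2 + e) / D ^ 2 ≤ X ^ (1 + e') * W := by
      have hD2 : D ^ 2 = X ^ (11 / 10 : ℝ) := by
        rw [hD, ← Real.rpow_natCast, ← Real.rpow_mul hX0.le]
        norm_num
      rw [hD2, ← Real.rpow_sub hX0]
      calc X ^ (2 + e - 11 / 10) ≤ X ^ (1 + e' + -(1 / 200)) :=
            Real.rpow_le_rpow_of_exponent_le hX1 (by linarith only [he0, he4])
        _ = X ^ (1 + e') * X ^ (-(1 / 200) : ℝ) := by rw [Real.rpow_add hX0]
        _ ≤ X ^ (1 + e') * W := by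
            apply mul_le_mul_of_nonneg_left _ (by positivity)
            linarith only [hWy]
    calc C3 * (a : ℝ) ^ e * κ.re ^ (-(2 + e)) / D ^ 2
        ≤ C3 * P * (8 * X ^ (2 + e)) / D ^ 2 := by
          apply div_le_div_of_nonneg_right _ (by positivity)
          exact mul_le_mul (mul_le_mul_of_nonneg_left h1 hC3.le) h2 (by positivity)
            (by positivity)
      _ = 8 * C3 * P * (X ^ (2 + e) / D ^ 2) := by ring
      _ ≤ 8 * C3 * P * (X ^ (1 + e') * W) := mul_le_mul_of_nonneg_left h3 (by positivity)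
      _ ≤ 8 * C3 * P * M := by
          apply mul_le_mul_of_nonneg_left _ (by positivity)
          rw [hM]
          have : 0 ≤ X ^ e' * R := by positivity
          linarith only [this]
      _ = 8 * C3 * (P * M) := by ring
  rw [partition3 hg1 hg2 ha hb hr hκre hD1]
  refine (norm_add_le _ _).trans ?_
  refine (add_le_add_left (norm_sub_le _ _) _).trans ?_
  refine (add_le_add_left (add_le_add_left (norm_add_le _ _) _) _).trans ?_
  have hfin : 2 * C1 * (P * M) + 2 * C2 * (P * M) + 2 * C1 * (P * M) + 8 * C3 * (P * M) =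
      (2 * (2 * C1 + C2) + 8 * C3) * P * M := by ring
  rw [← hfin]
  exact add_le_add (add_le_add (add_le_add t1 t2) t3) t4

end OOK

end

section

/-!
# Block K with shifts
-/

open Complex Finset MeasureTheory
open scoped ComplexConjugate

namespace OOK

variable {q1 q2 : ℕ}

/-- The coefficients of the two definitions agree. -/
theorem lam_eq3 {f : ℝ → ℝ} {u1 u2 : ℕ → ℂ} {g1 g2 : ℕ → ℂ}
    (h1 : ∀ n : ℕ, 0 < n → u1 n * (f n : ℂ) = g1 n) (h2 : ∀ n : ℕ, 0 < n → u2 n * (f n : ℂ) = g2 n) (n : ℕ) :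
    (OO.FA u1 f * OO.FA u2 f) n = lam3 g1 g2 n := by
  rw [ArithmeticFunction.mul_apply, lam3]
  refine Finset.sum_congr rfl fun d hd => ?_
  have hd0 : 0 < d.1 ∧ 0 < d.2 := by
    have h1 := Nat.mem_divisorsAntidiagonal.1 hd
    refine ⟨Nat.pos_of_ne_zero fun h0 => h1.2 ?_, Nat.pos_of_ne_zero fun h0 => h1.2 ?_⟩
    · rw [← h1.1, h0, zero_mul]
    · rw [← h1.1, h0, mul_zero]
  have e1 : (OO.FA u1 f) d.1 = u1 d.1 * (f d.1 : ℂ) := by
    show (if d.1 = 0 then 0 else u1 d.1 * (f d.1 : ℂ)) = _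
    rw [if_neg hd0.1.ne']
  have e2 : (OO.FA u2 f) d.2 = u2 d.2 * (f d.2 : ℂ) := by
    show (if d.2 = 0 then 0 else u2 d.2 * (f d.2 : ℂ)) = _
    rw [if_neg hd0.2.ne']
  rw [e1, e2, h1 _ hd0.1, h2 _ hd0.2]

theorem SS_eq_SS3 {f : ℝ → ℝ} {u1 u2 : ℕ → ℂ} {g1 g2 : ℕ → ℂ}
    (h1 : ∀ n : ℕ, 0 < n → u1 n * (f n : ℂ) = g1 n) (h2 : ∀ n : ℕ, 0 < n → u2 n * (f n : ℂ) = g2 n)
    {a b r : ℕ} (ha : 0 < a) (κ : ℂ) :
    OO.SS (OO.FA u1 f * OO.FA u2 f : ArithmeticFunction ℂ) a b r κ = SS3 g1 g2 a b r κ := by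
  have hl : ∀ n, (OO.FA u1 f * OO.FA u2 f) n = lam3 g1 g2 n := lam_eq3 h1 h2
  unfold OO.SS SS3
  simp only [hl]
  set F : ℕ → ℂ := fun n => if a ∣ b * n + r then
    lam3 g1 g2 ((b * n + r) / a) * conj (lam3 g1 g2 n) *
      cexp (-(κ * (((b * n + r) / a : ℕ) : ℂ))) else 0 with hF
  set G : ℕ × ℕ → ℂ := fun p => if a * p.1 = b * p.2 + r then
    lam3 g1 g2 p.1 * conj (lam3 g1 g2 p.2) * cexp (-κ * p.1) else 0 with hG
  have hinj : Function.Injective (fun n : ℕ => ((b * n + r) / a, n)) := by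
    intro n m hnm
    exact (Prod.ext_iff.1 hnm).2
  have hFG : ∀ n, G ((b * n + r) / a, n) = F n := by
    intro n
    simp only [hF, hG]
    by_cases hd : a ∣ b * n + r
    · rw [if_pos (Nat.mul_div_cancel' hd), if_pos hd, neg_mul]
    · rw [if_neg hd, if_neg]
      intro h1
      exact hd ⟨_, h1.symm⟩
  have hsupp : Function.support G ⊆ Set.range (fun n : ℕ => ((b * n + r) / a, n)) := by
    intro p hp
    have hp1 : a * p.1 = b * p.2 + r := by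
      by_contra hcon
      exact hp (by simp only [hG, if_neg hcon])
    refine ⟨p.2, Prod.ext ?_ rfl⟩
    show (b * p.2 + r) / a = p.1
    rw [← hp1, Nat.mul_div_cancel_left _ ha]
  have h1 := hinj.tsum_eq hsupp
  simp only [hFG] at h1
  exact h1

end OOK

namespace OO

/-- Block K with shifts. If the two characters agree (second alternative) the cut function must be 1 from `Y'` on and
orthogonal to `x^(i(y1-y2))`. -/
theorem K_main3 {q1 q2 : ℕ} [NeZero q1] [NeZero q2] (χ1 : DirichletCharacter ℂ q1)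
    (χ2 : DirichletCharacter ℂ q2) (y1 y2 : ℝ) (hne : NeX χ1 y1 χ2 y2) (B : ℝ) (hB : 0 < B) (e : ℝ) (he : 0 < e) :
    ∃ C : ℝ, 0 < C ∧
    ∀ (f : ℝ → ℝ) (Y Y' : ℝ), 2 ≤ Y → Y ≤ Y' → (∀ x : ℝ, 1 ≤ x → x ≤ Y → f x = 0) → (∀ x : ℝ, 1 ≤ x → |f x| ≤ B) →
      ContDiffOn ℝ 2 f (Set.Ioi 0) → (∀ x : ℝ, 1 ≤ x → |deriv f x| ≤ B / x) →
      (∀ x : ℝ, 1 ≤ x → |deriv (deriv f) x| ≤ B / x ^ 2) →
      (Ne12 χ1 χ2 ∨ ((∀ x : ℝ, Y' ≤ x → f x = 1) ∧
        ∫ x in Y..Y', ((deriv f x : ℝ) : ℂ) * (x : ℂ) ^ (((y1 - y2 : ℝ) : ℂ) * I) = 0)) →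
    ∀ a b r : ℕ, 1 ≤ a → 1 ≤ b → 1 ≤ r → ∀ κ : ℂ, κ ≠ 0 → ‖κ‖ / 2 ≤ κ.re →
      ‖SS (FA (chx χ1 y1) f * FA (chx χ2 y2) f : ArithmeticFunction ℂ) a b r κ‖ ≤
        C * ((a * b * r : ℕ) : ℝ) ^ 12 * ((1 + 1 / ‖κ‖) ^ (1 + e) *
          ((1 + 1 / ‖κ‖) ^ (-(1 / 200) : ℝ) + Y ^ (-(1 / 200) : ℝ)) +
          (1 + 1 / ‖κ‖) ^ e * Y' ^ (11 / 5 : ℝ)) := by
  obtain ⟨B', hB'⟩ : ∃ B' : ℝ, B' = (1 + 3 * |y1| + y1 ^ 2) * max B 1 + (1 + 3 * |y2| + y2 ^ 2) * max B 1 := ⟨_, rfl⟩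
  obtain ⟨C, hC, h⟩ := OOK.K_main3_aux χ1 χ2 (Nat.pos_of_ne_zero (NeZero.ne q1))
    (Nat.pos_of_ne_zero (NeZero.ne q2)) B' he
  refine ⟨C, hC, fun f Y Y' hY hYY h0 hb hc hb1 hb2 hcase a b r ha hb' hr κ hκ hκ2 => ?_⟩
  obtain ⟨g, hcut, hgf, hdgf, hgn⟩ := OOK.cut_of3 hB hY h0 hb hc hb1 hb2
  have hM : 0 ≤ max B 1 := le_trans zero_le_one (le_max_right _ _)
  have hF := (OOK.Cut3_of hcut y1).mono (B' := B') (by
    rw [hB']
    have : 0 ≤ (1 + 3 * |y2| + y2 ^ 2) * max B 1 := by positivity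
    linarith only [this])
  have hG := (OOK.Cut3_of hcut y2).mono (B' := B') (by
    rw [hB']
    have : 0 ≤ (1 + 3 * |y1| + y1 ^ 2) * max B 1 := by positivity
    linarith only [this])
  have hY'1 : 1 < Y' := by linarith only [hY, hYY]
  have hY0 : 0 < Y := by linarith only [hY]
  rw [OOK.SS_eq_SS3 (g1 := fun n : ℕ => (g n : ℂ) * OOK.EE y1 n * χ1 n)
    (g2 := fun n : ℕ => (g n : ℂ) * OOK.EE y2 n * χ2 n) (fun n hn => by
      unfold chx
      rw [OOK.EE_nat y1 hn, hgn n hn]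
      ring) (fun n hn => by
      unfold chx
      rw [OOK.EE_nat y2 hn, hgn n hn]
      ring) (by omega) κ]
  refine h _ _ _ _ _ _ Y Y' hF hG hYY ?_ a b r ha hb' hr κ hκ hκ2
  by_cases h12 : Ne12 χ1 χ2
  · exact Or.inl h12
  · right
    have hy : y1 ≠ y2 := hne.resolve_left h12
    obtain ⟨k1, k2⟩ := hcase.resolve_left h12
    have hg1 : ∀ x, Y' ≤ x → g x = 1 := fun x hx => by
      rw [hgf x (lt_of_lt_of_le hY'1 hx), k1 x hx]
    have k3 : ∫ x in Y..Y', ((deriv g x : ℝ) : ℂ) * OOK.EE (y2 - y1) x = 0 := by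
      rw [← k2]
      refine intervalIntegral.integral_congr fun x hx => ?_
      rw [Set.uIcc_of_le hYY] at hx
      have hx0 : 0 < x := lt_of_lt_of_le hY0 hx.1
      have hx1 : 1 < x := by linarith only [hY, hx.1]
      show ((deriv g x : ℝ) : ℂ) * OOK.EE (y2 - y1) x = ((deriv f x : ℝ) : ℂ) * (x : ℂ) ^ (((y1 - y2 : ℝ) : ℂ) * I)
      rw [hdgf x hx1, OOK.EE_cpow (y1 - y2) hx0, neg_sub]
    have k4 : ∫ x in Y..Y', ((deriv g x : ℝ) : ℂ) * OOK.EE (y1 - y2) x = 0 := by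
      have h2 : ∀ x : ℝ, ((deriv g x : ℝ) : ℂ) * OOK.EE (y1 - y2) x =
          conj (((deriv g x : ℝ) : ℂ) * OOK.EE (y2 - y1) x) := by
        intro x
        rw [map_mul, Complex.conj_ofReal, OOK.EE_conj, neg_sub]
      simp only [h2]
      rw [intervalIntegral.integral_of_le hYY, integral_conj, ← intervalIntegral.integral_of_le hYY, k3, map_zero]
    exact ⟨fun m hm => OOK.K3_J_zero hcut hYY hg1 hy k4 hm, fun m hm => OOK.K3_J_zero hcut hYY hg1 hy.symm k3 hm⟩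

end OO

end
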