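import Pool.Agent.Lib.MP_0f5a55_nt.OM.K000
import Pool.Agent.Lib.MP_0f5a55_nt.OM.K022
import Pool.Agent.Lib.MP_0f5a55_nt.OM.K049

section

open Complex MeasureTheory Set Filter Topology
open scoped ComplexConjugate

namespace OO

variable {q1 q2 : ℕ}

private lemma T_Fm23_J (a u Y0 : ℝ) (ha : 0 < a) :
    IntegrableOn (fun y : ℝ => exp (-((a : ℂ) + u * I) * y)) (Ioi Y0) ∧
    ∫ y in Ioi Y0, exp (-((a : ℂ) + u * I) * y) = exp (-((a : ℂ) + u * I) * Y0) / ((a : ℂ) + u * I) := by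
  have hre : (-((a : ℂ) + u * I)).re < 0 := by simp [ha]
  refine ⟨integrableOn_exp_mul_complex_Ioi hre Y0, ?_⟩
  rw [integral_exp_mul_complex_Ioi hre Y0]
  rw [neg_div_neg_eq]

private lemma T_Fm23_Jbig (a u Y0 : ℝ) (hY : 0 ≤ Y0) (ha : 0 < a) (hu : 1 / 2 ≤ u) :
    ‖exp (-((a : ℂ) + u * I) * Y0) / ((a : ℂ) + u * I)‖ ≤ 2 := by
  rw [norm_div, Complex.norm_exp]
  have h1 : (-((a : ℂ) + u * I) * Y0).re = -(a * Y0) := by simp
  have h2 : 1 / 2 ≤ ‖(a : ℂ) + u * I‖ := by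
    have h3 := Complex.abs_im_le_norm ((a : ℂ) + u * I)
    have h4 : ((a : ℂ) + u * I).im = u := by simp
    rw [h4, abs_of_pos (by linarith)] at h3
    linarith
  rw [h1, div_le_iff₀ (by linarith)]
  have h5 : Real.exp (-(a * Y0)) ≤ 1 := Real.exp_le_one_iff.2 (by
    have : 0 ≤ a * Y0 := by positivity
    linarith)
  linarith

private lemma T_Fm23_Jone (a Y0 : ℝ) (hY : 0 ≤ Y0) (ha : 0 < a) :
    ‖exp (-((a : ℂ) + (0 : ℝ) * I) * Y0) / ((a : ℂ) + (0 : ℝ) * I) - 1 / a‖ ≤ Y0 := by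
  have h1 : exp (-((a : ℂ) + (0 : ℝ) * I) * Y0) / ((a : ℂ) + (0 : ℝ) * I) - 1 / a =
      (((Real.exp (-(a * Y0)) - 1) / a : ℝ) : ℂ) := by
    push_cast
    rw [zero_mul, add_zero]
    ring_nf
  have h0 : 0 ≤ a * Y0 := by positivity
  rw [h1, Complex.norm_real, Real.norm_eq_abs, abs_div, abs_of_pos ha, div_le_iff₀ ha, abs_sub_comm,
    abs_of_nonneg (by linarith [Real.exp_le_one_iff.2 (by linarith : -(a * Y0) ≤ 0)])]
  linarith [Real.add_one_le_exp (-(a * Y0))]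

/-- the value of one term -/
private lemma T_Fm23_term (n M : ℕ) (hn : 1 ≤ n) (hM : 1 ≤ M) (a y : ℝ) :
    (n : ℂ) ^ (-(2 + (y : ℂ) * I)) * ((M : ℂ) ^ (-(2 + (y : ℂ) * I)) * (Real.exp (-(a * y)) : ℂ)) =
      (Real.exp (-2 * (Real.log n + Real.log M)) : ℂ) *
        exp (-((a : ℂ) + ((Real.log n + Real.log M : ℝ) : ℂ) * I) * y) := by
  have hn0 : (n : ℂ) ≠ 0 := by exact_mod_cast (by omega : n ≠ 0)
  have hM0 : (M : ℂ) ≠ 0 := by exact_mod_cast (by omega : M ≠ 0)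
  rw [Complex.cpow_def_of_ne_zero hn0, Complex.cpow_def_of_ne_zero hM0, ← Complex.natCast_log,
    ← Complex.natCast_log]
  push_cast
  rw [← Complex.exp_add, ← Complex.exp_add, ← Complex.exp_add]
  congr 1
  ring

private lemma T_Fm23_norm (n : ℕ) (hn : 1 ≤ n) (y : ℝ) :
    ‖(n : ℂ) ^ (-(2 + (y : ℂ) * I))‖ = (n : ℝ) ^ (-(2 : ℝ)) := by
  rw [Complex.norm_natCast_cpow_of_pos hn]
  congr 1
  simp

private lemma T_Fm23_nterm [NeZero q1] [NeZero q2] (χ1 : DirichletCharacter ℂ q1) (χ2 : DirichletCharacter ℂ q2)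
    (v : ℝ) (n : ℕ) (y : ℝ) : ‖lamF (chx χ1 v) (chx χ2 (-v)) n * (n : ℂ) ^ (-(2 + (y : ℂ) * I))‖ =
      ‖lamF (chx χ1 v) (chx χ2 (-v)) n‖ * (n : ℝ) ^ (-(2 : ℝ)) := by
  rcases Nat.eq_zero_or_pos n with h | h
  · subst h
    simp
  · rw [norm_mul, T_Fm23_norm n h]

private lemma T_Fm23_one [NeZero q1] [NeZero q2] (χ1 : DirichletCharacter ℂ q1) (χ2 : DirichletCharacter ℂ q2)
    (v Y0 : ℝ) (hY : 1 ≤ Y0) (M : ℕ) (hM : 1 ≤ M) (a : ℝ) (ha : 0 < a) :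
    IntegrableOn (fun y : ℝ => T_LL3 χ1 χ2 v (2 + y * I) * ((M : ℂ) ^ (-(2 + (y : ℂ) * I)) * (Real.exp (-(a * y)) : ℂ)))
      (Ioi Y0) ∧
    ‖(∫ y in Ioi Y0, T_LL3 χ1 χ2 v (2 + y * I) * ((M : ℂ) ^ (-(2 + (y : ℂ) * I)) * (Real.exp (-(a * y)) : ℂ))) -
      (if M = 1 then 1 / (a : ℂ) else 0)‖ ≤
      2 * Y0 * (∑' n : ℕ, ‖lamF (chx χ1 v) (chx χ2 (-v)) n‖ * (n : ℝ) ^ (-(2 : ℝ))) * (M : ℝ) ^ (-(2 : ℝ)) := by
  obtain ⟨-, hL2, hL3, hL4⟩ := T_lam3 χ1 χ2 v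
  have hsum := hL3 2 (by norm_num)
  have hre : ∀ y : ℝ, 1 < (2 + (y : ℂ) * I).re := by intro y; simp
  have hM0 : 0 < M := hM
  -- the terms
  obtain ⟨F, hF⟩ : ∃ F : ℕ → ℝ → ℂ, F = fun (n : ℕ) (y : ℝ) => lamF (chx χ1 v) (chx χ2 (-v)) n * (n : ℂ) ^ (-(2 + (y : ℂ) * I)) *
      ((M : ℂ) ^ (-(2 + (y : ℂ) * I)) * (Real.exp (-(a * y)) : ℂ)) := ⟨_, rfl⟩
  have hFsum : ∀ y : ℝ, HasSum (fun n => F n y) (T_LL3 χ1 χ2 v (2 + y * I) *
      ((M : ℂ) ^ (-(2 + (y : ℂ) * I)) * (Real.exp (-(a * y)) : ℂ))) := by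
    intro y
    rw [hF]
    exact (hL2 (2 + y * I) (hre y)).mul_right _
  have hnorm2 : ∀ y : ℝ, ‖((M : ℂ) ^ (-(2 + (y : ℂ) * I)) * (Real.exp (-(a * y)) : ℂ))‖ =
      (M : ℝ) ^ (-(2 : ℝ)) * Real.exp (-(a * y)) := by
    intro y
    rw [norm_mul, T_Fm23_norm M hM, Complex.norm_real, Real.norm_eq_abs, abs_of_pos (Real.exp_pos _)]
  have hFnorm : ∀ n y, ‖F n y‖ = ‖lamF (chx χ1 v) (chx χ2 (-v)) n‖ * (n : ℝ) ^ (-(2 : ℝ)) *
      ((M : ℝ) ^ (-(2 : ℝ)) * Real.exp (-(a * y))) := by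
    intro n y
    rw [hF]
    simp only
    rw [norm_mul, T_Fm23_nterm, hnorm2]
  have hexpi : IntegrableOn (fun y : ℝ => Real.exp (-(a * y))) (Ioi Y0) := by
    have := integrableOn_exp_mul_Ioi (a := -a) (by linarith) Y0
    simpa [neg_mul] using this
  have hFval : ∀ n, 1 ≤ n → F n = fun y : ℝ => lamF (chx χ1 v) (chx χ2 (-v)) n *
      ((Real.exp (-2 * (Real.log n + Real.log M)) : ℂ) *
        exp (-((a : ℂ) + ((Real.log n + Real.log M : ℝ) : ℂ) * I) * y)) := by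
    intro n hn
    funext y
    rw [hF]
    simp only
    rw [mul_assoc, T_Fm23_term n M hn hM]
  have hF0 : F 0 = fun _ => 0 := by
    rw [hF]
    funext y
    simp
  have hFint : ∀ n, Integrable (F n) (volume.restrict (Ioi Y0)) := by
    intro n
    rcases Nat.eq_zero_or_pos n with h | h
    · subst h
      rw [hF0]
      exact integrable_zero _ _ _
    · rw [hFval n h]
      exact ((T_Fm23_J a _ Y0 ha).1.const_mul _).const_mul _
  have hFs : Summable (fun n => ∫ y in Ioi Y0, ‖F n y‖) := by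
    have h1 : (fun n => ∫ y in Ioi Y0, ‖F n y‖) = fun n => ‖lamF (chx χ1 v) (chx χ2 (-v)) n‖ * (n : ℝ) ^ (-(2 : ℝ)) *
        ∫ y in Ioi Y0, (M : ℝ) ^ (-(2 : ℝ)) * Real.exp (-(a * y)) := by
      funext n
      rw [← integral_const_mul]
      exact integral_congr_ae (Filter.Eventually.of_forall fun y => hFnorm n y)
    rw [h1]
    exact hsum.mul_right _
  have hmain := hasSum_integral_of_summable_integral_norm hFint hFs
  have hts : (∫ y in Ioi Y0, ∑' n, F n y) = ∫ y in Ioi Y0, T_LL3 χ1 χ2 v (2 + y * I) *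
      ((M : ℂ) ^ (-(2 + (y : ℂ) * I)) * (Real.exp (-(a * y)) : ℂ)) :=
    integral_congr_ae (Filter.Eventually.of_forall fun y => (hFsum y).tsum_eq)
  rw [hts] at hmain
  have hcont : Continuous (fun y : ℝ => T_LL3 χ1 χ2 v (2 + y * I) *
      ((M : ℂ) ^ (-(2 + (y : ℂ) * I)) * (Real.exp (-(a * y)) : ℂ))) := by
    have hl : Continuous (fun y : ℝ => (2 + (y : ℂ) * I)) := by fun_prop
    have h1 : Continuous (fun y : ℝ => T_LL3 χ1 χ2 v (2 + y * I)) := by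
      rw [continuous_iff_continuousAt]
      intro y
      have h2 : (2 + (y : ℂ) * I) + v * I ≠ 1 := by
        intro h
        have h3 := congrArg Complex.re h
        simp at h3
      have h3 : (2 + (y : ℂ) * I) - v * I ≠ 1 := by
        intro h
        have h3 := congrArg Complex.re h
        simp at h3
      exact ContinuousAt.comp (f := fun y : ℝ => (2 + (y : ℂ) * I)) (g := T_LL3 χ1 χ2 v)
        (T_Ent3_diff χ1 χ2 v _ h2 h3).continuousAt hl.continuousAt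
    have hMc : Continuous (fun y : ℝ => (M : ℂ) ^ (-(2 + (y : ℂ) * I))) := by
      have hM1 : (M : ℂ) ≠ 0 := by exact_mod_cast (by omega : M ≠ 0)
      exact Continuous.const_cpow hl.neg (Or.inl hM1)
    exact h1.mul (hMc.mul (by fun_prop))
  refine ⟨?_, ?_⟩
  · apply Integrable.mono' ((hexpi.const_mul ((∑' n : ℕ, ‖lamF (chx χ1 v) (chx χ2 (-v)) n‖ * (n : ℝ) ^ (-(2 : ℝ))) *
      (M : ℝ) ^ (-(2 : ℝ))))) hcont.aestronglyMeasurable.restrict
    apply Filter.Eventually.of_forall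
    intro y
    rw [norm_mul, hnorm2]
    have h1 : ‖T_LL3 χ1 χ2 v (2 + y * I)‖ ≤ ∑' n : ℕ, ‖lamF (chx χ1 v) (chx χ2 (-v)) n‖ * (n : ℝ) ^ (-(2 : ℝ)) := by
      rw [← (hL2 (2 + y * I) (hre y)).tsum_eq]
      exact tsum_of_norm_bounded hsum.hasSum fun n => (T_Fm23_nterm χ1 χ2 v n y).le
    calc ‖T_LL3 χ1 χ2 v (2 + y * I)‖ * ((M : ℝ) ^ (-(2 : ℝ)) * Real.exp (-(a * y)))
        ≤ (∑' n : ℕ, ‖lamF (chx χ1 v) (chx χ2 (-v)) n‖ * (n : ℝ) ^ (-(2 : ℝ))) *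
          ((M : ℝ) ^ (-(2 : ℝ)) * Real.exp (-(a * y))) := mul_le_mul_of_nonneg_right h1 (by positivity)
      _ = _ := by ring
  · have hd : HasSum (fun n : ℕ => if n = 1 then (if M = 1 then 1 / (a : ℂ) else 0) else 0)
        (if M = 1 then 1 / (a : ℂ) else 0) := hasSum_ite_eq 1 _
    have hsub := hmain.sub hd
    rw [← hsub.tsum_eq]
    have hbd : HasSum (fun n : ℕ => 2 * Y0 * (‖lamF (chx χ1 v) (chx χ2 (-v)) n‖ * (n : ℝ) ^ (-(2 : ℝ))) * (M : ℝ) ^ (-(2 : ℝ)))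
        (2 * Y0 * (∑' n : ℕ, ‖lamF (chx χ1 v) (chx χ2 (-v)) n‖ * (n : ℝ) ^ (-(2 : ℝ))) * (M : ℝ) ^ (-(2 : ℝ))) :=
      (hsum.hasSum.mul_left (2 * Y0)).mul_right _
    apply tsum_of_norm_bounded hbd
    intro n
    rcases Nat.eq_zero_or_pos n with h | h
    · subst h
      simp [hF0]
    · have hlog : (Real.exp (-2 * (Real.log n + Real.log M)) : ℝ) = (n : ℝ) ^ (-(2 : ℝ)) * (M : ℝ) ^ (-(2 : ℝ)) := by
        have hn' : (0 : ℝ) < n := by exact_mod_cast h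
        have hM' : (0 : ℝ) < M := by exact_mod_cast hM0
        rw [Real.rpow_def_of_pos hn', Real.rpow_def_of_pos hM', ← Real.exp_add]
        congr 1
        ring
      have hI : (∫ y in Ioi Y0, F n y) = lamF (chx χ1 v) (chx χ2 (-v)) n *
          ((Real.exp (-2 * (Real.log n + Real.log M)) : ℂ) *
          (exp (-((a : ℂ) + ((Real.log n + Real.log M : ℝ) : ℂ) * I) * Y0) /
            ((a : ℂ) + ((Real.log n + Real.log M : ℝ) : ℂ) * I))) := by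
        rw [hFval n h, integral_const_mul, integral_const_mul, (T_Fm23_J a _ Y0 ha).2]
      rw [hI]
      by_cases hnM : n = 1 ∧ M = 1
      · obtain ⟨h1, h2⟩ := hnM
        subst h1
        subst h2
        rw [if_pos rfl, if_pos rfl, hL4]
        simp only [Nat.cast_one, Real.log_one, add_zero, mul_zero, Real.exp_zero, Complex.ofReal_one, one_mul,
          Real.one_rpow, norm_one, mul_one]
        have h3 := T_Fm23_Jone a Y0 (by linarith) ha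
        refine le_trans h3 (by linarith)
      · have h0 : (if n = 1 then (if M = 1 then 1 / (a : ℂ) else 0) else 0) = 0 := by
          by_cases h1 : n = 1
          · rw [if_pos h1, if_neg (fun h2 => hnM ⟨h1, h2⟩)]
          · rw [if_neg h1]
        rw [h0, sub_zero, norm_mul, norm_mul, Complex.norm_real, Real.norm_eq_abs, abs_of_pos (Real.exp_pos _), hlog]
        have hu : 1 / 2 ≤ Real.log n + Real.log M := by
          have hn1 : (1 : ℝ) ≤ n := by exact_mod_cast h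
          have hM1 : (1 : ℝ) ≤ M := by exact_mod_cast hM
          have h2 : Real.log 2 ≤ Real.log n + Real.log M := by
            rw [← Real.log_mul (by positivity) (by positivity)]
            apply Real.log_le_log (by norm_num)
            have h3 : 2 ≤ n * M := by
              by_contra hcon
              push Not at hcon
              have h4 : n * M = 1 := by
                have : 0 < n * M := Nat.mul_pos h hM0
                omega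
              exact hnM ⟨Nat.eq_one_of_mul_eq_one_right h4, Nat.eq_one_of_mul_eq_one_left h4⟩
            exact_mod_cast h3
          have h5 := Real.log_two_gt_d9
          linarith
        have hJ := T_Fm23_Jbig a _ Y0 (by linarith) ha hu
        have hpos : 0 ≤ ‖lamF (chx χ1 v) (chx χ2 (-v)) n‖ * ((n : ℝ) ^ (-(2 : ℝ)) * (M : ℝ) ^ (-(2 : ℝ))) := by positivity
        calc ‖lamF (chx χ1 v) (chx χ2 (-v)) n‖ * ((n : ℝ) ^ (-(2 : ℝ)) * (M : ℝ) ^ (-(2 : ℝ)) *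
              ‖exp (-((a : ℂ) + ((Real.log n + Real.log M : ℝ) : ℂ) * I) * Y0) /
                ((a : ℂ) + ((Real.log n + Real.log M : ℝ) : ℂ) * I)‖)
            = (‖lamF (chx χ1 v) (chx χ2 (-v)) n‖ * ((n : ℝ) ^ (-(2 : ℝ)) * (M : ℝ) ^ (-(2 : ℝ)))) *
              ‖exp (-((a : ℂ) + ((Real.log n + Real.log M : ℝ) : ℂ) * I) * Y0) /
                ((a : ℂ) + ((Real.log n + Real.log M : ℝ) : ℂ) * I)‖ := by ring
          _ ≤ (‖lamF (chx χ1 v) (chx χ2 (-v)) n‖ * ((n : ℝ) ^ (-(2 : ℝ)) * (M : ℝ) ^ (-(2 : ℝ)))) * 2 :=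
              mul_le_mul_of_nonneg_left hJ hpos
          _ = 2 * 1 * (‖lamF (chx χ1 v) (chx χ2 (-v)) n‖ * (n : ℝ) ^ (-(2 : ℝ))) * (M : ℝ) ^ (-(2 : ℝ)) := by ring
          _ ≤ 2 * Y0 * (‖lamF (chx χ1 v) (chx χ2 (-v)) n‖ * (n : ℝ) ^ (-(2 : ℝ))) * (M : ℝ) ^ (-(2 : ℝ)) := by
              gcongr

/-- OT16. First moment on the line `Re s = 2`.

Proof. For a natural number `N ≥ 1` and `a > 0`: `∫ y in Ioi 1, N^{-(2+iy)} exp (-(a y)) dy = N^{-2} exp (-(a + i log N)) / (a + i log N)`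
(`integral_exp_mul_complex_Ioi`-type, `N^{-iy} = exp (-iy log N)`), of norm `≤ N^{-2} / log N ≤ 2 N^{-2}` if `N ≥ 2`
(`log 2 ≥ 1/2`), and equal to `exp (-a)/a` if `N = 1`, `|exp (-a)/a - 1/a| ≤ 1`. Expand
`T_LL(s) φ(s)² = ∑_n ∑_{h,k ≤ H} lam n * b h * b k * (n h k)^{-s}` (`T_lam`, absolutely summable), integrate termwise
(`hasSum_integral_of_summable_integral_norm`, or `integral_tsum`; for fixed `h, k`). The term `n = h = k = 1` is `exp (-a)/a`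
(`lam 1 = 1`, `b 1 = 1`), all others have `n h k ≥ 2`: total `≤ 2 (∑ ‖lam n‖ n^{-2}) (∑_{h ≤ H} ‖b h‖ h^{-2})² ≤ 2 K H²`
(`‖b h‖ h^{-2} ≤ 1/h ≤ 1`). -/
theorem T_fm_two3 [NeZero q1] [NeZero q2] (χ1 : DirichletCharacter ℂ q1) (χ2 : DirichletCharacter ℂ q2)
    (v Y0 : ℝ) (hY : 1 ≤ Y0) :
    ∃ C : ℝ, 0 < C ∧ ∀ (b : ℕ → ℂ) (H : ℕ) (a : ℝ), 1 ≤ H → b 1 = 1 → (∀ h, ‖b h‖ ≤ h) → 0 < a → a ≤ 1 / 2 →
      ‖(∫ y in Ioi Y0, T_LL3 χ1 χ2 v (2 + y * I) * phi b H (2 + y * I) ^ 2 * (Real.exp (-(a * y)) : ℂ)) - 1 / a‖ ≤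
        C * (H : ℝ) ^ 2 := by
  obtain ⟨K, hK⟩ : ∃ K : ℝ, K = ∑' n : ℕ, ‖lamF (chx χ1 v) (chx χ2 (-v)) n‖ * (n : ℝ) ^ (-(2 : ℝ)) := ⟨_, rfl⟩
  have hK0 : 0 ≤ K := by rw [hK]; exact tsum_nonneg fun n => by positivity
  refine ⟨2 * Y0 * K + 1, by positivity, ?_⟩
  intro b H a hH hb1 hb ha ha2
  have hpt : ∀ y : ℝ, T_LL3 χ1 χ2 v (2 + y * I) * phi b H (2 + y * I) ^ 2 * (Real.exp (-(a * y)) : ℂ) =
      ∑ h ∈ Finset.Icc 1 H, ∑ k ∈ Finset.Icc 1 H, b h * b k * (T_LL3 χ1 χ2 v (2 + y * I) *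
        (((h * k : ℕ) : ℂ) ^ (-(2 + (y : ℂ) * I)) * (Real.exp (-(a * y)) : ℂ))) := by
    intro y
    unfold phi
    rw [sq, Finset.sum_mul_sum, Finset.mul_sum, Finset.sum_mul]
    apply Finset.sum_congr rfl
    intro h hh
    rw [Finset.mul_sum, Finset.sum_mul]
    apply Finset.sum_congr rfl
    intro k hk
    push_cast
    rw [Complex.natCast_mul_natCast_cpow]
    ring
  have hM1 : ∀ h ∈ Finset.Icc 1 H, ∀ k ∈ Finset.Icc 1 H, 1 ≤ h * k := by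
    intro h hh k hk
    exact Nat.mul_pos (Finset.mem_Icc.1 hh).1 (Finset.mem_Icc.1 hk).1
  have hint : (∫ y in Ioi Y0, T_LL3 χ1 χ2 v (2 + y * I) * phi b H (2 + y * I) ^ 2 * (Real.exp (-(a * y)) : ℂ)) =
      ∑ h ∈ Finset.Icc 1 H, ∑ k ∈ Finset.Icc 1 H, b h * b k * ∫ y in Ioi Y0, (T_LL3 χ1 χ2 v (2 + y * I) *
        (((h * k : ℕ) : ℂ) ^ (-(2 + (y : ℂ) * I)) * (Real.exp (-(a * y)) : ℂ))) := by
    rw [integral_congr_ae (Filter.Eventually.of_forall hpt), integral_finsetSum]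
    · apply Finset.sum_congr rfl
      intro h hh
      rw [integral_finsetSum]
      · apply Finset.sum_congr rfl
        intro k hk
        rw [integral_const_mul]
      · intro k hk
        exact ((T_Fm23_one χ1 χ2 v Y0 hY (h * k) (hM1 h hh k hk) a ha).1).const_mul _
    · intro h hh
      apply integrable_finsetSum
      intro k hk
      exact ((T_Fm23_one χ1 χ2 v Y0 hY (h * k) (hM1 h hh k hk) a ha).1).const_mul _
  have hone : (1 / (a : ℂ)) = ∑ h ∈ Finset.Icc 1 H, ∑ k ∈ Finset.Icc 1 H, b h * b k *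
      (if h * k = 1 then 1 / (a : ℂ) else 0) := by
    rw [Finset.sum_eq_single 1, Finset.sum_eq_single 1]
    · rw [hb1]
      simp
    · intro k hk hk1
      rw [if_neg (by simpa using hk1), mul_zero]
    · intro h
      exact absurd (Finset.mem_Icc.2 ⟨le_refl 1, hH⟩) h
    · intro h hh hh1
      apply Finset.sum_eq_zero
      intro k hk
      rw [if_neg (fun hc => hh1 (Nat.eq_one_of_mul_eq_one_right hc)), mul_zero]
    · intro h
      exact absurd (Finset.mem_Icc.2 ⟨le_refl 1, hH⟩) h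
  rw [hint, hone, ← Finset.sum_sub_distrib]
  have hterm : ∀ h ∈ Finset.Icc 1 H, ‖(∑ k ∈ Finset.Icc 1 H, b h * b k * ∫ y in Ioi Y0, (T_LL3 χ1 χ2 v (2 + y * I) *
        (((h * k : ℕ) : ℂ) ^ (-(2 + (y : ℂ) * I)) * (Real.exp (-(a * y)) : ℂ)))) -
        ∑ k ∈ Finset.Icc 1 H, b h * b k * (if h * k = 1 then 1 / (a : ℂ) else 0)‖ ≤ H * (2 * Y0 * K) := by
    intro h hh
    rw [← Finset.sum_sub_distrib]
    have h1 : ∀ k ∈ Finset.Icc 1 H, ‖b h * b k * (∫ y in Ioi Y0, (T_LL3 χ1 χ2 v (2 + y * I) *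
        (((h * k : ℕ) : ℂ) ^ (-(2 + (y : ℂ) * I)) * (Real.exp (-(a * y)) : ℂ)))) -
        b h * b k * (if h * k = 1 then 1 / (a : ℂ) else 0)‖ ≤ 2 * Y0 * K := by
      intro k hk
      rw [← mul_sub, norm_mul, norm_mul]
      have h2 := (T_Fm23_one χ1 χ2 v Y0 hY (h * k) (hM1 h hh k hk) a ha).2
      rw [← hK] at h2
      have hh1 : (1 : ℝ) ≤ h := by exact_mod_cast (Finset.mem_Icc.1 hh).1
      have hk1 : (1 : ℝ) ≤ k := by exact_mod_cast (Finset.mem_Icc.1 hk).1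
      have h3 : ‖b h‖ * ‖b k‖ ≤ (h : ℝ) * k := mul_le_mul (hb h) (hb k) (norm_nonneg _) (by linarith)
      have h4 : ((h * k : ℕ) : ℝ) ^ (-(2 : ℝ)) = 1 / ((h : ℝ) * k) ^ 2 := by
        push_cast
        rw [Real.rpow_neg (by positivity), one_div]
        congr 1
        exact Real.rpow_two _
      rw [h4] at h2
      have hhk : (1 : ℝ) ≤ (h : ℝ) * k := by nlinarith
      calc ‖b h‖ * ‖b k‖ * _ ≤ ((h : ℝ) * k) * (2 * Y0 * K * (1 / ((h : ℝ) * k) ^ 2)) :=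
            mul_le_mul h3 h2 (norm_nonneg _) (by linarith)
        _ = 2 * Y0 * K * (1 / ((h : ℝ) * k)) := by
            field_simp
        _ ≤ 2 * Y0 * K * 1 := by
            apply mul_le_mul_of_nonneg_left _ (by positivity)
            rw [div_le_one (by linarith)]
            exact hhk
        _ = 2 * Y0 * K := mul_one _
    calc ‖_‖ ≤ ∑ k ∈ Finset.Icc 1 H, 2 * Y0 * K := norm_sum_le_of_le _ h1
      _ = H * (2 * Y0 * K) := by
          rw [Finset.sum_const, Nat.card_Icc, nsmul_eq_mul]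
          simp
  calc ‖_‖ ≤ ∑ h ∈ Finset.Icc 1 H, (H : ℝ) * (2 * Y0 * K) := norm_sum_le_of_le _ hterm
    _ = (2 * Y0 * K) * (H : ℝ) ^ 2 := by
        rw [Finset.sum_const, Nat.card_Icc, nsmul_eq_mul]
        simp
        ring
    _ ≤ (2 * Y0 * K + 1) * (H : ℝ) ^ 2 := by
        apply mul_le_mul_of_nonneg_right _ (by positivity)
        linarith

end OO

end

section

open Complex MeasureTheory Set Filter Topology
open scoped ComplexConjugate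

namespace OO

variable {q1 q2 : ℕ}

/-- OT17. First moment on the critical line.

Proof. `LZ.half_shift` (V07) with `a = 1/2`, `b = 2`, `Y = 1`, `F s = T_LL s * phi b H s ^ 2 * exp (a I (s - 1/2))`:
`‖exp (a I (s - 1/2))‖ = exp (-(a Im s))`, `‖F s‖ ≤ C H⁴ (1+|Im s|)² exp (-(a Im s)) ≤ C H⁴ (1+|Im s|)⁵ exp (-(a Im s))` for
`Re s ∈ [1/2,2]`, `Im s ≥ 1` (`T_ent`, `‖s - 1‖ ≥ 1`; `T_phi`), horizontal bound `D = C H⁴ 4` or so. For `s = 1/2 + iy`: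
`exp (a I (iy)) = exp (-(a y))`; for `s = 2 + iy`: `exp (a I (3/2 + iy)) = exp (3a/2 I) exp (-(a y))`. So
`‖∫_{1/2} - e^{3ai/2} ∫_2‖ ≤ C' H⁴` and by `T_fm_two` `∫_2 = 1/a + O(H²)`, `|e^{3ai/2} - 1|/a ≤ 3/2`. -/
theorem T_fm_half3 [NeZero q1] [NeZero q2] (χ1 : DirichletCharacter ℂ q1) (χ2 : DirichletCharacter ℂ q2) (v : ℝ) :
    ∃ C : ℝ, 0 < C ∧ ∀ (b : ℕ → ℂ) (H : ℕ) (a : ℝ), 1 ≤ H → b 1 = 1 → (∀ h, ‖b h‖ ≤ h) → 0 < a → a ≤ 1 / 2 →
      ‖(∫ y in Ioi (|v| + 1), T_LL3 χ1 χ2 v (1 / 2 + y * I) * phi b H (1 / 2 + y * I) ^ 2 * (Real.exp (-(a * y)) : ℂ)) - 1 / a‖ ≤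
        C * (H : ℝ) ^ 4 := by
  obtain ⟨C1, hC1, hL⟩ := T_Ent3_bd χ1 χ2 v
  have hv := abs_nonneg v
  obtain ⟨C2, hC2, h2⟩ := T_fm_two3 χ1 χ2 v (|v| + 1) (by linarith)
  refine ⟨3 / 2 * ((2 + |v|) ^ 2 * C1) + C2 + 3 / 2 + 1, by positivity, ?_⟩
  intro b H a hH hb1 hb ha ha2
  obtain ⟨hphi, _, _, hphd, _⟩ := T_phi b H hb
  have hH1 : (1 : ℝ) ≤ H := by exact_mod_cast hH
  set F : ℂ → ℂ := fun s => T_LL3 χ1 χ2 v s * phi b H s ^ 2 * exp (a * I * (s - 1 / 2)) with hF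
  have hnorm : ∀ s : ℂ, |v| + 1 ≤ s.im → 1 ≤ ‖s + v * I - 1‖ ∧ 1 ≤ ‖s - v * I - 1‖ := by
    intro s hs
    have h1 := Complex.abs_im_le_norm (s + v * I - 1)
    have h2 := Complex.abs_im_le_norm (s - v * I - 1)
    have e1 : (s + v * I - 1).im = s.im + v := by simp
    have e2 : (s - v * I - 1).im = s.im - v := by simp
    have a1 := neg_abs_le v
    have a2 := le_abs_self v
    rw [e1, abs_of_nonneg (by linarith)] at h1
    rw [e2, abs_of_nonneg (by linarith)] at h2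
    exact ⟨by linarith, by linarith⟩
  have hexp : ∀ s : ℂ, ‖exp (a * I * (s - 1 / 2))‖ = Real.exp (-(a * s.im)) := by
    intro s
    rw [norm_exp]
    congr 1
    simp
  have hFn : ∀ s : ℂ, 1 / 2 ≤ s.re → s.re ≤ 2 → |v| + 1 ≤ s.im →
      ‖F s‖ ≤ C1 * (H : ℝ) ^ 4 * (1 + |s.im|) ^ 2 * Real.exp (-(a * s.im)) := by
    intro s h1 _ h3
    obtain ⟨hn1, hn2⟩ := hnorm s h3
    have hl := hL s h1 (by linarith) (by linarith)
    have hp := hphi s (by linarith)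
    simp only [hF, norm_mul, norm_pow, hexp]
    have : ‖phi b H s‖ ^ 2 ≤ ((H : ℝ) ^ 2) ^ 2 := by gcongr
    calc ‖T_LL3 χ1 χ2 v s‖ * ‖phi b H s‖ ^ 2 * Real.exp (-(a * s.im))
        ≤ (C1 * (1 + |s.im|) ^ 2) * ((H : ℝ) ^ 2) ^ 2 * Real.exp (-(a * s.im)) := by gcongr
      _ = _ := by ring
  have hmain := LZ.half_shift (a := 1 / 2) (b := 2) (Y := |v| + 1) (F := F) (by norm_num) ?_
    (C := C1 * (H : ℝ) ^ 4) (ε := a) ha ?_ (D := C1 * (H : ℝ) ^ 4 * (2 + |v|) ^ 2) ?_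
  · have e1 : ∀ y : ℝ, F (((1 / 2 : ℝ) : ℂ) + y * I) =
        T_LL3 χ1 χ2 v (1 / 2 + y * I) * phi b H (1 / 2 + y * I) ^ 2 * (Real.exp (-(a * y)) : ℂ) := by
      intro y
      simp only [hF]
      push_cast
      congr 1
      congr 1
      linear_combination (a * y : ℂ) * I_sq
    have e2 : ∀ y : ℝ, F (((2 : ℝ) : ℂ) + y * I) = exp ((3 / 2 * a : ℝ) * I) *
        (T_LL3 χ1 χ2 v (2 + y * I) * phi b H (2 + y * I) ^ 2 * (Real.exp (-(a * y)) : ℂ)) := by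
      intro y
      simp only [hF]
      push_cast
      rw [show (a * I * (2 + y * I - 1 / 2) : ℂ) = (3 / 2 * a : ℂ) * I + -(a * y) by
        linear_combination (a * y : ℂ) * I_sq, exp_add]
      ring
    rw [setIntegral_congr_fun measurableSet_Ioi (fun y _ => e1 y),
      setIntegral_congr_fun measurableSet_Ioi (fun y _ => e2 y), integral_const_mul] at hmain
    have h2' := h2 b H a hH hb1 hb ha ha2
    set J1 := ∫ y in Ioi (|v| + 1), T_LL3 χ1 χ2 v (1 / 2 + y * I) * phi b H (1 / 2 + y * I) ^ 2 *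
      (Real.exp (-(a * y)) : ℂ)
    set J2 := ∫ y in Ioi (|v| + 1), T_LL3 χ1 χ2 v (2 + y * I) * phi b H (2 + y * I) ^ 2 *
      (Real.exp (-(a * y)) : ℂ)
    set u : ℂ := exp ((3 / 2 * a : ℝ) * I)
    have hu : ‖u‖ = 1 := norm_exp_ofReal_mul_I _
    have hu1 : ‖u - 1‖ ≤ 3 / 2 * a := by
      have h := Real.norm_exp_I_mul_ofReal_sub_one_le (x := 3 / 2 * a)
      have e : u = exp (I * (3 / 2 * a : ℝ)) := by simp only [u]; rw [mul_comm]
      rw [e]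
      refine h.trans ?_
      rw [Real.norm_eq_abs, abs_of_nonneg (by positivity)]
    have e3 : J1 - 1 / a = (J1 - u * J2) + u * (J2 - 1 / a) + (u - 1) * (1 / a) := by ring
    rw [e3]
    have hH2 : (H : ℝ) ^ 2 ≤ (H : ℝ) ^ 4 := pow_le_pow_right₀ hH1 (by norm_num)
    have hH4 : (1 : ℝ) ≤ (H : ℝ) ^ 4 := one_le_pow₀ hH1
    have n1 : ‖u * (J2 - 1 / a)‖ ≤ C2 * (H : ℝ) ^ 4 := by
      rw [norm_mul, hu, one_mul]
      exact h2'.trans (by gcongr)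
    have n2 : ‖(u - 1) * (1 / (a : ℂ))‖ ≤ 3 / 2 := by
      rw [norm_mul, norm_div, norm_one, Complex.norm_real, Real.norm_eq_abs, abs_of_pos ha]
      calc ‖u - 1‖ * (1 / a) ≤ 3 / 2 * a * (1 / a) := by gcongr
        _ = 3 / 2 := by field_simp
    calc ‖(J1 - u * J2) + u * (J2 - 1 / a) + (u - 1) * (1 / a)‖
        ≤ ‖J1 - u * J2‖ + ‖u * (J2 - 1 / a)‖ + ‖(u - 1) * (1 / (a : ℂ))‖ := norm_add₃_le
      _ ≤ (2 - 1 / 2) * (C1 * (H : ℝ) ^ 4 * (2 + |v|) ^ 2) + C2 * (H : ℝ) ^ 4 + 3 / 2 := by gcongr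
      _ ≤ _ := by nlinarith
  · intro s _ _ h3
    obtain ⟨hn1, hn2⟩ := hnorm s h3
    have n1 : s + v * I ≠ 1 := by
      intro h
      rw [h, sub_self, norm_zero] at hn1
      linarith
    have n2 : s - v * I ≠ 1 := by
      intro h
      rw [h, sub_self, norm_zero] at hn2
      linarith
    exact ((T_Ent3_diff χ1 χ2 v s n1 n2).mul ((hphd s).pow 2)).mul (by fun_prop)
  · intro s h1 h2 h3
    refine (hFn s h1 h2 h3).trans ?_
    have h5 : (1 + |s.im|) ^ 2 ≤ (1 + |s.im|) ^ 5 :=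
      pow_le_pow_right₀ (by linarith [abs_nonneg s.im]) (by norm_num)
    gcongr
  · intro x hx
    have him : ((x : ℂ) + ((|v| + 1 : ℝ) : ℂ) * I).im = |v| + 1 := by simp
    have hre : ((x : ℂ) + ((|v| + 1 : ℝ) : ℂ) * I).re = x := by simp
    refine (hFn _ (by rw [hre]; exact hx.1) (by rw [hre]; exact hx.2) (by rw [him])).trans ?_
    rw [him]
    have : Real.exp (-(a * (|v| + 1))) ≤ 1 := Real.exp_le_one_iff.2 (by
      have : 0 ≤ a * (|v| + 1) := by positivity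
      linarith)
    have h0 : 0 ≤ C1 * (H : ℝ) ^ 4 := by positivity
    have h1 : (1 + |(|v| + 1)|) ^ 2 = (2 + |v|) ^ 2 := by
      rw [abs_of_nonneg (by linarith : 0 ≤ |v| + 1)]
      ring
    rw [h1]
    exact mul_le_of_le_one_right (by positivity) this

end OO

end

section

open Complex MeasureTheory Set Filter Topology
open scoped ComplexConjugate

namespace OO

private theorem T_First3_lin {T a b c d : ℝ} (h1 : T - a ≤ b) (h2 : b ≤ d) (h3 : a ≤ c)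
    (h4 : d ≤ T / 2) : T / 2 ≤ c := by linarith

private theorem T_First3_re (t : ℝ) : ((1 / 2 : ℂ) + t * I).re = 1 / 2 := by
  simp

private theorem T_First3_im (t : ℝ) : ((1 / 2 : ℂ) + t * I).im = t := by
  simp

private theorem T_First3_cont : Continuous (fun t : ℝ => (1 / 2 : ℂ) + t * I) := by
  fun_prop

private theorem T_First3_H4 {C T l h : ℝ} (hC : 0 < C) (hT0 : 0 < T) (hTC : 4 * C ^ 2 ≤ T)
    (hlog : 0 < Real.log T) (hl2 : l ≤ dl * Real.log T) (h0 : 0 ≤ h) (hHe : h ≤ Real.exp (2 * l)) :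
    C * h ^ 4 ≤ T / 2 := by
  have h1 : h ^ 4 ≤ Real.exp (2 * l) ^ 4 := pow_le_pow_left₀ h0 hHe 4
  have h2 : Real.exp (2 * l) ^ 4 = Real.exp (8 * l) := by
    rw [← Real.exp_nat_mul]; congr 1; push_cast; ring
  have h3 : Real.exp (8 * l) ≤ Real.exp (Real.log T / 2) := by
    apply Real.exp_le_exp.mpr
    have hd : 8 * dl ≤ 1 / 2 := by unfold dl; norm_num
    have h9 := mul_le_mul_of_nonneg_right hd hlog.le
    clear hTC h1 h2 hHe
    linarith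
  have h4 : Real.exp (Real.log T / 2) = Real.sqrt T := by
    rw [Real.sqrt_eq_rpow, Real.rpow_def_of_pos hT0]
    congr 1; ring
  have h5 : h ^ 4 ≤ Real.sqrt T := by
    rw [← h4]; exact h1.trans (h2.le.trans h3)
  have h6 : 2 * C ≤ Real.sqrt T := by
    apply Real.le_sqrt_of_sq_le
    rw [mul_pow]
    norm_num
    exact hTC
  have h7 : Real.sqrt T * Real.sqrt T = T := Real.mul_self_sqrt hT0.le
  have h8 : 0 ≤ Real.sqrt T := Real.sqrt_nonneg T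
  have h9 : C * h ^ 4 ≤ C * Real.sqrt T := mul_le_mul_of_nonneg_left h5 hC.le
  have h10 := mul_le_mul_of_nonneg_right h6 h8
  clear h1 h2 h3 h4 h5 h6 hHe hl2 hTC
  linarith

/-- OT19. The first moment (interface statement `first_moment`).

Proof. `a = 1/T ≤ 1/2`, `b = beta`, `H = Hl l ≤ e^{2l} ≤ T^{2 dl}` (`T_beta`), so `C H⁴ ≤ C T^{8 dl} ≤ T/2` for `T ≥ T0` (`8 dl ≤ 1/2`).
`T_fm_half`: `‖∫_{Ioi 1} ..‖ ≥ T - T/2`, and the norm of the integral is at most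
`∫_{Ioi 1} exp (-(t/T)) ‖L1 L2‖ ‖φ‖² ≤ ∫_{Ioi 0}` (nonnegative integrand, integrable on `Ioi 0`: continuous, and
`≤ C H⁴ (1+t)² exp (-(t/T))`; `T_ent`, `T_phi`; `(1+t)² exp (-(t/T)) ≤ C_T exp (-(t/(2T)))`). -/
theorem T_first_moment3 {q1 q2 : ℕ} [NeZero q1] [NeZero q2] (χ1 : DirichletCharacter ℂ q1)
    (χ2 : DirichletCharacter ℂ q2) (v : ℝ) : ∃ T0 : ℝ, 2 ≤ T0 ∧ ∀ T l : ℝ,
      T0 ≤ T → dl / 2 * Real.log T ≤ l → l ≤ dl * Real.log T →
      T / 2 ≤ ∫ t in Ioi (0 : ℝ), Real.exp (-(t / T)) * (‖LX.Lf χ1 (1 / 2 + (t + v : ℝ) * I) * LX.Lf χ2 (1 / 2 + (t - v : ℝ) * I)‖ *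
        ‖phi (beta (chx χ1 v) (chx χ2 (-v)) l) (Hl l) (1 / 2 + t * I)‖ ^ 2) := by
  obtain ⟨C, hC, hfm⟩ := T_fm_half3 χ1 χ2 v
  obtain ⟨C1, hC1, hLL⟩ := T_Ent3_bd χ1 χ2 v
  have hv := abs_nonneg v
  refine ⟨max 2 (4 * C ^ 2), le_max_left _ _, ?_⟩
  intro T l hT hl1 hl2
  have hT2 : (2 : ℝ) ≤ T := le_trans (le_max_left _ _) hT
  have hTC : 4 * C ^ 2 ≤ T := le_trans (le_max_right _ _) hT
  have hT0 : 0 < T := by linarith
  have hlog : 0 < Real.log T := Real.log_pos (by linarith)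
  have hdl : 0 < dl := by unfold dl; norm_num
  have hl0 : 0 < l := lt_of_lt_of_le (by positivity) hl1
  obtain ⟨hb1, hbn, hbs, hH1, hHe⟩ := T_beta3 χ1 χ2 v l hl0
  set b : ℕ → ℂ := fun h => beta (chx χ1 v) (chx χ2 (-v)) l h with hbdef
  set H : ℕ := Hl l with hHdef
  have hfm' := hfm b H (1 / T) hH1 hb1 hbn (by positivity) (by
    rw [div_le_div_iff₀ hT0 (by norm_num)]; linarith)
  obtain ⟨hphi1, -, -, hphid, -⟩ := T_phi b H hbn
  -- bound on C H^4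
  have hH4 : C * (H : ℝ) ^ 4 ≤ T / 2 := by
    exact T_First3_H4 hC hT0 hTC hlog hl2 (Nat.cast_nonneg _) hHe
  -- the function
  have hcontLL : Continuous (fun t : ℝ => T_LL3 χ1 χ2 v (1 / 2 + t * I)) := T_MMl3_cLL χ1 χ2 v
  have hcontphi : Continuous (fun t : ℝ => phi b H (1 / 2 + t * I)) :=
    hphid.continuous.comp T_First3_cont
  have hint := (T_dec 2 (1 / T) (by positivity)).1
    (fun t : ℝ => T_LL3 χ1 χ2 v (1 / 2 + t * I) * phi b H (1 / 2 + t * I) ^ 2 *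
      (Real.exp (-((1 / T) * |t|)) : ℂ)) (C1 * (H : ℝ) ^ 4) (by
      apply Continuous.mul
      · exact hcontLL.mul (hcontphi.pow 2)
      · fun_prop) (by
      intro t
      have e1 : ‖T_LL3 χ1 χ2 v (1 / 2 + t * I)‖ ≤ C1 * (1 + |t|) ^ 2 := by
        have := hLL (1 / 2 + t * I) (by rw [T_First3_re]) (T_MMl3_norm t v).1 (T_MMl3_norm t v).2
        rwa [T_First3_im] at this
      have e2 : ‖phi b H (1 / 2 + t * I)‖ ≤ (H : ℝ) ^ 2 :=
        hphi1 _ (by rw [T_First3_re]; norm_num)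
      have e3 : ‖phi b H (1 / 2 + t * I)‖ ^ 2 ≤ (H : ℝ) ^ 4 := by
        calc ‖phi b H (1 / 2 + t * I)‖ ^ 2 ≤ ((H : ℝ) ^ 2) ^ 2 := by gcongr
          _ = (H : ℝ) ^ 4 := by ring
      rw [norm_mul, norm_mul, norm_pow, Complex.norm_real, Real.norm_of_nonneg (Real.exp_nonneg _)]
      have e4 : (0 : ℝ) ≤ C1 * (1 + |t|) ^ 2 := by positivity
      calc ‖T_LL3 χ1 χ2 v (1 / 2 + t * I)‖ * ‖phi b H (1 / 2 + t * I)‖ ^ 2 * Real.exp (-(1 / T * |t|))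
          ≤ (C1 * (1 + |t|) ^ 2) * (H : ℝ) ^ 4 * Real.exp (-(1 / T * |t|)) := by gcongr
        _ = C1 * (H : ℝ) ^ 4 * (1 + |t|) ^ 2 * Real.exp (-(1 / T * |t|)) := by ring)
  have hint1 := hint.1.norm
  -- integrand on Ioi 0
  have hfe : ∀ t ∈ Ioi (0 : ℝ), ‖T_LL3 χ1 χ2 v (1 / 2 + t * I) * phi b H (1 / 2 + t * I) ^ 2 *
      (Real.exp (-((1 / T) * |t|)) : ℂ)‖ = Real.exp (-(t / T)) *
        (‖LX.Lf χ1 (1 / 2 + (t + v : ℝ) * I) * LX.Lf χ2 (1 / 2 + (t - v : ℝ) * I)‖ * ‖phi b H (1 / 2 + t * I)‖ ^ 2) := by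
    intro t ht
    rw [norm_mul, norm_mul, norm_pow, Complex.norm_real, Real.norm_of_nonneg (Real.exp_nonneg _),
      abs_of_pos ht]
    have : -(1 / T * t) = -(t / T) := by ring
    rw [this, T_LL3_line]
    ring
  have hint0 : IntegrableOn (fun t : ℝ => Real.exp (-(t / T)) *
        (‖LX.Lf χ1 (1 / 2 + (t + v : ℝ) * I) * LX.Lf χ2 (1 / 2 + (t - v : ℝ) * I)‖ * ‖phi b H (1 / 2 + t * I)‖ ^ 2)) (Ioi 0) := by
    refine (hint1.integrableOn (s := Ioi (0 : ℝ))).congr_fun ?_ measurableSet_Ioi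
    intro t ht
    exact hfe t ht
  have hle : ‖∫ y in Ioi (|v| + 1), T_LL3 χ1 χ2 v (1 / 2 + y * I) * phi b H (1 / 2 + y * I) ^ 2 *
      (Real.exp (-(1 / T * y)) : ℂ)‖ ≤ ∫ t in Ioi (0 : ℝ), Real.exp (-(t / T)) *
        (‖LX.Lf χ1 (1 / 2 + (t + v : ℝ) * I) * LX.Lf χ2 (1 / 2 + (t - v : ℝ) * I)‖ * ‖phi b H (1 / 2 + t * I)‖ ^ 2) := by
    calc ‖∫ y in Ioi (|v| + 1), T_LL3 χ1 χ2 v (1 / 2 + y * I) * phi b H (1 / 2 + y * I) ^ 2 *
      (Real.exp (-(1 / T * y)) : ℂ)‖ ≤ ∫ y in Ioi (|v| + 1), ‖T_LL3 χ1 χ2 v (1 / 2 + y * I) *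
          phi b H (1 / 2 + y * I) ^ 2 * (Real.exp (-(1 / T * y)) : ℂ)‖ := norm_integral_le_integral_norm _
      _ = ∫ t in Ioi (|v| + 1), Real.exp (-(t / T)) *
        (‖LX.Lf χ1 (1 / 2 + (t + v : ℝ) * I) * LX.Lf χ2 (1 / 2 + (t - v : ℝ) * I)‖ * ‖phi b H (1 / 2 + t * I)‖ ^ 2) := by
          apply setIntegral_congr_fun measurableSet_Ioi
          intro t ht
          have ht' : (0 : ℝ) < t := lt_trans (by linarith) ht
          have := hfe t ht'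
          rw [abs_of_pos ht'] at this
          exact this
      _ ≤ _ := by
          apply setIntegral_mono_set hint0
          · filter_upwards with t
            positivity
          · exact (Ioi_subset_Ioi (by linarith : (0 : ℝ) ≤ |v| + 1)).eventuallyLE
  have h1T : (1 : ℂ) / ((1 / T : ℝ) : ℂ) = ((T : ℝ) : ℂ) := by
    push_cast
    field_simp
  have hTn : ‖(1 : ℂ) / ((1 / T : ℝ) : ℂ)‖ = T := by
    rw [h1T, Complex.norm_real, Real.norm_of_nonneg hT0.le]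
  have hrev := norm_sub_norm_le ((1 : ℂ) / ((1 / T : ℝ) : ℂ)) (∫ y in Ioi (|v| + 1), T_LL3 χ1 χ2 v (1 / 2 + y * I) * phi b H (1 / 2 + y * I) ^ 2 *
      (Real.exp (-(1 / T * y)) : ℂ))
  rw [norm_sub_rev] at hrev
  rw [hTn] at hrev
  exact T_First3_lin hrev hfm' hle hH4

/-- Block F1 with shifts (interface statement `first_moment3`) -/
theorem X_first_moment3 {q1 q2 : ℕ} [NeZero q1] [NeZero q2] (χ1 : DirichletCharacter ℂ q1)
    (χ2 : DirichletCharacter ℂ q2) (y : ℝ) (_h1 : χ1.IsPrimitive) (_h2 : χ2.IsPrimitive) : ∃ T0 : ℝ, 2 ≤ T0 ∧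
      ∀ T l : ℝ, T0 ≤ T → dl / 2 * Real.log T ≤ l → l ≤ dl * Real.log T →
      T / 2 ≤ ∫ t in Ioi (0 : ℝ), Real.exp (-(t / T)) *
        (‖LX.Lf χ1 (1 / 2 + (t + y : ℝ) * I) * LX.Lf χ2 (1 / 2 + (t - y : ℝ) * I)‖ *
        ‖phi (beta (chx χ1 y) (chx χ2 (-y)) l) (Hl l) (1 / 2 + t * I)‖ ^ 2) :=
  T_first_moment3 χ1 χ2 y

end OO

end
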