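import Pool.Agent.Lib.MP_0f5a55_nt.OM.K000
import Pool.Agent.Lib.MP_0f5a55_nt.OM.K007
import Pool.Agent.Lib.MP_0f5a55_nt.OM.K012
import Pool.Agent.Lib.MP_0f5a55_nt.OM.K013

section

/-!
# Row D_A8: the sum over the 36 pairs
-/

open Complex MeasureTheory Set Filter Topology
open scoped ComplexConjugate

namespace OO

/-- the weights of the absolute values -/
theorem D_A8_abs (K X : ℝ) (V V' : Fin 6 → ℝ) (hV : ∀ j, 0 ≤ V j) (hV' : ∀ j, 0 ≤ V' j) :
    ∑ j, ∑ k, |co j * co k| * (K + 2 * X + 3 * V j + 3 * V' k) ≤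
      16 * K + 32 * X + 12 * (∑ j, V j) + 12 * (∑ k, V' k) := by
  have h2 : |(-1 / 2 : ℝ)| = 1 / 2 := by rw [abs_of_neg (by norm_num)]; norm_num
  have c0 : |co 0| = 1 := by simp [co]
  have c1 : |co 1| = 1 := by simp [co]
  have c2 : |co 2| = 1 / 2 := by rw [← h2]; rfl
  have c3 : |co 3| = 1 / 2 := by rw [← h2]; rfl
  have c4 : |co 4| = 1 / 2 := by rw [← h2]; rfl
  have c5 : |co 5| = 1 / 2 := by rw [← h2]; rfl
  simp only [Fin.sum_univ_six, abs_mul, c0, c1, c2, c3, c4, c5]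
  have a2 := hV 2
  have a3 := hV 3
  have a4 := hV 4
  have a5 := hV 5
  have b2 := hV' 2
  have b3 := hV' 3
  have b4 := hV' 4
  have b5 := hV' 5
  linarith

/-- the sum over the pairs of equal families -/
theorem D_A8_eq (s : Fin 2 → ℝ) (hs : ∀ i, s i = 1 ∨ s i = -1) (lw lL : ℝ) :
    ∑ j : Fin 6, ∑ k : Fin 6,
      (if fm j = fm k then co j * co k * (if sg s j = sg s k then lw else -lL) else 0) =
      lw + lL := by
  have f0 : fm 0 = 0 := rfl
  have f1 : fm 1 = 1 := rfl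
  have f2 : fm 2 = 0 := rfl
  have f3 : fm 3 = 1 := rfl
  have f4 : fm 4 = 0 := rfl
  have f5 : fm 5 = 1 := rfl
  have c0 : co 0 = 1 := rfl
  have c1 : co 1 = 1 := rfl
  have c2 : co 2 = -1 / 2 := rfl
  have c3 : co 3 = -1 / 2 := rfl
  have c4 : co 4 = -1 / 2 := rfl
  have c5 : co 5 = -1 / 2 := rfl
  have g0 : sg s 0 = s 0 := rfl
  have g1 : sg s 1 = s 1 := rfl
  have g2 : sg s 2 = 1 := rfl
  have g3 : sg s 3 = 1 := rfl
  have g4 : sg s 4 = -1 := rfl
  have g5 : sg s 5 = -1 := rfl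
  have n1 : ¬ ((1 : ℝ) = -1) := by norm_num
  have n2 : ¬ ((-1 : ℝ) = 1) := by norm_num
  have m1 : ¬ ((0 : Fin 2) = 1) := by decide
  have m2 : ¬ ((1 : Fin 2) = 0) := by decide
  simp only [Fin.sum_univ_six, f0, f1, f2, f3, f4, f5, c0, c1, c2, c3, c4, c5, g0, g1, g2, g3, g4,
    g5, if_pos, if_neg m1, if_neg m2, if_neg n1, if_neg n2]
  rcases hs 0 with h0 | h0 <;> rcases hs 1 with h1 | h1 <;>
    simp only [h0, h1, if_pos, if_neg n1, if_neg n2] <;> ring

/-- Sum the hypothesis over the 36 pairs (`Fin.sum_univ_six`, `co`, `fm`, `sg`, `sgn` unfolded, four cases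
for `s`). `∑ |co_j co_k| = 16`, `∑_k |co_j co_k| = 4 |co_j| ≤ 4`; over the pairs of equal families:
`∑ co_j co_k` is `1` over equal signs and `-1` over different signs (for each of the four `s`), so the
last terms add up to `-(1 * lw + (-1) * (-lL)) = -lw - lL`. -/
theorem D_sum36 (s : Fin 2 → ℝ) (hs : ∀ i, s i = 1 ∨ s i = -1) (lw lL K X : ℝ)
    (V V' : Fin 6 → ℝ) (hV : ∀ j, 0 ≤ V j) (hV' : ∀ j, 0 ≤ V' j) (x : Fin 6 → Fin 6 → ℝ)
    (h : ∀ j k, co j * co k * x j k ≤ |co j * co k| * (K + 2 * X + 3 * V j + 3 * V' k) -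
      (if fm j = fm k then co j * co k * (if sg s j = sg s k then lw else -lL) else 0)) :
    ∑ j, ∑ k, co j * co k * x j k ≤
      16 * K + 32 * X + 12 * (∑ j, V j) + 12 * (∑ k, V' k) - lw - lL := by
  have h1 : ∑ j, ∑ k, co j * co k * x j k ≤
      ∑ j, ∑ k, (|co j * co k| * (K + 2 * X + 3 * V j + 3 * V' k) -
      (if fm j = fm k then co j * co k * (if sg s j = sg s k then lw else -lL) else 0)) :=
    Finset.sum_le_sum fun j _ => Finset.sum_le_sum fun k _ => h j k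
  have h2 : ∑ j, ∑ k, (|co j * co k| * (K + 2 * X + 3 * V j + 3 * V' k) -
      (if fm j = fm k then co j * co k * (if sg s j = sg s k then lw else -lL) else 0)) =
      (∑ j, ∑ k, |co j * co k| * (K + 2 * X + 3 * V j + 3 * V' k)) - (lw + lL) := by
    rw [← D_A8_eq s hs lw lL, ← Finset.sum_sub_distrib]
    exact Finset.sum_congr rfl fun j _ => Finset.sum_sub_distrib _ _
  have h3 := D_A8_abs K X V V' hV hV'
  linarith

end OO

end

section

/-!
# Row B_9: one term of the double sum, local version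
-/

open Complex MeasureTheory Set Filter Topology
open scoped ComplexConjugate

namespace OO

/-- `AA j + AA' k = 1 + om`, `‖om‖ ≤ ‖w‖/2 + ‖w‖/2 + t_j (1+|u_j|) + t'_k (1+|u'_k|)`, `‖w‖ ≤ 1/L + |v|`
(`D_ww`, `D_A7_sh`, `D_sg`). -/
theorem B_om_le (L Th v : ℝ) (hL : 0 < L) (hTh : 0 ≤ Th) (s : Fin 2 → ℝ) (hs : ∀ i, s i = 1 ∨ s i = -1)
    (t t' u u' : Fin 6 → ℝ) (ht : Ad L Th s t) (ht' : Ad L Th s t') (j k : Fin 6) :
    ‖AA L v s t u j + AA L v s t' u' k - 1‖ ≤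
      1 / L + |v| + Th / L * (2 + |u j| + |u' k|) := by
  obtain ⟨a1, a2, -⟩ := ht j
  obtain ⟨b1, b2, -⟩ := ht' k
  obtain ⟨-, -, -, hw, -⟩ := D_ww L v hL
  have hAA : AA L v s t u j + AA L v s t' u' k - 1 = (sg s j : ℂ) * ww L v / 2 +
      (sg s k : ℂ) * ww L v / 2 + (t j * (1 + u j * I) + t' k * (1 + u' k * I)) := by
    rw [AA, AA, AB, AB]
    ring
  have hsg : ∀ i : Fin 6, ‖(sg s i : ℂ) * ww L v / 2‖ = ‖ww L v‖ / 2 := by
    intro i
    have h1 : ‖(sg s i : ℂ)‖ = 1 := by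
      rw [Complex.norm_real, Real.norm_eq_abs]
      rcases D_sg s hs i with h | h <;> rw [h] <;> norm_num
    rw [norm_div, norm_mul, h1, one_mul, Complex.norm_two]
  have h1 := D_A7_sh (t j) (u j) a1
  have h2 := D_A7_sh (t' k) (u' k) b1
  have h3 : t j * (1 + |u j|) ≤ Th / L * (1 + |u j|) :=
    mul_le_mul_of_nonneg_right a2 (by positivity)
  have h4 : t' k * (1 + |u' k|) ≤ Th / L * (1 + |u' k|) :=
    mul_le_mul_of_nonneg_right b2 (by positivity)
  rw [hAA]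
  have h5 := norm_add_le ((sg s j : ℂ) * ww L v / 2 + (sg s k : ℂ) * ww L v / 2)
    (t j * (1 + u j * I) + t' k * (1 + u' k * I))
  have h6 := norm_add_le ((sg s j : ℂ) * ww L v / 2) ((sg s k : ℂ) * ww L v / 2)
  have h7 := norm_add_le ((t j : ℂ) * (1 + u j * I)) ((t' k : ℂ) * (1 + u' k * I))
  rw [hsg, hsg] at h6
  have h8 : Th / L * (2 + |u j| + |u' k|) = Th / L * (1 + |u j|) + Th / L * (1 + |u' k|) := by ring
  rw [h8]
  linarith only [h1, h2, h3, h4, h5, h6, h7, hw]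

/-- Copy `D_pair_term` (D_A9.lean), using `RL` instead of `RB`; the constant is `1 + K0` (`K0` from
`D_pair`), it depends only on `Th`. -/
theorem B_pair_term (Th : ℝ) (hTh : 1 ≤ Th) :
    ∃ K : ℝ, 0 ≤ K ∧ ∀ (F : Fin 2 → ℕ → ℂ) (kap : Fin 2 → Fin 2 → ℝ) (rh : ℝ), RL F kap rh →
    ∀ L v : ℝ, 4 * Th ≤ L → ∀ s : Fin 2 → ℝ, (∀ i, s i = 1 ∨ s i = -1) →
    ∀ t t' u u' : Fin 6 → ℝ, Ad L Th s t → Ad L Th s t' → ∀ j k : Fin 6,
    ‖AA L v s t u j + AA L v s t' u' k - 1‖ ≤ rh →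
    co j * co k * (Rp (fun n => F (fm j) n * conj (F (fm k) n))
        (AA L v s t u j + AA L v s t' u' k) - kap (fm j) (fm k)) ≤
      |co j * co k| * (K + 2 * 0 + 3 * Real.log (1 + |u j|) + 3 * Real.log (1 + |u' k|)) -
      (if fm j = fm k then co j * co k *
        (if sg s j = sg s k then Real.log ‖ww L v‖ else -Real.log L) else 0) := by
  obtain ⟨K0, hK0, hp⟩ := D_pair Th hTh
  refine ⟨1 + K0, by linarith only [hK0], ?_⟩
  intro F kap rh hRL L v hL s hs t t' u u' ht ht' j k hom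
  obtain ⟨a1, a2, a3⟩ := ht j
  obtain ⟨b1, b2, b3⟩ := ht' k
  obtain ⟨c1, c2, c3, c4⟩ := hp L v hL (sg s j) (sg s k) (t j) (t' k) (u j) (u' k) (D_sg s hs j)
    (D_sg s hs k) a1 a2 b1 b2 a3 b3 _ rfl
  have hAA : AA L v s t u j + AA L v s t' u' k = 1 + ((sg s j : ℂ) * ww L v / 2 +
      t j * (1 + u j * I) + ((sg s k : ℂ) * ww L v / 2 + t' k * (1 + u' k * I))) := by
    rw [AA, AA, AB, AB]
    ring
  rw [hAA, add_sub_cancel_left] at hom
  rw [hAA]
  have hR := hRL (fm j) (fm k) _ c1 hom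
  generalize (sg s j : ℂ) * ww L v / 2 + t j * (1 + u j * I) +
    ((sg s k : ℂ) * ww L v / 2 + t' k * (1 + u' k * I)) = om at *
  generalize Rp (fun n => F (fm j) n * conj (F (fm k) n)) (1 + om) = R at *
  generalize (if sg s j = sg s k then Real.log ‖ww L v‖ else -Real.log L) = X at *
  generalize co j * co k = c at *
  generalize kap (fm j) (fm k) = kp at *
  have hu : 0 ≤ Real.log (1 + |u j|) := Real.log_nonneg (by linarith only [abs_nonneg (u j)])
  have hu' : 0 ≤ Real.log (1 + |u' k|) := Real.log_nonneg (by linarith only [abs_nonneg (u' k)])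
  generalize Real.log (1 + |u j|) = a at *
  generalize Real.log (1 + |u' k|) = b at *
  have hc := abs_nonneg c
  have m1 : 0 ≤ |c| * a := mul_nonneg hc hu
  have m2 : 0 ≤ |c| * b := mul_nonneg hc hu'
  have m3 : 0 ≤ |c| * K0 := mul_nonneg hc hK0
  split_ifs at hR ⊢ with hf
  · have e2 : c * (R + Real.log ‖om‖ - kp) ≤ |c| * 1 :=
      (le_abs_self _).trans (by rw [abs_mul]; exact mul_le_mul_of_nonneg_left hR hc)
    have e3 : -(c * (Real.log ‖om‖ - X)) ≤ |c| * (K0 + a + b) :=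
      (neg_le_abs _).trans (by rw [abs_mul]; exact mul_le_mul_of_nonneg_left c3 hc)
    linarith only [e2, e3, m1, m2]
  · rw [add_zero] at hR
    have e2 : c * (R - kp) ≤ |c| * 1 :=
      (le_abs_self _).trans (by rw [abs_mul]; exact mul_le_mul_of_nonneg_left hR hc)
    linarith only [e2, m1, m2, m3]

end OO

end

section

/-!
# Row D3_sum: the sum over the 36 pairs, with the pole terms
-/

open Complex MeasureTheory Set Filter Topology
open scoped ComplexConjugate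

namespace OO

/-- the sum over the pairs of different families -/
theorem D3_sum_ne (s : Fin 2 → ℝ) (hs : ∀ i, s i = 1 ∨ s i = -1) (lw lL lp lm b : ℝ) :
    ∑ j : Fin 6, ∑ k : Fin 6,
      (if fm j = fm k then co j * co k * (if sg s j = sg s k then lw else -lL)
        else b * (co j * co k * (if sg s j = sg s k then
          (if (if fm j = 0 then (1 : ℝ) else -1) * sg s j = 1 then lp else lm) else 0))) =
      lw + lL + b * (s 0 * s 1 / 2 * (lp + lm)) := by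
  have f0 : fm 0 = 0 := rfl
  have f1 : fm 1 = 1 := rfl
  have f2 : fm 2 = 0 := rfl
  have f3 : fm 3 = 1 := rfl
  have f4 : fm 4 = 0 := rfl
  have f5 : fm 5 = 1 := rfl
  have c0 : co 0 = 1 := rfl
  have c1 : co 1 = 1 := rfl
  have c2 : co 2 = -1 / 2 := rfl
  have c3 : co 3 = -1 / 2 := rfl
  have c4 : co 4 = -1 / 2 := rfl
  have c5 : co 5 = -1 / 2 := rfl
  have g0 : sg s 0 = s 0 := rfl
  have g1 : sg s 1 = s 1 := rfl
  have g2 : sg s 2 = 1 := rfl
  have g3 : sg s 3 = 1 := rfl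
  have g4 : sg s 4 = -1 := rfl
  have g5 : sg s 5 = -1 := rfl
  have n1 : ¬ ((1 : ℝ) = -1) := by norm_num
  have n2 : ¬ ((-1 : ℝ) = 1) := by norm_num
  have m1 : ¬ ((0 : Fin 2) = 1) := by decide
  have m2 : ¬ ((1 : Fin 2) = 0) := by decide
  have e1 : (-1 : ℝ) * -1 = 1 := by norm_num
  have e2 : (-1 : ℝ) * 1 = -1 := by norm_num
  simp only [Fin.sum_univ_six, f0, f1, f2, f3, f4, f5, c0, c1, c2, c3, c4, c5, g0, g1, g2, g3, g4,
    g5, if_pos, if_neg m1, if_neg m2, if_neg n1, if_neg n2]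
  rcases hs 0 with h0 | h0 <;> rcases hs 1 with h1 | h1 <;>
    simp only [h0, h1, if_pos, if_neg n1, if_neg n2, one_mul, e1, e2] <;> ring

/-- Copy `D_sum36` (OO/D_A8.lean: `D_A8_abs`, `D_A8_eq`); new: the sum over the pairs of DIFFERENT families of
`co j * co k * (if sg s j = sg s k then (if (if fm j = 0 then 1 else -1) * sg s j = 1 then lp else lm) else 0)` is
`s 0 * s 1 / 2 * (lp + lm)` (`Fin.sum_univ_six`, `co`, `fm`, `sg`, `sgn` unfolded, four cases for `s`, as in `D_A8_eq`). -/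
theorem D3_sum36 (s : Fin 2 → ℝ) (hs : ∀ i, s i = 1 ∨ s i = -1) (lw lL K X lp lm b : ℝ)
    (V V' : Fin 6 → ℝ) (hV : ∀ j, 0 ≤ V j) (hV' : ∀ j, 0 ≤ V' j) (x : Fin 6 → Fin 6 → ℝ)
    (h : ∀ j k, co j * co k * x j k ≤ |co j * co k| * (K + 2 * X + 3 * V j + 3 * V' k) -
      (if fm j = fm k then co j * co k * (if sg s j = sg s k then lw else -lL)
        else b * (co j * co k * (if sg s j = sg s k then
          (if (if fm j = 0 then (1 : ℝ) else -1) * sg s j = 1 then lp else lm) else 0)))) :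
    ∑ j, ∑ k, co j * co k * x j k ≤
      16 * K + 32 * X + 12 * (∑ j, V j) + 12 * (∑ k, V' k) - lw - lL - b * (s 0 * s 1 / 2 * (lp + lm)) := by
  have h1 : ∑ j, ∑ k, co j * co k * x j k ≤
      ∑ j, ∑ k, (|co j * co k| * (K + 2 * X + 3 * V j + 3 * V' k) -
      (if fm j = fm k then co j * co k * (if sg s j = sg s k then lw else -lL)
        else b * (co j * co k * (if sg s j = sg s k then
          (if (if fm j = 0 then (1 : ℝ) else -1) * sg s j = 1 then lp else lm) else 0)))) :=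
    Finset.sum_le_sum fun j _ => Finset.sum_le_sum fun k _ => h j k
  have h2 : ∑ j, ∑ k, (|co j * co k| * (K + 2 * X + 3 * V j + 3 * V' k) -
      (if fm j = fm k then co j * co k * (if sg s j = sg s k then lw else -lL)
        else b * (co j * co k * (if sg s j = sg s k then
          (if (if fm j = 0 then (1 : ℝ) else -1) * sg s j = 1 then lp else lm) else 0)))) =
      (∑ j, ∑ k, |co j * co k| * (K + 2 * X + 3 * V j + 3 * V' k)) -
        (lw + lL + b * (s 0 * s 1 / 2 * (lp + lm))) := by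
    rw [← D3_sum_ne s hs lw lL lp lm b, ← Finset.sum_sub_distrib]
    exact Finset.sum_congr rfl fun j _ => Finset.sum_sub_distrib _ _
  have h3 := D_A8_abs K X V V' hV hV'
  linarith only [h1, h2, h3]

end OO

end

section

/-!
# Row D_A5: Euler products
-/

open Complex MeasureTheory Set Filter Topology
open scoped ComplexConjugate

namespace OO

/-- The constant `K` is absolute. Summable: `D_div_summable 12 κ`.
`EulerProduct.eulerProduct_hasProd` (hypotheses `H 1 = 1`, multiplicative, `Summable (‖H ·‖)`,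
`H 0 = 0`): `HasProd (fun p : Nat.Primes => ∑' e, H (p^e)) (∑' n, H n)`. By `D_local` finite products are
in norm at most `exp (∑_{p ∈ S} re (H p) + K0 ∑_{p ∈ S} p^(-2))`, `K = K0 ∑_p p^(-2)`; pass to the limit
along the finsets of primes (`HasProd.norm` or `Filter.Tendsto.norm`, `le_of_tendsto_of_tendsto'`;
`∑ re (H p)` converges as `H` is summable: `Summable.comp_injective` / subtype). -/
theorem D_euler : ∃ K : ℝ, 0 ≤ K ∧ ∀ (H : ℕ → ℂ) (κ : ℝ), 0 < κ → H 0 = 0 → H 1 = 1 →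
    (∀ m n : ℕ, m.Coprime n → H (m * n) = H m * H n) →
    (∀ n : ℕ, ‖H n‖ ≤ (n.divisors.card : ℝ) ^ 12 * (n : ℝ) ^ (-(1 + κ))) →
    Summable (fun n => ‖H n‖) ∧ ‖∑' n, H n‖ ≤ Real.exp (K + ∑' p : Nat.Primes, (H p).re) := by
  obtain ⟨K0, hK0, hloc⟩ := D_local
  have hs2 : Summable (fun p : Nat.Primes => ((p : ℕ) : ℝ) ^ (-2 : ℝ)) :=
    Nat.Primes.summable_rpow.mpr (by norm_num)
  have hs2nn : 0 ≤ ∑' p : Nat.Primes, ((p : ℕ) : ℝ) ^ (-2 : ℝ) := tsum_nonneg fun p => by positivity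
  refine ⟨K0 * ∑' p : Nat.Primes, ((p : ℕ) : ℝ) ^ (-2 : ℝ), mul_nonneg hK0 hs2nn, ?_⟩
  intro H κ hκ h0 h1 hmul hb
  have hsum : Summable (fun n => ‖H n‖) :=
    Summable.of_nonneg_of_le (fun n => norm_nonneg _) hb (D_div_summable 12 κ hκ)
  refine ⟨hsum, ?_⟩
  have hprod : HasProd (fun p : Nat.Primes => ∑' e, H ((p : ℕ) ^ e)) (∑' n, H n) :=
    EulerProduct.eulerProduct_hasProd h1 (fun {m n} hmn => hmul m n hmn) hsum h0
  have hHp : Summable (fun p : Nat.Primes => (H p).re) := by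
    have h2 : Summable (fun p : Nat.Primes => ‖H p‖) :=
      hsum.comp_injective (i := fun p : Nat.Primes => (p : ℕ)) Nat.Primes.coe_nat_injective
    have h3 : Summable (fun p : Nat.Primes => H p) := h2.of_norm
    exact Complex.reCLM.summable h3
  have hlim : Tendsto (fun S : Finset Nat.Primes => ‖∏ p ∈ S, ∑' e, H ((p : ℕ) ^ e)‖) atTop
      (𝓝 ‖∑' n, H n‖) := Filter.Tendsto.norm hprod
  have hlim2 : Tendsto (fun S : Finset Nat.Primes =>
      Real.exp (K0 * ∑ p ∈ S, ((p : ℕ) : ℝ) ^ (-2 : ℝ) + ∑ p ∈ S, (H p).re)) atTop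
      (𝓝 (Real.exp (K0 * ∑' p : Nat.Primes, ((p : ℕ) : ℝ) ^ (-2 : ℝ) + ∑' p : Nat.Primes, (H p).re))) := by
    have ha : Tendsto (fun S : Finset Nat.Primes => ∑ p ∈ S, ((p : ℕ) : ℝ) ^ (-2 : ℝ)) atTop
        (𝓝 (∑' p : Nat.Primes, ((p : ℕ) : ℝ) ^ (-2 : ℝ))) := hs2.hasSum
    have hb' : Tendsto (fun S : Finset Nat.Primes => ∑ p ∈ S, (H p).re) atTop
        (𝓝 (∑' p : Nat.Primes, (H p).re)) := hHp.hasSum
    exact (Real.continuous_exp.tendsto _).comp ((ha.const_mul K0).add hb')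
  refine le_of_tendsto_of_tendsto' hlim hlim2 fun S => ?_
  rw [norm_prod]
  calc ∏ p ∈ S, ‖∑' e, H ((p : ℕ) ^ e)‖
        ≤ ∏ p ∈ S, Real.exp ((H p).re + K0 * ((p : ℕ) : ℝ) ^ (-2 : ℝ)) :=
        Finset.prod_le_prod (fun p _ => norm_nonneg _) fun p _ => hloc H κ hκ h1 hb p p.2
    _ = Real.exp (K0 * ∑ p ∈ S, ((p : ℕ) : ℝ) ^ (-2 : ℝ) + ∑ p ∈ S, (H p).re) := by
        rw [← Real.exp_sum, Finset.sum_add_distrib, Finset.mul_sum, add_comm]

end OO

end

section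

/-!
# Row D_A10: the unweighted sums (D5)
-/

open Complex MeasureTheory Set Filter Topology
open scoped ComplexConjugate

namespace OO

theorem D_A10_exp_log (x : ℝ) (n : ℕ) : Real.exp (n * Real.log (1 + |x|)) = (1 + |x|) ^ n := by
  have h : 0 < 1 + |x| := by positivity
  rw [← Real.log_pow, Real.exp_log (by positivity)]

theorem D_A10_ww (L v : ℝ) (hL : 0 < L) : 0 < ‖ww L v‖ := by
  rw [norm_pos_iff]
  intro h
  have h1 : (ww L v).re = 1 / L := by
    unfold ww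
    simp
  rw [h, Complex.zero_re] at h1
  have : 0 < 1 / L := by positivity
  linarith

/-- (D5). `H n = PX F n * PX (cjF F) n`: `D_euler` with `κ = 1/L` (`D_PX_mult`, `D_PX_le` with
`σ = 1/2 + 1/(2L)` twice, `D_AA_re`), `D_prime_sum` (`re (AA j + AA' k) ≥ 1 + 1/L`), `D_pair_term`,
`D_sum36` with `x j k = Rp ..`, `V j = log (1+|u j|)`, `X = log (1+|v|)`, `lw = log ‖ww L v‖`,
`lL = log L`; exponentiate: `exp (12 ∑ log (1+|u_j|)) = ∏ (1+|u_j|)^12`,
`exp (-log ‖w‖ - log L) = 1/(L ‖w‖)`. `C = exp (K + 16 K')`. -/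
theorem D_D5 (F : Fin 2 → ℕ → ℂ) (hF : ∀ i, IsCh (F i)) (hF' : ∀ i, IsCh (cjF F i)) (K1 : ℝ)
    (hRB : RB F K1) (Th : ℝ) (hTh : 1 ≤ Th) :
    ∃ C : ℝ, 0 < C ∧ ∀ L v : ℝ, 4 * Th ≤ L → ∀ s : Fin 2 → ℝ, (∀ i, s i = 1 ∨ s i = -1) →
    ∀ t t' u u' : Fin 6 → ℝ, Ad L Th s t → Ad L Th s t' →
      ‖∑' n, PX F (AA L v s t u) 0 n * PX (cjF F) (AA L v s t' u') 0 n‖ ≤
        C * (∏ j, (1 + |u j|) ^ 12) * (∏ j, (1 + |u' j|) ^ 12) * (1 + |v|) ^ 32 /
          (L * ‖ww L v‖) := by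
  obtain ⟨K, hK0, hE⟩ := D_euler
  obtain ⟨K', hP⟩ := D_pair_term F K1 hRB Th hTh
  refine ⟨Real.exp (K + 16 * K'), Real.exp_pos _, ?_⟩
  intro L v hL s hs t t' u u' ht ht'
  have hL0 : 0 < L := by linarith
  set A := AA L v s t u with hA
  set A' := AA L v s t' u' with hA'
  have hre : ∀ j, 1 / 2 + 1 / (2 * L) ≤ (A j).re := fun j => (D_AA_re L Th v hL0 s hs t u ht j).1
  have hre' : ∀ j, 1 / 2 + 1 / (2 * L) ≤ (A' j).re := fun j => (D_AA_re L Th v hL0 s hs t' u' ht' j).1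
  have hm := D_PX_mult F hF A
  have hm' := D_PX_mult (cjF F) hF' A'
  set H : ℕ → ℂ := fun n => PX F A 0 n * PX (cjF F) A' 0 n with hH
  have hb : ∀ n : ℕ, ‖H n‖ ≤ (n.divisors.card : ℝ) ^ 12 * (n : ℝ) ^ (-(1 + 1 / L)) := by
    intro n
    rcases Nat.eq_zero_or_pos n with rfl | hn
    · simp [hH]
    · have hn0 : (0 : ℝ) < n := by exact_mod_cast hn
      have h1 := D_PX_le F hF A 0 (fun j => le_rfl) (1 / 2 + 1 / (2 * L)) hre n
      have h2 := D_PX_le (cjF F) hF' A' 0 (fun j => le_rfl) (1 / 2 + 1 / (2 * L)) hre' n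
      calc ‖H n‖ = ‖PX F A 0 n‖ * ‖PX (cjF F) A' 0 n‖ := norm_mul _ _
        _ ≤ ((n.divisors.card : ℝ) ^ 6 * (n : ℝ) ^ (-(1 / 2 + 1 / (2 * L)))) *
            ((n.divisors.card : ℝ) ^ 6 * (n : ℝ) ^ (-(1 / 2 + 1 / (2 * L)))) :=
            mul_le_mul h1 h2 (norm_nonneg _) (by positivity)
        _ = (n.divisors.card : ℝ) ^ 12 *
            ((n : ℝ) ^ (-(1 / 2 + 1 / (2 * L))) * (n : ℝ) ^ (-(1 / 2 + 1 / (2 * L)))) := by ring
        _ = (n.divisors.card : ℝ) ^ 12 * (n : ℝ) ^ (-(1 + 1 / L)) := by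
            rw [← Real.rpow_add hn0]
            congr 2
            field_simp
            ring
  have hmain := hE H (1 / L) (by positivity) (by simp [hH])
    (by simp only [hH]; rw [hm.map_one, hm'.map_one, one_mul])
    (by
      intro m n hmn
      simp only [hH]
      rw [hm.map_mul_of_coprime hmn, hm'.map_mul_of_coprime hmn]
      ring) hb
  refine hmain.2.trans ?_
  have hsum : ∑' p : Nat.Primes, (H p).re = ∑ j, ∑ k, co j * co k *
      Rp (fun n => F (fm j) n * conj (F (fm k) n)) (A j + A' k) := by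
    refine D_prime_sum F hF hF' A A' fun j k => ?_
    have h1 := hre j
    have h2 := hre' k
    rw [Complex.add_re]
    have h3 : 1 / 2 + 1 / (2 * L) + (1 / 2 + 1 / (2 * L)) = 1 + 1 / L := by
      field_simp
      ring
    have h4 : 0 < 1 / L := by positivity
    linarith
  have h36 := D_sum36 s hs (Real.log ‖ww L v‖) (Real.log L) K' (Real.log (1 + |v|))
    (fun j => Real.log (1 + |u j|)) (fun j => Real.log (1 + |u' j|))
    (fun j => Real.log_nonneg (by linarith [abs_nonneg (u j)]))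
    (fun j => Real.log_nonneg (by linarith [abs_nonneg (u' j)]))
    (fun j k => Rp (fun n => F (fm j) n * conj (F (fm k) n)) (A j + A' k))
    (fun j k => hP L v hL s hs t t' u u' ht ht' j k)
  rw [← hsum] at h36
  have hw := D_A10_ww L v hL0
  calc Real.exp (K + ∑' p : Nat.Primes, (H p).re)
      ≤ Real.exp (K + (16 * K' + 32 * Real.log (1 + |v|) + 12 * (∑ j, Real.log (1 + |u j|)) +
          12 * (∑ k, Real.log (1 + |u' k|)) - Real.log ‖ww L v‖ - Real.log L)) :=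
        Real.exp_le_exp.mpr (by linarith)
    _ = Real.exp ((K + 16 * K') + (∑ j, ((12 : ℕ) : ℝ) * Real.log (1 + |u j|)) +
          (∑ j, ((12 : ℕ) : ℝ) * Real.log (1 + |u' j|)) + ((32 : ℕ) : ℝ) * Real.log (1 + |v|) +
          (-Real.log L) + (-Real.log ‖ww L v‖)) := by
        congr 1
        rw [← Finset.mul_sum, ← Finset.mul_sum]
        push_cast
        ring
    _ = Real.exp (K + 16 * K') * (∏ j, (1 + |u j|) ^ 12) * (∏ j, (1 + |u' j|) ^ 12) *
          (1 + |v|) ^ 32 * L⁻¹ * ‖ww L v‖⁻¹ := by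
        rw [Real.exp_add, Real.exp_add, Real.exp_add, Real.exp_add, Real.exp_add, Real.exp_sum,
          Real.exp_sum, D_A10_exp_log, Real.exp_neg, Real.exp_neg, Real.exp_log hL0, Real.exp_log hw]
        simp only [D_A10_exp_log]
    _ = _ := by
        rw [div_eq_mul_inv, mul_inv, mul_assoc _ L⁻¹]

end OO

end

section

/-!
# Row B_10: the unweighted sums, local version (D5')
-/

open Complex MeasureTheory Set Filter Topology
open scoped ComplexConjugate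

namespace OO

/-- `∑ co_j co_k kap (fm j) (fm k) = 0` (`Fin.sum_univ_six`, `co`, `fm`: the coefficients of each family sum
to `0`) -/
theorem B_kap (kap : Fin 2 → Fin 2 → ℝ) : ∑ j, ∑ k, co j * co k * kap (fm j) (fm k) = 0 := by
  have h : ∀ x : Fin 6 → Fin 6 → ℝ, ∑ j, ∑ k, x j k = ∑ j, (x j 0 + x j 1 + x j 2 + x j 3 + x j 4 + x j 5) :=
    fun x => Finset.sum_congr rfl fun j _ => Fin.sum_univ_six _
  rw [h, Fin.sum_univ_six]
  have c0 : co 0 = 1 := rfl
  have c1 : co 1 = 1 := rfl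
  have c2 : co 2 = -1 / 2 := rfl
  have c3 : co 3 = -1 / 2 := rfl
  have c4 : co 4 = -1 / 2 := rfl
  have c5 : co 5 = -1 / 2 := rfl
  have f0 : fm 0 = 0 := rfl
  have f1 : fm 1 = 1 := rfl
  have f2 : fm 2 = 0 := rfl
  have f3 : fm 3 = 1 := rfl
  have f4 : fm 4 = 0 := rfl
  have f5 : fm 5 = 1 := rfl
  rw [c0, c1, c2, c3, c4, c5, f0, f1, f2, f3, f4, f5]
  ring

/-- Copy `D_D5` (D_A10.lean): the same with `B_pair_term`, `D_sum36` applied to
`x j k = Rp .. - kap (fm j) (fm k)`, `X = 0`, and `B_kap`. The constant `exp (K + 16 K')` depends only on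
`Th`. -/
theorem B_D5 (Th : ℝ) (hTh : 1 ≤ Th) :
    ∃ C : ℝ, 0 < C ∧ ∀ F : Fin 2 → ℕ → ℂ, (∀ i, IsCh (F i)) → (∀ i, IsCh (cjF F i)) →
    ∀ (kap : Fin 2 → Fin 2 → ℝ) (rh : ℝ), RL F kap rh →
    ∀ L v : ℝ, 4 * Th ≤ L → ∀ s : Fin 2 → ℝ, (∀ i, s i = 1 ∨ s i = -1) →
    ∀ t t' u u' : Fin 6 → ℝ, Ad L Th s t → Ad L Th s t' →
    (∀ j k, ‖AA L v s t u j + AA L v s t' u' k - 1‖ ≤ rh) →
      ‖∑' n, PX F (AA L v s t u) 0 n * PX (cjF F) (AA L v s t' u') 0 n‖ ≤
        C * (∏ j, (1 + |u j|) ^ 12) * (∏ j, (1 + |u' j|) ^ 12) / (L * ‖ww L v‖) := by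
  obtain ⟨K, hK0, hE⟩ := D_euler
  obtain ⟨K', _, hP⟩ := B_pair_term Th hTh
  refine ⟨Real.exp (K + 16 * K'), Real.exp_pos _, ?_⟩
  intro F hF hF' kap rh hRL L v hL s hs t t' u u' ht ht' hrh
  have hL0 : 0 < L := by linarith
  set A := AA L v s t u with hA
  set A' := AA L v s t' u' with hA'
  have hre : ∀ j, 1 / 2 + 1 / (2 * L) ≤ (A j).re := fun j => (D_AA_re L Th v hL0 s hs t u ht j).1
  have hre' : ∀ j, 1 / 2 + 1 / (2 * L) ≤ (A' j).re := fun j => (D_AA_re L Th v hL0 s hs t' u' ht' j).1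
  have hm := D_PX_mult F hF A
  have hm' := D_PX_mult (cjF F) hF' A'
  set H : ℕ → ℂ := fun n => PX F A 0 n * PX (cjF F) A' 0 n with hH
  have hb : ∀ n : ℕ, ‖H n‖ ≤ (n.divisors.card : ℝ) ^ 12 * (n : ℝ) ^ (-(1 + 1 / L)) := by
    intro n
    rcases Nat.eq_zero_or_pos n with rfl | hn
    · simp [hH]
    · have hn0 : (0 : ℝ) < n := by exact_mod_cast hn
      have h1 := D_PX_le F hF A 0 (fun j => le_rfl) (1 / 2 + 1 / (2 * L)) hre n
      have h2 := D_PX_le (cjF F) hF' A' 0 (fun j => le_rfl) (1 / 2 + 1 / (2 * L)) hre' n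
      calc ‖H n‖ = ‖PX F A 0 n‖ * ‖PX (cjF F) A' 0 n‖ := norm_mul _ _
        _ ≤ ((n.divisors.card : ℝ) ^ 6 * (n : ℝ) ^ (-(1 / 2 + 1 / (2 * L)))) *
            ((n.divisors.card : ℝ) ^ 6 * (n : ℝ) ^ (-(1 / 2 + 1 / (2 * L)))) :=
            mul_le_mul h1 h2 (norm_nonneg _) (by positivity)
        _ = (n.divisors.card : ℝ) ^ 12 *
            ((n : ℝ) ^ (-(1 / 2 + 1 / (2 * L))) * (n : ℝ) ^ (-(1 / 2 + 1 / (2 * L)))) := by ring
        _ = (n.divisors.card : ℝ) ^ 12 * (n : ℝ) ^ (-(1 + 1 / L)) := by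
            rw [← Real.rpow_add hn0]
            congr 2
            field_simp
            ring
  have hmain := hE H (1 / L) (by positivity) (by simp [hH])
    (by simp only [hH]; rw [hm.map_one, hm'.map_one, one_mul])
    (by
      intro m n hmn
      simp only [hH]
      rw [hm.map_mul_of_coprime hmn, hm'.map_mul_of_coprime hmn]
      ring) hb
  refine hmain.2.trans ?_
  have hsum : ∑' p : Nat.Primes, (H p).re = ∑ j, ∑ k, co j * co k *
      Rp (fun n => F (fm j) n * conj (F (fm k) n)) (A j + A' k) := by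
    refine D_prime_sum F hF hF' A A' fun j k => ?_
    have h1 := hre j
    have h2 := hre' k
    rw [Complex.add_re]
    have h3 : 1 / 2 + 1 / (2 * L) + (1 / 2 + 1 / (2 * L)) = 1 + 1 / L := by
      field_simp
      ring
    have h4 : 0 < 1 / L := by positivity
    linarith
  have h36 := D_sum36 s hs (Real.log ‖ww L v‖) (Real.log L) K' 0
    (fun j => Real.log (1 + |u j|)) (fun j => Real.log (1 + |u' j|))
    (fun j => Real.log_nonneg (by linarith [abs_nonneg (u j)]))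
    (fun j => Real.log_nonneg (by linarith [abs_nonneg (u' j)]))
    (fun j k => Rp (fun n => F (fm j) n * conj (F (fm k) n)) (A j + A' k) - kap (fm j) (fm k))
    (fun j k => hP F kap rh hRL L v hL s hs t t' u u' ht ht' j k (hrh j k))
  have hsub : ∑ j, ∑ k, co j * co k *
      (Rp (fun n => F (fm j) n * conj (F (fm k) n)) (A j + A' k) - kap (fm j) (fm k)) =
      ∑' p : Nat.Primes, (H p).re := by
    have e1 : ∑ j, ∑ k, co j * co k *
        (Rp (fun n => F (fm j) n * conj (F (fm k) n)) (A j + A' k) - kap (fm j) (fm k)) =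
        ∑ j, ∑ k, co j * co k * Rp (fun n => F (fm j) n * conj (F (fm k) n)) (A j + A' k) -
        ∑ j, ∑ k, co j * co k * kap (fm j) (fm k) := by
      rw [← Finset.sum_sub_distrib]
      refine Finset.sum_congr rfl fun j _ => ?_
      rw [← Finset.sum_sub_distrib]
      refine Finset.sum_congr rfl fun k _ => ?_
      ring
    rw [e1, B_kap, sub_zero, hsum]
  rw [hsub] at h36
  have hw := D_A10_ww L v hL0
  calc Real.exp (K + ∑' p : Nat.Primes, (H p).re)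
      ≤ Real.exp (K + (16 * K' + 32 * 0 + 12 * (∑ j, Real.log (1 + |u j|)) +
          12 * (∑ k, Real.log (1 + |u' k|)) - Real.log ‖ww L v‖ - Real.log L)) :=
        Real.exp_le_exp.mpr (add_le_add_right h36 _)
    _ = Real.exp ((K + 16 * K') + (∑ j, ((12 : ℕ) : ℝ) * Real.log (1 + |u j|)) +
          (∑ j, ((12 : ℕ) : ℝ) * Real.log (1 + |u' j|)) +
          (-Real.log L) + (-Real.log ‖ww L v‖)) := by
        congr 1
        rw [← Finset.mul_sum, ← Finset.mul_sum]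
        push_cast
        ring
    _ = Real.exp (K + 16 * K') * (∏ j, (1 + |u j|) ^ 12) * (∏ j, (1 + |u' j|) ^ 12) *
          L⁻¹ * ‖ww L v‖⁻¹ := by
        rw [Real.exp_add, Real.exp_add, Real.exp_add, Real.exp_add, Real.exp_sum,
          Real.exp_sum, Real.exp_neg, Real.exp_neg, Real.exp_log hL0, Real.exp_log hw]
        simp only [D_A10_exp_log]
    _ = _ := by
        rw [div_eq_mul_inv, mul_inv, mul_assoc _ L⁻¹]

end OO

end

section

/-!
# Row B_13a: the two bounds of the unweighted sums together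
-/

open Complex MeasureTheory Set Filter Topology
open scoped ComplexConjugate

namespace OO

theorem B_13a_split (u : Fin 6 → ℝ) : ∏ j, (1 + |u j|) ^ 13 = (∏ j, (1 + |u j|) ^ 12) * ∏ j, (1 + |u j|) := by
  rw [← Finset.prod_mul_distrib]
  exact Finset.prod_congr rfl fun j _ => by rw [pow_succ]

theorem B_13a_one (u : Fin 6 → ℝ) (s : Finset (Fin 6)) : 1 ≤ ∏ j ∈ s, (1 + |u j|) := by
  have h : ∏ j ∈ s, (1 : ℝ) ≤ ∏ j ∈ s, (1 + |u j|) :=
    Finset.prod_le_prod (fun _ _ => zero_le_one) fun j _ => by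
      have := abs_nonneg (u j)
      linarith only [this]
  rwa [Finset.prod_const_one] at h

theorem B_13a_nn (u : Fin 6 → ℝ) : 0 ≤ ∏ j, (1 + |u j|) ^ 12 :=
  Finset.prod_nonneg fun j _ => by positivity

theorem B_13a_le (u : Fin 6 → ℝ) : ∏ j, (1 + |u j|) ^ 12 ≤ ∏ j, (1 + |u j|) ^ 13 := by
  rw [B_13a_split]
  exact le_mul_of_one_le_right (B_13a_nn u) (B_13a_one u Finset.univ)

theorem B_13a_ge (u : Fin 6 → ℝ) (U : ℝ) (j : Fin 6) (h : U ≤ |u j|) :
    U * ∏ j, (1 + |u j|) ^ 12 ≤ ∏ j, (1 + |u j|) ^ 13 := by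
  rw [B_13a_split, mul_comm]
  refine mul_le_mul_of_nonneg_left ?_ (B_13a_nn u)
  rw [← Finset.mul_prod_erase Finset.univ _ (Finset.mem_univ j)]
  have h1 := B_13a_one u (Finset.univ.erase j)
  have h2 : 0 ≤ 1 + |u j| := by positivity
  have h3 := mul_le_mul_of_nonneg_left h1 h2
  rw [mul_one] at h3
  linarith only [h, h3]

/-- Combination of `B_D5` (constant `C`, depends only on `Th`) and `D_D5` (constant `C2`, depends on the
families). `U = rh * L / (4 * Th)`, `L1 = max (4 Th) (..)` such that for `L ≥ L1`: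
`(1 + 2 Th)/L ≤ rh/4` and `C2 2^32 ≤ C (1 + U)`. Let `|v| ≤ rh/4` (`≤ 1`). Case all `|u_j|, |u'_k| ≤ U`: by `B_om_le`
`‖om‖ ≤ 1/L + rh/4 + Th/L (2 + 2U) ≤ rh`, `B_D5`, exponents 12 ≤ 13. Case some `|u_j| > U` (or `|u'_j| > U`):
`D_D5`, `(1+|v|)^32 ≤ 2^32`, `∏ (1+|u_j|)^12 (1 + U) ≤ ∏ (1+|u_j|)^13`. -/
theorem B_D5c (Th : ℝ) (hTh : 1 ≤ Th) :
    ∃ C : ℝ, 0 < C ∧ ∀ F : Fin 2 → ℕ → ℂ, (∀ i, IsCh (F i)) → (∀ i, IsCh (cjF F i)) →
    ∀ K1 : ℝ, RB F K1 → ∀ (kap : Fin 2 → Fin 2 → ℝ) (rh : ℝ), 0 < rh → rh ≤ 1 → RL F kap rh →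
    ∃ L1 : ℝ, 4 * Th ≤ L1 ∧ ∀ L v : ℝ, L1 ≤ L → |v| ≤ rh / 4 →
    ∀ s : Fin 2 → ℝ, (∀ i, s i = 1 ∨ s i = -1) →
    ∀ t t' u u' : Fin 6 → ℝ, Ad L Th s t → Ad L Th s t' →
      ‖∑' n, PX F (AA L v s t u) 0 n * PX (cjF F) (AA L v s t' u') 0 n‖ ≤
        C * (∏ j, (1 + |u j|) ^ 13) * (∏ j, (1 + |u' j|) ^ 13) / (L * ‖ww L v‖) := by
  obtain ⟨C, hC, h1⟩ := B_D5 Th hTh
  refine ⟨C, hC, ?_⟩
  intro F hF hF' K1 hRB kap rh hrh hrh1 hRL
  obtain ⟨C2, hC2, h2⟩ := D_D5 F hF hF' K1 hRB Th hTh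
  have hTh0 : 0 < Th := by linarith only [hTh]
  have p1 : 0 < 4 * (1 + 2 * Th) / rh := by positivity
  have p2 : 0 < C2 * 2 ^ 32 * (4 * Th) / (C * rh) := by positivity
  refine ⟨4 * Th + 4 * (1 + 2 * Th) / rh + C2 * 2 ^ 32 * (4 * Th) / (C * rh),
    by linarith only [p1, p2], ?_⟩
  intro L v hL hv s hs t t' u u' ht ht'
  have hL4 : 4 * Th ≤ L := by linarith only [hL, p1, p2]
  have hL0 : 0 < L := by linarith only [hL4, hTh0]
  have hLa : 4 * (1 + 2 * Th) / rh ≤ L := by linarith only [hL, p2, hTh0]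
  have hLb : C2 * 2 ^ 32 * (4 * Th) / (C * rh) ≤ L := by linarith only [hL, p1, hTh0]
  have hww : 0 < ‖ww L v‖ := D_A10_ww L v hL0
  have hLw : 0 < L * ‖ww L v‖ := mul_pos hL0 hww
  obtain ⟨U, hU⟩ : ∃ U : ℝ, U = rh * L / (4 * Th) := ⟨_, rfl⟩
  have hU0 : 0 ≤ U := by rw [hU]; positivity
  have hUT : Th / L * U = rh / 4 := by rw [hU]; field_simp
  have ha : (1 + 2 * Th) / L ≤ rh / 4 := by
    rw [div_le_iff₀ hrh] at hLa
    rw [div_le_iff₀ hL0]
    linarith only [hLa]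
  have hb : C2 * 2 ^ 32 ≤ C * U := by
    rw [div_le_iff₀ (mul_pos hC hrh)] at hLb
    rw [hU, mul_div_assoc', le_div_iff₀ (by positivity)]
    linarith only [hLb]
  have hP := B_13a_nn u
  have hP' := B_13a_nn u'
  by_cases hall : (∀ j, |u j| ≤ U) ∧ (∀ j, |u' j| ≤ U)
  · have hom : ∀ j k, ‖AA L v s t u j + AA L v s t' u' k - 1‖ ≤ rh := by
      intro j k
      refine (B_om_le L Th v hL0 hTh0.le s hs t t' u u' ht ht' j k).trans ?_
      have h3 : Th / L * (2 + |u j| + |u' k|) ≤ Th / L * (2 + U + U) := by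
        apply mul_le_mul_of_nonneg_left _ (by positivity)
        linarith only [hall.1 j, hall.2 k]
      have h4 : Th / L * (2 + U + U) = 2 * Th / L + rh / 2 := by
        have : Th / L * (2 + U + U) = 2 * Th / L + 2 * (Th / L * U) := by ring
        rw [this, hUT]
        ring
      have h5 : 1 / L + 2 * Th / L = (1 + 2 * Th) / L := by ring
      linarith only [h3, h4, h5, ha, hv]
    refine (h1 F hF hF' kap rh hRL L v hL4 s hs t t' u u' ht ht' hom).trans ?_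
    apply div_le_div_of_nonneg_right _ hLw.le
    rw [mul_assoc, mul_assoc]
    apply mul_le_mul_of_nonneg_left _ hC.le
    exact mul_le_mul (B_13a_le u) (B_13a_le u') hP' (hP.trans (B_13a_le u))
  · refine (h2 L v hL4 s hs t t' u u' ht ht').trans ?_
    apply div_le_div_of_nonneg_right _ hLw.le
    have hv1 : (1 + |v|) ^ 32 ≤ 2 ^ 32 := by
      apply pow_le_pow_left₀ (by positivity)
      linarith only [hv, hrh1]
    have key : U * ((∏ j, (1 + |u j|) ^ 12) * ∏ j, (1 + |u' j|) ^ 12) ≤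
        (∏ j, (1 + |u j|) ^ 13) * ∏ j, (1 + |u' j|) ^ 13 := by
      rcases not_and_or.1 hall with h | h
      · push Not at h
        obtain ⟨j, hj⟩ := h
        calc U * ((∏ j, (1 + |u j|) ^ 12) * ∏ j, (1 + |u' j|) ^ 12)
            = (U * ∏ j, (1 + |u j|) ^ 12) * ∏ j, (1 + |u' j|) ^ 12 := by ring
          _ ≤ (∏ j, (1 + |u j|) ^ 13) * ∏ j, (1 + |u' j|) ^ 13 :=
              mul_le_mul (B_13a_ge u U j hj.le) (B_13a_le u') hP' (hP.trans (B_13a_le u))
      · push Not at h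
        obtain ⟨j, hj⟩ := h
        calc U * ((∏ j, (1 + |u j|) ^ 12) * ∏ j, (1 + |u' j|) ^ 12)
            = (∏ j, (1 + |u j|) ^ 12) * (U * ∏ j, (1 + |u' j|) ^ 12) := by ring
          _ ≤ (∏ j, (1 + |u j|) ^ 13) * ∏ j, (1 + |u' j|) ^ 13 :=
              mul_le_mul (B_13a_le u) (B_13a_ge u' U j hj.le) (mul_nonneg hU0 hP') (hP.trans (B_13a_le u))
    have hPP := mul_nonneg hP hP'
    calc C2 * (∏ j, (1 + |u j|) ^ 12) * (∏ j, (1 + |u' j|) ^ 12) * (1 + |v|) ^ 32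
        = C2 * (1 + |v|) ^ 32 * ((∏ j, (1 + |u j|) ^ 12) * ∏ j, (1 + |u' j|) ^ 12) := by ring
      _ ≤ C2 * 2 ^ 32 * ((∏ j, (1 + |u j|) ^ 12) * ∏ j, (1 + |u' j|) ^ 12) :=
          mul_le_mul_of_nonneg_right (mul_le_mul_of_nonneg_left hv1 hC2.le) hPP
      _ ≤ C * U * ((∏ j, (1 + |u j|) ^ 12) * ∏ j, (1 + |u' j|) ^ 12) :=
          mul_le_mul_of_nonneg_right hb hPP
      _ = C * (U * ((∏ j, (1 + |u j|) ^ 12) * ∏ j, (1 + |u' j|) ^ 12)) := by ring
      _ ≤ C * ((∏ j, (1 + |u j|) ^ 13) * ∏ j, (1 + |u' j|) ^ 13) := mul_le_mul_of_nonneg_left key hC.le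
      _ = C * (∏ j, (1 + |u j|) ^ 13) * (∏ j, (1 + |u' j|) ^ 13) := by ring

end OO

end
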