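import Pool.Agent.Lib.MP_0f5a55_nt.OM.K000
import Pool.Agent.Lib.MP_0f5a55_nt.OM.K014

section

/-!
# Row B_R0: the error of the Euler product is continuous at `w = 0`
-/

open Complex MeasureTheory Set Filter Topology
open scoped ComplexConjugate

namespace OO

/-- the Euler factor variable -/
noncomputable def B_R0_x {q : ℕ} (χ : DirichletCharacter ℂ q) (p : Nat.Primes) (w : ℂ) : ℂ :=
  ch χ p * ((p : ℕ) : ℂ) ^ (-(1 + w))

theorem B_R0_norm1 {q : ℕ} (χ : DirichletCharacter ℂ q) (p : Nat.Primes) (w : ℂ)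
    (hw : 0 ≤ w.re) : ‖B_R0_x χ p w‖ ≤ (p : ℝ) ^ (-1 : ℝ) := by
  have hp2 : (2 : ℝ) ≤ (p : ℝ) := by exact_mod_cast p.2.two_le
  have hch : ‖ch χ p‖ ≤ 1 := DirichletCharacter.norm_le_one χ _
  have hre : (1 + w).re = 1 + w.re := by simp
  rw [B_R0_x, norm_mul, D_R1_norm, hre]
  have h1 : (p : ℝ) ^ (-(1 + w.re)) ≤ (p : ℝ) ^ (-1 : ℝ) := by
    apply Real.rpow_le_rpow_of_exponent_le (by linarith)
    linarith
  calc ‖ch χ p‖ * (p : ℝ) ^ (-(1 + w.re)) ≤ 1 * (p : ℝ) ^ (-1 : ℝ) :=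
        mul_le_mul hch h1 (Real.rpow_nonneg (Nat.cast_nonneg _) _) zero_le_one
    _ = (p : ℝ) ^ (-1 : ℝ) := one_mul _

theorem B_R0_norm2 {q : ℕ} (χ : DirichletCharacter ℂ q) (p : Nat.Primes) (w : ℂ)
    (hw : 0 ≤ w.re) : ‖B_R0_x χ p w‖ ≤ 1 / 2 := by
  have hp2 : (2 : ℝ) ≤ (p : ℝ) := by exact_mod_cast p.2.two_le
  refine (B_R0_norm1 χ p w hw).trans ?_
  rw [Real.rpow_neg_one, one_div]
  exact inv_anti₀ (by norm_num) hp2

theorem B_R0_bd {q : ℕ} (χ : DirichletCharacter ℂ q) (p : Nat.Primes) (w : ℂ)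
    (hw : 0 ≤ w.re) :
    ‖B_R0_x χ p w + log (1 - B_R0_x χ p w)‖ ≤ (p : ℝ) ^ (-2 : ℝ) := by
  have hp2 : (2 : ℝ) ≤ (p : ℝ) := by exact_mod_cast p.2.two_le
  have hn1 := B_R0_norm1 χ p w hw
  have hn2 := B_R0_norm2 χ p w hw
  generalize B_R0_x χ p w = x at hn1 hn2 ⊢
  have h1 : ‖-x‖ < 1 := by rw [norm_neg]; linarith
  have h2 := norm_log_one_add_sub_self_le h1
  rw [norm_neg] at h2
  have h3 : x + log (1 - x) = log (1 + -x) - -x := by ring_nf
  rw [h3]
  have h4 : (1 - ‖x‖)⁻¹ ≤ 2 := by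
    rw [inv_le_comm₀ (by linarith) (by norm_num)]
    linarith
  have h5 : ‖x‖ ^ 2 ≤ (p : ℝ) ^ (-2 : ℝ) := by
    have h6 : (p : ℝ) ^ (-2 : ℝ) = ((p : ℝ) ^ (-1 : ℝ)) ^ 2 := by
      rw [← Real.rpow_natCast, ← Real.rpow_mul (by linarith)]
      norm_num
    rw [h6]
    exact pow_le_pow_left₀ (norm_nonneg _) hn1 2
  calc _ ≤ ‖x‖ ^ 2 * (1 - ‖x‖)⁻¹ / 2 := h2
    _ ≤ ‖x‖ ^ 2 * 2 / 2 := by gcongr
    _ = ‖x‖ ^ 2 := by ring
    _ ≤ _ := h5

/-- the error of the Euler product -/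
noncomputable def B_R0_E {q : ℕ} (χ : DirichletCharacter ℂ q) (w : ℂ) : ℝ :=
  ∑' p : Nat.Primes, (B_R0_x χ p w + log (1 - B_R0_x χ p w)).re

theorem B_R0_cont {q : ℕ} (χ : DirichletCharacter ℂ q) :
    ContinuousOn (B_R0_E χ) {w : ℂ | 0 ≤ w.re} := by
  have hsum2 : Summable (fun p : Nat.Primes => (p : ℝ) ^ (-2 : ℝ)) :=
    Nat.Primes.summable_rpow.2 (by norm_num)
  refine continuousOn_tsum (u := fun p : Nat.Primes => (p : ℝ) ^ (-2 : ℝ)) ?_ hsum2 ?_
  · intro p w hw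
    apply ContinuousAt.continuousWithinAt
    have hp0 : ((p : ℕ) : ℂ) ≠ 0 := by exact_mod_cast p.2.ne_zero
    have hx : ContinuousAt (B_R0_x χ p) w := by
      have h1 : Continuous (fun w : ℂ => ((p : ℕ) : ℂ) ^ (-(1 + w))) :=
        Continuous.const_cpow (by fun_prop) (Or.inl hp0)
      exact (continuous_const.mul h1).continuousAt
    have hs : 1 - B_R0_x χ p w ∈ slitPlane := by
      rw [mem_slitPlane_iff]
      left
      have h1 := B_R0_norm2 χ p w hw
      have h2 := abs_re_le_norm (B_R0_x χ p w)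
      have h3 := le_abs_self (B_R0_x χ p w).re
      simp only [sub_re, one_re]
      linarith
    have hl : ContinuousAt (fun w => log (1 - B_R0_x χ p w)) w :=
      (continuousAt_const.sub hx).clog hs
    exact continuous_re.continuousAt.comp (hx.add hl)
  · intro p w hw
    have h1 := B_R0_bd χ p w hw
    have h2 := abs_re_le_norm (B_R0_x χ p w + log (1 - B_R0_x χ p w))
    rw [Real.norm_eq_abs]
    exact h2.trans h1

theorem B_R0_eq {q : ℕ} (χ : DirichletCharacter ℂ q) (w : ℂ) (hw : 0 < w.re) :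
    Rp (ch χ) (1 + w) - Real.log ‖LSeries (ch χ) (1 + w)‖ = B_R0_E χ w := by
  have hsum2 : Summable (fun p : Nat.Primes => (p : ℝ) ^ (-2 : ℝ)) :=
    Nat.Primes.summable_rpow.2 (by norm_num)
  have hre : (1 + w).re = 1 + w.re := by simp
  have hs : 1 < (1 + w).re := by rw [hre]; linarith
  have hch : ∀ n, ‖ch χ n‖ ≤ 1 := fun n => DirichletCharacter.norm_le_one χ _
  have hs1 : Summable (fun p : Nat.Primes => B_R0_x χ p w) :=
    D_Rp_summable (ch χ) hch (1 + w) hs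
  have hs2 : Summable (fun p : Nat.Primes => B_R0_x χ p w + log (1 - B_R0_x χ p w)) :=
    Summable.of_norm_bounded hsum2 (fun p => B_R0_bd χ p w hw.le)
  have hs3 : Summable (fun p : Nat.Primes => -log (1 - B_R0_x χ p w)) := by
    have := hs1.sub hs2
    refine this.congr (fun p => ?_)
    ring
  have hz : Real.log ‖LSeries (ch χ) (1 + w)‖ =
      (∑' p : Nat.Primes, -log (1 - B_R0_x χ p w)).re := by
    have h1 : exp (∑' p : Nat.Primes, -log (1 - B_R0_x χ p w)) = LSeries (ch χ) (1 + w) :=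
      DirichletCharacter.LSeries_eulerProduct_exp_log χ hs
    rw [← h1, norm_exp, Real.log_exp]
  have hR : Rp (ch χ) (1 + w) = (∑' p : Nat.Primes, B_R0_x χ p w).re := by
    rw [re_tsum hs1, Rp]
    rfl
  have hE : B_R0_E χ w = (∑' p : Nat.Primes, (B_R0_x χ p w + log (1 - B_R0_x χ p w))).re := by
    rw [re_tsum hs2, B_R0_E]
  rw [hz, hR, hE, ← sub_re, ← hs1.tsum_sub hs3]
  congr 2
  funext p
  ring

/-- The difference `Rp - log ‖L‖` is `∑_p re (x_p + log (1 - x_p))`, `x_p = χ(p) p^(-1-w)` (proof of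
`D_Rp_log`, file D_R1: copy it). For `re w ≥ 0` the terms are bounded by `p^(-2)` (same proof: `‖x_p‖ ≤ 1/p ≤ 1/2`), every
term is continuous in `w` on `{re w ≥ 0}` (`1 - x_p` has positive real part, slit plane), hence the sum
`E(w) = ∑' p, (x_p + log (1 - x_p)).re` is continuous on `{re w ≥ 0}` (`continuousOn_tsum`). `κ = E 0`. -/
theorem B_err {q : ℕ} (χ : DirichletCharacter ℂ q) : ∃ κ rh : ℝ, 0 < rh ∧ ∀ w : ℂ, 0 < w.re → ‖w‖ ≤ rh →
    |Rp (ch χ) (1 + w) - Real.log ‖LSeries (ch χ) (1 + w)‖ - κ| ≤ 1 / 2 := by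
  have h0 : ContinuousWithinAt (B_R0_E χ) {w : ℂ | 0 ≤ w.re} 0 :=
    B_R0_cont χ 0 (by simp)
  rw [Metric.continuousWithinAt_iff] at h0
  obtain ⟨δ, hδ, h⟩ := h0 (1 / 2) (by norm_num)
  refine ⟨B_R0_E χ 0, δ / 2, by positivity, ?_⟩
  intro w hw hwn
  rw [B_R0_eq χ w hw]
  have h1 := h (x := w) hw.le (by rw [dist_zero_right]; linarith)
  rw [Real.dist_eq] at h1
  exact h1.le

end OO

end

section

/-!
# Row B_R1: local bounds of the prime sums, nonprincipal characters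
-/

open Complex MeasureTheory Set Filter Topology
open scoped ComplexConjugate

namespace OO

/-- `B_err`; `LSeries (ch χ) (1+w) = LFunction χ (1+w)` (`DirichletCharacter.LFunction_eq_LSeries`, see the
end of D_R2.lean) is continuous and not `0` at `w = 0` (`DirichletCharacter.differentiable_LFunction`,
`DirichletCharacter.LFunction_ne_zero_of_one_le_re`, see D_R2.lean), so `log ‖L(1+w)‖` is within `1/2` of
`log ‖L(1)‖` for `‖w‖ ≤ rh`. -/
theorem B_Rp_ne_one (q : ℕ) [NeZero q] (χ : DirichletCharacter ℂ q) (hχ : χ ≠ 1) :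
    ∃ κ rh : ℝ, 0 < rh ∧ ∀ w : ℂ, 0 < w.re → ‖w‖ ≤ rh → |Rp (ch χ) (1 + w) - κ| ≤ 1 := by
  obtain ⟨κ, rh, hrh, h⟩ := B_err χ
  have hcont : ContinuousAt (fun w : ℂ => Real.log ‖DirichletCharacter.LFunction χ (1 + w)‖) 0 := by
    have hne : DirichletCharacter.LFunction χ (1 + 0) ≠ 0 := by
      apply DirichletCharacter.LFunction_ne_zero_of_one_le_re χ (Or.inl hχ)
      simp
    have h3 : Continuous (fun w : ℂ => ‖DirichletCharacter.LFunction χ (1 + w)‖) :=
      ((DirichletCharacter.differentiable_LFunction hχ).continuous.comp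
        (continuous_const.add continuous_id)).norm
    exact h3.continuousAt.log (norm_ne_zero_iff.2 hne)
  rw [Metric.continuousAt_iff] at hcont
  obtain ⟨δ, hδ, h0⟩ := hcont (1 / 2) (by norm_num)
  refine ⟨κ + Real.log ‖DirichletCharacter.LFunction χ (1 + 0)‖, min rh (δ / 2),
    lt_min hrh (by positivity), ?_⟩
  intro w hw hwn
  have hre : (1 + w).re = 1 + w.re := by simp
  have h1 := h w hw (hwn.trans (min_le_left _ _))
  have h2 := h0 (x := w) (by
    rw [dist_zero_right]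
    have := hwn.trans (min_le_right _ _)
    linarith)
  rw [Real.dist_eq] at h2
  rw [DirichletCharacter.LFunction_eq_LSeries χ (by rw [hre]; linarith)] at h2
  have h3 : |Real.log ‖LSeries (ch χ) (1 + w)‖ -
      Real.log ‖DirichletCharacter.LFunction χ (1 + 0)‖| < 1 / 2 := h2
  have h4 := abs_add_le (Rp (ch χ) (1 + w) - Real.log ‖LSeries (ch χ) (1 + w)‖ - κ)
    (Real.log ‖LSeries (ch χ) (1 + w)‖ - Real.log ‖DirichletCharacter.LFunction χ (1 + 0)‖)
  have h5 : Rp (ch χ) (1 + w) - Real.log ‖LSeries (ch χ) (1 + w)‖ - κ +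
      (Real.log ‖LSeries (ch χ) (1 + w)‖ - Real.log ‖DirichletCharacter.LFunction χ (1 + 0)‖) =
      Rp (ch χ) (1 + w) - (κ + Real.log ‖DirichletCharacter.LFunction χ (1 + 0)‖) := by ring
  rw [h5] at h4
  exact (h4.trans (add_le_add h1 h3.le)).trans (by norm_num)

end OO

end

section

/-!
# Row B_R2: local bounds of the prime sums, principal character
-/

open Complex MeasureTheory Set Filter Topology
open scoped ComplexConjugate

namespace OO

/-- `B_err`; `w L(1+w) → ∏_{p | q} (1 - 1/p) ≠ 0` as `w → 0`, `w ≠ 0`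
(`DirichletCharacter.LFunctionTrivChar_residue_one`, `DirichletCharacter.LFunction_eq_LSeries`), so
`log ‖L(1+w)‖ + log ‖w‖ = log ‖w L(1+w)‖` tends to `log ‖∏ ..‖`: within `1/2` for `‖w‖ ≤ rh`. -/
theorem B_Rp_one (q : ℕ) [NeZero q] : ∃ κ rh : ℝ, 0 < rh ∧ ∀ w : ℂ, 0 < w.re → ‖w‖ ≤ rh →
    |Rp (ch (1 : DirichletCharacter ℂ q)) (1 + w) + Real.log ‖w‖ - κ| ≤ 1 := by
  obtain ⟨κ, rh, hrh, h0⟩ := B_err (1 : DirichletCharacter ℂ q)
  obtain ⟨P, hP⟩ : ∃ P : ℂ, P = ∏ p ∈ q.primeFactors, (1 - (p : ℂ)⁻¹) := ⟨_, rfl⟩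
  have hP0 : P ≠ 0 := by
    rw [hP]
    refine Finset.prod_ne_zero_iff.2 fun p hp => ?_
    have hp2 : 2 ≤ p := (Nat.prime_of_mem_primeFactors hp).two_le
    intro h
    have h1 : ((p : ℂ))⁻¹ = 1 := (sub_eq_zero.1 h).symm
    have h2 : (p : ℂ) = 1 := by rw [← inv_inv (p : ℂ), h1, inv_one]
    have h3 : p = 1 := by exact_mod_cast h2
    omega
  have hres := DirichletCharacter.LFunctionTrivChar_residue_one (N := q)
  rw [← hP] at hres
  have hlog : Tendsto (fun s => Real.log ‖(s - 1) * DirichletCharacter.LFunctionTrivChar q s‖)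
      (𝓝[≠] 1) (𝓝 (Real.log ‖P‖)) :=
    (Real.continuousAt_log (norm_ne_zero_iff.2 hP0)).tendsto.comp hres.norm
  rw [Metric.tendsto_nhdsWithin_nhds] at hlog
  obtain ⟨δ, hδ, h1⟩ := hlog (1 / 2) (by norm_num)
  refine ⟨κ + Real.log ‖P‖, min rh (δ / 2), lt_min hrh (by linarith), ?_⟩
  intro w hw hw2
  have hwr : ‖w‖ ≤ rh := hw2.trans (min_le_left _ _)
  have hwd : ‖w‖ < δ := by
    have := hw2.trans (min_le_right _ _)
    linarith
  have hw0 : w ≠ 0 := by
    rintro rfl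
    simp at hw
  have hre : 1 < (1 + w).re := by
    rw [Complex.add_re, Complex.one_re]; linarith
  have h2 := h0 w hw hwr
  have h3 := @h1 (1 + w) (by simpa using hw0) (by rw [dist_eq_norm, add_sub_cancel_left]; exact hwd)
  rw [Real.dist_eq, add_sub_cancel_left] at h3
  have h4 : DirichletCharacter.LFunctionTrivChar q (1 + w) =
      LSeries (ch (1 : DirichletCharacter ℂ q)) (1 + w) :=
    DirichletCharacter.LFunction_eq_LSeries (1 : DirichletCharacter ℂ q) hre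
  have h5 : LSeries (ch (1 : DirichletCharacter ℂ q)) (1 + w) ≠ 0 := by
    rw [← h4]
    exact DirichletCharacter.LFunction_ne_zero_of_one_le_re _
      (Or.inr (by simpa using hw0)) hre.le
  rw [h4, norm_mul, Real.log_mul (norm_ne_zero_iff.2 hw0) (norm_ne_zero_iff.2 h5)] at h3
  have h6 := abs_le.1 h2
  have h7 := abs_le.1 h3.le
  rw [abs_le]
  constructor <;> linarith [h6.1, h6.2, h7.1, h7.2]

end OO

end

section

/-!
# Row D_A12: integration over six auxiliary variables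
-/

open Complex MeasureTheory Set Filter Topology
open scoped ComplexConjugate

namespace OO

/-- the induction step statement, for a finset `S` -/
theorem D_A12_ind (a : Fin 6 → ℝ → ArithmeticFunction ℂ) (a0 : Fin 6 → ArithmeticFunction ℂ)
    (G : ArithmeticFunction ℂ) (σ BG : ℝ) (hσ : 1 / 2 < σ)
    (hcont : ∀ j n, Continuous (fun u => a j u n))
    (hint : ∀ j n, a0 j n = ∫ u : ℝ, LZ.kk u * a j u n)
    (ha : ∀ j u n, ‖a j u n‖ ≤ (n : ℝ) ^ (-σ))
    (hG : ∀ n, ‖G n‖ ≤ BG * (n.divisors.card : ℝ) ^ 6 * (n : ℝ) ^ (-σ)) (M : ℝ) (hM : 0 ≤ M)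
    (h : ∀ u : Fin 6 → ℝ, ‖∑' n, (∏ j, a j (u j)) n * G n‖ ≤ M * ∏ j, (1 + |u j|) ^ 12)
    (S : Finset (Fin 6)) :
    ∀ u : Fin 6 → ℝ, ‖∑' n, (∏ j, if j ∈ S then a0 j else a j (u j)) n * G n‖ ≤
      M * Ck ^ S.card * ∏ j ∈ Sᶜ, (1 + |u j|) ^ 12 := by
  classical
  obtain ⟨hCk0, hCki, hkki⟩ := D_Ck
  set B0 : ℝ := max 1 (∫ u : ℝ, ‖LZ.kk u‖) with hB0
  have hB01 : 1 ≤ B0 := le_max_left _ _
  have hB00 : 0 ≤ B0 := zero_le_one.trans hB01
  have hnn : ∀ n : ℕ, 0 ≤ (n : ℝ) ^ (-σ) := fun n => Real.rpow_nonneg (Nat.cast_nonneg n) _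
  have ha0 : ∀ j n, ‖a0 j n‖ ≤ B0 * (n : ℝ) ^ (-σ) := by
    intro j n
    rw [hint j n]
    have h1 : ‖∫ u : ℝ, LZ.kk u * a j u n‖ ≤ ∫ u : ℝ, ‖LZ.kk u‖ * (n : ℝ) ^ (-σ) := by
      refine norm_integral_le_of_norm_le (hkki.norm.mul_const _) (Eventually.of_forall fun u => ?_)
      rw [norm_mul]
      exact mul_le_mul_of_nonneg_left (ha j u n) (norm_nonneg _)
    refine h1.trans ?_
    rw [integral_mul_const]
    exact mul_le_mul_of_nonneg_right (le_max_right _ _) (hnn n)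
  have ha1 : ∀ j u n, ‖a j u n‖ ≤ B0 * (n : ℝ) ^ (-σ) := fun j u n =>
    (ha j u n).trans (le_mul_of_one_le_left (hnn n) hB01)
  induction S using Finset.induction_on with
  | empty =>
    intro u
    simpa using h u
  | insert i S hi ih =>
    intro u
    -- the remaining product
    set B : ArithmeticFunction ℂ := ∏ j ∈ Finset.univ.erase i, (if j ∈ S then a0 j else a j (u j)) with hB
    have hBv : ∀ v : ℝ, ∏ j, (if j ∈ S then a0 j else a j (Function.update u i v j)) = a i v * B := by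
      intro v
      rw [← Finset.mul_prod_erase Finset.univ _ (Finset.mem_univ i), if_neg hi, Function.update_self]
      congr 1
      refine Finset.prod_congr rfl fun j hj => ?_
      rw [Function.update_of_ne (Finset.ne_of_mem_erase hj)]
    have hBi : ∏ j, (if j ∈ insert i S then a0 j else a j (u j)) = a0 i * B := by
      rw [← Finset.mul_prod_erase Finset.univ _ (Finset.mem_univ i),
        if_pos (Finset.mem_insert_self i S)]
      congr 1
      refine Finset.prod_congr rfl fun j hj => ?_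
      have hne : j ≠ i := Finset.ne_of_mem_erase hj
      simp [Finset.mem_insert, hne]
    have hcompl : Sᶜ = insert i (insert i S)ᶜ := by
      ext j
      simp only [Finset.mem_compl, Finset.mem_insert]
      by_cases hj : j = i
      · subst hj; simp [hi]
      · simp [hj]
    have hni : i ∉ (insert i S)ᶜ := by simp
    set Q : ℝ := ∏ j ∈ (insert i S)ᶜ, (1 + |u j|) ^ 12 with hQ
    have hQ0 : 0 ≤ Q := Finset.prod_nonneg fun j _ => by positivity
    have hkey := D_one_var (a i) (a0 i) B G (hcont i)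
      (fun n => ⟨(n : ℝ) ^ (-σ), fun v => ha i v n⟩) (hint i)
      (fun n => (B0 ^ 6 * BG) * ((n.divisors.card : ℝ) ^ 12 * (n : ℝ) ^ (-(1 + (2 * σ - 1))))) ?_ ?_
      (M * Ck ^ S.card * Q) (by positivity) ?_
    · rw [hBi, Finset.card_insert_of_notMem hi, pow_succ]
      refine hkey.trans (le_of_eq ?_)
      ring
    · intro v n
      rw [← hBv v, norm_mul]
      have h1 : ‖(∏ j, (if j ∈ S then a0 j else a j (Function.update u i v j))) n‖ ≤
          B0 ^ 6 * (n.divisors.card : ℝ) ^ 6 * (n : ℝ) ^ (-σ) := by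
        have h2 := D_prod_le (Finset.univ : Finset (Fin 6))
          (fun j => if j ∈ S then a0 j else a j (Function.update u i v j)) σ B0 hB00 ?_ n
        · simpa using h2
        · intro j _ m
          by_cases hj : j ∈ S
          · simp only [hj, if_true]
            exact ha0 j m
          · simp only [hj, if_false]
            exact ha1 j _ m
      have h3 : ‖G n‖ ≤ BG * (n.divisors.card : ℝ) ^ 6 * (n : ℝ) ^ (-σ) := hG n
      have h4 : 0 ≤ B0 ^ 6 * (n.divisors.card : ℝ) ^ 6 * (n : ℝ) ^ (-σ) := by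
        have := hnn n
        positivity
      refine (mul_le_mul h1 h3 (norm_nonneg _) h4).trans (le_of_eq ?_)
      rcases Nat.eq_zero_or_pos n with rfl | hn
      · simp
      · have hn0 : (0 : ℝ) < n := by exact_mod_cast hn
        have h5 : (n : ℝ) ^ (-(1 + (2 * σ - 1))) = (n : ℝ) ^ (-σ) * (n : ℝ) ^ (-σ) := by
          rw [← Real.rpow_add hn0]
          congr 1
          ring
        rw [h5]
        ring
    · exact (D_div_summable 12 (2 * σ - 1) (by linarith)).mul_left _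
    · intro v
      rw [← hBv v]
      refine (ih (Function.update u i v)).trans (le_of_eq ?_)
      rw [hcompl, Finset.prod_insert hni, Function.update_self]
      have h1 : ∏ j ∈ (insert i S)ᶜ, (1 + |Function.update u i v j|) ^ 12 = Q := by
        refine Finset.prod_congr rfl fun j hj => ?_
        have hne : j ≠ i := by
          rintro rfl
          exact hni hj
        rw [Function.update_of_ne hne]
      rw [h1]
      ring

/-- Induction on the finset `S` (`Finset.induction_on`): for all `u`,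
`‖∑' n, (∏ j, if j ∈ S then a0 j else a j (u j)) n * G n‖ ≤ M Ck^|S| ∏_{j ∉ S} (1+|u j|)^12`.
`S = ∅` is `h`. Step `S → insert i S` (`i ∉ S`): `D_one_var` with `a = a i`, `a0 = a0 i`,
`B = ∏_{j ≠ i} (..)` (`Finset.mul_prod_erase`; the factors `j ≠ i` do not depend on `u i`: use
`Function.update u i v`), `M` replaced by `M Ck^|S| ∏_{j ∉ insert i S} (1+|u j|)^12`. The dominating
function is `bd n = (B0^6 d(n)^6 n^(-σ)) * (BG d(n)^6 n^(-σ))` with `B0 = max 1 (∫ ‖kk‖)`: all factors are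
`≤ B0 n^(-σ)` (`‖a0 j n‖ ≤ ∫ ‖kk‖ n^(-σ)` from `hint`), `D_prod_le`; summable by `D_div_summable`
(`2 σ = 1 + κ`, `κ > 0`). For `n = 0` all arithmetic functions vanish. Finally `S = univ`. -/
theorem D_iter (a : Fin 6 → ℝ → ArithmeticFunction ℂ) (a0 : Fin 6 → ArithmeticFunction ℂ)
    (G : ArithmeticFunction ℂ) (σ BG : ℝ) (hσ : 1 / 2 < σ)
    (hcont : ∀ j n, Continuous (fun u => a j u n))
    (hint : ∀ j n, a0 j n = ∫ u : ℝ, LZ.kk u * a j u n)
    (ha : ∀ j u n, ‖a j u n‖ ≤ (n : ℝ) ^ (-σ))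
    (hG : ∀ n, ‖G n‖ ≤ BG * (n.divisors.card : ℝ) ^ 6 * (n : ℝ) ^ (-σ)) (M : ℝ) (hM : 0 ≤ M)
    (h : ∀ u : Fin 6 → ℝ, ‖∑' n, (∏ j, a j (u j)) n * G n‖ ≤ M * ∏ j, (1 + |u j|) ^ 12) :
    ‖∑' n, (∏ j, a0 j) n * G n‖ ≤ M * Ck ^ 6 := by
  have h1 := D_A12_ind a a0 G σ BG hσ hcont hint ha hG M hM h Finset.univ (fun _ => 0)
  simpa using h1

end OO

end

section

/-!
# Row B_11: integration over one auxiliary variable, exponent 13
-/

open Complex MeasureTheory Set Filter Topology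
open scoped ComplexConjugate

namespace OO

/-- as `D_Ck` (D_A3.lean): `(1+|u|)^13 ≤ (1+|u|)^16` -/
theorem B_Cl : 0 ≤ Cl ∧ Integrable (fun u : ℝ => ‖LZ.kk u‖ * (1 + |u|) ^ 13) := by
  obtain ⟨hc, hi⟩ := LZ.kk_facts
  have h1 : ∀ u : ℝ, (1 : ℝ) ≤ 1 + |u| := fun u => by linarith only [abs_nonneg u]
  refine ⟨integral_nonneg fun u => by positivity, ?_⟩
  refine hi.mono' (by fun_prop) (Eventually.of_forall fun u => ?_)
  rw [Real.norm_of_nonneg (by positivity)]
  exact mul_le_mul_of_nonneg_left (pow_le_pow_right₀ (h1 u) (by norm_num)) (norm_nonneg _)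

/-- copy `D_one_var` (D_A11.lean) with 13 and `Cl` instead of 12 and `Ck` (`B_Cl`, `D_Ck.2.2`) -/
theorem B_one_var (a : ℝ → ArithmeticFunction ℂ) (a0 B G : ArithmeticFunction ℂ)
    (hcont : ∀ n, Continuous (fun u => a u n)) (hb : ∀ n, ∃ c : ℝ, ∀ u, ‖a u n‖ ≤ c)
    (hint : ∀ n, a0 n = ∫ u : ℝ, LZ.kk u * a u n) (bd : ℕ → ℝ)
    (hbd : ∀ u n, ‖(a u * B) n * G n‖ ≤ bd n) (hsum : Summable bd) (M : ℝ) (hM : 0 ≤ M)
    (h : ∀ u, ‖∑' n, (a u * B) n * G n‖ ≤ M * (1 + |u|) ^ 13) :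
    ‖∑' n, (a0 * B) n * G n‖ ≤ M * Cl := by
  obtain ⟨-, hC2⟩ := B_Cl
  have hC3 : Integrable LZ.kk := D_Ck.2.2
  have hconv := D_A11_conv (B := B) hcont hb hint
  -- the integrals
  have hI : ∀ n, Integrable (fun u : ℝ => LZ.kk u * ((a u * B) n * G n)) := by
    intro n
    have := (hconv n).1.mul_const (G n)
    refine this.congr (Eventually.of_forall fun u => ?_)
    simp only
    ring
  have hE : ∀ n, (a0 * B) n * G n = ∫ u : ℝ, LZ.kk u * ((a u * B) n * G n) := by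
    intro n
    rw [(hconv n).2, ← integral_mul_const]
    refine integral_congr_ae (Eventually.of_forall fun u => ?_)
    simp only
    ring
  have hN : ∀ n, ∫ u : ℝ, ‖LZ.kk u * ((a u * B) n * G n)‖ ≤ bd n * ∫ u : ℝ, ‖LZ.kk u‖ := by
    intro n
    rw [← integral_const_mul]
    refine integral_mono (hI n).norm (hC3.norm.const_mul _) fun u => ?_
    simp only
    rw [norm_mul, mul_comm]
    exact mul_le_mul_of_nonneg_right (hbd u n) (norm_nonneg _)
  have hS : Summable fun n => ∫ u : ℝ, ‖LZ.kk u * ((a u * B) n * G n)‖ :=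
    Summable.of_nonneg_of_le (fun n => integral_nonneg fun u => norm_nonneg _) hN
      (hsum.mul_right _)
  have hH := hasSum_integral_of_summable_integral_norm hI hS
  have hT : ∑' n, (a0 * B) n * G n = ∫ u : ℝ, LZ.kk u * ∑' n, (a u * B) n * G n := by
    rw [tsum_congr hE, hH.tsum_eq]
    refine integral_congr_ae (Eventually.of_forall fun u => ?_)
    simp only
    rw [tsum_mul_left]
  rw [hT]
  have hfin := norm_integral_le_of_norm_le (f := fun u : ℝ => LZ.kk u * ∑' n, (a u * B) n * G n)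
    (hC2.const_mul M) (Eventually.of_forall fun u => by
      rw [norm_mul]
      have h3 := mul_le_mul_of_nonneg_left (h u) (norm_nonneg (LZ.kk u))
      refine h3.trans (le_of_eq ?_)
      ring)
  refine hfin.trans (le_of_eq ?_)
  rw [integral_const_mul]
  rfl

end OO

end

section

/-!
# Row B_12: integration over six auxiliary variables, exponent 13
-/

open Complex MeasureTheory Set Filter Topology
open scoped ComplexConjugate

namespace OO

/-- the induction step statement, for a finset `S` -/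
theorem B_12_ind (a : Fin 6 → ℝ → ArithmeticFunction ℂ) (a0 : Fin 6 → ArithmeticFunction ℂ)
    (G : ArithmeticFunction ℂ) (σ BG : ℝ) (hσ : 1 / 2 < σ)
    (hcont : ∀ j n, Continuous (fun u => a j u n))
    (hint : ∀ j n, a0 j n = ∫ u : ℝ, LZ.kk u * a j u n)
    (ha : ∀ j u n, ‖a j u n‖ ≤ (n : ℝ) ^ (-σ))
    (hG : ∀ n, ‖G n‖ ≤ BG * (n.divisors.card : ℝ) ^ 6 * (n : ℝ) ^ (-σ)) (M : ℝ) (hM : 0 ≤ M)
    (h : ∀ u : Fin 6 → ℝ, ‖∑' n, (∏ j, a j (u j)) n * G n‖ ≤ M * ∏ j, (1 + |u j|) ^ 13)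
    (S : Finset (Fin 6)) :
    ∀ u : Fin 6 → ℝ, ‖∑' n, (∏ j, if j ∈ S then a0 j else a j (u j)) n * G n‖ ≤
      M * Cl ^ S.card * ∏ j ∈ Sᶜ, (1 + |u j|) ^ 13 := by
  classical
  have hCk0 := B_Cl.1
  have hkki := D_Ck.2.2
  set B0 : ℝ := max 1 (∫ u : ℝ, ‖LZ.kk u‖) with hB0
  have hB01 : 1 ≤ B0 := le_max_left _ _
  have hB00 : 0 ≤ B0 := zero_le_one.trans hB01
  have hnn : ∀ n : ℕ, 0 ≤ (n : ℝ) ^ (-σ) := fun n => Real.rpow_nonneg (Nat.cast_nonneg n) _
  have ha0 : ∀ j n, ‖a0 j n‖ ≤ B0 * (n : ℝ) ^ (-σ) := by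
    intro j n
    rw [hint j n]
    have h1 : ‖∫ u : ℝ, LZ.kk u * a j u n‖ ≤ ∫ u : ℝ, ‖LZ.kk u‖ * (n : ℝ) ^ (-σ) := by
      refine norm_integral_le_of_norm_le (hkki.norm.mul_const _) (Eventually.of_forall fun u => ?_)
      rw [norm_mul]
      exact mul_le_mul_of_nonneg_left (ha j u n) (norm_nonneg _)
    refine h1.trans ?_
    rw [integral_mul_const]
    exact mul_le_mul_of_nonneg_right (le_max_right _ _) (hnn n)
  have ha1 : ∀ j u n, ‖a j u n‖ ≤ B0 * (n : ℝ) ^ (-σ) := fun j u n =>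
    (ha j u n).trans (le_mul_of_one_le_left (hnn n) hB01)
  induction S using Finset.induction_on with
  | empty =>
    intro u
    simpa using h u
  | insert i S hi ih =>
    intro u
    -- the remaining product
    set B : ArithmeticFunction ℂ := ∏ j ∈ Finset.univ.erase i, (if j ∈ S then a0 j else a j (u j)) with hB
    have hBv : ∀ v : ℝ, ∏ j, (if j ∈ S then a0 j else a j (Function.update u i v j)) = a i v * B := by
      intro v
      rw [← Finset.mul_prod_erase Finset.univ _ (Finset.mem_univ i), if_neg hi, Function.update_self]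
      congr 1
      refine Finset.prod_congr rfl fun j hj => ?_
      rw [Function.update_of_ne (Finset.ne_of_mem_erase hj)]
    have hBi : ∏ j, (if j ∈ insert i S then a0 j else a j (u j)) = a0 i * B := by
      rw [← Finset.mul_prod_erase Finset.univ _ (Finset.mem_univ i),
        if_pos (Finset.mem_insert_self i S)]
      congr 1
      refine Finset.prod_congr rfl fun j hj => ?_
      have hne : j ≠ i := Finset.ne_of_mem_erase hj
      simp [Finset.mem_insert, hne]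
    have hcompl : Sᶜ = insert i (insert i S)ᶜ := by
      ext j
      simp only [Finset.mem_compl, Finset.mem_insert]
      by_cases hj : j = i
      · subst hj; simp [hi]
      · simp [hj]
    have hni : i ∉ (insert i S)ᶜ := by simp
    set Q : ℝ := ∏ j ∈ (insert i S)ᶜ, (1 + |u j|) ^ 13 with hQ
    have hQ0 : 0 ≤ Q := Finset.prod_nonneg fun j _ => by positivity
    have hkey := B_one_var (a i) (a0 i) B G (hcont i)
      (fun n => ⟨(n : ℝ) ^ (-σ), fun v => ha i v n⟩) (hint i)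
      (fun n => (B0 ^ 6 * BG) * ((n.divisors.card : ℝ) ^ 12 * (n : ℝ) ^ (-(1 + (2 * σ - 1))))) ?_ ?_
      (M * Cl ^ S.card * Q) (by positivity) ?_
    · rw [hBi, Finset.card_insert_of_notMem hi, pow_succ]
      refine hkey.trans (le_of_eq ?_)
      ring
    · intro v n
      rw [← hBv v, norm_mul]
      have h1 : ‖(∏ j, (if j ∈ S then a0 j else a j (Function.update u i v j))) n‖ ≤
          B0 ^ 6 * (n.divisors.card : ℝ) ^ 6 * (n : ℝ) ^ (-σ) := by
        have h2 := D_prod_le (Finset.univ : Finset (Fin 6))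
          (fun j => if j ∈ S then a0 j else a j (Function.update u i v j)) σ B0 hB00 ?_ n
        · simpa using h2
        · intro j _ m
          by_cases hj : j ∈ S
          · simp only [hj, if_true]
            exact ha0 j m
          · simp only [hj, if_false]
            exact ha1 j _ m
      have h3 : ‖G n‖ ≤ BG * (n.divisors.card : ℝ) ^ 6 * (n : ℝ) ^ (-σ) := hG n
      have h4 : 0 ≤ B0 ^ 6 * (n.divisors.card : ℝ) ^ 6 * (n : ℝ) ^ (-σ) := by
        have := hnn n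
        positivity
      refine (mul_le_mul h1 h3 (norm_nonneg _) h4).trans (le_of_eq ?_)
      rcases Nat.eq_zero_or_pos n with rfl | hn
      · simp
      · have hn0 : (0 : ℝ) < n := by exact_mod_cast hn
        have h5 : (n : ℝ) ^ (-(1 + (2 * σ - 1))) = (n : ℝ) ^ (-σ) * (n : ℝ) ^ (-σ) := by
          rw [← Real.rpow_add hn0]
          congr 1
          ring
        rw [h5]
        ring
    · exact (D_div_summable 12 (2 * σ - 1) (by linarith only [hσ])).mul_left _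
    · intro v
      rw [← hBv v]
      refine (ih (Function.update u i v)).trans (le_of_eq ?_)
      rw [hcompl, Finset.prod_insert hni, Function.update_self]
      have h1 : ∏ j ∈ (insert i S)ᶜ, (1 + |Function.update u i v j|) ^ 13 = Q := by
        refine Finset.prod_congr rfl fun j hj => ?_
        have hne : j ≠ i := by
          rintro rfl
          exact hni hj
        rw [Function.update_of_ne hne]
      rw [h1]
      ring

/-- as `D_iter` with exponent 13 and `Cl` -/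
theorem B_iter (a : Fin 6 → ℝ → ArithmeticFunction ℂ) (a0 : Fin 6 → ArithmeticFunction ℂ)
    (G : ArithmeticFunction ℂ) (σ BG : ℝ) (hσ : 1 / 2 < σ)
    (hcont : ∀ j n, Continuous (fun u => a j u n))
    (hint : ∀ j n, a0 j n = ∫ u : ℝ, LZ.kk u * a j u n)
    (ha : ∀ j u n, ‖a j u n‖ ≤ (n : ℝ) ^ (-σ))
    (hG : ∀ n, ‖G n‖ ≤ BG * (n.divisors.card : ℝ) ^ 6 * (n : ℝ) ^ (-σ)) (M : ℝ) (hM : 0 ≤ M)
    (h : ∀ u : Fin 6 → ℝ, ‖∑' n, (∏ j, a j (u j)) n * G n‖ ≤ M * ∏ j, (1 + |u j|) ^ 13) :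
    ‖∑' n, (∏ j, a0 j) n * G n‖ ≤ M * Cl ^ 6 := by
  have h1 := B_12_ind a a0 G σ BG hσ hcont hint ha hG M hM h Finset.univ (fun _ => 0)
  simpa using h1

end OO

end

section

/-!
# Row D_A13: the weighted sums (D6)
-/

open Complex MeasureTheory Set Filter Topology
open scoped ComplexConjugate

namespace OO

/-- `D_PX_le'` for both factors with `σ = 1/2 + 1/(2L)` (`D_AA_re`, second part), `D_div_summable 12 (1/L)` -/
theorem D_D6_summable (F : Fin 2 → ℕ → ℂ) (hF : ∀ i, IsCh (F i)) (hF' : ∀ i, IsCh (cjF F i))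
    (L Th v : ℝ) (hL : 0 < L) (s : Fin 2 → ℝ) (hs : ∀ i, s i = 1 ∨ s i = -1)
    (t t' : Fin 6 → ℝ) (ht : Ad L Th s t) (ht' : Ad L Th s t') :
    Summable (fun n => ‖PX F (AB L v s) t n * PX (cjF F) (AB L v s) t' n‖) := by
  obtain ⟨C, hC, hCb⟩ := D_PX_le'
  have b1 := hCb F hF (AB L v s) t (1 / 2 + 1 / (2 * L)) (fun j => (D_AA_re L Th v hL s hs t 0 ht j).2)
  have b2 := hCb (cjF F) hF' (AB L v s) t' (1 / 2 + 1 / (2 * L))
    (fun j => (D_AA_re L Th v hL s hs t' 0 ht' j).2)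
  have hsum := (D_div_summable 12 (1 / L) (by positivity)).mul_left (C * C)
  refine Summable.of_nonneg_of_le (fun n => norm_nonneg _) (fun n => ?_) hsum
  rw [norm_mul]
  refine (mul_le_mul (b1 n) (b2 n) (norm_nonneg _) (by positivity)).trans (le_of_eq ?_)
  have hpow : (n : ℝ) ^ (-(1 / 2 + 1 / (2 * L))) * (n : ℝ) ^ (-(1 / 2 + 1 / (2 * L))) =
      (n : ℝ) ^ (-(1 + 1 / L)) := by
    have h1 : 0 < 1 / (2 * L) := by positivity
    have h2 : 0 < 1 / L := by positivity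
    rcases Nat.eq_zero_or_pos n with h0 | h0
    · subst h0
      rw [Nat.cast_zero, Real.zero_rpow (by linarith), Real.zero_rpow (by linarith), mul_zero]
    · rw [← Real.rpow_add (by exact_mod_cast h0)]
      congr 1
      field_simp
      ring
  rw [← hpow]
  ring

/-- the bound for one unweighted factor -/
theorem D_A13_a (F : Fin 2 → ℕ → ℂ) (hF : ∀ i, IsCh (F i)) (L Th v : ℝ) (hL : 0 < L)
    (s : Fin 2 → ℝ) (hs : ∀ i, s i = 1 ∨ s i = -1) (t : Fin 6 → ℝ) (ht : Ad L Th s t) (j : Fin 6) (u : ℝ)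
    (n : ℕ) : ‖XA F j (AB L v s j + t j * (1 + u * I)) 0 n‖ ≤ (n : ℝ) ^ (-(1 / 2 + 1 / (2 * L))) := by
  rcases Nat.eq_zero_or_pos n with h0 | h0
  · subst h0
    rw [ArithmeticFunction.map_zero, norm_zero]
    exact Real.rpow_nonneg (Nat.cast_nonneg _) _
  · refine (D_XA_le F hF j _ 0 le_rfl n).trans ?_
    apply Real.rpow_le_rpow_of_exponent_le (by exact_mod_cast h0)
    have h1 := (D_AA_re L Th v hL s hs t (fun _ => u) ht j).1
    unfold AA at h1
    linarith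

/-- (D6): `D_iter` twice. `AA L v s t u j = AB L v s j + t j * (1 + u j * I)`, so with
`a j u = XA F j (AB j + t j (1 + u I)) 0`: `D_XA_cont`, `D_XA_int`, `D_XA_le` with `D_AA_re`. First for
fixed `u'` with `G = PX (cjF F) (AA .. t' u') 0` (`D_PX_le`), then with `G = PX F (AB ..) t` (`D_PX_le'`;
commute the two factors) for the family `cjF F`. Constant `C Ck^12`. -/
theorem D_D6 (F : Fin 2 → ℕ → ℂ) (hF : ∀ i, IsCh (F i)) (hF' : ∀ i, IsCh (cjF F i)) (K1 : ℝ)
    (hRB : RB F K1) (Th : ℝ) (hTh : 1 ≤ Th) :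
    ∃ C : ℝ, 0 < C ∧ ∀ L v : ℝ, 4 * Th ≤ L → ∀ s : Fin 2 → ℝ, (∀ i, s i = 1 ∨ s i = -1) →
    ∀ t t' : Fin 6 → ℝ, Ad L Th s t → Ad L Th s t' →
      ‖∑' n, PX F (AB L v s) t n * PX (cjF F) (AB L v s) t' n‖ ≤
        C * (1 + |v|) ^ 32 / (L * ‖ww L v‖) := by
  obtain ⟨C, hC, hD5⟩ := D_D5 F hF hF' K1 hRB Th hTh
  obtain ⟨C2, hC2, hPX⟩ := D_PX_le'
  have hCk : 0 ≤ Ck := D_Ck.1
  refine ⟨C * (Ck ^ 12 + 1), by positivity, ?_⟩
  intro L v hLv s hs t t' ht ht'
  have hL : 0 < L := by linarith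
  have hww : 0 < ‖ww L v‖ := (D_ww L v hL).1
  have hσ : 1 / 2 < 1 / 2 + 1 / (2 * L) := by
    have : 0 < 1 / (2 * L) := by positivity
    linarith
  set R : ℝ := C * (1 + |v|) ^ 32 / (L * ‖ww L v‖) with hR
  have hR0 : 0 ≤ R := by positivity
  -- step 1
  have step1 : ∀ u' : Fin 6 → ℝ,
      ‖∑' n, PX F (AB L v s) t n * PX (cjF F) (AA L v s t' u') 0 n‖ ≤
        (R * ∏ j, (1 + |u' j|) ^ 12) * Ck ^ 6 := by
    intro u'
    have hP : 0 ≤ ∏ j, (1 + |u' j|) ^ 12 := Finset.prod_nonneg fun j _ => by positivity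
    have := D_iter (fun j u => XA F j (AB L v s j + t j * (1 + u * I)) 0)
      (fun j => XA F j (AB L v s j) (t j)) (PX (cjF F) (AA L v s t' u') 0) (1 / 2 + 1 / (2 * L)) 1 hσ
      (fun j n => D_XA_cont F j (AB L v s j) (t j) n)
      (fun j n => D_XA_int F j (AB L v s j) (t j) n)
      (fun j u n => D_A13_a F hF L Th v hL s hs t ht j u n)
      (fun n => by
        rw [one_mul]
        exact D_PX_le (cjF F) hF' _ 0 (fun _ => le_rfl) _ (fun j => (D_AA_re L Th v hL s hs t' u' ht' j).1) n)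
      (R * ∏ j, (1 + |u' j|) ^ 12) (by positivity)
      (fun u => by
        have h5 := hD5 L v hLv s hs t t' u u' ht ht'
        refine le_trans (le_of_eq ?_) (h5.trans (le_of_eq ?_))
        · rfl
        · rw [hR]; ring)
    exact this
  -- step 2
  have step2 := D_iter (fun j u => XA (cjF F) j (AB L v s j + t' j * (1 + u * I)) 0)
      (fun j => XA (cjF F) j (AB L v s j) (t' j)) (PX F (AB L v s) t) (1 / 2 + 1 / (2 * L)) C2 hσ
      (fun j n => D_XA_cont (cjF F) j (AB L v s j) (t' j) n)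
      (fun j n => D_XA_int (cjF F) j (AB L v s j) (t' j) n)
      (fun j u n => D_A13_a (cjF F) hF' L Th v hL s hs t' ht' j u n)
      (fun n => hPX F hF _ _ _ (fun j => (D_AA_re L Th v hL s hs t 0 ht j).2) n)
      (R * Ck ^ 6) (by positivity)
      (fun u' => by
        have h5 := step1 u'
        refine le_trans (le_of_eq ?_) (h5.trans (le_of_eq ?_))
        · refine congrArg norm (tsum_congr fun n => ?_)
          rw [mul_comm]
          rfl
        · ring)
  have hfin : ‖∑' n, PX F (AB L v s) t n * PX (cjF F) (AB L v s) t' n‖ ≤ R * Ck ^ 6 * Ck ^ 6 := by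
    refine le_trans (le_of_eq ?_) step2
    refine congrArg norm (tsum_congr fun n => ?_)
    rw [mul_comm]
    rfl
  refine hfin.trans ?_
  calc R * Ck ^ 6 * Ck ^ 6 = R * Ck ^ 12 := by ring
    _ ≤ R * (Ck ^ 12 + 1) := mul_le_mul_of_nonneg_left (by linarith) hR0
    _ = C * (Ck ^ 12 + 1) * (1 + |v|) ^ 32 / (L * ‖ww L v‖) := by rw [hR]; ring

end OO

end

section

/-!
# Row D_A14: finite combinations of weights
-/

open Complex MeasureTheory Set Filter Topology
open scoped ComplexConjugate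

namespace OO

theorem D_A14_sum_apply {ι : Type} (s : Finset ι) (f : ι → ArithmeticFunction ℂ) (n : ℕ) :
    (∑ i ∈ s, f i) n = ∑ i ∈ s, f i n := by
  classical
  induction s using Finset.induction_on with
  | empty => simp
  | insert a s ha ih => rw [Finset.sum_insert ha, Finset.sum_insert ha, ArithmeticFunction.add_apply, ih]

theorem D_A14_PX (F : Fin 2 → ℕ → ℂ) (A : Fin 6 → ℂ) (x y m : ℝ) :
    PX F A ![x, y, m, m, m, m] = (LA (F 0) (A 0) x * LA (F 1) (A 1) y) *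
      ((MA (F 0) (A 2) m * MA (F 1) (A 3) m) * (MA (F 0) (A 4) m * MA (F 1) (A 5) m)) := by
  simp only [PX, Fin.prod_univ_six, XA, fm]
  simp
  ring

/-- `PX F A ![x, y, m, m, m, m]` is (`Fin.prod_univ_six`, `XA`, `fm`) the product of the six functions;
expand the two sums in the commutative ring `ArithmeticFunction ℂ` (`Finset.sum_mul_sum`,
`smul_mul_assoc`, `mul_smul_comm`) and evaluate at `n`. -/
theorem D_PL_expand (F : Fin 2 → ℕ → ℂ) (A : Fin 6 → ℂ) {ι0 ι1 : Type} [Fintype ι0] [Fintype ι1]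
    (c0 t0 : ι0 → ℝ) (c1 t1 : ι1 → ℝ) (m : ℝ) (n : ℕ) :
    PL F A c0 t0 c1 t1 m n =
      ∑ i0, ∑ i1, (c0 i0 : ℂ) * (c1 i1 : ℂ) * PX F A ![t0 i0, t1 i1, m, m, m, m] n := by
  have h : PL F A c0 t0 c1 t1 m =
      ∑ i0, ∑ i1, ((c0 i0 : ℂ) * (c1 i1 : ℂ)) • PX F A ![t0 i0, t1 i1, m, m, m, m] := by
    unfold PL LC
    rw [Finset.sum_mul_sum, Finset.sum_mul]
    refine Finset.sum_congr rfl fun i _ => ?_
    rw [Finset.sum_mul]
    refine Finset.sum_congr rfl fun j _ => ?_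
    rw [D_A14_PX, smul_mul_smul_comm, smul_mul_assoc]
  rw [h, D_A14_sum_apply]
  refine Finset.sum_congr rfl fun i _ => ?_
  rw [D_A14_sum_apply]
  refine Finset.sum_congr rfl fun j _ => ?_
  rfl

theorem D_A14_prod {ι : Type} [Fintype ι] (c : ι → ℝ) (X Y : ι → ℕ → ℂ) (B : ℝ)
    (hs : ∀ p p', Summable (fun n => X p n * Y p' n))
    (hB : ∀ p p', ‖∑' n, X p n * Y p' n‖ ≤ B) :
    ‖∑' n, (∑ p, (c p : ℂ) * X p n) * (∑ p, (c p : ℂ) * Y p n)‖ ≤ (∑ p, |c p|) ^ 2 * B := by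
  have h1 : ∀ n, (∑ p, (c p : ℂ) * X p n) * (∑ p, (c p : ℂ) * Y p n) =
      ∑ p, ∑ p', ((c p : ℂ) * (c p' : ℂ)) * (X p n * Y p' n) := by
    intro n
    rw [Finset.sum_mul_sum]
    refine Finset.sum_congr rfl fun p _ => Finset.sum_congr rfl fun p' _ => ?_
    ring
  simp only [h1]
  rw [Summable.tsum_finsetSum (fun p _ => summable_sum fun p' _ => (hs p p').mul_left _)]
  have h2 : ∀ p, ∑' n, ∑ p', ((c p : ℂ) * (c p' : ℂ)) * (X p n * Y p' n) =
      ∑ p', ((c p : ℂ) * (c p' : ℂ)) * ∑' n, X p n * Y p' n := by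
    intro p
    rw [Summable.tsum_finsetSum (fun p' _ => (hs p p').mul_left _)]
    exact Finset.sum_congr rfl fun p' _ => tsum_mul_left
  simp only [h2]
  calc ‖∑ p, ∑ p', ((c p : ℂ) * (c p' : ℂ)) * ∑' n, X p n * Y p' n‖
      ≤ ∑ p, ∑ p', |c p| * |c p'| * B := by
        refine (norm_sum_le _ _).trans (Finset.sum_le_sum fun p _ => ?_)
        refine (norm_sum_le _ _).trans (Finset.sum_le_sum fun p' _ => ?_)
        rw [norm_mul, norm_mul, Complex.norm_real, Complex.norm_real, Real.norm_eq_abs,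
          Real.norm_eq_abs]
        exact mul_le_mul_of_nonneg_left (hB p p') (by positivity)
    _ = (∑ p, |c p|) ^ 2 * B := by
        rw [sq, Finset.sum_mul_sum, Finset.sum_mul]
        refine Finset.sum_congr rfl fun p _ => ?_
        rw [Finset.sum_mul]

/-- `D_PL_expand` for both factors, four finite sums, `D_D6` for every term (`D_D6_summable` to exchange
the finite sums and `∑'`); constant `C ((∑ |c0|) (∑ |c1|))^2 + 1`. The vectors
`![t0 i0 / L, t1 i1 / L, m, m, m, m]` satisfy `Ad L Th s` (`sg s 2 = sg s 3 = 1`). -/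
theorem D_D7 (F : Fin 2 → ℕ → ℂ) (hF : ∀ i, IsCh (F i)) (hF' : ∀ i, IsCh (cjF F i)) (K1 : ℝ)
    (hRB : RB F K1) (Th : ℝ) (hTh : 1 ≤ Th) {ι0 ι1 : Type} [Fintype ι0] [Fintype ι1]
    (s : Fin 2 → ℝ) (hs : ∀ i, s i = 1 ∨ s i = -1)
    (c0 t0 : ι0 → ℝ) (c1 t1 : ι1 → ℝ)
    (h0 : ∀ i, 0 ≤ t0 i ∧ t0 i ≤ Th ∧ (s 0 = -1 → 1 ≤ t0 i))
    (h1 : ∀ i, 0 ≤ t1 i ∧ t1 i ≤ Th ∧ (s 1 = -1 → 1 ≤ t1 i)) :
    ∃ C : ℝ, 0 < C ∧ ∀ L v m : ℝ, 4 * Th ≤ L → 1 / L ≤ m → m ≤ Th / L →
      ‖∑' n, PL F (AB L v s) c0 (fun i => t0 i / L) c1 (fun i => t1 i / L) m n *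
          PL (cjF F) (AB L v s) c0 (fun i => t0 i / L) c1 (fun i => t1 i / L) m n‖ ≤
        C * (1 + |v|) ^ 32 / (L * ‖ww L v‖) := by
  obtain ⟨C, hC, hD6⟩ := D_D6 F hF hF' K1 hRB Th hTh
  refine ⟨C * (∑ p : ι0 × ι1, |c0 p.1 * c1 p.2|) ^ 2 + 1, by positivity, fun L v m hL hm hm' => ?_⟩
  have hL0 : 0 < L := by linarith
  have hAd : ∀ p : ι0 × ι1, Ad L Th s ![t0 p.1 / L, t1 p.2 / L, m, m, m, m] := by
    intro p
    have hm0 : 0 ≤ m := le_trans (by positivity) hm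
    have a0 := h0 p.1
    have a1 := h1 p.2
    intro j
    fin_cases j
    · refine ⟨div_nonneg a0.1 hL0.le, div_le_div_of_nonneg_right a0.2.1 hL0.le, fun h => ?_⟩
      exact div_le_div_of_nonneg_right (a0.2.2 (by simpa [sg, sgn] using h)) hL0.le
    · refine ⟨div_nonneg a1.1 hL0.le, div_le_div_of_nonneg_right a1.2.1 hL0.le, fun h => ?_⟩
      exact div_le_div_of_nonneg_right (a1.2.2 (by simpa [sg, sgn] using h)) hL0.le
    · exact ⟨hm0, hm', fun _ => hm⟩
    · exact ⟨hm0, hm', fun _ => hm⟩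
    · exact ⟨hm0, hm', fun _ => hm⟩
    · exact ⟨hm0, hm', fun _ => hm⟩
  have hexp : ∀ (G : Fin 2 → ℕ → ℂ) (n : ℕ),
      PL G (AB L v s) c0 (fun i => t0 i / L) c1 (fun i => t1 i / L) m n =
        ∑ p : ι0 × ι1, ((c0 p.1 * c1 p.2 : ℝ) : ℂ) *
          PX G (AB L v s) ![t0 p.1 / L, t1 p.2 / L, m, m, m, m] n := by
    intro G n
    rw [D_PL_expand, Fintype.sum_prod_type]
    refine Finset.sum_congr rfl fun i _ => Finset.sum_congr rfl fun j _ => ?_
    push_cast
    rfl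
  simp only [hexp]
  have hB : 0 ≤ C * (1 + |v|) ^ 32 / (L * ‖ww L v‖) := by positivity
  refine (D_A14_prod (fun p : ι0 × ι1 => c0 p.1 * c1 p.2) _ _ _ (fun p p' => ?_)
    (fun p p' => hD6 L v hL s hs _ _ (hAd p) (hAd p'))).trans ?_
  · exact (D_D6_summable F hF hF' L Th v hL0 s hs _ _ (hAd p) (hAd p')).of_norm
  · have h2 : 0 ≤ (1 + |v|) ^ 32 / (L * ‖ww L v‖) := by positivity
    have h3 : (C * (∑ p : ι0 × ι1, |c0 p.1 * c1 p.2|) ^ 2 + 1) * (1 + |v|) ^ 32 / (L * ‖ww L v‖) =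
      (∑ p : ι0 × ι1, |c0 p.1 * c1 p.2|) ^ 2 * (C * (1 + |v|) ^ 32 / (L * ‖ww L v‖)) +
      (1 + |v|) ^ 32 / (L * ‖ww L v‖) := by ring
    rw [h3]
    linarith

end OO

end

section

/-!
# Row B_13b: the weighted sums (D6')
-/

open Complex MeasureTheory Set Filter Topology
open scoped ComplexConjugate

namespace OO

/-- copy `D_D6` (D_A13.lean) with `B_D5c`, `B_iter`, `Cl`; constant `C (Cl^12 + 1)` -/
theorem B_D6 (Th : ℝ) (hTh : 1 ≤ Th) :
    ∃ C : ℝ, 0 < C ∧ ∀ F : Fin 2 → ℕ → ℂ, (∀ i, IsCh (F i)) → (∀ i, IsCh (cjF F i)) →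
    ∀ K1 : ℝ, RB F K1 → ∀ (kap : Fin 2 → Fin 2 → ℝ) (rh : ℝ), 0 < rh → rh ≤ 1 → RL F kap rh →
    ∃ L1 : ℝ, 4 * Th ≤ L1 ∧ ∀ L v : ℝ, L1 ≤ L → |v| ≤ rh / 4 →
    ∀ s : Fin 2 → ℝ, (∀ i, s i = 1 ∨ s i = -1) →
    ∀ t t' : Fin 6 → ℝ, Ad L Th s t → Ad L Th s t' →
      ‖∑' n, PX F (AB L v s) t n * PX (cjF F) (AB L v s) t' n‖ ≤ C / (L * ‖ww L v‖) := by
  obtain ⟨C, hC, hD5a⟩ := B_D5c Th hTh
  have hCl : 0 ≤ Cl := B_Cl.1
  refine ⟨C * (Cl ^ 12 + 1), mul_pos hC (add_pos_of_nonneg_of_pos (pow_nonneg hCl _) one_pos), ?_⟩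
  intro F hF hF' K1 hRB kap rh hrh hrh1 hRL
  obtain ⟨L1, hL1, hD5⟩ := hD5a F hF hF' K1 hRB kap rh hrh hrh1 hRL
  obtain ⟨C2, hC2, hPX⟩ := D_PX_le'
  refine ⟨L1, hL1, ?_⟩
  intro L v hLv hv s hs t t' ht ht'
  have hL : 0 < L := by linarith only [hTh, hL1, hLv]
  have hww : 0 < ‖ww L v‖ := (D_ww L v hL).1
  have hσ : 1 / 2 < 1 / 2 + 1 / (2 * L) := by
    have : 0 < 1 / (2 * L) := by positivity
    linarith only [this]
  obtain ⟨R, hR⟩ : ∃ R : ℝ, R = C / (L * ‖ww L v‖) := ⟨_, rfl⟩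
  have hR0 : 0 ≤ R := by rw [hR]; exact (div_pos hC (mul_pos hL hww)).le
  -- step 1
  have step1 : ∀ u' : Fin 6 → ℝ,
      ‖∑' n, PX F (AB L v s) t n * PX (cjF F) (AA L v s t' u') 0 n‖ ≤
        (R * ∏ j, (1 + |u' j|) ^ 13) * Cl ^ 6 := by
    intro u'
    have hP : 0 ≤ ∏ j, (1 + |u' j|) ^ 13 :=
      Finset.prod_nonneg fun j _ => pow_nonneg (add_nonneg zero_le_one (abs_nonneg _)) _
    have := B_iter (fun j u => XA F j (AB L v s j + t j * (1 + u * I)) 0)
      (fun j => XA F j (AB L v s j) (t j)) (PX (cjF F) (AA L v s t' u') 0) (1 / 2 + 1 / (2 * L)) 1 hσ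
      (fun j n => D_XA_cont F j (AB L v s j) (t j) n)
      (fun j n => D_XA_int F j (AB L v s j) (t j) n)
      (fun j u n => D_A13_a F hF L Th v hL s hs t ht j u n)
      (fun n => by
        rw [one_mul]
        exact D_PX_le (cjF F) hF' _ 0 (fun _ => le_rfl) _ (fun j => (D_AA_re L Th v hL s hs t' u' ht' j).1) n)
      (R * ∏ j, (1 + |u' j|) ^ 13) (mul_nonneg hR0 hP)
      (fun u => by
        have h5 := hD5 L v hLv hv s hs t t' u u' ht ht'
        refine le_trans (le_of_eq ?_) (h5.trans (le_of_eq ?_))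
        · rfl
        · rw [hR]; ring)
    exact this
  -- step 2
  have step2 := B_iter (fun j u => XA (cjF F) j (AB L v s j + t' j * (1 + u * I)) 0)
      (fun j => XA (cjF F) j (AB L v s j) (t' j)) (PX F (AB L v s) t) (1 / 2 + 1 / (2 * L)) C2 hσ
      (fun j n => D_XA_cont (cjF F) j (AB L v s j) (t' j) n)
      (fun j n => D_XA_int (cjF F) j (AB L v s j) (t' j) n)
      (fun j u n => D_A13_a (cjF F) hF' L Th v hL s hs t' ht' j u n)
      (fun n => hPX F hF _ _ _ (fun j => (D_AA_re L Th v hL s hs t 0 ht j).2) n)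
      (R * Cl ^ 6) (mul_nonneg hR0 (pow_nonneg hCl _))
      (fun u' => by
        have h5 := step1 u'
        refine le_trans (le_of_eq ?_) (h5.trans (le_of_eq ?_))
        · refine congrArg norm (tsum_congr fun n => ?_)
          rw [mul_comm]
          rfl
        · ring)
  have hfin : ‖∑' n, PX F (AB L v s) t n * PX (cjF F) (AB L v s) t' n‖ ≤ R * Cl ^ 6 * Cl ^ 6 := by
    refine le_trans (le_of_eq ?_) step2
    refine congrArg norm (tsum_congr fun n => ?_)
    rw [mul_comm]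
    rfl
  refine hfin.trans ?_
  calc R * Cl ^ 6 * Cl ^ 6 = R * Cl ^ 12 := by ring
    _ ≤ R * (Cl ^ 12 + 1) := mul_le_mul_of_nonneg_left (by linarith only) hR0
    _ = C * (Cl ^ 12 + 1) / (L * ‖ww L v‖) := by rw [hR]; ring

end OO

end
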