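import Pool.Agent.Lib.MP_0f5a55_nt.OM.K000
import Pool.Agent.Lib.MP_0f5a55_nt.OM.K014
import Pool.Agent.Lib.MP_0f5a55_nt.OM.K021
import Pool.Agent.Lib.MP_0f5a55_nt.OM.K022

section

open Complex MeasureTheory Set Filter Topology
open scoped ComplexConjugate

namespace OO

theorem shc_phase (D : ℝ) (hD : D ≠ 0) : exp (-((shc D : ℂ) * ((D : ℂ) * I))) = -1 := by
  have h1 : shc D = Real.pi / |D| := by unfold shc; rw [if_neg hD]
  rcases lt_or_gt_of_ne hD with h | h
  · have h2 : shc D * D = -Real.pi := by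
      rw [h1, abs_of_neg h]; field_simp
    have h3 : (-((shc D : ℂ) * ((D : ℂ) * I))) = Real.pi * I := by
      rw [← mul_assoc, ← ofReal_mul, h2]; push_cast; ring
    rw [h3, exp_pi_mul_I]
  · have h2 : shc D * D = Real.pi := by
      rw [h1, abs_of_pos h]; field_simp
    have h3 : (-((shc D : ℂ) * ((D : ℂ) * I))) = -(Real.pi * I) := by
      rw [← mul_assoc, ← ofReal_mul, h2]
    rw [h3, exp_neg, exp_pi_mul_I]
    norm_num

theorem dff_left (L : ℝ) (hL : 1 ≤ L) (x : ℝ) (hx : 0 < x) (hx' : x < Real.exp (L / 1000)) :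
    deriv (ff L) x = 0 := by
  obtain ⟨B, hB, H⟩ := ff_facts
  obtain ⟨f1, -⟩ := H L hL
  have he : ff L =ᶠ[𝓝 x] fun _ => (0 : ℝ) := by
    filter_upwards [Ioo_mem_nhds hx hx'] with z hz
    exact f1 z hz.1 hz.2.le
  rw [he.deriv_eq]
  simp

theorem dff_right (L : ℝ) (hL : 1 ≤ L) (x : ℝ) (hx' : Real.exp (L / 500) < x) :
    deriv (ff L) x = 0 := by
  obtain ⟨B, hB, H⟩ := ff_facts
  obtain ⟨-, f2, -⟩ := H L hL
  have he : ff L =ᶠ[𝓝 x] fun _ => (1 : ℝ) := by
    filter_upwards [Ioi_mem_nhds hx'] with z hz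
    exact f2 z (le_of_lt hz)
  rw [he.deriv_eq]
  simp

theorem dff_cont (L : ℝ) (hL : 1 ≤ L) : ContinuousOn (deriv (ff L)) (Ioi 0) := fun x hx =>
  (ff_diff2 L hL x hx).continuousAt.continuousWithinAt

theorem cpow_cont (z : ℂ) : ContinuousOn (fun x : ℝ => (x : ℂ) ^ z) (Ioi 0) := by
  intro x hx
  apply ContinuousAt.continuousWithinAt
  apply ContinuousAt.comp (f := fun x : ℝ => (x : ℂ)) (g := fun w : ℂ => w ^ z)
  · exact continuousAt_cpow_const (Or.inl (by simpa using hx))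
  · exact continuous_ofReal.continuousAt

theorem gz_int (L : ℝ) (hL : 1 ≤ L) (z : ℂ) (a b : ℝ) (ha : 0 < a) (hb : 0 < b) :
    IntervalIntegrable (fun x : ℝ => ((deriv (ff L) x : ℝ) : ℂ) * (x : ℂ) ^ z) volume a b := by
  apply ContinuousOn.intervalIntegrable
  have hsub : uIcc a b ⊆ Ioi 0 := fun x hx => lt_of_lt_of_le (lt_min ha hb) hx.1
  exact ((continuous_ofReal.comp_continuousOn (dff_cont L hL)).mul (cpow_cont z)).mono hsub

/-- zero parts -/
theorem gz_zero (L : ℝ) (z : ℂ) (a b : ℝ) (hab : a ≤ b) (h : ∀ x ∈ Ioo a b, deriv (ff L) x = 0) :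
    ∫ x in a..b, ((deriv (ff L) x : ℝ) : ℂ) * (x : ℂ) ^ z = 0 := by
  rw [intervalIntegral.integral_of_le hab, integral_Ioc_eq_integral_Ioo]
  apply setIntegral_eq_zero_of_forall_eq_zero
  intro x hx
  rw [h x hx]
  simp

/-- The averaged cut is orthogonal to `x^(iD)`. -/
theorem ffx_orth (D L : ℝ) (hD : D ≠ 0) (hL : 1 ≤ L) :
    ∫ x in Real.exp (L / 1000 - shc D)..Real.exp (L / 500),
      ((deriv (ffx D L) x : ℝ) : ℂ) * (x : ℂ) ^ ((D : ℂ) * I) = 0 := by
  set κ : ℝ := Real.exp (shc D) with hκ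
  have hκ0 : 0 < κ := Real.exp_pos _
  have hκ1 : 1 ≤ κ := Real.one_le_exp (shc_nonneg D)
  set Y : ℝ := Real.exp (L / 1000 - shc D) with hY
  set a : ℝ := Real.exp (L / 1000) with ha
  set b : ℝ := Real.exp (L / 500) with hb
  set z : ℂ := (D : ℂ) * I with hz
  have hY0 : 0 < Y := Real.exp_pos _
  have ha0 : 0 < a := Real.exp_pos _
  have hb0 : 0 < b := Real.exp_pos _
  have hab : a ≤ b := Real.exp_le_exp.2 (by linarith)
  have hYa : κ * Y = a := by rw [hκ, hY, ha, ← Real.exp_add]; congr 1; ring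
  have hYa' : Y ≤ a := by rw [← hYa]; nlinarith
  have hbκ : b ≤ κ * b := by nlinarith
  have hκz : ((κ : ℝ) : ℂ) ^ (-z) = -1 := by
    rw [cpow_def_of_ne_zero (by exact_mod_cast hκ0.ne'), ← ofReal_log hκ0.le, hκ, Real.log_exp,
      ← shc_phase D hD, hz]
    congr 1
    ring
  set G : ℝ → ℂ := fun x => ((deriv (ff L) x : ℝ) : ℂ) * (x : ℂ) ^ z with hG
  have e1 : ∀ x ∈ uIcc Y b, ((deriv (ffx D L) x : ℝ) : ℂ) * (x : ℂ) ^ z =
      (1 / 2 : ℂ) * G x + (1 / 2 * (κ : ℂ) ^ (-z) : ℂ) * ((κ : ℂ) * G (κ * x)) := by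
    intro x hx
    have hx0 : 0 < x := by
      rw [uIcc_of_le (hYa'.trans hab)] at hx
      exact lt_of_lt_of_le hY0 hx.1
    have e2 : (((κ * x : ℝ)) : ℂ) ^ z = (κ : ℂ) ^ z * (x : ℂ) ^ z := by
      rw [ofReal_mul, mul_cpow_ofReal_nonneg hκ0.le hx0.le]
    have e3 : (κ : ℂ) ^ (-z) * (κ : ℂ) ^ z = 1 := by
      rw [← cpow_add _ _ (by exact_mod_cast hκ0.ne')]
      simp
    rw [(ffx_deriv D L hL x hx0).deriv, hG, ← hκ]
    simp only
    rw [e2]
    push_cast
    linear_combination (-(1 / 2 : ℂ) * κ * ((deriv (ff L) (κ * x) : ℝ) : ℂ) * (x : ℂ) ^ z) * e3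
  rw [intervalIntegral.integral_congr e1]
  have hGi : ∀ c d : ℝ, 0 < c → 0 < d → IntervalIntegrable G volume c d := fun c d hc hd => gz_int L hL z c d hc hd
  have hGi2 : IntervalIntegrable (fun x => G (κ * x)) volume Y b := by
    have h := (hGi (κ * Y) (κ * b) (by positivity) (by positivity)).comp_mul_left (c := κ)
    rw [mul_div_cancel_left₀ _ hκ0.ne', mul_div_cancel_left₀ _ hκ0.ne'] at h
    exact h
  rw [intervalIntegral.integral_add ((hGi Y b hY0 hb0).const_mul _) ((hGi2.const_mul _).const_mul _),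
    intervalIntegral.integral_const_mul, intervalIntegral.integral_const_mul, intervalIntegral.integral_const_mul,
    intervalIntegral.integral_comp_mul_left G hκ0.ne', hYa]
  have i1 : ∫ x in Y..b, G x = ∫ x in a..b, G x := by
    rw [← intervalIntegral.integral_add_adjacent_intervals (hGi Y a hY0 ha0) (hGi a b ha0 hb0),
      gz_zero L z Y a hYa' (fun x hx => dff_left L hL x (lt_trans hY0 hx.1) hx.2), zero_add]
  have i2 : ∫ x in a..κ * b, G x = ∫ x in a..b, G x := by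
    rw [← intervalIntegral.integral_add_adjacent_intervals (hGi a b ha0 hb0) (hGi b (κ * b) hb0 (by positivity)),
      gz_zero L z b (κ * b) hbκ (fun x hx => dff_right L hL x hx.1), add_zero]
  rw [i1, i2, hκz, real_smul]
  push_cast
  have hκc : (κ : ℂ) ≠ 0 := by exact_mod_cast hκ0.ne'
  field_simp
  ring

end OO

end

section

/-!
# Row D3_D5: the unweighted sums, global bound
-/

open Complex MeasureTheory Set Filter Topology
open scoped ComplexConjugate

namespace OO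

/-- For `L ≥ 4`, `w = ww L v`, `p = ±1`: `- b p/2 (log ‖w + iD‖ + log ‖w - iD‖) ≤ K + log (1+|v|) + (1/2) log L`. `b = 0` clear.
`p = 1`: `‖w + iD‖ + ‖w - iD‖ ≥ 2|D|`, so one of the two is `≥ |D|`, the other one is `≥ re w = 1/L`:
product `≥ |D|/L`. `p = -1`: both are `≤ 1/L + |v| + |D| ≤ (1 + |v|)(1 + |D|)`. -/
theorem D3_D5_el (D b : ℝ) (hb : Bx D b) : ∃ K : ℝ, 0 ≤ K ∧ ∀ L v p : ℝ, 4 ≤ L → (p = 1 ∨ p = -1) →
    -(b * (p / 2 * (Real.log ‖ww L v + (D : ℂ) * I‖ + Real.log ‖ww L v + ((-D : ℝ) : ℂ) * I‖))) ≤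
      K + Real.log (1 + |v|) + Real.log L / 2 := by
  rcases hb with hb | ⟨hb, hD⟩
  · refine ⟨0, le_rfl, ?_⟩
    intro L v p hL hp
    rw [hb, zero_mul, neg_zero, zero_add]
    have h1 : 0 ≤ Real.log (1 + |v|) := Real.log_nonneg (by linarith only [abs_nonneg v])
    have h2 : 0 ≤ Real.log L := Real.log_nonneg (by linarith only [hL])
    linarith only [h1, h2]
  · have hD0 : 0 < |D| := abs_pos.2 hD
    have hk2 : 0 ≤ Real.log (1 + |D|) := Real.log_nonneg (by linarith only [hD0])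
    have hk3 : 0 ≤ |Real.log (|D|)| := abs_nonneg _
    refine ⟨Real.log (1 + |D|) + |Real.log (|D|)|, by linarith only [hk2, hk3], ?_⟩
    intro L v p hL hp
    have hL0 : 0 < L := by linarith only [hL]
    have hLi : 0 < 1 / L := by positivity
    have hLi1 : 1 / L ≤ 1 := by
      rw [div_le_one hL0]; linarith only [hL]
    have hv1 : 0 ≤ Real.log (1 + |v|) := Real.log_nonneg (by linarith only [abs_nonneg v])
    have hLL : 0 ≤ Real.log L := Real.log_nonneg (by linarith only [hL])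
    rw [hb, one_mul]
    have key : ∀ E : ℝ, 1 / L ≤ ‖ww L v + (E : ℂ) * I‖ := by
      intro E
      have h := Complex.re_le_norm (ww L v + (E : ℂ) * I)
      rwa [Complex.add_re, Complex.re_ofReal_mul, Complex.I_re, mul_zero, add_zero, D_A7_re] at h
    have key2 : ∀ E : ℝ, |E| = |D| → ‖ww L v + (E : ℂ) * I‖ ≤ (1 + |v|) * (1 + |D|) := by
      intro E hE
      refine (norm_add_le _ _).trans ?_
      rw [norm_mul, Complex.norm_real, Complex.norm_I, mul_one, Real.norm_eq_abs, hE]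
      have h1 := (D_ww L v hL0).2.2.2.1
      have h2 : 0 ≤ |v| * |D| := by positivity
      nlinarith only [h1, h2, hLi1]
    have hp1 := key D
    have hm1 := key (-D)
    have hp2 := key2 D rfl
    have hm2 := key2 (-D) (abs_neg D)
    have hsum : 2 * |D| ≤ ‖ww L v + (D : ℂ) * I‖ + ‖ww L v + ((-D : ℝ) : ℂ) * I‖ := by
      have h1 : ((2 * D : ℝ) : ℂ) * I = (ww L v + (D : ℂ) * I) - (ww L v + ((-D : ℝ) : ℂ) * I) := by
        push_cast; ring
      have h2 : ‖((2 * D : ℝ) : ℂ) * I‖ = 2 * |D| := by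
        rw [norm_mul, Complex.norm_real, Complex.norm_I, mul_one, Real.norm_eq_abs, abs_mul]
        norm_num
      rw [← h2, h1]
      exact norm_sub_le _ _
    generalize ‖ww L v + (D : ℂ) * I‖ = x at *
    generalize ‖ww L v + ((-D : ℝ) : ℂ) * I‖ = y at *
    have hx0 : 0 < x := hLi.trans_le hp1
    have hy0 : 0 < y := hLi.trans_le hm1
    have hlogi : Real.log (1 / L) = -Real.log L := by rw [one_div, Real.log_inv]
    have hD1 : -Real.log (|D|) ≤ |Real.log (|D|)| := neg_le_abs _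
    rcases hp with hp | hp
    · rw [hp]
      have hlow : Real.log (|D|) - Real.log L ≤ Real.log x + Real.log y := by
        rcases le_total |D| x with h | h
        · have h1 := Real.log_le_log hD0 h
          have h2 := Real.log_le_log hLi hm1
          rw [hlogi] at h2
          linarith only [h1, h2]
        · have h3 : |D| ≤ y := by linarith only [h, hsum]
          have h1 := Real.log_le_log hD0 h3
          have h2 := Real.log_le_log hLi hp1
          rw [hlogi] at h2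
          linarith only [h1, h2]
      linarith only [hlow, hD1, hk2, hk3, hv1, hLL]
    · rw [hp]
      have h1 := Real.log_le_log hx0 hp2
      have h2 := Real.log_le_log hy0 hm2
      have hv0 : 1 + |v| ≠ 0 := by positivity
      have hD0' : 1 + |D| ≠ 0 := by positivity
      rw [Real.log_mul hv0 hD0'] at h1 h2
      linarith only [h1, h2, hk3, hLL]

/-- Copy `D_D5` (OO/D_A10.lean), with `D3_pair_term`, `D3_sum36` (`lp`, `lm` the two logarithms) and `D3_D5_el`
(`p = s 0 * s 1`); `exp (log L / 2) = √L` (`Real.sqrt_eq_rpow` or `Real.log_sqrt`). -/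
theorem D3_D5 (F : Fin 2 → ℕ → ℂ) (hF : ∀ i, IsCh (F i)) (hF' : ∀ i, IsCh (cjF F i)) (K1 D b : ℝ)
    (hb : Bx D b) (hRB : RBx F K1 D b) (Th : ℝ) (hTh : 1 ≤ Th) :
    ∃ C : ℝ, 0 < C ∧ ∀ L v : ℝ, 4 * Th ≤ L → ∀ s : Fin 2 → ℝ, (∀ i, s i = 1 ∨ s i = -1) →
    ∀ t t' u u' : Fin 6 → ℝ, Ad L Th s t → Ad L Th s t' →
      ‖∑' n, PX F (AA L v s t u) 0 n * PX (cjF F) (AA L v s t' u') 0 n‖ ≤
        C * (∏ j, (1 + |u j|) ^ 12) * (∏ j, (1 + |u' j|) ^ 12) * (1 + |v|) ^ 33 * √L /
          (L * ‖ww L v‖) := by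
  obtain ⟨K, hK0, hE⟩ := D_euler
  obtain ⟨K', hP⟩ := D3_pair_term F K1 D b hb hRB Th hTh
  obtain ⟨K2, hK2, hel⟩ := D3_D5_el D b hb
  refine ⟨Real.exp (K + 16 * K' + K2), Real.exp_pos _, ?_⟩
  intro L v hL s hs t t' u u' ht ht'
  have hL0 : 0 < L := by linarith only [hL, hTh]
  set A := AA L v s t u with hA
  set A' := AA L v s t' u' with hA'
  have hre : ∀ j, 1 / 2 + 1 / (2 * L) ≤ (A j).re := fun j => (D_AA_re L Th v hL0 s hs t u ht j).1
  have hre' : ∀ j, 1 / 2 + 1 / (2 * L) ≤ (A' j).re := fun j => (D_AA_re L Th v hL0 s hs t' u' ht' j).1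
  have hm := D_PX_mult F hF A
  have hm' := D_PX_mult (cjF F) hF' A'
  set H : ℕ → ℂ := fun n => PX F A 0 n * PX (cjF F) A' 0 n with hH
  have hb : ∀ n : ℕ, ‖H n‖ ≤ (n.divisors.card : ℝ) ^ 12 * (n : ℝ) ^ (-(1 + 1 / L)) := by
    intro n
    rcases Nat.eq_zero_or_pos n with rfl | hn
    · simp [hH]
    · have hn0 : (0 : ℝ) < n := by exact_mod_cast hn
      have h1 := D_PX_le F hF A 0 (fun j => le_rfl) (1 / 2 + 1 / (2 * L)) hre n
      have h2 := D_PX_le (cjF F) hF' A' 0 (fun j => le_rfl) (1 / 2 + 1 / (2 * L)) hre' n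
      calc ‖H n‖ = ‖PX F A 0 n‖ * ‖PX (cjF F) A' 0 n‖ := norm_mul _ _
        _ ≤ ((n.divisors.card : ℝ) ^ 6 * (n : ℝ) ^ (-(1 / 2 + 1 / (2 * L)))) *
            ((n.divisors.card : ℝ) ^ 6 * (n : ℝ) ^ (-(1 / 2 + 1 / (2 * L)))) :=
            mul_le_mul h1 h2 (norm_nonneg _) (by positivity)
        _ = (n.divisors.card : ℝ) ^ 12 *
            ((n : ℝ) ^ (-(1 / 2 + 1 / (2 * L))) * (n : ℝ) ^ (-(1 / 2 + 1 / (2 * L)))) := by ring
        _ = (n.divisors.card : ℝ) ^ 12 * (n : ℝ) ^ (-(1 + 1 / L)) := by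
            rw [← Real.rpow_add hn0]
            congr 2
            field_simp
            ring
  have hmain := hE H (1 / L) (by positivity) (by simp [hH])
    (by simp only [hH]; rw [hm.map_one, hm'.map_one, one_mul])
    (by
      intro m n hmn
      simp only [hH]
      rw [hm.map_mul_of_coprime hmn, hm'.map_mul_of_coprime hmn]
      ring) hb
  refine hmain.2.trans ?_
  have hsum : ∑' p : Nat.Primes, (H p).re = ∑ j, ∑ k, co j * co k *
      Rp (fun n => F (fm j) n * conj (F (fm k) n)) (A j + A' k) := by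
    refine D_prime_sum F hF hF' A A' fun j k => ?_
    have h1 := hre j
    have h2 := hre' k
    rw [Complex.add_re]
    have h3 : 1 / 2 + 1 / (2 * L) + (1 / 2 + 1 / (2 * L)) = 1 + 1 / L := by
      field_simp
      ring
    have h4 : 0 < 1 / L := by positivity
    linarith only [h1, h2, h3, h4]
  have h36 := D3_sum36 s hs (Real.log ‖ww L v‖) (Real.log L) K' (Real.log (1 + |v|))
    (Real.log ‖ww L v + (D : ℂ) * I‖) (Real.log ‖ww L v + ((-D : ℝ) : ℂ) * I‖) b
    (fun j => Real.log (1 + |u j|)) (fun j => Real.log (1 + |u' j|))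
    (fun j => Real.log_nonneg (by linarith only [abs_nonneg (u j)]))
    (fun j => Real.log_nonneg (by linarith only [abs_nonneg (u' j)]))
    (fun j k => Rp (fun n => F (fm j) n * conj (F (fm k) n)) (A j + A' k))
    (fun j k => hP L v hL s hs t t' u u' ht ht' j k)
  rw [← hsum] at h36
  have hpp : s 0 * s 1 = 1 ∨ s 0 * s 1 = -1 := by
    rcases hs 0 with h0 | h0 <;> rcases hs 1 with h1 | h1 <;> rw [h0, h1] <;> norm_num
  have hele := hel L v (s 0 * s 1) (by linarith only [hL, hTh]) hpp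
  have hw := D_A10_ww L v hL0
  have hsq : Real.exp (Real.log L / 2) = √L := by
    rw [← Real.log_sqrt hL0.le, Real.exp_log (Real.sqrt_pos.2 hL0)]
  calc Real.exp (K + ∑' p : Nat.Primes, (H p).re)
      ≤ Real.exp (K + (16 * K' + 32 * Real.log (1 + |v|) + 12 * (∑ j, Real.log (1 + |u j|)) +
          12 * (∑ k, Real.log (1 + |u' k|)) - Real.log ‖ww L v‖ - Real.log L +
          (K2 + Real.log (1 + |v|) + Real.log L / 2))) :=
        Real.exp_le_exp.mpr (by linarith only [h36, hele])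
    _ = Real.exp ((K + 16 * K' + K2) + (∑ j, ((12 : ℕ) : ℝ) * Real.log (1 + |u j|)) +
          (∑ j, ((12 : ℕ) : ℝ) * Real.log (1 + |u' j|)) + ((33 : ℕ) : ℝ) * Real.log (1 + |v|) +
          Real.log L / 2 + (-Real.log L) + (-Real.log ‖ww L v‖)) := by
        congr 1
        rw [← Finset.mul_sum, ← Finset.mul_sum]
        push_cast
        ring
    _ = Real.exp (K + 16 * K' + K2) * (∏ j, (1 + |u j|) ^ 12) * (∏ j, (1 + |u' j|) ^ 12) *
          (1 + |v|) ^ 33 * √L * L⁻¹ * ‖ww L v‖⁻¹ := by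
        rw [Real.exp_add, Real.exp_add, Real.exp_add, Real.exp_add, Real.exp_add, Real.exp_add, Real.exp_sum,
          Real.exp_sum, D_A10_exp_log, Real.exp_neg, Real.exp_neg, Real.exp_log hL0, Real.exp_log hw, hsq]
        simp only [D_A10_exp_log]
    _ = _ := by
        rw [div_eq_mul_inv, mul_inv, mul_assoc _ L⁻¹]

end OO

end
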