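import Pool.Agent.Lib.MP_0f5a55_nt.OM.K000
import Pool.Agent.Lib.MP_0f5a55_nt.OM.K015
import Pool.Agent.Lib.MP_0f5a55_nt.OM.K019
import Pool.Agent.Lib.MP_0f5a55_nt.OM.K023

section

/-! # Row OE12: the energy identity -/

open Complex MeasureTheory Set Filter Topology
open scoped ComplexConjugate

namespace OO

theorem E_int4 (s : Finset ℕ) (C : ℕ → ℕ → ℕ → ℕ → ℂ) (F : ℕ → ℕ → ℕ → ℕ → ℝ → ℂ)
    (hF : ∀ h ∈ s, ∀ k ∈ s, ∀ h' ∈ s, ∀ k' ∈ s, IntegrableOn (F h k h' k') (Ioi 0)) :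
    ∫ x in Ioi (0 : ℝ), ∑ h ∈ s, ∑ k ∈ s, ∑ h' ∈ s, ∑ k' ∈ s, C h k h' k' * F h k h' k' x =
      ∑ h ∈ s, ∑ k ∈ s, ∑ h' ∈ s, ∑ k' ∈ s, C h k h' k' * ∫ x in Ioi (0 : ℝ), F h k h' k' x := by
  rw [integral_finsetSum _ (fun h hh => integrable_finsetSum _ (fun k hk =>
    integrable_finsetSum _ (fun h' hh' => integrable_finsetSum _ (fun k' hk' =>
      (hF h hh k hk h' hh' k' hk').const_mul _))))]
  apply Finset.sum_congr rfl
  intro h hh
  rw [integral_finsetSum _ (fun k hk =>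
    integrable_finsetSum _ (fun h' hh' => integrable_finsetSum _ (fun k' hk' =>
      (hF h hh k hk h' hh' k' hk').const_mul _)))]
  apply Finset.sum_congr rfl
  intro k hk
  rw [integral_finsetSum _ (fun h' hh' => integrable_finsetSum _ (fun k' hk' =>
      (hF h hh k hk h' hh' k' hk').const_mul _))]
  apply Finset.sum_congr rfl
  intro h' hh'
  rw [integral_finsetSum _ (fun k' hk' => (hF h hh k hk h' hh' k' hk').const_mul _)]
  apply Finset.sum_congr rfl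
  intro k' hk'
  exact integral_const_mul _ _

theorem E_gg_sq (s : Finset ℕ) (c G : ℕ → ℕ → ℂ) (w : ℝ) :
    ((w * ‖∑ h ∈ s, ∑ k ∈ s, c h k * G h k‖ ^ 2 : ℝ) : ℂ) =
      ∑ h ∈ s, ∑ k ∈ s, ∑ h' ∈ s, ∑ k' ∈ s, (c h k * conj (c h' k')) *
        ((w : ℂ) * (G h k * conj (G h' k'))) := by
  have h1 : ((w * ‖∑ h ∈ s, ∑ k ∈ s, c h k * G h k‖ ^ 2 : ℝ) : ℂ) =
      (w : ℂ) * ((∑ h ∈ s, ∑ k ∈ s, c h k * G h k) * conj (∑ h ∈ s, ∑ k ∈ s, c h k * G h k)) := by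
    rw [Complex.mul_conj']
    push_cast
    rfl
  rw [h1, map_sum, Finset.sum_mul, Finset.mul_sum]
  apply Finset.sum_congr rfl
  intro h _
  rw [Finset.sum_mul, Finset.mul_sum]
  apply Finset.sum_congr rfl
  intro k _
  rw [Finset.mul_sum, Finset.mul_sum]
  apply Finset.sum_congr rfl
  intro h' _
  rw [map_sum, Finset.mul_sum, Finset.mul_sum]
  apply Finset.sum_congr rfl
  intro k' _
  rw [map_mul]
  ring

/-- PROOF. `(Wt * ‖g‖^2 : ℂ) = Wt * (g * conj g)`, expand `g = ∑ h k, c h k * FS lam (zz ε * x * h / k)`, `c h k = b h * conj (b k) / k`, into four finite sums;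
each product `Wt * (FS * conj FS)` is integrable on `Ioi 0` (`E_pair`), so (`integral_finsetSum`, `integral_const_mul`)
`∫ Wt ‖g‖^2 = ∑ c h k conj (c h' k') (ED + ∑' EU h k h' k' + ∑' conj (EU h' k' h k))` (`E_one`) `= DS + Off` (`E_DS`), and
`‖Off‖ ≤ ∑ ‖c h k‖ ‖c h' k'‖ (∑' ‖EU h k h' k' r‖ + ∑' ‖EU h' k' h k r‖)`; the two halves are equal after exchanging `(h,k)` with `(h',k')`
(`Finset.sum_comm`). `norm_tsum_le_tsum_norm` with summability `hS` of the norms. Take real parts. -/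
theorem E_energy (b lam : ArithmeticFunction ℂ) {B al om ε : ℝ} (hlam : ∀ n, ‖lam n‖ ≤ B * n) (hal : 0 < al) (hom : 0 ≤ om)
    (hε : 0 < ε) (hε' : ε ≤ 1 / 10) {H : ℕ} (hb : ∀ h, H < h → b h = 0) (S : ℝ)
    (hS : ∀ h ∈ Finset.Icc 1 H, ∀ k ∈ Finset.Icc 1 H, ∀ h' ∈ Finset.Icc 1 H, ∀ k' ∈ Finset.Icc 1 H,
      (Summable fun r => ‖EU lam al om ε h k h' k' r‖) ∧ ∑' r, ‖EU lam al om ε h k h' k' r‖ ≤ S) :
    (∫ x in Ioi (0 : ℝ), Wt al om x * ‖gg b H lam ε x‖ ^ 2) ≤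
      DS H (b * lam : ArithmeticFunction ℂ) (cj b) (fun y => Psi al om (4 * Real.pi * Real.sin ε * y)) +
        2 * (∑ h ∈ Finset.Icc 1 H, ∑ k ∈ Finset.Icc 1 H, ‖b h‖ * ‖b k‖ / k) ^ 2 * S := by
  set s := Finset.Icc 1 H with hs
  set c : ℕ → ℕ → ℂ := fun h k => b h * conj (b k) / k with hc
  have hDS := E_DS b lam hlam hal hom hε hε' hb
  set D : ℝ := DS H (b * lam : ArithmeticFunction ℂ) (cj b)
    (fun y => Psi al om (4 * Real.pi * Real.sin ε * y)) with hD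
  have hmem : ∀ h ∈ s, 1 ≤ h := fun h hh => (Finset.mem_Icc.1 hh).1
  have hint : ∀ h ∈ s, ∀ k ∈ s, ∀ h' ∈ s, ∀ k' ∈ s, IntegrableOn (fun x : ℝ => (Wt al om x : ℂ) *
      (FS lam (zz ε * x * h / k) * conj (FS lam (zz ε * x * h' / k')))) (Ioi 0) :=
    fun h hh k hk h' hh' k' hk' =>
      (E_pair hlam hal hom hε hε' (hmem h hh) (hmem k hk) (hmem h' hh') (hmem k' hk')).1
  have hmain : ((∫ x in Ioi (0 : ℝ), Wt al om x * ‖gg b H lam ε x‖ ^ 2 : ℝ) : ℂ) =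
      ∑ h ∈ s, ∑ k ∈ s, ∑ h' ∈ s, ∑ k' ∈ s, (c h k * conj (c h' k')) *
        ∫ x in Ioi (0 : ℝ), (Wt al om x : ℂ) *
          (FS lam (zz ε * x * h / k) * conj (FS lam (zz ε * x * h' / k'))) := by
    rw [← E_int4 s (fun h k h' k' => c h k * conj (c h' k')) (fun h k h' k' x => (Wt al om x : ℂ) *
          (FS lam (zz ε * x * h / k) * conj (FS lam (zz ε * x * h' / k')))) hint]
    refine integral_complex_ofReal.symm.trans ?_
    congr 1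
    funext x
    exact E_gg_sq s c (fun h k => FS lam (zz ε * x * h / k)) (Wt al om x)
  set X : ℕ → ℕ → ℕ → ℕ → ℂ := fun h k h' k' =>
    (∑' r, EU lam al om ε h k h' k' r) + ∑' r, conj (EU lam al om ε h' k' h k r) with hX
  have hsum : ((∫ x in Ioi (0 : ℝ), Wt al om x * ‖gg b H lam ε x‖ ^ 2 : ℝ) : ℂ) =
      (D : ℂ) + ∑ h ∈ s, ∑ k ∈ s, ∑ h' ∈ s, ∑ k' ∈ s, (c h k * conj (c h' k')) * X h k h' k' := by
    rw [hmain, hDS, ← Finset.sum_add_distrib]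
    apply Finset.sum_congr rfl
    intro h hh
    rw [← Finset.sum_add_distrib]
    apply Finset.sum_congr rfl
    intro k hk
    rw [← Finset.sum_add_distrib]
    apply Finset.sum_congr rfl
    intro h' hh'
    rw [← Finset.sum_add_distrib]
    apply Finset.sum_congr rfl
    intro k' hk'
    rw [(E_one hlam hal hom hε hε' (hmem h hh) (hmem k hk) (hmem h' hh') (hmem k' hk')).2]
    simp only [hX, hc]
    ring
  have hXle : ∀ h ∈ s, ∀ k ∈ s, ∀ h' ∈ s, ∀ k' ∈ s, ‖X h k h' k'‖ ≤ 2 * S := by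
    intro h hh k hk h' hh' k' hk'
    obtain ⟨h1, h2⟩ := hS h hh k hk h' hh' k' hk'
    obtain ⟨h3, h4⟩ := hS h' hh' k' hk' h hh k hk
    have h5 : ‖∑' r, EU lam al om ε h k h' k' r‖ ≤ S := (norm_tsum_le_tsum_norm h1).trans h2
    have h6 : ∀ r, ‖(conj (EU lam al om ε h' k' h k r) : ℂ)‖ = ‖EU lam al om ε h' k' h k r‖ :=
      fun r => Complex.norm_conj _
    have h7 : ‖∑' r, (conj (EU lam al om ε h' k' h k r) : ℂ)‖ ≤ S := by
      have h8 : Summable fun r => ‖(conj (EU lam al om ε h' k' h k r) : ℂ)‖ := by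
        simp only [h6]
        exact h3
      refine (norm_tsum_le_tsum_norm h8).trans ?_
      simp only [h6]
      exact h4
    calc ‖X h k h' k'‖ ≤ ‖∑' r, EU lam al om ε h k h' k' r‖ +
          ‖∑' r, (conj (EU lam al om ε h' k' h k r) : ℂ)‖ := norm_add_le _ _
      _ ≤ S + S := add_le_add h5 h7
      _ = 2 * S := by ring
  have hcn : ∀ h k : ℕ, ‖c h k‖ = ‖b h‖ * ‖b k‖ / k := by
    intro h k
    simp only [hc]
    rw [norm_div, norm_mul, Complex.norm_conj, Complex.norm_natCast]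
  have hoff : ‖∑ h ∈ s, ∑ k ∈ s, ∑ h' ∈ s, ∑ k' ∈ s, (c h k * conj (c h' k')) * X h k h' k'‖ ≤
      2 * (∑ h ∈ s, ∑ k ∈ s, ‖b h‖ * ‖b k‖ / k) ^ 2 * S := by
    have h1 : 2 * (∑ h ∈ s, ∑ k ∈ s, ‖b h‖ * ‖b k‖ / k) ^ 2 * S =
        ∑ h ∈ s, ∑ k ∈ s, ∑ h' ∈ s, ∑ k' ∈ s, (‖c h k‖ * ‖c h' k'‖) * (2 * S) := by
      simp only [hcn, ← Finset.sum_mul, ← Finset.mul_sum]
      ring
    rw [h1]
    refine (norm_sum_le _ _).trans (Finset.sum_le_sum fun h hh => ?_)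
    refine (norm_sum_le _ _).trans (Finset.sum_le_sum fun k hk => ?_)
    refine (norm_sum_le _ _).trans (Finset.sum_le_sum fun h' hh' => ?_)
    refine (norm_sum_le _ _).trans (Finset.sum_le_sum fun k' hk' => ?_)
    rw [norm_mul, norm_mul, Complex.norm_conj]
    exact mul_le_mul_of_nonneg_left (hXle h hh k hk h' hh' k' hk')
      (mul_nonneg (norm_nonneg _) (norm_nonneg _))
  have hre := congrArg Complex.re hsum
  rw [Complex.ofReal_re, Complex.add_re, Complex.ofReal_re] at hre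
  rw [hre]
  exact add_le_add le_rfl ((Complex.re_le_norm _).trans hoff)

end OO

end

section

/-! # Row OE15: block E -/

open Complex MeasureTheory Set Filter Topology
open scoped ComplexConjugate

namespace OO

private theorem E_15_sum (H : ℕ) (b : ArithmeticFunction ℂ) (hb : ∀ h, ‖b h‖ ≤ h) :
    ∑ h ∈ Finset.Icc 1 H, ∑ k ∈ Finset.Icc 1 H, ‖b h‖ * ‖b k‖ / k ≤ (H : ℝ) ^ 3 := by
  have h1 : ∀ h ∈ Finset.Icc 1 H, ∑ k ∈ Finset.Icc 1 H, ‖b h‖ * ‖b k‖ / k ≤ (H : ℝ) * H := by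
    intro h hh
    have h2 : ∀ k ∈ Finset.Icc 1 H, ‖b h‖ * ‖b k‖ / k ≤ (H : ℝ) := by
      intro k hk
      have hk0 : (0 : ℝ) < k := Nat.cast_pos.2 (by have := (Finset.mem_Icc.1 hk).1; omega)
      rw [div_le_iff₀ hk0]
      refine mul_le_mul ((hb h).trans ?_) (hb k) (norm_nonneg _) (Nat.cast_nonneg H)
      exact_mod_cast (Finset.mem_Icc.1 hh).2
    refine (Finset.sum_le_sum h2).trans ?_
    rw [Finset.sum_const, Nat.card_Icc, nsmul_eq_mul, Nat.add_sub_cancel]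
  refine (Finset.sum_le_sum h1).trans ?_
  rw [Finset.sum_const, Nat.card_Icc, nsmul_eq_mul, Nat.add_sub_cancel]
  apply le_of_eq
  ring

/-- Block E: expansion of the energy, diagonal sum plus shifted convolution sums.
PROOF. `E_energy` with `S` from `E_Usum`; `∑ h k ‖b h‖ ‖b k‖/k ≤ H * H * (H * 1) = H^3` (`‖b h‖ ≤ h ≤ H`, `‖b k‖/k ≤ 1`), so the factor is `≤ 2 H^6 K H^86 ≤ 2 K H^200`. -/
theorem E_main (p1 p2 : ℝ) (hp1 : 0 ≤ p1) (hp2 : 0 ≤ p2) (hp1' : p1 ≤ 6) (hp2' : p2 ≤ 6) (j : ℕ) : ∃ K : ℝ, 0 < K ∧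
    ∀ (H : ℕ) (b lam : ArithmeticFunction ℂ) (B C1 C2 ε α ω : ℝ), 1 ≤ H → (∀ h, H < h → b h = 0) →
      (∀ h, ‖b h‖ ≤ h) → (∀ n, ‖lam n‖ ≤ B * n) → 0 < ε → ε ≤ 1 / 10 → 1 ≤ α → 0 ≤ ω → 0 ≤ C1 → 0 ≤ C2 →
      (∀ a c r : ℕ, 1 ≤ a → 1 ≤ c → 1 ≤ r → ∀ κ : ℂ, κ ≠ 0 → ‖κ‖ / 2 ≤ κ.re →
        ‖SS lam a c r κ‖ ≤ ((a * c * r : ℕ) : ℝ) ^ 12 * (C1 * (1 + 1 / ‖κ‖) ^ p1 + C2 * (1 + 1 / ‖κ‖) ^ p2)) →
      (∫ x in Ioi (0 : ℝ), Wt α ω x * ‖gg b H lam ε x‖ ^ 2) ≤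
        DS H (b * lam : ArithmeticFunction ℂ) (cj b) (fun y => Psi α ω (4 * Real.pi * Real.sin ε * y)) +
          K * (H : ℝ) ^ 200 * ((H : ℝ) ^ 2 / α) ^ j * (C1 * ε ^ (-p1) + C2 * ε ^ (-p2)) := by
  obtain ⟨K, hK, hU⟩ := E_Usum p1 p2 hp1 hp2 hp1' hp2' j
  refine ⟨2 * K, by positivity, ?_⟩
  intro H b lam B C1 C2 ε α ω hH hbH hb hlam hε hε' hα hω hC1 hC2 hSS
  obtain ⟨S, hS⟩ : ∃ S, S = K * (H : ℝ) ^ 86 * ((H : ℝ) ^ 2 / α) ^ j *
    (C1 * ε ^ (-p1) + C2 * ε ^ (-p2)) := ⟨_, rfl⟩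
  have hα0 : 0 < α := by linarith
  have hH1 : (1 : ℝ) ≤ H := by exact_mod_cast hH
  have h1 := E_energy b lam (al := α) (om := ω) hlam hα0 hω hε hε' hbH S
    (fun h hh k hk h' hh' k' hk' => by
      rw [hS]
      exact hU H lam B C1 C2 ε α ω hH hlam hε hε' hα hω hC1 hC2 hSS h hh k hk h' hh' k' hk')
  refine h1.trans (add_le_add le_rfl ?_)
  have h2 := E_15_sum H b hb
  have h3 : 0 ≤ ∑ h ∈ Finset.Icc 1 H, ∑ k ∈ Finset.Icc 1 H, ‖b h‖ * ‖b k‖ / k :=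
    Finset.sum_nonneg fun h _ => Finset.sum_nonneg fun k _ => by positivity
  obtain ⟨Q, hQ⟩ : ∃ Q, Q = ((H : ℝ) ^ 2 / α) ^ j * (C1 * ε ^ (-p1) + C2 * ε ^ (-p2)) := ⟨_, rfl⟩
  have hQ0 : 0 ≤ Q := by
    rw [hQ]
    positivity
  have hS' : S = K * (H : ℝ) ^ 86 * Q := by
    rw [hS, hQ]
    ring
  have hS0 : 0 ≤ S := by
    rw [hS']
    positivity
  calc 2 * (∑ h ∈ Finset.Icc 1 H, ∑ k ∈ Finset.Icc 1 H, ‖b h‖ * ‖b k‖ / k) ^ 2 * S
      ≤ 2 * ((H : ℝ) ^ 3) ^ 2 * S := by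
        refine mul_le_mul_of_nonneg_right ?_ hS0
        exact mul_le_mul_of_nonneg_left (pow_le_pow_left₀ h3 h2 2) (by norm_num)
    _ = 2 * K * (H : ℝ) ^ 92 * Q := by
        rw [hS']
        ring
    _ ≤ 2 * K * (H : ℝ) ^ 200 * Q := by
        refine mul_le_mul_of_nonneg_right ?_ hQ0
        exact mul_le_mul_of_nonneg_left (pow_le_pow_right₀ hH1 (by norm_num)) (by positivity)
    _ = 2 * K * (H : ℝ) ^ 200 * ((H : ℝ) ^ 2 / α) ^ j * (C1 * ε ^ (-p1) + C2 * ε ^ (-p2)) := by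
        rw [hQ]
        ring

end OO

end

section

/-!
# Row D3_XS: the shifted factors
-/

open Complex MeasureTheory Set Filter Topology
open scoped ComplexConjugate

namespace OO

/-- `‖exp (-(1 + i u) x)‖ = exp (-x) ≤ 1` for `x = th c ≥ 0` -/
theorem D3_es_le (j : Fin 6) (th c u : ℝ) (hth : 0 ≤ th) (hc : 0 ≤ c) : ‖es j th c u‖ ≤ 1 := by
  unfold es
  split_ifs with h
  · rw [Complex.norm_exp]
    have h1 : (-((1 + (u : ℂ) * I) * ((th * c : ℝ) : ℂ))).re = -(th * c) := by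
      rw [Complex.neg_re, Complex.re_mul_ofReal]
      simp
    rw [h1]
    have := mul_nonneg hth hc
    exact Real.exp_le_one_iff.2 (by linarith only [this])
  · rw [norm_one]

/-- continuity in `u`: `D_XA_cont` (OO/D_A1.lean) -/
theorem D3_XS_cont (F : Fin 2 → ℕ → ℂ) (j : Fin 6) (A : ℂ) (th c : ℝ) (n : ℕ) :
    Continuous (fun u : ℝ => (es j th c u • XA F j (A + th * (1 + u * I)) 0) n) := by
  have h1 := D_XA_cont F j A th n
  have h2 : Continuous (fun u : ℝ => es j th c u) := by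
    unfold es
    split_ifs
    · fun_prop
    · exact continuous_const
  exact h2.mul h1

/-- copy `D_XA_int` (OO/D_A1.lean): `LZ.wt_eq (th (log n + c))`,
`exp (-(1+iu) th (log n + c)) = exp (-(1+iu) th c) exp (-(1+iu) th log n)`; for `j ≥ 2` it is `D_XA_int` -/
theorem D3_XS_int (F : Fin 2 → ℕ → ℂ) (j : Fin 6) (A : ℂ) (th c : ℝ) (n : ℕ) :
    XS F j A th c n = ∫ u : ℝ, LZ.kk u * (es j th c u • XA F j (A + th * (1 + u * I)) 0) n := by
  by_cases hj : (j : ℕ) < 2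
  · by_cases hn : n = 0
    · subst hn
      simp
    · have hn0 : (n : ℂ) ≠ 0 := Nat.cast_ne_zero.mpr hn
      have e1 : XS F j A th c n = F (fm j) n * (n : ℂ) ^ (-A) * (LZ.wt (th * (Real.log n + c)) : ℂ) := by
        unfold XS
        rw [if_pos hj]
        show (if n = 0 then (0 : ℂ) else _) = _
        rw [if_neg hn]
      rw [e1, LZ.wt_eq, ← integral_const_mul]
      refine integral_congr_ae (Eventually.of_forall fun u => ?_)
      simp only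
      have e2 : (es j th c u • XA F j (A + th * (1 + u * I)) 0) n =
          es j th c u * XA F j (A + th * (1 + u * I)) 0 n := rfl
      rw [e2, D_A1_eval, if_neg hn, zero_mul, D_A1_wt_zero, Complex.cpow_def_of_ne_zero hn0,
        Complex.cpow_def_of_ne_zero hn0]
      have e3 : D_A1_a j n = 1 := by
        unfold D_A1_a
        rw [if_pos hj]
      have e4 : es j th c u = exp (-((1 + u * I) * ((th * c : ℝ) : ℂ))) := by
        unfold es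
        rw [if_pos hj]
      rw [e3, e4]
      have h2 : Complex.log n * (-(A + th * (1 + u * I))) =
          Complex.log n * (-A) + -((1 + u * I) * ((th * Real.log n : ℝ) : ℂ)) := by
        push_cast
        ring
      have h3 : -((1 + u * I) * ((th * (Real.log n + c) : ℝ) : ℂ)) =
          -((1 + u * I) * ((th * c : ℝ) : ℂ)) + -((1 + u * I) * ((th * Real.log n : ℝ) : ℂ)) := by
        push_cast
        ring
      rw [h2, Complex.exp_add]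
      have h4 : Complex.exp (-((1 + (u : ℂ) * I) * ((th * (Real.log n + c) : ℝ) : ℂ))) =
          Complex.exp (-((1 + u * I) * ((th * c : ℝ) : ℂ))) *
            Complex.exp (-((1 + u * I) * ((th * Real.log n : ℝ) : ℂ))) := by
        rw [h3, Complex.exp_add]
      rw [h4]
      push_cast
      ring
  · have e1 : XS F j A th c n = XA F j A th n := by
      unfold XS XA
      rw [if_neg hj, if_neg hj]
    rw [e1, D_XA_int]
    refine integral_congr_ae (Eventually.of_forall fun u => ?_)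
    simp only
    have e2 : (es j th c u • XA F j (A + th * (1 + u * I)) 0) n =
        es j th c u * XA F j (A + th * (1 + u * I)) 0 n := rfl
    rw [e2]
    unfold es
    rw [if_neg hj, one_mul]

/-- the weighted functions -/
theorem D3_XS_le' (F : Fin 2 → ℕ → ℂ) (hF : ∀ i, IsCh (F i)) (j : Fin 6) (A : ℂ) (t c σ : ℝ) (ht : 0 ≤ t)
    (hc : 0 ≤ c) (h : σ ≤ A.re + t) (n : ℕ) : ‖XS F j A t c n‖ ≤ (∫ u : ℝ, ‖LZ.kk u‖) * (n : ℝ) ^ (-σ) := by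
  have hk : Integrable LZ.kk := D_Ck.2.2
  rcases Nat.eq_zero_or_pos n with h0 | h0
  · rw [h0, (XS F j A t c).map_zero, norm_zero]
    exact mul_nonneg (integral_nonneg fun u => norm_nonneg _) (Real.rpow_nonneg (by simp) _)
  · rw [D3_XS_int, ← integral_mul_const]
    refine norm_integral_le_of_norm_le (hk.norm.mul_const _) (Eventually.of_forall fun u => ?_)
    rw [norm_mul]
    refine mul_le_mul_of_nonneg_left ?_ (norm_nonneg _)
    have e2 : (es j t c u • XA F j (A + t * (1 + u * I)) 0) n =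
        es j t c u * XA F j (A + t * (1 + u * I)) 0 n := rfl
    rw [e2, norm_mul]
    have h1 : ‖XA F j (A + t * (1 + u * I)) 0 n‖ ≤ (n : ℝ) ^ (-σ) := by
      refine (D_XA_le F hF j _ 0 le_rfl n).trans
        (Real.rpow_le_rpow_of_exponent_le (by exact_mod_cast h0) ?_)
      have : (A + t * (1 + u * I)).re = A.re + t := by simp
      rw [this]
      exact neg_le_neg h
    calc ‖es j t c u‖ * ‖XA F j (A + t * (1 + u * I)) 0 n‖ ≤ 1 * (n : ℝ) ^ (-σ) :=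
          mul_le_mul (D3_es_le j t c u ht hc) h1 (norm_nonneg _) zero_le_one
      _ = (n : ℝ) ^ (-σ) := one_mul _

/-- copy `D_XA_le'`, `D_PX_le'` (OO/D_A3.lean): `‖XS F j A t c n‖ ≤ (∫ ‖kk‖) n^(-σ)` from `D3_XS_int`, `D3_es_le`, `D_XA_le`;
then `D_prod_le` with `B = ∫ ‖kk‖`, `C = B ^ 6` -/
theorem D3_PXs_le : ∃ C : ℝ, 0 ≤ C ∧ ∀ (F : Fin 2 → ℕ → ℂ) (_ : ∀ i, IsCh (F i)) (A : Fin 6 → ℂ)
    (t c : Fin 6 → ℝ) (_ : ∀ j, 0 ≤ t j) (_ : ∀ j, 0 ≤ c j) (σ : ℝ) (_ : ∀ j, σ ≤ (A j).re + t j) (n : ℕ),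
    ‖PXs F A t c n‖ ≤ C * (n.divisors.card : ℝ) ^ 6 * (n : ℝ) ^ (-σ) := by
  have hB : 0 ≤ ∫ u : ℝ, ‖LZ.kk u‖ := integral_nonneg fun u => norm_nonneg _
  refine ⟨(∫ u : ℝ, ‖LZ.kk u‖) ^ 6, pow_nonneg hB 6, ?_⟩
  intro F hF A t c ht hc σ h n
  have hcd : (Finset.univ : Finset (Fin 6)).card = 6 := by simp
  have key := D_prod_le (Finset.univ) (fun j => XS F j (A j) (t j) (c j)) σ (∫ u : ℝ, ‖LZ.kk u‖) hB
    (fun j _ m => D3_XS_le' F hF j (A j) (t j) (c j) σ (ht j) (hc j) (h j) m) n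
  rw [hcd] at key
  exact key

/-- copy `D_D6_summable` (OO/D_A13.lean) with `D3_PXs_le` -/
theorem D3_summable (F : Fin 2 → ℕ → ℂ) (hF : ∀ i, IsCh (F i)) (hF' : ∀ i, IsCh (cjF F i))
    (L Th v : ℝ) (hL : 0 < L) (s : Fin 2 → ℝ) (hs : ∀ i, s i = 1 ∨ s i = -1)
    (t t' : Fin 6 → ℝ) (ht : Ad L Th s t) (ht' : Ad L Th s t') (c c' : Fin 6 → ℝ) (hc : ∀ j, 0 ≤ c j)
    (hc' : ∀ j, 0 ≤ c' j) :
    Summable (fun n => ‖PXs F (AB L v s) t c n * PXs (cjF F) (AB L v s) t' c' n‖) := by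
  obtain ⟨C, hC, hCb⟩ := D3_PXs_le
  have b1 := hCb F hF (AB L v s) t c (fun j => (ht j).1) hc (1 / 2 + 1 / (2 * L))
    (fun j => (D_AA_re L Th v hL s hs t 0 ht j).2)
  have b2 := hCb (cjF F) hF' (AB L v s) t' c' (fun j => (ht' j).1) hc' (1 / 2 + 1 / (2 * L))
    (fun j => (D_AA_re L Th v hL s hs t' 0 ht' j).2)
  have hsum := (D_div_summable 12 (1 / L) (by positivity)).mul_left (C * C)
  refine Summable.of_nonneg_of_le (fun n => norm_nonneg _) (fun n => ?_) hsum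
  rw [norm_mul]
  refine (mul_le_mul (b1 n) (b2 n) (norm_nonneg _) (by positivity)).trans (le_of_eq ?_)
  have hpow : (n : ℝ) ^ (-(1 / 2 + 1 / (2 * L))) * (n : ℝ) ^ (-(1 / 2 + 1 / (2 * L))) =
      (n : ℝ) ^ (-(1 + 1 / L)) := by
    have h1 : 0 < 1 / (2 * L) := by positivity
    have h2 : 0 < 1 / L := by positivity
    rcases Nat.eq_zero_or_pos n with h0 | h0
    · subst h0
      rw [Nat.cast_zero, Real.zero_rpow (by linarith only [h1]), Real.zero_rpow (by linarith only [h2]), mul_zero]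
    · rw [← Real.rpow_add (by exact_mod_cast h0)]
      congr 1
      field_simp
      ring
  rw [← hpow]
  ring

end OO

end

section

/-!
# Row D3_D5c: the two bounds of the unweighted sums together
-/

open Complex MeasureTheory Set Filter Topology
open scoped ComplexConjugate

namespace OO

/-- Combination of `B_D5` (constant `C`, depends only on `Th`) and `D3_D5` (constant `C2 √L`, `C2` depends on the
families): see `B_D5c`. -/
theorem D3_D5c (Th : ℝ) (hTh : 1 ≤ Th) :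
    ∃ C : ℝ, 0 < C ∧ ∀ F : Fin 2 → ℕ → ℂ, (∀ i, IsCh (F i)) → (∀ i, IsCh (cjF F i)) →
    ∀ K1 D b : ℝ, Bx D b → RBx F K1 D b → ∀ (kap : Fin 2 → Fin 2 → ℝ) (rh : ℝ), 0 < rh → rh ≤ 1 → RL F kap rh →
    ∃ L1 : ℝ, 4 * Th ≤ L1 ∧ ∀ L v : ℝ, L1 ≤ L → |v| ≤ rh / 4 →
    ∀ s : Fin 2 → ℝ, (∀ i, s i = 1 ∨ s i = -1) →
    ∀ t t' u u' : Fin 6 → ℝ, Ad L Th s t → Ad L Th s t' →
      ‖∑' n, PX F (AA L v s t u) 0 n * PX (cjF F) (AA L v s t' u') 0 n‖ ≤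
        C * (∏ j, (1 + |u j|) ^ 13) * (∏ j, (1 + |u' j|) ^ 13) / (L * ‖ww L v‖) := by
  obtain ⟨C, hC, h1⟩ := B_D5 Th hTh
  refine ⟨C, hC, ?_⟩
  intro F hF hF' K1 D b hDb hRB kap rh hrh hrh1 hRL
  obtain ⟨C2, hC2, h2⟩ := D3_D5 F hF hF' K1 D b hDb hRB Th hTh
  have hTh0 : 0 < Th := by linarith only [hTh]
  have p1 : 0 < 4 * (1 + 2 * Th) / rh := by positivity
  have p0 : 0 < C2 * 2 ^ 33 * (4 * Th) / (C * rh) := by positivity
  have p2 : 0 < (C2 * 2 ^ 33 * (4 * Th) / (C * rh)) ^ 2 := by positivity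
  refine ⟨4 * Th + 4 * (1 + 2 * Th) / rh + (C2 * 2 ^ 33 * (4 * Th) / (C * rh)) ^ 2,
    by linarith only [p1, p2], ?_⟩
  intro L v hL hv s hs t t' u u' ht ht'
  have hL4 : 4 * Th ≤ L := by linarith only [hL, p1, p2]
  have hL0 : 0 < L := by linarith only [hL4, hTh0]
  have hLa : 4 * (1 + 2 * Th) / rh ≤ L := by linarith only [hL, p2, hTh0]
  have hLb : C2 * 2 ^ 33 * (4 * Th) / (C * rh) ≤ √L := by
    have h : (C2 * 2 ^ 33 * (4 * Th) / (C * rh)) ^ 2 ≤ L := by linarith only [hL, p1, hTh0]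
    exact Real.le_sqrt_of_sq_le h
  have hLs : 0 ≤ √L := Real.sqrt_nonneg L
  have hLs2 : √L * √L = L := Real.mul_self_sqrt hL0.le
  have hww : 0 < ‖ww L v‖ := D_A10_ww L v hL0
  have hLw : 0 < L * ‖ww L v‖ := mul_pos hL0 hww
  obtain ⟨U, hU⟩ : ∃ U : ℝ, U = rh * L / (4 * Th) := ⟨_, rfl⟩
  have hU0 : 0 ≤ U := by rw [hU]; positivity
  have hUT : Th / L * U = rh / 4 := by rw [hU]; field_simp
  have ha : (1 + 2 * Th) / L ≤ rh / 4 := by
    rw [div_le_iff₀ hrh] at hLa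
    rw [div_le_iff₀ hL0]
    linarith only [hLa]
  have hb : C2 * 2 ^ 33 * √L ≤ C * U := by
    rw [div_le_iff₀ (mul_pos hC hrh)] at hLb
    rw [hU, mul_div_assoc', le_div_iff₀ (by positivity)]
    have h3 := mul_le_mul_of_nonneg_right hLb hLs
    have h4 : √L * (C * rh) * √L = C * (rh * L) := by
      calc √L * (C * rh) * √L = C * rh * (√L * √L) := by ring
        _ = C * (rh * L) := by rw [hLs2]; ring
    rw [h4] at h3
    linarith only [h3]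
  have hP := B_13a_nn u
  have hP' := B_13a_nn u'
  by_cases hall : (∀ j, |u j| ≤ U) ∧ (∀ j, |u' j| ≤ U)
  · have hom : ∀ j k, ‖AA L v s t u j + AA L v s t' u' k - 1‖ ≤ rh := by
      intro j k
      refine (B_om_le L Th v hL0 hTh0.le s hs t t' u u' ht ht' j k).trans ?_
      have h3 : Th / L * (2 + |u j| + |u' k|) ≤ Th / L * (2 + U + U) := by
        apply mul_le_mul_of_nonneg_left _ (by positivity)
        linarith only [hall.1 j, hall.2 k]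
      have h4 : Th / L * (2 + U + U) = 2 * Th / L + rh / 2 := by
        have : Th / L * (2 + U + U) = 2 * Th / L + 2 * (Th / L * U) := by ring
        rw [this, hUT]
        ring
      have h5 : 1 / L + 2 * Th / L = (1 + 2 * Th) / L := by ring
      linarith only [h3, h4, h5, ha, hv]
    refine (h1 F hF hF' kap rh hRL L v hL4 s hs t t' u u' ht ht' hom).trans ?_
    apply div_le_div_of_nonneg_right _ hLw.le
    rw [mul_assoc, mul_assoc]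
    apply mul_le_mul_of_nonneg_left _ hC.le
    exact mul_le_mul (B_13a_le u) (B_13a_le u') hP' (hP.trans (B_13a_le u))
  · refine (h2 L v hL4 s hs t t' u u' ht ht').trans ?_
    apply div_le_div_of_nonneg_right _ hLw.le
    have hv1 : (1 + |v|) ^ 33 ≤ 2 ^ 33 := by
      apply pow_le_pow_left₀ (by positivity)
      linarith only [hv, hrh1]
    have key : U * ((∏ j, (1 + |u j|) ^ 12) * ∏ j, (1 + |u' j|) ^ 12) ≤
        (∏ j, (1 + |u j|) ^ 13) * ∏ j, (1 + |u' j|) ^ 13 := by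
      rcases not_and_or.1 hall with h | h
      · push Not at h
        obtain ⟨j, hj⟩ := h
        calc U * ((∏ j, (1 + |u j|) ^ 12) * ∏ j, (1 + |u' j|) ^ 12)
            = (U * ∏ j, (1 + |u j|) ^ 12) * ∏ j, (1 + |u' j|) ^ 12 := by ring
          _ ≤ (∏ j, (1 + |u j|) ^ 13) * ∏ j, (1 + |u' j|) ^ 13 :=
              mul_le_mul (B_13a_ge u U j hj.le) (B_13a_le u') hP' (hP.trans (B_13a_le u))
      · push Not at h
        obtain ⟨j, hj⟩ := h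
        calc U * ((∏ j, (1 + |u j|) ^ 12) * ∏ j, (1 + |u' j|) ^ 12)
            = (∏ j, (1 + |u j|) ^ 12) * (U * ∏ j, (1 + |u' j|) ^ 12) := by ring
          _ ≤ (∏ j, (1 + |u j|) ^ 13) * ∏ j, (1 + |u' j|) ^ 13 :=
              mul_le_mul (B_13a_le u) (B_13a_ge u' U j hj.le) (mul_nonneg hU0 hP') (hP.trans (B_13a_le u))
    have hPP := mul_nonneg hP hP'
    calc C2 * (∏ j, (1 + |u j|) ^ 12) * (∏ j, (1 + |u' j|) ^ 12) * (1 + |v|) ^ 33 * √L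
        = C2 * (1 + |v|) ^ 33 * √L * ((∏ j, (1 + |u j|) ^ 12) * ∏ j, (1 + |u' j|) ^ 12) := by ring
      _ ≤ C2 * 2 ^ 33 * √L * ((∏ j, (1 + |u j|) ^ 12) * ∏ j, (1 + |u' j|) ^ 12) :=
          mul_le_mul_of_nonneg_right (mul_le_mul_of_nonneg_right (mul_le_mul_of_nonneg_left hv1 hC2.le) hLs) hPP
      _ ≤ C * U * ((∏ j, (1 + |u j|) ^ 12) * ∏ j, (1 + |u' j|) ^ 12) :=
          mul_le_mul_of_nonneg_right hb hPP
      _ = C * (U * ((∏ j, (1 + |u j|) ^ 12) * ∏ j, (1 + |u' j|) ^ 12)) := by ring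
      _ ≤ C * ((∏ j, (1 + |u j|) ^ 13) * ∏ j, (1 + |u' j|) ^ 13) := mul_le_mul_of_nonneg_left key hC.le
      _ = C * (∏ j, (1 + |u j|) ^ 13) * (∏ j, (1 + |u' j|) ^ 13) := by ring

end OO

end

section

/-!
# Row D3_D6: the weighted sums, global bound
-/

open Complex MeasureTheory Set Filter Topology
open scoped ComplexConjugate

namespace OO

theorem D3_prod_smul (e : Fin 6 → ℂ) (X : Fin 6 → ArithmeticFunction ℂ) :
    ∏ j, (e j • X j) = (∏ j, e j) • ∏ j, X j := by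
  simp only [Fin.prod_univ_six, smul_mul_smul_comm]

/-- `∏ j, (e j • X j) = (∏ j, e j) • ∏ j, X j` and `‖∏ e j‖ ≤ 1`: scalars of modulus at most one can
be dropped -/
theorem D3_drop (e : Fin 6 → ℂ) (he : ∀ j, ‖e j‖ ≤ 1) (X : Fin 6 → ArithmeticFunction ℂ) (G : ArithmeticFunction ℂ) :
    ‖∑' n, (∏ j, (e j • X j)) n * G n‖ ≤ ‖∑' n, (∏ j, X j) n * G n‖ := by
  have h1 : ∀ n, (∏ j, (e j • X j)) n * G n = (∏ j, e j) * ((∏ j, X j) n * G n) := by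
    intro n
    rw [D3_prod_smul]
    show (∏ j, e j) * (∏ j, X j) n * G n = _
    ring
  simp only [h1]
  rw [tsum_mul_left, norm_mul]
  refine mul_le_of_le_one_left (norm_nonneg _) ?_
  rw [norm_prod]
  exact Finset.prod_le_one (fun j _ => norm_nonneg _) (fun j _ => he j)

/-- the bound for one unweighted factor -/
theorem D3_a_le (F : Fin 2 → ℕ → ℂ) (hF : ∀ i, IsCh (F i)) (L Th v : ℝ) (hL : 0 < L)
    (s : Fin 2 → ℝ) (hs : ∀ i, s i = 1 ∨ s i = -1) (t c : Fin 6 → ℝ) (ht : Ad L Th s t) (hc : ∀ j, 0 ≤ c j)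
    (j : Fin 6) (u : ℝ) (n : ℕ) :
    ‖(es j (t j) (c j) u • XA F j (AB L v s j + t j * (1 + u * I)) 0) n‖ ≤ (n : ℝ) ^ (-(1 / 2 + 1 / (2 * L))) := by
  have e2 : (es j (t j) (c j) u • XA F j (AB L v s j + t j * (1 + u * I)) 0) n =
      es j (t j) (c j) u * XA F j (AB L v s j + t j * (1 + u * I)) 0 n := rfl
  rw [e2, norm_mul]
  exact (mul_le_of_le_one_left (norm_nonneg _) (D3_es_le j (t j) (c j) u (ht j).1 (hc j))).trans
    (D_A13_a F hF L Th v hL s hs t ht j u n)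

/-- copy `D_D6` (OO/D_A13.lean): `D_iter` twice with `a j u = es j (t j) (c j) u • XA F j (AB L v s j + t j (1 + u I)) 0`,
`a0 j = XS F j (AB L v s j) (t j) (c j)`; `D3_XS_cont`, `D3_XS_int`, `D_A13_a` and `D3_es_le`; the hypothesis `h` of `D_iter` from
`D3_drop` and `D3_D5`; second step with `G = PXs F (AB L v s) t c`, `D3_PXs_le`. Constant `C (Ck^12 + 1)`. -/
theorem D3_D6 (F : Fin 2 → ℕ → ℂ) (hF : ∀ i, IsCh (F i)) (hF' : ∀ i, IsCh (cjF F i)) (K1 D b : ℝ)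
    (hb : Bx D b) (hRB : RBx F K1 D b) (Th : ℝ) (hTh : 1 ≤ Th) :
    ∃ C : ℝ, 0 < C ∧ ∀ L v : ℝ, 4 * Th ≤ L → ∀ s : Fin 2 → ℝ, (∀ i, s i = 1 ∨ s i = -1) →
    ∀ t t' c c' : Fin 6 → ℝ, Ad L Th s t → Ad L Th s t' → (∀ j, 0 ≤ c j) → (∀ j, 0 ≤ c' j) →
      ‖∑' n, PXs F (AB L v s) t c n * PXs (cjF F) (AB L v s) t' c' n‖ ≤
        C * (1 + |v|) ^ 33 * √L / (L * ‖ww L v‖) := by
  obtain ⟨C, hC, hD5⟩ := D3_D5 F hF hF' K1 D b hb hRB Th hTh
  obtain ⟨C2, hC2, hPX⟩ := D3_PXs_le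
  have hCk : 0 ≤ Ck := D_Ck.1
  refine ⟨C * (Ck ^ 12 + 1), by positivity, ?_⟩
  intro L v hLv s hs t t' c c' ht ht' hc hc'
  have hL : 0 < L := by linarith only [hLv, hTh]
  have hww : 0 < ‖ww L v‖ := (D_ww L v hL).1
  have hσ : 1 / 2 < 1 / 2 + 1 / (2 * L) := by
    have : 0 < 1 / (2 * L) := by positivity
    linarith only [this]
  obtain ⟨R, hR⟩ : ∃ R : ℝ, R = C * (1 + |v|) ^ 33 * √L / (L * ‖ww L v‖) := ⟨_, rfl⟩
  have hR0 : 0 ≤ R := by rw [hR]; positivity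
  -- step 1
  have step1 : ∀ u' : Fin 6 → ℝ,
      ‖∑' n, PXs F (AB L v s) t c n * PX (cjF F) (AA L v s t' u') 0 n‖ ≤
        (R * ∏ j, (1 + |u' j|) ^ 12) * Ck ^ 6 := by
    intro u'
    have hP : 0 ≤ ∏ j, (1 + |u' j|) ^ 12 := Finset.prod_nonneg fun j _ => by positivity
    have := D_iter (fun j u => es j (t j) (c j) u • XA F j (AB L v s j + t j * (1 + u * I)) 0)
      (fun j => XS F j (AB L v s j) (t j) (c j)) (PX (cjF F) (AA L v s t' u') 0) (1 / 2 + 1 / (2 * L)) 1 hσ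
      (fun j n => D3_XS_cont F j (AB L v s j) (t j) (c j) n)
      (fun j n => D3_XS_int F j (AB L v s j) (t j) (c j) n)
      (fun j u n => D3_a_le F hF L Th v hL s hs t c ht hc j u n)
      (fun n => by
        rw [one_mul]
        exact D_PX_le (cjF F) hF' _ 0 (fun _ => le_rfl) _ (fun j => (D_AA_re L Th v hL s hs t' u' ht' j).1) n)
      (R * ∏ j, (1 + |u' j|) ^ 12) (by positivity)
      (fun u => by
        refine (D3_drop (fun j => es j (t j) (c j) (u j)) (fun j => D3_es_le j (t j) (c j) (u j) (ht j).1 (hc j))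
          (fun j => XA F j (AB L v s j + t j * (1 + u j * I)) 0) _).trans ?_
        have h5 := hD5 L v hLv s hs t t' u u' ht ht'
        refine le_trans (le_of_eq ?_) (h5.trans (le_of_eq ?_))
        · rfl
        · rw [hR]; ring)
    exact this
  -- step 2
  have step2 := D_iter (fun j u => es j (t' j) (c' j) u • XA (cjF F) j (AB L v s j + t' j * (1 + u * I)) 0)
      (fun j => XS (cjF F) j (AB L v s j) (t' j) (c' j)) (PXs F (AB L v s) t c) (1 / 2 + 1 / (2 * L)) C2 hσ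
      (fun j n => D3_XS_cont (cjF F) j (AB L v s j) (t' j) (c' j) n)
      (fun j n => D3_XS_int (cjF F) j (AB L v s j) (t' j) (c' j) n)
      (fun j u n => D3_a_le (cjF F) hF' L Th v hL s hs t' c' ht' hc' j u n)
      (fun n => hPX F hF _ _ _ (fun j => (ht j).1) hc _ (fun j => (D_AA_re L Th v hL s hs t 0 ht j).2) n)
      (R * Ck ^ 6) (by positivity)
      (fun u' => by
        refine (D3_drop (fun j => es j (t' j) (c' j) (u' j)) (fun j => D3_es_le j (t' j) (c' j) (u' j) (ht' j).1 (hc' j))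
          (fun j => XA (cjF F) j (AB L v s j + t' j * (1 + u' j * I)) 0) _).trans ?_
        have h5 := step1 u'
        refine le_trans (le_of_eq ?_) (h5.trans (le_of_eq ?_))
        · refine congrArg norm (tsum_congr fun n => ?_)
          rw [mul_comm]
          rfl
        · ring)
  have hfin : ‖∑' n, PXs F (AB L v s) t c n * PXs (cjF F) (AB L v s) t' c' n‖ ≤ R * Ck ^ 6 * Ck ^ 6 := by
    refine le_trans (le_of_eq ?_) step2
    refine congrArg norm (tsum_congr fun n => ?_)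
    rw [mul_comm]
    rfl
  refine hfin.trans ?_
  calc R * Ck ^ 6 * Ck ^ 6 = R * Ck ^ 12 := by ring
    _ ≤ R * (Ck ^ 12 + 1) := mul_le_mul_of_nonneg_left (by linarith only) hR0
    _ = C * (Ck ^ 12 + 1) * (1 + |v|) ^ 33 * √L / (L * ‖ww L v‖) := by rw [hR]; ring

end OO

end

section

/-!
# Row D3_D6b: the weighted sums near the real axis
-/

open Complex MeasureTheory Set Filter Topology
open scoped ComplexConjugate

namespace OO

/-- copy `B_D6` (OO/B_13b.lean) with `D3_D5c`, `B_iter`, and `a`, `a0` as in `D3_D6` (`D3_drop`) -/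
theorem D3_D6b (Th : ℝ) (hTh : 1 ≤ Th) :
    ∃ C : ℝ, 0 < C ∧ ∀ F : Fin 2 → ℕ → ℂ, (∀ i, IsCh (F i)) → (∀ i, IsCh (cjF F i)) →
    ∀ K1 D b : ℝ, Bx D b → RBx F K1 D b → ∀ (kap : Fin 2 → Fin 2 → ℝ) (rh : ℝ), 0 < rh → rh ≤ 1 → RL F kap rh →
    ∃ L1 : ℝ, 4 * Th ≤ L1 ∧ ∀ L v : ℝ, L1 ≤ L → |v| ≤ rh / 4 →
    ∀ s : Fin 2 → ℝ, (∀ i, s i = 1 ∨ s i = -1) →
    ∀ t t' c c' : Fin 6 → ℝ, Ad L Th s t → Ad L Th s t' → (∀ j, 0 ≤ c j) → (∀ j, 0 ≤ c' j) →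
      ‖∑' n, PXs F (AB L v s) t c n * PXs (cjF F) (AB L v s) t' c' n‖ ≤ C / (L * ‖ww L v‖) := by
  obtain ⟨C, hC, hD5a⟩ := D3_D5c Th hTh
  have hCl : 0 ≤ Cl := B_Cl.1
  refine ⟨C * (Cl ^ 12 + 1), mul_pos hC (add_pos_of_nonneg_of_pos (pow_nonneg hCl _) one_pos), ?_⟩
  intro F hF hF' K1 D b hDb hRB kap rh hrh hrh1 hRL
  obtain ⟨L1, hL1, hD5⟩ := hD5a F hF hF' K1 D b hDb hRB kap rh hrh hrh1 hRL
  obtain ⟨C2, hC2, hPX⟩ := D3_PXs_le
  refine ⟨L1, hL1, ?_⟩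
  intro L v hLv hv s hs t t' c c' ht ht' hc hc'
  have hL : 0 < L := by linarith only [hTh, hL1, hLv]
  have hww : 0 < ‖ww L v‖ := (D_ww L v hL).1
  have hσ : 1 / 2 < 1 / 2 + 1 / (2 * L) := by
    have : 0 < 1 / (2 * L) := by positivity
    linarith only [this]
  obtain ⟨R, hR⟩ : ∃ R : ℝ, R = C / (L * ‖ww L v‖) := ⟨_, rfl⟩
  have hR0 : 0 ≤ R := by rw [hR]; exact (div_pos hC (mul_pos hL hww)).le
  -- step 1
  have step1 : ∀ u' : Fin 6 → ℝ,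
      ‖∑' n, PXs F (AB L v s) t c n * PX (cjF F) (AA L v s t' u') 0 n‖ ≤
        (R * ∏ j, (1 + |u' j|) ^ 13) * Cl ^ 6 := by
    intro u'
    have hP : 0 ≤ ∏ j, (1 + |u' j|) ^ 13 :=
      Finset.prod_nonneg fun j _ => pow_nonneg (add_nonneg zero_le_one (abs_nonneg _)) _
    have := B_iter (fun j u => es j (t j) (c j) u • XA F j (AB L v s j + t j * (1 + u * I)) 0)
      (fun j => XS F j (AB L v s j) (t j) (c j)) (PX (cjF F) (AA L v s t' u') 0) (1 / 2 + 1 / (2 * L)) 1 hσ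
      (fun j n => D3_XS_cont F j (AB L v s j) (t j) (c j) n)
      (fun j n => D3_XS_int F j (AB L v s j) (t j) (c j) n)
      (fun j u n => D3_a_le F hF L Th v hL s hs t c ht hc j u n)
      (fun n => by
        rw [one_mul]
        exact D_PX_le (cjF F) hF' _ 0 (fun _ => le_rfl) _ (fun j => (D_AA_re L Th v hL s hs t' u' ht' j).1) n)
      (R * ∏ j, (1 + |u' j|) ^ 13) (mul_nonneg hR0 hP)
      (fun u => by
        refine (D3_drop (fun j => es j (t j) (c j) (u j)) (fun j => D3_es_le j (t j) (c j) (u j) (ht j).1 (hc j))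
          (fun j => XA F j (AB L v s j + t j * (1 + u j * I)) 0) _).trans ?_
        have h5 := hD5 L v hLv hv s hs t t' u u' ht ht'
        refine le_trans (le_of_eq ?_) (h5.trans (le_of_eq ?_))
        · rfl
        · rw [hR]; ring)
    exact this
  -- step 2
  have step2 := B_iter (fun j u => es j (t' j) (c' j) u • XA (cjF F) j (AB L v s j + t' j * (1 + u * I)) 0)
      (fun j => XS (cjF F) j (AB L v s j) (t' j) (c' j)) (PXs F (AB L v s) t c) (1 / 2 + 1 / (2 * L)) C2 hσ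
      (fun j n => D3_XS_cont (cjF F) j (AB L v s j) (t' j) (c' j) n)
      (fun j n => D3_XS_int (cjF F) j (AB L v s j) (t' j) (c' j) n)
      (fun j u n => D3_a_le (cjF F) hF' L Th v hL s hs t' c' ht' hc' j u n)
      (fun n => hPX F hF _ _ _ (fun j => (ht j).1) hc _ (fun j => (D_AA_re L Th v hL s hs t 0 ht j).2) n)
      (R * Cl ^ 6) (mul_nonneg hR0 (pow_nonneg hCl _))
      (fun u' => by
        refine (D3_drop (fun j => es j (t' j) (c' j) (u' j)) (fun j => D3_es_le j (t' j) (c' j) (u' j) (ht' j).1 (hc' j))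
          (fun j => XA (cjF F) j (AB L v s j + t' j * (1 + u' j * I)) 0) _).trans ?_
        have h5 := step1 u'
        refine le_trans (le_of_eq ?_) (h5.trans (le_of_eq ?_))
        · refine congrArg norm (tsum_congr fun n => ?_)
          rw [mul_comm]
          rfl
        · ring)
  have hfin : ‖∑' n, PXs F (AB L v s) t c n * PXs (cjF F) (AB L v s) t' c' n‖ ≤ R * Cl ^ 6 * Cl ^ 6 := by
    refine le_trans (le_of_eq ?_) step2
    refine congrArg norm (tsum_congr fun n => ?_)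
    rw [mul_comm]
    rfl
  refine hfin.trans ?_
  calc R * Cl ^ 6 * Cl ^ 6 = R * Cl ^ 12 := by ring
    _ ≤ R * (Cl ^ 12 + 1) := mul_le_mul_of_nonneg_left (by linarith only) hR0
    _ = C * (Cl ^ 12 + 1) / (L * ‖ww L v‖) := by rw [hR]; ring

end OO

end

section

/-!
# Row D3_D7: finite combinations of shifted weights
-/

open Complex MeasureTheory Set Filter Topology
open scoped ComplexConjugate

namespace OO

theorem D3_PXs_eq (F : Fin 2 → ℕ → ℂ) (A : Fin 6 → ℂ) (x y m a b : ℝ) :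
    PXs F A ![x, y, m, m, m, m] ![a, b, 0, 0, 0, 0] = (LAs (F 0) (A 0) x a * LAs (F 1) (A 1) y b) *
      ((MA (F 0) (A 2) m * MA (F 1) (A 3) m) * (MA (F 0) (A 4) m * MA (F 1) (A 5) m)) := by
  simp only [PXs, Fin.prod_univ_six, XS, fm]
  simp
  ring

/-- copy `D_PL_expand` (OO/D_A14.lean) -/
theorem D3_PLs_expand (F : Fin 2 → ℕ → ℂ) (A : Fin 6 → ℂ) {ι0 ι1 : Type} [Fintype ι0] [Fintype ι1]
    (c0 t0 sh0 : ι0 → ℝ) (c1 t1 sh1 : ι1 → ℝ) (m : ℝ) (n : ℕ) :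
    PLs F A c0 t0 sh0 c1 t1 sh1 m n =
      ∑ i0, ∑ i1, (c0 i0 : ℂ) * (c1 i1 : ℂ) *
        PXs F A ![t0 i0, t1 i1, m, m, m, m] ![sh0 i0, sh1 i1, 0, 0, 0, 0] n := by
  have h : PLs F A c0 t0 sh0 c1 t1 sh1 m =
      ∑ i0, ∑ i1, ((c0 i0 : ℂ) * (c1 i1 : ℂ)) •
        PXs F A ![t0 i0, t1 i1, m, m, m, m] ![sh0 i0, sh1 i1, 0, 0, 0, 0] := by
    unfold PLs LCs
    rw [Finset.sum_mul_sum, Finset.sum_mul]
    refine Finset.sum_congr rfl fun i _ => ?_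
    rw [Finset.sum_mul]
    refine Finset.sum_congr rfl fun j _ => ?_
    rw [D3_PXs_eq, smul_mul_smul_comm, smul_mul_assoc]
  rw [h, D_A14_sum_apply]
  refine Finset.sum_congr rfl fun i _ => ?_
  rw [D_A14_sum_apply]
  refine Finset.sum_congr rfl fun j _ => ?_
  rfl

/-- the six exponents are admissible -/
theorem D3_Ad (L Th m : ℝ) (hL0 : 0 < L) (s : Fin 2 → ℝ) {ι0 ι1 : Type} (t0 : ι0 → ℝ) (t1 : ι1 → ℝ)
    (h0 : ∀ i, 0 ≤ t0 i ∧ t0 i ≤ Th ∧ (s 0 = -1 → 1 ≤ t0 i))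
    (h1 : ∀ i, 0 ≤ t1 i ∧ t1 i ≤ Th ∧ (s 1 = -1 → 1 ≤ t1 i)) (hm : 1 / L ≤ m) (hm' : m ≤ Th / L)
    (p : ι0 × ι1) : Ad L Th s ![t0 p.1 / L, t1 p.2 / L, m, m, m, m] := by
  have hm0 : 0 ≤ m := le_trans (by positivity) hm
  have a0 := h0 p.1
  have a1 := h1 p.2
  intro j
  fin_cases j
  · refine ⟨div_nonneg a0.1 hL0.le, div_le_div_of_nonneg_right a0.2.1 hL0.le, fun h => ?_⟩
    exact div_le_div_of_nonneg_right (a0.2.2 (by simpa [sg, sgn] using h)) hL0.le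
  · refine ⟨div_nonneg a1.1 hL0.le, div_le_div_of_nonneg_right a1.2.1 hL0.le, fun h => ?_⟩
    exact div_le_div_of_nonneg_right (a1.2.2 (by simpa [sg, sgn] using h)) hL0.le
  · exact ⟨hm0, hm', fun _ => hm⟩
  · exact ⟨hm0, hm', fun _ => hm⟩
  · exact ⟨hm0, hm', fun _ => hm⟩
  · exact ⟨hm0, hm', fun _ => hm⟩

/-- the six shifts are nonnegative -/
theorem D3_shn {ι0 ι1 : Type} (sh0 : ι0 → ℝ) (sh1 : ι1 → ℝ) (h0 : ∀ i, 0 ≤ sh0 i) (h1 : ∀ i, 0 ≤ sh1 i)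
    (p : ι0 × ι1) (j : Fin 6) : 0 ≤ (![sh0 p.1, sh1 p.2, 0, 0, 0, 0] : Fin 6 → ℝ) j := by
  fin_cases j
  · exact h0 p.1
  · exact h1 p.2
  · exact le_rfl
  · exact le_rfl
  · exact le_rfl
  · exact le_rfl

/-- `D3_PLs_expand` over pairs -/
theorem D3_PLs_pairs (L v m : ℝ) (s : Fin 2 → ℝ) {ι0 ι1 : Type} [Fintype ι0] [Fintype ι1]
    (c0 t0 sh0 : ι0 → ℝ) (c1 t1 sh1 : ι1 → ℝ) (G : Fin 2 → ℕ → ℂ) (n : ℕ) :
      PLs G (AB L v s) c0 t0 sh0 c1 t1 sh1 m n =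
        ∑ p : ι0 × ι1, ((c0 p.1 * c1 p.2 : ℝ) : ℂ) *
          PXs G (AB L v s) ![t0 p.1, t1 p.2, m, m, m, m] ![sh0 p.1, sh1 p.2, 0, 0, 0, 0] n := by
  rw [D3_PLs_expand, Fintype.sum_prod_type]
  refine Finset.sum_congr rfl fun i _ => Finset.sum_congr rfl fun j _ => ?_
  push_cast
  rfl

/-- copy `D_D7` (OO/D_A14.lean): `D3_PLs_expand`, `D_A14_prod`, `D3_D6`, `D3_summable` -/
theorem D3_D7 (F : Fin 2 → ℕ → ℂ) (hF : ∀ i, IsCh (F i)) (hF' : ∀ i, IsCh (cjF F i)) (K1 D b : ℝ)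
    (hb : Bx D b) (hRB : RBx F K1 D b) (Th : ℝ) (hTh : 1 ≤ Th) {ι0 ι1 : Type} [Fintype ι0] [Fintype ι1]
    (s : Fin 2 → ℝ) (hs : ∀ i, s i = 1 ∨ s i = -1)
    (c0 t0 : ι0 → ℝ) (c1 t1 : ι1 → ℝ)
    (h0 : ∀ i, 0 ≤ t0 i ∧ t0 i ≤ Th ∧ (s 0 = -1 → 1 ≤ t0 i))
    (h1 : ∀ i, 0 ≤ t1 i ∧ t1 i ≤ Th ∧ (s 1 = -1 → 1 ≤ t1 i)) :
    ∃ C : ℝ, 0 < C ∧ ∀ (sh0 : ι0 → ℝ) (sh1 : ι1 → ℝ), (∀ i, 0 ≤ sh0 i) → (∀ i, 0 ≤ sh1 i) →
    ∀ L v m : ℝ, 4 * Th ≤ L → 1 / L ≤ m → m ≤ Th / L →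
      ‖∑' n, PLs F (AB L v s) c0 (fun i => t0 i / L) sh0 c1 (fun i => t1 i / L) sh1 m n *
          PLs (cjF F) (AB L v s) c0 (fun i => t0 i / L) sh0 c1 (fun i => t1 i / L) sh1 m n‖ ≤
        C * (1 + |v|) ^ 33 * √L / (L * ‖ww L v‖) := by
  obtain ⟨C, hC, hD6⟩ := D3_D6 F hF hF' K1 D b hb hRB Th hTh
  refine ⟨C * (∑ p : ι0 × ι1, |c0 p.1 * c1 p.2|) ^ 2 + 1, by positivity,
    fun sh0 sh1 hsh0 hsh1 L v m hL hm hm' => ?_⟩
  have hL0 : 0 < L := by linarith only [hL, hTh]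
  have hAd := D3_Ad L Th m hL0 s t0 t1 h0 h1 hm hm'
  have hsn := D3_shn sh0 sh1 hsh0 hsh1
  simp only [D3_PLs_pairs L v m s c0 (fun i => t0 i / L) sh0 c1 (fun i => t1 i / L) sh1]
  refine (D_A14_prod (fun p : ι0 × ι1 => c0 p.1 * c1 p.2) _ _ _ (fun p p' => ?_)
    (fun p p' => hD6 L v hL s hs _ _ _ _ (hAd p) (hAd p') (hsn p) (hsn p'))).trans ?_
  · exact (D3_summable F hF hF' L Th v hL0 s hs _ _ (hAd p) (hAd p') _ _ (hsn p) (hsn p')).of_norm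
  · have h2 : 0 ≤ (1 + |v|) ^ 33 * √L / (L * ‖ww L v‖) := by positivity
    have h3 : (C * (∑ p : ι0 × ι1, |c0 p.1 * c1 p.2|) ^ 2 + 1) * (1 + |v|) ^ 33 * √L / (L * ‖ww L v‖) =
      (∑ p : ι0 × ι1, |c0 p.1 * c1 p.2|) ^ 2 * (C * (1 + |v|) ^ 33 * √L / (L * ‖ww L v‖)) +
      (1 + |v|) ^ 33 * √L / (L * ‖ww L v‖) := by ring
    rw [h3]
    linarith only [h2]

/-- copy `B_D7` (OO/B_14.lean) with `D3_D6b` -/
theorem D3_D7b (Th : ℝ) (hTh : 1 ≤ Th) {ι0 ι1 : Type} [Fintype ι0] [Fintype ι1]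
    (s : Fin 2 → ℝ) (hs : ∀ i, s i = 1 ∨ s i = -1)
    (c0 t0 : ι0 → ℝ) (c1 t1 : ι1 → ℝ)
    (h0 : ∀ i, 0 ≤ t0 i ∧ t0 i ≤ Th ∧ (s 0 = -1 → 1 ≤ t0 i))
    (h1 : ∀ i, 0 ≤ t1 i ∧ t1 i ≤ Th ∧ (s 1 = -1 → 1 ≤ t1 i)) :
    ∃ C : ℝ, 0 < C ∧ ∀ F : Fin 2 → ℕ → ℂ, (∀ i, IsCh (F i)) → (∀ i, IsCh (cjF F i)) →
    ∀ K1 D b : ℝ, Bx D b → RBx F K1 D b → ∀ (kap : Fin 2 → Fin 2 → ℝ) (rh : ℝ), 0 < rh → rh ≤ 1 → RL F kap rh →
    ∃ L1 : ℝ, 4 * Th ≤ L1 ∧ ∀ (sh0 : ι0 → ℝ) (sh1 : ι1 → ℝ), (∀ i, 0 ≤ sh0 i) → (∀ i, 0 ≤ sh1 i) →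
    ∀ L v m : ℝ, L1 ≤ L → |v| ≤ rh / 4 → 1 / L ≤ m → m ≤ Th / L →
      ‖∑' n, PLs F (AB L v s) c0 (fun i => t0 i / L) sh0 c1 (fun i => t1 i / L) sh1 m n *
          PLs (cjF F) (AB L v s) c0 (fun i => t0 i / L) sh0 c1 (fun i => t1 i / L) sh1 m n‖ ≤
        C / (L * ‖ww L v‖) := by
  obtain ⟨C, hC, hD6⟩ := D3_D6b Th hTh
  refine ⟨C * (∑ p : ι0 × ι1, |c0 p.1 * c1 p.2|) ^ 2 + 1, by positivity,
    fun F hF hF' K1 D b hDb hRB kap rh hrh hrh1 hRL => ?_⟩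
  obtain ⟨L1, hL1, hD⟩ := hD6 F hF hF' K1 D b hDb hRB kap rh hrh hrh1 hRL
  refine ⟨L1, hL1, fun sh0 sh1 hsh0 hsh1 L v m hL hv hm hm' => ?_⟩
  have hL0 : 0 < L := by linarith only [hL, hL1, hTh]
  have hAd := D3_Ad L Th m hL0 s t0 t1 h0 h1 hm hm'
  have hsn := D3_shn sh0 sh1 hsh0 hsh1
  simp only [D3_PLs_pairs L v m s c0 (fun i => t0 i / L) sh0 c1 (fun i => t1 i / L) sh1]
  refine (D_A14_prod (fun p : ι0 × ι1 => c0 p.1 * c1 p.2) _ _ _ (fun p p' => ?_)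
    (fun p p' => hD L v hL hv s hs _ _ _ _ (hAd p) (hAd p') (hsn p) (hsn p'))).trans ?_
  · exact (D3_summable F hF hF' L Th v hL0 s hs _ _ (hAd p) (hAd p') _ _ (hsn p) (hsn p')).of_norm
  · have h2 : 0 ≤ 1 / (L * ‖ww L v‖) := by positivity
    have h3 : (C * (∑ p : ι0 × ι1, |c0 p.1 * c1 p.2|) ^ 2 + 1) / (L * ‖ww L v‖) =
      (∑ p : ι0 × ι1, |c0 p.1 * c1 p.2|) ^ 2 * (C / (L * ‖ww L v‖)) +
      1 / (L * ‖ww L v‖) := by ring
    rw [h3]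
    linarith only [h2]

end OO

end
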