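import Pool.Agent.Lib.MP_0f5a55_nt.OM.K000
import Pool.Agent.Lib.MP_0f5a55_nt.OM.K027

section
/-! Row W04 (about 170 lines): Dirichlet series with bounded partial sums, near `Re s = 1`. -/

set_option autoImplicit false

namespace Pool.Agent.Lib.MP_d9bc60_nt.UV

open Finset

/-- the weight `(log y)^j y^{-s}` -/
private noncomputable def w4F (j : ℕ) (s : ℂ) (y : ℝ) : ℂ :=
  ((Real.log y : ℝ) : ℂ) ^ j * (y : ℂ) ^ (-s)

private noncomputable def w4F' (j : ℕ) (s : ℂ) (y : ℝ) : ℂ :=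
  ((j : ℂ) * ((Real.log y : ℝ) : ℂ) ^ (j - 1) * ((y⁻¹ : ℝ) : ℂ)) * (y : ℂ) ^ (-s) +
    ((Real.log y : ℝ) : ℂ) ^ j * (-s * (y : ℂ) ^ (-s - 1))

private lemma w4_deriv (j : ℕ) (s : ℂ) {y : ℝ} (hy : 0 < y) :
    HasDerivAt (w4F j s) (w4F' j s y) y := by
  have h1 : HasDerivAt (fun y : ℝ => ((Real.log y : ℝ) : ℂ)) ((y⁻¹ : ℝ) : ℂ) y :=
    (Real.hasDerivAt_log hy.ne').ofReal_comp
  have h2 := h1.pow j
  have h3 : HasDerivAt (fun y : ℝ => (y : ℂ) ^ (-s)) (-s * (y : ℂ) ^ (-s - 1)) y := by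
    have := (Complex.hasStrictDerivAt_cpow_const (x := (y : ℂ)) (c := -s)
      (Complex.ofReal_mem_slitPlane.2 hy)).hasDerivAt.comp_ofReal
    exact this
  exact h2.mul h3

private lemma w4_norm (j : ℕ) (s : ℂ) {y : ℝ} (hy : 1 ≤ y) :
    ‖w4F j s y‖ = Real.log y ^ j * y ^ (-s.re) := by
  unfold w4F
  rw [norm_mul, norm_pow, Complex.norm_real, Real.norm_eq_abs, abs_of_nonneg (Real.log_nonneg hy),
    Complex.norm_cpow_eq_rpow_re_of_pos (by linarith)]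
  simp

private lemma w4_norm_le (j : ℕ) (s : ℂ) (hs : 1 ≤ s.re) {y : ℝ} (hy : 1 ≤ y) :
    ‖w4F j s y‖ ≤ Real.log y ^ j / y := by
  rw [w4_norm j s hy, div_eq_mul_inv]
  apply mul_le_mul_of_nonneg_left _ (pow_nonneg (Real.log_nonneg hy) j)
  rw [← Real.rpow_neg_one]
  exact Real.rpow_le_rpow_of_exponent_le hy (by linarith)

private lemma w4_deriv_norm (j : ℕ) (s : ℂ) (hs : 1 ≤ s.re) {y : ℝ} (hy : 3 ≤ y) :
    ‖w4F' j s y‖ ≤ ((j : ℝ) + ‖s‖) * Real.log y ^ j / y ^ 2 := by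
  have hy0 : 0 < y := by linarith
  have hl : 1 ≤ Real.log y := by
    rw [Real.le_log_iff_exp_le hy0]
    exact (Real.exp_one_lt_d9.le.trans (by norm_num)).trans hy
  have hr : y ^ (-s.re) ≤ y⁻¹ := by
    rw [← Real.rpow_neg_one]
    exact Real.rpow_le_rpow_of_exponent_le (by linarith) (by linarith)
  have hr2 : y ^ (-s.re - 1) ≤ (y ^ 2)⁻¹ := by
    rw [← Real.rpow_natCast, ← Real.rpow_neg hy0.le]
    exact Real.rpow_le_rpow_of_exponent_le (by linarith) (by push_cast; linarith)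
  have h1 : ‖((j : ℂ) * ((Real.log y : ℝ) : ℂ) ^ (j - 1) * ((y⁻¹ : ℝ) : ℂ)) * (y : ℂ) ^ (-s)‖ ≤
      (j : ℝ) * Real.log y ^ j * (y ^ 2)⁻¹ := by
    rw [norm_mul, norm_mul, norm_mul, norm_pow, Complex.norm_real, Complex.norm_real,
      Complex.norm_natCast, Real.norm_eq_abs, Real.norm_eq_abs, abs_of_nonneg (by linarith),
      abs_of_pos (inv_pos.2 hy0), Complex.norm_cpow_eq_rpow_re_of_pos hy0, Complex.neg_re]
    have h2 : Real.log y ^ (j - 1) ≤ Real.log y ^ j := pow_le_pow_right₀ hl (Nat.sub_le j 1)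
    have h3 : (y ^ 2)⁻¹ = y⁻¹ * y⁻¹ := by rw [sq, mul_inv]
    rw [h3]
    calc (j : ℝ) * Real.log y ^ (j - 1) * y⁻¹ * y ^ (-s.re)
        ≤ (j : ℝ) * Real.log y ^ j * y⁻¹ * y⁻¹ := by gcongr
      _ = _ := by ring
  have h2 : ‖((Real.log y : ℝ) : ℂ) ^ j * (-s * (y : ℂ) ^ (-s - 1))‖ ≤
      Real.log y ^ j * (‖s‖ * (y ^ 2)⁻¹) := by
    rw [norm_mul, norm_mul, norm_neg, norm_pow, Complex.norm_real, Real.norm_eq_abs,
      abs_of_nonneg (by linarith), Complex.norm_cpow_eq_rpow_re_of_pos hy0]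
    simp only [Complex.sub_re, Complex.neg_re, Complex.one_re]
    gcongr
  calc ‖w4F' j s y‖ ≤ _ := norm_add_le _ _
    _ ≤ _ := add_le_add h1 h2
    _ = _ := by rw [div_eq_mul_inv]; ring

private lemma w4_step (j : ℕ) (s : ℂ) (hs : 1 ≤ s.re) {n : ℕ} (hn : 3 ≤ n) :
    ‖w4F j s ((n + 1 : ℕ) : ℝ) - w4F j s (n : ℝ)‖ ≤
      ((j : ℝ) + ‖s‖) * Real.log ((n : ℝ) + 1) ^ j / (n : ℝ) ^ 2 := by
  have hn' : (3 : ℝ) ≤ n := by exact_mod_cast hn
  have hn0 : (0 : ℝ) < n := by linarith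
  have h := norm_image_sub_le_of_norm_deriv_le_segment' (f := w4F j s) (f' := w4F' j s)
    (a := (n : ℝ)) (b := (n : ℝ) + 1)
    (C := ((j : ℝ) + ‖s‖) * Real.log ((n : ℝ) + 1) ^ j / (n : ℝ) ^ 2)
    (fun x hx => (w4_deriv j s (by linarith [hx.1])).hasDerivWithinAt)
    (fun x hx => by
      have hx1 := hx.1
      have hx2 := hx.2
      refine (w4_deriv_norm j s hs (by linarith)).trans ?_
      have hlx : 0 ≤ Real.log x := Real.log_nonneg (by linarith)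
      have hll : Real.log x ≤ Real.log ((n : ℝ) + 1) := Real.log_le_log (by linarith) (by linarith)
      have hln : 0 ≤ Real.log ((n : ℝ) + 1) := hlx.trans hll
      have h0 : 0 ≤ ((j : ℝ) + ‖s‖) * Real.log ((n : ℝ) + 1) ^ j := by positivity
      gcongr) ((n : ℝ) + 1) ⟨by linarith, le_refl _⟩
  push_cast
  simpa using h

private lemma w4_abel (a : ℕ → ℂ) (F : ℕ → ℂ) (N : ℕ) : ∀ M : ℕ, N ≤ M →
    ∑ n ∈ Icc (N + 1) M, a n * F n = (∑ n ∈ Icc 1 M, a n) * F M - (∑ n ∈ Icc 1 N, a n) * F N -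
      ∑ n ∈ Ico N M, (∑ m ∈ Icc 1 n, a m) * (F (n + 1) - F n) := by
  intro M hM
  induction M, hM using Nat.le_induction with
  | base => simp
  | succ M hM ih =>
    rw [Finset.sum_Icc_succ_top (by omega), ih, Finset.sum_Ico_succ_top hM,
      Finset.sum_Icc_succ_top (by omega : 1 ≤ M + 1)]
    ring

private lemma w4_log (j : ℕ) {N y : ℝ} (hN : 3 ≤ N) (hy : N ≤ y) :
    Real.log y ^ j ≤ (4 * j + 5) ^ j * Real.log N ^ j * Real.sqrt (y / N) := by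
  have hN0 : 0 < N := by linarith
  have hz : 1 ≤ y / N := by rw [le_div_iff₀ hN0]; linarith
  have hl : 1 ≤ Real.log N := by
    rw [Real.le_log_iff_exp_le hN0]
    exact (Real.exp_one_lt_d9.le.trans (by norm_num)).trans hN
  have hj : (0 : ℝ) < 1 / (2 * (j + 1)) := by positivity
  have h1 : Real.log (y / N) ≤ (y / N) ^ (1 / (2 * ((j : ℝ) + 1))) / (1 / (2 * (j + 1))) :=
    Real.log_le_rpow_div (by linarith) hj
  set w := (y / N) ^ (1 / (2 * ((j : ℝ) + 1))) with hw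
  have hw1 : 1 ≤ w := Real.one_le_rpow hz hj.le
  have h2 : Real.log y = Real.log N + Real.log (y / N) := by
    rw [Real.log_div (by linarith) hN0.ne']; ring
  have h3 : Real.log y ≤ (4 * j + 5) * Real.log N * w := by
    rw [h2]
    have h4 : w / (1 / (2 * ((j : ℝ) + 1))) = 2 * (j + 1) * w := by
      field_simp
    rw [h4] at h1
    have hj0 : (0 : ℝ) ≤ j := Nat.cast_nonneg j
    have h5 : Real.log N ≤ Real.log N * w := le_mul_of_one_le_right (by linarith) hw1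
    have h6 : 2 * ((j : ℝ) + 1) * w ≤ 2 * (j + 1) * w * Real.log N :=
      le_mul_of_one_le_right (by positivity) hl
    nlinarith [mul_nonneg (mul_nonneg hj0 (by linarith : (0:ℝ) ≤ Real.log N)) (by linarith : (0:ℝ) ≤ w),
      mul_nonneg (by linarith : (0:ℝ) ≤ Real.log N) (by linarith : (0:ℝ) ≤ w)]
  have hly : 0 ≤ Real.log y := Real.log_nonneg (by linarith)
  calc Real.log y ^ j ≤ ((4 * j + 5) * Real.log N * w) ^ j := pow_le_pow_left₀ hly h3 j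
    _ = (4 * j + 5) ^ j * Real.log N ^ j * w ^ j := by rw [mul_pow, mul_pow]
    _ ≤ (4 * j + 5) ^ j * Real.log N ^ j * Real.sqrt (y / N) := by
      apply mul_le_mul_of_nonneg_left _ (by positivity)
      rw [hw, ← Real.rpow_natCast, ← Real.rpow_mul (by linarith), Real.sqrt_eq_rpow]
      apply Real.rpow_le_rpow_of_exponent_le hz
      rw [one_div, inv_mul_le_iff₀ (by positivity)]
      have hj0 : (0 : ℝ) ≤ j := Nat.cast_nonneg j
      linarith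

private lemma w4_tele (N : ℕ) (hN : 3 ≤ N) : ∀ M : ℕ, N ≤ M →
    ∑ n ∈ Ico N M, 1 / ((n : ℝ) * Real.sqrt n) ≤
      2 / Real.sqrt ((N : ℝ) - 1) - 2 / Real.sqrt ((M : ℝ) - 1) := by
  intro M hM
  induction M, hM using Nat.le_induction with
  | base => simp
  | succ M hM ih =>
    rw [Finset.sum_Ico_succ_top hM]
    have hM' : (3 : ℝ) ≤ M := by exact_mod_cast hN.trans hM
    have h1 : 1 / ((M : ℝ) * Real.sqrt M) ≤ 2 / Real.sqrt ((M : ℝ) - 1) - 2 / Real.sqrt M := by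
      set u := Real.sqrt ((M : ℝ) - 1) with hu
      set v := Real.sqrt (M : ℝ) with hv
      have hu0 : 0 < u := Real.sqrt_pos.2 (by linarith)
      have hv0 : 0 < v := Real.sqrt_pos.2 (by linarith)
      have hu2 : u ^ 2 = M - 1 := Real.sq_sqrt (by linarith)
      have hv2 : v ^ 2 = M := Real.sq_sqrt (by linarith)
      have huv : u ≤ v := Real.sqrt_le_sqrt (by linarith)
      have hM2 : (M : ℝ) = v ^ 2 := hv2.symm
      rw [hM2, div_sub_div _ _ hu0.ne' hv0.ne', div_le_div_iff₀ (by positivity) (by positivity)]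
      have h3 : (v - u) * (v + u) = 1 := by nlinarith
      have h4 : 0 ≤ v - u := by linarith
      -- u v <= 2 (v - u) v^2 v
      have h5 : u * v * 1 ≤ v * v * ((v - u) * (v + u)) := by rw [h3]; nlinarith
      nlinarith [mul_nonneg (mul_nonneg hv0.le hv0.le) (mul_nonneg h4 h4)]
    push_cast
    have h2 : (M : ℝ) + 1 - 1 = M := by ring
    rw [h2]
    linarith


private theorem lp_bdd_r1 {L Kl S q n N : ℝ} (h : L ≤ Kl * S) (hS : S ≤ n / N) (hN : 0 < N)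
    (hn : 0 < n) (hK : 0 ≤ Kl) (hq : 0 ≤ q) (hqN : q ≤ N) : q * (L / n) ≤ Kl := by
  have h1 : L ≤ Kl * (n / N) := h.trans (mul_le_mul_of_nonneg_left hS hK)
  have h2 : L / n ≤ Kl / N := by
    rw [div_le_iff₀ hn]
    refine h1.trans (le_of_eq ?_)
    ring
  have h3 : q * (L / n) ≤ N * (Kl / N) :=
    (mul_le_mul_of_nonneg_left h2 hq).trans
      (mul_le_mul_of_nonneg_right hqN (div_nonneg hK hN.le))
  refine h3.trans (le_of_eq ?_)
  exact mul_div_cancel₀ _ hN.ne'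

private theorem lp_bdd_r2 {q A L Kl G n u v : ℝ} (hn : n = u ^ 2) (hu : 0 < u) (hv : 0 < v)
    (hL : L ≤ Kl * G) (hG : G ≤ 2 * u / v) (hq : 0 ≤ q) (hA : 0 ≤ A) (hK : 0 ≤ Kl) :
    q * (A * L / n ^ 2) ≤ (q * A * Kl * (2 / v)) * (1 / (n * u)) := by
  have h1 : L ≤ Kl * (2 * u / v) := hL.trans (mul_le_mul_of_nonneg_left hG hK)
  have h2 : A * L ≤ A * (Kl * (2 * u / v)) := mul_le_mul_of_nonneg_left h1 hA
  have h3 : A * L / n ^ 2 ≤ A * (Kl * (2 * u / v)) / n ^ 2 :=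
    div_le_div_of_nonneg_right h2 (sq_nonneg n)
  refine (mul_le_mul_of_nonneg_left h3 hq).trans (le_of_eq ?_)
  subst hn
  have hu' := hu.ne'
  have hv' := hv.ne'
  field_simp

private theorem lp_bdd_r3 {q A Kl N v w J t x : ℝ} (hN : 0 < N) (hv : 0 < v) (hvN : v * v = N)
    (hw : w ≤ 3 / v) (hK : 0 ≤ Kl) (hJ : 0 ≤ J) (hq : 0 ≤ q) (hA0 : 0 ≤ A)
    (hA : A ≤ J + (2 + t)) (ht : 0 ≤ t) (hx : x = q * (2 + t)) (hxN : x ≤ N) :
    (q * A * Kl * (2 / v)) * w ≤ 12 * (J + 1) * Kl := by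
  have hc : 0 ≤ q * A * Kl * (2 / v) :=
    mul_nonneg (mul_nonneg (mul_nonneg hq hA0) hK) (div_nonneg zero_le_two hv.le)
  refine (mul_le_mul_of_nonneg_left hw hc).trans ?_
  have h1 : q * A * Kl * (2 / v) * (3 / v) = 6 * (q * A / N) * Kl := by
    rw [← hvN]
    have := hv.ne'
    field_simp
    ring
  rw [h1]
  have h2 : q * A ≤ (J + 1) * N := by
    have e1 : A ≤ (J + 1) * (2 + t) := by nlinarith only [hA, mul_nonneg hJ ht, hJ]
    have e2 : q * A ≤ q * ((J + 1) * (2 + t)) := mul_le_mul_of_nonneg_left e1 hq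
    have e3 : q * ((J + 1) * (2 + t)) = (J + 1) * x := by rw [hx]; ring
    have e4 : (J + 1) * x ≤ (J + 1) * N := mul_le_mul_of_nonneg_left hxN (by linarith only [hJ])
    linarith only [e2, e3, e4]
  have h3 : q * A / N ≤ J + 1 := by
    rw [div_le_iff₀ hN]
    exact h2
  have h4 : 6 * (q * A / N) * Kl ≤ 6 * (J + 1) * Kl :=
    mul_le_mul_of_nonneg_right (mul_le_mul_of_nonneg_left h3 (by norm_num)) hK
  have h5 : 0 ≤ (J + 1) * Kl := mul_nonneg (by linarith only [hJ]) hK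
  linarith only [h4, h5]

private theorem lp_bdd_first {j N : ℕ} {s : ℂ} (hs1 : 1 < s.re) {a : ℕ → ℂ}
    (ha : ∀ n, ‖a n‖ ≤ 2) {n : ℕ} (hn : 1 ≤ n) (hnN : n ≤ N) :
    ‖a n * w4F j s (n : ℝ)‖ ≤ 2 * (Real.log N ^ j * (n : ℝ)⁻¹) := by
  have hn1 : (1 : ℝ) ≤ n := by exact_mod_cast hn
  rw [norm_mul]
  apply mul_le_mul (ha n) _ (norm_nonneg _) zero_le_two
  refine (w4_norm_le j s hs1.le hn1).trans ?_
  rw [div_eq_mul_inv]
  apply mul_le_mul_of_nonneg_right _ (inv_nonneg.2 (zero_le_one.trans hn1))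
  exact pow_le_pow_left₀ (Real.log_nonneg hn1)
    (Real.log_le_log (lt_of_lt_of_le one_pos hn1) (by exact_mod_cast hnN)) j

private theorem lp_bdd_r4 {S P Q l : ℝ} (hS : S ≤ 1 + l) (hP : 0 ≤ P) (hPQ : P ≤ Q)
    (hQ : Q = P * l) : 2 * (P * S) ≤ 4 * Q := by
  have h1 : P * S ≤ P * (1 + l) := mul_le_mul_of_nonneg_left hS hP
  linarith only [h1, hPQ, hQ, mul_one P, mul_add P 1 l]

private theorem lp_bdd_small {j N : ℕ} {s : ℂ} (hs1 : 1 < s.re) {a : ℕ → ℂ}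
    (ha : ∀ n, ‖a n‖ ≤ 2) (hl1 : 1 ≤ Real.log N) {M : ℕ} (hM : M ≤ N) :
    ‖∑ n ∈ Icc 1 M, a n * w4F j s (n : ℝ)‖ ≤ 4 * Real.log N ^ (j + 1) := by
  have h0 : (0 : ℝ) ≤ Real.log N ^ j := pow_nonneg (zero_le_one.trans hl1) j
  have h1 : ‖∑ n ∈ Icc 1 M, a n * w4F j s (n : ℝ)‖ ≤
      ∑ n ∈ Icc 1 N, 2 * (Real.log N ^ j * (n : ℝ)⁻¹) := by
    refine (norm_sum_le _ _).trans ?_
    refine (Finset.sum_le_sum fun n hn => lp_bdd_first hs1 ha (Finset.mem_Icc.1 hn).1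
      ((Finset.mem_Icc.1 hn).2.trans hM)).trans ?_
    apply Finset.sum_le_sum_of_subset_of_nonneg
    · exact Finset.Icc_subset_Icc_right hM
    · intro i _ _
      exact mul_nonneg zero_le_two (mul_nonneg h0 (inv_nonneg.2 (Nat.cast_nonneg i)))
  refine h1.trans ?_
  rw [← Finset.mul_sum, ← Finset.mul_sum]
  have h2 : ∑ n ∈ Icc 1 N, (n : ℝ)⁻¹ ≤ 1 + Real.log N := by
    have := harmonic_le_one_add_log N
    rw [harmonic_eq_sum_Icc] at this
    push_cast at this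
    exact this
  exact lp_bdd_r4 h2 h0 (pow_le_pow_right₀ hl1 (Nat.le_succ j)) (pow_succ _ j)

private theorem lp_bdd_fn {j N : ℕ} {q : ℝ} {s : ℂ} (hs1 : 1 < s.re) (hN3 : (3 : ℝ) ≤ N)
    (hq : 0 ≤ q) (hqN : q ≤ N) {n : ℕ} (hn : N ≤ n) :
    q * ‖w4F j s (n : ℝ)‖ ≤ (4 * (j : ℝ) + 5) ^ j * Real.log N ^ j := by
  have hN0 : (0 : ℝ) < N := lt_of_lt_of_le (by norm_num) hN3
  have hn' : (N : ℝ) ≤ n := by exact_mod_cast hn
  have hn0 : (0 : ℝ) < n := lt_of_lt_of_le hN0 hn'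
  have h1 := w4_norm_le j s hs1.le (y := (n : ℝ)) (by linarith only [hn', hN3])
  have h2 := w4_log j hN3 hn'
  have h5 : 1 ≤ (n : ℝ) / N := by rw [le_div_iff₀ hN0]; linarith only [hn']
  have h3 : Real.sqrt ((n : ℝ) / N) ≤ n / N := by
    rw [Real.sqrt_le_left (zero_le_one.trans h5)]
    nlinarith only [h5]
  have hK : 0 ≤ (4 * (j : ℝ) + 5) ^ j * Real.log N ^ j := by
    have hj0 : (0 : ℝ) ≤ j := Nat.cast_nonneg j
    exact mul_nonneg (pow_nonneg (by linarith only [hj0]) j)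
      (pow_nonneg (Real.log_nonneg (by linarith only [hN3])) j)
  exact (mul_le_mul_of_nonneg_left h1 hq).trans (lp_bdd_r1 h2 h3 hN0 hn0 hK hq hqN)

private theorem lp_bdd_term {j N : ℕ} {q : ℝ} {s : ℂ} (hs1 : 1 < s.re) (hN3 : 3 ≤ N)
    (hq : 0 ≤ q) {a : ℕ → ℂ} (hA : ∀ N : ℕ, ‖∑ n ∈ Icc 1 N, a n‖ ≤ q) {n : ℕ} (hnN : N ≤ n) :
    ‖(∑ m ∈ Icc 1 n, a m) * (w4F j s ((n + 1 : ℕ) : ℝ) - w4F j s (n : ℝ))‖ ≤
      (q * ((j : ℝ) + ‖s‖) * ((4 * (j : ℝ) + 5) ^ j * Real.log N ^ j) * (2 / Real.sqrt N)) *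
        (1 / ((n : ℝ) * Real.sqrt n)) := by
  have hN3' : (3 : ℝ) ≤ N := by exact_mod_cast hN3
  have hn' : (N : ℝ) ≤ n := by exact_mod_cast hnN
  have hN0 : (0 : ℝ) < N := lt_of_lt_of_le (by norm_num) hN3'
  have hn0 : (0 : ℝ) < n := lt_of_lt_of_le hN0 hn'
  rw [norm_mul]
  have g1 := w4_step j s hs1.le (hN3.trans hnN)
  have g2 := w4_log j hN3' (y := (n : ℝ) + 1) (by linarith only [hn'])
  have g3 : Real.sqrt (((n : ℝ) + 1) / N) ≤ 2 * Real.sqrt n / Real.sqrt N := by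
    rw [Real.sqrt_div (by linarith only [hn0])]
    apply div_le_div_of_nonneg_right _ (Real.sqrt_nonneg _)
    rw [Real.sqrt_le_left (mul_nonneg zero_le_two (Real.sqrt_nonneg _)), mul_pow,
      Real.sq_sqrt hn0.le]
    linarith only [hn', hN3']
  have hj0 : (0 : ℝ) ≤ j := Nat.cast_nonneg j
  have hK : 0 ≤ (4 * (j : ℝ) + 5) ^ j * Real.log N ^ j :=
    mul_nonneg (pow_nonneg (by linarith only [hj0]) j)
      (pow_nonneg (Real.log_nonneg (by linarith only [hN3'])) j)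
  refine (mul_le_mul (hA n) g1 (norm_nonneg _) hq).trans ?_
  exact lp_bdd_r2 (Real.sq_sqrt hn0.le).symm (Real.sqrt_pos.2 hn0) (Real.sqrt_pos.2 hN0) g2 g3
    hq (add_nonneg hj0 (norm_nonneg s)) hK

private theorem lp_bdd_tele {N M : ℕ} (hN : 3 ≤ N) (hM : N ≤ M) :
    ∑ n ∈ Ico N M, 1 / ((n : ℝ) * Real.sqrt n) ≤ 3 / Real.sqrt N := by
  have hN3' : (3 : ℝ) ≤ N := by exact_mod_cast hN
  have htele := w4_tele N hN M hM
  have hM1 : (0 : ℝ) ≤ 2 / Real.sqrt ((M : ℝ) - 1) := div_nonneg zero_le_two (Real.sqrt_nonneg _)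
  have e1 : 0 < Real.sqrt ((N : ℝ) - 1) := Real.sqrt_pos.2 (by linarith only [hN3'])
  have e2 : 0 < Real.sqrt (N : ℝ) := Real.sqrt_pos.2 (by linarith only [hN3'])
  have h5 : 2 / Real.sqrt ((N : ℝ) - 1) ≤ 3 / Real.sqrt N := by
    rw [div_le_div_iff₀ e1 e2]
    apply le_of_sq_le_sq _ (mul_nonneg (by norm_num) e1.le)
    rw [mul_pow, mul_pow, Real.sq_sqrt (show (0 : ℝ) ≤ (N : ℝ) - 1 by linarith only [hN3']),
      Real.sq_sqrt (show (0 : ℝ) ≤ (N : ℝ) by linarith only [hN3'])]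
    linarith only [hN3']
  linarith only [htele, hM1, h5]

private theorem lp_bdd_large {j N : ℕ} {q t x : ℝ} {s : ℂ} (hs1 : 1 < s.re) (hN3 : 3 ≤ N)
    (hq : 0 ≤ q) (hqN : q ≤ N) (ht : 0 ≤ t) (hst : ‖s‖ ≤ 2 + t) (hx : x = q * (2 + t))
    (hxN : x ≤ N) {a : ℕ → ℂ}
    (hA : ∀ N : ℕ, ‖∑ n ∈ Icc 1 N, a n‖ ≤ q) {M : ℕ} (hM : N ≤ M) :
    ‖∑ n ∈ Icc (N + 1) M, a n * w4F j s (n : ℝ)‖ ≤
      2 * ((4 * (j : ℝ) + 5) ^ j * Real.log N ^ j) +
        12 * ((j : ℝ) + 1) * ((4 * (j : ℝ) + 5) ^ j * Real.log N ^ j) := by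
  have hN3' : (3 : ℝ) ≤ N := by exact_mod_cast hN3
  have hN0 : (0 : ℝ) < N := lt_of_lt_of_le (by norm_num) hN3'
  have hj0 : (0 : ℝ) ≤ j := Nat.cast_nonneg j
  have hK : 0 ≤ (4 * (j : ℝ) + 5) ^ j * Real.log N ^ j :=
    mul_nonneg (pow_nonneg (by linarith only [hj0]) j)
      (pow_nonneg (Real.log_nonneg (by linarith only [hN3'])) j)
  have hs0 : 0 ≤ (j : ℝ) + ‖s‖ := add_nonneg hj0 (norm_nonneg s)
  have hab : ∑ n ∈ Icc (N + 1) M, a n * w4F j s (n : ℝ) =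
      (∑ n ∈ Icc 1 M, a n) * w4F j s (M : ℝ) - (∑ n ∈ Icc 1 N, a n) * w4F j s (N : ℝ) -
      ∑ n ∈ Ico N M, (∑ m ∈ Icc 1 n, a m) * (w4F j s ((n + 1 : ℕ) : ℝ) - w4F j s (n : ℝ)) :=
    w4_abel a (fun n => w4F j s (n : ℝ)) N M hM
  have hB : ∀ R : ℕ, N ≤ R → ‖(∑ n ∈ Icc 1 R, a n) * w4F j s (R : ℝ)‖ ≤
      (4 * (j : ℝ) + 5) ^ j * Real.log N ^ j := by
    intro R hR
    rw [norm_mul]
    exact (mul_le_mul_of_nonneg_right (hA R) (norm_nonneg _)).trans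
      (lp_bdd_fn hs1 hN3' hq hqN hR)
  have h1 := hB M hM
  have h2 := hB N le_rfl
  have h3 : ‖∑ n ∈ Ico N M, (∑ m ∈ Icc 1 n, a m) *
      (w4F j s ((n + 1 : ℕ) : ℝ) - w4F j s (n : ℝ))‖ ≤
      12 * ((j : ℝ) + 1) * ((4 * (j : ℝ) + 5) ^ j * Real.log N ^ j) := by
    refine (norm_sum_le _ _).trans ((Finset.sum_le_sum fun n hn =>
      lp_bdd_term hs1 hN3 hq hA (Finset.mem_Ico.1 hn).1).trans ?_)
    rw [← Finset.mul_sum]
    exact lp_bdd_r3 hN0 (Real.sqrt_pos.2 hN0) (Real.mul_self_sqrt hN0.le)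
      (lp_bdd_tele hN3 hM) hK hj0 hq hs0 (add_le_add_right hst _) ht hx hxN
  rw [hab]
  refine (norm_sub_le _ _).trans ?_
  have h4 := norm_sub_le ((∑ n ∈ Icc 1 M, a n) * w4F j s (M : ℝ))
    ((∑ n ∈ Icc 1 N, a n) * w4F j s (N : ℝ))
  linarith only [h1, h2, h3, h4]

private theorem lp_bdd_r5 {A B C K P Q J : ℝ} (hA : A ≤ 4 * Q) (hB : B ≤ 2 * (K * P) + 12 * (J + 1) * (K * P))
    (hC : C ≤ A + B) (hPQ : P ≤ Q) (hK : 0 ≤ K) (hJ : 0 ≤ J) :
    C ≤ (4 + 2 * K + 12 * (J + 1) * K) * Q := by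
  have h1 : K * P ≤ K * Q := mul_le_mul_of_nonneg_left hPQ hK
  have h2 : 12 * (J + 1) * (K * P) ≤ 12 * (J + 1) * (K * Q) :=
    mul_le_mul_of_nonneg_left h1 (by linarith only [hJ])
  have h3 : (4 + 2 * K + 12 * (J + 1) * K) * Q = 4 * Q + 2 * (K * Q) + 12 * (J + 1) * (K * Q) := by
    ring
  linarith only [h1, h2, h3, hA, hB, hC]

private theorem lp_bdd_split {N M : ℕ} (hM : N ≤ M) (f : ℕ → ℂ) :
    ∑ n ∈ Icc 1 M, f n = ∑ n ∈ Icc 1 N, f n + ∑ n ∈ Icc (N + 1) M, f n := by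
  have hI : Icc 1 M = Icc 1 N ∪ Icc (N + 1) M := by
    ext i; simp only [Finset.mem_union, Finset.mem_Icc]; omega
  rw [hI, Finset.sum_union]
  rw [Finset.disjoint_left]
  intro i hi hi'
  rw [Finset.mem_Icc] at hi hi'
  omega

private theorem lp_bdd_all {j N : ℕ} {q t x : ℝ} {s : ℂ} (hs1 : 1 < s.re) (hN3 : 3 ≤ N)
    (hq : 0 ≤ q) (hqN : q ≤ N) (ht : 0 ≤ t) (hst : ‖s‖ ≤ 2 + t) (hx : x = q * (2 + t))
    (hxN : x ≤ N) {a : ℕ → ℂ} (ha : ∀ n, ‖a n‖ ≤ 2) (hl1 : 1 ≤ Real.log N)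
    (hA : ∀ N : ℕ, ‖∑ n ∈ Icc 1 N, a n‖ ≤ q) (M : ℕ) :
    ‖∑ n ∈ Icc 1 M, a n * w4F j s (n : ℝ)‖ ≤
      (4 + 2 * (4 * (j : ℝ) + 5) ^ j + 12 * ((j : ℝ) + 1) * (4 * (j : ℝ) + 5) ^ j) *
        Real.log N ^ (j + 1) := by
  have hj0 : (0 : ℝ) ≤ j := Nat.cast_nonneg j
  have hK0 : 0 ≤ (4 * (j : ℝ) + 5) ^ j := pow_nonneg (by linarith only [hj0]) j
  have hP : Real.log N ^ j ≤ Real.log N ^ (j + 1) := pow_le_pow_right₀ hl1 (Nat.le_succ j)
  have hP0 : 0 ≤ Real.log N ^ j := pow_nonneg (zero_le_one.trans hl1) j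
  rcases le_total M N with hM | hM
  · refine lp_bdd_r5 (B := 0) (lp_bdd_small hs1 ha hl1 hM) ?_ (by rw [add_zero]) hP hK0 hj0
    exact add_nonneg (mul_nonneg zero_le_two (mul_nonneg hK0 hP0))
      (mul_nonneg (by linarith only [hj0]) (mul_nonneg hK0 hP0))
  · rw [lp_bdd_split hM]
    exact lp_bdd_r5 (lp_bdd_small hs1 ha hl1 le_rfl)
      (lp_bdd_large hs1 hN3 hq hqN ht hst hx hxN hA hM) (norm_add_le _ _) hP hK0 hj0

private theorem lp_bdd_fin {j : ℕ} {s : ℂ} {a : ℕ → ℂ} {B : ℝ} (hB : 0 ≤ B)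
    (h : ∀ M : ℕ, ‖∑ n ∈ Icc 1 M, a n * w4F j s (n : ℝ)‖ ≤ B) : ‖LSeries (lp a j) s‖ ≤ B := by
  by_cases hsum : LSeriesSummable (lp a j) s
  · refine le_of_tendsto hsum.hasSum.tendsto_sum_nat.norm (Filter.Eventually.of_forall fun M => ?_)
    have hterm : ∀ n : ℕ, n ≠ 0 → LSeries.term (lp a j) s n = a n * w4F j s (n : ℝ) := by
      intro n hn
      rw [LSeries.term_def, if_neg hn]
      unfold lp w4F
      rw [Complex.cpow_neg, div_eq_mul_inv, mul_assoc]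
      simp
    rcases Nat.eq_zero_or_pos M with rfl | hM
    · rw [Finset.range_zero, Finset.sum_empty, norm_zero]
      exact hB
    · have hR : ∑ n ∈ Finset.range M, LSeries.term (lp a j) s n =
          ∑ n ∈ Icc 1 (M - 1), a n * w4F j s (n : ℝ) := by
        have : Finset.range M = insert 0 (Icc 1 (M - 1)) := by
          ext i; simp only [Finset.mem_range, Finset.mem_insert, Finset.mem_Icc]; omega
        rw [this, Finset.sum_insert (by simp), LSeries.term_zero, zero_add]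
        apply Finset.sum_congr rfl
        intro n hn
        exact hterm n (by have := (Finset.mem_Icc.1 hn).1; omega)
      rw [hR]
      exact h (M - 1)
  · have : LSeries (lp a j) s = 0 := tsum_eq_zero_of_not_summable hsum
    rw [this, norm_zero]
    exact hB

private theorem lp_bdd_log {x N : ℝ} (hx : 2 ≤ x) (hN : 0 < N) (hNx : N ≤ x + 2) :
    Real.log N ≤ 2 * Real.log x := by
  have h1 : Real.log (x ^ 2) = 2 * Real.log x := by
    rw [Real.log_pow]; norm_num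
  rw [← h1]
  apply Real.log_le_log hN
  nlinarith only [hx, hNx]

private theorem lp_bdd_one (j : ℕ) : (1 : ℝ) ≤
    (4 + 2 * (4 * (j : ℝ) + 5) ^ j + 12 * ((j : ℝ) + 1) * (4 * (j : ℝ) + 5) ^ j) * 2 ^ (j + 1) := by
  have hj0 : (0 : ℝ) ≤ j := Nat.cast_nonneg j
  have hK0 : 0 ≤ (4 * (j : ℝ) + 5) ^ j := pow_nonneg (by linarith only [hj0]) j
  have h2 : (0 : ℝ) ≤ 12 * (j + 1) * (4 * (j : ℝ) + 5) ^ j :=
    mul_nonneg (by linarith only [hj0]) hK0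
  have h1 : (1 : ℝ) ≤ 2 ^ (j + 1) := one_le_pow₀ one_le_two
  exact one_le_mul_of_one_le_of_one_le (by linarith only [hK0, h2]) h1

/-- Proof. Let `N = ⌈q(2+|t|)⌉`, `ℓ = log N`. The terms `n ≤ N` contribute
`≤ 2 ∑_{n ≤ N} (log n)^j / n ≤ 2 ℓ^j (1 + ℓ)`. The terms `n > N`: Abel summation with
`A(n) = ∑_{m ≤ n} a(m)`, `‖A‖ ≤ q`, and `f(y) = (log y)^j y^{-s}`:
`≤ 2 q ‖f(N)‖ + q ∫_N^∞ |f'|`, `|f'(y)| ≤ (|s| + j) (log y)^j y^{-2} · (log y ≥ 1)` up to a constant,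
and `∫_N^∞ (log y)^j y^{-2} dy ≤ C_j ℓ^j/N`. Since `q(|s| + j)/N ≤ C_j`, the total is
`≤ C ℓ^(j+1)` and `ℓ ≤ C log(q(2+|t|))`. (A discrete version: `‖f(n+1) - f(n)‖ ≤ C_j(|s|+1)
(log n)^j/n²` for `n ≥ 3`; partial sums over `(N, N']` and `N' → ∞` by absolute convergence.) -/
theorem lp_bdd (j : ℕ) : ∃ C : ℝ, 1 ≤ C ∧ ∀ (a : ℕ → ℂ) (q : ℝ), 1 ≤ q → (∀ n, ‖a n‖ ≤ 2) →
    (∀ N : ℕ, ‖∑ n ∈ Icc 1 N, a n‖ ≤ q) → ∀ s : ℂ, 1 < s.re → s.re ≤ 2 →
    ‖LSeries (lp a j) s‖ ≤ C * Real.log (q * (2 + |s.im|)) ^ (j + 1) := by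
  refine ⟨_, lp_bdd_one j, ?_⟩
  intro a q hq ha hA s hs1 hs2
  have ht0 : 0 ≤ |s.im| := abs_nonneg _
  obtain ⟨t, ht⟩ : ∃ t, t = |s.im| := ⟨_, rfl⟩
  rw [← ht] at ht0 ⊢
  obtain ⟨x, hx⟩ : ∃ x, x = q * (2 + t) := ⟨_, rfl⟩
  rw [← hx]
  have hq0 : 0 ≤ q := zero_le_one.trans hq
  have hqx : q * 2 ≤ x := by rw [hx, mul_add]; linarith only [mul_nonneg hq0 ht0]
  have hx2 : 2 ≤ x := by linarith only [hqx, hq]
  obtain ⟨N, hN⟩ : ∃ N : ℕ, N = ⌈x⌉₊ + 1 := ⟨_, rfl⟩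
  have hNx : x + 1 ≤ (N : ℝ) := by
    have := Nat.le_ceil x
    rw [hN]; push_cast; linarith only [this]
  have hNx2 : (N : ℝ) ≤ x + 2 := by
    have := (Nat.ceil_lt_add_one (zero_le_two.trans hx2)).le
    rw [hN]; push_cast; linarith only [this]
  have hN3' : (3 : ℝ) ≤ N := by linarith only [hNx, hx2]
  have hN3 : 3 ≤ N := by exact_mod_cast hN3'
  have hN0 : (0 : ℝ) < N := lt_of_lt_of_le (by norm_num) hN3'
  have hl1 : 1 ≤ Real.log N := by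
    rw [Real.le_log_iff_exp_le hN0]
    exact (Real.exp_one_lt_d9.le.trans (by norm_num)).trans hN3'
  have hsn : ‖s‖ ≤ 2 + t := by
    have := Complex.norm_le_abs_re_add_abs_im s
    rw [abs_of_pos (zero_lt_one.trans hs1), ← ht] at this
    linarith only [this, hs2]
  have hlx : Real.log N ≤ 2 * Real.log x := lp_bdd_log hx2 hN0 hNx2
  have hj0 : (0 : ℝ) ≤ j := Nat.cast_nonneg j
  have hK0 : 0 ≤ (4 * (j : ℝ) + 5) ^ j := pow_nonneg (by linarith only [hj0]) j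
  have hc : (0 : ℝ) ≤ 4 + 2 * (4 * (j : ℝ) + 5) ^ j + 12 * ((j : ℝ) + 1) * (4 * (j : ℝ) + 5) ^ j := by
    linarith only [hK0, mul_nonneg hj0 hK0]
  have hfin := lp_bdd_fin (mul_nonneg hc (pow_nonneg (zero_le_one.trans hl1) (j + 1)))
    (lp_bdd_all hs1 hN3 hq0 (by linarith only [hqx, hNx, hq0]) ht0 hsn hx
      (by linarith only [hNx]) ha hl1 hA)
  refine hfin.trans ?_
  rw [mul_assoc _ ((2 : ℝ) ^ (j + 1)), ← mul_pow]
  exact mul_le_mul_of_nonneg_left (pow_le_pow_left₀ (zero_le_one.trans hl1) hlx (j + 1)) hc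

end Pool.Agent.Lib.MP_d9bc60_nt.UV
end

section
/-! Row W06 (about 90 lines): partial sums of characters. -/

set_option autoImplicit false

namespace Pool.Agent.Lib.MP_d9bc60_nt.UV

open Finset

theorem w06_total (q : ℕ) [NeZero q] (f : ZMod q → ℂ) :
    ∑ n ∈ range q, f (n : ZMod q) = ∑ a, f a := by
  refine Finset.sum_nbij' (fun n => (n : ZMod q)) ZMod.val ?_ ?_ ?_ ?_ ?_
  · intro n _
    exact mem_univ _
  · intro a _
    exact mem_range.2 (ZMod.val_lt a)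
  · intro n hn
    exact ZMod.val_cast_of_lt (mem_range.1 hn)
  · intro a _
    exact ZMod.natCast_zmod_val a
  · intro n _
    rfl

theorem w06_shift (q : ℕ) [NeZero q] (f : ZMod q → ℂ) (N : ℕ) :
    ∑ n ∈ range q, f (((N + n + 1 : ℕ)) : ZMod q) = ∑ a, f a := by
  rw [← Equiv.sum_comp (Equiv.addLeft ((N : ZMod q) + 1)) f, ← w06_total q (fun a => f (Equiv.addLeft ((N : ZMod q) + 1) a))]
  refine Finset.sum_congr rfl fun n _ => ?_
  simp only [Equiv.coe_addLeft]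
  congr 1
  push_cast
  ring

theorem w06_range (g : ℕ → ℂ) (N : ℕ) : ∑ n ∈ Icc 1 N, g n = ∑ n ∈ range N, g (n + 1) := by
  induction N with
  | zero => simp
  | succ n ih => rw [Finset.sum_Icc_succ_top (by omega), Finset.sum_range_succ, ih]

/-- Proof. `N = q m + r`, `r < q`: by periodicity the sum is `m S + ∑_{r terms}` with
`S = ∑_{a mod q} χ(a)`, which is `φ(q)` if `χ = 1` (count units) and `0` else
(`MulChar.sum_eq_zero_of_ne_one`). The rest and `r S/q` have norm `≤ q`. -/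
theorem char_sum (q : ℕ) [NeZero q] (χ : DirichletCharacter ℂ q) (N : ℕ) :
    ‖∑ n ∈ Icc 1 N, χ (n : ZMod q) -
      (if χ = 1 then ((q.totient : ℂ) / q) else 0) * N‖ ≤ 2 * q := by
  have hq : (q : ℂ) ≠ 0 := by exact_mod_cast NeZero.ne q
  have hq1 : 0 < q := Nat.pos_of_ne_zero (NeZero.ne q)
  set c : ℂ := if χ = 1 then ((q.totient : ℂ) / q) else 0 with hc
  have hS : ∑ a : ZMod q, χ a = c * q := by
    rw [hc]
    split_ifs with h
    · rw [h, MulChar.sum_one_eq_card_units, div_mul_cancel₀ _ hq, ZMod.card_units_eq_totient]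
    · rw [zero_mul]
      exact MulChar.sum_eq_zero_of_ne_one h
  have hc1 : ‖c‖ ≤ 1 := by
    rw [hc]
    split_ifs with h
    · rw [norm_div, Complex.norm_natCast, Complex.norm_natCast, div_le_one (by exact_mod_cast hq1)]
      exact_mod_cast Nat.totient_le q
    · simp
  rw [w06_range (fun n => χ (n : ZMod q)) N]
  induction N using Nat.strong_induction_on with
  | _ N ih =>
    rcases Nat.lt_or_ge N q with h | h
    · have h1 : ‖∑ n ∈ range N, χ ((n + 1 : ℕ) : ZMod q)‖ ≤ N := by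
        refine (norm_sum_le _ _).trans ?_
        refine (Finset.sum_le_card_nsmul _ _ 1 (fun n _ => DirichletCharacter.norm_le_one χ _)).trans ?_
        simp
      have h2 : ‖c * N‖ ≤ N := by
        rw [norm_mul, Complex.norm_natCast]
        exact mul_le_of_le_one_left (Nat.cast_nonneg _) hc1
      have h3 : (N : ℝ) ≤ q := by exact_mod_cast h.le
      refine (norm_sub_le _ _).trans ?_
      linarith
    · obtain ⟨M, rfl⟩ := Nat.exists_eq_add_of_le' h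
      have h1 := ih M (by omega)
      rw [Finset.sum_range_add, w06_shift q (fun a => χ a) M, hS]
      have h2 : ∑ n ∈ range M, χ ((n + 1 : ℕ) : ZMod q) + c * q - c * ((M + q : ℕ) : ℂ) =
          ∑ n ∈ range M, χ ((n + 1 : ℕ) : ZMod q) - c * M := by
        push_cast
        ring
      rw [h2]
      exact h1

end Pool.Agent.Lib.MP_d9bc60_nt.UV
end
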