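import Pool.Agent.Lib.MP_0f5a55_nt.OM.K000
import Pool.Agent.Lib.MP_0f5a55_nt.OM.K006
import Pool.Agent.Lib.MP_0f5a55_nt.OM.K016
import Pool.Agent.Lib.MP_0f5a55_nt.OM.K028
import Pool.Agent.Lib.MP_0f5a55_nt.OM.K029

section

section
/-! Row W07 (about 110 lines): upper bounds for `L^{(j)}(s, χ)` on `1 < Re s ≤ 2`. -/

set_option autoImplicit false

namespace Pool.Agent.Lib.MP_d9bc60_nt.UV

open Finset

/-- The coefficients of `L(s, χ)`. -/
noncomputable def ch {q : ℕ} (χ : DirichletCharacter ℂ q) : ℕ → ℂ := fun n => χ (n : ZMod q)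

theorem w07_log (k : ℕ) (ε : ℝ) (hε : 0 < ε) : ∃ K : ℝ, 1 ≤ K ∧ ∀ y : ℝ, 1 ≤ y →
    Real.log y ^ k ≤ K * y ^ ε := by
  rcases Nat.eq_zero_or_pos k with rfl | hk
  · refine ⟨1, le_refl _, fun y hy => ?_⟩
    rw [pow_zero, one_mul]
    exact Real.one_le_rpow hy hε.le
  set δ : ℝ := ε / k with hδ
  have hk' : (0 : ℝ) < k := by exact_mod_cast hk
  have hδ0 : 0 < δ := by positivity
  refine ⟨1 + (1 / δ) ^ k, by
    have : 0 ≤ (1 / δ) ^ k := by positivity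
    linarith, fun y hy => ?_⟩
  have hy0 : 0 ≤ y := by linarith
  have h1 : Real.log y ≤ y ^ δ / δ := Real.log_le_rpow_div hy0 hδ0
  have h2 : 0 ≤ Real.log y := Real.log_nonneg hy
  have h3 : Real.log y ^ k ≤ (y ^ δ / δ) ^ k := pow_le_pow_left₀ h2 h1 k
  have h4 : (y ^ δ / δ) ^ k = (1 / δ) ^ k * y ^ ε := by
    rw [div_eq_mul_one_div, mul_pow, ← Real.rpow_natCast (y ^ δ) k, ← Real.rpow_mul hy0]
    have h6 : δ * (k : ℝ) = ε := by
      rw [hδ, div_mul_cancel₀ _ hk'.ne']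
    rw [h6, mul_comm]
  have h5 : 0 ≤ y ^ ε := Real.rpow_nonneg hy0 _
  rw [h4] at h3
  nlinarith

theorem w07_summable (a : ℕ → ℂ) (ha : ∀ n, ‖a n‖ ≤ 2) (j : ℕ) (s : ℂ) (hs : 1 < s.re) :
    LSeriesSummable (lp a j) s := by
  obtain ⟨K, hK1, hK⟩ := w07_log j ((s.re - 1) / 2) (by linarith)
  refine LSeriesSummable_of_le_const_mul_rpow (x := (s.re + 1) / 2) (by linarith)
    ⟨2 * K, fun n hn => ?_⟩
  have hn1 : (1 : ℝ) ≤ n := by exact_mod_cast Nat.one_le_iff_ne_zero.mpr hn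
  have h1 := hK n hn1
  have h2 : (s.re + 1) / 2 - 1 = (s.re - 1) / 2 := by ring
  rw [h2]
  unfold lp
  rw [norm_mul, norm_pow, Complex.norm_real, Real.norm_of_nonneg (Real.log_nonneg hn1)]
  have h3 : 0 ≤ Real.log n ^ j := pow_nonneg (Real.log_nonneg hn1) _
  calc ‖a n‖ * Real.log n ^ j ≤ 2 * Real.log n ^ j := by
        exact mul_le_mul_of_nonneg_right (ha n) h3
    _ ≤ 2 * (K * (n : ℝ) ^ ((s.re - 1) / 2)) := by linarith
    _ = 2 * K * (n : ℝ) ^ ((s.re - 1) / 2) := by ring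

theorem L_upper_f1 {A B K Y z n1 n2 : ℝ} (hA : 0 ≤ A) (hB : 0 ≤ B) (hK : 0 ≤ K) (hY : 1 ≤ Y) (hz : 0 ≤ z)
    (h1 : n1 ≤ A * Y) (h2 : n2 ≤ B * (K * Y + z)) : n1 + n2 ≤ (A + B * K + B) * Y * (1 + z) := by
  have hY0 : 0 ≤ Y := zero_le_one.trans hY
  have e1 : 0 ≤ A * Y * z := mul_nonneg (mul_nonneg hA hY0) hz
  have e2 : 0 ≤ B * K * Y * z := mul_nonneg (mul_nonneg (mul_nonneg hB hK) hY0) hz
  have e3 : 0 ≤ B * Y := mul_nonneg hB hY0
  have e4 : 0 ≤ B * z * (Y - 1) := mul_nonneg (mul_nonneg hB hz) (sub_nonneg.2 hY)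
  have e5 : (A + B * K + B) * Y * (1 + z) =
      (A * Y + B * (K * Y + z)) + (A * Y * z + B * K * Y * z + B * Y + B * z * (Y - 1)) := by ring
  rw [e5]
  exact (add_le_add h1 h2).trans (le_add_of_nonneg_right (add_nonneg (add_nonneg (add_nonneg e1 e2) e3) e4))

theorem L_upper_f2 {C₁ C₂ K P Y : ℝ} (h2 : 0 ≤ C₂) (hK : 0 ≤ K) (hY : 0 ≤ Y) :
    C₁ * (K * P * Y) ≤ (C₁ * (K * P) + C₂ * K + C₂) * Y := by
  have e1 : 0 ≤ (C₂ * K + C₂) * Y := mul_nonneg (add_nonneg (mul_nonneg h2 hK) h2) hY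
  have e2 : (C₁ * (K * P) + C₂ * K + C₂) * Y = C₁ * (K * P * Y) + (C₂ * K + C₂) * Y := by ring
  rw [e2]
  exact le_add_of_nonneg_right e1

theorem L_upper_f3 {C₁ L K P Y : ℝ} (h1 : 0 ≤ C₁) (hL : L ≤ K * P * Y) : C₁ * L ≤ C₁ * (K * P) * Y := by
  rw [mul_assoc C₁ (K * P) Y]
  exact mul_le_mul_of_nonneg_left hL h1

theorem L_upper_f4 {κ n L K Y z C₂ : ℝ} (hC : 0 ≤ C₂) (hκ : κ ≤ 1) (hn : 0 ≤ n) (h : n ≤ C₂ * (L + z)) (hL : L ≤ K * Y) :
    κ * n ≤ C₂ * (K * Y + z) :=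
  (mul_le_of_le_one_left hn hκ).trans (h.trans (mul_le_mul_of_nonneg_left (add_le_add_left hL z) hC))

theorem L_upper_log {q t ε K : ℝ} {m : ℕ} (hq : 1 ≤ q) (ht : 2 ≤ t) (hε : 0 < ε) (hK0 : 0 ≤ K)
    (hK : ∀ x : ℝ, 1 ≤ x → Real.log x ^ m ≤ K * x ^ ε) :
    1 ≤ (q * t) ^ ε ∧ Real.log ((2 * q) * t) ^ m ≤ K * 2 ^ ε * (q * t) ^ ε ∧ Real.log t ^ m ≤ K * (q * t) ^ ε := by
  have ht0 : 0 ≤ t := zero_le_two.trans ht
  have ht1 : 1 ≤ t := one_le_two.trans ht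
  have hty : t ≤ q * t := le_mul_of_one_le_left ht0 hq
  have hy1 : 1 ≤ q * t := ht1.trans hty
  have hy0 : 0 ≤ q * t := zero_le_one.trans hy1
  refine ⟨Real.one_le_rpow hy1 hε.le, ?_, ?_⟩
  · rw [mul_assoc 2 q t]
    refine (hK (2 * (q * t)) (hy1.trans (le_mul_of_one_le_left hy0 one_le_two))).trans_eq ?_
    rw [Real.mul_rpow zero_le_two hy0, mul_assoc]
  · exact (hK t ht1).trans (mul_le_mul_of_nonneg_left (Real.rpow_le_rpow ht0 hty hε.le) hK0)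

theorem L_upper_sum {q : ℕ} [NeZero q] (χ : DirichletCharacter ℂ q) (hχ : χ = 1) (N : ℕ) :
    ‖∑ n ∈ Icc 1 N, (χ (n : ZMod q) - (q.totient : ℂ) / q)‖ ≤ 2 * (q : ℝ) := by
  have h3 := char_sum q χ N
  rw [if_pos hχ] at h3
  have h4 : ∑ n ∈ Icc 1 N, (χ (n : ZMod q) - (q.totient : ℂ) / q) =
      ∑ n ∈ Icc 1 N, χ (n : ZMod q) - (q.totient : ℂ) / q * N := by
    rw [Finset.sum_sub_distrib, Finset.sum_const, Nat.card_Icc, Nat.add_sub_cancel, nsmul_eq_mul, mul_comm]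
  rw [h4]
  exact h3

theorem L_upper_split {q : ℕ} [NeZero q] (χ : DirichletCharacter ℂ q) (κ : ℂ) (j : ℕ) (s : ℂ) (hs1 : 1 < s.re)
    (han : ∀ n : ℕ, ‖χ (n : ZMod q) - κ‖ ≤ 2) :
    LSeries (lp (ch χ) j) s = LSeries (lp (fun n => χ (n : ZMod q) - κ) j) s + κ * LSeries (lp (fun _ => 1) j) s := by
  have h5 : lp (ch χ) j = lp (fun n => χ (n : ZMod q) - κ) j + κ • lp (fun _ => 1) j := by
    funext n
    simp only [lp, ch, Pi.add_apply, Pi.smul_apply, smul_eq_mul]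
    ring
  rw [h5, LSeries_add (w07_summable (fun n => χ (n : ZMod q) - κ) han j s hs1)
    ((w07_summable (fun _ => 1) (fun _ => norm_one.trans_le one_le_two) j s hs1).smul κ), LSeries_smul]

/-- Proof. `χ ≠ 1`: `lp_bdd` with `a = ch χ`, `q` replaced by `2q` (`char_sum`). `χ = 1`:
`ch χ = κ + a`, `κ = φ(q)/q ≤ 1`, `‖a‖ ≤ 2`, partial sums `≤ 2q`; `lp_bdd` for `a`, `lp_one` for `1`
(`LSeries_add`, summability for `Re s > 1`). Finally `(log y)^(j+1) ≤ C y^ε`, and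
`log(2+|t|) ≤ log(2q(2+|t|))`. -/
theorem L_upper (j : ℕ) (ε : ℝ) (hε : 0 < ε) : ∃ C : ℝ, 1 ≤ C ∧
    ∀ (q : ℕ) [NeZero q] (χ : DirichletCharacter ℂ q) (s : ℂ), 1 < s.re → s.re ≤ 2 →
    ‖LSeries (lp (ch χ) j) s‖ ≤ C * ((q : ℝ) * (2 + |s.im|)) ^ ε *
      (1 + if χ = 1 then 1 / ‖s - 1‖ ^ (j + 1) else 0) := by
  obtain ⟨C₁, hC₁, h1⟩ := lp_bdd j
  obtain ⟨C₂, hC₂, h2⟩ := lp_one j
  obtain ⟨K, hK1, hK⟩ := w07_log (j + 1) ε hε
  have h2ε : (0 : ℝ) < (2 : ℝ) ^ ε := Real.rpow_pos_of_pos zero_lt_two _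
  have hC₁0 : 0 ≤ C₁ := zero_le_one.trans hC₁
  have hC₂0 : 0 ≤ C₂ := zero_le_one.trans hC₂
  have hK0 : 0 ≤ K := zero_le_one.trans hK1
  have hA : 0 ≤ C₁ * (K * 2 ^ ε) := mul_nonneg hC₁0 (mul_nonneg hK0 h2ε.le)
  refine ⟨C₁ * (K * 2 ^ ε) + C₂ * K + C₂, hC₂.trans (le_add_of_nonneg_left (add_nonneg hA (mul_nonneg hC₂0 hK0))), ?_⟩
  intro q _ χ s hs1 hs2
  have hq1 : (1 : ℝ) ≤ q := Nat.one_le_cast.2 (Nat.one_le_iff_ne_zero.mpr (NeZero.ne q))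
  have hq0 : (0 : ℝ) < q := zero_lt_one.trans_le hq1
  have hq2 : (1 : ℝ) ≤ 2 * q := hq1.trans (le_mul_of_one_le_left hq0.le one_le_two)
  obtain ⟨hyε, hlog, hlog2⟩ := L_upper_log hq1 (le_add_of_nonneg_right (abs_nonneg s.im)) hε hK0 hK
  by_cases hχ : χ = 1
  · rw [if_pos hχ]
    have hκn : ‖(q.totient : ℂ) / q‖ ≤ 1 := by
      rw [norm_div, Complex.norm_natCast, Complex.norm_natCast, div_le_one hq0]
      exact Nat.cast_le.2 (Nat.totient_le q)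
    have hsum := L_upper_sum χ hχ
    generalize (q.totient : ℂ) / q = κ at hκn hsum
    have han : ∀ n : ℕ, ‖χ (n : ZMod q) - κ‖ ≤ 2 := fun n =>
      (norm_sub_le _ _).trans ((add_le_add (χ.norm_le_one _) hκn).trans_eq one_add_one_eq_two)
    have h3 := h1 (fun n => χ (n : ZMod q) - κ) (2 * q) hq2 han hsum s hs1 hs2
    have h4 := h2 s hs1 hs2
    rw [L_upper_split χ κ j s hs1 han]
    have hz0 : 0 ≤ 1 / ‖s - 1‖ ^ (j + 1) := one_div_nonneg.2 (pow_nonneg (norm_nonneg _) _)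
    refine (norm_add_le _ _).trans (L_upper_f1 hA hC₂0 hK0 hyε hz0 (h3.trans (L_upper_f3 hC₁0 hlog)) ?_)
    rw [norm_mul]
    exact L_upper_f4 hC₂0 hκn (norm_nonneg _) h4 hlog2
  · rw [if_neg hχ]
    have hsum : ∀ N : ℕ, ‖∑ n ∈ Icc 1 N, ch χ n‖ ≤ 2 * (q : ℝ) := by
      intro N
      have h3 := char_sum q χ N
      rw [if_neg hχ, zero_mul, sub_zero] at h3
      exact h3
    have h3 := h1 (ch χ) (2 * q) hq2
      (fun n => (χ.norm_le_one _).trans one_le_two) hsum s hs1 hs2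
    rw [add_zero, mul_one]
    exact h3.trans ((mul_le_mul_of_nonneg_left hlog hC₁0).trans (L_upper_f2 hC₂0 hK0 (zero_le_one.trans hyε)))

end Pool.Agent.Lib.MP_d9bc60_nt.UV
end

section
/-! Row W08 (about 60 lines): the trivial bounds. -/

set_option autoImplicit false

namespace Pool.Agent.Lib.MP_d9bc60_nt.UV

open Finset

/-- the trivial bound for a Dirichlet series with coefficients of modulus at most one -/
theorem w08_bound (a : ℕ → ℂ) (ha : ∀ n, ‖a n‖ ≤ 1) (s : ℂ) (hs : 1 < s.re) :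
    ‖LSeries a s‖ ≤ 1 + 1 / (s.re - 1) := by
  have hsum : Summable (fun n : ℕ => 1 / (n : ℝ) ^ s.re) := Real.summable_one_div_nat_rpow.2 hs
  have hle : ∀ n : ℕ, ‖LSeries.term a s n‖ ≤ 1 / (n : ℝ) ^ s.re := by
    intro n
    rw [LSeries.norm_term_eq]
    split_ifs with h
    · positivity
    · exact div_le_div_of_nonneg_right (ha n) (by positivity)
  have hsn : Summable (fun n => ‖LSeries.term a s n‖) :=
    Summable.of_nonneg_of_le (fun n => norm_nonneg _) hle hsum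
  have h1 : ‖LSeries a s‖ ≤ ∑' n, ‖LSeries.term a s n‖ := norm_tsum_le_tsum_norm hsn
  have h2 : ∑' n, ‖LSeries.term a s n‖ ≤ ∑' n : ℕ, 1 / (n : ℝ) ^ s.re := hsn.tsum_le_tsum hle hsum
  have h3 : ∑' n : ℕ, 1 / (n : ℝ) ^ s.re = ∑' n : ℕ, 1 / ((n : ℝ) + 1) ^ s.re := by
    rw [hsum.tsum_eq_zero_add]
    have h4 : (1 : ℝ) / ((0 : ℕ) : ℝ) ^ s.re = 0 := by
      rw [Nat.cast_zero, Real.zero_rpow (by linarith), div_zero]
    rw [h4, zero_add]
    push_cast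
    rfl
  have h5 := ZetaAsymptotics.zeta_limit_aux1 hs
  have h6 : 0 ≤ ZetaAsymptotics.termTSum s.re :=
    tsum_nonneg (fun n => ZetaAsymptotics.term_nonneg _ _)
  have h7 : 0 ≤ s.re * ZetaAsymptotics.termTSum s.re := mul_nonneg (by linarith) h6
  linarith

/-- Proof. `‖L(s,χ)‖ ≤ ∑ n^{-σ} ≤ 1 + 1/(σ-1)`. -/
theorem L_le_triv (q : ℕ) [NeZero q] (χ : DirichletCharacter ℂ q) (s : ℂ) (hs : 1 < s.re) :
    ‖LSeries (ch χ) s‖ ≤ 1 + 1 / (s.re - 1) :=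
  w08_bound (ch χ) (fun _ => χ.norm_le_one _) s hs

/-- Proof. `L(s,χ) · LSeries (χ μ) s = 1` (`DirichletCharacter.LSeries.mul_mu_eq_one`) and
`‖LSeries (χμ) s‖ ≤ ∑ n^{-σ} ≤ 1 + 1/(σ-1) = σ/(σ-1)`. -/
theorem L_ge_triv (q : ℕ) [NeZero q] (χ : DirichletCharacter ℂ q) (s : ℂ) (hs : 1 < s.re) :
    (s.re - 1) / s.re ≤ ‖LSeries (ch χ) s‖ := by
  have h1 : LSeries (ch χ) s * LSeries ((fun n : ℕ => χ (n : ZMod q)) *
      fun n => ((ArithmeticFunction.moebius n : ℤ) : ℂ)) s = 1 :=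
    DirichletCharacter.LSeries.mul_mu_eq_one χ hs
  have h2 : ‖LSeries ((fun n : ℕ => χ (n : ZMod q)) *
      fun n => ((ArithmeticFunction.moebius n : ℤ) : ℂ)) s‖ ≤ 1 + 1 / (s.re - 1) := by
    refine w08_bound _ (fun n => ?_) s hs
    rw [Pi.mul_apply, norm_mul]
    have h3 : ‖χ (n : ZMod q)‖ ≤ 1 := χ.norm_le_one _
    have h4 : ‖((ArithmeticFunction.moebius n : ℤ) : ℂ)‖ ≤ 1 := by
      rw [Complex.norm_intCast]
      exact_mod_cast ArithmeticFunction.abs_moebius_le_one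
    calc ‖χ (n : ZMod q)‖ * ‖((ArithmeticFunction.moebius n : ℤ) : ℂ)‖ ≤ 1 * 1 :=
          mul_le_mul h3 h4 (norm_nonneg _) zero_le_one
      _ = 1 := one_mul _
  have h5 := congrArg norm h1
  rw [norm_mul, norm_one] at h5
  have hσ : 0 < s.re - 1 := by linarith
  have hσ' : 0 < s.re := by linarith
  have h6 : 1 + 1 / (s.re - 1) = s.re / (s.re - 1) := by field_simp; ring
  rw [h6] at h2
  have h7 : 1 ≤ ‖LSeries (ch χ) s‖ * (s.re / (s.re - 1)) :=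
    h5.symm.le.trans (mul_le_mul_of_nonneg_left h2 (norm_nonneg _))
  rw [div_le_iff₀ hσ']
  have h8 : ‖LSeries (ch χ) s‖ * (s.re / (s.re - 1)) * (s.re - 1) = ‖LSeries (ch χ) s‖ * s.re := by
    field_simp
  have h9 := mul_le_mul_of_nonneg_right h7 hσ.le
  rw [h8, one_mul] at h9
  exact h9

end Pool.Agent.Lib.MP_d9bc60_nt.UV
end

section
/-! Row W09 (about 190 lines): the 3-4-1 lower bound. -/

set_option autoImplicit false

namespace Pool.Agent.Lib.MP_d9bc60_nt.UV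

open Finset

theorem w09_lp_zero (a : ℕ → ℂ) : lp a 0 = a := by
  funext n
  simp [lp]

theorem w09_lp_one (a : ℕ → ℂ) : lp a 1 = LSeries.logMul a := by
  funext n
  rw [lp, LSeries.logMul, pow_one, mul_comm, ← Complex.natCast_log]

theorem w09_deriv {q : ℕ} [NeZero q] (χ : DirichletCharacter ℂ q) {s : ℂ} (hs : 1 < s.re) :
    HasDerivAt (LSeries (ch χ)) (-LSeries (lp (ch χ) 1) s) s := by
  rw [w09_lp_one]
  refine LSeries_hasDerivAt ?_
  have h1 : LSeries.abscissaOfAbsConv (ch χ) = 1 :=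
    DirichletCharacter.absicssaOfAbsConv_eq_one (NeZero.ne q) χ
  rw [h1]
  exact_mod_cast hs

/-- mean value inequality on a horizontal segment -/
theorem w09_mvt {q : ℕ} [NeZero q] (χ : DirichletCharacter ℂ q) {σ x t B : ℝ} (hσ : 1 < σ)
    (hx : σ ≤ 1 + x) (hx1 : x ≤ 1)
    (hB : ∀ s : ℂ, 1 < s.re → s.re ≤ 2 → s.im = t → ‖LSeries (lp (ch χ) 1) s‖ ≤ B) :
    ‖LSeries (ch χ) (1 + x + Complex.I * t)‖ ≤
      ‖LSeries (ch χ) (σ + Complex.I * t)‖ + B * x := by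
  have hB0 : 0 ≤ B := (norm_nonneg _).trans (hB (2 + Complex.I * t) (by simp) (by simp)
    (by simp))
  set S : Set ℂ := {z | 1 < z.re ∧ z.re ≤ 2 ∧ z.im = t} with hS
  have hconv : Convex ℝ S := by
    intro z hz w hw a b ha hb hab
    have hre : (a • z + b • w).re = a * z.re + b * w.re := by simp
    have him : (a • z + b • w).im = a * z.im + b * w.im := by simp
    obtain ⟨h1, h2, h3⟩ := hz
    obtain ⟨h4, h5, h6⟩ := hw
    refine ⟨?_, ?_, ?_⟩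
    · rw [hre]
      rcases eq_or_lt_of_le ha with h | h
      · rw [← h] at hab ⊢
        have : b = 1 := by linarith
        rw [this]
        linarith
      · nlinarith
    · rw [hre]
      nlinarith
    · rw [him, h3, h6, ← add_mul, hab, one_mul]
  have h1 := Convex.norm_image_sub_le_of_norm_hasDerivWithin_le (f := LSeries (ch χ))
    (f' := fun s => -LSeries (lp (ch χ) 1) s) (C := B) (s := S)
    (x := (σ + Complex.I * t : ℂ)) (y := (1 + x + Complex.I * t : ℂ))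
    (fun s hs => (w09_deriv χ hs.1).hasDerivWithinAt)
    (fun s hs => by
      rw [norm_neg]
      exact hB s hs.1 hs.2.1 hs.2.2) hconv
    (by
      refine ⟨?_, ?_, ?_⟩
      · simpa using hσ
      · simp
        linarith
      · simp)
    (by
      refine ⟨?_, ?_, ?_⟩
      · simp
        linarith
      · simp
        linarith
      · simp)
  have h2 : ‖(1 + x + Complex.I * t : ℂ) - (σ + Complex.I * t : ℂ)‖ ≤ x := by
    have h3 : (1 + x + Complex.I * t : ℂ) - (σ + Complex.I * t : ℂ) = ((1 + x - σ : ℝ) : ℂ) := by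
      push_cast
      ring
    rw [h3, Complex.norm_real, Real.norm_eq_abs, abs_of_nonneg (by linarith)]
    linarith
  have h4 := norm_sub_norm_le (LSeries (ch χ) (1 + x + Complex.I * t))
    (LSeries (ch χ) (σ + Complex.I * t))
  have h5 := mul_le_mul_of_nonneg_left h2 hB0
  linarith

theorem w09_real {l x B : ℝ} (hl : 0 ≤ l) (hB : 1 ≤ B) (hx : x = (2 : ℝ)⁻¹ ^ 12 * B⁻¹ ^ 5)
    (h : 1 ≤ (2 / x) ^ 3 * l ^ 4 * B) : (2 : ℝ)⁻¹ ^ 10 * B⁻¹ ^ 4 ≤ l := by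
  have hB0 : 0 < B := by linarith
  by_contra hlt
  push Not at hlt
  have h1 : l ^ 4 < ((2 : ℝ)⁻¹ ^ 10 * B⁻¹ ^ 4) ^ 4 := pow_lt_pow_left₀ hlt hl (by norm_num)
  have hx0 : 0 < x := by rw [hx]; positivity
  have h2 : (2 / x) ^ 3 * l ^ 4 * B < (2 / x) ^ 3 * ((2 : ℝ)⁻¹ ^ 10 * B⁻¹ ^ 4) ^ 4 * B := by
    have : 0 < (2 / x) ^ 3 := by positivity
    exact mul_lt_mul_of_pos_right (mul_lt_mul_of_pos_left h1 this) hB0
  have h3 : (2 / x) ^ 3 * ((2 : ℝ)⁻¹ ^ 10 * B⁻¹ ^ 4) ^ 4 * B = 1 / 2 := by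
    have hBB : B * B⁻¹ = 1 := mul_inv_cancel₀ hB0.ne'
    have h2x : 2 / x = 2 ^ 13 * B ^ 5 := by
      rw [hx, div_eq_iff (by positivity)]
      calc (2 : ℝ) = 2 * (B * B⁻¹) ^ 5 := by rw [hBB]; norm_num
        _ = 2 ^ 13 * B ^ 5 * ((2 : ℝ)⁻¹ ^ 12 * B⁻¹ ^ 5) := by ring
    rw [h2x]
    calc ((2 : ℝ) ^ 13 * B ^ 5) ^ 3 * ((2 : ℝ)⁻¹ ^ 10 * B⁻¹ ^ 4) ^ 4 * B =
          ((2 : ℝ) ^ 39 * (2 : ℝ)⁻¹ ^ 40) * (B * B⁻¹) ^ 16 := by ring
      _ = 1 / 2 := by rw [hBB]; norm_num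
  linarith

theorem L_lower_K {p C0 C1 : ℝ} (hp : 1 ≤ p) (h0 : 1 ≤ C0) (h1 : 1 ≤ C1) :
    1 ≤ 2 * p * C0 * C1 ∧ 2 * p * C0 ≤ 2 * p * C0 * C1 ∧ 2 * C1 ≤ 2 * p * C0 * C1 := by
  have hpC : 1 ≤ p * C0 := one_le_mul_of_one_le_of_one_le hp h0
  have h2 : 2 ≤ 2 * p * C0 := by linarith only [hpC]
  have h3 : 2 * p * C0 ≤ 2 * p * C0 * C1 :=
    le_mul_of_one_le_right (by linarith only [h2]) h1
  exact ⟨by linarith only [h2, h3], h3, mul_le_mul_of_nonneg_right h2 (by linarith only [h1])⟩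

theorem L_lower_inv {x y : ℝ} (hx : 0 < x) (h : x ≤ y) : 1 / y ≤ x⁻¹ := by
  rw [one_div]
  exact inv_anti₀ hx h

theorem L_lower_inv2 {x y : ℝ} (hx : 0 < x) (h : x ≤ y) : 1 / y ^ (1 + 1) ≤ x⁻¹ ^ 2 := by
  rw [inv_pow, one_div]
  exact inv_anti₀ (pow_pos hx 2) (pow_le_pow_left₀ hx.le h 2)

theorem L_lower_two {u a : ℝ} (ha : 1 ≤ a) (h : u ≤ a) : 1 + u ≤ 2 * a := by linarith only [ha, h]

theorem L_lower_two0 {a : ℝ} (ha : 1 ≤ a) : 1 + (0 : ℝ) ≤ 2 * a := by linarith only [ha]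

theorem L_lower_c1 {q : ℕ} [NeZero q] (χ : DirichletCharacter ℂ q) {t τ : ℝ} (hτ : 0 < τ) (hτi2 : 1 ≤ τ⁻¹ ^ 2)
    (hor : χ ^ 2 ≠ 1 ∨ τ ≤ |t|) (s' : ℂ) (h3 : s'.im = t) :
    (1 + if χ = 1 then 1 / ‖s' - 1‖ ^ (1 + 1) else 0 : ℝ) ≤ 2 * τ⁻¹ ^ 2 := by
  split_ifs with hχ
  · have hτt : τ ≤ |t| := hor.resolve_left (fun h => h (by rw [hχ, one_pow]))
    have h7 := Complex.abs_im_le_norm (s' - 1)
    rw [Complex.sub_im, Complex.one_im, sub_zero, h3] at h7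
    exact L_lower_two hτi2 (L_lower_inv2 hτ (hτt.trans h7))
  · exact L_lower_two0 hτi2

theorem L_lower_c2 {q : ℕ} [NeZero q] (χ : DirichletCharacter ℂ q) {t τ : ℝ} (hτ : 0 < τ) (hτi : 1 ≤ τ⁻¹)
    (hor : χ ^ 2 ≠ 1 ∨ τ ≤ |t|) (w : ℂ) (h3 : w.im = 2 * t) :
    (1 + if χ ^ 2 = 1 then 1 / ‖w - 1‖ ^ (0 + 1) else 0 : ℝ) ≤ 2 * τ⁻¹ ^ 2 := by
  have hτi2 : 1 ≤ τ⁻¹ ^ 2 := one_le_pow₀ hτi
  split_ifs with hχ
  · have hτt : τ ≤ |t| := hor.resolve_left (fun h => h hχ)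
    have h7 := Complex.abs_im_le_norm (w - 1)
    rw [Complex.sub_im, Complex.one_im, sub_zero, h3, abs_mul, abs_two] at h7
    have h8 : τ ≤ ‖w - 1‖ := by linarith only [h7, hτt, hτ]
    rw [zero_add, pow_one]
    exact L_lower_two hτi2 ((L_lower_inv hτ h8).trans (le_self_pow₀ hτi two_ne_zero))
  · exact L_lower_two0 hτi2

theorem L_lower_c2n {q : ℕ} [NeZero q] (χ : DirichletCharacter ℂ q) (w : ℂ) :
    (0 : ℝ) ≤ 1 + if χ ^ 2 = 1 then 1 / ‖w - 1‖ ^ (0 + 1) else 0 := by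
  split_ifs
  · have h1 : (0 : ℝ) ≤ 1 / ‖w - 1‖ ^ (0 + 1) := div_nonneg zero_le_one (pow_nonneg (norm_nonneg _) _)
    linarith only [h1]
  · norm_num

theorem L_lower_D {e Q t : ℝ} (he : 0 < e) (hQ : 0 ≤ Q) :
    (Q * (2 + |2 * t|)) ^ e ≤ (2 : ℝ) ^ e * (Q * (2 + |t|)) ^ e := by
  have ht : 0 ≤ |t| := abs_nonneg t
  have h1 : 0 ≤ Q * (2 + |t|) := mul_nonneg hQ (by linarith only [ht])
  rw [← Real.mul_rpow zero_le_two h1]
  have h2 : Q * (2 + |2 * t|) ≤ 2 * (Q * (2 + |t|)) := by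
    rw [abs_mul, abs_two]
    linarith only [hQ]
  exact Real.rpow_le_rpow (mul_nonneg hQ (by linarith only [abs_nonneg (2 * t)])) h2 he.le

theorem L_lower_m1 {l C1 K E a u : ℝ} (hC : 0 ≤ C1) (hE : 0 ≤ E) (ha : 0 ≤ a)
    (h4 : l ≤ C1 * E * u) (h5 : u ≤ 2 * a) (hK : 2 * C1 ≤ K) : l ≤ K * E * a := by
  have h6 : C1 * E * u ≤ C1 * E * (2 * a) := mul_le_mul_of_nonneg_left h5 (mul_nonneg hC hE)
  have h7 : 2 * C1 * (E * a) ≤ K * (E * a) := mul_le_mul_of_nonneg_right hK (mul_nonneg hE ha)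
  linarith only [h4, h6, h7]

theorem L_lower_m2 {l C0 K E F p a u : ℝ} (hC : 0 ≤ C0) (hE : 0 ≤ E) (ha : 0 ≤ a) (hp : 0 ≤ p)
    (h4 : l ≤ C0 * F * u) (h5 : u ≤ 2 * a) (hu : 0 ≤ u) (hF : F ≤ p * E)
    (hK : 2 * p * C0 ≤ K) : l ≤ K * E * a := by
  have h6 : C0 * F * u ≤ C0 * (p * E) * (2 * a) :=
    mul_le_mul (mul_le_mul_of_nonneg_left hF hC) h5 hu (mul_nonneg hC (mul_nonneg hp hE))
  have h7 : 2 * p * C0 * (E * a) ≤ K * (E * a) := mul_le_mul_of_nonneg_right hK (mul_nonneg hE ha)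
  linarith only [h4, h6, h7]

theorem L_lower_r1 {x r : ℝ} (hr : 1 < r) (hr2 : r ≤ 2) (h : 1 + x ≤ r) :
    x / 2 ≤ (r - 1) / r := by
  have hr0 : 0 < r := lt_trans zero_lt_one hr
  rw [div_le_div_iff₀ two_pos hr0]
  have h9 : x * r ≤ (r - 1) * r :=
    mul_le_mul_of_nonneg_right (by linarith only [h]) hr0.le
  have h10 : (r - 1) * r ≤ (r - 1) * 2 :=
    mul_le_mul_of_nonneg_left hr2 (by linarith only [hr])
  exact h9.trans h10

theorem L_lower_r3 {x : ℝ} (hx : 0 < x) (hx1 : x ≤ 1) : 1 + 1 / x ≤ 2 / x := by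
  have h6 : 1 ≤ 1 / x := (one_le_div₀ hx).2 hx1
  rw [← one_add_one_eq_two, add_div]
  exact add_le_add_left h6 _

theorem L_lower_r4 {B : ℝ} (hB : 0 < B) :
    B * ((2 : ℝ)⁻¹ ^ 12 * B⁻¹ ^ 5) = (2 : ℝ)⁻¹ ^ 12 * B⁻¹ ^ 4 := by
  have h : B * B⁻¹ = 1 := mul_inv_cancel₀ hB.ne'
  calc B * ((2 : ℝ)⁻¹ ^ 12 * B⁻¹ ^ 5) = (B * B⁻¹) * ((2 : ℝ)⁻¹ ^ 12 * B⁻¹ ^ 4) := by ring
    _ = (2 : ℝ)⁻¹ ^ 12 * B⁻¹ ^ 4 := by rw [h, one_mul]

theorem L_lower_r2 {b l n : ℝ} (hb : 0 < b) (hb1 : b ≤ 1)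
    (h1 : l ≤ n + (2 : ℝ)⁻¹ ^ 12 * b ^ 4) (h6 : (2 : ℝ)⁻¹ ^ 10 * b ^ 4 ≤ l) :
    (2 : ℝ)⁻¹ ^ 13 * b ^ 5 ≤ n := by
  have h8 : b ^ 5 ≤ b ^ 4 := pow_le_pow_of_le_one hb.le hb1 (by norm_num)
  have h9 : (0 : ℝ) < b ^ 4 := pow_pos hb 4
  norm_num at h1 h6 ⊢
  linarith only [h1, h6, h8, h9]

theorem L_lower_x {B : ℝ} (hB1 : 1 ≤ B) :
    0 < (2 : ℝ)⁻¹ ^ 12 * B⁻¹ ^ 5 ∧ (2 : ℝ)⁻¹ ^ 12 * B⁻¹ ^ 5 ≤ 1 := by
  have hBi : B⁻¹ ≤ 1 := inv_le_one_of_one_le₀ hB1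
  have hBi0 : 0 < B⁻¹ := inv_pos.2 (lt_of_lt_of_le zero_lt_one hB1)
  have hBi5 : B⁻¹ ^ 5 ≤ 1 := pow_le_one₀ hBi0.le hBi
  have h2 : (2 : ℝ)⁻¹ ^ 12 ≤ 1 := by norm_num
  exact ⟨mul_pos (pow_pos (inv_pos.2 two_pos) 12) (pow_pos hBi0 5),
    mul_le_one₀ h2 (pow_nonneg hBi0.le 5) hBi5⟩

theorem L_lower_L1 (q : ℕ) [NeZero q] {x : ℝ} (hx0 : 0 < x) (hx1 : x ≤ 1) :
    ‖LSeries (ch (1 : DirichletCharacter ℂ q)) (1 + x)‖ ≤ 2 / x := by
  have h5 : ((1 : ℂ) + x).re = 1 + x := by simp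
  have h4 := L_le_triv q (1 : DirichletCharacter ℂ q) (1 + x) (by rw [h5]; linarith only [hx0])
  rw [h5, add_sub_cancel_left] at h4
  exact h4.trans (L_lower_r3 hx0 hx1)

theorem L_lower_prod {a c u l B : ℝ} (h2 : 1 ≤ a ^ 3 * l ^ 4 * c) (ha : 0 ≤ a) (hau : a ≤ u)
    (hc : c ≤ B) (hc0 : 0 ≤ c) (hl : 0 ≤ l) : 1 ≤ u ^ 3 * l ^ 4 * B :=
  h2.trans (mul_le_mul (mul_le_mul_of_nonneg_right (pow_le_pow_left₀ ha hau 3) (pow_nonneg hl 4)) hc hc0
    (mul_nonneg (pow_nonneg (ha.trans hau) 3) (pow_nonneg hl 4)))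

theorem L_lower_h5 {q : ℕ} [NeZero q] (χ : DirichletCharacter ℂ q) {t B x : ℝ} (hx0 : 0 < x) (hx1 : x ≤ 1)
    (h4 : ‖LSeries (ch (χ ^ 2)) (1 + x + 2 * Complex.I * t)‖ ≤ B) :
    1 ≤ (2 / x) ^ 3 * ‖LSeries (ch χ) (1 + x + Complex.I * t)‖ ^ 4 * B := by
  have h2 := DirichletCharacter.norm_LSeries_product_ge_one χ hx0 t
  rw [norm_mul, norm_mul, norm_pow, norm_pow] at h2
  exact L_lower_prod h2 (norm_nonneg _) (L_lower_L1 q hx0 hx1) h4 (norm_nonneg _) (norm_nonneg _)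

theorem L_lower_core {q : ℕ} [NeZero q] (χ : DirichletCharacter ℂ q) (s : ℂ) {B : ℝ} (hB1 : 1 ≤ B)
    (hs : 1 < s.re) (hs2 : s.re ≤ 2)
    (hder : ∀ s' : ℂ, 1 < s'.re → s'.re ≤ 2 → s'.im = s.im → ‖LSeries (lp (ch χ) 1) s'‖ ≤ B)
    (hsq : ∀ x : ℝ, 0 < x → x ≤ 1 → ‖LSeries (ch (χ ^ 2)) (1 + x + 2 * Complex.I * s.im)‖ ≤ B) :
    (2 : ℝ)⁻¹ ^ 13 * B⁻¹ ^ 5 ≤ ‖LSeries (ch χ) s‖ := by
  have hB0 : 0 < B := lt_of_lt_of_le zero_lt_one hB1
  obtain ⟨x, hx⟩ : ∃ x : ℝ, x = (2 : ℝ)⁻¹ ^ 12 * B⁻¹ ^ 5 := ⟨_, rfl⟩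
  have hx01 := L_lower_x hB1
  rw [← hx] at hx01
  obtain ⟨hx0, hx1⟩ := hx01
  rcases le_or_gt (1 + x) s.re with h | h
  · have h3 : (2 : ℝ)⁻¹ ^ 13 * B⁻¹ ^ 5 = x / 2 := by
      rw [hx, pow_succ]
      ring
    rw [h3]
    exact (L_lower_r1 hs hs2 h).trans (L_ge_triv q χ s hs)
  · have h1 := w09_mvt χ (σ := s.re) (x := x) (t := s.im) (B := B) hs h.le hx1 hder
    have hseq : (s.re + Complex.I * s.im : ℂ) = s := by
      rw [mul_comm]
      exact Complex.re_add_im s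
    rw [hseq] at h1
    have h6 := w09_real (norm_nonneg _) hB1 hx (L_lower_h5 χ hx0 hx1 (hsq x hx0 hx1))
    have h7 : B * x = (2 : ℝ)⁻¹ ^ 12 * B⁻¹ ^ 4 := by rw [hx]; exact L_lower_r4 hB0
    rw [h7] at h1
    exact L_lower_r2 (inv_pos.2 hB0) (inv_le_one_of_one_le₀ hB1) h1 h6

theorem L_lower_fin {K τ D ε : ℝ} (hD : 0 < D) :
    (K * D ^ (ε / 5) * τ⁻¹ ^ 2)⁻¹ ^ 5 = K⁻¹ ^ 5 * τ ^ 10 * D ^ (-ε) := by
  have h12 : (D ^ (ε / 5)) ^ 5 = D ^ ε := by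
    rw [← Real.rpow_natCast, ← Real.rpow_mul hD.le]
    congr 1
    push_cast
    ring
  rw [Real.rpow_neg hD.le, ← h12, mul_inv, mul_inv, inv_pow τ 2, inv_inv, mul_pow, mul_pow, ← inv_pow (D ^ (ε / 5)) 5]
  ring

/-- Proof. `B = C (q(2+|t|))^ε' τ^(-2)`, `C` large, bounds (i) `‖L(σ'+2it, χ²)‖` for all
`σ' ∈ (1,2]` (`L_upper 0`; if `χ² = 1` then `‖σ'+2it-1‖ ≥ 2|t| ≥ 2τ`) and (ii)
`‖L'(σ'+it, χ)‖ = ‖LSeries (lp (ch χ) 1)‖` for all `σ' ∈ (1,2]` (`L_upper 1`; if `χ = 1` then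
`χ² = 1`, so `|t| ≥ τ`). For `0 < x ≤ 1`: `DirichletCharacter.norm_LSeries_product_ge_one` and
`L_le_triv` for `L(1+x, 1) ≤ 2/x` give
`‖L(1+x+it, χ)‖ ≥ (x/2)^(3/4) B^(-1/4)`. Let `x₀ = 2^(-12) B^(-5) ≤ 1`. If `σ ≥ 1 + x₀`: `L_ge_triv`
gives `‖L‖ ≥ x₀/2`. If `σ < 1 + x₀`: `‖L(σ+it) - L(1+x₀+it)‖ ≤ x₀ B` (mean value inequality,
`LSeries_hasDerivAt`), and `x₀ B ≤ ½ (x₀/2)^(3/4) B^(-1/4)`. In both cases
`‖L‖ ≥ c B^(-5)`, so take `ε' = ε/5`. -/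
theorem L_lower (ε : ℝ) (hε : 0 < ε) : ∃ c : ℝ, 0 < c ∧
    ∀ (q : ℕ) [NeZero q] (χ : DirichletCharacter ℂ q) (τ : ℝ) (s : ℂ), 0 < τ → τ ≤ 1 →
    1 < s.re → s.re ≤ 2 → (χ ^ 2 ≠ 1 ∨ τ ≤ |s.im|) →
    c * τ ^ 10 * ((q : ℝ) * (2 + |s.im|)) ^ (-ε) ≤ ‖LSeries (ch χ) s‖ := by
  have hε5 : 0 < ε / 5 := div_pos hε (by norm_num)
  obtain ⟨C0, hC0, hU0⟩ := L_upper 0 (ε / 5) hε5
  obtain ⟨C1, hC1, hU1⟩ := L_upper 1 (ε / 5) hε5
  have h2ε : (1 : ℝ) ≤ (2 : ℝ) ^ (ε / 5) := Real.one_le_rpow one_le_two hε5.le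
  obtain ⟨hK1, hKa, hKb⟩ := L_lower_K h2ε hC0 hC1
  generalize 2 * (2 : ℝ) ^ (ε / 5) * C0 * C1 = K at hK1 hKa hKb
  have hK0 : 0 < K := lt_of_lt_of_le zero_lt_one hK1
  have hC0' : 0 ≤ C0 := zero_le_one.trans hC0
  have hC1' : 0 ≤ C1 := zero_le_one.trans hC1
  refine ⟨(2 : ℝ)⁻¹ ^ 13 * K⁻¹ ^ 5, mul_pos (pow_pos (inv_pos.2 two_pos) 13) (pow_pos (inv_pos.2 hK0) 5), ?_⟩
  intro q _ χ τ s hτ hτ1 hs hs2 hor
  have hq1 : (1 : ℝ) ≤ q := Nat.one_le_cast.2 (NeZero.one_le)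
  have hq0 : (0 : ℝ) ≤ q := zero_le_one.trans hq1
  have hD1 : 1 ≤ (q : ℝ) * (2 + |s.im|) :=
    one_le_mul_of_one_le_of_one_le hq1 (by linarith only [abs_nonneg s.im])
  have hE1 : 1 ≤ ((q : ℝ) * (2 + |s.im|)) ^ (ε / 5) := Real.one_le_rpow hD1 hε5.le
  have hE0 : 0 ≤ ((q : ℝ) * (2 + |s.im|)) ^ (ε / 5) := zero_le_one.trans hE1
  have hτi : 1 ≤ τ⁻¹ := (one_le_inv₀ hτ).mpr hτ1
  have hτi2 : 1 ≤ τ⁻¹ ^ 2 := one_le_pow₀ hτi
  have hτi0 : 0 ≤ τ⁻¹ ^ 2 := zero_le_one.trans hτi2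
  have hB1 : 1 ≤ K * ((q : ℝ) * (2 + |s.im|)) ^ (ε / 5) * τ⁻¹ ^ 2 :=
    one_le_mul_of_one_le_of_one_le (one_le_mul_of_one_le_of_one_le hK1 hE1) hτi2
  have hder : ∀ s' : ℂ, 1 < s'.re → s'.re ≤ 2 → s'.im = s.im →
      ‖LSeries (lp (ch χ) 1) s'‖ ≤ K * ((q : ℝ) * (2 + |s.im|)) ^ (ε / 5) * τ⁻¹ ^ 2 := by
    intro s' h1 h2 h3
    have h4 := hU1 q χ s' h1 h2
    rw [h3] at h4
    exact L_lower_m1 hC1' hE0 hτi0 h4 (L_lower_c1 χ hτ hτi2 hor s' h3) hKb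
  have hsq : ∀ x : ℝ, 0 < x → x ≤ 1 →
      ‖LSeries (ch (χ ^ 2)) (1 + x + 2 * Complex.I * s.im)‖ ≤
        K * ((q : ℝ) * (2 + |s.im|)) ^ (ε / 5) * τ⁻¹ ^ 2 := by
    intro x hx hx1
    have hre : (1 + x + 2 * Complex.I * s.im : ℂ).re = 1 + x := by simp
    have him : (1 + x + 2 * Complex.I * s.im : ℂ).im = 2 * s.im := by simp
    have h4 := hU0 q (χ ^ 2) (1 + x + 2 * Complex.I * s.im) (by rw [hre]; linarith only [hx])
      (by rw [hre]; linarith only [hx1])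
    rw [w09_lp_zero, him] at h4
    exact L_lower_m2 hC0' hE0 hτi0 (zero_le_one.trans h2ε) h4 (L_lower_c2 χ hτ hτi hor _ him)
      (L_lower_c2n χ _) (L_lower_D hε5 hq0) hKa
  have hmain := L_lower_core χ s hB1 hs hs2 hder hsq
  rw [L_lower_fin (zero_lt_one.trans_le hD1), ← mul_assoc, ← mul_assoc] at hmain
  exact hmain

end Pool.Agent.Lib.MP_d9bc60_nt.UV
end

section
/-! Row W19 (about 170 lines): derivatives of the logarithmic derivative, pointwise. -/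

set_option autoImplicit false

namespace Pool.Agent.Lib.MP_d9bc60_nt.UV

open Finset

/-- The coefficients `χ(n) Λ(n)`. -/
noncomputable def chL {q : ℕ} (χ : DirichletCharacter ℂ q) : ℕ → ℂ :=
  fun n => χ (n : ZMod q) * (vm n : ℂ)

theorem w19_iter (a : ℕ → ℂ) (j : ℕ) : (LSeries.logMul^[j] a) = lp a j := by
  induction j with
  | zero => funext n; simp [lp]
  | succ j ih =>
    rw [Function.iterate_succ_apply', ih]
    funext n
    simp only [LSeries.logMul, lp]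
    rw [← Complex.natCast_log]
    ring

theorem w19_abs_chL {q : ℕ} (χ : DirichletCharacter ℂ q) {s : ℂ} (hs : 1 < s.re) :
    LSeries.abscissaOfAbsConv (chL χ) < s.re := by
  refine lt_of_le_of_lt (b := ((1 : ℝ) : EReal)) ?_ (by exact_mod_cast hs)
  apply LSeries.abscissaOfAbsConv_le_of_forall_lt_LSeriesSummable
  intro y hy
  have h := DirichletCharacter.LSeriesSummable_twist_vonMangoldt χ (s := (y : ℂ)) (by simpa using hy)
  exact h

theorem w19_abs_ch {q : ℕ} [NeZero q] (χ : DirichletCharacter ℂ q) {s : ℂ} (hs : 1 < s.re) :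
    LSeries.abscissaOfAbsConv (ch χ) < s.re := by
  refine lt_of_le_of_lt (b := ((1 : ℝ) : EReal)) ?_ (by exact_mod_cast hs)
  apply LSeries.abscissaOfAbsConv_le_of_forall_lt_LSeriesSummable
  intro y hy
  exact (DirichletCharacter.LSeriesSummable_iff (NeZero.ne q) χ).mpr (by simpa using hy)

theorem w19_mul {q : ℕ} [NeZero q] (χ : DirichletCharacter ℂ q) {s : ℂ} (hs : 1 < s.re) :
    LSeries (chL χ) s * LSeries (ch χ) s = LSeries (lp (ch χ) 1) s := by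
  have hχ : LSeriesSummable (ch χ) s := (DirichletCharacter.LSeriesSummable_iff (NeZero.ne q) χ).mpr hs
  have h1 : LSeries (chL χ) s = -deriv (LSeries (ch χ)) s / LSeries (ch χ) s :=
    DirichletCharacter.LSeries_twist_vonMangoldt_eq χ hs
  have h2 : LSeries (ch χ) s ≠ 0 := DirichletCharacter.LSeries_ne_zero_of_one_lt_re χ hs
  rw [eq_div_iff h2] at h1
  have h3 := LSeries_deriv (w19_abs_ch χ hs)
  have h4 := w19_iter (ch χ) 1
  rw [← h4]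
  have h5 : LSeries (chL χ) s * LSeries (ch χ) s = -deriv (LSeries (ch χ)) s := h1
  rw [h5, h3, neg_neg]
  rfl

/-- Leibniz. -/
theorem w19_leib {q : ℕ} [NeZero q] (χ : DirichletCharacter ℂ q) {s : ℂ} (hs : 1 < s.re) (k : ℕ) :
    ∑ i ∈ range (k + 1), (k.choose i : ℂ) * LSeries (lp (chL χ) i) s * LSeries (lp (ch χ) (k - i)) s
      = LSeries (lp (ch χ) (k + 1)) s := by
  have hopen : IsOpen {z : ℂ | 1 < z.re} := isOpen_lt continuous_const Complex.continuous_re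
  have hev : (fun z => LSeries (chL χ) z * LSeries (ch χ) z) =ᶠ[nhds s]
      (fun z => LSeries (lp (ch χ) 1) z) := by
    filter_upwards [hopen.mem_nhds hs] with z hz
    exact w19_mul χ hz
  have h1 := hev.iteratedDeriv_eq k
  have hf : ContDiffAt ℂ k (LSeries (chL χ)) s :=
    ((LSeries_analyticOnNhd (chL χ)) s (w19_abs_chL χ hs)).contDiffAt
  have hg : ContDiffAt ℂ k (LSeries (ch χ)) s :=
    ((LSeries_analyticOnNhd (ch χ)) s (w19_abs_ch χ hs)).contDiffAt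
  have h2 : iteratedDeriv k (fun z => LSeries (chL χ) z * LSeries (ch χ) z) s =
      ∑ i ∈ range (k + 1), (k.choose i : ℂ) * iteratedDeriv i (LSeries (chL χ)) s *
        iteratedDeriv (k - i) (LSeries (ch χ)) s := iteratedDeriv_mul hf hg
  have h3 : iteratedDeriv k (fun z => LSeries (lp (ch χ) 1) z) s =
      (-1) ^ k * LSeries (lp (ch χ) (k + 1)) s := by
    have h4 : LSeries.abscissaOfAbsConv (lp (ch χ) 1) < s.re := by
      rw [← w19_iter, LSeries.absicssaOfAbsConv_logPowMul]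
      exact w19_abs_ch χ hs
    have h5 := LSeries_iteratedDeriv k h4
    rw [← w19_iter (ch χ) (k + 1), Function.iterate_succ_apply, ← w19_iter (ch χ) 1] at *
    exact h5
  rw [h2, h3] at h1
  have h6 : ∀ i ∈ range (k + 1), (k.choose i : ℂ) * iteratedDeriv i (LSeries (chL χ)) s *
        iteratedDeriv (k - i) (LSeries (ch χ)) s = (-1) ^ k * ((k.choose i : ℂ) *
        LSeries (lp (chL χ) i) s * LSeries (lp (ch χ) (k - i)) s) := by
    intro i hi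
    rw [mem_range] at hi
    rw [LSeries_iteratedDeriv i (w19_abs_chL χ hs), LSeries_iteratedDeriv (k - i) (w19_abs_ch χ hs),
      w19_iter, w19_iter]
    have h7 : ((-1 : ℂ)) ^ k = (-1) ^ i * (-1) ^ (k - i) := by
      rw [← pow_add]; congr 1; omega
    rw [h7]
    ring
  rw [sum_congr rfl h6, ← mul_sum] at h1
  exact mul_left_cancel₀ (pow_ne_zero _ (by norm_num)) h1

/-- Proof. On `Re s > 1`: `f = LSeries (chL χ)`, `l = LSeries (ch χ)`, `f · l = -l'`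
(`DirichletCharacter.LSeries_twist_vonMangoldt_eq`). Differentiate `k` times (both analytic on the
open half plane; Leibniz `iteratedDeriv_mul` or `iteratedDerivWithin_mul`):
`∑_{i ≤ k} C(k,i) f^{(i)} l^{(k-i)} = -l^{(k+1)}`. Up to sign `f^{(i)} = LSeries (lp (chL χ) i)`,
`l^{(i)} = LSeries (lp (ch χ) i)` (`LSeries_iteratedDeriv`, `logMul`; note `Complex.log n = Real.log n`
as `Complex.ofReal`). So `‖f^{(k)}‖ ≤ U (U + 2^k U max_{i<k} ‖f^{(i)}‖)` and induction (strong, with the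
same `U`) gives `‖f^{(k)}‖ ≤ C_k U^(2k+2)`. (Alternative: the convolution identity
`χ(n)(log n)^(k+1) = ∑_i C(k,i) (χΛ log^i * χ log^(k-i))(n)`.) -/
theorem logder (k : ℕ) : ∃ C : ℝ, 1 ≤ C ∧
    ∀ (q : ℕ) [NeZero q] (χ : DirichletCharacter ℂ q) (s : ℂ) (U : ℝ), 1 ≤ U → 1 < s.re →
    (∀ j ≤ k + 1, ‖LSeries (lp (ch χ) j) s‖ ≤ U) → 1 / U ≤ ‖LSeries (ch χ) s‖ →
    ‖LSeries (lp (chL χ) k) s‖ ≤ C * U ^ (2 * k + 2) := by
  induction k using Nat.strong_induction_on with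
  | _ k ih =>
    choose! c hc1 hc2 using ih
    refine ⟨1 + ∑ i ∈ range k, (k.choose i : ℝ) * c i, ?_, ?_⟩
    · have : 0 ≤ ∑ i ∈ range k, (k.choose i : ℝ) * c i := by
        apply sum_nonneg
        intro i hi
        have := hc1 i (mem_range.mp hi)
        positivity
      linarith
    · intro q _ χ s U hU hs hup hlo
      have hU0 : 0 < U := by linarith
      have h1 := w19_leib χ hs k
      rw [sum_range_succ, Nat.choose_self, Nat.sub_self] at h1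
      have h0 : lp (ch χ) 0 = ch χ := by funext n; simp [lp]
      rw [h0] at h1
      have h2 : LSeries (lp (chL χ) k) s * LSeries (ch χ) s = LSeries (lp (ch χ) (k + 1)) s -
          ∑ i ∈ range k, (k.choose i : ℂ) * LSeries (lp (chL χ) i) s *
            LSeries (lp (ch χ) (k - i)) s := by
        rw [← h1]; push_cast; ring
      have h3 : ‖LSeries (lp (chL χ) k) s‖ * ‖LSeries (ch χ) s‖ ≤
          U + ∑ i ∈ range k, (k.choose i : ℝ) * (c i * U ^ (2 * i + 2)) * U := by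
        rw [← norm_mul, h2]
        refine (norm_sub_le _ _).trans ?_
        refine add_le_add (hup (k + 1) le_rfl) ?_
        refine (norm_sum_le _ _).trans ?_
        apply sum_le_sum
        intro i hi
        rw [mem_range] at hi
        rw [norm_mul, norm_mul, Complex.norm_natCast]
        have h4 : ‖LSeries (lp (chL χ) i) s‖ ≤ c i * U ^ (2 * i + 2) :=
          hc2 i hi q χ s U hU hs (fun j hj => hup j (by omega)) hlo
        have h5 : ‖LSeries (lp (ch χ) (k - i)) s‖ ≤ U := hup _ (by omega)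
        have h6 := hc1 i hi
        gcongr
      have h7 : ‖LSeries (lp (chL χ) k) s‖ ≤ U * (‖LSeries (lp (chL χ) k) s‖ * ‖LSeries (ch χ) s‖) := by
        have h8 : 1 ≤ U * ‖LSeries (ch χ) s‖ := by
          have := mul_le_mul_of_nonneg_left hlo hU0.le
          rwa [mul_one_div_cancel hU0.ne'] at this
        nlinarith [norm_nonneg (LSeries (lp (chL χ) k) s)]
      have h9 : U * (U + ∑ i ∈ range k, (k.choose i : ℝ) * (c i * U ^ (2 * i + 2)) * U) ≤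
          (1 + ∑ i ∈ range k, (k.choose i : ℝ) * c i) * U ^ (2 * k + 2) := by
        rw [mul_add, add_mul, one_mul, mul_sum, sum_mul]
        apply add_le_add
        · calc U * U = U ^ 2 := by ring
            _ ≤ U ^ (2 * k + 2) := pow_le_pow_right₀ hU (by omega)
        · apply sum_le_sum
          intro i hi
          rw [mem_range] at hi
          have h6 := hc1 i hi
          calc U * ((k.choose i : ℝ) * (c i * U ^ (2 * i + 2)) * U)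
              = (k.choose i : ℝ) * c i * U ^ (2 * i + 4) := by ring
            _ ≤ (k.choose i : ℝ) * c i * U ^ (2 * k + 2) :=
                mul_le_mul_of_nonneg_left (pow_le_pow_right₀ hU (by omega)) (by positivity)
      exact h7.trans ((mul_le_mul_of_nonneg_left h3 hU0.le).trans h9)

end Pool.Agent.Lib.MP_d9bc60_nt.UV
end

end

section

/-!
# Row D_R2: bounds for the prime sum of a nonprincipal character
-/

open Complex MeasureTheory Set Filter Topology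
open scoped ComplexConjugate

namespace OO

/-- the two functions `ch` agree (definitions) -/
theorem D_ch_eq {q : ℕ} (χ : DirichletCharacter ℂ q) : ch χ = Pool.Agent.Lib.MP_d9bc60_nt.UV.ch χ := rfl

/-- Bounds of the L-function of any character away from the real axis, `UV.L_upper 0 1`
(`lp a 0 = a` pointwise, `LSeries_congr`) and `UV.L_lower 1` with `τ = 1/2` (file
MP_d9bc60_nt/UV/PLBounds.lean): for `|t| ≥ 1/2`, `s = 1 + w`, `t = im w`: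
`c (1+‖w‖)^(-1) ≤ ‖L(s,χ)‖ ≤ C (1+‖w‖)`; the factor `1 + 1/‖s-1‖` is at most `3`, and
`q (2+|t|) ≤ 2 q (1 + ‖w‖)`. Constants may depend on `q`. -/
theorem D_L_far (q : ℕ) [NeZero q] : ∃ C : ℝ, 1 ≤ C ∧ ∀ (χ : DirichletCharacter ℂ q) (w : ℂ),
    0 < w.re → w.re ≤ 1 → 1 / 2 ≤ |w.im| →
    ‖LSeries (ch χ) (1 + w)‖ ≤ C * (1 + ‖w‖) ∧ (C * (1 + ‖w‖))⁻¹ ≤ ‖LSeries (ch χ) (1 + w)‖ := by
  obtain ⟨C1, hC1, h1⟩ := Pool.Agent.Lib.MP_d9bc60_nt.UV.L_upper 0 1 one_pos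
  obtain ⟨c, hc, h2⟩ := Pool.Agent.Lib.MP_d9bc60_nt.UV.L_lower 1 one_pos
  have hq1 : (1 : ℝ) ≤ q := by exact_mod_cast Nat.one_le_iff_ne_zero.mpr (NeZero.ne q)
  have hq0 : (0 : ℝ) < q := by linarith only [hq1]
  refine ⟨6 * q * C1 + 2 ^ 11 * q / c, ?_, ?_⟩
  · have : 0 ≤ 2 ^ 11 * q / c := by positivity
    have h3 : 1 ≤ q * C1 := one_le_mul_of_one_le_of_one_le hq1 hC1
    nlinarith only [this, h3]
  intro χ w hw0 hw1 ht
  have hwn : |w.im| ≤ ‖w‖ := Complex.abs_im_le_norm w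
  have hw : (0 : ℝ) < 1 + ‖w‖ := by positivity
  have hre : (1 + w).re = 1 + w.re := by simp
  have him : (1 + w).im = w.im := by simp
  have hqt : (q : ℝ) * (2 + |w.im|) ≤ 2 * q * (1 + ‖w‖) := by nlinarith only [hq1, ht, hwn]
  have hqt0 : 0 < (q : ℝ) * (2 + |w.im|) := by positivity
  constructor
  · have h := h1 q χ (1 + w) (by rw [hre]; linarith only [hw0]) (by rw [hre]; linarith only [hw1])
    have e0 : Pool.Agent.Lib.MP_d9bc60_nt.UV.lp (Pool.Agent.Lib.MP_d9bc60_nt.UV.ch χ) 0 = ch χ := by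
      funext n
      simp [Pool.Agent.Lib.MP_d9bc60_nt.UV.lp, D_ch_eq]
    rw [e0, him, Real.rpow_one] at h
    refine h.trans ?_
    have h3 : (1 + if χ = 1 then 1 / ‖(1 + w) - 1‖ ^ (0 + 1) else 0) ≤ (3 : ℝ) := by
      split_ifs
      · rw [add_sub_cancel_left, zero_add, pow_one]
        have : 1 / ‖w‖ ≤ 2 := by
          rw [div_le_iff₀ (by linarith only [ht, hwn])]
          linarith only [ht, hwn]
        linarith only [this]
      · norm_num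
    have h30 : (0 : ℝ) ≤ (1 + if χ = 1 then 1 / ‖(1 + w) - 1‖ ^ (0 + 1) else 0) := by
      split_ifs <;> positivity
    calc C1 * ((q : ℝ) * (2 + |w.im|)) * (1 + if χ = 1 then 1 / ‖(1 + w) - 1‖ ^ (0 + 1) else 0)
        ≤ C1 * (2 * q * (1 + ‖w‖)) * 3 := by gcongr
      _ = 6 * q * C1 * (1 + ‖w‖) := by ring
      _ ≤ (6 * q * C1 + 2 ^ 11 * q / c) * (1 + ‖w‖) := by
        gcongr
        have : 0 ≤ 2 ^ 11 * q / c := by positivity
        linarith only [this]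
  · have h := h2 q χ (1 / 2) (1 + w) (by norm_num) (by norm_num) (by rw [hre]; linarith only [hw0])
      (by rw [hre]; linarith only [hw1]) (Or.inr (by rw [him]; exact ht))
    rw [← D_ch_eq, him, Real.rpow_neg_one] at h
    refine le_trans ?_ h
    have h4 : (2 * q * (1 + ‖w‖))⁻¹ ≤ ((q : ℝ) * (2 + |w.im|))⁻¹ := inv_anti₀ hqt0 hqt
    have h5 : c * (1 / 2) ^ 10 * (2 * q * (1 + ‖w‖))⁻¹ = ((2 ^ 11 * q / c) * (1 + ‖w‖))⁻¹ := by
      field_simp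
    calc ((6 * q * C1 + 2 ^ 11 * q / c) * (1 + ‖w‖))⁻¹ ≤ ((2 ^ 11 * q / c) * (1 + ‖w‖))⁻¹ := by
          apply inv_anti₀ (by positivity)
          gcongr
          have : 0 ≤ 6 * q * C1 := by positivity
          linarith only [this]
      _ = c * (1 / 2) ^ 10 * (2 * q * (1 + ‖w‖))⁻¹ := h5.symm
      _ ≤ c * (1 / 2) ^ 10 * ((q : ℝ) * (2 + |w.im|))⁻¹ := by gcongr

/-- `χ ≠ 1`. For `|t| ≥ 1/2`: `D_L_far` (`χ ^ 2 ≠ 1 ∨ τ ≤ |t|` is the second alternative) and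
`D_Rp_log`, logarithms. For `|t| < 1/2`: `w` lies in the compact set `K = {0 ≤ re ≤ 1, |im| ≤ 1/2}`, on
which `DirichletCharacter.LFunction χ (1+w)` is continuous (`DirichletCharacter.differentiable_LFunction`)
and not `0` (`DirichletCharacter.LFunction_ne_zero_of_one_le_re`), so
`c ≤ ‖L(1+w)‖ ≤ C` there; `DirichletCharacter.LFunction_eq_LSeries`. -/
theorem D_Rp_ne_one (q : ℕ) [NeZero q] (χ : DirichletCharacter ℂ q) (hχ : χ ≠ 1) :
    ∃ K : ℝ, 0 ≤ K ∧ ∀ w : ℂ, 0 < w.re → w.re ≤ 1 →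
      |Rp (ch χ) (1 + w)| ≤ K + 2 * Real.log (1 + ‖w‖) := by
  obtain ⟨K1, hK1, h1⟩ := D_Rp_log
  obtain ⟨C, hC, h2⟩ := D_L_far q
  have hcomp : IsCompact (Set.Icc (0 : ℝ) 1 ×ℂ Set.Icc (-(1 / 2) : ℝ) (1 / 2)) :=
    isCompact_Icc.reProdIm isCompact_Icc
  have hcont : ContinuousOn (fun w : ℂ => Real.log ‖DirichletCharacter.LFunction χ (1 + w)‖)
      (Set.Icc (0 : ℝ) 1 ×ℂ Set.Icc (-(1 / 2) : ℝ) (1 / 2)) := by
    intro w hw
    have hne : DirichletCharacter.LFunction χ (1 + w) ≠ 0 := by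
      apply DirichletCharacter.LFunction_ne_zero_of_one_le_re χ (Or.inl hχ)
      have := (Complex.mem_reProdIm.1 hw).1.1
      simp only [Complex.add_re, Complex.one_re]
      linarith only [this]
    apply ContinuousAt.continuousWithinAt
    have h3 : Continuous (fun w : ℂ => ‖DirichletCharacter.LFunction χ (1 + w)‖) :=
      ((DirichletCharacter.differentiable_LFunction hχ).continuous.comp (continuous_const.add continuous_id)).norm
    exact h3.continuousAt.log (norm_ne_zero_iff.2 hne)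
  obtain ⟨K2, hK2⟩ := hcomp.exists_bound_of_continuousOn hcont
  refine ⟨K1 + |K2| + Real.log C, ?_, ?_⟩
  · have : 0 ≤ Real.log C := Real.log_nonneg hC
    positivity
  intro w hw0 hw1
  have hlC : 0 ≤ Real.log C := Real.log_nonneg hC
  have hre : (1 + w).re = 1 + w.re := by simp
  have hw : 0 ≤ Real.log (1 + ‖w‖) := Real.log_nonneg (by linarith only [norm_nonneg w])
  have h3 := h1 q χ (1 + w) (by rw [hre]; linarith only [hw0])
  have h4 : |Real.log ‖LSeries (ch χ) (1 + w)‖| ≤ |K2| + Real.log C + 2 * Real.log (1 + ‖w‖) := by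
    rcases le_or_gt (1 / 2) |w.im| with ht | ht
    · obtain ⟨h5, h6⟩ := h2 χ w hw0 hw1 ht
      have hCw : 0 < C * (1 + ‖w‖) := by positivity
      have h7 : 0 < ‖LSeries (ch χ) (1 + w)‖ := lt_of_lt_of_le (by positivity) h6
      have h8 := Real.log_le_log h7 h5
      have h9 := Real.log_le_log (by positivity) h6
      rw [Real.log_inv] at h9
      have h10 : Real.log (C * (1 + ‖w‖)) = Real.log C + Real.log (1 + ‖w‖) :=
        Real.log_mul (by positivity) (by positivity)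
      rw [abs_le]
      have := abs_nonneg K2
      constructor <;> linarith only [hw, h9, h10, this, h8]
    · have hmem : w ∈ Set.Icc (0 : ℝ) 1 ×ℂ Set.Icc (-(1 / 2) : ℝ) (1 / 2) := by
        rw [Complex.mem_reProdIm]
        have := abs_lt.1 ht
        exact ⟨⟨hw0.le, hw1⟩, ⟨this.1.le, this.2.le⟩⟩
      have h5 := hK2 w hmem
      rw [DirichletCharacter.LFunction_eq_LSeries χ (by rw [hre]; linarith only [hw0])] at h5
      have h6 : |Real.log ‖LSeries (ch χ) (1 + w)‖| ≤ K2 := h5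
      have := le_abs_self K2
      linarith only [hlC, hw, h6, this]
  have h5 : |Rp (ch χ) (1 + w)| ≤ |Rp (ch χ) (1 + w) - Real.log ‖LSeries (ch χ) (1 + w)‖| +
      |Real.log ‖LSeries (ch χ) (1 + w)‖| := by
    have := abs_add_le (Rp (ch χ) (1 + w) - Real.log ‖LSeries (ch χ) (1 + w)‖)
      (Real.log ‖LSeries (ch χ) (1 + w)‖)
    rwa [sub_add_cancel] at this
  linarith only [h3, h4, h5]

end OO

end

section

/-!
# Row D_R3: bounds for the prime sum of the principal character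
-/

open Complex MeasureTheory Set Filter Topology
open scoped ComplexConjugate

namespace OO

/-- two-sided bound for the L-function of the principal character -/
theorem D_R3_bound (q : ℕ) [NeZero q] : ∃ C : ℝ, 1 ≤ C ∧ ∀ w : ℂ, 0 < w.re → w.re ≤ 1 →
    (C * (1 + ‖w‖) ^ 2)⁻¹ ≤ ‖LSeries (ch (1 : DirichletCharacter ℂ q)) (1 + w)‖ * ‖w‖ ∧
    ‖LSeries (ch (1 : DirichletCharacter ℂ q)) (1 + w)‖ * ‖w‖ ≤ C * (1 + ‖w‖) ^ 2 := by
  obtain ⟨Cz, hCz, hz⟩ := LZ.zeta_one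
  obtain ⟨C2, hC2, hf⟩ := D_L_far q
  set k := q.primeFactors.card with hk
  have hM1 : (1 : ℝ) ≤ max 1 Cz := le_max_left _ _
  have h2k : (1 : ℝ) ≤ 2 ^ k := one_le_pow₀ (by norm_num)
  have hA : (1 : ℝ) ≤ 2 ^ k * max 1 Cz := by nlinarith only [hM1, h2k]
  refine ⟨2 ^ k * max 1 Cz + C2 + 4, by linarith only [hC2, hA], fun w hw0 hw1 => ?_⟩
  set C := 2 ^ k * max 1 Cz + C2 + 4 with hC
  have hC1 : 1 ≤ C := by linarith only [hC2, hA]
  have hn0 : 0 < ‖w‖ := by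
    rw [norm_pos_iff]
    intro h
    rw [h] at hw0
    simp at hw0
  have hsq : 1 ≤ (1 + ‖w‖) ^ 2 := by nlinarith only [hn0]
  have hL0 : 0 ≤ ‖LSeries (ch (1 : DirichletCharacter ℂ q)) (1 + w)‖ := norm_nonneg _
  have hs : 1 < (1 + w).re := by simp; exact hw0
  -- general finishing step
  have key : ∀ D : ℝ, 1 ≤ D → D ≤ C → ∀ x : ℝ, (D * (1 + ‖w‖) ^ 2)⁻¹ ≤ x → x ≤ D * (1 + ‖w‖) ^ 2 →
      (C * (1 + ‖w‖) ^ 2)⁻¹ ≤ x ∧ x ≤ C * (1 + ‖w‖) ^ 2 := by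
    intro D hD hDC x h1 h2
    have h3 : D * (1 + ‖w‖) ^ 2 ≤ C * (1 + ‖w‖) ^ 2 := mul_le_mul_of_nonneg_right hDC (by positivity)
    refine ⟨(inv_anti₀ (by positivity) h3).trans h1, h2.trans h3⟩
  by_cases hw : ‖w‖ ≤ 1
  · -- near the pole
    have hwne : (1 + w : ℂ) ≠ 1 := by
      intro h
      have : w = 0 := by linear_combination h
      rw [this] at hn0
      simp at hn0
    have hLz : LSeries (ch (1 : DirichletCharacter ℂ q)) (1 + w) =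
        (∏ p ∈ q.primeFactors, (1 - (p : ℂ) ^ (-(1 + w)))) * riemannZeta (1 + w) := by
      rw [← DirichletCharacter.LFunctionTrivChar_eq_mul_riemannZeta hwne]
      exact (DirichletCharacter.LFunction_eq_LSeries (1 : DirichletCharacter ℂ q) hs).symm
    have hfac : ∀ p ∈ q.primeFactors, (1 / 2 : ℝ) ≤ ‖1 - (p : ℂ) ^ (-(1 + w))‖ ∧
        ‖1 - (p : ℂ) ^ (-(1 + w))‖ ≤ 2 := by
      intro p hp
      have hpp : p.Prime := Nat.prime_of_mem_primeFactors hp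
      have hp2 : (2 : ℝ) ≤ p := by exact_mod_cast hpp.two_le
      have hnorm : ‖(p : ℂ) ^ (-(1 + w))‖ ≤ 1 / 2 := by
        rw [Complex.norm_natCast_cpow_of_pos hpp.pos]
        have h1 : (-(1 + w)).re ≤ -1 := by
          simp only [Complex.neg_re, Complex.add_re, Complex.one_re]; linarith only [hw0]
        calc (p : ℝ) ^ (-(1 + w)).re ≤ (p : ℝ) ^ (-1 : ℝ) :=
              Real.rpow_le_rpow_of_exponent_le (by linarith only [hp2]) h1
          _ = (p : ℝ)⁻¹ := Real.rpow_neg_one _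
          _ ≤ 1 / 2 := by rw [one_div]; exact inv_anti₀ (by norm_num) hp2
      constructor
      · have h1 := norm_sub_norm_le (1 : ℂ) ((p : ℂ) ^ (-(1 + w)))
        rw [norm_one] at h1
        linarith only [hnorm, h1]
      · have h1 := norm_sub_le (1 : ℂ) ((p : ℂ) ^ (-(1 + w)))
        rw [norm_one] at h1
        linarith only [hnorm, h1]
    have hPu : ‖∏ p ∈ q.primeFactors, (1 - (p : ℂ) ^ (-(1 + w)))‖ ≤ 2 ^ k := by
      rw [norm_prod]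
      calc ∏ p ∈ q.primeFactors, ‖1 - (p : ℂ) ^ (-(1 + w))‖ ≤ ∏ _p ∈ q.primeFactors, (2 : ℝ) :=
            Finset.prod_le_prod (fun _ _ => norm_nonneg _) (fun p hp => (hfac p hp).2)
        _ = 2 ^ k := by rw [Finset.prod_const]
    have hPl : (1 / 2 : ℝ) ^ k ≤ ‖∏ p ∈ q.primeFactors, (1 - (p : ℂ) ^ (-(1 + w)))‖ := by
      rw [norm_prod]
      calc (1 / 2 : ℝ) ^ k = ∏ _p ∈ q.primeFactors, (1 / 2 : ℝ) := by rw [Finset.prod_const]
        _ ≤ ∏ p ∈ q.primeFactors, ‖1 - (p : ℂ) ^ (-(1 + w))‖ :=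
            Finset.prod_le_prod (fun _ _ => by norm_num) (fun p hp => (hfac p hp).1)
    obtain ⟨hz1, hz2⟩ := hz w hw0 hw
    have hzpos : 0 < ‖riemannZeta (1 + w)‖ :=
      norm_pos_iff.2 (riemannZeta_ne_zero_of_one_le_re hs.le)
    have hz3 : ‖riemannZeta (1 + w)‖ * ‖w‖ ≤ max 1 Cz := by
      rw [le_div_iff₀ hn0] at hz1
      exact hz1.trans (le_max_right _ _)
    have hz4 : (max 1 Cz)⁻¹ ≤ ‖riemannZeta (1 + w)‖ * ‖w‖ := by
      have h1 : 1 ≤ Cz * ‖w‖ * ‖riemannZeta (1 + w)‖ := by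
        have := mul_le_mul_of_nonneg_right hz2 hzpos.le
        rwa [inv_mul_cancel₀ hzpos.ne'] at this
      have h2 : 1 ≤ max 1 Cz * (‖riemannZeta (1 + w)‖ * ‖w‖) := by
        calc (1 : ℝ) ≤ Cz * ‖w‖ * ‖riemannZeta (1 + w)‖ := h1
          _ = Cz * (‖riemannZeta (1 + w)‖ * ‖w‖) := by ring
          _ ≤ max 1 Cz * (‖riemannZeta (1 + w)‖ * ‖w‖) :=
              mul_le_mul_of_nonneg_right (le_max_right _ _) (by positivity)
      rw [inv_le_iff_one_le_mul₀' (by linarith only [hM1])]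
      exact h2
    refine key (2 ^ k * max 1 Cz) hA (by linarith only [hC2]) _ ?_ ?_
    · rw [hLz, norm_mul, mul_assoc ‖∏ p ∈ q.primeFactors, (1 - (p : ℂ) ^ (-(1 + w)))‖]
      calc (2 ^ k * max 1 Cz * (1 + ‖w‖) ^ 2)⁻¹ ≤ (2 ^ k * max 1 Cz)⁻¹ := by
            apply inv_anti₀ (by linarith only [hA])
            nlinarith only [hsq, hA]
        _ = (1 / 2 : ℝ) ^ k * (max 1 Cz)⁻¹ := by
            rw [mul_inv, one_div, inv_pow]
        _ ≤ _ := mul_le_mul hPl hz4 (by positivity) (norm_nonneg _)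
    · rw [hLz, norm_mul, mul_assoc ‖∏ p ∈ q.primeFactors, (1 - (p : ℂ) ^ (-(1 + w)))‖]
      calc _ ≤ 2 ^ k * max 1 Cz := mul_le_mul hPu hz3 (by positivity) (by positivity)
        _ ≤ 2 ^ k * max 1 Cz * (1 + ‖w‖) ^ 2 := le_mul_of_one_le_right (by linarith only [hA]) hsq
  · push Not at hw
    by_cases ht : 1 / 2 ≤ |w.im|
    · obtain ⟨h1, h2⟩ := hf (1 : DirichletCharacter ℂ q) w hw0 hw1 ht
      refine key C2 hC2 (by linarith only [hA]) _ ?_ ?_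
      · calc (C2 * (1 + ‖w‖) ^ 2)⁻¹ ≤ (C2 * (1 + ‖w‖))⁻¹ := by
              apply inv_anti₀ (by positivity)
              apply mul_le_mul_of_nonneg_left _ (by linarith only [hC2])
              nlinarith only [hw, hn0]
          _ ≤ ‖LSeries (ch (1 : DirichletCharacter ℂ q)) (1 + w)‖ := h2
          _ ≤ _ := le_mul_of_one_le_right hL0 hw.le
      · calc ‖LSeries (ch (1 : DirichletCharacter ℂ q)) (1 + w)‖ * ‖w‖ ≤
              (C2 * (1 + ‖w‖)) * ‖w‖ := mul_le_mul_of_nonneg_right h1 hn0.le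
          _ ≤ (C2 * (1 + ‖w‖)) * (1 + ‖w‖) := mul_le_mul_of_nonneg_left (by linarith only []) (by positivity)
          _ = _ := by ring
    · push Not at ht
      have hre : 1 / 2 ≤ w.re := by
        have h1 : ‖w‖ ^ 2 = w.re ^ 2 + w.im ^ 2 := by
          rw [← Complex.normSq_eq_norm_sq, Complex.normSq_apply]; ring
        have h2 : w.im ^ 2 < (1 / 2) ^ 2 := by
          rw [← sq_abs w.im]
          exact pow_lt_pow_left₀ ht (abs_nonneg _) (by norm_num)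
        nlinarith only [hw, h1, h2, hw0, hn0]
      have hge := Pool.Agent.Lib.MP_d9bc60_nt.UV.L_ge_triv q (1 : DirichletCharacter ℂ q) (1 + w) hs
      have hle := Pool.Agent.Lib.MP_d9bc60_nt.UV.L_le_triv q (1 : DirichletCharacter ℂ q) (1 + w) hs
      rw [← D_ch_eq] at hge hle
      have hsre : (1 + w).re = 1 + w.re := by simp
      rw [hsre] at hge hle
      have h1 : (1 / 4 : ℝ) ≤ ‖LSeries (ch (1 : DirichletCharacter ℂ q)) (1 + w)‖ := by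
        refine le_trans ?_ hge
        rw [le_div_iff₀ (by linarith only [hw0])]
        linarith only [hw0, hre]
      have h2 : ‖LSeries (ch (1 : DirichletCharacter ℂ q)) (1 + w)‖ ≤ 3 := by
        refine hle.trans ?_
        have : 1 / (1 + w.re - 1) ≤ 2 := by
          rw [div_le_iff₀ (by linarith only [hw0])]
          linarith only [hre]
        linarith only [this]
      refine key 4 (by norm_num) (by linarith only [hC2, hA]) _ ?_ ?_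
      · calc (4 * (1 + ‖w‖) ^ 2)⁻¹ ≤ 4⁻¹ := by
              apply inv_anti₀ (by norm_num)
              linarith only [hsq]
          _ ≤ ‖LSeries (ch (1 : DirichletCharacter ℂ q)) (1 + w)‖ := by linarith only [h1]
          _ ≤ _ := le_mul_of_one_le_right hL0 hw.le
      · calc ‖LSeries (ch (1 : DirichletCharacter ℂ q)) (1 + w)‖ * ‖w‖ ≤ 3 * ‖w‖ :=
              mul_le_mul_of_nonneg_right h2 hn0.le
          _ ≤ 4 * (1 + ‖w‖) ^ 2 := by nlinarith only [hn0]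

/-- The principal character. We need, for `s = 1 + w`, `t = im w`:
`c/(‖w‖ (1+‖w‖)^2) ≤ ‖L(s)‖ ≤ C (1+‖w‖)^2/‖w‖`, then take logarithms and use `D_Rp_log`. Three cases.
(i) `‖w‖ ≤ 1`: `LSeries (ch 1) s = (∏ p ∈ q.primeFactors, (1 - p^(-s))) * riemannZeta s`
(`DirichletCharacter.LFunctionTrivChar_eq_mul_riemannZeta`, `DirichletCharacter.LFunction_eq_LSeries`),
`LZ.zeta_one` (V06) gives `1/(C‖w‖) ≤ ‖ζ(1+w)‖ ≤ C/‖w‖`, and `1/2 ≤ 1 - 1/p ≤ ‖1 - p^(-s)‖ ≤ 2`, so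
`2^(-k)/(C ‖w‖) ≤ ‖L‖ ≤ 2^k C/‖w‖`, `k` the number of prime factors of `q`.
(ii) `‖w‖ > 1`, `|t| ≥ 1/2`: `D_L_far`; `(1+‖w‖)^(-1) ≥ 1/(‖w‖(1+‖w‖)^2)` and
`1 + ‖w‖ ≤ (1+‖w‖)^2/‖w‖`.
(iii) `‖w‖ > 1`, `|t| < 1/2`: then `Re w ≥ 1/2` (as `‖w‖^2 = re^2 + t^2`),
`UV.L_ge_triv` (`‖L‖ ≥ (σ-1)/σ ≥ 1/4`) and `UV.L_le_triv` (`‖L‖ ≤ 1 + 1/(σ-1) ≤ 3`), `‖w‖ ≤ 2`. -/
theorem D_Rp_one (q : ℕ) [NeZero q] : ∃ K : ℝ, 0 ≤ K ∧ ∀ w : ℂ, 0 < w.re → w.re ≤ 1 →
    |Rp (ch (1 : DirichletCharacter ℂ q)) (1 + w) + Real.log ‖w‖| ≤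
      K + 2 * Real.log (1 + ‖w‖) := by
  obtain ⟨K0, hK0, hR⟩ := D_Rp_log
  obtain ⟨C, hC1, hB⟩ := D_R3_bound q
  have hlC : 0 ≤ Real.log C := Real.log_nonneg hC1
  refine ⟨K0 + Real.log C, by linarith only [hK0, hlC], fun w hw0 hw1 => ?_⟩
  obtain ⟨h1, h2⟩ := hB w hw0 hw1
  have hn0 : 0 < ‖w‖ := by
    rw [norm_pos_iff]
    intro h
    rw [h] at hw0
    simp at hw0
  have hC0 : 0 < C := by linarith only [hC1]
  have h12 : 0 < (1 + ‖w‖) ^ 2 := by positivity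
  have hprod : 0 < ‖LSeries (ch (1 : DirichletCharacter ℂ q)) (1 + w)‖ * ‖w‖ :=
    lt_of_lt_of_le (inv_pos.2 (mul_pos hC0 h12)) h1
  have hL : 0 < ‖LSeries (ch (1 : DirichletCharacter ℂ q)) (1 + w)‖ :=
    (pos_iff_pos_of_mul_pos hprod).2 hn0
  have hs : 1 < (1 + w).re := by simp; exact hw0
  have hR' := hR q (1 : DirichletCharacter ℂ q) (1 + w) hs
  have hlog : Real.log (‖LSeries (ch (1 : DirichletCharacter ℂ q)) (1 + w)‖ * ‖w‖) =
      Real.log ‖LSeries (ch (1 : DirichletCharacter ℂ q)) (1 + w)‖ + Real.log ‖w‖ :=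
    Real.log_mul hL.ne' hn0.ne'
  have hlogC : Real.log (C * (1 + ‖w‖) ^ 2) = Real.log C + 2 * Real.log (1 + ‖w‖) := by
    rw [Real.log_mul hC0.ne' h12.ne', Real.log_pow]
    norm_num
  have hu := Real.log_le_log hprod h2
  have hl := Real.log_le_log (inv_pos.2 (mul_pos hC0 h12)) h1
  rw [Real.log_inv] at hl
  rw [hlog, hlogC] at hu hl
  rw [abs_le] at hR' ⊢
  constructor <;> linarith only [hR'.1, hR'.2, hR', hl, hu]

end OO

end

section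

/-!
# Row D_R4: the four products of two families
-/

open Complex MeasureTheory Set Filter Topology
open scoped ComplexConjugate

namespace OO

theorem D_isCh_ch {q : ℕ} (χ : DirichletCharacter ℂ q) : IsCh (ch χ) := by
  refine ⟨?_, ?_, ?_⟩
  · show χ ((1 : ℕ) : ZMod q) = 1
    rw [Nat.cast_one, map_one]
  · intro m n
    show χ ((m * n : ℕ) : ZMod q) = χ (m : ZMod q) * χ (n : ZMod q)
    rw [Nat.cast_mul, map_mul]
  · intro n
    exact χ.norm_le_one _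

theorem D_isCh_cj (F : Fin 2 → ℕ → ℂ) (hF : ∀ i, IsCh (F i)) : ∀ i, IsCh (cjF F i) := by
  intro i
  refine ⟨?_, ?_, ?_⟩
  · show conj (F i 1) = 1
    rw [(hF i).one, map_one]
  · intro m n
    show conj (F i (m * n)) = conj (F i m) * conj (F i n)
    rw [(hF i).mul, map_mul]
  · intro n
    show ‖conj (F i n)‖ ≤ 1
    rw [RCLike.norm_conj]
    exact (hF i).le n

theorem D_R4_conj {q : ℕ} (χ : DirichletCharacter ℂ q) [NeZero q] (a : ZMod q) : conj (χ a) = χ⁻¹ a :=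
  MulChar.star_apply' χ a

theorem D_R4_unit {q : ℕ} (χ : DirichletCharacter ℂ q) [NeZero q] {a : ZMod q} (ha : IsUnit a) :
    χ a * conj (χ a) = 1 := by
  rw [D_R4_conj, ← MulChar.mul_apply, mul_inv_cancel, MulChar.one_apply ha]

/-- values of the inverse character are the conjugates (`MulChar.star_apply`/`MulChar.inv_apply_eq_inv'`,
values of norm `1` at units, `0` elsewhere; see also `DirichletCharacter.unit_norm_eq_one`) -/
theorem D_ch_inv {q : ℕ} (χ : DirichletCharacter ℂ q) [NeZero q] : ch χ⁻¹ = fun n => conj (ch χ n) := by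
  funext n
  exact (D_R4_conj χ _).symm

/-- `n ↦ χ(n) conj χ(n)` is the principal character modulo `q` -/
theorem D_ch_self {q : ℕ} [NeZero q] (χ : DirichletCharacter ℂ q) :
    (fun n => ch χ n * conj (ch χ n)) = ch (1 : DirichletCharacter ℂ q) := by
  funext n
  show χ (n : ZMod q) * conj (χ (n : ZMod q)) = (1 : DirichletCharacter ℂ q) (n : ZMod q)
  rw [D_R4_conj, ← MulChar.mul_apply, mul_inv_cancel]

/-- For different characters the function `n ↦ χ1(n) conj χ2(n)` is `ch ψ`,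
`ψ = changeLevel χ1 * (changeLevel χ2)⁻¹` modulo `q1 q2` (`DirichletCharacter.changeLevel_eq_cast_of_dvd`
at units; both sides `0` at `n` not prime to `q1 q2`), and `ψ ≠ 1` because of `hne`. -/
theorem D_ch_pair {q1 q2 : ℕ} [NeZero q1] [NeZero q2] (χ1 : DirichletCharacter ℂ q1)
    (χ2 : DirichletCharacter ℂ q2) (hne : Ne12 χ1 χ2) :
    ∃ ψ : DirichletCharacter ℂ (q1 * q2), ψ ≠ 1 ∧ ch ψ = fun n => ch χ1 n * conj (ch χ2 n) := by
  have d1 : q1 ∣ q1 * q2 := dvd_mul_right _ _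
  have d2 : q2 ∣ q1 * q2 := dvd_mul_left _ _
  have : NeZero (q1 * q2) := ⟨mul_ne_zero (NeZero.ne q1) (NeZero.ne q2)⟩
  obtain ⟨ψ, hψ⟩ : ∃ ψ : DirichletCharacter ℂ (q1 * q2),
      ψ = DirichletCharacter.changeLevel d1 χ1 * (DirichletCharacter.changeLevel d2 χ2)⁻¹ := ⟨_, rfl⟩
  have key : ch ψ = fun n => ch χ1 n * conj (ch χ2 n) := by
    funext n
    show ψ (n : ZMod (q1 * q2)) = χ1 (n : ZMod q1) * conj (χ2 (n : ZMod q2))
    by_cases hn : IsUnit (n : ZMod (q1 * q2))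
    · obtain ⟨u, hu⟩ := hn
      have e1 : (ZMod.cast (u : ZMod (q1 * q2)) : ZMod q1) = (n : ZMod q1) := by
        rw [hu, ZMod.cast_natCast d1]
      have e2 : (ZMod.cast (u : ZMod (q1 * q2)) : ZMod q2) = (n : ZMod q2) := by
        rw [hu, ZMod.cast_natCast d2]
      rw [hψ, MulChar.mul_apply, ← D_R4_conj (DirichletCharacter.changeLevel d2 χ2), ← hu,
        DirichletCharacter.changeLevel_eq_cast_of_dvd χ1 d1 u,
        DirichletCharacter.changeLevel_eq_cast_of_dvd χ2 d2 u, e1, e2]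
    · rw [MulChar.map_nonunit _ hn]
      rw [ZMod.isUnit_iff_coprime, Nat.coprime_mul_iff_right, not_and_or] at hn
      rcases hn with hn | hn
      · rw [← ZMod.isUnit_iff_coprime] at hn
        rw [MulChar.map_nonunit χ1 hn, zero_mul]
      · rw [← ZMod.isUnit_iff_coprime] at hn
        rw [MulChar.map_nonunit χ2 hn, map_zero, mul_zero]
  refine ⟨ψ, ?_, key⟩
  rintro rfl
  obtain ⟨n, hn, hne'⟩ := hne
  apply hne'
  have hu : IsUnit (n : ZMod (q1 * q2)) := (ZMod.isUnit_iff_coprime n (q1 * q2)).mpr hn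
  have hu2 : IsUnit (n : ZMod q2) :=
    (ZMod.isUnit_iff_coprime n q2).mpr (Nat.Coprime.coprime_mul_left_right hn)
  have k1 := congrFun key n
  have k2 : ch (1 : DirichletCharacter ℂ (q1 * q2)) n = 1 := MulChar.one_apply hu
  rw [k2] at k1
  have k3 := D_R4_unit χ2 hu2
  calc χ1 (n : ZMod q1) = χ1 (n : ZMod q1) * (χ2 (n : ZMod q2) * conj (χ2 (n : ZMod q2))) := by
        rw [k3, mul_one]
    _ = (ch χ1 n * conj (ch χ2 n)) * χ2 (n : ZMod q2) := by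
        show _ = (χ1 (n : ZMod q1) * conj (χ2 (n : ZMod q2))) * χ2 (n : ZMod q2)
        ring
    _ = χ2 (n : ZMod q2) := by rw [← k1, one_mul]

/-- `D_ch_self` and `D_Rp_one` for `i = i'`, `D_ch_pair` and `D_Rp_ne_one` for `i ≠ i'` (for `(1,0)` use
`Ne12 χ2 χ1`, i.e. `mul_comm` and `Ne.symm`); `K` is the sum of the four constants. -/
theorem D_RB {q1 q2 : ℕ} [NeZero q1] [NeZero q2] (χ1 : DirichletCharacter ℂ q1)
    (χ2 : DirichletCharacter ℂ q2) (hne : Ne12 χ1 χ2) :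
    ∃ K : ℝ, 0 ≤ K ∧ RB ![ch χ1, ch χ2] K := by
  have : NeZero (q1 * q2) := ⟨mul_ne_zero (NeZero.ne q1) (NeZero.ne q2)⟩
  have : NeZero (q2 * q1) := ⟨mul_ne_zero (NeZero.ne q2) (NeZero.ne q1)⟩
  have hne' : Ne12 χ2 χ1 := by
    obtain ⟨n, hn, hn'⟩ := hne
    exact ⟨n, by rwa [mul_comm], fun h => hn' h.symm⟩
  obtain ⟨ψ1, hψ1, e1⟩ := D_ch_pair χ1 χ2 hne
  obtain ⟨ψ2, hψ2, e2⟩ := D_ch_pair χ2 χ1 hne'
  obtain ⟨K1, hK1, H1⟩ := D_Rp_one q1
  obtain ⟨K2, hK2, H2⟩ := D_Rp_one q2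
  obtain ⟨K3, hK3, H3⟩ := D_Rp_ne_one (q1 * q2) ψ1 hψ1
  obtain ⟨K4, hK4, H4⟩ := D_Rp_ne_one (q2 * q1) ψ2 hψ2
  have hK : 0 ≤ K1 + K2 + K3 + K4 := by linarith
  refine ⟨K1 + K2 + K3 + K4, hK, ?_⟩
  have c00 : ∀ w : ℂ, 0 < w.re → w.re ≤ 1 →
      |Rp (fun n => ch χ1 n * conj (ch χ1 n)) (1 + w) + Real.log ‖w‖| ≤
        K1 + K2 + K3 + K4 + 2 * Real.log (1 + ‖w‖) := by
    intro w h0 h1
    rw [D_ch_self χ1]
    have := H1 w h0 h1
    linarith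
  have c11 : ∀ w : ℂ, 0 < w.re → w.re ≤ 1 →
      |Rp (fun n => ch χ2 n * conj (ch χ2 n)) (1 + w) + Real.log ‖w‖| ≤
        K1 + K2 + K3 + K4 + 2 * Real.log (1 + ‖w‖) := by
    intro w h0 h1
    rw [D_ch_self χ2]
    have := H2 w h0 h1
    linarith
  have c01 : ∀ w : ℂ, 0 < w.re → w.re ≤ 1 →
      |Rp (fun n => ch χ1 n * conj (ch χ2 n)) (1 + w) + 0| ≤
        K1 + K2 + K3 + K4 + 2 * Real.log (1 + ‖w‖) := by
    intro w h0 h1
    rw [← e1, add_zero]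
    have := H3 w h0 h1
    linarith
  have c10 : ∀ w : ℂ, 0 < w.re → w.re ≤ 1 →
      |Rp (fun n => ch χ2 n * conj (ch χ1 n)) (1 + w) + 0| ≤
        K1 + K2 + K3 + K4 + 2 * Real.log (1 + ‖w‖) := by
    intro w h0 h1
    rw [← e2, add_zero]
    have := H4 w h0 h1
    linarith
  intro i i' w h0 h1
  fin_cases i <;> fin_cases i'
  · exact c00 w h0 h1
  · exact c01 w h0 h1
  · exact c10 w h0 h1
  · exact c11 w h0 h1

/-- `Rp` of `conj F_i * F_j` is the one of `F_j * conj F_i` (`mul_comm`, `conj (conj z) = z`) -/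
theorem D_RB_cj (F : Fin 2 → ℕ → ℂ) (K : ℝ) (h : RB F K) : RB (cjF F) K := by
  intro i i' w h0 h1
  have h2 := h i' i w h0 h1
  have e1 : (fun n => cjF F i n * conj (cjF F i' n)) = fun n => F i' n * conj (F i n) := by
    funext n
    show conj (F i n) * conj (conj (F i' n)) = F i' n * conj (F i n)
    rw [Complex.conj_conj, mul_comm]
  rw [e1]
  have e2 : (if i = i' then Real.log ‖w‖ else 0) = if i' = i then Real.log ‖w‖ else 0 := by
    by_cases hi : i = i'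
    · rw [if_pos hi, if_pos hi.symm]
    · rw [if_neg hi, if_neg fun h => hi h.symm]
  rw [e2]
  exact h2

end OO

end

section

/-!
# Row D3_chx: the coefficients χ(n) n^(-iy)
-/

open Complex MeasureTheory Set Filter Topology
open scoped ComplexConjugate

namespace OO

theorem D3_chx_eq {q : ℕ} (χ : DirichletCharacter ℂ q) (y : ℝ) (n : ℕ) :
    chx χ y n = χ (n : ZMod q) * (n : ℂ) ^ (-((y : ℂ) * I)) := rfl

/-- completely multiplicative (`Complex.natCast_mul_natCast_cpow`), bounded by one (`n ≥ 1`: `‖n^(-iy)‖ = 1`; `n = 0`: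
`0^(-iy)` is `0` or `1`) -/
theorem D3_isCh_chx {q : ℕ} (χ : DirichletCharacter ℂ q) (y : ℝ) : IsCh (chx χ y) := by
  refine ⟨?_, ?_, ?_⟩
  · rw [D3_chx_eq, Nat.cast_one, map_one, Nat.cast_one, Complex.one_cpow, mul_one]
  · intro m n
    rw [D3_chx_eq, D3_chx_eq, D3_chx_eq, Nat.cast_mul, map_mul, Nat.cast_mul, Complex.natCast_mul_natCast_cpow]
    ring
  · intro n
    rw [D3_chx_eq, norm_mul]
    have h1 : ‖χ (n : ZMod q)‖ ≤ 1 := χ.norm_le_one _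
    have h2 : ‖(n : ℂ) ^ (-((y : ℂ) * I))‖ ≤ 1 := by
      rcases Nat.eq_zero_or_pos n with hn | hn
      · rw [hn, Nat.cast_zero]
        by_cases hy : -((y : ℂ) * I) = 0
        · rw [hy, Complex.cpow_zero, norm_one]
        · rw [Complex.zero_cpow hy, norm_zero]
          exact zero_le_one
      · rw [Complex.norm_natCast_cpow_of_pos hn]
        have h3 : (-((y : ℂ) * I)).re = 0 := by simp
        rw [h3, Real.rpow_zero]
    calc ‖χ (n : ZMod q)‖ * ‖(n : ℂ) ^ (-((y : ℂ) * I))‖ ≤ 1 * 1 :=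
          mul_le_mul h1 h2 (norm_nonneg _) zero_le_one
      _ = 1 := one_mul _

theorem D3_cpow_conj (n : ℕ) (s : ℂ) : conj ((n : ℂ) ^ s) = (n : ℂ) ^ (conj s) := by
  have h := Complex.cpow_conj (n : ℂ) s (by rw [Complex.natCast_arg]; exact Real.pi_ne_zero.symm)
  rw [h, Complex.conj_natCast]

/-- `conj (χ(n) n^(-iy)) = χ⁻¹(n) n^(iy)` (`D_ch_inv`, OO/D_R4.lean; `n = 0`: `y = 0` or both sides `0`) -/
theorem D3_chx_inv {q : ℕ} [NeZero q] (χ : DirichletCharacter ℂ q) (y : ℝ) :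
    chx χ⁻¹ (-y) = fun n => conj (chx χ y n) := by
  funext n
  rw [D3_chx_eq, D3_chx_eq, map_mul, D_R4_conj, D3_cpow_conj]
  congr 2
  rw [map_neg, map_mul, Complex.conj_ofReal, Complex.conj_I]
  push_cast
  ring

/-- at primes `χ1(p) p^(-i y1) conj (χ2(p) p^(-i y2)) p^(-s) = χ1(p) conj χ2(p) p^(-(s + i (y1-y2)))` -/
theorem D3_Rp_shift {q1 q2 : ℕ} (χ1 : DirichletCharacter ℂ q1) (χ2 : DirichletCharacter ℂ q2) (y1 y2 : ℝ) (s : ℂ) :
    Rp (fun n => chx χ1 y1 n * conj (chx χ2 y2 n)) s =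
      Rp (fun n => ch χ1 n * conj (ch χ2 n)) (s + ((y1 - y2 : ℝ) : ℂ) * I) := by
  unfold Rp
  refine tsum_congr fun p => ?_
  congr 1
  have hp : ((p : ℕ) : ℂ) ≠ 0 := Nat.cast_ne_zero.mpr p.2.ne_zero
  show chx χ1 y1 p * conj (chx χ2 y2 p) * ((p : ℕ) : ℂ) ^ (-s) = χ1 ((p : ℕ) : ZMod q1) * conj (χ2 ((p : ℕ) : ZMod q2)) *
    ((p : ℕ) : ℂ) ^ (-(s + ((y1 - y2 : ℝ) : ℂ) * I))
  rw [D3_chx_eq, D3_chx_eq, map_mul, D3_cpow_conj]
  have e1 : -(s + ((y1 - y2 : ℝ) : ℂ) * I) = -((y1 : ℂ) * I) + (conj (-((y2 : ℂ) * I)) + -s) := by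
    rw [map_neg, map_mul, Complex.conj_ofReal, Complex.conj_I]
    push_cast
    ring
  rw [e1, Complex.cpow_add _ _ hp, Complex.cpow_add _ _ hp]
  ring

/-- If the characters agree at all numbers prime to `q1 q2`, the product `χ1 conj χ2` is the principal character modulo
`q1 q2` (see `D_ch_pair`, OO/D_R4.lean, and `D_ch_self`) -/
theorem D3_ch_eq {q1 q2 : ℕ} [NeZero q1] [NeZero q2] (χ1 : DirichletCharacter ℂ q1)
    (χ2 : DirichletCharacter ℂ q2) (hne : ¬ Ne12 χ1 χ2) :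
    (fun n => ch χ1 n * conj (ch χ2 n)) = ch (1 : DirichletCharacter ℂ (q1 * q2)) := by
  have : NeZero (q1 * q2) := ⟨mul_ne_zero (NeZero.ne q1) (NeZero.ne q2)⟩
  funext n
  show χ1 (n : ZMod q1) * conj (χ2 (n : ZMod q2)) = (1 : DirichletCharacter ℂ (q1 * q2)) (n : ZMod (q1 * q2))
  by_cases hn : IsUnit (n : ZMod (q1 * q2))
  · rw [MulChar.one_apply hn]
    have hc := (ZMod.isUnit_iff_coprime n (q1 * q2)).mp hn
    have hu2 : IsUnit (n : ZMod q2) :=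
      (ZMod.isUnit_iff_coprime n q2).mpr (Nat.Coprime.coprime_mul_left_right hc)
    have heq : χ1 (n : ZMod q1) = χ2 (n : ZMod q2) := by
      by_contra h
      exact hne ⟨n, hc, h⟩
    rw [heq]
    exact D_R4_unit χ2 hu2
  · rw [MulChar.map_nonunit _ hn]
    rw [ZMod.isUnit_iff_coprime, Nat.coprime_mul_iff_right, not_and_or] at hn
    rcases hn with hn | hn
    · rw [← ZMod.isUnit_iff_coprime] at hn
      rw [MulChar.map_nonunit χ1 hn, zero_mul]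
    · rw [← ZMod.isUnit_iff_coprime] at hn
      rw [MulChar.map_nonunit χ2 hn, map_zero, mul_zero]

end OO

end
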