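import Pool.Agent.Lib.MP_0f5a55_nt.OM.K000
import Pool.Agent.Lib.MP_0f5a55_nt.OM.K015
import Pool.Agent.Lib.MP_0f5a55_nt.OM.K026
import Pool.Agent.Lib.MP_0f5a55_nt.OM.K030

section

/-!
# Row B_R4: the four products of two families, local version
-/

open Complex MeasureTheory Set Filter Topology
open scoped ComplexConjugate

namespace OO

/-- Copy `D_RB` and `D_RB_cj` (D_R4.lean): `D_ch_self`, `D_ch_pair`, `B_Rp_one`, `B_Rp_ne_one`;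
`kap = ![![κ1, κ3], ![κ4, κ2]]`, `rh` the minimum of `1` and the four radii. -/
theorem B_RL {q1 q2 : ℕ} [NeZero q1] [NeZero q2] (χ1 : DirichletCharacter ℂ q1)
    (χ2 : DirichletCharacter ℂ q2) (hne : Ne12 χ1 χ2) :
    ∃ (kap : Fin 2 → Fin 2 → ℝ) (rh : ℝ), 0 < rh ∧ rh ≤ 1 ∧ RL ![ch χ1, ch χ2] kap rh := by
  have : NeZero (q1 * q2) := ⟨mul_ne_zero (NeZero.ne q1) (NeZero.ne q2)⟩
  have : NeZero (q2 * q1) := ⟨mul_ne_zero (NeZero.ne q2) (NeZero.ne q1)⟩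
  have hne' : Ne12 χ2 χ1 := by
    obtain ⟨n, hn, hn'⟩ := hne
    exact ⟨n, by rwa [mul_comm], fun h => hn' h.symm⟩
  obtain ⟨ψ1, hψ1, e1⟩ := D_ch_pair χ1 χ2 hne
  obtain ⟨ψ2, hψ2, e2⟩ := D_ch_pair χ2 χ1 hne'
  obtain ⟨κ1, r1, hr1, H1⟩ := B_Rp_one q1
  obtain ⟨κ2, r2, hr2, H2⟩ := B_Rp_one q2
  obtain ⟨κ3, r3, hr3, H3⟩ := B_Rp_ne_one (q1 * q2) ψ1 hψ1
  obtain ⟨κ4, r4, hr4, H4⟩ := B_Rp_ne_one (q2 * q1) ψ2 hψ2
  refine ⟨![![κ1, κ3], ![κ4, κ2]], min 1 (min (min r1 r2) (min r3 r4)),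
    lt_min one_pos (lt_min (lt_min hr1 hr2) (lt_min hr3 hr4)), min_le_left _ _, ?_⟩
  have l1 : min 1 (min (min r1 r2) (min r3 r4)) ≤ r1 :=
    (min_le_right _ _).trans ((min_le_left _ _).trans (min_le_left _ _))
  have l2 : min 1 (min (min r1 r2) (min r3 r4)) ≤ r2 :=
    (min_le_right _ _).trans ((min_le_left _ _).trans (min_le_right _ _))
  have l3 : min 1 (min (min r1 r2) (min r3 r4)) ≤ r3 :=
    (min_le_right _ _).trans ((min_le_right _ _).trans (min_le_left _ _))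
  have l4 : min 1 (min (min r1 r2) (min r3 r4)) ≤ r4 :=
    (min_le_right _ _).trans ((min_le_right _ _).trans (min_le_right _ _))
  have c00 : ∀ w : ℂ, 0 < w.re → ‖w‖ ≤ min 1 (min (min r1 r2) (min r3 r4)) →
      |Rp (fun n => ch χ1 n * conj (ch χ1 n)) (1 + w) + Real.log ‖w‖ - κ1| ≤ 1 := by
    intro w h0 h1
    rw [D_ch_self χ1]
    exact H1 w h0 (h1.trans l1)
  have c11 : ∀ w : ℂ, 0 < w.re → ‖w‖ ≤ min 1 (min (min r1 r2) (min r3 r4)) →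
      |Rp (fun n => ch χ2 n * conj (ch χ2 n)) (1 + w) + Real.log ‖w‖ - κ2| ≤ 1 := by
    intro w h0 h1
    rw [D_ch_self χ2]
    exact H2 w h0 (h1.trans l2)
  have c01 : ∀ w : ℂ, 0 < w.re → ‖w‖ ≤ min 1 (min (min r1 r2) (min r3 r4)) →
      |Rp (fun n => ch χ1 n * conj (ch χ2 n)) (1 + w) + 0 - κ3| ≤ 1 := by
    intro w h0 h1
    rw [← e1, add_zero]
    exact H3 w h0 (h1.trans l3)
  have c10 : ∀ w : ℂ, 0 < w.re → ‖w‖ ≤ min 1 (min (min r1 r2) (min r3 r4)) →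
      |Rp (fun n => ch χ2 n * conj (ch χ1 n)) (1 + w) + 0 - κ4| ≤ 1 := by
    intro w h0 h1
    rw [← e2, add_zero]
    exact H4 w h0 (h1.trans l4)
  intro i i' w h0 h1
  fin_cases i <;> fin_cases i'
  · exact c00 w h0 h1
  · exact c01 w h0 h1
  · exact c10 w h0 h1
  · exact c11 w h0 h1

/-- the same for the conjugate families, with the transposed constants -/
theorem B_RL_cj (F : Fin 2 → ℕ → ℂ) (kap : Fin 2 → Fin 2 → ℝ) (rh : ℝ) (h : RL F kap rh) :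
    RL (cjF F) (fun i i' => kap i' i) rh := by
  intro i i' w h0 h1
  have h2 := h i' i w h0 h1
  have e1 : (fun n => cjF F i n * conj (cjF F i' n)) = fun n => F i' n * conj (F i n) := by
    funext n
    show conj (F i n) * conj (conj (F i' n)) = F i' n * conj (F i n)
    rw [Complex.conj_conj, mul_comm]
  rw [e1]
  have e2 : (if i = i' then Real.log ‖w‖ else 0) = if i' = i then Real.log ‖w‖ else 0 := by
    by_cases hi : i = i'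
    · rw [if_pos hi, if_pos hi.symm]
    · rw [if_neg hi, if_neg fun h => hi h.symm]
  rw [e2]
  exact h2

end OO

end

section

/-!
# Row D3_RL: local bounds of the prime sums
-/

open Complex MeasureTheory Set Filter Topology
open scoped ComplexConjugate

namespace OO

/-- Near the point `1 + iD` (`χ ≠ 1` or `D ≠ 0`): `Rp (ch χ) (1 + w + iD) = log ‖L(1 + w + iD)‖ + B_R0_E χ (w + iD)`
(`B_R0_eq`, OO/B_R0.lean), `B_R0_E` is continuous on `re ≥ 0` (`B_R0_cont`), `LFunction χ` is continuous and not `0` at `1 + iD`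
(`DirichletCharacter.differentiableAt_LFunction`, `DirichletCharacter.LFunction_ne_zero_of_one_le_re`). See `B_Rp_ne_one`. -/
theorem D3_Rp_near (q : ℕ) [NeZero q] (χ : DirichletCharacter ℂ q) (D : ℝ) (h : χ ≠ 1 ∨ D ≠ 0) :
    ∃ κ rh : ℝ, 0 < rh ∧ ∀ w : ℂ, 0 < w.re → ‖w‖ ≤ rh → |Rp (ch χ) (1 + w + (D : ℂ) * I) - κ| ≤ 1 := by
  obtain ⟨z, hz⟩ : ∃ z : ℂ, z = (D : ℂ) * I := ⟨_, rfl⟩
  have hzre : z.re = 0 := by rw [hz, Complex.re_ofReal_mul, Complex.I_re, mul_zero]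
  have hs1 : χ ≠ 1 ∨ 1 + z ≠ 1 := by
    rcases h with h | h
    · exact Or.inl h
    · right
      intro h1
      have h2 : z = 0 := by
        have := add_eq_left.1 h1
        exact this
      rw [hz] at h2
      rcases mul_eq_zero.1 h2 with h3 | h3
      · exact h (by exact_mod_cast h3)
      · exact Complex.I_ne_zero h3
  have hzin : z ∈ {w : ℂ | 0 ≤ w.re} := by
    show 0 ≤ z.re
    rw [hzre]
  have h0 : ContinuousWithinAt (B_R0_E χ) {w : ℂ | 0 ≤ w.re} z := B_R0_cont χ z hzin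
  rw [Metric.continuousWithinAt_iff] at h0
  obtain ⟨δ1, hδ1, hE⟩ := h0 (1 / 2) (by norm_num)
  have hcont : ContinuousAt (fun w : ℂ => Real.log ‖DirichletCharacter.LFunction χ (1 + w)‖) z := by
    have hne : DirichletCharacter.LFunction χ (1 + z) ≠ 0 := by
      apply DirichletCharacter.LFunction_ne_zero_of_one_le_re χ hs1
      rw [Complex.add_re, hzre, Complex.one_re, add_zero]
    have hd : ContinuousAt (DirichletCharacter.LFunction χ) (1 + z) :=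
      (DirichletCharacter.differentiableAt_LFunction χ (1 + z) hs1.symm).continuousAt
    have h3 : ContinuousAt (fun w : ℂ => ‖DirichletCharacter.LFunction χ (1 + w)‖) z :=
      (ContinuousAt.comp (f := fun w : ℂ => 1 + w) hd (by fun_prop)).norm
    exact h3.log (norm_ne_zero_iff.2 hne)
  rw [Metric.continuousAt_iff] at hcont
  obtain ⟨δ2, hδ2, hL⟩ := hcont (1 / 2) (by norm_num)
  refine ⟨B_R0_E χ z + Real.log ‖DirichletCharacter.LFunction χ (1 + z)‖, min (δ1 / 2) (δ2 / 2),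
    lt_min (by positivity) (by positivity), ?_⟩
  intro w hw hwn
  have hwre : (w + z).re = w.re := by rw [Complex.add_re, hzre, add_zero]
  have hdist : dist (w + z) z = ‖w‖ := by rw [dist_eq_norm, add_sub_cancel_right]
  have h1 := hE (x := w + z) (by show 0 ≤ (w + z).re; rw [hwre]; exact hw.le) (by
    rw [hdist]
    have := hwn.trans (min_le_left _ _)
    linarith only [this, hδ1])
  have h2 := hL (x := w + z) (by
    rw [hdist]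
    have := hwn.trans (min_le_right _ _)
    linarith only [this, hδ2])
  rw [Real.dist_eq] at h1 h2
  have hre : 1 < (1 + (w + z)).re := by
    rw [Complex.add_re, hwre, Complex.one_re]
    linarith only [hw]
  rw [DirichletCharacter.LFunction_eq_LSeries χ hre] at h2
  have h3 := B_R0_eq χ (w + z) (by rw [hwre]; exact hw)
  have h4 : Real.log ‖LSeries (ch χ) (1 + (w + z))‖ =
      Real.log ‖LSeries (fun n => χ (n : ZMod q)) (1 + (w + z))‖ := rfl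
  rw [h4] at h3
  rw [add_assoc, ← hz]
  rw [abs_lt] at h1 h2
  rw [abs_le]
  constructor
  · linarith only [h1.1, h2.1, h3]
  · linarith only [h1.2, h2.2, h3]

/-- one product of two different families, near a shifted point -/
theorem D3_RL_pair {q1 q2 : ℕ} [NeZero q1] [NeZero q2] (χ1 : DirichletCharacter ℂ q1)
    (χ2 : DirichletCharacter ℂ q2) (D : ℝ) (h : Ne12 χ1 χ2 ∨ D ≠ 0) : ∃ κ rh : ℝ, 0 < rh ∧
    ∀ w : ℂ, 0 < w.re → ‖w‖ ≤ rh →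
    |Rp (fun n => ch χ1 n * conj (ch χ2 n)) (1 + w + (D : ℂ) * I) + 0 - κ| ≤ 1 := by
  have : NeZero (q1 * q2) := ⟨mul_ne_zero (NeZero.ne q1) (NeZero.ne q2)⟩
  by_cases hne : Ne12 χ1 χ2
  · obtain ⟨ψ, hψ, e1⟩ := D_ch_pair χ1 χ2 hne
    obtain ⟨κ, rh, hrh, H⟩ := D3_Rp_near (q1 * q2) ψ D (Or.inl hψ)
    refine ⟨κ, rh, hrh, fun w hw0 hw1 => ?_⟩
    rw [← e1, add_zero]
    exact H w hw0 hw1
  · have hD : D ≠ 0 := by
      rcases h with h | h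
      · exact absurd h hne
      · exact h
    obtain ⟨κ, rh, hrh, H⟩ := D3_Rp_near (q1 * q2) 1 D (Or.inr hD)
    refine ⟨κ, rh, hrh, fun w hw0 hw1 => ?_⟩
    rw [D3_ch_eq χ1 χ2 hne, add_zero]
    exact H w hw0 hw1

/-- See `B_RL` (OO/B_R4.lean). Equal families: `D3_Rp_shift` (shift `0`), `D_ch_self`, `B_Rp_one`. Different families:
`D3_Rp_shift`, `D3_Rp_near` with `ψ` of `D_ch_pair` (if `Ne12`), resp. the principal character (`D3_ch_eq`, then `y1 ≠ y2`). -/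
theorem D3_RL {q1 q2 : ℕ} [NeZero q1] [NeZero q2] (χ1 : DirichletCharacter ℂ q1)
    (χ2 : DirichletCharacter ℂ q2) (y1 y2 : ℝ) (hne : NeX χ1 y1 χ2 y2) :
    ∃ (kap : Fin 2 → Fin 2 → ℝ) (rh : ℝ), 0 < rh ∧ rh ≤ 1 ∧ RL ![chx χ1 y1, chx χ2 y2] kap rh := by
  have hne1 : Ne12 χ1 χ2 ∨ y1 - y2 ≠ 0 := by
    rcases hne with h | h
    · exact Or.inl h
    · exact Or.inr (sub_ne_zero.2 h)
  have hne2 : Ne12 χ2 χ1 ∨ y2 - y1 ≠ 0 := by
    rcases hne with h | h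
    · obtain ⟨n, hn, hn'⟩ := h
      exact Or.inl ⟨n, by rwa [mul_comm], fun h => hn' h.symm⟩
    · exact Or.inr (sub_ne_zero.2 fun h' => h h'.symm)
  obtain ⟨κ1, r1, hr1, H1⟩ := B_Rp_one q1
  obtain ⟨κ2, r2, hr2, H2⟩ := B_Rp_one q2
  obtain ⟨κ3, r3, hr3, H3⟩ := D3_RL_pair χ1 χ2 (y1 - y2) hne1
  obtain ⟨κ4, r4, hr4, H4⟩ := D3_RL_pair χ2 χ1 (y2 - y1) hne2
  refine ⟨![![κ1, κ3], ![κ4, κ2]], min 1 (min (min r1 r2) (min r3 r4)),
    lt_min one_pos (lt_min (lt_min hr1 hr2) (lt_min hr3 hr4)), min_le_left _ _, ?_⟩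
  have l1 : min 1 (min (min r1 r2) (min r3 r4)) ≤ r1 :=
    (min_le_right _ _).trans ((min_le_left _ _).trans (min_le_left _ _))
  have l2 : min 1 (min (min r1 r2) (min r3 r4)) ≤ r2 :=
    (min_le_right _ _).trans ((min_le_left _ _).trans (min_le_right _ _))
  have l3 : min 1 (min (min r1 r2) (min r3 r4)) ≤ r3 :=
    (min_le_right _ _).trans ((min_le_right _ _).trans (min_le_left _ _))
  have l4 : min 1 (min (min r1 r2) (min r3 r4)) ≤ r4 :=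
    (min_le_right _ _).trans ((min_le_right _ _).trans (min_le_right _ _))
  have hs1 : ∀ w : ℂ, 1 + w + ((y1 - y1 : ℝ) : ℂ) * I = 1 + w := by
    intro w
    rw [sub_self, Complex.ofReal_zero, zero_mul, add_zero]
  have hs2 : ∀ w : ℂ, 1 + w + ((y2 - y2 : ℝ) : ℂ) * I = 1 + w := by
    intro w
    rw [sub_self, Complex.ofReal_zero, zero_mul, add_zero]
  have c00 : ∀ w : ℂ, 0 < w.re → ‖w‖ ≤ min 1 (min (min r1 r2) (min r3 r4)) →
      |Rp (fun n => chx χ1 y1 n * conj (chx χ1 y1 n)) (1 + w) + Real.log ‖w‖ - κ1| ≤ 1 := by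
    intro w h0 h1
    rw [D3_Rp_shift, hs1, D_ch_self χ1]
    exact H1 w h0 (h1.trans l1)
  have c11 : ∀ w : ℂ, 0 < w.re → ‖w‖ ≤ min 1 (min (min r1 r2) (min r3 r4)) →
      |Rp (fun n => chx χ2 y2 n * conj (chx χ2 y2 n)) (1 + w) + Real.log ‖w‖ - κ2| ≤ 1 := by
    intro w h0 h1
    rw [D3_Rp_shift, hs2, D_ch_self χ2]
    exact H2 w h0 (h1.trans l2)
  have c01 : ∀ w : ℂ, 0 < w.re → ‖w‖ ≤ min 1 (min (min r1 r2) (min r3 r4)) →
      |Rp (fun n => chx χ1 y1 n * conj (chx χ2 y2 n)) (1 + w) + 0 - κ3| ≤ 1 := by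
    intro w h0 h1
    rw [D3_Rp_shift]
    exact H3 w h0 (h1.trans l3)
  have c10 : ∀ w : ℂ, 0 < w.re → ‖w‖ ≤ min 1 (min (min r1 r2) (min r3 r4)) →
      |Rp (fun n => chx χ2 y2 n * conj (chx χ1 y1 n)) (1 + w) + 0 - κ4| ≤ 1 := by
    intro w h0 h1
    rw [D3_Rp_shift]
    exact H4 w h0 (h1.trans l4)
  intro i i' w h0 h1
  fin_cases i <;> fin_cases i'
  · exact c00 w h0 h1
  · exact c01 w h0 h1
  · exact c10 w h0 h1
  · exact c11 w h0 h1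

end OO

end

section

/-!
# Row B_14: finite combinations of weights
-/

open Complex MeasureTheory Set Filter Topology
open scoped ComplexConjugate

namespace OO

/-- copy `D_D7` (D_A14.lean) with `B_D6`; constant `C (∑ |c0 c1|)^2 + 1` -/
theorem B_D7 (Th : ℝ) (hTh : 1 ≤ Th) {ι0 ι1 : Type} [Fintype ι0] [Fintype ι1]
    (s : Fin 2 → ℝ) (hs : ∀ i, s i = 1 ∨ s i = -1)
    (c0 t0 : ι0 → ℝ) (c1 t1 : ι1 → ℝ)
    (h0 : ∀ i, 0 ≤ t0 i ∧ t0 i ≤ Th ∧ (s 0 = -1 → 1 ≤ t0 i))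
    (h1 : ∀ i, 0 ≤ t1 i ∧ t1 i ≤ Th ∧ (s 1 = -1 → 1 ≤ t1 i)) :
    ∃ C : ℝ, 0 < C ∧ ∀ F : Fin 2 → ℕ → ℂ, (∀ i, IsCh (F i)) → (∀ i, IsCh (cjF F i)) →
    ∀ K1 : ℝ, RB F K1 → ∀ (kap : Fin 2 → Fin 2 → ℝ) (rh : ℝ), 0 < rh → rh ≤ 1 → RL F kap rh →
    ∃ L1 : ℝ, 4 * Th ≤ L1 ∧ ∀ L v m : ℝ, L1 ≤ L → |v| ≤ rh / 4 → 1 / L ≤ m → m ≤ Th / L →
      ‖∑' n, PL F (AB L v s) c0 (fun i => t0 i / L) c1 (fun i => t1 i / L) m n *
          PL (cjF F) (AB L v s) c0 (fun i => t0 i / L) c1 (fun i => t1 i / L) m n‖ ≤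
        C / (L * ‖ww L v‖) := by
  obtain ⟨C, hC, hD6⟩ := B_D6 Th hTh
  refine ⟨C * (∑ p : ι0 × ι1, |c0 p.1 * c1 p.2|) ^ 2 + 1, by positivity,
    fun F hF hF' K1 hRB kap rh hrh hrh1 hRL => ?_⟩
  obtain ⟨L1, hL1, hD⟩ := hD6 F hF hF' K1 hRB kap rh hrh hrh1 hRL
  refine ⟨L1, hL1, fun L v m hL hv hm hm' => ?_⟩
  have hL0 : 0 < L := by linarith only [hL, hL1, hTh]
  have hAd : ∀ p : ι0 × ι1, Ad L Th s ![t0 p.1 / L, t1 p.2 / L, m, m, m, m] := by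
    intro p
    have hm0 : 0 ≤ m := le_trans (by positivity) hm
    have a0 := h0 p.1
    have a1 := h1 p.2
    intro j
    fin_cases j
    · refine ⟨div_nonneg a0.1 hL0.le, div_le_div_of_nonneg_right a0.2.1 hL0.le, fun h => ?_⟩
      exact div_le_div_of_nonneg_right (a0.2.2 (by simpa [sg, sgn] using h)) hL0.le
    · refine ⟨div_nonneg a1.1 hL0.le, div_le_div_of_nonneg_right a1.2.1 hL0.le, fun h => ?_⟩
      exact div_le_div_of_nonneg_right (a1.2.2 (by simpa [sg, sgn] using h)) hL0.le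
    · exact ⟨hm0, hm', fun _ => hm⟩
    · exact ⟨hm0, hm', fun _ => hm⟩
    · exact ⟨hm0, hm', fun _ => hm⟩
    · exact ⟨hm0, hm', fun _ => hm⟩
  have hexp : ∀ (G : Fin 2 → ℕ → ℂ) (n : ℕ),
      PL G (AB L v s) c0 (fun i => t0 i / L) c1 (fun i => t1 i / L) m n =
        ∑ p : ι0 × ι1, ((c0 p.1 * c1 p.2 : ℝ) : ℂ) *
          PX G (AB L v s) ![t0 p.1 / L, t1 p.2 / L, m, m, m, m] n := by
    intro G n
    rw [D_PL_expand, Fintype.sum_prod_type]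
    refine Finset.sum_congr rfl fun i _ => Finset.sum_congr rfl fun j _ => ?_
    push_cast
    rfl
  simp only [hexp]
  refine (D_A14_prod (fun p : ι0 × ι1 => c0 p.1 * c1 p.2) _ _ _ (fun p p' => ?_)
    (fun p p' => hD L v hL hv s hs _ _ (hAd p) (hAd p'))).trans ?_
  · exact (D_D6_summable F hF hF' L Th v hL0 s hs _ _ (hAd p) (hAd p')).of_norm
  · have h2 : 0 ≤ 1 / (L * ‖ww L v‖) := by positivity
    have h3 : (C * (∑ p : ι0 × ι1, |c0 p.1 * c1 p.2|) ^ 2 + 1) / (L * ‖ww L v‖) =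
      (∑ p : ι0 × ι1, |c0 p.1 * c1 p.2|) ^ 2 * (C / (L * ‖ww L v‖)) +
      1 / (L * ‖ww L v‖) := by ring
    rw [h3]
    linarith only [h2]

end OO

end

section

/-!
# Row B_17: the Dirichlet series of the two types, absolute version
-/

open Complex MeasureTheory Set Filter Topology
open scoped ComplexConjugate

namespace OO

theorem B_17_1_isCh {q1 q2 : ℕ} (χ1 : DirichletCharacter ℂ q1) (χ2 : DirichletCharacter ℂ q2) :
    ∀ i, IsCh ((![ch χ1, ch χ2] : Fin 2 → ℕ → ℂ) i) := by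
  intro i
  fin_cases i
  · exact D_isCh_ch χ1
  · exact D_isCh_ch χ2

theorem B_17_1_m (L l : ℝ) (hL : 8 * 10 ^ 10 ≤ L) (h1 : dl / 2 * L ≤ l) (h2 : l ≤ dl * L) :
    1 / L ≤ 1 / l ∧ 1 / l ≤ 2 * 10 ^ 10 / L := by
  have hL0 : 0 < L := by linarith
  have hd : dl = 1 / 10 ^ 10 := rfl
  have hl0 : 0 < l := by
    have : 0 < dl / 2 * L := by rw [hd]; positivity
    linarith
  constructor
  · apply one_div_le_one_div_of_le hl0
    rw [hd] at h2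
    linarith
  · rw [div_le_div_iff₀ hl0 hL0]
    rw [hd] at h1
    linarith

/-- copy `D_inst1` (D_A17b.lean) with `B_D7`, `B_RL`, `D_RB`; `t0 = rh/4` -/
theorem B_inst1 {ι0 ι1 : Type} [Fintype ι0] [Fintype ι1]
    (c0 t0 : ι0 → ℝ) (c1 t1 : ι1 → ℝ) (h0 : ∀ i, 0 ≤ t0 i ∧ t0 i ≤ 2 * 10 ^ 10)
    (h1 : ∀ i, 0 ≤ t1 i ∧ t1 i ≤ 2 * 10 ^ 10) :
    ∃ C : ℝ, 0 < C ∧ ∀ (q1 q2 : ℕ) [NeZero q1] [NeZero q2] (χ1 : DirichletCharacter ℂ q1)
    (χ2 : DirichletCharacter ℂ q2), Ne12 χ1 χ2 → ∃ τ0 L1 : ℝ, 0 < τ0 ∧ τ0 ≤ 1 ∧ 8 * 10 ^ 10 ≤ L1 ∧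
    ∀ L l : ℝ, L1 ≤ L → dl / 2 * L ≤ l → l ≤ dl * L →
      ∀ a b : ArithmeticFunction ℂ,
      a = beta (ch χ1) (ch χ2) l * (LC (ch χ1) 0 c0 (fun i => t0 i / L) *
        LC (ch χ2) 0 c1 (fun i => t1 i / L)) → b = cj (beta (ch χ1) (ch χ2) l) →
      ∀ t : ℝ, |t| ≤ τ0 → ‖∑' n : ℕ, (tw a (-(1 / 2) - ((1 / L : ℝ) + t * I) / 2) * tw (cj b) (-(1 / 2) + ((1 / L : ℝ) + t * I) / 2)) n *
        (tw (cj a) (-(1 / 2) - ((1 / L : ℝ) + t * I) / 2) * tw b (-(1 / 2) + ((1 / L : ℝ) + t * I) / 2)) n‖ ≤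
        C / (L * ‖((1 / L : ℝ) : ℂ) + t * I‖) := by
  obtain ⟨C, hC, hD⟩ := B_D7 (2 * 10 ^ 10) (by norm_num) ![1, 1]
    (by intro i; fin_cases i <;> simp) c0 t0 c1 t1
    (by
      intro i
      refine ⟨(h0 i).1, (h0 i).2, ?_⟩
      intro h
      exfalso
      have h' : (1 : ℝ) = -1 := h
      norm_num at h')
    (by
      intro i
      refine ⟨(h1 i).1, (h1 i).2, ?_⟩
      intro h
      exfalso
      have h' : (1 : ℝ) = -1 := h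
      norm_num at h')
  refine ⟨C, hC, ?_⟩
  intro q1 q2 _ _ χ1 χ2 hne
  obtain ⟨K, -, hK⟩ := D_RB χ1 χ2 hne
  obtain ⟨kap, rh, hr0, hr1, hRL⟩ := B_RL χ1 χ2 hne
  obtain ⟨L1, hL1, hB⟩ := hD ![ch χ1, ch χ2] (B_17_1_isCh χ1 χ2) (D_isCh_cj _ (B_17_1_isCh χ1 χ2)) K hK
    kap rh hr0 hr1 hRL
  have hL1' : 8 * 10 ^ 10 ≤ L1 := by linarith
  refine ⟨rh / 4, L1, by linarith, by linarith, hL1', ?_⟩
  intro L l hL hl1 hl2 a b ha hb t ht
  obtain ⟨hm1, hm2⟩ := B_17_1_m L l (hL1'.trans hL) hl1 hl2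
  have hT := D_typeI ![ch χ1, ch χ2] L t l c0 (fun i => t0 i / L) c1 (fun i => t1 i / L) a b ha hb
  have hB := hB L t (1 / l) hL ht hm1 hm2
  have e1 : (tw a (-(1 / 2) - ((1 / L : ℝ) + t * I) / 2) * tw (cj b) (-(1 / 2) + ((1 / L : ℝ) + t * I) / 2)) =
      PL ![ch χ1, ch χ2] (AB L t ![1, 1]) c0 (fun i => t0 i / L) c1 (fun i => t1 i / L) (1 / l) := hT.1
  have e2 : (tw (cj a) (-(1 / 2) - ((1 / L : ℝ) + t * I) / 2) * tw b (-(1 / 2) + ((1 / L : ℝ) + t * I) / 2)) =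
      PL (cjF ![ch χ1, ch χ2]) (AB L t ![1, 1]) c0 (fun i => t0 i / L) c1 (fun i => t1 i / L) (1 / l) := hT.2
  rw [e1, e2]
  exact hB

/-- copy `D_inst2` (D_A17b.lean) with `B_D7`, `B_RL`, `B_RL_cj`, `D_RB`, `D_RB_cj`; `t0 = rh/4` -/
theorem B_inst2 {ι0 ι1 : Type} [Fintype ι0] [Fintype ι1]
    (c0 t0 : ι0 → ℝ) (c1 t1 : ι1 → ℝ) (h0 : ∀ i, 1 ≤ t0 i ∧ t0 i ≤ 2 * 10 ^ 10)
    (h1 : ∀ i, 0 ≤ t1 i ∧ t1 i ≤ 2 * 10 ^ 10) :
    ∃ C : ℝ, 0 < C ∧ ∀ (q1 q2 : ℕ) [NeZero q1] [NeZero q2] (χ1 : DirichletCharacter ℂ q1)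
    (χ2 : DirichletCharacter ℂ q2), Ne12 χ1 χ2 → ∃ τ0 L1 : ℝ, 0 < τ0 ∧ τ0 ≤ 1 ∧ 8 * 10 ^ 10 ≤ L1 ∧
    ∀ L l : ℝ, L1 ≤ L → dl / 2 * L ≤ l → l ≤ dl * L →
      ∀ a b : ArithmeticFunction ℂ,
      a = LC (ch χ2⁻¹) 0 c1 (fun i => t1 i / L) * cj (beta (ch χ1) (ch χ2) l) →
      b = LC (ch χ1) 0 c0 (fun i => t0 i / L) * beta (ch χ1) (ch χ2) l →
      ∀ t : ℝ, |t| ≤ τ0 → ‖∑' n : ℕ, (tw a (-(1 / 2) - ((1 / L : ℝ) + t * I) / 2) * tw (cj b) (-(1 / 2) + ((1 / L : ℝ) + t * I) / 2)) n *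
        (tw (cj a) (-(1 / 2) - ((1 / L : ℝ) + t * I) / 2) * tw b (-(1 / 2) + ((1 / L : ℝ) + t * I) / 2)) n‖ ≤
        C / (L * ‖((1 / L : ℝ) : ℂ) + t * I‖) := by
  obtain ⟨C, hC, hD⟩ := B_D7 (2 * 10 ^ 10) (by norm_num) ![-1, 1] (by intro i; fin_cases i <;> simp)
    c0 t0 c1 t1
    (by
      intro i
      exact ⟨by linarith only [(h0 i).1], (h0 i).2, fun _ => (h0 i).1⟩)
    (by
      intro i
      refine ⟨(h1 i).1, (h1 i).2, ?_⟩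
      intro h
      exfalso
      have h' : (1 : ℝ) = -1 := h
      norm_num at h')
  refine ⟨C, hC, ?_⟩
  intro q1 q2 _ _ χ1 χ2 hne
  obtain ⟨K, -, hK⟩ := D_RB χ1 χ2 hne
  obtain ⟨kap, rh, hrh0, hrh1, hRL⟩ := B_RL χ1 χ2 hne
  have hF := B_17_1_isCh χ1 χ2
  obtain ⟨L1, hL1, hB1⟩ := hD (cjF ![ch χ1, ch χ2]) (D_isCh_cj _ hF)
    (by rw [D_cjF_cjF]; exact hF) K (D_RB_cj _ K hK) _ rh hrh0 hrh1 (B_RL_cj _ kap rh hRL)
  rw [D_cjF_cjF] at hB1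
  refine ⟨rh / 4, L1, by linarith only [hrh0], by linarith only [hrh1], by linarith only [hL1], ?_⟩
  intro L l hL hl1 hl2 a b ha hb t ht
  obtain ⟨hm1, hm2⟩ := B_17_1_m L l (by linarith only [hL, hL1]) hl1 hl2
  have ha' : a = LC (cjF ![ch χ1, ch χ2] 1) 0 c1 (fun i => t1 i / L) *
      cj (beta ((![ch χ1, ch χ2] : Fin 2 → ℕ → ℂ) 0) ((![ch χ1, ch χ2] : Fin 2 → ℕ → ℂ) 1) l) := by
    rw [ha, D_ch_inv χ2]
    rfl
  have hb' : b = LC ((![ch χ1, ch χ2] : Fin 2 → ℕ → ℂ) 0) 0 c0 (fun i => t0 i / L) *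
      beta ((![ch χ1, ch χ2] : Fin 2 → ℕ → ℂ) 0) ((![ch χ1, ch χ2] : Fin 2 → ℕ → ℂ) 1) l := by
    rw [hb]
    rfl
  have hT := D_typeII ![ch χ1, ch χ2] L t l c0 (fun i => t0 i / L) c1 (fun i => t1 i / L) a b ha' hb'
  have hB := hB1 L t (1 / l) hL ht hm1 hm2
  have e1 : (tw a (-(1 / 2) - ((1 / L : ℝ) + t * I) / 2) * tw (cj b) (-(1 / 2) + ((1 / L : ℝ) + t * I) / 2)) =
      PL (cjF ![ch χ1, ch χ2]) (AB L t ![-1, 1]) c0 (fun i => t0 i / L) c1 (fun i => t1 i / L) (1 / l) := hT.1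
  have e2 : (tw (cj a) (-(1 / 2) - ((1 / L : ℝ) + t * I) / 2) * tw b (-(1 / 2) + ((1 / L : ℝ) + t * I) / 2)) =
      PL ![ch χ1, ch χ2] (AB L t ![-1, 1]) c0 (fun i => t0 i / L) c1 (fun i => t1 i / L) (1 / l) := hT.2
  rw [e1, e2]
  exact hB

end OO

end
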