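import Pool.Agent.Lib.MP_0f5a55_nt.OM.K000
import Pool.Agent.Lib.MP_0f5a55_nt.OM.K024
import Pool.Agent.Lib.MP_0f5a55_nt.OM.K031

section

/-!
# Row D3_RB: global bounds of the prime sums
-/

open Complex MeasureTheory Set Filter Topology
open scoped ComplexConjugate

namespace OO

/-- the order of the possible pole -/
noncomputable def D3_b {q1 q2 : ℕ} (χ1 : DirichletCharacter ℂ q1) (χ2 : DirichletCharacter ℂ q2) : ℝ :=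
  open Classical in if Ne12 χ1 χ2 then 0 else 1

theorem D3_Ne12_symm {q1 q2 : ℕ} {χ1 : DirichletCharacter ℂ q1} {χ2 : DirichletCharacter ℂ q2}
    (hne : Ne12 χ1 χ2) : Ne12 χ2 χ1 := by
  obtain ⟨n, hn, hn'⟩ := hne
  exact ⟨n, by rwa [mul_comm], fun h => hn' h.symm⟩

theorem D3_b_symm {q1 q2 : ℕ} (χ1 : DirichletCharacter ℂ q1) (χ2 : DirichletCharacter ℂ q2) :
    D3_b χ2 χ1 = D3_b χ1 χ2 := by
  unfold D3_b
  by_cases h : Ne12 χ1 χ2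
  · rw [if_pos h, if_pos (D3_Ne12_symm h)]
  · rw [if_neg h, if_neg fun h' => h (D3_Ne12_symm h')]

/-- one product of two different families, at a shifted point -/
theorem D3_RB_pair {q1 q2 : ℕ} [NeZero q1] [NeZero q2] (χ1 : DirichletCharacter ℂ q1)
    (χ2 : DirichletCharacter ℂ q2) (D : ℝ) : ∃ K : ℝ, 0 ≤ K ∧ ∀ w : ℂ, 0 < w.re → w.re ≤ 1 →
    |Rp (fun n => ch χ1 n * conj (ch χ2 n)) (1 + w + (D : ℂ) * I) +
      D3_b χ1 χ2 * Real.log ‖w + (D : ℂ) * I‖| ≤ K + 2 * Real.log (1 + ‖w‖) := by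
  have : NeZero (q1 * q2) := ⟨mul_ne_zero (NeZero.ne q1) (NeZero.ne q2)⟩
  have hD0 : 0 ≤ |D| := abs_nonneg _
  have hlD : 0 ≤ Real.log (1 + |D|) := Real.log_nonneg (by linarith only [hD0])
  -- the size of the shifted point
  have hsz : ∀ w : ℂ, Real.log (1 + ‖w + (D : ℂ) * I‖) ≤ Real.log (1 + |D|) + Real.log (1 + ‖w‖) := by
    intro w
    have h1 : ‖w + (D : ℂ) * I‖ ≤ ‖w‖ + |D| := by
      refine (norm_add_le _ _).trans ?_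
      rw [norm_mul, Complex.norm_real, Complex.norm_I, mul_one, Real.norm_eq_abs]
    have h2 : 0 ≤ ‖w‖ := norm_nonneg _
    have h4 : 0 ≤ ‖w + (D : ℂ) * I‖ := norm_nonneg _
    have h3 : 1 + ‖w + (D : ℂ) * I‖ ≤ (1 + |D|) * (1 + ‖w‖) := by
      have := mul_nonneg hD0 h2
      nlinarith only [h1, this]
    have h5 := Real.log_le_log (by linarith only [h4]) h3
    rwa [Real.log_mul (by positivity) (by positivity)] at h5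
  have hre : ∀ w : ℂ, (w + (D : ℂ) * I).re = w.re := by
    intro w
    rw [Complex.add_re, Complex.re_ofReal_mul, Complex.I_re, mul_zero, add_zero]
  by_cases hne : Ne12 χ1 χ2
  · obtain ⟨ψ, hψ, e1⟩ := D_ch_pair χ1 χ2 hne
    obtain ⟨K, hK, H⟩ := D_Rp_ne_one (q1 * q2) ψ hψ
    refine ⟨K + 2 * Real.log (1 + |D|), by linarith only [hK, hlD], fun w hw0 hw1 => ?_⟩
    have h1 := H (w + (D : ℂ) * I) (by rw [hre]; exact hw0) (by rw [hre]; exact hw1)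
    have h2 := hsz w
    unfold D3_b
    rw [if_pos hne, zero_mul, add_zero, ← e1, add_assoc]
    linarith only [h1, h2]
  · obtain ⟨K, hK, H⟩ := D_Rp_one (q1 * q2)
    refine ⟨K + 2 * Real.log (1 + |D|), by linarith only [hK, hlD], fun w hw0 hw1 => ?_⟩
    have h1 := H (w + (D : ℂ) * I) (by rw [hre]; exact hw0) (by rw [hre]; exact hw1)
    have h2 := hsz w
    unfold D3_b
    rw [if_neg hne, one_mul, D3_ch_eq χ1 χ2 hne, add_assoc 1 w]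
    linarith only [h1, h2]

/-- See `D_RB` (OO/D_R4.lean). `D = y1 - y2`. Equal families: `D3_Rp_shift` with shift `0`, `D_ch_self`, `D_Rp_one`.
Different families: `D3_Rp_shift`; order `(0,1)`: the point is `1 + (w + iD)`, order `(1,0)`: `1 + (w - iD)`;
`1 + ‖w ± iD‖ ≤ (1 + |D|)(1 + ‖w‖)`. If `Ne12`: `b = 0`, `D_ch_pair`, `D_Rp_ne_one`. Otherwise `y1 ≠ y2`, `b = 1`, `D3_ch_eq`,
`D_Rp_one (q1 * q2)` at `w ± iD`. -/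
theorem D3_RB {q1 q2 : ℕ} [NeZero q1] [NeZero q2] (χ1 : DirichletCharacter ℂ q1)
    (χ2 : DirichletCharacter ℂ q2) (y1 y2 : ℝ) (hne : NeX χ1 y1 χ2 y2) :
    ∃ K b : ℝ, 0 ≤ K ∧ Bx (y1 - y2) b ∧ RBx ![chx χ1 y1, chx χ2 y2] K (y1 - y2) b := by
  obtain ⟨K1, hK1, H1⟩ := D_Rp_one q1
  obtain ⟨K2, hK2, H2⟩ := D_Rp_one q2
  obtain ⟨K3, hK3, H3⟩ := D3_RB_pair χ1 χ2 (y1 - y2)
  obtain ⟨K4, hK4, H4⟩ := D3_RB_pair χ2 χ1 (y2 - y1)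
  have hK : 0 ≤ K1 + K2 + K3 + K4 := by linarith only [hK1, hK2, hK3, hK4]
  refine ⟨K1 + K2 + K3 + K4, D3_b χ1 χ2, hK, ?_, ?_⟩
  · unfold Bx D3_b
    by_cases h : Ne12 χ1 χ2
    · left
      rw [if_pos h]
    · right
      refine ⟨if_neg h, sub_ne_zero.2 ?_⟩
      rcases hne with hne | hne
      · exact absurd hne h
      · exact hne
  have hs1 : ∀ w : ℂ, 1 + w + ((y1 - y1 : ℝ) : ℂ) * I = 1 + w := by
    intro w
    rw [sub_self, Complex.ofReal_zero, zero_mul, add_zero]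
  have hs2 : ∀ w : ℂ, 1 + w + ((y2 - y2 : ℝ) : ℂ) * I = 1 + w := by
    intro w
    rw [sub_self, Complex.ofReal_zero, zero_mul, add_zero]
  have c00 : ∀ w : ℂ, 0 < w.re → w.re ≤ 1 →
      |Rp (fun n => chx χ1 y1 n * conj (chx χ1 y1 n)) (1 + w) + Real.log ‖w‖| ≤
        K1 + K2 + K3 + K4 + 2 * Real.log (1 + ‖w‖) := by
    intro w h0 h1
    rw [D3_Rp_shift, hs1, D_ch_self χ1]
    have := H1 w h0 h1
    linarith only [this, hK2, hK3, hK4]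
  have c11 : ∀ w : ℂ, 0 < w.re → w.re ≤ 1 →
      |Rp (fun n => chx χ2 y2 n * conj (chx χ2 y2 n)) (1 + w) + Real.log ‖w‖| ≤
        K1 + K2 + K3 + K4 + 2 * Real.log (1 + ‖w‖) := by
    intro w h0 h1
    rw [D3_Rp_shift, hs2, D_ch_self χ2]
    have := H2 w h0 h1
    linarith only [this, hK1, hK3, hK4]
  have c01 : ∀ w : ℂ, 0 < w.re → w.re ≤ 1 →
      |Rp (fun n => chx χ1 y1 n * conj (chx χ2 y2 n)) (1 + w) +
        D3_b χ1 χ2 * Real.log ‖w + ((y1 - y2 : ℝ) : ℂ) * I‖| ≤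
        K1 + K2 + K3 + K4 + 2 * Real.log (1 + ‖w‖) := by
    intro w h0 h1
    rw [D3_Rp_shift]
    have := H3 w h0 h1
    linarith only [this, hK1, hK2, hK4]
  have c10 : ∀ w : ℂ, 0 < w.re → w.re ≤ 1 →
      |Rp (fun n => chx χ2 y2 n * conj (chx χ1 y1 n)) (1 + w) +
        D3_b χ1 χ2 * Real.log ‖w + ((-(y1 - y2) : ℝ) : ℂ) * I‖| ≤
        K1 + K2 + K3 + K4 + 2 * Real.log (1 + ‖w‖) := by
    intro w h0 h1
    have h2 := H4 w h0 h1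
    rw [D3_b_symm, ← neg_sub y1 y2] at h2
    rw [D3_Rp_shift, ← neg_sub y1 y2]
    linarith only [h2, hK1, hK2, hK3]
  intro i i' w h0 h1
  fin_cases i <;> fin_cases i'
  · exact c00 w h0 h1
  · exact c01 w h0 h1
  · exact c10 w h0 h1
  · exact c11 w h0 h1

/-- see `D_RB_cj` (OO/D_R4.lean): the roles of `(0,1)` and `(1,0)` are exchanged, so `D` becomes `-D` -/
theorem D3_RB_cj (F : Fin 2 → ℕ → ℂ) (K D b : ℝ) (h : RBx F K D b) : RBx (cjF F) K (-D) b := by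
  intro i i' w h0 h1
  have h2 := h i' i w h0 h1
  have e1 : (fun n => cjF F i n * conj (cjF F i' n)) = fun n => F i' n * conj (F i n) := by
    funext n
    show conj (F i n) * conj (conj (F i' n)) = F i' n * conj (F i n)
    rw [Complex.conj_conj, mul_comm]
  rw [e1]
  have e2 : (if i = i' then Real.log ‖w‖ else
      b * Real.log ‖w + ((if i = 0 then -D else - -D : ℝ) : ℂ) * I‖) =
      if i' = i then Real.log ‖w‖ else b * Real.log ‖w + ((if i' = 0 then D else -D : ℝ) : ℂ) * I‖ := by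
    by_cases hi : i = i'
    · rw [if_pos hi, if_pos hi.symm]
    · have hi' : ¬ i' = i := fun h => hi h.symm
      rw [if_neg hi, if_neg hi']
      have h3 : (if i = 0 then -D else - -D : ℝ) = (if i' = 0 then D else -D : ℝ) := by
        by_cases hi0 : i = 0
        · have : i' ≠ 0 := fun h => hi (by rw [hi0, h])
          rw [if_pos hi0, if_neg this]
        · have h4 : i' = 0 := by omega
          rw [if_neg hi0, if_pos h4, neg_neg]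
      rw [h3]
  rw [e2]
  exact h2

theorem D3_Bx_neg (D b : ℝ) (h : Bx D b) : Bx (-D) b := by
  rcases h with h | ⟨h, hD⟩
  · exact Or.inl h
  · exact Or.inr ⟨h, neg_ne_zero.2 hD⟩

end OO

end

section

/-!
# Row D3_inst: the Dirichlet series of the two types, with shifts
-/

open Complex MeasureTheory Set Filter Topology
open scoped ComplexConjugate

namespace OO

theorem D3_inst_isCh {q1 q2 : ℕ} (χ1 : DirichletCharacter ℂ q1) (χ2 : DirichletCharacter ℂ q2) (y1 y2 : ℝ) :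
    ∀ i, IsCh ((![chx χ1 y1, chx χ2 y2] : Fin 2 → ℕ → ℂ) i) := by
  intro i
  fin_cases i
  · exact D3_isCh_chx χ1 y1
  · exact D3_isCh_chx χ2 y2

theorem D3_inst_fin (C L t : ℝ) (x : ℝ) (hC : 0 < C) (hL : 8 * 10 ^ 10 ≤ L)
    (h : x ≤ C * (1 + |t|) ^ 33 * √L / (L * ‖ww L t‖)) :
    x ≤ C * √L * (1 + |t|) ^ 40 / (L * ‖((1 / L : ℝ) : ℂ) + t * I‖) := by
  refine le_trans h ?_
  show C * (1 + |t|) ^ 33 * √L / (L * ‖ww L t‖) ≤ C * √L * (1 + |t|) ^ 40 / (L * ‖ww L t‖)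
  have hL0 : 0 < L := by linarith only [hL]
  apply div_le_div_of_nonneg_right _ (by positivity)
  have h1 : (1 + |t|) ^ 33 ≤ (1 + |t|) ^ 40 := pow_le_pow_right₀ (by linarith only [abs_nonneg t]) (by norm_num)
  calc C * (1 + |t|) ^ 33 * √L = C * √L * (1 + |t|) ^ 33 := by ring
    _ ≤ C * √L * (1 + |t|) ^ 40 := mul_le_mul_of_nonneg_left h1 (mul_nonneg hC.le (Real.sqrt_nonneg L))

/-- Type I in the form of `G_main2`, global bound. -/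
theorem D3_inst1 {q1 q2 : ℕ} [NeZero q1] [NeZero q2] (χ1 : DirichletCharacter ℂ q1)
    (χ2 : DirichletCharacter ℂ q2) (y1 y2 : ℝ) (hne : NeX χ1 y1 χ2 y2) {ι0 ι1 : Type} [Fintype ι0] [Fintype ι1]
    (c0 t0 : ι0 → ℝ) (c1 t1 : ι1 → ℝ) (h0 : ∀ i, 0 ≤ t0 i ∧ t0 i ≤ 2 * 10 ^ 10)
    (h1 : ∀ i, 0 ≤ t1 i ∧ t1 i ≤ 2 * 10 ^ 10) :
    ∃ C : ℝ, 0 < C ∧ ∀ (sh0 : ι0 → ℝ) (sh1 : ι1 → ℝ), (∀ i, 0 ≤ sh0 i) → (∀ i, 0 ≤ sh1 i) →
      ∀ L l : ℝ, 8 * 10 ^ 10 ≤ L → dl / 2 * L ≤ l → l ≤ dl * L →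
      ∀ a b : ArithmeticFunction ℂ,
      a = beta (chx χ1 y1) (chx χ2 y2) l * (LCs (chx χ1 y1) 0 c0 (fun i => t0 i / L) sh0 *
        LCs (chx χ2 y2) 0 c1 (fun i => t1 i / L) sh1) → b = cj (beta (chx χ1 y1) (chx χ2 y2) l) →
      ∀ t : ℝ, ‖∑' n : ℕ, (tw a (-(1 / 2) - ((1 / L : ℝ) + t * I) / 2) * tw (cj b) (-(1 / 2) + ((1 / L : ℝ) + t * I) / 2)) n *
        (tw (cj a) (-(1 / 2) - ((1 / L : ℝ) + t * I) / 2) * tw b (-(1 / 2) + ((1 / L : ℝ) + t * I) / 2)) n‖ ≤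
        C * √L * (1 + |t|) ^ 40 / (L * ‖((1 / L : ℝ) : ℂ) + t * I‖) := by
  obtain ⟨K, b, -, hb, hK⟩ := D3_RB χ1 χ2 y1 y2 hne
  have hF := D3_inst_isCh χ1 χ2 y1 y2
  obtain ⟨C, hC, hD⟩ := D3_D7 ![chx χ1 y1, chx χ2 y2] hF (D_isCh_cj _ hF) K (y1 - y2) b hb hK
    (2 * 10 ^ 10) (by norm_num) ![1, 1] (by intro i; fin_cases i <;> simp) c0 t0 c1 t1
    (by
      intro i
      refine ⟨(h0 i).1, (h0 i).2, ?_⟩
      intro h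
      exfalso
      have h' : (1 : ℝ) = -1 := h
      norm_num at h')
    (by
      intro i
      refine ⟨(h1 i).1, (h1 i).2, ?_⟩
      intro h
      exfalso
      have h' : (1 : ℝ) = -1 := h
      norm_num at h')
  refine ⟨C, hC, ?_⟩
  intro sh0 sh1 hsh0 hsh1 L l hL hl1 hl2 a b ha hb t
  obtain ⟨hm1, hm2⟩ := B_17_1_m L l hL hl1 hl2
  have hT := D3_typeI ![chx χ1 y1, chx χ2 y2] L t l c0 (fun i => t0 i / L) sh0 c1 (fun i => t1 i / L) sh1 a b ha hb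
  have hB := hD sh0 sh1 hsh0 hsh1 L t (1 / l) (by linarith only [hL]) hm1 hm2
  apply D3_inst_fin C L t _ hC hL
  have e1 : (tw a (-(1 / 2) - ((1 / L : ℝ) + t * I) / 2) * tw (cj b) (-(1 / 2) + ((1 / L : ℝ) + t * I) / 2)) =
      PLs ![chx χ1 y1, chx χ2 y2] (AB L t ![1, 1]) c0 (fun i => t0 i / L) sh0 c1 (fun i => t1 i / L) sh1 (1 / l) := hT.1
  have e2 : (tw (cj a) (-(1 / 2) - ((1 / L : ℝ) + t * I) / 2) * tw b (-(1 / 2) + ((1 / L : ℝ) + t * I) / 2)) =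
      PLs (cjF ![chx χ1 y1, chx χ2 y2]) (AB L t ![1, 1]) c0 (fun i => t0 i / L) sh0 c1 (fun i => t1 i / L) sh1
        (1 / l) := hT.2
  rw [e1, e2]
  exact hB

/-- Type II in the form of `G_main2`, global bound. -/
theorem D3_inst2 {q1 q2 : ℕ} [NeZero q1] [NeZero q2] (χ1 : DirichletCharacter ℂ q1)
    (χ2 : DirichletCharacter ℂ q2) (y1 y2 : ℝ) (hne : NeX χ1 y1 χ2 y2) {ι0 ι1 : Type} [Fintype ι0] [Fintype ι1]
    (c0 t0 : ι0 → ℝ) (c1 t1 : ι1 → ℝ) (h0 : ∀ i, 1 ≤ t0 i ∧ t0 i ≤ 2 * 10 ^ 10)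
    (h1 : ∀ i, 0 ≤ t1 i ∧ t1 i ≤ 2 * 10 ^ 10) :
    ∃ C : ℝ, 0 < C ∧ ∀ (sh0 : ι0 → ℝ) (sh1 : ι1 → ℝ), (∀ i, 0 ≤ sh0 i) → (∀ i, 0 ≤ sh1 i) →
      ∀ L l : ℝ, 8 * 10 ^ 10 ≤ L → dl / 2 * L ≤ l → l ≤ dl * L →
      ∀ a b : ArithmeticFunction ℂ,
      a = LCs (chx χ2⁻¹ (-y2)) 0 c1 (fun i => t1 i / L) sh1 * cj (beta (chx χ1 y1) (chx χ2 y2) l) →
      b = LCs (chx χ1 y1) 0 c0 (fun i => t0 i / L) sh0 * beta (chx χ1 y1) (chx χ2 y2) l →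
      ∀ t : ℝ, ‖∑' n : ℕ, (tw a (-(1 / 2) - ((1 / L : ℝ) + t * I) / 2) * tw (cj b) (-(1 / 2) + ((1 / L : ℝ) + t * I) / 2)) n *
        (tw (cj a) (-(1 / 2) - ((1 / L : ℝ) + t * I) / 2) * tw b (-(1 / 2) + ((1 / L : ℝ) + t * I) / 2)) n‖ ≤
        C * √L * (1 + |t|) ^ 40 / (L * ‖((1 / L : ℝ) : ℂ) + t * I‖) := by
  obtain ⟨K, b, -, hb, hK⟩ := D3_RB χ1 χ2 y1 y2 hne
  have hF := D3_inst_isCh χ1 χ2 y1 y2
  obtain ⟨C, hC, hD⟩ := D3_D7 (cjF ![chx χ1 y1, chx χ2 y2]) (D_isCh_cj _ hF)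
    (by rw [D_cjF_cjF]; exact hF) K (-(y1 - y2)) b (D3_Bx_neg _ b hb) (D3_RB_cj _ K _ b hK)
    (2 * 10 ^ 10) (by norm_num) ![-1, 1] (by intro i; fin_cases i <;> simp) c0 t0 c1 t1
    (by
      intro i
      exact ⟨by linarith only [(h0 i).1], (h0 i).2, fun _ => (h0 i).1⟩)
    (by
      intro i
      refine ⟨(h1 i).1, (h1 i).2, ?_⟩
      intro h
      exfalso
      have h' : (1 : ℝ) = -1 := h
      norm_num at h')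
  rw [D_cjF_cjF] at hD
  refine ⟨C, hC, ?_⟩
  intro sh0 sh1 hsh0 hsh1 L l hL hl1 hl2 a b ha hb t
  obtain ⟨hm1, hm2⟩ := B_17_1_m L l hL hl1 hl2
  have ha' : a = LCs (cjF ![chx χ1 y1, chx χ2 y2] 1) 0 c1 (fun i => t1 i / L) sh1 *
      cj (beta ((![chx χ1 y1, chx χ2 y2] : Fin 2 → ℕ → ℂ) 0) ((![chx χ1 y1, chx χ2 y2] : Fin 2 → ℕ → ℂ) 1) l) := by
    rw [ha, D3_chx_inv χ2 y2]
    rfl
  have hb' : b = LCs ((![chx χ1 y1, chx χ2 y2] : Fin 2 → ℕ → ℂ) 0) 0 c0 (fun i => t0 i / L) sh0 *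
      beta ((![chx χ1 y1, chx χ2 y2] : Fin 2 → ℕ → ℂ) 0) ((![chx χ1 y1, chx χ2 y2] : Fin 2 → ℕ → ℂ) 1) l := by
    rw [hb]
    rfl
  have hT := D3_typeII ![chx χ1 y1, chx χ2 y2] L t l c0 (fun i => t0 i / L) sh0 c1 (fun i => t1 i / L) sh1 a b ha' hb'
  have hB := hD sh0 sh1 hsh0 hsh1 L t (1 / l) (by linarith only [hL]) hm1 hm2
  apply D3_inst_fin C L t _ hC hL
  have e1 : (tw a (-(1 / 2) - ((1 / L : ℝ) + t * I) / 2) * tw (cj b) (-(1 / 2) + ((1 / L : ℝ) + t * I) / 2)) =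
      PLs (cjF ![chx χ1 y1, chx χ2 y2]) (AB L t ![-1, 1]) c0 (fun i => t0 i / L) sh0 c1 (fun i => t1 i / L) sh1
        (1 / l) := hT.1
  have e2 : (tw (cj a) (-(1 / 2) - ((1 / L : ℝ) + t * I) / 2) * tw b (-(1 / 2) + ((1 / L : ℝ) + t * I) / 2)) =
      PLs ![chx χ1 y1, chx χ2 y2] (AB L t ![-1, 1]) c0 (fun i => t0 i / L) sh0 c1 (fun i => t1 i / L) sh1 (1 / l) := hT.2
  rw [e1, e2]
  exact hB

/-- Type I, absolute bound near the real axis. -/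
theorem D3_instb1 {ι0 ι1 : Type} [Fintype ι0] [Fintype ι1]
    (c0 t0 : ι0 → ℝ) (c1 t1 : ι1 → ℝ) (h0 : ∀ i, 0 ≤ t0 i ∧ t0 i ≤ 2 * 10 ^ 10)
    (h1 : ∀ i, 0 ≤ t1 i ∧ t1 i ≤ 2 * 10 ^ 10) :
    ∃ C : ℝ, 0 < C ∧ ∀ (q1 q2 : ℕ) [NeZero q1] [NeZero q2] (χ1 : DirichletCharacter ℂ q1)
    (χ2 : DirichletCharacter ℂ q2) (y1 y2 : ℝ), NeX χ1 y1 χ2 y2 →
    ∃ τ0 L1 : ℝ, 0 < τ0 ∧ τ0 ≤ 1 ∧ 8 * 10 ^ 10 ≤ L1 ∧
    ∀ (sh0 : ι0 → ℝ) (sh1 : ι1 → ℝ), (∀ i, 0 ≤ sh0 i) → (∀ i, 0 ≤ sh1 i) →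
    ∀ L l : ℝ, L1 ≤ L → dl / 2 * L ≤ l → l ≤ dl * L →
      ∀ a b : ArithmeticFunction ℂ,
      a = beta (chx χ1 y1) (chx χ2 y2) l * (LCs (chx χ1 y1) 0 c0 (fun i => t0 i / L) sh0 *
        LCs (chx χ2 y2) 0 c1 (fun i => t1 i / L) sh1) → b = cj (beta (chx χ1 y1) (chx χ2 y2) l) →
      ∀ t : ℝ, |t| ≤ τ0 → ‖∑' n : ℕ, (tw a (-(1 / 2) - ((1 / L : ℝ) + t * I) / 2) * tw (cj b) (-(1 / 2) + ((1 / L : ℝ) + t * I) / 2)) n *
        (tw (cj a) (-(1 / 2) - ((1 / L : ℝ) + t * I) / 2) * tw b (-(1 / 2) + ((1 / L : ℝ) + t * I) / 2)) n‖ ≤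
        C / (L * ‖((1 / L : ℝ) : ℂ) + t * I‖) := by
  obtain ⟨C, hC, hD⟩ := D3_D7b (2 * 10 ^ 10) (by norm_num) ![1, 1]
    (by intro i; fin_cases i <;> simp) c0 t0 c1 t1
    (by
      intro i
      refine ⟨(h0 i).1, (h0 i).2, ?_⟩
      intro h
      exfalso
      have h' : (1 : ℝ) = -1 := h
      norm_num at h')
    (by
      intro i
      refine ⟨(h1 i).1, (h1 i).2, ?_⟩
      intro h
      exfalso
      have h' : (1 : ℝ) = -1 := h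
      norm_num at h')
  refine ⟨C, hC, ?_⟩
  intro q1 q2 _ _ χ1 χ2 y1 y2 hne
  obtain ⟨K, b, -, hb, hK⟩ := D3_RB χ1 χ2 y1 y2 hne
  obtain ⟨kap, rh, hr0, hr1, hRL⟩ := D3_RL χ1 χ2 y1 y2 hne
  have hF := D3_inst_isCh χ1 χ2 y1 y2
  obtain ⟨L1, hL1, hB⟩ := hD ![chx χ1 y1, chx χ2 y2] hF (D_isCh_cj _ hF) K (y1 - y2) b hb hK kap rh hr0 hr1 hRL
  have hL1' : 8 * 10 ^ 10 ≤ L1 := by linarith only [hL1]
  refine ⟨rh / 4, L1, by linarith only [hr0], by linarith only [hr1], hL1', ?_⟩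
  intro sh0 sh1 hsh0 hsh1 L l hL hl1 hl2 a b ha hb t ht
  obtain ⟨hm1, hm2⟩ := B_17_1_m L l (hL1'.trans hL) hl1 hl2
  have hT := D3_typeI ![chx χ1 y1, chx χ2 y2] L t l c0 (fun i => t0 i / L) sh0 c1 (fun i => t1 i / L) sh1 a b ha hb
  have hB := hB sh0 sh1 hsh0 hsh1 L t (1 / l) hL ht hm1 hm2
  have e1 : (tw a (-(1 / 2) - ((1 / L : ℝ) + t * I) / 2) * tw (cj b) (-(1 / 2) + ((1 / L : ℝ) + t * I) / 2)) =
      PLs ![chx χ1 y1, chx χ2 y2] (AB L t ![1, 1]) c0 (fun i => t0 i / L) sh0 c1 (fun i => t1 i / L) sh1 (1 / l) := hT.1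
  have e2 : (tw (cj a) (-(1 / 2) - ((1 / L : ℝ) + t * I) / 2) * tw b (-(1 / 2) + ((1 / L : ℝ) + t * I) / 2)) =
      PLs (cjF ![chx χ1 y1, chx χ2 y2]) (AB L t ![1, 1]) c0 (fun i => t0 i / L) sh0 c1 (fun i => t1 i / L) sh1
        (1 / l) := hT.2
  rw [e1, e2]
  exact hB

/-- Type II, absolute bound near the real axis. -/
theorem D3_instb2 {ι0 ι1 : Type} [Fintype ι0] [Fintype ι1]
    (c0 t0 : ι0 → ℝ) (c1 t1 : ι1 → ℝ) (h0 : ∀ i, 1 ≤ t0 i ∧ t0 i ≤ 2 * 10 ^ 10)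
    (h1 : ∀ i, 0 ≤ t1 i ∧ t1 i ≤ 2 * 10 ^ 10) :
    ∃ C : ℝ, 0 < C ∧ ∀ (q1 q2 : ℕ) [NeZero q1] [NeZero q2] (χ1 : DirichletCharacter ℂ q1)
    (χ2 : DirichletCharacter ℂ q2) (y1 y2 : ℝ), NeX χ1 y1 χ2 y2 →
    ∃ τ0 L1 : ℝ, 0 < τ0 ∧ τ0 ≤ 1 ∧ 8 * 10 ^ 10 ≤ L1 ∧
    ∀ (sh0 : ι0 → ℝ) (sh1 : ι1 → ℝ), (∀ i, 0 ≤ sh0 i) → (∀ i, 0 ≤ sh1 i) →
    ∀ L l : ℝ, L1 ≤ L → dl / 2 * L ≤ l → l ≤ dl * L →
      ∀ a b : ArithmeticFunction ℂ,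
      a = LCs (chx χ2⁻¹ (-y2)) 0 c1 (fun i => t1 i / L) sh1 * cj (beta (chx χ1 y1) (chx χ2 y2) l) →
      b = LCs (chx χ1 y1) 0 c0 (fun i => t0 i / L) sh0 * beta (chx χ1 y1) (chx χ2 y2) l →
      ∀ t : ℝ, |t| ≤ τ0 → ‖∑' n : ℕ, (tw a (-(1 / 2) - ((1 / L : ℝ) + t * I) / 2) * tw (cj b) (-(1 / 2) + ((1 / L : ℝ) + t * I) / 2)) n *
        (tw (cj a) (-(1 / 2) - ((1 / L : ℝ) + t * I) / 2) * tw b (-(1 / 2) + ((1 / L : ℝ) + t * I) / 2)) n‖ ≤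
        C / (L * ‖((1 / L : ℝ) : ℂ) + t * I‖) := by
  obtain ⟨C, hC, hD⟩ := D3_D7b (2 * 10 ^ 10) (by norm_num) ![-1, 1] (by intro i; fin_cases i <;> simp)
    c0 t0 c1 t1
    (by
      intro i
      exact ⟨by linarith only [(h0 i).1], (h0 i).2, fun _ => (h0 i).1⟩)
    (by
      intro i
      refine ⟨(h1 i).1, (h1 i).2, ?_⟩
      intro h
      exfalso
      have h' : (1 : ℝ) = -1 := h
      norm_num at h')
  refine ⟨C, hC, ?_⟩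
  intro q1 q2 _ _ χ1 χ2 y1 y2 hne
  obtain ⟨K, b, -, hb, hK⟩ := D3_RB χ1 χ2 y1 y2 hne
  obtain ⟨kap, rh, hrh0, hrh1, hRL⟩ := D3_RL χ1 χ2 y1 y2 hne
  have hF := D3_inst_isCh χ1 χ2 y1 y2
  obtain ⟨L1, hL1, hB1⟩ := hD (cjF ![chx χ1 y1, chx χ2 y2]) (D_isCh_cj _ hF)
    (by rw [D_cjF_cjF]; exact hF) K (-(y1 - y2)) b (D3_Bx_neg _ b hb) (D3_RB_cj _ K _ b hK) _ rh hrh0 hrh1
    (B_RL_cj _ kap rh hRL)
  rw [D_cjF_cjF] at hB1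
  refine ⟨rh / 4, L1, by linarith only [hrh0], by linarith only [hrh1], by linarith only [hL1], ?_⟩
  intro sh0 sh1 hsh0 hsh1 L l hL hl1 hl2 a b ha hb t ht
  obtain ⟨hm1, hm2⟩ := B_17_1_m L l (by linarith only [hL, hL1]) hl1 hl2
  have ha' : a = LCs (cjF ![chx χ1 y1, chx χ2 y2] 1) 0 c1 (fun i => t1 i / L) sh1 *
      cj (beta ((![chx χ1 y1, chx χ2 y2] : Fin 2 → ℕ → ℂ) 0) ((![chx χ1 y1, chx χ2 y2] : Fin 2 → ℕ → ℂ) 1) l) := by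
    rw [ha, D3_chx_inv χ2 y2]
    rfl
  have hb' : b = LCs ((![chx χ1 y1, chx χ2 y2] : Fin 2 → ℕ → ℂ) 0) 0 c0 (fun i => t0 i / L) sh0 *
      beta ((![chx χ1 y1, chx χ2 y2] : Fin 2 → ℕ → ℂ) 0) ((![chx χ1 y1, chx χ2 y2] : Fin 2 → ℕ → ℂ) 1) l := by
    rw [hb]
    rfl
  have hT := D3_typeII ![chx χ1 y1, chx χ2 y2] L t l c0 (fun i => t0 i / L) sh0 c1 (fun i => t1 i / L) sh1 a b ha' hb'
  have hB := hB1 sh0 sh1 hsh0 hsh1 L t (1 / l) hL ht hm1 hm2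
  have e1 : (tw a (-(1 / 2) - ((1 / L : ℝ) + t * I) / 2) * tw (cj b) (-(1 / 2) + ((1 / L : ℝ) + t * I) / 2)) =
      PLs (cjF ![chx χ1 y1, chx χ2 y2]) (AB L t ![-1, 1]) c0 (fun i => t0 i / L) sh0 c1 (fun i => t1 i / L) sh1
        (1 / l) := hT.1
  have e2 : (tw (cj a) (-(1 / 2) - ((1 / L : ℝ) + t * I) / 2) * tw b (-(1 / 2) + ((1 / L : ℝ) + t * I) / 2)) =
      PLs ![chx χ1 y1, chx χ2 y2] (AB L t ![-1, 1]) c0 (fun i => t0 i / L) sh0 c1 (fun i => t1 i / L) sh1 (1 / l) := hT.2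
  rw [e1, e2]
  exact hB

end OO

end
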