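import Pool.Agent.Lib.MP_0f5a55_nt.OM.K000
import Pool.Agent.Lib.MP_0f5a55_nt.OM.K031
import Pool.Agent.Lib.MP_0f5a55_nt.OM.K036

section

/-!
# Row D_A17b: the Dirichlet series of the two types
-/

open Complex MeasureTheory Set Filter Topology
open scoped ComplexConjugate

namespace OO

private lemma D_A17b_isCh {q1 q2 : ℕ} (χ1 : DirichletCharacter ℂ q1) (χ2 : DirichletCharacter ℂ q2) :
    ∀ i, IsCh ((![ch χ1, ch χ2] : Fin 2 → ℕ → ℂ) i) := by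
  intro i
  fin_cases i
  · exact D_isCh_ch χ1
  · exact D_isCh_ch χ2

private lemma D_A17b_m (L l : ℝ) (hL : 8 * 10 ^ 10 ≤ L) (h1 : dl / 2 * L ≤ l) (h2 : l ≤ dl * L) :
    1 / L ≤ 1 / l ∧ 1 / l ≤ 2 * 10 ^ 10 / L := by
  have hL0 : 0 < L := by linarith
  have hd : dl = 1 / 10 ^ 10 := rfl
  have hl0 : 0 < l := by
    have : 0 < dl / 2 * L := by rw [hd]; positivity
    linarith
  constructor
  · apply one_div_le_one_div_of_le hl0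
    rw [hd] at h2
    linarith
  · rw [div_le_div_iff₀ hl0 hL0]
    rw [hd] at h1
    linarith

private lemma D_A17b_fin (C L t : ℝ) (x : ℝ) (hC : 0 < C) (hL : 8 * 10 ^ 10 ≤ L)
    (h : x ≤ C * (1 + |t|) ^ 32 / (L * ‖ww L t‖)) :
    x ≤ C * (1 + |t|) ^ 40 / (L * ‖((1 / L : ℝ) : ℂ) + t * I‖) := by
  refine le_trans h ?_
  show C * (1 + |t|) ^ 32 / (L * ‖ww L t‖) ≤ C * (1 + |t|) ^ 40 / (L * ‖ww L t‖)
  have hL0 : 0 < L := by linarith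
  apply div_le_div_of_nonneg_right _ (by positivity)
  apply mul_le_mul_of_nonneg_left _ hC.le
  exact pow_le_pow_right₀ (by linarith [abs_nonneg t]) (by norm_num)

/-- Type I in the form of `G_main`: `D_typeI` and `D_D7` (`s = ![1, 1]`, `m = 1/l`, `Th = 2 * 10^10`,
`(1+|t|)^32 ≤ (1+|t|)^40`), for any weights with `0 ≤ t0 i, t1 i ≤ Th`. -/
theorem D_inst1 {q1 q2 : ℕ} [NeZero q1] [NeZero q2] (χ1 : DirichletCharacter ℂ q1)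
    (χ2 : DirichletCharacter ℂ q2) (hne : Ne12 χ1 χ2) {ι0 ι1 : Type} [Fintype ι0] [Fintype ι1]
    (c0 t0 : ι0 → ℝ) (c1 t1 : ι1 → ℝ) (h0 : ∀ i, 0 ≤ t0 i ∧ t0 i ≤ 2 * 10 ^ 10)
    (h1 : ∀ i, 0 ≤ t1 i ∧ t1 i ≤ 2 * 10 ^ 10) :
    ∃ C : ℝ, 0 < C ∧ ∀ L l : ℝ, 8 * 10 ^ 10 ≤ L → dl / 2 * L ≤ l → l ≤ dl * L →
      ∀ a b : ArithmeticFunction ℂ,
      a = beta (ch χ1) (ch χ2) l * (LC (ch χ1) 0 c0 (fun i => t0 i / L) *
        LC (ch χ2) 0 c1 (fun i => t1 i / L)) → b = cj (beta (ch χ1) (ch χ2) l) →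
      ∀ t : ℝ, ‖∑' n : ℕ, (tw a (-(1 / 2) - ((1 / L : ℝ) + t * I) / 2) * tw (cj b) (-(1 / 2) + ((1 / L : ℝ) + t * I) / 2)) n *
        (tw (cj a) (-(1 / 2) - ((1 / L : ℝ) + t * I) / 2) * tw b (-(1 / 2) + ((1 / L : ℝ) + t * I) / 2)) n‖ ≤
        C * (1 + |t|) ^ 40 / (L * ‖((1 / L : ℝ) : ℂ) + t * I‖) := by
  obtain ⟨K, -, hK⟩ := D_RB χ1 χ2 hne
  obtain ⟨C, hC, hD⟩ := D_D7 ![ch χ1, ch χ2] (D_A17b_isCh χ1 χ2) (D_isCh_cj _ (D_A17b_isCh χ1 χ2)) K hK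
    (2 * 10 ^ 10) (by norm_num) ![1, 1] (by intro i; fin_cases i <;> simp) c0 t0 c1 t1
    (by
      intro i
      refine ⟨(h0 i).1, (h0 i).2, ?_⟩
      intro h
      exfalso
      have h' : (1 : ℝ) = -1 := h
      norm_num at h')
    (by
      intro i
      refine ⟨(h1 i).1, (h1 i).2, ?_⟩
      intro h
      exfalso
      have h' : (1 : ℝ) = -1 := h
      norm_num at h')
  refine ⟨C, hC, ?_⟩
  intro L l hL hl1 hl2 a b ha hb t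
  obtain ⟨hm1, hm2⟩ := D_A17b_m L l hL hl1 hl2
  have hT := D_typeI ![ch χ1, ch χ2] L t l c0 (fun i => t0 i / L) c1 (fun i => t1 i / L) a b ha hb
  have hB := hD L t (1 / l) (by linarith) hm1 hm2
  apply D_A17b_fin C L t _ hC hL
  have e1 : (tw a (-(1 / 2) - ((1 / L : ℝ) + t * I) / 2) * tw (cj b) (-(1 / 2) + ((1 / L : ℝ) + t * I) / 2)) =
      PL ![ch χ1, ch χ2] (AB L t ![1, 1]) c0 (fun i => t0 i / L) c1 (fun i => t1 i / L) (1 / l) := hT.1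
  have e2 : (tw (cj a) (-(1 / 2) - ((1 / L : ℝ) + t * I) / 2) * tw b (-(1 / 2) + ((1 / L : ℝ) + t * I) / 2)) =
      PL (cjF ![ch χ1, ch χ2]) (AB L t ![1, 1]) c0 (fun i => t0 i / L) c1 (fun i => t1 i / L) (1 / l) := hT.2
  rw [e1, e2]
  exact hB

/-- Type II in the form of `G_main`: `D_typeII` and `D_D7` for the family `cjF ![ch χ1, ch χ2]`
(`D_cjF_cjF`, `D_RB_cj`, `D_isCh_cj`; `s = ![-1, 1]`), commute the two factors; here `1 ≤ t0 i`. -/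
theorem D_inst2 {q1 q2 : ℕ} [NeZero q1] [NeZero q2] (χ1 : DirichletCharacter ℂ q1)
    (χ2 : DirichletCharacter ℂ q2) (hne : Ne12 χ1 χ2) {ι0 ι1 : Type} [Fintype ι0] [Fintype ι1]
    (c0 t0 : ι0 → ℝ) (c1 t1 : ι1 → ℝ) (h0 : ∀ i, 1 ≤ t0 i ∧ t0 i ≤ 2 * 10 ^ 10)
    (h1 : ∀ i, 0 ≤ t1 i ∧ t1 i ≤ 2 * 10 ^ 10) :
    ∃ C : ℝ, 0 < C ∧ ∀ L l : ℝ, 8 * 10 ^ 10 ≤ L → dl / 2 * L ≤ l → l ≤ dl * L →
      ∀ a b : ArithmeticFunction ℂ,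
      a = LC (ch χ2⁻¹) 0 c1 (fun i => t1 i / L) * cj (beta (ch χ1) (ch χ2) l) →
      b = LC (ch χ1) 0 c0 (fun i => t0 i / L) * beta (ch χ1) (ch χ2) l →
      ∀ t : ℝ, ‖∑' n : ℕ, (tw a (-(1 / 2) - ((1 / L : ℝ) + t * I) / 2) * tw (cj b) (-(1 / 2) + ((1 / L : ℝ) + t * I) / 2)) n *
        (tw (cj a) (-(1 / 2) - ((1 / L : ℝ) + t * I) / 2) * tw b (-(1 / 2) + ((1 / L : ℝ) + t * I) / 2)) n‖ ≤
        C * (1 + |t|) ^ 40 / (L * ‖((1 / L : ℝ) : ℂ) + t * I‖) := by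
  obtain ⟨K, -, hK⟩ := D_RB χ1 χ2 hne
  have hF := D_A17b_isCh χ1 χ2
  obtain ⟨C, hC, hD⟩ := D_D7 (cjF ![ch χ1, ch χ2]) (D_isCh_cj _ hF)
    (by rw [D_cjF_cjF]; exact hF) K (D_RB_cj _ K hK)
    (2 * 10 ^ 10) (by norm_num) ![-1, 1] (by intro i; fin_cases i <;> simp) c0 t0 c1 t1
    (by
      intro i
      exact ⟨by linarith [(h0 i).1], (h0 i).2, fun _ => (h0 i).1⟩)
    (by
      intro i
      refine ⟨(h1 i).1, (h1 i).2, ?_⟩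
      intro h
      exfalso
      have h' : (1 : ℝ) = -1 := h
      norm_num at h')
  rw [D_cjF_cjF] at hD
  refine ⟨C, hC, ?_⟩
  intro L l hL hl1 hl2 a b ha hb t
  obtain ⟨hm1, hm2⟩ := D_A17b_m L l hL hl1 hl2
  have ha' : a = LC (cjF ![ch χ1, ch χ2] 1) 0 c1 (fun i => t1 i / L) *
      cj (beta ((![ch χ1, ch χ2] : Fin 2 → ℕ → ℂ) 0) ((![ch χ1, ch χ2] : Fin 2 → ℕ → ℂ) 1) l) := by
    rw [ha, D_ch_inv χ2]
    rfl
  have hb' : b = LC ((![ch χ1, ch χ2] : Fin 2 → ℕ → ℂ) 0) 0 c0 (fun i => t0 i / L) *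
      beta ((![ch χ1, ch χ2] : Fin 2 → ℕ → ℂ) 0) ((![ch χ1, ch χ2] : Fin 2 → ℕ → ℂ) 1) l := by
    rw [hb]
    rfl
  have hT := D_typeII ![ch χ1, ch χ2] L t l c0 (fun i => t0 i / L) c1 (fun i => t1 i / L) a b ha' hb'
  have hB := hD L t (1 / l) (by linarith) hm1 hm2
  apply D_A17b_fin C L t _ hC hL
  have e1 : (tw a (-(1 / 2) - ((1 / L : ℝ) + t * I) / 2) * tw (cj b) (-(1 / 2) + ((1 / L : ℝ) + t * I) / 2)) =
      PL (cjF ![ch χ1, ch χ2]) (AB L t ![-1, 1]) c0 (fun i => t0 i / L) c1 (fun i => t1 i / L) (1 / l) := hT.1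
  have e2 : (tw (cj a) (-(1 / 2) - ((1 / L : ℝ) + t * I) / 2) * tw b (-(1 / 2) + ((1 / L : ℝ) + t * I) / 2)) =
      PL ![ch χ1, ch χ2] (AB L t ![-1, 1]) c0 (fun i => t0 i / L) c1 (fun i => t1 i / L) (1 / l) := hT.2
  rw [e1, e2]
  exact hB

end OO

end

section

/-!
# Row B_18: the diagonal sums of the three instances, absolute version
-/

open Complex MeasureTheory Set Filter Topology
open scoped ComplexConjugate

namespace OO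

/-- Elementary: `Q1/(τ0^2 L) ≤ Q0 (Y/L) (1 + log (L/Y))` when `Q1/(τ0^2 Q0) ≤ Y ≤ L`, `Y ≥ 1`. -/
theorem B_18_el (Q0 Q1 τ0 Y L : ℝ) (hQ0 : 0 < Q0) (hQ1 : 0 ≤ Q1) (hτ : 0 < τ0) (hY : 1 ≤ Y)
    (hY' : Q1 / (τ0 ^ 2 * Q0) ≤ Y) (hYL : Y ≤ L) :
    Q1 / (τ0 ^ 2 * L) ≤ Q0 * ((Y / L) * (1 + Real.log (L / Y))) := by
  have hY0 : 0 < Y := by linarith only [hY]
  have hL0 : 0 < L := by linarith only [hY0, hYL]
  have hτ2 : 0 < τ0 ^ 2 := by positivity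
  have hlog : 0 ≤ Real.log (L / Y) := Real.log_nonneg (by rw [le_div_iff₀ hY0]; linarith only [hYL])
  have h1 : Q1 ≤ Y * (τ0 ^ 2 * Q0) := (div_le_iff₀ (mul_pos hτ2 hQ0)).1 hY'
  have h2 : Q1 / (τ0 ^ 2 * L) ≤ Q0 * (Y / L) := by
    rw [div_le_iff₀ (mul_pos hτ2 hL0)]
    have e : Q0 * (Y / L) * (τ0 ^ 2 * L) = Y * (τ0 ^ 2 * Q0) := by
      field_simp
    rw [e]
    exact h1
  refine h2.trans (mul_le_mul_of_nonneg_left ?_ hQ0.le)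
  have h3 : 0 ≤ Y / L := (div_pos hY0 hL0).le
  have h4 : 0 ≤ Y / L * Real.log (L / Y) := mul_nonneg h3 hlog
  have e2 : Y / L * (1 + Real.log (L / Y)) = Y / L + Y / L * Real.log (L / Y) := by ring
  linarith only [h4, e2]

/-- Copy `DS_inst` (D_A18.lean) with `G_main2`, `B_inst1`, `B_inst2` (absolute `Q0`), `D_inst1`, `D_inst2`
(`Q1`, depends on the characters), `B_18_el`; `Y0` = sum of `1` and the three `Q1/(τ0^2 Q0)`, `L0` = sum of the `L1` and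
`Q1/(τ0^2 Q0)`; constant `2 CG (C1 + C2 + C3)`. -/
theorem DS_inst_abs : ∃ C : ℝ, 0 < C ∧ ∀ (q1 q2 : ℕ) [NeZero q1] [NeZero q2] (χ1 : DirichletCharacter ℂ q1)
    (χ2 : DirichletCharacter ℂ q2), Ne12 χ1 χ2 → ∃ L0 Y0 : ℝ, 2 ≤ L0 ∧ 1 ≤ Y0 ∧
      ∀ L l P : ℝ, L0 ≤ L → dl / 2 * L ≤ l → l ≤ dl * L → 0 < P →
      (∀ Y : ℝ, Y0 ≤ Y → Y ≤ L →
        DS (Hl l) (beta (ch χ1) (ch χ2) l * (FA (ch χ1) (ff L) * FA (ch χ2) (ff L)) : ArithmeticFunction ℂ)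
          (cj (beta (ch χ1) (ch χ2) l))
          (fun y => Psi 1 (Real.exp (-Y)) (P * y)) ≤ C * P ^ (-1 - 1 / L) * (Y / L) * (1 + Real.log (L / Y)) ∧
        ∀ K0 : ℕ, ⌊Real.exp (L / 500 + 2 * l)⌋₊ ≤ K0 →
          DS K0 (LA (ch χ2⁻¹) 0 0 * cj (beta (ch χ1) (ch χ2) l) : ArithmeticFunction ℂ)
            (FA (ch χ1) (rho L) * beta (ch χ1) (ch χ2) l : ArithmeticFunction ℂ)
            (fun y => Psi 1 (Real.exp (-Y)) (P * y)) ≤ C * P ^ (-1 - 1 / L) * (Y / L) * (1 + Real.log (L / Y))) ∧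
      (∀ α : ℝ, 1 ≤ α →
        DS (Hl l) (beta (ch χ1) (ch χ2) l * lamF (ch χ1) (ch χ2) : ArithmeticFunction ℂ)
          (cj (beta (ch χ1) (ch χ2) l)) (fun y => Psi α 0 (P * y)) ≤ C * P ^ (-1 - 1 / L)) := by
  have hN : ∀ i : Option (Fin 22), 0 ≤ tN i ∧ tN i ≤ 2 * 10 ^ 10 := fun i => by
    cases i with
    | none => simp only [tN]; norm_num
    | some i => have := D_tau i; simp only [tN]; constructor <;> linarith only [this.1, this.2]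
  have hT : ∀ i : Fin 22, 1 ≤ tau i ∧ tau i ≤ 2 * 10 ^ 10 := fun i => by
    have := D_tau i
    constructor <;> linarith only [this.1, this.2]
  have hU : ∀ _ : Unit, (0 : ℝ) ≤ 0 ∧ (0 : ℝ) ≤ 2 * 10 ^ 10 := fun _ => by norm_num
  obtain ⟨C1, hC1, h1⟩ := B_inst1 cN tN cN tN hN hN
  obtain ⟨C2, hC2, h2⟩ := B_inst2 ci tau (fun _ : Unit => (1 : ℝ)) (fun _ => (0 : ℝ)) hT hU
  obtain ⟨C3, hC3, h3⟩ := B_inst1 (fun _ : Unit => (1 : ℝ)) (fun _ => (0 : ℝ))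
    (fun _ : Unit => (1 : ℝ)) (fun _ => (0 : ℝ)) hU hU
  obtain ⟨CG, hCG, hG⟩ := G_main2
  refine ⟨2 * CG * (C1 + C2 + C3), by positivity, ?_⟩
  intro q1 q2 _ _ χ1 χ2 hne
  obtain ⟨τ1, M1, hτ1, hτ1', hM1, a1⟩ := h1 q1 q2 χ1 χ2 hne
  obtain ⟨τ2, M2, hτ2, hτ2', hM2, a2⟩ := h2 q1 q2 χ1 χ2 hne
  obtain ⟨τ3, M3, hτ3, hτ3', hM3, a3⟩ := h3 q1 q2 χ1 χ2 hne
  obtain ⟨R1, hR1, b1⟩ := D_inst1 χ1 χ2 hne cN tN cN tN hN hN
  obtain ⟨R2, hR2, b2⟩ := D_inst2 χ1 χ2 hne ci tau (fun _ : Unit => (1 : ℝ)) (fun _ => (0 : ℝ)) hT hU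
  obtain ⟨R3, hR3, b3⟩ := D_inst1 χ1 χ2 hne (fun _ : Unit => (1 : ℝ)) (fun _ => (0 : ℝ))
    (fun _ : Unit => (1 : ℝ)) (fun _ => (0 : ℝ)) hU hU
  have hy1 : 0 < R1 / (τ1 ^ 2 * C1) := by positivity
  have hy2 : 0 < R2 / (τ2 ^ 2 * C2) := by positivity
  have hy3 : 0 < R3 / (τ3 ^ 2 * C3) := by positivity
  refine ⟨M1 + M2 + M3 + R3 / (τ3 ^ 2 * C3), 1 + R1 / (τ1 ^ 2 * C1) + R2 / (τ2 ^ 2 * C2),
    by linarith only [hM1, hM2, hM3, hy3], by linarith only [hy1, hy2], ?_⟩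
  intro L l P hL hl1 hl2 hP
  have hLM1 : M1 ≤ L := by linarith only [hL, hM2, hM3, hy3]
  have hLM2 : M2 ≤ L := by linarith only [hL, hM1, hM3, hy3]
  have hLM3 : M3 ≤ L := by linarith only [hL, hM1, hM2, hy3]
  have hL8 : 8 * 10 ^ 10 ≤ L := hM1.trans hLM1
  have hLR : R3 / (τ3 ^ 2 * C3) ≤ L := by linarith only [hL, hM1, hM2, hM3]
  have hL0 : 0 < L := lt_of_lt_of_le (by norm_num) hL8
  have hdl : (0 : ℝ) < dl := by unfold dl; norm_num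
  have hl0 : 0 < l := lt_of_lt_of_le (by positivity) hl1
  have hL2 : 2 ≤ L := le_trans (by norm_num) hL8
  have hPp : 0 < P ^ (-1 - 1 / L) := Real.rpow_pos_of_pos hP _
  have hf1 : ∀ n, ‖ch χ1 n‖ ≤ 1 := fun n => χ1.norm_le_one _
  have hf2 : ∀ n, ‖ch χ2 n‖ ≤ 1 := fun n => χ2.norm_le_one _
  have hf2' : ∀ n, ‖ch χ2⁻¹ n‖ ≤ 1 := fun n => (χ2⁻¹).norm_le_one _
  obtain ⟨g1, g1r, g1L, g1M⟩ := D_Gr_basic (ch χ1) hf1 L l hL0 hl0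
  obtain ⟨g2, -, g2L, g2M⟩ := D_Gr_basic (ch χ2) hf2 L l hL0 hl0
  obtain ⟨-, -, g2L', -⟩ := D_Gr_basic (ch χ2⁻¹) hf2' L l hL0 hl0
  have gb : Gr (beta (ch χ1) (ch χ2) l) := D_Gr_mul _ _ g1M g2M
  have hcjb : ∀ k, Hl l < k → cj (beta (ch χ1) (ch χ2) l) k = 0 := by
    intro k hk
    have := D_beta_supp (ch χ1) (ch χ2) l hl0 k hk
    unfold cj
    simp [this]
  have hCP : 0 ≤ CG * P ^ (-1 - 1 / L) := (mul_pos hCG hPp).le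
  -- from `Q X + small ≤ 2 Q X` to the final form
  have fin : ∀ (Q S Z : ℝ), S ≤ Q * Z → 0 ≤ Z → Q ≤ C1 + C2 + C3 →
      CG * P ^ (-1 - 1 / L) * (Q * Z + S) ≤ 2 * CG * (C1 + C2 + C3) * P ^ (-1 - 1 / L) * Z := by
    intro Q S Z hS hZ hQ
    have e1 : Q * Z + S ≤ 2 * ((C1 + C2 + C3) * Z) := by
      have := mul_le_mul_of_nonneg_right hQ hZ
      linarith only [this, hS]
    calc CG * P ^ (-1 - 1 / L) * (Q * Z + S) ≤ CG * P ^ (-1 - 1 / L) * (2 * ((C1 + C2 + C3) * Z)) :=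
          mul_le_mul_of_nonneg_left e1 hCP
      _ = 2 * CG * (C1 + C2 + C3) * P ^ (-1 - 1 / L) * Z := by ring
  refine ⟨fun Y hY hYL => ?_, fun α hα => ?_⟩
  · have hY1 : 1 ≤ Y := by linarith only [hY, hy1, hy2]
    have hY0 : 0 < Y := by linarith only [hY1]
    have hlog : 0 ≤ Real.log (L / Y) :=
      Real.log_nonneg (by rw [le_div_iff₀ hY0]; linarith only [hYL])
    have hZ : 0 ≤ Y / L * (1 + Real.log (L / Y)) :=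
      mul_nonneg (div_pos hY0 hL0).le (by linarith only [hlog])
    refine ⟨?_, fun K0 hK0 => ?_⟩
    · have key := (hG _ _ (Hl l) L C1 R1 τ1 hL2 hC1.le hR1.le hτ1 hτ1' hcjb
        (D_Gr_mul _ _ gb (D_Gr_mul _ _ g1 g2))
        (a1 L l hLM1 hl1 hl2 _ _ (by rw [D_FA_ff, D_FA_ff]) rfl)
        (b1 L l hL8 hl1 hl2 _ _ (by rw [D_FA_ff, D_FA_ff]) rfl) P hP).1 Y hY1 hYL
      have h4 := fin C1 (R1 / (τ1 ^ 2 * L)) (Y / L * (1 + Real.log (L / Y)))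
        (B_18_el C1 R1 τ1 Y L hC1 hR1.le hτ1 hY1 (by linarith only [hY, hy2]) hYL) hZ
        (by linarith only [hC2, hC3])
      rw [← mul_assoc (2 * CG * (C1 + C2 + C3) * P ^ (-1 - 1 / L))] at h4
      exact le_trans key h4
    · have key := (hG _ _ K0 L C2 R2 τ2 hL2 hC2.le hR2.le hτ2 hτ2'
        (fun k hk => D_rho_supp (ch χ1) (ch χ2) L l hL0 hl0 k (lt_of_le_of_lt hK0 hk))
        (D_Gr_mul _ _ g2L' (D_Gr_cj _ gb))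
        (a2 L l hLM2 hl1 hl2 _ _ (by rw [D_LA_LC _ L]) (by rw [D_FA_rho]))
        (b2 L l hL8 hl1 hl2 _ _ (by rw [D_LA_LC _ L]) (by rw [D_FA_rho])) P hP).1 Y hY1 hYL
      have h4 := fin C2 (R2 / (τ2 ^ 2 * L)) (Y / L * (1 + Real.log (L / Y)))
        (B_18_el C2 R2 τ2 Y L hC2 hR2.le hτ2 hY1 (by linarith only [hY, hy1]) hYL) hZ
        (by linarith only [hC1, hC3])
      rw [← mul_assoc (2 * CG * (C1 + C2 + C3) * P ^ (-1 - 1 / L))] at h4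
      exact le_trans key h4
  · have key := (hG _ _ (Hl l) L C3 R3 τ3 hL2 hC3.le hR3.le hτ3 hτ3' hcjb
      (D_Gr_mul _ _ gb (D_Gr_mul _ _ g1L g2L))
      (a3 L l hLM3 hl1 hl2 _ _ (by rw [← D_LA_LC _ L, ← D_LA_LC _ L]) rfl)
      (b3 L l hL8 hl1 hl2 _ _ (by rw [← D_LA_LC _ L, ← D_LA_LC _ L]) rfl) P hP).2 α hα
    have hS : R3 / (τ3 ^ 2 * L) ≤ C3 * 1 := by
      have hτ : 0 < τ3 ^ 2 := by positivity
      rw [div_le_iff₀ (mul_pos hτ hL0)]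
      have := (div_le_iff₀ (mul_pos hτ hC3)).1 hLR
      calc R3 ≤ L * (τ3 ^ 2 * C3) := this
        _ = C3 * 1 * (τ3 ^ 2 * L) := by ring
    have h4 := fin C3 (R3 / (τ3 ^ 2 * L)) 1 hS zero_le_one (by linarith only [hC1, hC2])
    rw [mul_one, mul_one] at h4
    exact le_trans key h4

end OO

end
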