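import Pool.Agent.Lib.MP_0f5a55_nt.OM.K000
import Pool.Agent.Lib.MP_0f5a55_nt.OM.K032
import Pool.Agent.Lib.MP_0f5a55_nt.OM.K037

/-!
# Row D3_fin: the diagonal sums of the three instances, with shifts
-/

open Complex MeasureTheory Set Filter Topology
open scoped ComplexConjugate

namespace OO

/-- `x √L ≤ L^(3/4)` if `x^4 ≤ L` -/
theorem D3_fin_el (x L : ℝ) (hx : 0 ≤ x) (hL : 0 < L) (h : x ^ 4 ≤ L) : x * √L ≤ L ^ (3 / 4 : ℝ) := by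
  have h1 : x ≤ L ^ (1 / 4 : ℝ) := by
    have h2 : (x ^ 4) ^ (1 / 4 : ℝ) ≤ L ^ (1 / 4 : ℝ) := Real.rpow_le_rpow (by positivity) h (by norm_num)
    have h3 : (x ^ 4) ^ (1 / 4 : ℝ) = x := by
      rw [← Real.rpow_natCast, ← Real.rpow_mul hx]
      norm_num
    rwa [h3] at h2
  calc x * √L ≤ L ^ (1 / 4 : ℝ) * √L := mul_le_mul_of_nonneg_right h1 (Real.sqrt_nonneg L)
    _ = L ^ (1 / 4 : ℝ) * L ^ (1 / 2 : ℝ) := by rw [Real.sqrt_eq_rpow]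
    _ = L ^ (3 / 4 : ℝ) := by
        rw [← Real.rpow_add hL]
        norm_num

/-- Blocks D, G with shifts: the three instances with an ABSOLUTE constant `C`; `L0` depends on the characters and the
shifts. -/
theorem DS_inst_abs3 : ∃ C : ℝ, 0 < C ∧ ∀ (q1 q2 : ℕ) [NeZero q1] [NeZero q2] (χ1 : DirichletCharacter ℂ q1)
    (χ2 : DirichletCharacter ℂ q2) (y1 y2 : ℝ), NeX χ1 y1 χ2 y2 → ∃ L0 : ℝ, 2 ≤ L0 ∧
      ∀ L l P : ℝ, L0 ≤ L → dl / 2 * L ≤ l → l ≤ dl * L → 0 < P →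
      (∀ Y : ℝ, L ^ (3 / 4 : ℝ) ≤ Y → Y ≤ L →
        DS (Hl l) (beta (chx χ1 y1) (chx χ2 y2) l *
            (FA (chx χ1 y1) (ffx (y1 - y2) L) * FA (chx χ2 y2) (ffx (y1 - y2) L)) : ArithmeticFunction ℂ)
          (cj (beta (chx χ1 y1) (chx χ2 y2) l))
          (fun y => Psi 1 (Real.exp (-Y)) (P * y)) ≤ C * P ^ (-1 - 1 / L) * (Y / L) * (1 + Real.log (L / Y)) ∧
        ∀ K0 : ℕ, ⌊Real.exp (L / 500 + 2 * l)⌋₊ ≤ K0 →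
          DS K0 (LA (chx χ2⁻¹ (-y2)) 0 0 * cj (beta (chx χ1 y1) (chx χ2 y2) l) : ArithmeticFunction ℂ)
            (FA (chx χ1 y1) (rhox (y1 - y2) L) * beta (chx χ1 y1) (chx χ2 y2) l : ArithmeticFunction ℂ)
            (fun y => Psi 1 (Real.exp (-Y)) (P * y)) ≤ C * P ^ (-1 - 1 / L) * (Y / L) * (1 + Real.log (L / Y))) ∧
      (∀ α : ℝ, 1 ≤ α →
        DS (Hl l) (beta (chx χ1 y1) (chx χ2 y2) l * lamF (chx χ1 y1) (chx χ2 y2) : ArithmeticFunction ℂ)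
          (cj (beta (chx χ1 y1) (chx χ2 y2) l)) (fun y => Psi α 0 (P * y)) ≤ C * P ^ (-1 - 1 / L)) := by
  have hR : ∀ i : Fin 22 × Bool, 1 ≤ tR i ∧ tR i ≤ 2 * 10 ^ 10 := fun i => by
    have := D3_tR i
    constructor <;> linarith only [this.1, this.2]
  have hN : ∀ i : Option (Fin 22 × Bool), 0 ≤ tX i ∧ tX i ≤ 2 * 10 ^ 10 := fun i => by
    cases i with
    | none => simp only [tX]; norm_num
    | some i => have := hR i; simp only [tX]; constructor <;> linarith only [this.1, this.2]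
  have hU : ∀ _ : Unit, (0 : ℝ) ≤ 0 ∧ (0 : ℝ) ≤ 2 * 10 ^ 10 := fun _ => by norm_num
  obtain ⟨C1, hC1, h1⟩ := D3_instb1 cX tX cX tX hN hN
  obtain ⟨C2, hC2, h2⟩ := D3_instb2 cR tR (fun _ : Unit => (1 : ℝ)) (fun _ => (0 : ℝ)) hR hU
  obtain ⟨C3, hC3, h3⟩ := D3_instb1 (fun _ : Unit => (1 : ℝ)) (fun _ => (0 : ℝ))
    (fun _ : Unit => (1 : ℝ)) (fun _ => (0 : ℝ)) hU hU
  obtain ⟨CG, hCG, hG⟩ := G_main2
  refine ⟨2 * CG * (C1 + C2 + C3), by positivity, ?_⟩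
  intro q1 q2 _ _ χ1 χ2 y1 y2 hne
  obtain ⟨τ1, M1, hτ1, hτ1', hM1, a1⟩ := h1 q1 q2 χ1 χ2 y1 y2 hne
  obtain ⟨τ2, M2, hτ2, hτ2', hM2, a2⟩ := h2 q1 q2 χ1 χ2 y1 y2 hne
  obtain ⟨τ3, M3, hτ3, hτ3', hM3, a3⟩ := h3 q1 q2 χ1 χ2 y1 y2 hne
  obtain ⟨R1, hR1, b1⟩ := D3_inst1 χ1 χ2 y1 y2 hne cX tX cX tX hN hN
  obtain ⟨R2, hR2, b2⟩ := D3_inst2 χ1 χ2 y1 y2 hne cR tR (fun _ : Unit => (1 : ℝ)) (fun _ => (0 : ℝ)) hR hU
  obtain ⟨R3, hR3, b3⟩ := D3_inst1 χ1 χ2 y1 y2 hne (fun _ : Unit => (1 : ℝ)) (fun _ => (0 : ℝ))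
    (fun _ : Unit => (1 : ℝ)) (fun _ => (0 : ℝ)) hU hU
  have hx1 : 0 < R1 / (τ1 ^ 2 * C1) := by positivity
  have hx2 : 0 < R2 / (τ2 ^ 2 * C2) := by positivity
  have hx3 : 0 < R3 / (τ3 ^ 2 * C3) := by positivity
  have hz1 : 0 < (R1 / (τ1 ^ 2 * C1)) ^ 4 := pow_pos hx1 4
  have hz2 : 0 < (R2 / (τ2 ^ 2 * C2)) ^ 4 := pow_pos hx2 4
  have hz3 : 0 < (R3 / (τ3 ^ 2 * C3)) ^ 4 := pow_pos hx3 4
  refine ⟨M1 + M2 + M3 + (R1 / (τ1 ^ 2 * C1)) ^ 4 + (R2 / (τ2 ^ 2 * C2)) ^ 4 + (R3 / (τ3 ^ 2 * C3)) ^ 4,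
    by linarith only [hM1, hM2, hM3, hz1, hz2, hz3], ?_⟩
  intro L l P hL hl1 hl2 hP
  have hLM1 : M1 ≤ L := by linarith only [hL, hM2, hM3, hz1, hz2, hz3]
  have hLM2 : M2 ≤ L := by linarith only [hL, hM1, hM3, hz1, hz2, hz3]
  have hLM3 : M3 ≤ L := by linarith only [hL, hM1, hM2, hz1, hz2, hz3]
  have hLz1 : (R1 / (τ1 ^ 2 * C1)) ^ 4 ≤ L := by linarith only [hL, hM1, hM2, hM3, hz2, hz3]
  have hLz2 : (R2 / (τ2 ^ 2 * C2)) ^ 4 ≤ L := by linarith only [hL, hM1, hM2, hM3, hz1, hz3]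
  have hLz3 : (R3 / (τ3 ^ 2 * C3)) ^ 4 ≤ L := by linarith only [hL, hM1, hM2, hM3, hz1, hz2]
  have hL8 : 8 * 10 ^ 10 ≤ L := hM1.trans hLM1
  have hL0 : 0 < L := lt_of_lt_of_le (by norm_num) hL8
  have hL1 : 1 ≤ L := le_trans (by norm_num) hL8
  have hdl : (0 : ℝ) < dl := by unfold dl; norm_num
  have hl0 : 0 < l := lt_of_lt_of_le (by positivity) hl1
  have hL2 : 2 ≤ L := le_trans (by norm_num) hL8
  have hsL : 0 ≤ √L := Real.sqrt_nonneg L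
  -- the three error terms
  have hE1 : R1 * √L / (τ1 ^ 2 * C1) ≤ L ^ (3 / 4 : ℝ) := by
    have := D3_fin_el _ L hx1.le hL0 hLz1
    calc R1 * √L / (τ1 ^ 2 * C1) = R1 / (τ1 ^ 2 * C1) * √L := by ring
      _ ≤ _ := this
  have hE2 : R2 * √L / (τ2 ^ 2 * C2) ≤ L ^ (3 / 4 : ℝ) := by
    have := D3_fin_el _ L hx2.le hL0 hLz2
    calc R2 * √L / (τ2 ^ 2 * C2) = R2 / (τ2 ^ 2 * C2) * √L := by ring
      _ ≤ _ := this
  have hE3 : R3 * √L / (τ3 ^ 2 * C3) ≤ L := by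
    have := D3_fin_el _ L hx3.le hL0 hLz3
    calc R3 * √L / (τ3 ^ 2 * C3) = R3 / (τ3 ^ 2 * C3) * √L := by ring
      _ ≤ L ^ (3 / 4 : ℝ) := this
      _ ≤ L ^ (1 : ℝ) := Real.rpow_le_rpow_of_exponent_le hL1 (by norm_num)
      _ = L := Real.rpow_one L
  have hQ1 : 0 ≤ R1 * √L := mul_nonneg hR1.le hsL
  have hQ2 : 0 ≤ R2 * √L := mul_nonneg hR2.le hsL
  have hQ3 : 0 ≤ R3 * √L := mul_nonneg hR3.le hsL
  have hPp : 0 < P ^ (-1 - 1 / L) := Real.rpow_pos_of_pos hP _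
  have hf1 : ∀ n, ‖chx χ1 y1 n‖ ≤ 1 := (D3_isCh_chx χ1 y1).le
  have hf2 : ∀ n, ‖chx χ2 y2 n‖ ≤ 1 := (D3_isCh_chx χ2 y2).le
  have hf2' : ∀ n, ‖chx χ2⁻¹ (-y2) n‖ ≤ 1 := (D3_isCh_chx χ2⁻¹ (-y2)).le
  obtain ⟨-, -, g1L, g1M⟩ := D_Gr_basic (chx χ1 y1) hf1 L l hL0 hl0
  obtain ⟨-, -, g2L, g2M⟩ := D_Gr_basic (chx χ2 y2) hf2 L l hL0 hl0
  obtain ⟨-, -, g2L', -⟩ := D_Gr_basic (chx χ2⁻¹ (-y2)) hf2' L l hL0 hl0
  have g1 := (D3_Gr_cut (chx χ1 y1) hf1 (y1 - y2) L hL0).1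
  have g2 := (D3_Gr_cut (chx χ2 y2) hf2 (y1 - y2) L hL0).1
  have gb : Gr (beta (chx χ1 y1) (chx χ2 y2) l) := D_Gr_mul _ _ g1M g2M
  have hcjb : ∀ k, Hl l < k → cj (beta (chx χ1 y1) (chx χ2 y2) l) k = 0 := by
    intro k hk
    have := D_beta_supp (chx χ1 y1) (chx χ2 y2) l hl0 k hk
    unfold cj
    simp [this]
  have hCP : 0 ≤ CG * P ^ (-1 - 1 / L) := (mul_pos hCG hPp).le
  have hsX := D3_sX (y1 - y2)
  have hsR := D3_sR (y1 - y2)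
  have hs0 : ∀ _ : Unit, (0 : ℝ) ≤ 0 := fun _ => le_rfl
  -- from `Q X + small ≤ 2 Q X` to the final form
  have fin : ∀ (Q S Z : ℝ), S ≤ Q * Z → 0 ≤ Z → Q ≤ C1 + C2 + C3 →
      CG * P ^ (-1 - 1 / L) * (Q * Z + S) ≤ 2 * CG * (C1 + C2 + C3) * P ^ (-1 - 1 / L) * Z := by
    intro Q S Z hS hZ hQ
    have e1 : Q * Z + S ≤ 2 * ((C1 + C2 + C3) * Z) := by
      have := mul_le_mul_of_nonneg_right hQ hZ
      linarith only [this, hS]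
    calc CG * P ^ (-1 - 1 / L) * (Q * Z + S) ≤ CG * P ^ (-1 - 1 / L) * (2 * ((C1 + C2 + C3) * Z)) :=
          mul_le_mul_of_nonneg_left e1 hCP
      _ = 2 * CG * (C1 + C2 + C3) * P ^ (-1 - 1 / L) * Z := by ring
  refine ⟨fun Y hY hYL => ?_, fun α hα => ?_⟩
  · have hY1 : 1 ≤ Y := (Real.one_le_rpow hL1 (by norm_num)).trans hY
    have hY0 : 0 < Y := by linarith only [hY1]
    have hlog : 0 ≤ Real.log (L / Y) :=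
      Real.log_nonneg (by rw [le_div_iff₀ hY0]; linarith only [hYL])
    have hZ : 0 ≤ Y / L * (1 + Real.log (L / Y)) :=
      mul_nonneg (div_pos hY0 hL0).le (by linarith only [hlog])
    refine ⟨?_, fun K0 hK0 => ?_⟩
    · have key := (hG _ _ (Hl l) L C1 (R1 * √L) τ1 hL2 hC1.le hQ1 hτ1 hτ1' hcjb
        (D_Gr_mul _ _ gb (D_Gr_mul _ _ g1 g2))
        (a1 (sX (y1 - y2)) (sX (y1 - y2)) hsX hsX L l hLM1 hl1 hl2 _ _ (by rw [D3_FA_ffx, D3_FA_ffx]) rfl)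
        (b1 (sX (y1 - y2)) (sX (y1 - y2)) hsX hsX L l hL8 hl1 hl2 _ _ (by rw [D3_FA_ffx, D3_FA_ffx]) rfl)
        P hP).1 Y hY1 hYL
      have h4 := fin C1 (R1 * √L / (τ1 ^ 2 * L)) (Y / L * (1 + Real.log (L / Y)))
        (B_18_el C1 (R1 * √L) τ1 Y L hC1 hQ1 hτ1 hY1 (hE1.trans hY) hYL) hZ
        (by linarith only [hC2, hC3])
      rw [← mul_assoc (2 * CG * (C1 + C2 + C3) * P ^ (-1 - 1 / L))] at h4
      exact le_trans key h4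
    · have key := (hG _ _ K0 L C2 (R2 * √L) τ2 hL2 hC2.le hQ2 hτ2 hτ2'
        (fun k hk => D3_rhox_supp (chx χ1 y1) (chx χ2 y2) (y1 - y2) L l hL0 hl0 k (lt_of_le_of_lt hK0 hk))
        (D_Gr_mul _ _ g2L' (D_Gr_cj _ gb))
        (a2 (sR (y1 - y2)) (fun _ => 0) hsR hs0 L l hLM2 hl1 hl2 _ _ (by rw [D3_LA_LCs _ L]) (by rw [D3_FA_rhox]))
        (b2 (sR (y1 - y2)) (fun _ => 0) hsR hs0 L l hL8 hl1 hl2 _ _ (by rw [D3_LA_LCs _ L]) (by rw [D3_FA_rhox]))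
        P hP).1 Y hY1 hYL
      have h4 := fin C2 (R2 * √L / (τ2 ^ 2 * L)) (Y / L * (1 + Real.log (L / Y)))
        (B_18_el C2 (R2 * √L) τ2 Y L hC2 hQ2 hτ2 hY1 (hE2.trans hY) hYL) hZ
        (by linarith only [hC1, hC3])
      rw [← mul_assoc (2 * CG * (C1 + C2 + C3) * P ^ (-1 - 1 / L))] at h4
      exact le_trans key h4
  · have key := (hG _ _ (Hl l) L C3 (R3 * √L) τ3 hL2 hC3.le hQ3 hτ3 hτ3' hcjb
      (D_Gr_mul _ _ gb (D_Gr_mul _ _ g1L g2L))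
      (a3 (fun _ => 0) (fun _ => 0) hs0 hs0 L l hLM3 hl1 hl2 _ _
        (by rw [← D3_LA_LCs _ L, ← D3_LA_LCs _ L]) rfl)
      (b3 (fun _ => 0) (fun _ => 0) hs0 hs0 L l hL8 hl1 hl2 _ _
        (by rw [← D3_LA_LCs _ L, ← D3_LA_LCs _ L]) rfl) P hP).2 α hα
    have hS : R3 * √L / (τ3 ^ 2 * L) ≤ C3 * 1 := by
      have hτ : 0 < τ3 ^ 2 := by positivity
      rw [div_le_iff₀ (mul_pos hτ hL0)]
      have := (div_le_iff₀ (mul_pos hτ hC3)).1 hE3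
      calc R3 * √L ≤ L * (τ3 ^ 2 * C3) := this
        _ = C3 * 1 * (τ3 ^ 2 * L) := by ring
    have h4 := fin C3 (R3 * √L / (τ3 ^ 2 * L)) 1 hS zero_le_one (by linarith only [hC1, hC2])
    rw [mul_one, mul_one] at h4
    exact le_trans key h4

end OO
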