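import Pool.Agent.Lib.MP_0f5a55_nt.OM.K000
import Pool.Agent.Lib.MP_0f5a55_nt.OM.K012
import Pool.Agent.Lib.MP_0f5a55_nt.OM.K022

section

open Complex MeasureTheory Set Filter Topology
open scoped ComplexConjugate

namespace OO

private theorem OA04_sub_apply (u v : ArithmeticFunction ℂ) (n : ℕ) : (u - v) n = u n - v n := by
  rw [sub_eq_add_neg, ArithmeticFunction.add_apply, ArithmeticFunction.neg_apply, sub_eq_add_neg]

private theorem OA04_LA (f : ℕ → ℂ) (n : ℕ) (hn : n ≠ 0) : LA f 0 0 n = f n := by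
  show (if n = 0 then 0 else f n * (n : ℂ) ^ (-(0 : ℂ)) * (LZ.wt (0 * Real.log n) : ℂ)) = f n
  rw [if_neg hn, neg_zero, cpow_zero, zero_mul, wt_facts.2.2.2, ofReal_one, mul_one, mul_one]

private theorem OA04_FA (f : ℕ → ℂ) (w : ℝ → ℝ) (n : ℕ) (hn : n ≠ 0) : FA f w n = f n * (w n : ℂ) := by
  show (if n = 0 then 0 else f n * (w n : ℂ)) = f n * (w n : ℂ)
  rw [if_neg hn]

/-- `LA f 0 0` is `f` (n ≥ 1), bounded by 1; `FA f w` is bounded by `B` if `|w| ≤ B` on `[1, oo)`. -/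
theorem LA_FA_facts (f : ℕ → ℂ) (hf : ∀ n, ‖f n‖ ≤ 1) : (∀ n : ℕ, ‖LA f 0 0 n‖ ≤ 1) ∧
    (∀ n : ℕ, n ≠ 0 → LA f 0 0 n = f n) ∧
    (∀ (w : ℝ → ℝ) (B : ℝ), 0 ≤ B → (∀ x : ℝ, 1 ≤ x → |w x| ≤ B) → ∀ n : ℕ, ‖FA f w n‖ ≤ B) ∧
    (∀ L : ℝ, FA f (ff L) = LA f 0 0 - FA f (rho L)) := by
  refine ⟨fun n => ?_, fun n hn => OA04_LA f n hn, fun w B hB hw n => ?_, fun L => ?_⟩
  · by_cases hn : n = 0
    · rw [hn, ArithmeticFunction.map_zero, norm_zero]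
      exact zero_le_one
    · rw [OA04_LA f n hn]
      exact hf n
  · by_cases hn : n = 0
    · rw [hn, ArithmeticFunction.map_zero, norm_zero]
      exact hB
    · rw [OA04_FA f w n hn, norm_mul, norm_real, Real.norm_eq_abs]
      have h1 : (1 : ℝ) ≤ n := by exact_mod_cast Nat.one_le_iff_ne_zero.2 hn
      calc ‖f n‖ * |w n| ≤ 1 * B := mul_le_mul (hf n) (hw n h1) (abs_nonneg _) zero_le_one
        _ = B := one_mul B
  · ext n
    rw [OA04_sub_apply]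
    by_cases hn : n = 0
    · rw [hn, ArithmeticFunction.map_zero, ArithmeticFunction.map_zero,
        ArithmeticFunction.map_zero, sub_zero]
    · rw [OA04_FA f _ n hn, OA04_FA f _ n hn, OA04_LA f n hn, ff]
      push_cast
      ring

/-- The decomposition of the coefficients. PROOF: `FA f (ff L) = LA f 0 0 - FA f (rho L)` (previous theorem) and ring
identities in the commutative ring `ArithmeticFunction ℂ`. -/
theorem lam_split (f1 f2 : ℕ → ℂ) (hf1 : ∀ n, ‖f1 n‖ ≤ 1) (hf2 : ∀ n, ‖f2 n‖ ≤ 1) (L : ℝ) :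
    lamF f1 f2 = FA f1 (ff L) * FA f2 (ff L) + FA f1 (rho L) * LA f2 0 0 + FA f2 (rho L) * LA f1 0 0 -
      FA f1 (rho L) * FA f2 (rho L) := by
  rw [lamF, (LA_FA_facts f1 hf1).2.2.2 L, (LA_FA_facts f2 hf2).2.2.2 L]
  ring

private theorem OA04_term (w : ℂ) (n : ℕ) :
    ‖exp (-(2 * Real.pi * n * w))‖ = Real.exp (-(2 * Real.pi * w.re) * n) := by
  rw [norm_exp]
  congr 1
  have e : (-(2 * (Real.pi : ℂ) * n * w)) = ((-(2 * Real.pi * n) : ℝ) : ℂ) * w := by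
    push_cast
    ring
  rw [e, re_ofReal_mul]
  ring

private theorem OA04_summable (u : ArithmeticFunction ℂ) (B : ℝ) (hu : ∀ n, ‖u n‖ ≤ B * n) (w : ℂ)
    (hw : 0 < w.re) : Summable (fun n : ℕ => u n * exp (-(2 * Real.pi * n * w))) := by
  have h1 := (Real.summable_pow_mul_exp_neg_nat_mul 1
    (show 0 < 2 * Real.pi * w.re by positivity)).mul_left B
  refine Summable.of_norm_bounded h1 (fun n => ?_)
  rw [norm_mul, OA04_term, pow_one, ← mul_assoc]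
  exact mul_le_mul_of_nonneg_right (hu n) (Real.exp_pos _).le

private theorem OA04_re (ε x : ℝ) (h k : ℕ) (hε : 0 < ε) (hε' : ε ≤ 1 / 10) (hx : 0 < x) (hh : 0 < h)
    (hk : 0 < k) : 0 < (zz ε * x * h / k).re := by
  have e : zz ε * x * h / k = ((x * h / k : ℝ) : ℂ) * zz ε := by
    push_cast
    ring
  have hz : (zz ε).re = Real.sin ε := by
    rw [zz, exp_ofReal_mul_I_re, Real.cos_pi_div_two_sub]
  rw [e, re_ofReal_mul, hz]
  have h1 : 0 < Real.sin ε := Real.sin_pos_of_pos_of_lt_pi hε (by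
    have := Real.pi_gt_three
    linarith only [hε, hε', this])
  have h2 : (0 : ℝ) < h := Nat.cast_pos.2 hh
  have h3 : (0 : ℝ) < k := Nat.cast_pos.2 hk
  positivity

/-- Linearity of `gg` in the coefficients. PROOF: for `x > 0`, `h, k ≥ 1`: `w = zz ε * x * h/k` has real part
`x sin ε h/k > 0` (`(zz ε).re = cos(π/2 - ε) = sin ε > 0`), so every series `FS lam_i w` is absolutely summable
(`‖lam_i n exp(-2πnw)‖ ≤ B n e^(-2π n Re w)`, `Real.summable_pow_mul_exp_neg_nat_mul`); `tsum_add`, `tsum_sub`,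
`Finset.sum_add_distrib`. -/
theorem gg_split (b : ℕ → ℂ) (H : ℕ) (u1 u2 u3 u4 : ArithmeticFunction ℂ) (B ε x : ℝ) (h1 : ∀ n, ‖u1 n‖ ≤ B * n)
    (h2 : ∀ n, ‖u2 n‖ ≤ B * n) (h3 : ∀ n, ‖u3 n‖ ≤ B * n) (h4 : ∀ n, ‖u4 n‖ ≤ B * n) (hε : 0 < ε)
    (hε' : ε ≤ 1 / 10) (hx : 0 < x) :
    gg b H (u1 + u2 + u3 - u4 : ArithmeticFunction ℂ) ε x =
      gg b H u1 ε x + gg b H u2 ε x + gg b H u3 ε x - gg b H u4 ε x := by
  simp only [gg]
  rw [← Finset.sum_add_distrib, ← Finset.sum_add_distrib, ← Finset.sum_sub_distrib]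
  refine Finset.sum_congr rfl (fun h hh => ?_)
  rw [← Finset.sum_add_distrib, ← Finset.sum_add_distrib, ← Finset.sum_sub_distrib]
  refine Finset.sum_congr rfl (fun k hk => ?_)
  have hw := OA04_re ε x h k hε hε' hx (by have := (Finset.mem_Icc.1 hh).1; omega)
    (by have := (Finset.mem_Icc.1 hk).1; omega)
  have s1 := OA04_summable u1 B h1 _ hw
  have s2 := OA04_summable u2 B h2 _ hw
  have s3 := OA04_summable u3 B h3 _ hw
  have s4 := OA04_summable u4 B h4 _ hw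
  have hFS : FS (u1 + u2 + u3 - u4 : ArithmeticFunction ℂ) (zz ε * x * h / k) =
      FS u1 (zz ε * x * h / k) + FS u2 (zz ε * x * h / k) + FS u3 (zz ε * x * h / k) -
        FS u4 (zz ε * x * h / k) := by
    rw [FS, FS, FS, FS, FS, ← s1.tsum_add s2, ← (s1.add s2).tsum_add s3,
      ← ((s1.add s2).add s3).tsum_sub s4]
    refine tsum_congr (fun n => ?_)
    rw [OA04_sub_apply, ArithmeticFunction.add_apply, ArithmeticFunction.add_apply]
    ring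
  rw [hFS]
  ring

/-- Pointwise bound for finitely supported coefficients: if `lam n = 0` for `n > N`, `|lam n| ≤ B n`, `|b h| ≤ h`, then
`|g| ≤ B N^2 H^3`... PROOF: `|FS lam w| ≤ ∑_{n ≤ N} B n ≤ B N^2` (`|exp| ≤ 1` since `Re w > 0`; `tsum_eq_sum`),
`∑_{h,k ≤ H} |b h||b k|/k ≤ H^2 * H`. -/
theorem gg_fin_bound (b lam : ArithmeticFunction ℂ) (H N : ℕ) (B ε x : ℝ) (hB : 0 ≤ B) (hb : ∀ h, ‖b h‖ ≤ h)
    (hlam : ∀ n, ‖lam n‖ ≤ B * n) (hN : ∀ n, N < n → lam n = 0) (hε : 0 < ε) (hε' : ε ≤ 1 / 10) (hx : 0 < x) :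
    ‖gg b H lam ε x‖ ≤ B * (N : ℝ) ^ 2 * (H : ℝ) ^ 3 := by
  have hFS : ∀ w : ℂ, 0 < w.re → ‖FS lam w‖ ≤ B * (N : ℝ) ^ 2 := by
    intro w hw
    rw [FS, tsum_eq_sum (s := Finset.range (N + 1)) (fun n hn => by
      rw [Finset.mem_range] at hn
      rw [hN n (by omega), zero_mul])]
    rw [Finset.sum_range_succ', ArithmeticFunction.map_zero, zero_mul, add_zero]
    refine (norm_sum_le _ _).trans ?_
    have h1 : ∀ n ∈ Finset.range N, ‖lam (n + 1) * exp (-(2 * Real.pi * ((n + 1 : ℕ) : ℂ) * w))‖ ≤ B * N := by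
      intro n hn
      rw [Finset.mem_range] at hn
      rw [norm_mul, OA04_term]
      have h2 : Real.exp (-(2 * Real.pi * w.re) * ((n + 1 : ℕ) : ℝ)) ≤ 1 := by
        rw [Real.exp_le_one_iff]
        have h3 : 0 ≤ (2 * Real.pi * w.re) * ((n + 1 : ℕ) : ℝ) := by positivity
        linarith only [h3]
      have h4 : ((n + 1 : ℕ) : ℝ) ≤ N := by exact_mod_cast hn
      calc ‖lam (n + 1)‖ * Real.exp (-(2 * Real.pi * w.re) * ((n + 1 : ℕ) : ℝ))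
          ≤ (B * ((n + 1 : ℕ) : ℝ)) * 1 :=
            mul_le_mul (hlam (n + 1)) h2 (Real.exp_pos _).le (by positivity)
        _ ≤ B * N := by
            rw [mul_one]
            exact mul_le_mul_of_nonneg_left h4 hB
    refine (Finset.sum_le_sum h1).trans ?_
    rw [Finset.sum_const, Finset.card_range, nsmul_eq_mul]
    apply le_of_eq
    ring
  have hD : 0 ≤ B * (N : ℝ) ^ 2 := by positivity
  rw [gg]
  refine (norm_sum_le _ _).trans ?_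
  have h5 : ∀ h ∈ Finset.Icc 1 H, ‖∑ k ∈ Finset.Icc 1 H, b h * conj (b k) / k *
      FS lam (zz ε * x * h / k)‖ ≤ H * (H * (B * (N : ℝ) ^ 2)) := by
    intro h hh
    refine (norm_sum_le _ _).trans ?_
    have h6 : ∀ k ∈ Finset.Icc 1 H, ‖b h * conj (b k) / k * FS lam (zz ε * x * h / k)‖ ≤
        H * (B * (N : ℝ) ^ 2) := by
      intro k hk
      have hh1 := (Finset.mem_Icc.1 hh).1
      have hk1 := (Finset.mem_Icc.1 hk).1
      have hw := OA04_re ε x h k hε hε' hx (by omega) (by omega)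
      rw [norm_mul]
      refine mul_le_mul ?_ (hFS _ hw) (norm_nonneg _) (Nat.cast_nonneg H)
      rw [norm_div, norm_mul, norm_conj, norm_natCast]
      have hk0 : (0 : ℝ) < k := Nat.cast_pos.2 (by omega)
      rw [div_le_iff₀ hk0]
      refine mul_le_mul ((hb h).trans ?_) (hb k) (norm_nonneg _) (Nat.cast_nonneg H)
      exact_mod_cast (Finset.mem_Icc.1 hh).2
    refine (Finset.sum_le_sum h6).trans ?_
    rw [Finset.sum_const, Nat.card_Icc, nsmul_eq_mul, Nat.add_sub_cancel]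
  refine (Finset.sum_le_sum h5).trans ?_
  rw [Finset.sum_const, Nat.card_Icc, nsmul_eq_mul, Nat.add_sub_cancel]
  apply le_of_eq
  ring

/-- Integral of the weight: at most `1/ω`. -/
theorem Wt_int (α ω : ℝ) (hα : 0 ≤ α) (hω : 0 < ω) : IntegrableOn (fun x => Wt α ω x) (Ioi 0) ∧
    (∫ x in Ioi (0 : ℝ), Wt α ω x) ≤ 1 / ω := by
  have hi : IntegrableOn (fun x : ℝ => Real.exp (-ω * x)) (Ioi 0) :=
    integrableOn_exp_mul_Ioi (by linarith only [hω]) 0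
  have hle : ∀ x ∈ Ioi (0 : ℝ), Wt α ω x ≤ Real.exp (-ω * x) := by
    intro x hx
    rw [Wt, Real.exp_le_exp]
    have h1 : 0 ≤ α / x := div_nonneg hα (le_of_lt hx)
    linarith only [h1]
  have hc : ContinuousOn (fun x => Wt α ω x) (Ioi 0) := by
    intro x hx
    have hx0 : x ≠ 0 := ne_of_gt hx
    have h1 : ContinuousAt (fun x : ℝ => Wt α ω x) x := by
      unfold Wt
      exact ((continuousAt_const.div continuousAt_id hx0).neg.sub
        (continuousAt_const.mul continuousAt_id)).rexp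
    exact h1.continuousWithinAt
  have hI : IntegrableOn (fun x => Wt α ω x) (Ioi 0) := by
    refine Integrable.mono' hi (hc.aestronglyMeasurable measurableSet_Ioi) ?_
    refine (ae_restrict_iff' measurableSet_Ioi).2 (Eventually.of_forall (fun x hx => ?_))
    rw [Real.norm_eq_abs, Wt, abs_of_pos (Real.exp_pos _)]
    exact hle x hx
  refine ⟨hI, ?_⟩
  refine (setIntegral_mono_on hI hi measurableSet_Ioi hle).trans ?_
  rw [integral_exp_mul_Ioi (by linarith only [hω]) 0]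
  apply le_of_eq
  rw [mul_zero, Real.exp_zero, neg_div_neg_eq]

end OO

end

section

/-!
# Row OP15b: numerics
-/

open Complex MeasureTheory Set Filter Topology

namespace OO

theorem P15b_aux_ev (a c : ℝ) (ha : 0 < a) : ∃ T0 : ℝ, 2 ≤ T0 ∧ ∀ T : ℝ, T0 ≤ T → c ≤ T ^ a := by
  have h := (tendsto_rpow_atTop ha).eventually_ge_atTop c
  obtain ⟨T1, hT1⟩ := Filter.eventually_atTop.1 h
  exact ⟨max 2 T1, le_max_left _ _, fun T hT => hT1 T (le_trans (le_max_right _ _) hT)⟩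

theorem P15b_aux_exp (k : ℕ) (y : ℝ) (hy : 0 ≤ y) : y ^ k * Real.exp (-y) ≤ k.factorial := by
  have h := Real.pow_div_factorial_le_exp y hy k
  have hf : (0 : ℝ) < k.factorial := by exact_mod_cast k.factorial_pos
  have h1 : y ^ k ≤ k.factorial * Real.exp y := by
    rw [div_le_iff₀ hf] at h
    linarith only [h]
  calc y ^ k * Real.exp (-y) ≤ (k.factorial * Real.exp y) * Real.exp (-y) :=
        mul_le_mul_of_nonneg_right h1 (Real.exp_pos _).le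
    _ = k.factorial := by rw [mul_assoc, ← Real.exp_add]; simp

theorem P15b_aux_C (a : ℝ) (ha : 0 < a) (n : ℝ) : ∃ C : ℝ, 0 < C ∧ ∀ T : ℝ, 1 ≤ T → T ^ n * Real.exp (-T ^ a) ≤ C := by
  obtain ⟨k, hk⟩ := exists_nat_ge (n / a)
  refine ⟨k.factorial, by exact_mod_cast k.factorial_pos, fun T hT => ?_⟩
  have hT0 : 0 < T := by linarith only [hT]
  have h := P15b_aux_exp k (T ^ a) (by positivity)
  have h2 : T ^ n ≤ (T ^ a) ^ k := by
    rw [← Real.rpow_natCast, ← Real.rpow_mul hT0.le]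
    apply Real.rpow_le_rpow_of_exponent_le hT
    rw [div_le_iff₀ ha] at hk
    linarith only [hk]
  exact (mul_le_mul_of_nonneg_right h2 (Real.exp_pos _).le).trans h

theorem P15_b_pw (T : ℝ) (hT : 0 ≤ T) (n : ℕ) (a : ℝ) (h : 1 / 1000 * (n : ℝ) = a) :
    T ^ a = (T ^ (1 / 1000 : ℝ)) ^ n := by
  rw [← h, Real.rpow_mul_natCast hT]

theorem P15_b_a1 (R H U S : ℝ) (hR : 1 ≤ R) (hR0 : 0 ≤ R) (hH0 : 0 ≤ H) (hH : H ≤ R) (hU0 : 0 ≤ U) (hU : U ≤ R ^ 2)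
    (hS0 : 0 ≤ S) (hS : S ≤ 3 * R ^ 3) : H ^ 4 * U * S ≤ 3 * R ^ 10 ∧ H ^ 5 * U ≤ R ^ 10 := by
  have h1 : H ^ 4 * U ≤ R ^ 4 * R ^ 2 := mul_le_mul (pow_le_pow_left₀ hH0 hH 4) hU hU0 (pow_nonneg hR0 4)
  have h2 : H ^ 5 * U ≤ R ^ 5 * R ^ 2 := mul_le_mul (pow_le_pow_left₀ hH0 hH 5) hU hU0 (pow_nonneg hR0 5)
  rw [← pow_add] at h1 h2
  constructor
  · refine (mul_le_mul h1 hS hS0 (pow_nonneg hR0 _)).trans ?_
    rw [mul_left_comm, ← pow_add]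
    exact mul_le_mul_of_nonneg_left (pow_le_pow_right₀ hR (by decide)) zero_le_three
  · exact h2.trans (pow_le_pow_right₀ hR (by decide))

theorem P15_b_p1 (D t x y : ℝ) (hD : 1 ≤ D) (hD0 : 0 ≤ D) (ht : t ≤ D) (hx0 : 0 ≤ x) (hxy : x ≤ y) (hy : y ≤ 3 * D) :
    t * ((x / D⁻¹) ^ 2 + y ^ 2) ≤ 18 * D ^ 5 := by
  rw [div_inv_eq_mul]
  have h1 := pow_le_pow_left₀ (mul_nonneg hx0 hD0) (mul_le_mul_of_nonneg_right (hxy.trans hy) hD0) 2
  have h2 := pow_le_pow_left₀ (hx0.trans hxy) hy 2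
  have h3 : D ^ 3 ≤ D ^ 5 := pow_le_pow_right₀ hD (by decide)
  have h4 := mul_le_mul ht (add_le_add h1 h2) (add_nonneg (sq_nonneg _) (sq_nonneg _)) hD0
  linarith only [h3, h4]

theorem P15_b_p23 (D T C v x y z1 z2 e : ℝ) (hD : 1 ≤ D) (hD0 : 0 ≤ D) (hT : 1 ≤ T) (hT0 : 0 ≤ T) (hDT : D ^ 2 ≤ T)
    (hv0 : 0 ≤ v) (hv : v ≤ D) (hz10 : 0 ≤ z1) (hz1 : z1 ≤ D * e) (he : 0 ≤ e) (hC : T ^ 4 * e ≤ C)
    (hx0 : 0 ≤ x) (hxy : x ≤ y) (hy : y ≤ 3 * D) (hz20 : 0 ≤ z2) (hz2 : z2 ≤ e) :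
    (v * T) ^ 2 * z1 ≤ C ∧ T * (x ^ 2 * z2) ≤ 9 * C := by
  have h1 := pow_le_pow_left₀ (mul_nonneg hv0 hT0) (mul_le_mul_of_nonneg_right hv hT0) 2
  have h2 : x ^ 2 ≤ (3 * D) ^ 2 := pow_le_pow_left₀ hx0 (hxy.trans hy) 2
  have h3 : D ≤ T := (le_self_pow₀ hD two_ne_zero).trans hDT
  have h4 : T ^ 2 ≤ T ^ 4 := pow_le_pow_right₀ hT (by decide)
  constructor
  · refine (mul_le_mul h1 hz1 hz10 (sq_nonneg _)).trans (le_trans ?_ hC)
    calc (D * T) ^ 2 * (D * e) = D ^ 2 * D * (T ^ 2 * e) := by ring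
      _ ≤ T * T * (T ^ 2 * e) :=
        mul_le_mul_of_nonneg_right (mul_le_mul hDT h3 hD0 hT0) (mul_nonneg (sq_nonneg _) he)
      _ = T ^ 4 * e := by ring
  · refine (mul_le_mul_of_nonneg_left (mul_le_mul h2 hz2 hz20 (sq_nonneg _)) hT0).trans ?_
    have h5 := mul_le_mul_of_nonneg_right (mul_le_mul_of_nonneg_left hDT hT0) he
    have h6 := mul_le_mul_of_nonneg_right h4 he
    linarith only [h5, h6, hC]

theorem P15_b_w (T ω d : ℝ) (hT : 0 < T) (hω : T ^ (-(6 * d)) ≤ ω) :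
    1 / ω ≤ T ^ (6 * d) ∧ T ^ d ≤ ω * T ^ (7 * d) := by
  have h0 := Real.rpow_pos_of_pos hT (-(6 * d))
  constructor
  · refine (one_div_le_one_div_of_le h0 hω).trans (le_of_eq ?_)
    rw [Real.rpow_neg hT.le, one_div, inv_inv]
  · refine le_trans (le_of_eq ?_) (mul_le_mul_of_nonneg_right hω (Real.rpow_nonneg hT.le _))
    rw [← Real.rpow_add hT]
    congr 1
    ring

theorem P15_b_v (T ω d q b : ℝ) (hT : 0 < T) (hq : 0 < q) (hω : T ^ (-(6 * d)) ≤ ω) (hqT : q ≤ T ^ (b - 7 * d)) :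
    T ^ d ≤ ω * T ^ b / q := by
  rw [le_div_iff₀ hq]
  refine (mul_le_mul_of_nonneg_left hqT (Real.rpow_nonneg hT.le _)).trans
    (le_trans (le_of_eq ?_) (mul_le_mul_of_nonneg_right hω (Real.rpow_nonneg hT.le _)))
  rw [← Real.rpow_add hT, ← Real.rpow_add hT]
  congr 1
  ring

theorem P15_b_z1 (ω e X w : ℝ) (hω : 0 < ω) (hX : e ≤ X) (hw : 1 / ω ≤ w) :
    0 ≤ Real.exp (-X) / ω ∧ Real.exp (-X) / ω ≤ w * Real.exp (-e) := by
  refine ⟨div_nonneg (Real.exp_pos _).le hω.le, ?_⟩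
  rw [div_eq_mul_one_div, mul_comm]
  exact mul_le_mul hw (Real.exp_le_exp.2 (neg_le_neg hX)) (Real.exp_pos _).le
    ((one_div_pos.2 hω).le.trans hw)

theorem P15_b_z2 (s e X : ℝ) (hs : 1 ≤ s) (hX : e ≤ X) :
    0 ≤ Real.exp (-X) / s ∧ Real.exp (-X) / s ≤ Real.exp (-e) :=
  ⟨div_nonneg (Real.exp_pos _).le (zero_le_one.trans hs),
    (div_le_self (Real.exp_pos _).le hs).trans (Real.exp_le_exp.2 (neg_le_neg hX))⟩

theorem P15_b_M (M : ℕ) (P H : ℝ) (hP : 1 ≤ P) (hM : M = ⌈P⌉₊) (hH : H ≤ P) : (M : ℝ) + H ≤ 3 * P := by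
  have h1 := Nat.ceil_lt_add_one (zero_le_one.trans hP)
  rw [← hM] at h1
  linarith only [h1, hP, hH]

theorem P15_b_end (D T A C p q r : ℝ) (hD : 1 ≤ D) (hA : 0 ≤ A) (hC : 0 ≤ C) (hp : p ≤ 18 * D) (hq : q ≤ C)
    (hr : r ≤ 9 * C) (S : ℝ) (hS : A * (18 + 10 * C) ≤ S) (hRS : S * D = T) : A * (p + q + r) ≤ T := by
  rw [← hRS]
  refine le_trans ?_ (mul_le_mul_of_nonneg_right hS (zero_le_one.trans hD))
  rw [mul_assoc]
  refine mul_le_mul_of_nonneg_left ?_ hA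
  have h := mul_le_mul_of_nonneg_left hD hC
  linarith only [h, hp, hq, hr]

theorem P15_b_num : 0 < dl ∧ 0 < 1 / 2000 - 7 * dl ∧ 2 * dl ≤ 1 / 1000 ∧ 7 * dl ≤ 1 / 100 ∧
    6 * dl ≤ 1 / 100 := by
  have h : dl = 1 / 10 ^ 10 := rfl
  rw [h]
  norm_num

/-- OP15b. PROOF. `H^4 U M ≤ T^(8dl + 1/500)(T^(3/1000) + 1) ≤ 2 T^(1/100)`, so the first part is `≤ A T^(7dl) (4 T^(1/50) T^(1/50) + ..) ≤ T^(1/2)`. `ω X1 ≥ T^dl`, `(H^5 U T)² ≤ T^3`, `1/ω ≤ T`: second part `≤ A T^4 exp(-T^dl) ≤ 1` for large `T`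
(`exp(-y) ≤ C_k y^(-k)`: `Real.tendsto_exp_div_pow_atTop` or `isLittleO_exp_neg_mul_rpow_atTop`; or `T^dl ≥ 5 log T` for large `T`: `isLittleO_log_rpow_atTop`). `ω X0/q ≥ T^(1/2000 - 6dl)/q ≥ T^dl`: third part likewise. -/
theorem P15_b (q : ℕ) (hq : 1 ≤ q) (A : ℝ) (hA : 0 < A) : ∃ T0 : ℝ, 2 ≤ T0 ∧ ∀ (T ω : ℝ) (H U M : ℕ), T0 ≤ T → 1 ≤ H → 1 ≤ U → (H : ℝ) ≤ T ^ (2 * dl) →
    (U : ℝ) ≤ T ^ (1 / 500 : ℝ) → M = ⌈T ^ (3 / 1000 : ℝ)⌉₊ → T ^ (-(6 * dl)) ≤ ω →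
    A * (T ^ (7 * dl) * (((H : ℝ) ^ 4 * U * M / T ^ (-(1 / 100) : ℝ)) ^ 2 + ((H : ℝ) ^ 4 * U * (M + H)) ^ 2) +
      ((H : ℝ) ^ 5 * U * T) ^ 2 * (Real.exp (-(ω * T ^ (7 * dl))) / ω) +
      T * (((H : ℝ) ^ 4 * U * M) ^ 2 * (Real.exp (-(ω * T ^ (1 / 2000 : ℝ) / q)) / T ^ (1 / 2000 : ℝ)))) ≤ T ^ (3 / 4 : ℝ) := by
  obtain ⟨hdl0, hn1, hn2, hn3, hn4⟩ := P15_b_num
  obtain ⟨C, hC0, hC⟩ := P15b_aux_C dl hdl0 4
  obtain ⟨Ta, hTa2, hTa⟩ := P15b_aux_ev (1 / 2000 - 7 * dl) (q : ℝ) hn1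
  obtain ⟨Tb, hTb2, hTb⟩ := P15b_aux_ev (7 / 10) (A * (18 + 10 * C)) (by norm_num)
  refine ⟨max Ta Tb, le_trans hTa2 (le_max_left _ _), ?_⟩
  intro T ω H U M hT hH hU hHT hUT hM hω
  have hTa' := hTa T (le_trans (le_max_left _ _) hT)
  have hTb' := hTb T (le_trans (le_max_right _ _) hT)
  have hT1 : 1 ≤ T := le_trans one_le_two (le_trans hTa2 (le_trans (le_max_left _ _) hT))
  have hT0 : 0 < T := lt_of_lt_of_le one_pos hT1
  have hC' := hC T hT1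
  clear hT hTa hTb hC hTa2 hTb2
  have hω0 : 0 < ω := lt_of_lt_of_le (Real.rpow_pos_of_pos hT0 _) hω
  have hH0 : (0 : ℝ) ≤ H := Nat.cast_nonneg H
  have hU0 : (0 : ℝ) ≤ U := Nat.cast_nonneg U
  have hM0 : (0 : ℝ) ≤ M := Nat.cast_nonneg M
  have hR : 1 ≤ T ^ (1 / 1000 : ℝ) := Real.one_le_rpow hT1 (by norm_num)
  have hpw := P15_b_pw T hT0.le
  have hmono := fun (a b : ℝ) (h : a ≤ b) => Real.rpow_le_rpow_of_exponent_le hT1 h
  have e10 := hpw 10 (1 / 100) (by norm_num)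
  have hHR := hHT.trans (hmono _ _ hn2)
  obtain ⟨hw1, hw2⟩ := P15_b_w T ω dl hT0 hω
  obtain ⟨z10, z1⟩ := P15_b_z1 ω (T ^ dl) _ _ hω0 hw2 (hw1.trans (hmono _ _ hn4))
  obtain ⟨z20, z2⟩ := P15_b_z2 (T ^ (1 / 2000 : ℝ)) (T ^ dl) _ (Real.one_le_rpow hT1 (by norm_num))
    (P15_b_v T ω dl q (1 / 2000) hT0 (Nat.cast_pos.2 hq) hω hTa')
  have ht := hmono _ _ hn3
  have hS := P15_b_M M (T ^ (3 / 1000 : ℝ)) H (Real.one_le_rpow hT1 (by norm_num)) hM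
    (hHR.trans (hmono _ _ (by norm_num)))
  have h34 : T ^ (7 / 10 : ℝ) * (T ^ (1 / 100 : ℝ)) ^ 5 = T ^ (3 / 4 : ℝ) := by
    rw [← Real.rpow_mul_natCast hT0.le, ← Real.rpow_add hT0]
    norm_num
  have hDT : (T ^ (1 / 100 : ℝ)) ^ 2 ≤ T := by
    rw [← Real.rpow_mul_natCast hT0.le]
    have := hmono (1 / 100 * ((2 : ℕ) : ℝ)) 1 (by norm_num)
    rwa [Real.rpow_one] at this
  rw [hpw 3 (3 / 1000) (by norm_num)] at hS
  rw [hpw 2 (1 / 500) (by norm_num)] at hUT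
  rw [Real.rpow_ofNat] at hC'
  rw [Real.rpow_neg hT0.le (1 / 100)]
  obtain ⟨hy, hv⟩ := P15_b_a1 _ H U (M + H) hR (zero_le_one.trans hR) hH0 hHR hU0 hUT (add_nonneg hM0 hH0) hS
  rw [← e10] at hy hv
  have hD : 1 ≤ T ^ (1 / 100 : ℝ) := Real.one_le_rpow hT1 (by norm_num)
  have hD0 := zero_le_one.trans hD
  have hHU0 := mul_nonneg (pow_nonneg hH0 4) hU0
  have hx0 := mul_nonneg hHU0 hM0
  have hxy := mul_le_mul_of_nonneg_left (le_add_of_nonneg_right hH0 : (M : ℝ) ≤ M + H) hHU0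
  obtain ⟨q2, q3⟩ := P15_b_p23 _ T C _ _ _ _ _ (Real.exp (-T ^ dl)) hD hD0 hT1 hT0.le hDT
    (mul_nonneg (pow_nonneg hH0 5) hU0) hv z10 z1 (Real.exp_pos _).le hC' hx0 hxy hy
    z20 z2
  exact P15_b_end _ _ A C _ _ _ (one_le_pow₀ hD) hA.le hC0.le (P15_b_p1 _ _ _ _ hD hD0 ht hx0 hxy hy) q2 q3 _ hTb' h34

end OO

end

section

open Complex MeasureTheory Set Filter Topology
open scoped ComplexConjugate

namespace OO

private lemma C08_supp (f1 f2 : ℕ → ℂ) (w : ℝ → ℝ) (E : ℝ) (hE : 0 ≤ E) (hw : ∀ x : ℝ, E ≤ x → w x = 0) (n : ℕ)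
    (hn : E * E < n) : (FA f1 w * FA f2 w) n = 0 := by
  rw [ArithmeticFunction.mul_apply]
  apply Finset.sum_eq_zero
  intro x hx
  have h1 : x.1 * x.2 = n := (Nat.mem_divisorsAntidiagonal.1 hx).1
  have h2 : E ≤ (x.1 : ℝ) ∨ E ≤ (x.2 : ℝ) := by
    by_contra hcon
    push Not at hcon
    have h3 : (x.1 : ℝ) * (x.2 : ℝ) ≤ E * E :=
      mul_le_mul hcon.1.le hcon.2.le (Nat.cast_nonneg _) hE
    have h4 : (x.1 : ℝ) * (x.2 : ℝ) = n := by exact_mod_cast h1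
    linarith only [hn, h3, h4]
  rcases h2 with h2 | h2
  · have h3 : FA f1 w x.1 = 0 := by
      show (if x.1 = 0 then (0 : ℂ) else f1 x.1 * (w (x.1 : ℝ) : ℂ)) = 0
      rw [hw _ h2]
      simp
    rw [h3, zero_mul]
  · have h3 : FA f2 w x.2 = 0 := by
      show (if x.2 = 0 then (0 : ℂ) else f2 x.2 * (w (x.2 : ℝ) : ℂ)) = 0
      rw [hw _ h2]
      simp
    rw [h3, mul_zero]

/-- Energy of the part with two small variables (proof as `EN_12`). -/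
theorem EN_12x {q1 q2 : ℕ} [NeZero q1] [NeZero q2] (χ1 : DirichletCharacter ℂ q1) (χ2 : DirichletCharacter ℂ q2)
    (y1 y2 D : ℝ) :
    ∃ T0 : ℝ, 2 ≤ T0 ∧ ∀ T l Y : ℝ,
      T0 ≤ T → dl / 2 * Real.log T ≤ l → l ≤ dl * Real.log T → 1 ≤ Y → Y ≤ 6 * dl * Real.log T →
      (∫ x in Ioi (0 : ℝ), Wt 1 (Real.exp (-Y)) x * ‖gg (beta (chx χ1 y1) (chx χ2 y2) l) (Hl l)
        (FA (chx χ1 y1) (rhox D (Real.log T)) * FA (chx χ2 y2) (rhox D (Real.log T)) : ArithmeticFunction ℂ) (1 / T) x‖ ^ 2) ≤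
        T ^ (1 / 2 : ℝ) := by
  obtain ⟨B, hB, hff⟩ := ffx_facts
  refine ⟨max 10 ((1 + B) ^ 16), le_trans (by norm_num) (le_max_left _ _), ?_⟩
  intro T l Y hT hl1 hl2 hY1 hY2
  have hT10 : (10 : ℝ) ≤ T := le_trans (le_max_left _ _) hT
  have hTB : (1 + B) ^ 16 ≤ T := le_trans (le_max_right _ _) hT
  have hT0 : (0 : ℝ) < T := by linarith only [hT10]
  obtain ⟨L, hL⟩ : ∃ L : ℝ, L = Real.log T := ⟨_, rfl⟩
  rw [← hL] at hl1 hl2 hY2 ⊢
  have hTL : T = Real.exp L := by rw [hL, Real.exp_log hT0]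
  have hL1 : 1 ≤ L := by
    rw [hL, Real.le_log_iff_exp_le hT0]
    have := Real.exp_one_lt_d9
    linarith only [hT10, this]
  have hdl : 0 < dl := by unfold dl; norm_num
  have hdl' : dl = 1 / 10 ^ 10 := rfl
  have hl0 : 0 < l := by
    have : 0 < dl / 2 * L := by positivity
    linarith only [hY1, hY2, hl1, hdl, hdl']
  obtain ⟨-, hff2, hff3, -, -, -⟩ := hff D L hL1
  have hrho1 : ∀ x : ℝ, 1 ≤ x → |rhox D L x| ≤ 1 + B := by
    intro x hx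
    have h1 : rhox D L x = 1 - ffx D L x := by unfold ffx; ring
    rw [h1]
    calc |1 - ffx D L x| ≤ |(1 : ℝ)| + |ffx D L x| := abs_sub _ _
      _ ≤ 1 + B := by rw [abs_one]; linarith only [hff3 x hx, hff3, hx]
  have hrho2 : ∀ x : ℝ, Real.exp (L / 500) ≤ x → rhox D L x = 0 := by
    intro x hx
    have h1 := hff2 x hx
    unfold ffx at h1
    linarith only [h1]
  have hu1 : ∀ n : ℕ, ‖FA (chx χ1 y1) (rhox D L) n‖ ≤ 1 + B :=
    (LA_FA_facts (chx χ1 y1) (chx_le χ1 y1)).2.2.1 (rhox D L) (1 + B) (by linarith only [hB, hdl, hdl']) hrho1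
  have hu2 : ∀ n : ℕ, ‖FA (chx χ2 y2) (rhox D L) n‖ ≤ 1 + B :=
    (LA_FA_facts (chx χ2 y2) (chx_le χ2 y2)).2.2.1 (rhox D L) (1 + B) (by linarith only [hB, hdl, hdl']) hrho1
  have hconv := (conv_bound (FA (chx χ1 y1) (rhox D L)) (FA (chx χ2 y2) (rhox D L)) (1 + B) (1 + B) (by linarith only [hB, hdl, hdl']) (by linarith only [hB, hdl, hdl'])
    hu1 hu2).2
  have hsupp : ∀ n : ℕ, ⌊Real.exp (L / 250)⌋₊ < n → (FA (chx χ1 y1) (rhox D L) * FA (chx χ2 y2) (rhox D L)) n = 0 := by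
    intro n hn
    apply C08_supp (chx χ1 y1) (chx χ2 y2) (rhox D L) (Real.exp (L / 500)) (Real.exp_pos _).le hrho2 n
    rw [← Real.exp_add]
    have h1 : L / 500 + L / 500 = L / 250 := by ring
    rw [h1]
    exact (Nat.floor_lt (Real.exp_pos _).le).1 hn
  have hbeta := (beta_facts (chx χ1 y1) (chx χ2 y2) (chx_le χ1 y1) (chx_le χ2 y2) (chx_one χ1 y1) (chx_one χ2 y2) l hl0).2.1
  obtain ⟨M, hM⟩ : ∃ M : ℝ, M = (1 + B) * (1 + B) * ((⌊Real.exp (L / 250)⌋₊ : ℕ) : ℝ) ^ 2 * ((Hl l : ℕ) : ℝ) ^ 3 := ⟨_, rfl⟩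
  have hbound : ∀ x : ℝ, 0 < x → ‖gg (beta (chx χ1 y1) (chx χ2 y2) l) (Hl l)
        (FA (chx χ1 y1) (rhox D L) * FA (chx χ2 y2) (rhox D L) : ArithmeticFunction ℂ) (1 / T) x‖ ≤ M := by
    intro x hx
    rw [hM]
    exact gg_fin_bound _ _ (Hl l) _ _ (1 / T) x (by positivity) hbeta hconv hsupp (by positivity)
      (one_div_le_one_div_of_le (by norm_num) hT10) hx
  have hM0 : 0 ≤ M := by rw [hM]; positivity
  have hMle : M ≤ (1 + B) ^ 2 * Real.exp (L / 125 + 6 * dl * L) := by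
    rw [hM]
    have h1 : ((⌊Real.exp (L / 250)⌋₊ : ℕ) : ℝ) ≤ Real.exp (L / 250) := Nat.floor_le (Real.exp_pos _).le
    have h2 : ((Hl l : ℕ) : ℝ) ≤ Real.exp (2 * (dl * L)) := by
      have h3 : ((Hl l : ℕ) : ℝ) ≤ Real.exp (2 * l) := Nat.floor_le (Real.exp_pos _).le
      exact le_trans h3 (Real.exp_le_exp.2 (by linarith only [hl2]))
    have h4 : ((⌊Real.exp (L / 250)⌋₊ : ℕ) : ℝ) ^ 2 ≤ Real.exp (L / 250) ^ 2 :=
      pow_le_pow_left₀ (Nat.cast_nonneg _) h1 2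
    have h5 : ((Hl l : ℕ) : ℝ) ^ 3 ≤ Real.exp (2 * (dl * L)) ^ 3 :=
      pow_le_pow_left₀ (Nat.cast_nonneg _) h2 3
    calc (1 + B) * (1 + B) * ((⌊Real.exp (L / 250)⌋₊ : ℕ) : ℝ) ^ 2 * ((Hl l : ℕ) : ℝ) ^ 3
        ≤ (1 + B) * (1 + B) * Real.exp (L / 250) ^ 2 * Real.exp (2 * (dl * L)) ^ 3 := by
          apply mul_le_mul _ h5 (by positivity) (by positivity)
          exact mul_le_mul_of_nonneg_left h4 (by positivity)
      _ = (1 + B) ^ 2 * (Real.exp (L / 250) ^ 2 * Real.exp (2 * (dl * L)) ^ 3) := by ring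
      _ = (1 + B) ^ 2 * Real.exp (L / 125 + 6 * dl * L) := by
          rw [← Real.exp_nat_mul, ← Real.exp_nat_mul, ← Real.exp_add]
          congr 2
          push_cast
          ring
  have hMsq : M ^ 2 ≤ (1 + B) ^ 4 * Real.exp (2 * L / 125 + 12 * dl * L) := by
    calc M ^ 2 ≤ ((1 + B) ^ 2 * Real.exp (L / 125 + 6 * dl * L)) ^ 2 := pow_le_pow_left₀ hM0 hMle 2
      _ = (1 + B) ^ 4 * Real.exp (L / 125 + 6 * dl * L) ^ 2 := by ring
      _ = (1 + B) ^ 4 * Real.exp (2 * L / 125 + 12 * dl * L) := by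
          rw [← Real.exp_nat_mul]
          congr 2
          push_cast
          ring
  obtain ⟨hWi, hWb⟩ := Wt_int 1 (Real.exp (-Y)) (by norm_num) (Real.exp_pos _)
  have hWn : ∀ x : ℝ, 0 ≤ Wt 1 (Real.exp (-Y)) x := fun x => (Real.exp_pos _).le
  have hint : (∫ x in Ioi (0 : ℝ), Wt 1 (Real.exp (-Y)) x * ‖gg (beta (chx χ1 y1) (chx χ2 y2) l) (Hl l)
        (FA (chx χ1 y1) (rhox D L) * FA (chx χ2 y2) (rhox D L) : ArithmeticFunction ℂ) (1 / T) x‖ ^ 2) ≤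
      ∫ x in Ioi (0 : ℝ), Wt 1 (Real.exp (-Y)) x * M ^ 2 := by
    apply integral_mono_of_nonneg
    · exact Filter.Eventually.of_forall fun x => mul_nonneg (hWn x) (by positivity)
    · exact hWi.mul_const _
    · apply (ae_restrict_iff' measurableSet_Ioi).2
      exact Filter.Eventually.of_forall fun x hx =>
        mul_le_mul_of_nonneg_left (pow_le_pow_left₀ (norm_nonneg _) (hbound x hx) 2) (hWn x)
  have hW2 : (∫ x in Ioi (0 : ℝ), Wt 1 (Real.exp (-Y)) x * M ^ 2) ≤ Real.exp (6 * dl * L) * M ^ 2 := by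
    rw [integral_mul_const]
    apply mul_le_mul_of_nonneg_right _ (by positivity)
    have h1 : (1 : ℝ) / Real.exp (-Y) = Real.exp Y := by rw [Real.exp_neg]; simp
    rw [h1] at hWb
    exact le_trans hWb (Real.exp_le_exp.2 hY2)
  have hB4 : (1 + B) ^ 4 ≤ Real.exp (L / 4) := by
    rw [← pow_le_pow_iff_left₀ (by positivity) (Real.exp_pos _).le (n := 4) (by norm_num), ← pow_mul,
      ← Real.exp_nat_mul]
    have h1 : ((4 : ℕ) : ℝ) * (L / 4) = L := by push_cast; ring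
    rw [h1, ← hTL]
    exact hTB
  calc (∫ x in Ioi (0 : ℝ), Wt 1 (Real.exp (-Y)) x * ‖gg (beta (chx χ1 y1) (chx χ2 y2) l) (Hl l)
        (FA (chx χ1 y1) (rhox D L) * FA (chx χ2 y2) (rhox D L) : ArithmeticFunction ℂ) (1 / T) x‖ ^ 2)
      ≤ Real.exp (6 * dl * L) * M ^ 2 := le_trans hint hW2
    _ ≤ Real.exp (6 * dl * L) * ((1 + B) ^ 4 * Real.exp (2 * L / 125 + 12 * dl * L)) :=
        mul_le_mul_of_nonneg_left hMsq (Real.exp_pos _).le
    _ ≤ Real.exp (6 * dl * L) * (Real.exp (L / 4) * Real.exp (2 * L / 125 + 12 * dl * L)) := by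
        apply mul_le_mul_of_nonneg_left _ (Real.exp_pos _).le
        exact mul_le_mul_of_nonneg_right hB4 (Real.exp_pos _).le
    _ = Real.exp (6 * dl * L + (L / 4 + (2 * L / 125 + 12 * dl * L))) := by
        rw [← Real.exp_add, ← Real.exp_add]
    _ ≤ Real.exp (L * (1 / 2)) := by
        apply Real.exp_le_exp.2
        rw [hdl']
        nlinarith only [hL1, hdl, hdl']
    _ = T ^ (1 / 2 : ℝ) := by
        rw [Real.rpow_def_of_pos hT0, ← hL]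

end OO

end
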