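import Pool.Agent.Lib.MP_0f5a55_nt.OM.K000
import Pool.Agent.Lib.MP_0f5a55_nt.OM.K038
import Pool.Agent.Lib.MP_0f5a55_nt.OM.K042
import Pool.Agent.Lib.MP_0f5a55_nt.OM.K049

open Complex MeasureTheory Set Filter Topology
open scoped ComplexConjugate

namespace OO

/-- the numerical part of the second term -/
theorem C06_num (K C T c : ℝ) (H : ℕ) (hK : 0 < K) (hC : 0 < C) (hT : 2 ≤ T)
    (hH : (H : ℝ) ≤ T ^ (2 * dl)) :
    K * (H : ℝ) ^ 200 * ((H : ℝ) ^ 2 / 1) ^ 0 *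
      (C * (1 + (Real.exp (Real.log T / 500)) ^ (11 / 5 : ℝ)) * (1 / T) ^ (-(1 + 1 / 10 ^ 7 - 1 / 200) : ℝ) +
        C * (Real.exp (Real.log T / 1000 - c)) ^ (-(1 / 200) : ℝ) * (1 / T) ^ (-(1 + 1 / 10 ^ 7) : ℝ)) ≤
      (2 + Real.exp (c / 200)) * K * C * T ^ (1 + 1 / 10 ^ 7 + 4 / 10 ^ 8 - 5 / 10 ^ 6 : ℝ) := by
  have hT0 : 0 < T := by linarith
  have hT1 : 1 ≤ T := by linarith
  have h1 : (1 / T) ^ (-(1 + 1 / 10 ^ 7 - 1 / 200) : ℝ) = T ^ (1 + 1 / 10 ^ 7 - 1 / 200 : ℝ) := by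
    rw [one_div, Real.inv_rpow hT0.le, ← Real.rpow_neg hT0.le, neg_neg]
  have h2 : (1 / T) ^ (-(1 + 1 / 10 ^ 7) : ℝ) = T ^ (1 + 1 / 10 ^ 7 : ℝ) := by
    rw [one_div, Real.inv_rpow hT0.le, ← Real.rpow_neg hT0.le, neg_neg]
  have h3 : (Real.exp (Real.log T / 1000 - c)) ^ (-(1 / 200) : ℝ) = Real.exp (c / 200) * T ^ (-(1 / 200000) : ℝ) := by
    rw [← Real.exp_mul, Real.rpow_def_of_pos hT0, ← Real.exp_add]
    congr 1
    ring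
  have h3' : (Real.exp (Real.log T / 500)) ^ (11 / 5 : ℝ) = T ^ (11 / 2500 : ℝ) := by
    rw [← Real.exp_mul, Real.rpow_def_of_pos hT0]
    congr 1
    ring
  have h4 : (H : ℝ) ^ 200 ≤ T ^ (4 / 10 ^ 8 : ℝ) := by
    calc (H : ℝ) ^ 200 ≤ (T ^ (2 * dl)) ^ 200 := pow_le_pow_left₀ (Nat.cast_nonneg H) hH 200
      _ = T ^ (4 / 10 ^ 8 : ℝ) := by
        rw [← Real.rpow_natCast, ← Real.rpow_mul hT0.le, dl]
        congr 1
        norm_num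
  set X : ℝ := T ^ (1 + 1 / 10 ^ 7 + 4 / 10 ^ 8 - 5 / 10 ^ 6 : ℝ) with hX
  have h5 : T ^ (4 / 10 ^ 8 : ℝ) * T ^ (1 + 1 / 10 ^ 7 - 1 / 200 : ℝ) ≤ X := by
    rw [← Real.rpow_add hT0]
    exact Real.rpow_le_rpow_of_exponent_le hT1 (by norm_num)
  have h5' : T ^ (4 / 10 ^ 8 : ℝ) * (T ^ (11 / 2500 : ℝ) * T ^ (1 + 1 / 10 ^ 7 - 1 / 200 : ℝ)) ≤ X := by
    rw [← Real.rpow_add hT0, ← Real.rpow_add hT0]
    exact Real.rpow_le_rpow_of_exponent_le hT1 (by norm_num)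
  have h6 : T ^ (4 / 10 ^ 8 : ℝ) * (T ^ (-(1 / 200000) : ℝ) * T ^ (1 + 1 / 10 ^ 7 : ℝ)) ≤ X := by
    rw [← Real.rpow_add hT0, ← Real.rpow_add hT0]
    exact Real.rpow_le_rpow_of_exponent_le hT1 (by norm_num)
  rw [h1, h2, h3, h3', pow_zero, mul_one]
  have h7 : 0 ≤ T ^ (1 + 1 / 10 ^ 7 - 1 / 200 : ℝ) := Real.rpow_nonneg hT0.le _
  have h7' : 0 ≤ T ^ (11 / 2500 : ℝ) := Real.rpow_nonneg hT0.le _
  have h8 : 0 ≤ T ^ (-(1 / 200000) : ℝ) * T ^ (1 + 1 / 10 ^ 7 : ℝ) :=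
    mul_nonneg (Real.rpow_nonneg hT0.le _) (Real.rpow_nonneg hT0.le _)
  have hE : 0 < Real.exp (c / 200) := Real.exp_pos _
  set E : ℝ := Real.exp (c / 200) with hEdef
  calc K * (H : ℝ) ^ 200 * (C * (1 + T ^ (11 / 2500 : ℝ)) * T ^ (1 + 1 / 10 ^ 7 - 1 / 200 : ℝ) +
        C * (E * T ^ (-(1 / 200000) : ℝ)) * T ^ (1 + 1 / 10 ^ 7 : ℝ))
      = (K * C) * ((H : ℝ) ^ 200 * (T ^ (1 + 1 / 10 ^ 7 - 1 / 200 : ℝ) +
        T ^ (11 / 2500 : ℝ) * T ^ (1 + 1 / 10 ^ 7 - 1 / 200 : ℝ) +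
        E * (T ^ (-(1 / 200000) : ℝ) * T ^ (1 + 1 / 10 ^ 7 : ℝ)))) := by ring
    _ ≤ (K * C) * (T ^ (4 / 10 ^ 8 : ℝ) * (T ^ (1 + 1 / 10 ^ 7 - 1 / 200 : ℝ) +
        T ^ (11 / 2500 : ℝ) * T ^ (1 + 1 / 10 ^ 7 - 1 / 200 : ℝ) +
        E * (T ^ (-(1 / 200000) : ℝ) * T ^ (1 + 1 / 10 ^ 7 : ℝ)))) := by
        apply mul_le_mul_of_nonneg_left _ (mul_pos hK hC).le
        exact mul_le_mul_of_nonneg_right h4 (add_nonneg (add_nonneg h7 (mul_nonneg h7' h7)) (mul_nonneg hE.le h8))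
    _ = (K * C) * (T ^ (4 / 10 ^ 8 : ℝ) * T ^ (1 + 1 / 10 ^ 7 - 1 / 200 : ℝ) +
        T ^ (4 / 10 ^ 8 : ℝ) * (T ^ (11 / 2500 : ℝ) * T ^ (1 + 1 / 10 ^ 7 - 1 / 200 : ℝ)) +
        E * (T ^ (4 / 10 ^ 8 : ℝ) * (T ^ (-(1 / 200000) : ℝ) * T ^ (1 + 1 / 10 ^ 7 : ℝ)))) := by ring
    _ ≤ (K * C) * (X + X + E * X) := by
        apply mul_le_mul_of_nonneg_left _ (mul_pos hK hC).le
        exact add_le_add (add_le_add h5 h5') (mul_le_mul_of_nonneg_left h6 hE.le)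
    _ = (2 + E) * K * C * X := by ring

theorem EN_N_abs3_YK (L c1 : ℝ) (hc : 0 ≤ c1) (hL : 1000 * (1 + c1) ≤ L) :
    (2 : ℝ) ≤ Real.exp (L / 1000 - c1) ∧ Real.exp (L / 1000 - c1) ≤ Real.exp (L / 500) ∧
      1 ≤ (Real.exp (L / 500)) ^ (11 / 5 : ℝ) := by
  have h1 := Real.add_one_le_exp (L / 1000 - c1)
  have h0 : 0 ≤ L := by linarith only [hc, hL]
  refine ⟨by linarith only [h1, hL], Real.exp_le_exp.2 (by linarith only [h0, hc]),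
    Real.one_le_rpow (Real.one_le_exp (div_nonneg h0 (by norm_num))) (by norm_num)⟩

theorem EN_N_abs3_alg (CK N p r z E1 E2 : ℝ) (h : 0 ≤ CK * N) (hE : 0 ≤ E1) (hz : z ≤ p * r) :
    CK * N * (p * (r + E2) + z * E1) ≤ N * (CK * (1 + E1) * (p * r) + CK * E2 * p) := by
  have h1 := mul_le_mul_of_nonneg_left (mul_le_mul_of_nonneg_right hz hE) h
  linarith only [h1]

theorem EN_N_abs3_pw (CK N k E1 E2 : ℝ) (hC : 0 ≤ CK) (hN : 0 ≤ N) (hk : 0 ≤ k) (hE : 0 ≤ E1) :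
    CK * N * ((1 + 1 / k) ^ (1 + 1 / 10 ^ 7 : ℝ) * ((1 + 1 / k) ^ (-(1 / 200) : ℝ) + E2) +
      (1 + 1 / k) ^ (1 / 10 ^ 7 : ℝ) * E1) ≤
    N * (CK * (1 + E1) * (1 + 1 / k) ^ (1 + 1 / 10 ^ 7 - 1 / 200 : ℝ) +
      CK * E2 * (1 + 1 / k) ^ (1 + 1 / 10 ^ 7 : ℝ)) := by
  have h2 : 1 ≤ 1 + 1 / k := le_add_of_nonneg_right (one_div_nonneg.2 hk)
  have h3 : (1 + 1 / k) ^ (1 + 1 / 10 ^ 7 - 1 / 200 : ℝ) =
      (1 + 1 / k) ^ (1 + 1 / 10 ^ 7 : ℝ) * (1 + 1 / k) ^ (-(1 / 200) : ℝ) := by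
    rw [← Real.rpow_add (zero_lt_one.trans_le h2), ← sub_eq_add_neg]
  have h4 : (1 + 1 / k) ^ (1 / 10 ^ 7 : ℝ) ≤ (1 + 1 / k) ^ (1 + 1 / 10 ^ 7 - 1 / 200 : ℝ) :=
    Real.rpow_le_rpow_of_exponent_le h2 (by norm_num)
  rw [h3] at h4 ⊢
  exact EN_N_abs3_alg CK N _ _ _ E1 E2 (mul_nonneg hC hN) hE h4

/-- The part with both variables large. -/
theorem EN_N_abs3 : ∃ C : ℝ, 0 < C ∧ ∀ (q1 q2 : ℕ) [NeZero q1] [NeZero q2] (χ1 : DirichletCharacter ℂ q1)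
    (χ2 : DirichletCharacter ℂ q2) (y1 y2 : ℝ), NeX χ1 y1 χ2 y2 → ∃ T0 : ℝ, 2 ≤ T0 ∧
    ∀ T l Y : ℝ, T0 ≤ T → dl / 2 * Real.log T ≤ l →
      l ≤ dl * Real.log T → (Real.log T) ^ (3 / 4 : ℝ) ≤ Y → Y ≤ 6 * dl * Real.log T →
      (∫ x in Ioi (0 : ℝ), Wt 1 (Real.exp (-Y)) x * ‖gg (beta (chx χ1 y1) (chx χ2 y2) l) (Hl l)
        (FA (chx χ1 y1) (ffx (y1 - y2) (Real.log T)) * FA (chx χ2 y2) (ffx (y1 - y2) (Real.log T)) :
          ArithmeticFunction ℂ) (1 / T) x‖ ^ 2) ≤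
        C * T * (Y / Real.log T) * (1 + Real.log (Real.log T / Y)) + T ^ (1 - 1 / 10 ^ 6 : ℝ) := by
  obtain ⟨B, hB, hff⟩ := ffx_facts
  obtain ⟨KE, hKE, hE⟩ := E_main (1 + 1 / 10 ^ 7 - 1 / 200) (1 + 1 / 10 ^ 7) (by norm_num)
    (by norm_num) (by norm_num) (by norm_num) 0
  obtain ⟨CD, hCD, hDD⟩ := DS_inst_abs3
  refine ⟨CD * Real.exp 1, mul_pos hCD (Real.exp_pos 1), ?_⟩
  intro q1 q2 _ _ χ1 χ2 y1 y2 hne
  obtain ⟨CK, hCK, hK⟩ := K_main3 χ1 χ2 y1 y2 hne B hB (1 / 10 ^ 7) (by norm_num)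
  obtain ⟨L0, hL0, hD⟩ := hDD q1 q2 χ1 χ2 y1 y2 hne
  obtain ⟨hn1, hn2, hn3⟩ := EN_num
  set c1 : ℝ := shc (y1 - y2) with hc1
  have hc10 : 0 ≤ c1 := shc_nonneg _
  obtain ⟨T1, hT1, hn3⟩ := hn3 (1 + 1 / 10 ^ 7 + 4 / 10 ^ 8 - 5 / 10 ^ 6) (1 - 1 / 10 ^ 6)
    ((2 + Real.exp (c1 / 200)) * KE * CK) (by norm_num)
  have hdl : (0 : ℝ) < dl := by rw [dl]; norm_num
  refine ⟨max (max T1 (Real.exp L0)) (Real.exp (1000 * (1 + c1))),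
    hT1.trans ((le_max_left _ _).trans (le_max_left _ _)), ?_⟩
  intro T l Y hT hl hl' hYY0 hY'
  have hTT1 : T1 ≤ T := ((le_max_left _ _).trans (le_max_left _ _)).trans hT
  have hTL0 : Real.exp L0 ≤ T := ((le_max_right _ _).trans (le_max_left _ _)).trans hT
  have hT1000 : Real.exp (1000 * (1 + c1)) ≤ T := (le_max_right _ _).trans hT
  have hT2 : 2 ≤ T := hT1.trans hTT1
  have hT0 : 0 < T := two_pos.trans_le hT2
  have hLL0 : L0 ≤ Real.log T := by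
    rw [Real.le_log_iff_exp_le hT0]
    exact hTL0
  have hL1000' : 1000 * (1 + c1) ≤ Real.log T := by
    rw [Real.le_log_iff_exp_le hT0]
    exact hT1000
  have hL1000 : 1000 ≤ Real.log T := by linarith only [hL1000', hc10]
  have hY1 : 1 ≤ Y := by
    refine le_trans ?_ hYY0
    exact Real.one_le_rpow (le_trans (by norm_num) hL1000) (by norm_num)
  have hT10 : 10 ≤ T := by
    have h1 := Real.add_one_le_exp (1000 * (1 + c1))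
    linarith only [h1, hT1000, hc10]
  have hLpos : 0 < Real.log T := lt_of_lt_of_le (by norm_num) hL1000
  have hl0 : 0 < l := lt_of_lt_of_le (mul_pos (half_pos hdl) hLpos) hl
  obtain ⟨hH1, hH2⟩ := hn1 T l hT2 hl0.le hl'
  obtain ⟨hP, hP2⟩ := hn2 T hT10
  obtain ⟨hf1, hf2, hf3, hf4, hf5, hf6⟩ := hff (y1 - y2) (Real.log T) (by linarith only [hL1000', hL1000, hc10])
  obtain ⟨hb1, hb2, hb3, hb4⟩ := beta_facts (chx χ1 y1) (chx χ2 y2) (chx_le χ1 y1) (chx_le χ2 y2)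
    (chx_one χ1 y1) (chx_one χ2 y2) l hl0
  have hu1 := (LA_FA_facts (chx χ1 y1) (chx_le χ1 y1)).2.2.1 (ffx (y1 - y2) (Real.log T)) B hB.le hf3
  have hu2 := (LA_FA_facts (chx χ2 y2) (chx_le χ2 y2)).2.2.1 (ffx (y1 - y2) (Real.log T)) B hB.le hf3
  have hlam := (conv_bound (FA (chx χ1 y1) (ffx (y1 - y2) (Real.log T)))
    (FA (chx χ2 y2) (ffx (y1 - y2) (Real.log T))) B B hB.le hB.le hu1 hu2).2
  obtain ⟨hYK, hYK', hYp⟩ := EN_N_abs3_YK (Real.log T) c1 hc10 hL1000'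
  have horth : Ne12 χ1 χ2 ∨ ((∀ x : ℝ, Real.exp (Real.log T / 500) ≤ x → ffx (y1 - y2) (Real.log T) x = 1) ∧
      ∫ x in Real.exp (Real.log T / 1000 - c1)..Real.exp (Real.log T / 500),
        ((deriv (ffx (y1 - y2) (Real.log T)) x : ℝ) : ℂ) * (x : ℂ) ^ (((y1 - y2 : ℝ) : ℂ) * I) = 0) := by
    rcases hne with h | h
    · exact Or.inl h
    · exact Or.inr ⟨hf2, ffx_orth (y1 - y2) (Real.log T) (sub_ne_zero.2 h) (by linarith only [hL1000', hL1000, hc10])⟩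
  have hSS : ∀ a c r : ℕ, 1 ≤ a → 1 ≤ c → 1 ≤ r → ∀ κ : ℂ, κ ≠ 0 → ‖κ‖ / 2 ≤ κ.re →
      ‖SS (FA (chx χ1 y1) (ffx (y1 - y2) (Real.log T)) * FA (chx χ2 y2) (ffx (y1 - y2) (Real.log T)) :
          ArithmeticFunction ℂ) a c r κ‖ ≤
        ((a * c * r : ℕ) : ℝ) ^ 12 * (CK * (1 + (Real.exp (Real.log T / 500)) ^ (11 / 5 : ℝ)) *
            (1 + 1 / ‖κ‖) ^ (1 + 1 / 10 ^ 7 - 1 / 200 : ℝ) +
          CK * (Real.exp (Real.log T / 1000 - c1)) ^ (-(1 / 200) : ℝ) *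
            (1 + 1 / ‖κ‖) ^ (1 + 1 / 10 ^ 7 : ℝ)) := by
    intro a c r ha hc hr κ hκ hκ'
    have h1 := hK (ffx (y1 - y2) (Real.log T)) (Real.exp (Real.log T / 1000 - c1)) (Real.exp (Real.log T / 500))
      hYK hYK' (fun x hx hx' => hf1 x (by linarith only [hx, hYK]) hx') hf3 hf4 hf5 hf6 horth a c r ha hc hr κ hκ hκ'
    exact h1.trans (EN_N_abs3_pw CK _ ‖κ‖ _ _ hCK.le (pow_nonneg (Nat.cast_nonneg _) 12)
      (norm_nonneg κ) (zero_le_one.trans hYp))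
  have hmain := hE (Hl l) (beta (chx χ1 y1) (chx χ2 y2) l)
    (FA (chx χ1 y1) (ffx (y1 - y2) (Real.log T)) * FA (chx χ2 y2) (ffx (y1 - y2) (Real.log T))) (B * B)
    (CK * (1 + (Real.exp (Real.log T / 500)) ^ (11 / 5 : ℝ)))
    (CK * (Real.exp (Real.log T / 1000 - c1)) ^ (-(1 / 200) : ℝ)) (1 / T) 1 (Real.exp (-Y)) hH1 hb3 hb2
    hlam (one_div_pos.2 hT0) (one_div_le_one_div_of_le (by norm_num) hT10) le_rfl (Real.exp_pos _).le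
    (mul_nonneg hCK.le (add_nonneg zero_le_one (zero_le_one.trans hYp)))
    (mul_nonneg hCK.le (Real.rpow_nonneg (Real.exp_pos _).le _)) hSS
  have hYL : Y ≤ Real.log T := by
    refine hY'.trans ?_
    have h1 : 6 * dl ≤ 1 := by rw [dl]; norm_num
    calc 6 * dl * Real.log T ≤ 1 * Real.log T := mul_le_mul_of_nonneg_right h1 hLpos.le
      _ = Real.log T := one_mul _
  have hDS := ((hD (Real.log T) l (4 * Real.pi * Real.sin (1 / T)) hLL0 hl hl' hP).1 Y hYY0 hYL).1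
  have hY00 : 0 < Y := zero_lt_one.trans_le hY1
  have hlog : 0 ≤ 1 + Real.log (Real.log T / Y) := by
    have h1 : 1 ≤ Real.log T / Y := by
      rw [le_div_iff₀ hY00, one_mul]
      exact hYL
    exact add_nonneg zero_le_one (Real.log_nonneg h1)
  have hDS2 : CD * (4 * Real.pi * Real.sin (1 / T)) ^ (-1 - 1 / Real.log T) * (Y / Real.log T) *
      (1 + Real.log (Real.log T / Y)) ≤
      CD * Real.exp 1 * T * (Y / Real.log T) * (1 + Real.log (Real.log T / Y)) := by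
    apply mul_le_mul_of_nonneg_right _ hlog
    apply mul_le_mul_of_nonneg_right _ (div_pos hY00 hLpos).le
    calc CD * (4 * Real.pi * Real.sin (1 / T)) ^ (-1 - 1 / Real.log T) ≤ CD * (Real.exp 1 * T) :=
        mul_le_mul_of_nonneg_left hP2 hCD.le
      _ = CD * Real.exp 1 * T := by ring
  have hnum := C06_num KE CK T c1 (Hl l) hKE hCK hT2 hH2
  have hfin := hn3 T hTT1
  refine hmain.trans ?_
  exact add_le_add (hDS.trans hDS2) (hnum.trans hfin)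

end OO
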