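import Pool.Agent.Lib.MP_0f5a55_nt.OM.K000
import Pool.Agent.Lib.MP_0f5a55_nt.OM.K019
import Pool.Agent.Lib.MP_0f5a55_nt.OM.K025

section

/-!
# Block P: the core estimate
-/

open Complex MeasureTheory Set Filter Topology
open scoped ComplexConjugate

namespace OO

/-- the sum over the positions is the sum over the numbers `ξ` -/
theorem P16_image (H U M q : ℕ) (hq : 1 ≤ q) (b f1 f2 : ℕ → ℂ) (w : ℝ → ℝ) (F : ℝ → ℝ) :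
    ∑ y₀ ∈ (PJ H U M).image (fun j => (((px j : ℚ) : ℝ) / q : ℝ)),
      ‖∑ j ∈ (PJ H U M).filter (fun j => (((px j : ℚ) : ℝ) / q : ℝ) = y₀), pc b f1 f2 w j‖ ^ 2 * F y₀ =
    ∑ ξ ∈ (PJ H U M).image px, ‖PC H U M b f1 f2 w ξ‖ ^ 2 * F (((ξ : ℚ) : ℝ) / q) := by
  have hq0 : (q : ℝ) ≠ 0 := by
    have : (0 : ℝ) < q := by exact_mod_cast hq
    exact this.ne'
  have himg : (PJ H U M).image (fun j => (((px j : ℚ) : ℝ) / q : ℝ)) =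
      ((PJ H U M).image px).image (fun ξ : ℚ => ((ξ : ℝ) / q : ℝ)) := by
    rw [Finset.image_image]; rfl
  rw [himg, Finset.sum_image]
  · refine Finset.sum_congr rfl fun ξ _ => ?_
    congr 3
    unfold PC
    refine Finset.sum_congr ?_ fun _ _ => rfl
    ext j
    simp only [Finset.mem_filter, and_congr_right_iff]
    intro _
    constructor
    · intro h
      have h' : ((px j : ℚ) : ℝ) = ((ξ : ℚ) : ℝ) := by
        field_simp at h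
        exact h
      exact_mod_cast h'
    · intro h; rw [h]
  · intro x _ y _ hxy
    have hxy' : ((x : ℝ) / q : ℝ) = ((y : ℝ) / q : ℝ) := hxy
    have : ((x : ℚ) : ℝ) = ((y : ℚ) : ℝ) := by
      field_simp at hxy'
      exact hxy'
    exact_mod_cast this

/-- the pole part -/
theorem P16_poles (H U M K0 q : ℕ) (b : ArithmeticFunction ℂ) (f1 f2 : ℕ → ℂ) (w : ℝ → ℝ) (T X0 ω N : ℝ)
    (hb : ∀ h, H < h → b h = 0) (hb1 : ∀ h, ‖b h‖ ≤ h) (hf2 : ∀ n, ‖f2 n‖ ≤ 1) (hw : ∀ u : ℕ, U < u → w u = 0)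
    (hK : U * H ≤ K0) (hq : 1 ≤ q) (hω : 0 < ω) (hω1 : ω ≤ 1 / 2) (hX : X0 * (U * H) ≤ M) (hX0 : 0 < X0) (hT : 0 < T)
    (hN : ∑ j ∈ PJ H U M, ‖pc b f1 f2 w j‖ ≤ N) :
    ∑ y₀ ∈ (PJ H U M).image (fun j => (((px j : ℚ) : ℝ) / q : ℝ)),
      ‖∑ j ∈ (PJ H U M).filter (fun j => (((px j : ℚ) : ℝ) / q : ℝ) = y₀), pc b f1 f2 w j‖ ^ 2 *
        (Real.exp 2 * Wt 1 ω y₀ * (3 * Real.pi / (y₀ * (1 / T)))) ≤
    (Real.exp 2 * (3 * Real.pi) * q * T) *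
      (Real.exp 3 * (ω / q) * DS K0 (LA f2 0 0 * cj b : ArithmeticFunction ℂ) (FA f1 w * b : ArithmeticFunction ℂ)
          (fun y => Psi 1 (ω / q) (ω / q * y)) +
        N ^ 2 * (Real.exp (-(ω * X0 / q)) / X0)) := by
  have hq0 : (0 : ℝ) < q := by exact_mod_cast hq
  rw [P16_image H U M q hq b f1 f2 w (fun y => Real.exp 2 * Wt 1 ω y * (3 * Real.pi / (y * (1 / T))))]
  have h1 := P12_main H U M K0 q b f1 f2 w X0 ω hb hb1 hf2 hw hK hq hω hω1 hX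
  have h2 := P12_tail H U M q b f1 f2 w X0 ω N hq hω hX0 hN
  have h3 := Finset.sum_filter_add_sum_filter_not ((PJ H U M).image px) (fun ξ => ((ξ : ℚ) : ℝ) ≤ X0)
    (fun ξ => ‖PC H U M b f1 f2 w ξ‖ ^ 2 * (Wt 1 ω (((ξ : ℚ) : ℝ) / q) / ((ξ : ℚ) : ℝ)))
  have h4 : ∑ ξ ∈ (PJ H U M).image px, ‖PC H U M b f1 f2 w ξ‖ ^ 2 *
      (Real.exp 2 * Wt 1 ω (((ξ : ℚ) : ℝ) / q) * (3 * Real.pi / ((((ξ : ℚ) : ℝ) / q) * (1 / T)))) =
      (Real.exp 2 * (3 * Real.pi) * q * T) * ∑ ξ ∈ (PJ H U M).image px, ‖PC H U M b f1 f2 w ξ‖ ^ 2 *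
        (Wt 1 ω (((ξ : ℚ) : ℝ) / q) / ((ξ : ℚ) : ℝ)) := by
    rw [Finset.mul_sum]
    refine Finset.sum_congr rfl fun ξ hξ => ?_
    by_cases hz : ((ξ : ℚ) : ℝ) = 0
    · rw [hz]; simp
    · field_simp
  rw [h4, ← h3]
  have hc : 0 ≤ Real.exp 2 * (3 * Real.pi) * q * T := by positivity
  exact mul_le_mul_of_nonneg_left (add_le_add h1 h2) hc

end OO

end

section

/-!
# Block P: the core estimate, second part
-/

open Complex MeasureTheory Set Filter Topology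
open scoped ComplexConjugate

namespace OO

/-- the factor in front of the sum over the poles -/
theorem P17_kappa {q : ℕ} [NeZero q] (χ : DirichletCharacter ℂ q) : ‖tc χ / (2 * Real.pi * I * q)‖ ≤ 1 := by
  have hq0 : (0 : ℝ) < q := by exact_mod_cast Nat.pos_of_ne_zero (NeZero.ne q)
  have h1 := P03_norm χ
  have h2 : ‖(2 * Real.pi * I * q : ℂ)‖ = 2 * Real.pi * q := by
    simp [abs_of_pos Real.pi_pos]
  rw [norm_div, h2, div_le_one (by positivity)]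
  have h3 : (1 : ℝ) ≤ 2 * Real.pi := by linarith [Real.pi_gt_three]
  calc ‖tc χ‖ ≤ 1 * (q : ℝ) := by rw [one_mul]; exact h1
    _ ≤ 2 * Real.pi * q := mul_le_mul_of_nonneg_right h3 hq0.le

/-- the square of the factor, exactly -/
theorem P17_kappa2 {q : ℕ} [NeZero q] (χ : DirichletCharacter ℂ q) (hχ : χ.IsPrimitive) :
    ‖tc χ / (2 * Real.pi * I * q)‖ ^ 2 * q = 1 / (4 * Real.pi ^ 2) := by
  have hq0 : (0 : ℝ) < q := by exact_mod_cast Nat.pos_of_ne_zero (NeZero.ne q)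
  have h1 := P18_norm χ hχ
  have h2 : ‖(2 * Real.pi * I * q : ℂ)‖ = 2 * Real.pi * q := by
    simp [abs_of_pos Real.pi_pos]
  rw [norm_div, h2, div_pow, h1]
  have hpi := Real.pi_pos
  field_simp
  ring

/-- algebra for the first error term -/
theorem P17_alg1 (B C K P Q X1 R : ℝ) (hP0 : 0 ≤ P) (hQ0 : 0 ≤ Q) (hK : K ≤ 1)
    (hX1 : 0 ≤ X1) (hR : 0 ≤ R) :
    X1 * (4 * K * (B ^ 2 * P) + 8 * (C ^ 2 * B ^ 2 * Q)) ≤
      (8 * B ^ 2 + 8 * C ^ 2 * B ^ 2 + R) * (X1 * (P + Q)) := by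
  have hBP : 0 ≤ B ^ 2 * P := mul_nonneg (sq_nonneg B) hP0
  have hBQ : 0 ≤ B ^ 2 * Q := mul_nonneg (sq_nonneg B) hQ0
  have b1 : K * (B ^ 2 * P) ≤ 1 * (B ^ 2 * P) := mul_le_mul_of_nonneg_right hK hBP
  have b4 : 0 ≤ C ^ 2 * (B ^ 2 * P) := mul_nonneg (sq_nonneg C) hBP
  have b5 : 0 ≤ C ^ 2 * (B ^ 2 * Q) := mul_nonneg (sq_nonneg C) hBQ
  have b6 : 0 ≤ R * (P + Q) := mul_nonneg hR (add_nonneg hP0 hQ0)
  have a3 : 4 * K * (B ^ 2 * P) + 8 * (C ^ 2 * B ^ 2 * Q) ≤ (8 * B ^ 2 + 8 * C ^ 2 * B ^ 2 + R) * (P + Q) := by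
    have b7 : (8 * B ^ 2 + 8 * C ^ 2 * B ^ 2 + R) * (P + Q) =
      8 * (B ^ 2 * P) + 8 * (B ^ 2 * Q) + 8 * (C ^ 2 * (B ^ 2 * P)) + 8 * (C ^ 2 * (B ^ 2 * Q)) +
        R * (P + Q) := by ring
    have b8 : 4 * K * (B ^ 2 * P) + 8 * (C ^ 2 * B ^ 2 * Q) =
      4 * (K * (B ^ 2 * P)) + 8 * (C ^ 2 * (B ^ 2 * Q)) := by ring
    rw [b7, b8]
    linarith only [b1, b4, b5, b6, hBP, hBQ]
  calc X1 * (4 * K * (B ^ 2 * P) + 8 * (C ^ 2 * B ^ 2 * Q)) ≤ X1 *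
        ((8 * B ^ 2 + 8 * C ^ 2 * B ^ 2 + R) * (P + Q)) := mul_le_mul_of_nonneg_left a3 hX1
    _ = _ := by ring

/-- algebra for the last error term -/
theorem P17_alg2 (B C W : ℝ) (q : ℕ) (hq1 : 1 ≤ q) (hW : 0 ≤ W) :
    (3 / Real.pi * Real.exp 2 * B ^ 2) * W ≤
      (8 * B ^ 2 + 8 * C ^ 2 * B ^ 2 + 12 * Real.pi * Real.exp 2 * q * B ^ 2) * W := by
  refine mul_le_mul_of_nonneg_right ?_ hW
  have b3 : 0 ≤ B ^ 2 := sq_nonneg B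
  have b2 : 0 ≤ C ^ 2 * B ^ 2 := mul_nonneg (sq_nonneg C) b3
  have b4 : 3 / Real.pi ≤ 12 * Real.pi * q := by
    rw [div_le_iff₀ Real.pi_pos]
    have c1 : (1 : ℝ) ≤ q := by exact_mod_cast hq1
    have c2 : (1 : ℝ) ≤ Real.pi := by linarith only [Real.pi_gt_three]
    have c3 : 1 ≤ Real.pi * Real.pi := one_le_mul_of_one_le_of_one_le c2 c2
    have c4 : 1 ≤ Real.pi * Real.pi * q := one_le_mul_of_one_le_of_one_le c3 c1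
    linarith only [c4]
  have b5 : 3 / Real.pi * (Real.exp 2 * B ^ 2) ≤ 12 * Real.pi * q * (Real.exp 2 * B ^ 2) :=
    mul_le_mul_of_nonneg_right b4 (mul_nonneg (Real.exp_pos 2).le b3)
  linarith only [b2, b3, b5]

/-- algebra for the main term -/
theorem P17_alg3 (B T r D Y Z q K : ℝ) (hK : K * q = 1 / (4 * Real.pi ^ 2)) :
    4 * K * ((Real.exp 2 * (3 * Real.pi) * q * T) * (Real.exp 3 * r * D + (B * Y) ^ 2 * Z)) =
      (3 / Real.pi * Real.exp 5) * T * r * D + (3 / Real.pi * Real.exp 2 * B ^ 2) * (T * (Y ^ 2 * Z)) := by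
  have a3 : Real.exp 5 = Real.exp 2 * Real.exp 3 := by
    rw [← Real.exp_add]; norm_num
  have b1 : 4 * K * ((Real.exp 2 * (3 * Real.pi) * q * T) * (Real.exp 3 * r * D + (B * Y) ^ 2 * Z)) =
      (K * q) * ((12 * Real.pi * Real.exp 2 * T) * (Real.exp 3 * r * D + (B * Y) ^ 2 * Z)) := by ring
  rw [b1, hK, a3]
  have hpi := Real.pi_pos
  field_simp
  ring

private theorem P17_core_ge {p q a : ℝ} (hq : 0 < q) (h : 1 / a ≤ p) : 1 / (q * a) ≤ p / q := by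
  rw [mul_comm q a, ← div_div]
  exact div_le_div_of_nonneg_right h hq.le

private theorem P17_core_sep {p p' q a D : ℝ} (hq : 0 < q) (n3 : D ≤ 1 / (q * a)) (h : 1 / a ≤ |p - p'|) :
    D ≤ |p / q - p' / q| := by
  rw [← sub_div, abs_div, abs_of_pos hq]
  exact n3.trans (P17_core_ge hq h)

private theorem P17_core_n1 {x X1 U H e : ℝ} (hx1 : x ≤ X1) (hU : 0 ≤ U) (hH : 0 ≤ H) (he : 0 ≤ e)
    (n1 : X1 * U * H * e ≤ 1) : x * U * H * e ≤ 1 :=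
  le_trans (mul_le_mul_of_nonneg_right (mul_le_mul_of_nonneg_right (mul_le_mul_of_nonneg_right hx1 hU) hH) he) n1

private theorem P17_core_n2 {x X1 U H q r : ℝ} (hx1 : x ≤ X1) (hU : 0 ≤ U) (hH : 0 ≤ H) (hq : 0 ≤ q)
    (n1 : q * (X1 * U * H) ≤ r) : q * (x * U * H) ≤ r :=
  le_trans (mul_le_mul_of_nonneg_left (mul_le_mul_of_nonneg_right (mul_le_mul_of_nonneg_right hx1 hU) hH) hq) n1

private theorem P17_core_mh {c M H x : ℝ} (hc : 0 ≤ c) (hM : 0 ≤ M) (hH : 0 ≤ H) (hx : 0 < x) :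
    c * (M + H / x) ≤ c * (M + H) * (1 + 1 / x) := by
  rw [mul_assoc]
  refine mul_le_mul_of_nonneg_left ?_ hc
  rw [div_eq_mul_inv, one_div, mul_add, mul_one, add_mul]
  have h1 : 0 ≤ M * x⁻¹ := mul_nonneg hM (inv_nonneg.2 hx.le)
  linarith only [h1, hH]

private theorem P17_core_cr {c x T : ℝ} (hc : 0 ≤ c) (hx : 1 ≤ x) (hT : 0 < T) :
    c / (x * (1 / T)) ≤ c * T := by
  have hx0 : 0 < x := lt_of_lt_of_le one_pos hx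
  rw [mul_one_div, div_div_eq_mul_div]
  exact div_le_self (mul_nonneg hc hT.le) hx

private theorem P17_core_r1 (B P Δ : ℝ) : (B * P / Δ) ^ 2 = B ^ 2 * (P / Δ) ^ 2 := by
  rw [mul_div_assoc, mul_pow]

private theorem P17_core_r2 (B C Q : ℝ) : (C * B * Q) ^ 2 = C ^ 2 * B ^ 2 * Q ^ 2 := by
  rw [mul_pow, mul_pow]

private theorem P17_core_r3 (B Y W : ℝ) : (2 * B * Y) ^ 2 * W = 4 * B ^ 2 * (Y ^ 2 * W) := by ring

private theorem P17_core_fin0 {J a1 a2 a3 D c y1 y2 y3 : ℝ} (h : J ≤ a1 + a2 + a3) (h1 : a1 ≤ c * y1)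
    (h2 : a2 ≤ c * y2) (h3 : a3 ≤ D + c * y3) : J ≤ D + c * (y1 + y2 + y3) := by
  rw [mul_add, mul_add]
  linarith only [h, h1, h2, h3]

private theorem P17_core_c (B C R : ℝ) (hR : 0 ≤ R) : 4 * B ^ 2 ≤ 8 * B ^ 2 + 8 * C ^ 2 * B ^ 2 + R := by
  have h1 : 0 ≤ B ^ 2 := sq_nonneg B
  have h2 : 0 ≤ C ^ 2 * B ^ 2 := mul_nonneg (sq_nonneg C) h1
  rw [mul_assoc 8 (C ^ 2)]
  linarith only [h1, h2, hR]

private theorem P17_core_fin1 (B C P Q Y Δ T X1 K r D Z W S J : ℝ) (q : ℕ)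
    (hJ : J ≤ X1 * (4 * K * (B * P / Δ) ^ 2 + 8 * (C * B * Q) ^ 2) + (2 * B * Y) ^ 2 * W + 4 * K * S)
    (hS : S ≤ (Real.exp 2 * (3 * Real.pi) * q * T) * (Real.exp 3 * r * D + (B * P) ^ 2 * Z))
    (hK0 : 0 ≤ K) (hK1 : K ≤ 1) (hKq : K * q = 1 / (4 * Real.pi ^ 2)) (hW : 0 ≤ W) (hZ : 0 ≤ Z)
    (hT : 0 ≤ T) (hX1 : 0 ≤ X1) (hq1 : 1 ≤ q) :
    J ≤ (3 / Real.pi * Real.exp 5) * T * r * D +
      (8 * B ^ 2 + 8 * C ^ 2 * B ^ 2 + 12 * Real.pi * Real.exp 2 * q * B ^ 2) *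
        (X1 * ((P / Δ) ^ 2 + Q ^ 2) + Y ^ 2 * W + T * (P ^ 2 * Z)) := by
  have hR0 : 0 ≤ 12 * Real.pi * Real.exp 2 * q * B ^ 2 :=
    mul_nonneg (mul_nonneg (mul_nonneg (mul_nonneg (by norm_num) Real.pi_pos.le) (Real.exp_pos _).le)
      (Nat.cast_nonneg q)) (sq_nonneg B)
  rw [P17_core_r1, P17_core_r2, P17_core_r3] at hJ
  refine P17_core_fin0 hJ ?_ ?_ ?_
  · exact P17_alg1 B C K _ _ X1 _ (sq_nonneg _) (sq_nonneg _) hK1 hX1 hR0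
  · exact mul_le_mul_of_nonneg_right (P17_core_c B C _ hR0) (mul_nonneg (sq_nonneg _) hW)
  · refine (mul_le_mul_of_nonneg_left hS (mul_nonneg zero_le_four hK0)).trans ?_
    rw [P17_alg3 B T r D P Z q K hKq]
    exact add_le_add le_rfl (P17_alg2 B C _ q hq1 (mul_nonneg hT (mul_nonneg (sq_nonneg _) hZ)))

private theorem P17_core_fin (B C H U M Δ T X1 K r D Z W S J : ℝ) (q : ℕ)
    (hJ : J ≤ X1 * (4 * K * (B * H ^ 4 * U * M / Δ) ^ 2 + 8 * (C * B * H ^ 4 * U * (M + H)) ^ 2) +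
      (2 * B * H ^ 5 * U * T) ^ 2 * W + 4 * K * S)
    (hS : S ≤ (Real.exp 2 * (3 * Real.pi) * q * T) * (Real.exp 3 * r * D + (B * H ^ 4 * U * M) ^ 2 * Z))
    (hK0 : 0 ≤ K) (hK1 : K ≤ 1) (hKq : K * q = 1 / (4 * Real.pi ^ 2)) (hW : 0 ≤ W) (hZ : 0 ≤ Z)
    (hT : 0 ≤ T) (hX1 : 0 ≤ X1) (hq1 : 1 ≤ q) :
    J ≤ (3 / Real.pi * Real.exp 5) * T * r * D +
      (8 * B ^ 2 + 8 * C ^ 2 * B ^ 2 + 12 * Real.pi * Real.exp 2 * q * B ^ 2) *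
        (X1 * ((H ^ 4 * U * M / Δ) ^ 2 + (H ^ 4 * U * (M + H)) ^ 2) + (H ^ 5 * U * T) ^ 2 * W +
          T * ((H ^ 4 * U * M) ^ 2 * Z)) := by
  have a1 : B * H ^ 4 * U * M = B * (H ^ 4 * U * M) := by rw [mul_assoc B, mul_assoc B]
  have a2 : C * B * H ^ 4 * U * (M + H) = C * B * (H ^ 4 * U * (M + H)) := by
    rw [mul_assoc (C * B), mul_assoc (C * B)]
  have a3 : 2 * B * H ^ 5 * U * T = 2 * B * (H ^ 5 * U * T) := by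
    rw [mul_assoc (2 * B), mul_assoc (2 * B)]
  rw [a1, a2, a3] at hJ
  rw [a1] at hS
  exact P17_core_fin1 B C _ _ _ Δ T X1 K r D Z W S J q hJ hS hK0 hK1 hKq hW hZ hT hX1 hq1

/-- the core estimate -/
theorem P17_core {q : ℕ} [NeZero q] (χ : DirichletCharacter ℂ q) (hχ : χ.IsPrimitive) (B : ℝ) (hB : 0 < B) : ∃ A : ℝ, 0 < A ∧
    ∀ (b : ArithmeticFunction ℂ) (f : ℕ → ℂ) (w : ℝ → ℝ) (H U M K0 : ℕ) (T ω Δ X0 X1 : ℝ),
      (∀ h, H < h → b h = 0) → (∀ h, ‖b h‖ ≤ h) → (∀ n, ‖f n‖ ≤ 1) → (∀ n, ‖ch χ⁻¹ n‖ ≤ 1) → (∀ u : ℕ, U < u → w u = 0) →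
      (∀ u : ℕ, |w u| ≤ B) →
      1 ≤ H → 1 ≤ U → U * H ≤ K0 → 1 ≤ T → 0 < ω → ω ≤ 1 / 2 → 0 < Δ → Δ ≤ 1 → 0 < X0 → 1 ≤ X1 →
      X1 * U * H * (1 / T) ≤ 1 → q * (X1 * U * H) ≤ M - 1 / 2 →
      2 * Δ ≤ 1 / (q * ((U : ℝ) * H) ^ 2) → 2 * Δ ≤ 1 / (q * ((U : ℝ) * H)) → 2 * Δ ≤ (1 / (q * ((U : ℝ) * H))) ^ 2 →
      X0 * (U * H) ≤ M →
      (∫ x in Ioi (0 : ℝ), Wt 1 ω x * ‖gg b H (FA f w * LA (ch χ) 0 0 : ArithmeticFunction ℂ) (1 / T) x‖ ^ 2) ≤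
        (3 / Real.pi * Real.exp 5) * T * (ω / q) * DS K0 (LA (ch χ⁻¹) 0 0 * cj b : ArithmeticFunction ℂ)
          (FA f w * b : ArithmeticFunction ℂ) (fun y => Psi 1 (ω / q) (ω / q * y)) +
        A * (X1 * (((H : ℝ) ^ 4 * U * M / Δ) ^ 2 + ((H : ℝ) ^ 4 * U * (M + H)) ^ 2) +
          ((H : ℝ) ^ 5 * U * T) ^ 2 * (Real.exp (-(ω * X1)) / ω) +
          T * (((H : ℝ) ^ 4 * U * M) ^ 2 * (Real.exp (-(ω * X0 / q)) / X0))) := by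
  obtain ⟨C, hC, hG⟩ := P07_main χ hχ
  have hq1 : 1 ≤ q := Nat.pos_of_ne_zero (NeZero.ne q)
  have hq0 : (0 : ℝ) < q := Nat.cast_pos.2 hq1
  refine ⟨8 * B ^ 2 + 8 * C ^ 2 * B ^ 2 + 12 * Real.pi * Real.exp 2 * q * B ^ 2, by positivity, ?_⟩
  intro b f w H U M K0 T ω Δ X0 X1 hb hb1 hf hch hw hwB hH hU hK hT hω hω1 hΔ hΔ1 hX0 hX1 n1 n2 n3 n4 n5 n6
  have hH0 : (0 : ℝ) < H := Nat.cast_pos.2 hH
  have hU0 : (0 : ℝ) < U := Nat.cast_pos.2 hU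
  have hT0 : 0 < T := lt_of_lt_of_le one_pos hT
  have hε0 : 0 < 1 / T := one_div_pos.2 hT0
  have hε1 : 1 / T ≤ 1 := (div_le_one hT0).2 hT
  have hM0 : (0 : ℝ) ≤ M := Nat.cast_nonneg M
  have hN := P11_norm H U M b f (ch χ⁻¹) w B hb1 hf hch hwB
  have hpos : ∀ j ∈ PJ H U M, 1 / (q * ((U : ℝ) * H)) ≤ (((px j : ℚ) : ℝ) / q : ℝ) := fun j hj =>
    P17_core_ge hq0 (P11_sep H U M j j hj hj).1
  have hqUH : 0 < 1 / (q * ((U : ℝ) * H)) := one_div_pos.2 (mul_pos hq0 (mul_pos hU0 hH0))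
  have hc1 : 0 ≤ C * B * (H : ℝ) ^ 4 * U :=
    mul_nonneg (mul_nonneg (mul_nonneg hC.le hB.le) (pow_nonneg hH0.le 4)) hU0.le
  have hc2 : 0 ≤ 2 * B * (H : ℝ) ^ 5 * U :=
    mul_nonneg (mul_nonneg (mul_nonneg zero_le_two hB.le) (pow_nonneg hH0.le 5)) hU0.le
  have hsep : ∀ i ∈ PJ H U M, ∀ j ∈ PJ H U M, (((px i : ℚ) : ℝ) / q : ℝ) ≠ (((px j : ℚ) : ℝ) / q : ℝ) →
      2 * Δ ≤ |(((px i : ℚ) : ℝ) / q : ℝ) - (((px j : ℚ) : ℝ) / q : ℝ)| := fun i hi j hj hne =>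
    P17_core_sep hq0 n3 ((P11_sep H U M i j hi hj).2 fun h => hne (by rw [h]))
  have hG1 : ∀ x : ℝ, 0 < x → x ≤ X1 → ‖gg b H (FA f w * LA (ch χ) 0 0 : ArithmeticFunction ℂ) (1 / T) x -
      tc χ / (2 * Real.pi * I * q) * PS H U M q b f (ch χ⁻¹) w (1 / T) x‖ ≤
      C * B * H ^ 4 * U * (M + H) * (1 + 1 / x) := fun x hx hx1 =>
    (hG b f w H U M B (1 / T) x hw hf hwB hb1 hε0 hε1 hx (P17_core_n1 hx1 hU0.le hH0.le hε0.le n1)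
      (P17_core_n2 hx1 hU0.le hH0.le hq0.le n2)).trans (P17_core_mh hc1 hM0 hH0.le hx)
  have hG2 : ∀ x : ℝ, X1 < x → ‖gg b H (FA f w * LA (ch χ) 0 0 : ArithmeticFunction ℂ) (1 / T) x‖ ≤
      2 * B * H ^ 5 * U * T := fun x hx =>
    (P06_crude χ b f w H U B (1 / T) x hw hf hwB hb1 hε0 hε1 (lt_trans (lt_of_lt_of_le one_pos hX1) hx)).trans
      (P17_core_cr hc2 (hX1.trans hx.le) hT0)
  have hmain := P13_main (PJ H U M) (fun j => (((px j : ℚ) : ℝ) / q : ℝ)) (fun j => pc b f (ch χ⁻¹) w j)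
    (fun x => gg b H (FA f w * LA (ch χ) 0 0 : ArithmeticFunction ℂ) (1 / T) x) (tc χ / (2 * Real.pi * I * q)) Δ (1 / T) ω X1
    (C * B * H ^ 4 * U * (M + H)) (2 * B * H ^ 5 * U * T) (B * H ^ 4 * U * M)
    (fun j hj => lt_of_lt_of_le hqUH (hpos j hj)) hΔ hsep
    (fun j hj => n4.trans (hpos j hj))
    (fun j hj => n5.trans (pow_le_pow_left₀ hqUH.le (hpos j hj) 2))
    hΔ1 hω (hω1.trans (by norm_num)) hε0 hε1 hX1 (mul_nonneg hc1 (add_nonneg hM0 hH0.le)) (mul_nonneg hc2 hT0.le) hN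
    hG1 hG2
  have hpoles := P16_poles H U M K0 q b f (ch χ⁻¹) w T X0 ω (B * H ^ 4 * U * M) hb hb1 hch hw hK hq1 hω hω1 n6 hX0 hT0 hN
  exact P17_core_fin B C H U M Δ T X1 _ (ω / q) _ _ _ _ _ q hmain hpoles (sq_nonneg _)
    (pow_le_one₀ (norm_nonneg _) (P17_kappa χ)) (P17_kappa2 χ hχ) (div_nonneg (Real.exp_pos _).le hω.le)
    (div_nonneg (Real.exp_pos _).le hX0.le) hT0.le (zero_le_one.trans hX1) hq1

end OO

end
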