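import Pool.Agent.Lib.MP_0f5a55_nt.OM.K000
import Pool.Agent.Lib.MP_0f5a55_nt.OM.K036
import Pool.Agent.Lib.MP_0f5a55_nt.OM.K039

section

/-!
# Row P3p: the unimodular factor; the averaged cutoff
-/

open Complex MeasureTheory Set Filter Topology
open scoped ComplexConjugate

namespace OO

theorem P3p_aux_pos {H U M : ℕ} {j : ℕ × ℕ × ℕ × ℕ} (hj : j ∈ PJ H U M) :
    (0 : ℝ) < ((px j : ℚ) : ℝ) := by
  unfold PJ at hj
  simp only [Finset.mem_product, Finset.mem_Icc] at hj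
  obtain ⟨⟨h1, _⟩, ⟨h2, _⟩, ⟨h3, _⟩, ⟨h4, _⟩⟩ := hj
  have h5 : (0 : ℚ) < px j := by
    unfold px
    have ha : (0 : ℚ) < ((j.2.2.2 * j.2.1 : ℕ) : ℚ) := by exact_mod_cast Nat.mul_pos h4 h2
    have hb : (0 : ℚ) < ((j.2.2.1 * j.1 : ℕ) : ℚ) := by exact_mod_cast Nat.mul_pos h3 h1
    exact div_pos ha hb
  exact_mod_cast h5

theorem P3p_aux_cpow {x : ℝ} (hx : 0 < x) (y : ℝ) : ‖(x : ℂ) ^ (-((y : ℂ) * I))‖ = 1 := by
  rw [Complex.norm_cpow_eq_rpow_re_of_pos hx]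
  simp

theorem P3p_aux_rho1 {L x : ℝ} (hL : 1 ≤ L) (hx : 0 ≤ Real.log x) :
    |rho L x| ≤ ∑ i : Fin 22, |ci i| := by
  unfold rho
  refine (Finset.abs_sum_le_sum_abs _ _).trans (Finset.sum_le_sum fun i _ => ?_)
  rw [abs_mul]
  have ht := P14b_aux_tau i
  have hx : 0 ≤ tau i * Real.log x / L := by positivity
  calc |ci i| * |LZ.wt (tau i * Real.log x / L)| ≤ |ci i| * 1 :=
        mul_le_mul_of_nonneg_left (P14b_aux_wt _ hx) (abs_nonneg _)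
    _ = |ci i| := mul_one _

theorem P3p_aux_rho2 {L x : ℝ} (hL : 1 ≤ L) (hx : Real.exp (L / 500) < x) : rho L x = 0 := by
  have hu0 : (0 : ℝ) < x := (Real.exp_pos _).trans hx
  have h2 : L / 500 < Real.log x := (Real.lt_log_iff_exp_lt hu0).2 hx
  unfold rho
  refine Finset.sum_eq_zero fun i _ => ?_
  have ht := P14b_aux_tau i
  have h3 : 1 ≤ tau i * Real.log x / L := by
    rw [le_div_iff₀ (by linarith), one_mul]
    have hlog0 : 0 ≤ Real.log x := by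
      have : 0 < L / 500 := by positivity
      linarith
    calc L = 500 * (L / 500) := by ring
      _ ≤ 500 * Real.log x := by linarith
      _ ≤ tau i * Real.log x := mul_le_mul_of_nonneg_right ht hlog0
  rw [P14b_aux_wt0 _ h3, mul_zero]

theorem P3p_aux_shc (D : ℝ) : 1 ≤ Real.exp (shc D) := by
  rw [Real.one_le_exp_iff]
  unfold shc
  split_ifs
  · exact le_refl _
  · positivity

/-- PROOF. On the filter `px j = q y₀` is constant, positive (`j ∈ PJ`), and `‖ξ^(-iy)‖ = 1` (`Complex.norm_cpow_eq_rpow_re_of_pos`). If the filter is empty both sides are 0. -/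
theorem P3_unim (H U M q : ℕ) (hq : 1 ≤ q) (b f1 f2 : ℕ → ℂ) (w : ℝ → ℝ) (y y₀ : ℝ) :
    ‖∑ j ∈ (PJ H U M).filter (fun j => (((px j : ℚ) : ℝ) / q : ℝ) = y₀), pc3 b f1 f2 w y j‖ =
    ‖∑ j ∈ (PJ H U M).filter (fun j => (((px j : ℚ) : ℝ) / q : ℝ) = y₀), pc b f1 f2 w j‖ := by
  have hq0 : (0 : ℝ) < q := by exact_mod_cast hq
  have h1 : ∑ j ∈ (PJ H U M).filter (fun j => (((px j : ℚ) : ℝ) / q : ℝ) = y₀), pc3 b f1 f2 w y j =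
      (∑ j ∈ (PJ H U M).filter (fun j => (((px j : ℚ) : ℝ) / q : ℝ) = y₀), pc b f1 f2 w j) *
        ((q * y₀ : ℝ) : ℂ) ^ (-((y : ℂ) * I)) := by
    rw [Finset.sum_mul]
    refine Finset.sum_congr rfl fun j hj => ?_
    rw [Finset.mem_filter] at hj
    unfold pc3
    have h2 : ((px j : ℚ) : ℝ) = q * y₀ := by
      rw [← hj.2]
      field_simp
    rw [h2]
  rw [h1, norm_mul]
  rcases ((PJ H U M).filter (fun j => (((px j : ℚ) : ℝ) / q : ℝ) = y₀)).eq_empty_or_nonempty with h2 | ⟨j, hj⟩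
  · rw [h2, Finset.sum_empty, norm_zero, zero_mul]
  · rw [Finset.mem_filter] at hj
    have h3 : 0 < (q * y₀ : ℝ) := by
      have h4 := P3p_aux_pos hj.1
      have h5 : ((px j : ℚ) : ℝ) = q * y₀ := by
        rw [← hj.2]
        field_simp
      rw [← h5]
      exact h4
    rw [P3p_aux_cpow h3, mul_one]

theorem P3_unim_norm (H U M : ℕ) (b f1 f2 : ℕ → ℂ) (w : ℝ → ℝ) (y : ℝ) (j : ℕ × ℕ × ℕ × ℕ) (hj : j ∈ PJ H U M) :
    ‖pc3 b f1 f2 w y j‖ = ‖pc b f1 f2 w j‖ := by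
  unfold pc3
  rw [norm_mul, P3p_aux_cpow (P3p_aux_pos hj), mul_one]

/-- PROOF. As P14_rho (OO/P_14b.lean), `rhox D L u = (rho L u + rho L (exp(shc D) u))/2`, `exp(shc D) ≥ 1`. -/
theorem P3_rho : ∃ B : ℝ, 0 < B ∧ ∀ D L : ℝ, 1 ≤ L → (∀ u : ℕ, |rhox D L u| ≤ B) ∧
    ∀ u : ℕ, ⌊Real.exp (L / 500)⌋₊ < u → rhox D L u = 0 := by
  have hS : 0 ≤ ∑ i : Fin 22, |ci i| := Finset.sum_nonneg fun i _ => abs_nonneg _
  refine ⟨∑ i : Fin 22, |ci i| + 1, by linarith, fun D L hL => ⟨fun u => ?_, fun u hu => ?_⟩⟩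
  · have h1 : |rho L u| ≤ ∑ i : Fin 22, |ci i| :=
      P3p_aux_rho1 hL (Real.log_natCast_nonneg u)
    have h2 : |rho L (Real.exp (shc D) * u)| ≤ ∑ i : Fin 22, |ci i| := by
      apply P3p_aux_rho1 hL
      rcases Nat.eq_zero_or_pos u with h0 | h0
      · rw [h0]; simp
      · have h3 : (1 : ℝ) ≤ u := by exact_mod_cast h0
        exact Real.log_nonneg (one_le_mul_of_one_le_of_one_le (P3p_aux_shc D) h3)
    unfold rhox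
    rw [abs_div, abs_of_pos (by norm_num : (0 : ℝ) < 2), div_le_iff₀ (by norm_num)]
    have h3 := abs_add_le (rho L u) (rho L (Real.exp (shc D) * u))
    linarith
  · have h1 : Real.exp (L / 500) < u := Nat.lt_of_floor_lt hu
    have h2 : Real.exp (L / 500) < Real.exp (shc D) * u := by
      have h0 : (0 : ℝ) ≤ u := Nat.cast_nonneg _
      calc Real.exp (L / 500) < u := h1
        _ = 1 * u := (one_mul _).symm
        _ ≤ Real.exp (shc D) * u := mul_le_mul_of_nonneg_right (P3p_aux_shc D) h0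
    unfold rhox
    rw [P3p_aux_rho2 hL h1, P3p_aux_rho2 hL h2]
    norm_num

end OO

end

section

/-!
# Block P with shifts: the core estimate
-/

open Complex MeasureTheory Set Filter Topology
open scoped ComplexConjugate

namespace OO

/-- division of a lower bound -/
theorem P3_core_div {q D t : ℝ} (hq : 0 < q) (h : 1 / D ≤ t) : 1 / (q * D) ≤ t / q := by
  rw [mul_comm, ← div_div]
  exact div_le_div_of_nonneg_right h hq.le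

theorem P3_core_pos (H U M q : ℕ) (hq0 : (0 : ℝ) < q) (j : ℕ × ℕ × ℕ × ℕ) (hj : j ∈ PJ H U M) :
    1 / (q * ((U : ℝ) * H)) ≤ (((px j : ℚ) : ℝ) / q : ℝ) :=
  P3_core_div hq0 (P11_sep H U M j j hj hj).1

theorem P3_core_sep (H U M q : ℕ) (hq0 : (0 : ℝ) < q) (i j : ℕ × ℕ × ℕ × ℕ) (hi : i ∈ PJ H U M)
    (hj : j ∈ PJ H U M) (hne : (((px i : ℚ) : ℝ) / q : ℝ) ≠ (((px j : ℚ) : ℝ) / q : ℝ)) :
    1 / (q * ((U : ℝ) * H) ^ 2) ≤ |(((px i : ℚ) : ℝ) / q : ℝ) - (((px j : ℚ) : ℝ) / q : ℝ)| := by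
  have hne' : px i ≠ px j := fun h => hne (by rw [h])
  rw [← sub_div, abs_div, abs_of_pos hq0]
  exact P3_core_div hq0 ((P11_sep H U M i j hi hj).2 hne')

theorem P3_core_A0 (k V B C R : ℝ) (hk : 0 ≤ k) (hB : 0 < B) (hR : 0 ≤ R) :
    0 < 4 * (k * V ^ 2) * B ^ 2 + (8 * B ^ 2 + 8 * C ^ 2 * B ^ 2 + R) := by
  have h1 : 0 < B ^ 2 := pow_pos hB 2
  have h2 : 0 ≤ 4 * (k * V ^ 2) * B ^ 2 :=
    mul_nonneg (mul_nonneg zero_le_four (mul_nonneg hk (sq_nonneg V))) h1.le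
  have h3 : 0 ≤ 8 * C ^ 2 * B ^ 2 :=
    mul_nonneg (mul_nonneg (by norm_num) (sq_nonneg C)) h1.le
  linarith only [h1, h2, h3, hR]

theorem P3_core_R0 (B : ℝ) (q : ℕ) : 0 ≤ 12 * Real.pi * Real.exp 2 * q * B ^ 2 :=
  mul_nonneg (mul_nonneg (mul_nonneg (mul_nonneg (by norm_num) Real.pi_pos.le) (Real.exp_pos 2).le)
    (Nat.cast_nonneg q)) (sq_nonneg B)

/-- the bound for the error near the poles -/
theorem P3_core_E (C B H U M x h4 : ℝ) (hC : 0 < C) (hB : 0 < B) (hh4 : 0 ≤ h4) (hH : 0 < H) (hU : 0 < U)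
    (hM : 0 ≤ M) (hx : 0 < x) :
    C * B * h4 * U * (M + H / x) ≤ C * B * (h4 * U * (M + H)) * (1 + 1 / x) := by
  have hx' : 0 < 1 / x := one_div_pos.2 hx
  have e0 : H / x = H * (1 / x) := by rw [mul_one_div]
  have e1 : 0 ≤ M * (1 / x) := mul_nonneg hM hx'.le
  have e2 : M + H * (1 / x) ≤ (M + H) * (1 + 1 / x) := by
    have e3 : (M + H) * (1 + 1 / x) = M + H * (1 / x) + (M * (1 / x) + H) := by ring
    rw [e3]
    linarith only [e1, hH]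
  have e4 : C * B * (h4 * U * (M + H)) * (1 + 1 / x) = C * B * h4 * U * ((M + H) * (1 + 1 / x)) := by
    ring
  rw [e4, e0]
  exact mul_le_mul_of_nonneg_left e2
    (mul_nonneg (mul_nonneg (mul_nonneg hC.le hB.le) hh4) hU.le)

/-- the crude bound for large `x` -/
theorem P3_core_D (B h5 U T x : ℝ) (hB : 0 < B) (hh5 : 0 ≤ h5) (hU : 0 < U) (hT : 0 < T) (hx : 1 ≤ x) :
    2 * B * h5 * U / (x * (1 / T)) ≤ 2 * B * (h5 * U * T) := by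
  have hx0 : 0 < x := zero_lt_one.trans_le hx
  rw [div_le_iff₀ (mul_pos hx0 (one_div_pos.2 hT))]
  have e1 : 2 * B * (h5 * U * T) * (x * (1 / T)) = 2 * B * h5 * U * x * (T * (1 / T)) := by ring
  rw [e1, mul_one_div_cancel hT.ne', mul_one]
  exact le_mul_of_one_le_right (mul_nonneg (mul_nonneg (mul_nonneg zero_le_two hB.le) hh5) hU.le) hx

/-- the main term -/
theorem P3_core_S (B C V T r D Y Z S k s : ℝ) (q : ℕ) (hq1 : 1 ≤ q) (hκq : k * s * q = 1 / (4 * Real.pi ^ 2))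
    (hk : 0 ≤ k) (hs : 0 ≤ s) (hT : 0 ≤ T) (hZ : 0 ≤ Z)
    (hS : S ≤ (Real.exp 2 * (3 * Real.pi) * q * T) * (Real.exp 3 * r * D + (B * Y) ^ 2 * Z)) :
    4 * (k * s) * S ≤ (3 / Real.pi * Real.exp 5) * T * r * D +
      (4 * (k * V ^ 2) * B ^ 2 + (8 * B ^ 2 + 8 * C ^ 2 * B ^ 2 + 12 * Real.pi * Real.exp 2 * q * B ^ 2)) *
        (T * (Y ^ 2 * Z)) := by
  have hW0 := mul_nonneg hT (mul_nonneg (sq_nonneg Y) hZ)
  have a2 := mul_le_mul_of_nonneg_left hS (mul_nonneg zero_le_four (mul_nonneg hk hs))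
  refine a2.trans ?_
  rw [P17_alg3 B T r D Y Z q (k * s) hκq]
  refine add_le_add le_rfl ((P17_alg2 B C _ q hq1 hW0).trans (mul_le_mul_of_nonneg_right ?_ hW0))
  exact le_add_of_nonneg_left
    (mul_nonneg (mul_nonneg zero_le_four (mul_nonneg hk (sq_nonneg V))) (sq_nonneg B))

/-- the assembly of the terms -/
theorem P3_core_asm (k V B C R Y G Z5 X1 Δ E1 D0 W S4 I : ℝ) (hk : 0 ≤ k) (hR : 0 ≤ R) (hX1 : 0 ≤ X1)
    (hE1 : 0 ≤ E1)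
    (hI : I ≤ X1 * (4 * k * (B * Y * V / Δ) ^ 2 + 8 * (C * B * G) ^ 2) + (2 * B * Z5) ^ 2 * E1 + S4)
    (hS4 : S4 ≤ D0 + (4 * (k * V ^ 2) * B ^ 2 + (8 * B ^ 2 + 8 * C ^ 2 * B ^ 2 + R)) * W) :
    I ≤ D0 + (4 * (k * V ^ 2) * B ^ 2 + (8 * B ^ 2 + 8 * C ^ 2 * B ^ 2 + R)) *
      (X1 * ((Y / Δ) ^ 2 + G ^ 2) + Z5 ^ 2 * E1 + W) := by
  obtain ⟨A, hA⟩ : ∃ A : ℝ, A = 4 * (k * V ^ 2) * B ^ 2 + (8 * B ^ 2 + 8 * C ^ 2 * B ^ 2 + R) := ⟨_, rfl⟩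
  rw [← hA] at hS4 ⊢
  have b0 : 0 ≤ B ^ 2 := sq_nonneg B
  have b1 : 0 ≤ 4 * (k * V ^ 2) * B ^ 2 :=
    mul_nonneg (mul_nonneg zero_le_four (mul_nonneg hk (sq_nonneg V))) b0
  have b2 : 0 ≤ 8 * C ^ 2 * B ^ 2 := mul_nonneg (mul_nonneg (by norm_num) (sq_nonneg C)) b0
  have c1 : 4 * (k * V ^ 2) * B ^ 2 ≤ A := by linarith only [hA, b0, b2, hR]
  have c2 : 8 * C ^ 2 * B ^ 2 ≤ A := by linarith only [hA, b0, b1, hR]
  have c3 : 4 * B ^ 2 ≤ A := by linarith only [hA, b0, b1, b2, hR]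
  have d1 : 4 * k * (B * Y * V / Δ) ^ 2 = 4 * (k * V ^ 2) * B ^ 2 * (Y / Δ) ^ 2 := by
    rw [mul_right_comm B Y V, mul_div_assoc, mul_pow, mul_pow]
    ring
  have d2 : 8 * (C * B * G) ^ 2 = 8 * C ^ 2 * B ^ 2 * G ^ 2 := by
    rw [mul_pow, mul_pow]
    ring
  have d3 : (2 * B * Z5) ^ 2 * E1 = 4 * B ^ 2 * (Z5 ^ 2 * E1) := by
    rw [mul_pow, mul_pow]
    ring
  rw [d1, d2, d3] at hI
  have e1 := mul_le_mul_of_nonneg_left (add_le_add (mul_le_mul_of_nonneg_right c1 (sq_nonneg (Y / Δ)))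
    (mul_le_mul_of_nonneg_right c2 (sq_nonneg G))) hX1
  have e2 := mul_le_mul_of_nonneg_right c3 (mul_nonneg (sq_nonneg Z5) hE1)
  refine hI.trans ((add_le_add (add_le_add e1 e2) hS4).trans (le_of_eq ?_))
  ring

/-- the sum over the poles -/
theorem P3_core_un (H U M q : ℕ) (hq1 : 1 ≤ q) (b f1 f2 : ℕ → ℂ) (w : ℝ → ℝ) (y : ℝ) (g : ℝ → ℝ) :
    ∑ y₀ ∈ (PJ H U M).image (fun j => (((px j : ℚ) : ℝ) / q : ℝ)),
      ‖∑ j ∈ (PJ H U M).filter (fun j => (((px j : ℚ) : ℝ) / q : ℝ) = y₀), pc3 b f1 f2 w y j‖ ^ 2 * g y₀ =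
      ∑ y₀ ∈ (PJ H U M).image (fun j => (((px j : ℚ) : ℝ) / q : ℝ)),
      ‖∑ j ∈ (PJ H U M).filter (fun j => (((px j : ℚ) : ℝ) / q : ℝ) = y₀), pc b f1 f2 w j‖ ^ 2 * g y₀ :=
  Finset.sum_congr rfl fun y₀ _ => by rw [P3_unim H U M q hq1 b f1 f2 w y y₀]

theorem P3_core_norm (H U M : ℕ) (b f1 f2 : ℕ → ℂ) (w : ℝ → ℝ) (B : ℝ) (hb : ∀ h, ‖b h‖ ≤ h)
    (hf1 : ∀ n, ‖f1 n‖ ≤ 1) (hf2 : ∀ n, ‖f2 n‖ ≤ 1) (hw : ∀ u : ℕ, |w u| ≤ B) :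
    ∑ j ∈ PJ H U M, ‖pc b f1 f2 w j‖ ≤ B * ((H : ℝ) ^ 4 * U * M) := by
  have h := P11_norm H U M b f1 f2 w B hb hf1 hf2 hw
  rw [mul_assoc, mul_assoc, ← mul_assoc ((H : ℝ) ^ 4)] at h
  exact h

/-- the core estimate -/
theorem P3_core {q : ℕ} [NeZero q] (χ : DirichletCharacter ℂ q) (hχ : χ.IsPrimitive) (y : ℝ) (B : ℝ) (hB : 0 < B) : ∃ A : ℝ, 0 < A ∧
    ∀ (b : ArithmeticFunction ℂ) (f : ℕ → ℂ) (w : ℝ → ℝ) (H U M K0 : ℕ) (T ω Δ X0 X1 : ℝ),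
      (∀ h, H < h → b h = 0) → (∀ h, ‖b h‖ ≤ h) → (∀ n, ‖f n‖ ≤ 1) → (∀ u : ℕ, U < u → w u = 0) →
      (∀ u : ℕ, |w u| ≤ B) →
      1 ≤ H → 1 ≤ U → U * H ≤ K0 → 1 ≤ T → 0 < ω → ω ≤ 1 / 2 → 0 < Δ → Δ ≤ 1 → 0 < X0 → 1 ≤ X1 →
      X1 * U * H * (1 / T) ≤ 1 → q * (X1 * U * H) ≤ M - 1 / 2 →
      2 * Δ ≤ 1 / (q * ((U : ℝ) * H) ^ 2) → 2 * Δ ≤ 1 / (q * ((U : ℝ) * H)) → 2 * Δ ≤ (1 / (q * ((U : ℝ) * H))) ^ 2 →
      X0 * (U * H) ≤ M →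
      (∫ x in Ioi (0 : ℝ), Wt 1 ω x * ‖gg b H (FA f w * LA (chx χ y) 0 0 : ArithmeticFunction ℂ) (1 / T) x‖ ^ 2) ≤
        (3 / Real.pi * Real.exp 5) * T * (ω / q) * DS K0 (LA (chx χ⁻¹ (-y)) 0 0 * cj b : ArithmeticFunction ℂ)
          (FA f w * b : ArithmeticFunction ℂ) (fun y => Psi 1 (ω / q) (ω / q * y)) +
        A * (X1 * (((H : ℝ) ^ 4 * U * M / Δ) ^ 2 + ((H : ℝ) ^ 4 * U * (M + H)) ^ 2) +
          ((H : ℝ) ^ 5 * U * T) ^ 2 * (Real.exp (-(ω * X1)) / ω) +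
          T * (((H : ℝ) ^ 4 * U * M) ^ 2 * (Real.exp (-(ω * X0 / q)) / X0))) := by
  obtain ⟨C, hC, hG⟩ := P3_g_main χ hχ y
  have hq1 : 1 ≤ q := Nat.pos_of_ne_zero (NeZero.ne q)
  have hq0 : (0 : ℝ) < q := Nat.cast_pos.2 hq1
  have hκq : ‖kap3 χ y‖ ^ 2 * S3 y * q = 1 / (4 * Real.pi ^ 2) := P3_kap_norm χ y (P18_norm χ hχ)
  obtain ⟨V, hV⟩ : ∃ V : ℝ, V = Real.exp (Real.pi * |y| / 2) := ⟨_, rfl⟩
  have hch : ∀ n, ‖chx χ⁻¹ (-y) n‖ ≤ 1 := P3_chx_norm χ⁻¹ (-y)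
  have hk : 0 ≤ ‖kap3 χ y‖ ^ 2 := sq_nonneg _
  have hR0 := P3_core_R0 B q
  refine ⟨4 * (‖kap3 χ y‖ ^ 2 * V ^ 2) * B ^ 2 + (8 * B ^ 2 + 8 * C ^ 2 * B ^ 2 + 12 * Real.pi * Real.exp 2 * q * B ^ 2),
    P3_core_A0 _ _ _ _ _ hk hB hR0, ?_⟩
  intro b f w H U M K0 T ω Δ X0 X1 hb hb1 hf hw hwB hH hU hK hT hω hω1 hΔ hΔ1 hX0 hX1 n1 n2 n3 n4 n5 n6
  have hH0 : (0 : ℝ) < H := Nat.cast_pos.2 hH
  have hU0 : (0 : ℝ) < U := Nat.cast_pos.2 hU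
  have hT0 : 0 < T := lt_of_lt_of_le one_pos hT
  have hε0 : 0 < 1 / T := one_div_pos.2 hT0
  have hε1 : 1 / T ≤ 1 := (div_le_one hT0).2 hT
  have hM0 : (0 : ℝ) ≤ M := Nat.cast_nonneg M
  have hqUH : 0 < 1 / (q * ((U : ℝ) * H)) := one_div_pos.2 (mul_pos hq0 (mul_pos hU0 hH0))
  have hH4 : (0 : ℝ) ≤ (H : ℝ) ^ 4 := pow_nonneg hH0.le 4
  have hH5 : (0 : ℝ) ≤ (H : ℝ) ^ 5 := pow_nonneg hH0.le 5
  have hN := P3_core_norm H U M b f (chx χ⁻¹ (-y)) w B hb1 hf hch hwB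
  have hN3 : ∑ j ∈ PJ H U M, ‖pc3 b f (chx χ⁻¹ (-y)) w y j‖ ≤ B * ((H : ℝ) ^ 4 * U * M) :=
    (Finset.sum_congr rfl fun j hj => P3_unim_norm H U M b f (chx χ⁻¹ (-y)) w y j hj).trans_le hN
  have hpos := P3_core_pos H U M q hq0
  have hmain := P3_int_main (PJ H U M) (fun j => (((px j : ℚ) : ℝ) / q : ℝ)) (fun j => pc3 b f (chx χ⁻¹ (-y)) w y j)
    (fun x => gg b H (FA f w * LA (chx χ y) 0 0 : ArithmeticFunction ℂ) (1 / T) x) (kap3 χ y) y Δ (1 / T) ω X1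
    (C * B * ((H : ℝ) ^ 4 * U * (M + H))) (2 * B * ((H : ℝ) ^ 5 * U * T)) (B * ((H : ℝ) ^ 4 * U * M))
    (fun j hj => hqUH.trans_le (hpos j hj)) hΔ
    (fun i hi j hj hne => n3.trans (P3_core_sep H U M q hq0 i j hi hj hne))
    (fun j hj => n4.trans (hpos j hj))
    (fun j hj => n5.trans (pow_le_pow_left₀ hqUH.le (hpos j hj) 2))
    hΔ1 hω (hω1.trans (by norm_num)) hε0 hε1 hX1
    (mul_nonneg (mul_nonneg hC.le hB.le) (mul_nonneg (mul_nonneg hH4 hU0.le) (add_nonneg hM0 hH0.le)))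
    (mul_nonneg (mul_nonneg zero_le_two hB.le) (mul_nonneg (mul_nonneg hH5 hU0.le) hT0.le)) hN3
    (fun x hx hx1 => (hG b f w H U M B (1 / T) x hw hf hwB hb1 hε0 hε1 hx
        ((mul_le_mul_of_nonneg_left (mul_le_mul_of_nonneg_right
          (mul_le_mul_of_nonneg_right hx1 hU0.le) hH0.le) hq0.le).trans n2)).trans
      (P3_core_E C B H U M x _ hC hB hH4 hH0 hU0 hM0 hx))
    (fun x hx => (P3_crude_g χ y b f w H U B (1 / T) x hw hf hwB hb1 hε0 hε1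
      (zero_lt_one.trans (hX1.trans_lt hx))).trans
      (P3_core_D B _ U T x hB hH5 hU0 hT0 (hX1.trans hx.le)))
  rw [← hV, P3_core_un H U M q hq1 b f (chx χ⁻¹ (-y)) w y
    (fun y₀ => Real.exp 2 * Wt 1 ω y₀ * (3 * Real.pi / (y₀ * (1 / T))))] at hmain
  have hpoles := P16_poles H U M K0 q b f (chx χ⁻¹ (-y)) w T X0 ω (B * ((H : ℝ) ^ 4 * U * M)) hb hb1 hch hw hK hq1 hω hω1
    n6 hX0 hT0 hN
  have hS30 : 0 ≤ S3 y := inv_nonneg.2 (sq_nonneg _)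
  exact P3_core_asm _ V B C _ _ _ _ X1 Δ _ _ _ _ _ hk hR0 (zero_le_one.trans hX1)
    (div_nonneg (Real.exp_pos _).le hω.le) hmain
    (P3_core_S B C V T (ω / q) _ _ _ _ _ _ q hq1 hκq hk hS30 hT0.le (div_nonneg (Real.exp_pos _).le hX0.le) hpoles)

end OO

end
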