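import Pool.Agent.Lib.MP_0f5a55_nt.OM.K000
import Pool.Agent.Lib.MP_0f5a55_nt.OM.K040
import Pool.Agent.Lib.MP_0f5a55_nt.OM.K041
import Pool.Agent.Lib.MP_0f5a55_nt.OM.K042

/-!
# Block P with shifts, final theorem
-/

open Complex MeasureTheory Set Filter Topology
open scoped ComplexConjugate

namespace OO

/-- Block P with shifts, ABSOLUTE constant `C` (`T0` depends on the characters and the shifts). -/
theorem P_main_abs3 : ∃ C : ℝ, 0 < C ∧ ∀ (q1 q2 : ℕ) [NeZero q1] [NeZero q2] (χ1 : DirichletCharacter ℂ q1)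
    (χ2 : DirichletCharacter ℂ q2) (y1 y2 : ℝ), χ1.IsPrimitive → χ2.IsPrimitive → ∃ T0 : ℝ, 2 ≤ T0 ∧
      ∀ T l ω : ℝ, T0 ≤ T →
      dl / 2 * Real.log T ≤ l → l ≤ dl * Real.log T → T ^ (-(6 * dl)) ≤ ω → ω ≤ 1 / 2 →
      (∫ x in Ioi (0 : ℝ), Wt 1 ω x * ‖gg (beta (chx χ1 y1) (chx χ2 y2) l) (Hl l)
        (FA (chx χ1 y1) (rhox (y1 - y2) (Real.log T)) * LA (chx χ2 y2) 0 0 : ArithmeticFunction ℂ) (1 / T) x‖ ^ 2) ≤
        C * T * (ω / q2) * DS ⌊T ^ (1 / 500 + 2 * dl : ℝ)⌋₊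
          (LA (chx χ2⁻¹ (-y2)) 0 0 * cj (beta (chx χ1 y1) (chx χ2 y2) l) : ArithmeticFunction ℂ)
          (FA (chx χ1 y1) (rhox (y1 - y2) (Real.log T)) * beta (chx χ1 y1) (chx χ2 y2) l : ArithmeticFunction ℂ)
          (fun y => Psi 1 (ω / q2) (ω / q2 * y)) + T ^ (3 / 4 : ℝ) := by
  have hpi := Real.pi_pos
  refine ⟨3 / Real.pi * Real.exp 5, by positivity, ?_⟩
  intro q1 q2 _ _ χ1 χ2 y1 y2 h1 h2
  have hq1 : 1 ≤ q2 := Nat.pos_of_ne_zero (NeZero.ne q2)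
  have hq0 : (0 : ℝ) < q2 := by exact_mod_cast hq1
  obtain ⟨B, hB, hρ⟩ := P3_rho
  obtain ⟨A, hA, hcore⟩ := P3_core χ2 h2 y2 B hB
  obtain ⟨Ta, hTa, ha⟩ := P15_a q2 hq1
  obtain ⟨Tb, hTb, hb⟩ := P15_b q2 hq1 A hA
  refine ⟨max (max Ta Tb) (Real.exp 1), hTa.trans ((le_max_left _ _).trans (le_max_left _ _)), ?_⟩
  intro T l ω hT hl1 hl2 hω hω1
  have hTa' : Ta ≤ T := ((le_max_left _ _).trans (le_max_left _ _)).trans hT
  have hTb' : Tb ≤ T := ((le_max_right _ _).trans (le_max_left _ _)).trans hT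
  have hTe : Real.exp 1 ≤ T := (le_max_right _ _).trans hT
  have hT2 : 2 ≤ T := hTa.trans hTa'
  have hT0 : 0 < T := by linarith
  have hlog : 1 ≤ Real.log T := by
    rw [Real.le_log_iff_exp_le hT0]; exact hTe
  have hdl : (0 : ℝ) < dl := by unfold dl; norm_num
  have hl : 0 < l := lt_of_lt_of_le (by positivity) hl1
  have hω0 : 0 < ω := lt_of_lt_of_le (by positivity) hω
  obtain ⟨hβ1, hβ2⟩ := P14_beta (chx χ1 y1) (chx χ2 y2) (P3_chx_norm χ1 y1) (P3_chx_norm χ2 y2) l hl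
  obtain ⟨hρ1, hρ2⟩ := hρ (y1 - y2) (Real.log T) hlog
  have hH1 : 1 ≤ Hl l := by
    unfold Hl
    refine Nat.le_floor ?_
    simpa using Real.one_le_exp (by positivity : (0 : ℝ) ≤ 2 * l)
  have hU1 : 1 ≤ ⌊Real.exp (Real.log T / 500)⌋₊ := by
    refine Nat.le_floor ?_
    simpa using Real.one_le_exp (by positivity : (0 : ℝ) ≤ Real.log T / 500)
  have hHT : ((Hl l : ℕ) : ℝ) ≤ T ^ (2 * dl) := by
    unfold Hl
    refine (Nat.floor_le (Real.exp_pos _).le).trans ?_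
    rw [Real.rpow_def_of_pos hT0]
    refine Real.exp_le_exp.2 ?_
    nlinarith
  have hUT : ((⌊Real.exp (Real.log T / 500)⌋₊ : ℕ) : ℝ) ≤ T ^ (1 / 500 : ℝ) := by
    refine (Nat.floor_le (Real.exp_pos _).le).trans ?_
    rw [Real.rpow_def_of_pos hT0]
    refine Real.exp_le_exp.2 ?_
    linarith
  obtain ⟨n1, n2, n3, n4, n5, n6, n7⟩ := ha T (Hl l) ⌊Real.exp (Real.log T / 500)⌋₊ ⌈T ^ (3 / 1000 : ℝ)⌉₊ hTa' hH1 hU1 hHT hUT rfl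
  have herr := hb T ω (Hl l) ⌊Real.exp (Real.log T / 500)⌋₊ ⌈T ^ (3 / 1000 : ℝ)⌉₊ hTb' hH1 hU1 hHT hUT rfl hω
  have hT1 : 1 ≤ T := by linarith
  have hX1 : 1 ≤ T ^ (7 * dl) := Real.one_le_rpow hT1 (by positivity)
  have hΔ1 : T ^ (-(1 / 100) : ℝ) ≤ 1 := Real.rpow_le_one_of_one_le_of_nonpos hT1 (by norm_num)
  have h := hcore (beta (chx χ1 y1) (chx χ2 y2) l) (chx χ1 y1) (rhox (y1 - y2) (Real.log T)) (Hl l) ⌊Real.exp (Real.log T / 500)⌋₊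
    ⌈T ^ (3 / 1000 : ℝ)⌉₊ ⌊T ^ (1 / 500 + 2 * dl : ℝ)⌋₊ T ω (T ^ (-(1 / 100) : ℝ)) (T ^ (1 / 2000 : ℝ)) (T ^ (7 * dl))
    hβ2 hβ1 (P3_chx_norm χ1 y1) hρ2 hρ1 hH1 hU1 n7 hT1 hω0 hω1 (by positivity) hΔ1 (by positivity) hX1
    n1 n2 n3 n4 n5 n6
  linarith [h, herr]

end OO
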