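import Pool.Agent.Lib.MP_0f5a55_nt.OM.K000
import Pool.Agent.Lib.MP_0f5a55_nt.OM.K038
import Pool.Agent.Lib.MP_0f5a55_nt.OM.K043

open Complex MeasureTheory Set Filter Topology
open scoped ComplexConjugate

namespace OO

/-- The part with one small variable. -/
theorem EN_P_abs3 : ∃ C : ℝ, 0 < C ∧ ∀ (q1 q2 : ℕ) [NeZero q1] [NeZero q2] (χ1 : DirichletCharacter ℂ q1)
    (χ2 : DirichletCharacter ℂ q2) (y1 y2 : ℝ), χ1.IsPrimitive → χ2.IsPrimitive → NeX χ1 y1 χ2 y2 → ∃ T0 : ℝ, 2 ≤ T0 ∧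
    ∀ T l Y : ℝ,
      T0 ≤ T → dl / 2 * Real.log T ≤ l → l ≤ dl * Real.log T → (Real.log T) ^ (3 / 4 : ℝ) ≤ Y → Y ≤ 6 * dl * Real.log T →
      (∫ x in Ioi (0 : ℝ), Wt 1 (Real.exp (-Y)) x * ‖gg (beta (chx χ1 y1) (chx χ2 y2) l) (Hl l)
        (FA (chx χ1 y1) (rhox (y1 - y2) (Real.log T)) * LA (chx χ2 y2) 0 0 : ArithmeticFunction ℂ) (1 / T) x‖ ^ 2) ≤
        C * T * (Y / Real.log T) * (1 + Real.log (Real.log T / Y)) + T ^ (3 / 4 : ℝ) := by
  obtain ⟨C1, hC1, hPP⟩ := P_main_abs3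
  obtain ⟨C2, hC2, hDD⟩ := DS_inst_abs3
  refine ⟨C1 * C2 * 3 * 2, by positivity, ?_⟩
  intro q1 q2 _ _ χ1 χ2 y1 y2 h1 h2 hne
  obtain ⟨T1, hT1, hP⟩ := hPP q1 q2 χ1 χ2 y1 y2 h1 h2
  obtain ⟨L0, hL0, hDS⟩ := hDD q1 q2 χ1 χ2 y1 y2 hne
  have hq2 : (1 : ℝ) ≤ (q2 : ℝ) := by exact_mod_cast NeZero.one_le
  have hq2' : (0 : ℝ) < (q2 : ℝ) := by linarith only [hq2]
  have hlq : 0 ≤ Real.log (q2 : ℝ) := Real.log_nonneg hq2
  refine ⟨max (max T1 (Real.exp L0)) (Real.exp (2 * (1 + Real.log q2) ^ 2)),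
    le_trans hT1 (le_trans (le_max_left _ _) (le_max_left _ _)), ?_⟩
  intro T l Y hT hl1 hl2 hYY hY2
  have hTT1 : T1 ≤ T := le_trans (le_trans (le_max_left _ _) (le_max_left _ _)) hT
  have hTL0 : Real.exp L0 ≤ T := le_trans (le_trans (le_max_right _ _) (le_max_left _ _)) hT
  have hTq : Real.exp (2 * (1 + Real.log q2) ^ 2) ≤ T := le_trans (le_max_right _ _) hT
  have hTpos : 0 < T := lt_of_lt_of_le (Real.exp_pos _) hTL0
  set L := Real.log T with hLdef
  have hLL0 : L0 ≤ L := (Real.le_log_iff_exp_le hTpos).mpr hTL0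
  have hLq' : 2 * (1 + Real.log q2) ^ 2 ≤ L := (Real.le_log_iff_exp_le hTpos).mpr hTq
  have hLq : 2 * Real.log q2 ≤ L := by nlinarith
  have hL1 : 1 ≤ L := by nlinarith
  have hYq' : 1 + Real.log q2 ≤ L ^ (3 / 4 : ℝ) := by
    have e1 : (1 + Real.log q2) ≤ Real.sqrt L := by
      apply Real.le_sqrt_of_sq_le
      nlinarith
    have e2 : Real.sqrt L ≤ L ^ (3 / 4 : ℝ) := by
      rw [Real.sqrt_eq_rpow]
      exact Real.rpow_le_rpow_of_exponent_le hL1 (by norm_num)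
    exact e1.trans e2
  have hYq1 : 1 + Real.log q2 ≤ Y := hYq'.trans hYY
  have hYq : Real.log q2 ≤ Y := by linarith
  have hY1 : 1 ≤ Y := by linarith
  have hLpos : 0 < L := by linarith only [hL0, hLL0]
  have hTexp : Real.exp L = T := Real.exp_log hTpos
  have hdl : dl = 1 / 10 ^ 10 := rfl
  have hdl0 : 0 < dl := by rw [hdl]; norm_num
  have hdl1 : 6 * dl ≤ 1 / 2 := by rw [hdl]; norm_num
  -- the smoothing parameter
  have hω1 : T ^ (-(6 * dl)) ≤ Real.exp (-Y) := by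
    rw [Real.rpow_def_of_pos hTpos]
    apply Real.exp_le_exp.mpr
    rw [← hLdef]
    nlinarith only [hY2]
  have hω2 : Real.exp (-Y) ≤ 1 / 2 := by
    have h3 : Real.exp (-Y) ≤ Real.exp (-1) := Real.exp_le_exp.mpr (by linarith only [hY1])
    have h4 : Real.exp (-1 : ℝ) ≤ 1 / 2 := by
      rw [Real.exp_neg, one_div]
      apply inv_anti₀ (by norm_num)
      have := Real.add_one_le_exp (1 : ℝ)
      linarith only [this]
    linarith only [h3, h4]
  have hmain := hP T l (Real.exp (-Y)) hTT1 hl1 hl2 hω1 hω2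
  -- Y'
  set Y' := Y + Real.log q2 with hY'def
  have hY'1 : 1 ≤ Y' := by linarith only [hY1, hlq]
  have hY'L : Y' ≤ L := by
    have h5 : 6 * dl * L ≤ 1 / 2 * L := mul_le_mul_of_nonneg_right hdl1 hLpos.le
    linarith only [hYq, hY2, h5]
  have hPexp : Real.exp (-Y) / q2 = Real.exp (-Y') := by
    rw [hY'def, neg_add, Real.exp_add, Real.exp_neg (Real.log _), Real.exp_log hq2', div_eq_mul_inv]
  have hK : ⌊Real.exp (L / 500 + 2 * l)⌋₊ ≤ ⌊T ^ (1 / 500 + 2 * dl : ℝ)⌋₊ := by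
    apply Nat.floor_mono
    rw [Real.rpow_def_of_pos hTpos]
    apply Real.exp_le_exp.mpr
    rw [← hLdef]
    nlinarith only [hl2]
  have hD := ((hDS L l (Real.exp (-Y')) hLL0 hl1 hl2 (Real.exp_pos _)).1 Y' (by linarith only [hlq, hYY]) hY'L).2 _ hK
  rw [hPexp] at hmain
  refine hmain.trans ?_
  have hlogY' : 0 ≤ Real.log (L / Y') := Real.log_nonneg (by rw [le_div_iff₀ (by linarith only [hY1, hlq])]; linarith only [hY'L])
  have hlogle : Real.log (L / Y') ≤ Real.log (L / Y) := by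
    apply Real.log_le_log (by positivity)
    apply div_le_div_of_nonneg_left hLpos.le (by linarith only [hY1]) (by linarith only [hlq])
  have hpow : Real.exp (-Y') * (Real.exp (-Y')) ^ (-1 - 1 / L) ≤ 3 := by
    rw [← Real.exp_mul, ← Real.exp_add]
    have h6 : -Y' + -Y' * (-1 - 1 / L) = Y' / L := by
      field_simp
      ring
    rw [h6]
    have h7 : Y' / L ≤ 1 := by rw [div_le_one hLpos]; exact hY'L
    have h8 : Real.exp (Y' / L) ≤ Real.exp 1 := Real.exp_le_exp.mpr h7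
    have h9 := Real.exp_one_lt_d9
    linarith only [h8, h9]
  have hYY : Y' / L ≤ 2 * (Y / L) := by
    rw [← mul_div_assoc]
    apply div_le_div_of_nonneg_right _ hLpos.le
    rw [hY'def]
    linarith only [hYq]
  refine add_le_add ?_ le_rfl
  have hexp0 : 0 < Real.exp (-Y') := Real.exp_pos _
  refine (mul_le_mul_of_nonneg_left hD (by positivity)).trans ?_
  have hY'L0 : 0 ≤ Y' / L := by positivity
  have hYL0 : 0 ≤ Y / L := by positivity
  calc C1 * T * Real.exp (-Y') * (C2 * (Real.exp (-Y')) ^ (-1 - 1 / L) * (Y' / L) * (1 + Real.log (L / Y')))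
      = (C1 * C2 * T) * ((Real.exp (-Y') * (Real.exp (-Y')) ^ (-1 - 1 / L)) * ((Y' / L) * (1 + Real.log (L / Y')))) := by
          ring
    _ ≤ (C1 * C2 * T) * (3 * ((2 * (Y / L)) * (1 + Real.log (L / Y)))) := by
          apply mul_le_mul_of_nonneg_left _ (by positivity)
          apply mul_le_mul hpow _ (by positivity) (by norm_num)
          apply mul_le_mul hYY (by linarith only [hlogle]) (by linarith only [hlogY']) (by positivity)
    _ = C1 * C2 * 3 * 2 * T * (Y / L) * (1 + Real.log (L / Y)) := by ring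

end OO
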