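import Pool.Agent.Lib.MP_0f5a55_nt.OM.K000
import Pool.Agent.Lib.MP_0f5a55_nt.OM.K038
import Pool.Agent.Lib.MP_0f5a55_nt.OM.K042

section

/-! # Row OE17: trivial bound of the shifted sums -/

open Complex MeasureTheory Set Filter Topology
open scoped ComplexConjugate

namespace OO

/-- Trivial bound of the shifted convolution sums.
PROOF. The term of index `n` is `0` for `n = 0` (`lam 0 = 0`). For `n ≥ 1` and `a ∣ b n + r`, `n1 = (b n + r)/a`: `n1 ≤ (b+r) n`, `n1 ≥ n/a` (as `a n1 = b n + r ≥ n`), so the norm is at most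
`B^2 (b+r) n^2 exp (-(‖κ‖ n/(2a)))` (`κ.re n1 ≥ (‖κ‖/2)(n/a)`), and `exp (-y) ≤ 24/y^4` (`E_exp_neg_le`): at most
`B^2 (b+r) * 24 * (2a)^4 / ‖κ‖^4 / n^2`. Sum: `≤ 768 B^2 (b+r) a^4 / ‖κ‖^4`·const (`∑ 1/n^2 ≤ 2`; any constant is fine, e.g. `∑' 1/n^2`), `(b+r) a^4 ≤ 2 (a b r)^12`,
`1/‖κ‖^4 ≤ (1+1/‖κ‖)^5`. -/
theorem SS_trivial (B : ℝ) (hB : 0 < B) : ∃ C : ℝ, 0 < C ∧ ∀ lam : ArithmeticFunction ℂ, (∀ n, ‖lam n‖ ≤ B * n) →
    ∀ a b r : ℕ, 1 ≤ a → 1 ≤ b → 1 ≤ r → ∀ κ : ℂ, κ ≠ 0 → ‖κ‖ / 2 ≤ κ.re →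
      ‖SS lam a b r κ‖ ≤ C * ((a * b * r : ℕ) : ℝ) ^ 12 * (1 + 1 / ‖κ‖) ^ (5 : ℝ) := by
  have hsum : Summable (fun n : ℕ => 1 / (n : ℝ) ^ 2) := Real.summable_one_div_nat_pow.2 (by norm_num)
  have hS0 : 0 ≤ ∑' n : ℕ, 1 / (n : ℝ) ^ 2 := tsum_nonneg fun n => by positivity
  refine ⟨768 * B ^ 2 * (1 + ∑' n : ℕ, 1 / (n : ℝ) ^ 2), by positivity, ?_⟩
  intro lam hlam a b r ha hb hr κ hκ hre
  have hκ0 : 0 < ‖κ‖ := norm_pos_iff.2 hκ
  have ha' : (1 : ℝ) ≤ a := by exact_mod_cast ha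
  have hb' : (1 : ℝ) ≤ b := by exact_mod_cast hb
  have hr' : (1 : ℝ) ≤ r := by exact_mod_cast hr
  set K : ℝ := B ^ 2 * (b + r) * 24 * (2 * a) ^ 4 / ‖κ‖ ^ 4 with hK
  have hK0 : 0 ≤ K := by positivity
  have hterm : ∀ n : ℕ, ‖(if a ∣ b * n + r then
      lam ((b * n + r) / a) * conj (lam n) * exp (-(κ * (((b * n + r) / a : ℕ) : ℂ))) else 0)‖ ≤
      K * (1 / (n : ℝ) ^ 2) := by
    intro n
    rcases Nat.eq_zero_or_pos n with h0 | hn
    · subst h0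
      have : (lam 0 : ℂ) = 0 := lam.map_zero
      simp [this]
    by_cases hd : a ∣ b * n + r
    swap
    · rw [if_neg hd, norm_zero]
      positivity
    rw [if_pos hd]
    obtain ⟨n1, hn1⟩ := hd
    have hq : (b * n + r) / a = n1 := by rw [hn1, Nat.mul_div_cancel_left _ ha]
    rw [hq, norm_mul, norm_mul, RCLike.norm_conj, Complex.norm_exp]
    have hn' : (1 : ℝ) ≤ n := by exact_mod_cast hn
    have hn1R : (a : ℝ) * n1 = b * n + r := by exact_mod_cast hn1.symm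
    have hn1le : (n1 : ℝ) ≤ (b + r) * n := by
      have h1 : (n1 : ℝ) ≤ a * n1 := le_mul_of_one_le_left (Nat.cast_nonneg n1) ha'
      have h2 : (r : ℝ) ≤ r * n := le_mul_of_one_le_right (zero_le_one.trans hr') hn'
      rw [add_mul]
      exact h1.trans (hn1R.le.trans (add_le_add le_rfl h2))
    have hn1ge : (n : ℝ) / a ≤ n1 := by
      rw [div_le_iff₀ (zero_lt_one.trans_le ha'), mul_comm, hn1R]
      have h1 : (n : ℝ) ≤ b * n := le_mul_of_one_le_left (zero_le_one.trans hn') hb'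
      exact h1.trans (le_add_of_nonneg_right (zero_le_one.trans hr'))
    have hre' : (-(κ * (n1 : ℂ))).re = -(κ.re * n1) := by simp
    rw [hre']
    have hy : 0 < ‖κ‖ / 2 * (n / a) := by positivity
    have hexp : Real.exp (-(κ.re * n1)) ≤ 24 / (‖κ‖ / 2 * (n / a)) ^ 4 := by
      have h1 : Real.exp (-(κ.re * n1)) ≤ Real.exp (-(‖κ‖ / 2 * (n / a))) := by
        apply Real.exp_le_exp.2
        have : ‖κ‖ / 2 * (n / a) ≤ κ.re * n1 :=
          mul_le_mul hre hn1ge (by positivity) (le_trans (by positivity) hre)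
        exact neg_le_neg this
      have h2 := E_exp_neg_le hy 4
      have h3 : ((4 : ℕ).factorial : ℝ) = 24 := by norm_num [Nat.factorial]
      rw [h3] at h2
      exact h1.trans h2
    calc ‖lam n1‖ * ‖lam n‖ * Real.exp (-(κ.re * n1))
        ≤ (B * n1) * (B * n) * (24 / (‖κ‖ / 2 * (n / a)) ^ 4) := by
          apply mul_le_mul (mul_le_mul (hlam n1) (hlam n) (norm_nonneg _) (by positivity)) hexp
            (Real.exp_nonneg _) (by positivity)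
      _ ≤ (B * ((b + r) * n)) * (B * n) * (24 / (‖κ‖ / 2 * (n / a)) ^ 4) := by gcongr
      _ = K * (1 / (n : ℝ) ^ 2) := by
          rw [hK]
          field_simp
  have hsK : Summable (fun n : ℕ => K * (1 / (n : ℝ) ^ 2)) := hsum.mul_left K
  have h1 : ‖SS lam a b r κ‖ ≤ ∑' n : ℕ, K * (1 / (n : ℝ) ^ 2) := by
    unfold SS
    exact tsum_of_norm_bounded hsK.hasSum hterm
  rw [tsum_mul_left] at h1
  refine h1.trans ?_
  have hbr : ((b : ℝ) + r) ≤ 2 * (b * r) := by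
    have h2 : (b : ℝ) ≤ b * r := le_mul_of_one_le_right (zero_le_one.trans hb') hr'
    have h3 : (r : ℝ) ≤ b * r := le_mul_of_one_le_left (zero_le_one.trans hr') hb'
    linarith only [h2, h3]
  have hcast : ((a * b * r : ℕ) : ℝ) = a * (b * r) := by push_cast; ring
  have hbr1 : (1 : ℝ) ≤ b * r := one_le_mul_of_one_le_of_one_le hb' hr'
  have h2 : ((b : ℝ) + r) * (a : ℝ) ^ 4 ≤ 2 * ((a * b * r : ℕ) : ℝ) ^ 12 := by
    rw [hcast, mul_pow]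
    have e1 : (b : ℝ) * r ≤ (b * r) ^ 12 := by
      calc (b : ℝ) * r = (b * r) ^ 1 := (pow_one _).symm
        _ ≤ (b * r) ^ 12 := pow_le_pow_right₀ hbr1 (by norm_num)
    have e2 : (a : ℝ) ^ 4 ≤ a ^ 12 := pow_le_pow_right₀ ha' (by norm_num)
    calc ((b : ℝ) + r) * (a : ℝ) ^ 4 ≤ (2 * (b * r)) * (a : ℝ) ^ 4 := by gcongr
      _ ≤ (2 * (b * r) ^ 12) * (a : ℝ) ^ 12 := by gcongr
      _ = 2 * (a ^ 12 * (b * r) ^ 12) := by ring
  have h3 : 1 / ‖κ‖ ^ 4 ≤ (1 + 1 / ‖κ‖) ^ (5 : ℝ) := by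
    have e1 : (1 + 1 / ‖κ‖) ^ (5 : ℝ) = (1 + 1 / ‖κ‖) ^ 5 := by
      rw [show (5 : ℝ) = ((5 : ℕ) : ℝ) by norm_num, Real.rpow_natCast]
    rw [e1]
    have e2 : 0 ≤ 1 / ‖κ‖ := by positivity
    have e3 : (1 : ℝ) ≤ 1 + 1 / ‖κ‖ := le_add_of_nonneg_right e2
    calc 1 / ‖κ‖ ^ 4 = (1 / ‖κ‖) ^ 4 := by rw [div_pow, one_pow]
      _ ≤ (1 + 1 / ‖κ‖) ^ 4 := pow_le_pow_left₀ e2 (le_add_of_nonneg_left zero_le_one) 4
      _ ≤ (1 + 1 / ‖κ‖) ^ 5 := pow_le_pow_right₀ e3 (by norm_num)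
  have hX : 0 ≤ (1 + 1 / ‖κ‖) ^ (5 : ℝ) := le_trans (by positivity) h3
  calc K * ∑' n : ℕ, 1 / (n : ℝ) ^ 2
      = 384 * B ^ 2 * (∑' n : ℕ, 1 / (n : ℝ) ^ 2) * (((b : ℝ) + r) * (a : ℝ) ^ 4) * (1 / ‖κ‖ ^ 4) := by
        rw [hK]
        ring
    _ ≤ 384 * B ^ 2 * (∑' n : ℕ, 1 / (n : ℝ) ^ 2) * (2 * ((a * b * r : ℕ) : ℝ) ^ 12) * (1 + 1 / ‖κ‖) ^ (5 : ℝ) := by
        gcongr
    _ = 768 * B ^ 2 * (∑' n : ℕ, 1 / (n : ℝ) ^ 2) * ((a * b * r : ℕ) : ℝ) ^ 12 * (1 + 1 / ‖κ‖) ^ (5 : ℝ) := by ring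
    _ ≤ 768 * B ^ 2 * (1 + ∑' n : ℕ, 1 / (n : ℝ) ^ 2) * ((a * b * r : ℕ) : ℝ) ^ 12 * (1 + 1 / ‖κ‖) ^ (5 : ℝ) := by
        gcongr
        exact le_add_of_nonneg_left zero_le_one

end OO

end

section

open Complex MeasureTheory Set Filter Topology
open scoped ComplexConjugate

namespace OO

private lemma C09_pow (T H α : ℝ) (j : ℕ) (hj : (j : ℝ) = 4 * 10 ^ 10) (hT : 10 ≤ T) (hH0 : 0 ≤ H)
    (hH : H ≤ T ^ (2 * dl)) (hα : α = T ^ (6 * dl)) :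
    H ^ 200 * (H ^ 2 / α) ^ j * (1 / T) ^ (-5 : ℝ) ≤ 1 := by
  have hT0 : 0 < T := by linarith only [hT]
  have h1 : H ^ 200 ≤ T ^ (400 * dl) := by
    calc H ^ 200 ≤ (T ^ (2 * dl)) ^ 200 := pow_le_pow_left₀ hH0 hH 200
      _ = T ^ (400 * dl) := by
        rw [← Real.rpow_natCast (T ^ (2 * dl)) 200, ← Real.rpow_mul hT0.le]
        congr 1
        push_cast
        ring
  have h2 : H ^ 2 / α ≤ T ^ (-(2 * dl)) := by
    rw [hα]
    calc H ^ 2 / T ^ (6 * dl) ≤ (T ^ (2 * dl)) ^ 2 / T ^ (6 * dl) := by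
          gcongr
      _ = T ^ (-(2 * dl)) := by
        rw [← Real.rpow_natCast (T ^ (2 * dl)) 2, ← Real.rpow_mul hT0.le, ← Real.rpow_sub hT0]
        congr 1
        push_cast
        ring
  have hα0 : 0 < α := by rw [hα]; positivity
  have h3 : (H ^ 2 / α) ^ j ≤ T ^ (-8 : ℝ) := by
    calc (H ^ 2 / α) ^ j ≤ (T ^ (-(2 * dl))) ^ j := pow_le_pow_left₀ (by positivity) h2 j
      _ = T ^ (-8 : ℝ) := by
        rw [← Real.rpow_natCast (T ^ (-(2 * dl))) j, ← Real.rpow_mul hT0.le, hj]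
        congr 1
        unfold dl
        norm_num
  have h4 : (1 / T) ^ (-5 : ℝ) = T ^ (5 : ℝ) := by
    rw [one_div, Real.inv_rpow hT0.le, ← Real.rpow_neg hT0.le]
    norm_num
  rw [h4]
  calc H ^ 200 * (H ^ 2 / α) ^ j * T ^ (5 : ℝ) ≤ T ^ (400 * dl) * T ^ (-8 : ℝ) * T ^ (5 : ℝ) := by
        gcongr
    _ = T ^ (400 * dl + (-8) + 5) := by
        rw [Real.rpow_add hT0, Real.rpow_add hT0]
    _ ≤ 1 := by
        apply Real.rpow_le_one_of_one_le_of_nonpos (by linarith only [hT])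
        unfold dl
        norm_num

/-- The far part. -/
theorem EN_far_abs3 : ∃ C : ℝ, 0 < C ∧ ∀ (q1 q2 : ℕ) [NeZero q1] [NeZero q2] (χ1 : DirichletCharacter ℂ q1)
    (χ2 : DirichletCharacter ℂ q2) (y1 y2 : ℝ), NeX χ1 y1 χ2 y2 → ∃ T0 : ℝ, 2 ≤ T0 ∧
    ∀ T l : ℝ, T0 ≤ T → dl / 2 * Real.log T ≤ l →
      l ≤ dl * Real.log T →
      (∫ x in Ioi (0 : ℝ), Wt (T ^ (6 * dl)) 0 x * ‖gg (beta (chx χ1 y1) (chx χ2 y2) l) (Hl l)
        (lamF (chx χ1 y1) (chx χ2 y2)) (1 / T) x‖ ^ 2) ≤ C * T := by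
  obtain ⟨C1, hC1, hDD⟩ := DS_inst_abs3
  obtain ⟨C2, hC2, hSS⟩ := SS_trivial 1 one_pos
  obtain ⟨j, hj⟩ : ∃ j : ℕ, (j:ℝ) = 4*10^10 := ⟨4*10^10, by norm_num⟩
  obtain ⟨K, hK, hE⟩ := E_main 5 0 (by norm_num) le_rfl (by norm_num) (by norm_num) j
  refine ⟨C1 * Real.exp 1 + K * C2, by positivity, ?_⟩
  intro q1 q2 _ _ χ1 χ2 y1 y2 hne
  obtain ⟨L0, hL0, hDS⟩ := hDD q1 q2 χ1 χ2 y1 y2 hne
  refine ⟨max 10 (Real.exp L0), ?_, ?_⟩
  · exact le_trans (by norm_num) (le_max_left _ _)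
  intro T l hT hl1 hl2
  have hT10 : 10 ≤ T := le_trans (le_max_left _ _) hT
  have hTL : Real.exp L0 ≤ T := le_trans (le_max_right _ _) hT
  have hT0 : 0 < T := by linarith only [hT10]
  have hL : L0 ≤ Real.log T := by
    rw [Real.le_log_iff_exp_le hT0]; exact hTL
  have hLpos : 0 < Real.log T := by linarith only [hL0, hL]
  have hdl : 0 < dl := by unfold dl; positivity
  have hl : 0 < l := lt_of_lt_of_le (by positivity) hl1
  have hch1 : ∀ n, ‖chx χ1 y1 n‖ ≤ 1 := chx_le χ1 y1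
  have hch2 : ∀ n, ‖chx χ2 y2 n‖ ≤ 1 := chx_le χ2 y2
  have hone1 : chx χ1 y1 1 = 1 := chx_one χ1 y1
  have hone2 : chx χ2 y2 1 = 1 := chx_one χ2 y2
  obtain ⟨-, hb2, hb3, -⟩ := beta_facts (chx χ1 y1) (chx χ2 y2) hch1 hch2 hone1 hone2 l hl
  have hlam : ∀ n : ℕ, ‖lamF (chx χ1 y1) (chx χ2 y2) n‖ ≤ 1 * n := by
    intro n
    have := (conv_bound (LA (chx χ1 y1) 0 0) (LA (chx χ2 y2) 0 0) 1 1 zero_le_one zero_le_one
      (LA_FA_facts _ hch1).1 (LA_FA_facts _ hch2).1).2 n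
    rw [mul_one] at this
    exact this
  have hH1 : 1 ≤ Hl l := by
    unfold Hl
    apply Nat.le_floor
    simpa using Real.one_le_exp (by positivity : (0:ℝ) ≤ 2 * l)
  have hHT : (Hl l : ℝ) ≤ T ^ (2 * dl) := by
    calc (Hl l : ℝ) ≤ Real.exp (2 * l) := Nat.floor_le (Real.exp_nonneg _)
      _ ≤ Real.exp (Real.log T * (2 * dl)) := by
        apply Real.exp_le_exp.mpr
        nlinarith only [hl2]
      _ = T ^ (2 * dl) := (Real.rpow_def_of_pos hT0 _).symm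
  have hα1 : 1 ≤ T ^ (6 * dl) := Real.one_le_rpow (by linarith only [hT10]) (by positivity)
  have hmain := hE (Hl l) (beta (chx χ1 y1) (chx χ2 y2) l) (lamF (chx χ1 y1) (chx χ2 y2)) 1 C2 0 (1 / T) (T ^ (6 * dl)) 0
    hH1 hb3 hb2 hlam (by positivity) (by
      rw [div_le_div_iff₀ hT0 (by norm_num)]; linarith only [hT10]) hα1 le_rfl hC2.le le_rfl (by
      intro a c r ha hc hr κ hκ hκ'
      have := hSS (lamF (chx χ1 y1) (chx χ2 y2)) hlam a c r ha hc hr κ hκ hκ'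
      calc _ ≤ _ := this
        _ = _ := by ring)
  refine hmain.trans ?_
  have hsin : 1 / T ≤ 4 * Real.pi * Real.sin (1 / T) := by
    have h1T : 1 / T ≤ Real.pi / 2 := by
      have h3 := Real.pi_gt_three
      have : 1 / T ≤ 1 := by
        rw [div_le_one hT0]; linarith only [hT10]
      linarith only [h3, this]
    have h := Real.mul_le_sin (by positivity : (0:ℝ) ≤ 1 / T) h1T
    have hpi := Real.pi_pos
    have h2 : 4 * Real.pi * (2 / Real.pi * (1 / T)) ≤ 4 * Real.pi * Real.sin (1 / T) := by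
      gcongr
    have h3 : 4 * Real.pi * (2 / Real.pi * (1 / T)) = 8 * (1 / T) := by
      field_simp
      ring
    have h4 : (0:ℝ) < 1 / T := by positivity
    linarith only [h2, h3, h4]
  have hP : 0 < 4 * Real.pi * Real.sin (1 / T) := lt_of_lt_of_le (by positivity) hsin
  have hD := (hDS (Real.log T) l (4 * Real.pi * Real.sin (1 / T)) hL hl1 hl2 hP).2 (T ^ (6 * dl)) hα1
  have hpow : (4 * Real.pi * Real.sin (1 / T)) ^ (-1 - 1 / Real.log T) ≤ Real.exp 1 * T := by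
    calc (4 * Real.pi * Real.sin (1 / T)) ^ (-1 - 1 / Real.log T)
        ≤ (1 / T) ^ (-1 - 1 / Real.log T) := by
          apply Real.rpow_le_rpow_of_nonpos (by positivity) hsin
          have : 0 < 1 / Real.log T := by positivity
          linarith only [this]
      _ = Real.exp 1 * T := by
          rw [Real.rpow_def_of_pos (by positivity), one_div, Real.log_inv]
          have : -Real.log T * (-1 - 1 / Real.log T) = 1 + Real.log T := by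
            field_simp
            ring
          rw [this, Real.exp_add, Real.exp_log hT0]
  have h1 : DS (Hl l) (beta (chx χ1 y1) (chx χ2 y2) l * lamF (chx χ1 y1) (chx χ2 y2) : ArithmeticFunction ℂ) (cj (beta (chx χ1 y1) (chx χ2 y2) l))
          (fun y => Psi (T ^ (6 * dl)) 0 (4 * Real.pi * Real.sin (1 / T) * y)) ≤ C1 * (Real.exp 1 * T) :=
    hD.trans (by gcongr)
  have h2 := C09_pow T (Hl l) (T ^ (6 * dl)) j hj hT10 (by positivity) hHT rfl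
  have h3 : K * (Hl l : ℝ) ^ 200 * ((Hl l : ℝ) ^ 2 / T ^ (6 * dl)) ^ j *
      (C2 * (1 / T) ^ (-5 : ℝ) + 0 * (1 / T) ^ (-0 : ℝ)) ≤ K * C2 := by
    calc K * (Hl l : ℝ) ^ 200 * ((Hl l : ℝ) ^ 2 / T ^ (6 * dl)) ^ j *
      (C2 * (1 / T) ^ (-5 : ℝ) + 0 * (1 / T) ^ (-0 : ℝ))
        = K * C2 * ((Hl l : ℝ) ^ 200 * ((Hl l : ℝ) ^ 2 / T ^ (6 * dl)) ^ j * (1 / T) ^ (-5 : ℝ)) := by ring
      _ ≤ K * C2 * 1 := by gcongr
      _ = K * C2 := mul_one _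
  have h4 : K * C2 ≤ K * C2 * T := le_mul_of_one_le_right (by positivity) (by linarith only [hT10])
  calc _ ≤ C1 * (Real.exp 1 * T) + K * C2 := add_le_add h1 h3
    _ ≤ (C1 * Real.exp 1 + K * C2) * T := by linarith only [h4]

end OO

end
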