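import Pool.Agent.Lib.MP_0f5a55_nt.OM.K000
import Pool.Agent.Lib.MP_0f5a55_nt.OM.K051
import Pool.Agent.Lib.MP_0f5a55_nt.OM.K052
import Pool.Agent.Lib.MP_0f5a55_nt.OM.K053

section

open Complex MeasureTheory Set Filter Topology
open scoped ComplexConjugate

namespace OO

theorem C10_sq4 (a b c d : ℂ) : ‖a + b + c - d‖ ^ 2 ≤ 4 * (‖a‖ ^ 2 + ‖b‖ ^ 2 + ‖c‖ ^ 2 + ‖d‖ ^ 2) := by
  have h : ‖a + b + c - d‖ ≤ ‖a‖ + ‖b‖ + ‖c‖ + ‖d‖ := by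
    refine (norm_sub_le _ _).trans (add_le_add ((norm_add_le _ _).trans (add_le_add (norm_add_le _ _) le_rfl)) le_rfl)
  have h0 : 0 ≤ ‖a + b + c - d‖ := norm_nonneg _
  have h2 : ‖a + b + c - d‖ ^ 2 ≤ (‖a‖ + ‖b‖ + ‖c‖ + ‖d‖) ^ 2 := pow_le_pow_left₀ h0 h 2
  nlinarith [sq_nonneg (‖a‖ - ‖b‖), sq_nonneg (‖a‖ - ‖c‖), sq_nonneg (‖a‖ - ‖d‖), sq_nonneg (‖b‖ - ‖c‖),
    sq_nonneg (‖b‖ - ‖d‖), sq_nonneg (‖c‖ - ‖d‖)]

theorem FA_one_sub (f : ℕ → ℂ) (hf : ∀ n, ‖f n‖ ≤ 1) (w : ℝ → ℝ) :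
    FA f (fun x => 1 - w x) = LA f 0 0 - FA f w := by
  ext n
  have hs : (LA f 0 0 - FA f w) n = LA f 0 0 n - FA f w n := by
    rw [sub_eq_add_neg, ArithmeticFunction.add_apply, ArithmeticFunction.neg_apply, sub_eq_add_neg]
  rw [hs]
  by_cases hn : n = 0
  · rw [hn, ArithmeticFunction.map_zero, ArithmeticFunction.map_zero, ArithmeticFunction.map_zero, sub_zero]
  · rw [(LA_FA_facts f hf).2.1 n hn]
    show (if n = 0 then (0 : ℂ) else f n * ((1 - w n : ℝ) : ℂ)) = f n - (if n = 0 then (0 : ℂ) else f n * (w n : ℂ))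
    rw [if_neg hn, if_neg hn]
    push_cast
    ring

theorem lam_splitx (f1 f2 : ℕ → ℂ) (hf1 : ∀ n, ‖f1 n‖ ≤ 1) (hf2 : ∀ n, ‖f2 n‖ ≤ 1) (D L : ℝ) :
    lamF f1 f2 = FA f1 (ffx D L) * FA f2 (ffx D L) + FA f1 (rhox D L) * LA f2 0 0 +
      FA f2 (rhox D L) * LA f1 0 0 - FA f1 (rhox D L) * FA f2 (rhox D L) := by
  have h1 := FA_one_sub f1 hf1 (rhox D L)
  have h2 := FA_one_sub f2 hf2 (rhox D L)
  have e : ffx D L = fun x => 1 - rhox D L x := by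
    funext x
    rfl
  rw [lamF, e, h1, h2]
  ring

/-- bounds for the coefficients -/
theorem C10_coef (f1 f2 : ℕ → ℂ) (hf1 : ∀ n, ‖f1 n‖ ≤ 1) (hf2 : ∀ n, ‖f2 n‖ ≤ 1) : ∃ B : ℝ, 0 ≤ B ∧ ∀ D L : ℝ, 1 ≤ L →
    (∀ n : ℕ, ‖(FA f1 (ffx D L) * FA f2 (ffx D L) : ArithmeticFunction ℂ) n‖ ≤ B * n) ∧
    (∀ n : ℕ, ‖(FA f1 (rhox D L) * LA f2 0 0 : ArithmeticFunction ℂ) n‖ ≤ B * n) ∧
    (∀ n : ℕ, ‖(FA f2 (rhox D L) * LA f1 0 0 : ArithmeticFunction ℂ) n‖ ≤ B * n) ∧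
    (∀ n : ℕ, ‖(FA f1 (rhox D L) * FA f2 (rhox D L) : ArithmeticFunction ℂ) n‖ ≤ B * n) ∧
    (∀ n : ℕ, ‖lamF f1 f2 n‖ ≤ B * n) := by
  obtain ⟨B0, hB0, hff⟩ := ffx_facts
  refine ⟨(1 + B0) ^ 2, by positivity, fun D L hL => ?_⟩
  obtain ⟨-, -, hb, -⟩ := hff D L hL
  obtain ⟨l1, -, F1, -⟩ := LA_FA_facts f1 hf1
  obtain ⟨l2, -, F2, -⟩ := LA_FA_facts f2 hf2
  have hB1 : ∀ x : ℝ, 1 ≤ x → |ffx D L x| ≤ 1 + B0 := fun x hx => (hb x hx).trans (by linarith)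
  have hB2 : ∀ x : ℝ, 1 ≤ x → |rhox D L x| ≤ 1 + B0 := by
    intro x hx
    have h1 : rhox D L x = 1 - ffx D L x := by
      unfold ffx
      ring
    have h2 := hb x hx
    rw [h1]
    rw [abs_le] at h2 ⊢
    constructor <;> linarith [h2.1, h2.2]
  have h0 : (0 : ℝ) ≤ 1 + B0 := by linarith
  have h1 : (1 : ℝ) ≤ 1 + B0 := by linarith
  have hle : ∀ (u v : ℝ), 0 ≤ u → 0 ≤ v → u ≤ 1 + B0 → v ≤ 1 + B0 → ∀ n : ℕ, u * v * n ≤ (1 + B0) ^ 2 * n := by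
    intro u v hu hv hu' hv' n
    rw [sq]
    exact mul_le_mul_of_nonneg_right (mul_le_mul hu' hv' hv h0) (Nat.cast_nonneg n)
  refine ⟨fun n => ?_, fun n => ?_, fun n => ?_, fun n => ?_, fun n => ?_⟩
  · exact ((conv_bound _ _ (1 + B0) (1 + B0) h0 h0 (F1 _ _ h0 hB1) (F2 _ _ h0 hB1)).2 n).trans
      (hle _ _ h0 h0 le_rfl le_rfl n)
  · exact ((conv_bound _ _ (1 + B0) 1 h0 zero_le_one (F1 _ _ h0 hB2) l2).2 n).trans
      (hle _ _ h0 zero_le_one le_rfl h1 n)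
  · exact ((conv_bound _ _ (1 + B0) 1 h0 zero_le_one (F2 _ _ h0 hB2) l1).2 n).trans
      (hle _ _ h0 zero_le_one le_rfl h1 n)
  · exact ((conv_bound _ _ (1 + B0) (1 + B0) h0 h0 (F1 _ _ h0 hB2) (F2 _ _ h0 hB2)).2 n).trans
      (hle _ _ h0 h0 le_rfl le_rfl n)
  · exact ((conv_bound _ _ 1 1 zero_le_one zero_le_one l1 l2).2 n).trans
      (hle _ _ zero_le_one zero_le_one h1 h1 n)

/-- The near part. -/
theorem EN_near_abs3 : ∃ C : ℝ, 0 < C ∧ ∀ (q1 q2 : ℕ) [NeZero q1] [NeZero q2] (χ1 : DirichletCharacter ℂ q1)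
    (χ2 : DirichletCharacter ℂ q2) (y1 y2 : ℝ), χ1.IsPrimitive → χ2.IsPrimitive → NeX χ1 y1 χ2 y2 → ∃ T0 : ℝ, 2 ≤ T0 ∧
    ∀ T l Y : ℝ,
      T0 ≤ T → dl / 2 * Real.log T ≤ l → l ≤ dl * Real.log T → (Real.log T) ^ (3 / 4 : ℝ) ≤ Y → Y ≤ 6 * dl * Real.log T →
      (∫ x in Ioi (0 : ℝ), Wt 1 (Real.exp (-Y)) x * ‖gg (beta (chx χ1 y1) (chx χ2 y2) l) (Hl l)
        (lamF (chx χ1 y1) (chx χ2 y2)) (1 / T) x‖ ^ 2) ≤
        C * T * (Y / Real.log T) * (1 + Real.log (Real.log T / Y)) + T ^ (1 - 2 / 10 ^ 7 : ℝ) := by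
  obtain ⟨C1, hC1, H1'⟩ := EN_N_abs3
  obtain ⟨C2, hC2, H2'⟩ := EN_P_abs3
  refine ⟨4 * (C1 + C2 + C2), by positivity, ?_⟩
  intro q1 q2 _ _ χ1 χ2 y1 y2 h1 h2 hne
  obtain ⟨T1, hT1, H1⟩ := H1' q1 q2 χ1 χ2 y1 y2 hne
  obtain ⟨T2, hT2, H2⟩ := H2' q1 q2 χ1 χ2 y1 y2 h1 h2 hne
  obtain ⟨T3, hT3, H3⟩ := H2' q2 q1 χ2 χ1 y2 y1 h2 h1 hne.symm
  obtain ⟨T4, hT4, H4⟩ := EN_12x χ1 χ2 y1 y2 (y1 - y2)
  obtain ⟨T5, hT5, H5⟩ := EN_num.2.2 (1 - 1 / 10 ^ 6) (1 - 2 / 10 ^ 7) 16 (by norm_num)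
  obtain ⟨B, hB, hcoef⟩ := C10_coef (chx χ1 y1) (chx χ2 y2) (chx_le χ1 y1) (chx_le χ2 y2)
  refine ⟨max (max (max T1 T2) (max T3 T4)) (max T5 10), ?_, ?_⟩
  · exact hT1.trans ((le_max_left _ _).trans ((le_max_left _ _).trans (le_max_left _ _)))
  intro T l Y hT hl1 hl2 hYY hY2
  have t1 : T1 ≤ T := ((le_max_left _ _).trans ((le_max_left _ _).trans (le_max_left _ _))).trans hT
  have t2 : T2 ≤ T := ((le_max_right _ _).trans ((le_max_left _ _).trans (le_max_left _ _))).trans hT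
  have t3 : T3 ≤ T := ((le_max_left _ _).trans ((le_max_right _ _).trans (le_max_left _ _))).trans hT
  have t4 : T4 ≤ T := ((le_max_right _ _).trans ((le_max_right _ _).trans (le_max_left _ _))).trans hT
  have t5 : T5 ≤ T := ((le_max_left _ _).trans (le_max_right _ _)).trans hT
  have t10 : 10 ≤ T := ((le_max_right _ _).trans (le_max_right _ _)).trans hT
  have hT0 : 0 < T := by linarith
  have hL : 1 ≤ Real.log T := by
    rw [Real.le_log_iff_exp_le hT0]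
    exact (Real.exp_one_lt_d9.le.trans (by norm_num)).trans t10
  have hY1 : 1 ≤ Y := (Real.one_le_rpow hL (by norm_num)).trans hYY
  obtain ⟨b1, b2, b3, b4, b5⟩ := hcoef (y1 - y2) (Real.log T) hL
  have e1 := H1 T l Y t1 hl1 hl2 hYY hY2
  have e2 := H2 T l Y t2 hl1 hl2 hYY hY2
  have e3 := H3 T l Y t3 hl1 hl2 hYY hY2
  have e4 := H4 T l Y t4 hl1 hl2 hY1 hY2
  rw [beta_comm (chx χ2 y2) (chx χ1 y1) l, ← neg_sub y1 y2, rhox_neg] at e3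
  have hε : 0 < 1 / T := by positivity
  have hε' : 1 / T ≤ 1 / 10 := one_div_le_one_div_of_le (by norm_num) t10
  have hω : 0 ≤ Real.exp (-Y) := (Real.exp_pos _).le
  set W : ℝ → ℝ := Wt 1 (Real.exp (-Y)) with hW
  set b := beta (chx χ1 y1) (chx χ2 y2) l with hb
  set H := Hl l with hH
  set u1 : ArithmeticFunction ℂ := FA (chx χ1 y1) (ffx (y1 - y2) (Real.log T)) * FA (chx χ2 y2) (ffx (y1 - y2) (Real.log T)) with hu1
  set u2 : ArithmeticFunction ℂ := FA (chx χ1 y1) (rhox (y1 - y2) (Real.log T)) * LA (chx χ2 y2) 0 0 with hu2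
  set u3 : ArithmeticFunction ℂ := FA (chx χ2 y2) (rhox (y1 - y2) (Real.log T)) * LA (chx χ1 y1) 0 0 with hu3
  set u4 : ArithmeticFunction ℂ := FA (chx χ1 y1) (rhox (y1 - y2) (Real.log T)) * FA (chx χ2 y2) (rhox (y1 - y2) (Real.log T)) with hu4
  have hsplit : lamF (chx χ1 y1) (chx χ2 y2) = u1 + u2 + u3 - u4 :=
    lam_splitx (chx χ1 y1) (chx χ2 y2) (chx_le χ1 y1) (chx_le χ2 y2) (y1 - y2) (Real.log T)
  have i0 := (Wgg_integrable b (lamF (chx χ1 y1) (chx χ2 y2)) H B (1 / T) b5 hε hε').1 1 (Real.exp (-Y)) le_rfl hω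
  have i1 := (Wgg_integrable b u1 H B (1 / T) b1 hε hε').1 1 (Real.exp (-Y)) le_rfl hω
  have i2 := (Wgg_integrable b u2 H B (1 / T) b2 hε hε').1 1 (Real.exp (-Y)) le_rfl hω
  have i3 := (Wgg_integrable b u3 H B (1 / T) b3 hε hε').1 1 (Real.exp (-Y)) le_rfl hω
  have i4 := (Wgg_integrable b u4 H B (1 / T) b4 hε hε').1 1 (Real.exp (-Y)) le_rfl hω
  have hW0 : ∀ x, 0 ≤ W x := fun x => (Real.exp_pos _).le
  have hpt : ∀ x ∈ Ioi (0 : ℝ), W x * ‖gg b H (lamF (chx χ1 y1) (chx χ2 y2)) (1 / T) x‖ ^ 2 ≤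
      4 * (W x * ‖gg b H u1 (1 / T) x‖ ^ 2 + W x * ‖gg b H u2 (1 / T) x‖ ^ 2 + W x * ‖gg b H u3 (1 / T) x‖ ^ 2 +
        W x * ‖gg b H u4 (1 / T) x‖ ^ 2) := by
    intro x hx
    rw [hsplit, gg_split b H u1 u2 u3 u4 B (1 / T) x b1 b2 b3 b4 hε hε' hx]
    calc W x * ‖gg b H u1 (1 / T) x + gg b H u2 (1 / T) x + gg b H u3 (1 / T) x - gg b H u4 (1 / T) x‖ ^ 2
        ≤ W x * (4 * (‖gg b H u1 (1 / T) x‖ ^ 2 + ‖gg b H u2 (1 / T) x‖ ^ 2 + ‖gg b H u3 (1 / T) x‖ ^ 2 +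
          ‖gg b H u4 (1 / T) x‖ ^ 2)) := mul_le_mul_of_nonneg_left (C10_sq4 _ _ _ _) (hW0 x)
      _ = _ := by ring
  have hint := setIntegral_mono_on i0 ((((i1.add i2).add i3).add i4).const_mul 4) measurableSet_Ioi hpt
  have hsum : (∫ x in Ioi (0 : ℝ), 4 * (W x * ‖gg b H u1 (1 / T) x‖ ^ 2 + W x * ‖gg b H u2 (1 / T) x‖ ^ 2 +
      W x * ‖gg b H u3 (1 / T) x‖ ^ 2 + W x * ‖gg b H u4 (1 / T) x‖ ^ 2)) =
      4 * ((∫ x in Ioi (0 : ℝ), W x * ‖gg b H u1 (1 / T) x‖ ^ 2) + (∫ x in Ioi (0 : ℝ), W x * ‖gg b H u2 (1 / T) x‖ ^ 2) +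
        (∫ x in Ioi (0 : ℝ), W x * ‖gg b H u3 (1 / T) x‖ ^ 2) + (∫ x in Ioi (0 : ℝ), W x * ‖gg b H u4 (1 / T) x‖ ^ 2)) := by
    rw [integral_const_mul]
    congr 1
    have s1 := integral_add ((i1.add i2).add i3) i4
    have s2 := integral_add (i1.add i2) i3
    have s3 := integral_add i1 i2
    simp only [Pi.add_apply] at s1 s2 s3
    rw [s1, s2, s3]
  have hfin : 16 * T ^ (1 - 1 / 10 ^ 6 : ℝ) ≤ T ^ (1 - 2 / 10 ^ 7 : ℝ) := H5 T t5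
  have hT1' : 1 ≤ T := by linarith
  have p1 : T ^ (3 / 4 : ℝ) ≤ T ^ (1 - 1 / 10 ^ 6 : ℝ) := Real.rpow_le_rpow_of_exponent_le hT1' (by norm_num)
  have p2 : T ^ (1 / 2 : ℝ) ≤ T ^ (1 - 1 / 10 ^ 6 : ℝ) := Real.rpow_le_rpow_of_exponent_le hT1' (by norm_num)
  obtain ⟨X, hX⟩ : ∃ X : ℝ, X = T * (Y / Real.log T) * (1 + Real.log (Real.log T / Y)) := ⟨_, rfl⟩
  have x1 : ∀ C : ℝ, C * T * (Y / Real.log T) * (1 + Real.log (Real.log T / Y)) = C * X := by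
    intro C
    rw [hX]
    ring
  rw [x1] at e1 e2 e3
  rw [x1]
  refine hint.trans ?_
  refine (le_of_eq hsum).trans ?_
  linarith

end OO

end

section

open Complex MeasureTheory Set Filter Topology
open scoped ComplexConjugate

namespace OO

/-- The coefficients of the product are at most `n`. -/
theorem C11_lam {q1 q2 : ℕ} (χ1 : DirichletCharacter ℂ q1) (χ2 : DirichletCharacter ℂ q2) (y1 y2 : ℝ)
    (n : ℕ) : ‖lamF (chx χ1 y1) (chx χ2 y2) n‖ ≤ 1 * (n : ℝ) := by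
  have h := (conv_bound (LA (chx χ1 y1) 0 0) (LA (chx χ2 y2) 0 0) 1 1 zero_le_one zero_le_one
    (LA_FA_facts (chx χ1 y1) (chx_le χ1 y1)).1 (LA_FA_facts (chx χ2 y2) (chx_le χ2 y2)).1).2 n
  simpa [lamF] using h

/-- Comparison of integrals of a nonnegative function with a weighted one. -/
theorem OA11_cmp' (G W : ℝ → ℝ) (S : Set ℝ) (hS : MeasurableSet S) (hS0 : S ⊆ Ioi 0) (c : ℝ)
    (hG : ∀ x, 0 ≤ G x) (hW : ∀ x, 0 ≤ W x) (hc : ∀ x ∈ S, 1 ≤ c * W x) (hc0 : 0 ≤ c)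
    (hi : IntegrableOn (fun x => W x * G x) (Ioi 0)) (hGi : IntegrableOn G S) :
    ∫ x in S, G x ≤ c * ∫ x in Ioi (0 : ℝ), W x * G x := by
  have h1 : ∫ x in S, G x ≤ ∫ x in S, c * (W x * G x) := by
    refine setIntegral_mono_on hGi ((hi.mono_set hS0).const_mul c) hS (fun x hx => ?_)
    have := mul_le_mul_of_nonneg_right (hc x hx) (hG x)
    linarith only [this]
  have h2 : ∫ x in S, c * (W x * G x) = c * ∫ x in S, W x * G x := integral_const_mul _ _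
  have h3 : ∫ x in S, W x * G x ≤ ∫ x in Ioi (0 : ℝ), W x * G x := by
    refine setIntegral_mono_set hi ?_ hS0.eventuallyLE
    exact Eventually.of_forall (fun x => mul_nonneg (hW x) (hG x))
  calc ∫ x in S, G x ≤ c * ∫ x in S, W x * G x := by rw [← h2]; exact h1
    _ ≤ _ := mul_le_mul_of_nonneg_left h3 hc0


private theorem EN_abs3_rpow_nat (A L : ℝ) (hA : 0 ≤ A) (n : ℕ) (hn : n ≠ 0) (h : A ^ n ≤ L) :
    A ≤ L ^ ((n : ℝ)⁻¹) := by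
  have h1 : (A ^ n) ^ ((n : ℝ)⁻¹) = A := Real.pow_rpow_inv_natCast hA hn
  rw [← h1]
  exact Real.rpow_le_rpow (pow_nonneg hA n) h (inv_nonneg.2 (Nat.cast_nonneg n))

private theorem EN_abs3_L16 (A L : ℝ) (hA : 0 ≤ A) (h : A ^ 16 ≤ L) : A ≤ L ^ (1 / 16 : ℝ) := by
  have h1 := EN_abs3_rpow_nat A L hA 16 (by norm_num) h
  have h2 : (1 / 16 : ℝ) = ((16 : ℕ) : ℝ)⁻¹ := by norm_num
  rw [h2]
  exact h1

private theorem EN_abs3_L8 (a L : ℝ) (ha : 0 < a) (hL : 0 < L) (h : (1 / a) ^ 8 ≤ L) :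
    L ^ (7 / 8 : ℝ) ≤ a * L := by
  have h0 : (0 : ℝ) ≤ 1 / a := one_div_nonneg.2 ha.le
  have h1 := EN_abs3_rpow_nat (1 / a) L h0 8 (by norm_num) h
  have e3 : L ^ (7 / 8 : ℝ) * L ^ (((8 : ℕ) : ℝ)⁻¹) = L := by
    rw [← Real.rpow_add hL]
    have : (7 / 8 : ℝ) + ((8 : ℕ) : ℝ)⁻¹ = 1 := by norm_num
    rw [this, Real.rpow_one]
  have e4 : 0 ≤ L ^ (7 / 8 : ℝ) := Real.rpow_nonneg hL.le _
  have e5 := mul_le_mul_of_nonneg_left h1 e4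
  rw [e3, mul_one_div, div_le_iff₀ ha] at e5
  linarith only [e5]

private theorem EN_abs3_div (L : ℝ) (hL : 0 < L) : L ^ (-(1 / 8) : ℝ) = L ^ (7 / 8 : ℝ) / L := by
  have h1 : L ^ (7 / 8 : ℝ) / L ^ (1 : ℝ) = L ^ (-(1 / 8) : ℝ) := by
    rw [← Real.rpow_sub hL]
    congr 1
    norm_num
  rw [Real.rpow_one] at h1
  exact h1.symm

private theorem EN_abs3_small (T L : ℝ) (hT0 : 0 < T) (hL : L = Real.log T) (hL0 : 0 < L)
    (h6 : 2 * 10 ^ 7 * T ^ (1 - 5 / 10 ^ 8 : ℝ) ≤ T ^ (1 : ℝ)) : T ^ (1 - 1 / 10 ^ 7 : ℝ) ≤ T / L := by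
  rw [le_div_iff₀ hL0]
  obtain ⟨e, he⟩ : ∃ e : ℝ, e = 5 / 10 ^ 8 := ⟨_, rfl⟩
  have he0 : 0 < e := by rw [he]; norm_num
  have h5 : L ≤ T ^ e / e := by rw [hL]; exact Real.log_le_rpow_div hT0.le he0
  have h8 : T ^ (1 - e : ℝ) = T ^ (1 - 1 / 10 ^ 7 : ℝ) * T ^ e := by
    rw [← Real.rpow_add hT0]; congr 1; rw [he]; norm_num
  have h9 : (1 : ℝ) / e = 2 * 10 ^ 7 := by rw [he]; norm_num
  rw [← he, Real.rpow_one, h8, ← h9] at h6
  have h10 : 0 ≤ T ^ (1 - 1 / 10 ^ 7 : ℝ) := Real.rpow_nonneg hT0.le _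
  have h11 := mul_le_mul_of_nonneg_left h5 h10
  have h12 : T ^ (1 - 1 / 10 ^ 7 : ℝ) * (T ^ e / e) = 1 / e * (T ^ (1 - 1 / 10 ^ 7 : ℝ) * T ^ e) := by ring
  linarith only [h11, h12, h6]

private theorem EN_abs3_hS1 (T L : ℝ) (hT0 : 0 < T) (hL4 : 4 ≤ L) :
    T / L ≤ 1 / 2 * (T * L ^ (-(1 / 8) : ℝ)) := by
  have hL0 : 0 < L := by linarith only [hL4]
  have e2 : 2 ≤ L ^ (7 / 8 : ℝ) := by
    have h1 := EN_abs3_rpow_nat 2 L zero_le_two 2 two_ne_zero (by linarith only [hL4])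
    refine h1.trans (Real.rpow_le_rpow_of_exponent_le (by linarith only [hL4]) (by norm_num))
  rw [EN_abs3_div L hL0]
  have e3 : 0 ≤ T / L := (div_pos hT0 hL0).le
  have e4 : 1 / 2 * (T * (L ^ (7 / 8 : ℝ) / L)) = T / L * (L ^ (7 / 8 : ℝ) / 2) := by ring
  rw [e4]
  exact le_mul_of_one_le_right e3 (by linarith only [e2])

private theorem EN_abs3_hS2 (T L Y : ℝ) (hT0 : 0 < T) (hL0 : 0 < L) (hY : L ^ (7 / 8 : ℝ) ≤ Y) (hYL : Y ≤ L) :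
    T * L ^ (-(1 / 8) : ℝ) ≤ T * (Y / L) * (1 + Real.log (L / Y)) := by
  have hY0 : 0 < Y := lt_of_lt_of_le (Real.rpow_pos_of_pos hL0 _) hY
  have e2 : 0 ≤ Real.log (L / Y) := Real.log_nonneg (by rw [le_div_iff₀ hY0]; linarith only [hYL])
  have e3 : L ^ (7 / 8 : ℝ) / L ≤ Y / L := div_le_div_of_nonneg_right hY hL0.le
  rw [EN_abs3_div L hL0]
  have e4 : 0 ≤ T * (Y / L) := mul_nonneg hT0.le (div_nonneg hY0.le hL0.le)
  exact (mul_le_mul_of_nonneg_left e3 hT0.le).trans (le_mul_of_one_le_right e4 (by linarith only [e2]))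

private theorem EN_abs3_W (Y x c B : ℝ) (h : 1 / x + Real.exp (-Y) * x ≤ c) (hB : B = Real.exp c) :
    1 ≤ B * Wt 1 (Real.exp (-Y)) x := by
  unfold Wt
  rw [hB, ← Real.exp_add]
  apply Real.one_le_exp
  linarith only [h]

private theorem EN_abs3_num0 (T L C1 K0 : ℝ) (hT0 : 0 < T) (hL4 : 4 ≤ L) (hC1 : 0 < C1) (hK0 : 0 < K0)
    (hL16 : 10 * (K0 * C1) ≤ L ^ (1 / 16 : ℝ)) :
    K0 * (C1 * T * (L ^ (3 / 4 : ℝ) / L) * (1 + Real.log (L / L ^ (3 / 4 : ℝ)))) ≤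
      1 / 2 * (T * L ^ (-(1 / 8) : ℝ)) := by
  have hL0 : 0 < L := by linarith only [hL4]
  have hL1 : 1 ≤ L := by linarith only [hL4]
  have e3 : L ^ (3 / 4 : ℝ) / L = L ^ (-(1 / 4) : ℝ) := by
    have h1 : L ^ (3 / 4 : ℝ) / L ^ (1 : ℝ) = L ^ (-(1 / 4) : ℝ) := by
      rw [← Real.rpow_sub hL0]; congr 1; norm_num
    rw [Real.rpow_one] at h1
    exact h1
  have e4 : Real.log (L / L ^ (3 / 4 : ℝ)) = 1 / 4 * Real.log L := by
    rw [Real.log_div hL0.ne' (Real.rpow_pos_of_pos hL0 _).ne', Real.log_rpow hL0]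
    ring
  rw [e3, e4]
  have f1 : L ^ (-(1 / 8) : ℝ) = L ^ (-(1 / 4) : ℝ) * (L ^ (1 / 16 : ℝ) * L ^ (1 / 16 : ℝ)) := by
    rw [← Real.rpow_add hL0, ← Real.rpow_add hL0]; congr 1; norm_num
  rw [f1]
  have e5 : Real.log L ≤ L ^ (1 / 16 : ℝ) / (1 / 16) := Real.log_le_rpow_div hL0.le (by norm_num)
  have hx1 : 1 ≤ L ^ (1 / 16 : ℝ) := Real.one_le_rpow hL1 (by norm_num)
  have f0 : 0 ≤ L ^ (-(1 / 4) : ℝ) := Real.rpow_nonneg hL0.le _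
  generalize L ^ (1 / 16 : ℝ) = u at *
  generalize L ^ (-(1 / 4) : ℝ) = v at *
  have hp : 0 ≤ K0 * C1 := (mul_pos hK0 hC1).le
  have e6 : 1 + 1 / 4 * Real.log L ≤ 5 * u := by linarith only [e5, hx1]
  have g1 := mul_le_mul_of_nonneg_left e6 hp
  have g3 := mul_le_mul_of_nonneg_right hL16 (le_trans zero_le_one hx1)
  have g4 : K0 * C1 * (1 + 1 / 4 * Real.log L) ≤ 1 / 2 * (u * u) := by linarith only [g1, g3]
  have g5 := mul_le_mul_of_nonneg_left g4 (mul_nonneg hT0.le f0)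
  linarith only [g5]

private theorem EN_abs3_part0 (G : ℝ → ℝ) (T L R C1 c0 K0 : ℝ) (hT0 : 0 < T) (hL4 : 4 ≤ L) (hC1 : 0 < C1)
    (hc0 : 0 < c0) (hK0 : K0 = Real.exp (1 / c0 + Real.exp 1)) (hL16 : 10 * (K0 * C1) ≤ L ^ (1 / 16 : ℝ))
    (hp2 : K0 * R ≤ T / L) (hG0 : ∀ x, 0 ≤ G x)
    (hW : IntegrableOn (fun x => Wt 1 (Real.exp (-(L ^ (3 / 4 : ℝ)))) x * G x) (Ioi 0))
    (hI : IntegrableOn G (Ioi c0))
    (hn : ∫ x in Ioi 0, Wt 1 (Real.exp (-(L ^ (3 / 4 : ℝ)))) x * G x ≤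
      C1 * T * (L ^ (3 / 4 : ℝ) / L) * (1 + Real.log (L / L ^ (3 / 4 : ℝ))) + R) :
    (∫ x in Ioc c0 (Real.exp 1), G x) ≤ T * L ^ (-(1 / 8) : ℝ) := by
  have hK00 : 0 < K0 := by rw [hK0]; exact Real.exp_pos _
  have hY34 : 1 ≤ L ^ (3 / 4 : ℝ) := Real.one_le_rpow (by linarith only [hL4]) (by norm_num)
  have hcmp := OA11_cmp' G (fun x => Wt 1 (Real.exp (-(L ^ (3 / 4 : ℝ)))) x) (Ioc c0 (Real.exp 1))
    measurableSet_Ioc (fun x hx => lt_trans hc0 hx.1) K0 hG0 (fun x => (Real.exp_pos _).le)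
    (fun x hx => by
      have hx0 : 0 < x := lt_trans hc0 hx.1
      refine EN_abs3_W _ x _ K0 ?_ hK0
      have e1 : 1 / x ≤ 1 / c0 := one_div_le_one_div_of_le hc0 hx.1.le
      have e2 : Real.exp (-(L ^ (3 / 4 : ℝ))) * x ≤ 1 * Real.exp 1 :=
        mul_le_mul (Real.exp_le_one_iff.2 (by linarith only [hY34])) hx.2 hx0.le zero_le_one
      linarith only [e1, e2]) hK00.le hW (hI.mono_set (fun x hx => hx.1))
  have e8 := mul_le_mul_of_nonneg_left hn hK00.le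
  have e7 := EN_abs3_num0 T L C1 K0 hT0 hL4 hC1 hK00 hL16
  have hS1 := EN_abs3_hS1 T L hT0 hL4
  rw [mul_add] at e8
  linarith only [hcmp, e8, e7, hp2, hS1]

private theorem EN_abs3_part2 (G : ℝ → ℝ) (Y B R S : ℝ) (hp1 : Real.exp 2 * R ≤ S) (hG0 : ∀ x, 0 ≤ G x)
    (hW : IntegrableOn (fun x => Wt 1 (Real.exp (-Y)) x * G x) (Ioi 0))
    (hI : IntegrableOn G (Ioi 1))
    (hn : ∫ x in Ioi 0, Wt 1 (Real.exp (-Y)) x * G x ≤ B + R) :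
    (∫ x in Ioc (1 : ℝ) (Real.exp Y), G x) ≤ Real.exp 2 * B + S := by
  have hcmp := OA11_cmp' G (fun x => Wt 1 (Real.exp (-Y)) x) (Ioc 1 (Real.exp Y)) measurableSet_Ioc
    (fun x hx => lt_trans one_pos hx.1) (Real.exp 2) hG0 (fun x => (Real.exp_pos _).le)
    (fun x hx => by
      have hx0 : 0 < x := lt_trans one_pos hx.1
      refine EN_abs3_W _ x _ _ ?_ rfl
      have e1 : 1 / x ≤ 1 := by rw [div_le_one hx0]; exact hx.1.le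
      have e2 := mul_le_mul_of_nonneg_left hx.2 (Real.exp_pos (-Y)).le
      rw [← Real.exp_add, neg_add_cancel, Real.exp_zero] at e2
      linarith only [e1, e2]) (Real.exp_pos _).le hW (hI.mono_set (fun x hx => hx.1))
  have e8 := mul_le_mul_of_nonneg_left hn (Real.exp_pos 2).le
  rw [mul_add] at e8
  linarith only [hcmp, e8, hp1]

private theorem EN_abs3_union (G : ℝ → ℝ) (c0 Y : ℝ) (hG0 : ∀ x, 0 ≤ G x)
    (hI0 : IntegrableOn G (Ioi c0)) (hI1 : IntegrableOn G (Ioi 1)) :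
    (∫ x in Ioc c0 (Real.exp Y), G x) ≤
        (∫ x in Ioc c0 (Real.exp 1), G x) + ∫ x in Ioc 1 (Real.exp Y), G x := by
  have hI1' : IntegrableOn G (Ioc c0 (Real.exp 1)) := hI0.mono_set (fun x hx => hx.1)
  have hI2 : IntegrableOn G (Ioc 1 (Real.exp Y)) := hI1.mono_set (fun x hx => hx.1)
  have hsub : Ioc c0 (Real.exp Y) ⊆ Ioc c0 (Real.exp 1) ∪ Ioc 1 (Real.exp Y) := by
    intro x hx
    rcases le_or_gt x (Real.exp 1) with h | h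
    · exact Or.inl ⟨hx.1, h⟩
    · have : (1 : ℝ) ≤ Real.exp 1 := Real.one_le_exp zero_le_one
      exact Or.inr ⟨by linarith only [h, this], hx.2⟩
  refine (setIntegral_mono_set (hI1'.union hI2) (Eventually.of_forall hG0) hsub.eventuallyLE).trans ?_
  rw [← Set.union_sdiff_self, setIntegral_union (Set.disjoint_sdiff_right) (measurableSet_Ioc.diff measurableSet_Ioc) hI1'
    (hI2.mono_set Set.sdiff_subset)]
  have h9 := setIntegral_mono_set hI2 (Eventually.of_forall hG0)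
    (Set.sdiff_subset (s := Ioc 1 (Real.exp Y)) (t := Ioc c0 (Real.exp 1))).eventuallyLE
  linarith only [h9]

private theorem EN_abs3_far (G : ℝ → ℝ) (c0 X C : ℝ) (hX : 1 ≤ X) (hG0 : ∀ x, 0 ≤ G x)
    (hW : IntegrableOn (fun x => Wt X 0 x * G x) (Ioi 0))
    (hI0 : IntegrableOn G (Ioi c0)) (hI1 : IntegrableOn G (Ioi X))
    (hn : ∫ x in Ioi 0, Wt X 0 x * G x ≤ C) :
    (∫ x in Ioi c0, G x) ≤ (∫ x in Ioc c0 X, G x) + Real.exp 1 * C := by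
  have hX0 : 0 < X := lt_of_lt_of_le one_pos hX
  have hI1' : IntegrableOn G (Ioc c0 X) := hI0.mono_set (fun x hx => hx.1)
  have hsub : Ioi c0 ⊆ Ioc c0 X ∪ Ioi X := by
    intro x hx
    rcases le_or_gt x X with h | h
    · exact Or.inl ⟨hx, h⟩
    · exact Or.inr h
  have hdisj : Disjoint (Ioc c0 X) (Ioi X) := by
    rw [Set.disjoint_left]; intro x hx hx'; exact absurd hx.2 (not_le.mpr hx')
  have e1 : (∫ x in Ioi c0, G x) ≤ (∫ x in Ioc c0 X, G x) + ∫ x in Ioi X, G x := by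
    rw [← setIntegral_union hdisj measurableSet_Ioi hI1' hI1]
    exact setIntegral_mono_set (hI1'.union hI1) (Eventually.of_forall hG0) hsub.eventuallyLE
  have hcmp := OA11_cmp' G (fun x => Wt X 0 x) (Ioi X) measurableSet_Ioi
    (fun x hx => lt_trans hX0 hx) (Real.exp 1) hG0 (fun x => (Real.exp_pos _).le)
    (fun x hx => by
      have hx' : X < x := hx
      have hx0 : 0 < x := lt_trans hX0 hx'
      unfold Wt
      rw [← Real.exp_add]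
      apply Real.one_le_exp
      have e3 : X / x ≤ 1 := by
        rw [div_le_one hx0]; exact hx'.le
      linarith only [e3]) (Real.exp_pos _).le hW hI1
  have e2 := mul_le_mul_of_nonneg_left hn (Real.exp_pos 1).le
  linarith only [e1, hcmp, e2]

private theorem EN_abs3_core (G : ℝ → ℝ) (a T L R C1 C2 c0 K0 X K M : ℝ) (ha : 0 < a) (ha1 : a < 1)
    (hT0 : 0 < T) (hL4 : 4 ≤ L) (hC1 : 0 < C1) (hC2 : 0 < C2)
    (hc0 : 0 < c0) (hK0 : K0 = Real.exp (1 / c0 + Real.exp 1)) (hL16 : 10 * (K0 * C1) ≤ L ^ (1 / 16 : ℝ))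
    (hL8 : L ^ (7 / 8 : ℝ) ≤ a * L) (hp1 : Real.exp 2 * R ≤ T / L)
    (hp2 : K0 * R ≤ T / L) (hG0 : ∀ x, 0 ≤ G x)
    (hW : ∀ α ω : ℝ, 1 ≤ α → 0 ≤ ω → IntegrableOn (fun x => Wt α ω x * G x) (Ioi 0))
    (hI : ∀ c : ℝ, 0 < c → IntegrableOn G (Ioi c))
    (near : ∀ Y, L ^ (3 / 4 : ℝ) ≤ Y → Y ≤ a * L → ∫ x in Ioi 0, Wt 1 (Real.exp (-Y)) x * G x ≤
      C1 * T * (Y / L) * (1 + Real.log (L / Y)) + R)
    (hX : X = Real.exp (a * L)) (far : ∫ x in Ioi 0, Wt X 0 x * G x ≤ C2 * T)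
    (hK : K = Real.exp 2 * C1) (hM : M = a * (1 + Real.log (1 / a))) (hM0 : 0 ≤ M) :
    (∫ x in Ioi c0, G x) ≤ ((K + 3) + ((K + 3) * M + Real.exp 1 * C2)) * T ∧
      ∀ Y : ℝ, L ^ (7 / 8 : ℝ) ≤ Y → Y ≤ a * L → (∫ x in Ioc c0 (Real.exp Y), G x) ≤
        ((K + 3) + ((K + 3) * M + Real.exp 1 * C2)) * T * (Y / L) * (1 + Real.log (L / Y)) := by
  have hL0 : 0 < L := by linarith only [hL4]
  have hL1 : 1 ≤ L := by linarith only [hL4]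
  have haL : a * L ≤ L := by
    have := mul_le_mul_of_nonneg_right ha1.le hL0.le
    linarith only [this]
  have hK1 : 0 < K := by rw [hK]; exact mul_pos (Real.exp_pos _) hC1
  have h34 : L ^ (3 / 4 : ℝ) ≤ L ^ (7 / 8 : ℝ) := Real.rpow_le_rpow_of_exponent_le hL1 (by norm_num)
  have part0 := EN_abs3_part0 G T L R C1 c0 K0 hT0 hL4 hC1 hc0 hK0 hL16 hp2 hG0
    (hW 1 _ le_rfl (Real.exp_pos _).le) (hI c0 hc0) (near _ le_rfl (h34.trans hL8))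
  have hS1 := EN_abs3_hS1 T L hT0 hL4
  have e6 : 0 ≤ T * L ^ (-(1 / 8) : ℝ) := mul_nonneg hT0.le (Real.rpow_nonneg hL0.le _)
  have part3 : ∀ Y : ℝ, L ^ (7 / 8 : ℝ) ≤ Y → Y ≤ a * L →
      (∫ x in Ioc c0 (Real.exp Y), G x) ≤ (K + 3) * (T * (Y / L) * (1 + Real.log (L / Y))) := by
    intro Y hY hY'
    have e2 := EN_abs3_part2 G Y (C1 * T * (Y / L) * (1 + Real.log (L / Y))) R (T / L) hp1 hG0
      (hW 1 _ le_rfl (Real.exp_pos _).le) (hI 1 one_pos) (near Y (h34.trans hY) hY')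
    have e1 := EN_abs3_union G c0 Y hG0 (hI c0 hc0) (hI 1 one_pos)
    have e3 := EN_abs3_hS2 T L Y hT0 hL0 hY (hY'.trans haL)
    have e5 : Real.exp 2 * (C1 * T * (Y / L) * (1 + Real.log (L / Y))) =
        K * (T * (Y / L) * (1 + Real.log (L / Y))) := by rw [hK]; ring
    rw [e5] at e2
    linarith only [part0, e1, e2, e3, e6, hS1]
  have hX1 : 1 ≤ X := by rw [hX]; exact Real.one_le_exp (mul_pos ha hL0).le
  have hC20 : 0 < Real.exp 1 * C2 := mul_pos (Real.exp_pos _) hC2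
  have hKM : 0 ≤ (K + 3) * M := mul_nonneg (by linarith only [hK1]) hM0
  constructor
  · have e1 := EN_abs3_far G c0 X (C2 * T) hX1 hG0 (hW X 0 hX1 le_rfl) (hI c0 hc0)
      (hI X (lt_of_lt_of_le one_pos hX1)) far
    have e3 := part3 (a * L) hL8 le_rfl
    have e4 : a * L / L = a := mul_div_cancel_right₀ a hL0.ne'
    have e5 : L / (a * L) = 1 / a := by rw [mul_comm, ← div_div, div_self hL0.ne']
    rw [e4, e5, ← hX] at e3
    have e7 : (K + 3) * (T * a * (1 + Real.log (1 / a))) = (K + 3) * M * T := by rw [hM]; ring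
    rw [e7] at e3
    have e10 : 0 ≤ (K + 3) * T := mul_nonneg (by linarith only [hK1]) hT0.le
    linarith only [e1, e3, e10]
  · intro Y hY hY'
    have hp := part3 Y hY hY'
    have hY0 : 0 < Y := lt_of_lt_of_le (Real.rpow_pos_of_pos hL0 _) hY
    have hlog : 0 ≤ Real.log (L / Y) :=
      Real.log_nonneg (by rw [le_div_iff₀ hY0]; linarith only [hY', haL])
    have h2 : 0 ≤ T * (Y / L) * (1 + Real.log (L / Y)) :=
      mul_nonneg (mul_nonneg hT0.le (div_nonneg hY0.le hL0.le)) (by linarith only [hlog])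
    have h3 := mul_nonneg (add_nonneg hKM hC20.le) h2
    linarith only [hp, h3]

/-- The energy estimate with an absolute constant. -/
theorem EN_abs3 : ∃ C : ℝ, 0 < C ∧ ∀ (q1 q2 : ℕ) [NeZero q1] [NeZero q2] (χ1 : DirichletCharacter ℂ q1)
    (χ2 : DirichletCharacter ℂ q2) (y1 y2 : ℝ), χ1.IsPrimitive → χ2.IsPrimitive → NeX χ1 y1 χ2 y2 →
    ∀ c0 : ℝ, 0 < c0 →
    ∃ T0 : ℝ, 2 ≤ T0 ∧ ∀ T l : ℝ, T0 ≤ T → dl / 2 * Real.log T ≤ l → l ≤ dl * Real.log T →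
      (∫ x in Ioi c0, ‖gg (beta (chx χ1 y1) (chx χ2 y2) l) (Hl l) (lamF (chx χ1 y1) (chx χ2 y2)) (1 / T) x‖ ^ 2) ≤
        C * T ∧
      ∀ Y : ℝ, (Real.log T) ^ (7 / 8 : ℝ) ≤ Y → Y ≤ 6 * dl * Real.log T →
        (∫ x in Ioc c0 (Real.exp Y),
          ‖gg (beta (chx χ1 y1) (chx χ2 y2) l) (Hl l) (lamF (chx χ1 y1) (chx χ2 y2)) (1 / T) x‖ ^ 2) ≤
          C * T * (Y / Real.log T) * (1 + Real.log (Real.log T / Y)) := by
  obtain ⟨C1, hC1, near'⟩ := EN_near_abs3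
  obtain ⟨C2, hC2, far'⟩ := EN_far_abs3
  have ha : 0 < 6 * dl := by unfold dl; norm_num
  have ha1 : 6 * dl < 1 := by unfold dl; norm_num
  obtain ⟨a, hae⟩ : ∃ a : ℝ, a = 6 * dl := ⟨_, rfl⟩
  rw [← hae] at ha ha1
  obtain ⟨K, hK⟩ : ∃ K : ℝ, K = Real.exp 2 * C1 := ⟨_, rfl⟩
  obtain ⟨M, hM⟩ : ∃ M : ℝ, M = a * (1 + Real.log (1 / a)) := ⟨_, rfl⟩
  have hM0 : 0 ≤ M := by
    have h1 : 0 ≤ Real.log (1 / a) := Real.log_nonneg (by rw [le_div_iff₀ ha]; linarith only [ha1])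
    rw [hM]
    exact mul_nonneg ha.le (by linarith only [h1])
  have hK1 : 0 < K := by rw [hK]; exact mul_pos (Real.exp_pos _) hC1
  refine ⟨(K + 3) + ((K + 3) * M + Real.exp 1 * C2), by
    have h1 : 0 < Real.exp 1 * C2 := mul_pos (Real.exp_pos _) hC2
    have h2 : 0 ≤ (K + 3) * M := mul_nonneg (by linarith only [hK1]) hM0
    linarith only [h1, h2, hK1], ?_⟩
  intro q1 q2 _ _ χ1 χ2 y1 y2 h1 h2 hne c0 hc0
  obtain ⟨T1, hT1, near⟩ := near' q1 q2 χ1 χ2 y1 y2 h1 h2 hne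
  obtain ⟨T2, hT2, far⟩ := far' q1 q2 χ1 χ2 y1 y2 hne
  clear near' far'
  obtain ⟨K0, hK0⟩ : ∃ K0 : ℝ, K0 = Real.exp (1 / c0 + Real.exp 1) := ⟨_, rfl⟩
  have hK00 : 0 < K0 := by rw [hK0]; exact Real.exp_pos _
  obtain ⟨T3, hT3, pw⟩ := EN_num.2.2 (1 - 2 / 10 ^ 7) (1 - 1 / 10 ^ 7) (Real.exp 2 + K0) (by norm_num)
  obtain ⟨T4, hT4, pw4⟩ := EN_num.2.2 (1 - 5 / 10 ^ 8) 1 (2 * 10 ^ 7) (by norm_num)
  obtain ⟨L1, hL1⟩ : ∃ L1 : ℝ, L1 = (10 * (K0 * C1)) ^ 16 + 4 + (1 / a) ^ 8 := ⟨_, rfl⟩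
  refine ⟨max (max (max T1 T2) (max T3 T4)) (max 10 (Real.exp L1)), ?_, ?_⟩
  · exact hT1.trans ((le_max_left _ _).trans ((le_max_left _ _).trans (le_max_left _ _)))
  intro T l hT hl1 hl2
  have t1 : T1 ≤ T := ((le_max_left _ _).trans ((le_max_left _ _).trans (le_max_left _ _))).trans hT
  have t2 : T2 ≤ T := ((le_max_right _ _).trans ((le_max_left _ _).trans (le_max_left _ _))).trans hT
  have t3 : T3 ≤ T := ((le_max_left _ _).trans ((le_max_right _ _).trans (le_max_left _ _))).trans hT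
  have t4 : T4 ≤ T := ((le_max_right _ _).trans ((le_max_right _ _).trans (le_max_left _ _))).trans hT
  have hT10 : 10 ≤ T := ((le_max_left _ _).trans (le_max_right _ _)).trans hT
  have hTY : Real.exp L1 ≤ T := ((le_max_right _ _).trans (le_max_right _ _)).trans hT
  have hT0 : 0 < T := by linarith only [hT10]
  have near2 := fun Y => near T l Y t1 hl1 hl2
  have far2 := far T l t2 hl1 hl2
  have pw' := pw T t3
  have pw4' := pw4 T t4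
  clear near far pw pw4 hT
  obtain ⟨L, hL⟩ : ∃ L : ℝ, L = Real.log T := ⟨_, rfl⟩
  rw [← hL, ← hae] at near2
  rw [← hL, ← hae]
  have hLm : L1 ≤ L := by
    rw [hL, Real.le_log_iff_exp_le hT0]; exact hTY
  rw [hL1] at hLm
  have hpa : 0 ≤ 10 * (K0 * C1) := mul_nonneg (by norm_num) (mul_pos hK00 hC1).le
  have hpa16 : 0 ≤ (10 * (K0 * C1)) ^ 16 := pow_nonneg hpa _
  have hpb : 0 ≤ (1 / a) ^ 8 := pow_nonneg (one_div_nonneg.2 ha.le) _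
  have hL4 : 4 ≤ L := by linarith only [hLm, hpa16, hpb]
  have hL0 : 0 < L := by linarith only [hL4]
  have hL16 := EN_abs3_L16 _ L hpa (by linarith only [hLm, hpb])
  have hL8 := EN_abs3_L8 a L ha hL0 (by linarith only [hLm, hpa16])
  have hsmall := EN_abs3_small T L hT0 hL hL0 pw4'
  have hint := Wgg_integrable (beta (chx χ1 y1) (chx χ2 y2) l) (lamF (chx χ1 y1) (chx χ2 y2)) (Hl l) 1 (1 / T)
    (C11_lam χ1 χ2 y1 y2) (one_div_pos.2 hT0) (one_div_le_one_div_of_le (by norm_num) hT10)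
  have hR : 0 ≤ T ^ (1 - 2 / 10 ^ 7 : ℝ) := Real.rpow_nonneg hT0.le _
  rw [add_mul] at pw'
  have hR1 := mul_nonneg hK00.le hR
  have hR2 := mul_nonneg (Real.exp_pos 2).le hR
  exact EN_abs3_core _ a T L (T ^ (1 - 2 / 10 ^ 7 : ℝ)) C1 C2 c0 K0 (T ^ (6 * dl)) K M ha ha1 hT0 hL4 hC1 hC2
    hc0 hK0 hL16 hL8 (by linarith only [pw', hsmall, hR1]) (by linarith only [pw', hsmall, hR2])
    (fun x => sq_nonneg _) hint.1 hint.2 near2
    (by rw [← hae, hL, Real.rpow_def_of_pos hT0, mul_comm]) far2 hK hM hM0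

end OO

end
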