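import Pool.Agent.Lib.MP_0f5a55_nt.OM.K000

section

open Complex MeasureTheory Set Filter Topology
open scoped ComplexConjugate

namespace OO

private lemma OA15_young (a b m : ℝ) (hm : 0 < m) : a * b ≤ m / 2 * a ^ 2 + b ^ 2 / (2 * m) := by
  have h : m / 2 * a ^ 2 + b ^ 2 / (2 * m) - a * b = (m * a - b) ^ 2 / (2 * m) := by
    field_simp
    ring
  have h2 : 0 ≤ (m * a - b) ^ 2 / (2 * m) := by positivity
  linarith only [h, h2]

private theorem F_first_young (a b m : ℝ) (hm : 0 < m) : a * |b| ≤ m / 2 * a ^ 2 + 1 / (2 * m) * b ^ 2 := by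
  have h : m / 2 * a ^ 2 + 1 / (2 * m) * b ^ 2 - a * |b| = (m * a - |b|) ^ 2 / (2 * m) := by
    rw [← sq_abs b]
    field_simp
    ring
  have h2 : 0 ≤ (m * a - |b|) ^ 2 / (2 * m) := div_nonneg (sq_nonneg _) (by linarith only [hm])
  rw [← h] at h2
  exact sub_nonneg.mp h2

private theorem F_first_cs (f a b : ℝ → ℝ) (s : Set ℝ) (hs : MeasurableSet s) (m : ℝ) (hm : 0 < m)
    (hf : IntegrableOn f s) (ha : IntegrableOn (fun t => a t ^ 2) s) (hb : IntegrableOn (fun t => b t ^ 2) s)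
    (hfab : ∀ t : ℝ, f t = a t * |b t|) :
    (∫ t in s, f t) ≤ m / 2 * (∫ t in s, a t ^ 2) + 1 / (2 * m) * ∫ t in s, b t ^ 2 := by
  have h1 : IntegrableOn (fun t => m / 2 * a t ^ 2) s := ha.const_mul _
  have h2 : IntegrableOn (fun t => 1 / (2 * m) * b t ^ 2) s := hb.const_mul _
  rw [← integral_const_mul, ← integral_const_mul, ← integral_add h1 h2]
  refine setIntegral_mono_on hf (h1.add h2) hs fun t _ => ?_
  rw [hfab t]
  exact F_first_young (a t) (b t) m hm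

private theorem F_first_num1 (T I s : ℝ) (hT0 : 0 < T) (hI0 : 0 ≤ I) (hs : s ≤ 1.4143) (h : T / 2 ≤ s * I) :
    0.3535 * T ≤ I := by
  have h3 : s * I ≤ 1.4143 * I := mul_le_mul_of_nonneg_right hs hI0
  linarith only [h3, h, hT0]

private theorem F_first_sqrt2 : Real.sqrt 2 ≤ 1.4143 := by
  rw [Real.sqrt_le_left (by norm_num)]
  norm_num

private theorem F_first_num2 (T C J : ℝ) (hT0 : 0 < T) (hTC : 10 ^ 6 * C ≤ T) (hJ : J ≤ C * T) :
    T / 1000 / 2 * 1 + 1 / (2 * (T / 1000)) * J ≤ T / 1000 := by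
  have h1 : 1 / (2 * (T / 1000)) * J ≤ 1 / (2 * (T / 1000)) * (C * T) :=
    mul_le_mul_of_nonneg_left hJ (le_of_lt (one_div_pos.mpr (by linarith only [hT0])))
  have h2 : 1 / (2 * (T / 1000)) * (C * T) = 500 * C := by
    field_simp
    ring
  rw [h2] at h1
  linarith only [h1, hTC]

private theorem F_first_num3 (T E S J K : ℝ) (hT0 : 0 < T) (hE0 : 0 < E) (hS0 : 0 < S) (hJ : J = T * (E * E))
    (hK : K ≤ S * S * T) (hES : E * S ≤ 1 / 200) : S / E / 2 * J + 1 / (2 * (S / E)) * K ≤ T / 200 := by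
  have hm : 0 < 2 * (S / E) := mul_pos two_pos (div_pos hS0 hE0)
  have h1 : 1 / (2 * (S / E)) * K ≤ 1 / (2 * (S / E)) * (S * S * T) :=
    mul_le_mul_of_nonneg_left hK (le_of_lt (one_div_pos.mpr hm))
  have h2 : 1 / (2 * (S / E)) * (S * S * T) = E * S * T / 2 := by field_simp
  have h3 : S / E / 2 * (T * (E * E)) = E * S * T / 2 := by field_simp
  have h4 : E * S * T ≤ 1 / 200 * T := mul_le_mul_of_nonneg_right hES hT0.le
  rw [hJ, h3]
  rw [h2] at h1
  linarith only [h1, h4]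

private theorem F_first_exp2 (T t : ℝ) : Real.exp (-(t / (2 * T))) ^ 2 = Real.exp (-(t / T)) := by
  rw [sq, ← Real.exp_add, ← neg_add, ← add_div, ← two_mul, mul_div_mul_left _ _ two_ne_zero]

private theorem F_first_expint (T B : ℝ) (hT0 : 0 < T) :
    IntegrableOn (fun t : ℝ => Real.exp (-(t / (2 * T))) ^ 2) (Ioi (B * T)) ∧
      (∫ t in Ioi (B * T), Real.exp (-(t / (2 * T))) ^ 2) = T * Real.exp (-B) := by
  have hn : -(1 / T) < 0 := neg_lt_zero.mpr (one_div_pos.mpr hT0)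
  have e : (fun t : ℝ => Real.exp (-(t / (2 * T))) ^ 2) = fun t => Real.exp (-(1 / T) * t) := by
    funext t
    rw [F_first_exp2 T t, neg_mul, one_div_mul_eq_div]
  rw [e]
  refine ⟨integrableOn_exp_mul_Ioi hn (B * T), ?_⟩
  rw [integral_exp_mul_Ioi hn (B * T)]
  have h11 : -(1 / T) * (B * T) = -B := by
    rw [neg_mul, mul_comm B T, ← mul_assoc, one_div_mul_cancel hT0.ne', one_mul]
  rw [h11, neg_div_neg_eq, div_div_eq_mul_div, div_one, mul_comm]

private theorem F_first_A (r : ℝ → ℝ) (T C : ℝ) (habs : Integrable (fun t => |r t|))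
    (hsq : Integrable (fun t => r t ^ 2)) (hT0 : 0 < T) (hTC : 10 ^ 6 * C ≤ T) (h1 : (∫ t, r t ^ 2) ≤ C * T) :
    (∫ t in Ioc (0 : ℝ) 1, |r t|) ≤ T / 1000 := by
  have h := F_first_cs (fun t => |r t|) (fun _ => 1) r (Ioc (0 : ℝ) 1) measurableSet_Ioc (T / 1000)
    (div_pos hT0 (by norm_num)) habs.integrableOn continuous_const.integrableOn_Ioc hsq.integrableOn
    (fun t => (one_mul _).symm)
  have h7 : (∫ _ in Ioc (0 : ℝ) 1, (1 : ℝ) ^ 2) = 1 := by simp
  rw [h7] at h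
  exact h.trans (F_first_num2 T C _ hT0 hTC
    ((setIntegral_le_integral hsq (Eventually.of_forall fun t => sq_nonneg _)).trans h1))

private theorem F_first_D (r r' : ℝ → ℝ) (T B C : ℝ) (habs : Integrable (fun t => |r t|))
    (hsq' : Integrable (fun t => r' t ^ 2)) (hT0 : 0 < T)
    (hC : 0 < C) (hBC : Real.exp (-(B / 2)) * Real.sqrt (2 * C) ≤ 1 / 200)
    (hrr : ∀ t : ℝ, |r t| = Real.exp (-(t / (2 * T))) * |r' t|)
    (h2 : (∫ t, r' t ^ 2) ≤ 2 * C * T) : (∫ t in Ioi (B * T), |r t|) ≤ T / 200 := by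
  have hC2 : 0 < 2 * C := mul_pos two_pos hC
  have hS0 : 0 < Real.sqrt (2 * C) := Real.sqrt_pos.mpr hC2
  have hE0 : 0 < Real.exp (-(B / 2)) := Real.exp_pos _
  have hEE : Real.exp (-(B / 2)) * Real.exp (-(B / 2)) = Real.exp (-B) := by
    rw [← Real.exp_add, ← neg_add, add_halves]
  have h := F_first_cs (fun t => |r t|) (fun t => Real.exp (-(t / (2 * T)))) r' (Ioi (B * T)) measurableSet_Ioi
    (Real.sqrt (2 * C) / Real.exp (-(B / 2))) (div_pos hS0 hE0) habs.integrableOn (F_first_expint T B hT0).1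
    hsq'.integrableOn hrr
  refine h.trans (F_first_num3 T _ _ _ _ hT0 hE0 hS0 ?_ ?_ hBC)
  · rw [hEE]
    exact (F_first_expint T B hT0).2
  · rw [Real.mul_self_sqrt hC2.le]
    exact (setIntegral_le_integral hsq' (Eventually.of_forall fun t => sq_nonneg _)).trans h2

private theorem F_first_split (f : ℝ → ℝ) (hf : Integrable f) (a b : ℝ) (hab : a ≤ b) :
    (∫ t in Ioi a, f t) = (∫ t in Ioc a b, f t) + ∫ t in Ioi b, f t := by
  rw [← Ioc_union_Ioi_eq_Ioi hab]
  exact setIntegral_union (Ioc_disjoint_Ioi le_rfl) measurableSet_Ioi hf.integrableOn hf.integrableOn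

private theorem F_first_I (r P : ℝ → ℝ) (T : ℝ) (habs : Integrable (fun t => |r t|)) (hT0 : 0 < T)
    (hP : ∀ t : ℝ, 0 ≤ t → Real.exp (-(t / T)) * P t ≤ Real.sqrt 2 * |r t|)
    (hPT : T / 2 ≤ ∫ t in Ioi (0 : ℝ), Real.exp (-(t / T)) * P t) :
    0.3535 * T ≤ ∫ t in Ioi (0 : ℝ), |r t| := by
  have hPint : IntegrableOn (fun t => Real.exp (-(t / T)) * P t) (Ioi (0 : ℝ)) := by
    by_contra hcon
    rw [integral_undef hcon] at hPT
    linarith only [hT0, hPT]
  refine F_first_num1 T _ _ hT0 (setIntegral_nonneg measurableSet_Ioi fun t _ => abs_nonneg _) F_first_sqrt2 ?_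
  rw [← integral_const_mul]
  exact hPT.trans (setIntegral_mono_on hPint ((habs.const_mul _).integrableOn) measurableSet_Ioi
    fun t ht => hP t (le_of_lt ht))

/-- Real analysis for the first moment. PROOF. `∫_0^oo |r| ≥ 2^(-1/2) ∫_0^oo e^(-t/T) P ≥ 2^(-1/2) T/2 ≥ 0.353 T`.
`∫_0^1 |r| ≤ (∫ r^2)^(1/2) ≤ (CT)^(1/2) ≤ T/1000` (Cauchy-Schwarz on `(0,1]`, `T ≥ 10^6 C`).
`∫_(BT)^oo |r| = ∫_(BT)^oo e^(-t/(2T)) |r'| ≤ (∫_(BT)^oo e^(-t/T))^(1/2) (∫ r'^2)^(1/2) ≤ (T e^(-B))^(1/2) (2CT)^(1/2) =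
e^(-B/2) (2C)^(1/2) T ≤ T/200`. So `∫_1^(BT) |r| = ∫_0^oo - ∫_0^1 - ∫_(BT)^oo ≥ T (0.353 - 0.001 - 0.005) ≥ T/3`
(`BT ≥ 1`). Cauchy-Schwarz for integrals: `MeasureTheory.integral_mul_le_Lp_mul_Lq_of_nonneg` with `p = q = 2`, or from
`2ab ≤ λa^2 + b^2/λ`. -/
theorem F_first (r r' P : ℝ → ℝ) (T B C : ℝ) (hr : Continuous r) (hr' : Continuous r') (hint : Integrable r)
    (hsq : Integrable (fun t => r t ^ 2)) (hsq' : Integrable (fun t => r' t ^ 2)) (hT : 1 ≤ T) (hB : 1 ≤ B)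
    (hC : 0 < C) (hTC : 10 ^ 6 * C ≤ T) (hBC : Real.exp (-(B / 2)) * Real.sqrt (2 * C) ≤ 1 / 200)
    (hrr : ∀ t : ℝ, |r t| = Real.exp (-(t / (2 * T))) * |r' t|)
    (hP : ∀ t : ℝ, 0 ≤ t → Real.exp (-(t / T)) * P t ≤ Real.sqrt 2 * |r t|) (hP0 : ∀ t : ℝ, 0 ≤ P t)
    (hPT : T / 2 ≤ ∫ t in Ioi (0 : ℝ), Real.exp (-(t / T)) * P t) (h1 : (∫ t, r t ^ 2) ≤ C * T)
    (h2 : (∫ t, r' t ^ 2) ≤ 2 * C * T) : T / 3 ≤ ∫ t in Ioc (1 : ℝ) (B * T), |r t| := by
  have hT0 : 0 < T := lt_of_lt_of_le one_pos hT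
  have hBT : 1 ≤ B * T := one_le_mul_of_one_le_of_one_le hB hT
  have habs : Integrable (fun t => |r t|) := hint.abs
  have hI := F_first_I r P T habs hT0 hP hPT
  have hA := F_first_A r T C habs hsq hT0 hTC h1
  have hD := F_first_D r r' T B C habs hsq' hT0 hC hBC hrr h2
  rw [F_first_split _ habs 0 1 zero_le_one, F_first_split _ habs 1 (B * T) hBT] at hI
  linarith only [hT0, hI, hA, hD]

end OO

end

section

open Complex MeasureTheory Set Filter Topology
open scoped ComplexConjugate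

namespace OO

theorem OA12_prim {g : ℝ → ℝ} (hg : Continuous g) :
    Continuous (fun x => ∫ s in (0 : ℝ)..x, g s) :=
  intervalIntegral.continuous_primitive (fun a b => hg.intervalIntegrable a b) 0

theorem OA12_split {g : ℝ → ℝ} (hg : Continuous g) (t h : ℝ) :
    ∫ s in t..(t + h), g s = (∫ s in (0 : ℝ)..(t + h), g s) - ∫ s in (0 : ℝ)..t, g s :=
  (intervalIntegral.integral_interval_sub_left (hg.intervalIntegrable _ _)
    (hg.intervalIntegrable _ _)).symm

theorem OA12_cont {g : ℝ → ℝ} (hg : Continuous g) (h : ℝ) :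
    Continuous (fun t => ∫ s in t..(t + h), g s) := by
  have e : (fun t => ∫ s in t..(t + h), g s) =
      fun t => (∫ s in (0 : ℝ)..(t + h), g s) - ∫ s in (0 : ℝ)..t, g s :=
    funext fun t => OA12_split hg t h
  rw [e]
  exact ((OA12_prim hg).comp (continuous_id.add continuous_const)).sub (OA12_prim hg)

theorem OA12_avg {g : ℝ → ℝ} (hg : Continuous g) (h X : ℝ) :
    ∫ t in (0 : ℝ)..X, (∫ s in t..(t + h), g s) =
      (∫ t in X..(X + h), ∫ s in (0 : ℝ)..t, g s) -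
        ∫ t in (0 : ℝ)..h, ∫ s in (0 : ℝ)..t, g s := by
  have hP := OA12_prim hg
  have hP' : Continuous (fun t => ∫ s in (0 : ℝ)..(t + h), g s) :=
    hP.comp (continuous_id.add continuous_const)
  simp_rw [OA12_split hg]
  rw [intervalIntegral.integral_sub (hP'.intervalIntegrable _ _) (hP.intervalIntegrable _ _)]
  have e1 : ∫ t in (0 : ℝ)..X, (∫ s in (0 : ℝ)..(t + h), g s) =
      ∫ t in h..(X + h), (∫ s in (0 : ℝ)..t, g s) := by
    have := intervalIntegral.integral_comp_add_right (a := 0) (b := X)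
      (fun t => ∫ s in (0 : ℝ)..t, g s) h
    rw [zero_add] at this
    exact this
  rw [e1]
  have e2 := intervalIntegral.integral_add_adjacent_intervals (hP.intervalIntegrable 0 h)
    (hP.intervalIntegrable h (X + h)) (μ := volume)
  have e3 := intervalIntegral.integral_add_adjacent_intervals (hP.intervalIntegrable 0 X)
    (hP.intervalIntegrable X (X + h)) (μ := volume)
  linarith only [e2, e3]

theorem OA12_low {g : ℝ → ℝ} (hg : Continuous g) (hg0 : ∀ x, 0 ≤ g x) {h X : ℝ} (hh : 0 < h)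
    (hh1 : h ≤ 1) :
    h * (∫ s in (1 : ℝ)..X, g s) ≤ ∫ t in (0 : ℝ)..X, (∫ s in t..(t + h), g s) := by
  have hP := OA12_prim hg
  have hmono : ∀ a b : ℝ, a ≤ b → (∫ s in (0 : ℝ)..a, g s) ≤ ∫ s in (0 : ℝ)..b, g s := by
    intro a b hab
    have h1 := intervalIntegral.integral_add_adjacent_intervals (hg.intervalIntegrable 0 a)
      (hg.intervalIntegrable a b) (μ := volume)
    have h2 : 0 ≤ ∫ s in a..b, g s := intervalIntegral.integral_nonneg hab fun x _ => hg0 x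
    linarith only [h1, h2]
  rw [OA12_avg hg]
  have h1 : h * (∫ s in (0 : ℝ)..X, g s) ≤ ∫ t in X..(X + h), ∫ s in (0 : ℝ)..t, g s := by
    have h2 := intervalIntegral.integral_mono_on (a := X) (b := X + h)
      (f := fun _ => ∫ s in (0 : ℝ)..X, g s) (g := fun t => ∫ s in (0 : ℝ)..t, g s) (μ := volume)
      (by linarith only [hh]) (continuous_const.intervalIntegrable _ _) (hP.intervalIntegrable _ _)
      (fun t ht => hmono X t ht.1)
    rw [intervalIntegral.integral_const, smul_eq_mul] at h2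
    have e : X + h - X = h := by ring
    rwa [e] at h2
  have h2 : ∫ t in (0 : ℝ)..h, (∫ s in (0 : ℝ)..t, g s) ≤ h * ∫ s in (0 : ℝ)..h, g s := by
    have h3 := intervalIntegral.integral_mono_on (a := 0) (b := h)
      (f := fun t => ∫ s in (0 : ℝ)..t, g s) (g := fun _ => ∫ s in (0 : ℝ)..h, g s) (μ := volume)
      hh.le (hP.intervalIntegrable _ _) (continuous_const.intervalIntegrable _ _)
      (fun t ht => hmono t h ht.2)
    rw [intervalIntegral.integral_const, smul_eq_mul, sub_zero] at h3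
    exact h3
  have h3 := intervalIntegral.integral_add_adjacent_intervals (hg.intervalIntegrable 0 1)
    (hg.intervalIntegrable 1 X) (μ := volume)
  have h4 := mul_le_mul_of_nonneg_left (hmono h 1 hh1) hh.le
  have h5 : h * (∫ s in (0 : ℝ)..X, g s) = h * (∫ s in (0 : ℝ)..1, g s) +
      h * ∫ s in (1 : ℝ)..X, g s := by
    rw [← h3]
    ring
  linarith only [h1, h2, h4, h5]

theorem OA12_up {g : ℝ → ℝ} (hg : Continuous g) (hg0 : ∀ x, 0 ≤ g x) (hgi : Integrable g)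
    {h X : ℝ} (hh : 0 < h) (hX : 0 ≤ X) :
    ∫ t in (0 : ℝ)..X, (∫ s in t..(t + h), g s) ≤ h * ∫ s, g s := by
  have hP := OA12_prim hg
  have hle : ∀ t : ℝ, 0 ≤ t → (∫ s in (0 : ℝ)..t, g s) ≤ ∫ s, g s := by
    intro t ht
    rw [intervalIntegral.integral_of_le ht]
    exact setIntegral_le_integral hgi (Filter.Eventually.of_forall hg0)
  rw [OA12_avg hg]
  have h1 : ∫ t in X..(X + h), (∫ s in (0 : ℝ)..t, g s) ≤ h * ∫ s, g s := by
    have h2 := intervalIntegral.integral_mono_on (a := X) (b := X + h)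
      (f := fun t => ∫ s in (0 : ℝ)..t, g s) (g := fun _ => ∫ s, g s) (μ := volume)
      (by linarith only [hh]) (hP.intervalIntegrable _ _) (continuous_const.intervalIntegrable _ _)
      (fun t ht => hle t (hX.trans ht.1))
    rw [intervalIntegral.integral_const, smul_eq_mul] at h2
    have e : X + h - X = h := by ring
    rwa [e] at h2
  have h2 : 0 ≤ ∫ t in (0 : ℝ)..h, (∫ s in (0 : ℝ)..t, g s) :=
    intervalIntegral.integral_nonneg hh.le fun t ht =>
      intervalIntegral.integral_nonneg ht.1 fun x _ => hg0 x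
  linarith only [h1, h2]

theorem OA12_lin {f : ℝ → ℝ} (hf : Continuous f) (a b c d : ℝ) :
    ∫ t in a..b, (c * f t + d) = c * (∫ t in a..b, f t) + (b - a) * d := by
  have h1 : Continuous fun t => c * f t := continuous_const.mul hf
  have h2 := intervalIntegral.integral_add (a := a) (b := b) (f := fun t => c * f t)
    (g := fun _ => d) (μ := volume) (h1.intervalIntegrable _ _)
    (continuous_const.intervalIntegrable _ _)
  rw [intervalIntegral.integral_const_mul, intervalIntegral.integral_const, smul_eq_mul] at h2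
  exact h2

theorem F_real_pt (a C : ℝ) (hC : 0 < C) : |a| ≤ 1 / (8 * C) * a ^ 2 + 2 * C := by
  have e : C⁻¹ * C = 1 := inv_mul_cancel₀ hC.ne'
  have h1 : 0 ≤ (|a| - 4 * C) ^ 2 * C⁻¹ := mul_nonneg (sq_nonneg _) (inv_nonneg.2 hC.le)
  have h2 : 1 / (8 * C) = 8⁻¹ * C⁻¹ := by rw [one_div, mul_inv]
  have h3 : (|a| - 4 * C) ^ 2 * C⁻¹ =
      |a| ^ 2 * C⁻¹ - 8 * |a| * (C⁻¹ * C) + 16 * C * (C⁻¹ * C) := by ring
  rw [e, sq_abs] at h3
  rw [h2]
  linarith only [h1, h3]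

theorem F_real_cs {f : ℝ → ℝ} (hf : Continuous f) (a b C : ℝ) (hab : a ≤ b) (hC : 0 < C) :
    ∫ x in a..b, |f x| ≤ 1 / (8 * C) * (∫ x in a..b, f x ^ 2) + (b - a) * (2 * C) := by
  have h0 : Continuous fun x => f x ^ 2 := hf.pow 2
  have h1 : Continuous fun x => 1 / (8 * C) * f x ^ 2 + 2 * C :=
    (continuous_const.mul h0).add continuous_const
  rw [← OA12_lin h0]
  exact intervalIntegral.integral_mono_on hab (hf.abs.intervalIntegrable a b)
    (h1.intervalIntegrable a b) fun x _ => F_real_pt (f x) C hC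

theorem F_real_add (E : Set ℝ) (f : ℝ → ℝ) (d : ℝ) (hf : IntegrableOn f E)
    (hE : volume E ≠ ⊤) :
    ∫ t in E, (f t + d) = (∫ t in E, f t) + d * (volume E).toReal := by
  have h1 : ∫ t in E, (f t + d) = (∫ t in E, f t) + ∫ _ in E, d :=
    integral_add hf (integrableOn_const hE)
  have h2 : ∫ _ in E, d = (volume E).toReal • d := setIntegral_const d
  rw [h1, h2, smul_eq_mul, mul_comm]

theorem F_real_on {X : ℝ} {f : ℝ → ℝ} (hf : Continuous f) : IntegrableOn f (Ioo (0 : ℝ) X) :=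
  (hf.integrableOn_Icc (a := 0) (b := X)).mono_set Ioo_subset_Icc_self

theorem F_real_set {X : ℝ} (hX : 0 ≤ X) (f : ℝ → ℝ) :
    ∫ t in Ioo (0 : ℝ) X, f t = ∫ t in (0 : ℝ)..X, f t := by
  rw [intervalIntegral.integral_of_le hX, integral_Ioc_eq_integral_Ioo]

theorem F_real_main {I J R : ℝ → ℝ} (hIc : Continuous I) (hJc : Continuous J)
    (hRc : Continuous R) {X c d : ℝ} (hX : 0 ≤ X) (hc : 0 ≤ c)
    (hIJ : ∀ t, |I t| ≤ J t) (hJR : ∀ t, J t ≤ c * R t + d) (hR0 : ∀ t, 0 ≤ R t)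
    (E : Set ℝ) (hE : E = {t ∈ Ioo (0 : ℝ) X | |I t| < J t}) (hEfin : volume E ≠ ⊤) :
    (∫ t in (0 : ℝ)..X, J t) - (∫ t in (0 : ℝ)..X, |I t|) ≤
      c * (∫ t in (0 : ℝ)..X, R t) + d * (volume E).toReal := by
  have hIa : Continuous fun t => |I t| := hIc.abs
  have hcR : Continuous fun t => c * R t := continuous_const.mul hRc
  have hcd : Continuous fun t => c * R t + d := hcR.add continuous_const
  have hJI : Continuous fun t => J t - |I t| := hJc.sub hIa
  have hEm : MeasurableSet E := by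
    rw [hE]
    exact measurableSet_Ioo.inter (measurableSet_lt hIa.measurable hJc.measurable)
  have hEsub : E ⊆ Ioo (0 : ℝ) X := by
    rw [hE]
    exact fun t ht => ht.1
  have k1 : (∫ t in (0 : ℝ)..X, J t) - (∫ t in (0 : ℝ)..X, |I t|) =
      ∫ t in Ioo (0 : ℝ) X, (J t - |I t|) := by
    rw [F_real_set hX, intervalIntegral.integral_sub (hJc.intervalIntegrable 0 X)
      (hIa.intervalIntegrable 0 X)]
  have k2 : ∫ t in Ioo (0 : ℝ) X, (J t - |I t|) = ∫ t in E, (J t - |I t|) := by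
    refine setIntegral_eq_of_subset_of_forall_sdiff_eq_zero measurableSet_Ioo hEsub ?_
    intro t ht
    have h1 : ¬ |I t| < J t := fun h2 => ht.2 (by rw [hE]; exact ⟨ht.1, h2⟩)
    exact sub_eq_zero.2 (le_antisymm (not_lt.1 h1) (hIJ t))
  have k3 : ∫ t in E, (J t - |I t|) ≤ ∫ t in E, (c * R t + d) :=
    setIntegral_mono_on ((F_real_on hJI).mono_set hEsub) ((F_real_on hcd).mono_set hEsub) hEm
      fun t _ => (sub_le_self _ (abs_nonneg _)).trans (hJR t)
  have k4 : ∫ t in E, c * R t ≤ ∫ t in Ioo (0 : ℝ) X, c * R t :=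
    setIntegral_mono_set (F_real_on hcR)
      (Filter.Eventually.of_forall fun t => mul_nonneg hc (hR0 t)) (LE.le.eventuallyLE hEsub)
  rw [F_real_set hX, intervalIntegral.integral_const_mul] at k4
  rw [F_real_add E (fun t => c * R t) d ((F_real_on hcR).mono_set hEsub) hEfin] at k3
  rw [k1, k2]
  exact k3.trans (add_le_add_left k4 _)

theorem F_real_num1 (h T B x y : ℝ) (hh : 0 < h) (hB : 0 < B)
    (hx : x ≤ h ^ 2 * T / (10 ^ 4 * B))
    (hy : y ≤ 1 / (8 * (h / (400 * B))) * x + (B * T - 0) * (2 * (h / (400 * B)))) :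
    y ≤ h * T / 100 := by
  have e1 : h⁻¹ * h = 1 := inv_mul_cancel₀ hh.ne'
  have e2 : B⁻¹ * B = 1 := inv_mul_cancel₀ hB.ne'
  have h1 : 1 / (8 * (h / (400 * B))) = 50 * B * h⁻¹ := by
    rw [one_div, mul_inv, inv_div, div_eq_mul_inv]
    ring
  have h2 : h ^ 2 * T / (10 ^ 4 * B) = h ^ 2 * T * B⁻¹ * (10 ^ 4)⁻¹ := by
    rw [div_eq_mul_inv, mul_inv]
    ring
  have h3 : h / (400 * B) = h * B⁻¹ * 400⁻¹ := by
    rw [div_eq_mul_inv, mul_inv]
    ring
  have h4 : 0 ≤ 50 * B * h⁻¹ := by positivity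
  rw [h1, h3] at hy
  rw [h2] at hx
  have h5 := mul_le_mul_of_nonneg_left hx h4
  have h6 : 50 * B * h⁻¹ * (h ^ 2 * T * B⁻¹ * (10 ^ 4)⁻¹) = h * T / 200 := by
    linear_combination (h * T / 200 * (B⁻¹ * B)) * e1 + (h * T / 200) * e2
  have h7 : (B * T - 0) * (2 * (h * B⁻¹ * 400⁻¹)) = h * T / 200 := by
    linear_combination (h * T / 200) * e2
  rw [h6] at h5
  rw [h7] at hy
  linarith only [h5, hy]

theorem F_real_num2 (h T C v j i rr : ℝ) (hh : 0 < h) (hT : 0 < T) (hC : 0 < C)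
    (hj : h * (T / 3) ≤ j) (hi : i ≤ h * T / 100) (hr : rr ≤ h * (C * T))
    (hm : j - i ≤ 1 / (8 * C) * rr + h * (2 * C) * v) : T / (16 * C) ≤ v := by
  have e : C⁻¹ * C = 1 := inv_mul_cancel₀ hC.ne'
  have h2 : 1 / (8 * C) = 8⁻¹ * C⁻¹ := by rw [one_div, mul_inv]
  rw [h2] at hm
  have h3 : 0 ≤ 8⁻¹ * C⁻¹ := by positivity
  have h4 := mul_le_mul_of_nonneg_left hr h3
  have h5 : 8⁻¹ * C⁻¹ * (h * (C * T)) = h * T / 8 := by
    linear_combination (h * T / 8) * e
  have h6 : 0 < h * T := mul_pos hh hT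
  have h7 : h * T ≤ h * (16 * C * v) := by linarith only [hj, hi, hm, h4, h5, h6]
  have h8 : T ≤ v * (16 * C) := by linarith only [le_of_mul_le_mul_left h7 hh]
  exact (div_le_iff₀ (mul_pos (by norm_num) hC)).2 h8

/-- Real analysis: the set where the short integral of `|r|` exceeds the absolute value of the short integral of `r`.

PROOF. `J(t) = ∫_t^(t+h) |r|`, `I(t) = ∫_t^(t+h) r`, both continuous in `t`, `|I| ≤ J`. (1) Fubini
(`J(t) = ∫_0^h |r(t+s)| ds`): `∫_0^(BT) J = ∫_0^h ∫_s^(BT+s) |r| ≥ h ∫_1^(BT) |r| ≥ h T/3` (as `h ≤ 1`, `r` integrable).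
(2) Cauchy-Schwarz: `∫_0^(BT) |I| ≤ (BT)^(1/2) (∫ I^2)^(1/2) ≤ h T/100`. (3) So `∫_E (J - |I|) = ∫_0^(BT) (J-|I|) ≥ hT/4`
for `E` the set in the theorem (off `E`, `J = |I|`). (4) `J^2 ≤ h ∫_t^(t+h) r^2` (Cauchy-Schwarz), so
`∫ J^2 ≤ h^2 ∫ r^2 ≤ h^2 C T` (Fubini), and `∫_E (J - |I|) ≤ ∫_E J ≤ |E|^(1/2) (h^2 C T)^(1/2)`. Hence
`|E| ≥ (hT/4)^2/(h^2 C T) = T/(16 C)`. (`E` is open in `Ioo`, measurable, of finite measure.) -/
theorem F_real (r : ℝ → ℝ) (hr : Continuous r) (hint : Integrable r) (hsq : Integrable (fun t => r t ^ 2))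
    (h T B C : ℝ) (hh : 0 < h) (hh1 : h ≤ 1) (hT : 1 ≤ T) (hB : 1 ≤ B) (hC : 0 < C)
    (ha : T / 3 ≤ ∫ t in Ioc (1 : ℝ) (B * T), |r t|) (hb : (∫ t, r t ^ 2) ≤ C * T)
    (hc : (∫ t, (∫ s in t..(t + h), r s) ^ 2) ≤ h ^ 2 * T / (10 ^ 4 * B))
    (hci : Integrable (fun t => (∫ s in t..(t + h), r s) ^ 2)) :
    ENNReal.ofReal (T / (16 * C)) ≤
      volume {t ∈ Ioo (0 : ℝ) (B * T) | |∫ s in t..(t + h), r s| < ∫ s in t..(t + h), |r s|} := by
  have hX0 : 0 < B * T := mul_pos (by linarith only [hB]) (by linarith only [hT])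
  have hX1 : 1 ≤ B * T := one_le_mul_of_one_le_of_one_le hB hT
  have hB0 : 0 < B := by linarith only [hB]
  have hT0 : 0 < T := by linarith only [hT]
  have hIc := OA12_cont hr h
  have hJc := OA12_cont hr.abs h
  have hRc := OA12_cont (hr.pow 2) h
  have hth : ∀ t : ℝ, t ≤ t + h := fun t => by linarith only [hh]
  have hEfin : volume {t ∈ Ioo (0 : ℝ) (B * T) |
      |∫ s in t..(t + h), r s| < ∫ s in t..(t + h), |r s|} ≠ ⊤ :=
    ((measure_mono (fun t ht => ht.1)).trans_lt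
      (by rw [Real.volume_Ioo]; exact ENNReal.ofReal_lt_top)).ne
  have hmain := F_real_main hIc hJc hRc hX0.le (c := 1 / (8 * C)) (d := h * (2 * C))
    (by positivity) (fun t => intervalIntegral.abs_integral_le_integral_abs (hth t))
    (fun t => by
      have h1 := F_real_cs hr t (t + h) C (hth t) hC
      rwa [add_sub_cancel_left] at h1)
    (fun t => intervalIntegral.integral_nonneg (hth t) fun x _ => sq_nonneg _) _ rfl hEfin
  have hi := F_real_cs hIc 0 (B * T) (h / (400 * B)) hX0.le (by positivity)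
  have hx : ∫ t in (0 : ℝ)..(B * T), (∫ s in t..(t + h), r s) ^ 2 ≤
      h ^ 2 * T / (10 ^ 4 * B) := by
    rw [intervalIntegral.integral_of_le hX0.le]
    exact (setIntegral_le_integral hci (Filter.Eventually.of_forall fun t => sq_nonneg _)).trans hc
  have hj := OA12_low hr.abs (fun x => abs_nonneg _) hh hh1 (X := B * T)
  rw [← intervalIntegral.integral_of_le hX1] at ha
  have hj2 := (mul_le_mul_of_nonneg_left ha hh.le).trans hj
  have hR := (OA12_up (hr.pow 2) (fun x => sq_nonneg _) hsq hh hX0.le).trans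
      (mul_le_mul_of_nonneg_left hb hh.le)
  exact (ENNReal.ofReal_le_iff_le_toReal hEfin).2 (F_real_num2 h T C _ _ _ _ hh hT0 hC hj2
    (F_real_num1 h T B _ _ hh hB0 hx hi) hR hmain)

end OO

end
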