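import Pool.Agent.Lib.MP_0f5a55_nt.OM.K000
import Pool.Agent.Lib.MP_0f5a55_nt.OM.K047
import Pool.Agent.Lib.MP_0f5a55_nt.OM.K050
import Pool.Agent.Lib.MP_0f5a55_nt.OM.K054
import Pool.Agent.Lib.MP_0f5a55_nt.OM.K055

section

open Complex MeasureTheory Set Filter Topology
open scoped ComplexConjugate

namespace OO

/-- Block T+X with shifts `y`, `-y`, ABSOLUTE constant `C`; `c0` and `Cx` depend on the characters and `y`. -/
theorem TX_main_abs3 : ∃ C : ℝ, 0 < C ∧ ∀ (q1 q2 : ℕ) [NeZero q1] [NeZero q2] (χ1 : DirichletCharacter ℂ q1)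
    (χ2 : DirichletCharacter ℂ q2) (y : ℝ), χ1.IsPrimitive → χ2.IsPrimitive → NeX χ1 y χ2 (-y) →
    ∃ c0 Cx : ℝ, 0 < c0 ∧ 0 < Cx ∧
    ∀ (b : ArithmeticFunction ℂ) (H : ℕ) (ε : ℝ), 1 ≤ H → (∀ h, H < h → b h = 0) → (∀ h, ‖b h‖ ≤ h) →
      0 < ε → ε ≤ 1 / 10 → ∃ r r0 : ℝ → ℝ, Continuous r ∧ Continuous r0 ∧
      (∀ t, r t = r0 t * ‖phi b H (1 / 2 + t * I)‖ ^ 2) ∧
      (∀ t, r t ^ 2 = Real.exp (-(2 * ε * t)) / (1 + Real.exp (-(2 * Real.pi * t))) *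
        (‖LX.Lf χ1 (1 / 2 + (t + y : ℝ) * I) * LX.Lf χ2 (1 / 2 + (t - y : ℝ) * I)‖ ^ 2 *
          ‖phi b H (1 / 2 + t * I)‖ ^ 4)) ∧
      (∃ u : ℝ → ℂ, Continuous u ∧ (∀ t, u t ≠ 0) ∧
        ∀ t, (r0 t : ℂ) = u t * (LX.Lf χ1 (1 / 2 + (t + y : ℝ) * I) * LX.Lf χ2 (1 / 2 + (t - y : ℝ) * I))) ∧
      Integrable r ∧ Integrable (fun t => r t ^ 2) ∧
      (∫ t, r t ^ 2) ≤ C * (∫ x in Ioi c0, ‖gg b H (lamF (chx χ1 y) (chx χ2 (-y))) ε x‖ ^ 2) + Cx * (H : ℝ) ^ 20 ∧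
      ∀ h X A : ℝ, 0 < h → h ≤ 1 → 1 ≤ X → 1 ≤ A → Integrable (fun t => (∫ s in t..(t + h), r s) ^ 2) ∧
        (∫ t, (∫ s in t..(t + h), r s) ^ 2) ≤
          C * (h ^ 2 * (∫ x in Ioc c0 (Real.exp (2 * Real.pi * X)),
              ‖gg b H (lamF (chx χ1 y) (chx χ2 (-y))) ε x‖ ^ 2) +
            X⁻¹ ^ 2 * (∫ x in Ioi c0, ‖gg b H (lamF (chx χ1 y) (chx χ2 (-y))) ε x‖ ^ 2)) +
          Cx * ((h ^ 2 + X⁻¹ ^ 2) * (A ^ 20 * (H : ℝ) ^ 20 +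
            A⁻¹ ^ 2 * (∫ x in Ioi c0, ‖gg b H (lamF (chx χ1 y) (chx χ2 (-y))) ε x‖ ^ 2))) :=
  X_TX_main_abs3 (fun b lam H B e h1 h2 h3 => gg_facts b lam H B e h1 h2 h3)

/-- Block F1 with shifts: the first moment. -/
theorem first_moment3 {q1 q2 : ℕ} [NeZero q1] [NeZero q2] (χ1 : DirichletCharacter ℂ q1)
    (χ2 : DirichletCharacter ℂ q2) (y : ℝ) (h1 : χ1.IsPrimitive) (h2 : χ2.IsPrimitive) : ∃ T0 : ℝ, 2 ≤ T0 ∧
      ∀ T l : ℝ, T0 ≤ T → dl / 2 * Real.log T ≤ l → l ≤ dl * Real.log T →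
      T / 2 ≤ ∫ t in Ioi (0 : ℝ), Real.exp (-(t / T)) *
        (‖LX.Lf χ1 (1 / 2 + (t + y : ℝ) * I) * LX.Lf χ2 (1 / 2 + (t - y : ℝ) * I)‖ *
        ‖phi (beta (chx χ1 y) (chx χ2 (-y)) l) (Hl l) (1 / 2 + t * I)‖ ^ 2) :=
  X_first_moment3 χ1 χ2 y h1 h2

end OO

end

section

open Complex MeasureTheory Set Filter Topology
open scoped ComplexConjugate

namespace OO

private theorem C16_B (C : ℝ) : ∃ B : ℝ, 1 ≤ B ∧ Real.exp (-(B / 2)) * Real.sqrt (2 * C) ≤ 1 / 200 := by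
  set s := Real.sqrt (2 * C) with hs
  have hs0 : 0 ≤ s := Real.sqrt_nonneg _
  refine ⟨400 * s + 1, by linarith only [hs0], ?_⟩
  rw [Real.exp_neg]
  have h1 : (400 * s + 1) / 2 + 1 ≤ Real.exp ((400 * s + 1) / 2) := Real.add_one_le_exp _
  have h2 : 0 < Real.exp ((400 * s + 1) / 2) := Real.exp_pos _
  rw [inv_mul_le_iff₀ h2]
  linarith only [h1]

private theorem C16_a (η M : ℝ) (hη : 0 < η) : ∃ a : ℝ, 1 ≤ a ∧ M ≤ a ∧ (1 + Real.log a) / a ≤ η ∧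
    4 * Real.pi ^ 2 / a ^ 2 ≤ η ∧ 4 * Real.pi ^ 2 / a ^ 2 ≤ 1 := by
  have hpi : Real.pi ^ 2 ≤ 10 := by
    have h1 := Real.pi_lt_d2
    have h2 := Real.pi_pos
    nlinarith only [h1, h2]
  obtain ⟨b, hb⟩ : ∃ b : ℝ, b = max 40 (max M (40 / η)) := ⟨_, rfl⟩
  have hb1 : 40 ≤ b := hb ▸ le_max_left _ _
  have hb2 : M ≤ b := hb ▸ (le_max_left _ _).trans (le_max_right _ _)
  have hb3 : 40 / η ≤ b := hb ▸ (le_max_right _ _).trans (le_max_right _ _)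
  have hb0 : 0 < b := by linarith only [hb1]
  have h40 : 40 / b ≤ η := by
    rw [div_le_iff₀ hb0]
    rw [div_le_iff₀ hη] at hb3
    linarith only [hb3]
  have hbb : b ≤ b ^ 2 := by nlinarith only [hb1]
  have hlog : Real.log (b ^ 2) ≤ 2 * b := by
    rw [Real.log_pow]
    have := Real.log_le_sub_one_of_pos hb0
    push_cast
    linarith only [this]
  have h4 : 4 * Real.pi ^ 2 / (b ^ 2) ^ 2 ≤ 40 / b := by
    rw [div_le_div_iff₀ (by positivity) hb0]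
    have h5 : b ≤ (b ^ 2) ^ 2 := by nlinarith only [sq_nonneg (b ^ 2 - 1), sq_nonneg b, hb1, hbb]
    nlinarith only [hb1, hbb, hpi]
  refine ⟨b ^ 2, by nlinarith only [hb1, hbb], by linarith only [hb2, hbb], ?_, h4.trans h40, h4.trans ?_⟩
  · refine le_trans ?_ h40
    rw [div_le_div_iff₀ (by positivity) hb0]
    nlinarith only [hb1, hlog]
  · rw [div_le_iff₀ hb0]
    linarith only [hb1]

private theorem C16_H (T : ℝ) (hT : 2 ≤ T) : 1 ≤ Hl (dl * Real.log T) ∧ ((Hl (dl * Real.log T) : ℕ) : ℝ) ^ 20 ≤ Real.sqrt T ∧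
    Real.sqrt T ≤ T := by
  have hT0 : 0 < T := by linarith only [hT]
  have hlog : 0 ≤ Real.log T := Real.log_nonneg (by linarith only [hT])
  have hdl : 0 ≤ dl := by unfold dl; norm_num
  refine ⟨?_, ?_, ?_⟩
  · unfold Hl
    rw [Nat.one_le_floor_iff]
    exact Real.one_le_exp (by positivity)
  · have h1 : ((Hl (dl * Real.log T) : ℕ) : ℝ) ≤ Real.exp (2 * (dl * Real.log T)) := Nat.floor_le (Real.exp_pos _).le
    have h2 : ((Hl (dl * Real.log T) : ℕ) : ℝ) ^ 20 ≤ Real.exp (2 * (dl * Real.log T)) ^ 20 :=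
      pow_le_pow_left₀ (Nat.cast_nonneg _) h1 20
    refine h2.trans ?_
    rw [← Real.exp_nat_mul]
    rw [Real.le_sqrt (Real.exp_pos _).le hT0.le, ← Real.exp_nat_mul]
    nth_rewrite 2 [← Real.exp_log hT0]
    apply Real.exp_le_exp.mpr
    push_cast
    have h3 : 80 * dl ≤ 1 := by unfold dl; norm_num
    nlinarith only [hlog, h3]
  · rw [Real.sqrt_le_left hT0.le]
    nlinarith only [hT]

private theorem C16_sq (a : ℝ) (h : 1 ≤ a) : a ≤ a ^ 2 := by nlinarith only [h]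

private theorem C16_half (E F : ℝ) (hE : 0 ≤ E) (hF0 : 0 < F) (hF : F ≤ 1) : E ≤ 2 * (E / (1 + F)) := by
  have h12 : 0 ≤ E / (1 + F) := by positivity
  have h13 : E / (1 + F) * (1 + F) = E := div_mul_cancel₀ _ (by positivity)
  nlinarith only [h13, hE, hF, hF0]

private theorem C16_exp (T t : ℝ) (hT : 0 < T) :
    Real.exp (-(t / (2 * T))) ^ 2 * Real.exp (-(2 * (1 / (2 * T)) * t)) = Real.exp (-(2 * (1 / T) * t)) ∧
      Real.exp (-(t / T)) ^ 2 = Real.exp (-(2 * (1 / T) * t)) := by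
  constructor
  · rw [← Real.exp_nat_mul, ← Real.exp_add]
    congr 1
    field_simp
    push_cast
    ring
  · rw [← Real.exp_nat_mul]
    congr 1
    field_simp
    push_cast
    ring

private theorem C16_large (C1 η K M δ : ℝ) (hη : 0 < η) (hδ : 0 < δ) : ∀ᶠ T : ℝ in atTop, M ≤ T ∧ K ≤ Real.log T ∧
    C1 * T ^ (1 - δ : ℝ) ≤ η * T ∧ C1 * Real.sqrt T ≤ η * T := by
  have h3 : ∀ᶠ T : ℝ in atTop, C1 * T ^ (1 - δ : ℝ) ≤ η * T := by
    have h := (tendsto_rpow_neg_atTop hδ).const_mul C1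
    rw [mul_zero] at h
    filter_upwards [h.eventually_lt_const hη, eventually_gt_atTop 0] with T hT hT0
    rw [sub_eq_add_neg, Real.rpow_add hT0, Real.rpow_one]
    nlinarith only [hT, hT0]
  have h4 : ∀ᶠ T : ℝ in atTop, C1 * Real.sqrt T ≤ η * T := by
    filter_upwards [eventually_ge_atTop ((C1 / η) ^ 2), eventually_gt_atTop 0] with T hT hT0
    have h5 : C1 / η ≤ Real.sqrt T := by
      by_cases hc : 0 ≤ C1 / η
      · exact Real.le_sqrt_of_sq_le hT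
      · exact le_trans (le_of_lt (not_le.mp hc)) (Real.sqrt_nonneg _)
    rw [div_le_iff₀ hη] at h5
    have h6 := Real.mul_self_sqrt hT0.le
    have h7 := Real.sqrt_nonneg T
    nlinarith only [hη, h6, h5, h7]
  filter_upwards [eventually_ge_atTop M, Real.tendsto_log_atTop.eventually_ge_atTop K, h3, h4] with T a b c d
  exact ⟨a, b, c, d⟩

private theorem F_input_abs3_p1 (T t x x' D W : ℝ) (hT : 0 < T)
    (hx : x ^ 2 = Real.exp (-(2 * (1 / T) * t)) / D * W)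
    (hx' : x' ^ 2 = Real.exp (-(2 * (1 / (2 * T)) * t)) / D * W) :
    |x| = Real.exp (-(t / (2 * T))) * |x'| := by
  have h6 := (C16_exp T t hT).1
  have h0 := Real.exp_pos (-(t / (2 * T)))
  have h7 : |x| ^ 2 = (Real.exp (-(t / (2 * T))) * |x'|) ^ 2 := by
    rw [sq_abs, mul_pow, sq_abs, hx, hx', ← h6]
    ring
  exact (pow_left_inj₀ (abs_nonneg _) (mul_nonneg h0.le (abs_nonneg _)) two_ne_zero).mp h7

private theorem F_input_abs3_p2 (T t x N M : ℝ) (hT : 0 < T) (ht : 0 ≤ t) (hN : 0 ≤ N)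
    (hx : x ^ 2 = Real.exp (-(2 * (1 / T) * t)) / (1 + Real.exp (-(2 * Real.pi * t))) * (N ^ 2 * M ^ 4)) :
    Real.exp (-(t / T)) * (N * M ^ 2) ≤ Real.sqrt 2 * |x| := by
  have h8 := (C16_exp T t hT).2
  have h9 : Real.exp (-(2 * Real.pi * t)) ≤ 1 := by
    rw [Real.exp_le_one_iff]
    exact neg_nonpos.mpr (mul_nonneg (mul_nonneg two_pos.le Real.pi_pos.le) ht)
  have h11 := C16_half _ _ (Real.exp_pos (-(2 * (1 / T) * t))).le (Real.exp_pos _) h9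
  refine (pow_le_pow_iff_left₀ (mul_nonneg (Real.exp_pos _).le (mul_nonneg hN (sq_nonneg M)))
    (mul_nonneg (Real.sqrt_nonneg _) (abs_nonneg _)) two_ne_zero).mp ?_
  rw [mul_pow (Real.sqrt 2), Real.sq_sqrt two_pos.le, sq_abs, hx, mul_pow, h8, mul_pow, ← pow_mul, ← mul_assoc 2]
  exact mul_le_mul_of_nonneg_right h11 (mul_nonneg (sq_nonneg _) (Even.pow_nonneg ⟨2, rfl⟩ M))

private theorem F_input_abs3_rpow (a L : ℝ) (ha0 : 0 < a) (hL0 : 0 < L) (h : a ^ 8 ≤ L) :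
    L ^ (7 / 8 : ℝ) * a ≤ L := by
  have h32 : a ≤ L ^ (1 / 8 : ℝ) := by
    have h1 : a = (a ^ (8 : ℕ)) ^ (1 / 8 : ℝ) := by
      rw [← Real.rpow_natCast, ← Real.rpow_mul ha0.le]
      norm_num
    rw [h1]
    exact Real.rpow_le_rpow (pow_nonneg ha0.le 8) h (by norm_num)
  have h33 : L ^ (7 / 8 : ℝ) * L ^ (1 / 8 : ℝ) = L := by
    rw [← Real.rpow_add hL0]
    norm_num
  exact (mul_le_mul_of_nonneg_left h32 (Real.rpow_nonneg hL0.le _)).trans h33.le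

private theorem F_input_abs3_Y (a L d : ℝ) (ha1 : 1 ≤ a) (hd : 0 < d) (haM : 1 / (6 * d) ≤ a)
    (hL : a ^ 2 + 2 * Real.pi * a + 1 + a ^ 8 ≤ L) :
    ∃ Y : ℝ, 1 ≤ Y / (2 * Real.pi) ∧ Y ≤ 6 * d * L ∧ L ^ (7 / 8 : ℝ) ≤ Y ∧
      2 * Real.pi * (Y / (2 * Real.pi)) = Y ∧ Y / L = 1 / a ∧ L / Y = a ∧
      (Y / (2 * Real.pi))⁻¹ ^ 2 = (a ^ 2 / L) ^ 2 * (4 * Real.pi ^ 2 / a ^ 2) := by
  have ha0 : 0 < a := one_pos.trans_le ha1
  have hp := Real.pi_pos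
  have hp2 : 0 < 2 * Real.pi := mul_pos two_pos hp
  have hpa : 0 < 2 * Real.pi * a := mul_pos hp2 ha0
  have ha2 : 0 < a ^ 2 := pow_pos ha0 2
  have ha8 : 0 < a ^ 8 := pow_pos ha0 8
  have hL0 : 0 < L := by linarith only [hL, hpa, ha2, ha8]
  have hLa : a ^ 8 ≤ L := by linarith only [hL, hpa, ha2]
  have hLp : 2 * Real.pi * a ≤ L := by linarith only [hL, ha8, ha2]
  refine ⟨L / a, ?_, ?_, ?_, mul_div_cancel₀ _ hp2.ne', ?_, ?_, ?_⟩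
  · rw [le_div_iff₀ hp2, le_div_iff₀ ha0, one_mul]
    exact hLp
  · rw [div_le_iff₀ ha0]
    rw [div_le_iff₀ (mul_pos (by norm_num) hd)] at haM
    have := mul_le_mul_of_nonneg_right haM hL0.le
    linarith only [this]
  · rw [le_div_iff₀ ha0]
    exact F_input_abs3_rpow a L ha0 hL0 hLa
  · rw [div_div, mul_comm a L, ← div_div, div_self hL0.ne']
  · exact div_div_cancel₀ hL0.ne'
  · have h1 : (L / a / (2 * Real.pi))⁻¹ = a / L * (2 * Real.pi) := by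
      rw [inv_div, div_div_eq_mul_div]
      ring
    rw [h1, div_pow (a ^ 2) L, div_mul_div_comm, mul_pow, div_pow]
    have h2 : (a ^ 2) ^ 2 * (4 * Real.pi ^ 2) / (L ^ 2 * a ^ 2) = a ^ 2 * (4 * Real.pi ^ 2) / L ^ 2 := by
      rw [pow_two (a ^ 2), mul_assoc (a ^ 2), mul_comm (L ^ 2)]
      exact mul_div_mul_left _ _ ha2.ne'
    rw [h2]
    ring

private theorem F_input_abs3_A1 (T Q : ℝ) (hT : 2 ≤ T) (hQ : Q ≤ Real.sqrt T) :
    (T ^ (1 / 100 : ℝ)) ^ 20 * Q ≤ T ^ (1 - 1 / 50 : ℝ) := by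
  have hT0 : 0 < T := two_pos.trans_le hT
  have j1 : (T ^ (1 / 100 : ℝ)) ^ 20 = T ^ (1 / 5 : ℝ) := by
    rw [← Real.rpow_natCast, ← Real.rpow_mul hT0.le]; norm_num
  have j2 : Real.sqrt T = T ^ (1 / 2 : ℝ) := Real.sqrt_eq_rpow T
  have j3 : T ^ (1 / 5 : ℝ) * T ^ (1 / 2 : ℝ) = T ^ (7 / 10 : ℝ) := by
    rw [← Real.rpow_add hT0]; norm_num
  have j4 : T ^ (7 / 10 : ℝ) ≤ T ^ (1 - 1 / 50 : ℝ) :=
    Real.rpow_le_rpow_of_exponent_le (one_le_two.trans hT) (by norm_num)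
  rw [j1]
  refine (mul_le_mul_of_nonneg_left hQ (Real.rpow_nonneg hT0.le _)).trans ?_
  rw [j2, j3]
  exact j4

private theorem F_input_abs3_A2 (T G C2 : ℝ) (hT0 : 0 < T) (hG : G ≤ C2 * T) :
    (T ^ (1 / 100 : ℝ))⁻¹ ^ 2 * G ≤ C2 * T ^ (1 - 1 / 50 : ℝ) := by
  have j1 : (T ^ (1 / 100 : ℝ))⁻¹ ^ 2 = T ^ (-(1 / 50) : ℝ) := by
    rw [← Real.rpow_neg hT0.le, ← Real.rpow_natCast, ← Real.rpow_mul hT0.le]; norm_num
  have j2 : T ^ (-(1 / 50) : ℝ) * T = T ^ (1 - 1 / 50 : ℝ) := by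
    nth_rewrite 2 [← Real.rpow_one T]
    rw [← Real.rpow_add hT0]; norm_num
  rw [j1, ← j2]
  refine (mul_le_mul_of_nonneg_left hG (Real.rpow_nonneg hT0.le _)).trans (le_of_eq ?_)
  ring

private theorem F_input_abs3_u (C1 C2 B η η2 T : ℝ) (hC : 0 < C1 * C2) (hB : 1 ≤ B)
    (hη : η = 1 / (4 * 10 ^ 4 * B * (C1 * C2 + 1))) (hη2 : η2 = 1 / (8 * 10 ^ 4 * B)) :
    ∃ u : ℝ, 0 < u ∧ C1 * C2 * η ≤ u ∧ η2 = u / 2 ∧ T / (10 ^ 4 * B) = 4 * (u * T) := by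
  have hB0 : 0 < B := one_pos.trans_le hB
  have hE : 0 < 4 * 10 ^ 4 * B := mul_pos (by norm_num) hB0
  refine ⟨1 / (4 * 10 ^ 4 * B), one_div_pos.mpr hE, ?_, ?_, ?_⟩
  · rw [hη, mul_one_div, div_le_div_iff₀ (mul_pos hE (by linarith only [hC])) hE]
    have := mul_pos hE hC
    linarith only [this, hE]
  · rw [hη2]
    field_simp
    norm_num
  · field_simp

private theorem F_input_abs3_key (C1 C2 Cx B η η2 κ G G' R T S : ℝ) (hC1 : 0 < C1) (hC2 : 0 < C2)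
    (hCx : 0 < Cx) (hB : 1 ≤ B) (hT : 0 < T) (hη : η = 1 / (4 * 10 ^ 4 * B * (C1 * C2 + 1)))
    (hη2 : η2 = 1 / (8 * 10 ^ 4 * B)) (i1 : G' ≤ C2 * T * η) (i2 : κ * G ≤ C2 * T * η)
    (i3 : (1 + κ) * R ≤ 2 * ((1 + C2) * S)) (hS : Cx * (1 + C2) * S ≤ η2 * T) :
    C1 * (G' + κ * G) + Cx * ((1 + κ) * R) ≤ T / (10 ^ 4 * B) := by
  obtain ⟨u, hu0, hu1, hu2, hu3⟩ := F_input_abs3_u C1 C2 B η η2 T (mul_pos hC1 hC2) hB hη hη2
  have h1 : C1 * (G' + κ * G) ≤ C1 * (C2 * T * η + C2 * T * η) :=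
    mul_le_mul_of_nonneg_left (add_le_add i1 i2) hC1.le
  have h2 : Cx * ((1 + κ) * R) ≤ Cx * (2 * ((1 + C2) * S)) := mul_le_mul_of_nonneg_left i3 hCx.le
  have h3 : C1 * C2 * η * T ≤ u * T := mul_le_mul_of_nonneg_right hu1 hT.le
  have h4 : 0 < u * T := mul_pos hu0 hT
  rw [hu2] at hS
  rw [hu3]
  linarith only [h1, h2, h3, h4, hS]

private theorem F_input_abs3_num (C1 C2 Cx B η η2 a T L Q G G' X : ℝ) (hC1 : 0 < C1) (hC2 : 0 < C2)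
    (hCx : 0 < Cx) (hB : 1 ≤ B) (hη : η = 1 / (4 * 10 ^ 4 * B * (C1 * C2 + 1)))
    (hη2 : η2 = 1 / (8 * 10 ^ 4 * B)) (ha0 : 0 < a) (ha2 : (1 + Real.log a) / a ≤ η)
    (ha3 : 4 * Real.pi ^ 2 / a ^ 2 ≤ η) (ha4 : 4 * Real.pi ^ 2 / a ^ 2 ≤ 1) (hT : 2 ≤ T)
    (hTs : Cx * (1 + C2) * T ^ (1 - 1 / 50 : ℝ) ≤ η2 * T) (hQ0 : 0 ≤ Q) (hQ : Q ≤ Real.sqrt T)
    (hG0 : 0 ≤ G) (hG1 : G ≤ C2 * T) (hG3 : G' ≤ C2 * T * (1 / a) * (1 + Real.log a))
    (hX : X⁻¹ ^ 2 = (a ^ 2 / L) ^ 2 * (4 * Real.pi ^ 2 / a ^ 2)) :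
    C1 * ((a ^ 2 / L) ^ 2 * G' + X⁻¹ ^ 2 * G) + Cx * (((a ^ 2 / L) ^ 2 + X⁻¹ ^ 2) *
      ((T ^ (1 / 100 : ℝ)) ^ 20 * Q + (T ^ (1 / 100 : ℝ))⁻¹ ^ 2 * G)) ≤
      (a ^ 2 / L) ^ 2 * T / (10 ^ 4 * B) := by
  have hT0 : 0 < T := two_pos.trans_le hT
  have hCT : 0 < C2 * T := mul_pos hC2 hT0
  have hA1 := F_input_abs3_A1 T Q hT hQ
  have hA2 := F_input_abs3_A2 T G C2 hT0 hG1
  have hA0 : 0 ≤ T ^ (1 / 100 : ℝ) := Real.rpow_nonneg hT0.le _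
  have hR0 : 0 ≤ (T ^ (1 / 100 : ℝ)) ^ 20 * Q + (T ^ (1 / 100 : ℝ))⁻¹ ^ 2 * G :=
    add_nonneg (mul_nonneg (pow_nonneg hA0 20) hQ0) (mul_nonneg (sq_nonneg _) hG0)
  have hκ0 : 0 ≤ 4 * Real.pi ^ 2 / a ^ 2 :=
    div_nonneg (mul_nonneg (by norm_num) (sq_nonneg _)) (sq_nonneg _)
  rw [hX]
  have hR1 := add_le_add hA1 hA2
  generalize (T ^ (1 / 100 : ℝ)) ^ 20 * Q + (T ^ (1 / 100 : ℝ))⁻¹ ^ 2 * G = R at hR0 hR1 ⊢
  generalize T ^ (1 - 1 / 50 : ℝ) = S at hTs hR1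
  generalize 4 * Real.pi ^ 2 / a ^ 2 = κ at ha3 ha4 hκ0 ⊢
  generalize a ^ 2 / L = h
  have i1 : G' ≤ C2 * T * η := by
    refine hG3.trans ?_
    have h12 : C2 * T * (1 / a) * (1 + Real.log a) = C2 * T * ((1 + Real.log a) / a) := by ring
    rw [h12]
    exact mul_le_mul_of_nonneg_left ha2 hCT.le
  have i2 : κ * G ≤ C2 * T * η := by
    refine (mul_le_mul_of_nonneg_left hG1 hκ0).trans ?_
    rw [mul_comm]
    exact mul_le_mul_of_nonneg_left ha3 hCT.le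
  have i3 : (1 + κ) * R ≤ 2 * ((1 + C2) * S) := by
    have h15 : (1 + κ) * R ≤ 2 * R := mul_le_mul_of_nonneg_right (by linarith only [ha4]) hR0
    linarith only [h15, hR1]
  have key := F_input_abs3_key C1 C2 Cx B η η2 κ G G' R T S hC1 hC2 hCx hB hT0 hη hη2 i1 i2 i3 hTs
  have e1 : C1 * (h ^ 2 * G' + h ^ 2 * κ * G) + Cx * ((h ^ 2 + h ^ 2 * κ) * R) =
      h ^ 2 * (C1 * (G' + κ * G) + Cx * ((1 + κ) * R)) := by ring
  rw [e1, mul_div_assoc]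
  exact mul_le_mul_of_nonneg_left key (sq_nonneg h)

private theorem F_input_abs3_T1 (T Cx C2 η2 S : ℝ) (hCx : 0 < Cx) (hC2 : 0 < C2) (hT : 0 < T)
    (h1 : Cx * (1 + C2) * S ≤ min η2 1 * T) (h2 : Cx * (1 + C2) * Real.sqrt T ≤ min η2 1 * T) :
    Cx * (1 + C2) * S ≤ η2 * T ∧ Cx * Real.sqrt T ≤ T := by
  have e0 : 0 ≤ Cx * C2 * Real.sqrt T := mul_nonneg (mul_pos hCx hC2).le (Real.sqrt_nonneg T)
  have e1 := mul_le_mul_of_nonneg_right (min_le_left η2 1) hT.le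
  have e2 := mul_le_mul_of_nonneg_right (min_le_right η2 1) hT.le
  exact ⟨h1.trans e1, by linarith only [h2, e0, e2]⟩

private theorem F_input_abs3_l (d T : ℝ) (hd : 0 < d) (hT : 2 ≤ T) :
    0 < d * Real.log T ∧ d / 2 * Real.log T ≤ d * Real.log T ∧
      d / 2 * Real.log (2 * T) ≤ d * Real.log T ∧ d * Real.log T ≤ d * Real.log (2 * T) := by
  have hT0 : 0 < T := two_pos.trans_le hT
  have h1 : Real.log (2 * T) = Real.log 2 + Real.log T := Real.log_mul two_ne_zero hT0.ne'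
  have h2 : 0 < Real.log 2 := Real.log_pos one_lt_two
  have h3 : Real.log 2 ≤ Real.log T := Real.log_le_log two_pos hT
  have h4 := mul_pos hd h2
  have h5 := mul_le_mul_of_nonneg_left h3 hd.le
  rw [h1]
  exact ⟨mul_pos hd (h2.trans_le h3), by linarith only [h4, h5], by linarith only [h5], by linarith only [h4]⟩

private theorem F_input_abs3_C (C1 C2 Cx E G Q T U : ℝ) (hC1 : 0 < C1) (hE : E ≤ C1 * G + Cx * Q)
    (hG : G ≤ C2 * U) (hQ : Cx * Q ≤ T) (hU : T ≤ U) : E ≤ (C1 * C2 + 1) * U := by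
  have h5 := mul_le_mul_of_nonneg_left hG hC1.le
  linarith only [hE, h5, hQ, hU]

private theorem F_input_abs3_L (a L : ℝ) (ha : 0 < a) (hL : a ^ 2 + 2 * Real.pi * a + 1 + a ^ 8 ≤ L) :
    a ^ 2 / L ≤ 1 ∧ 0 < L ∧ 0 < a ^ 2 / L := by
  have h1 : 0 < 2 * Real.pi * a := mul_pos (mul_pos two_pos Real.pi_pos) ha
  have h2 : 0 < a ^ 2 := pow_pos ha 2
  have h3 : 0 < a ^ 8 := pow_pos ha 8
  have hL0 : 0 < L := by linarith only [hL, h1, h2, h3]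
  refine ⟨?_, hL0, div_pos h2 hL0⟩
  rw [div_le_one hL0]
  linarith only [hL, h1, h3]

/-- The analytic input of the counting argument, with absolute constants and shifts. -/
theorem F_input_abs3 : ∃ C B A : ℝ, 0 < C ∧ 1 ≤ B ∧ 0 < A ∧ ∀ (q1 q2 : ℕ) [NeZero q1] [NeZero q2]
    (χ1 : DirichletCharacter ℂ q1) (χ2 : DirichletCharacter ℂ q2) (y : ℝ), χ1.IsPrimitive → χ2.IsPrimitive →
    NeX χ1 y χ2 (-y) →
    ∃ T0 : ℝ, 2 ≤ T0 ∧ ∀ T : ℝ, T0 ≤ T → A / Real.log T ≤ 1 ∧ ∃ (r r0 w : ℝ → ℝ) (u : ℝ → ℂ), Continuous r ∧ (∀ t, r t = r0 t * w t) ∧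
      (∀ t, 0 ≤ w t) ∧ Continuous u ∧ (∀ t, u t ≠ 0) ∧
      (∀ t : ℝ, (r0 t : ℂ) = u t * (LX.Lf χ1 (1 / 2 + (t + y : ℝ) * I) * LX.Lf χ2 (1 / 2 + (t - y : ℝ) * I))) ∧
      Integrable r ∧ Integrable (fun t => r t ^ 2) ∧ T / 3 ≤ (∫ t in Ioc (1 : ℝ) (B * T), |r t|) ∧
      (∫ t, r t ^ 2) ≤ C * T ∧ Integrable (fun t => (∫ s in t..(t + A / Real.log T), r s) ^ 2) ∧
      (∫ t, (∫ s in t..(t + A / Real.log T), r s) ^ 2) ≤ (A / Real.log T) ^ 2 * T / (10 ^ 4 * B) := by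
  obtain ⟨C1, hC1, hTX'⟩ := TX_main_abs3
  obtain ⟨C2, hC2, hEN'⟩ := EN_abs3
  have hC : 0 < C1 * C2 + 1 := add_pos (mul_pos hC1 hC2) one_pos
  obtain ⟨B, hB, hBC⟩ := C16_B (C1 * C2 + 1)
  have hB0 : 0 < B := one_pos.trans_le hB
  obtain ⟨η, hη_def⟩ : ∃ η : ℝ, η = 1 / (4 * 10 ^ 4 * B * (C1 * C2 + 1)) := ⟨_, rfl⟩
  have hη : 0 < η := by
    rw [hη_def]; exact one_div_pos.mpr (mul_pos (mul_pos (by norm_num) hB0) hC)
  obtain ⟨a, ha1, haM, ha2, ha3, ha4⟩ := C16_a η (1 / (6 * dl)) hη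
  have ha0 : 0 < a := one_pos.trans_le ha1
  have hdl0 : 0 < dl := by unfold dl; norm_num
  obtain ⟨η2, hη2_def⟩ : ∃ η2 : ℝ, η2 = 1 / (8 * 10 ^ 4 * B) := ⟨_, rfl⟩
  have hη2 : 0 < η2 := by rw [hη2_def]; exact one_div_pos.mpr (mul_pos (by norm_num) hB0)
  refine ⟨C1 * C2 + 1, B, a ^ 2, hC, hB, pow_pos ha0 2, ?_⟩
  intro q1 q2 _ _ χ1 χ2 y h1 h2 hne
  obtain ⟨c0, Cx, hc0, hCx, hTX⟩ := hTX' q1 q2 χ1 χ2 y h1 h2 hne
  obtain ⟨T2, hT2, hEN⟩ := hEN' q1 q2 χ1 χ2 y (-y) h1 h2 hne c0 hc0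
  obtain ⟨T3, hT3, hFM⟩ := first_moment3 χ1 χ2 y h1 h2
  obtain ⟨T0, hT0⟩ := (C16_large (Cx * (1 + C2)) (min η2 1) (a ^ 2 + 2 * Real.pi * a + 1 + a ^ 8)
    (max (max T2 T3) (max (10 ^ 6 * (C1 * C2 + 1)) 10)) (1 / 50) (lt_min hη2 one_pos)
    (by norm_num)).exists_forall_of_atTop
  refine ⟨max T0 2, le_max_right _ _, ?_⟩
  intro T hT
  obtain ⟨hTM, hTlog, hTp, hTs'⟩ := hT0 T ((le_max_left _ _).trans hT)
  have hTge2 : 2 ≤ T := (le_max_right _ _).trans hT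
  have hTT2 : T2 ≤ T := ((le_max_left _ _).trans (le_max_left _ _)).trans hTM
  have hTT3 : T3 ≤ T := ((le_max_right _ _).trans (le_max_left _ _)).trans hTM
  have hTC : 10 ^ 6 * (C1 * C2 + 1) ≤ T := ((le_max_left _ _).trans (le_max_right _ _)).trans hTM
  have hT10 : 10 ≤ T := ((le_max_right _ _).trans (le_max_right _ _)).trans hTM
  have hTpos : 0 < T := two_pos.trans_le hTge2
  have hT2T : T ≤ 2 * T := by linarith only [hTpos]
  clear hT hTM hT0 hT2 hT3 hTX' hEN'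
  obtain ⟨hTs, hTs1⟩ := F_input_abs3_T1 T Cx C2 η2 _ hCx hC2 hTpos hTp hTs'
  clear hTp hTs'
  obtain ⟨hh1, hlog0, hh0⟩ := F_input_abs3_L a (Real.log T) ha0 hTlog
  refine ⟨hh1, ?_⟩
  obtain ⟨hl0, hl1, hl1', hl2'⟩ := F_input_abs3_l dl T hdl0 hTge2
  obtain ⟨hH1, hH20, -⟩ := C16_H T hTge2
  obtain ⟨l, hl_def⟩ : ∃ l : ℝ, l = dl * Real.log T := ⟨_, rfl⟩
  rw [← hl_def] at hl0 hl1 hl1' hl2' hH1 hH20
  have hl2 : l ≤ dl * Real.log T := hl_def.le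
  obtain ⟨-, hb1, hb2, -⟩ := beta_facts (chx χ1 y) (chx χ2 (-y)) (chx_le χ1 y) (chx_le χ2 (-y)) (chx_one χ1 y) (chx_one χ2 (-y)) l hl0
  have hεT : 1 / T ≤ 1 / 10 := one_div_le_one_div_of_le (by norm_num) hT10
  have hεT' : 1 / (2 * T) ≤ 1 / 10 := one_div_le_one_div_of_le (by norm_num) (hT10.trans hT2T)
  obtain ⟨r, r0, hrc, -, hrr0, hrsq, ⟨u, huc, hu0, hur⟩, hint, hsqint, hE, hlast⟩ :=
    hTX (beta (chx χ1 y) (chx χ2 (-y)) l) (Hl l) (1 / T) hH1 hb2 hb1 (one_div_pos.mpr hTpos) hεT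
  obtain ⟨r', r0', hrc', -, -, hrsq', -, -, hsqint', hE', -⟩ :=
    hTX (beta (chx χ1 y) (chx χ2 (-y)) l) (Hl l) (1 / (2 * T)) hH1 hb2 hb1
      (one_div_pos.mpr (mul_pos two_pos hTpos)) hεT'
  clear hTX
  obtain ⟨hG1, hG2⟩ := hEN T l hTT2 hl1 hl2
  have hG1' := (hEN (2 * T) l (hTT2.trans hT2T) hl1' hl2').1
  clear hEN
  have hQs : Cx * ((Hl l : ℕ) : ℝ) ^ 20 ≤ T := (mul_le_mul_of_nonneg_left hH20 hCx.le).trans hTs1
  have hCr : (∫ t, r t ^ 2) ≤ (C1 * C2 + 1) * T :=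
    F_input_abs3_C C1 C2 Cx _ _ _ T T hC1 hE hG1 hQs le_rfl
  have hCr' : (∫ t, r' t ^ 2) ≤ 2 * (C1 * C2 + 1) * T := by
    have := F_input_abs3_C C1 C2 Cx _ _ _ T (2 * T) hC1 hE' hG1' hQs hT2T
    rw [mul_comm 2 (C1 * C2 + 1), mul_assoc]
    exact this
  clear hE hE' hG1'
  refine ⟨r, r0, fun t => ‖phi (beta (chx χ1 y) (chx χ2 (-y)) l) (Hl l) (1 / 2 + t * I)‖ ^ 2, u, hrc, hrr0,
    fun t => sq_nonneg _, huc, hu0, hur, hint, hsqint, ?_, hCr, ?_⟩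
  · exact F_first r r' (fun t => ‖LX.Lf χ1 (1 / 2 + (t + y : ℝ) * I) * LX.Lf χ2 (1 / 2 + (t - y : ℝ) * I)‖ *
        ‖phi (beta (chx χ1 y) (chx χ2 (-y)) l) (Hl l) (1 / 2 + t * I)‖ ^ 2) T B (C1 * C2 + 1) hrc hrc' hint hsqint hsqint'
      (one_le_two.trans hTge2) hB hC hTC hBC
      (fun t => F_input_abs3_p1 T t _ _ _ _ hTpos (hrsq t) (hrsq' t))
      (fun t ht => F_input_abs3_p2 T t _ _ _ hTpos ht (norm_nonneg _) (hrsq t))
      (fun t => mul_nonneg (norm_nonneg _) (sq_nonneg _)) (hFM T l hTT3 hl1 hl2) hCr hCr'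
  · clear hrc hrc' hrr0 hrsq hrsq' huc hu0 hur hint hsqint hsqint' hFM hCr hCr'
    obtain ⟨Y, hX1, hY2, hYY0, hXY, e1, e2, e3⟩ := F_input_abs3_Y a (Real.log T) dl ha1 hdl0 haM hTlog
    have hA1 : 1 ≤ T ^ (1 / 100 : ℝ) := Real.one_le_rpow (one_le_two.trans hTge2) (by norm_num)
    obtain ⟨hI1, hI2⟩ := hlast (a ^ 2 / Real.log T) (Y / (2 * Real.pi)) (T ^ (1 / 100 : ℝ)) hh0 hh1 hX1 hA1
    refine ⟨hI1, hI2.trans ?_⟩
    have hG3 := hG2 Y hYY0 hY2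
    rw [e1, e2] at hG3
    rw [hXY]
    exact F_input_abs3_num C1 C2 Cx B η η2 a T (Real.log T) _ _ _ _ hC1 hC2 hCx hB hη_def hη2_def ha0 ha2 ha3
      ha4 hTge2 hTs (pow_nonneg (Nat.cast_nonneg _) 20) hH20 (integral_nonneg (fun x => sq_nonneg _)) hG1 hG3 e3

end OO

end

section

open Complex MeasureTheory Set Filter Topology
open scoped ComplexConjugate

namespace OO

private theorem C18_vol (E : Set ℝ) (a N x : ℝ) (ha : 0 ≤ a) (hN : 0 ≤ N) (hE0 : ∀ t ∈ E, 0 < t)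
    (h1 : ENNReal.ofReal x ≤ volume E) (h2 : volume {t ∈ E | a < t} ≤ ENNReal.ofReal N) : x ≤ a + N := by
  have hsub : E ⊆ Ioc 0 a ∪ {t ∈ E | a < t} := by
    intro t ht
    rcases le_or_gt t a with h | h
    · exact Or.inl ⟨hE0 t ht, h⟩
    · exact Or.inr ⟨ht, h⟩
  have h3 : ENNReal.ofReal x ≤ ENNReal.ofReal (a + N) := by
    calc ENNReal.ofReal x ≤ volume E := h1
      _ ≤ volume (Ioc 0 a ∪ {t ∈ E | a < t}) := measure_mono hsub
      _ ≤ volume (Ioc 0 a) + volume {t ∈ E | a < t} := measure_union_le _ _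
      _ ≤ ENNReal.ofReal a + ENNReal.ofReal N := by
          refine add_le_add ?_ h2
          rw [Real.volume_Ioc, sub_zero]
      _ = ENNReal.ofReal (a + N) := (ENNReal.ofReal_add ha hN).symm
  exact (ENNReal.ofReal_le_ofReal_iff (by positivity)).mp h3

/-- Final theorem with shifts. -/
theorem odd_main_abs3 : ∃ c : ℝ, 0 < c ∧ ∀ (q1 q2 : ℕ) [NeZero q1] [NeZero q2] (χ1 : DirichletCharacter ℂ q1)
    (χ2 : DirichletCharacter ℂ q2) (D : ℝ), χ1.IsPrimitive → χ2.IsPrimitive → (Ne12 χ1 χ2 ∨ D ≠ 0) →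
    ∃ T0 : ℝ, 2 ≤ T0 ∧ ∀ T : ℝ, T0 ≤ T →
      {g : ℝ | 0 < g ∧ g ≤ T ∧ Odd (analyticOrderNatAt (LX.Lf χ1) (1 / 2 + g * I) +
        analyticOrderNatAt (LX.Lf χ2) (1 / 2 + (g + D : ℝ) * I))}.Finite ∧
      c * (T * Real.log T) ≤ ({g : ℝ | 0 < g ∧ g ≤ T ∧ Odd (analyticOrderNatAt (LX.Lf χ1) (1 / 2 + g * I) +
        analyticOrderNatAt (LX.Lf χ2) (1 / 2 + (g + D : ℝ) * I))}.ncard : ℝ) := by
  classical
  obtain ⟨C, B, A, hC, hB, hA, hF'⟩ := F_input_abs3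
  have hB0 : 0 < B := lt_of_lt_of_le one_pos hB
  refine ⟨1 / (128 * C * A * B), by positivity, ?_⟩
  intro q1 q2 _ _ χ1 χ2 D h1 h2 hne
  obtain ⟨y, hy⟩ : ∃ y : ℝ, y = -(D / 2) := ⟨_, rfl⟩
  have hNe : NeX χ1 y χ2 (-y) := by
    rcases hne with h | h
    · exact Or.inl h
    · refine Or.inr ?_
      intro he
      apply h
      rw [hy] at he
      linarith only [he]
  obtain ⟨T0, hT0, hF⟩ := hF' q1 q2 χ1 χ2 y h1 h2 hNe
  obtain ⟨a, ha⟩ : ∃ a : ℝ, a = |y| := ⟨_, rfl⟩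
  have ha0 : 0 ≤ a := ha ▸ abs_nonneg y
  refine ⟨B * T0 + (1 + a) + 4 * B ^ 2 + 2 * (1 + a) + 64 * (B * C) * a, ?_, ?_⟩
  · have : 0 ≤ B * T0 := mul_nonneg hB0.le (by linarith only [hT0])
    have h3 : 0 ≤ 64 * (B * C) * a := by positivity
    nlinarith only [sq_nonneg B, this, h3, ha0]
  intro T hT
  refine ⟨F_finite3 χ1 χ2 D T, ?_⟩
  have hBT0 : 0 ≤ B * T0 := mul_nonneg hB0.le (by linarith only [hT0])
  have hBCa : 0 ≤ 64 * (B * C) * a := by positivity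
  have hT1 : B * T0 + (1 + a) ≤ T := by nlinarith only [sq_nonneg B, hT, hBCa, ha0]
  have hT2 : 4 * B ^ 2 ≤ T := by linarith only [hT, hBT0, hBCa, ha0]
  have hT3 : 2 * (1 + a) ≤ T := by nlinarith only [sq_nonneg B, hT, hBT0, hBCa, ha0]
  have hT4 : 64 * (B * C) * a ≤ T := by nlinarith only [sq_nonneg B, hT, hBT0, hBCa, ha0]
  obtain ⟨T', hT'⟩ : ∃ T' : ℝ, T' = (T - (1 + a)) / B := ⟨_, rfl⟩
  have hBT' : B * T' = T - (1 + a) := by rw [hT']; field_simp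
  have hT'0 : T0 ≤ T' := by
    rw [hT', le_div_iff₀ hB0]; linarith only [hT1]
  have hT'2 : 2 ≤ T' := le_trans hT0 hT'0
  have hT'pos : 0 < T' := by linarith only [hT0, hT'0]
  have hlT' : 0 < Real.log T' := Real.log_pos (by linarith only [hT0, hT'0])
  obtain ⟨hle, r, r0, w, u, hr, hrw, hw, hu, hu0, hru, hint, hsq, hia, hib, hci, hc⟩ := hF T' hT'0
  obtain ⟨h, hh⟩ : ∃ h : ℝ, h = A / Real.log T' := ⟨_, rfl⟩
  rw [← hh] at hle hci hc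
  have hh0 : 0 < h := hh ▸ div_pos hA hlT'
  have hreal := F_real r hr hint hsq h T' B C hh0 hle (by linarith only [hT0, hT'0]) hB hC hia hib hc hci
  obtain ⟨S, hS⟩ : ∃ S : Set ℝ, S = {g : ℝ | 0 < g ∧ g ≤ T ∧ Odd (analyticOrderNatAt (LX.Lf χ1) (1 / 2 + g * I) +
        analyticOrderNatAt (LX.Lf χ2) (1 / 2 + (g + D : ℝ) * I))} := ⟨_, rfl⟩
  have hSfin : S.Finite := hS ▸ F_finite3 χ1 χ2 D T
  rw [← hS]
  obtain ⟨St, hSt⟩ : ∃ St : Set ℝ, St = (fun g => g + -y) '' S := ⟨_, rfl⟩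
  have hStfin : St.Finite := hSt ▸ hSfin.image _
  have hStcard : St.ncard = S.ncard := by
    rw [hSt]
    exact Set.ncard_image_of_injective S (add_left_injective (-y))
  obtain ⟨E, hE⟩ : ∃ E : Set ℝ, E = {t ∈ Ioo (0 : ℝ) (B * T') | |∫ s in t..(t + h), r s| < ∫ s in t..(t + h), |r s|} :=
    ⟨_, rfl⟩
  rw [← hE] at hreal
  have hcov := F_cover St {t ∈ E | a < t} hStfin h hh0 (by
      rintro t ⟨ht, hat⟩
      rw [hE] at ht
      obtain ⟨⟨ht0, htB⟩, hlt⟩ := ht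
      by_contra hcon
      push Not at hcon
      have hev : ∀ g ∈ Ioo t (t + h), Even (analyticOrderNatAt
          (fun s => LX.Lf χ1 (s + y * I) * LX.Lf χ2 (s + ((-y : ℝ) : ℂ) * I)) (1 / 2 + g * I)) := by
        intro g hg
        rw [(F_orders3 χ1 χ2 y g).2.2]
        by_contra hodd
        rw [Nat.not_even_iff_odd] at hodd
        have hya : -a ≤ y := by rw [ha]; exact neg_abs_le y
        have hya' : y ≤ a := by rw [ha]; exact le_abs_self y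
        have hgS : g ∈ St := by
          rw [hSt, hS]
          refine ⟨g + y, ⟨by linarith only [hg.1, hat, hya], ?_, ?_⟩, by ring⟩
          · have := hg.2
            rw [hBT'] at htB
            linarith only [hle, htB, this, hya']
          · have e2 : (g + y + D : ℝ) = g - y := by rw [hy]; ring
            rw [e2]
            exact hodd
        exact absurd hg.2 (not_lt.mpr (hcon g hgS hg.1))
      have hsign := F_sign (fun s => LX.Lf χ1 (s + y * I) * LX.Lf χ2 (s + ((-y : ℝ) : ℂ) * I)) u r0 hu hu0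
        (fun t => by
          rw [hru t]
          congr 2
          · congr 1; push_cast; ring
          · congr 1; push_cast; ring)
        (fun t => (F_orders3 χ1 χ2 y t).1) (fun t => (F_orders3 χ1 χ2 y t).2.1) t (t + h) hev
      have hconst := F_const r r0 w hrw hw t h hh0 hsign
      exact absurd hconst hlt.ne)
  rw [hStcard] at hcov
  have hfin : T' / (16 * C) ≤ a + h * S.ncard := C18_vol E a (h * S.ncard) (T' / (16 * C)) ha0 (by positivity)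
    (fun t ht => by rw [hE] at ht; exact ht.1.1) hreal hcov
  have hT'lb : T / (2 * B) ≤ T' := by
    rw [hT', div_le_div_iff₀ (by positivity) hB0]; nlinarith only [hB, hT3]
  have hTpos : 0 < T := by linarith only [hT3, ha0]
  have hfin2 : T' / (32 * C) ≤ h * S.ncard := by
    have e1 : a ≤ T' / (32 * C) := by
      rw [le_div_iff₀ (by positivity)]
      refine le_trans ?_ hT'lb
      rw [le_div_iff₀ (by positivity)]
      linarith only [hT4]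
    have e2 : T' / (16 * C) = T' / (32 * C) + T' / (32 * C) := by field_simp; ring
    linarith only [hfin, e1, e2]
  have hlog : Real.log T / 2 ≤ Real.log T' := by
    have h2 : Real.sqrt T ≤ T' := by
      refine le_trans ?_ hT'lb
      rw [le_div_iff₀ (by positivity)]
      have hs : 2 * B ≤ Real.sqrt T := by
        apply Real.le_sqrt_of_sq_le
        linarith only [hT2]
      calc Real.sqrt T * (2 * B) ≤ Real.sqrt T * Real.sqrt T :=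
            mul_le_mul_of_nonneg_left hs (Real.sqrt_nonneg _)
        _ = T := Real.mul_self_sqrt hTpos.le
    calc Real.log T / 2 = Real.log (Real.sqrt T) := by rw [Real.log_sqrt hTpos.le]
      _ ≤ Real.log T' := Real.log_le_log (Real.sqrt_pos.mpr hTpos) h2
  have hlT : 0 ≤ Real.log T := Real.log_nonneg (by linarith only [hT3, ha0])
  have hkey : T' * Real.log T' / (32 * C * A) ≤ (S.ncard : ℝ) := by
    rw [hh, div_mul_eq_mul_div, div_le_div_iff₀ (by positivity) hlT'] at hfin2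
    rw [div_le_iff₀ (by positivity)]
    linarith only [hfin2]
  refine le_trans ?_ hkey
  have hmul : (T / (2 * B)) * (Real.log T / 2) ≤ T' * Real.log T' :=
    mul_le_mul hT'lb hlog (by positivity) hT'pos.le
  have heq : 1 / (128 * C * A * B) * (T * Real.log T) = ((T / (2 * B)) * (Real.log T / 2)) / (32 * C * A) := by
    generalize Real.log T = L
    field_simp
    ring
  calc 1 / (128 * C * A * B) * (T * Real.log T) = ((T / (2 * B)) * (Real.log T / 2)) / (32 * C * A) := heq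
    _ ≤ T' * Real.log T' / (32 * C * A) := by
        apply div_le_div_of_nonneg_right hmul (by positivity)

end OO

end
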